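import Pool.Agent.P.MP_6472e5_gt.Ca3

/-! Closedness and lower semicontinuity. -/

set_option autoImplicit false
set_option linter.unusedSectionVars false

noncomputable section

namespace RC

open MeasureTheory Set Filter Topology Metric

variable {X : Type} [MetricSpace X] [SecondCountableTopology X] [MeasurableSpace X] [BorelSpace X]
  {μ : Measure X}

namespace DS

variable {D : DS μ}

theorem ca4c_seq {u : ℕ → X → ℝ} {f : X → ℝ} {C : ℝ} (hu : ∀ᶠ i in atTop, u i ∈ D.V ∧ D.E (u i) ≤ C)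
    (hf : MemLp f 2 μ) (h : Tendsto (fun i => n2 μ (u i - f)) atTop (𝓝 0)) :
    f ∈ D.V ∧ ∀ g ∈ D.V, ∀ ψ : X → ℝ, AEStronglyMeasurable ψ μ → Bdd μ ψ →
      Tendsto (fun i => ∫ x, ψ x * D.G (u i) g x ∂μ) atTop (𝓝 (∫ x, ψ x * D.G f g x ∂μ)) := by
  obtain ⟨N, hN⟩ := eventually_atTop.1 hu
  have h1 : ∀ k, u (k + N) ∈ D.V := fun k => (hN _ le_add_self).1
  have h2 : ∀ k, ∫ x, D.Γ (u (k + N)) (u (k + N)) x ∂μ ≤ C := fun k =>
    E_eq (h1 k) ▸ (hN _ le_add_self).2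
  have h3 := (tendsto_add_atTop_iff_nat N).2 h
  have h4 := (D.Γ_mazur h1 hf h3 h2).1
  have e : ∀ a ∈ D.V, ∀ g ∈ D.V, ∀ ψ : X → ℝ,
      ∫ x, ψ x * D.G a g x ∂μ = ∫ x, ψ x * D.Γ a g x ∂μ := fun a ha g hg ψ =>
    integral_congr_ae ((G_eq ha hg).mono fun x hx => congrArg (ψ x * ·) hx)
  refine ⟨h4, fun g hg ψ hm hψ => (tendsto_add_atTop_iff_nat N).1 ?_⟩
  simp only [e _ (h1 _) g hg, e _ h4 g hg]
  exact D.Γ_weak h1 hf h3 h2 hg hm hψ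

theorem ca4c_lsc {ι : Type} {l : Filter ι} [l.NeBot] [l.IsCountablyGenerated] {u : ι → X → ℝ}
    {f : X → ℝ} {C : ℝ} (hu : ∀ᶠ i in l, u i ∈ D.V ∧ D.E (u i) ≤ C) (hf : MemLp f 2 μ)
    (h : Tendsto (fun i => n2 μ (u i - f)) l (𝓝 0)) : f ∈ D.V ∧ ∀ ψ : X → ℝ,
    AEStronglyMeasurable ψ μ → Bdd μ ψ → (∀ᵐ x ∂μ, 0 ≤ ψ x) → ∀ (b : ι → ℝ) (a : ℝ),
    (∀ᶠ i in l, ∫ x, ψ x * D.G (u i) (u i) x ∂μ ≤ b i) → Tendsto b l (𝓝 a) →
    ∫ x, ψ x * D.G f f x ∂μ ≤ a := by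
  obtain ⟨s, hs⟩ := l.exists_seq_tendsto
  obtain ⟨h1, h2⟩ := ca4c_seq (u := fun k => u (s k)) (hs.eventually hu) hf (h.comp hs)
  refine ⟨h1, fun ψ hm hψ h0 b a hb ha => ?_⟩
  have h3 := ((h2 f h1 ψ hm hψ).const_mul 2).sub_const (∫ x, ψ x * D.G f f x ∂μ)
  rw [two_mul, add_sub_cancel_right] at h3
  refine le_of_tendsto_of_tendsto h3 (ha.comp hs) ?_
  filter_upwards [hs.eventually hu, hs.eventually hb] with k hk hb
  refine le_trans ?_ hb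
  have i1 := hψ.mul_integrable hm (G_int hk.1 h1)
  rw [← integral_const_mul, ← integral_sub (i1.const_mul 2) (hψ.mul_integrable hm (G_int h1 h1))]
  refine integral_mono_ae ((i1.const_mul 2).sub (hψ.mul_integrable hm (G_int h1 h1)))
    (hψ.mul_integrable hm (G_int hk.1 hk.1)) ?_
  filter_upwards [h0, G_sub_sub (D.W_of_mem hk.1) (D.W_of_mem h1),
    G_nonneg (D.W_of_mem (D.sub_mem hk.1 h1))] with x h0 e h
  rw [e] at h
  linarith [mul_nonneg h0 h]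

theorem ca4c_mul {χ u g : X → ℝ} (hχ : LipB χ) (hu : D.W u) (hg : D.W g) :
    ∀ᵐ x ∂μ, D.G (χ * u) g x = χ x * D.G u g x + u x * D.G χ g x := by
  refine D.ae_of_balls fun z r => ?_
  obtain ⟨u', hu', e1, -⟩ := hu.exists_mem z r
  obtain ⟨g', hg', e2, -⟩ := hg.exists_mem z r
  have h1 := D.lip χ hχ
  have h2 := D.mul_mem_lipB hχ hu'
  filter_upwards [G_loc (D.W_of_mem (hu χ hχ)) (D.W_of_mem h2) hg (D.W_of_mem hg'),
    G_loc hu (D.W_of_mem hu') hg (D.W_of_mem hg'),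
    G_loc (D.W_of_mem h1) (D.W_of_mem h1) hg (D.W_of_mem hg'), G_eq h2 hg', G_eq hu' hg',
    G_eq h1 hg', D.Γ_mul h1 hu' h2 hg'] with x a1 a2 a3 a4 a5 a6 a7 hx
  rw [a1 (congrArg (χ x * ·) (e1 x hx).symm) (e2 x hx).symm, a2 (e1 x hx).symm (e2 x hx).symm,
    a3 rfl (e2 x hx).symm, a4, a5, a6, a7, e1 x hx]

theorem ca4c_sq {χ u : X → ℝ} (hχ : LipB χ) (hu : D.W u) : ∀ᵐ x ∂μ,
    D.G (χ * u) (χ * u) x ≤ 2 * (χ x ^ 2 * D.G u u x) + 2 * (D.G χ χ x * u x ^ 2) := by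
  have h1 := D.W_of_mem (D.lip χ hχ)
  have h2 := D.W_of_mem (hu χ hχ)
  filter_upwards [ca4c_mul hχ hu h2, ca4c_mul hχ hu hu, ca4c_mul hχ hu h1, G_symm hu h2,
    G_symm h1 h2, G_symm hu h1, G_cs h1 hu, G_nonneg h1, G_nonneg hu]
    with x a1 a2 a3 a4 a5 a6 a7 a8 a9
  rw [a1, a4, a5, a2, a3, a6]
  have : 2 * (χ x * u x * D.G χ u x) ≤ χ x ^ 2 * D.G u u x + D.G χ χ x * u x ^ 2 :=
    (abs_le_of_sq_le_sq' (by
      nlinarith [mul_le_mul_of_nonneg_left a7 (sq_nonneg (χ x * u x)),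
        sq_nonneg (χ x ^ 2 * D.G u u x - D.G χ χ x * u x ^ 2)]) (by positivity)).2
  linarith

theorem ca4c_n2 {χ g : X → ℝ} (hχ : LipB χ) {M : ℝ} (hM : ∀ y, |χ y| ≤ M) {B : Set X}
    (hB : MeasurableSet B) (h0 : ∀ y, y ∉ B → χ y = 0) (hg : MemLp g 2 (μ.restrict B)) :
    MemLp (χ * g) 2 μ ∧ n2 μ (χ * g) ≤ M ^ 2 * n2 (μ.restrict B) g := by
  have h1 : MemLp (χ * g) 2 (μ.restrict B) :=
    hχ.bdd.mul_memLp hχ.continuous.aestronglyMeasurable hg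
  have e : B.indicator (χ * g) = χ * g :=
    indicator_eq_self.2 fun y hy => by_contra fun h => hy (by simp [h0 y h])
  refine ⟨e ▸ (memLp_indicator_iff_restrict hB).2 h1, ?_⟩
  rw [n2, n2, ← setIntegral_eq_integral_of_forall_compl_eq_zero (s := B)
    fun y hy => by simp [h0 y hy], ← integral_const_mul]
  refine integral_mono h1.integrable_sq (hg.integrable_sq.const_mul _) fun y => ?_
  simp only [Pi.mul_apply, mul_pow]
  exact mul_le_mul_of_nonneg_right (sq_le_sq' (abs_le.1 (hM y)).1 (abs_le.1 (hM y)).2) (sq_nonneg _)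

theorem ca4c_key [Nonempty X] {u : ℕ → X → ℝ} {f : X → ℝ} (hu : ∀ k, D.W (u k))
    (hf : AEStronglyMeasurable f μ)
    (h : ∀ x r, Tendsto (fun k => ∫⁻ y in ball x r, ‖u k y - f y‖ₑ ^ 2 ∂μ) atTop (𝓝 0))
    (hC : ∀ x r, ∃ C, ∀ k, ∫ y in ball x r, D.G (u k) (u k) y ∂μ ≤ C) {χ : X → ℝ} (hχ : LipB χ) :
    ∃ C, (∀ᶠ k in atTop, χ * u k ∈ D.V ∧ D.E (χ * u k) ≤ C) ∧ MemLp (χ * f) 2 μ ∧
      Tendsto (fun k => n2 μ (χ * u k - χ * f)) atTop (𝓝 0) := by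
  obtain ⟨z⟩ := ‹Nonempty X›
  obtain ⟨R, -, h0⟩ := hχ.exists_ball z
  obtain ⟨M, hM⟩ := hχ.bound
  obtain ⟨M', hM', bG⟩ := (hχ.bddG (D := D)).nonneg
  obtain ⟨C, hC⟩ := hC z R
  have m1 : ∀ k, MemLp (u k) 2 (μ.restrict (ball z R)) := fun k =>
    (memLp_two_iff_integrable_sq (hu k).aesm.restrict).2 ((hu k).locInt_sq z R)
  have a1 : ∀ k, AEStronglyMeasurable (u k - f) (μ.restrict (ball z R)) := fun k =>
    ((hu k).aesm.sub hf).restrict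
  have m2 : MemLp f 2 (μ.restrict (ball z R)) := by
    obtain ⟨k, hk⟩ := ((h z R).eventually (gt_mem_nhds ENNReal.zero_lt_top)).exists
    simpa using (m1 k).sub ((memLp_two_iff_integrable_sq (a1 k)).2
      ⟨(a1 k).pow 2, by simpa [HasFiniteIntegral] using hk⟩)
  have t : Tendsto (fun k => n2 (μ.restrict (ball z R)) (u k - f)) atTop (𝓝 0) := by
    refine ((ENNReal.tendsto_toReal ENNReal.zero_ne_top).comp (h z R)).congr fun k => ?_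
    simpa [n2] using (integral_norm_eq_lintegral_enorm ((a1 k).pow 2)).symm
  refine ⟨2 * (M ^ 2 * C) + 2 * (M' * (2 * 1 + 2 * n2 (μ.restrict (ball z R)) f)), ?_,
    (ca4c_n2 hχ hM measurableSet_ball h0 m2).1, squeeze_zero (fun _ => n2_nonneg _) (fun k => ?_)
      (by simpa using t.const_mul (M ^ 2))⟩
  · filter_upwards [t.eventually (ge_mem_nhds one_pos)] with k hk
    have h1 := hu k χ hχ
    have i1 := (G_locInt (hu k) (hu k) z R).const_mul (M ^ 2)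
    have i2 := ((hu k).locInt_sq z R).const_mul M'
    have b1 := n2_add_le ((m1 k).sub m2) m2
    rw [sub_add_cancel] at b1
    refine ⟨h1, ?_⟩
    calc _ = ∫ y in ball z R, D.G (χ * u k) (χ * u k) y ∂μ :=
          (setIntegral_eq_integral_of_ae_compl_eq_zero ((G_level (D.W_of_mem h1) (D.W_of_mem h1)
            0).mono fun y hy hy' => hy (by simp [h0 y hy']))).symm
      _ ≤ ∫ y in ball z R, 2 * (M ^ 2 * D.G (u k) (u k) y) + 2 * (M' * u k y ^ 2) ∂μ := by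
          refine integral_mono_ae (G_int h1 h1).restrict ((i1.const_mul 2).add (i2.const_mul 2))
            (ae_restrict_of_ae ?_)
          filter_upwards [ca4c_sq hχ (hu k), bG, G_nonneg (hu k)] with y a1 a2 a3
          linarith [mul_le_mul_of_nonneg_right (abs_le.1 a2).2 (sq_nonneg (u k y)),
            mul_le_mul_of_nonneg_right (sq_le_sq' (abs_le.1 (hM y)).1 (abs_le.1 (hM y)).2) a3]
      _ ≤ _ := by
          rw [integral_add (i1.const_mul 2) (i2.const_mul 2)]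
          simp only [integral_const_mul]
          gcongr
          · exact hC k
          · exact b1.trans (by linarith)
  · rw [← mul_sub]
    exact (ca4c_n2 hχ hM measurableSet_ball h0 ((m1 k).sub m2)).2

theorem ca4c_cut [Nonempty X] {ψ : X → ℝ} (hψ : Bornology.IsBounded (Function.support ψ)) :
    ∃ χ, LipB χ ∧ ∀ a b, D.W a → D.W b →
      ∫ x, ψ x * D.G a b x ∂μ = ∫ x, ψ x * D.G (χ * a) (χ * b) x ∂μ := by
  obtain ⟨z⟩ := ‹Nonempty X›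
  obtain ⟨r, hr⟩ := hψ.subset_closedBall z
  obtain ⟨χ, hχ, -, h1, -⟩ := exists_cutoff_ball z (lt_add_one r)
  refine ⟨χ, hχ, fun a b ha hb => integral_congr_ae ?_⟩
  filter_upwards [G_loc ha (D.W_of_mem (ha χ hχ)) hb (D.W_of_mem (hb χ hχ))] with x hx
  by_cases h : ψ x = 0
  · simp [h]
  · rw [hx (by simp [h1 x (hr h)]) (by simp [h1 x (hr h)])]

theorem G_tendsto {ι : Type} {l : Filter ι} {u v : ι → X → ℝ} {f g : X → ℝ}
    (hu : ∀ᶠ i in l, u i ∈ D.V) (hv : ∀ᶠ i in l, v i ∈ D.V) (hf : f ∈ D.V) (hg : g ∈ D.V)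
    (h1 : Tendsto (fun i => D.E (u i - f)) l (𝓝 0))
    (h2 : Tendsto (fun i => D.E (v i - g)) l (𝓝 0)) :
    Tendsto (fun i => ∫ x, |D.G (u i) (v i) x - D.G f g x| ∂μ) l (𝓝 0) := by
  refine (D.Γ_tendsto hu hv hf hg (h1.congr' (hu.mono fun i hi => E_eq (D.sub_mem hi hf)))
    (h2.congr' (hv.mono fun i hi => E_eq (D.sub_mem hi hg)))).congr' ?_
  filter_upwards [hu, hv] with i hu hv
  refine integral_congr_ae ?_
  filter_upwards [G_eq hu hv, G_eq hf hg] with x a b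
  rw [a, b]

/-- Lower semicontinuity of the energy. -/
theorem mem_of_bdd {ι : Type} {l : Filter ι} [l.NeBot] [l.IsCountablyGenerated] {u : ι → X → ℝ}
    {f : X → ℝ} {C : ℝ} (hu : ∀ᶠ i in l, u i ∈ D.V ∧ D.E (u i) ≤ C) (hf : MemLp f 2 μ)
    (h : Tendsto (fun i => n2 μ (u i - f)) l (𝓝 0)) : f ∈ D.V ∧ D.E f ≤ C := by
  obtain ⟨h1, h2⟩ := ca4c_lsc hu hf h
  exact ⟨h1, by
    simpa [E] using h2 (fun _ => 1) aestronglyMeasurable_const (.const 1) (by simp) (fun _ => C) C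
      (hu.mono fun i hi => by simpa [E] using hi.2) tendsto_const_nhds⟩

theorem G_weak {ι : Type} {l : Filter ι} [l.IsCountablyGenerated] {u : ι → X → ℝ}
    {f : X → ℝ} {C : ℝ} (hu : ∀ᶠ i in l, u i ∈ D.V ∧ D.E (u i) ≤ C) (hf : MemLp f 2 μ)
    (h : Tendsto (fun i => n2 μ (u i - f)) l (𝓝 0)) {g : X → ℝ} (hg : g ∈ D.V) {ψ : X → ℝ}
    (hm : AEStronglyMeasurable ψ μ) (hψ : Bdd μ ψ) :
    Tendsto (fun i => ∫ x, ψ x * D.G (u i) g x ∂μ) l (𝓝 (∫ x, ψ x * D.G f g x ∂μ)) :=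
  tendsto_of_seq_tendsto fun s hs =>
    (ca4c_seq (u := fun k => u (s k)) (hs.eventually hu) hf (h.comp hs)).2 g hg ψ hm hψ

/-- Weighted lower semicontinuity. -/
theorem G_lsc {ι : Type} {l : Filter ι} [l.NeBot] [l.IsCountablyGenerated] {u : ι → X → ℝ}
    {f : X → ℝ} {C : ℝ} (hu : ∀ᶠ i in l, u i ∈ D.V ∧ D.E (u i) ≤ C) (hf : MemLp f 2 μ)
    (h : Tendsto (fun i => n2 μ (u i - f)) l (𝓝 0)) {ψ : X → ℝ}
    (hm : AEStronglyMeasurable ψ μ) (hψ : Bdd μ ψ) (h0 : ∀ᵐ x ∂μ, 0 ≤ ψ x) {b : ι → ℝ} {a : ℝ}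
    (hb : ∀ᶠ i in l, ∫ x, ψ x * D.G (u i) (u i) x ∂μ ≤ b i) (ha : Tendsto b l (𝓝 a)) :
    ∫ x, ψ x * D.G f f x ∂μ ≤ a :=
  (ca4c_lsc hu hf h).2 ψ hm hψ h0 b a hb ha

/-- Local closedness: local `L²` limits with local energy bounds. -/
theorem W_of_lim {u : ℕ → X → ℝ} {f : X → ℝ} (hu : ∀ k, D.W (u k))
    (hf : AEStronglyMeasurable f μ)
    (h : ∀ x r, Tendsto (fun k => ∫⁻ y in ball x r, ‖u k y - f y‖ₑ ^ 2 ∂μ) atTop (𝓝 0))
    (hC : ∀ x r, ∃ C, ∀ k, ∫ y in ball x r, D.G (u k) (u k) y ∂μ ≤ C) :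
    D.W f ∧ (∀ g ψ : X → ℝ, D.W g → AEStronglyMeasurable ψ μ → Bdd μ ψ →
      Bornology.IsBounded (Function.support ψ) →
      Tendsto (fun k => ∫ x, ψ x * D.G (u k) g x ∂μ) atTop (𝓝 (∫ x, ψ x * D.G f g x ∂μ))) ∧
    ∀ γ : X → ℝ, LocInt μ γ → (∀ ψ, LipB ψ → (∀ x, 0 ≤ ψ x) → ∀ ε, 0 < ε →
      ∀ᶠ k in atTop, ∫ x, ψ x * D.G (u k) (u k) x ∂μ ≤ ∫ x, ψ x * γ x ∂μ + ε) →
      ∀ᵐ x ∂μ, D.G f f x ≤ γ x := by
  rcases isEmpty_or_nonempty X with hX | hX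
  · exact ⟨Subsingleton.elim (u 0) f ▸ hu 0, fun _ _ _ _ _ _ => by
      simp only [integral_of_isEmpty, tendsto_const_nhds], fun _ _ _ => .of_forall isEmptyElim⟩
  have hW : D.W f := fun χ hχ => by
    obtain ⟨C, h1, h2, h3⟩ := ca4c_key hu hf h hC hχ
    exact (mem_of_bdd h1 h2 h3).1
  refine ⟨hW, fun g ψ hg hm hψ hs => ?_, fun γ hγ hle => ?_⟩
  · obtain ⟨χ, hχ, e⟩ := ca4c_cut (D := D) hs
    obtain ⟨C, h1, h2, h3⟩ := ca4c_key hu hf h hC hχ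
    simp only [e _ g (hu _) hg, e _ g hW hg]
    exact G_weak h1 h2 h3 (hg χ hχ) hm hψ
  · refine (D.ae_le_of_test (G_locInt hW hW) hγ isOpen_univ fun ψ hψ _ h0 =>
      le_of_forall_pos_le_add fun ε hε => ?_).mono fun x hx => hx trivial
    obtain ⟨χ, hχ, e⟩ := ca4c_cut (D := D) hψ.2
    obtain ⟨C, h1, h2, h3⟩ := ca4c_key hu hf h hC hχ
    rw [e f f hW hW]
    exact G_lsc h1 h2 h3 hψ.continuous.aestronglyMeasurable hψ.bdd (.of_forall h0)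
      ((hle ψ hψ h0 ε hε).mono fun k hk => e _ _ (hu k) (hu k) ▸ hk) tendsto_const_nhds

end DS

end RC
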