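import Pool.Agent.P.MP_6472e5_gt.De
import Pool.Agent.P.MP_6472e5_gt.Ca4c

/-! Derivatives in the energy norm. -/

set_option autoImplicit false
set_option linter.unusedSectionVars false

noncomputable section

namespace RC

open MeasureTheory Set Filter Topology Metric

variable {X : Type} [MetricSpace X] [SecondCountableTopology X] [MeasurableSpace X] [BorelSpace X]
  {μ : Measure X}

namespace DS

variable {D : DS μ}

theorem deV_tend (t : ℝ) : Tendsto (fun h : ℝ => t + h) (𝓝[≠] 0) (𝓝 t) := by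
  have h : Tendsto (fun h : ℝ => t + h) (𝓝 0) (𝓝 (t + 0)) := tendsto_const_nhds.add tendsto_id
  rw [add_zero] at h
  exact h.mono_left nhdsWithin_le_nhds

theorem deV_DQ (u : ℝ → X → ℝ) (t h : ℝ) : DQ u t h = h⁻¹ • (u (t + h) - u t) := by
  funext x
  simp only [DQ, Pi.smul_apply, Pi.sub_apply, smul_eq_mul, div_eq_inv_mul]

theorem deV_mem {u : ℝ → X → ℝ} {t : ℝ} (hu : ∀ᶠ s in 𝓝 t, u s ∈ D.V) :
    ∀ᶠ h in 𝓝[≠] (0 : ℝ), DQ u t h ∈ D.V := by
  filter_upwards [(deV_tend t).eventually hu] with h hh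
  rw [deV_DQ]
  exact D.smul _ _ (D.sub_mem hh hu.self_of_nhds)

theorem deV_E_zero : D.E (0 : X → ℝ) = 0 := by
  have h := E_smul (D := D) 0 (D.W_of_mem D.zero_mem)
  simpa using h

theorem deV_chain {ε : ℝ} (hε : 0 < ε) : ∃ (Φ Φ' : ℝ → ℝ) (L : NNReal), LipschitzWith L Φ ∧
    Φ 0 = 0 ∧ (∀ a, HasDerivAt Φ (Φ' a) a) ∧ Continuous Φ' ∧
    ∀ a, 0 ≤ a → Φ a = √(a + ε ^ 2) - ε ∧ Φ' a = 1 / (2 * √(a + ε ^ 2)) := by
  have hpos : ∀ a : ℝ, ε ≤ √(max a 0 + ε ^ 2) := fun a =>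
    Real.le_sqrt_of_sq_le (le_add_of_nonneg_left (le_max_right a 0))
  have hc : Continuous fun a : ℝ => 1 / (2 * √(max a 0 + ε ^ 2)) := by
    refine continuous_const.div (by fun_prop) fun a => ?_
    have := hpos a
    positivity
  have hd : ∀ a, HasDerivAt (fun b => ∫ x in (0 : ℝ)..b, 1 / (2 * √(max x 0 + ε ^ 2)))
      (1 / (2 * √(max a 0 + ε ^ 2))) a := fun a => (hc.integral_hasStrictDerivAt 0 a).hasDerivAt
  refine ⟨_, _, NNReal.mk (1 / (2 * ε)) (by positivity), ?_, ?_, hd, hc, fun a ha => ⟨?_, ?_⟩⟩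
  · refine lipschitzWith_of_nnnorm_deriv_le (fun a => (hd a).differentiableAt) fun a => ?_
    rw [(hd a).deriv, ← NNReal.coe_le_coe, coe_nnnorm, NNReal.coe_mk, Real.norm_eq_abs]
    have h1 := hpos a
    rw [abs_of_nonneg (by positivity)]
    exact one_div_le_one_div_of_le (by positivity) (by linarith)
  · exact intervalIntegral.integral_same
  · have h1 : ∀ x ∈ uIcc (0 : ℝ) a, HasDerivAt (fun b => √(b + ε ^ 2))
        (1 / (2 * √(max x 0 + ε ^ 2))) x := by
      intro x hx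
      rw [uIcc_of_le ha] at hx
      rw [max_eq_left hx.1]
      have h2 : x + ε ^ 2 ≠ 0 := by have := hx.1; positivity
      exact ((hasDerivAt_id x).add_const (ε ^ 2)).sqrt h2
    rw [intervalIntegral.integral_eq_sub_of_hasDerivAt h1 (hc.intervalIntegrable 0 a), zero_add,
      Real.sqrt_sq hε.le]
  · rw [max_eq_left ha]

theorem DerV.derL2 {u : ℝ → X → ℝ} {w : X → ℝ} {t : ℝ} (h : D.DerV u w t) : DerL2 μ u w t :=
  ⟨h.1.mono fun _ hs => D.memLp _ hs, D.memLp _ h.2.1, h.2.2.1⟩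

theorem DerV.congr {u u' : ℝ → X → ℝ} {w w' : X → ℝ} {t : ℝ} (h : D.DerV u w t)
    (hu : ∀ᶠ s in 𝓝 t, u s =ᵐ[μ] u' s) (hw : w =ᵐ[μ] w') : D.DerV u' w' t := by
  refine ⟨(h.1.and hu).mono fun s hs => D.congr _ hs.1 _ hs.2, D.congr _ h.2.1 _ hw,
    (h.derL2.congr hu hw).2.2, h.2.2.2.congr' ?_⟩
  filter_upwards [deV_mem h.1, (deV_tend t).eventually hu] with k hk hk'
  refine E_congr (D.W_of_mem (D.sub_mem hk h.2.1)) ?_
  filter_upwards [hk', hu.self_of_nhds, hw] with x h1 h2 h3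
  simp only [Pi.sub_apply, DQ, h1, h2, h3]

theorem DerV.add {u v : ℝ → X → ℝ} {w z : X → ℝ} {t : ℝ} (h : D.DerV u w t)
    (h' : D.DerV v z t) : D.DerV (fun s => u s + v s) (w + z) t := by
  refine ⟨(h.1.and h'.1).mono fun s hs => D.add _ hs.1 _ hs.2, D.add _ h.2.1 _ h'.2.1,
    (h.derL2.add h'.derL2).2.2, ?_⟩
  have he : ∀ k, DQ (fun s => u s + v s) t k - (w + z) = (DQ u t k - w) + (DQ v t k - z) := by
    intro k
    funext x
    simp only [Pi.sub_apply, Pi.add_apply, DQ]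
    ring
  have hl := (h.2.2.2.const_mul 2).add (h'.2.2.2.const_mul 2)
  rw [mul_zero, add_zero] at hl
  refine squeeze_zero' ?_ ?_ hl
  · filter_upwards [deV_mem h.1, deV_mem h'.1] with k h1 h2
    rw [he]
    exact E_nonneg (D.W_of_mem (D.add _ (D.sub_mem h1 h.2.1) _ (D.sub_mem h2 h'.2.1)))
  · filter_upwards [deV_mem h.1, deV_mem h'.1] with k h1 h2
    rw [he]
    exact E_add_le (D.sub_mem h1 h.2.1) (D.sub_mem h2 h'.2.1)

theorem DerV.smul {u : ℝ → X → ℝ} {w : X → ℝ} {t : ℝ} (h : D.DerV u w t) {c : ℝ → ℝ} {c' : ℝ}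
    (hc : HasDerivAt c c' t) : D.DerV (fun s => c s • u s) (c' • u t + c t • w) t := by
  have ht : u t ∈ D.V := h.1.self_of_nhds
  have hw : w ∈ D.V := h.2.1
  refine ⟨h.1.mono fun s hs => D.smul _ _ hs, D.add _ (D.smul _ _ ht) _ (D.smul _ _ hw),
    (h.derL2.smul hc).2.2, ?_⟩
  have he : ∀ k, DQ (fun s => c s • u s) t k - (c' • u t + c t • w) =
      (c (t + k) • (DQ u t k - w) + (c (t + k) - c t) • w) +
        (k⁻¹ • (c (t + k) - c t) - c') • u t := by
    intro k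
    funext x
    simp only [Pi.sub_apply, Pi.add_apply, Pi.smul_apply, smul_eq_mul, DQ]
    ring
  have h1 : Tendsto (fun k => c (t + k)) (𝓝[≠] 0) (𝓝 (c t)) :=
    hc.continuousAt.tendsto.comp (deV_tend t)
  have h2 := hasDerivAt_iff_tendsto_slope_zero.1 hc
  have hl := (((((h1.pow 2).mul h.2.2.2).const_mul 2).add
    ((((h1.sub_const (c t)).pow 2).mul_const (D.E w)).const_mul 2)).const_mul 2).add
    ((((h2.sub_const c').pow 2).mul_const (D.E (u t))).const_mul 2)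
  simp only [sub_self, mul_zero, ne_eq, OfNat.ofNat_ne_zero, not_false_eq_true, zero_pow,
    zero_mul, add_zero] at hl
  refine squeeze_zero' ?_ ?_ hl
  · filter_upwards [deV_mem h.1] with k hk
    rw [he]
    exact E_nonneg (D.W_of_mem (D.add _ (D.add _ (D.smul _ _ (D.sub_mem hk hw)) _ (D.smul _ _ hw))
      _ (D.smul _ _ ht)))
  · filter_upwards [deV_mem h.1] with k hk
    rw [he]
    have h3 := E_add_le (D.add _ (D.smul (c (t + k)) _ (D.sub_mem hk hw)) _
      (D.smul (c (t + k) - c t) _ hw)) (D.smul (k⁻¹ • (c (t + k) - c t) - c') _ ht)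
    have h4 := E_add_le (D.smul (c (t + k)) _ (D.sub_mem hk hw)) (D.smul (c (t + k) - c t) _ hw)
    rw [E_smul _ (D.W_of_mem (D.sub_mem hk hw)), E_smul _ (D.W_of_mem hw)] at h4
    rw [E_smul _ (D.W_of_mem ht)] at h3
    linarith

theorem DerV.affine {u : ℝ → X → ℝ} {w : X → ℝ} {t a b : ℝ} (ha : a ≠ 0)
    (h : D.DerV u w (a * t + b)) : D.DerV (fun s => u (a * s + b)) (a • w) t := by
  have hc : Tendsto (fun s => a * s + b) (𝓝 t) (𝓝 (a * t + b)) :=
    (tendsto_id.const_mul a).add_const b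
  refine ⟨hc.eventually h.1, D.smul _ _ h.2.1, (DerL2.affine ha h.derL2).2.2, ?_⟩
  have hm : Tendsto (fun k : ℝ => a * k) (𝓝[≠] 0) (𝓝[≠] 0) := by
    refine tendsto_nhdsWithin_iff.2 ⟨?_, ?_⟩
    · have h1 : Tendsto (fun k : ℝ => a * k) (𝓝 0) (𝓝 (a * 0)) := tendsto_id.const_mul a
      rw [mul_zero] at h1
      exact h1.mono_left nhdsWithin_le_nhds
    · filter_upwards [self_mem_nhdsWithin] with k hk
      exact mul_ne_zero ha hk
  have hl := (h.2.2.2.comp hm).const_mul (a ^ 2)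
  rw [mul_zero] at hl
  refine hl.congr' ?_
  filter_upwards [hm.eventually (deV_mem h.1), self_mem_nhdsWithin] with k hk hk0
  have hk1 : k ≠ 0 := hk0
  have he : DQ (fun s => u (a * s + b)) t k - a • w = a • (DQ u (a * t + b) (a * k) - w) := by
    funext x
    have h1 : a * t + b + a * k = a * (t + k) + b := by ring
    simp only [Pi.sub_apply, Pi.smul_apply, smul_eq_mul, DQ, h1]
    field_simp
  rw [he, E_smul _ (D.W_of_mem (D.sub_mem hk h.2.1))]
  rfl

theorem DerV.rev {u : ℝ → X → ℝ} {w : X → ℝ} {t c : ℝ} (h : D.DerV u w (c - t)) :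
    D.DerV (fun s => u (c - s)) (-w) t := by
  have h1 : ∀ s, c - s = -1 * s + c := fun s => by ring
  rw [h1] at h
  have h2 := DerV.affine (by norm_num) h
  rw [neg_one_smul] at h2
  simp only [h1]
  exact h2

theorem derV_const {f : X → ℝ} (hf : f ∈ D.V) (t : ℝ) : D.DerV (fun _ => f) 0 t := by
  refine ⟨Eventually.of_forall fun _ => hf, D.zero_mem, (derL2_const (D.memLp _ hf) t).2.2, ?_⟩
  have he : ∀ k, DQ (fun _ => f) t k - 0 = 0 := by
    intro k
    funext x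
    simp only [Pi.sub_apply, Pi.zero_apply, DQ, sub_self, zero_div]
  simp only [he, deV_E_zero]
  exact tendsto_const_nhds

theorem DerV.cont {u : ℝ → X → ℝ} {w : X → ℝ} {t : ℝ} (h : D.DerV u w t) :
    Tendsto (fun s => D.E (u s - u t)) (𝓝 t) (𝓝 0) := by
  have ht : u t ∈ D.V := h.1.self_of_nhds
  have hw : w ∈ D.V := h.2.1
  have h1 : Tendsto (fun k => D.E (u (t + k) - u t)) (𝓝[≠] 0) (𝓝 0) := by
    have h0 : Tendsto (fun k : ℝ => k) (𝓝[≠] 0) (𝓝 0) := tendsto_id.mono_left nhdsWithin_le_nhds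
    have hl := (h0.pow 2).mul ((h.2.2.2.const_mul 2).add_const (2 * D.E w))
    simp only [ne_eq, OfNat.ofNat_ne_zero, not_false_eq_true, zero_pow, zero_mul] at hl
    refine squeeze_zero' ?_ ?_ hl
    · filter_upwards [(deV_tend t).eventually h.1] with k hk
      exact E_nonneg (D.W_of_mem (D.sub_mem hk ht))
    · filter_upwards [deV_mem h.1, self_mem_nhdsWithin] with k hk hk0
      have hk1 : k ≠ 0 := hk0
      have he : u (t + k) - u t = k • ((DQ u t k - w) + w) := by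
        rw [sub_add_cancel, deV_DQ, smul_smul, mul_inv_cancel₀ hk1, one_smul]
      rw [he, E_smul _ (D.W_of_mem (D.add _ (D.sub_mem hk hw) _ hw))]
      exact mul_le_mul_of_nonneg_left (E_add_le (D.sub_mem hk hw) hw) (sq_nonneg k)
  have h2 : Tendsto (fun k => D.E (u (t + k) - u t)) (𝓝 0) (𝓝 0) := by
    have h3 : D.E (u (t + 0) - u t) = 0 := by rw [add_zero, sub_self, deV_E_zero]
    have h4 := tendsto_pure_nhds (fun k => D.E (u (t + k) - u t)) 0
    rw [h3] at h4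
    have h6 := tendsto_sup.2 ⟨h1, h4⟩
    rwa [nhdsNE_sup_pure] at h6
  have h5 : Tendsto (fun s : ℝ => s - t) (𝓝 t) (𝓝 (t - t)) := tendsto_id.sub_const t
  rw [sub_self] at h5
  refine (h2.comp h5).congr fun s => ?_
  simp only [Function.comp_apply, add_sub_cancel]

theorem DerV.G {u v : ℝ → X → ℝ} {w z : X → ℝ} {t : ℝ} (h : D.DerV u w t) (h' : D.DerV v z t) :
    DerL1 μ (fun s => D.G (u s) (v s)) (fun x => D.G w (v t) x + D.G (u t) z x) t := by
  have ht : u t ∈ D.V := h.1.self_of_nhds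
  have ht' : v t ∈ D.V := h'.1.self_of_nhds
  have hw : w ∈ D.V := h.2.1
  have hz : z ∈ D.V := h'.2.1
  refine ⟨(h.1.and h'.1).mono fun s hs => G_int hs.1 hs.2, (G_int hw ht').add (G_int ht hz), ?_⟩
  have h1 := G_tendsto (deV_mem h.1) ((deV_tend t).eventually h'.1) hw ht' h.2.2.2
    (h'.cont.comp (deV_tend t))
  have h0 : Tendsto (fun _ : ℝ => D.E (u t - u t)) (𝓝[≠] 0) (𝓝 0) := by
    rw [sub_self, deV_E_zero]
    exact tendsto_const_nhds
  have h2 := G_tendsto (u := fun _ => u t) (Eventually.of_forall fun _ => ht) (deV_mem h'.1) ht hz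
    h0 h'.2.2.2
  have hl := h1.add h2
  rw [add_zero] at hl
  refine squeeze_zero' (Eventually.of_forall fun k => integral_nonneg fun x => abs_nonneg _) ?_ hl
  filter_upwards [deV_mem h.1, deV_mem h'.1, (deV_tend t).eventually h.1,
    (deV_tend t).eventually h'.1] with k h3 h4 h5 h6
  have i1 := ((G_int h3 h6).sub (G_int hw ht')).abs
  have i2 := ((G_int ht h4).sub (G_int ht hz)).abs
  refine le_trans ?_ (integral_add i1 i2).le
  refine integral_mono_of_nonneg (Eventually.of_forall fun x => abs_nonneg _) (i1.add i2) ?_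
  have e1 := G_smul (D := D) k⁻¹ (D.W_of_mem (D.sub_mem h5 ht)) (D.W_of_mem h6)
  have e2 := G_smul_right (D := D) k⁻¹ (D.W_of_mem ht) (D.W_of_mem (D.sub_mem h6 ht'))
  rw [← deV_DQ] at e1 e2
  filter_upwards [e1, e2, G_sub (D.W_of_mem h5) (D.W_of_mem ht) (D.W_of_mem h6),
    G_sub_right (D.W_of_mem ht) (D.W_of_mem h6) (D.W_of_mem ht')] with x x1 x2 x3 x4
  refine le_trans (le_of_eq ?_) (abs_add_le _ _)
  congr 1
  rw [Pi.sub_apply, Pi.sub_apply, x1, x2, x3, x4]
  simp only [DQ]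
  ring

theorem DerV.G_self {u : ℝ → X → ℝ} {w : X → ℝ} {t : ℝ} (h : D.DerV u w t) :
    DerL1 μ (fun s => D.G (u s) (u s)) (fun x => 2 * D.G (u t) w x) t := by
  refine (h.G h).congr (Eventually.of_forall fun _ => EventuallyEq.rfl) ?_
  filter_upwards [G_symm (D.W_of_mem h.2.1) (D.W_of_mem h.1.self_of_nhds)] with x hx
  rw [hx]
  ring

theorem DerV.sqrt_G {u : ℝ → X → ℝ} {w : X → ℝ} {t ε : ℝ} (h : D.DerV u w t) (hε : 0 < ε) :
    DerL1 μ (fun s x => √(D.G (u s) (u s) x + ε ^ 2) - ε)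
      (fun x => D.G (u t) w x / √(D.G (u t) (u t) x + ε ^ 2)) t := by
  obtain ⟨Φ, Φ', L, h1, h2, h3, h4, h5⟩ := deV_chain hε
  refine (h.G_self.chain h1 h2 h3 h4).congr ?_ ?_
  · filter_upwards [h.1] with s hs
    filter_upwards [G_nonneg (D.W_of_mem hs)] with x hx
    exact (h5 _ hx).1
  · filter_upwards [G_nonneg (D.W_of_mem h.1.self_of_nhds)] with x hx
    rw [(h5 _ hx).2]
    have h6 : 0 < √(D.G (u t) (u t) x + ε ^ 2) := by positivity
    field_simp

end DS

end RC
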