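import Pool.Agent.P.MP_6472e5_gt.Ca5
import Pool.Agent.P.MP_6472e5_gt.DeV

/-! Limits of integrals of products, and time derivatives in the weak-star topology. -/

set_option autoImplicit false
set_option linter.unusedSectionVars false

noncomputable section

namespace RC

open MeasureTheory Set Filter Topology Metric

variable {X : Type} [MetricSpace X] [SecondCountableTopology X] [MeasurableSpace X] [BorelSpace X]
  {μ : Measure X}

theorem be_abs_le {ψ v : X → ℝ} {M : ℝ} (hψ : ∀ᵐ x ∂μ, |ψ x| ≤ M) (hv : Integrable v μ) :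
    |∫ x, ψ x * v x ∂μ| ≤ M * ∫ x, |v x| ∂μ := by
  rw [← integral_const_mul]
  refine norm_integral_le_of_norm_le (f := fun x => ψ x * v x) (hv.abs.const_mul M)
    (hψ.mono fun x hx => ?_)
  rw [Real.norm_eq_abs, abs_mul]
  exact mul_le_mul_of_nonneg_right hx (abs_nonneg _)

theorem be_l1' {ι : Type} {l : Filter ι} {u w : ι → X → ℝ} {v : X → ℝ} {M : ℝ}
    (hu : ∀ᶠ i in l, AEStronglyMeasurable (u i) μ ∧ ∀ᵐ x ∂μ, |u i x| ≤ M)
    (hw : ∀ᶠ i in l, Integrable (w i) μ) (hv : Integrable v μ)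
    (h : Tendsto (fun i => ∫ x, |w i x - v x| ∂μ) l (𝓝 0)) :
    Tendsto (fun i => ∫ x, u i x * w i x ∂μ - ∫ x, u i x * v x ∂μ) l (𝓝 0) := by
  refine squeeze_zero_norm' ?_ (by simpa using h.const_mul M)
  filter_upwards [hu, hw] with i h1 h2
  rw [← integral_sub (Bdd.mul_integrable ⟨M, h1.2⟩ h1.1 h2) (Bdd.mul_integrable ⟨M, h1.2⟩ h1.1 hv)]
  simp only [← mul_sub]
  exact be_abs_le h1.2 (h2.sub hv)

theorem be_l1 {ι : Type} {l : Filter ι} {w : ι → X → ℝ} {ψ v : X → ℝ}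
    (hm : AEStronglyMeasurable ψ μ) (hψ : Bdd μ ψ) (hw : ∀ᶠ i in l, Integrable (w i) μ)
    (hv : Integrable v μ) (h : Tendsto (fun i => ∫ x, |w i x - v x| ∂μ) l (𝓝 0)) :
    Tendsto (fun i => ∫ x, ψ x * w i x ∂μ) l (𝓝 (∫ x, ψ x * v x ∂μ)) := by
  obtain ⟨M, hM⟩ := hψ
  exact tendsto_sub_nhds_zero_iff.1
    (be_l1' (u := fun _ => ψ) (Eventually.of_forall fun _ => ⟨hm, hM⟩) hw hv h)

theorem be_l1_int {ι : Type} {l : Filter ι} {w : ι → X → ℝ} {v : X → ℝ}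
    (hw : ∀ᶠ i in l, Integrable (w i) μ) (hv : Integrable v μ)
    (h : Tendsto (fun i => ∫ x, |w i x - v x| ∂μ) l (𝓝 0)) :
    Tendsto (fun i => ∫ x, w i x ∂μ) l (𝓝 (∫ x, v x ∂μ)) := by
  simpa using be_l1 (ψ := fun _ => 1) aestronglyMeasurable_const (Bdd.const 1) hw hv h

theorem be_l2 {ι : Type} {l : Filter ι} {u : ι → X → ℝ} {f g : X → ℝ}
    (hu : ∀ᶠ i in l, MemLp (u i) 2 μ) (hf : MemLp f 2 μ) (hg : MemLp g 2 μ)
    (h : Tendsto (fun i => n2 μ (u i - f)) l (𝓝 0)) :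
    Tendsto (fun i => ∫ x, u i x * g x ∂μ) l (𝓝 (∫ x, f x * g x ∂μ)) :=
  be_l1_int (hu.mono fun _ h => integrable_mul_of_memLp h hg) (integrable_mul_of_memLp hf hg)
    (tendsto_integral_mul (v := fun _ => g) hu (Eventually.of_forall fun _ => hg) hf hg h
      (by simpa [n2] using tendsto_const_nhds))

theorem be_sq {ι : Type} {l : Filter ι} {u : ι → X → ℝ} {f : X → ℝ}
    (hu : ∀ᶠ i in l, MemLp (u i) 2 μ) (hf : MemLp f 2 μ)
    (h : Tendsto (fun i => n2 μ (u i - f)) l (𝓝 0)) :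
    Tendsto (fun i => ∫ x, |u i x ^ 2 - f x ^ 2| ∂μ) l (𝓝 0) := by
  simpa only [sq] using tendsto_integral_mul hu hu hf hf h h

theorem be_abs_of_neg {f g : X → ℝ} {M : ℝ} (hM : M < 0) (hf : ∀ᵐ x ∂μ, |f x| ≤ M) :
    ∀ᵐ x ∂μ, |g x| ≤ M := hf.mono fun _ hx => absurd ((abs_nonneg _).trans hx) (not_le.2 hM)

namespace DS

variable (D : DS μ)
include D

theorem be_w {ι : Type} {l : Filter ι} {u : ι → X → ℝ} {f g : X → ℝ} {M : ℝ}
    (hu : ∀ᶠ i in l, MemLp (u i) 2 μ ∧ ∀ᵐ x ∂μ, |u i x| ≤ M) (hf : MemLp f 2 μ) (bf : Bdd μ f)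
    (hg : Integrable g μ) (h : Tendsto (fun i => n2 μ (u i - f)) l (𝓝 0)) :
    Tendsto (fun i => ∫ x, u i x * g x ∂μ) l (𝓝 (∫ x, f x * g x ∂μ)) := by
  obtain ⟨ψ, hψ, lψ⟩ := D.exists_lipB_l1 hg
  obtain ⟨M', hM'⟩ := bf
  refine Metric.tendsto_nhds.2 fun ε hε => ?_
  obtain ⟨k, k1, k2⟩ := (((lψ.const_mul M).eventually_lt_const (u := ε / 3) (by simpa)).and
    ((lψ.const_mul M').eventually_lt_const (u := ε / 3) (by simpa))).exists
  have h3 := Metric.tendsto_nhds.1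
    (be_l2 (hu.mono fun _ h => h.1) hf (D.lipB_memLp (hψ k)) h) (ε / 3) (by simpa)
  have key : ∀ (v : X → ℝ) (C : ℝ), MemLp v 2 μ → (∀ᵐ x ∂μ, |v x| ≤ C) →
      |∫ x, v x * ψ k x ∂μ - ∫ x, v x * g x ∂μ| ≤ C * ∫ x, |ψ k x - g x| ∂μ := fun v C h1 h2 => by
    rw [← integral_sub (Bdd.mul_integrable ⟨C, h2⟩ h1.1 (D.lipB_int (hψ k)))
      (Bdd.mul_integrable ⟨C, h2⟩ h1.1 hg)]
    simp only [← mul_sub]
    exact be_abs_le h2 ((D.lipB_int (hψ k)).sub hg)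
  filter_upwards [hu, h3] with i h1 h2
  rw [Real.dist_eq, abs_lt] at h2 ⊢
  have a1 := abs_le.1 (key _ _ h1.1 h1.2)
  have a2 := abs_le.1 (key _ _ hf hM')
  constructor <;> linarith

theorem be_wl {ι : Type} {l : Filter ι} {u w : ι → X → ℝ} {f g : X → ℝ} {M : ℝ}
    (hu : ∀ᶠ i in l, MemLp (u i) 2 μ ∧ ∀ᵐ x ∂μ, |u i x| ≤ M) (hf : MemLp f 2 μ) (bf : Bdd μ f)
    (hw : ∀ᶠ i in l, Integrable (w i) μ) (hg : Integrable g μ)
    (h : Tendsto (fun i => n2 μ (u i - f)) l (𝓝 0))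
    (h' : Tendsto (fun i => ∫ x, |w i x - g x| ∂μ) l (𝓝 0)) :
    Tendsto (fun i => ∫ x, u i x * w i x ∂μ) l (𝓝 (∫ x, f x * g x ∂μ)) := by
  simpa using (be_l1' (hu.mono fun _ h => ⟨h.1.1, h.2⟩) hw hg h').add (D.be_w hu hf bf hg h)

theorem be_ae_le {g : X → ℝ} (hg : LocInt μ g) {c : ℝ}
    (H : ∀ φ, LipB φ → (∀ x, 0 ≤ φ x) → ∫ x, φ x * g x ∂μ ≤ c * ∫ x, φ x ∂μ) :
    ∀ᵐ x ∂μ, g x ≤ c :=
  (D.ae_le_of_test hg (D.locInt_of_locBdd aestronglyMeasurable_const (Bdd.const c).locBdd)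
    isOpen_univ fun φ h1 _ h2 => by
      rw [integral_mul_const, mul_comm]
      exact H φ h1 h2).mono fun _ hx => hx trivial

theorem be_lip_time {u w : ℝ → X → ℝ} {a b M : ℝ}
    (hu : ∀ s ∈ Ioo a b, DerL2 μ u (w s) s ∧ ∀ᵐ x ∂μ, |w s x| ≤ M) {s s' : ℝ} (hs : s ∈ Ioo a b)
    (hs' : s' ∈ Ioo a b) : ∀ᵐ x ∂μ, |u s x - u s' x| ≤ M * |s - s'| := by
  have key : ∀ s ∈ Ioo a b, ∀ s' ∈ Ioo a b, ∀ᵐ x ∂μ, u s x - u s' x ≤ M * |s - s'| := by
    intro s hs s' hs'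
    have m1 := (hu s hs).1.1.self_of_nhds
    have m2 := (hu s' hs').1.1.self_of_nhds
    refine D.be_ae_le (D.locInt_of_memLp (m1.sub m2)) fun φ h1 h2 => ?_
    have hφ := D.lipB_memLp h1
    have h3 := (convex_Ioo a b).norm_image_sub_le_of_norm_hasDerivWithin_le
      (f := fun s => ∫ x, φ x * u s x ∂μ) (f' := fun s => ∫ x, φ x * w s x ∂μ)
      (C := M * ∫ x, φ x ∂μ)
      (fun r hr => ((hu r hr).1.mul_memLp hφ).hasDerivAt.hasDerivWithinAt) (fun r hr => by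
        simpa only [mul_comm, abs_of_nonneg (h2 _), Real.norm_eq_abs] using
          be_abs_le (hu r hr).2 (D.lipB_int h1)) hs' hs
    simp only [Pi.sub_apply, mul_sub]
    rw [integral_sub (integrable_mul_of_memLp hφ m1) (integrable_mul_of_memLp hφ m2)]
    refine (le_abs_self _).trans (h3.trans_eq ?_)
    rw [Real.norm_eq_abs]
    ring
  filter_upwards [key s hs s' hs', key s' hs' s hs] with x h1 h2
  rw [abs_sub_comm s'] at h2
  exact abs_le.2 ⟨by linarith, h1⟩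

theorem be_derW {u w : ℝ → X → ℝ} {a b M : ℝ}
    (hu : ∀ s ∈ Ioo a b, DerL2 μ u (w s) s ∧ ∀ᵐ x ∂μ, |w s x| ≤ M) {t : ℝ} (ht : t ∈ Ioo a b)
    (hb : Bdd μ (u t)) : DerW μ u (w t) t := by
  have := D.sfin
  refine (hu t ht).1.derW hb ⟨M, ?_⟩
  have h1 : ∀ᶠ h in 𝓝 (0 : ℝ), t + h ∈ Ioo a b :=
    (continuous_const.add continuous_id).continuousAt.eventually_mem
      (isOpen_Ioo.mem_nhds (by simpa using ht))
  filter_upwards [nhdsWithin_le_nhds h1, self_mem_nhdsWithin] with h h2 h3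
  filter_upwards [D.be_lip_time hu h2 ht] with x hx
  rw [add_sub_cancel_left] at hx
  rw [DQ, abs_div, div_le_iff₀ (abs_pos.2 h3)]
  exact hx

end DS

end RC
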