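import Pool.Agent.P.MP_6472e5_gt.BeA

/-! Elementary properties of the heat flow and good test functions. -/

set_option autoImplicit false
set_option linter.unusedSectionVars false

noncomputable section

namespace RC

open MeasureTheory Set Filter Topology Metric

variable {X : Type} [MetricSpace X] [SecondCountableTopology X] [MeasurableSpace X] [BorelSpace X]
  {μ : Measure X}

namespace DS

/-- Nonnegative bounded functions with bounded Laplacian. -/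
structure BeGood (D : DS μ) (φ Lφ : X → ℝ) : Prop where
  mem : φ ∈ D.V
  lap : D.Lap φ Lφ
  memL : MemLp Lφ 2 μ
  nonneg : ∀ᵐ x ∂μ, 0 ≤ φ x
  bdd : Bdd μ φ
  bddL : Bdd μ Lφ

variable {D : DS μ} (F : D.Flow)
include F

theorem Flow.be_abs {f : X → ℝ} {M : ℝ} (hf : MemLp f 2 μ) (h : ∀ᵐ x ∂μ, |f x| ≤ M) (t : ℝ) :
    ∀ᵐ x ∂μ, |D.P t f x| ≤ M := by
  rcases lt_or_ge M 0 with hM | hM
  · exact be_abs_of_neg hM h
  · exact (F.markov f t (-M) M hf (by linarith) hM (h.mono fun x hx => abs_le.1 hx)).mono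
      fun x hx => abs_le.2 hx

theorem Flow.be_bdd {f : X → ℝ} (hf : MemLp f 2 μ) (h : Bdd μ f) (t : ℝ) : Bdd μ (D.P t f) :=
  h.imp fun _ hM => F.be_abs hf hM t

theorem Flow.be_mem {f : X → ℝ} {t : ℝ} (hf : MemLp f 2 μ) (ht : 0 < t) : D.P t f ∈ D.V :=
  ((F.heat f hf).1 t ht).1

theorem Flow.be_mem' {f : X → ℝ} (hf : f ∈ D.V) (t : ℝ) : D.P t f ∈ D.V := by
  by_cases ht : 0 < t
  · exact F.be_mem (D.memLp f hf) ht
  · rwa [P, if_neg ht]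

theorem Flow.be_lap {f : X → ℝ} {t : ℝ} (hf : MemLp f 2 μ) (ht : 0 < t) :
    D.Lap (D.P t f) (D.L t f) := ((F.heat f hf).1 t ht).2.1

theorem Flow.be_der {f : X → ℝ} {t : ℝ} (hf : MemLp f 2 μ) (ht : 0 < t) :
    DerL2 μ (fun s => D.P s f) (D.L t f) t := ((F.heat f hf).1 t ht).2.2

theorem Flow.be_memL {f : X → ℝ} {t : ℝ} (hf : MemLp f 2 μ) (ht : 0 < t) :
    MemLp (D.L t f) 2 μ := D.memLp _ (F.L_mem f t hf ht)

theorem Flow.be_sub {f g : X → ℝ} (hf : MemLp f 2 μ) (hg : MemLp g 2 μ) (t : ℝ) :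
    D.P t (f - g) =ᵐ[μ] D.P t f - D.P t g := by
  have h1 := F.add (f - g) g t (hf.sub hg) hg
  rw [sub_add_cancel] at h1
  filter_upwards [h1] with x hx
  simp only [Pi.add_apply, Pi.sub_apply] at hx ⊢
  linarith

theorem Flow.be_n2 {ι : Type} {l : Filter ι} {u : ι → X → ℝ} {f : X → ℝ}
    (hu : ∀ i, MemLp (u i) 2 μ) (hf : MemLp f 2 μ) (h : Tendsto (fun i => n2 μ (u i - f)) l (𝓝 0))
    (t : ℝ) : Tendsto (fun i => n2 μ (D.P t (u i) - D.P t f)) l (𝓝 0) :=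
  squeeze_zero (fun _ => n2_nonneg _) (fun i => by
    rw [← n2_congr (F.be_sub (hu i) hf t)]
    exact F.n2_le _ t ((hu i).sub hf)) h

theorem Flow.be_E {ι : Type} {l : Filter ι} {u : ι → X → ℝ} {f : X → ℝ}
    (hu : ∀ i, MemLp (u i) 2 μ) (hf : MemLp f 2 μ) (h : Tendsto (fun i => n2 μ (u i - f)) l (𝓝 0))
    {t : ℝ} (ht : 0 < t) : Tendsto (fun i => D.E (D.P t (u i) - D.P t f)) l (𝓝 0) :=
  squeeze_zero (g := fun i => n2 μ (u i - f) / t)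
    (fun i => E_nonneg (D.W_of_mem (D.sub_mem (F.be_mem (hu i) ht) (F.be_mem hf ht))))
    (fun i => by
      rw [← E_congr (D.W_of_mem (F.be_mem ((hu i).sub hf) ht)) (F.be_sub (hu i) hf t)]
      exact F.E_le _ t ((hu i).sub hf) ht) (by simpa using h.div_const t)

/-- Approximation by resolvents. -/
theorem Flow.be_res {φ : X → ℝ} (hφ : MemLp φ 2 μ) (bφ : Bdd μ φ) (h0 : ∀ᵐ x ∂μ, 0 ≤ φ x) :
    ∃ (g : ℕ → X → ℝ) (ε : ℕ → ℝ) (M : ℝ), (∀ k, 0 < ε k ∧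
      D.BeGood (g k) ((ε k)⁻¹ • (g k - φ)) ∧ (∀ᵐ x ∂μ, |g k x| ≤ M) ∧ n2 μ (g k) ≤ n2 μ φ) ∧
      Tendsto (fun k => n2 μ (g k - φ)) atTop (𝓝 0) ∧
      (φ ∈ D.V → Tendsto (fun k => D.E (g k - φ)) atTop (𝓝 0)) := by
  obtain ⟨M, hM0, hM⟩ := bφ.nonneg
  have hε : ∀ k : ℕ, (0 : ℝ) < 1 / (k + 1) := fun k => by positivity
  choose g g1 g2 g3 g4 using fun k : ℕ => F.res φ _ hφ (hε k)
  have hb : ∀ k, ∀ᵐ x ∂μ, 0 ≤ g k x ∧ g k x ≤ M := fun k => g4 k 0 M le_rfl hM0.le (by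
    filter_upwards [h0, hM] with x h1 h2 using ⟨h1, (le_abs_self _).trans h2⟩)
  have hb' : ∀ k, ∀ᵐ x ∂μ, |g k x| ≤ M := fun k => (hb k).mono fun x hx => by
    rw [abs_of_nonneg hx.1]; exact hx.2
  exact ⟨g, _, M, fun k => ⟨hε k, ⟨g1 k, g2 k, ((D.memLp _ (g1 k)).sub hφ).const_smul _,
    (hb k).mono fun x hx => hx.1, ⟨M, hb' k⟩, (Bdd.sub ⟨M, hb' k⟩ bφ).smul _⟩, hb' k, g3 k⟩,
    F.res_lim φ _ g hφ hε tendsto_one_div_add_atTop_nhds_zero_nat fun k => ⟨g1 k, g2 k⟩⟩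

theorem Flow.be_good {φ : X → ℝ} (hφ : MemLp φ 2 μ) (bφ : Bdd μ φ) (h0 : ∀ᵐ x ∂μ, 0 ≤ φ x) :
    ∃ g Lg : ℕ → X → ℝ, (∀ k, D.BeGood (g k) (Lg k)) ∧
      (∀ w, Integrable w μ →
        Tendsto (fun k => ∫ x, g k x * w x ∂μ) atTop (𝓝 (∫ x, φ x * w x ∂μ))) ∧
      (∀ t w, Integrable w μ →
        Tendsto (fun k => ∫ x, D.P t (g k) x * w x ∂μ) atTop (𝓝 (∫ x, D.P t φ x * w x ∂μ))) ∧
      (φ ∈ D.V → Tendsto (fun k => D.E (g k - φ)) atTop (𝓝 0)) := by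
  obtain ⟨g, ε, M, h1, h2, h3⟩ := F.be_res hφ bφ h0
  have m : ∀ k, MemLp (g k) 2 μ := fun k => D.memLp _ (h1 k).2.1.mem
  exact ⟨g, _, fun k => (h1 k).2.1,
    fun w hw => D.be_w (Eventually.of_forall fun k => ⟨m k, (h1 k).2.2.1⟩) hφ bφ hw h2,
    fun t w hw => D.be_w (Eventually.of_forall fun k =>
      ⟨F.memLp _ t (m k), F.be_abs (m k) (h1 k).2.2.1 t⟩) (F.memLp _ t hφ) (F.be_bdd hφ bφ t) hw
      (F.be_n2 m hφ h2 t), h3⟩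

theorem Flow.be_goodP {φ Lφ : X → ℝ} (h : D.BeGood φ Lφ) {s : ℝ} (hs : 0 < s) :
    D.BeGood (D.P s φ) (D.L s φ) ∧ DerW μ (fun s => D.P s φ) (D.L s φ) s := by
  have m := D.memLp _ h.mem
  obtain ⟨M, hM⟩ := h.bddL
  have key : ∀ r, 0 < r → ∀ᵐ x ∂μ, |D.L r φ x| ≤ M := fun r hr => by
    filter_upwards [F.comm φ h.mem Lφ r h.lap h.memL hr, F.be_abs h.memL hM r] with x h1 h2
    rwa [h1]
  exact ⟨⟨F.be_mem m hs, F.be_lap m hs, F.be_memL m hs, F.pos φ s m h.nonneg, F.be_bdd m h.bdd s,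
    M, key s hs⟩, D.be_derW (w := fun r => D.L r φ) (a := 0) (b := s + 1)
      (fun r hr => ⟨F.be_der m hr.1, key r hr.1⟩) ⟨hs, by linarith⟩ (F.be_bdd m h.bdd s)⟩

theorem Flow.be_int_le {φ b : X → ℝ} {M : ℝ} (hφ : LipB φ) (h0 : ∀ x, 0 ≤ φ x) (hM : 0 ≤ M)
    (hb : Integrable b μ) (h : ∀ᵐ x ∂μ, b x ≤ M) (t : ℝ) :
    ∫ x, D.P t φ x * b x ∂μ ≤ M * ∫ x, φ x ∂μ := by
  have m := D.lipB_memLp hφ
  obtain ⟨h1, h2⟩ := F.l1 φ t m (D.lipB_int hφ)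
  simp only [abs_of_nonneg (h0 _)] at h2
  refine le_trans ?_ (mul_le_mul_of_nonneg_left h2 hM)
  rw [← integral_const_mul]
  refine integral_mono_ae ((F.be_bdd m hφ.bdd t).mul_integrable h1.1 hb) (h1.abs.const_mul M) ?_
  filter_upwards [h, F.pos φ t m (Eventually.of_forall h0)] with x h3 h4
  rw [abs_of_nonneg h4, mul_comm M]
  exact mul_le_mul_of_nonneg_left h3 h4

/-- The interpolation along the flow. -/
theorem Flow.be_interp {φ Lφ v0 v1 : X → ℝ} (h : D.BeGood φ Lφ) {t : ℝ} (ht : 0 < t)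
    {v z : ℝ → X → ℝ} (hv : ∀ s ∈ Ioo 0 t, DerL1 μ v (z s) s) (i0 : Integrable v0 μ)
    (i1 : Integrable v1 μ) (h0 : Tendsto (fun s => ∫ x, |v s x - v0 x| ∂μ) (𝓝[>] 0) (𝓝 0))
    (h1 : Tendsto (fun s => ∫ x, |v s x - v1 x| ∂μ) (𝓝[<] t) (𝓝 0)) :
    (∀ s ∈ Ioo 0 t, HasDerivAt (fun s => ∫ x, D.P s φ x * v s x ∂μ)
      (∫ x, D.L s φ x * v s x ∂μ + ∫ x, D.P s φ x * z s x ∂μ) s) ∧
    Tendsto (fun s => ∫ x, D.P s φ x * v s x ∂μ) (𝓝[>] 0) (𝓝 (∫ x, φ x * v0 x ∂μ)) ∧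
    Tendsto (fun s => ∫ x, D.P s φ x * v s x ∂μ) (𝓝[<] t) (𝓝 (∫ x, D.P t φ x * v1 x ∂μ)) := by
  have m := D.memLp _ h.mem
  obtain ⟨M, hM⟩ := h.bdd
  refine ⟨fun s hs => (F.be_goodP h hs.1).2.hasDerivAt_mul (hv s hs),
    D.be_wl (Eventually.of_forall fun s => ⟨F.memLp _ s m, F.be_abs m hM s⟩) m h.bdd ?_ i0
      (F.heat φ m).2 h0,
    D.be_wl (Eventually.of_forall fun s => ⟨F.memLp _ s m, F.be_abs m hM s⟩) (F.memLp _ t m)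
      (F.be_bdd m h.bdd t) ?_ i1 ((F.be_der m ht).cont.mono_left nhdsWithin_le_nhds) h1⟩
  · filter_upwards [Ioo_mem_nhdsGT ht] with s hs using (hv s hs).1.self_of_nhds
  · filter_upwards [Ioo_mem_nhdsLT ht] with s hs using (hv s hs).1.self_of_nhds

end DS

theorem be_rev0 (t : ℝ) : Tendsto (fun s => t - s) (𝓝[>] 0) (𝓝 t) := by
  simpa using ((continuous_sub_left t).tendsto 0).mono_left nhdsWithin_le_nhds

theorem be_rev1 (t : ℝ) : Tendsto (fun s => t - s) (𝓝[<] t) (𝓝[>] 0) :=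
  tendsto_nhdsWithin_iff.2 ⟨by
    simpa using ((continuous_sub_left t).tendsto t).mono_left nhdsWithin_le_nhds,
    eventually_nhdsWithin_of_forall fun s hs => mem_Ioi.2 (sub_pos.2 hs)⟩

end RC
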