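import Pool.Agent.P.MP_6472e5_gt.BeB

/-! The gradient estimate and the local Poincare inequalities. -/

set_option autoImplicit false
set_option linter.unusedSectionVars false

noncomputable section

namespace RC

open MeasureTheory Set Filter Topology Metric

variable {X : Type} [MetricSpace X] [SecondCountableTopology X] [MeasurableSpace X] [BorelSpace X]
  {μ : Measure X}

variable {D : DS μ} {κ : ℝ} {n : ℕ}

theorem be_split {ψ a b c : X → ℝ} (hm : AEStronglyMeasurable ψ μ) (hψ : Bdd μ ψ)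
    (ha : Integrable a μ) (hb : Integrable b μ) (hc : Integrable c μ) (p q : ℝ) :
    ∫ x, ψ x * (a x / p + b x - q * c x) ∂μ =
      (∫ x, ψ x * a x ∂μ) / p + ∫ x, ψ x * b x ∂μ - q * ∫ x, ψ x * c x ∂μ := by
  have h1 := (hψ.mul_integrable hm ha).div_const p
  have h2 := hψ.mul_integrable hm hb
  have h3 := (hψ.mul_integrable hm hc).const_mul q
  have h4 : Integrable (fun x => ψ x * a x / p + ψ x * b x) μ := h1.add h2
  rw [← integral_div, ← integral_const_mul, ← integral_add h1 h2, ← integral_sub h4 h3]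
  exact integral_congr_ae (Eventually.of_forall fun x => by ring)

theorem RS.be_ge0 (h : RS D κ n) {f φ Lφ : X → ℝ} (hf : f ∈ D.V) (hφ : D.BeGood φ Lφ) {t : ℝ}
    (ht : 0 < t) :
    ∫ x, φ x * D.G (D.P t f) (D.P t f) x ∂μ + 2 * t / n * ∫ x, φ x * D.L t f x ^ 2 ∂μ ≤
      Real.exp (2 * κ * t) * ∫ x, D.P t φ x * D.G f f x ∂μ := by
  have F := h.flow
  have m := D.memLp f hf
  have mφ := D.memLp _ hφ.mem
  have ev : ∀ l : Filter ℝ, ∀ᶠ s in l, D.P (t - s) f ∈ D.V := fun l =>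
    Eventually.of_forall fun s => F.be_mem' hf _
  have e0 := (F.derV f t m ht).cont.comp (be_rev0 t)
  have e1 := (F.E_zero f hf).comp (be_rev1 t)
  obtain ⟨a1, a2, a3⟩ := F.be_interp hφ ht (v := fun s => D.G (D.P (t - s) f) (D.P (t - s) f))
    (z := fun s x => 2 * D.G (D.P (t - s) f) (-D.L (t - s) f) x)
    (fun s hs => (F.derV f (t - s) m (sub_pos.2 hs.2)).rev.G_self)
    (DS.G_int (F.be_mem m ht) (F.be_mem m ht)) (DS.G_int hf hf)
    (DS.G_tendsto (ev _) (ev _) (F.be_mem m ht) (F.be_mem m ht) e0 e0)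
    (DS.G_tendsto (ev _) (ev _) hf hf e1 e1)
  have hn : (0 : ℝ) < n := Nat.cast_pos.2 h.n_pos
  set c := 2 / n * ∫ x, φ x * D.L t f x ^ 2 ∂μ with hc
  have c0 : 0 ≤ c := mul_nonneg (by positivity)
    (integral_nonneg_of_ae (hφ.nonneg.mono fun x hx => mul_nonneg hx (sq_nonneg _)))
  have ce : Continuous fun s : ℝ => Real.exp (2 * κ * s) := by fun_prop
  have cl : Continuous fun s : ℝ => c * s := by fun_prop
  have key := sub_ge_of_deriv' ht (((ce.tendsto 0).mono_left nhdsWithin_le_nhds).mul a2)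
    (((ce.tendsto t).mono_left nhdsWithin_le_nhds).mul a3)
    ((cl.tendsto 0).mono_left nhdsWithin_le_nhds) ((cl.tendsto t).mono_left nhdsWithin_le_nhds)
    (fun s hs => (((hasDerivAt_id' s).const_mul (2 * κ)).exp).mul (a1 s hs))
    (fun s _ => (hasDerivAt_id' s).const_mul c) (fun s hs => ?_)
  · simp only [mul_zero, Real.exp_zero, one_mul, sub_zero] at key
    rw [show 2 * t / n * ∫ x, φ x * D.L t f x ^ 2 ∂μ = c * t by rw [hc]; ring]
    linarith
  have hs' := sub_pos.2 hs.2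
  have g := (F.be_goodP hφ hs.1).1
  have mu := F.be_mem m hs'
  have mL := F.L_mem f _ m hs'
  have b := h.be _ mu _ mL _ g.mem _ (F.be_lap m hs') g.lap g.memL g.nonneg g.bdd g.bddL
  rw [be_split (D.aesm g.mem) g.bdd (D.memLp _ mL).integrable_sq (DS.G_int mu mL)
    (DS.G_int mu mu)] at b
  have j := F.jensen _ φ s (D.memLp _ mL) mφ hφ.bdd hφ.nonneg
  have e : ∫ x, φ x * D.L t f x ^ 2 ∂μ = ∫ x, φ x * D.P s (D.L (t - s) f) x ^ 2 ∂μ := by
    have := F.L_semi f s (t - s) m hs.1.le hs'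
    rw [add_sub_cancel] at this
    exact integral_congr_ae (this.mono fun x hx => by simp only [hx])
  have e2 : ∫ x, D.P s φ x * (2 * D.G (D.P (t - s) f) (-D.L (t - s) f) x) ∂μ =
      -2 * ∫ x, D.P s φ x * D.G (D.P (t - s) f) (D.L (t - s) f) x ∂μ := by
    rw [← integral_const_mul]
    refine integral_congr_ae ((DS.G_smul_right (-1) (D.W_of_mem mu) (D.W_of_mem mL)).mono
      fun x hx => ?_)
    rw [neg_one_smul] at hx
    simp only [hx]
    ring
  have h1 : c ≤ 2 * ((∫ x, D.P s φ x * D.L (t - s) f x ^ 2 ∂μ) / n) := by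
    rw [hc, e, ← mul_div_assoc, mul_div_right_comm]
    exact mul_le_mul_of_nonneg_left j (by positivity)
  have h2 : 1 ≤ Real.exp (2 * κ * s) :=
    Real.one_le_exp (mul_nonneg (mul_nonneg two_pos.le h.κ_nonneg) hs.1.le)
  rw [e2, mul_one, mul_one, mul_assoc, ← mul_add]
  exact (le_mul_of_one_le_left c0 h2).trans
    (mul_le_mul_of_nonneg_left (by linarith) (Real.exp_pos _).le)

theorem RS.be_ge (h : RS D κ n) {f φ : X → ℝ} (hf : f ∈ D.V) (mφ : MemLp φ 2 μ) (bφ : Bdd μ φ)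
    (h0 : ∀ᵐ x ∂μ, 0 ≤ φ x) {t : ℝ} (ht : 0 < t) :
    ∫ x, φ x * D.G (D.P t f) (D.P t f) x ∂μ + 2 * t / n * ∫ x, φ x * D.L t f x ^ 2 ∂μ ≤
      Real.exp (2 * κ * t) * ∫ x, D.P t φ x * D.G f f x ∂μ := by
  have F := h.flow
  have m := D.memLp f hf
  obtain ⟨g, Lg, h1, h2, h3, -⟩ := F.be_good mφ bφ h0
  exact le_of_tendsto_of_tendsto' ((h2 _ (DS.G_int (F.be_mem m ht) (F.be_mem m ht))).add
    ((h2 _ (F.be_memL m ht).integrable_sq).const_mul _)) ((h3 t _ (DS.G_int hf hf)).const_mul _)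
    fun k => h.be_ge0 hf (h1 k) ht

theorem RS.be_ge' (h : RS D κ n) {f φ : X → ℝ} (hf : f ∈ D.V) (mφ : MemLp φ 2 μ) (bφ : Bdd μ φ)
    (h0 : ∀ᵐ x ∂μ, 0 ≤ φ x) {t : ℝ} (ht : 0 < t) :
    ∫ x, φ x * D.G (D.P t f) (D.P t f) x ∂μ ≤
      Real.exp (2 * κ * t) * ∫ x, D.P t φ x * D.G f f x ∂μ :=
  (le_add_of_nonneg_right (mul_nonneg (by positivity)
    (integral_nonneg_of_ae (h0.mono fun x hx => mul_nonneg hx (sq_nonneg _))))).trans
    (h.be_ge hf mφ bφ h0 ht)

/-- Integration by parts for the square of a bounded function. -/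
theorem DS.BeGood.sq {ψ Lψ u Lu : X → ℝ} (g : D.BeGood ψ Lψ) (hu : u ∈ D.V) (bu : Bdd μ u)
    (lu : D.Lap u Lu) (mL : MemLp Lu 2 μ) :
    ∫ x, Lψ x * (u x * u x) ∂μ + ∫ x, ψ x * ((-Lu) x * u x + u x * (-Lu) x) ∂μ =
      2 * ∫ x, ψ x * D.G u u x ∂μ := by
  have wu := D.W_of_mem hu
  have wψ := D.W_of_mem g.mem
  have m1 := D.mul_mem hu hu bu bu
  have m2 := D.mul_mem g.mem hu g.bdd bu
  have h1 := g.lap.test g.mem g.memL m1
  have h2 := lu.test hu mL m2
  have i1 := bu.mul_integrable wu.aesm (DS.G_int hu g.mem)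
  have i2 := g.bdd.mul_integrable wψ.aesm (DS.G_int hu hu)
  have e1 : ∫ x, D.G ψ (u * u) x ∂μ = 2 * ∫ x, u x * D.G u ψ x ∂μ := by
    rw [← integral_const_mul]
    refine integral_congr_ae ?_
    filter_upwards [DS.G_mul_right wu wu (D.W_of_mem m1) wψ, DS.G_symm wψ wu] with x a b
    rw [a, b]
    ring
  have e2 : ∫ x, D.G u (ψ * u) x ∂μ = ∫ x, ψ x * D.G u u x ∂μ + ∫ x, u x * D.G u ψ x ∂μ := by
    rw [← integral_add i2 i1]
    exact integral_congr_ae (DS.G_mul_right wψ wu (D.W_of_mem m2) wu)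
  have e3 : ∫ x, ψ x * ((-Lu) x * u x + u x * (-Lu) x) ∂μ = -2 * ∫ x, Lu x * (ψ * u) x ∂μ := by
    rw [← integral_const_mul]
    exact integral_congr_ae (Eventually.of_forall fun x => by
      simp only [Pi.neg_apply, Pi.mul_apply]; ring)
  simp only [Pi.mul_apply] at h1
  linarith

/-- The interpolation of the squares. -/
theorem DS.Flow.be_sqint (F : D.Flow) {f φ Lφ : X → ℝ} (m : MemLp f 2 μ) (bf : Bdd μ f)
    (hφ : D.BeGood φ Lφ) {t : ℝ} (ht : 0 < t) {c : ℝ} (ε : ℝ) (H : ∀ s ∈ Ioo 0 t,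
      c ≤ ε * (2 * ∫ x, D.P s φ x * D.G (D.P (t - s) f) (D.P (t - s) f) x ∂μ)) :
    c * t ≤ ε * (∫ x, D.P t φ x * f x ^ 2 ∂μ - ∫ x, φ x * D.P t f x ^ 2 ∂μ) := by
  have ev : ∀ l : Filter ℝ, ∀ᶠ s in l, MemLp (D.P (t - s) f) 2 μ := fun l =>
    Eventually.of_forall fun s => F.memLp f _ m
  have e0 := (F.be_der m ht).cont.comp (be_rev0 t)
  have e1 := (F.heat f m).2.comp (be_rev1 t)
  have mt := F.memLp f t m
  obtain ⟨a1, a2, a3⟩ := F.be_interp hφ ht (v := fun s x => D.P (t - s) f x * D.P (t - s) f x)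
    (z := fun s x => (-D.L (t - s) f) x * D.P (t - s) f x + D.P (t - s) f x * (-D.L (t - s) f) x)
    (fun s hs => (F.be_der m (sub_pos.2 hs.2)).rev.mul (F.be_der m (sub_pos.2 hs.2)).rev)
    (integrable_mul_of_memLp mt mt) (integrable_mul_of_memLp m m)
    (tendsto_integral_mul (ev _) (ev _) mt mt e0 e0) (tendsto_integral_mul (ev _) (ev _) m m e1 e1)
  have cl : Continuous fun s : ℝ => c * s := by fun_prop
  have key := sub_ge_of_deriv' ht (a2.const_mul ε) (a3.const_mul ε)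
    ((cl.tendsto 0).mono_left nhdsWithin_le_nhds) ((cl.tendsto t).mono_left nhdsWithin_le_nhds)
    (fun s hs => (a1 s hs).const_mul ε) (fun s _ => (hasDerivAt_id' s).const_mul c)
    (fun s hs => ?_)
  · simp only [sq]
    linarith
  have hs' := sub_pos.2 hs.2
  rw [(F.be_goodP hφ hs.1).1.sq (F.be_mem m hs') (F.be_bdd m bf _) (F.be_lap m hs')
    (F.be_memL m hs'), mul_one]
  exact H s hs

end RC
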