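import Pool.Agent.P.MP_6472e5_gt.BeC

/-! Local Poincare inequalities and pointwise bounds along the heat flow. -/

set_option autoImplicit false
set_option linter.unusedSectionVars false

noncomputable section

namespace RC

open MeasureTheory Set Filter Topology Metric

variable {X : Type} [MetricSpace X] [SecondCountableTopology X] [MeasurableSpace X] [BorelSpace X]
  {μ : Measure X}

variable {D : DS μ} {κ : ℝ} {n : ℕ}

theorem be_G_nonneg {f ψ : X → ℝ} (hf : f ∈ D.V) (h0 : ∀ᵐ x ∂μ, 0 ≤ ψ x) :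
    0 ≤ ∫ x, ψ x * D.G f f x ∂μ := by
  refine integral_nonneg_of_ae ?_
  filter_upwards [h0, DS.G_nonneg (D.W_of_mem hf)] with x a b using mul_nonneg a b

theorem DS.Flow.be_conv (F : D.Flow) {u : ℕ → X → ℝ} {f φ : X → ℝ} (hu : ∀ k, MemLp (u k) 2 μ)
    (hf : MemLp f 2 μ) (h : Tendsto (fun k => n2 μ (u k - f)) atTop (𝓝 0)) (mφ : MemLp φ 2 μ)
    (bφ : Bdd μ φ) (t : ℝ) :
    Tendsto (fun k => ∫ x, D.P t φ x * u k x ^ 2 ∂μ - ∫ x, φ x * D.P t (u k) x ^ 2 ∂μ) atTop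
      (𝓝 (∫ x, D.P t φ x * f x ^ 2 ∂μ - ∫ x, φ x * D.P t f x ^ 2 ∂μ)) :=
  (be_l1 (F.memLp φ t mφ).1 (F.be_bdd mφ bφ t) (Eventually.of_forall fun k => (hu k).integrable_sq)
    hf.integrable_sq (be_sq (Eventually.of_forall hu) hf h)).sub
  (be_l1 mφ.1 bφ (Eventually.of_forall fun k => (F.memLp _ t (hu k)).integrable_sq)
    (F.memLp _ t hf).integrable_sq (be_sq (Eventually.of_forall fun k => F.memLp _ t (hu k))
      (F.memLp _ t hf) (F.be_n2 hu hf h t)))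

theorem RS.be_rp (h : RS D κ n) {f φ : X → ℝ} (m : MemLp f 2 μ) (mφ : MemLp φ 2 μ) (bφ : Bdd μ φ)
    (h0 : ∀ᵐ x ∂μ, 0 ≤ φ x) {t : ℝ} (ht : 0 < t) :
    2 * t * Real.exp (-(2 * κ * t)) * ∫ x, φ x * D.G (D.P t f) (D.P t f) x ∂μ ≤
      ∫ x, D.P t φ x * f x ^ 2 ∂μ - ∫ x, φ x * D.P t f x ^ 2 ∂μ := by
  have F := h.flow
  have s1 : ∀ f φ Lφ, MemLp f 2 μ → Bdd μ f → D.BeGood φ Lφ →
      2 * t * Real.exp (-(2 * κ * t)) * ∫ x, φ x * D.G (D.P t f) (D.P t f) x ∂μ ≤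
      ∫ x, D.P t φ x * f x ^ 2 ∂μ - ∫ x, φ x * D.P t f x ^ 2 ∂μ := fun f φ Lφ m bf g => by
    have mφ := D.memLp _ g.mem
    have := F.be_sqint m bf g ht 1 (c := 2 * Real.exp (-(2 * κ * t)) *
      ∫ x, φ x * D.G (D.P t f) (D.P t f) x ∂μ) fun s hs => ?_
    · linarith
    have mu := F.be_mem m (sub_pos.2 hs.2)
    have h1 := h.be_ge' mu mφ g.bdd g.nonneg hs.1
    have h2 := F.semi f s (t - s) m hs.1.le (sub_pos.2 hs.2).le
    rw [add_sub_cancel] at h2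
    have w := D.W_of_mem (F.be_mem m ht)
    rw [integral_congr_ae ((DS.G_congr w w h2 h2).mono fun x hx => congrArg (φ x * ·) hx), one_mul,
      mul_assoc]
    refine mul_le_mul_of_nonneg_left ((mul_le_mul_of_nonneg_left h1 (Real.exp_pos _).le).trans ?_)
      two_pos.le
    rw [← mul_assoc, ← Real.exp_add]
    exact mul_le_of_le_one_left (be_G_nonneg mu (F.pos φ s mφ g.nonneg))
      (Real.exp_le_one_iff.2 (by nlinarith [h.κ_nonneg, hs.2]))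
  obtain ⟨g, Lg, h1, h2, h3, -⟩ := F.be_good mφ bφ h0
  obtain ⟨u, hu, lu⟩ := D.exists_lipB_n2 m
  have mu := fun k => D.lipB_memLp (hu k)
  have pu := fun k => F.be_mem (mu k) ht
  have pf := F.be_mem m ht
  have eu := F.be_E mu m lu ht
  refine le_of_tendsto_of_tendsto' ((be_l1 mφ.1 bφ
    (Eventually.of_forall fun k => DS.G_int (pu k) (pu k)) (DS.G_int pf pf) (DS.G_tendsto
      (Eventually.of_forall pu) (Eventually.of_forall pu) pf pf eu eu)).const_mul _)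
    (F.be_conv mu m lu mφ bφ t) fun j => ?_
  exact le_of_tendsto_of_tendsto' ((h2 _ (DS.G_int (pu j) (pu j))).const_mul _)
    ((h3 t _ (mu j).integrable_sq).sub (h2 _ (F.memLp _ t (mu j)).integrable_sq))
    fun k => s1 _ _ _ (mu j) (hu j).bdd (h1 k)

theorem RS.be_lp (h : RS D κ n) {f φ : X → ℝ} (hf : f ∈ D.V) (mφ : MemLp φ 2 μ) (bφ : Bdd μ φ)
    (h0 : ∀ᵐ x ∂μ, 0 ≤ φ x) {t : ℝ} (ht : 0 < t) :
    ∫ x, D.P t φ x * f x ^ 2 ∂μ - ∫ x, φ x * D.P t f x ^ 2 ∂μ ≤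
      2 * t * Real.exp (2 * κ * t) * ∫ x, D.P t φ x * D.G f f x ∂μ := by
  have F := h.flow
  have s1 : ∀ f ∈ D.V, ∀ φ Lφ, Bdd μ f → D.BeGood φ Lφ →
      ∫ x, D.P t φ x * f x ^ 2 ∂μ - ∫ x, φ x * D.P t f x ^ 2 ∂μ ≤
      2 * t * Real.exp (2 * κ * t) * ∫ x, D.P t φ x * D.G f f x ∂μ := fun f hf φ Lφ bf g => by
    have mφ := D.memLp _ g.mem
    have := F.be_sqint (D.memLp f hf) bf g ht (-1) (c := -(2 * (Real.exp (2 * κ * t) *
      ∫ x, D.P t φ x * D.G f f x ∂μ))) fun s hs => ?_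
    · linarith
    have h1 := h.be_ge' hf (F.memLp φ s mφ) (F.be_bdd mφ g.bdd s) (F.pos φ s mφ g.nonneg)
      (sub_pos.2 hs.2)
    have h2 := F.semi φ (t - s) s mφ (sub_pos.2 hs.2).le hs.1.le
    rw [sub_add_cancel] at h2
    rw [← integral_congr_ae (h2.mono fun x hx => congrArg (· * D.G f f x) hx)] at h1
    have h3 := mul_le_mul_of_nonneg_right (Real.exp_le_exp.2
      (show 2 * κ * (t - s) ≤ 2 * κ * t by nlinarith [h.κ_nonneg, hs.1]))
      (be_G_nonneg hf (F.pos φ t mφ g.nonneg))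
    linarith
  obtain ⟨g, Lg, h1, h2, h3, -⟩ := F.be_good mφ bφ h0
  obtain ⟨u, hu, lu, eu⟩ := D.dense f hf
  have mu := fun k => D.lipB_memLp (hu k)
  have pu := fun k => D.lip _ (hu k)
  simp only [← fun k => DS.E_eq (D.sub_mem (pu k) hf)] at eu
  refine le_of_tendsto_of_tendsto' (F.be_conv mu (D.memLp f hf) lu mφ bφ t)
    ((be_l1 (F.memLp φ t mφ).1 (F.be_bdd mφ bφ t)
      (Eventually.of_forall fun k => DS.G_int (pu k) (pu k)) (DS.G_int hf hf) (DS.G_tendsto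
      (Eventually.of_forall pu) (Eventually.of_forall pu) hf hf eu eu)).const_mul _) fun j => ?_
  exact le_of_tendsto_of_tendsto'
    ((h3 t _ (mu j).integrable_sq).sub (h2 _ (F.memLp _ t (mu j)).integrable_sq))
    ((h3 t _ (DS.G_int (pu j) (pu j))).const_mul _) fun k => s1 _ (pu j) _ _ (hu j).bdd (h1 k)

theorem RS.be_G_le (h : RS D κ n) {f : X → ℝ} {t M : ℝ} (m : MemLp f 2 μ)
    (hM : ∀ᵐ x ∂μ, |f x| ≤ M) (ht : 0 < t) :
    ∀ᵐ x ∂μ, D.G (D.P t f) (D.P t f) x ≤ Real.exp (2 * κ * t) * M ^ 2 / (2 * t) := by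
  have F := h.flow
  have pf := F.be_mem m ht
  refine D.be_ae_le (locInt_of_int (DS.G_int pf pf)) fun φ h1 h2 => ?_
  have h3 := h.be_rp m (D.lipB_memLp h1) h1.bdd (Eventually.of_forall h2) ht
  have h4 := F.be_int_le h1 h2 (sq_nonneg M) m.integrable_sq (hM.mono fun x hx => by
    rw [← sq_abs]; exact pow_le_pow_left₀ (abs_nonneg _) hx 2) t
  have h5 : 0 ≤ ∫ x, φ x * D.P t f x ^ 2 ∂μ :=
    integral_nonneg fun x => mul_nonneg (h2 x) (sq_nonneg _)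
  rw [Real.exp_neg] at h3
  have e := Real.exp_pos (2 * κ * t)
  refine le_of_mul_le_mul_left (a := 2 * t * (Real.exp (2 * κ * t))⁻¹)
    ((by linarith : _ ≤ M ^ 2 * ∫ x, φ x ∂μ).trans_eq ?_) (by positivity)
  field_simp

theorem RS.be_G_le' (h : RS D κ n) {f : X → ℝ} (hf : f ∈ D.V) {t M : ℝ}
    (hM : ∀ᵐ x ∂μ, D.G f f x ≤ M) (ht : 0 < t) : ∀ᵐ x ∂μ,
    D.G (D.P t f) (D.P t f) x + 2 * t / n * D.L t f x ^ 2 ≤ Real.exp (2 * κ * t) * M := by
  have F := h.flow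
  have m := D.memLp f hf
  have pf := F.be_mem m ht
  rcases lt_or_ge M 0 with M0 | M0
  · filter_upwards [hM, DS.G_nonneg (D.W_of_mem hf)] with x a b using absurd (b.trans a) M0.not_ge
  have i1 := DS.G_int pf pf
  have i2 := (F.be_memL m ht).integrable_sq
  refine D.be_ae_le (locInt_of_int (i1.add (i2.const_mul _))) fun φ h1 h2 => ?_
  have h3 := h.be_ge hf (D.lipB_memLp h1) h1.bdd (Eventually.of_forall h2) ht
  have h4 := F.be_int_le h1 h2 M0 (DS.G_int hf hf) hM t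
  have am : AEStronglyMeasurable φ μ := h1.continuous.aestronglyMeasurable
  rw [← integral_const_mul, ← integral_add (h1.bdd.mul_integrable am i1)
    ((h1.bdd.mul_integrable am i2).const_mul _)] at h3
  rw [mul_assoc]
  refine le_trans (le_of_eq (integral_congr_ae (Eventually.of_forall fun x => ?_)))
    (h3.trans (mul_le_mul_of_nonneg_left h4 (Real.exp_pos _).le))
  simp only [Pi.add_apply]
  ring

theorem RS.be_L_le (h : RS D κ n) {f : X → ℝ} {t M : ℝ} (m : MemLp f 2 μ)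
    (hM : ∀ᵐ x ∂μ, |f x| ≤ M) (ht : 0 < t) :
    ∀ᵐ x ∂μ, D.L t f x ^ 2 ≤ n * Real.exp (2 * κ * t) * M ^ 2 / t ^ 2 := by
  have F := h.flow
  have t2 := half_pos ht
  have pf := F.be_mem m t2
  have h1 := F.L_semi' f (t / 2) (t / 2) m t2 t2.le
  rw [add_halves] at h1
  have hn : (0 : ℝ) < n := Nat.cast_pos.2 h.n_pos
  filter_upwards [h.be_G_le' pf (h.be_G_le m hM t2) t2, h1,
    DS.G_nonneg (D.W_of_mem (F.be_mem' pf (t / 2)))] with x a b c
  rw [b]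
  have e : Real.exp (2 * κ * t) = Real.exp (2 * κ * (t / 2)) * Real.exp (2 * κ * (t / 2)) := by
    rw [← Real.exp_add]; congr 1; ring
  refine le_of_mul_le_mul_left (a := 2 * (t / 2) / n) ((le_add_of_nonneg_left c).trans
    (a.trans_eq ?_)) (by positivity)
  rw [e]
  field_simp

theorem RS.be_L_abs (h : RS D κ n) {f : X → ℝ} {t M : ℝ} (m : MemLp f 2 μ)
    (hM : ∀ᵐ x ∂μ, |f x| ≤ M) (ht : 0 < t) :
    ∀ᵐ x ∂μ, |D.L t f x| ≤ √(n * Real.exp (2 * κ * t) * M ^ 2 / t ^ 2) :=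
  (h.be_L_le m hM ht).mono fun _ hx => Real.abs_le_sqrt hx

theorem RS.be_tb (h : RS D κ n) {f : X → ℝ} {t : ℝ} (m : MemLp f 2 μ) (bf : Bdd μ f) (ht : 0 < t) :
    D.Tb (D.P t f) (D.L t f) := by
  have F := h.flow
  obtain ⟨M, hM⟩ := bf
  refine ⟨F.be_mem m ht, F.be_bdd m ⟨M, hM⟩ t, ⟨Real.exp (2 * κ * t) * M ^ 2 / (2 * t), ?_⟩,
    F.be_lap m ht, F.L_mem f t m ht, _, h.be_L_abs m hM ht⟩
  filter_upwards [h.be_G_le m hM ht, DS.G_nonneg (D.W_of_mem (F.be_mem m ht))] with x a b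
  rwa [abs_of_nonneg b]

theorem RS.be_derW (h : RS D κ n) {f : X → ℝ} {t : ℝ} (m : MemLp f 2 μ) (bf : Bdd μ f)
    (ht : 0 < t) : DerW μ (fun s => D.P s f) (D.L t f) t := by
  have F := h.flow
  obtain ⟨M, hM⟩ := bf
  refine D.be_derW (w := fun r => D.L r f) (a := t / 2) (b := 2 * t)
    (M := √(n * Real.exp (2 * κ * (2 * t)) * M ^ 2 / (t / 2) ^ 2)) (fun r hr => ?_)
    ⟨by linarith, by linarith⟩ (F.be_bdd m ⟨M, hM⟩ t)
  have r0 := (half_pos ht).trans hr.1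
  refine ⟨F.be_der m r0, (h.be_L_abs m hM r0).mono fun x hx => hx.trans (Real.sqrt_le_sqrt ?_)⟩
  have := h.κ_nonneg
  gcongr
  exacts [hr.2.le, hr.1.le]

end RC
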