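import Pool.Agent.P.MP_6472e5_gt.BeD

/-! Conservation of mass. -/

set_option autoImplicit false
set_option linter.unusedSectionVars false

noncomputable section

namespace RC

open MeasureTheory Set Filter Topology Metric

variable {X : Type} [MetricSpace X] [SecondCountableTopology X] [MeasurableSpace X] [BorelSpace X]
  {μ : Measure X}

variable {D : DS μ} {κ : ℝ} {n : ℕ}

theorem RS.be_cons0 (h : RS D κ n) {φ : X → ℝ} (m : MemLp φ 2 μ) (i : Integrable φ μ) {t : ℝ}
    (ht : 0 < t) : ∃ K, ∀ χ ∈ D.V, ∀ δ, 0 ≤ δ → (∀ᵐ x ∂μ, D.G χ χ x ≤ δ ^ 2) →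
      |∫ x, D.P t χ x * φ x ∂μ - ∫ x, χ x * φ x ∂μ| ≤ K * δ := by
  have F := h.flow
  have hn : (0 : ℝ) < n := Nat.cast_pos.2 h.n_pos
  set c := √(n * Real.exp (2 * κ * t) / 2) with hc
  have c2 : c ^ 2 = n * Real.exp (2 * κ * t) / 2 := Real.sq_sqrt (by positivity)
  refine ⟨2 * c * (∫ x, |φ x| ∂μ) * √t, fun χ hχ δ δ0 hδ => ?_⟩
  have mχ := D.memLp χ hχ
  have key : ∀ ε : ℝ, |ε| = 1 → ε * ∫ x, D.P t χ x * φ x ∂μ - ε * ∫ x, χ x * φ x ∂μ ≤
      2 * c * (∫ x, |φ x| ∂μ) * √t * δ := fun ε hε => by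
    have cs : Continuous fun s : ℝ => 2 * (δ * c * ∫ x, |φ x| ∂μ) * √s := by fun_prop
    have ev : ∀ l : Filter ℝ, ∀ᶠ s in l, MemLp (D.P s χ) 2 μ := fun l =>
      Eventually.of_forall fun s => F.memLp χ s mχ
    have := sub_ge_of_deriv' ht ((cs.tendsto 0).mono_left nhdsWithin_le_nhds)
      ((cs.tendsto t).mono_left nhdsWithin_le_nhds)
      ((be_l2 (ev _) mχ m (F.heat χ mχ).2).const_mul ε)
      ((be_l2 (ev _) (F.memLp χ t mχ) m
        ((F.be_der mχ ht).cont.mono_left nhdsWithin_le_nhds)).const_mul ε)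
      (fun s hs => (Real.hasDerivAt_sqrt hs.1.ne').const_mul _)
      (B' := fun s => ε * ∫ x, D.L s χ x * φ x ∂μ) (fun s hs => by
        simpa only [mul_comm (φ _)] using
          ((F.be_der mχ hs.1).mul_memLp m).hasDerivAt.const_mul ε) (fun s hs => ?_)
    · simp only [Real.sqrt_zero, mul_zero, sub_zero] at this
      linarith
    have s0 := Real.sqrt_pos.2 hs.1
    have hb : ∀ᵐ x ∂μ, |D.L s χ x| ≤ δ * c / √s := by
      filter_upwards [h.be_G_le' hχ hδ hs.1, DS.G_nonneg (D.W_of_mem (F.be_mem mχ hs.1))]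
        with x a b
      refine abs_le_of_sq_le_sq' ?_ (by positivity) |> abs_le.2
      have e := mul_le_mul_of_nonneg_right (Real.exp_le_exp.2
        (show 2 * κ * s ≤ 2 * κ * t by nlinarith [h.κ_nonneg, hs.2])) (sq_nonneg δ)
      have s1 := hs.1
      rw [div_pow, mul_pow, c2, Real.sq_sqrt hs.1.le]
      refine le_of_mul_le_mul_left (a := 2 * s / n) ((by linarith :
        _ ≤ Real.exp (2 * κ * t) * δ ^ 2).trans_eq ?_) (by positivity)
      field_simp
    refine (le_abs_self _).trans ?_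
    rw [abs_mul, hε, one_mul]
    refine (be_abs_le hb i).trans_eq ?_
    field_simp
  have k1 := key 1 abs_one
  have k2 := key (-1) (by simp)
  exact abs_le.2 ⟨by linarith, by linarith⟩

theorem RS.be_cons (h : RS D κ n) {φ : X → ℝ} (m : MemLp φ 2 μ) (i : Integrable φ μ) (t : ℝ) :
    ∫ x, D.P t φ x ∂μ = ∫ x, φ x ∂μ := by
  have F := h.flow
  by_cases ht : 0 < t
  swap
  · rw [DS.P, if_neg ht]
  rcases isEmpty_or_nonempty X with hX | ⟨⟨x₀⟩⟩
  · simp only [integral_of_isEmpty]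
  obtain ⟨K, hK⟩ := h.be_cons0 m i ht
  choose χ c1 c2 c3 _ c5 using fun k : ℕ =>
    exists_cutoff_ball x₀ (r := k + 1) (R := 2 * (k + 1)) (by linarith [Nat.cast_nonneg (α := ℝ) k])
  have lim : ∀ w, Integrable w μ →
      Tendsto (fun k => ∫ x, χ k x * w x ∂μ) atTop (𝓝 (∫ x, w x ∂μ)) := fun w hw => by
    refine tendsto_integral_of_dominated_convergence (fun x => |w x|)
      (fun k => (c1 k).continuous.aestronglyMeasurable.mul hw.1) hw.abs
      (fun k => Eventually.of_forall fun x => ?_) (Eventually.of_forall fun x => ?_)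
    · rw [Real.norm_eq_abs, abs_mul, abs_of_nonneg (c2 k x).1]
      exact mul_le_of_le_one_left (abs_nonneg _) (c2 k x).2
    · obtain ⟨N, hN⟩ := exists_nat_ge (dist x x₀)
      refine tendsto_const_nhds.congr' ((eventually_ge_atTop N).mono fun k hk => ?_)
      have : (N : ℝ) ≤ k := Nat.cast_le.2 hk
      simp only [c3 k x (mem_closedBall.2 (by linarith)), one_mul]
  have l1 := (lim _ (F.l1 φ t m i).1).sub (lim _ i)
  have l2 : Tendsto (fun k => ∫ x, χ k x * D.P t φ x ∂μ - ∫ x, χ k x * φ x ∂μ) atTop (𝓝 0) := by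
    refine squeeze_zero_norm (a := fun k : ℕ => K * (1 / ((k : ℝ) + 1))) (fun k => ?_)
      (by simpa only [mul_zero] using tendsto_one_div_add_atTop_nhds_zero_nat.const_mul K)
    have mχ := D.lip _ (c1 k)
    rw [← F.symm _ φ t (D.memLp _ mχ) m]
    refine hK _ mχ _ (by positivity) ((DS.G_le_lip (D.W_of_mem mχ) isOpen_univ
      (fun x _ y _ => (c5 k x y).trans_eq ?_) (by positivity)
      (Eventually.of_forall fun _ _ => rfl)).mono fun x hx => hx trivial)
    rw [show 2 * ((k : ℝ) + 1) - (k + 1) = k + 1 by ring]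
    ring
  exact sub_eq_zero.1 (tendsto_nhds_unique l1 l2)

end RC
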