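import Pool.Agent.P.MP_6472e5_gt.BeB

/-! Regularity of the carre du champ of test functions, and the weak Bochner inequality. -/

set_option autoImplicit false
set_option linter.unusedSectionVars false

noncomputable section

namespace RC

open MeasureTheory Set Filter Topology Metric

variable {X : Type} [MetricSpace X] [SecondCountableTopology X] [MeasurableSpace X] [BorelSpace X]
  {μ : Measure X}

variable {D : DS μ} {κ : ℝ} {n : ℕ}

theorem DS.Tb.be_G2 {f Lf : X → ℝ} (hf : D.Tb f Lf) {g : X → ℝ} (hg : g ∈ D.V) :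
    MemLp (D.G f g) 2 μ :=
  (memLp_congr_ae (DS.G_symm (D.W_of_mem hg) (D.W_of_mem hf.mem))).1
    (DS.G_memLp hg (D.W_of_mem hf.mem) hf.bddG)

theorem RS.be_sav (h : RS D κ n) {f Lf : X → ℝ} (hf : D.Tb f Lf) : D.G f f ∈ D.V := by
  have F := h.flow
  have mg := hf.be_G2 hf.mem
  have mL := D.memLp _ hf.memL
  have mw : MemLp (fun x => Lf x ^ 2 / n + D.G f Lf x - κ * D.G f f x) 2 μ := by
    simp only [div_eq_mul_inv, sq]
    exact (((hf.bddL.mul_memLp mL.1 mL).mul_const (n : ℝ)⁻¹).add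
      (hf.be_G2 hf.memL)).sub (mg.const_mul κ)
  set w := fun x => Lf x ^ 2 / n + D.G f Lf x - κ * D.G f f x with hw
  set g := D.G f f
  obtain ⟨u, ε, M, h1, h2, -⟩ := F.be_res mg hf.bddG (DS.G_nonneg (D.W_of_mem hf.mem))
  refine (DS.mem_of_bdd (C := 2 * (√(n2 μ g) * √(n2 μ w))) (Eventually.of_forall fun k => ?_)
    mg h2).1
  obtain ⟨e, G, -, b⟩ := h1 k
  have mu := D.memLp _ G.mem
  refine ⟨G.mem, ?_⟩
  have a1 : ∫ x, u k x * w x ∂μ ≤ _ :=
    h.be f hf.mem Lf hf.memL _ G.mem _ hf.lap G.lap G.memL G.nonneg G.bdd G.bddL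
  have a2 : D.E (u k) = _ := G.lap.test G.mem G.memL G.mem
  have a3 : ∫ x, ((ε k)⁻¹ • (u k - g)) x * g x ∂μ ≤ ∫ x, ((ε k)⁻¹ • (u k - g)) x * u k x ∂μ := by
    refine integral_mono (integrable_mul_of_memLp G.memL mg) (integrable_mul_of_memLp G.memL mu)
      fun x => ?_
    simp only [Pi.smul_apply, Pi.sub_apply, smul_eq_mul]
    nlinarith [mul_nonneg (inv_pos.2 e).le (sq_nonneg (u k x - g x))]
  have a4 := (abs_integral_le_integral_abs.trans (integral_abs_mul_le mu mw)).trans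
    (mul_le_mul_of_nonneg_right (Real.sqrt_le_sqrt b) (Real.sqrt_nonneg _))
  linarith [neg_abs_le (∫ x, u k x * w x ∂μ)]

theorem RS.be_be1 (h : RS D κ n) {f Lf φ : X → ℝ} (hf : D.Tb f Lf) (hφ : φ ∈ D.V) (bφ : Bdd μ φ)
    (h0 : ∀ᵐ x ∂μ, 0 ≤ φ x) :
    ∫ x, φ x * (Lf x ^ 2 / n + D.G f Lf x - κ * D.G f f x) ∂μ ≤
      -(1 / 2) * ∫ x, D.G φ (D.G f f) x ∂μ := by
  have F := h.flow
  have mg := h.be_sav hf
  obtain ⟨g, Lg, h1, h2, -, h3⟩ := F.be_good (D.memLp φ hφ) bφ h0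
  have ev := Eventually.of_forall (f := atTop) fun k => (h1 k).mem
  refine le_of_tendsto_of_tendsto' (h2 _ ((((D.memLp _ hf.memL).integrable_sq.div_const _).add
    (DS.G_int hf.mem hf.memL)).sub ((DS.G_int hf.mem hf.mem).const_mul κ)))
    ((be_l1_int (ev.mono fun k hk => DS.G_int hk mg) (DS.G_int hφ mg) (DS.G_tendsto
      (v := fun _ => D.G f f) ev (Eventually.of_forall fun _ => mg) hφ mg (h3 hφ) ?_)).const_mul _)
    fun k => ?_
  · have : D.E (0 : X → ℝ) = 0 := by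
      simpa using DS.E_smul 0 (D.W_of_mem hφ)
    simpa only [sub_self, this] using tendsto_const_nhds
  · have G := h1 k
    rw [G.lap.test G.mem G.memL mg]
    exact (h.be f hf.mem Lf hf.memL _ G.mem _ hf.lap G.lap G.memL G.nonneg G.bdd G.bddL).trans_eq
      (by ring)

end RC
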