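import Pool.Agent.P.MP_6472e5_gt.BeF

/-! The algebra of test functions and the weak form of the iterated carre du champ. -/

set_option autoImplicit false
set_option linter.unusedSectionVars false

noncomputable section

namespace RC

open MeasureTheory Set Filter Topology Metric

variable {X : Type} [MetricSpace X] [SecondCountableTopology X] [MeasurableSpace X] [BorelSpace X]
  {μ : Measure X}

variable {D : DS μ} {κ : ℝ} {n : ℕ}

namespace DS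

theorem Tb.be_w {f Lf : X → ℝ} (hf : D.Tb f Lf) : D.W f := D.W_of_mem hf.mem

theorem Tb.be_wL {f Lf : X → ℝ} (hf : D.Tb f Lf) : D.W Lf := D.W_of_mem hf.memL

theorem Tb.be_bG {u Lu v Lv : X → ℝ} (hu : D.Tb u Lu) (hv : D.Tb v Lv) : Bdd μ (D.G u v) :=
  G_bdd hu.be_w hv.be_w hu.bddG hv.bddG

theorem be_quad {u v : X → ℝ} (hu : D.W u) (hv : D.W v) (c : ℝ) :
    D.G (u + c • v) (u + c • v) =ᵐ[μ] D.G u u + (2 * c) • D.G u v + c ^ 2 • D.G v v := by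
  filter_upwards [G_add_add hu (hv.smul c), G_smul_right c hu hv, G_smul_smul c hv] with x a b e
  simp only [Pi.add_apply, Pi.smul_apply, smul_eq_mul, a, b, e]
  ring

theorem Tb.be_add {u Lu v Lv : X → ℝ} (hu : D.Tb u Lu) (hv : D.Tb v Lv) (c : ℝ) :
    D.Tb (u + c • v) (Lu + c • Lv) :=
  ⟨D.add _ hu.mem _ (D.smul c _ hv.mem), hu.bdd.add (hv.bdd.smul c),
    ((hu.bddG.add ((hu.be_bG hv).smul _)).add (hv.bddG.smul _)).congr
      (be_quad hu.be_w hv.be_w c).symm, hu.lap.add (hv.lap.smul c),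
    D.add _ hu.memL _ (D.smul c _ hv.memL), hu.bddL.add (hv.bddL.smul c)⟩

end DS

theorem RS.be_Gm (h : RS D κ n) {u Lu v Lv : X → ℝ} (hu : D.Tb u Lu) (hv : D.Tb v Lv) :
    D.G u v ∈ D.V := by
  refine D.congr _ (D.smul (1 / 2) _ (D.sub_mem (D.sub_mem (h.be_sav (hu.be_add hv 1))
    (h.be_sav hu)) (h.be_sav hv))) _ ?_
  filter_upwards [DS.be_quad hu.be_w hv.be_w 1] with x a
  simp only [Pi.add_apply, Pi.sub_apply, Pi.smul_apply, smul_eq_mul, a]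
  ring

/-- Product with a shifted function. -/
def beM (p : X → ℝ) (a : ℝ) (r : X → ℝ) : X → ℝ := fun x => (p x - a) * r x

theorem beM_eq (p : X → ℝ) (a : ℝ) (r : X → ℝ) : beM p a r = p * r + (-a) • r := by
  funext x
  simp only [beM, Pi.add_apply, Pi.mul_apply, Pi.smul_apply, smul_eq_mul]
  ring

theorem beM_mem {p r : X → ℝ} (hp : p ∈ D.V) (hr : r ∈ D.V) (bp : Bdd μ p) (br : Bdd μ r) (a : ℝ) :
    beM p a r ∈ D.V := by
  rw [beM_eq]
  exact D.add _ (D.mul_mem hp hr bp br) _ (D.smul _ _ hr)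

theorem beM_bdd {p r : X → ℝ} (bp : Bdd μ p) (br : Bdd μ r) (a : ℝ) : Bdd μ (beM p a r) := by
  rw [beM_eq]
  exact (bp.mul br).add (br.smul _)

theorem beM_G {p r w : X → ℝ} (hp : p ∈ D.V) (hr : r ∈ D.V) (bp : Bdd μ p) (br : Bdd μ r) (a : ℝ)
    (hw : D.W w) : ∀ᵐ x ∂μ, D.G (beM p a r) w x = (p x - a) * D.G r w x + r x * D.G p w x := by
  have w1 := D.W_of_mem (D.mul_mem hp hr bp br)
  have wr := D.W_of_mem hr
  rw [beM_eq]
  filter_upwards [DS.G_add w1 (wr.smul (-a)) hw, DS.G_mul (D.W_of_mem hp) wr w1 hw,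
    DS.G_smul (-a) wr hw] with x e1 e2 e3
  rw [e1, e2, e3]
  ring

theorem beM_G' {p r w : X → ℝ} (hp : p ∈ D.V) (hr : r ∈ D.V) (bp : Bdd μ p) (br : Bdd μ r) (a : ℝ)
    (hw : D.W w) : ∀ᵐ x ∂μ, D.G w (beM p a r) x = (p x - a) * D.G w r x + r x * D.G w p x := by
  filter_upwards [beM_G hp hr bp br a hw, DS.G_symm hw (D.W_of_mem (beM_mem hp hr bp br a)),
    DS.G_symm hw (D.W_of_mem hp), DS.G_symm hw (D.W_of_mem hr)] with x e1 e2 e3 e4
  rw [e2, e1, e3, e4]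

/-- The density of the iterated carre du champ, tested against `ψ`. -/
def DS.beb (D : DS μ) (κ : ℝ) (ψ u Lu v Lv : X → ℝ) : X → ℝ := fun x =>
  -(1 / 2) * D.G ψ (D.G u v) x - ψ x * ((D.G u Lv x + D.G v Lu x) / 2 - κ * D.G u v x)

/-- The iterated carre du champ, tested against `ψ`. -/
def DS.beB (D : DS μ) (κ : ℝ) (ψ u Lu v Lv : X → ℝ) : ℝ := ∫ x, D.beb κ ψ u Lu v Lv x ∂μ

theorem RS.beb_int (h : RS D κ n) {ψ u Lu v Lv : X → ℝ} (hψ : ψ ∈ D.V) (bψ : Bdd μ ψ)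
    (hu : D.Tb u Lu) (hv : D.Tb v Lv) : Integrable (D.beb κ ψ u Lu v Lv) μ :=
  ((DS.G_int hψ (h.be_Gm hu hv)).const_mul _).sub (bψ.mul_integrable (D.aesm hψ)
    ((((DS.G_int hu.mem hv.memL).add (DS.G_int hv.mem hu.memL)).div_const 2).sub
      ((DS.G_int hu.mem hv.mem).const_mul κ)))

theorem RS.beB_lin (h : RS D κ n) {φ ψ u Lu v Lv : X → ℝ} (hφ : φ ∈ D.V) (bφ : Bdd μ φ)
    (hψ : ψ ∈ D.V) (bψ : Bdd μ ψ) (hu : D.Tb u Lu) (hv : D.Tb v Lv) (a b : ℝ) :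
    D.beB κ (a • φ + b • ψ) u Lu v Lv = a * D.beB κ φ u Lu v Lv + b * D.beB κ ψ u Lu v Lv := by
  have wφ := D.W_of_mem hφ
  have wψ := D.W_of_mem hψ
  have w := D.W_of_mem (h.be_Gm hu hv)
  simp only [DS.beB]
  rw [← integral_const_mul, ← integral_const_mul, ← integral_add
    ((h.beb_int hφ bφ hu hv).const_mul a) ((h.beb_int hψ bψ hu hv).const_mul b)]
  refine integral_congr_ae ?_
  filter_upwards [DS.G_add (wφ.smul a) (wψ.smul b) w, DS.G_smul a wφ w, DS.G_smul b wψ w]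
    with x e1 e2 e3
  simp only [DS.beb, e1, e2, e3, Pi.add_apply, Pi.smul_apply, smul_eq_mul]
  ring

theorem RS.beB_quad (h : RS D κ n) {ψ u Lu v Lv : X → ℝ} (hψ : ψ ∈ D.V) (bψ : Bdd μ ψ)
    (hu : D.Tb u Lu) (hv : D.Tb v Lv) (c : ℝ) :
    D.beB κ ψ (u + c • v) (Lu + c • Lv) (u + c • v) (Lu + c • Lv) =
      D.beB κ ψ u Lu u Lu + 2 * c * D.beB κ ψ u Lu v Lv + c ^ 2 * D.beB κ ψ v Lv v Lv := by
  have wψ := D.W_of_mem hψ
  have w1 := D.W_of_mem (h.be_sav hu)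
  have w2 := D.W_of_mem (h.be_Gm hu hv)
  have w3 := D.W_of_mem (h.be_sav hv)
  have q := DS.be_quad hu.be_w hv.be_w c
  have i1 := h.beb_int hψ bψ hu hu
  have i2 := (h.beb_int hψ bψ hu hv).const_mul (2 * c)
  have i3 : Integrable (fun x => D.beb κ ψ u Lu u Lu x + 2 * c * D.beb κ ψ u Lu v Lv x) μ :=
    i1.add i2
  simp only [DS.beB]
  rw [← integral_const_mul, ← integral_const_mul, ← integral_add i1 i2,
    ← integral_add i3 ((h.beb_int hψ bψ hv hv).const_mul _)]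
  refine integral_congr_ae ?_
  filter_upwards [q, DS.G_congr wψ (D.W_of_mem (h.be_sav (hu.be_add hv c))) EventuallyEq.rfl q,
    DS.G_add_right wψ (w1.add (w2.smul (2 * c))) (w3.smul (c ^ 2)),
    DS.G_add_right wψ w1 (w2.smul (2 * c)), DS.G_smul_right (2 * c) wψ w2,
    DS.G_smul_right (c ^ 2) wψ w3,
    DS.G_add hu.be_w (hv.be_w.smul c) (hu.be_add hv c).be_wL,
    DS.G_smul c hv.be_w (hu.be_add hv c).be_wL,
    DS.G_add_right hu.be_w hu.be_wL (hv.be_wL.smul c),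
    DS.G_add_right hv.be_w hu.be_wL (hv.be_wL.smul c),
    DS.G_smul_right c hu.be_w hv.be_wL, DS.G_smul_right c hv.be_w hv.be_wL]
    with x e1 e2 e3 e4 e5 e6 e7 e8 e9 e10 e11 e12
  simp only [DS.beb]
  rw [e1, e2, e3, e4, e5, e6, e7, e8, e9, e10, e11, e12]
  simp only [Pi.add_apply, Pi.smul_apply, smul_eq_mul]
  ring

theorem RS.beB_self (h : RS D κ n) {ψ u Lu : X → ℝ} (hψ : ψ ∈ D.V) (bψ : Bdd μ ψ)
    (hu : D.Tb u Lu) : D.beB κ ψ u Lu u Lu = -(1 / 2) * ∫ x, D.G ψ (D.G u u) x ∂μ -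
      ∫ x, ψ x * (D.G u Lu x - κ * D.G u u x) ∂μ := by
  have i : Integrable (fun x => D.G u Lu x - κ * D.G u u x) μ :=
    (DS.G_int hu.mem hu.memL).sub ((DS.G_int hu.mem hu.mem).const_mul κ)
  rw [← integral_const_mul, ← integral_sub ((DS.G_int hψ (h.be_sav hu)).const_mul _)
    (bψ.mul_integrable (D.aesm hψ) i)]
  exact integral_congr_ae (Eventually.of_forall fun x => by simp only [DS.beb]; ring)

theorem RS.beB_nonneg (h : RS D κ n) {φ u Lu : X → ℝ} (hφ : φ ∈ D.V) (bφ : Bdd μ φ)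
    (h0 : ∀ᵐ x ∂μ, 0 ≤ φ x) (hu : D.Tb u Lu) : 0 ≤ D.beB κ φ u Lu u Lu := by
  have i : Integrable (fun x => D.G u Lu x - κ * D.G u u x) μ :=
    (DS.G_int hu.mem hu.memL).sub ((DS.G_int hu.mem hu.mem).const_mul κ)
  have j : Integrable (fun x => Lu x ^ 2 / n + D.G u Lu x - κ * D.G u u x) μ :=
    ((((D.memLp _ hu.memL).integrable_sq.div_const _).add (DS.G_int hu.mem hu.memL)).sub
      ((DS.G_int hu.mem hu.mem).const_mul κ))
  rw [h.beB_self hφ bφ hu, sub_nonneg]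
  refine le_trans (integral_mono_ae (bφ.mul_integrable (D.aesm hφ) i)
    (bφ.mul_integrable (D.aesm hφ) j) (h0.mono fun x hx => mul_le_mul_of_nonneg_left ?_ hx))
    (h.be_be1 hu hφ bφ h0)
  have : 0 ≤ Lu x ^ 2 / n := by positivity
  linarith

theorem RS.beB_cs (h : RS D κ n) {φ ψ u Lu v Lv : X → ℝ} {δ : ℝ} (hφ : φ ∈ D.V) (bφ : Bdd μ φ)
    (hψ : ψ ∈ D.V) (bψ : Bdd μ ψ) (hδ : ∀ᵐ x ∂μ, |ψ x| ≤ δ * φ x) (hu : D.Tb u Lu)
    (hv : D.Tb v Lv) :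
    |D.beB κ ψ u Lu v Lv| ≤ δ / 2 * (D.beB κ φ u Lu u Lu + D.beB κ φ v Lv v Lv) := by
  have key : ∀ b c : ℝ, |b| = 1 → 0 ≤ δ * (D.beB κ φ u Lu u Lu + 2 * c * D.beB κ φ u Lu v Lv +
      c ^ 2 * D.beB κ φ v Lv v Lv) + b * (D.beB κ ψ u Lu u Lu + 2 * c * D.beB κ ψ u Lu v Lv +
      c ^ 2 * D.beB κ ψ v Lv v Lv) := fun b c hb => by
    rw [← h.beB_quad hφ bφ hu hv, ← h.beB_quad hψ bψ hu hv,
      ← h.beB_lin hφ bφ hψ bψ (hu.be_add hv c) (hu.be_add hv c)]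
    refine h.beB_nonneg (D.add _ (D.smul _ _ hφ) _ (D.smul _ _ hψ)) ((bφ.smul _).add (bψ.smul _))
      (hδ.mono fun x hx => ?_) (hu.be_add hv c)
    have := neg_abs_le (b * ψ x)
    rw [abs_mul, hb] at this
    simp only [Pi.add_apply, Pi.smul_apply, smul_eq_mul]
    linarith
  have k1 := key 1 1 abs_one
  have k2 := key 1 (-1) abs_one
  have k3 := key (-1) 1 (by simp)
  have k4 := key (-1) (-1) (by simp)
  exact abs_le.2 ⟨by linarith, by linarith⟩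

end RC
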