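import Pool.Agent.P.MP_6472e5_gt.BeG

/-! The iterated carre du champ of a product. -/

set_option autoImplicit false
set_option linter.unusedSectionVars false

noncomputable section

namespace RC

open MeasureTheory Set Filter Topology Metric

variable {X : Type} [MetricSpace X] [SecondCountableTopology X] [MeasurableSpace X] [BorelSpace X]
  {μ : Measure X}

variable {D : DS μ} {κ : ℝ} {n : ℕ}

/-- The function `(f - a) (k - b) - a b`. -/
def beQ (f : X → ℝ) (a : ℝ) (k : X → ℝ) (b : ℝ) : X → ℝ := beM f a k + (-b) • f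

/-- The Laplacian of `beQ`. -/
def DS.beLQ (D : DS μ) (f Lf : X → ℝ) (a : ℝ) (k Lk : X → ℝ) (b : ℝ) : X → ℝ :=
  beM f a Lk + beM k b Lf + (2 : ℝ) • D.G f k

variable {f Lf k Lk : X → ℝ}

theorem beQ_mem (hf : D.Tb f Lf) (hk : D.Tb k Lk) (a b : ℝ) : beQ f a k b ∈ D.V :=
  D.add _ (beM_mem hf.mem hk.mem hf.bdd hk.bdd a) _ (D.smul _ _ hf.mem)

theorem beQ_G (hf : D.Tb f Lf) (hk : D.Tb k Lk) (a b : ℝ) {w : X → ℝ} (hw : D.W w) :
    D.G (beQ f a k b) w =ᵐ[μ] beM f a (D.G k w) + beM k b (D.G f w) := by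
  filter_upwards [DS.G_add (D.W_of_mem (beM_mem hf.mem hk.mem hf.bdd hk.bdd a))
    (hf.be_w.smul (-b)) hw, beM_G hf.mem hk.mem hf.bdd hk.bdd a hw, DS.G_smul (-b) hf.be_w hw]
    with x e1 e2 e3
  rw [beQ, e1, e2, e3]
  simp only [beM, Pi.add_apply]
  ring

theorem beQ_G' (hf : D.Tb f Lf) (hk : D.Tb k Lk) (a b : ℝ) {w : X → ℝ} (hw : D.W w) :
    D.G w (beQ f a k b) =ᵐ[μ] beM f a (D.G w k) + beM k b (D.G w f) := by
  filter_upwards [beQ_G hf hk a b hw, DS.G_symm hw (D.W_of_mem (beQ_mem hf hk a b)),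
    DS.G_symm hw hf.be_w, DS.G_symm hw hk.be_w] with x e1 e2 e3 e4
  rw [e2, e1]
  simp only [beM, Pi.add_apply, e3, e4]

theorem RS.beQ_tb (h : RS D κ n) (hf : D.Tb f Lf) (hk : D.Tb k Lk) (a b : ℝ) :
    D.Tb (beQ f a k b) (D.beLQ f Lf a k Lk b) := by
  have m := beQ_mem hf hk a b
  have bb : ∀ {u Lu}, D.Tb u Lu → Bdd μ (D.G u (beQ f a k b)) := fun hu =>
    ((beM_bdd hf.bdd (hu.be_bG hk) a).add (beM_bdd hk.bdd (hu.be_bG hf) b)).congr
      (beQ_G' hf hk a b hu.be_w).symm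
  refine ⟨m, (beM_bdd hf.bdd hk.bdd a).add (hf.bdd.smul _),
    ((beM_bdd hf.bdd (bb hk) a).add (beM_bdd hk.bdd (bb hf) b)).congr
      (beQ_G hf hk a b (D.W_of_mem m)).symm,
    (((hf.lap.mul hk.lap hf.bdd.locBdd hk.bdd.locBdd).add (hk.lap.smul (-a))).add
      (hf.lap.smul (-b))).congr (Eventually.of_forall fun x => ?_)
      (Eventually.of_forall fun x => ?_),
    D.add _ (D.add _ (beM_mem hf.mem hk.memL hf.bdd hk.bddL a) _
      (beM_mem hk.mem hf.memL hk.bdd hf.bddL b)) _ (D.smul _ _ (h.be_Gm hf hk)),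
    ((beM_bdd hf.bdd hk.bddL a).add (beM_bdd hk.bdd hf.bddL b)).add ((hf.be_bG hk).smul _)⟩
  · rw [beQ, beM_eq]
  · simp only [DS.beLQ, beM, Pi.add_apply, Pi.smul_apply, smul_eq_mul]
    ring

/-- The carre du champ with a sum of two shifted products. -/
theorem beM_G2 (hf : D.Tb f Lf) (hk : D.Tb k Lk) (a b : ℝ) {α β γ w : X → ℝ} (hα : α ∈ D.V)
    (bα : Bdd μ α) (hβ : β ∈ D.V) (bβ : Bdd μ β) (hγ : γ =ᵐ[μ] beM f a α + beM k b β)
    (hw : D.W w) : ∀ᵐ x ∂μ, D.G w γ x = (f x - a) * D.G w α x + α x * D.G w f x +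
      ((k x - b) * D.G w β x + β x * D.G w k x) := by
  have w1 := D.W_of_mem (beM_mem hf.mem hα hf.bdd bα a)
  have w2 := D.W_of_mem (beM_mem hk.mem hβ hk.bdd bβ b)
  filter_upwards [DS.G_congr hw (w1.add w2) EventuallyEq.rfl hγ.symm, DS.G_add_right hw w1 w2,
    beM_G' hf.mem hα hf.bdd bα a hw, beM_G' hk.mem hβ hk.bdd bβ b hw] with x e1 e2 e3 e4
  rw [← e1, e2, e3, e4]

theorem DS.Tb.be_ibp (hf : D.Tb f Lf) {φ α : X → ℝ} (hφ : φ ∈ D.V) (bφ : Bdd μ φ) (hα : α ∈ D.V)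
    (bα : Bdd μ α) :
    Integrable (fun x => φ x * D.G f α x + α x * D.G φ f x + Lf x * (φ x * α x)) μ ∧
      ∫ x, (φ x * D.G f α x + α x * D.G φ f x + Lf x * (φ x * α x)) ∂μ = 0 := by
  have m := D.mul_mem hφ hα bφ bα
  have mL := D.memLp _ hf.memL
  have i1 := DS.G_int hf.mem m
  have i2 := integrable_mul_of_memLp mL (D.memLp _ m)
  have e : (fun x => D.G f (φ * α) x + Lf x * (φ * α) x) =ᵐ[μ]
      fun x => φ x * D.G f α x + α x * D.G φ f x + Lf x * (φ x * α x) := by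
    filter_upwards [DS.G_mul_right (D.W_of_mem hφ) (D.W_of_mem hα) (D.W_of_mem m) hf.be_w,
      DS.G_symm hf.be_w (D.W_of_mem hφ)] with x e1 e2
    rw [e1, e2, Pi.mul_apply]
  refine ⟨(i1.add i2).congr e, ?_⟩
  rw [← integral_congr_ae e, integral_add i1 i2, hf.lap.test hf.mem mL m, neg_add_cancel]

theorem RS.beB_mul (h : RS D κ n) (hf : D.Tb f Lf) (hk : D.Tb k Lk) (a b : ℝ) {φ u Lu : X → ℝ}
    (hφ : φ ∈ D.V) (bφ : Bdd μ φ) (hu : D.Tb u Lu) :
    D.beB κ φ u Lu (beQ f a k b) (D.beLQ f Lf a k Lk b) =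
      D.beB κ (beM f a φ) u Lu k Lk + D.beB κ (beM k b φ) u Lu f Lf +
      ∫ x, φ x * (D.G f (D.G u k) x + D.G k (D.G u f) x - D.G u (D.G f k) x) ∂μ := by
  have hα := h.be_Gm hu hk
  have hβ := h.be_Gm hu hf
  have hγ := h.be_Gm hf hk
  have wφ := D.W_of_mem hφ
  obtain ⟨j1, z1⟩ := hf.be_ibp hφ bφ hα (hu.be_bG hk)
  obtain ⟨j2, z2⟩ := hk.be_ibp hφ bφ hβ (hu.be_bG hf)
  have i1 := h.beb_int (beM_mem hf.mem hφ hf.bdd bφ a) (beM_bdd hf.bdd bφ a) hu hk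
  have i2 := h.beb_int (beM_mem hk.mem hφ hk.bdd bφ b) (beM_bdd hk.bdd bφ b) hu hf
  have i3 : Integrable
      (fun x => φ x * (D.G f (D.G u k) x + D.G k (D.G u f) x - D.G u (D.G f k) x)) μ :=
    bφ.mul_integrable wφ.aesm
      (((DS.G_int hf.mem hα).add (DS.G_int hk.mem hβ)).sub (DS.G_int hu.mem hγ))
  have i4 : Integrable (fun x => D.beb κ (beM f a φ) u Lu k Lk x +
      D.beb κ (beM k b φ) u Lu f Lf x) μ := i1.add i2
  have i5 := i4.add i3
  have i6 := (j1.add j2).const_mul (-(1 / 2))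
  have z := integral_add j1 j2
  rw [z1, z2, add_zero] at z
  simp only [DS.beB]
  rw [← integral_add i1 i2, ← integral_add i4 i3]
  refine Eq.trans (integral_congr_ae ?_) ((integral_add' i5 i6).trans ?_)
  · have wL := (D.W_of_mem (beM_mem hf.mem hk.memL hf.bdd hk.bddL a)).add
      (D.W_of_mem (beM_mem hk.mem hf.memL hk.bdd hf.bddL b))
    filter_upwards [beQ_G' hf hk a b hu.be_w, beM_G2 hf hk a b hα (hu.be_bG hk) hβ (hu.be_bG hf)
      (beQ_G' hf hk a b hu.be_w) wφ, beQ_G hf hk a b hu.be_wL,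
      DS.G_add_right hu.be_w wL ((D.W_of_mem hγ).smul 2),
      beM_G2 hf hk a b hk.memL hk.bddL hf.memL hf.bddL EventuallyEq.rfl hu.be_w,
      DS.G_smul_right 2 hu.be_w (D.W_of_mem hγ), beM_G hf.mem hφ hf.bdd bφ a (D.W_of_mem hα),
      beM_G hk.mem hφ hk.bdd bφ b (D.W_of_mem hβ)] with x e1 e2 e3 e4 e5 e6 e7 e8
    simp only [DS.beb, Pi.add_apply, DS.beLQ]
    rw [e1, e2, e3, e4, e5, e6, e7, e8]
    simp only [beM, Pi.add_apply]
    ring
  · simp only [Pi.add_apply]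
    rw [integral_const_mul, z, mul_zero, add_zero]

/-- The self-improvement inequality for test functions with small support. -/
theorem RS.be_loc (h : RS D κ n) (hf : D.Tb f Lf) (hk : D.Tb k Lk) {a b δ : ℝ} (δ0 : 0 < δ)
    (δ1 : δ < 1) {φ : X → ℝ} (hφ : φ ∈ D.V) (bφ : Bdd μ φ) (h0 : ∀ᵐ x ∂μ, 0 ≤ φ x)
    (hs : ∀ᵐ x ∂μ, φ x ≠ 0 → |k x - b| ≤ δ ∧ |f x - a| ≤ δ) :
    0 ≤ (1 + 3 * δ) * D.beB κ φ f Lf f Lf + 2 * δ * D.beB κ φ k Lk k Lk +
      ∫ x, φ x * (4 * (D.G f f x * D.G k k x) - 2 * D.G k (D.G f f) x +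
        δ * (|D.G f (D.G k k) x| + 3 * |D.G k (D.G f f) x|)) ∂μ := by
  have hq := h.beQ_tb hf hk a b
  have sm : ∀ {p : X → ℝ} {c : ℝ}, (∀ᵐ x ∂μ, φ x ≠ 0 → |p x - c| ≤ δ) →
      ∀ᵐ x ∂μ, |beM p c φ x| ≤ δ * φ x := fun hp => by
    filter_upwards [hp, h0] with x e1 e2
    rw [beM, abs_mul, abs_of_nonneg e2]
    rcases eq_or_ne (φ x) 0 with e | e
    · rw [e, mul_zero, mul_zero]
    · exact mul_le_mul_of_nonneg_right (e1 e) e2
  have c1 := fun {u Lu v Lv} => h.beB_cs (u := u) (Lu := Lu) (v := v) (Lv := Lv) hφ bφ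
    (beM_mem hf.mem hφ hf.bdd bφ a) (beM_bdd hf.bdd bφ a) (sm (hs.mono fun x e e' => (e e').2))
  have c2 := fun {u Lu v Lv} => h.beB_cs (u := u) (Lu := Lu) (v := v) (Lv := Lv) hφ bφ
    (beM_mem hk.mem hφ hk.bdd bφ b) (beM_bdd hk.bdd bφ b) (sm (hs.mono fun x e e' => (e e').1))
  have p1 := h.beB_mul hf hk a b hφ bφ hf
  have p2 := h.beB_mul hf hk a b hφ bφ hq
  have p3 := h.beB_nonneg hφ bφ h0 (hf.be_add hq (-1))
  rw [h.beB_quad hφ bφ hf hq] at p3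
  have a1 := abs_le.1 (c1 hf hk)
  have a2 := abs_le.1 (c2 hf hf)
  have a3 := abs_le.1 (c1 hq hk)
  have a4 := abs_le.1 (c2 hq hf)
  have n1 := h.beB_nonneg hφ bφ h0 hf
  have n2 := h.beB_nonneg hφ bφ h0 hk
  have gg := h.be_sav hf
  have kk := h.be_sav hk
  have fk := h.be_Gm hf hk
  have am := D.aesm hφ
  have i1 := bφ.mul_integrable am (((DS.G_int hf.mem fk).add (DS.G_int hk.mem gg)).sub
    (DS.G_int hf.mem fk))
  have i2 := bφ.mul_integrable am (((DS.G_int hf.mem (h.be_Gm hq hk)).add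
    (DS.G_int hk.mem (h.be_Gm hq hf))).sub (DS.G_int hq.mem fk))
  have i3 := bφ.mul_integrable am (((((hf.bddG.mul_integrable (D.aesm gg)
    (DS.G_int hk.mem hk.mem)).const_mul 4).sub ((DS.G_int hk.mem gg).const_mul 2))).add
    (((DS.G_int hf.mem kk).abs.add ((DS.G_int hk.mem gg).abs.const_mul 3)).const_mul δ))
  have key := integral_mono_ae (i2.sub (i1.const_mul (2 * (1 - δ)))) i3 (by
    have q2 : D.G (beQ f a k b) f =ᵐ[μ] beM f a (D.G f k) + beM k b (D.G f f) := by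
      filter_upwards [beQ_G hf hk a b hf.be_w, DS.G_symm hk.be_w hf.be_w] with x e1 e2
      simp only [e1, beM, Pi.add_apply, e2]
    filter_upwards [h0, hs, beM_G2 hf hk a b kk hk.bddG fk (hf.be_bG hk)
      (beQ_G hf hk a b hk.be_w) hf.be_w, beM_G2 hf hk a b fk (hf.be_bG hk) gg hf.bddG q2 hk.be_w,
      beQ_G hf hk a b (D.W_of_mem fk), DS.G_symm hk.be_w hf.be_w, DS.G_cs hf.be_w hk.be_w]
      with x e0 es e1 e2 e3 e4 e5
    simp only [Pi.add_apply, Pi.sub_apply, e1, e2, e3, e4, beM]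
    rcases eq_or_ne (φ x) 0 with e | e
    · simp only [e, zero_mul, mul_zero, sub_zero, le_refl]
    rw [mul_left_comm, ← mul_sub]
    refine mul_le_mul_of_nonneg_left ?_ e0
    have b1 : (f x - a) * D.G f (D.G k k) x ≤ δ * |D.G f (D.G k k) x| :=
      (le_abs_self _).trans ((abs_mul _ _).trans_le
        (mul_le_mul_of_nonneg_right (es e).2 (abs_nonneg _)))
    have b2 : (k x - b) * D.G k (D.G f f) x ≤ δ * |D.G k (D.G f f) x| :=
      (le_abs_self _).trans ((abs_mul _ _).trans_le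
        (mul_le_mul_of_nonneg_right (es e).1 (abs_nonneg _)))
    have b3 := mul_le_mul_of_nonneg_left (le_abs_self (D.G k (D.G f f) x)) δ0.le
    linarith)
  rw [integral_sub' i2 (i1.const_mul _), integral_const_mul] at key
  simp only [Pi.add_apply, Pi.sub_apply] at key
  nlinarith [mul_le_mul_of_nonneg_left p3 (sub_pos.2 δ1).le,
    mul_le_mul_of_nonneg_left a1.1 (sub_pos.2 δ1).le,
    mul_le_mul_of_nonneg_left a2.1 (sub_pos.2 δ1).le, mul_nonneg δ0.le n1, mul_nonneg δ0.le n2,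
    mul_nonneg δ0.le (mul_nonneg δ0.le n1), mul_nonneg δ0.le (mul_nonneg δ0.le n2)]

end RC
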