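import Pool.Agent.P.MP_6472e5_gt.BeH
import Pool.Agent.P.MP_6472e5_gt.BeD

/-! Self-improvement of the Bochner inequality. -/

set_option autoImplicit false
set_option linter.unusedSectionVars false

noncomputable section

namespace RC

open MeasureTheory Set Filter Topology Metric

variable {X : Type} [MetricSpace X] [SecondCountableTopology X] [MeasurableSpace X] [BorelSpace X]
  {μ : Measure X}

variable {D : DS μ} {κ : ℝ} {n : ℕ}

/-- A partition of unity in the range of a bounded function. -/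
theorem be_part (Ψ : (X → ℝ) → ℝ) (hadd : ∀ φ ∈ D.V, ∀ ψ ∈ D.V, Bdd μ φ → Bdd μ ψ →
      Ψ ((1 : ℝ) • φ + (1 : ℝ) • ψ) = Ψ φ + Ψ ψ) {p : X → ℝ} (hp : p ∈ D.V) (bp : Bdd μ p) {δ : ℝ}
    (δ0 : 0 < δ) (Q : X → Prop) (H : ∀ a, ∀ φ ∈ D.V, Bdd μ φ → (∀ᵐ x ∂μ, 0 ≤ φ x) →
      (∀ᵐ x ∂μ, φ x ≠ 0 → |p x - a| ≤ δ ∧ Q x) → 0 ≤ Ψ φ) :
    ∀ φ ∈ D.V, Bdd μ φ → (∀ᵐ x ∂μ, 0 ≤ φ x) → (∀ᵐ x ∂μ, φ x ≠ 0 → Q x) → 0 ≤ Ψ φ := by
  obtain ⟨M, hM⟩ := bp
  have key : ∀ j : ℕ, ∀ φ ∈ D.V, Bdd μ φ → (∀ᵐ x ∂μ, 0 ≤ φ x) →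
      (∀ᵐ x ∂μ, φ x ≠ 0 → p x ≤ -M + (j + 2) * δ ∧ Q x) → 0 ≤ Ψ φ := by
    intro j
    induction j with
    | zero =>
      intro φ hφ bφ h0 hs
      refine H (-M + δ) φ hφ bφ h0 ?_
      filter_upwards [hs, hM] with x e1 e2 e
      have := (e1 e).1
      rw [Nat.cast_zero] at this
      exact ⟨abs_le.2 ⟨by linarith [(abs_le.1 e2).1], by linarith⟩, (e1 e).2⟩
    | succ j ih =>
      intro φ hφ bφ h0 hs
      set c := -M + (j + 1) * δ with hc
      set τ : ℝ → ℝ := fun s => max 0 (min 1 (δ⁻¹ * (s - c))) with hτ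
      have t0 : ∀ s, 0 ≤ τ s := fun s => le_max_left _ _
      have t1 : ∀ s, τ s ≤ 1 := fun s => max_le zero_le_one (min_le_left _ _)
      have lτ : LipschitzWith ‖δ⁻¹‖₊ fun s => τ s - τ 0 := by
        have : LipschitzWith ‖δ⁻¹‖₊ fun s : ℝ => δ⁻¹ * (s - c) :=
          LipschitzWith.of_dist_le_mul fun s r => by
            rw [Real.dist_eq, Real.dist_eq, ← mul_sub, abs_mul, sub_sub_sub_cancel_right]
            rfl
        refine LipschitzWith.of_dist_le_mul fun s r => ?_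
        rw [dist_sub_right]
        exact ((this.const_min 1).const_max 0).dist_le_mul s r
      have m1 := (D.comp_mem hp lτ (sub_self _)).1
      have b1 : Bdd μ fun x => τ (p x) - τ 0 := ⟨1, Eventually.of_forall fun x =>
        abs_le.2 ⟨by linarith [t0 (p x), t1 0], by linarith [t1 (p x), t0 0]⟩⟩
      have m2 := beM_mem m1 hφ b1 bφ (-τ 0)
      have b2 := beM_bdd b1 bφ (-τ 0)
      have e2 : ∀ x, beM (fun x => τ (p x) - τ 0) (-τ 0) φ x = τ (p x) * φ x := fun x => by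
        rw [beM]; ring
      set ψ := beM (fun x => τ (p x) - τ 0) (-τ 0) φ
      have := hadd ψ m2 (φ - ψ) (D.sub_mem hφ m2) b2 (bφ.sub b2)
      rw [one_smul, one_smul, add_sub_cancel] at this
      rw [this]
      refine add_nonneg (H (c + δ) ψ m2 b2 (h0.mono fun x e => ?_) (hs.mono fun x e e' => ?_))
        (ih _ (D.sub_mem hφ m2) (bφ.sub b2) (h0.mono fun x e => ?_) (hs.mono fun x e e' => ?_))
      · rw [e2]
        exact mul_nonneg (t0 _) e
      · rw [e2, mul_ne_zero_iff] at e'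
        have h1 := (e e'.2).1
        push_cast at h1
        refine ⟨abs_le.2 ⟨?_, by linarith⟩, (e e'.2).2⟩
        by_contra h2
        refine e'.1 (max_eq_left ((min_le_right _ _).trans ?_))
        exact mul_nonpos_of_nonneg_of_nonpos (inv_pos.2 δ0).le (by linarith)
      · rw [Pi.sub_apply, e2]
        nlinarith [t1 (p x)]
      · rw [Pi.sub_apply, e2] at e'
        refine ⟨?_, (e fun h => e' (by rw [h, mul_zero, sub_zero])).2⟩
        by_contra h2
        have : τ (p x) = 1 := by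
          refine le_antisymm (t1 _) (le_max_of_le_right (le_min le_rfl ?_))
          rw [le_inv_mul_iff₀ δ0]
          linarith
        exact e' (by rw [this, one_mul, sub_self])
  obtain ⟨j, hj⟩ := exists_nat_ge (2 * M / δ)
  rw [div_le_iff₀ δ0] at hj
  intro φ hφ bφ h0 hs
  refine key j φ hφ bφ h0 ?_
  filter_upwards [hs, hM] with x e1 e2 e using ⟨by nlinarith [(abs_le.1 e2).2], e1 e⟩

theorem RS.be_imp0 (h : RS D κ n) {f Lf k Lk : X → ℝ} (hf : D.Tb f Lf) (hk : D.Tb k Lk) {φ : X → ℝ}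
    (hφ : φ ∈ D.V) (bφ : Bdd μ φ) (h0 : ∀ᵐ x ∂μ, 0 ≤ φ x) :
    0 ≤ D.beB κ φ f Lf f Lf + 4 * ∫ x, φ x * (D.G f f x * D.G k k x) ∂μ -
      2 * ∫ x, φ x * D.G k (D.G f f) x ∂μ := by
  have gg := h.be_sav hf
  have kk := h.be_sav hk
  have i0 := hf.bddG.mul_integrable (D.aesm gg) (DS.G_int hk.mem hk.mem)
  have i1 : Integrable (fun x => 4 * (D.G f f x * D.G k k x) - 2 * D.G k (D.G f f) x) μ :=
    (i0.const_mul 4).sub ((DS.G_int hk.mem gg).const_mul 2)
  have i2 : Integrable (fun x => |D.G f (D.G k k) x| + 3 * |D.G k (D.G f f) x|) μ :=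
    (DS.G_int hf.mem kk).abs.add ((DS.G_int hk.mem gg).abs.const_mul 3)
  have key : ∀ δ ∈ Ioo (0 : ℝ) 1,
      0 ≤ (1 + 3 * δ) * D.beB κ φ f Lf f Lf + 2 * δ * D.beB κ φ k Lk k Lk +
      ∫ x, φ x * (4 * (D.G f f x * D.G k k x) - 2 * D.G k (D.G f f) x +
        δ * (|D.G f (D.G k k) x| + 3 * |D.G k (D.G f f) x|)) ∂μ := fun δ hδ => by
    set Ψ : (X → ℝ) → ℝ := fun φ =>
      (1 + 3 * δ) * D.beB κ φ f Lf f Lf + 2 * δ * D.beB κ φ k Lk k Lk +
      ∫ x, φ x * (4 * (D.G f f x * D.G k k x) - 2 * D.G k (D.G f f) x +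
        δ * (|D.G f (D.G k k) x| + 3 * |D.G k (D.G f f) x|)) ∂μ with hΨ
    have hadd : ∀ φ ∈ D.V, ∀ ψ ∈ D.V, Bdd μ φ → Bdd μ ψ →
        Ψ ((1 : ℝ) • φ + (1 : ℝ) • ψ) = Ψ φ + Ψ ψ := fun φ hφ ψ hψ bφ bψ => by
      have i3 := i1.add (i2.const_mul δ)
      have := integral_add (bφ.mul_integrable (D.aesm hφ) i3) (bψ.mul_integrable (D.aesm hψ) i3)
      simp only [hΨ, h.beB_lin hφ bφ hψ bψ hf hf, h.beB_lin hφ bφ hψ bψ hk hk]
      simp only [Pi.add_apply, one_smul, add_mul (φ _)] at this ⊢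
      rw [this]
      ring
    exact be_part Ψ hadd hf.mem hf.bdd hδ.1 (fun _ => True) (fun a φ hφ bφ h0 hs =>
      be_part Ψ hadd hk.mem hk.bdd hδ.1 (fun x => |f x - a| ≤ δ)
        (fun b φ hφ bφ h0 hs => h.be_loc hf hk hδ.1 hδ.2 hφ bφ h0 hs) φ hφ bφ h0
        (hs.mono fun x e e' => (e e').1)) φ hφ bφ h0 (Eventually.of_forall fun _ _ => trivial)
  have am := D.aesm hφ
  have j1 := (bφ.mul_integrable am i0).const_mul 4
  have j2 := (bφ.mul_integrable am (DS.G_int hk.mem gg)).const_mul 2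
  have c : Continuous fun δ : ℝ =>
      (1 + 3 * δ) * D.beB κ φ f Lf f Lf + 2 * δ * D.beB κ φ k Lk k Lk +
      (4 * ∫ x, φ x * (D.G f f x * D.G k k x) ∂μ - 2 * ∫ x, φ x * D.G k (D.G f f) x ∂μ +
        δ * ∫ x, φ x * (|D.G f (D.G k k) x| + 3 * |D.G k (D.G f f) x|) ∂μ) := by fun_prop
  refine (ge_of_tendsto ((c.tendsto 0).mono_left (nhdsWithin_le_nhds (s := Ioi 0))) ?_).trans_eq
    (by ring)
  filter_upwards [Ioo_mem_nhdsGT zero_lt_one] with δ hδ
  have j3 : Integrable (fun x => 4 * (φ x * (D.G f f x * D.G k k x)) -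
      2 * (φ x * D.G k (D.G f f) x)) μ := j1.sub j2
  rw [← integral_const_mul, ← integral_const_mul, ← integral_const_mul, ← integral_sub j1 j2,
    ← integral_add j3 ((bφ.mul_integrable am i2).const_mul δ)]
  refine (key δ hδ).trans_eq ?_
  congr 1
  exact integral_congr_ae (Eventually.of_forall fun x => by ring)

theorem RS.be_imp1 (h : RS D κ n) {f Lf k : X → ℝ} (hf : D.Tb f Lf) (hk : k ∈ D.V) (bk : Bdd μ k)
    {φ : X → ℝ} (hφ : φ ∈ D.V) (bφ : Bdd μ φ) (h0 : ∀ᵐ x ∂μ, 0 ≤ φ x) :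
    0 ≤ D.beB κ φ f Lf f Lf + 4 * ∫ x, φ x * (D.G f f x * D.G k k x) ∂μ -
      2 * ∫ x, φ x * D.G k (D.G f f) x ∂μ := by
  have F := h.flow
  have gg := h.be_sav hf
  have ev := Eventually.of_forall (f := 𝓝[>] (0 : ℝ)) fun t => F.be_mem' hk t
  have e := F.E_zero k hk
  have am := D.aesm hφ
  have l1 := be_l1 (ψ := fun x => φ x * D.G f f x) (am.mul (D.aesm gg)) (bφ.mul hf.bddG)
    (ev.mono fun t ht => DS.G_int ht ht) (DS.G_int hk hk) (DS.G_tendsto ev ev hk hk e e)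
  have l2 := be_l1 am bφ (ev.mono fun t ht => DS.G_int ht gg) (DS.G_int hk gg) (DS.G_tendsto
    (v := fun _ => D.G f f) ev (Eventually.of_forall fun _ => gg) hk gg e (by
      have : D.E (0 : X → ℝ) = 0 := by simpa using DS.E_smul 0 (D.W_of_mem hφ)
      simpa only [sub_self, this] using tendsto_const_nhds))
  simp only [mul_assoc] at l1
  refine ge_of_tendsto (((l1.const_mul 4).const_add _).sub (l2.const_mul 2)) ?_
  filter_upwards [self_mem_nhdsWithin] with t ht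
  exact h.be_imp0 hf (h.be_tb (D.memLp k hk) bk ht) hφ bφ h0

theorem RS.be_imp (h : RS D κ n) {f Lf φ : X → ℝ} (hf : D.Tb f Lf) (hφ : φ ∈ D.V) (bφ : Bdd μ φ)
    (h0 : ∀ᵐ x ∂μ, 0 ≤ φ x) {ε : ℝ} (hε : 0 < ε) :
    ∫ x, φ x * (D.G f Lf x - κ * D.G f f x +
      D.G (D.G f f) (D.G f f) x / (4 * (D.G f f x + ε))) ∂μ ≤
      -(1 / 2) * ∫ x, D.G φ (D.G f f) x ∂μ := by
  have gg := h.be_sav hf
  have g0 := DS.G_nonneg hf.be_w
  have s := h.beB_self hφ bφ hf
  have i : Integrable (fun x => D.G f Lf x - κ * D.G f f x) μ :=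
    (DS.G_int hf.mem hf.memL).sub ((DS.G_int hf.mem hf.mem).const_mul κ)
  have key := fun k hk bk => h.be_imp1 (k := k) hf hk bk hφ bφ h0
  have bg := hf.bddG
  set g := D.G f f
  have wg := D.W_of_mem gg
  obtain ⟨M, hM⟩ := id bg
  have hin : LocIn μ g (Ioi (-ε)) := fun x r => ⟨Icc 0 M, isCompact_Icc,
    fun s hs => lt_of_lt_of_le (neg_lt_zero.2 hε) hs.1, by
      filter_upwards [g0, hM] with y a b _ using ⟨a, (le_abs_self _).trans b⟩⟩
  have hd : ∀ s ∈ Ioi (-ε), HasDerivAt (fun s => (Real.log (s + ε) - Real.log ε) / 4)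
      (1 / (s + ε) / 4) s := fun s hs =>
    ((((hasDerivAt_id' s).add_const ε).log (by linarith [mem_Ioi.1 hs])).sub_const _).div_const 4
  have hc : ContinuousOn (fun s : ℝ => 1 / (s + ε) / 4) (Ioi (-ε)) :=
    (continuousOn_const.div (by fun_prop) fun s hs => by linarith [mem_Ioi.1 hs]).div_const 4
  have wk := wg.comp isOpen_Ioi hin hd hc
  have e1 := wg.chain wg isOpen_Ioi hin hd hc
  have e2 := wg.chain wk isOpen_Ioi hin hd hc
  have e3 := DS.G_symm wg wk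
  set k := fun x => (Real.log (g x + ε) - Real.log ε) / 4
  have kb : ∀ᵐ x ∂μ, |k x| ≤ (4 * ε)⁻¹ * g x := g0.mono fun x hx => by
    have a1 : Real.log ε ≤ Real.log (g x + ε) := Real.log_le_log hε (by linarith)
    have a2 := Real.log_le_sub_one_of_pos (show 0 < (g x + ε) / ε by positivity)
    rw [Real.log_div (by positivity) hε.ne'] at a2
    rw [abs_of_nonneg (div_nonneg (sub_nonneg.2 a1) (by norm_num))]
    refine (div_le_div_of_nonneg_right a2 (by norm_num)).trans_eq ?_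
    field_simp
    ring
  have G0 := DS.G_nonneg wg
  have hk : k ∈ D.V := by
    refine wk.mem (((D.memLp g gg).const_mul (4 * ε)⁻¹).mono' wk.aesm kb)
      (((DS.G_int gg gg).const_mul ((1 / ε / 4) ^ 2)).mono' (DS.G_aesm wk wk) ?_)
    filter_upwards [e1, e2, e3, g0, G0] with x a b c d e
    rw [b, c, a, ← mul_assoc, ← sq, Real.norm_of_nonneg (by positivity)]
    gcongr
    linarith
  have bk : Bdd μ k := ⟨(4 * ε)⁻¹ * M, by
    filter_upwards [kb, hM] with x a b using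
      a.trans (mul_le_mul_of_nonneg_left ((le_abs_self _).trans b) (by positivity))⟩
  have am := D.aesm hφ
  have j1 := bφ.mul_integrable am (DS.G_int hk gg)
  have j2 := bφ.mul_integrable am (bg.mul_integrable wg.aesm (DS.G_int hk hk))
  have a1 := key k hk bk
  have a2 : ∫ x, φ x * (D.G f Lf x - κ * g x + D.G g g x / (4 * (g x + ε))) ∂μ =
      ∫ x, φ x * (D.G f Lf x - κ * g x) ∂μ + ∫ x, φ x * D.G k g x ∂μ := by
    rw [← integral_add (bφ.mul_integrable am i) j1]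
    refine integral_congr_ae (e1.mono fun x a => ?_)
    simp only [a]
    rw [← mul_add, div_div, one_div, mul_comm (g x + ε), inv_mul_eq_div]
  have a3 : 4 * ∫ x, φ x * (g x * D.G k k x) ∂μ ≤ ∫ x, φ x * D.G k g x ∂μ := by
    rw [← integral_const_mul]
    refine integral_mono_ae (j2.const_mul 4) j1 ?_
    filter_upwards [e1, e2, e3, g0, G0, h0] with x a b c d e e'
    rw [mul_left_comm, b, c, a]
    refine mul_le_mul_of_nonneg_left ?_ e'
    rw [← mul_assoc, ← mul_assoc]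
    refine mul_le_of_le_one_left (by positivity) ?_
    rw [show 4 * g x * (1 / (g x + ε) / 4) = g x / (g x + ε) by ring, div_le_one (by positivity)]
    linarith
  linarith

end RC
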