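import Pool.Agent.P.MP_6472e5_gt.Defs

/-! Gromov-Hausdorff approximations, metric quotients, Euclidean lemmas. -/

set_option autoImplicit false
set_option linter.unusedSectionVars false

noncomputable section

namespace RC

open MeasureTheory Set Filter Topology Metric

variable {X Y Z W : Type} [MetricSpace X] [MetricSpace Y] [MetricSpace Z] [MetricSpace W]

theorem GHApprox.mono_eps {x : X} {r : ℝ} {z : Z} {R ε ε' : ℝ} {φ : X → Z}
    (h : GHApprox x r z R ε φ) (hε : ε ≤ ε') : GHApprox x r z R ε' φ := by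
  refine ⟨h.1, fun a ha b hb => (h.2.1 a ha b hb).trans hε, fun w hw => ?_⟩
  obtain ⟨a, ha, hd⟩ := h.2.2 w (ball_subset_ball (by linarith) hw)
  exact ⟨a, ha, hd.trans hε⟩

theorem GHApprox.dist_base {x : X} {r : ℝ} {z : Z} {R ε : ℝ} {φ : X → Z}
    (h : GHApprox x r z R ε φ) {a : X} (ha : a ∈ ball x (R * r)) :
    |dist (φ a) z - dist a x / r| ≤ ε := by
  have hx : x ∈ ball x (R * r) := mem_ball_self (lt_of_le_of_lt dist_nonneg (mem_ball.1 ha))
  have := h.2.1 a ha x hx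
  rwa [h.1] at this

/-- Density with control of the position. -/
theorem GHApprox.exists_near {x : X} {r : ℝ} {z : Z} {R ε : ℝ} {φ : X → Z} (hr : 0 < r)
    (h : GHApprox x r z R ε φ) {w : Z} (hw : w ∈ ball z (R - ε)) :
    ∃ a ∈ ball x (R * r), dist (φ a) w ≤ ε ∧ dist a x ≤ (dist w z + 2 * ε) * r := by
  obtain ⟨a, ha, hd⟩ := h.2.2 w hw
  refine ⟨a, ha, hd, ?_⟩
  have h1 := (abs_le.1 (h.dist_base ha)).1
  have h2 := dist_triangle (φ a) w z
  rw [← div_le_iff₀ hr]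
  linarith

theorem GHApprox.mono {x : X} {r : ℝ} {z : Z} {R R' ε ε' : ℝ} {φ : X → Z} (hr : 0 < r)
    (h : GHApprox x r z R ε φ) (hR : R' ≤ R) (hε : 2 * ε ≤ ε') (h0 : 0 ≤ ε) :
    GHApprox x r z R' ε' φ := by
  have hs : ball x (R' * r) ⊆ ball x (R * r) :=
    ball_subset_ball (mul_le_mul_of_nonneg_right hR hr.le)
  refine ⟨h.1, fun a ha b hb => (h.2.1 a (hs ha) b (hs hb)).trans (by linarith), fun w hw => ?_⟩
  obtain ⟨a, -, hd, hx⟩ := h.exists_near hr (w := w) (ball_subset_ball (by linarith) hw)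
  refine ⟨a, ?_, hd.trans (by linarith)⟩
  rw [mem_ball] at hw ⊢
  exact lt_of_le_of_lt hx (mul_lt_mul_of_pos_right (by linarith) hr)

open Classical in
/-- Composition of approximations with change of centre and scale. -/
theorem GHApprox.comp {x x' : X} {r s : ℝ} {z z' : Z} {w : W} {R R' ε ε' η : ℝ} {φ : X → Z}
    {ψ : Z → W} (hr : 0 < r) (hs : 0 < s) (h0 : 0 ≤ ε) (h0' : 0 ≤ ε') (h : GHApprox x r z R ε φ)
    (h' : GHApprox z' s w R' ε' ψ) (hx : x' ∈ ball x (R * r)) (hd : dist (φ x') z' ≤ ε)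
    (hη : 3 * ε ≤ η * s) (hR : dist z' z + R' * s + 2 * ε ≤ R) :
    GHApprox x' (s * r) w (R' - η) (2 * ε' + η) (Function.update (ψ ∘ φ) x' w) := by
  have hη0 : 0 ≤ η := by
    by_contra hn
    push Not at hn
    nlinarith
  set φ' : X → Z := Function.update φ x' z' with hφ'
  have hχ : Function.update (ψ ∘ φ) x' w = ψ ∘ φ' := by
    funext a
    by_cases ha : a = x'
    · subst ha; simp [hφ', h'.1]
    · simp [hφ', Function.update_of_ne ha]
  have hcl : ∀ a, dist (φ' a) (φ a) ≤ ε := by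
    intro a
    by_cases ha : a = x'
    · subst ha; simp only [hφ', Function.update_self]; rwa [dist_comm]
    · simp [hφ', Function.update_of_ne ha, h0]
  have hx' : dist x' x / r ≤ dist z' z + 2 * ε := by
    have h1 := (abs_le.1 (h.dist_base hx)).1
    have h2 := dist_triangle (φ x') z' z
    linarith
  have hin : ∀ a ∈ ball x' ((R' - η) * (s * r)), dist a x' / r < (R' - η) * s := by
    intro a ha
    rw [div_lt_iff₀ hr]
    rw [mem_ball] at ha
    linarith
  have hsub : ∀ a ∈ ball x' ((R' - η) * (s * r)), a ∈ ball x (R * r) := by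
    intro a ha
    have h1 := hin a ha
    have h2 : dist a x / r ≤ dist a x' / r + dist x' x / r := by
      rw [← add_div]
      exact div_le_div_of_nonneg_right (dist_triangle _ _ _) hr.le
    rw [mem_ball, ← div_lt_iff₀ hr]
    nlinarith
  have hz' : ∀ a ∈ ball x' ((R' - η) * (s * r)), φ' a ∈ ball z' (R' * s) := by
    intro a ha
    have h1 := hin a ha
    by_cases hax : a = x'
    · subst hax
      simp only [hφ', Function.update_self, mem_ball, dist_self, zero_div] at h1 ⊢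
      nlinarith
    · have h2 := (abs_le.1 (h.2.1 a (hsub a ha) x' hx)).2
      have h3 := dist_triangle (φ a) (φ x') z'
      simp only [hφ', Function.update_of_ne hax, mem_ball]
      nlinarith
  have hes : 3 * (ε / s) ≤ η := by
    rw [← mul_div_assoc, div_le_iff₀ hs]; exact hη
  have hes0 : 0 ≤ ε / s := div_nonneg h0 hs.le
  rw [hχ]
  refine ⟨by simp [hφ', h'.1], fun a ha b hb => ?_, fun v hv => ?_⟩
  · have h1 := abs_le.1 (h'.2.1 _ (hz' a ha) _ (hz' b hb))
    have h2 := abs_le.1 (h.2.1 a (hsub a ha) b (hsub b hb))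
    have h3 := abs_le.1 ((dist_dist_dist_le (φ' a) (φ' b) (φ a) (φ b)).trans
      (add_le_add (hcl a) (hcl b)))
    have h4 : |dist (φ' a) (φ' b) / s - dist a b / (s * r)| ≤ 3 * (ε / s) := by
      have : dist (φ' a) (φ' b) / s - dist a b / (s * r) =
          (dist (φ' a) (φ' b) - dist a b / r) / s := by field_simp
      rw [this, abs_div, abs_of_pos hs, ← mul_div_assoc]
      refine div_le_div_of_nonneg_right (abs_le.2 ⟨?_, ?_⟩) hs.le <;> linarith [h3.1, h3.2]
    have h5 := abs_le.1 h4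
    simp only [Function.comp_apply]
    refine abs_le.2 ⟨?_, ?_⟩ <;> linarith [h1.1, h1.2, h5.1, h5.2]
  · rw [mem_ball] at hv
    obtain ⟨c, hc, hcv, hcz⟩ := h'.exists_near hs (w := v) (by rw [mem_ball]; linarith)
    have hcz' : dist c z' < (R' - 2 * η) * s :=
      lt_of_le_of_lt hcz (mul_lt_mul_of_pos_right (by linarith) hs)
    obtain ⟨a, ha, hac⟩ := h.2.2 c (by
      rw [mem_ball] at hc ⊢
      have := dist_triangle c z' z
      linarith)
    have ha' : a ∈ ball x' ((R' - η) * (s * r)) := by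
      have h1 := (abs_le.1 (h.2.1 a ha x' hx)).1
      have h2 := dist_triangle4 (φ a) c z' (φ x')
      rw [dist_comm z' (φ x')] at h2
      have h3 : dist a x' / r < (R' - η) * s := by nlinarith
      rw [div_lt_iff₀ hr] at h3
      rw [mem_ball]
      linarith
    refine ⟨a, ha', ?_⟩
    have h1 := (abs_le.1 (h'.2.1 _ (hz' a ha') c hc)).2
    have h2 : dist (φ' a) c / s ≤ 2 * (ε / s) := by
      rw [← mul_div_assoc]
      refine div_le_div_of_nonneg_right ?_ hs.le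
      have := dist_triangle (φ' a) (φ a) c
      linarith [hcl a]
    have h3 := dist_triangle (ψ (φ' a)) (ψ c) v
    simp only [Function.comp_apply]
    linarith

theorem GHApprox.isometry {x : X} {r : ℝ} {z : Z} {R ε : ℝ} {φ : X → Z}
    (h : GHApprox x r z R ε φ) (e : Z ≃ᵢ W) : GHApprox x r (e z) R ε (e ∘ φ) := by
  refine ⟨by simp [h.1], fun a ha b hb => ?_, fun w hw => ?_⟩
  · simpa only [Function.comp_apply, e.dist_eq] using h.2.1 a ha b hb
  · obtain ⟨a, ha, hd⟩ := h.2.2 (e.symm w) (by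
      rw [mem_ball, ← e.dist_eq, e.apply_symm_apply]; exact hw)
    refine ⟨a, ha, ?_⟩
    rw [← e.dist_eq, e.apply_symm_apply] at hd
    exact hd

theorem gh_dist_smul {n : ℕ} {s : ℝ} (h0 : 0 < s) (u v c : Euc n) :
    dist (s⁻¹ • (u - c)) (s⁻¹ • (v - c)) = dist u v / s := by
  rw [dist_smul₀, dist_sub_right, Real.norm_eq_abs, abs_of_pos (inv_pos.2 h0), div_eq_inv_mul]

theorem ghApprox_euc {n : ℕ} {a : Z → Euc n} (ha : Isometry a) (hs : Function.Surjective a)
    (z : Z) {s : ℝ} (h0 : 0 < s) (R : ℝ) {ε : ℝ} (hε : 0 ≤ ε) :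
    GHApprox z s (0 : Euc n) R ε (fun y => s⁻¹ • (a y - a z)) := by
  refine ⟨by simp, fun b _ c _ => ?_, fun w hw => ?_⟩
  · simp only [gh_dist_smul h0, ha.dist_eq, sub_self, abs_zero, hε]
  · obtain ⟨y, hy⟩ := hs (a z + s • w)
    refine ⟨y, ?_, ?_⟩
    · rw [mem_ball, ← ha.dist_eq, hy, dist_self_add_left, norm_smul, Real.norm_eq_abs,
        abs_of_pos h0, mul_comm R s]
      rw [mem_ball, dist_zero_right] at hw
      exact mul_lt_mul_of_pos_left (by linarith) h0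
    · simp only [hy, add_sub_cancel_left, smul_smul, inv_mul_cancel₀ h0.ne', one_smul, dist_self,
        hε]

/-- Change of centre and scale in a Euclidean chart. -/
theorem GHApprox.recentre {n : ℕ} {x x' : X} {r s R R' ε : ℝ} {φ : X → Euc n} (hr : 0 < r)
    (hs : 0 < s) (h0 : 0 ≤ ε) (h : GHApprox x r (0 : Euc n) R ε φ)
    (hR : dist x' x / r + R' * s + 3 * ε ≤ R) (hR' : 0 < R') :
    GHApprox x' (s * r) (0 : Euc n) R' (3 * ε / s) (fun a => s⁻¹ • (φ a - φ x')) := by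
  have hRs : 0 < R' * s := mul_pos hR' hs
  have hsub : ∀ a ∈ ball x' (R' * (s * r)), a ∈ ball x (R * r) := by
    intro a ha
    have h1 : dist a x' / r < R' * s := by
      rw [div_lt_iff₀ hr]; rw [mem_ball] at ha; linarith
    have h2 : dist a x / r ≤ dist a x' / r + dist x' x / r := by
      rw [← add_div]
      exact div_le_div_of_nonneg_right (dist_triangle _ _ _) hr.le
    rw [mem_ball, ← div_lt_iff₀ hr]
    linarith
  have hx : x' ∈ ball x (R * r) := hsub x' (mem_ball_self (by positivity))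
  refine ⟨by simp, fun a ha b hb => ?_, fun w hw => ?_⟩
  · have h2 := h.2.1 a (hsub a ha) b (hsub b hb)
    rw [gh_dist_smul hs]
    have : dist (φ a) (φ b) / s - dist a b / (s * r) =
        (dist (φ a) (φ b) - dist a b / r) / s := by field_simp
    rw [this, abs_div, abs_of_pos hs]
    exact div_le_div_of_nonneg_right (by linarith) hs.le
  · rw [mem_ball, dist_zero_right] at hw
    have hw' : s * ‖w‖ < R' * s - 3 * ε := by
      have := mul_lt_mul_of_pos_left hw hs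
      have e : s * (R' - 3 * ε / s) = R' * s - 3 * ε := by field_simp
      linarith
    have h1 := (abs_le.1 (h.dist_base hx)).2
    rw [dist_zero_right] at h1
    have hn : ‖s • w‖ = s * ‖w‖ := by rw [norm_smul, Real.norm_eq_abs, abs_of_pos hs]
    obtain ⟨a, ha, hd⟩ := h.2.2 (φ x' + s • w) (by
      rw [mem_ball, dist_zero_right]
      have := norm_add_le (φ x') (s • w)
      linarith)
    refine ⟨a, ?_, ?_⟩
    · have h2 := (abs_le.1 (h.2.1 a ha x' hx)).1
      have h3 := dist_triangle (φ a) (φ x' + s • w) (φ x')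
      rw [dist_self_add_left, hn] at h3
      have h4 : dist a x' / r < R' * s := by linarith
      rw [div_lt_iff₀ hr] at h4
      rw [mem_ball]
      linarith
    · have e : w = s⁻¹ • (φ x' + s • w - φ x') := by
        rw [add_sub_cancel_left, smul_smul, inv_mul_cancel₀ hs.ne', one_smul]
      rw [e, gh_dist_smul hs]
      exact div_le_div_of_nonneg_right (by linarith) hs.le

section Ultra

variable {ι : Type} {V : Ultrafilter ι} {y : ι → X} {r : ι → ℝ}

theorem gh_lim [ProperSpace Z] {z : Z} {u : ι → Z} {R : ℝ}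
    (h : ∀ᶠ i in (V : Filter ι), dist (u i) z ≤ R) : ∃ v, Tendsto u V (𝓝 v) := by
  obtain ⟨v, -, hv⟩ := (isCompact_closedBall z R).ultrafilter_le_nhds (V.map u)
    (le_principal_iff.2 h)
  exact ⟨v, hv⟩

theorem gh_conv [ProperSpace Z] (hr : ∀ i, 0 < r i) {z : Z} {q : ι → X → Z}
    (hq : ∀ R ε, 0 < R → 0 < ε → ∀ᶠ i in (V : Filter ι), GHApprox (y i) (r i) z R ε (q i))
    {a : ι → X} {R : ℝ} (hR : 0 < R) (ha : ∀ᶠ i in (V : Filter ι), a i ∈ ball (y i) (R * r i)) :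
    ∃ v, Tendsto (fun i => q i (a i)) V (𝓝 v) := by
  refine gh_lim (z := z) (R := R + 1) ?_
  filter_upwards [hq R 1 hR one_pos, ha] with i h1 h2
  have h3 := (abs_le.1 (h1.dist_base h2)).2
  rw [mem_ball, ← div_lt_iff₀ (hr i)] at h2
  linarith

theorem gh_dist_lim (hr : ∀ i, 0 < r i) {z : Z} {q : ι → X → Z}
    (hq : ∀ R ε, 0 < R → 0 < ε → ∀ᶠ i in (V : Filter ι), GHApprox (y i) (r i) z R ε (q i))
    {a b : ι → X} {R R' : ℝ} (hR : 0 < R)
    (ha : ∀ᶠ i in (V : Filter ι), a i ∈ ball (y i) (R * r i))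
    (hb : ∀ᶠ i in (V : Filter ι), b i ∈ ball (y i) (R' * r i)) {v v' : Z}
    (hv : Tendsto (fun i => q i (a i)) V (𝓝 v)) (hv' : Tendsto (fun i => q i (b i)) V (𝓝 v')) :
    Tendsto (fun i => dist (a i) (b i) / r i) V (𝓝 (dist v v')) := by
  refine (hv.dist hv').congr_dist ?_
  rw [Metric.tendsto_nhds]
  intro ε hε
  filter_upwards [hq (max R R') (ε / 2) (lt_max_of_lt_left hR) (by linarith), ha, hb]
    with i h1 h2 h3
  have := h1.2.1 (a i) (ball_subset_ball
    (mul_le_mul_of_nonneg_right (le_max_left _ _) (hr i).le) h2) (b i) (ball_subset_ball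
    (mul_le_mul_of_nonneg_right (le_max_right _ _) (hr i).le) h3)
  rw [Real.dist_eq, sub_zero, abs_of_nonneg dist_nonneg, Real.dist_eq]
  linarith

theorem gh_exists_seq {η : ι → ℝ} (hη : ∀ i, 0 < η i) (hη0 : Tendsto η V (𝓝 0)) {z : Z}
    {q : ι → X → Z}
    (hq : ∀ R ε, 0 < R → 0 < ε → ∀ᶠ i in (V : Filter ι), GHApprox (y i) (r i) z R ε (q i))
    (hr : ∀ i, 0 < r i) (v : Z) :
    ∃ (a : ι → X) (R : ℝ), 0 < R ∧ (∀ᶠ i in (V : Filter ι), a i ∈ ball (y i) (R * r i)) ∧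
      Tendsto (fun i => q i (a i)) V (𝓝 v) := by
  have hR : 0 < dist v z + 1 := by positivity
  have hex : ∀ i, ∃ a ∈ ball (y i) ((dist v z + 1) * r i),
      dist v (q i a) < infDist v (q i '' ball (y i) ((dist v z + 1) * r i)) + η i := by
    intro i
    obtain ⟨_, ⟨a, ha, rfl⟩, hd⟩ := (infDist_lt_iff (x := v)
      (s := q i '' ball (y i) ((dist v z + 1) * r i))
      (r := infDist v (q i '' ball (y i) ((dist v z + 1) * r i)) + η i)
      ⟨_, mem_image_of_mem _ (mem_ball_self (mul_pos hR (hr i)))⟩).1 (by linarith [hη i])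
    exact ⟨a, ha, hd⟩
  choose a ha hd using hex
  refine ⟨a, _, hR, Eventually.of_forall ha, ?_⟩
  rw [Metric.tendsto_nhds]
  intro ε hε
  filter_upwards [hq (dist v z + 1) (min (ε / 2) (1 / 2)) hR (lt_min (by linarith) (by norm_num)),
    hη0.eventually (gt_mem_nhds (half_pos hε))] with i h1 h2
  obtain ⟨b, hb, hbv⟩ := h1.2.2 v (by
    rw [mem_ball]
    have := min_le_right (ε / 2) (1 / 2)
    linarith)
  have h3 := infDist_le_dist_of_mem (x := v) (mem_image_of_mem (q i) hb)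
  have h4 := hd i
  have h5 := min_le_left (ε / 2) (1 / 2)
  rw [dist_comm] at hbv ⊢
  linarith

theorem gh_isometry [ProperSpace Z] [ProperSpace W] {η : ι → ℝ} (hη : ∀ i, 0 < η i)
    (hη0 : Tendsto η V (𝓝 0)) (hr : ∀ i, 0 < r i) {z : Z} {w : W} {q : ι → X → Z}
    {φ : ι → X → W}
    (hq : ∀ R ε, 0 < R → 0 < ε → ∀ᶠ i in (V : Filter ι), GHApprox (y i) (r i) z R ε (q i))
    (hφ : ∀ R ε, 0 < R → 0 < ε → ∀ᶠ i in (V : Filter ι), GHApprox (y i) (r i) w R ε (φ i)) :
    ∃ e : Z ≃ᵢ W, e z = w ∧ ∀ R ε, 0 < ε → ∀ᶠ i in (V : Filter ι), ∀ a ∈ ball (y i) (R * r i),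
      dist (e (q i a)) (φ i a) ≤ ε := by
  let Rel : Z → W → Prop := fun v u => ∃ (a : ι → X) (R : ℝ), 0 < R ∧
    (∀ᶠ i in (V : Filter ι), a i ∈ ball (y i) (R * r i)) ∧
      Tendsto (fun i => q i (a i)) V (𝓝 v) ∧ Tendsto (fun i => φ i (a i)) V (𝓝 u)
  have hd : ∀ v u v' u', Rel v u → Rel v' u' → dist u u' = dist v v' := by
    rintro v u v' u' ⟨a, R, hR, ha, h1, h2⟩ ⟨b, R', -, hb, h3, h4⟩
    exact tendsto_nhds_unique (gh_dist_lim hr hφ hR ha hb h2 h4)
      (gh_dist_lim hr hq hR ha hb h1 h3)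
  have hl : ∀ v, ∃ u, Rel v u := by
    intro v
    obtain ⟨a, R, hR, ha, h1⟩ := gh_exists_seq hη hη0 hq hr v
    obtain ⟨u, hu⟩ := gh_conv hr hφ hR ha
    exact ⟨u, a, R, hR, ha, h1, hu⟩
  have hl' : ∀ u, ∃ v, Rel v u := by
    intro u
    obtain ⟨a, R, hR, ha, h1⟩ := gh_exists_seq hη hη0 hφ hr u
    obtain ⟨v, hv⟩ := gh_conv hr hq hR ha
    exact ⟨v, a, R, hR, ha, hv, h1⟩
  choose f hf using hl
  have hiso : Isometry f := Isometry.of_dist_eq fun v v' => hd _ _ _ _ (hf v) (hf v')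
  have huniq : ∀ v u, Rel v u → f v = u := fun v u h =>
    dist_eq_zero.1 ((hd _ _ _ _ (hf v) h).trans (dist_self v))
  have hsurj : Function.Surjective f := fun u => (hl' u).imp fun v hv => huniq v u hv
  refine ⟨⟨Equiv.ofBijective f ⟨hiso.injective, hsurj⟩, hiso⟩, ?_, fun R ε hε => ?_⟩
  · refine huniq z w ⟨y, 1, one_pos, Eventually.of_forall fun i =>
      mem_ball_self (mul_pos one_pos (hr i)), ?_, ?_⟩
    · exact tendsto_const_nhds.congr' ((hq 1 1 one_pos one_pos).mono fun i h => h.1.symm)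
    · exact tendsto_const_nhds.congr' ((hφ 1 1 one_pos one_pos).mono fun i h => h.1.symm)
  · by_contra hn
    rw [← Ultrafilter.eventually_not] at hn
    have hex : ∀ i, ∃ a, ¬(∀ a ∈ ball (y i) (R * r i), dist (f (q i a)) (φ i a) ≤ ε) →
        a ∈ ball (y i) (R * r i) ∧ ε < dist (f (q i a)) (φ i a) := by
      intro i
      by_cases hi : ∀ a ∈ ball (y i) (R * r i), dist (f (q i a)) (φ i a) ≤ ε
      · exact ⟨y i, fun h => absurd hi h⟩
      · push Not at hi
        obtain ⟨a, ha⟩ := hi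
        exact ⟨a, fun _ => ha⟩
    choose a ha using hex
    have h1 : ∀ᶠ i in (V : Filter ι), a i ∈ ball (y i) (max R 1 * r i) :=
      hn.mono fun i hi => ball_subset_ball
        (mul_le_mul_of_nonneg_right (le_max_left _ _) (hr i).le) (ha i hi).1
    have hR : 0 < max R 1 := lt_max_of_lt_right one_pos
    obtain ⟨v, hv⟩ := gh_conv hr hq hR h1
    obtain ⟨u, hu⟩ := gh_conv hr hφ hR h1
    have h2 : f v = u := huniq v u ⟨a, _, hR, h1, hv, hu⟩
    have h3 := ((hiso.continuous.tendsto v).comp hv).dist hu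
    rw [h2, dist_self] at h3
    have h4 : ε ≤ 0 := ge_of_tendsto h3 (hn.mono fun i hi => (ha i hi).2.le)
    linarith

end Ultra

/-- Uniqueness of limits. -/
theorem exists_isometry_of_approx [ProperSpace Z] [ProperSpace W] {U : Ultrafilter ℕ} {y : ℕ → X}
    {r : ℕ → ℝ} (hr : ∀ i, 0 < r i) {z : Z} {w : W} {q : ℕ → X → Z} {φ : ℕ → X → W}
    (hq : ∀ R ε, 0 < R → 0 < ε → ∀ᶠ i in (U : Filter ℕ), GHApprox (y i) (r i) z R ε (q i))
    (hφ : ∀ R ε, 0 < R → 0 < ε → ∀ᶠ i in (U : Filter ℕ), GHApprox (y i) (r i) w R ε (φ i)) :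
    ∃ e : Z ≃ᵢ W, e z = w ∧ ∀ R ε, 0 < ε → ∀ᶠ i in (U : Filter ℕ), ∀ a ∈ ball (y i) (R * r i),
      dist (e (q i a)) (φ i a) ≤ ε := by
  let V : Ultrafilter (ℕ × ℕ) := Ultrafilter.of ((U : Filter ℕ) ×ˢ atTop)
  have hV : (V : Filter (ℕ × ℕ)) ≤ (U : Filter ℕ) ×ˢ atTop := Ultrafilter.of_le _
  have h1 : Tendsto Prod.fst (V : Filter (ℕ × ℕ)) (U : Filter ℕ) := tendsto_fst.mono_left hV
  have h2 : Tendsto Prod.snd (V : Filter (ℕ × ℕ)) atTop := tendsto_snd.mono_left hV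
  obtain ⟨e, he, h⟩ := gh_isometry (V := V) (y := fun p => y p.1) (r := fun p => r p.1)
    (η := fun p => 1 / ((p.2 : ℝ) + 1)) (fun p => by positivity)
    (tendsto_one_div_add_atTop_nhds_zero_nat.comp h2) (fun p => hr p.1)
    (q := fun p => q p.1) (φ := fun p => φ p.1)
    (fun R ε hR hε => h1.eventually (hq R ε hR hε))
    (fun R ε hR hε => h1.eventually (hφ R ε hR hε))
  refine ⟨e, he, fun R ε hε => ?_⟩
  have h3 : Filter.map Prod.fst (V : Filter (ℕ × ℕ)) = U := U.unique h1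
  rw [← h3]
  exact h R ε hε

theorem gh_mono_nat {x : X} {r : ℝ} {z : Z} {R ε : ℝ} {φ : X → Z} (hr : 0 < r) {N : ℕ}
    (hR : 0 < R) (hε : 0 < ε) (hN : ⌈R + 2 / ε⌉₊ ≤ N)
    (h : GHApprox x r z (N + 1) (1 / (N + 1)) φ) : GHApprox x r z R ε φ := by
  have h1 : R + 2 / ε ≤ N := (Nat.le_ceil _).trans (by exact_mod_cast hN)
  have h2 : 0 < 2 / ε := by positivity
  refine h.mono hr (by linarith) ?_ (by positivity)
  have h3 : 2 / ε ≤ N + 1 := by linarith
  rw [div_le_iff₀ hε] at h3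
  rw [mul_one_div, div_le_iff₀ (by positivity)]
  linarith

/-- Diagonal choice of approximations. -/
theorem exists_diag {l : Filter ℕ} (hl : l ≤ atTop) {y : ℕ → X} {r : ℕ → ℝ} (hr : ∀ i, 0 < r i)
    {w : W} (h : ∀ R ε, 0 < R → 0 < ε → ∀ᶠ i in l, ∃ φ, GHApprox (y i) (r i) w R ε φ) :
    ∃ φ : ℕ → X → W, ∀ R ε, 0 < R → 0 < ε → ∀ᶠ i in l, GHApprox (y i) (r i) w R ε (φ i) := by
  classical
  let P : ℕ → ℕ → Prop := fun i N => ∃ φ, GHApprox (y i) (r i) w (N + 1) (1 / (N + 1)) φ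
  refine ⟨fun i => if h : P i (Nat.findGreatest (P i) i) then h.choose else fun _ => w,
    fun R ε hR hε => ?_⟩
  filter_upwards [h ((⌈R + 2 / ε⌉₊ : ℕ) + 1) (1 / ((⌈R + 2 / ε⌉₊ : ℕ) + 1)) (by positivity)
    (by positivity), hl (eventually_ge_atTop ⌈R + 2 / ε⌉₊)] with i h1 h2
  have h3 : P i (Nat.findGreatest (P i) i) := Nat.findGreatest_spec h2 h1
  rw [dif_pos h3]
  exact gh_mono_nat (hr i) hR hε (Nat.le_findGreatest h2 h1) h3.choose_spec

theorem isTangent_of_ultra {U : Ultrafilter ℕ} {x : X} {r : ℕ → ℝ} (hr : ∀ i, 0 < r i)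
    (h0 : Tendsto r U (𝓝 0)) {w : W}
    (h : ∀ R ε, 0 < R → 0 < ε → ∀ᶠ i in (U : Filter ℕ), ∃ φ, GHApprox x (r i) w R ε φ) :
    IsTangent x w := by
  have hex : ∀ N : ℕ, ∃ i, r i < 1 / ((N : ℝ) + 1) ∧
      ∃ φ, GHApprox x (r i) w (N + 1) (1 / (N + 1)) φ := fun N =>
    ((h0.eventually (gt_mem_nhds (by positivity))).and
      (h (N + 1) (1 / (N + 1)) (by positivity) (by positivity))).exists
  choose i hi hφ using hex
  refine ⟨fun N => r (i N), fun N => hr _, ?_, fun R ε hR hε => ?_⟩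
  · exact squeeze_zero (fun N => (hr _).le) (fun N => (hi N).le)
      tendsto_one_div_add_atTop_nhds_zero_nat
  · filter_upwards [eventually_ge_atTop ⌈R + 2 / ε⌉₊] with N hN
    obtain ⟨φ, h1⟩ := hφ N
    exact ⟨φ, gh_mono_nat (hr _) hR hε hN h1⟩

theorem ultra_le_atTop {U : Ultrafilter ℕ} {r : ℕ → ℝ} (hr : ∀ i, 0 < r i)
    (h0 : Tendsto r U (𝓝 0)) : (U : Filter ℕ) ≤ atTop := by
  rcases U.le_cofinite_or_eq_pure with h | ⟨i, rfl⟩
  · rwa [Nat.cofinite_eq_atTop] at h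
  · exact absurd (tendsto_nhds_unique (tendsto_pure_nhds r i) h0) (hr i).ne'

theorem gh_lin {k n : ℕ} {R : ℝ} (hR : 1 ≤ R) {F : Euc k → Euc n} (h0 : F 0 = 0)
    (hF : ∀ a ∈ ball (0 : Euc k) R, ∀ b ∈ ball (0 : Euc k) R, dist (F a) (F b) = dist a b) :
    ∃ g : Euc k →ₗᵢ[ℝ] Euc n, ∀ a ∈ ball (0 : Euc k) R, F a = g a := by
  have hz : (0 : Euc k) ∈ ball (0 : Euc k) R := mem_ball_self (by linarith)
  have hn : ∀ a ∈ ball (0 : Euc k) R, ‖F a‖ = ‖a‖ := fun a ha => by
    simpa [h0] using hF a ha 0 hz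
  have hi : ∀ a ∈ ball (0 : Euc k) R, ∀ b ∈ ball (0 : Euc k) R,
      inner ℝ (F a) (F b) = inner ℝ a b := by
    intro a ha b hb
    have h1 := hF a ha b hb
    rw [dist_eq_norm, dist_eq_norm] at h1
    rw [real_inner_eq_norm_mul_self_add_norm_mul_self_sub_norm_sub_mul_self_div_two,
      real_inner_eq_norm_mul_self_add_norm_mul_self_sub_norm_sub_mul_self_div_two,
      hn a ha, hn b hb, h1]
  let e := EuclideanSpace.basisFun (Fin k) ℝ
  have he : ∀ j, (1 / 2 : ℝ) • e j ∈ ball (0 : Euc k) R := by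
    intro j
    rw [mem_ball, dist_zero_right, norm_smul, e.orthonormal.1 j]
    norm_num
    linarith
  let G : Euc k →ₗ[ℝ] Euc n := e.toBasis.constr ℝ fun j => (2 : ℝ) • F ((1 / 2 : ℝ) • e j)
  have hG : ∀ j, G (e j) = (2 : ℝ) • F ((1 / 2 : ℝ) • e j) := fun j => by
    simp [G]
  have key : ∀ a ∈ ball (0 : Euc k) R, ∀ b, inner ℝ (F a) (G b) = inner ℝ a b := by
    intro a ha b
    conv_lhs => rw [← e.sum_repr b]
    conv_rhs => rw [← e.sum_repr b]
    rw [map_sum, inner_sum, inner_sum]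
    refine Finset.sum_congr rfl fun j _ => ?_
    rw [map_smul, hG, real_inner_smul_right, real_inner_smul_right, hi a ha _ (he j),
      real_inner_smul_right, real_inner_smul_right]
    ring
  have key2 : ∀ a b, inner ℝ (G a) (G b) = inner ℝ a b := by
    intro a b
    conv_lhs => rw [← e.sum_repr a]
    conv_rhs => rw [← e.sum_repr a]
    rw [map_sum, sum_inner, sum_inner]
    refine Finset.sum_congr rfl fun j _ => ?_
    rw [map_smul, hG, real_inner_smul_left, real_inner_smul_left, key _ (he j),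
      real_inner_smul_left, real_inner_smul_left]
    ring
  refine ⟨G.isometryOfInner key2, fun a ha => ?_⟩
  have h1 : ‖F a - G a‖ ^ 2 = 0 := by
    rw [norm_sub_sq_real, key a ha, hn a ha, ← real_inner_self_eq_norm_sq (G a), key2,
      real_inner_self_eq_norm_sq]
    ring
  exact sub_eq_zero.1 (norm_eq_zero.1 (pow_eq_zero_iff two_ne_zero |>.1 h1))

/-- Almost isometric maps of Euclidean balls are close to linear isometries. -/
theorem exists_linIso (k n : ℕ) (R ε : ℝ) (hε : 0 < ε) : ∃ δ, 0 < δ ∧ ∀ f : Euc k → Euc n,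
    ‖f 0‖ ≤ δ → (∀ a ∈ ball (0 : Euc k) R, ∀ b ∈ ball (0 : Euc k) R,
      |dist (f a) (f b) - dist a b| ≤ δ) → 1 ≤ R →
    ∃ g : Euc k →ₗᵢ[ℝ] Euc n, ∀ a ∈ ball (0 : Euc k) R, dist (f a) (g a) ≤ ε := by
  by_contra hn
  push Not at hn
  choose f hf0 hf hR hg using fun i : ℕ => hn (1 / ((i : ℝ) + 1)) (by positivity)
  have hR := hR 0
  let U : Ultrafilter ℕ := hyperfilter ℕ
  have hU : (U : Filter ℕ) ≤ atTop := Nat.cofinite_eq_atTop ▸ hyperfilter_le_cofinite
  have hδ : Tendsto (fun i : ℕ => 1 / ((i : ℝ) + 1)) U (𝓝 0) :=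
    tendsto_one_div_add_atTop_nhds_zero_nat.mono_left hU
  have hz : (0 : Euc k) ∈ ball (0 : Euc k) R := mem_ball_self (by linarith)
  have hex : ∀ a, ∃ v, a ∈ ball (0 : Euc k) R → Tendsto (fun i => f i a) U (𝓝 v) := by
    intro a
    by_cases ha : a ∈ ball (0 : Euc k) R
    · refine (gh_lim (z := 0) (R := R + 2) (Eventually.of_forall fun i => ?_)).imp fun v hv _ => hv
      have h1 := (abs_le.1 (hf i a ha 0 hz)).2
      have h2 := dist_triangle (f i a) (f i 0) 0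
      have h3 := hf0 i
      have h4 : 1 / ((i : ℝ) + 1) ≤ 1 := by
        rw [div_le_one (by positivity)]; linarith [Nat.cast_nonneg (α := ℝ) i]
      rw [mem_ball] at ha
      rw [dist_zero_right (f i 0)] at h2
      linarith
    · exact ⟨0, fun h => absurd h ha⟩
  choose F hF using hex
  obtain ⟨g, hFg⟩ := gh_lin hR (F := F) (by
    refine norm_eq_zero.1 (le_antisymm ?_ (norm_nonneg _))
    exact le_of_tendsto_of_tendsto' (hF 0 hz).norm hδ hf0) (by
    intro a ha b hb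
    refine sub_eq_zero.1 (abs_nonpos_iff.1 ?_)
    exact le_of_tendsto_of_tendsto' (((hF a ha).dist (hF b hb)).sub_const _).abs hδ
      fun i => hf i a ha b hb)
  choose a ha hd using fun i => hg i g
  obtain ⟨v, hv⟩ := gh_lim (V := U) (u := a) (z := 0) (R := R)
    (Eventually.of_forall fun i => (mem_ball.1 (ha i)).le)
  obtain ⟨j, hj⟩ := (Metric.tendsto_nhds.1 hv (ε / 8) (by linarith)).exists
  obtain ⟨i, h1, h2, h3⟩ := ((Metric.tendsto_nhds.1 hv (ε / 8) (by linarith)).and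
    ((Metric.tendsto_nhds.1 (hF _ (ha j)) (ε / 8) (by linarith)).and
      (hδ.eventually (gt_mem_nhds (show 0 < ε / 8 by linarith))))).exists
  have h4 := (abs_le.1 (hf i _ (ha i) _ (ha j))).2
  have h5 := dist_triangle4 (f i (a i)) (f i (a j)) (g (a j)) (g (a i))
  have h6 := dist_triangle_right (a i) (a j) v
  rw [hFg _ (ha j)] at h2
  rw [g.isometry.dist_eq, dist_comm (a j)] at h5
  linarith [hd i]

/-- Two Euclidean charts of the same ball differ by a linear isometry. -/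
theorem exists_rel (n : ℕ) (R ε : ℝ) (hε : 0 < ε) (hR : 2 ≤ R) : ∃ δ, 0 < δ ∧
    ∀ (X : Type) [MetricSpace X] (x : X) (r : ℝ) (φ φ' : X → Euc n), 0 < r →
    GHApprox x r (0 : Euc n) R δ φ → GHApprox x r (0 : Euc n) R δ φ' →
    ∃ g : Euc n ≃ₗᵢ[ℝ] Euc n, ∀ a ∈ ball x ((R - 1) * r), dist (φ' a) (g (φ a)) ≤ ε := by
  obtain ⟨δ₀, h0, hδ₀⟩ := exists_linIso n n (R - 1 / 2) (ε / 2) (by linarith)
  obtain ⟨δ, hδ, h1, h2, h3⟩ : ∃ δ, 0 < δ ∧ 4 * δ ≤ δ₀ ∧ δ ≤ 1 / 4 ∧ 6 * δ ≤ ε :=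
    ⟨min (δ₀ / 4) (min (1 / 4) (ε / 6)), by positivity,
      by linarith [min_le_left (δ₀ / 4) (min (1 / 4) (ε / 6))],
      (min_le_right _ _).trans (min_le_left _ _),
      by linarith [(min_le_right (δ₀ / 4) (min (1 / 4) (ε / 6))).trans (min_le_right _ _)]⟩
  refine ⟨δ, hδ, fun X _ x r φ φ' hr h h' => ?_⟩
  have hex : ∀ v : Euc n, ∃ a, v ∈ ball (0 : Euc n) (R - 1 / 2) →
      a ∈ ball x (R * r) ∧ dist (φ a) v ≤ δ := by
    intro v
    by_cases hv : v ∈ ball (0 : Euc n) (R - 1 / 2)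
    · obtain ⟨a, ha⟩ := h.2.2 v (ball_subset_ball (by linarith) hv)
      exact ⟨a, fun _ => ha⟩
    · exact ⟨x, fun h => absurd h hv⟩
  choose c hc using hex
  obtain ⟨g, hg⟩ := hδ₀ (fun v => φ' (c v)) (by
    obtain ⟨h4, h5⟩ := hc 0 (mem_ball_self (by linarith))
    have h6 := (abs_le.1 (h.dist_base h4)).1
    have h7 := (abs_le.1 (h'.dist_base h4)).2
    rw [dist_zero_right] at h7
    linarith) (by
    intro v hv v' hv'
    obtain ⟨h4, h5⟩ := hc v hv
    obtain ⟨h4', h5'⟩ := hc v' hv'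
    have h6 := abs_le.1 (h.2.1 _ h4 _ h4')
    have h7 := abs_le.1 (h'.2.1 _ h4 _ h4')
    have h8 := abs_le.1 ((dist_dist_dist_le (φ (c v)) (φ (c v')) v v').trans (add_le_add h5 h5'))
    refine abs_le.2 ⟨?_, ?_⟩ <;> linarith [h6.1, h6.2, h7.1, h7.2, h8.1, h8.2]) (by linarith)
  refine ⟨g.toLinearIsometryEquiv rfl, fun a ha => ?_⟩
  have ha' : a ∈ ball x (R * r) :=
    ball_subset_ball (mul_le_mul_of_nonneg_right (by linarith) hr.le) ha
  have hv : φ a ∈ ball (0 : Euc n) (R - 1 / 2) := by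
    have := (abs_le.1 (h.dist_base ha')).2
    rw [mem_ball, ← div_lt_iff₀ hr] at ha
    rw [mem_ball]
    linarith
  obtain ⟨h4, h5⟩ := hc _ hv
  have h6 := (abs_le.1 (h.2.1 _ h4 _ ha')).1
  have h7 := (abs_le.1 (h'.2.1 _ h4 _ ha')).2
  have h8 := hg _ hv
  have h9 := dist_triangle (φ' a) (φ' (c (φ a))) (g (φ a))
  rw [dist_comm (φ' a) (φ' (c (φ a)))] at h9
  rw [LinearIsometry.coe_toLinearIsometryEquiv]
  linarith

theorem gh_card_le {k : ℕ} {δ : ℝ} (h0 : 0 < δ) (h1 : δ ≤ 1) (T : Finset (Euc k))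
    (hT : ∀ v ∈ T, v ∈ closedBall (0 : Euc k) 1)
    (hs : ∀ v ∈ T, ∀ v' ∈ T, v ≠ v' → δ ≤ dist v v') : (T.card : ℝ) ≤ (5 / δ) ^ k := by
  have hd : Set.Pairwise (T : Set (Euc k))
      (Function.onFun Disjoint fun v => ball v (δ / 2)) := fun v hv v' hv' hne =>
    ball_disjoint_ball (by linarith [hs v hv v' hv' hne])
  have hsub : (⋃ v ∈ T, ball v (δ / 2)) ⊆ ball (0 : Euc k) (5 / 2) := by
    intro u hu
    simp only [mem_iUnion] at hu
    obtain ⟨v, hv, hu⟩ := hu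
    have := hT v hv
    rw [mem_ball] at hu ⊢
    rw [mem_closedBall] at this
    linarith [dist_triangle u v 0]
  have h2 := measure_mono (μ := volume) hsub
  rw [measure_biUnion_finset hd fun _ _ => measurableSet_ball,
    Measure.addHaar_ball_of_pos _ _ (show (0 : ℝ) < 5 / 2 by norm_num),
    Finset.sum_congr rfl fun v _ => Measure.addHaar_ball_of_pos volume v (half_pos h0),
    Finset.sum_const, nsmul_eq_mul, ← mul_assoc,
    ENNReal.mul_le_mul_iff_left (measure_ball_pos _ _ one_pos).ne' measure_ball_lt_top.ne,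
    ← ENNReal.ofReal_natCast, ← ENNReal.ofReal_mul (by positivity),
    ENNReal.ofReal_le_ofReal_iff (by positivity)] at h2
  simp only [finrank_euclideanSpace, Fintype.card_fin] at h2
  rw [← le_div_iff₀ (by positivity), ← div_pow] at h2
  refine h2.trans (le_of_eq ?_)
  congr 1
  field_simp

theorem gh_net {k : ℕ} {δ : ℝ} (h0 : 0 < δ) (h1 : δ ≤ 1) {S : Set (Euc k)}
    (hS : S ⊆ closedBall 0 1) : ∃ T : Finset (Euc k), (∀ v ∈ T, v ∈ S) ∧
      (∀ v ∈ T, ∀ v' ∈ T, v ≠ v' → δ ≤ dist v v') ∧ S ⊆ ⋃ v ∈ T, ball v δ := by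
  classical
  let P : ℕ → Prop := fun N => ∃ T : Finset (Euc k), (∀ v ∈ T, v ∈ S) ∧
    (∀ v ∈ T, ∀ v' ∈ T, v ≠ v' → δ ≤ dist v v') ∧ T.card = N
  have hP : ∀ N, P N → N ≤ ⌈(5 / δ) ^ k⌉₊ := by
    rintro N ⟨T, h2, h3, rfl⟩
    exact_mod_cast (gh_card_le h0 h1 T (fun v hv => hS (h2 v hv)) h3).trans (Nat.le_ceil _)
  obtain ⟨T, h2, h3, h4⟩ : P (Nat.findGreatest P ⌈(5 / δ) ^ k⌉₊) :=
    Nat.findGreatest_spec (Nat.zero_le _) ⟨∅, by simp, by simp, rfl⟩
  refine ⟨T, h2, h3, fun u hu => ?_⟩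
  by_contra hn
  simp only [mem_iUnion, mem_ball, not_exists, not_lt] at hn
  have hu' : u ∉ T := fun h => by
    have := hn u h
    rw [dist_self] at this
    linarith
  have h5 : P (T.card + 1) := by
    refine ⟨insert u T, ?_, ?_, Finset.card_insert_of_notMem hu'⟩
    · intro v hv
      rcases Finset.mem_insert.1 hv with rfl | hv
      exacts [hu, h2 v hv]
    · intro v hv v' hv' hne
      rcases Finset.mem_insert.1 hv with e1 | e1 <;> rcases Finset.mem_insert.1 hv' with e2 | e2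
      · exact absurd (e1.trans e2.symm) hne
      · rw [e1]; exact hn v' e2
      · rw [e2, dist_comm]; exact hn v e1
      · exact h3 v e1 v' e2 hne
  have := Nat.le_findGreatest (hP _ h5) h5
  omega

theorem exists_cover_euc (k : ℕ) {δ : ℝ} (h0 : 0 < δ) (h1 : δ ≤ 1) :
    ∃ T : Finset (Euc k), (T.card : ℝ) ≤ (5 / δ) ^ k ∧
      closedBall (0 : Euc k) 1 ⊆ ⋃ v ∈ T, ball v δ := by
  obtain ⟨T, h2, h3, h4⟩ := gh_net h0 h1 (S := closedBall (0 : Euc k) 1) Subset.rfl
  exact ⟨T, gh_card_le h0 h1 T h2 h3, h4⟩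

theorem exists_sep_euc (k : ℕ) : ∃ c, 0 < c ∧ ∀ δ : ℝ, 0 < δ → δ ≤ 1 →
    ∃ T : Finset (Euc k), c / δ ^ k ≤ T.card ∧ (∀ v ∈ T, v ∈ ball (0 : Euc k) 1) ∧
      ∀ v ∈ T, ∀ v' ∈ T, v ≠ v' → δ ≤ dist v v' := by
  refine ⟨1, one_pos, fun δ h0 h1 => ?_⟩
  obtain ⟨T, h2, h3, h4⟩ := gh_net h0 h1 (S := ball (0 : Euc k) 1) ball_subset_closedBall
  refine ⟨T, ?_, h2, h3⟩
  have h5 := (measure_mono (μ := volume) h4).trans (measure_biUnion_finset_le _ _)
  rw [Finset.sum_congr rfl fun v _ => Measure.addHaar_ball_of_pos volume v h0,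
    Finset.sum_const, nsmul_eq_mul, ← mul_assoc] at h5
  conv_lhs at h5 => rw [← one_mul (volume _), ← ENNReal.ofReal_one]
  rw [ENNReal.mul_le_mul_iff_left (measure_ball_pos _ _ one_pos).ne' measure_ball_lt_top.ne,
    ← ENNReal.ofReal_natCast, ← ENNReal.ofReal_mul (by positivity),
    ENNReal.ofReal_le_ofReal_iff (by positivity)] at h5
  simp only [finrank_euclideanSpace, Fintype.card_fin] at h5
  rwa [div_le_iff₀ (by positivity)]

namespace IsQuot

variable {Γ : Y → Y} {π : Y → X} (h : IsQuot Γ π)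
include h

theorem dist_le (a b : Y) : dist (π a) (π b) ≤ dist a b := by
  rw [h.dist_eq]; exact min_le_left _ _

theorem lip : LipschitzWith 1 π := LipschitzWith.mk_one h.dist_le

theorem cont : Continuous π := h.lip.continuous

theorem π_Γ (a : Y) : π (Γ a) = π a := by
  refine dist_le_zero.1 ?_
  rw [h.dist_eq]
  exact (min_le_right _ _).trans (dist_self _).le

theorem eq_iff (a b : Y) : π a = π b ↔ a = b ∨ a = Γ b := by
  rw [← dist_le_zero, h.dist_eq, min_le_iff, dist_le_zero, dist_le_zero]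

theorem dist_Γ (a b : Y) : dist (Γ a) b = dist a (Γ b) := by
  rw [← h.iso.dist_eq, h.invol]

theorem preimage_ball (a : Y) (r : ℝ) : π ⁻¹' ball (π a) r = ball a r ∪ ball (Γ a) r := by
  ext b
  simp only [mem_preimage, mem_ball, mem_union, h.dist_eq, min_lt_iff]

theorem image_ball (a : Y) (r : ℝ) : π '' ball a r = ball (π a) r := by
  ext x
  constructor
  · rintro ⟨b, hb, rfl⟩
    exact lt_of_le_of_lt (h.dist_le _ _) hb
  · intro hx
    obtain ⟨b, rfl⟩ := h.surj x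
    rcases (h.preimage_ball a r).subset hx with hb | hb
    · exact ⟨b, hb, rfl⟩
    · exact ⟨Γ b, by rwa [mem_ball, h.dist_Γ], h.π_Γ b⟩

theorem preimage_ball_fix {a : Y} (ha : Γ a = a) (r : ℝ) : π ⁻¹' ball (π a) r = ball a r := by
  rw [h.preimage_ball, ha, union_self]

theorem dist_fix {a : Y} (ha : Γ a = a) (b : Y) : dist (π b) (π a) = dist b a := by
  rw [h.dist_eq, ha, min_self]

theorem isOpenMap : IsOpenMap π := by
  intro U hU
  rw [Metric.isOpen_iff] at hU ⊢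
  rintro _ ⟨a, ha, rfl⟩
  obtain ⟨r, hr, hs⟩ := hU a ha
  exact ⟨r, hr, h.image_ball a r ▸ image_mono hs⟩

theorem isClosedMap : IsClosedMap π := by
  intro C hC
  rw [← (h.isOpenMap.isQuotientMap h.cont h.surj).isClosed_preimage]
  have : π ⁻¹' (π '' C) = C ∪ Γ ⁻¹' C := by
    ext a
    constructor
    · rintro ⟨b, hb, hab⟩
      rcases (h.eq_iff _ _).1 hab with rfl | rfl
      exacts [Or.inl hb, Or.inr hb]
    · rintro (ha | ha)
      exacts [⟨a, ha, rfl⟩, ⟨Γ a, ha, h.π_Γ a⟩]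
  rw [this]
  exact hC.union (hC.preimage h.iso.continuous)

theorem bounded_preimage {S : Set X} (hS : Bornology.IsBounded S) :
    Bornology.IsBounded (π ⁻¹' S) := by
  rcases S.eq_empty_or_nonempty with rfl | ⟨x, -⟩
  · simp
  · obtain ⟨a, rfl⟩ := h.surj x
    obtain ⟨r, hr⟩ := hS.subset_ball (π a)
    refine (isBounded_ball.union isBounded_ball).subset
      ((preimage_mono hr).trans (h.preimage_ball a r).subset)

theorem compact_preimage {S : Set X} (hS : IsCompact S) : IsCompact (π ⁻¹' S) := by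
  refine (isProperMap_iff_isClosedMap_and_compact_fibers.2
    ⟨h.cont, h.isClosedMap, fun x => ?_⟩).isCompact_preimage hS
  obtain ⟨b, rfl⟩ := h.surj x
  refine ((Set.toFinite {b, Γ b}).subset fun a ha => ?_).isCompact
  exact (h.eq_iff a b).1 ha

theorem proper [ProperSpace X] : ProperSpace Y :=
  ⟨fun a r => (h.compact_preimage (isCompact_closedBall (π a) r)).of_isClosed_subset
    isClosed_closedBall fun b hb => (h.dist_le b a).trans hb⟩

theorem geodesic (hY : IsGeodesic Y) : IsGeodesic X := by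
  intro x y
  obtain ⟨a, rfl⟩ := h.surj x
  obtain ⟨b, rfl, hb⟩ : ∃ b, π b = y ∧ dist (π a) (π b) = dist a b := by
    obtain ⟨b, rfl⟩ := h.surj y
    rcases min_choice (dist a b) (dist a (Γ b)) with h1 | h1
    · exact ⟨b, rfl, by rw [h.dist_eq, h1]⟩
    · exact ⟨Γ b, h.π_Γ b, by rw [h.π_Γ, h.dist_eq, h1]⟩
  obtain ⟨γ, h0, h1, hγ⟩ := hY a b
  refine ⟨π ∘ γ, by simp [h0], by simp [h1], ?_⟩
  have key : ∀ s ∈ Icc (0 : ℝ) 1, ∀ t ∈ Icc (0 : ℝ) 1, s ≤ t →
      dist (π (γ s)) (π (γ t)) = |s - t| * dist (π a) (π b) := by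
    intro s hs t ht hst
    have e1 := (h.dist_le _ _).trans (hγ s hs t ht).le
    have e2 := (h.dist_le _ _).trans (hγ 0 (by simp) s hs).le
    have e3 := (h.dist_le _ _).trans (hγ t ht 1 (by simp)).le
    have e4 := dist_triangle4 (π a) (π (γ s)) (π (γ t)) (π b)
    rw [h0, zero_sub, abs_neg, abs_of_nonneg hs.1] at e2
    rw [h1, abs_of_nonpos (by linarith [ht.2])] at e3
    rw [abs_of_nonpos (by linarith)] at e1 ⊢
    rw [hb] at e4 ⊢
    linarith
  intro s hs t ht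
  rcases le_total s t with hst | hst
  · exact key s hs t ht hst
  · rw [dist_comm, abs_sub_comm]; exact key t ht s hs hst

/-- Near a point that is not fixed the projection is an isometry. -/
theorem dist_loc {a b c : Y} {r : ℝ} (hr : 4 * r ≤ dist a (Γ a)) (hb : b ∈ ball a r)
    (hc : c ∈ ball a r) : dist (π b) (π c) = dist b c := by
  rw [h.dist_eq]
  refine min_eq_left ?_
  rw [mem_ball] at hb hc
  have h1 := dist_triangle_right b c a
  have h2 := dist_triangle4 a b (Γ c) (Γ a)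
  rw [h.iso.dist_eq, dist_comm a b] at h2
  linarith

theorem isClosed_fix : IsClosed {a | Γ a = a} := isClosed_eq h.iso.continuous continuous_id

theorem isClosed_image_fix : IsClosed (π '' {a | Γ a = a}) := h.isClosedMap _ h.isClosed_fix

end IsQuot

theorem gh_geo_cont {γ : ℝ → X} {d : ℝ}
    (hγ : ∀ s ∈ Icc (0 : ℝ) 1, ∀ t ∈ Icc (0 : ℝ) 1, dist (γ s) (γ t) = |s - t| * d) :
    ContinuousOn γ (Icc 0 1) := by
  refine (LipschitzOnWith.of_dist_le_mul (K := d.toNNReal) fun s hs t ht => ?_).continuousOn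
  rw [hγ s hs t ht, Real.dist_eq, mul_comm]
  exact mul_le_mul_of_nonneg_right (Real.le_coe_toNNReal d) (abs_nonneg _)

theorem IsGeodesic.joinedIn (h : IsGeodesic X) {x a b : X} {r : ℝ} (ha : a ∈ ball x r)
    (hb : b ∈ ball x r) : JoinedIn (ball x r) a b := by
  have key : ∀ a ∈ ball x r, JoinedIn (ball x r) x a := by
    intro a ha
    obtain ⟨γ, h0, h1, hγ⟩ := h x a
    refine JoinedIn.ofLine (gh_geo_cont hγ) h0 h1 ?_
    rintro _ ⟨t, ht, rfl⟩
    have := hγ t ht 0 (by simp)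
    rw [h0, sub_zero, abs_of_nonneg ht.1, dist_comm x a] at this
    rw [mem_ball] at ha ⊢
    rw [this]
    exact lt_of_le_of_lt (mul_le_of_le_one_left dist_nonneg ht.2) ha
  exact (key a ha).symm.trans (key b hb)

theorem IsGeodesic.preconnected_ball (h : IsGeodesic X) (x : X) (r : ℝ) :
    IsPreconnected (ball x r) := by
  rcases (ball x r).eq_empty_or_nonempty with h0 | ⟨a, ha⟩
  · rw [h0]; exact isPreconnected_empty
  · exact (show IsPathConnected (ball x r) from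
      ⟨a, ha, fun b hb => h.joinedIn ha hb⟩).isConnected.isPreconnected

theorem gh_mem_Icc {N j : ℕ} (hN : 0 < N) (hj : j ≤ N) : (j : ℝ) / N ∈ Icc (0 : ℝ) 1 :=
  ⟨by positivity, (div_le_one (by exact_mod_cast hN)).2 (by exact_mod_cast hj)⟩

/-- A chain of points along a geodesic. -/
theorem IsGeodesic.exists_chain (h : IsGeodesic X) (a b : X) {N : ℕ} (hN : 0 < N) :
    ∃ c : ℕ → X, c 0 = a ∧ c N = b ∧ (∀ j < N, dist (c j) (c (j + 1)) = dist a b / N) ∧
      ∀ j ≤ N, dist (c j) a = j * (dist a b / N) := by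
  obtain ⟨γ, h0, h1, hγ⟩ := h a b
  have hN' : (0 : ℝ) < N := by exact_mod_cast hN
  refine ⟨fun j => γ (j / N), by simp [h0], by simp [div_self hN'.ne', h1], fun j hj => ?_,
    fun j hj => ?_⟩
  · rw [hγ _ (gh_mem_Icc hN hj.le) _ (gh_mem_Icc hN hj)]
    have : (j : ℝ) / N - ((j + 1 : ℕ) : ℝ) / N = -(1 / N) := by push_cast; ring
    rw [this, abs_neg, abs_of_pos (by positivity)]
    ring
  · have := hγ _ (gh_mem_Icc hN hj) 0 (by simp)
    rw [h0, sub_zero, abs_of_nonneg (by positivity)] at this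
    rw [this]
    ring

/-- Short paths in a length set. -/
theorem IsLengthSet.joinedIn {A : Set Y} (h : IsLengthSet A) {a b : Y} (ha : a ∈ A) (hb : b ∈ A)
    {r : ℝ} (hr : dist a b < r) : JoinedIn (A ∩ ball a r) a b := by
  obtain ⟨γ, hc, h0, h1, hA, hv⟩ := h a ha b hb ((r - dist a b) / 2) (by linarith)
  refine JoinedIn.ofLine hc h0 h1 ?_
  rintro _ ⟨t, ht, rfl⟩
  refine ⟨hA ht, ?_⟩
  have := (eVariationOn.edist_le γ ht (show (0 : ℝ) ∈ Icc (0 : ℝ) 1 by simp)).trans hv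
  rw [h0, edist_le_ofReal (by linarith [dist_nonneg (x := a) (y := b)])] at this
  rw [mem_ball]
  linarith

/-- Locally Lipschitz functions on a length set are Lipschitz. -/
theorem IsLengthSet.lip {A : Set Y} (h : IsLengthSet A) {f : Y → ℝ} {L : ℝ} (hL : 0 ≤ L)
    (hf : ∀ a ∈ A, ∃ r, 0 < r ∧ ∀ b ∈ ball a r, ∀ c ∈ ball a r, |f b - f c| ≤ L * dist b c) :
    ∀ a ∈ A, ∀ b ∈ A, |f a - f b| ≤ L * dist a b := by
  intro a ha b hb
  have key : ∀ ε, 0 < ε → |f a - f b| ≤ L * (dist a b + ε) := by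
    intro ε hε
    obtain ⟨γ, hc, h0, h1, hA, hv⟩ := h a ha b hb ε hε
    choose ρ hρ hρf using fun t : Icc (0 : ℝ) 1 => hf (γ t) (hA t.2)
    have hc' : Continuous fun t : Icc (0 : ℝ) 1 => γ t := hc.domRestrict
    obtain ⟨δ, hδ, hcov⟩ := lebesgue_number_lemma_of_metric (s := univ)
      (c := fun t : Icc (0 : ℝ) 1 => (fun s : Icc (0 : ℝ) 1 => γ s) ⁻¹' ball (γ t) (ρ t))
      isCompact_univ (fun t => isOpen_ball.preimage hc')
      (fun t _ => mem_iUnion.2 ⟨t, mem_ball_self (hρ t)⟩)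
    obtain ⟨M, hM⟩ := exists_nat_one_div_lt hδ
    have hN : 0 < M + 1 := Nat.succ_pos M
    have hstep : ∀ j ∈ Finset.range (M + 1),
        dist (f (γ ((j : ℝ) / (M + 1 : ℕ)))) (f (γ (((j + 1 : ℕ) : ℝ) / (M + 1 : ℕ)))) ≤
          L * dist (γ (((j + 1 : ℕ) : ℝ) / (M + 1 : ℕ))) (γ ((j : ℝ) / (M + 1 : ℕ))) := by
      intro j hj
      have hj := Finset.mem_range.1 hj
      obtain ⟨t, ht⟩ := hcov ⟨_, gh_mem_Icc hN hj.le⟩ (mem_univ _)
      rw [dist_comm, Real.dist_eq]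
      refine hρf t _ (ht (a := ⟨_, gh_mem_Icc hN hj⟩) ?_) _
        (ht (a := ⟨_, gh_mem_Icc hN hj.le⟩) (mem_ball_self hδ))
      rw [mem_ball, Subtype.dist_eq, Real.dist_eq]
      have : ((j + 1 : ℕ) : ℝ) / (M + 1 : ℕ) - (j : ℝ) / (M + 1 : ℕ) = 1 / ((M : ℝ) + 1) := by
        push_cast; ring
      rw [this, abs_of_pos (by positivity)]
      exact hM
    have h2 := (dist_le_range_sum_dist (fun j : ℕ => f (γ ((j : ℝ) / (M + 1 : ℕ)))) (M + 1)).trans
      (Finset.sum_le_sum hstep)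
    have h3 := (eVariationOn.sum_le_of_monotoneOn_Iic (f := γ) (s := Icc 0 1) (n := M + 1)
      (u := fun j : ℕ => (j : ℝ) / (M + 1 : ℕ))
      (fun i _ j _ hij => div_le_div_of_nonneg_right (by exact_mod_cast hij) (by positivity))
      (fun j hj => gh_mem_Icc hN hj)).trans hv
    simp only [edist_dist] at h3
    rw [← ENNReal.ofReal_sum_of_nonneg fun _ _ => dist_nonneg,
      ENNReal.ofReal_le_ofReal_iff (by positivity)] at h3
    rw [← Finset.mul_sum, Nat.cast_zero, zero_div, div_self (by positivity), h0, h1,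
      Real.dist_eq] at h2
    exact h2.trans (mul_le_mul_of_nonneg_left h3 hL)
  refine le_of_forall_pos_le_add fun ε hε => ?_
  refine (key (ε / (L + 1)) (by positivity)).trans ?_
  have : L * (ε / (L + 1)) ≤ ε := by
    rw [← mul_div_assoc, div_le_iff₀ (by positivity)]
    nlinarith
  linarith

end RC
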