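import Pool.Agent.P.MP_6472e5_gt.HpA
import Pool.Agent.P.MP_6472e5_gt.GH

/-! Blow-ups: limits of points, inheritance of the classes. -/

set_option autoImplicit false
set_option linter.unusedSectionVars false

noncomputable section

namespace RC

open MeasureTheory Set Filter Topology Metric

variable {X : Type} [MetricSpace X] [ProperSpace X] [MeasurableSpace X] [BorelSpace X]
  {μ : Measure X} {D : DS μ} {κ : ℝ} {n : ℕ}

namespace Blow

variable {U : Ultrafilter ℕ} {y : ℕ → X} {r : ℕ → ℝ} (B : Blow D n U y r)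

/-- The points `a i` converge to `z`. -/
def Lf (a : ℕ → X) (z : B.Z) : Prop :=
  (∃ R, ∀ᶠ i in (U : Filter ℕ), a i ∈ ball (y i) (R * r i)) ∧
    Tendsto (fun i => B.q i (a i)) U (𝓝 z)

/-- The functions `g i` converge locally uniformly to `f`. -/
def Cv (g : ℕ → X → ℝ) (f : B.Z → ℝ) : Prop :=
  ∀ R ε, 0 < ε → ∀ᶠ i in (U : Filter ℕ), ∀ a ∈ ball (y i) (R * r i), |g i a - f (B.q i a)| ≤ ε

include B in
theorem small {δ : ℝ} (hδ : 0 < δ) : ∀ᶠ i in (U : Filter ℕ), r i ≤ δ :=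
  B.seq.lim.eventually (Iic_mem_nhds hδ)

theorem bla_app (R : ℝ) {ε : ℝ} (hε : 0 < ε) : ∀ᶠ i in (U : Filter ℕ),
    ∀ a ∈ ball (y i) (R * r i), ∀ b ∈ ball (y i) (R * r i),
      |dist (B.q i a) (B.q i b) - dist a b / r i| ≤ ε := by
  filter_upwards [B.app (|R| + 1) ε (by positivity) hε] with i h a ha b hb
  have hs : ball (y i) (R * r i) ⊆ ball (y i) ((|R| + 1) * r i) :=
    ball_subset_ball (mul_le_mul_of_nonneg_right (by linarith [le_abs_self R]) (B.seq.pos i).le)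
  exact h.2.1 a (hs ha) b (hs hb)

theorem lf_base : B.Lf y B.e :=
  ⟨⟨1, Eventually.of_forall fun i => mem_ball_self (by simpa using B.seq.pos i)⟩,
    tendsto_const_nhds.congr' ((B.app 1 1 one_pos one_pos).mono fun _ h => h.1.symm)⟩

theorem exists_lf (z : B.Z) : ∃ a, B.Lf a z := by
  have hR : 0 < dist z B.e + 2 := by positivity
  have h1 : ∀ i, ∃ a ∈ ball (y i) ((dist z B.e + 2) * r i), dist z (B.q i a) <
      infDist z (B.q i '' ball (y i) ((dist z B.e + 2) * r i)) + r i := fun i => by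
    obtain ⟨_, ⟨a, ha, rfl⟩, h⟩ := (infDist_lt_iff (x := z) (Set.Nonempty.image (B.q i)
      ⟨y i, mem_ball_self (mul_pos hR (B.seq.pos i))⟩)).1 (lt_add_of_pos_right _ (B.seq.pos i))
    exact ⟨a, ha, h⟩
  choose a h1 h2 using h1
  refine ⟨a, ⟨_, Eventually.of_forall h1⟩, Metric.tendsto_nhds.2 fun ε hε => ?_⟩
  have h3 : 0 < min (ε / 2) 1 := lt_min (half_pos hε) one_pos
  filter_upwards [B.app _ _ hR h3, B.small (half_pos hε)] with i h4 h5
  obtain ⟨b, hb, h6⟩ := h4.2.2 z (by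
    rw [mem_ball]
    linarith [min_le_right (ε / 2) 1])
  have h7 := infDist_le_dist_of_mem (x := z) (mem_image_of_mem (B.q i) hb)
  rw [dist_comm] at h6 ⊢
  linarith [h2 i, min_le_left (ε / 2) 1]

theorem exists_lim {a : ℕ → X} {R : ℝ}
    (h : ∀ᶠ i in (U : Filter ℕ), a i ∈ ball (y i) (R * r i)) :
    ∃ z ∈ closedBall B.e R, B.Lf a z := by
  have h1 : ∀ ε, 0 < ε → ∀ᶠ i in (U : Filter ℕ), dist (B.q i (a i)) B.e ≤ R + ε := fun ε hε => by
    filter_upwards [h, B.bla_app R hε, B.app 1 1 one_pos one_pos] with i h1 h2 h3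
    have h4 := h2 _ h1 _ (mem_ball_self (pos_of_mem_ball h1))
    have h5 := (div_lt_iff₀ (B.seq.pos i)).2 (mem_ball.1 h1)
    rw [h3.1] at h4
    linarith [(abs_le.1 h4).2]
  obtain ⟨z, -, hz⟩ := (isCompact_closedBall B.e (R + 1)).ultrafilter_le_nhds
    (U.map fun i => B.q i (a i)) (le_principal_iff.2 (h1 1 one_pos))
  have hz' : Tendsto (fun i => B.q i (a i)) U (𝓝 z) := hz
  exact ⟨z, le_of_forall_pos_le_add fun ε hε =>
    le_of_tendsto (hz'.dist tendsto_const_nhds) (h1 ε hε), ⟨R, h⟩, hz'⟩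

/-- A property that holds along all convergent sequences holds uniformly on balls. -/
theorem bla_unif {p : ℕ → X → Prop} (h : ∀ a z, B.Lf a z → ∀ᶠ i in (U : Filter ℕ), p i (a i))
    (R : ℝ) : ∀ᶠ i in (U : Filter ℕ), ∀ a ∈ ball (y i) (R * r i), p i a := by
  by_contra hn
  have h1 : ∀ᶠ i in (U : Filter ℕ), ∃ a, a ∈ ball (y i) (R * r i) ∧ ¬p i a :=
    (Ultrafilter.eventually_not.2 hn).mono fun i hi => by simpa only [not_forall, exists_prop]
      using hi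
  obtain ⟨a, ha⟩ := h1.choice
  obtain ⟨z, -, hz⟩ := B.exists_lim (ha.mono fun _ hi => hi.1)
  obtain ⟨i, h2, h3⟩ := (ha.and (h a z hz)).exists
  exact h2.2 h3

theorem bla_loc : ∃ x R, ∀ a z, B.Lf a z → ∀ᶠ i in (U : Filter ℕ), a i ∈ ball x R := by
  obtain ⟨x, R, h⟩ := B.seq.bdd
  refine ⟨x, R + 1, ?_⟩
  rintro a z ⟨⟨S, hS⟩, -⟩
  have h1 : Tendsto (fun i => S * r i) U (𝓝 0) := by simpa using B.seq.lim.const_mul S
  filter_upwards [hS, h1.eventually (Iic_mem_nhds one_pos)] with i h2 h3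
  have h4 := dist_triangle (a i) (y i) x
  rw [mem_ball] at h2 ⊢
  linarith [mem_ball.1 (h i)]

variable {B}

theorem Lf.dist {a b : ℕ → X} {z w : B.Z} (ha : B.Lf a z) (hb : B.Lf b w) :
    Tendsto (fun i => dist (a i) (b i) / r i) U (𝓝 (dist z w)) := by
  obtain ⟨⟨R, hR⟩, h1⟩ := ha
  obtain ⟨⟨S, hS⟩, h2⟩ := hb
  have h3 : Tendsto (fun i => Dist.dist (B.q i (a i)) (B.q i (b i)) - Dist.dist (a i) (b i) / r i)
      U (𝓝 0) := by
    refine Metric.tendsto_nhds.2 fun ε hε => ?_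
    filter_upwards [hR, hS, B.bla_app (max R S) (half_pos hε)] with i h3 h4 h5
    have h6 := h5 _ (ball_subset_ball (mul_le_mul_of_nonneg_right (le_max_left R S)
      (B.seq.pos i).le) h3) _ (ball_subset_ball (mul_le_mul_of_nonneg_right (le_max_right R S)
      (B.seq.pos i).le) h4)
    rw [Real.dist_eq, sub_zero]
    linarith
  simpa using (h1.dist h2).sub h3

theorem Lf.mem {a : ℕ → X} {z : B.Z} (ha : B.Lf a z) {R : ℝ} (h : z ∈ ball B.e R) :
    ∀ᶠ i in (U : Filter ℕ), a i ∈ ball (y i) (R * r i) :=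
  ((ha.dist B.lf_base).eventually (Iio_mem_nhds (mem_ball.1 h))).mono fun i hi =>
    (div_lt_iff₀ (B.seq.pos i)).1 hi

theorem Lf.seq {a : ℕ → X} {z : B.Z} (ha : B.Lf a z) :
    ∃ a' : ℕ → X, (∀ᶠ i in (U : Filter ℕ), a' i = a i) ∧ B.Lf a' z ∧ Seq U a' r := by
  classical
  obtain ⟨x, R, h⟩ := B.bla_loc
  obtain ⟨x', R', h'⟩ := B.seq.bdd
  have h1 : ∀ᶠ i in (U : Filter ℕ), (if a i ∈ ball x R then a i else x) = a i :=
    (h a z ha).mono fun i hi => if_pos hi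
  obtain ⟨i₀, h0⟩ := (h a z ha).exists
  obtain ⟨⟨S, hS⟩, h2⟩ := ha
  refine ⟨fun i => if a i ∈ ball x R then a i else x, h1, ⟨⟨S, ?_⟩, h2.congr' ?_⟩,
    ⟨x, R, fun i => ?_⟩, B.seq.pos, B.seq.lim⟩
  · filter_upwards [h1, hS] with i h3 h4
    rwa [h3]
  · filter_upwards [h1] with i h3
    rw [h3]
  · split_ifs with h3
    exacts [h3, mem_ball_self (pos_of_mem_ball h0)]

theorem Cv.lf {g : ℕ → X → ℝ} {f : B.Z → ℝ} (h : B.Cv g f) (hf : Continuous f) {a : ℕ → X}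
    {z : B.Z} (ha : B.Lf a z) : Tendsto (fun i => g i (a i)) U (𝓝 (f z)) := by
  obtain ⟨⟨R, hR⟩, h1⟩ := ha
  have h2 : Tendsto (fun i => g i (a i) - f (B.q i (a i))) U (𝓝 0) := by
    refine Metric.tendsto_nhds.2 fun ε hε => ?_
    filter_upwards [hR, h R _ (half_pos hε)] with i h3 h4
    rw [Real.dist_eq, sub_zero]
    linarith [h4 _ h3]
  simpa using h2.add ((hf.tendsto z).comp h1)

theorem cv_of_lf {g : ℕ → X → ℝ} {f : B.Z → ℝ} (hf : Continuous f)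
    (h : ∀ a z, B.Lf a z → Tendsto (fun i => g i (a i)) U (𝓝 (f z))) : B.Cv g f := by
  intro R ε hε
  refine B.bla_unif (p := fun i a => |g i a - f (B.q i a)| ≤ ε) (fun a z ha => ?_) R
  have h1 := ((h a z ha).sub ((hf.tendsto z).comp ha.2)).abs
  rw [sub_self, abs_zero] at h1
  exact h1.eventually (Iic_mem_nhds hε)

/-- Equi-Lipschitz functions have a limit. -/
theorem exists_cv {g : ℕ → X → ℝ} {L : NNReal} {M : ℝ}
    (hL : ∀ R, ∀ᶠ i in (U : Filter ℕ), ∀ a ∈ ball (y i) (R * r i), ∀ b ∈ ball (y i) (R * r i),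
      |g i a - g i b| ≤ L * (dist a b / r i)) (hM : ∀ᶠ i in (U : Filter ℕ), |g i (y i)| ≤ M) :
    ∃ f, LipschitzWith L f ∧ B.Cv g f := by
  have h1 : ∀ {a b z w}, B.Lf a z → B.Lf b w → ∀ᶠ i in (U : Filter ℕ),
      |g i (a i) - g i (b i)| ≤ L * (dist (a i) (b i) / r i) := by
    rintro a b z w ⟨⟨R, hR⟩, -⟩ ⟨⟨S, hS⟩, -⟩
    filter_upwards [hR, hS, hL (max R S)] with i h3 h4 h5
    exact h5 _ (ball_subset_ball (mul_le_mul_of_nonneg_right (le_max_left R S)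
      (B.seq.pos i).le) h3) _ (ball_subset_ball (mul_le_mul_of_nonneg_right (le_max_right R S)
      (B.seq.pos i).le) h4)
  have h2 : ∀ {a z}, B.Lf a z → ∃ c, Tendsto (fun i => g i (a i)) U (𝓝 c) := by
    intro a z ha
    have h8 : ∀ᶠ i in (U : Filter ℕ), g i (a i) ∈ closedBall 0 (L * (dist z B.e + 1) + M) := by
      filter_upwards [h1 ha B.lf_base, hM, (ha.dist B.lf_base).eventually
        (Iic_mem_nhds (lt_add_one _))] with i h3 h4 h5
      have h6 := mul_le_mul_of_nonneg_left h5 L.2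
      have h7 := abs_add_le (g i (a i) - g i (y i)) (g i (y i))
      rw [sub_add_cancel] at h7
      rw [mem_closedBall, Real.dist_eq, sub_zero]
      exact h7.trans (add_le_add (h3.trans h6) h4)
    obtain ⟨c, -, hc⟩ := (isCompact_closedBall _ _).ultrafilter_le_nhds
      (U.map fun i => g i (a i)) (le_principal_iff.2 h8)
    exact ⟨c, hc⟩
  have h3 : ∀ {a b z w c d}, B.Lf a z → B.Lf b w → Tendsto (fun i => g i (a i)) U (𝓝 c) →
      Tendsto (fun i => g i (b i)) U (𝓝 d) → |c - d| ≤ L * dist z w := fun ha hb hc hd =>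
    le_of_tendsto_of_tendsto (hc.sub hd).abs ((ha.dist hb).const_mul _) (h1 ha hb)
  choose A hA using B.exists_lf
  choose f hf using fun z => h2 (hA z)
  have h4 : LipschitzWith L f := LipschitzWith.of_dist_le_mul fun z w =>
    h3 (hA z) (hA w) (hf z) (hf w)
  refine ⟨f, h4, cv_of_lf h4.continuous fun a z ha => ?_⟩
  obtain ⟨c, hc⟩ := h2 ha
  have h5 := h3 ha (hA z) hc (hf z)
  rw [dist_self, mul_zero, abs_nonpos_iff, sub_eq_zero] at h5
  rwa [← h5]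

variable (B)

theorem cv_Θ {s : ℝ} (hs : 0 < s) :
    B.Cv (fun i a => D.Θ n a (s * r i)) (fun z => B.E.Θ n z s) := by
  intro R ε hε
  have h0 : 0 < s ^ n := pow_pos hs n
  filter_upwards [B.ker (s ^ 2) R (ε / s ^ n) (pow_pos hs 2) (div_pos hε h0)] with i h a ha
  have h1 := (le_div_iff₀' h0).1 (h a ha a ha)
  rw [← abs_of_pos h0, ← abs_mul] at h1
  refine le_of_eq_of_le (congrArg _ ?_) h1
  simp only [DS.Θ, mul_pow, mul_comm (s ^ 2)]
  ring

theorem bla_Θ {a : ℕ → X} {z : B.Z} (ha : B.Lf a z) {s : ℝ} (hs : 0 < s) :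
    Tendsto (fun i => D.Θ n (a i) (s * r i)) U (𝓝 (B.E.Θ n z s)) :=
  (B.cv_Θ hs).lf (continuous_const.mul
    ((B.model.toHP.p_cont (pow_pos hs 2)).comp (continuous_id.prodMk continuous_id))) ha

theorem Θ0_ge (h : HP D κ n) {a : ℕ → X} {z : B.Z} (ha : B.Lf a z) {c : ℝ}
    (hc : ∀ᶠ i in (U : Filter ℕ), c ≤ D.Θ0 n (a i)) : c ≤ B.E.Θ0 n z := by
  refine ge_of_tendsto (B.model.toHP.Θ_lim z) (eventually_nhdsWithin_of_forall fun s hs => ?_)
  have h1 : Tendsto (fun i => Real.exp (n * κ * (s * r i) ^ 2)) U (𝓝 1) := by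
    simpa using (((B.seq.lim.const_mul s).pow 2).const_mul (n * κ)).rexp
  have h2 := h1.mul (B.bla_Θ ha hs)
  rw [one_mul] at h2
  exact ge_of_tendsto h2 (hc.mono fun i hi =>
    hi.trans (h.Θ0_le _ _ (mul_pos hs (B.seq.pos i))))

/-- Blow-ups at a fixed point are cones. -/
theorem ctr_const (h : HP D κ n) {x : X} (hy : ∀ i, y i = x) :
    B.E.Ctr n B.e ∧ B.E.Θ n B.e 1 = D.Θ0 n x := by
  have h1 : ∀ s, 0 < s → B.E.Θ n B.e s = D.Θ0 n x := fun s hs => by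
    have h2 : Tendsto (fun i => s * r i) U (𝓝[>] 0) :=
      tendsto_nhdsWithin_iff.2 ⟨by simpa using B.seq.lim.const_mul s,
        Eventually.of_forall fun i => mul_pos hs (B.seq.pos i)⟩
    have h3 := B.bla_Θ B.lf_base hs
    simp only [hy] at h3
    exact tendsto_nhds_unique h3 ((h.Θ_lim x).comp h2)
  exact ⟨fun s t hs ht => (h1 s hs).trans (h1 t ht).symm, h1 1 one_pos⟩

/-- Limits of pinched points are centres. -/
theorem ctr_of_pinch {a : ℕ → X} {z : B.Z} (ha : B.Lf a z)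
    (hp : ∀ η, 0 < η → ∀ᶠ i in (U : Filter ℕ),
      D.Θ n (a i) (η⁻¹ * r i) - D.Θ n (a i) (η * r i) ≤ η) : B.E.Ctr n z := by
  have h1 : ∀ s t, 0 < s → 0 < t → B.E.Θ n z s ≤ B.E.Θ n z t := fun s t hs ht => by
    refine le_of_forall_pos_le_add fun ε hε => ?_
    have h0 : 0 < min ε (min t s⁻¹) := lt_min hε (lt_min ht (inv_pos.2 hs))
    have h2 := le_of_tendsto ((B.bla_Θ ha (inv_pos.2 h0)).sub (B.bla_Θ ha h0)) (hp _ h0)
    have h3 := B.model.toPreModel.mono z h0 ((min_le_right _ _).trans (min_le_left t s⁻¹))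
    have h4 := B.model.toPreModel.mono z hs
      ((le_inv_comm₀ h0 hs).1 ((min_le_right _ _).trans (min_le_right t s⁻¹)))
    linarith [min_le_left ε (min t s⁻¹)]
  exact fun s t hs ht => (h1 s t hs ht).antisymm (h1 t s ht hs)

theorem n1 (h : HP D κ n) (h1 : N1 D n) : N1 B.E n := by
  refine ⟨fun z => ?_, fun _ _ ε hε => ?_⟩
  · obtain ⟨a, ha⟩ := B.exists_lf z
    exact B.Θ0_ge h ha (Eventually.of_forall fun i => h1.low _)
  obtain ⟨x₀, R, hx⟩ := B.bla_loc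
  obtain ⟨δ, hδ, hv⟩ := h1.vc x₀ R ε hε
  refine ⟨δ / 2, half_pos hδ, fun x _ ρ hρ _ hp => ?_⟩
  obtain ⟨a, ha⟩ := B.exists_lf x
  obtain ⟨S, hS⟩ := ha.1
  have h2 : ρ / δ < ρ / (δ / 2) := div_lt_div_of_pos_left hρ (half_pos hδ) (half_lt_self hδ)
  have h3 := B.bla_unif (p := fun i b => dist b (a i) / r i ≤ ρ / δ →
      D.Θ n b (ρ / δ * r i) - D.Θ n b (δ * ρ * r i) ≤ δ) (fun b w hb => by
    rcases U.em fun i => dist (b i) (a i) / r i ≤ ρ / δ with h4 | h4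
    · have h5 := hp w ((le_of_tendsto (hb.dist ha) h4).trans_lt h2)
      have h6 := B.model.toPreModel.mono w (div_pos hρ hδ) h2.le
      have h7 := B.model.toPreModel.mono w (mul_pos (half_pos hδ) hρ)
        (mul_le_mul_of_nonneg_right (half_le_self hδ.le) hρ.le)
      exact (((B.bla_Θ hb (div_pos hρ hδ)).sub (B.bla_Θ hb (mul_pos hδ hρ))).eventually
        (Iic_mem_nhds (by linarith))).mono fun i hi _ => hi
    · exact h4.mono fun i hi h5 => (hi h5).elim) (S + ρ / δ)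
  refine le_of_tendsto (B.bla_Θ ha hρ) ?_
  filter_upwards [hx a x ha, hS, h3, B.small (div_pos (pow_pos hδ 2) hρ)] with i h4 h5 h6 h7
  have hr := B.seq.pos i
  refine hv _ h4 _ (mul_pos hρ hr) ((le_div_iff₀' hρ).1 h7) fun b hb => ?_
  rw [mul_div_right_comm] at hb ⊢
  rw [← mul_assoc]
  refine h6 b ?_ ((div_le_iff₀ hr).2 (mem_ball.1 hb).le)
  have h8 := dist_triangle b (a i) (y i)
  rw [mem_ball] at hb h5 ⊢
  linarith

theorem bla_chart {W : Type} [MetricSpace W] {a : ℕ → X} {z : B.Z} (ha : B.Lf a z) {s R ε : ℝ}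
    {w : W} {ψ : B.Z → W} (hs : 0 < s) (h0 : 0 ≤ ε) (hψ : GHApprox z s w R ε ψ) {η : ℝ}
    (hη : 0 < η) : ∀ᶠ i in (U : Filter ℕ), ∃ φ, GHApprox (a i) (s * r i) w (R - η) (2 * ε + η) φ ∧
      ∀ b, b ≠ a i → φ b = ψ (B.q i b) := by
  classical
  have h1 : 0 < η * s / 3 := by positivity
  have h2 : 0 < |R| * s + 2 * (η * s / 3) := by positivity
  have h3 : R * s ≤ |R| * s := mul_le_mul_of_nonneg_right (le_abs_self R) hs.le
  filter_upwards [B.app (dist z B.e + (|R| * s + 2 * (η * s / 3))) _ (by positivity) h1,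
    ha.mem (R := dist z B.e + (|R| * s + 2 * (η * s / 3))) (lt_add_of_pos_right _ h2),
    Metric.tendsto_nhds.1 ha.2 _ h1] with i h4 h5 h6
  exact ⟨_, h4.comp (B.seq.pos i) hs h1.le h0 hψ h5 h6.le (by linarith) (by linarith),
    fun b hb => Function.update_of_ne hb _ _⟩

theorem nh {k : ℕ} (h : NH X k) : NH B.Z k := by
  intro _ _
  obtain ⟨x₀, R, hx⟩ := B.bla_loc
  obtain ⟨δ, hδ, hv⟩ := h x₀ R
  have h0 : 0 < δ / 6 := by positivity
  refine ⟨δ / 6, h0, ?_⟩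
  rintro x - ρ hρ - ⟨ψ, hψ⟩
  obtain ⟨a, ha⟩ := B.exists_lf x
  have hη : 0 < min (δ / 6) δ⁻¹ := lt_min h0 (inv_pos.2 hδ)
  obtain ⟨i, ⟨φ, h1, -⟩, h2, h3⟩ := ((B.bla_chart ha hρ h0.le hψ hη).and
    ((hx a x ha).and (B.small (div_pos hδ hρ)))).exists
  have hr := mul_pos hρ (B.seq.pos i)
  have h4 : (δ / 6)⁻¹ = 6 * δ⁻¹ := by rw [inv_div, div_eq_mul_inv]
  refine hv _ h2 _ hr ((le_div_iff₀' hρ).1 h3) ⟨φ, h1.mono hr ?_ ?_ (by positivity)⟩
  · linarith [min_le_right (δ / 6) δ⁻¹, inv_pos.2 hδ]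
  · linarith [min_le_left (δ / 6) δ⁻¹]

theorem n2 {m : ℕ} {U : Ultrafilter ℕ} {y : ℕ → X} {r : ℕ → ℝ} (B : Blow D (m + 2) U y r)
    (h : HP D κ (m + 2)) (h2 : N2 D m) : N2 B.E m :=
  ⟨B.n1 h h2.toN1, B.nh h2.nh⟩

/-- Charts of the limit give charts of the space. -/
theorem chart {W : Type} [MetricSpace W] {a : ℕ → X} {z : B.Z} (ha : B.Lf a z) {s R ε : ℝ}
    {w : W} {ψ : B.Z → W} (hs : 0 < s) (h0 : 0 ≤ ε) (hψ : GHApprox z s w R ε ψ) {η : ℝ}
    (hη : 0 < η) : ∀ᶠ i in (U : Filter ℕ), ∃ φ, GHApprox (a i) (s * r i) w (R - η) (2 * ε + η) φ ∧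
      ∀ b, b ≠ a i → φ b = ψ (B.q i b) :=
  B.bla_chart ha hs h0 hψ hη

/-- Charts of the space give charts of the limit. -/
theorem chart_lim {W : Type} [MetricSpace W] [ProperSpace W] {a : ℕ → X} {z : B.Z} (ha : B.Lf a z)
    {s R ε : ℝ} {w : W} (hs : 0 < s) (h0 : 0 ≤ ε)
    (h : ∀ᶠ i in (U : Filter ℕ), ∃ φ, GHApprox (a i) (s * r i) w R ε φ) {η : ℝ} (hη : 0 < η) :
    ∃ ψ, GHApprox z s w (R - η) (2 * ε + η) ψ := by
  obtain ⟨φ, hφ⟩ := h.choice
  have h1 : ∀ {b u}, B.Lf b u → u ∈ ball z (R * s) →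
      ∀ᶠ i in (U : Filter ℕ), b i ∈ ball (a i) (R * (s * r i)) := fun hb hu =>
    ((hb.dist ha).eventually (Iio_mem_nhds (mem_ball.1 hu))).mono fun i hi => by
      rw [← mul_assoc]
      exact (div_lt_iff₀ (B.seq.pos i)).1 hi
  have h2 : ∀ {b c u v}, B.Lf b u → B.Lf c v →
      Tendsto (fun i => dist (b i) (c i) / (s * r i)) U (𝓝 (dist u v / s)) := fun hb hc => by
    simpa only [div_div, mul_comm s] using (hb.dist hc).div_const s
  have h3 : ∀ u, ∃ (b : ℕ → X) (v : W), B.Lf b u ∧ (u = z → v = w) ∧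
      (u ∈ ball z (R * s) → Tendsto (fun i => φ i (b i)) U (𝓝 v)) := fun u => by
    by_cases hu : u = z
    · exact ⟨a, w, hu ▸ ha, fun _ => rfl, fun _ =>
        tendsto_const_nhds.congr' (hφ.mono fun _ hi => hi.1.symm)⟩
    obtain ⟨b, hb⟩ := B.exists_lf u
    by_cases hu' : u ∈ ball z (R * s)
    · have h6 : ∀ᶠ i in (U : Filter ℕ), φ i (b i) ∈ closedBall w (R + ε) := by
        filter_upwards [hφ, h1 hb hu'] with i h3 h4
        have h5 := (div_lt_iff₀ (mul_pos hs (B.seq.pos i))).2 (mem_ball.1 h4)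
        rw [mem_closedBall]
        linarith [(abs_le.1 (h3.dist_base h4)).2]
      obtain ⟨v, -, hv⟩ := (isCompact_closedBall _ _).ultrafilter_le_nhds
        (U.map fun i => φ i (b i)) (le_principal_iff.2 h6)
      exact ⟨b, v, hb, fun h => (hu h).elim, fun _ => hv⟩
    · exact ⟨b, w, hb, fun _ => rfl, fun h => (hu' h).elim⟩
  choose A ψ hA h3 h4 using h3
  have h5 : ball z ((R - η) * s) ⊆ ball z (R * s) :=
    ball_subset_ball (mul_le_mul_of_nonneg_right (by linarith) hs.le)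
  refine ⟨ψ, h3 z rfl, fun u hu v hv => ?_, fun v hv => ?_⟩
  · refine (le_of_tendsto (((h4 u (h5 hu)).dist (h4 v (h5 hv))).sub (h2 (hA u) (hA v))).abs
      ?_).trans (by linarith : ε ≤ 2 * ε + η)
    filter_upwards [hφ, h1 (hA u) (h5 hu), h1 (hA v) (h5 hv)] with i h6 h7 h8
    exact h6.2.1 _ h7 _ h8
  · rw [mem_ball] at hv
    obtain ⟨c, hc⟩ := (hφ.mono fun i hi => hi.exists_near (mul_pos hs (B.seq.pos i))
      (w := v) (by rw [mem_ball]; linarith)).choice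
    obtain ⟨S, hS⟩ := ha.1
    obtain ⟨u, -, hu⟩ := B.exists_lim (a := c) (R := S + R * s) (by
      filter_upwards [hc, hS] with i h6 h7
      have h8 := dist_triangle (c i) (a i) (y i)
      have h9 := mem_ball.1 h6.1
      rw [mem_ball] at h7 ⊢
      linarith)
    have h6 : u ∈ ball z ((R - η) * s) := by
      have h7 := le_of_tendsto (h2 hu ha) (hc.mono fun i hi =>
        (div_le_iff₀ (mul_pos hs (B.seq.pos i))).2 hi.2.2)
      exact (div_lt_iff₀ hs).1 (by linarith)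
    refine ⟨u, h6, ?_⟩
    have h7 := ((h4 u (h5 h6)).dist (tendsto_const_nhds (x := v))).sub (h2 (hA u) hu)
    rw [dist_self, zero_div, sub_zero] at h7
    refine (le_of_tendsto h7 ?_).trans (by linarith : 2 * ε ≤ 2 * ε + η)
    filter_upwards [hφ, hc, h1 (hA u) (h5 h6)] with i h8 h9 h10
    linarith [(abs_le.1 (h8.2.1 _ h10 _ h9.1)).2, h9.2.1,
      dist_triangle (φ i (A u i)) (φ i (c i)) v]

/-- Sets whose limit points lie in `F` are eventually close to `F`. -/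
theorem near {S : ℕ → Set X} {F : Set B.Z}
    (h : ∀ a z, B.Lf a z → (∀ᶠ i in (U : Filter ℕ), a i ∈ S i) → z ∈ F) (R : ℝ) {ε : ℝ}
    (hε : 0 < ε) : ∀ᶠ i in (U : Filter ℕ), ∀ a ∈ S i ∩ ball (y i) (R * r i),
      ∃ z ∈ F, dist (B.q i a) z < ε := by
  refine (B.bla_unif (p := fun i a => a ∈ S i → ∃ z ∈ F, dist (B.q i a) z < ε)
    (fun a z ha => ?_) R).mono fun i hi a ha => hi a ha.2 ha.1
  rcases U.em fun i => a i ∈ S i with h1 | h1
  · exact (Metric.tendsto_nhds.1 ha.2 ε hε).mono fun i hi _ => ⟨z, h a z ha h1, hi⟩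
  · exact h1.mono fun i hi h2 => (hi h2).elim

/-- Packing of sets that converge into the axis. -/
theorem pack {k : ℕ} (A : Ax B.E n B.e k) {S : ℕ → Set X}
    (h : ∀ a z, B.Lf a z → (∀ᶠ i in (U : Filter ℕ), a i ∈ S i) → B.E.Ctr n z) {δ : ℝ}
    (h0 : 0 < δ) (h1 : δ ≤ 1) : ∀ᶠ i in (U : Filter ℕ), ∃ T : Finset X,
      (T.card : ℝ) ≤ (30 / δ) ^ k ∧ (∀ t ∈ T, t ∈ S i ∩ ball (y i) (r i)) ∧
      S i ∩ ball (y i) (r i) ⊆ ⋃ t ∈ T, ball t (δ * r i) := by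
  classical
  have h2 : 0 < δ / 6 := by positivity
  obtain ⟨T, h3, h4⟩ := exists_cover_euc k h2 (by linarith)
  have h5 := B.near (S := fun i => S i ∩ ball (y i) (r i)) (F := A.ι '' closedBall 0 1)
    (fun a z ha hS => by
      obtain ⟨v, rfl⟩ := (A.ctr z).1 (h a z ha (hS.mono fun _ hi => hi.1))
      refine ⟨v, ?_, rfl⟩
      rw [mem_closedBall, ← A.iso.dist_eq, A.zero]
      exact le_of_tendsto (ha.dist B.lf_base) (hS.mono fun i hi =>
        ((div_lt_one (B.seq.pos i)).2 hi.2).le)) 1 h2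
  filter_upwards [h5, B.bla_app 1 h2] with i h6 h7
  rw [one_mul] at h6 h7
  have h8 : ∀ v : Euc k, ∃ t : X, (∃ a ∈ S i ∩ ball (y i) (r i), dist (B.q i a) (A.ι v) < δ / 3) →
      t ∈ S i ∩ ball (y i) (r i) ∧ dist (B.q i t) (A.ι v) < δ / 3 := fun v => by
    by_cases hv : ∃ a ∈ S i ∩ ball (y i) (r i), dist (B.q i a) (A.ι v) < δ / 3
    · obtain ⟨a, ha⟩ := hv
      exact ⟨a, fun _ => ha⟩
    · exact ⟨y i, fun h => (hv h).elim⟩
  choose t ht using h8
  refine ⟨(T.filter fun v => ∃ a ∈ S i ∩ ball (y i) (r i), dist (B.q i a) (A.ι v) < δ / 3).image t,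
    ?_, fun b hb => ?_, fun a ha => ?_⟩
  · refine (Nat.cast_le.2 (Finset.card_image_le.trans (Finset.card_filter_le _ _))).trans
      (h3.trans_eq ?_)
    congr 1
    field_simp
    norm_num
  · obtain ⟨v, hv, rfl⟩ := Finset.mem_image.1 hb
    exact (ht v (Finset.mem_filter.1 hv).2).1
  · obtain ⟨_, ⟨u, hu, rfl⟩, h8⟩ := h6 a ⟨ha, ha.2⟩
    obtain ⟨v, hv, h9⟩ := mem_iUnion₂.1 (h4 hu)
    have h10 : dist (B.q i a) (A.ι v) < δ / 3 := by
      rw [mem_ball, ← A.iso.dist_eq] at h9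
      linarith [dist_triangle (B.q i a) (A.ι u) (A.ι v)]
    obtain ⟨h11, h12⟩ := ht v ⟨a, ha, h10⟩
    refine mem_iUnion₂.2 ⟨t v, Finset.mem_image_of_mem t (Finset.mem_filter.2 ⟨hv, a, ha, h10⟩),
      (div_lt_iff₀ (B.seq.pos i)).1 ?_⟩
    linarith [(abs_le.1 (h7 a ha.2 _ h11.2)).1,
      dist_triangle_right (B.q i a) (B.q i (t v)) (A.ι v)]

end Blow

/-- Contradiction sequences. -/
theorem seq_of_small {x₀ : X} {R : ℝ} {y : ℕ → X} {r : ℕ → ℝ} (hy : ∀ i, y i ∈ ball x₀ R)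
    (hr : ∀ i, 0 < r i) (hle : ∀ i : ℕ, r i ≤ 1 / ((i : ℝ) + 1)) :
    Seq (Filter.hyperfilter ℕ) y r :=
  ⟨⟨x₀, R, hy⟩, hr, squeeze_zero (fun i => (hr i).le) hle
    (tendsto_one_div_add_atTop_nhds_zero_nat.mono_left Nat.hyperfilter_le_atTop)⟩

theorem hyper_small {δ : ℝ} (hδ : 0 < δ) :
    ∀ᶠ i : ℕ in (Filter.hyperfilter ℕ : Filter ℕ), 1 / ((i : ℝ) + 1) ≤ δ :=
  (tendsto_one_div_add_atTop_nhds_zero_nat.mono_left Nat.hyperfilter_le_atTop).eventually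
    (Iic_mem_nhds hδ)

end RC
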