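import Pool.Agent.P.MP_6472e5_gt.Core

/-! The square of the norm of `L²`. -/

set_option autoImplicit false
set_option linter.unusedSectionVars false

noncomputable section

namespace RC

open MeasureTheory Set Filter Topology Metric

variable {X : Type} [MetricSpace X] [SecondCountableTopology X] [MeasurableSpace X] [BorelSpace X]
  {μ : Measure X}

theorem ca0n_inner {f g : X → ℝ} (hf : MemLp f 2 μ) (hg : MemLp g 2 μ) :
    inner ℝ (hf.toLp f) (hg.toLp g) = ∫ x, f x * g x ∂μ := by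
  rw [L2.inner_def]
  refine integral_congr_ae ?_
  filter_upwards [hf.coeFn_toLp, hg.coeFn_toLp] with x h1 h2
  rw [h1, h2, real_inner_comm]
  simp

theorem ca0n_norm {f : X → ℝ} (hf : MemLp f 2 μ) : n2 μ f = ‖hf.toLp f‖ ^ 2 := by
  rw [← real_inner_self_eq_norm_sq, ca0n_inner]
  simp only [n2, sq]

theorem ca0n_sqrt {f : X → ℝ} (hf : MemLp f 2 μ) : √(n2 μ f) = ‖hf.toLp f‖ := by
  rw [ca0n_norm hf, Real.sqrt_sq (norm_nonneg _)]

theorem n2_nonneg (f : X → ℝ) : 0 ≤ n2 μ f := integral_nonneg fun _ => sq_nonneg _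

theorem n2_congr {f g : X → ℝ} (h : f =ᵐ[μ] g) : n2 μ f = n2 μ g :=
  integral_congr_ae (h.mono fun x hx => by simp only [hx])

theorem n2_smul (c : ℝ) (f : X → ℝ) : n2 μ (c • f) = c ^ 2 * n2 μ f := by
  simp only [n2, Pi.smul_apply, smul_eq_mul, mul_pow, integral_const_mul]

theorem n2_sub_comm (f g : X → ℝ) : n2 μ (f - g) = n2 μ (g - f) := by
  simp only [n2, Pi.sub_apply, sub_sq_comm (f _)]

theorem n2_add_le {f g : X → ℝ} (hf : MemLp f 2 μ) (hg : MemLp g 2 μ) :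
    n2 μ (f + g) ≤ 2 * n2 μ f + 2 * n2 μ g := by
  rw [ca0n_norm (hf.add hg), ca0n_norm hf, ca0n_norm hg, MemLp.toLp_add hf hg]
  have h := pow_le_pow_left₀ (norm_nonneg _) (norm_add_le (hf.toLp f) (hg.toLp g)) 2
  nlinarith [sq_nonneg (‖hf.toLp f‖ - ‖hg.toLp g‖)]

theorem sqrt_n2_add_le {f g : X → ℝ} (hf : MemLp f 2 μ) (hg : MemLp g 2 μ) :
    √(n2 μ (f + g)) ≤ √(n2 μ f) + √(n2 μ g) := by
  rw [ca0n_sqrt (hf.add hg), ca0n_sqrt hf, ca0n_sqrt hg, MemLp.toLp_add hf hg]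
  exact norm_add_le _ _

theorem n2_eq_zero {f : X → ℝ} (hf : MemLp f 2 μ) (h : n2 μ f = 0) : f =ᵐ[μ] 0 := by
  have := (integral_eq_zero_iff_of_nonneg (fun x => sq_nonneg (f x)) hf.integrable_sq).1 h
  exact this.mono fun x hx => by simpa using hx

theorem n2_eq_eLpNorm {f : X → ℝ} (hf : MemLp f 2 μ) :
    n2 μ f = (eLpNorm f 2 μ).toReal ^ 2 := by
  rw [ca0n_norm hf, Lp.norm_toLp]

theorem n2_eq_norm {f : X → ℝ} (hf : MemLp f 2 μ) : n2 μ f = ‖hf.toLp f‖ ^ 2 := ca0n_norm hf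

theorem integrable_mul_of_memLp {f g : X → ℝ} (hf : MemLp f 2 μ) (hg : MemLp g 2 μ) :
    Integrable (fun x => f x * g x) μ := hf.integrable_mul hg

theorem integral_abs_mul_le {f g : X → ℝ} (hf : MemLp f 2 μ) (hg : MemLp g 2 μ) :
    ∫ x, |f x * g x| ∂μ ≤ √(n2 μ f) * √(n2 μ g) := by
  have h := real_inner_le_norm (hf.abs.toLp _) (hg.abs.toLp _)
  rw [ca0n_inner, ← ca0n_sqrt, ← ca0n_sqrt] at h
  simpa only [n2, Pi.abs_apply, sq_abs, abs_mul] using h

theorem tendsto_integral_mul {ι : Type} {l : Filter ι} {u v : ι → X → ℝ} {f g : X → ℝ}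
    (hu : ∀ᶠ i in l, MemLp (u i) 2 μ) (hv : ∀ᶠ i in l, MemLp (v i) 2 μ) (hf : MemLp f 2 μ)
    (hg : MemLp g 2 μ) (h1 : Tendsto (fun i => n2 μ (u i - f)) l (𝓝 0))
    (h2 : Tendsto (fun i => n2 μ (v i - g)) l (𝓝 0)) :
    Tendsto (fun i => ∫ x, |u i x * v i x - f x * g x| ∂μ) l (𝓝 0) := by
  have s1 : Tendsto (fun i => √(n2 μ (u i - f))) l (𝓝 0) := by simpa using h1.sqrt
  have s2 : Tendsto (fun i => √(n2 μ (v i - g))) l (𝓝 0) := by simpa using h2.sqrt
  have s3 := ((s1.mul s2).add (s1.mul_const √(n2 μ g))).add (s2.const_mul √(n2 μ f))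
  simp only [mul_zero, zero_mul, add_zero] at s3
  refine squeeze_zero' (Eventually.of_forall fun i => integral_nonneg fun x => abs_nonneg _) ?_ s3
  filter_upwards [hu, hv] with i hui hvi
  have a := hui.sub hf
  have b := hvi.sub hg
  have i1 := (integrable_mul_of_memLp a b).abs
  have i2 := (integrable_mul_of_memLp a hg).abs
  have i3 := (integrable_mul_of_memLp hf b).abs
  refine le_trans ?_ (add_le_add (add_le_add (integral_abs_mul_le a b) (integral_abs_mul_le a hg))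
    (integral_abs_mul_le hf b))
  have i4 : Integrable (fun x => |(u i - f) x * (v i - g) x| + |(u i - f) x * g x|) μ := i1.add i2
  rw [← integral_add i1 i2, ← integral_add i4 i3]
  refine integral_mono_of_nonneg (ae_of_all _ fun x => abs_nonneg _) (i4.add i3)
    (ae_of_all _ fun x => ?_)
  have e : u i x * v i x - f x * g x =
      (u i - f) x * (v i - g) x + (u i - f) x * g x + f x * (v i - g) x := by
    simp only [Pi.sub_apply]; ring
  simp only [e]
  exact abs_add_three _ _ _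

/-- A subsequence that converges almost everywhere. -/
theorem exists_subseq_ae {u : ℕ → X → ℝ} {f : X → ℝ} (hu : ∀ k, MemLp (u k) 2 μ)
    (hf : MemLp f 2 μ) (h : Tendsto (fun k => n2 μ (u k - f)) atTop (𝓝 0)) :
    ∃ φ : ℕ → ℕ, StrictMono φ ∧ ∀ᵐ x ∂μ, Tendsto (fun k => u (φ k) x) atTop (𝓝 (f x)) := by
  refine (tendstoInMeasure_of_tendsto_eLpNorm (p := 2) two_ne_zero (fun k => (hu k).1) hf.1
    ?_).exists_seq_tendsto_ae
  have s1 : Tendsto (fun k => √(n2 μ (u k - f))) atTop (𝓝 0) := by simpa using h.sqrt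
  have s2 := ENNReal.tendsto_ofReal s1
  rw [ENNReal.ofReal_zero] at s2
  refine s2.congr fun k => ?_
  have a := (hu k).sub hf
  rw [ca0n_sqrt a, Lp.norm_toLp, ENNReal.ofReal_toReal a.2.ne]

theorem exists_subseq_ae' {u : ℕ → X → ℝ} {f : X → ℝ} (hu : ∀ k, Integrable (u k) μ)
    (hf : Integrable f μ) (h : Tendsto (fun k => ∫ x, |u k x - f x| ∂μ) atTop (𝓝 0)) :
    ∃ φ : ℕ → ℕ, StrictMono φ ∧ ∀ᵐ x ∂μ, Tendsto (fun k => u (φ k) x) atTop (𝓝 (f x)) := by
  refine (tendstoInMeasure_of_tendsto_eLpNorm (p := 1) one_ne_zero (fun k => (hu k).1) hf.1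
    ?_).exists_seq_tendsto_ae
  have s2 := ENNReal.tendsto_ofReal h
  rw [ENNReal.ofReal_zero] at s2
  refine s2.congr fun k => ?_
  rw [eLpNorm_one_eq_lintegral_enorm]
  exact ofReal_integral_norm_eq_lintegral_enorm ((hu k).sub hf)

end RC
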