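import Pool.Agent.P.MP_6472e5_gt.Ca0
import Pool.Agent.P.MP_6472e5_gt.Ca0n

/-! Derivatives of curves of functions. -/

set_option autoImplicit false
set_option linter.unusedSectionVars false

noncomputable section

namespace RC

open MeasureTheory Set Filter Topology Metric

variable {X : Type} [MetricSpace X] [SecondCountableTopology X] [MeasurableSpace X] [BorelSpace X]
  {μ : Measure X}

open scoped ENNReal

/-- A family of functions that tends to zero in `L^p`. -/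
def DeSm {ι : Type} (μ : Measure X) (p : ℝ≥0∞) (l : Filter ι) (f : ι → X → ℝ) : Prop :=
  (∀ᶠ i in l, MemLp (f i) p μ) ∧ Tendsto (fun i => eLpNorm (f i) p μ) l (𝓝 0)

/-- Derivative in `L^p`. -/
def DeP (μ : Measure X) (p : ℝ≥0∞) (u : ℝ → X → ℝ) (w : X → ℝ) (t : ℝ) : Prop :=
  (∀ᶠ s in 𝓝 t, MemLp (u s) p μ) ∧ MemLp w p μ ∧ DeSm μ p (𝓝[≠] 0) fun h => DQ u t h - w

section Aux

variable {ι : Type} {l : Filter ι} {p : ℝ≥0∞} {f g : ι → X → ℝ}

theorem de_shift (t : ℝ) : Tendsto (fun h : ℝ => t + h) (𝓝[≠] 0) (𝓝 t) := by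
  have h : Tendsto (fun h : ℝ => t + h) (𝓝 0) (𝓝 (t + 0)) := tendsto_const_nhds.add tendsto_id
  rw [add_zero] at h
  exact h.mono_left nhdsWithin_le_nhds

theorem de_unshift (t : ℝ) : Tendsto (fun s : ℝ => s - t) (𝓝[≠] t) (𝓝[≠] 0) := by
  refine tendsto_nhdsWithin_iff.2 ⟨?_, eventually_mem_nhdsWithin.mono fun s hs => sub_ne_zero.2 hs⟩
  have h : Tendsto (fun s : ℝ => s - t) (𝓝 t) (𝓝 (t - t)) := tendsto_id.sub tendsto_const_nhds
  rw [sub_self] at h
  exact h.mono_left nhdsWithin_le_nhds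

theorem de_scale {a : ℝ} (ha : a ≠ 0) : Tendsto (fun h : ℝ => a * h) (𝓝[≠] 0) (𝓝[≠] 0) := by
  refine tendsto_nhdsWithin_iff.2 ⟨?_, eventually_mem_nhdsWithin.mono fun s hs => mul_ne_zero ha hs⟩
  have h : Tendsto (fun h : ℝ => a * h) (𝓝 0) (𝓝 (a * 0)) := tendsto_id.const_mul a
  rw [mul_zero] at h
  exact h.mono_left nhdsWithin_le_nhds

theorem de_aff (a b t : ℝ) : Tendsto (fun s : ℝ => a * s + b) (𝓝 t) (𝓝 (a * t + b)) :=
  (tendsto_id.const_mul a).add tendsto_const_nhds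

theorem de_id : Tendsto (fun h : ℝ => h) (𝓝[≠] 0) (𝓝 0) := tendsto_id.mono_left nhdsWithin_le_nhds

theorem de_ne : ∀ᶠ h : ℝ in 𝓝[≠] 0, h ≠ 0 := eventually_mem_nhdsWithin

theorem de_slope {c : ℝ → ℝ} {c' t : ℝ} (hc : HasDerivAt c c' t) :
    Tendsto (fun h => (c (t + h) - c t) / h) (𝓝[≠] 0) (𝓝 c') :=
  (hasDerivAt_iff_tendsto_slope_zero.1 hc).congr fun h => by rw [smul_eq_mul, div_eq_inv_mul]

theorem de_abs_bd {c : ι → ℝ} {a : ℝ} (hc : Tendsto c l (𝓝 a)) : ∀ᶠ i in l, |c i| ≤ |a| + 1 :=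
  hc.abs.eventually (eventually_le_nhds (lt_add_one _))

theorem de_DQ_eq (u : ℝ → X → ℝ) (t h : ℝ) : DQ u t h = h⁻¹ • (u (t + h) - u t) := by
  funext x
  simp only [DQ, Pi.smul_apply, Pi.sub_apply, smul_eq_mul, div_eq_inv_mul]

theorem de_DQ_aff (u : ℝ → X → ℝ) {a : ℝ} (ha : a ≠ 0) (b t h : ℝ) :
    DQ (fun s => u (a * s + b)) t h = a • DQ u (a * t + b) (a * h) := by
  funext x
  have e : a * (t + h) + b = a * t + b + a * h := by ring
  simp only [DQ, Pi.smul_apply, smul_eq_mul, e]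
  rw [← mul_div_assoc, mul_div_mul_left _ _ ha]

theorem de_DQ_mem {u : ℝ → X → ℝ} {t : ℝ} (hu : ∀ᶠ s in 𝓝 t, MemLp (u s) p μ) :
    ∀ᶠ h in 𝓝[≠] (0 : ℝ), MemLp (DQ u t h) p μ := by
  filter_upwards [(de_shift t).eventually hu] with h hh
  rw [de_DQ_eq]
  exact (hh.sub hu.self_of_nhds).const_smul _

theorem de_DQ_meas {u : ℝ → X → ℝ} {t : ℝ} (hu : ∀ᶠ s in 𝓝 t, AEStronglyMeasurable (u s) μ) :
    ∀ᶠ h in 𝓝[≠] (0 : ℝ), AEStronglyMeasurable (DQ u t h) μ := by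
  filter_upwards [(de_shift t).eventually hu] with h hh
  rw [de_DQ_eq]
  exact (hh.sub hu.self_of_nhds).const_smul _

theorem de_DQ_congr {u u' : ℝ → X → ℝ} {t : ℝ} (hu : ∀ᶠ s in 𝓝 t, u s =ᵐ[μ] u' s) :
    ∀ᶠ h in 𝓝[≠] (0 : ℝ), DQ u t h =ᵐ[μ] DQ u' t h := by
  filter_upwards [(de_shift t).eventually hu] with h hh
  filter_upwards [hh, hu.self_of_nhds] with x h1 h2
  simp only [DQ, h1, h2]

theorem DeSm.meas (hf : DeSm μ p l f) : ∀ᶠ i in l, AEStronglyMeasurable (f i) μ :=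
  hf.1.mono fun _ h => h.1

theorem DeSm.congr (hf : DeSm μ p l f) (e : ∀ᶠ i in l, f i =ᵐ[μ] g i) : DeSm μ p l g := by
  refine ⟨?_, hf.2.congr' (e.mono fun i hi => eLpNorm_congr_ae hi)⟩
  filter_upwards [hf.1, e] with i h1 h2 using h1.ae_eq h2

theorem DeSm.congr' (hf : DeSm μ p l f) (e : ∀ᶠ i in l, ∀ x, f i x = g i x) : DeSm μ p l g :=
  hf.congr (e.mono fun _ hi => ae_of_all _ hi)

theorem DeSm.of_le (hf : DeSm μ p l f) (hm : ∀ᶠ i in l, AEStronglyMeasurable (g i) μ) (C : ℝ)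
    (h : ∀ᶠ i in l, ∀ᵐ x ∂μ, |g i x| ≤ C * |f i x|) : DeSm μ p l g := by
  refine ⟨?_, ?_⟩
  · filter_upwards [hf.1, hm, h] with i h1 h2 h3 using h1.of_le_mul h2 h3
  · have h1 := ENNReal.Tendsto.const_mul (a := ENNReal.ofReal C) hf.2 (Or.inr ENNReal.ofReal_ne_top)
    rw [mul_zero] at h1
    exact tendsto_of_tendsto_of_tendsto_of_le_of_le' tendsto_const_nhds h1
      (Eventually.of_forall fun _ => zero_le)
      (h.mono fun i hi => eLpNorm_le_mul_eLpNorm_of_ae_le_mul hi p)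

theorem DeSm.add (hp : 1 ≤ p) (hf : DeSm μ p l f) (hg : DeSm μ p l g) :
    DeSm μ p l fun i x => f i x + g i x := by
  refine ⟨?_, ?_⟩
  · filter_upwards [hf.1, hg.1] with i h1 h2 using h1.add h2
  · have h1 := hf.2.add hg.2
    rw [add_zero] at h1
    refine tendsto_of_tendsto_of_tendsto_of_le_of_le' tendsto_const_nhds h1
      (Eventually.of_forall fun _ => zero_le) ?_
    filter_upwards [hf.1, hg.1] with i h1 h2 using eLpNorm_add_le h1.1 h2.1 hp

theorem DeSm.comp {κ : Type} {l' : Filter κ} {φ : κ → ι} (hf : DeSm μ p l f)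
    (hφ : Tendsto φ l' l) : DeSm μ p l' fun j => f (φ j) :=
  ⟨hφ.eventually hf.1, hf.2.comp hφ⟩

/-- Bounded multipliers. -/
theorem DeSm.bdd_mul (hf : DeSm μ p l f) (hm : ∀ᶠ i in l, AEStronglyMeasurable (g i) μ) {C : ℝ}
    (h : ∀ᶠ i in l, ∀ᵐ x ∂μ, |g i x| ≤ C) : DeSm μ p l fun i x => g i x * f i x := by
  refine hf.of_le ?_ C ?_
  · filter_upwards [hf.meas, hm] with i h1 h2 using h2.mul h1
  · filter_upwards [h] with i hi
    filter_upwards [hi] with x hx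
    rw [abs_mul]
    exact mul_le_mul_of_nonneg_right hx (abs_nonneg _)

theorem DeSm.scal (hf : DeSm μ p l f) {c : ι → ℝ} {a : ℝ} (hc : Tendsto c l (𝓝 a)) :
    DeSm μ p l fun i x => c i * f i x :=
  hf.bdd_mul (g := fun i _ => c i) (Eventually.of_forall fun _ => aestronglyMeasurable_const)
    ((de_abs_bd hc).mono fun _ hi => ae_of_all _ fun _ => hi)

theorem deSm_scal {c : ι → ℝ} (hc : Tendsto c l (𝓝 0)) {w : X → ℝ} (hw : MemLp w p μ) :
    DeSm μ p l fun i x => c i * w x := by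
  refine ⟨Eventually.of_forall fun i => hw.const_mul _, ?_⟩
  have h1 := ENNReal.Tendsto.mul_const (b := eLpNorm w p μ) hc.enorm (Or.inr hw.2.ne)
  rw [enorm_zero, zero_mul] at h1
  exact h1.congr fun i => (eLpNorm_const_smul (c i) w p μ).symm

/-- Dominated convergence. -/
theorem deSm_dom [l.IsCountablyGenerated] (hp : 1 ≤ p) (hp' : p ≠ ⊤)
    (hm : ∀ᶠ i in l, AEStronglyMeasurable (f i) μ) {b : X → ℝ} (hb : MemLp b p μ)
    (h : ∀ᶠ i in l, ∀ᵐ x ∂μ, |f i x| ≤ |b x|) (h0 : ∀ᵐ x ∂μ, Tendsto (fun i => f i x) l (𝓝 0)) :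
    DeSm μ p l f := by
  have hp0 : p ≠ 0 := (zero_lt_one.trans_le hp).ne'
  have hr : 0 < p.toReal := ENNReal.toReal_pos hp0 hp'
  refine ⟨?_, ?_⟩
  · filter_upwards [hm, h] with i h1 h2 using hb.of_le h1 h2
  · have h1 := tendsto_lintegral_filter_of_dominated_convergence' (μ := μ) (l := l)
      (F := fun i x => ‖f i x‖ₑ ^ p.toReal) (f := fun _ => 0) (fun x => ‖b x‖ₑ ^ p.toReal)
      (hm.mono fun i hi => hi.enorm.pow_const _) ?_
      (lintegral_rpow_enorm_lt_top_of_eLpNorm_lt_top hp0 hp' hb.2).ne ?_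
    · rw [lintegral_zero] at h1
      have h2 := ((ENNReal.continuous_rpow_const (y := 1 / p.toReal)).tendsto 0).comp h1
      rw [ENNReal.zero_rpow_of_pos (by positivity)] at h2
      exact h2.congr fun i => (eLpNorm_eq_lintegral_rpow_enorm_toReal hp0 hp').symm
    · filter_upwards [h] with i hi
      filter_upwards [hi] with x hx
      exact ENNReal.rpow_le_rpow (enorm_le_iff_norm_le.2 hx) hr.le
    · filter_upwards [h0] with x hx
      have h2 := ((ENNReal.continuous_rpow_const (y := p.toReal)).tendsto _).comp hx.enorm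
      rwa [enorm_zero, ENNReal.zero_rpow_of_pos hr] at h2

/-- A subsequence that tends to zero almost everywhere. -/
theorem DeSm.subseq {f : ℕ → X → ℝ} (hp : 1 ≤ p) (hf : DeSm μ p atTop f) :
    ∃ φ : ℕ → ℕ, Tendsto φ atTop atTop ∧ ∀ᵐ x ∂μ, Tendsto (fun k => f (φ k) x) atTop (𝓝 0) := by
  obtain ⟨N, hN⟩ := eventually_atTop.1 hf.meas
  have h1 : TendstoInMeasure μ (fun k => f (k + N)) atTop 0 :=
    tendstoInMeasure_of_tendsto_eLpNorm (zero_lt_one.trans_le hp).ne'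
      (fun k => hN _ (Nat.le_add_left _ _)) aestronglyMeasurable_zero
      ((hf.2.comp (tendsto_add_atTop_nat N)).congr fun k => by simp)
  obtain ⟨φ, hφ, h2⟩ := h1.exists_seq_tendsto_ae
  exact ⟨fun k => φ k + N, (tendsto_add_atTop_nat N).comp hφ.tendsto_atTop, h2⟩

/-- A bounded family that tends to zero in `L^q`, times a fixed function of `L^p`. -/
theorem DeSm.mul_mem [l.IsCountablyGenerated] {q : ℝ≥0∞} (hq : 1 ≤ q) (hp : 1 ≤ p) (hp' : p ≠ ⊤)
    (hf : DeSm μ q l f) {C : ℝ} (h : ∀ᶠ i in l, ∀ᵐ x ∂μ, |f i x| ≤ C) {w : X → ℝ}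
    (hw : MemLp w p μ) : DeSm μ p l fun i x => f i x * w x := by
  have hb : ∀ᶠ i in l, ∀ᵐ x ∂μ, |f i x * w x| ≤ |C * w x| := by
    filter_upwards [h] with i hi
    filter_upwards [hi] with x hx
    rw [abs_mul, abs_mul]
    exact mul_le_mul_of_nonneg_right (hx.trans (le_abs_self _)) (abs_nonneg _)
  have hm : ∀ᶠ i in l, AEStronglyMeasurable (fun x => f i x * w x) μ :=
    hf.meas.mono fun i hi => hi.mul hw.1
  refine ⟨?_, tendsto_of_subseq_tendsto fun ns hns => ?_⟩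
  · filter_upwards [hm, hb] with i h1 h2 using (hw.const_mul C).of_le h1 h2
  · obtain ⟨φ, hφ, h2⟩ := (hf.comp hns).subseq hq
    refine ⟨φ, (deSm_dom (f := fun k x => f (ns (φ k)) x * w x) hp hp'
      ((hns.comp hφ).eventually hm) (hw.const_mul C) ((hns.comp hφ).eventually hb) ?_).2⟩
    filter_upwards [h2] with x hx
    simpa using hx.mul_const (w x)

theorem de_holder {a b : X → ℝ} (ha : AEStronglyMeasurable a μ) (hb : AEStronglyMeasurable b μ) :
    eLpNorm (fun x => b x * a x) 1 μ ≤ eLpNorm b 2 μ * eLpNorm a 2 μ := by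
  have h := eLpNorm_le_eLpNorm_mul_eLpNorm'_of_norm (p := 2) (q := 2) (r := 1) hb ha
    (fun s t : ℝ => s * t) 1 (ae_of_all _ fun x => by simp)
  simpa using h

theorem DeSm.holder (hf : DeSm μ 2 l f) {w : X → ℝ} (hw : MemLp w 2 μ) :
    DeSm μ 1 l fun i x => w x * f i x := by
  refine ⟨hf.1.mono fun i hi => hi.mul' hw, ?_⟩
  have h1 := ENNReal.Tendsto.const_mul (a := eLpNorm w 2 μ) hf.2 (Or.inr hw.2.ne)
  rw [mul_zero] at h1
  exact tendsto_of_tendsto_of_tendsto_of_le_of_le' tendsto_const_nhds h1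
    (Eventually.of_forall fun _ => zero_le)
    (hf.meas.mono fun i hi => de_holder hi hw.1)

theorem DeSm.holder' (hf : DeSm μ 2 l f) (hg : DeSm μ 2 l g) :
    DeSm μ 1 l fun i x => g i x * f i x := by
  refine ⟨?_, ?_⟩
  · filter_upwards [hf.1, hg.1] with i h1 h2 using h1.mul' h2
  · have h1 := ENNReal.Tendsto.mul hg.2 (Or.inr ENNReal.zero_ne_top) hf.2
      (Or.inr ENNReal.zero_ne_top)
    rw [mul_zero] at h1
    refine tendsto_of_tendsto_of_tendsto_of_le_of_le' tendsto_const_nhds h1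
      (Eventually.of_forall fun _ => zero_le) ?_
    filter_upwards [hf.meas, hg.meas] with i h1 h2 using de_holder h1 h2

theorem de_tendsto_iff {a : ι → ℝ≥0∞} (ha : ∀ᶠ i in l, a i ≠ ⊤) :
    Tendsto (fun i => (a i).toReal) l (𝓝 0) ↔ Tendsto a l (𝓝 0) := by
  constructor
  · intro h
    have h1 := ENNReal.tendsto_ofReal h
    rw [ENNReal.ofReal_zero] at h1
    exact h1.congr' (ha.mono fun i hi => ENNReal.ofReal_toReal hi)
  · intro h
    exact (ENNReal.tendsto_toReal ENNReal.zero_ne_top).comp h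

theorem de_one_iff (hf : ∀ᶠ i in l, MemLp (f i) 1 μ) :
    Tendsto (fun i => ∫ x, |f i x| ∂μ) l (𝓝 0) ↔ DeSm μ 1 l f := by
  rw [DeSm, and_iff_right hf, ← de_tendsto_iff (hf.mono fun i hi => hi.2.ne)]
  refine tendsto_congr' (hf.mono fun i hi => ?_)
  simp only [eLpNorm_one_eq_lintegral_enorm]
  exact integral_norm_eq_lintegral_enorm hi.1

theorem de_two_iff (hf : ∀ᶠ i in l, MemLp (f i) 2 μ) :
    Tendsto (fun i => n2 μ (f i)) l (𝓝 0) ↔ DeSm μ 2 l f := by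
  rw [DeSm, and_iff_right hf, ← de_tendsto_iff (hf.mono fun i hi => hi.2.ne),
    tendsto_congr' (hf.mono fun i hi => n2_eq_eLpNorm hi)]
  constructor
  · intro h
    have h1 := h.sqrt
    rw [Real.sqrt_zero] at h1
    exact h1.congr fun i => Real.sqrt_sq ENNReal.toReal_nonneg
  · intro h
    simpa using h.pow 2

theorem DeSm.integral (hf : DeSm μ 1 l f) : Tendsto (fun i => ∫ x, f i x ∂μ) l (𝓝 0) :=
  squeeze_zero_norm (fun _ => norm_integral_le_integral_norm _) ((de_one_iff hf.1).2 hf)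

variable {u v u' : ℝ → X → ℝ} {w z w' : X → ℝ} {t : ℝ}

theorem de1 : DerL1 μ u w t ↔ DeP μ 1 u w t := by
  simp only [DerL1, DeP, ← memLp_one_iff_integrable]
  refine and_congr_right fun h1 => and_congr_right fun h2 => ?_
  exact de_one_iff (f := fun h => DQ u t h - w) ((de_DQ_mem h1).mono fun h hh => hh.sub h2)

theorem de2 : DerL2 μ u w t ↔ DeP μ 2 u w t := by
  refine and_congr_right fun h1 => and_congr_right fun h2 => ?_
  exact de_two_iff (f := fun h => DQ u t h - w) ((de_DQ_mem h1).mono fun h hh => hh.sub h2)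

theorem DeP.congr (h : DeP μ p u w t) (hu : ∀ᶠ s in 𝓝 t, u s =ᵐ[μ] u' s) (hw : w =ᵐ[μ] w') :
    DeP μ p u' w' t := by
  refine ⟨?_, h.2.1.ae_eq hw, h.2.2.congr ((de_DQ_congr hu).mono fun _ hh => hh.sub hw)⟩
  filter_upwards [h.1, hu] with s h1 h2 using h1.ae_eq h2

theorem DeP.add (hp : 1 ≤ p) (h : DeP μ p u w t) (h' : DeP μ p v z t) :
    DeP μ p (fun s => u s + v s) (w + z) t := by
  refine ⟨?_, h.2.1.add h'.2.1, (h.2.2.add hp h'.2.2).congr' (Eventually.of_forall fun h x => ?_)⟩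
  · filter_upwards [h.1, h'.1] with s h1 h2 using h1.add h2
  · simp only [DQ, Pi.add_apply, Pi.sub_apply]
    ring

theorem DeP.smul (hp : 1 ≤ p) (h : DeP μ p u w t) {c : ℝ → ℝ} {c' : ℝ} (hc : HasDerivAt c c' t) :
    DeP μ p (fun s => c s • u s) (c' • u t + c t • w) t := by
  have hu := h.1.self_of_nhds
  have h1 : Tendsto (fun h => c (t + h)) (𝓝[≠] 0) (𝓝 (c t)) :=
    hc.continuousAt.tendsto.comp (de_shift t)
  refine ⟨h.1.mono fun s hs => hs.const_smul _, (hu.const_smul _).add (h.2.1.const_smul _),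
    (((h.2.2.scal h1).add hp (deSm_scal (tendsto_sub_nhds_zero_iff.2 h1) h.2.1)).add hp
      (deSm_scal (tendsto_sub_nhds_zero_iff.2 (de_slope hc)) hu)).congr'
      (Eventually.of_forall fun h x => ?_)⟩
  simp only [DQ, Pi.add_apply, Pi.sub_apply, Pi.smul_apply, smul_eq_mul]
  ring

theorem DeP.affine {a b : ℝ} (ha : a ≠ 0) (h : DeP μ p u w (a * t + b)) :
    DeP μ p (fun s => u (a * s + b)) (a • w) t := by
  refine ⟨(de_aff a b t).eventually h.1, h.2.1.const_smul _,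
    ((h.2.2.comp (de_scale ha)).scal (tendsto_const_nhds (x := a))).congr'
      (Eventually.of_forall fun h x => ?_)⟩
  simp only [de_DQ_aff u ha, Pi.sub_apply, Pi.smul_apply, smul_eq_mul]
  ring

theorem de_const {f : X → ℝ} (hf : MemLp f p μ) (t : ℝ) : DeP μ p (fun _ => f) 0 t := by
  refine ⟨Eventually.of_forall fun _ => hf, MemLp.zero,
    (deSm_scal (tendsto_const_nhds (x := (0 : ℝ))) hf).congr' (Eventually.of_forall fun h x => ?_)⟩
  simp [DQ]

theorem DeP.cont' (hp : 1 ≤ p) (h : DeP μ p u w t) :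
    DeSm μ p (𝓝[≠] 0) fun h x => u (t + h) x - u t x := by
  refine ((h.2.2.scal de_id).add hp (deSm_scal de_id h.2.1)).congr' (de_ne.mono fun h hh x => ?_)
  simp only [DQ, Pi.sub_apply]
  field_simp
  ring

theorem DeP.cont (hp : 1 ≤ p) (h : DeP μ p u w t) : DeSm μ p (𝓝 t) fun s => u s - u t := by
  refine ⟨h.1.mono fun s hs => hs.sub h.1.self_of_nhds, ?_⟩
  rw [← nhdsNE_sup_pure, tendsto_sup]
  refine ⟨((h.cont' hp).comp (de_unshift t)).2.congr fun s => ?_, ?_⟩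
  · simp only [add_sub_cancel]
    rfl
  · refine tendsto_pure_left.2 fun U hU => ?_
    simpa using mem_of_mem_nhds hU

theorem DeP.bdd_mul (h : DeP μ p u w t) {ζ : X → ℝ} (hm : AEStronglyMeasurable ζ μ)
    (hζ : Bdd μ ζ) : DeP μ p (fun s x => ζ x * u s x) (fun x => ζ x * w x) t := by
  obtain ⟨C, hC⟩ := hζ
  have h1 : ∀ f : X → ℝ, MemLp f p μ → MemLp (fun x => ζ x * f x) p μ := fun f hf =>
    hf.of_le_mul (c := C) (hm.mul hf.1) (hC.mono fun x hx => by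
      rw [norm_mul]
      exact mul_le_mul_of_nonneg_right hx (norm_nonneg _))
  refine ⟨h.1.mono fun s hs => h1 _ hs, h1 _ h.2.1,
    (h.2.2.bdd_mul (g := fun _ => ζ) (Eventually.of_forall fun _ => hm)
      (Eventually.of_forall fun _ => hC)).congr' (Eventually.of_forall fun h x => ?_)⟩
  simp only [DQ, Pi.sub_apply]
  ring

theorem DeP.chain (hp : 1 ≤ p) (hp' : p ≠ ⊤) (h : DeP μ p u w t) {Φ Φ' : ℝ → ℝ}
    {L : NNReal} (hΦ : LipschitzWith L Φ) (h0 : Φ 0 = 0) (hd : ∀ a, HasDerivAt Φ (Φ' a) a)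
    (hc : Continuous Φ') : DeP μ p (fun s x => Φ (u s x)) (fun x => Φ' (u t x) * w x) t := by
  have hu := h.1.self_of_nhds
  have hL : ∀ a b, |Φ a - Φ b| ≤ L * |a - b| := fun a b => hΦ.dist_le_mul a b
  have hL' : ∀ a, |Φ' a| ≤ L := fun a => (hd a).le_of_lipschitz hΦ
  have hmΦ : ∀ f : X → ℝ, AEStronglyMeasurable f μ → AEStronglyMeasurable (fun x => Φ (f x)) μ :=
    fun f hf => hΦ.continuous.comp_aestronglyMeasurable hf
  have hm' : AEStronglyMeasurable (fun x => Φ' (u t x) * w x) μ :=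
    (hc.comp_aestronglyMeasurable hu.1).mul h.2.1.1
  have hm2 : ∀ h' : ℝ, AEStronglyMeasurable (fun x => Φ (u t x + h' * w x)) μ := fun h' =>
    hmΦ _ (hu.1.add (h.2.1.1.const_mul _))
  have a1 : DeSm μ p (𝓝[≠] 0) fun h x => (Φ (u (t + h) x) - Φ (u t x + h * w x)) / h := by
    refine h.2.2.of_le ?_ L (de_ne.mono fun h hh => ae_of_all _ fun x => ?_)
    · filter_upwards [(de_shift t).eventually h.1] with h' hh
      exact ((hmΦ _ hh.1).sub (hm2 h')).mul_const _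
    · have e : u (t + h) x - (u t x + h * w x) = h * (DQ u t h - w) x := by
        simp only [DQ, Pi.sub_apply]
        field_simp
        ring
      rw [abs_div, div_le_iff₀ (abs_pos.2 hh)]
      refine (hL _ _).trans_eq ?_
      rw [e, abs_mul]
      ring
  have a2 : DeSm μ p (𝓝[≠] 0)
      fun h x => (Φ (u t x + h * w x) - Φ (u t x)) / h - Φ' (u t x) * w x := by
    refine deSm_dom hp hp' (Eventually.of_forall fun h' => ?_) (h.2.1.const_mul (2 * L))
      (de_ne.mono fun h hh => ae_of_all _ fun x => ?_) (ae_of_all _ fun x => ?_)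
    · exact (((hm2 h').sub (hmΦ _ hu.1)).mul_const _).sub hm'
    · have b1 : |(Φ (u t x + h * w x) - Φ (u t x)) / h| ≤ L * |w x| := by
        rw [abs_div, div_le_iff₀ (abs_pos.2 hh)]
        refine (hL _ _).trans_eq ?_
        rw [add_sub_cancel_left, abs_mul]
        ring
      have b2 : |Φ' (u t x) * w x| ≤ L * |w x| := by
        rw [abs_mul]
        exact mul_le_mul_of_nonneg_right (hL' _) (abs_nonneg _)
      refine (abs_sub _ _).trans ?_
      rw [abs_mul (2 * (L : ℝ)), abs_of_nonneg (by positivity : (0 : ℝ) ≤ 2 * L)]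
      linarith
    · have b1 : HasDerivAt (fun h : ℝ => u t x + h * w x) (1 * w x) 0 :=
        ((hasDerivAt_id (0 : ℝ)).mul_const (w x)).const_add _
      have b2 := de_slope ((hd (u t x + 0 * w x)).comp (0 : ℝ) b1)
      simp only [Function.comp, zero_mul, add_zero, zero_add, one_mul] at b2
      exact tendsto_sub_nhds_zero_iff.2 b2
  refine ⟨h.1.mono fun s hs => hΦ.comp_memLp h0 hs, ?_,
    (a1.add hp a2).congr' (Eventually.of_forall fun h x => ?_)⟩
  · refine h.2.1.of_le_mul (c := L) hm' (ae_of_all _ fun x => ?_)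
    rw [norm_mul]
    exact mul_le_mul_of_nonneg_right (hL' _) (norm_nonneg _)
  · simp only [DQ, Pi.sub_apply]
    ring

theorem de_cont {C : ℝ} (hC : ∀ᶠ h in 𝓝[≠] (0 : ℝ), ∀ᵐ x ∂μ, |DQ u t h x| ≤ C) :
    ∀ᶠ s in 𝓝 t, ∀ᵐ x ∂μ, |u s x - u t x| ≤ C * |s - t| := by
  rw [← nhdsNE_sup_pure, eventually_sup]
  refine ⟨?_, by simp⟩
  filter_upwards [(de_unshift t).eventually hC, (de_unshift t).eventually de_ne] with s h1 h2
  filter_upwards [h1] with x hx
  simp only [DQ, add_sub_cancel] at hx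
  rwa [abs_div, div_le_iff₀ (abs_pos.2 h2)] at hx

theorem DerW.de_bdd (h : DerW μ u w t) : ∀ᶠ s in 𝓝 t, Bdd μ (u s) := by
  obtain ⟨C, hC⟩ := h.2.2.2.2.1
  obtain ⟨B, hB⟩ := h.2.2.1
  filter_upwards [de_cont hC] with s hs
  refine ⟨B + C * |s - t|, ?_⟩
  filter_upwards [hs, hB] with x h1 h2
  linarith [abs_sub_abs_le_abs_sub (u s x) (u t x)]

theorem DerW.de_int (h : DerW μ u w t) {g : X → ℝ} (hg : Integrable g μ) :
    ∀ᶠ k in 𝓝[≠] (0 : ℝ), Integrable (fun x => DQ u t k x * g x) μ := by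
  obtain ⟨C, hC⟩ := h.2.2.2.2.1
  filter_upwards [hC, de_DQ_meas h.1] with k h1 h2 using Bdd.mul_integrable ⟨C, h1⟩ h2 hg

theorem DerW.de_mul (hp : 1 ≤ p) (hp' : p ≠ ⊤) (h : DerW μ u w t) (h2 : DerL2 μ u w t)
    (h' : DeP μ p v z t) :
    DeP μ p (fun s x => u s x * v s x) (fun x => w x * v t x + u t x * z x) t := by
  have h1 : ∀ ζ f : X → ℝ, AEStronglyMeasurable ζ μ → Bdd μ ζ → MemLp f p μ →
      MemLp (fun x => ζ x * f x) p μ :=
    fun ζ f hm hζ hf => ((de_const hf 0).bdd_mul hm hζ).1.self_of_nhds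
  obtain ⟨C, hC⟩ := h.2.2.2.2.1
  obtain ⟨B, hB⟩ := h.2.2.1
  obtain ⟨B', hB'⟩ := h.2.2.2.1
  have a1 := (h'.cont' hp).bdd_mul (de_DQ_meas h.1) hC
  have a2 := (de2.1 h2).2.2.mul_mem one_le_two hp hp' (C := C + B') (by
    filter_upwards [hC] with k hk
    filter_upwards [hk, hB'] with x b1 b2
    exact (abs_sub _ _).trans (add_le_add b1 b2)) h'.1.self_of_nhds
  have a3 := h'.2.2.bdd_mul (g := fun _ => u t) (Eventually.of_forall fun _ => h.1.self_of_nhds)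
    (Eventually.of_forall fun _ => hB)
  refine ⟨?_, (h1 _ _ h.2.1 h.2.2.2.1 h'.1.self_of_nhds).add
    (h1 _ _ h.1.self_of_nhds h.2.2.1 h'.2.1),
    ((a1.add hp a2).add hp a3).congr' (Eventually.of_forall fun h x => ?_)⟩
  · filter_upwards [h.1, h.de_bdd, h'.1] with s b1 b2 b3 using h1 _ _ b1 b2 b3
  · simp only [DQ, Pi.sub_apply]
    ring

/-- Pointwise limits of difference quotients. -/
theorem de_lim (hm : ∀ᶠ s in 𝓝 t, AEStronglyMeasurable (u s) μ)
    (hd : ∀ᵐ x ∂μ, HasDerivAt (fun s => u s x) (w x) t) {b : X → ℝ}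
    (hC : ∀ᶠ h in 𝓝[≠] (0 : ℝ), ∀ᵐ x ∂μ, |DQ u t h x| ≤ b x) :
    AEStronglyMeasurable w μ ∧ ∀ᵐ x ∂μ, |w x| ≤ b x := by
  obtain ⟨ns, h1, h2⟩ := exists_seq_forall_of_frequently ((de_DQ_meas hm).and hC).frequently
  have h3 : ∀ᵐ x ∂μ, Tendsto (fun n => DQ u t (ns n) x) atTop (𝓝 (w x)) :=
    hd.mono fun x hx => (de_slope hx).comp h1
  refine ⟨aestronglyMeasurable_of_tendsto_ae atTop (fun n => (h2 n).1) h3, ?_⟩
  filter_upwards [h3, ae_all_iff.2 fun n => (h2 n).2] with x a1 a2 using le_of_tendsto' a1.abs a2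

end Aux

theorem DerL1.congr {u u' : ℝ → X → ℝ} {w w' : X → ℝ} {t : ℝ} (h : DerL1 μ u w t)
    (hu : ∀ᶠ s in 𝓝 t, u s =ᵐ[μ] u' s) (hw : w =ᵐ[μ] w') : DerL1 μ u' w' t :=
  de1.2 ((de1.1 h).congr hu hw)

theorem DerL2.congr {u u' : ℝ → X → ℝ} {w w' : X → ℝ} {t : ℝ} (h : DerL2 μ u w t)
    (hu : ∀ᶠ s in 𝓝 t, u s =ᵐ[μ] u' s) (hw : w =ᵐ[μ] w') : DerL2 μ u' w' t :=
  de2.2 ((de2.1 h).congr hu hw)

theorem DerW.congr {u u' : ℝ → X → ℝ} {w w' : X → ℝ} {t : ℝ} (h : DerW μ u w t)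
    (hu : ∀ᶠ s in 𝓝 t, u s =ᵐ[μ] u' s) (hw : w =ᵐ[μ] w') : DerW μ u' w' t := by
  obtain ⟨h1, h2, h3, h4, ⟨C, h5⟩, h6⟩ := h
  refine ⟨?_, h2.congr hw, h3.congr hu.self_of_nhds, h4.congr hw, ⟨C, ?_⟩, fun g hg => ?_⟩
  · filter_upwards [h1, hu] with s a1 a2 using a1.congr a2
  · filter_upwards [h5, de_DQ_congr hu] with k a1 a2
    filter_upwards [a1, a2] with x b1 b2
    rwa [← b2]
  · have e : ∫ x, w' x * g x ∂μ = ∫ x, w x * g x ∂μ :=
      integral_congr_ae (hw.mono fun x hx => by simp only [hx])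
    rw [e]
    exact (h6 g hg).congr' ((de_DQ_congr hu).mono fun k hk =>
      integral_congr_ae (hk.mono fun x hx => by simp only [hx]))

theorem DerL1.add {u v : ℝ → X → ℝ} {w z : X → ℝ} {t : ℝ} (h : DerL1 μ u w t)
    (h' : DerL1 μ v z t) : DerL1 μ (fun s => u s + v s) (w + z) t :=
  de1.2 ((de1.1 h).add le_rfl (de1.1 h'))

theorem DerL2.add {u v : ℝ → X → ℝ} {w z : X → ℝ} {t : ℝ} (h : DerL2 μ u w t)
    (h' : DerL2 μ v z t) : DerL2 μ (fun s => u s + v s) (w + z) t :=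
  de2.2 ((de2.1 h).add one_le_two (de2.1 h'))

theorem DerW.add {u v : ℝ → X → ℝ} {w z : X → ℝ} {t : ℝ} (h : DerW μ u w t)
    (h' : DerW μ v z t) : DerW μ (fun s => u s + v s) (w + z) t := by
  obtain ⟨C, hC⟩ := h.2.2.2.2.1
  obtain ⟨C', hC'⟩ := h'.2.2.2.2.1
  have e : ∀ k x, DQ (fun s => u s + v s) t k x = DQ u t k x + DQ v t k x := fun k x => by
    simp only [DQ, Pi.add_apply]
    ring
  refine ⟨?_, h.2.1.add h'.2.1, h.2.2.1.add h'.2.2.1, h.2.2.2.1.add h'.2.2.2.1, ⟨C + C', ?_⟩,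
    fun g hg => ?_⟩
  · filter_upwards [h.1, h'.1] with s a1 a2 using a1.add a2
  · filter_upwards [hC, hC'] with k a1 a2
    filter_upwards [a1, a2] with x b1 b2
    rw [e]
    exact (abs_add_le _ _).trans (add_le_add b1 b2)
  · simp only [e, Pi.add_apply, add_mul]
    rw [integral_add (h.2.2.2.1.mul_integrable h.2.1 hg) (h'.2.2.2.1.mul_integrable h'.2.1 hg)]
    refine ((h.2.2.2.2.2 g hg).add (h'.2.2.2.2.2 g hg)).congr' ?_
    filter_upwards [h.de_int hg, h'.de_int hg] with k a1 a2 using (integral_add a1 a2).symm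

theorem DerL1.smul {u : ℝ → X → ℝ} {w : X → ℝ} {t : ℝ} (h : DerL1 μ u w t) {c : ℝ → ℝ} {c' : ℝ}
    (hc : HasDerivAt c c' t) : DerL1 μ (fun s => c s • u s) (c' • u t + c t • w) t :=
  de1.2 ((de1.1 h).smul le_rfl hc)

theorem DerL2.smul {u : ℝ → X → ℝ} {w : X → ℝ} {t : ℝ} (h : DerL2 μ u w t) {c : ℝ → ℝ} {c' : ℝ}
    (hc : HasDerivAt c c' t) : DerL2 μ (fun s => c s • u s) (c' • u t + c t • w) t :=
  de2.2 ((de2.1 h).smul one_le_two hc)

theorem DerW.smul {u : ℝ → X → ℝ} {w : X → ℝ} {t : ℝ} (h : DerW μ u w t) {c : ℝ → ℝ} {c' : ℝ}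
    (hc : HasDerivAt c c' t) : DerW μ (fun s => c s • u s) (c' • u t + c t • w) t := by
  obtain ⟨C, hC⟩ := h.2.2.2.2.1
  obtain ⟨B, hB⟩ := h.2.2.1
  have hu := h.1.self_of_nhds
  have h1 : Tendsto (fun k => c (t + k)) (𝓝[≠] 0) (𝓝 (c t)) :=
    hc.continuousAt.tendsto.comp (de_shift t)
  have h2 := de_slope hc
  have e : ∀ k x, DQ (fun s => c s • u s) t k x =
      (c (t + k) - c t) / k * u t x + c (t + k) * DQ u t k x := fun k x => by
    simp only [DQ, Pi.smul_apply, smul_eq_mul]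
    ring
  refine ⟨h.1.mono fun s hs => hs.const_smul _, (hu.const_smul _).add (h.2.1.const_smul _),
    h.2.2.1.smul _, (h.2.2.1.smul _).add (h.2.2.2.1.smul _),
    ⟨(|c'| + 1) * B + (|c t| + 1) * C, ?_⟩, fun g hg => ?_⟩
  · filter_upwards [hC, de_abs_bd h1, de_abs_bd h2] with k a1 a2 a3
    filter_upwards [a1, hB] with x b1 b2
    rw [e]
    refine (abs_add_le _ _).trans (add_le_add ?_ ?_)
    · rw [abs_mul]
      exact mul_le_mul a3 b2 (abs_nonneg _) (by positivity)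
    · rw [abs_mul]
      exact mul_le_mul a2 b1 (abs_nonneg _) (by positivity)
  · have i1 := h.2.2.1.mul_integrable hu hg
    simp only [e, Pi.add_apply, Pi.smul_apply, smul_eq_mul, add_mul, mul_assoc]
    rw [integral_add (i1.const_mul _) ((h.2.2.2.1.mul_integrable h.2.1 hg).const_mul _),
      integral_const_mul, integral_const_mul]
    refine ((h2.mul_const _).add (h1.mul (h.2.2.2.2.2 g hg))).congr' ?_
    filter_upwards [h.de_int hg] with k a1
    rw [integral_add (i1.const_mul _) (a1.const_mul _), integral_const_mul, integral_const_mul]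

theorem DerL1.affine {u : ℝ → X → ℝ} {w : X → ℝ} {t a b : ℝ} (ha : a ≠ 0)
    (h : DerL1 μ u w (a * t + b)) : DerL1 μ (fun s => u (a * s + b)) (a • w) t :=
  de1.2 ((de1.1 h).affine ha)

theorem DerL2.affine {u : ℝ → X → ℝ} {w : X → ℝ} {t a b : ℝ} (ha : a ≠ 0)
    (h : DerL2 μ u w (a * t + b)) : DerL2 μ (fun s => u (a * s + b)) (a • w) t :=
  de2.2 ((de2.1 h).affine ha)

theorem DerW.affine {u : ℝ → X → ℝ} {w : X → ℝ} {t a b : ℝ} (ha : a ≠ 0)
    (h : DerW μ u w (a * t + b)) : DerW μ (fun s => u (a * s + b)) (a • w) t := by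
  obtain ⟨h1, h2, h3, h4, ⟨C, h5⟩, h6⟩ := h
  refine ⟨(de_aff a b t).eventually h1, h2.const_smul _, h3, h4.smul _, ⟨|a| * C, ?_⟩,
    fun g hg => ?_⟩
  · filter_upwards [(de_scale ha).eventually h5] with k a1
    filter_upwards [a1] with x b1
    rw [de_DQ_aff u ha, Pi.smul_apply, smul_eq_mul, abs_mul]
    exact mul_le_mul_of_nonneg_left b1 (abs_nonneg _)
  · simp only [de_DQ_aff u ha, Pi.smul_apply, smul_eq_mul, mul_assoc, integral_const_mul]
    exact ((h6 g hg).comp (de_scale ha)).const_mul a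

theorem DerL1.rev {u : ℝ → X → ℝ} {w : X → ℝ} {t c : ℝ} (h : DerL1 μ u w (c - t)) :
    DerL1 μ (fun s => u (c - s)) (-w) t := by
  have e : ∀ s : ℝ, -1 * s + c = c - s := fun s => by ring
  have h1 := DerL1.affine (u := u) (w := w) (t := t) (a := -1) (b := c) (by norm_num) (by rwa [e])
  simpa only [e, neg_smul, one_smul] using h1

theorem DerL2.rev {u : ℝ → X → ℝ} {w : X → ℝ} {t c : ℝ} (h : DerL2 μ u w (c - t)) :
    DerL2 μ (fun s => u (c - s)) (-w) t := by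
  have e : ∀ s : ℝ, -1 * s + c = c - s := fun s => by ring
  have h1 := DerL2.affine (u := u) (w := w) (t := t) (a := -1) (b := c) (by norm_num) (by rwa [e])
  simpa only [e, neg_smul, one_smul] using h1

theorem DerW.rev {u : ℝ → X → ℝ} {w : X → ℝ} {t c : ℝ} (h : DerW μ u w (c - t)) :
    DerW μ (fun s => u (c - s)) (-w) t := by
  have e : ∀ s : ℝ, -1 * s + c = c - s := fun s => by ring
  have h1 := DerW.affine (u := u) (w := w) (t := t) (a := -1) (b := c) (by norm_num) (by rwa [e])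
  simpa only [e, neg_smul, one_smul] using h1

theorem derL1_const {f : X → ℝ} (hf : Integrable f μ) (t : ℝ) : DerL1 μ (fun _ => f) 0 t :=
  de1.2 (de_const (memLp_one_iff_integrable.2 hf) t)

theorem derL2_const {f : X → ℝ} (hf : MemLp f 2 μ) (t : ℝ) : DerL2 μ (fun _ => f) 0 t :=
  de2.2 (de_const hf t)

theorem derW_const {f : X → ℝ} (hm : AEStronglyMeasurable f μ) (hf : Bdd μ f) (t : ℝ) :
    DerW μ (fun _ => f) 0 t := by
  refine ⟨Eventually.of_forall fun _ => hm, aestronglyMeasurable_zero, hf, Bdd.const 0,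
    ⟨0, Eventually.of_forall fun k => ae_of_all _ fun x => by simp [DQ]⟩, fun g _ => ?_⟩
  simp [DQ]

theorem DerL1.cont {u : ℝ → X → ℝ} {w : X → ℝ} {t : ℝ} (h : DerL1 μ u w t) :
    Tendsto (fun s => ∫ x, |u s x - u t x| ∂μ) (𝓝 t) (𝓝 0) := by
  have h1 := (de1.1 h).cont le_rfl
  exact (de_one_iff h1.1).2 h1

theorem DerL2.cont {u : ℝ → X → ℝ} {w : X → ℝ} {t : ℝ} (h : DerL2 μ u w t) :
    Tendsto (fun s => n2 μ (u s - u t)) (𝓝 t) (𝓝 0) := by
  have h1 := (de2.1 h).cont one_le_two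
  exact (de_two_iff h1.1).2 h1

theorem DerW.cont {u : ℝ → X → ℝ} {w : X → ℝ} {t : ℝ} (h : DerW μ u w t) :
    ∃ C, ∀ᶠ s in 𝓝 t, ∀ᵐ x ∂μ, |u s x - u t x| ≤ C * |s - t| := by
  obtain ⟨C, hC⟩ := h.2.2.2.2.1
  exact ⟨C, de_cont hC⟩

theorem DerL1.hasDerivAt {u : ℝ → X → ℝ} {w : X → ℝ} {t : ℝ} (h : DerL1 μ u w t) :
    HasDerivAt (fun s => ∫ x, u s x ∂μ) (∫ x, w x ∂μ) t := by
  have h1 := (de1.1 h).2.2.integral.add_const (∫ x, w x ∂μ)
  rw [zero_add] at h1
  refine hasDerivAt_iff_tendsto_slope_zero.2 (h1.congr' ?_)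
  filter_upwards [(de_shift t).eventually h.1] with k hk
  have i1 : Integrable (fun x => u (t + k) x - u t x) μ := hk.sub h.1.self_of_nhds
  simp only [de_DQ_eq, Pi.sub_apply, Pi.smul_apply, smul_eq_mul]
  rw [integral_sub (i1.const_mul _) h.2.1, integral_const_mul, integral_sub hk h.1.self_of_nhds]
  ring

theorem DerL2.mul {u v : ℝ → X → ℝ} {w z : X → ℝ} {t : ℝ} (h : DerL2 μ u w t)
    (h' : DerL2 μ v z t) :
    DerL1 μ (fun s x => u s x * v s x) (fun x => w x * v t x + u t x * z x) t := by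
  have k := de2.1 h
  have k' := de2.1 h'
  have hu := k.1.self_of_nhds
  have hv := k'.1.self_of_nhds
  have a1 := (k'.cont' one_le_two).holder' k.2.2
  have a2 := (k'.cont' one_le_two).holder k.2.1
  have a3 := k.2.2.holder hv
  have a4 := k'.2.2.holder hu
  refine de1.2 ⟨?_, (hv.mul' k.2.1).add (k'.2.1.mul' hu),
    (((a1.add le_rfl a2).add le_rfl a3).add le_rfl a4).congr' (Eventually.of_forall fun h x => ?_)⟩
  · filter_upwards [k.1, k'.1] with s b1 b2 using b2.mul' b1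
  · simp only [DQ, Pi.sub_apply]
    ring

theorem DerW.hasDerivAt_mul {u v : ℝ → X → ℝ} {w z : X → ℝ} {t : ℝ} (h : DerW μ u w t)
    (h' : DerL1 μ v z t) : HasDerivAt (fun s => ∫ x, u s x * v s x ∂μ)
      (∫ x, w x * v t x ∂μ + ∫ x, u t x * z x ∂μ) t := by
  obtain ⟨C, hC⟩ := h.2.2.2.2.1
  obtain ⟨B, hB⟩ := h.2.2.1
  have k' := de1.1 h'
  have hu := h.1.self_of_nhds
  have hv := h'.1.self_of_nhds
  have a1 := (k'.cont' le_rfl).bdd_mul (de_DQ_meas h.1) hC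
  have a3 := k'.2.2.bdd_mul (g := fun _ => u t) (Eventually.of_forall fun _ => hu)
    (Eventually.of_forall fun _ => hB)
  have a4 := a1.add le_rfl a3
  have h1 := a4.integral.add ((h.2.2.2.2.2 _ hv).add_const (∫ x, u t x * z x ∂μ))
  rw [zero_add] at h1
  refine hasDerivAt_iff_tendsto_slope_zero.2 (h1.congr' ?_)
  filter_upwards [(de_shift t).eventually h.1, (de_shift t).eventually h.de_bdd,
    (de_shift t).eventually h'.1, a4.1, h.de_int hv] with k b1 b2 b3 b4 b5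
  have i1 := h.2.2.1.mul_integrable hu h'.2.1
  have i2 : Integrable (fun x => DQ u t k x * v t x + u t x * z x) μ := b5.add i1
  rw [← integral_sub (b2.mul_integrable b1 b3) (h.2.2.1.mul_integrable hu hv), smul_eq_mul,
    ← integral_const_mul, ← integral_add b5 i1,
    ← integral_add (memLp_one_iff_integrable.1 b4) i2]
  refine integral_congr_ae (ae_of_all _ fun x => ?_)
  simp only [DQ, Pi.sub_apply]
  ring

theorem DerL1.bdd_mul {u : ℝ → X → ℝ} {w ζ : X → ℝ} {t : ℝ} (h : DerL1 μ u w t)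
    (hm : AEStronglyMeasurable ζ μ) (hζ : Bdd μ ζ) :
    DerL1 μ (fun s x => ζ x * u s x) (fun x => ζ x * w x) t :=
  de1.2 ((de1.1 h).bdd_mul hm hζ)

theorem DerL2.bdd_mul {u : ℝ → X → ℝ} {w ζ : X → ℝ} {t : ℝ} (h : DerL2 μ u w t)
    (hm : AEStronglyMeasurable ζ μ) (hζ : Bdd μ ζ) :
    DerL2 μ (fun s x => ζ x * u s x) (fun x => ζ x * w x) t :=
  de2.2 ((de2.1 h).bdd_mul hm hζ)

theorem DerW.bdd_mul {u : ℝ → X → ℝ} {w ζ : X → ℝ} {t : ℝ} (h : DerW μ u w t)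
    (hm : AEStronglyMeasurable ζ μ) (hζ : Bdd μ ζ) :
    DerW μ (fun s x => ζ x * u s x) (fun x => ζ x * w x) t := by
  obtain ⟨h1, h2, h3, h4, ⟨C, h5⟩, h6⟩ := h
  have e : ∀ k x, DQ (fun s x => ζ x * u s x) t k x = ζ x * DQ u t k x := fun k x => by
    simp only [DQ]
    ring
  refine ⟨h1.mono fun s hs => hm.mul hs, hm.mul h2, hζ.mul h3, hζ.mul h4, ?_, fun g hg => ?_⟩
  · obtain ⟨B, hB0, hB⟩ := hζ.nonneg
    refine ⟨B * C, ?_⟩
    filter_upwards [h5] with k a1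
    filter_upwards [a1, hB] with x b1 b2
    rw [e, abs_mul]
    exact mul_le_mul b2 b1 (abs_nonneg _) hB0.le
  · have h7 := h6 _ (hζ.mul_integrable hm hg)
    simp only [e]
    simpa only [mul_assoc, mul_left_comm] using h7

theorem DerL2.mul_memLp {u : ℝ → X → ℝ} {w g : X → ℝ} {t : ℝ} (h : DerL2 μ u w t)
    (hg : MemLp g 2 μ) : DerL1 μ (fun s x => g x * u s x) (fun x => g x * w x) t := by
  have h1 := (derL2_const hg t).mul h
  simpa using h1

/-- Chain rule with a Lipschitz function of class `C¹`. -/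
theorem DerL1.chain {u : ℝ → X → ℝ} {w : X → ℝ} {t : ℝ} (h : DerL1 μ u w t) {Φ Φ' : ℝ → ℝ}
    {L : NNReal} (hΦ : LipschitzWith L Φ) (h0 : Φ 0 = 0) (hd : ∀ a, HasDerivAt Φ (Φ' a) a)
    (hc : Continuous Φ') : DerL1 μ (fun s x => Φ (u s x)) (fun x => Φ' (u t x) * w x) t :=
  de1.2 ((de1.1 h).chain le_rfl ENNReal.one_ne_top hΦ h0 hd hc)

theorem DerL2.chain {u : ℝ → X → ℝ} {w : X → ℝ} {t : ℝ} (h : DerL2 μ u w t) {Φ Φ' : ℝ → ℝ}
    {L : NNReal} (hΦ : LipschitzWith L Φ) (h0 : Φ 0 = 0) (hd : ∀ a, HasDerivAt Φ (Φ' a) a)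
    (hc : Continuous Φ') : DerL2 μ (fun s x => Φ (u s x)) (fun x => Φ' (u t x) * w x) t :=
  de2.2 ((de2.1 h).chain one_le_two ENNReal.ofNat_ne_top hΦ h0 hd hc)

/-- Bounded difference quotients and a derivative in `L²` give a weak-star derivative. -/
theorem DerL2.derW [SigmaFinite μ] {u : ℝ → X → ℝ} {w : X → ℝ} {t : ℝ} (h : DerL2 μ u w t)
    (hb : Bdd μ (u t)) (hC : ∃ C : ℝ, ∀ᶠ h in 𝓝[≠] (0 : ℝ), ∀ᵐ x ∂μ, |DQ u t h x| ≤ C) :
    DerW μ u w t := by
  obtain ⟨C, hC⟩ := hC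
  have k := de2.1 h
  have hw : ∀ᵐ x ∂μ, |w x| ≤ C := by
    obtain ⟨ns, h1, h2⟩ := exists_seq_forall_of_frequently hC.frequently
    obtain ⟨φ, -, h3⟩ := (k.2.2.comp h1).subseq one_le_two
    filter_upwards [h3, ae_all_iff.2 h2] with x a1 a2
    exact le_of_tendsto' (tendsto_sub_nhds_zero_iff.1 a1).abs fun n => a2 _
  refine ⟨h.1.mono fun s hs => hs.1, h.2.1.1, hb, ⟨C, hw⟩, ⟨C, hC⟩, fun g hg => ?_⟩
  have a2 := k.2.2.mul_mem one_le_two le_rfl ENNReal.one_ne_top (C := C + C) (by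
    filter_upwards [hC] with k hk
    filter_upwards [hk, hw] with x b1 b2
    exact (abs_sub _ _).trans (add_le_add b1 b2)) (memLp_one_iff_integrable.2 hg)
  have h1 := a2.integral.add_const (∫ x, w x * g x ∂μ)
  rw [zero_add] at h1
  refine h1.congr' ?_
  filter_upwards [a2.1] with k hk
  rw [← integral_add (memLp_one_iff_integrable.1 hk) (Bdd.mul_integrable ⟨C, hw⟩ h.2.1.1 hg)]
  refine integral_congr_ae (ae_of_all _ fun x => ?_)
  simp only [Pi.sub_apply]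
  ring

/-- Pointwise derivatives with bounded difference quotients. -/
theorem derW_of_pt {u : ℝ → X → ℝ} {w : X → ℝ} {t : ℝ}
    (hm : ∀ᶠ s in 𝓝 t, AEStronglyMeasurable (u s) μ) (hb : Bdd μ (u t))
    (hd : ∀ᵐ x ∂μ, HasDerivAt (fun s => u s x) (w x) t)
    (hC : ∃ C : ℝ, ∀ᶠ h in 𝓝[≠] (0 : ℝ), ∀ᵐ x ∂μ, |DQ u t h x| ≤ C) : DerW μ u w t := by
  obtain ⟨C, hC⟩ := hC
  obtain ⟨h1, h2⟩ := de_lim hm hd (b := fun _ => C) hC
  refine ⟨hm, h1, hb, ⟨C, h2⟩, ⟨C, hC⟩, fun g hg => ?_⟩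
  refine tendsto_integral_filter_of_dominated_convergence (fun x => C * ‖g x‖)
    ((de_DQ_meas hm).mono fun k hk => hk.mul hg.1) ?_ (hg.norm.const_mul C)
    (hd.mono fun x hx => (de_slope hx).mul_const _)
  filter_upwards [hC] with k hk
  filter_upwards [hk] with x hx
  rw [norm_mul]
  exact mul_le_mul_of_nonneg_right hx (norm_nonneg _)

/-- Pointwise derivatives with dominated difference quotients. -/
theorem derL1_of_pt {u : ℝ → X → ℝ} {w b : X → ℝ} {t : ℝ} (hm : ∀ᶠ s in 𝓝 t, Integrable (u s) μ)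
    (hd : ∀ᵐ x ∂μ, HasDerivAt (fun s => u s x) (w x) t) (hb : Integrable b μ)
    (hC : ∀ᶠ h in 𝓝[≠] (0 : ℝ), ∀ᵐ x ∂μ, |DQ u t h x| ≤ b x) : DerL1 μ u w t := by
  have hm' : ∀ᶠ s in 𝓝 t, AEStronglyMeasurable (u s) μ := hm.mono fun s hs => hs.1
  obtain ⟨h1, h2⟩ := de_lim hm' hd hC
  refine de1.2 ⟨hm.mono fun s hs => memLp_one_iff_integrable.2 hs,
    memLp_one_iff_integrable.2 (hb.mono' h1 h2),
    deSm_dom le_rfl ENNReal.one_ne_top ((de_DQ_meas hm').mono fun k hk => hk.sub h1)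
      (memLp_one_iff_integrable.2 (hb.add hb)) ?_
      (hd.mono fun x hx => tendsto_sub_nhds_zero_iff.2 (de_slope hx))⟩
  filter_upwards [hC] with k hk
  filter_upwards [hk, h2] with x b1 b2
  exact ((abs_sub _ _).trans (add_le_add b1 b2)).trans (le_abs_self _)

/-- Product of a bounded curve and a curve in `L²` or `L¹`, when the bounded curve is also
differentiable in `L²`. -/
theorem DerW.mul_L1 [SigmaFinite μ] {u v : ℝ → X → ℝ} {w z : X → ℝ} {t : ℝ} (h : DerW μ u w t)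
    (h2 : DerL2 μ u w t) (h' : DerL1 μ v z t) :
    DerL1 μ (fun s x => u s x * v s x) (fun x => w x * v t x + u t x * z x) t :=
  de1.2 (h.de_mul le_rfl ENNReal.one_ne_top h2 (de1.1 h'))

theorem DerW.mul_L2 [SigmaFinite μ] {u v : ℝ → X → ℝ} {w z : X → ℝ} {t : ℝ} (h : DerW μ u w t)
    (h2 : DerL2 μ u w t) (h' : DerL2 μ v z t) :
    DerL2 μ (fun s x => u s x * v s x) (fun x => w x * v t x + u t x * z x) t :=
  de2.2 (h.de_mul one_le_two ENNReal.ofNat_ne_top h2 (de2.1 h'))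

/-- A continuous function with a lower bound on the derivative in the open interval. -/
theorem sub_ge_of_deriv {A B A' B' : ℝ → ℝ} {a b : ℝ} (hab : a ≤ b) (hA : ContinuousOn A (Icc a b))
    (hB : ContinuousOn B (Icc a b)) (dA : ∀ s ∈ Ioo a b, HasDerivAt A (A' s) s)
    (dB : ∀ s ∈ Ioo a b, HasDerivAt B (B' s) s) (h : ∀ s ∈ Ioo a b, B' s ≤ A' s) :
    B b - B a ≤ A b - A a := by
  have hd : ∀ s ∈ Ioo a b, HasDerivAt (fun s => A s - B s) (A' s - B' s) s :=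
    fun s hs => (dA s hs).sub (dB s hs)
  have h1 : MonotoneOn (fun s => A s - B s) (Icc a b) :=
    monotoneOn_of_hasDerivWithinAt_nonneg (convex_Icc a b) (hA.sub hB)
      (fun s hs => (hd s (by rwa [interior_Icc] at hs)).hasDerivWithinAt)
      (fun s hs => sub_nonneg.2 (h s (by rwa [interior_Icc] at hs)))
  have h2 := h1 (left_mem_Icc.2 hab) (right_mem_Icc.2 hab) hab
  simp only at h2
  linarith

/-- The same with one-sided limits at the end points. -/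
theorem sub_ge_of_deriv' {A B A' B' : ℝ → ℝ} {a b Aa Ab Ba Bb : ℝ} (hab : a < b)
    (h1 : Tendsto A (𝓝[>] a) (𝓝 Aa)) (h2 : Tendsto A (𝓝[<] b) (𝓝 Ab))
    (h3 : Tendsto B (𝓝[>] a) (𝓝 Ba)) (h4 : Tendsto B (𝓝[<] b) (𝓝 Bb))
    (dA : ∀ s ∈ Ioo a b, HasDerivAt A (A' s) s) (dB : ∀ s ∈ Ioo a b, HasDerivAt B (B' s) s)
    (h : ∀ s ∈ Ioo a b, B' s ≤ A' s) : Bb - Ba ≤ Ab - Aa := by
  have k : ∀ c ∈ Ioo a b, ∀ d ∈ Ioo a b, c ≤ d → B d - B c ≤ A d - A c := fun c hc d hd hcd => by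
    have s1 : Icc c d ⊆ Ioo a b := Icc_subset_Ioo hc.1 hd.2
    have s2 : Ioo c d ⊆ Ioo a b := Ioo_subset_Icc_self.trans s1
    exact sub_ge_of_deriv hcd (fun s hs => (dA s (s1 hs)).continuousAt.continuousWithinAt)
      (fun s hs => (dB s (s1 hs)).continuousAt.continuousWithinAt) (fun s hs => dA s (s2 hs))
      (fun s hs => dB s (s2 hs)) fun s hs => h s (s2 hs)
  have k1 : ∀ d ∈ Ioo a b, B d - Ba ≤ A d - Aa := fun d hd => by
    refine le_of_tendsto_of_tendsto (h3.const_sub _) (h1.const_sub _) ?_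
    filter_upwards [Ioo_mem_nhdsGT hd.1] with c hc using k c ⟨hc.1, hc.2.trans hd.2⟩ d hd hc.2.le
  refine le_of_tendsto_of_tendsto (h4.sub_const _) (h2.sub_const _) ?_
  filter_upwards [Ioo_mem_nhdsLT hab] with d hd using k1 d hd

end RC
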