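import Pool.Agent.P.MP_6472e5_gt.HpA
import Pool.Agent.P.MP_6472e5_gt.De

/-! Consequences of the heat kernel package: the flow given by the kernel. -/

set_option autoImplicit false
set_option linter.unusedSectionVars false

noncomputable section

namespace RC

open MeasureTheory Set Filter Topology Metric

variable {X : Type} [MetricSpace X] [ProperSpace X] [MeasurableSpace X] [BorelSpace X]
  {μ : Measure X} {D : DS μ} {κ : ℝ} {n : ℕ}

/-- Fubini for a kernel with uniformly bounded `L¹` norms. -/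
theorem hpb_fub {Y : Type} [MeasurableSpace Y] {ν : Measure Y} [SFinite ν] [SFinite μ]
    {k : Y → X → ℝ} (hk : AEStronglyMeasurable (fun q : Y × X => k q.1 q.2) (ν.prod μ)) {C : ℝ}
    (hi : ∀ᵐ z ∂ν, Integrable (k z) μ ∧ ∫ y, |k z y| ∂μ ≤ C) {g : Y → ℝ} (hg : Integrable g ν)
    {f : X → ℝ} (hm : AEStronglyMeasurable f μ) (hf : Bdd μ f) :
    Integrable (fun z => g z * ∫ y, k z y * f y ∂μ) ν ∧
    ∫ z, g z * ∫ y, k z y * f y ∂μ ∂ν = ∫ y, (∫ z, g z * k z y ∂ν) * f y ∂μ := by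
  obtain ⟨M, hM0, hM⟩ := hf.nonneg
  have hme : AEStronglyMeasurable (fun q : Y × X => g q.1 * (k q.1 q.2 * f q.2)) (ν.prod μ) :=
    hg.1.comp_fst.mul (hk.mul hm.comp_snd)
  have hkf : ∀ z, Integrable (k z) μ → Integrable (fun y => k z y * f y) μ := fun z hz =>
    (hf.mul_integrable hm hz).congr (ae_of_all _ fun y => mul_comm _ _)
  have hI : Integrable (fun q : Y × X => g q.1 * (k q.1 q.2 * f q.2)) (ν.prod μ) := by
    rw [integrable_prod_iff hme]
    refine ⟨hi.mono fun z hz => (hkf z hz.1).const_mul (g z), ?_⟩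
    refine Integrable.mono' (hg.norm.mul_const (C * M)) hme.norm.integral_prod_right' ?_
    filter_upwards [hi] with z hz
    rw [Real.norm_of_nonneg (integral_nonneg fun y => norm_nonneg _)]
    calc ∫ y, ‖g z * (k z y * f y)‖ ∂μ ≤ ∫ y, ‖g z‖ * (|k z y| * M) ∂μ := by
          refine integral_mono_ae ((hkf z hz.1).const_mul _).norm
            ((hz.1.abs.mul_const M).const_mul _) ?_
          filter_upwards [hM] with y hy
          rw [norm_mul, Real.norm_eq_abs (k z y * f y), abs_mul]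
          gcongr
      _ = ‖g z‖ * ((∫ y, |k z y| ∂μ) * M) := by rw [integral_const_mul, integral_mul_const]
      _ ≤ ‖g z‖ * (C * M) := by gcongr; exact hz.2
  have e : (fun z => g z * ∫ y, k z y * f y ∂μ) = fun z => ∫ y, g z * (k z y * f y) ∂μ :=
    funext fun z => (integral_const_mul _ _).symm
  refine ⟨by rw [e]; exact hI.integral_prod_left, ?_⟩
  rw [e, integral_integral_swap (f := fun z y => g z * (k z y * f y)) hI]
  refine integral_congr_ae (ae_of_all _ fun y => ?_)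
  show ∫ z, g z * (k z y * f y) ∂ν = (∫ z, g z * k z y ∂ν) * f y
  rw [← integral_mul_const]
  exact integral_congr_ae (ae_of_all _ fun z => (mul_assoc _ _ _).symm)

theorem hpb_ker_cont {p : ℝ → X → X → ℝ}
    (hp : ContinuousOn (fun a : ℝ × X × X => p a.1 a.2.1 a.2.2) (Ioi 0 ×ˢ univ)) {t : ℝ}
    (ht : 0 < t) : Continuous (fun a : X × X => p t a.1 a.2) :=
  hp.comp_continuous (f := fun a : X × X => (t, a)) (by fun_prop) fun a => ⟨ht, mem_univ _⟩

theorem hpb_ker_cont' {p : ℝ → X → X → ℝ}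
    (hp : ContinuousOn (fun a : ℝ × X × X => p a.1 a.2.1 a.2.2) (Ioi 0 ×ˢ univ)) {t : ℝ}
    (ht : 0 < t) (x : X) : Continuous (p t x) :=
  (hpb_ker_cont hp ht).comp (f := fun y : X => (x, y)) (by fun_prop)

theorem hpb_test_cont (D : DS μ) {k : X → X → ℝ} (hk : Continuous (fun a : X × X => k a.1 a.2))
    {φ : X → ℝ} (hφ : LipB φ) : Continuous (fun x => ∫ y, k x y * φ y ∂μ) := by
  have := D.locFin
  rcases isEmpty_or_nonempty X with hX | ⟨⟨x₀⟩⟩
  · exact continuous_of_discreteTopology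
  obtain ⟨R, -, hR⟩ := hφ.exists_ball x₀
  have e : (fun x => ∫ y, k x y * φ y ∂μ) = fun x => ∫ y in closedBall x₀ R, k x y * φ y ∂μ := by
    funext x
    refine (setIntegral_eq_integral_of_forall_compl_eq_zero fun y hy => ?_).symm
    rw [hR y fun hb => hy (ball_subset_closedBall hb), mul_zero]
  rw [e]
  exact continuous_parametric_integral_of_continuous (f := fun x y => k x y * φ y)
    (hk.mul (hφ.continuous.comp continuous_snd)) (isCompact_closedBall x₀ R)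

theorem hpb_exp {C ρ : ℝ} (hC : 0 < C) (hρ : 0 < ρ) :
    Tendsto (fun t : ℝ => Real.exp (-(ρ ^ 2 / (C * t)))) (𝓝[>] 0) (𝓝 0) := by
  refine Real.tendsto_exp_atBot.comp (tendsto_neg_atTop_atBot.comp ?_)
  have h1 : Tendsto (fun t : ℝ => ρ ^ 2 / C * t⁻¹) (𝓝[>] 0) atTop :=
    tendsto_inv_nhdsGT_zero.const_mul_atTop (by positivity)
  refine h1.congr fun t => ?_
  rw [div_mul_eq_div_div, div_eq_mul_inv (ρ ^ 2 / C)]

namespace HP

variable (h : HP D κ n)
include h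

theorem hpb_abs_p {t : ℝ} (ht : 0 < t) (x : X) : ∫ y, |D.p t x y| ∂μ ≤ 1 := by
  rw [← h.p_one t x ht]
  exact (integral_congr_ae (ae_of_all _ fun y => abs_of_pos (h.p_pos t x y ht))).le

theorem hpb_abs_dp {t : ℝ} (ht : 0 < t) (x : X) :
    ∫ y, |D.dp t x y| ∂μ ≤ √n * Real.exp (κ * t) / t := by
  have hc := hpb_ker_cont' h.dp_cont ht x
  have hm : Measurable fun y => if 0 ≤ D.dp t x y then (1 : ℝ) else -1 :=
    Measurable.ite (measurableSet_le measurable_const hc.measurable) measurable_const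
      measurable_const
  have h1 := (h.pk_bdd _ t 1 hm.aestronglyMeasurable
    (ae_of_all _ fun y => by split_ifs <;> simp) ht).2.2.2.2 x
  rw [mul_one] at h1
  refine le_trans (le_of_eq ?_) ((le_abs_self _).trans h1)
  refine integral_congr_ae (ae_of_all _ fun y => ?_)
  show |D.dp t x y| = D.dp t x y * if 0 ≤ D.dp t x y then (1 : ℝ) else -1
  split_ifs with hy
  · rw [mul_one, abs_of_nonneg hy]
  · rw [mul_neg_one, abs_of_neg (not_le.1 hy)]

theorem hpb_fub_p {t : ℝ} (ht : 0 < t) {g : X → ℝ} (hg : Integrable g μ) {f : X → ℝ}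
    (hm : AEStronglyMeasurable f μ) (hf : Bdd μ f) :
    ∫ z, g z * D.Pk t f z ∂μ = ∫ y, (∫ z, g z * D.p t z y ∂μ) * f y ∂μ := by
  have := D.sfin
  exact (hpb_fub (k := D.p t) (h.p_cont ht).aestronglyMeasurable
    (ae_of_all _ fun z => ⟨h.p_int t z ht, h.hpb_abs_p ht z⟩) hg hm hf).2

theorem hpb_fub_dp {t : ℝ} (ht : 0 < t) {g : X → ℝ} (hg : Integrable g μ) {f : X → ℝ}
    (hm : AEStronglyMeasurable f μ) (hf : Bdd μ f) :
    ∫ z, g z * D.Lk t f z ∂μ = ∫ y, (∫ z, g z * D.dp t z y ∂μ) * f y ∂μ := by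
  have := D.sfin
  exact (hpb_fub (k := D.dp t) (hpb_ker_cont h.dp_cont ht).aestronglyMeasurable
    (ae_of_all _ fun z => ⟨h.dp_int t z ht, h.hpb_abs_dp ht z⟩) hg hm hf).2

theorem hpb_int {f : X → ℝ} (hm : AEStronglyMeasurable f μ) (hf : Bdd μ f) {t : ℝ} (ht : 0 < t)
    (x : X) : Integrable (fun y => D.p t x y * f y) μ :=
  (hf.mul_integrable hm (h.p_int t x ht)).congr (ae_of_all _ fun _ => mul_comm _ _)

theorem hpb_cont {f : X → ℝ} (hm : AEStronglyMeasurable f μ) (hf : Bdd μ f) {t : ℝ} (ht : 0 < t) :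
    Continuous (D.Pk t f) := by
  obtain ⟨M, hM⟩ := hf
  exact (LipschitzWith.of_dist_le' fun x y => by
    rw [Real.dist_eq]; exact (h.pk_bdd f t M hm hM ht).2.1 x y).continuous

theorem hpb_exp_le {a b s : ℝ} (ha : 0 < a) (hs : a ≤ s) (hb : s ≤ b) :
    √n * Real.exp (κ * s) / s ≤ √n * Real.exp (κ * b) / a := by
  have := h.κ_nonneg
  gcongr

theorem hpb_ftc {f : X → ℝ} (hm : AEStronglyMeasurable f μ) (hf : Bdd μ f) (x : X) {a b : ℝ}
    (ha : 0 < a) (hab : a ≤ b) : IntervalIntegrable (fun s => D.Lk s f x) volume a b ∧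
      ∫ s in a..b, D.Lk s f x = D.Pk b f x - D.Pk a f x := by
  have := D.sfin
  have hk : AEStronglyMeasurable (fun q : ℝ × X => D.dp q.1 x q.2)
      ((volume.restrict (Ioc a b)).prod μ) := by
    rw [Measure.restrict_prod_eq_prod_univ]
    refine ContinuousOn.aestronglyMeasurable ?_ (measurableSet_Ioc.prod MeasurableSet.univ)
    exact h.dp_cont.comp (f := fun q : ℝ × X => (q.1, x, q.2)) (by fun_prop)
      fun q hq => ⟨ha.trans hq.1.1, mem_univ _⟩
  have hi : ∀ᵐ s ∂(volume.restrict (Ioc a b)), Integrable (D.dp s x) μ ∧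
      ∫ y, |D.dp s x y| ∂μ ≤ √n * Real.exp (κ * b) / a := by
    filter_upwards [ae_restrict_mem measurableSet_Ioc] with s hs
    exact ⟨h.dp_int s x (ha.trans hs.1),
      (h.hpb_abs_dp (ha.trans hs.1) x).trans (h.hpb_exp_le ha hs.1.le hs.2)⟩
  have hg : Integrable (fun _ : ℝ => (1 : ℝ)) (volume.restrict (Ioc a b)) := integrable_const _
  obtain ⟨h1, h2⟩ := hpb_fub (k := fun s y => D.dp s x y) hk hi hg hm hf
  simp only [one_mul] at h1 h2
  refine ⟨(intervalIntegrable_iff_integrableOn_Ioc_of_le hab).2 h1, ?_⟩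
  rw [intervalIntegral.integral_of_le hab]
  refine h2.trans ?_
  rw [DS.Pk, DS.Pk, ← integral_sub (h.hpb_int hm hf (ha.trans_le hab) x) (h.hpb_int hm hf ha x)]
  refine integral_congr_ae (ae_of_all _ fun y => ?_)
  show (∫ s in Ioc a b, D.dp s x y) * f y = D.p b x y * f y - D.p a x y * f y
  rw [← sub_mul, ← intervalIntegral.integral_of_le hab]
  congr 1
  refine intervalIntegral.integral_eq_sub_of_hasDerivAt (f := fun s => D.p s x y) ?_ ?_
  · intro s hs
    rw [uIcc_of_le hab] at hs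
    exact h.der s x y (ha.trans_le hs.1)
  · refine ContinuousOn.intervalIntegrable ?_
    rw [uIcc_of_le hab]
    exact h.dp_cont.comp (f := fun s : ℝ => (s, x, y)) (by fun_prop)
      fun s hs => ⟨ha.trans_le hs.1, mem_univ _⟩

theorem hpb_lip {f : X → ℝ} {M : ℝ} (hm : AEStronglyMeasurable f μ) (hM : ∀ᵐ y ∂μ, |f y| ≤ M)
    (x : X) {c d a b : ℝ} (hc : 0 < c) (ha : a ∈ Icc c d) (hb : b ∈ Icc c d) :
    |D.Pk b f x - D.Pk a f x| ≤ √n * Real.exp (κ * d) / c * M * |b - a| := by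
  wlog hab : a ≤ b generalizing a b
  · rw [abs_sub_comm, abs_sub_comm b]
    exact this hb ha (not_le.1 hab).le
  have ha0 : 0 < a := hc.trans_le ha.1
  have hM0 : 0 ≤ M := (abs_nonneg _).trans ((h.pk_bdd f c M hm hM hc).1 x)
  rw [← (h.hpb_ftc hm ⟨M, hM⟩ x ha0 hab).2, ← Real.norm_eq_abs]
  refine intervalIntegral.norm_integral_le_of_norm_le_const fun s hs => ?_
  rw [uIoc_of_le hab] at hs
  have h1 := (h.pk_bdd f s M hm hM (ha0.trans hs.1)).2.2.2.2 x
  rw [mul_div_right_comm] at h1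
  exact h1.trans (mul_le_mul_of_nonneg_right
    (h.hpb_exp_le hc (ha.1.trans hs.1.le) (hs.2.trans hb.2)) hM0)

theorem hpb_cont_time {f : X → ℝ} (hm : AEStronglyMeasurable f μ) (hf : Bdd μ f) (x : X) {t : ℝ}
    (ht : 0 < t) : ContinuousAt (fun s => D.Pk s f x) t := by
  obtain ⟨M, hM⟩ := hf
  have hI : Icc (t / 2) (2 * t) ∈ 𝓝 t := Icc_mem_nhds (by linarith) (by linarith)
  refine ContinuousOn.continuousAt ?_ hI
  exact (LipschitzOnWith.of_dist_le' (K := √n * Real.exp (κ * (2 * t)) / (t / 2) * M)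
    fun a ha b hb => by
      rw [Real.dist_eq, Real.dist_eq]
      exact h.hpb_lip hm hM x (half_pos ht) hb ha).continuousOn

theorem hpb_semi {f : X → ℝ} (hm : AEStronglyMeasurable f μ) (hf : Bdd μ f) {s t : ℝ} (hs : 0 < s)
    (ht : 0 < t) (x : X) : D.Lk (s + t) f x = D.Lk s (D.Pk t f) x := by
  rw [DS.Lk, DS.Lk, h.hpb_fub_p ht (h.dp_int s x hs) hm hf]
  exact integral_congr_ae (ae_of_all _ fun y => by simp only [h.dck s t x y hs ht])

theorem hpb_lk_time {f : X → ℝ} (hm : AEStronglyMeasurable f μ) (hf : Bdd μ f) (x : X) {t : ℝ}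
    (ht : 0 < t) : ContinuousAt (fun s => D.Lk s f x) t := by
  obtain ⟨M, hM⟩ := id hf
  have ht2 := half_pos ht
  have hev : ∀ᶠ s in 𝓝 t, 0 < s - t / 2 :=
    (lt_mem_nhds (show t / 2 < t by linarith)).mono fun s hs => sub_pos.2 hs
  have h1 : ContinuousAt (fun s => ∫ z, D.dp (t / 2) x z * D.Pk (s - t / 2) f z ∂μ) t := by
    refine continuousAt_of_dominated (bound := fun z => |D.dp (t / 2) x z| * M) ?_ ?_
      ((h.dp_int _ x ht2).abs.mul_const M) (ae_of_all _ fun z => ?_)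
    · exact hev.mono fun s hs =>
        (h.dp_int _ x ht2).1.mul (h.hpb_cont hm hf hs).aestronglyMeasurable
    · refine hev.mono fun s hs => ae_of_all _ fun z => ?_
      rw [Real.norm_eq_abs, abs_mul]
      exact mul_le_mul_of_nonneg_left ((h.pk_bdd f _ M hm hM hs).1 z) (abs_nonneg _)
    · refine continuousAt_const.mul ?_
      exact ContinuousAt.comp (g := fun s => D.Pk s f z) (f := fun s => s - t / 2)
        (h.hpb_cont_time hm hf z (by linarith)) (by fun_prop)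
  refine h1.congr (hev.mono fun s hs => ?_)
  have := h.hpb_semi hm hf ht2 hs x
  rw [add_sub_cancel] at this
  exact this.symm

theorem hpb_der {f : X → ℝ} (hm : AEStronglyMeasurable f μ) (hf : Bdd μ f) {t : ℝ}
    (ht : 0 < t) (x : X) : HasDerivAt (fun s => D.Pk s f x) (D.Lk t f x) t := by
  have ht2 := half_pos ht
  have hc : ContinuousOn (fun s => D.Lk s f x) (Ioi 0) := fun s hs =>
    (h.hpb_lk_time hm hf x hs).continuousWithinAt
  have h1 := intervalIntegral.integral_hasDerivAt_right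
    (h.hpb_ftc hm hf x ht2 (half_le_self ht.le)).1
    (hc.stronglyMeasurableAtFilter isOpen_Ioi t ht) (h.hpb_lk_time hm hf x ht)
  refine (h1.add_const (D.Pk (t / 2) f x)).congr_of_eventuallyEq ?_
  filter_upwards [lt_mem_nhds (show t / 2 < t by linarith)] with s hs
  rw [(h.hpb_ftc hm hf x ht2 hs.le).2, sub_add_cancel]

theorem hpb_const (c : ℝ) {t : ℝ} (ht : 0 < t) (x : X) : D.Pk t (fun _ => c) x = c := by
  rw [DS.Pk, integral_mul_const, h.p_one t x ht, one_mul]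

theorem hpb_split {f : X → ℝ} (hm : AEStronglyMeasurable f μ) {M ε ρ t : ℝ} {x : X}
    (hM : ∀ᵐ y ∂μ, |f y| ≤ M) (hε : 0 ≤ ε) (h0 : ∀ᵐ y ∂μ, y ∈ ball x ρ → |f y| ≤ ε) (ht : 0 < t) :
    |D.Pk t f x| ≤ ε + M * ∫ y in (ball x ρ)ᶜ, D.p t x y ∂μ := by
  have hp := h.p_int t x ht
  have hi : Integrable ((ball x ρ)ᶜ.indicator (D.p t x)) μ :=
    hp.indicator measurableSet_ball.compl
  rw [← integral_indicator measurableSet_ball.compl, DS.Pk]
  calc |∫ y, D.p t x y * f y ∂μ| ≤ ∫ y, |D.p t x y * f y| ∂μ := abs_integral_le_integral_abs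
    _ ≤ ∫ y, (ε * D.p t x y + M * (ball x ρ)ᶜ.indicator (D.p t x) y) ∂μ := by
      refine integral_mono_ae (h.hpb_int hm ⟨M, hM⟩ ht x).abs
        ((hp.const_mul ε).add (hi.const_mul M)) ?_
      filter_upwards [hM, h0] with y h1 h2
      have hpos := h.p_pos t x y ht
      rw [abs_mul, abs_of_pos hpos]
      by_cases hy : y ∈ ball x ρ
      · rw [indicator_of_notMem (notMem_compl_iff.2 hy)]
        nlinarith [h2 hy]
      · rw [indicator_of_mem (mem_compl hy)]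
        nlinarith
    _ = _ := by
      rw [integral_add (hp.const_mul ε) (hi.const_mul M), integral_const_mul, integral_const_mul,
        h.p_one t x ht, mul_one]

theorem pk_int {f : X → ℝ} (hm : AEStronglyMeasurable f μ) (hf : Bdd μ f) {t : ℝ} (ht : 0 < t)
    (x : X) : Integrable (fun y => D.p t x y * f y) μ ∧
      Integrable (fun y => D.dp t x y * f y) μ :=
  ⟨h.hpb_int hm hf ht x,
    (hf.mul_integrable hm (h.dp_int t x ht)).congr (ae_of_all _ fun _ => mul_comm _ _)⟩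

theorem pk_int' {f : X → ℝ} (hf : Integrable f μ) {t : ℝ} (ht : 0 < t) (x : X) :
    Integrable (fun y => D.p t x y * f y) μ ∧ Integrable (fun y => D.dp t x y * f y) μ :=
  ⟨(h.p_tb t x ht).bdd.mul_integrable (h.p_int t x ht).1 hf,
    (h.p_tb t x ht).bddL.mul_integrable (h.dp_int t x ht).1 hf⟩

theorem P_rep {f : X → ℝ} (hf : MemLp f 2 μ) {t : ℝ} (ht : 0 < t) : D.P t f =ᵐ[μ] D.Pk t f :=
  h.ker.2.2 f t hf ht

theorem pk_congr {f g : X → ℝ} (hfg : f =ᵐ[μ] g) (t : ℝ) :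
    D.Pk t f = D.Pk t g ∧ D.Lk t f = D.Lk t g :=
  ⟨funext fun x => integral_congr_ae (hfg.mono fun y hy => by simp only [hy]),
    funext fun x => integral_congr_ae (hfg.mono fun y hy => by simp only [hy])⟩

theorem pk_const (c : ℝ) {t : ℝ} (ht : 0 < t) (x : X) :
    D.Pk t (fun _ => c) x = c ∧ D.Lk t (fun _ => c) x = 0 := by
  refine ⟨h.hpb_const c ht x, ?_⟩
  refine (h.hpb_der aestronglyMeasurable_const (Bdd.const c) ht x).unique ?_
  refine (hasDerivAt_const t c).congr_of_eventuallyEq ?_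
  filter_upwards [lt_mem_nhds ht] with s hs using h.hpb_const c hs x

theorem pk_nonneg {f : X → ℝ} (hf : ∀ᵐ y ∂μ, 0 ≤ f y) {t : ℝ} (ht : 0 < t) (x : X) :
    0 ≤ D.Pk t f x :=
  integral_nonneg_of_ae (hf.mono fun y hy => mul_nonneg (h.p_pos t x y ht).le hy)

theorem pk_mono {f g : X → ℝ} {t : ℝ} (ht : 0 < t) {x : X}
    (hf : Integrable (fun y => D.p t x y * f y) μ) (hg : Integrable (fun y => D.p t x y * g y) μ)
    (hle : ∀ᵐ y ∂μ, f y ≤ g y) : D.Pk t f x ≤ D.Pk t g x :=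
  integral_mono_ae hf hg (hle.mono fun y hy =>
    mul_le_mul_of_nonneg_left hy (h.p_pos t x y ht).le)

theorem pk_semi {f : X → ℝ} (hm : AEStronglyMeasurable f μ) (hf : Bdd μ f) {s t : ℝ} (hs : 0 < s)
    (ht : 0 < t) (x : X) : D.Pk (s + t) f x = D.Pk s (D.Pk t f) x ∧
      D.Lk (s + t) f x = D.Pk s (D.Lk t f) x ∧ D.Lk (s + t) f x = D.Lk s (D.Pk t f) x := by
  refine ⟨?_, ?_, h.hpb_semi hm hf hs ht x⟩
  · rw [DS.Pk, DS.Pk, h.hpb_fub_p ht (h.p_int s x hs) hm hf]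
    exact integral_congr_ae (ae_of_all _ fun y => by simp only [h.ck s t x y hs ht])
  · rw [DS.Lk, DS.Pk, h.hpb_fub_dp ht (h.p_int s x hs) hm hf]
    refine integral_congr_ae (ae_of_all _ fun y => ?_)
    show D.dp (s + t) x y * f y = (∫ z, D.p s x z * D.dp t z y ∂μ) * f y
    rw [h.dp_symm _ x y (add_pos hs ht), add_comm, h.dck t s y x ht hs]
    congr 1
    refine integral_congr_ae (ae_of_all _ fun z => ?_)
    show D.dp t y z * D.p s z x = D.p s x z * D.dp t z y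
    rw [h.dp_symm t y z ht, h.p_symm s z x hs, mul_comm]

theorem pk_symm {φ g : X → ℝ} (hm : AEStronglyMeasurable φ μ) (hφ : Bdd μ φ)
    (hg : Integrable g μ) {t : ℝ} (ht : 0 < t) :
    ∫ x, D.Pk t φ x * g x ∂μ = ∫ x, φ x * D.Pk t g x ∂μ := by
  simp only [mul_comm (D.Pk t φ _), mul_comm (φ _)]
  rw [h.hpb_fub_p ht hg hm hφ]
  refine integral_congr_ae (ae_of_all _ fun y => ?_)
  show (∫ z, g z * D.p t z y ∂μ) * φ y = (∫ z, D.p t y z * g z ∂μ) * φ y
  congr 1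
  refine integral_congr_ae (ae_of_all _ fun z => ?_)
  show g z * D.p t z y = D.p t y z * g z
  rw [h.p_symm t z y ht, mul_comm]

theorem pk_sq {f : X → ℝ} (hm : AEStronglyMeasurable f μ) {t : ℝ} (ht : 0 < t) {x : X}
    (hf : Integrable (fun y => D.p t x y * f y ^ 2) μ) :
    D.Pk t f x ^ 2 ≤ D.Pk t (fun y => f y ^ 2) x := by
  have hp := h.p_int t x ht
  have h1 : Integrable (fun y => D.p t x y * f y) μ := by
    refine Integrable.mono' (hp.add hf) (hp.1.mul hm) (ae_of_all _ fun y => ?_)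
    have hpos := h.p_pos t x y ht
    rw [Real.norm_eq_abs, abs_mul, abs_of_pos hpos, Pi.add_apply, ← sq_abs (f y)]
    nlinarith [mul_nonneg hpos.le (sq_nonneg (|f y| - 1)), mul_nonneg hpos.le (abs_nonneg (f y))]
  set m := D.Pk t f x with hm'
  have h2 : 0 ≤ ∫ y, (D.p t x y * f y ^ 2 - 2 * m * (D.p t x y * f y) + m ^ 2 * D.p t x y) ∂μ :=
    integral_nonneg fun y => by
      have := mul_nonneg (h.p_pos t x y ht).le (sq_nonneg (f y - m))
      show (0 : ℝ) ≤ _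
      nlinarith
  have h3 : Integrable (fun y => D.p t x y * f y ^ 2 - 2 * m * (D.p t x y * f y)) μ :=
    hf.sub (h1.const_mul _)
  rw [integral_add h3 (hp.const_mul _), integral_sub hf (h1.const_mul _), integral_const_mul,
    integral_const_mul, h.p_one t x ht] at h2
  have h4 : ∫ y, D.p t x y * f y ∂μ = m := rfl
  rw [h4] at h2
  show m ^ 2 ≤ ∫ y, D.p t x y * f y ^ 2 ∂μ
  nlinarith

theorem pk_hasDerivAt {f : X → ℝ} (hm : AEStronglyMeasurable f μ) (hf : Bdd μ f) {t : ℝ}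
    (ht : 0 < t) (x : X) : HasDerivAt (fun s => D.Pk s f x) (D.Lk t f x) t :=
  h.hpb_der hm hf ht x

theorem pk_derW {f : X → ℝ} (hm : AEStronglyMeasurable f μ) (hf : Bdd μ f) {t : ℝ} (ht : 0 < t) :
    DerW μ (fun s => D.Pk s f) (D.Lk t f) t := by
  obtain ⟨M, hM⟩ := id hf
  refine derW_of_pt ((lt_mem_nhds ht).mono fun s hs => (h.hpb_cont hm hf hs).aestronglyMeasurable)
    ⟨M, ae_of_all _ (h.pk_bdd f t M hm hM ht).1⟩ (ae_of_all _ fun x => h.hpb_der hm hf ht x)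
    ⟨√n * Real.exp (κ * (2 * t)) / (t / 2) * M, ?_⟩
  have hI : ∀ᶠ k in 𝓝[≠] (0 : ℝ), k ∈ Icc (-(t / 2)) t :=
    mem_nhdsWithin_of_mem_nhds (Icc_mem_nhds (by linarith) ht)
  filter_upwards [hI, self_mem_nhdsWithin] with k hk hk0
  refine ae_of_all _ fun x => ?_
  have h1 := h.hpb_lip hm hM x (half_pos ht) (d := 2 * t) (a := t) (b := t + k)
    ⟨by linarith, by linarith⟩ ⟨by linarith [hk.1], by linarith [hk.2]⟩
  rw [add_sub_cancel_left] at h1
  show |(D.Pk (t + k) f x - D.Pk t f x) / k| ≤ _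
  rw [abs_div, div_le_iff₀ (abs_pos.2 hk0)]
  exact h1

theorem pk_cont {f : X → ℝ} (hm : AEStronglyMeasurable f μ) (hf : Bdd μ f) {t : ℝ} (ht : 0 < t) :
    Continuous (D.Pk t f) :=
  h.hpb_cont hm hf ht

theorem pk_zero {f : X → ℝ} (hm : AEStronglyMeasurable f μ) (hf : Bdd μ f) {x : X}
    (hc : ContinuousAt f x) : Tendsto (fun t => D.Pk t f x) (𝓝[>] 0) (𝓝 (f x)) := by
  obtain ⟨C, hC, hconc⟩ := h.conc
  obtain ⟨M, hM0, hM⟩ := hf.nonneg
  obtain ⟨r₀, hr₀, -, hsc⟩ := h.exists_scale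
  rw [Metric.tendsto_nhds]
  intro ε hε
  obtain ⟨ρ, hρ, hb⟩ := Metric.continuousAt_iff.1 hc (ε / 2) (half_pos hε)
  have hlim : Tendsto (fun t : ℝ => (M + |f x|) * (C * Real.exp (-(ρ ^ 2 / (C * t)))))
      (𝓝[>] 0) (𝓝 0) := by
    simpa using ((hpb_exp hC hρ).const_mul C).const_mul (M + |f x|)
  have hsm : ∀ᶠ t in 𝓝[>] (0 : ℝ), t < r₀ ^ 2 :=
    mem_nhdsWithin_of_mem_nhds (gt_mem_nhds (by positivity))
  filter_upwards [hlim.eventually (gt_mem_nhds (half_pos hε)), hsm, self_mem_nhdsWithin]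
    with t h1 h2 ht
  have ht' : 0 < t := ht
  have hm' : AEStronglyMeasurable (fun y => f y - f x) μ := hm.sub aestronglyMeasurable_const
  have h3 := h.hpb_split hm' (M := M + |f x|) (ρ := ρ) (x := x)
    (hM.mono fun y hy => (abs_sub _ _).trans (by linarith)) (half_pos hε).le
    (ae_of_all _ fun y hy => by rw [← Real.dist_eq]; exact (hb hy).le) ht'
  have h4 := hconc (√t) x ρ (Real.sqrt_pos.2 ht')
    (hsc _ (Real.sqrt_nonneg _) (Real.sqrt_le_iff.2 ⟨hr₀.le, h2.le⟩)) hρ.le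
  rw [Real.sq_sqrt ht'.le] at h4
  have h5 : D.Pk t (fun y => f y - f x) x = D.Pk t f x - f x := by
    simp only [DS.Pk, mul_sub]
    rw [integral_sub (h.hpb_int hm hf ht' x) ((h.p_int t x ht').mul_const _), integral_mul_const,
      h.p_one t x ht', one_mul]
  rw [h5] at h3
  rw [Real.dist_eq]
  have h6 := mul_le_mul_of_nonneg_left h4 (show 0 ≤ M + |f x| by positivity)
  linarith

/-- Weak-star continuity at time zero against a curve that is continuous in `L¹`. -/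
theorem pk_zero_weak {ψ : X → ℝ} (hm : AEStronglyMeasurable ψ μ) (hψ : Bdd μ ψ) {w : ℝ → X → ℝ}
    {w₀ : X → ℝ} (hw : ∀ᶠ t in 𝓝[>] (0 : ℝ), Integrable (w t) μ) (h0 : Integrable w₀ μ)
    (hl : Tendsto (fun t => ∫ x, |w t x - w₀ x| ∂μ) (𝓝[>] 0) (𝓝 0)) :
    Tendsto (fun t => ∫ x, D.Pk t ψ x * w t x ∂μ) (𝓝[>] 0) (𝓝 (∫ x, ψ x * w₀ x ∂μ)) := by
  obtain ⟨M, hM⟩ := id hψ
  have hlim : Tendsto (fun t => M * ∫ x, |w t x - w₀ x| ∂μ + M * ∫ x, |D.Pk t w₀ x - w₀ x| ∂μ)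
      (𝓝[>] 0) (𝓝 0) := by
    simpa using (hl.const_mul M).add ((h.pk_l1_zero w₀ h0).const_mul M)
  rw [tendsto_iff_dist_tendsto_zero]
  refine squeeze_zero' (Eventually.of_forall fun t => dist_nonneg) ?_ hlim
  filter_upwards [hw, self_mem_nhdsWithin] with t hwt ht
  have ht' : 0 < t := ht
  have hPM := (h.pk_bdd ψ t M hm hM ht').1
  have hPm := (h.hpb_cont hm hψ ht').aestronglyMeasurable (μ := μ)
  have hPb : Bdd μ (D.Pk t ψ) := ⟨M, ae_of_all _ hPM⟩
  have hP0 := (h.pk_l1 w₀ t h0 ht').2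
  have key : ∀ (a u v : X → ℝ), AEStronglyMeasurable a μ → (∀ᵐ x ∂μ, |a x| ≤ M) →
      Integrable u μ → Integrable v μ →
      |∫ x, a x * u x ∂μ - ∫ x, a x * v x ∂μ| ≤ M * ∫ x, |u x - v x| ∂μ := by
    intro a u v ham haM hu hv
    have hab : Bdd μ a := ⟨M, haM⟩
    rw [← integral_sub (hab.mul_integrable ham hu) (hab.mul_integrable ham hv),
      ← integral_const_mul]
    refine abs_integral_le_integral_abs.trans (integral_mono_ae
      ((hab.mul_integrable ham hu).sub (hab.mul_integrable ham hv)).abs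
      ((hu.sub hv).abs.const_mul M) (haM.mono fun x hx => ?_))
    show |a x * u x - a x * v x| ≤ M * |u x - v x|
    rw [← mul_sub, abs_mul]
    exact mul_le_mul_of_nonneg_right hx (abs_nonneg _)
  have h1 := key _ _ _ hPm (ae_of_all _ hPM) hwt h0
  have h2 := key _ _ _ hm hM hP0 h0
  rw [← h.pk_symm hm hψ h0 ht'] at h2
  rw [Real.dist_eq]
  exact (abs_sub_le _ _ _).trans (add_le_add h1 h2)

/-- Off-diagonal bound for bounded data. -/
theorem pk_off : ∃ C, 0 < C ∧ ∀ (f : X → ℝ) (M r ρ : ℝ) (x : X), AEStronglyMeasurable f μ →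
    (∀ᵐ y ∂μ, |f y| ≤ M) → 0 ≤ ρ → (∀ᵐ y ∂μ, y ∈ ball x ρ → f y = 0) → 0 < r → κ * r ^ 2 ≤ 1 →
    |D.Pk (r ^ 2) f x| ≤ C * M * Real.exp (-(ρ ^ 2 / (C * r ^ 2))) := by
  obtain ⟨C, hC, hconc⟩ := h.conc
  refine ⟨C, hC, fun f M r ρ x hm hM hρ h0 hr hκ => ?_⟩
  have hr2 : 0 < r ^ 2 := by positivity
  have hM0 : 0 ≤ M := (abs_nonneg _).trans ((h.pk_bdd f _ M hm hM hr2).1 x)
  have h1 := h.hpb_split hm hM le_rfl (h0.mono fun y hy hb => by rw [hy hb, abs_zero]) hr2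
  have h2 := mul_le_mul_of_nonneg_left (hconc r x ρ hr hκ hρ) hM0
  linarith

/-- Off-diagonal bounds for integrable data supported in a ball. -/
theorem pk_off' (h0 : N0 D n) (x₀ : X) (R : ℝ) : ∃ C r₀, 0 < C ∧ 0 < r₀ ∧
    ∀ (ψ : X → ℝ) (S : Set X) (r ρ : ℝ), Integrable ψ μ → S ⊆ ball x₀ R →
    (∀ᵐ y ∂μ, y ∉ S → ψ y = 0) → 0 < r → r ≤ r₀ → 0 ≤ ρ →
    ∀ x, (∀ y ∈ S, ρ ≤ dist x y) →
      r ^ n * |D.Pk (r ^ 2) ψ x| ≤ C * Real.exp (-(ρ ^ 2 / (C * r ^ 2))) * ∫ y, |ψ y| ∂μ ∧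
      ∀ x', (∀ y ∈ S, ρ ≤ dist x' y) → r ^ n * |D.Pk (r ^ 2) ψ x - D.Pk (r ^ 2) ψ x'| ≤
        C * (dist x x' / r) * Real.exp (-(ρ ^ 2 / (C * r ^ 2))) * ∫ y, |ψ y| ∂μ := by
  obtain ⟨C, r₀, hC, hr₀, hb⟩ := h.ker_bds h0 x₀ R
  refine ⟨C, r₀, hC, hr₀, fun ψ S r ρ hψ hS hz hr hr' hρ x hx => ?_⟩
  have hr2 : 0 < r ^ 2 := by positivity
  have hrn : 0 < r ^ n := by positivity
  have key : ∀ (k : X → ℝ) (B : ℝ), Integrable (fun y => k y * ψ y) μ →
      (∀ y ∈ S, r ^ n * |k y| ≤ B) → r ^ n * |∫ y, k y * ψ y ∂μ| ≤ B * ∫ y, |ψ y| ∂μ := by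
    intro k B hk hB
    rw [← integral_const_mul]
    refine (mul_le_mul_of_nonneg_left abs_integral_le_integral_abs hrn.le).trans ?_
    rw [← integral_const_mul]
    refine integral_mono_ae (hk.abs.const_mul _) (hψ.abs.const_mul _) (hz.mono fun y hy => ?_)
    show r ^ n * |k y * ψ y| ≤ B * |ψ y|
    by_cases hyS : y ∈ S
    · rw [abs_mul, ← mul_assoc]
      exact mul_le_mul_of_nonneg_right (hB y hyS) (abs_nonneg _)
    · simp [hy hyS]
  have hexp : ∀ d, ρ ≤ d →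
      Real.exp (-(d ^ 2 / (C * r ^ 2))) ≤ Real.exp (-(ρ ^ 2 / (C * r ^ 2))) := by
    intro d hd
    gcongr
  refine ⟨key _ _ (h.pk_int' hψ hr2 x).1 fun y hy => ?_, fun x' hx' => ?_⟩
  · rw [abs_of_pos (h.p_pos _ x y hr2), h.p_symm _ x y hr2]
    refine (hb y (hS hy) r hr hr' x).2.1.trans (mul_le_mul_of_nonneg_left (hexp _ ?_) hC.le)
    rw [dist_comm]; exact hx y hy
  · have h1 := (h.pk_int' hψ hr2 x).1
    have h2 := (h.pk_int' hψ hr2 x').1
    rw [DS.Pk, DS.Pk, ← integral_sub h1 h2]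
    simp only [← sub_mul]
    refine key _ _ ((h1.sub h2).congr (ae_of_all _ fun y => (sub_mul _ _ _).symm)) fun y hy => ?_
    rw [h.p_symm _ x y hr2, h.p_symm _ x' y hr2]
    refine ((hb y (hS hy) r hr hr' x).2.2.2 x').trans
      (mul_le_mul_of_nonneg_left (hexp _ (le_min ?_ ?_)) (by positivity))
    · rw [dist_comm]; exact hx y hy
    · rw [dist_comm]; exact hx' y hy

/-- Uniqueness of the kernel. -/
theorem ker_unique {p : ℝ → X → X → ℝ} (hp : D.IsKer p) {t : ℝ} (ht : 0 < t) (x y : X) :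
    p t x y = D.p t x y := by
  have h1 : ∀ φ, LipB φ → ∫ z, p t x z * φ z ∂μ = ∫ z, D.p t x z * φ z ∂μ := by
    intro φ hφ
    have ha := hp.2.2 φ t (D.lipB_memLp hφ) ht
    have hb := h.ker.2.2 φ t (D.lipB_memLp hφ) ht
    exact eq_of_ae_eq h.pos isOpen_univ
      (hpb_test_cont D (hpb_ker_cont hp.1 ht) hφ).continuousOn
      (hpb_test_cont D (h.p_cont ht) hφ).continuousOn
      ((ha.symm.trans hb).mono fun z hz _ => hz) x (mem_univ _)
  have h2 := D.ae_eq_of_test (D.locInt_of_memLp (hp.2.1 t x ht))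
    (D.locInt_of_memLp (h.ker.2.1 t x ht)) isOpen_univ fun φ hφ _ => by
      simpa only [mul_comm (φ _)] using h1 φ hφ
  exact eq_of_ae_eq h.pos isOpen_univ (hpb_ker_cont' hp.1 ht x).continuousOn
    (hpb_ker_cont' h.ker.1 ht x).continuousOn h2 y (mem_univ _)

end HP

end RC
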