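import Pool.Agent.P.MP_6472e5_gt.BlA
import Pool.Agent.P.MP_6472e5_gt.HpB

/-! Blow-ups: lifts of functions, measures and heat flows. -/

set_option autoImplicit false
set_option linter.unusedSectionVars false

noncomputable section

namespace RC

open MeasureTheory Set Filter Topology Metric

variable {X : Type} [MetricSpace X] [ProperSpace X] [MeasurableSpace X] [BorelSpace X]
  {μ : Measure X} {D : DS μ} {κ : ℝ} {n : ℕ}

theorem blb_diag {l : Filter ℕ} (hl : l ≤ atTop) {P : ℕ → ℕ → Prop} (h : ∀ N, ∀ᶠ i in l, P N i) :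
    ∃ N : ℕ → ℕ, Tendsto N l atTop ∧ ∀ᶠ i in l, P (N i) i := by
  classical
  refine ⟨fun i => Nat.findGreatest (fun N => P N i) i, tendsto_atTop.2 fun M => ?_, ?_⟩
  · filter_upwards [h M, hl (eventually_ge_atTop M)] with i h1 h2
    exact Nat.le_findGreatest h2 h1
  · exact (h 0).mono fun i hi => Nat.findGreatest_spec (P := fun N => P N i) (Nat.zero_le i) hi

theorem blb_choice {α : Type} {l : Filter ℕ} {p q : ℕ → α → Prop} (h0 : ∀ i, ∃ a, p i a)
    (h : ∀ᶠ i in l, ∃ a, p i a ∧ q i a) : ∃ f : ℕ → α, (∀ i, p i (f i)) ∧ ∀ᶠ i in l, q i (f i) := by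
  have h1 : ∀ i, ∃ a, p i a ∧ ((∃ a, p i a ∧ q i a) → q i a) := fun i => by
    by_cases hi : ∃ a, p i a ∧ q i a
    · obtain ⟨a, h1, h2⟩ := hi
      exact ⟨a, h1, fun _ => h2⟩
    · obtain ⟨a, h1⟩ := h0 i
      exact ⟨a, h1, fun h2 => (hi h2).elim⟩
  choose f h1 h2 using h1
  exact ⟨f, h1, h.mono h2⟩

theorem blb_approx {l : Filter ℕ} {v : ℕ → ℝ} {d : ℝ} (h : ∀ ε, 0 < ε → ∃ (u : ℕ → ℝ) (c : ℝ),
    Tendsto u l (𝓝 c) ∧ (∀ᶠ i in l, |v i - u i| ≤ ε) ∧ |d - c| ≤ ε) : Tendsto v l (𝓝 d) := by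
  refine Metric.tendsto_nhds.2 fun ε hε => ?_
  have h3 : 0 < ε / 3 := by positivity
  obtain ⟨u, c, h1, h2, h4⟩ := h _ h3
  filter_upwards [h2, Metric.tendsto_nhds.1 h1 _ h3] with i h5 h6
  rw [Real.dist_eq] at h6 ⊢
  rw [abs_le] at h4 h5
  rw [abs_lt] at h6 ⊢
  constructor <;> linarith [h4.1, h4.2, h5.1, h5.2, h6.1, h6.2]

theorem blb_mcshane {S : Set X} {x : X} (hx : x ∈ S) {F : X → ℝ} {L ε : ℝ} (hL : 0 ≤ L)
    (h : ∀ a ∈ S, ∀ b ∈ S, F a ≤ F b + L * dist a b + ε) :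
    ∃ g : X → ℝ, (∀ a b, |g a - g b| ≤ L * dist a b) ∧ ∀ a ∈ S, |g a - F a| ≤ ε := by
  have : Nonempty S := ⟨⟨x, hx⟩⟩
  have hb : ∀ a : X, BddBelow (range fun b : S => F b + L * dist a b) := fun a =>
    ⟨F x - L * dist a x - ε, by
      rintro _ ⟨b, rfl⟩
      have h1 := h x hx b b.2
      have h2 := mul_le_mul_of_nonneg_left (dist_triangle_left x b a) hL
      simp only
      linarith⟩
  have h1 : ∀ a a' : X, (⨅ b : S, F b + L * dist a b) - L * dist a a' ≤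
      ⨅ b : S, F b + L * dist a' b := fun a a' => le_ciInf fun b => by
    have h1 := ciInf_le (hb a) b
    have h2 := mul_le_mul_of_nonneg_left (dist_triangle a a' b) hL
    linarith
  refine ⟨fun a => ⨅ b : S, F b + L * dist a b, fun a a' => abs_le.2 ⟨?_, ?_⟩,
    fun a ha => abs_le.2 ⟨?_, ?_⟩⟩
  · have := h1 a' a
    rw [dist_comm a' a] at this
    linarith
  · linarith [h1 a a']
  · have : F a - ε ≤ ⨅ b : S, F b + L * dist a b := le_ciInf fun b => by linarith [h a ha b b.2]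
    linarith
  · have h2 := ciInf_le (hb a) ⟨a, ha⟩
    have h3 := h a ha a ha
    simp only [dist_self, mul_zero, add_zero] at h2 h3
    linarith

/-- Truncation between two tents. -/
def blbT (a b L R d u : ℝ) : ℝ :=
  max (max a (-max 0 (L * (R - d)))) (min (min b (max 0 (L * (R - d)))) u)

theorem blbT_lip {a b L R d d' u u' c : ℝ} (hL : 0 ≤ L) (h1 : L * |d - d'| ≤ c)
    (h2 : |u - u'| ≤ c) : |blbT a b L R d u - blbT a b L R d' u'| ≤ c := by
  have h0 : ∀ x : ℝ, |x - x| ≤ c := fun x => by simpa using (abs_nonneg _).trans h2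
  have h3 : |max 0 (L * (R - d)) - max 0 (L * (R - d'))| ≤ c := by
    refine (abs_max_sub_max_le_max _ _ _ _).trans (max_le (h0 _) (le_of_eq_of_le ?_ h1))
    rw [← mul_sub, abs_mul, abs_of_nonneg hL, sub_sub_sub_cancel_left, abs_sub_comm]
  refine (abs_max_sub_max_le_max _ _ _ _).trans (max_le
    ((abs_max_sub_max_le_max _ _ _ _).trans (max_le (h0 _) ?_))
    ((abs_min_sub_min_le_max _ _ _ _).trans (max_le
      ((abs_min_sub_min_le_max _ _ _ _).trans (max_le (h0 _) h3)) h2)))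
  rwa [neg_sub_neg, abs_sub_comm]

theorem blbT_mem {a b : ℝ} (ha : a ≤ 0) (hb : 0 ≤ b) (L R d u : ℝ) :
    a ≤ blbT a b L R d u ∧ blbT a b L R d u ≤ b :=
  ⟨(le_max_left _ _).trans (le_max_left _ _), max_le
    (max_le (ha.trans hb) ((neg_nonpos.2 (le_max_left _ _)).trans hb))
    ((min_le_left _ _).trans (min_le_left _ _))⟩

theorem blbT_zero {a b L R d : ℝ} (ha : a ≤ 0) (hb : 0 ≤ b) (hL : 0 ≤ L) (h : R ≤ d) (u : ℝ) :
    blbT a b L R d u = 0 := by
  rw [blbT, max_eq_left (mul_nonpos_of_nonneg_of_nonpos hL (sub_nonpos.2 h)), neg_zero,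
    max_eq_right ha, min_eq_right hb, max_eq_left (min_le_left _ _)]

theorem blbT_eq {a b L R d u : ℝ} (ha : a ≤ u) (hb : u ≤ b) (h : |u| ≤ max 0 (L * (R - d))) :
    blbT a b L R d u = u := by
  rw [blbT, min_eq_right (le_min hb (abs_le.1 h).2), max_eq_right (max_le ha (abs_le.1 h).1)]

/-- The clamp. -/
def blbC (t : ℝ) : ℝ := max 0 (min 1 t)

theorem blbC_cont : Continuous blbC := continuous_const.max (continuous_const.min continuous_id)

theorem blbC_mem (t : ℝ) : 0 ≤ blbC t ∧ blbC t ≤ 1 :=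
  ⟨le_max_left _ _, max_le zero_le_one (min_le_left _ _)⟩

theorem blbC_one {t : ℝ} (h : 1 ≤ t) : blbC t = 1 := by
  rw [blbC, min_eq_left h, max_eq_right zero_le_one]

theorem blbC_zero {t : ℝ} (h : t ≤ 0) : blbC t = 0 := max_eq_left ((min_le_right _ _).trans h)

theorem blb_int_le {f : X → ℝ} {S : Set X} (hS : MeasurableSet S) (hμ : μ S < ⊤)
    (h1 : ∀ x, 0 ≤ f x ∧ f x ≤ 1) (h0 : ∀ x, x ∉ S → f x = 0) : ∫ x, f x ∂μ ≤ μ.real S := by
  rw [← integral_indicator_one hS]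
  refine integral_mono_of_nonneg (ae_of_all _ fun x => (h1 x).1)
    ((integrable_indicator_iff hS).2 (integrableOn_const hμ.ne)) (ae_of_all _ fun x => ?_)
  by_cases hx : x ∈ S
  · simpa [hx] using (h1 x).2
  · simp [hx, h0 x hx]

theorem blb_le_int (D : DS μ) {f : X → ℝ} (hf : Continuous f) (h1 : ∀ x, 0 ≤ f x ∧ f x ≤ 1)
    {c : X} {R : ℝ} (h0 : ∀ x, x ∉ ball c R → f x = 0) {S : Set X} (hS : ∀ x ∈ S, f x = 1) :
    μ.real S ≤ ∫ x, f x ∂μ := by
  have hi := (D.memLp_of_bdd hf.aestronglyMeasurable ⟨1, ae_of_all _ fun x =>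
    abs_le.2 ⟨by linarith [(h1 x).1], (h1 x).2⟩⟩ (ae_of_all _ h0)).2
  have h2 := mul_meas_ge_le_integral_of_nonneg (ae_of_all _ fun x => (h1 x).1) hi 1
  rw [one_mul] at h2
  exact (measureReal_mono (fun x hx => (hS x hx).ge) (hi.measure_ge_lt_top one_pos).ne).trans h2

theorem blb_tail (h : HP D κ n) : ∃ C, 0 < C ∧ ∀ (g χ : X → ℝ) (M s ρ : ℝ) (x : X),
    AEStronglyMeasurable g μ → Continuous χ → (∀ a, |g a| ≤ M) → (∀ a, 0 ≤ χ a ∧ χ a ≤ 1) →
    0 ≤ ρ → (∀ a ∈ ball x ρ, χ a = 1) → 0 < s → κ * s ^ 2 ≤ 1 →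
    |D.Pk (s ^ 2) g x - ∫ a, D.p (s ^ 2) x a * (χ a * g a) ∂μ| ≤
      C * M * Real.exp (-(ρ ^ 2 / (C * s ^ 2))) := by
  obtain ⟨C, hC, h1⟩ := h.pk_off
  refine ⟨C, hC, fun g χ M s ρ x hg hχ hM h01 hρ h2 hs hκ => ?_⟩
  have m1 : AEStronglyMeasurable (fun a => χ a * g a) μ := hχ.aestronglyMeasurable.mul hg
  have b0 : ∀ c a, 0 ≤ c → c ≤ 1 → |c * g a| ≤ M := fun c a h3 h4 => by
    rw [abs_mul, abs_of_nonneg h3]
    exact (mul_le_of_le_one_left (abs_nonneg _) h4).trans (hM a)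
  have b2 : ∀ a, |g a - χ a * g a| ≤ M := fun a => by
    rw [← one_sub_mul]
    exact b0 _ a (sub_nonneg.2 (h01 a).2) (sub_le_self _ (h01 a).1)
  have := h1 (fun a => g a - χ a * g a) M s ρ x (hg.sub m1) (ae_of_all _ b2) hρ
    (ae_of_all _ fun a ha => by rw [h2 a ha, one_mul, sub_self]) hs hκ
  rw [DS.Pk, ← integral_sub (h.pk_int hg ⟨M, ae_of_all _ hM⟩ (pow_pos hs 2) x).1
    (h.pk_int m1 ⟨M, ae_of_all _ fun a => b0 _ a (h01 a).1 (h01 a).2⟩ (pow_pos hs 2) x).1]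
  simpa only [DS.Pk, mul_sub] using this

theorem blb_exp {C t ε : ℝ} (hC : 0 < C) (ht : 0 < t) (M : ℝ) (hε : 0 < ε) :
    ∀ᶠ ρ : ℝ in atTop, C * M * Real.exp (-(ρ ^ 2 / (C * t))) ≤ ε := by
  have h1 := (Real.tendsto_exp_neg_atTop_nhds_zero.comp
    ((tendsto_pow_atTop (α := ℝ) two_ne_zero).atTop_div_const (mul_pos hC ht))).const_mul (C * M)
  rw [mul_zero] at h1
  exact h1.eventually (Iic_mem_nhds hε)

theorem blb_taylor (h : HP D κ n) {g : X → ℝ} (hm : AEStronglyMeasurable g μ) {M τ η : ℝ}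
    (hM : ∀ a, |g a| ≤ M) (hκ : κ * τ ≤ 1) (hη : 0 < η) (hτ : η ≤ τ) (x : X) :
    |D.Lk τ g x - (D.Pk (τ + η) g x - D.Pk τ g x) / η| ≤
      4 * (√n * Real.exp 2) ^ 2 * M * η / τ ^ 2 := by
  have h0 : 0 < τ := hη.trans_le hτ
  have h2 : 0 < τ / 2 := half_pos h0
  have hM0 : 0 ≤ M := (abs_nonneg _).trans (hM x)
  have key : ∀ (u : X → ℝ) (N s : ℝ), AEStronglyMeasurable u μ → (∀ a, |u a| ≤ N) → τ / 2 ≤ s →
      s ≤ 2 * τ → ∀ a, |D.Lk s u a| ≤ √n * Real.exp 2 * N / (τ / 2) := fun u N s hu hN h1 h3 a => by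
    refine ((h.pk_bdd u s N hu (ae_of_all _ hN) (h2.trans_le h1)).2.2.2.2 a).trans ?_
    have := (abs_nonneg _).trans (hN a)
    have : κ * s ≤ 2 := by nlinarith [h.κ_nonneg]
    gcongr
  have hb : Bdd μ g := ⟨M, ae_of_all _ hM⟩
  have cw := (h.pk_bdd g (τ / 2) M hm (ae_of_all _ hM) h2).2.2.2.1.aestronglyMeasurable (μ := μ)
  have bw := key g M (τ / 2) hm hM le_rfl (by linarith)
  have e : ∀ s, τ ≤ s → D.Pk (s - τ / 2) (D.Lk (τ / 2) g) x = D.Lk s g x := fun s hs => by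
    rw [← (h.pk_semi hm hb (by linarith : 0 < s - τ / 2) h2 x).2.1, sub_add_cancel]
  have d2 := norm_image_sub_le_of_norm_deriv_le_segment' (a := τ) (b := τ + η)
    (f := fun s => D.Pk (s - τ / 2) (D.Lk (τ / 2) g) x)
    (f' := fun s => D.Lk (s - τ / 2) (D.Lk (τ / 2) g) x)
    (fun s hs => (HasDerivAt.comp_sub_const s (τ / 2) (h.pk_hasDerivAt cw ⟨_, ae_of_all _ bw⟩
      (by linarith [hs.1]) x)).hasDerivWithinAt)
    (fun s hs => key _ _ _ cw bw (by linarith [hs.1]) (by linarith [hs.2]) x)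
  have d1 := norm_image_sub_le_of_norm_deriv_le_segment' (a := τ) (b := τ + η)
    (f := fun s => D.Pk s g x - s * D.Lk τ g x) (f' := fun s => D.Lk s g x - D.Lk τ g x)
    (C := 4 * (√n * Real.exp 2) ^ 2 * M * η / τ ^ 2)
    (fun s hs => ((h.pk_hasDerivAt hm hb (by linarith [hs.1]) x).sub
      (hasDerivAt_mul_const _)).hasDerivWithinAt)
    (fun s hs => by
      have h3 := d2 s (Ico_subset_Icc_self hs)
      rw [e s hs.1, e τ le_rfl] at h3
      refine h3.trans ((mul_le_mul_of_nonneg_left (by linarith [hs.2] : s - τ ≤ η)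
        (by positivity)).trans_eq ?_)
      field_simp
      ring) (τ + η) (right_mem_Icc.2 (by linarith))
  rw [add_sub_cancel_left, Real.norm_eq_abs, ← div_le_iff₀ hη, ← abs_of_pos hη, ← abs_div,
    abs_of_pos hη, ← abs_neg] at d1
  refine le_of_eq_of_le (congrArg _ ?_) d1
  field_simp
  ring

namespace Blow

variable {U : Ultrafilter ℕ} {y : ℕ → X} {r : ℕ → ℝ} (B : Blow D n U y r)

variable {B}

theorem blb_integral {g : ℕ → X → ℝ} {f : B.Z → ℝ} (hg : B.Cv g f) (hf : Continuous f)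
    (hm : ∀ i, AEStronglyMeasurable (g i) μ) {R : ℝ}
    (h0 : ∀ᶠ i in (U : Filter ℕ), ∀ a, a ∉ ball (y i) (R * r i) → g i a = 0) :
    Tendsto (fun i => (r i ^ n)⁻¹ * ∫ a, g i a ∂μ) U (𝓝 (∫ z, f z ∂B.ν)) := by
  refine B.conv f g (R + 1) hf (fun z hz => ?_) hm (h0.mono fun i hi a ha => hi a fun h =>
    ha (ball_subset_ball (by nlinarith [B.seq.pos i]) h)) (hg _)
  obtain ⟨a, ha⟩ := B.exists_lf z
  refine tendsto_nhds_unique (hg.lf hf ha) (tendsto_const_nhds.congr' ?_)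
  filter_upwards [h0, (ha.dist B.lf_base).eventually (Ioi_mem_nhds
    ((lt_add_one R).trans_le (not_lt.1 hz)))] with i h1 h2
  exact (h1 _ (not_lt.2 ((lt_div_iff₀ (B.seq.pos i)).1 h2).le)).symm

theorem blb_mul {g g' : ℕ → X → ℝ} {f f' : B.Z → ℝ} (h : B.Cv g f) (h' : B.Cv g' f')
    (hf : Continuous f) (hf' : Continuous f') :
    B.Cv (fun i a => g i a * g' i a) (fun z => f z * f' z) :=
  cv_of_lf (hf.mul hf') fun _ _ ha => (h.lf hf ha).mul (h'.lf hf' ha)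

theorem blb_comp {g : ℕ → X → ℝ} {f : B.Z → ℝ} (h : B.Cv g f) (hf : Continuous f) {Φ : ℝ → ℝ}
    (hΦ : Continuous Φ) : B.Cv (fun i a => Φ (g i a)) (fun z => Φ (f z)) :=
  cv_of_lf (hΦ.comp hf) fun _ _ ha => (hΦ.tendsto _).comp (h.lf hf ha)

theorem blb_bump {a : ℕ → X} {z : B.Z} (ha : B.Lf a z) (ρ δ : ℝ) :
    B.Cv (fun i b => blbC ((ρ - dist b (a i) / r i) / δ)) (fun w => blbC ((ρ - dist w z) / δ)) :=
  cv_of_lf (blbC_cont.comp (by fun_prop)) fun _ _ hb =>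
    (blbC_cont.tendsto _).comp (((hb.dist ha).const_sub ρ).div_const δ)

theorem blb_far {a : ℕ → X} {z : B.Z} (ha : B.Lf a z) (ρ : ℝ) :
    ∃ R, ∀ᶠ i in (U : Filter ℕ), ball (a i) (ρ * r i) ⊆ ball (y i) (R * r i) := by
  obtain ⟨S, hS⟩ := ha.1
  refine ⟨ρ + S, hS.mono fun i hi => ball_subset_ball' ?_⟩
  linarith [mem_ball.1 hi]

include B in
theorem blb_bump0 (a : ℕ → X) (ρ : ℝ) {δ : ℝ} (hδ : 0 < δ) (i : ℕ) (b : X)
    (hb : b ∉ ball (a i) (ρ * r i)) : blbC ((ρ - dist b (a i) / r i) / δ) = 0 :=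
  blbC_zero (div_nonpos_of_nonpos_of_nonneg
    (sub_nonpos.2 ((le_div_iff₀ (B.seq.pos i)).2 (not_lt.1 hb))) hδ.le)

theorem blb_bdd {g : ℕ → X → ℝ} {f : B.Z → ℝ} (hg : B.Cv g f) (hf : Continuous f) {M : ℝ}
    (hM : ∀ᶠ i in (U : Filter ℕ), ∀ a, |g i a| ≤ M) (z : B.Z) : |f z| ≤ M := by
  obtain ⟨a, ha⟩ := B.exists_lf z
  exact le_of_tendsto (hg.lf hf ha).abs (hM.mono fun i hi => hi _)

theorem blb_ker {a : ℕ → X} {z : B.Z} (ha : B.Lf a z) {t : ℝ} (ht : 0 < t) :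
    B.Cv (fun i b => r i ^ n * D.p (r i ^ 2 * t) (a i) b) (B.E.p t z) := by
  have hc := B.model.toHP.p_cont ht
  refine cv_of_lf (hc.comp (Continuous.prodMk_right z)) fun b w hb => ?_
  have h1 := (hc.tendsto (z, w)).comp (ha.2.prodMk_nhds hb.2)
  have h2 : Tendsto (fun i => r i ^ n * D.p (r i ^ 2 * t) (a i) (b i) -
      B.E.p t (B.q i (a i)) (B.q i (b i))) U (𝓝 0) := by
    obtain ⟨R, hR⟩ := ha.1
    obtain ⟨S, hS⟩ := hb.1
    refine Metric.tendsto_nhds.2 fun ε hε => ?_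
    filter_upwards [hR, hS, B.ker t (max R S) _ ht (half_pos hε)] with i h3 h4 h5
    have h6 := h5 _ (ball_subset_ball (mul_le_mul_of_nonneg_right (le_max_left R S)
      (B.seq.pos i).le) h3) _ (ball_subset_ball (mul_le_mul_of_nonneg_right (le_max_right R S)
      (B.seq.pos i).le) h4)
    rw [Real.dist_eq, sub_zero]
    linarith
  simpa using h2.add h1

variable (B)

include B in
theorem blb_time (κ t : ℝ) : ∀ᶠ i in (U : Filter ℕ), κ * (r i ^ 2 * t) ≤ 1 := by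
  have h1 : Tendsto (fun i => κ * (r i ^ 2 * t)) U (𝓝 0) := by
    simpa using ((B.seq.lim.pow 2).mul_const t).const_mul κ
  exact h1.eventually (Iic_mem_nhds one_pos)

/-- Lifts of Lipschitz functions. -/
theorem exists_lift {f : B.Z → ℝ} {L : NNReal} (hf : LipschitzWith L f) :
    ∃ g : ℕ → X → ℝ, (∀ i a b, |g i a - g i b| ≤ L * (dist a b / r i)) ∧ B.Cv g f := by
  obtain ⟨N, hN, hP⟩ := blb_diag (ultra_le_atTop B.seq.pos B.seq.lim)
    fun N : ℕ => B.bla_app (N + 1) (ε := 1 / (N + 1)) (by positivity)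
  obtain ⟨g, h1, h2⟩ := blb_choice (l := U)
    (p := fun i (g : X → ℝ) => ∀ a b, |g a - g b| ≤ L * (dist a b / r i))
    (q := fun i g => ∀ a ∈ ball (y i) ((N i + 1) * r i), |g a - f (B.q i a)| ≤
      L * (N i + 1 : ℝ)⁻¹)
    (fun i => ⟨0, fun a b => by
      have := B.seq.pos i
      simp only [Pi.zero_apply, sub_self, abs_zero]
      positivity⟩) (hP.mono fun i hi => by
      have hr := B.seq.pos i
      obtain ⟨g, h1, h2⟩ := blb_mcshane (S := ball (y i) ((N i + 1) * r i))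
        (mem_ball_self (by positivity)) (F := fun a => f (B.q i a)) (L := L / r i)
        (ε := L * (N i + 1 : ℝ)⁻¹) (by positivity) fun a ha b hb => by
          have h1 := hf.le_add_mul (B.q i a) (B.q i b)
          have h2 := mul_le_mul_of_nonneg_left (abs_le.1 (hi a ha b hb)).2 L.coe_nonneg
          rw [one_div] at h2
          rw [div_mul_eq_mul_div, mul_div_assoc]
          linarith
      exact ⟨g, fun a b => (h1 a b).trans_eq (by ring), h2⟩)
  refine ⟨g, h1, fun R ε hε => ?_⟩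
  have h3 : Tendsto (fun i => (N i : ℝ) + 1) U atTop :=
    tendsto_atTop_add_const_right _ _ (tendsto_natCast_atTop_atTop.comp hN)
  have h4 := h3.inv_tendsto_atTop.const_mul (L : ℝ)
  rw [mul_zero] at h4
  filter_upwards [h2, h3.eventually_ge_atTop R, h4.eventually (Iic_mem_nhds hε)] with i h5 h6 h7 a ha
  exact (h5 a (ball_subset_ball (mul_le_mul_of_nonneg_right h6 (B.seq.pos i).le) ha)).trans h7

/-- Lifts of Lipschitz functions with bounded support. -/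
theorem exists_liftB {f : B.Z → ℝ} {L : NNReal} (hL : 0 < L) (hf : LipschitzWith L f) {R : ℝ}
    (h0 : ∀ z, z ∉ ball B.e R → f z = 0) {a b : ℝ} (hb : ∀ z, a ≤ f z ∧ f z ≤ b)
    (ha0 : a ≤ 0) (hb0 : 0 ≤ b) :
    ∃ g : ℕ → X → ℝ, (∀ i, LipB (g i)) ∧ (∀ i x x', |g i x - g i x'| ≤ L * (dist x x' / r i)) ∧
      (∀ i x, a ≤ g i x ∧ g i x ≤ b) ∧
      (∀ i x, x ∉ ball (y i) ((R + (b - a) / L) * r i) → g i x = 0) ∧ B.Cv g f := by
  obtain ⟨g, h1, h2⟩ := B.exists_lift hf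
  have hL' : (0 : ℝ) < L := hL
  have h3 : ∀ i x x', |blbT a b L (R + (b - a) / L) (dist x (y i) / r i) (g i x) -
      blbT a b L (R + (b - a) / L) (dist x' (y i) / r i) (g i x')| ≤ L * (dist x x' / r i) :=
    fun i x x' => blbT_lip hL'.le (by
      have := B.seq.pos i
      rw [← sub_div, abs_div, abs_of_pos this]
      gcongr
      exact abs_dist_sub_le _ _ _) (h1 i x x')
  have h4 : ∀ i x, x ∉ ball (y i) ((R + (b - a) / L) * r i) →
      blbT a b L (R + (b - a) / L) (dist x (y i) / r i) (g i x) = 0 := fun i x hx =>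
    blbT_zero ha0 hb0 hL'.le ((le_div_iff₀ (B.seq.pos i)).2 (not_lt.1 hx)) _
  refine ⟨fun i x => blbT a b L (R + (b - a) / L) (dist x (y i) / r i) (g i x),
    fun i => ⟨⟨_, LipschitzWith.of_dist_le' (K := L / r i) fun x x' =>
      (h3 i x x').trans_eq (by ring)⟩, isBounded_ball.subset fun x hx =>
      by_contra fun h => hx (h4 i x h)⟩, h3, fun i x => blbT_mem ha0 hb0 _ _ _ _, h4,
    cv_of_lf hf.continuous fun c z hc => ?_⟩
  have h5 : Continuous fun p : ℝ × ℝ => blbT a b L (R + (b - a) / L) p.1 p.2 := by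
    unfold blbT
    fun_prop
  have h6 := (h5.tendsto _).comp ((hc.dist B.lf_base).prodMk_nhds (h2.lf hf.continuous hc))
  rwa [blbT_eq (hb z).1 (hb z).2] at h6
  by_cases hz : z ∈ ball B.e R
  · have h7 := mul_le_mul_of_nonneg_left (mem_ball.1 hz).le hL'.le
    have h8 : L * ((b - a) / L) = b - a := mul_div_cancel₀ _ hL'.ne'
    refine le_max_of_le_right (abs_le.2 ⟨?_, ?_⟩) <;> linarith [(hb z).1, (hb z).2]
  · rw [h0 z hz, abs_zero]
    exact le_max_left _ _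

theorem meas_le {K : Set B.Z} (hK : IsCompact K) (R : ℝ) {ε : ℝ} (hε : 0 < ε) :
    ∃ ρ, 0 < ρ ∧ ∀ᶠ i in (U : Filter ℕ),
      μ.real {a | a ∈ ball (y i) (R * r i) ∧ B.q i a ∈ thickening ρ K} ≤
        (B.ν.real K + ε) * r i ^ n := by
  have := B.E.locFin
  have h1 : Tendsto (fun ρ => B.ν.real (cthickening ρ K)) (𝓝[>] 0) (𝓝 (B.ν.real K)) :=
    ((ENNReal.tendsto_toReal hK.measure_lt_top.ne).comp
      (tendsto_measure_cthickening_of_isCompact hK)).mono_left nhdsWithin_le_nhds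
  obtain ⟨ρ, h2, hρ⟩ := ((h1.eventually (Iio_mem_nhds (lt_add_of_pos_right _ hε))).and
    self_mem_nhdsWithin).exists
  have hρ : 0 < ρ := hρ
  obtain ⟨χ, c1, c2, c3, c4, -⟩ := exists_cutoff hK.isBounded (half_pos hρ).le (half_lt_self hρ)
  obtain ⟨L, hL⟩ := c1.1
  obtain ⟨S, -, hS⟩ := c1.exists_ball B.e
  obtain ⟨g, g1, -, -, g4, g5⟩ := B.exists_liftB (L := L + 1) (by positivity)
    (hL.weaken le_self_add) hS c2 le_rfl zero_le_one
  have hΦ : Continuous fun t : ℝ => blbC (2 * t) := blbC_cont.comp (by fun_prop)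
  have h0 : ∀ i a, a ∉ ball (y i) ((S + (1 - 0) / (L + 1 : NNReal)) * r i) →
      blbC (2 * g i a) = 0 := fun i a ha => blbC_zero (by rw [g4 i a ha, mul_zero])
  have h3 := blb_integral (blb_comp g5 c1.continuous hΦ) (hΦ.comp c1.continuous)
    (fun i => (hΦ.comp (g1 i).continuous).aestronglyMeasurable) (Eventually.of_forall h0)
  have h4 : ∫ z, blbC (2 * χ z) ∂B.ν ≤ B.ν.real (cthickening ρ K) :=
    blb_int_le isClosed_cthickening.measurableSet hK.cthickening.measure_lt_top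
      (fun z => blbC_mem _) fun z hz => blbC_zero (by
        rw [c4 z fun h => hz (thickening_subset_cthickening _ _ h), mul_zero])
  refine ⟨ρ / 2, half_pos hρ, ?_⟩
  filter_upwards [h3.eventually (Iio_mem_nhds (h4.trans_lt h2)), g5 R _ one_half_pos] with i h5 h6
  have h7 := (inv_mul_lt_iff₀' (pow_pos (B.seq.pos i) n)).1 h5
  refine (blb_le_int D (hΦ.comp (g1 i).continuous) (fun a => blbC_mem _) (h0 i)
    fun a ha => blbC_one ?_).trans h7.le
  have h8 := h6 a ha.1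
  rw [c3 _ (thickening_subset_cthickening _ _ ha.2)] at h8
  linarith [(abs_le.1 h8).1]

theorem ball_le {a : ℕ → X} {z : B.Z} (ha : B.Lf a z) (s : ℝ) {ε : ℝ} (hε : 0 < ε) :
    ∀ᶠ i in (U : Filter ℕ),
      μ.real (ball (a i) (s * r i)) ≤ (B.ν.real (closedBall z s) + ε) * r i ^ n := by
  obtain ⟨R, hR⟩ := blb_far ha s
  obtain ⟨ρ, hρ, h1⟩ := B.meas_le (isCompact_closedBall z s) R hε
  have h2 := B.near (S := fun i => ball (a i) (s * r i)) (F := closedBall z s)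
    (fun b w hb h => le_of_tendsto (hb.dist ha) (h.mono fun i hi =>
      ((div_lt_iff₀ (B.seq.pos i)).2 hi).le)) R hρ
  filter_upwards [hR, h1, h2] with i h3 h4 h5
  refine le_trans (measureReal_mono (fun b hb => ?_) ?_) h4
  · exact ⟨h3 hb, mem_thickening_iff.2 (h5 b ⟨hb, h3 hb⟩)⟩
  · exact ((measure_mono fun b hb => hb.1).trans_lt (D.fin (y i) (R * r i))).ne

theorem ball_ge {a : ℕ → X} {z : B.Z} (ha : B.Lf a z) (s : ℝ) {ε : ℝ} (hε : 0 < ε) :
    ∀ᶠ i in (U : Filter ℕ),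
      (B.ν.real (ball z s) - ε) * r i ^ n ≤ μ.real (ball (a i) (s * r i)) := by
  have := B.E.locFin
  obtain ⟨K, h1, hK, h2⟩ := (measurableSet_ball (x := z) (ε := s)).exists_isCompact_lt_add
    (B.E.fin z s).ne (ENNReal.ofReal_pos.2 (half_pos hε)).ne'
  have h3 := ENNReal.toReal_mono
    (ENNReal.add_ne_top.2 ⟨hK.measure_lt_top.ne, ENNReal.ofReal_ne_top⟩) h2.le
  rw [ENNReal.toReal_add hK.measure_lt_top.ne ENNReal.ofReal_ne_top,
    ENNReal.toReal_ofReal (half_pos hε).le] at h3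
  obtain ⟨s', h4, h5⟩ := exists_lt_subset_ball hK.isClosed h1
  have h6 := sub_pos.2 h4
  obtain ⟨R, hR⟩ := blb_far ha s
  have hc : Continuous fun w => blbC ((s - dist w z) / (s - s')) := blbC_cont.comp (by fun_prop)
  have h7 := blb_integral (blb_bump ha s (s - s')) hc
    (fun i => (blbC_cont.comp (by fun_prop)).aestronglyMeasurable)
    (hR.mono fun i hi b hb => blb_bump0 (B := B) a s h6 i b fun h => hb (hi h))
  have h8 : B.ν.real K ≤ ∫ w, blbC ((s - dist w z) / (s - s')) ∂B.ν :=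
    blb_le_int B.E hc (fun w => blbC_mem _) (c := z) (R := s) (fun w hw => blbC_zero
      (div_nonpos_of_nonpos_of_nonneg (sub_nonpos.2 (not_lt.1 hw)) h6.le))
      fun w hw => blbC_one ((one_le_div h6).2 (by linarith [mem_ball.1 (h5 hw)]))
  have h9 : B.ν.real (ball z s) - ε < ∫ w, blbC ((s - dist w z) / (s - s')) ∂B.ν := by
    simp only [Measure.real] at h8 ⊢
    linarith
  filter_upwards [h7.eventually (Ioi_mem_nhds h9)] with i hi
  exact ((lt_inv_mul_iff₀' (pow_pos (B.seq.pos i) n)).1 hi).le.trans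
    (blb_int_le measurableSet_ball (D.fin _ _) (fun b => blbC_mem _)
      (blb_bump0 (B := B) a s h6 i))

variable {B}

theorem Cv.integral {g : ℕ → X → ℝ} {f : B.Z → ℝ} (hg : B.Cv g f) (hf : Continuous f)
    (hm : ∀ i, AEStronglyMeasurable (g i) μ) {R : ℝ}
    (h0 : ∀ᶠ i in (U : Filter ℕ), ∀ a, a ∉ ball (y i) (R * r i) → g i a = 0) :
    Tendsto (fun i => (r i ^ n)⁻¹ * ∫ a, g i a ∂μ) U (𝓝 (∫ z, f z ∂B.ν)) :=
  blb_integral hg hf hm h0

theorem Cv.add {g g' : ℕ → X → ℝ} {f f' : B.Z → ℝ} (h : B.Cv g f) (h' : B.Cv g' f') :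
    B.Cv (fun i a => g i a + g' i a) (fun z => f z + f' z) := by
  intro R ε hε
  filter_upwards [h R _ (half_pos hε), h' R _ (half_pos hε)] with i h1 h2 a ha
  rw [add_sub_add_comm]
  linarith [abs_add_le (g i a - f (B.q i a)) (g' i a - f' (B.q i a)), h1 a ha, h2 a ha]

theorem Cv.mul {g g' : ℕ → X → ℝ} {f f' : B.Z → ℝ} (h : B.Cv g f) (h' : B.Cv g' f')
    (hf : Continuous f) (hf' : Continuous f') :
    B.Cv (fun i a => g i a * g' i a) (fun z => f z * f' z) :=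
  blb_mul h h' hf hf'

theorem Cv.comp {g : ℕ → X → ℝ} {f : B.Z → ℝ} (h : B.Cv g f) (hf : Continuous f) {Φ : ℝ → ℝ}
    (hΦ : Continuous Φ) : B.Cv (fun i a => Φ (g i a)) (fun z => Φ (f z)) :=
  blb_comp h hf hΦ

theorem Cv.pk (h : HP D κ n) {g : ℕ → X → ℝ} {f : B.Z → ℝ} (hg : B.Cv g f) (hf : Continuous f)
    (hm : ∀ i, AEStronglyMeasurable (g i) μ) {M : ℝ}
    (hM : ∀ᶠ i in (U : Filter ℕ), ∀ a, |g i a| ≤ M) {t : ℝ} (ht : 0 < t) :
    B.Cv (fun i => D.Pk (r i ^ 2 * t) (g i)) (B.E.Pk t f) := by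
  have hZ := B.model.toHP
  have hb := blb_bdd hg hf hM
  refine cv_of_lf (hZ.pk_cont hf.aestronglyMeasurable ⟨M, ae_of_all _ hb⟩ ht)
    fun a z ha => blb_approx fun ε hε => ?_
  obtain ⟨C, hC, h1⟩ := blb_tail h
  obtain ⟨C', hC', h2⟩ := blb_tail hZ
  obtain ⟨ρ, ⟨h3, h4⟩, h5⟩ := (((blb_exp hC ht M hε).and (blb_exp hC' ht M hε)).and
    (eventually_ge_atTop 0)).exists
  obtain ⟨R, hR⟩ := blb_far ha (ρ + 1)
  have hc : Continuous fun w => blbC ((ρ + 1 - dist w z) / 1) := blbC_cont.comp (by fun_prop)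
  have hc' : ∀ i, Continuous fun b => blbC ((ρ + 1 - dist b (a i) / r i) / 1) := fun i =>
    blbC_cont.comp (by fun_prop)
  have hp : Continuous (B.E.p t z) := (hZ.p_cont ht).comp (Continuous.prodMk_right z)
  have hs := Real.sqrt_pos.2 ht
  have h6 := blb_integral (blb_mul (blb_ker ha ht) (blb_mul (blb_bump ha (ρ + 1) 1) hg hc hf) hp
    (hc.mul hf)) (hp.mul (hc.mul hf)) (fun i => (continuous_const.mul
      ((h.p_cont (mul_pos (pow_pos (B.seq.pos i) 2) ht)).comp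
        (Continuous.prodMk_right (a i)))).aestronglyMeasurable.mul
      ((hc' i).aestronglyMeasurable.mul (hm i)))
    (hR.mono fun i hi b hb => by
      rw [blb_bump0 (B := B) a _ one_pos i b fun h => hb (hi h), zero_mul, mul_zero])
  refine ⟨_, _, h6, ?_, ?_⟩
  · filter_upwards [hM, B.blb_time κ t] with i h7 h8
    have hr := B.seq.pos i
    have e : (r i * √t) ^ 2 = r i ^ 2 * t := by rw [mul_pow, Real.sq_sqrt ht.le]
    have h9 := h1 (g i) _ M (r i * √t) (ρ * r i) (a i) (hm i) (hc' i) h7 (fun b => blbC_mem _)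
      (by positivity) (fun b hb => blbC_one (by
        linarith [(div_lt_iff₀ hr).2 (mem_ball.1 hb)])) (by positivity) (by rwa [e])
    rw [e, show (ρ * r i) ^ 2 / (C * (r i ^ 2 * t)) = ρ ^ 2 / (C * t) by field_simp] at h9
    simp only [mul_assoc (r i ^ n), integral_const_mul, inv_mul_cancel_left₀ (pow_pos hr n).ne']
    exact h9.trans h3
  · have h9 := h2 f _ M (√t) ρ z hf.aestronglyMeasurable hc hb (fun b => blbC_mem _) h5
      (fun b hb => blbC_one (by linarith [mem_ball.1 hb])) hs (by simp)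
    rw [Real.sq_sqrt ht.le] at h9
    exact h9.trans h4

theorem Cv.lk (h : HP D κ n) {g : ℕ → X → ℝ} {f : B.Z → ℝ} (hg : B.Cv g f) (hf : Continuous f)
    (hm : ∀ i, AEStronglyMeasurable (g i) μ) {M : ℝ}
    (hM : ∀ᶠ i in (U : Filter ℕ), ∀ a, |g i a| ≤ M) {t : ℝ} (ht : 0 < t) :
    B.Cv (fun i a => r i ^ 2 * D.Lk (r i ^ 2 * t) (g i) a) (B.E.Lk t f) := by
  have hZ := B.model.toHP
  have hb := blb_bdd hg hf hM
  have hf' := hf.aestronglyMeasurable (μ := B.ν)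
  refine cv_of_lf (hZ.pk_bdd f t M hf' (ae_of_all _ hb) ht).2.2.2.1
    fun a z ha => blb_approx fun ε hε => ?_
  have h1 : Tendsto (fun η : ℝ => 4 * (√n * Real.exp 2) ^ 2 * M * η / t ^ 2) (𝓝[>] 0) (𝓝 0) := by
    have : Continuous fun η : ℝ => 4 * (√n * Real.exp 2) ^ 2 * M * η / t ^ 2 := by fun_prop
    simpa using (this.tendsto 0).mono_left nhdsWithin_le_nhds
  obtain ⟨η, h2, hη, h3⟩ := ((h1.eventually (Iic_mem_nhds hε)).and (Ioc_mem_nhdsGT ht)).exists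
  have h4 := fun s (hs : 0 < s) => (hg.pk h hf hm hM hs).lf
    (hZ.pk_cont hf' ⟨M, ae_of_all _ hb⟩ hs) ha
  refine ⟨_, _, ((h4 _ (add_pos ht hη)).sub (h4 t ht)).div_const η, ?_,
    (blb_taylor hZ hf' hb (by simp) hη h3 z).trans h2⟩
  filter_upwards [hM, B.blb_time κ t] with i h5 h6
  have hr := pow_pos (B.seq.pos i) 2
  have hr' := (B.seq.pos i).ne'
  have h7 := mul_le_mul_of_nonneg_left (blb_taylor h (hm i) h5 h6 (mul_pos hr hη)
    (mul_le_mul_of_nonneg_left h3 hr.le) (a i)) hr.le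
  rw [← abs_of_pos hr, ← abs_mul, abs_of_pos hr, ← mul_add] at h7
  refine le_trans (le_of_eq_of_le (congrArg _ ?_) (h7.trans_eq ?_)) h2
  · field_simp
  · field_simp

end Blow

end RC
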