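import Pool.Agent.P.MP_6472e5_gt.Core

/-! Lipschitz functions with bounded support, cutoffs, bounded and locally integrable functions. -/

set_option autoImplicit false
set_option linter.unusedSectionVars false

noncomputable section

namespace RC

open MeasureTheory Set Filter Topology Metric

variable {X : Type} [MetricSpace X] [SecondCountableTopology X] [MeasurableSpace X] [BorelSpace X]
  {μ : Measure X}

theorem ca0_ball {f : X → ℝ} (hf : LipB f) (x : X) :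
    ∃ R, 0 < R ∧ ∀ y, y ∉ ball x R → f y = 0 := by
  obtain ⟨R, hR, h⟩ := hf.2.subset_ball_lt 0 x
  exact ⟨R, hR, fun y hy => by_contra fun h0 => hy (h h0)⟩

theorem ca0_on {f : X → ℝ} {L : NNReal} {x : X} {r : ℝ} (hf : LipschitzOnWith L f (ball x r))
    {y : X} (hy : y ∈ ball x r) : |f y| ≤ |f x| + L * r := by
  have h1 := hf.dist_le_mul y hy x (mem_ball_self (pos_of_mem_ball hy))
  have h2 := mul_le_mul_of_nonneg_left (mem_ball.1 hy).le L.2
  rw [Real.dist_eq] at h1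
  have h3 := abs_sub_abs_le_abs_sub (f y) (f x)
  change (L : ℝ) * dist y x ≤ L * r at h2
  linarith

theorem ca0_bound {f : X → ℝ} (hf : LipB f) : ∃ C, ∀ x, |f x| ≤ C := by
  rcases isEmpty_or_nonempty X with h | ⟨⟨x⟩⟩
  · exact ⟨0, isEmptyElim⟩
  obtain ⟨R, hR, h⟩ := ca0_ball hf x
  obtain ⟨L, hL⟩ := hf.1
  refine ⟨|f x| + L * R, fun y => ?_⟩
  by_cases hy : y ∈ ball x R
  · exact ca0_on hL.lipschitzOnWith hy
  · rw [h y hy, abs_zero]
    positivity

theorem ca0_mul {f g : X → ℝ} (hf : LipB f)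
    (hg : ∀ x r, ∃ L, LipschitzOnWith L g (ball x r)) : LipB (f * g) := by
  refine ⟨?_, hf.2.subset (Function.support_mul_subset_left f g)⟩
  rcases isEmpty_or_nonempty X with h | ⟨⟨x₀⟩⟩
  · exact ⟨0, isEmptyElim⟩
  obtain ⟨R, hR, h0⟩ := ca0_ball hf x₀
  obtain ⟨C, hC⟩ := ca0_bound hf
  obtain ⟨L, hL⟩ := hf.1
  obtain ⟨L', hL'⟩ := hg x₀ R
  have hC0 : 0 ≤ C := (abs_nonneg _).trans (hC x₀)
  have key : ∀ x ∈ ball x₀ R, ∀ y, |f x * g x - f y * g y| ≤
      (L * (|g x₀| + L' * R) + C * L') * dist x y := fun x hx y => by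
    have h1 := hL.dist_le_mul x y
    rw [Real.dist_eq] at h1
    have h2 : |(f x - f y) * g x| ≤ L * dist x y * (|g x₀| + L' * R) := by
      rw [abs_mul]
      exact mul_le_mul h1 (ca0_on hL' hx) (abs_nonneg _) (by positivity)
    have h3 : |f y * (g x - g y)| ≤ C * (L' * dist x y) := by
      by_cases hy : y ∈ ball x₀ R
      · have h4 := hL'.dist_le_mul x hx y hy
        rw [Real.dist_eq] at h4
        rw [abs_mul]
        exact mul_le_mul (hC y) h4 (abs_nonneg _) hC0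
      · rw [h0 y hy, zero_mul, abs_zero]
        positivity
    rw [show f x * g x - f y * g y = (f x - f y) * g x + f y * (g x - g y) by ring]
    refine (abs_add_le _ _).trans ?_
    linarith
  refine ⟨_, LipschitzWith.of_dist_le' (K := L * (|g x₀| + L' * R) + C * L') fun x y => ?_⟩
  rw [Real.dist_eq, Pi.mul_apply, Pi.mul_apply]
  by_cases hx : x ∈ ball x₀ R
  · exact key x hx y
  by_cases hy : y ∈ ball x₀ R
  · rw [abs_sub_comm, dist_comm]
    exact key y hy x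
  · rw [h0 x hx, h0 y hy, zero_mul, zero_mul, sub_self, abs_zero]
    positivity

theorem ca0_cut {φ : X → ℝ} (hφ : LipschitzWith 1 φ) {r R : ℝ} (h : r < R)
    (hb : Bornology.IsBounded {x | φ x < R}) :
    ∃ χ : X → ℝ, LipB χ ∧ (∀ x, 0 ≤ χ x ∧ χ x ≤ 1) ∧ (∀ x, φ x ≤ r → χ x = 1) ∧
      (∀ x, R ≤ φ x → χ x = 0) ∧ ∀ x y, |χ x - χ y| ≤ dist x y / (R - r) := by
  have hd : 0 < R - r := sub_pos.2 h
  have h0 : ∀ x, R ≤ φ x → max (min ((R - φ x) / (R - r)) 1) 0 = 0 := fun x hx =>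
    max_eq_right (min_le_of_left_le (div_nonpos_of_nonpos_of_nonneg (by linarith) hd.le))
  have h1 : ∀ x y, |max (min ((R - φ x) / (R - r)) 1) 0 - max (min ((R - φ y) / (R - r)) 1) 0| ≤
      dist x y / (R - r) := fun x y => by
    refine (abs_max_sub_max_le_abs _ _ _).trans ((abs_min_sub_min_le_max _ _ _ _).trans ?_)
    rw [sub_self, abs_zero, max_eq_left (abs_nonneg _), ← sub_div, abs_div, abs_of_pos hd,
      sub_sub_sub_cancel_left, abs_sub_comm]
    have h2 := hφ.dist_le_mul x y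
    rw [Real.dist_eq, NNReal.coe_one, one_mul] at h2
    exact div_le_div_of_nonneg_right h2 hd.le
  refine ⟨fun x => max (min ((R - φ x) / (R - r)) 1) 0,
    ⟨⟨_, LipschitzWith.of_dist_le' (K := (R - r)⁻¹) fun x y => ?_⟩, hb.subset fun x hx => ?_⟩,
    fun x => ⟨le_max_right _ _, max_le (min_le_right _ _) zero_le_one⟩, fun x hx => ?_, h0, h1⟩
  · rw [Real.dist_eq, ← div_eq_inv_mul]
    exact h1 x y
  · exact not_le.1 fun h2 => hx (h0 x h2)
  · have h2 : 1 ≤ (R - φ x) / (R - r) := (one_le_div hd).2 (by linarith)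
    simp only [min_eq_right h2, max_eq_left zero_le_one]

theorem LipB.add {f g : X → ℝ} (hf : LipB f) (hg : LipB g) : LipB (f + g) := by
  obtain ⟨⟨L, hL⟩, h⟩ := hf
  obtain ⟨⟨L', hL'⟩, h'⟩ := hg
  exact ⟨⟨_, hL.add hL'⟩, (h.union h').subset (Function.support_add f g)⟩

theorem LipB.smul {f : X → ℝ} (c : ℝ) (hf : LipB f) : LipB (c • f) := by
  obtain ⟨⟨L, hL⟩, h⟩ := hf
  exact ⟨⟨_, (lipschitzWith_smul c).comp hL⟩, h.subset (Function.support_const_smul_subset c f)⟩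

theorem LipB.neg {f : X → ℝ} (hf : LipB f) : LipB (-f) := by
  simpa using hf.smul (-1)

theorem LipB.sub {f g : X → ℝ} (hf : LipB f) (hg : LipB g) : LipB (f - g) := by
  rw [sub_eq_add_neg]
  exact hf.add hg.neg

theorem LipB.zero : LipB (0 : X → ℝ) :=
  ⟨⟨0, LipschitzWith.const 0⟩, by simp⟩

theorem LipB.continuous {f : X → ℝ} (hf : LipB f) : Continuous f :=
  hf.1.choose_spec.continuous

theorem LipB.bound {f : X → ℝ} (hf : LipB f) : ∃ C, ∀ x, |f x| ≤ C := ca0_bound hf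

theorem LipB.bdd {f : X → ℝ} (hf : LipB f) : Bdd μ f :=
  hf.bound.imp fun _ h => ae_of_all _ h

theorem LipB.exists_ball {f : X → ℝ} (hf : LipB f) (x : X) :
    ∃ R, 0 < R ∧ ∀ y, y ∉ ball x R → f y = 0 := ca0_ball hf x

theorem LipB.mul {f g : X → ℝ} (hf : LipB f) (hg : LipB g) : LipB (f * g) :=
  ca0_mul hf fun _ _ => hg.1.imp fun _ h => h.lipschitzOnWith

/-- Product with a function that is Lipschitz on every ball. -/
theorem LipB.mul_loc {f g : X → ℝ} (hf : LipB f)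
    (hg : ∀ x r, ∃ L, LipschitzOnWith L g (ball x r)) : LipB (f * g) := ca0_mul hf hg

theorem LipB.comp {f : X → ℝ} {Φ : ℝ → ℝ} {L : NNReal} (hf : LipB f) (hΦ : LipschitzWith L Φ)
    (h0 : Φ 0 = 0) : LipB (fun x => Φ (f x)) := by
  obtain ⟨⟨L', hL⟩, h⟩ := hf
  refine ⟨⟨_, hΦ.comp hL⟩, h.subset fun x hx h1 => hx ?_⟩
  simp only [h1, h0]

/-- Metric cutoff around a bounded set. -/
theorem exists_cutoff {S : Set X} (hS : Bornology.IsBounded S) {r R : ℝ} (hr : 0 ≤ r) (h : r < R) :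
    ∃ χ : X → ℝ, LipB χ ∧ (∀ x, 0 ≤ χ x ∧ χ x ≤ 1) ∧ (∀ x ∈ cthickening r S, χ x = 1) ∧
      (∀ x, x ∉ thickening R S → χ x = 0) ∧ ∀ x y, |χ x - χ y| ≤ dist x y / (R - r) := by
  rcases S.eq_empty_or_nonempty with rfl | hne
  · refine ⟨0, LipB.zero, fun x => ⟨le_rfl, zero_le_one⟩, by simp, fun _ _ => rfl, fun x y => ?_⟩
    simpa using div_nonneg dist_nonneg (sub_pos.2 h).le
  obtain ⟨χ, h1, h2, h3, h4, h5⟩ := ca0_cut (lipschitz_infDist_pt S) h
    ((hS.thickening (δ := R)).subset fun x hx => (mem_thickening_iff_infDist_lt hne).2 hx)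
  exact ⟨χ, h1, h2, fun x hx => h3 x (ENNReal.toReal_le_of_le_ofReal hr hx),
    fun x hx => h4 x (not_lt.1 fun h6 => hx ((mem_thickening_iff_infDist_lt hne).2 h6)), h5⟩

/-- Metric cutoff around a point. -/
theorem exists_cutoff_ball (x : X) {r R : ℝ} (h : r < R) :
    ∃ χ : X → ℝ, LipB χ ∧ (∀ y, 0 ≤ χ y ∧ χ y ≤ 1) ∧ (∀ y ∈ closedBall x r, χ y = 1) ∧
      (∀ y, y ∉ ball x R → χ y = 0) ∧ ∀ y z, |χ y - χ z| ≤ dist y z / (R - r) := by
  obtain ⟨χ, h1, h2, h3, h4, h5⟩ := ca0_cut (LipschitzWith.dist_left x) h isBounded_ball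
  exact ⟨χ, h1, h2, h3, fun y hy => h4 y (not_lt.1 hy), h5⟩

/-- A Lipschitz function coincides on a ball with one of bounded support and the same constant. -/
theorem exists_lipB_eqOn {f : X → ℝ} {L : NNReal} {x : X} {r : ℝ} (hL : 0 < L) (hr : 0 < r)
    (hf : LipschitzOnWith L f (ball x r)) :
    ∃ g, LipB g ∧ LipschitzWith L g ∧ EqOn g f (ball x r) ∧ ∀ y, |g y| ≤ |f x| + L * r := by
  obtain ⟨g, hg, e⟩ := hf.extend_real
  obtain ⟨M, hM⟩ : ∃ M : ℝ, M = |f x| + L * r := ⟨_, rfl⟩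
  have hM0 : 0 ≤ M := by
    rw [hM]
    positivity
  have hL' : (0 : ℝ) < L := hL
  have h1 : LipschitzWith L fun y => M + L * (r - dist y x) := LipschitzWith.of_dist_le_mul
    fun y z => by
      rw [Real.dist_eq, show M + L * (r - dist y x) - (M + L * (r - dist z x)) =
        L * (dist z x - dist y x) by ring, abs_mul, abs_of_pos hL', dist_comm y z]
      exact mul_le_mul_of_nonneg_left (abs_dist_sub_le z y x) hL'.le
  obtain ⟨ψ, hψ⟩ : ∃ ψ : X → ℝ, ψ = fun y => max (min (M + L * (r - dist y x)) M) 0 := ⟨_, rfl⟩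
  have h2 : LipschitzWith L ψ := hψ ▸ (h1.min_const M).max_const 0
  have h3 : ∀ y, 0 ≤ ψ y ∧ ψ y ≤ M := fun y => by
    rw [hψ]
    exact ⟨le_max_right _ _, max_le (min_le_right _ _) hM0⟩
  have h4 : LipschitzWith L fun y => max (-ψ y) (min (ψ y) (g y)) := by
    simpa using h2.neg.max (h2.min hg)
  have h5 : ∀ y, |max (-ψ y) (min (ψ y) (g y))| ≤ ψ y := fun y =>
    abs_le.2 ⟨le_max_left _ _, max_le (by linarith [(h3 y).1]) (min_le_left _ _)⟩
  refine ⟨_, ⟨⟨L, h4⟩, (isBounded_ball (x := x) (r := r + M / L)).subset fun y hy => ?_⟩, h4,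
    fun y hy => ?_, fun y => hM ▸ (h5 y).trans (h3 y).2⟩
  · by_contra h6
    rw [mem_ball, not_lt, ← le_sub_iff_add_le', div_le_iff₀ hL'] at h6
    have h7 : ψ y = 0 := by
      rw [hψ]
      exact max_eq_right (min_le_of_left_le (by linarith))
    exact hy (abs_nonpos_iff.1 ((h5 y).trans h7.le))
  · have h6 : ψ y = M := by
      have := mul_pos hL' (sub_pos.2 (mem_ball.1 hy))
      rw [hψ]
      simp only
      rw [min_eq_right (by linarith), max_eq_left hM0]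
    have h7 := abs_le.1 (ca0_on hf hy)
    rw [← hM] at h7
    simp only
    rw [h6, ← e hy, min_eq_right h7.2, max_eq_right h7.1]

theorem Bdd.congr {f g : X → ℝ} (hf : Bdd μ f) (h : f =ᵐ[μ] g) : Bdd μ g :=
  hf.imp fun C hC => by
    filter_upwards [hC, h] with x h1 h2 using h2 ▸ h1

theorem Bdd.add {f g : X → ℝ} (hf : Bdd μ f) (hg : Bdd μ g) : Bdd μ (f + g) := by
  obtain ⟨C, hC⟩ := hf
  obtain ⟨C', hC'⟩ := hg
  refine ⟨C + C', ?_⟩
  filter_upwards [hC, hC'] with x h1 h2 using (abs_add_le _ _).trans (add_le_add h1 h2)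

theorem Bdd.mul {f g : X → ℝ} (hf : Bdd μ f) (hg : Bdd μ g) : Bdd μ (f * g) := by
  obtain ⟨C, hC⟩ := hf
  obtain ⟨C', hC'⟩ := hg
  refine ⟨C * C', ?_⟩
  filter_upwards [hC, hC'] with x h1 h2
  rw [Pi.mul_apply, abs_mul]
  exact mul_le_mul h1 h2 (abs_nonneg _) ((abs_nonneg _).trans h1)

theorem Bdd.smul {f : X → ℝ} (c : ℝ) (hf : Bdd μ f) : Bdd μ (c • f) :=
  Bdd.mul (f := fun _ => c) ⟨|c|, ae_of_all _ fun _ => le_rfl⟩ hf

theorem Bdd.neg {f : X → ℝ} (hf : Bdd μ f) : Bdd μ (-f) := by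
  simpa using hf.smul (-1)

theorem Bdd.sub {f g : X → ℝ} (hf : Bdd μ f) (hg : Bdd μ g) : Bdd μ (f - g) := by
  rw [sub_eq_add_neg]
  exact hf.add hg.neg

theorem Bdd.const (c : ℝ) : Bdd μ (fun _ => c) := ⟨|c|, ae_of_all _ fun _ => le_rfl⟩

theorem Bdd.nonneg {f : X → ℝ} (hf : Bdd μ f) : ∃ C, 0 < C ∧ ∀ᵐ x ∂μ, |f x| ≤ C := by
  obtain ⟨C, hC⟩ := hf
  exact ⟨max C 1, lt_max_of_lt_right one_pos, hC.mono fun x hx => le_max_of_le_left hx⟩

theorem Bdd.locBdd {f : X → ℝ} (hf : Bdd μ f) : LocBdd μ f :=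
  fun _ _ => hf.imp fun _ hC => hC.mono fun _ h _ => h

theorem Bdd.mul_integrable {f g : X → ℝ} (hf : Bdd μ f) (hm : AEStronglyMeasurable f μ)
    (hg : Integrable g μ) : Integrable (fun x => f x * g x) μ :=
  hg.bdd_mul hm hf.choose_spec

theorem Bdd.mul_memLp {f g : X → ℝ} (hf : Bdd μ f) (hm : AEStronglyMeasurable f μ)
    (hg : MemLp g 2 μ) : MemLp (fun x => f x * g x) 2 μ := by
  obtain ⟨C, hC⟩ := hf
  refine hg.of_le_mul (c := C) (hm.mul hg.1) (hC.mono fun x hx => ?_)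
  rw [norm_mul]
  exact mul_le_mul_of_nonneg_right hx (norm_nonneg _)

theorem bdd_iff_memLp {f : X → ℝ} (hm : AEStronglyMeasurable f μ) : Bdd μ f ↔ MemLp f ⊤ μ :=
  ⟨fun ⟨C, hC⟩ => memLp_top_of_bound hm C hC, fun h => ⟨_, ae_le_lpNorm_exponent_top h⟩⟩

theorem memLp_of_int_bdd {f : X → ℝ} (hf : Integrable f μ) (hb : Bdd μ f) : MemLp f 2 μ := by
  refine (memLp_two_iff_integrable_sq hf.1).2 ?_
  simpa only [sq] using hb.mul_integrable hf.1 hf

theorem locBdd_of_continuous [ProperSpace X] {f : X → ℝ} (hf : Continuous f) : LocBdd μ f := by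
  intro x r
  obtain ⟨C, hC⟩ := (isCompact_closedBall x r).exists_bound_of_continuousOn hf.continuousOn
  exact ⟨C, ae_of_all _ fun y hy => hC y (ball_subset_closedBall hy)⟩

theorem locBdd_of_lip {f : X → ℝ} (hf : ∀ x r, ∃ L, LipschitzOnWith L f (ball x r)) :
    LocBdd μ f := fun x r => by
  obtain ⟨L, hL⟩ := hf x r
  exact ⟨_, ae_of_all _ fun y hy => ca0_on hL hy⟩

theorem LocBdd.add {f g : X → ℝ} (hf : LocBdd μ f) (hg : LocBdd μ g) : LocBdd μ (f + g) := by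
  intro x r
  obtain ⟨C, hC⟩ := hf x r
  obtain ⟨C', hC'⟩ := hg x r
  refine ⟨C + C', ?_⟩
  filter_upwards [hC, hC'] with y h1 h2 hy
  exact (abs_add_le _ _).trans (add_le_add (h1 hy) (h2 hy))

theorem LocBdd.mul {f g : X → ℝ} (hf : LocBdd μ f) (hg : LocBdd μ g) : LocBdd μ (f * g) := by
  intro x r
  obtain ⟨C, hC⟩ := hf x r
  obtain ⟨C', hC'⟩ := hg x r
  refine ⟨C * C', ?_⟩
  filter_upwards [hC, hC'] with y h1 h2 hy
  rw [Pi.mul_apply, abs_mul]
  exact mul_le_mul (h1 hy) (h2 hy) (abs_nonneg _) ((abs_nonneg _).trans (h1 hy))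

theorem LocBdd.congr {f g : X → ℝ} (hf : LocBdd μ f) (h : f =ᵐ[μ] g) : LocBdd μ g :=
  fun x r => (hf x r).imp fun C hC => by
    filter_upwards [hC, h] with y h1 h2 using h2 ▸ h1

theorem LocInt.aesm {g : X → ℝ} (hg : LocInt μ g) : AEStronglyMeasurable g μ := by
  rcases isEmpty_or_nonempty X with h | ⟨⟨x⟩⟩
  · exact .of_subsingleton_dom
  rw [← Measure.restrict_univ (μ := μ), ← iUnion_ball_nat x, aestronglyMeasurable_iUnion_iff]
  exact fun n => (hg x n).1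

theorem locInt_of_int {g : X → ℝ} (hg : Integrable g μ) : LocInt μ g := fun _ _ => hg.integrableOn

theorem LocInt.add {f g : X → ℝ} (hf : LocInt μ f) (hg : LocInt μ g) : LocInt μ (f + g) :=
  fun x r => (hf x r).add (hg x r)

theorem LocInt.smul {f : X → ℝ} (c : ℝ) (hf : LocInt μ f) : LocInt μ (c • f) :=
  fun x r => Integrable.smul c (hf x r)

theorem LocInt.sub {f g : X → ℝ} (hf : LocInt μ f) (hg : LocInt μ g) : LocInt μ (f - g) :=
  fun x r => (hf x r).sub (hg x r)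

theorem LocInt.congr {f g : X → ℝ} (hf : LocInt μ f) (h : f =ᵐ[μ] g) : LocInt μ g :=
  fun x r => (hf x r).congr_fun_ae (ae_restrict_of_ae h)

theorem LocBdd.mul_locInt {f g : X → ℝ} (hf : LocBdd μ f) (hm : AEStronglyMeasurable f μ)
    (hg : LocInt μ g) : LocInt μ (fun x => f x * g x) := fun x r => by
  obtain ⟨C, hC⟩ := hf x r
  exact Integrable.bdd_mul (hg x r) hm.restrict ((ae_restrict_iff' measurableSet_ball).2 hC)

/-- A locally integrable function times a bounded function vanishing outside a ball. -/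
theorem LocInt.mul_integrable {g φ : X → ℝ} (hg : LocInt μ g) (hm : AEStronglyMeasurable φ μ)
    (hb : Bdd μ φ) {x : X} {R : ℝ} (h0 : ∀ᵐ y ∂μ, y ∉ ball x R → φ y = 0) :
    Integrable (fun y => g y * φ y) μ := by
  have h1 := hb.locBdd.mul_locInt hm hg x R
  simp only [mul_comm (φ _)] at h1
  refine h1.integrable_of_ae_notMem_eq_zero (h0.mono fun y h hy => ?_)
  rw [h hy, mul_zero]

theorem LocInt.mul_lipB {g φ : X → ℝ} (hg : LocInt μ g) (hφ : LipB φ) :
    Integrable (fun y => g y * φ y) μ := by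
  rcases isEmpty_or_nonempty X with h | ⟨⟨x⟩⟩
  · rw [Measure.eq_zero_of_isEmpty μ]
    exact integrable_zero_measure
  obtain ⟨R, -, h⟩ := hφ.exists_ball x
  exact hg.mul_integrable hφ.continuous.aestronglyMeasurable hφ.bdd (ae_of_all _ h)

/-- Continuous functions that are ordered almost everywhere on an open set are ordered. -/
theorem le_of_ae_le (hp : ∀ x r, 0 < r → 0 < μ (ball x r)) {f g : X → ℝ} {U : Set X}
    (hU : IsOpen U) (hf : ContinuousOn f U) (hg : ContinuousOn g U)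
    (h : ∀ᵐ x ∂μ, x ∈ U → f x ≤ g x) : ∀ x ∈ U, f x ≤ g x := by
  intro x hx
  by_contra h1
  have h2 := ((hg.continuousAt (hU.mem_nhds hx)).eventually_lt (hf.continuousAt (hU.mem_nhds hx))
    (not_le.1 h1)).and (hU.mem_nhds hx)
  obtain ⟨r, hr, h3⟩ := Metric.eventually_nhds_iff_ball.1 h2
  refine (hp x r hr).ne' (measure_mono_null (fun y hy => ?_) (ae_iff.1 h))
  exact fun h4 => (h3 y hy).1.not_ge (h4 (h3 y hy).2)

theorem eq_of_ae_eq (hp : ∀ x r, 0 < r → 0 < μ (ball x r)) {f g : X → ℝ} {U : Set X}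
    (hU : IsOpen U) (hf : ContinuousOn f U) (hg : ContinuousOn g U)
    (h : ∀ᵐ x ∂μ, x ∈ U → f x = g x) : ∀ x ∈ U, f x = g x := fun x hx =>
  (le_of_ae_le hp hU hf hg (h.mono fun _ h1 h2 => (h1 h2).le) x hx).antisymm
    (le_of_ae_le hp hU hg hf (h.mono fun _ h1 h2 => (h1 h2).ge) x hx)

end RC
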