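import Pool.Agent.P.MP_6472e5_gt.Ca0
import Pool.Agent.P.MP_6472e5_gt.Ca0n

/-! Approximation by Lipschitz functions. -/

set_option autoImplicit false
set_option linter.unusedSectionVars false

noncomputable section

namespace RC

open MeasureTheory Set Filter Topology Metric

variable {X : Type} [MetricSpace X] [SecondCountableTopology X] [MeasurableSpace X] [BorelSpace X]
  {μ : Measure X}

namespace DS

variable (D : DS μ)
include D

theorem locFin : IsLocallyFiniteMeasure μ :=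
  ⟨fun x => ⟨ball x 1, ball_mem_nhds x one_pos, D.fin x 1⟩⟩

theorem sfin : SigmaFinite μ := by
  have := D.locFin
  infer_instance

theorem fin_bdd {S : Set X} (hS : Bornology.IsBounded S) : μ S < ⊤ := by
  rcases S.eq_empty_or_nonempty with rfl | ⟨x, -⟩
  · simp
  · obtain ⟨r, hr⟩ := hS.subset_ball x
    exact (measure_mono hr).trans_lt (D.fin x r)

theorem lipB_int {f : X → ℝ} (hf : LipB f) : Integrable f μ := by
  obtain ⟨C, hC⟩ := hf.bound
  rw [← integrableOn_iff_integrable_of_support_subset (s := Function.support f) subset_rfl]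
  exact Measure.integrableOn_of_bounded (M := C) (D.fin_bdd hf.2).ne
    hf.continuous.aestronglyMeasurable (Eventually.of_forall fun x => hC x)

theorem lipB_memLp {f : X → ℝ} (hf : LipB f) : MemLp f 2 μ :=
  memLp_of_int_bdd (D.lipB_int hf) hf.bdd

theorem locInt_of_memLp {g : X → ℝ} (hg : MemLp g 2 μ) : LocInt μ g := by
  intro x r
  have : IsFiniteMeasure (μ.restrict (ball x r)) := isFiniteMeasure_restrict.2 (D.fin x r).ne
  exact (hg.restrict (ball x r)).integrable (by norm_num)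

theorem locInt_of_locBdd {g : X → ℝ} (hm : AEStronglyMeasurable g μ) (hg : LocBdd μ g) :
    LocInt μ g := by
  intro x r
  obtain ⟨C, hC⟩ := hg x r
  refine Measure.integrableOn_of_bounded (M := C) (D.fin x r).ne hm ?_
  exact (ae_restrict_iff' measurableSet_ball).2 hC

theorem memLp_of_bdd {g : X → ℝ} (hm : AEStronglyMeasurable g μ) (hg : Bdd μ g) {x : X} {R : ℝ}
    (h0 : ∀ᵐ y ∂μ, y ∉ ball x R → g y = 0) : MemLp g 2 μ ∧ Integrable g μ := by
  have h1 : IntegrableOn g (ball x R) μ := D.locInt_of_locBdd hm hg.locBdd x R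
  have h2 : Integrable g μ := by
    refine ((integrable_indicator_iff measurableSet_ball).2 h1).congr ?_
    filter_upwards [h0] with y hy
    by_cases hb : y ∈ ball x R
    · rw [indicator_of_mem hb]
    · rw [indicator_of_notMem hb, hy hb]
  exact ⟨memLp_of_int_bdd h2 hg, h2⟩

theorem ca0m_ind {s : Set X} (hs : MeasurableSet s) (hμ : μ s < ⊤) {η : ENNReal} (hη : η ≠ 0) :
    ∃ χ : X → ℝ, LipB χ ∧ (∀ x, 0 ≤ χ x ∧ χ x ≤ 1) ∧ ∃ A : Set X, μ A ≤ η ∧
      ∀ x, x ∉ A → χ x = s.indicator (fun _ => (1 : ℝ)) x := by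
  have := D.locFin
  rcases s.eq_empty_or_nonempty with rfl | ⟨x0, -⟩
  · exact ⟨0, LipB.zero, fun x => by simp, ∅, by simp, fun x _ => by simp⟩
  obtain ⟨δ, hδ0, hδ⟩ : ∃ δ : ENNReal, 0 < δ ∧ δ + δ + δ ≤ η := by
    refine ⟨η / 3, ENNReal.div_pos hη (by norm_num), le_of_eq (ENNReal.add_thirds η)⟩
  have h1 : Tendsto (μ ∘ fun n : ℕ => s \ ball x0 n) atTop (𝓝 (μ (⋂ n : ℕ, s \ ball x0 n))) := by
    refine tendsto_measure_iInter_atTop
      (fun n => (hs.diff measurableSet_ball).nullMeasurableSet) ?_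
      ⟨0, ((measure_mono sdiff_subset).trans_lt hμ).ne⟩
    intro m n hmn
    exact sdiff_subset_sdiff_right (ball_subset_ball (by exact_mod_cast hmn))
  have h2 : (⋂ n : ℕ, s \ ball x0 n) = ∅ := by
    refine eq_empty_of_forall_notMem fun y hy => ?_
    obtain ⟨n, hn⟩ := exists_nat_gt (dist y x0)
    exact (mem_iInter.1 hy n).2 hn
  rw [h2, measure_empty] at h1
  obtain ⟨n, hn⟩ := (h1.eventually (gt_mem_nhds hδ0)).exists
  have hn' : μ (s \ ball x0 n) < δ := hn
  obtain ⟨F, hFs, hFc, hF⟩ := (hs.inter measurableSet_ball).exists_isClosed_sdiff_lt (μ := μ)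
    (((measure_mono inter_subset_left).trans_lt hμ).ne : μ (s ∩ ball x0 n) ≠ ⊤) hδ0.ne'
  have hFb : Bornology.IsBounded F := isBounded_ball.subset (hFs.trans inter_subset_right)
  have hFμ : μ F ≠ ⊤ := (D.fin_bdd hFb).ne
  have h3 := tendsto_measure_thickening_of_isClosed (μ := μ)
    ⟨1, one_pos, (D.fin_bdd hFb.thickening).ne⟩ hFc
  obtain ⟨r, hr, hr0⟩ := ((h3.eventually (gt_mem_nhds (ENNReal.lt_add_right hFμ hδ0.ne'))).and
    self_mem_nhdsWithin).exists
  have hr0' : 0 < r := hr0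
  have h4 : μ (thickening r F \ F) < δ :=
    measure_sdiff_lt_of_lt_add hFc.measurableSet.nullMeasurableSet (self_subset_thickening hr0' F)
      hFμ hr
  obtain ⟨χ, hχ, hχ01, hχ1, hχ0, -⟩ := exists_cutoff hFb le_rfl hr0'
  refine ⟨χ, hχ, hχ01, (s \ ball x0 n) ∪ ((s ∩ ball x0 n) \ F) ∪ (thickening r F \ F), ?_, ?_⟩
  · refine le_trans ?_ hδ
    refine (measure_union_le _ _).trans (add_le_add ?_ h4.le)
    exact (measure_union_le _ _).trans (add_le_add hn'.le hF.le)
  · intro x hx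
    by_cases hxF : x ∈ F
    · rw [hχ1 x (self_subset_cthickening F hxF), indicator_of_mem (hFs hxF).1]
    · have hxs : x ∉ s := by
        intro hxs
        by_cases hb : x ∈ ball x0 n
        · exact hx (Or.inl (Or.inr ⟨⟨hxs, hb⟩, hxF⟩))
        · exact hx (Or.inl (Or.inl ⟨hxs, hb⟩))
      rw [indicator_of_notMem hxs]
      exact hχ0 x fun ht => hx (Or.inr ⟨ht, hxF⟩)

theorem ca0m_dense {p : ENNReal} (hp : p ≠ ⊤) {f : X → ℝ} (hf : MemLp f p μ) {ε : ENNReal}
    (hε : ε ≠ 0) : ∃ g, eLpNorm (f - g) p μ ≤ ε ∧ LipB g := by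
  refine hf.induction_dense hp LipB ?_ (fun f g hf hg => hf.add hg)
    (fun f hf => hf.continuous.aestronglyMeasurable) hε
  intro c s hs hμ ε hε
  obtain ⟨η, hη0, hη⟩ := exists_eLpNorm_indicator_le (μ := μ) hp c hε
  obtain ⟨χ, hχ, hχ01, A, hA, hχA⟩ := D.ca0m_ind hs hμ (η := η) (by exact_mod_cast hη0.ne')
  refine ⟨c • χ, le_trans (eLpNorm_mono fun x => ?_) (hη A hA), hχ.smul c⟩
  have e : (c • χ - s.indicator fun _ => c) x = c * (χ x - s.indicator (fun _ => (1 : ℝ)) x) := by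
    by_cases hxs : x ∈ s
    · simp [indicator_of_mem hxs, mul_sub]
    · simp [indicator_of_notMem hxs]
  rw [e]
  by_cases hx : x ∈ A
  · rw [indicator_of_mem hx, norm_mul]
    refine mul_le_of_le_one_right (norm_nonneg _) ?_
    obtain ⟨h0, h1⟩ := hχ01 x
    rw [Real.norm_eq_abs, abs_le]
    by_cases hxs : x ∈ s
    · rw [indicator_of_mem hxs]; constructor <;> linarith
    · rw [indicator_of_notMem hxs]; constructor <;> linarith
  · rw [hχA x hx]; simp

theorem ca0m_l1 {f : X → ℝ} (hf : Integrable f μ) {ε : ℝ} (hε : 0 < ε) :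
    ∃ g, LipB g ∧ ∫ x, |g x - f x| ∂μ ≤ ε := by
  obtain ⟨g, hg, hl⟩ := D.ca0m_dense ENNReal.one_ne_top (memLp_one_iff_integrable.2 hf)
    (ε := ENNReal.ofReal ε) (by simpa using hε)
  refine ⟨g, hl, ?_⟩
  have e : ∫ x, |g x - f x| ∂μ = ∫ x, ‖(f - g) x‖ ∂μ := by
    refine integral_congr_ae (Eventually.of_forall fun x => ?_)
    simp [abs_sub_comm]
  rw [e, integral_norm_eq_lintegral_enorm (hf.sub (D.lipB_int hl)).1,
    ← eLpNorm_one_eq_lintegral_enorm]
  exact ENNReal.toReal_le_of_le_ofReal hε.le hg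

omit D in
theorem ca0m_rho {U : Set X} (hU : IsOpen U) :
    ∃ ρ : X → ℝ, LipschitzWith 1 ρ ∧ (∀ x ∈ U, 0 < ρ x) ∧ ∀ x, x ∉ U → ρ x = 0 := by
  rcases (Uᶜ).eq_empty_or_nonempty with h | h
  · refine ⟨fun _ => 1, (LipschitzWith.const _).weaken zero_le_one, fun _ _ => one_pos,
      fun x hx => ?_⟩
    exact absurd (show x ∈ Uᶜ from hx) (by rw [h]; simp)
  · refine ⟨fun x => infDist x Uᶜ, lipschitz_infDist_pt _, fun x hx => ?_, fun x hx => ?_⟩
    · exact (hU.isClosed_compl.notMem_iff_infDist_pos h).1 fun h' => h' hx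
    · exact infDist_zero_of_mem hx

omit D in
theorem ca0m_eta {U : Set X} (hU : IsOpen U) :
    ∃ η : ℕ → X → ℝ, (∀ k, ∃ L, LipschitzWith L (η k)) ∧ (∀ k x, 0 ≤ η k x ∧ η k x ≤ 1) ∧
      (∀ k, tsupport (η k) ⊆ U) ∧ ∀ x ∈ U, ∀ᶠ k in atTop, η k x = 1 := by
  obtain ⟨ρ, hρ, hρ1, hρ0⟩ := ca0m_rho hU
  refine ⟨fun k x => max 0 (min ((k : ℝ) * ρ x - 1) 1), fun k => ?_, fun k x => ?_, fun k => ?_,
    fun x hx => ?_⟩
  · have h1 : LipschitzWith (k : NNReal) (fun x => (k : ℝ) * ρ x - 1) := by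
      refine LipschitzWith.of_dist_le_mul fun x y => ?_
      have h2 := hρ.dist_le_mul x y
      rw [Real.dist_eq] at h2 ⊢
      have e : (k : ℝ) * ρ x - 1 - (k * ρ y - 1) = k * (ρ x - ρ y) := by ring
      rw [e, abs_mul, abs_of_nonneg (Nat.cast_nonneg k)]
      refine mul_le_mul_of_nonneg_left ?_ (Nat.cast_nonneg k)
      simpa using h2
    exact ⟨_, (h1.min_const 1).const_max 0⟩
  · exact ⟨le_max_left _ _, max_le zero_le_one (min_le_right _ _)⟩
  · have hc : IsClosed {x | 1 ≤ (k : ℝ) * ρ x} :=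
      isClosed_le continuous_const (continuous_const.mul hρ.continuous)
    refine (closure_minimal (fun x hx => ?_) hc).trans fun x hx => ?_
    · by_contra hlt
      have hlt' : (k : ℝ) * ρ x - 1 ≤ 0 := by
        have : ¬ (1 ≤ (k : ℝ) * ρ x) := hlt
        linarith [not_le.1 this]
      exact hx (max_eq_left ((min_le_left _ _).trans hlt'))
    · by_contra hxU
      have h3 : 1 ≤ (k : ℝ) * ρ x := hx
      rw [hρ0 x hxU] at h3
      linarith
  · obtain ⟨N, hN⟩ := exists_nat_ge (2 / ρ x)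
    filter_upwards [eventually_ge_atTop N] with k hk
    have h1 : (2 : ℝ) ≤ k * ρ x := by
      have h2 : (N : ℝ) ≤ k := by exact_mod_cast hk
      exact (div_le_iff₀ (hρ1 x hx)).1 (hN.trans h2)
    rw [min_eq_right (by linarith), max_eq_right zero_le_one]

theorem ca0m_ae {ψ : X → ℝ} (hm : AEStronglyMeasurable ψ μ) (hb : Bdd μ ψ) :
    ∃ v : ℕ → X → ℝ, (∀ k, LipB (v k)) ∧ ∀ᵐ x ∂μ, Tendsto (fun k => v k x) atTop (𝓝 (ψ x)) := by
  rcases isEmpty_or_nonempty X with hX | ⟨⟨x0⟩⟩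
  · exact ⟨fun _ => 0, fun _ => LipB.zero, Eventually.of_forall fun x => isEmptyElim x⟩
  have hi : ∀ k : ℕ, Integrable ((ball x0 k).indicator ψ) μ := fun k =>
    (integrable_indicator_iff measurableSet_ball).2 (D.locInt_of_locBdd hm hb.locBdd x0 k)
  choose v hv hv' using fun k : ℕ => D.ca0m_l1 (hi k) (Nat.one_div_pos_of_nat (n := k))
  obtain ⟨φ, hφ, hae⟩ := exists_subseq_ae' (μ := μ)
    (u := fun k => v k - (ball x0 k).indicator ψ) (f := 0)
    (fun k => (D.lipB_int (hv k)).sub (hi k)) (integrable_zero _ _ _) (by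
      refine squeeze_zero (fun k => integral_nonneg fun x => abs_nonneg _) (fun k => ?_)
        tendsto_one_div_add_atTop_nhds_zero_nat
      simpa using hv' k)
  refine ⟨fun k => v (φ k), fun k => hv _, ?_⟩
  filter_upwards [hae] with x hx
  have h1 := hx.add_const (ψ x)
  simp only [Pi.zero_apply, zero_add, Pi.sub_apply] at h1
  refine h1.congr' ?_
  obtain ⟨N, hN⟩ := exists_nat_gt (dist x x0)
  filter_upwards [eventually_ge_atTop N] with k hk
  have h2 : x ∈ ball x0 (φ k) := by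
    have h3 : (N : ℝ) ≤ φ k := by exact_mod_cast hk.trans (hφ.id_le k)
    exact hN.trans_le h3
  rw [indicator_of_mem h2]
  ring

theorem ca0m_local {P : X → Prop} {U : Set X}
    (h : ∀ x ∈ U, ∃ r, 0 < r ∧ ∀ᵐ y ∂μ, y ∈ ball x r → P y) : ∀ᵐ y ∂μ, y ∈ U → P y := by
  choose! r hr hP using h
  obtain ⟨t, htU, htc, hcov⟩ := TopologicalSpace.countable_cover_nhdsWithin
    (f := fun x => ball x (r x)) (s := U)
    fun x hx => mem_nhdsWithin_of_mem_nhds (ball_mem_nhds x (hr x hx))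
  have h1 := (ae_ball_iff htc).2 fun x (hx : x ∈ t) => hP x (htU hx)
  filter_upwards [h1] with y hy hyU
  obtain ⟨x, hx, hyx⟩ := mem_iUnion₂.1 (hcov hyU)
  exact hy x hx hyx

theorem ca0m_balls {P : X → Prop} (h : ∀ x, ∀ᵐ y ∂μ, y ∈ ball x 1 → P y) : ∀ᵐ y ∂μ, P y := by
  filter_upwards [D.ca0m_local (U := univ) fun x _ => ⟨1, one_pos, h x⟩] with y hy
  exact hy trivial

/-- Approximation of a bounded measurable function by Lipschitz functions supported in `U`. -/
theorem exists_lipB_ae {ψ : X → ℝ} (hm : AEStronglyMeasurable ψ μ) {a b : ℝ} (ha : a ≤ 0)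
    (hb : 0 ≤ b) (h : ∀ᵐ x ∂μ, a ≤ ψ x ∧ ψ x ≤ b) {U : Set X} (hU : IsOpen U)
    (h0 : ∀ᵐ x ∂μ, x ∉ U → ψ x = 0) :
    ∃ u : ℕ → X → ℝ, (∀ k, LipB (u k) ∧ tsupport (u k) ⊆ U ∧ ∀ x, a ≤ u k x ∧ u k x ≤ b) ∧
      ∀ᵐ x ∂μ, Tendsto (fun k => u k x) atTop (𝓝 (ψ x)) := by
  obtain ⟨v, hv, hae⟩ := D.ca0m_ae hm ⟨max (-a) b, by
    filter_upwards [h] with x hx
    rw [abs_le]
    constructor
    · linarith [le_max_left (-a) b, hx.1]
    · exact hx.2.trans (le_max_right _ _)⟩
  obtain ⟨η, hηL, hη01, hηs, hη1⟩ := ca0m_eta hU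
  have hc : LipschitzWith 1 (fun t : ℝ => max a (min t b)) :=
    (LipschitzWith.id.min_const b).const_max a
  have hc0 : max a (min (0 : ℝ) b) = 0 := by rw [min_eq_left hb, max_eq_right ha]
  refine ⟨fun k => (fun x => max a (min (v k x) b)) * η k, fun k => ⟨?_, ?_, fun x => ?_⟩, ?_⟩
  · refine ((hv k).comp hc hc0).mul_loc fun x r => ?_
    obtain ⟨L, hL⟩ := hηL k
    exact ⟨L, hL.lipschitzOnWith⟩
  · exact (tsupport_mul_subset_right).trans (hηs k)
  · obtain ⟨h1, h2⟩ := hη01 k x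
    have h3 : a ≤ max a (min (v k x) b) := le_max_left _ _
    have h4 : max a (min (v k x) b) ≤ b := max_le (ha.trans hb) (min_le_right _ _)
    simp only [Pi.mul_apply]
    constructor <;> nlinarith
  · filter_upwards [h, h0, hae] with x hx hx0 hxv
    by_cases hxU : x ∈ U
    · have h1 := (hc.continuous.tendsto (ψ x)).comp hxv
      rw [min_eq_left hx.2, max_eq_right hx.1] at h1
      refine h1.congr' ?_
      filter_upwards [hη1 x hxU] with k hk
      simp [hk]
    · rw [hx0 hxU]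
      refine tendsto_const_nhds.congr fun k => ?_
      have h1 : η k x = 0 := image_eq_zero_of_notMem_tsupport fun h' => hxU (hηs k h')
      simp [h1]

theorem exists_lipB_n2 {f : X → ℝ} (hf : MemLp f 2 μ) :
    ∃ u : ℕ → X → ℝ, (∀ k, LipB (u k)) ∧ Tendsto (fun k => n2 μ (u k - f)) atTop (𝓝 0) := by
  choose u hu hl using fun k : ℕ => D.ca0m_dense (by norm_num) hf
    (ε := ENNReal.ofReal (1 / ((k : ℝ) + 1))) (by simpa using Nat.cast_add_one_pos k)
  refine ⟨u, hl, ?_⟩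
  have h1 := (tendsto_one_div_add_atTop_nhds_zero_nat (𝕜 := ℝ)).pow 2
  rw [zero_pow two_ne_zero] at h1
  refine squeeze_zero (fun k => n2_nonneg _) (fun k => ?_) h1
  rw [n2_sub_comm, n2_eq_eLpNorm (hf.sub (D.lipB_memLp (hl k)))]
  exact pow_le_pow_left₀ ENNReal.toReal_nonneg
    (ENNReal.toReal_le_of_le_ofReal Nat.one_div_pos_of_nat.le (hu k)) 2

theorem exists_lipB_l1 {f : X → ℝ} (hf : Integrable f μ) :
    ∃ u : ℕ → X → ℝ, (∀ k, LipB (u k)) ∧
      Tendsto (fun k => ∫ x, |u k x - f x| ∂μ) atTop (𝓝 0) := by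
  choose u hl hu using fun k : ℕ => D.ca0m_l1 hf (Nat.one_div_pos_of_nat (n := k))
  exact ⟨u, hl, squeeze_zero (fun k => integral_nonneg fun x => abs_nonneg _) hu
    tendsto_one_div_add_atTop_nhds_zero_nat⟩

/-- The fundamental lemma of the calculus of variations. -/
theorem ae_le_of_test {f g : X → ℝ} (hf : LocInt μ f) (hg : LocInt μ g) {U : Set X}
    (hU : IsOpen U) (h : ∀ φ, LipB φ → tsupport φ ⊆ U → (∀ x, 0 ≤ φ x) →
      ∫ x, φ x * f x ∂μ ≤ ∫ x, φ x * g x ∂μ) : ∀ᵐ x ∂μ, x ∈ U → f x ≤ g x := by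
  refine D.ca0m_balls fun x0 => ?_
  have hd : LocInt μ (f - g) := hf.sub hg
  have hdm := hd.aesm
  set A : Set X := (U ∩ ball x0 1) ∩ {y | 0 < hdm.mk _ y} with hA
  have hUo : IsOpen (U ∩ ball x0 1) := hU.inter isOpen_ball
  have hAm : MeasurableSet A :=
    hUo.measurableSet.inter (measurableSet_lt measurable_const hdm.measurable_mk)
  obtain ⟨u, hu, hae⟩ := D.exists_lipB_ae (ψ := A.indicator fun _ => (1 : ℝ))
    (aestronglyMeasurable_const.indicator hAm) le_rfl zero_le_one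
    (Eventually.of_forall fun x => by by_cases hx : x ∈ A <;> simp [hx]) hUo
    (Eventually.of_forall fun x hx => indicator_of_notMem (fun h' => hx h'.1) _)
  have hB : Integrable ((ball x0 1).indicator fun y => ‖(f - g) y‖) μ :=
    (integrable_indicator_iff measurableSet_ball).2 (hd x0 1).norm
  have hbd : ∀ (w : X → ℝ), (∀ y, 0 ≤ w y ∧ w y ≤ 1) → (∀ y, y ∉ ball x0 1 → w y = 0) →
      ∀ y, ‖w y * (f - g) y‖ ≤ (ball x0 1).indicator (fun y => ‖(f - g) y‖) y := by
    intro w hw hw0 y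
    by_cases hy : y ∈ ball x0 1
    · rw [indicator_of_mem hy, norm_mul]
      refine mul_le_of_le_one_left (norm_nonneg _) ?_
      rw [Real.norm_eq_abs, abs_of_nonneg (hw y).1]
      exact (hw y).2
    · rw [indicator_of_notMem hy, hw0 y hy]; simp
  have hlim : Tendsto (fun k => ∫ y, u k y * (f - g) y ∂μ) atTop
      (𝓝 (∫ y, A.indicator (fun _ => (1 : ℝ)) y * (f - g) y ∂μ)) := by
    refine tendsto_integral_of_dominated_convergence _
      (fun k => (hu k).1.continuous.aestronglyMeasurable.mul hdm) hB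
      (fun k => Eventually.of_forall (hbd _ (hu k).2.2 fun y hy =>
        image_eq_zero_of_notMem_tsupport fun h' => hy ((hu k).2.1 h').2)) ?_
    filter_upwards [hae] with y hy
    exact hy.mul_const _
  have hle : ∫ y, A.indicator (fun _ => (1 : ℝ)) y * (f - g) y ∂μ ≤ 0 := by
    refine le_of_tendsto' hlim fun k => ?_
    have h1 := h (u k) (hu k).1 ((hu k).2.1.trans inter_subset_left) fun y => ((hu k).2.2 y).1
    have h2 : Integrable (fun y => u k y * f y) μ := by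
      simpa only [mul_comm] using hf.mul_lipB (hu k).1
    have h3 : Integrable (fun y => u k y * g y) μ := by
      simpa only [mul_comm] using hg.mul_lipB (hu k).1
    have h4 := integral_sub h2 h3
    have h5 : ∫ y, u k y * (f - g) y ∂μ = ∫ y, u k y * f y - u k y * g y ∂μ := by
      refine integral_congr_ae (Eventually.of_forall fun y => ?_)
      simp [mul_sub]
    linarith
  have hint : Integrable (fun y => A.indicator (fun _ => (1 : ℝ)) y * (f - g) y) μ := by
    refine hB.mono' ((aestronglyMeasurable_const.indicator hAm).mul hdm)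
      (Eventually.of_forall (hbd _ (fun x => ?_) fun y hy => ?_))
    · by_cases hx : x ∈ A <;> simp [hx]
    · exact indicator_of_notMem (fun h' => hy h'.1.2) _
  have hnn : 0 ≤ᵐ[μ] fun y => A.indicator (fun _ => (1 : ℝ)) y * (f - g) y := by
    filter_upwards [hdm.ae_eq_mk] with y hy
    by_cases hyA : y ∈ A
    · rw [indicator_of_mem hyA, one_mul, hy]
      exact le_of_lt hyA.2
    · simp [hyA]
  have hz := (integral_eq_zero_iff_of_nonneg_ae hnn hint).1
    (le_antisymm hle (integral_nonneg_of_ae hnn))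
  filter_upwards [hz, hdm.ae_eq_mk] with y hy hy' hyb hyU
  by_contra hlt
  have h1 : 0 < (f - g) y := by
    simpa using not_le.1 hlt
  have hyA : y ∈ A := ⟨⟨hyU, hyb⟩, by rw [hy'] at h1; exact h1⟩
  rw [indicator_of_mem hyA, one_mul] at hy
  exact h1.ne' hy

theorem ae_eq_of_test {f g : X → ℝ} (hf : LocInt μ f) (hg : LocInt μ g) {U : Set X}
    (hU : IsOpen U) (h : ∀ φ, LipB φ → tsupport φ ⊆ U →
      ∫ x, φ x * f x ∂μ = ∫ x, φ x * g x ∂μ) : ∀ᵐ x ∂μ, x ∈ U → f x = g x := by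
  filter_upwards [D.ae_le_of_test hf hg hU fun φ h1 h2 _ => (h φ h1 h2).le,
    D.ae_le_of_test hg hf hU fun φ h1 h2 _ => (h φ h1 h2).ge] with x h1 h2 hx
  exact le_antisymm (h1 hx) (h2 hx)

/-- An almost everywhere statement that holds near every point of `U` holds on `U`. -/
theorem ae_of_local {P : X → Prop} {U : Set X}
    (h : ∀ x ∈ U, ∃ r, 0 < r ∧ ∀ᵐ y ∂μ, y ∈ ball x r → P y) : ∀ᵐ y ∂μ, y ∈ U → P y :=
  D.ca0m_local h

theorem ae_of_balls {P : X → Prop} (h : ∀ x r, ∀ᵐ y ∂μ, y ∈ ball x r → P y) :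
    ∀ᵐ y ∂μ, P y :=
  D.ca0m_balls fun x => h x 1

end DS

end RC
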