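import Pool.Agent.P.MP_6472e5_gt.Ca0
import Pool.Agent.P.MP_6472e5_gt.Ca0n

/-! The form on its domain: algebra, Cauchy-Schwarz, weak closedness. -/

set_option autoImplicit false
set_option linter.unusedSectionVars false

noncomputable section

namespace RC

open MeasureTheory Set Filter Topology Metric

variable {X : Type} [MetricSpace X] [SecondCountableTopology X] [MeasurableSpace X] [BorelSpace X]
  {μ : Measure X}

namespace DS

variable (D : DS μ)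

theorem zero_mem : (0 : X → ℝ) ∈ D.V := D.lip _ LipB.zero

theorem neg_mem {f : X → ℝ} (hf : f ∈ D.V) : -f ∈ D.V := by
  simpa using D.smul (-1) f hf

theorem sub_mem {f g : X → ℝ} (hf : f ∈ D.V) (hg : g ∈ D.V) : f - g ∈ D.V := by
  rw [sub_eq_add_neg]
  exact D.add _ hf _ (D.neg_mem hg)

theorem sum_mem {ι : Type} (s : Finset ι) {f : ι → X → ℝ} (hf : ∀ i ∈ s, f i ∈ D.V) :
    ∑ i ∈ s, f i ∈ D.V :=
  Finset.sum_induction f (· ∈ D.V) (fun a b ha hb => D.add a ha b hb) D.zero_mem hf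

theorem aesm {f : X → ℝ} (hf : f ∈ D.V) : AEStronglyMeasurable f μ :=
  (D.memLp f hf).aestronglyMeasurable

theorem Γ_congr₂ {f f' g g' : X → ℝ} (hf : f ∈ D.V) (hg : g ∈ D.V) (h : f =ᵐ[μ] f')
    (h' : g =ᵐ[μ] g') : D.Γ f g =ᵐ[μ] D.Γ f' g' :=
  have hf' := D.congr f hf f' h
  (D.Γ_congr f hf g hg f' h).trans ((D.Γ_symm f' hf' g hg).trans
    ((D.Γ_congr g hg f' hf' g' h').trans (D.Γ_symm g' (D.congr g hg g' h') f' hf')))

theorem Γ_add_right {f g g' : X → ℝ} (hf : f ∈ D.V) (hg : g ∈ D.V) (hg' : g' ∈ D.V) :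
    D.Γ f (g + g') =ᵐ[μ] D.Γ f g + D.Γ f g' :=
  (D.Γ_symm f hf _ (D.add g hg g' hg')).trans ((D.Γ_add g hg g' hg' f hf).trans
    ((D.Γ_symm g hg f hf).add (D.Γ_symm g' hg' f hf)))

theorem Γ_smul_right (c : ℝ) {f g : X → ℝ} (hf : f ∈ D.V) (hg : g ∈ D.V) :
    D.Γ f (c • g) =ᵐ[μ] c • D.Γ f g :=
  (D.Γ_symm f hf _ (D.smul c g hg)).trans ((D.Γ_smul c g hg f hf).trans
    ((D.Γ_symm g hg f hf).const_smul c))

theorem Γ_sub {f f' g : X → ℝ} (hf : f ∈ D.V) (hf' : f' ∈ D.V) (hg : g ∈ D.V) :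
    D.Γ (f - f') g =ᵐ[μ] D.Γ f g - D.Γ f' g := by
  filter_upwards [D.Γ_add f hf _ (D.smul (-1) f' hf') g hg, D.Γ_smul (-1) f' hf' g hg] with x h1 h2
  rw [neg_one_smul] at h1 h2
  rw [sub_eq_add_neg, h1, Pi.add_apply, h2, neg_one_smul]
  exact (sub_eq_add_neg _ _).symm

theorem Γ_sub_right {f g g' : X → ℝ} (hf : f ∈ D.V) (hg : g ∈ D.V) (hg' : g' ∈ D.V) :
    D.Γ f (g - g') =ᵐ[μ] D.Γ f g - D.Γ f g' :=
  (D.Γ_symm f hf _ (D.sub_mem hg hg')).trans ((D.Γ_sub hg hg' hf).trans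
    ((D.Γ_symm g hg f hf).sub (D.Γ_symm g' hg' f hf)))

theorem ca1_expand (s t : ℝ) {f g : X → ℝ} (hf : f ∈ D.V) (hg : g ∈ D.V) :
    ∀ᵐ x ∂μ, D.Γ (s • f + t • g) (s • f + t • g) x =
      s ^ 2 * D.Γ f f x + 2 * s * t * D.Γ f g x + t ^ 2 * D.Γ g g x := by
  have h1 := D.smul s f hf
  have h2 := D.smul t g hg
  have h3 := D.add _ h1 _ h2
  filter_upwards [D.Γ_add _ h1 _ h2 _ h3, D.Γ_smul s f hf _ h3, D.Γ_smul t g hg _ h3,
    D.Γ_add_right hf h1 h2, D.Γ_add_right hg h1 h2, D.Γ_smul_right s hf hf,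
    D.Γ_smul_right t hf hg, D.Γ_smul_right s hg hf, D.Γ_smul_right t hg hg, D.Γ_symm g hg f hf]
    with x a1 a2 a3 a4 a5 a6 a7 a8 a9 a10
  simp only [Pi.add_apply, Pi.smul_apply, smul_eq_mul] at a1 a2 a3 a4 a5 a6 a7 a8 a9
  rw [a1, a2, a3, a4, a5, a6, a7, a8, a9, a10]
  ring

theorem ca1_discrim {a b c : ℝ} (h : ∀ t : ℝ, 0 ≤ a + 2 * t * b + t ^ 2 * c) : b ^ 2 ≤ a * c := by
  have := discrim_le_zero (a := c) (b := 2 * b) (c := a) fun t => by linarith [h t]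
  rw [discrim] at this
  linarith

theorem ca1_nonneg {f : X → ℝ} (hf : f ∈ D.V) : 0 ≤ ∫ x, D.Γ f f x ∂μ :=
  integral_nonneg_of_ae (D.Γ_nonneg f hf)

theorem Γ_cs {f g : X → ℝ} (hf : f ∈ D.V) (hg : g ∈ D.V) :
    ∀ᵐ x ∂μ, D.Γ f g x ^ 2 ≤ D.Γ f f x * D.Γ g g x := by
  have h : ∀ t : ℚ, ∀ᵐ x ∂μ, 0 ≤ D.Γ f f x + 2 * (t : ℝ) * D.Γ f g x + (t : ℝ) ^ 2 * D.Γ g g x :=
    fun t => by
      filter_upwards [D.ca1_expand 1 t hf hg,
        D.Γ_nonneg _ (D.add _ (D.smul 1 f hf) _ (D.smul t g hg))] with x h1 h2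
      linarith
  filter_upwards [ae_all_iff.2 h] with x hx
  exact ca1_discrim fun t => Rat.denseRange_cast.induction_on t
    (isClosed_le continuous_const (by fun_prop)) hx

theorem Γ_tri {f g : X → ℝ} (hf : f ∈ D.V) (hg : g ∈ D.V) :
    ∀ᵐ x ∂μ, √(D.Γ (f + g) (f + g) x) ≤ √(D.Γ f f x) + √(D.Γ g g x) := by
  filter_upwards [D.ca1_expand 1 1 hf hg, D.Γ_cs hf hg, D.Γ_nonneg f hf, D.Γ_nonneg g hg]
    with x h1 h2 h3 h4
  rw [one_smul, one_smul] at h1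
  have h5 := Real.le_sqrt_of_sq_le h2
  rw [Real.sqrt_mul h3] at h5
  refine Real.sqrt_le_iff.2 ⟨by positivity, ?_⟩
  rw [h1, add_sq, Real.sq_sqrt h3, Real.sq_sqrt h4]
  linarith

theorem Γ_int_le {f g : X → ℝ} (hf : f ∈ D.V) (hg : g ∈ D.V) :
    ∫ x, |D.Γ f g x| ∂μ ≤ √(∫ x, D.Γ f f x ∂μ) * √(∫ x, D.Γ g g x ∂μ) := by
  rw [← Real.sqrt_mul (D.ca1_nonneg hf)]
  refine Real.le_sqrt_of_sq_le (ca1_discrim fun t => ?_)
  have i1 := D.Γ_int f hf f hf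
  have i2 := (D.Γ_int f hf g hg).abs.const_mul (2 * t)
  have i3 := (D.Γ_int g hg g hg).const_mul (t ^ 2)
  rw [← integral_const_mul, ← integral_const_mul, ← integral_add i1 i2,
    ← integral_add (i1.fun_add i2) i3]
  refine integral_nonneg_of_ae ?_
  filter_upwards [D.Γ_cs hf hg, D.Γ_nonneg f hf, D.Γ_nonneg g hg] with x h2 h3 h4
  have h5 : |2 * t * (|D.Γ f g x|)| ≤ D.Γ f f x + t ^ 2 * D.Γ g g x := by
    refine abs_le_of_sq_le_sq ?_ (by positivity)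
    rw [mul_pow, sq_abs]
    nlinarith [mul_le_mul_of_nonneg_left h2 (sq_nonneg t),
      sq_nonneg (D.Γ f f x - t ^ 2 * D.Γ g g x)]
  have := (abs_le.1 h5).1
  change 0 ≤ _
  linarith

theorem Γ_tendsto {ι : Type} {l : Filter ι} {u v : ι → X → ℝ} {f g : X → ℝ}
    (hu : ∀ᶠ i in l, u i ∈ D.V) (hv : ∀ᶠ i in l, v i ∈ D.V) (hf : f ∈ D.V) (hg : g ∈ D.V)
    (h1 : Tendsto (fun i => ∫ x, D.Γ (u i - f) (u i - f) x ∂μ) l (𝓝 0))
    (h2 : Tendsto (fun i => ∫ x, D.Γ (v i - g) (v i - g) x ∂μ) l (𝓝 0)) :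
    Tendsto (fun i => ∫ x, |D.Γ (u i) (v i) x - D.Γ f g x| ∂μ) l (𝓝 0) := by
  have k1 := h1.sqrt
  have k2 := h2.sqrt
  have k := ((k1.mul k2).add (k1.mul_const √(∫ x, D.Γ g g x ∂μ))).add
    (k2.const_mul √(∫ x, D.Γ f f x ∂μ))
  simp only [Real.sqrt_zero, mul_zero, zero_mul, add_zero] at k
  refine squeeze_zero' (Eventually.of_forall fun i => integral_nonneg fun x => abs_nonneg _) ?_ k
  filter_upwards [hu, hv] with i hu hv
  have a := D.sub_mem hu hf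
  have b := D.sub_mem hv hg
  have i1 := (D.Γ_int _ a _ b).abs
  have i2 := (D.Γ_int _ a _ hg).abs
  have i3 := (D.Γ_int _ hf _ b).abs
  refine le_trans ?_ (add_le_add (add_le_add (D.Γ_int_le a b) (D.Γ_int_le a hg)) (D.Γ_int_le hf b))
  rw [← integral_add i1 i2, ← integral_add (i1.fun_add i2) i3]
  refine integral_mono_of_nonneg (Eventually.of_forall fun x => abs_nonneg _)
    ((i1.add i2).add i3) ?_
  filter_upwards [D.Γ_sub_right a hv hg, D.Γ_sub hu hf hv, D.Γ_sub_right hf hv hg] with x e1 e2 e3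
  rw [Pi.sub_apply] at e1 e2 e3
  refine le_trans (le_of_eq ?_) (abs_add_three _ _ _)
  congr 1
  linarith

theorem ca1_par {a b : X → ℝ} (ha : a ∈ D.V) (hb : b ∈ D.V) :
    ∫ x, D.Γ (a - b) (a - b) x ∂μ = 2 * ∫ x, D.Γ a a x ∂μ + 2 * ∫ x, D.Γ b b x ∂μ -
      4 * ∫ x, D.Γ ((1 / 2 : ℝ) • a + (1 / 2 : ℝ) • b) ((1 / 2 : ℝ) • a + (1 / 2 : ℝ) • b) x ∂μ := by
  have hm := D.add _ (D.smul (1 / 2) a ha) _ (D.smul (1 / 2) b hb)
  have i1 := (D.Γ_int a ha a ha).const_mul 2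
  have i2 := (D.Γ_int b hb b hb).const_mul 2
  rw [← integral_const_mul, ← integral_const_mul, ← integral_const_mul, ← integral_add i1 i2,
    ← integral_sub (i1.fun_add i2) ((D.Γ_int _ hm _ hm).const_mul 4)]
  refine integral_congr_ae ?_
  filter_upwards [D.ca1_expand 1 (-1) ha hb, D.ca1_expand (1 / 2) (1 / 2) ha hb] with x h1 h2
  rw [one_smul, neg_one_smul, ← sub_eq_add_neg] at h1
  rw [h1, h2]
  ring

theorem ca1_conv (s : Finset ℕ) {c : ℕ → ℝ} {w : ℕ → X → ℝ} (hc : ∀ k ∈ s, 0 ≤ c k)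
    (hw : ∀ k, MemLp (w k) 2 μ) :
    √(n2 μ (∑ k ∈ s, c k • w k)) ≤ ∑ k ∈ s, c k * √(n2 μ (w k)) := by
  induction s using Finset.induction_on with
  | empty => simp [n2]
  | insert a s ha ih =>
    rw [Finset.sum_insert ha, Finset.sum_insert ha]
    refine (sqrt_n2_add_le ((hw a).const_smul _)
      (memLp_finsetSum' s fun k _ => (hw k).const_smul _)).trans (add_le_add (le_of_eq ?_)
        (ih fun k hk => hc k (Finset.mem_insert_of_mem hk)))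
    rw [n2_smul, Real.sqrt_mul (sq_nonneg _), Real.sqrt_sq (hc a (Finset.mem_insert_self a s))]

theorem ca1_n2 {u : ℕ → X → ℝ} {f : X → ℝ} (hu : ∀ k, MemLp (u k) 2 μ) (hf : MemLp f 2 μ)
    (h : Tendsto (fun k => n2 μ (u k - f)) atTop (𝓝 0)) {s : ℕ → Finset ℕ} {c : ℕ → ℕ → ℝ}
    (h1 : ∀ j, ∀ k ∈ s j, j ≤ k ∧ 0 ≤ c j k) (h2 : ∀ j, ∑ k ∈ s j, c j k = 1) :
    Tendsto (fun j => n2 μ (∑ k ∈ s j, c j k • u k - f)) atTop (𝓝 0) := by
  have k : Tendsto (fun j => √(n2 μ (∑ k ∈ s j, c j k • u k - f))) atTop (𝓝 0) := by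
    have h3 := h.sqrt
    rw [Real.sqrt_zero] at h3
    refine tendsto_order.2 ⟨fun a ha => Eventually.of_forall fun j =>
      ha.trans_le (Real.sqrt_nonneg _), fun a ha => ?_⟩
    obtain ⟨N, hN⟩ := eventually_atTop.1 (h3.eventually_le_const (half_pos ha))
    filter_upwards [eventually_ge_atTop N] with j hj
    have e : ∑ k ∈ s j, c j k • u k - f = ∑ k ∈ s j, c j k • (u k - f) := by
      simp only [smul_sub, Finset.sum_sub_distrib, ← Finset.sum_smul, h2, one_smul]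
    rw [e]
    refine ((ca1_conv (s j) (fun k hk => (h1 j k hk).2) fun k => (hu k).sub hf).trans
      (Finset.sum_le_sum fun k hk => mul_le_mul_of_nonneg_left (hN k (hj.trans (h1 j k hk).1))
        (h1 j k hk).2)).trans_lt ?_
    rw [← Finset.sum_mul, h2, one_mul]
    exact half_lt_self ha
  simpa only [Real.sq_sqrt (n2_nonneg _), ne_eq, OfNat.ofNat_ne_zero, not_false_eq_true,
    zero_pow] using k.pow 2

/-- Mazur's lemma in the domain: a sequence with bounded energy that converges in `L²` has convex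
combinations of its tails that converge in energy. -/
theorem Γ_mazur {u : ℕ → X → ℝ} {f : X → ℝ} {C : ℝ} (hu : ∀ k, u k ∈ D.V) (hf : MemLp f 2 μ)
    (h : Tendsto (fun k => n2 μ (u k - f)) atTop (𝓝 0))
    (hC : ∀ k, ∫ x, D.Γ (u k) (u k) x ∂μ ≤ C) :
    f ∈ D.V ∧ ∃ (s : ℕ → Finset ℕ) (c : ℕ → ℕ → ℝ), (∀ j, ∀ k ∈ s j, j ≤ k ∧ 0 ≤ c j k) ∧
      (∀ j, ∑ k ∈ s j, c j k = 1) ∧
      Tendsto (fun j => ∫ x, D.Γ (∑ k ∈ s j, c j k • u k - f) (∑ k ∈ s j, c j k • u k - f) x ∂μ)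
        atTop (𝓝 0) := by
  set T := Finsupp.linearCombination ℝ u with hT
  set S : ℕ → Set (ℕ →₀ ℝ) := fun j => {c | (∀ k, 0 ≤ c k) ∧ (∀ k, k < j → c k = 0) ∧
    Finsupp.linearCombination ℝ (fun _ : ℕ => (1 : ℝ)) c = 1} with hS
  have hV : ∀ c, T c ∈ D.V := fun c => D.sum_mem _ fun k _ => D.smul _ _ (hu k)
  set d : ℕ → ℝ := fun j => sInf ((fun c => ∫ x, D.Γ (T c) (T c) x ∂μ) '' S j) with hd
  have h1 : ∀ j, Finsupp.single j 1 ∈ S j := fun j =>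
    ⟨fun k => Finsupp.single_nonneg.2 zero_le_one k,
      fun k hk => Finsupp.single_eq_of_ne hk.ne, by simp⟩
  have h2 : ∀ j, ∀ c ∈ S j, d j ≤ ∫ x, D.Γ (T c) (T c) x ∂μ := fun j c hc =>
    csInf_le ⟨0, forall_mem_image.2 fun c _ => D.ca1_nonneg (hV c)⟩ (mem_image_of_mem _ hc)
  have h3 : ∀ i j, i ≤ j → S j ⊆ S i := fun i j hij c hc =>
    ⟨hc.1, fun k hk => hc.2.1 k (hk.trans_le hij), hc.2.2⟩
  have h4 : Monotone d := fun i j hij => le_csInf ⟨_, mem_image_of_mem _ (h1 j)⟩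
    (forall_mem_image.2 fun c hc => h2 i c (h3 i j hij hc))
  have h5 : BddAbove (range d) := ⟨C, forall_mem_range.2 fun j => (h2 j _ (h1 j)).trans (by
    simpa only [hT, Finsupp.linearCombination_single, one_smul] using hC j)⟩
  have h6 := tendsto_atTop_ciSup h4 h5
  have h7 : ∀ j : ℕ, ∃ c ∈ S j, ∫ x, D.Γ (T c) (T c) x ∂μ < d j + 1 / ((j : ℝ) + 1) := fun j => by
    obtain ⟨_, ⟨c, hc, rfl⟩, h⟩ := exists_lt_of_csInf_lt ⟨_, mem_image_of_mem _ (h1 j)⟩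
      (lt_add_of_pos_right (d j) (Nat.one_div_pos_of_nat (α := ℝ) (n := j)))
    exact ⟨c, hc, h⟩
  choose c hc hcd using h7
  have k1 : ∀ j, ∀ k ∈ (c j).support, j ≤ k ∧ 0 ≤ c j k := fun j k hk =>
    ⟨not_lt.1 fun h => Finsupp.mem_support_iff.1 hk ((hc j).2.1 k h), (hc j).1 k⟩
  have k2 : ∀ j, ∑ k ∈ (c j).support, c j k = 1 := fun j => by
    simpa only [Finsupp.linearCombination_apply, Finsupp.sum, smul_eq_mul, mul_one]
      using (hc j).2.2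
  have t1 : Tendsto Prod.fst (atTop : Filter (ℕ × ℕ)) atTop := by
    rw [← prod_atTop_atTop_eq]; exact tendsto_fst
  have t2 : Tendsto Prod.snd (atTop : Filter (ℕ × ℕ)) atTop := by
    rw [← prod_atTop_atTop_eq]; exact tendsto_snd
  have t3 : Tendsto (fun p : ℕ × ℕ => min p.1 p.2) atTop atTop := tendsto_atTop.2 fun b =>
    ((t1.eventually_ge_atTop b).and (t2.eventually_ge_atTop b)).mono fun p hp => le_min hp.1 hp.2
  have t4 := h6.add (tendsto_one_div_add_atTop_nhds_zero_nat (𝕜 := ℝ))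
  have t5 := (((t4.comp t1).const_mul 2).add ((t4.comp t2).const_mul 2)).sub
    ((h6.comp t3).const_mul 4)
  rw [show ∀ x : ℝ, 2 * (x + 0) + 2 * (x + 0) - 4 * x = 0 from fun x => by ring] at t5
  obtain ⟨r1, r2⟩ := D.closed (fun j => T (c j)) f (fun j => hV _) hf
    (ca1_n2 (fun k => D.memLp _ (hu k)) hf h k1 k2)
    (squeeze_zero (fun p => D.ca1_nonneg (D.sub_mem (hV _) (hV _))) (fun p => by
      have a1 := h3 _ _ (min_le_left p.1 p.2) (hc p.1)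
      have a2 := h3 _ _ (min_le_right p.1 p.2) (hc p.2)
      have a3 := h2 (min p.1 p.2) ((1 / 2 : ℝ) • c p.1 + (1 / 2 : ℝ) • c p.2)
        ⟨fun k => by
          have b1 := a1.1 k
          have b2 := a2.1 k
          simp only [Finsupp.add_apply, Finsupp.smul_apply, smul_eq_mul]
          positivity,
        fun k hk => by simp [a1.2.1 k hk, a2.2.1 k hk],
        by rw [map_add, map_smul, map_smul, a1.2.2, a2.2.2]; norm_num⟩
      rw [map_add, map_smul, map_smul] at a3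
      rw [D.ca1_par (hV _) (hV _)]
      simp only [Function.comp_apply]
      linarith [hcd p.1, hcd p.2]) t5)
  exact ⟨r1, fun j => (c j).support, fun j k => c j k, k1, k2, r2⟩

theorem ca1_sum (s : Finset ℕ) (c : ℕ → ℝ) {u : ℕ → X → ℝ} (hu : ∀ k, u k ∈ D.V) {g : X → ℝ}
    (hg : g ∈ D.V) :
    ∀ᵐ x ∂μ, D.Γ (∑ k ∈ s, c k • u k) g x = ∑ k ∈ s, c k * D.Γ (u k) g x := by
  induction s using Finset.induction_on with
  | empty =>
    filter_upwards [D.Γ_smul 0 g hg g hg] with x hx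
    simpa using hx
  | insert a s ha ih =>
    filter_upwards [ih, D.Γ_smul (c a) _ (hu a) g hg, D.Γ_add _ (D.smul (c a) _ (hu a)) _
      (D.sum_mem s fun k _ => D.smul (c k) _ (hu k)) g hg] with x h1 h2 h3
    rw [Finset.sum_insert ha, Finset.sum_insert ha, h3, Pi.add_apply, h1, h2, Pi.smul_apply,
      smul_eq_mul]

theorem ca1_half {u : ℕ → X → ℝ} {f : X → ℝ} {C : ℝ} (hu : ∀ k, u k ∈ D.V) (hf : MemLp f 2 μ)
    (h : Tendsto (fun k => n2 μ (u k - f)) atTop (𝓝 0))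
    (hC : ∀ k, ∫ x, D.Γ (u k) (u k) x ∂μ ≤ C) {g : X → ℝ} (hg : g ∈ D.V) {ψ : X → ℝ}
    (hm : AEStronglyMeasurable ψ μ) (hψ : Bdd μ ψ) {a : ℝ} (ha : ∫ x, ψ x * D.Γ f g x ∂μ < a) :
    ∀ᶠ k in atTop, ∫ x, ψ x * D.Γ (u k) g x ∂μ < a := by
  by_contra hn
  obtain ⟨φ, hφ, h1⟩ := extraction_of_frequently_atTop (not_eventually.1 hn)
  obtain ⟨hfV, s, c, k1, k2, k3⟩ := D.Γ_mazur (u := fun k => u (φ k)) (fun k => hu _) hf
    (h.comp hφ.tendsto_atTop) fun k => hC _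
  have hw : ∀ j, ∑ k ∈ s j, c j k • u (φ k) ∈ D.V := fun j =>
    D.sum_mem _ fun k _ => D.smul _ _ (hu _)
  have hi : ∀ w ∈ D.V, Integrable (fun x => ψ x * D.Γ w g x) μ := fun w hw =>
    hψ.mul_integrable hm (D.Γ_int w hw g hg)
  obtain ⟨M, hM0, hM⟩ := hψ.nonneg
  have t := ((k3.sqrt.mul_const √(∫ x, D.Γ g g x ∂μ)).const_mul M).const_add
    (∫ x, ψ x * D.Γ f g x ∂μ)
  rw [Real.sqrt_zero, zero_mul, mul_zero, add_zero] at t
  refine ha.not_ge (ge_of_tendsto' t fun j => ?_)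
  have b := D.sub_mem (hw j) hfV
  have e1 : ∫ x, ψ x * D.Γ (∑ k ∈ s j, c j k • u (φ k)) g x ∂μ =
      ∑ k ∈ s j, c j k * ∫ x, ψ x * D.Γ (u (φ k)) g x ∂μ := by
    simp only [← integral_const_mul]
    rw [← integral_finsetSum _ fun k _ => (hi _ (hu _)).const_mul _]
    refine integral_congr_ae ?_
    filter_upwards [D.ca1_sum (s j) (c j) (fun k => hu (φ k)) hg] with x hx
    rw [hx, Finset.mul_sum]
    exact Finset.sum_congr rfl fun k _ => mul_left_comm _ _ _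
  have e2 : a ≤ ∑ k ∈ s j, c j k * ∫ x, ψ x * D.Γ (u (φ k)) g x ∂μ := by
    rw [← one_mul a, ← k2 j, Finset.sum_mul]
    exact Finset.sum_le_sum fun k hk => mul_le_mul_of_nonneg_left (not_lt.1 (h1 k)) (k1 j k hk).2
  rw [← e1] at e2
  refine e2.trans (le_trans ?_
    (add_le_add_right (mul_le_mul_of_nonneg_left (D.Γ_int_le b hg) hM0.le) _))
  have i1 := (D.Γ_int _ b g hg).abs.const_mul M
  rw [← integral_const_mul, ← integral_add (hi f hfV) i1]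
  refine integral_mono_ae (hi _ (hw j)) ((hi f hfV).add i1) ?_
  filter_upwards [D.Γ_sub (hw j) hfV hg, hM] with x e3 e4
  rw [Pi.sub_apply] at e3
  rw [← sub_le_iff_le_add', ← mul_sub, ← e3]
  refine (le_abs_self _).trans ?_
  rw [abs_mul]
  exact mul_le_mul_of_nonneg_right e4 (abs_nonneg _)

theorem Γ_weak {u : ℕ → X → ℝ} {f : X → ℝ} {C : ℝ} (hu : ∀ k, u k ∈ D.V) (hf : MemLp f 2 μ)
    (h : Tendsto (fun k => n2 μ (u k - f)) atTop (𝓝 0))
    (hC : ∀ k, ∫ x, D.Γ (u k) (u k) x ∂μ ≤ C) {g : X → ℝ} (hg : g ∈ D.V) {ψ : X → ℝ}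
    (hm : AEStronglyMeasurable ψ μ) (hψ : Bdd μ ψ) :
    Tendsto (fun k => ∫ x, ψ x * D.Γ (u k) g x ∂μ) atTop (𝓝 (∫ x, ψ x * D.Γ f g x ∂μ)) := by
  refine tendsto_order.2 ⟨fun a ha => ?_, fun a ha => D.ca1_half hu hf h hC hg hm hψ ha⟩
  have := D.ca1_half hu hf h hC hg hm.neg hψ.neg (a := -a) (by
    simpa only [Pi.neg_apply, neg_mul, integral_neg, neg_lt_neg_iff] using ha)
  simpa only [Pi.neg_apply, neg_mul, integral_neg, neg_lt_neg_iff] using this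

end DS

end RC
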