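import Pool.Agent.P.MP_6472e5_gt.Ca1
import Pool.Agent.P.MP_6472e5_gt.Ca0m

/-! Chain rule, Leibniz rule and locality on the domain. -/

set_option autoImplicit false
set_option linter.unusedSectionVars false

noncomputable section

namespace RC

open MeasureTheory Set Filter Topology Metric

variable {X : Type} [MetricSpace X] [SecondCountableTopology X] [MeasurableSpace X] [BorelSpace X]
  {μ : Measure X}

theorem ca2_sq {v w C : ℝ} (h : |v| ≤ C * |w|) : v ^ 2 ≤ C ^ 2 * w ^ 2 := by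
  have := pow_le_pow_left₀ (abs_nonneg _) h 2
  rwa [mul_pow, sq_abs, sq_abs] at this

theorem ca2_n2_le {v w : X → ℝ} {C : ℝ} (hw : MemLp w 2 μ) (h : ∀ᵐ x ∂μ, |v x| ≤ C * |w x|) :
    n2 μ v ≤ C ^ 2 * n2 μ w := by
  rw [n2, n2, ← integral_const_mul]
  exact integral_mono_of_nonneg (Eventually.of_forall fun x => sq_nonneg _)
    (hw.integrable_sq.const_mul _) (h.mono fun x hx => ca2_sq hx)

theorem ca2_n2_dom {v : ℕ → X → ℝ} {w : X → ℝ} {C : ℝ} (hw : MemLp w 2 μ)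
    (hm : ∀ k, AEStronglyMeasurable (v k) μ) (h : ∀ k, ∀ᵐ x ∂μ, |v k x| ≤ C * |w x|)
    (hl : ∀ᵐ x ∂μ, Tendsto (fun k => v k x) atTop (𝓝 0)) :
    Tendsto (fun k => n2 μ (v k)) atTop (𝓝 0) := by
  have key : Tendsto (fun k => ∫ x, v k x ^ 2 ∂μ) atTop (𝓝 (∫ _, (0 : ℝ) ∂μ)) :=
    tendsto_integral_of_dominated_convergence (fun x => C ^ 2 * w x ^ 2) (fun k => (hm k).pow 2)
      (hw.integrable_sq.const_mul _) (fun k => (h k).mono fun x hx => by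
        rw [Real.norm_of_nonneg (sq_nonneg _)]
        exact ca2_sq hx) (hl.mono fun x hx => by simpa using hx.pow 2)
  rwa [integral_zero] at key

theorem ca2_test {b : ℕ → X → ℝ} {b' ψ : X → ℝ} (hb : ∀ k, Integrable (b k) μ)
    (hb' : Integrable b' μ) (h : Tendsto (fun k => ∫ x, |b k x - b' x| ∂μ) atTop (𝓝 0))
    (hm : AEStronglyMeasurable ψ μ) (hψ : Bdd μ ψ) :
    Tendsto (fun k => ∫ x, ψ x * b k x ∂μ) atTop (𝓝 (∫ x, ψ x * b' x ∂μ)) := by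
  obtain ⟨C, hC⟩ := id hψ
  rw [tendsto_iff_norm_sub_tendsto_zero]
  refine squeeze_zero (fun _ => norm_nonneg _) (fun k => ?_) (by simpa using h.const_mul C)
  rw [← integral_sub (hψ.mul_integrable hm (hb k)) (hψ.mul_integrable hm hb'), ← integral_const_mul]
  refine norm_integral_le_of_norm_le (((hb k).sub hb').abs.const_mul C) ?_
  filter_upwards [hC] with x hx
  rw [← mul_sub, norm_mul]
  exact mul_le_mul_of_nonneg_right hx (abs_nonneg _)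

theorem ca2_int {b : ℕ → X → ℝ} {b' : X → ℝ} (hb : ∀ k, Integrable (b k) μ)
    (hb' : Integrable b' μ) (h : Tendsto (fun k => ∫ x, |b k x - b' x| ∂μ) atTop (𝓝 0)) :
    Tendsto (fun k => ∫ x, b k x ∂μ) atTop (𝓝 (∫ x, b' x ∂μ)) := by
  simpa using ca2_test hb hb' h aestronglyMeasurable_const (Bdd.const 1)

theorem ca2_l1 {a b : ℕ → X → ℝ} {a' b' : X → ℝ} {L : ℝ}
    (ha : ∀ k, AEStronglyMeasurable (a k) μ) (hL : ∀ k x, |a k x| ≤ L)
    (hl : ∀ᵐ x ∂μ, Tendsto (fun k => a k x) atTop (𝓝 (a' x))) (hb : ∀ k, Integrable (b k) μ)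
    (hb' : Integrable b' μ) (h : Tendsto (fun k => ∫ x, |b k x - b' x| ∂μ) atTop (𝓝 0)) :
    Integrable (fun x => a' x * b' x) μ ∧
      Tendsto (fun k => ∫ x, |a k x * b k x - a' x * b' x| ∂μ) atTop (𝓝 0) := by
  have hm := aestronglyMeasurable_of_tendsto_ae atTop ha hl
  have hL' : ∀ᵐ x ∂μ, |a' x| ≤ L := hl.mono fun x hx => le_of_tendsto' hx.abs fun k => hL k x
  have hi : ∀ k, Integrable (fun x => |(a k x - a' x) * b' x|) μ := fun k =>
    ((Bdd.sub ⟨L, Eventually.of_forall (hL k)⟩ ⟨L, hL'⟩).mul_integrable ((ha k).sub hm) hb').abs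
  have key : Tendsto (fun k => ∫ x, |(a k x - a' x) * b' x| ∂μ) atTop (𝓝 (∫ _, (0 : ℝ) ∂μ)) :=
    tendsto_integral_of_dominated_convergence (fun x => (L + L) * |b' x|) (fun k => (hi k).1)
      (hb'.abs.const_mul _) (fun k => hL'.mono fun x hx => by
        rw [Real.norm_eq_abs, abs_abs, abs_mul]
        exact mul_le_mul_of_nonneg_right ((abs_sub _ _).trans (add_le_add (hL k x) hx))
          (abs_nonneg _)) (hl.mono fun x hx => by
        simpa using ((hx.sub_const (a' x)).mul_const (b' x)).abs)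
  rw [integral_zero] at key
  refine ⟨Bdd.mul_integrable ⟨L, hL'⟩ hm hb', squeeze_zero
    (fun k => integral_nonneg fun x => abs_nonneg _) (fun k => ?_)
    (((h.const_mul L).add key).trans_eq (by simp))⟩
  have h1 : Integrable (fun x => L * |b k x - b' x|) μ := ((hb k).sub hb').abs.const_mul L
  rw [← integral_const_mul, ← integral_add h1 (hi k)]
  refine integral_mono_of_nonneg (Eventually.of_forall fun x => abs_nonneg _) (h1.add (hi k))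
    (Eventually.of_forall fun x => ?_)
  beta_reduce
  rw [show a k x * b k x - a' x * b' x = a k x * (b k x - b' x) + (a k x - a' x) * b' x by ring]
  refine (abs_add_le _ _).trans (add_le_add_left ?_ _)
  rw [abs_mul]
  exact mul_le_mul_of_nonneg_right (hL k x) (abs_nonneg _)

theorem ca2_amgm {x a b : ℝ} (h : x ^ 2 ≤ a * b) (ha : 0 ≤ a) (hb : 0 ≤ b) : 2 * x ≤ a + b :=
  (abs_le_of_sq_le_sq' (by nlinarith [sq_nonneg (a - b)]) (add_nonneg ha hb)).2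

theorem ca2_abs {Φ : ℝ → ℝ} {L : NNReal} (hΦ : LipschitzWith L Φ) (h0 : Φ 0 = 0) (t : ℝ) :
    |Φ t| ≤ L * |t| := by
  simpa [h0] using hΦ.dist_le_mul t 0

theorem ca2_stek {Φ : ℝ → ℝ} {L : NNReal} (hΦ : LipschitzWith L Φ) (h0 : Φ 0 = 0) :
    ∃ Ψ Ψ' : ℕ → ℝ → ℝ, (∀ k, LipschitzWith L (Ψ k) ∧ Ψ k 0 = 0 ∧
      (∀ t, HasDerivAt (Ψ k) (Ψ' k t) t) ∧ Continuous (Ψ' k)) ∧
      ∀ t, Tendsto (fun k => Ψ k t) atTop (𝓝 (Φ t)) := by
  have hc := hΦ.continuous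
  have hA : ∀ t, HasDerivAt (fun t => ∫ s in (0 : ℝ)..t, Φ s) (Φ t) t :=
    fun t => (hc.integral_hasStrictDerivAt 0 t).hasDerivAt
  generalize (fun t => ∫ s in (0 : ℝ)..t, Φ s) = A at hA
  have hp : ∀ k : ℕ, 0 < 1 / ((k : ℝ) + 1) := fun k => Nat.one_div_pos_of_nat
  have hh : Tendsto (fun k : ℕ => 1 / ((k : ℝ) + 1)) atTop (𝓝[≠] 0) :=
    tendsto_nhdsWithin_iff.2 ⟨tendsto_one_div_add_atTop_nhds_zero_nat,
      Eventually.of_forall fun k => (hp k).ne'⟩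
  have hd : ∀ h t : ℝ, HasDerivAt (fun t => h⁻¹ • (A (t + h) - A t) - h⁻¹ • (A (0 + h) - A 0))
      (h⁻¹ • (Φ (t + h) - Φ t)) t := fun h t =>
    ((((hA (t + h)).comp_add_const t h).sub (hA t)).const_smul h⁻¹).sub_const _
  refine ⟨fun k t => (1 / ((k : ℝ) + 1))⁻¹ • (A (t + 1 / ((k : ℝ) + 1)) - A t) -
    (1 / ((k : ℝ) + 1))⁻¹ • (A (0 + 1 / ((k : ℝ) + 1)) - A 0), _,
    fun k => ⟨?_, sub_self _, hd (1 / ((k : ℝ) + 1)), by fun_prop⟩, fun t => ?_⟩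
  · refine lipschitzWith_of_nnnorm_deriv_le (fun t => (hd _ t).differentiableAt) fun t => ?_
    have := hΦ.dist_le_mul (t + 1 / ((k : ℝ) + 1)) t
    rw [Real.dist_eq, Real.dist_eq, add_sub_cancel_left, abs_of_pos (hp k)] at this
    rw [(hd _ t).deriv, ← NNReal.coe_le_coe, coe_nnnorm, norm_smul, norm_inv,
      Real.norm_of_nonneg (hp k).le, inv_mul_le_iff₀' (hp k)]
    exact this
  · have := ((hA t).tendsto_slope_zero.comp hh).sub ((hA 0).tendsto_slope_zero.comp hh)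
    rwa [h0, sub_zero] at this

theorem ca2_arc (c : ℝ) : ∃ Ψ Ψ' : ℕ → ℝ → ℝ, (∀ k, LipschitzWith 1 (Ψ k) ∧ Ψ k 0 = 0 ∧
      (∀ t, HasDerivAt (Ψ k) (Ψ' k t) t) ∧ Continuous (Ψ' k)) ∧
      (∀ t, Tendsto (fun k => Ψ k t) atTop (𝓝 0)) ∧
      ∀ t, Tendsto (fun k => Ψ' k t) atTop (𝓝 (if t = c then 1 else 0)) := by
  have hp : ∀ k : ℕ, 0 < (k : ℝ) + 1 := fun k => Nat.cast_add_one_pos k
  have hd : ∀ (k : ℕ) (t : ℝ), HasDerivAt (fun t => (Real.arctan ((k + 1) * (t - c)) -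
      Real.arctan ((k + 1) * (0 - c))) / (k + 1)) (1 / (1 + ((k + 1) * (t - c)) ^ 2)) t :=
    fun k t => by
      refine ((((((hasDerivAt_id' t).sub_const c).const_mul ((k : ℝ) + 1)).arctan).sub_const
        _).div_const _).congr_deriv ?_
      rw [mul_one, mul_div_cancel_right₀ _ (hp k).ne']
  refine ⟨_, _, fun k => ⟨?_, by rw [sub_self, zero_div], hd k,
    continuous_const.div (by fun_prop) fun t => by positivity⟩, fun t => ?_, fun t => ?_⟩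
  · refine lipschitzWith_of_nnnorm_deriv_le (fun t => (hd _ t).differentiableAt) fun t => ?_
    rw [(hd _ t).deriv, ← NNReal.coe_le_coe, coe_nnnorm, Real.norm_of_nonneg (by positivity),
      NNReal.coe_one, div_le_one (by positivity)]
    exact le_add_of_nonneg_right (sq_nonneg _)
  · refine squeeze_zero_norm (fun k => ?_)
      (by simpa using tendsto_one_div_add_atTop_nhds_zero_nat.const_mul Real.pi)
    rw [norm_div, Real.norm_of_nonneg (hp k).le, ← div_eq_mul_inv]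
    refine div_le_div_of_nonneg_right (abs_le.2 ⟨?_, ?_⟩) (hp k).le <;>
    linarith [Real.arctan_lt_pi_div_two ((k + 1) * (t - c)),
      Real.neg_pi_div_two_lt_arctan ((k + 1) * (t - c)),
      Real.arctan_lt_pi_div_two ((k + 1) * (0 - c)),
      Real.neg_pi_div_two_lt_arctan ((k + 1) * (0 - c))]
  · split_ifs with h
    · simp [h]
    · simp only [mul_pow]
      exact tendsto_const_nhds.div_atTop (tendsto_atTop_add_const_left _ _
        (((tendsto_pow_atTop two_ne_zero).comp (tendsto_atTop_add_const_right _ 1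
          tendsto_natCast_atTop_atTop)).atTop_mul_const (sq_pos_of_ne_zero (sub_ne_zero.2 h))))

theorem ca2_clamp (a b : ℝ) : LipschitzWith 1 fun t : ℝ => max a (min b t) :=
  (LipschitzWith.id.const_min b).const_max a

theorem ca2_clamp_eq {a b t : ℝ} (h1 : a ≤ t) (h2 : t ≤ b) : max a (min b t) = t := by
  rw [min_eq_right h2, max_eq_right h1]

theorem ca2_T0 (k : ℕ) : max (-(k : ℝ)) (min k 0) = 0 := ca2_clamp_eq (by simp) (by simp)

theorem ca2_Tle (k : ℕ) (t : ℝ) : |max (-(k : ℝ)) (min k t)| ≤ k :=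
  abs_le.2 ⟨le_max_left _ _, max_le (by simp) (min_le_left _ _)⟩

theorem ca2_Tev (t : ℝ) : ∀ᶠ k : ℕ in atTop, max (-(k : ℝ)) (min k t) = t :=
  (tendsto_natCast_atTop_atTop.eventually_ge_atTop |t|).mono fun _ hk =>
    ca2_clamp_eq (abs_le.1 hk).1 (abs_le.1 hk).2

theorem ca2_sqr (M : ℝ) : ∃ (Φ Φ' : ℝ → ℝ) (L : NNReal), LipschitzWith L Φ ∧ Φ 0 = 0 ∧
    (∀ t, HasDerivAt Φ (Φ' t) t) ∧ Continuous Φ' ∧ ∀ t, |t| ≤ M → Φ t = t * t ∧ Φ' t = 2 * t := by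
  obtain ⟨k, hk⟩ := exists_nat_ge M
  have hc : Continuous fun t : ℝ => 2 * max (-(k : ℝ)) (min k t) := by fun_prop
  have hA := fun t => (hc.integral_hasStrictDerivAt 0 t).hasDerivAt
  have e : ∀ t : ℝ, |t| ≤ M → 2 * max (-(k : ℝ)) (min k t) = 2 * t := fun t ht => by
    rw [ca2_clamp_eq (abs_le.1 (ht.trans hk)).1 (abs_le.1 (ht.trans hk)).2]
  refine ⟨_, _, 2 * k, lipschitzWith_of_nnnorm_deriv_le (fun t => (hA t).differentiableAt)
    fun t => ?_, intervalIntegral.integral_same, hA, hc, fun t ht => ⟨?_, e t ht⟩⟩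
  · rw [(hA t).deriv, ← NNReal.coe_le_coe, coe_nnnorm, norm_mul, Real.norm_two]
    exact mul_le_mul_of_nonneg_left (ca2_Tle k t) zero_le_two
  · rw [intervalIntegral.integral_congr (g := fun s => 2 * s) fun s hs => e s
      (le_trans (by simpa using abs_sub_left_of_mem_uIcc hs) ht),
      intervalIntegral.integral_const_mul, integral_id]
    ring

namespace DS

variable (D : DS μ)

theorem ca2_zero {g : X → ℝ} (hg : g ∈ D.V) : ∀ᵐ x ∂μ, D.Γ 0 g x = 0 := by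
  filter_upwards [D.Γ_smul 0 g hg g hg] with x hx
  simpa using hx

theorem ca2_ident {u b : ℕ → X → ℝ} {f g γ : X → ℝ} {C : ℝ} (hu : ∀ k, u k ∈ D.V) (hf : f ∈ D.V)
    (h : Tendsto (fun k => n2 μ (u k - f)) atTop (𝓝 0))
    (hC : ∀ k, ∫ x, D.Γ (u k) (u k) x ∂μ ≤ C) (hg : g ∈ D.V)
    (hb : ∀ k, ∀ᵐ x ∂μ, D.Γ (u k) g x = b k x)
    (hγ : Integrable γ μ ∧ Tendsto (fun k => ∫ x, |b k x - γ x| ∂μ) atTop (𝓝 0)) :
    ∀ᵐ x ∂μ, D.Γ f g x = γ x := by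
  refine (D.ae_eq_of_test (locInt_of_int (D.Γ_int f hf g hg)) (locInt_of_int hγ.1) isOpen_univ
    fun φ hφ _ => ?_).mono fun x hx => hx trivial
  have hm : AEStronglyMeasurable φ μ := hφ.continuous.aestronglyMeasurable
  refine tendsto_nhds_unique (D.Γ_weak hu (D.memLp f hf) h hC hg hm hφ.bdd)
    ((ca2_test (fun k => (D.Γ_int _ (hu k) g hg).congr (hb k)) hγ.1 hγ.2 hm hφ.bdd).congr
      fun k => integral_congr_ae ?_)
  filter_upwards [hb k] with x hx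
  rw [hx]

theorem ca2_bddE {u γ : ℕ → X → ℝ} {γ' : X → ℝ} (hu : ∀ k, u k ∈ D.V)
    (hb : ∀ k, ∀ᵐ x ∂μ, D.Γ (u k) (u k) x ≤ γ k x) (hγ : ∀ k, Integrable (γ k) μ)
    (hl : Integrable γ' μ ∧ Tendsto (fun k => ∫ x, |γ k x - γ' x| ∂μ) atTop (𝓝 0)) :
    ∃ C, ∀ k, ∫ x, D.Γ (u k) (u k) x ∂μ ≤ C := by
  obtain ⟨C, hC⟩ := (ca2_int hγ hl.1 hl.2).bddAbove_range
  exact ⟨C, fun k => (integral_mono_ae (D.Γ_int _ (hu k) _ (hu k)) (hγ k) (hb k)).trans
    (hC ⟨k, rfl⟩)⟩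

theorem ca2_lsc {u γ : ℕ → X → ℝ} {f γ' : X → ℝ} (hu : ∀ k, u k ∈ D.V) (hf : MemLp f 2 μ)
    (h : Tendsto (fun k => n2 μ (u k - f)) atTop (𝓝 0))
    (hb : ∀ k, ∀ᵐ x ∂μ, D.Γ (u k) (u k) x ≤ γ k x) (hγ : ∀ k, Integrable (γ k) μ)
    (hl : Integrable γ' μ ∧ Tendsto (fun k => ∫ x, |γ k x - γ' x| ∂μ) atTop (𝓝 0)) :
    f ∈ D.V ∧ ∀ᵐ x ∂μ, D.Γ f f x ≤ γ' x := by
  obtain ⟨C, hC⟩ := D.ca2_bddE hu hb hγ hl
  have hV := (D.Γ_mazur hu hf h hC).1
  have hi := D.Γ_int f hV f hV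
  refine ⟨hV, (D.ae_le_of_test (locInt_of_int hi) (locInt_of_int hl.1) isOpen_univ
    fun φ hφ _ h0 => ?_).mono fun x hx => hx trivial⟩
  have hm : AEStronglyMeasurable φ μ := hφ.continuous.aestronglyMeasurable
  have e := le_of_tendsto_of_tendsto' ((D.Γ_weak hu hf h hC hV hm hφ.bdd).const_mul 2)
    ((ca2_test hγ hl.1 hl.2 hm hφ.bdd).add_const (∫ x, φ x * D.Γ f f x ∂μ)) fun k => by
      have i1 := hφ.bdd.mul_integrable hm (hγ k)
      have i2 := hφ.bdd.mul_integrable hm hi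
      rw [← integral_const_mul, ← integral_add i1 i2]
      refine integral_mono_ae ((hφ.bdd.mul_integrable hm (D.Γ_int _ (hu k) f hV)).const_mul 2)
        (i1.add i2) ?_
      filter_upwards [hb k, D.Γ_cs (hu k) hV, D.Γ_nonneg _ (hu k), D.Γ_nonneg f hV]
        with x e1 e2 e3 e4
      have := mul_le_mul_of_nonneg_left ((ca2_amgm e2 e3 e4).trans (add_le_add_left e1 _)) (h0 x)
      linarith
  linarith

theorem ca2_chainL {f g : X → ℝ} (hf : LipB f) (hg : g ∈ D.V) {Φ Φ' : ℝ → ℝ} {L : NNReal}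
    (hΦ : LipschitzWith L Φ) (h0 : Φ 0 = 0) (hd : ∀ t, HasDerivAt Φ (Φ' t) t)
    (hc : Continuous Φ') :
    ∀ᵐ x ∂μ, D.Γ (fun x => Φ (f x)) g x = Φ' (f x) * D.Γ f g x := by
  obtain ⟨K, hK⟩ := hf.1
  have h1 := hf.comp hΦ h0
  have key : ∀ ε : ℝ, 0 < ε → ∀ᵐ y ∂μ, y ∈ univ →
      |D.Γ (fun x => Φ (f x)) g y - Φ' (f y) * D.Γ f g y| ≤
        ε * (K * √(D.Γ g g y) + |D.Γ f g y|) := fun ε hε => D.ae_of_local fun x₀ _ => by
    lift ε to NNReal using hε.le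
    obtain ⟨δ, hδ, h2⟩ := Metric.continuousAt_iff.1 (hc.continuousAt (x := f x₀)) ε hε
    obtain ⟨r, hr, h3⟩ := Metric.continuousAt_iff.1 (hf.continuous.continuousAt (x := x₀)) δ hδ
    have h4 : LipschitzOnWith ε (fun t => Φ t - Φ' (f x₀) * t) (ball (f x₀) δ) :=
      (convex_ball _ _).lipschitzOnWith_of_nnnorm_hasDerivWithin_le
        (f' := fun t => Φ' t - Φ' (f x₀) * 1)
        (fun t _ => ((hd t).sub ((hasDerivAt_id' t).const_mul (Φ' (f x₀)))).hasDerivWithinAt)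
        fun t ht => by
          rw [mul_one]
          exact (h2 ht).le
    have h5 := h1.sub (hf.smul (Φ' (f x₀)))
    refine ⟨r, hr, ?_⟩
    filter_upwards [D.Γ_lip _ h5 (ball x₀ r) (ε * K) isOpen_ball
      (h4.comp hK.lipschitzOnWith fun y hy => h3 hy), D.Γ_cs (D.lip _ h5) hg,
      D.Γ_sub (D.lip _ h1) (D.lip _ (hf.smul (Φ' (f x₀)))) hg,
      D.Γ_smul (Φ' (f x₀)) f (D.lip _ hf) g hg, D.Γ_nonneg g hg] with y e1 e2 e3 e4 e5 hy
    rw [e3, Pi.sub_apply, e4, Pi.smul_apply, smul_eq_mul] at e2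
    have e6 := abs_le_of_sq_le_sq (b := ε * K * √(D.Γ g g y)) (e2.trans (by
      rw [mul_pow _ √_, Real.sq_sqrt e5]
      exact mul_le_mul_of_nonneg_right (e1 hy) e5)) (by positivity)
    have e7 : |(Φ' (f x₀) - Φ' (f y)) * D.Γ f g y| ≤ ε * |D.Γ f g y| := by
      rw [abs_mul, abs_sub_comm]
      exact mul_le_mul_of_nonneg_right (h2 (h3 hy)).le (abs_nonneg _)
    calc _ = |D.Γ (fun x => Φ (f x)) g y - Φ' (f x₀) * D.Γ f g y +
          (Φ' (f x₀) - Φ' (f y)) * D.Γ f g y| := by ring_nf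
      _ ≤ _ := abs_add_le _ _
      _ ≤ _ := by linarith
  filter_upwards [ae_all_iff.2 fun n : ℕ => key (1 / ((n : ℝ) + 1)) Nat.one_div_pos_of_nat]
    with y hy
  have := ge_of_tendsto' (tendsto_one_div_add_atTop_nhds_zero_nat.mul_const _) fun n => hy n trivial
  rwa [zero_mul, abs_nonpos_iff, sub_eq_zero] at this

theorem ca2_compL {f : X → ℝ} (hf : LipB f) {Φ : ℝ → ℝ} {L : NNReal} (hΦ : LipschitzWith L Φ)
    (h0 : Φ 0 = 0) :
    ∀ᵐ x ∂μ, D.Γ (fun x => Φ (f x)) (fun x => Φ (f x)) x ≤ (L : ℝ) ^ 2 * D.Γ f f x := by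
  obtain ⟨Ψ, Ψ', h1, h2⟩ := ca2_stek hΦ h0
  have hV := D.lip _ hf
  have hu := fun k => D.lip _ (hf.comp (h1 k).1 (h1 k).2.1)
  have hw := D.lip _ (hf.comp hΦ h0)
  have hi := (D.Γ_int f hV f hV).const_mul ((L : ℝ) ^ 2)
  refine (D.ca2_lsc hu (D.memLp _ hw) (ca2_n2_dom (C := L + L) (D.memLp f hV)
    (fun k => (D.aesm (hu k)).sub (D.aesm hw)) (fun k => Eventually.of_forall fun x => ?_)
    (Eventually.of_forall fun x => tendsto_sub_nhds_zero_iff.2 (h2 (f x)))) (fun k => ?_)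
    (fun _ => hi) ⟨hi, by simp⟩).2
  · rw [add_mul]
    exact (abs_sub _ _).trans (add_le_add (ca2_abs (h1 k).1 (h1 k).2.1 _) (ca2_abs hΦ h0 _))
  · obtain ⟨a, b, c, d⟩ := h1 k
    filter_upwards [D.ca2_chainL hf (hu k) a b c d, D.ca2_chainL hf hV a b c d,
      D.Γ_symm _ hV _ (hu k), D.Γ_nonneg f hV] with x e1 e2 e3 e4
    rw [e1, e3, e2, ← mul_assoc, ← sq]
    exact mul_le_mul_of_nonneg_right
      (sq_le_sq' (abs_le.1 ((c _).le_of_lipschitz a)).1 (abs_le.1 ((c _).le_of_lipschitz a)).2) e4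

theorem ca2_n2c {u : ℕ → X → ℝ} {f : X → ℝ} (hu : ∀ k, u k ∈ D.V) (hf : f ∈ D.V)
    (h : Tendsto (fun k => n2 μ (u k - f)) atTop (𝓝 0)) {Φ : ℝ → ℝ} {L : NNReal}
    (hΦ : LipschitzWith L Φ) :
    Tendsto (fun k => n2 μ ((fun x => Φ (u k x)) - fun x => Φ (f x))) atTop (𝓝 0) :=
  squeeze_zero (fun _ => n2_nonneg _) (fun k => ca2_n2_le (D.memLp _ (D.sub_mem (hu k) hf))
    (Eventually.of_forall fun x => hΦ.dist_le_mul (u k x) (f x)))
    (by simpa using h.const_mul ((L : ℝ) ^ 2))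

theorem ca2_l1c {u : ℕ → X → ℝ} {f : X → ℝ} (hu : ∀ k, u k ∈ D.V) (hf : f ∈ D.V)
    (h : Tendsto (fun k => ∫ x, D.Γ (u k - f) (u k - f) x ∂μ) atTop (𝓝 0)) (c : ℝ) :
    Integrable (fun x => c * D.Γ f f x) μ ∧
      Tendsto (fun k => ∫ x, |c * D.Γ (u k) (u k) x - c * D.Γ f f x| ∂μ) atTop (𝓝 0) :=
  ca2_l1 (a := fun _ _ => c) (fun _ => aestronglyMeasurable_const) (fun _ _ => le_rfl)
    (Eventually.of_forall fun _ => tendsto_const_nhds) (fun k => D.Γ_int _ (hu k) _ (hu k))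
    (D.Γ_int f hf f hf)
    (D.Γ_tendsto (Eventually.of_forall hu) (Eventually.of_forall hu) hf hf h h)

theorem comp_mem {f : X → ℝ} (hf : f ∈ D.V) {Φ : ℝ → ℝ} {L : NNReal} (hΦ : LipschitzWith L Φ)
    (h0 : Φ 0 = 0) : (fun x => Φ (f x)) ∈ D.V ∧
      ∀ᵐ x ∂μ, D.Γ (fun x => Φ (f x)) (fun x => Φ (f x)) x ≤ (L : ℝ) ^ 2 * D.Γ f f x := by
  obtain ⟨u, h1, h2, h3⟩ := D.dense f hf
  have hu := fun k => D.lip _ (h1 k)
  exact D.ca2_lsc (fun k => D.lip _ ((h1 k).comp hΦ h0)) (hΦ.comp_memLp h0 (D.memLp f hf))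
    (D.ca2_n2c hu hf h2 hΦ) (fun k => D.ca2_compL (h1 k) hΦ h0)
    (fun k => (D.Γ_int _ (hu k) _ (hu k)).const_mul _) (D.ca2_l1c hu hf h3 _)

theorem Γ_chain {f g : X → ℝ} (hf : f ∈ D.V) (hg : g ∈ D.V) {Φ Φ' : ℝ → ℝ} {L : NNReal}
    (hΦ : LipschitzWith L Φ) (h0 : Φ 0 = 0) (hd : ∀ t, HasDerivAt Φ (Φ' t) t)
    (hc : Continuous Φ') :
    ∀ᵐ x ∂μ, D.Γ (fun x => Φ (f x)) g x = Φ' (f x) * D.Γ f g x := by
  obtain ⟨v, k1, k2, k3⟩ := D.dense f hf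
  obtain ⟨φ, hφ, h4⟩ := exists_subseq_ae (fun k => D.lipB_memLp (k1 k)) (D.memLp f hf) k2
  have h1 := fun k => k1 (φ k)
  have hu := fun k => D.lip _ (h1 k)
  have h3 := k3.comp hφ.tendsto_atTop
  have hw := fun k => D.lip _ ((h1 k).comp hΦ h0)
  obtain ⟨C, hC⟩ := D.ca2_bddE hw (fun k => D.ca2_compL (h1 k) hΦ h0)
    (fun k => (D.Γ_int _ (hu k) _ (hu k)).const_mul _) (D.ca2_l1c hu hf h3 _)
  refine D.ca2_ident hw (D.comp_mem hf hΦ h0).1 (D.ca2_n2c hu hf (k2.comp hφ.tendsto_atTop) hΦ) hC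
    hg (fun k => D.ca2_chainL (h1 k) hg hΦ h0 hd hc) (ca2_l1 (L := L)
      (fun k => hc.comp_aestronglyMeasurable (D.aesm (hu k)))
      (fun k x => (hd _).le_of_lipschitz hΦ) (h4.mono fun x hx => (hc.tendsto _).comp hx)
      (fun k => D.Γ_int _ (hu k) g hg) (D.Γ_int f hf g hg)
      (D.Γ_tendsto (v := fun _ => g) (Eventually.of_forall hu) (Eventually.of_forall fun _ => hg)
        hf hg h3 ?_))
  rw [sub_self, integral_eq_zero_of_ae (D.ca2_zero D.zero_mem)]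
  exact tendsto_const_nhds

/-- The carre du champ vanishes on level sets. -/
theorem Γ_level {f : X → ℝ} (hf : f ∈ D.V) (c : ℝ) : ∀ᵐ x ∂μ, f x = c → D.Γ f f x = 0 := by
  obtain ⟨Ψ, Ψ', h1, h2, h3⟩ := ca2_arc c
  have hu := fun k => D.comp_mem hf (h1 k).1 (h1 k).2.1
  have hi := D.Γ_int f hf f hf
  have key := D.ca2_ident (fun k => (hu k).1) D.zero_mem (ca2_n2_dom (C := (1 : NNReal))
    (D.memLp f hf) (fun k => by rw [sub_zero]; exact D.aesm (hu k).1)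
    (fun k => Eventually.of_forall fun x => by
      rw [sub_zero]
      exact ca2_abs (h1 k).1 (h1 k).2.1 _)
    (Eventually.of_forall fun x => by simpa using h2 (f x)))
    (fun k => integral_mono_ae (D.Γ_int _ (hu k).1 _ (hu k).1) (hi.const_mul _) (hu k).2) hf
    (fun k => D.Γ_chain hf hf (h1 k).1 (h1 k).2.1 (h1 k).2.2.1 (h1 k).2.2.2)
    (ca2_l1 (L := (1 : NNReal)) (fun k => (h1 k).2.2.2.comp_aestronglyMeasurable (D.aesm hf))
      (fun k x => ((h1 k).2.2.1 _).le_of_lipschitz (h1 k).1)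
      (Eventually.of_forall fun x => h3 (f x)) (fun _ => hi) hi (by simp))
  filter_upwards [key, D.ca2_zero hf] with x e1 e2 e3
  rw [e2, if_pos e3, one_mul] at e1
  exact e1.symm

/-- Strong locality. -/
theorem Γ_loc {f f' g g' : X → ℝ} (hf : f ∈ D.V) (hf' : f' ∈ D.V) (hg : g ∈ D.V) (hg' : g' ∈ D.V)
    (c c' : ℝ) : ∀ᵐ x ∂μ, f x = f' x + c → g x = g' x + c' → D.Γ f g x = D.Γ f' g' x := by
  have key : ∀ {a a' b : X → ℝ}, a ∈ D.V → a' ∈ D.V → b ∈ D.V → ∀ c : ℝ,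
      ∀ᵐ x ∂μ, a x = a' x + c → D.Γ a b x = D.Γ a' b x := fun ha ha' hb c => by
    filter_upwards [D.Γ_level (D.sub_mem ha ha') c, D.Γ_cs (D.sub_mem ha ha') hb,
      D.Γ_sub ha ha' hb] with x e1 e2 e3 e4
    rw [e1 (sub_eq_iff_eq_add'.2 e4), zero_mul, e3] at e2
    exact sub_eq_zero.1 (pow_eq_zero_iff two_ne_zero |>.1 (le_antisymm e2 (sq_nonneg _)))
  filter_upwards [key hf hf' hg c, key hg hg' hf' c', D.Γ_symm _ hf' _ hg, D.Γ_symm _ hf' _ hg']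
    with x e1 e2 e3 e4 k1 k2
  rw [e1 k1, e3, e2 k2, e4]

theorem ca2_sqm {f : X → ℝ} (hf : f ∈ D.V) (bf : Bdd μ f) :
    f * f ∈ D.V ∧ ∀ h ∈ D.V, ∀ᵐ x ∂μ, D.Γ (f * f) h x = 2 * f x * D.Γ f h x := by
  obtain ⟨M, hM⟩ := bf
  obtain ⟨Φ, Φ', L, a, b, c, d, e⟩ := ca2_sqr M
  have h1 := (D.comp_mem hf a b).1
  have h2 : (fun x => Φ (f x)) =ᵐ[μ] f * f := hM.mono fun x hx => (e _ hx).1
  refine ⟨D.congr _ h1 _ h2, fun h hh => ?_⟩
  filter_upwards [hM, D.Γ_congr _ h1 h hh _ h2, D.Γ_chain hf hh a b c d] with x e1 e2 e3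
  rw [← e2, e3, (e _ e1).2]

theorem ca2_mul {f g : X → ℝ} (hf : f ∈ D.V) (hg : g ∈ D.V) (bf : Bdd μ f) (bg : Bdd μ g) :
    f * g ∈ D.V ∧ ∀ h ∈ D.V, ∀ᵐ x ∂μ, D.Γ (f * g) h x = f x * D.Γ g h x + g x * D.Γ f h x := by
  obtain ⟨a1, a2⟩ := D.ca2_sqm hf bf
  obtain ⟨b1, b2⟩ := D.ca2_sqm hg bg
  obtain ⟨c1, c2⟩ := D.ca2_sqm (D.add f hf g hg) (bf.add bg)
  have e : f * g = (1 / 2 : ℝ) • ((f + g) * (f + g) - f * f - g * g) := funext fun x => by
    simp only [Pi.mul_apply, Pi.smul_apply, Pi.sub_apply, Pi.add_apply, smul_eq_mul]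
    ring
  have h1 := D.sub_mem c1 a1
  have h2 := D.sub_mem h1 b1
  rw [e]
  refine ⟨D.smul _ _ h2, fun h hh => ?_⟩
  filter_upwards [D.Γ_smul (1 / 2) _ h2 h hh, D.Γ_sub h1 b1 hh, D.Γ_sub c1 a1 hh, a2 h hh, b2 h hh,
    c2 h hh, D.Γ_add f hf g hg h hh] with x e1 e2 e3 e4 e5 e6 e7
  rw [e1, Pi.smul_apply, e2, Pi.sub_apply, e3, Pi.sub_apply, e4, e5, e6, e7, Pi.add_apply,
    Pi.add_apply, smul_eq_mul]
  ring

theorem ca2_mul_le {f g : X → ℝ} (hf : f ∈ D.V) (hg : g ∈ D.V) (bf : Bdd μ f) (bg : Bdd μ g) :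
    ∀ᵐ x ∂μ, D.Γ (f * g) (f * g) x ≤ 2 * (f x ^ 2 * D.Γ g g x) + 2 * (g x ^ 2 * D.Γ f f x) := by
  obtain ⟨h1, h2⟩ := D.ca2_mul hf hg bf bg
  filter_upwards [h2 _ h1, h2 f hf, h2 g hg, D.Γ_symm g hg _ h1, D.Γ_symm f hf _ h1,
    D.Γ_symm g hg f hf, D.Γ_cs hf hg, D.Γ_nonneg f hf, D.Γ_nonneg g hg]
    with x e1 e2 e3 e4 e5 e6 e7 e8 e9
  have := ca2_amgm (x := f x * g x * D.Γ f g x) (a := f x ^ 2 * D.Γ g g x)
    (b := g x ^ 2 * D.Γ f f x) (by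
      have := mul_le_mul_of_nonneg_left e7 (sq_nonneg (f x * g x))
      linarith) (by positivity) (by positivity)
  rw [e1, e4, e5, e2, e3, e6]
  linarith

theorem ca2_T {f : X → ℝ} (hf : f ∈ D.V) (k : ℕ) :
    (fun x => max (-(k : ℝ)) (min k (f x))) ∈ D.V ∧
      Bdd μ fun x => max (-(k : ℝ)) (min k (f x)) :=
  ⟨(D.comp_mem hf (ca2_clamp _ _) (ca2_T0 k)).1, k, Eventually.of_forall fun _ => ca2_Tle k _⟩

theorem mul_mem {f g : X → ℝ} (hf : f ∈ D.V) (hg : g ∈ D.V) (bf : Bdd μ f) (bg : Bdd μ g) :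
    f * g ∈ D.V := (D.ca2_mul hf hg bf bg).1

theorem ca2_mem {f g : X → ℝ} (hf : f ∈ D.V) (hg : g ∈ D.V) (bg : Bdd μ g)
    (bG : Bdd μ (D.Γ g g)) : f * g ∈ D.V := by
  obtain ⟨C, hC⟩ := id bg
  obtain ⟨M, hM⟩ := bG
  have hT := D.ca2_T hf
  have hu := fun k => D.mul_mem (hT k).1 hg (hT k).2 bg
  have hm : MemLp (f * g) 2 μ := by
    rw [mul_comm]
    exact bg.mul_memLp (D.aesm hg) (D.memLp f hf)
  have hi := ((D.memLp f hf).integrable_sq.const_mul (2 * M)).add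
    ((D.Γ_int f hf f hf).const_mul (2 * C ^ 2))
  have hT' : ∀ (k : ℕ) (t : ℝ), |max (-(k : ℝ)) (min k t)| ≤ 1 * |t| :=
    fun k t => ca2_abs (ca2_clamp _ _) (ca2_T0 k) t
  refine (D.ca2_lsc hu hm (ca2_n2_dom (C := 2 * C) (D.memLp f hf)
    (fun k => (D.aesm (hu k)).sub hm.1) (fun k => hC.mono fun x hx => ?_)
    (Eventually.of_forall fun x => tendsto_const_nhds.congr' ((ca2_Tev (f x)).mono fun k hk => ?_)))
    (fun k => ?_) (fun _ => hi) ⟨hi, by simp⟩).1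
  · simp only [Pi.sub_apply, Pi.mul_apply]
    rw [← sub_mul, abs_mul]
    refine (mul_le_mul ((abs_sub _ _).trans (add_le_add_left (hT' k _) _)) hx (abs_nonneg _)
      (by positivity)).trans_eq ?_
    ring
  · simp only [Pi.sub_apply, Pi.mul_apply, hk, sub_self]
  · filter_upwards [D.ca2_mul_le (hT k).1 hg (hT k).2 bg, hC, hM, D.Γ_nonneg g hg,
      D.Γ_nonneg _ (hT k).1, (D.comp_mem hf (ca2_clamp _ _) (ca2_T0 k)).2] with x e1 e2 e3 e4 e5 e6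
    have k1 := mul_le_mul (ca2_sq (hT' k (f x))) ((le_abs_self _).trans e3) e4 (by positivity)
    have k2 := mul_le_mul (sq_le_sq' (abs_le.1 e2).1 (abs_le.1 e2).2) e6 e5 (sq_nonneg _)
    rw [NNReal.coe_one] at k2
    simp only [Pi.add_apply]
    linarith

theorem mul_mem_lipB {χ f : X → ℝ} (hχ : LipB χ) (hf : f ∈ D.V) : χ * f ∈ D.V := by
  obtain ⟨L, hL⟩ := hχ.1
  have hV := D.lip _ hχ
  rw [mul_comm]
  refine D.ca2_mem hf hV hχ.bdd ⟨(L : ℝ) ^ 2, ?_⟩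
  filter_upwards [D.Γ_lip _ hχ univ L isOpen_univ hL.lipschitzOnWith, D.Γ_nonneg _ hV] with x e1 e2
  rw [abs_of_nonneg e2]
  exact e1 trivial

theorem mul_mem' {f g : X → ℝ} (hf : f ∈ D.V) (hg : g ∈ D.V) (bg : Bdd μ g)
    (bG : Bdd μ (D.Γ g g)) : f * g ∈ D.V := D.ca2_mem hf hg bg bG

/-- Leibniz rule whenever the product lies in the domain. -/
theorem Γ_mul {f g h : X → ℝ} (hf : f ∈ D.V) (hg : g ∈ D.V) (hfg : f * g ∈ D.V) (hh : h ∈ D.V) :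
    ∀ᵐ x ∂μ, D.Γ (f * g) h x = f x * D.Γ g h x + g x * D.Γ f h x := by
  have key : ∀ k : ℕ, ∀ᵐ x ∂μ, max (-(k : ℝ)) (min k (f x)) = f x →
      max (-(k : ℝ)) (min k (g x)) = g x →
        D.Γ (f * g) h x = f x * D.Γ g h x + g x * D.Γ f h x := fun k => by
    obtain ⟨a1, a2⟩ := D.ca2_T hf k
    obtain ⟨b1, b2⟩ := D.ca2_T hg k
    obtain ⟨c1, c2⟩ := D.ca2_mul a1 b1 a2 b2
    filter_upwards [c2 h hh, D.Γ_loc c1 hfg hh hh 0 0, D.Γ_loc a1 hf hh hh 0 0,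
      D.Γ_loc b1 hg hh hh 0 0] with x e1 e2 e3 e4 k1 k2
    rw [← e2 (by simp only [Pi.mul_apply, k1, k2, add_zero]) (add_zero _).symm, e1,
      e3 (by rw [k1, add_zero]) (add_zero _).symm, e4 (by rw [k2, add_zero]) (add_zero _).symm,
      k1, k2]
  filter_upwards [ae_all_iff.2 key] with x hx
  obtain ⟨k, k1, k2⟩ := ((ca2_Tev (f x)).and (ca2_Tev (g x))).exists
  exact hx k k1 k2

/-- Truncations converge in energy. -/
theorem trunc_tendsto {f : X → ℝ} (hf : f ∈ D.V) :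
    (∀ k : ℕ, (fun x => max (-(k : ℝ)) (min k (f x))) ∈ D.V) ∧
    Tendsto (fun k : ℕ => n2 μ ((fun x => max (-(k : ℝ)) (min k (f x))) - f)) atTop (𝓝 0) ∧
    Tendsto (fun k : ℕ => ∫ x, D.Γ ((fun x => max (-(k : ℝ)) (min k (f x))) - f)
      ((fun x => max (-(k : ℝ)) (min k (f x))) - f) x ∂μ) atTop (𝓝 0) := by
  have hL := fun k : ℕ => (ca2_clamp (-(k : ℝ)) k).sub LipschitzWith.id
  have h0 : ∀ k : ℕ, max (-(k : ℝ)) (min k 0) - id 0 = 0 := fun k => by rw [ca2_T0, id, sub_zero]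
  have hr := fun k : ℕ => D.comp_mem hf (hL k) (h0 k)
  refine ⟨fun k => (D.ca2_T hf k).1, ca2_n2_dom (D.memLp f hf) (fun k => D.aesm (hr k).1)
    (fun k => Eventually.of_forall fun x => ca2_abs (hL k) (h0 k) (f x))
    (Eventually.of_forall fun x => tendsto_const_nhds.congr'
      ((ca2_Tev (f x)).mono fun k hk => (sub_eq_zero.2 hk).symm)), ?_⟩
  have key := tendsto_integral_of_dominated_convergence (f := fun _ => (0 : ℝ)) _
    (fun k => (D.Γ_int _ (hr k).1 _ (hr k).1).1) ((D.Γ_int f hf f hf).const_mul _)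
    (fun k => ((hr k).2.and (D.Γ_nonneg _ (hr k).1)).mono fun x hx =>
      (Real.norm_of_nonneg hx.2).trans_le hx.1)
    ((ae_all_iff.2 fun k => D.Γ_level (hr k).1 0).mono fun x hx => tendsto_const_nhds.congr'
      ((ca2_Tev (f x)).mono fun k hk => (hx k (sub_eq_zero.2 hk)).symm))
  rwa [integral_zero] at key

/-- Density of Lipschitz functions, keeping bounds and the support. -/
theorem dense_bdd {f : X → ℝ} (hf : f ∈ D.V) {a b : ℝ} (ha : a ≤ 0) (hb : 0 ≤ b)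
    (h : ∀ᵐ x ∂μ, a ≤ f x ∧ f x ≤ b) :
    ∃ u : ℕ → X → ℝ, (∀ k, LipB (u k) ∧ ∀ x, a ≤ u k x ∧ u k x ≤ b) ∧
      Tendsto (fun k => n2 μ (u k - f)) atTop (𝓝 0) ∧
      Tendsto (fun k => ∫ x, D.Γ (u k - f) (u k - f) x ∂μ) atTop (𝓝 0) := by
  obtain ⟨u, h1, h2, h3⟩ := D.dense f hf
  have hu := fun k => D.lip _ (h1 k)
  have h0 : max a (min b 0) = 0 := ca2_clamp_eq ha hb
  have hv := fun k => D.comp_mem (hu k) (ca2_clamp a b) h0
  have hn : Tendsto (fun k => n2 μ ((fun x => max a (min b (u k x))) - f)) atTop (𝓝 0) :=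
    (D.ca2_n2c hu hf h2 (ca2_clamp a b)).congr fun k => n2_congr (h.mono fun x hx => by
      simp only [Pi.sub_apply, ca2_clamp_eq hx.1 hx.2])
  refine ⟨fun k x => max a (min b (u k x)), fun k => ⟨(h1 k).comp (ca2_clamp a b) h0,
    fun x => ⟨le_max_left _ _, max_le (ha.trans hb) (min_le_left _ _)⟩⟩, hn, ?_⟩
  have hl := D.ca2_l1c hu hf h3 (((1 : NNReal) : ℝ) ^ 2)
  have hi := fun k => (D.Γ_int _ (hu k) _ (hu k)).const_mul (((1 : NNReal) : ℝ) ^ 2)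
  obtain ⟨C, hC⟩ := D.ca2_bddE (fun k => (hv k).1) (fun k => (hv k).2) hi hl
  have hw := D.Γ_weak (fun k => (hv k).1) (D.memLp f hf) hn hC hf aestronglyMeasurable_const
    (Bdd.const 2)
  have ht := ((ca2_int hi hl.1 hl.2).sub hw).add_const (∫ x, D.Γ f f x ∂μ)
  refine squeeze_zero (fun k => integral_nonneg_of_ae (D.Γ_nonneg _ (D.sub_mem (hv k).1 hf)))
    (fun k => ?_) (ht.trans_eq (congrArg _ ?_))
  · have i1 := (D.Γ_int _ (hv k).1 f hf).const_mul 2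
    have i2 := (hi k).sub i1
    have hs := D.sub_mem (hv k).1 hf
    rw [← integral_sub (hi k) i1]
    refine le_trans ?_ (integral_add i2 (D.Γ_int f hf f hf)).le
    refine integral_mono_ae (D.Γ_int _ hs _ hs) (i2.add (D.Γ_int f hf f hf)) ?_
    filter_upwards [(hv k).2, D.Γ_sub (hv k).1 hf hs, D.Γ_sub_right (hv k).1 (hv k).1 hf,
      D.Γ_sub_right hf (hv k).1 hf, D.Γ_symm f hf _ (hv k).1] with x e1 e2 e3 e4 e5
    simp only [Pi.sub_apply] at e2 e3 e4 ⊢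
    linarith
  · rw [integral_const_mul, integral_const_mul, NNReal.coe_one]
    ring

theorem dense_supp {f : X → ℝ} (hf : f ∈ D.V) {a b : ℝ} (ha : a ≤ 0) (hb : 0 ≤ b)
    (h : ∀ᵐ x ∂μ, a ≤ f x ∧ f x ≤ b) {S : Set X} (hS : Bornology.IsBounded S)
    (h0 : ∀ᵐ x ∂μ, x ∉ S → f x = 0) {r : ℝ} (hr : 0 < r) :
    ∃ u : ℕ → X → ℝ, (∀ k, LipB (u k) ∧ tsupport (u k) ⊆ thickening r S ∧
        ∀ x, a ≤ u k x ∧ u k x ≤ b) ∧ Tendsto (fun k => n2 μ (u k - f)) atTop (𝓝 0) ∧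
      Tendsto (fun k => ∫ x, D.Γ (u k - f) (u k - f) x ∂μ) atTop (𝓝 0) := by
  obtain ⟨u, h1, h2, h3⟩ := D.dense_bdd hf ha hb h
  obtain ⟨χ, c1, c2, c3, c4, -⟩ := exists_cutoff hS le_rfl (half_pos hr)
  obtain ⟨L, hL⟩ := c1.1
  have hχ := D.lip _ c1
  have hw := fun k => D.sub_mem (D.lip _ (h1 k).1) hf
  have bw : ∀ k, Bdd μ (u k - f) := fun k => (h1 k).1.bdd.sub ⟨b - a, h.mono fun x hx =>
    abs_le.2 ⟨by linarith [hx.1], by linarith [hx.2]⟩⟩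
  have e : ∀ k, χ * (u k - f) =ᵐ[μ] χ * u k - f := fun k => h0.mono fun x hx => by
    simp only [Pi.mul_apply, Pi.sub_apply]
    by_cases k1 : x ∈ S
    · rw [c3 x (self_subset_cthickening S k1), one_mul, one_mul]
    · rw [hx k1, sub_zero, sub_zero]
  refine ⟨fun k => χ * u k, fun k => ⟨c1.mul (h1 k).1, ?_, fun x => ?_⟩,
    squeeze_zero (fun _ => n2_nonneg _) (fun k => ?_) (by simpa using h2.const_mul ((1 : ℝ) ^ 2)),
    squeeze_zero' (Eventually.of_forall fun k => integral_nonneg_of_ae (D.Γ_nonneg _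
      (D.sub_mem (D.lip _ (c1.mul (h1 k).1)) hf))) (Eventually.of_forall fun k => ?_)
      (((h3.const_mul 2).add (h2.const_mul (2 * (L : ℝ) ^ 2))).trans_eq (by simp))⟩
  · refine (closure_mono fun x hx => ?_).trans ((closure_thickening_subset_cthickening _ _).trans
      (cthickening_subset_thickening' hr (half_lt_self hr) S))
    by_contra k1
    exact hx (mul_eq_zero_of_left (c4 x k1) _)
  · have := c2 x
    have := (h1 k).2 x
    change a ≤ χ x * u k x ∧ χ x * u k x ≤ b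
    constructor <;> nlinarith
  · rw [← n2_congr (e k)]
    refine ca2_n2_le (D.memLp _ (hw k)) (Eventually.of_forall fun x => ?_)
    rw [Pi.mul_apply, abs_mul, abs_of_nonneg (c2 x).1]
    exact mul_le_mul_of_nonneg_right (c2 x).2 (abs_nonneg _)
  · have hm := D.mul_mem hχ (hw k) c1.bdd (bw k)
    have i1 := (D.Γ_int _ (hw k) _ (hw k)).const_mul 2
    have i2 := (D.memLp _ (hw k)).integrable_sq.const_mul (2 * (L : ℝ) ^ 2)
    rw [← integral_congr_ae (D.Γ_congr₂ hm hm (e k) (e k)), n2, ← integral_const_mul,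
      ← integral_const_mul, ← integral_add i1 i2]
    refine integral_mono_ae (D.Γ_int _ hm _ hm) (i1.add i2) ?_
    filter_upwards [D.ca2_mul_le hχ (hw k) c1.bdd (bw k), D.Γ_nonneg _ (hw k),
      D.Γ_lip _ c1 univ L isOpen_univ hL.lipschitzOnWith] with x e1 e2 e3
    have k1 := mul_le_mul_of_nonneg_left (e3 trivial) (sq_nonneg ((u k - f) x))
    have k2 := mul_le_of_le_one_left e2 (pow_le_one₀ (n := 2) (c2 x).1 (c2 x).2)
    linarith

end DS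

end RC
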