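import Pool.Agent.P.MP_6472e5_gt.Ca2

/-! The local space and its carre du champ. -/

set_option autoImplicit false
set_option linter.unusedSectionVars false

noncomputable section

namespace RC

open MeasureTheory Set Filter Topology Metric

variable {X : Type} [MetricSpace X] [SecondCountableTopology X] [MeasurableSpace X] [BorelSpace X]
  {μ : Measure X}

namespace DS

variable (D : DS μ)

theorem ca3_cut (x : X) (r : ℝ) : ∃ χ : X → ℝ, LipB χ ∧ (∀ y, 0 ≤ χ y ∧ χ y ≤ 1) ∧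
    (∀ y ∈ ball x r, χ y = 1) ∧ LipschitzWith 1 χ := by
  obtain ⟨χ, a, b, c, -, d⟩ := exists_cutoff_ball x (lt_add_one r)
  exact ⟨χ, a, b, fun y hy => c y (ball_subset_closedBall hy),
    .of_dist_le_mul fun y z => by simpa [Real.dist_eq] using d y z⟩

include D in
theorem ca3_ae {P : X → Prop} (h : ∀ χ, LipB χ → ∀ U : Set X, IsOpen U → (∀ x ∈ U, χ x = 1) →
    ∀ᵐ x ∂μ, x ∈ U → P x) : ∀ᵐ x ∂μ, P x :=
  D.ae_of_balls fun x r => by
    obtain ⟨χ, hχ, -, h1, -⟩ := ca3_cut x r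
    exact h χ hχ _ isOpen_ball h1

theorem W_of_mem {f : X → ℝ} (hf : f ∈ D.V) : D.W f :=
  fun _ hχ => D.mul_mem_lipB hχ hf

theorem W_const (c : ℝ) : D.W (fun _ => c) := fun χ hχ =>
  D.congr _ (D.lip _ (hχ.smul c)) _ (ae_of_all _ fun x => mul_comm c (χ x))

theorem W_of_lip {f : X → ℝ} (hf : ∀ x r, ∃ L, LipschitzOnWith L f (ball x r)) : D.W f :=
  fun _ hχ => D.lip _ (hχ.mul_loc hf)

theorem W_of_lipschitz {f : X → ℝ} {L : NNReal} (hf : LipschitzWith L f) : D.W f :=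
  D.W_of_lip fun _ _ => ⟨L, hf.lipschitzOnWith⟩

/-- Membership in the local space can be checked on balls. -/
theorem W_of_balls {f : X → ℝ} (h : ∀ x r, ∃ g, D.W g ∧ ∀ᵐ y ∂μ, y ∈ ball x r → f y = g y) :
    D.W f := fun χ hχ => by
  rcases isEmpty_or_nonempty X with _ | ⟨⟨x⟩⟩
  · exact D.congr _ D.zero_mem _ (ae_of_all _ fun x => isEmptyElim x)
  obtain ⟨R, -, hR⟩ := hχ.exists_ball x
  obtain ⟨g, hg, e⟩ := h x R
  refine D.congr _ (hg χ hχ) _ (e.mono fun y hy => ?_)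
  by_cases hb : y ∈ ball x R
  · simp [hy hb]
  · simp [hR y hb]

variable {D}

theorem W.congr {f g : X → ℝ} (hf : D.W f) (h : f =ᵐ[μ] g) : D.W g := fun χ hχ =>
  D.congr _ (hf χ hχ) _ (h.mono fun x hx => congrArg (χ x * ·) hx)

theorem W.add {f g : X → ℝ} (hf : D.W f) (hg : D.W g) : D.W (f + g) := fun χ hχ =>
  mul_add χ f g ▸ D.add _ (hf χ hχ) _ (hg χ hχ)

theorem W.smul {f : X → ℝ} (c : ℝ) (hf : D.W f) : D.W (c • f) := fun χ hχ =>
  mul_smul_comm c χ f ▸ D.smul c _ (hf χ hχ)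

theorem W.neg {f : X → ℝ} (hf : D.W f) : D.W (-f) := fun χ hχ =>
  mul_neg χ f ▸ D.neg_mem (hf χ hχ)

theorem W.sub {f g : X → ℝ} (hf : D.W f) (hg : D.W g) : D.W (f - g) := fun χ hχ =>
  mul_sub χ f g ▸ D.sub_mem (hf χ hχ) (hg χ hχ)

theorem W.sum {ι : Type} (s : Finset ι) {f : ι → X → ℝ} (hf : ∀ i ∈ s, D.W (f i)) :
    D.W (∑ i ∈ s, f i) := fun χ hχ =>
  Finset.mul_sum s f χ ▸ D.sum_mem s fun i hi => hf i hi χ hχ

theorem ca3_locInt {f : X → ℝ} (hf : D.W f) : LocInt μ f := fun x r => by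
  obtain ⟨χ, hχ, -, h1, -⟩ := ca3_cut x r
  exact (D.locInt_of_memLp (D.memLp _ (hf χ hχ)) x r).congr_fun (fun y hy => by simp [h1 y hy])
    measurableSet_ball

theorem W.aesm {f : X → ℝ} (hf : D.W f) : AEStronglyMeasurable f μ :=
  (ca3_locInt hf).aesm

theorem W.locInt {f : X → ℝ} (hf : D.W f) : LocInt μ f := ca3_locInt hf

theorem W.locInt_sq {f : X → ℝ} (hf : D.W f) : LocInt μ (fun x => f x ^ 2) := fun x r => by
  obtain ⟨χ, hχ, -, h1, -⟩ := ca3_cut x r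
  exact (D.memLp _ (hf χ hχ)).integrable_sq.integrableOn.congr_fun
    (fun y hy => by simp [h1 y hy]) measurableSet_ball

theorem W.exists_mem {f : X → ℝ} (hf : D.W f) (x : X) (r : ℝ) :
    ∃ g ∈ D.V, (∀ y ∈ ball x r, g y = f y) ∧ ∀ y, |g y| ≤ |f y| := by
  obtain ⟨χ, hχ, h0, h1, -⟩ := ca3_cut x r
  refine ⟨_, hf χ hχ, fun y hy => by simp [h1 y hy], fun y => ?_⟩
  rw [Pi.mul_apply, abs_mul, abs_of_nonneg (h0 y).1]
  exact mul_le_of_le_one_left (abs_nonneg _) (h0 y).2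

theorem G_spec {f g : X → ℝ} (hf : D.W f) (hg : D.W g) {χ : X → ℝ} (hχ : LipB χ) {U : Set X}
    (hU : IsOpen U) (h1 : ∀ x ∈ U, χ x = 1) :
    ∀ᵐ x ∂μ, x ∈ U → D.G f g x = D.Γ (χ * f) (χ * g) x := by
  refine Classical.epsilon_spec (p := fun γ : X → ℝ => ∀ χ, LipB χ → ∀ U : Set X, IsOpen U →
    (∀ x ∈ U, χ x = 1) → ∀ᵐ x ∂μ, x ∈ U → γ x = D.Γ (χ * f) (χ * g) x) ?_ χ hχ U hU h1
  rcases isEmpty_or_nonempty X with _ | ⟨⟨x₀⟩⟩
  · exact ⟨0, fun _ _ _ _ _ => ae_of_all _ fun x => isEmptyElim x⟩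
  choose ψ hψ _ hψ1 _ using fun k : ℕ => ca3_cut x₀ (k + 1)
  refine ⟨fun x => D.Γ (ψ ⌊dist x x₀⌋₊ * f) (ψ ⌊dist x x₀⌋₊ * g) x, fun χ hχ U _ h1 => ?_⟩
  filter_upwards [ae_all_iff.2 fun k => D.Γ_loc (hf _ (hψ k)) (hf _ hχ) (hg _ (hψ k)) (hg _ hχ) 0 0]
    with x hx hU
  have e := hψ1 _ x (mem_ball.2 (Nat.lt_floor_add_one (dist x x₀)))
  exact hx _ (by simp [e, h1 x hU]) (by simp [e, h1 x hU])

theorem ca3_loc {f f' g g' : X → ℝ} (hf : D.W f) (hf' : f' ∈ D.V) (hg : D.W g) (hg' : g' ∈ D.V) :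
    ∀ᵐ x ∂μ, f x = f' x → g x = g' x → D.G f g x = D.Γ f' g' x :=
  D.ca3_ae fun χ hχ U hU h1 => by
    filter_upwards [G_spec hf hg hχ hU h1, D.Γ_loc (hf χ hχ) hf' (hg χ hχ) hg' 0 0]
      with x a b hx e e'
    rw [a hx, b (by simp [e, h1 x hx]) (by simp [e', h1 x hx])]

theorem G_eq {f g : X → ℝ} (hf : f ∈ D.V) (hg : g ∈ D.V) : D.G f g =ᵐ[μ] D.Γ f g :=
  (ca3_loc (D.W_of_mem hf) hf (D.W_of_mem hg) hg).mono fun _ h => h rfl rfl

theorem E_eq {f : X → ℝ} (hf : f ∈ D.V) : D.E f = ∫ x, D.Γ f f x ∂μ :=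
  integral_congr_ae (G_eq hf hf)

theorem G_int {f g : X → ℝ} (hf : f ∈ D.V) (hg : g ∈ D.V) : Integrable (D.G f g) μ :=
  (D.Γ_int _ hf _ hg).congr (G_eq hf hg).symm

theorem G_locInt {f g : X → ℝ} (hf : D.W f) (hg : D.W g) : LocInt μ (D.G f g) := fun x r => by
  obtain ⟨χ, hχ, -, h1, -⟩ := ca3_cut x r
  exact (D.Γ_int _ (hf χ hχ) _ (hg χ hχ)).integrableOn.congr_fun_ae
    (EventuallyEq.symm ((ae_restrict_iff' measurableSet_ball).2 (G_spec hf hg hχ isOpen_ball h1)))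

theorem G_aesm {f g : X → ℝ} (hf : D.W f) (hg : D.W g) : AEStronglyMeasurable (D.G f g) μ :=
  (G_locInt hf hg).aesm

/-- Strong locality. -/
theorem G_loc {f f' g g' : X → ℝ} (hf : D.W f) (hf' : D.W f') (hg : D.W g) (hg' : D.W g') :
    ∀ᵐ x ∂μ, f x = f' x → g x = g' x → D.G f g x = D.G f' g' x :=
  D.ca3_ae fun χ hχ U hU h1 => by
    filter_upwards [ca3_loc hf (hf' χ hχ) hg (hg' χ hχ), G_spec hf' hg' hχ hU h1]
      with x a b hx e e'
    rw [b hx, a (by simp [e, h1 x hx]) (by simp [e', h1 x hx])]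

theorem G_congr {f f' g g' : X → ℝ} (hf : D.W f) (hg : D.W g) (h : f =ᵐ[μ] f')
    (h' : g =ᵐ[μ] g') : D.G f g =ᵐ[μ] D.G f' g' := by
  filter_upwards [G_loc hf (hf.congr h) hg (hg.congr h'), h, h'] with x a b c using a b c

theorem G_symm {f g : X → ℝ} (hf : D.W f) (hg : D.W g) : D.G f g =ᵐ[μ] D.G g f :=
  D.ca3_ae fun χ hχ U hU h1 => by
    filter_upwards [G_spec hf hg hχ hU h1, G_spec hg hf hχ hU h1,
      D.Γ_symm _ (hf χ hχ) _ (hg χ hχ)] with x a b c hx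
    rw [a hx, b hx, c]

theorem G_add {f f' g : X → ℝ} (hf : D.W f) (hf' : D.W f') (hg : D.W g) :
    ∀ᵐ x ∂μ, D.G (f + f') g x = D.G f g x + D.G f' g x :=
  D.ca3_ae fun χ hχ U hU h1 => by
    filter_upwards [G_spec (hf.add hf') hg hχ hU h1, G_spec hf hg hχ hU h1, G_spec hf' hg hχ hU h1,
      D.Γ_add _ (hf χ hχ) _ (hf' χ hχ) _ (hg χ hχ)] with x a b c d hx
    rw [a hx, b hx, c hx, mul_add, d, Pi.add_apply]

theorem G_add_right {f g g' : X → ℝ} (hf : D.W f) (hg : D.W g) (hg' : D.W g') :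
    ∀ᵐ x ∂μ, D.G f (g + g') x = D.G f g x + D.G f g' x := by
  filter_upwards [G_add hg hg' hf, G_symm hf (hg.add hg'), G_symm hf hg, G_symm hf hg']
    with x a b c d
  rw [b, c, d, a]

theorem G_sub {f f' g : X → ℝ} (hf : D.W f) (hf' : D.W f') (hg : D.W g) :
    ∀ᵐ x ∂μ, D.G (f - f') g x = D.G f g x - D.G f' g x :=
  D.ca3_ae fun χ hχ U hU h1 => by
    filter_upwards [G_spec (hf.sub hf') hg hχ hU h1, G_spec hf hg hχ hU h1, G_spec hf' hg hχ hU h1,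
      D.Γ_sub (hf χ hχ) (hf' χ hχ) (hg χ hχ)] with x a b c d hx
    rw [a hx, b hx, c hx, mul_sub, d, Pi.sub_apply]

theorem G_sub_right {f g g' : X → ℝ} (hf : D.W f) (hg : D.W g) (hg' : D.W g') :
    ∀ᵐ x ∂μ, D.G f (g - g') x = D.G f g x - D.G f g' x := by
  filter_upwards [G_sub hg hg' hf, G_symm hf (hg.sub hg'), G_symm hf hg, G_symm hf hg']
    with x a b c d
  rw [b, c, d, a]

theorem G_smul (c : ℝ) {f g : X → ℝ} (hf : D.W f) (hg : D.W g) :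
    ∀ᵐ x ∂μ, D.G (c • f) g x = c * D.G f g x :=
  D.ca3_ae fun χ hχ U hU h1 => by
    filter_upwards [G_spec (hf.smul c) hg hχ hU h1, G_spec hf hg hχ hU h1,
      D.Γ_smul c _ (hf χ hχ) _ (hg χ hχ)] with x a b d hx
    rw [a hx, b hx, mul_smul_comm, d, Pi.smul_apply, smul_eq_mul]

theorem G_smul_right (c : ℝ) {f g : X → ℝ} (hf : D.W f) (hg : D.W g) :
    ∀ᵐ x ∂μ, D.G f (c • g) x = c * D.G f g x := by
  filter_upwards [G_smul c hg hf, G_symm hf (hg.smul c), G_symm hf hg] with x a b d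
  rw [b, d, a]

theorem G_neg {f g : X → ℝ} (hf : D.W f) (hg : D.W g) :
    ∀ᵐ x ∂μ, D.G (-f) g x = -D.G f g x := by
  simpa only [neg_smul, one_smul, neg_mul, one_mul] using G_smul (-1) hf hg

theorem G_neg_neg {f g : X → ℝ} (hf : D.W f) (hg : D.W g) :
    ∀ᵐ x ∂μ, D.G (-f) (-g) x = D.G f g x := by
  filter_upwards [G_neg hf hg.neg, G_symm hf hg.neg, G_neg hg hf, G_symm hf hg] with x a b c d
  rw [a, b, c, d, neg_neg]

theorem G_sum {ι : Type} (s : Finset ι) {f : ι → X → ℝ} (c : ι → ℝ) {g : X → ℝ}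
    (hf : ∀ i ∈ s, D.W (f i)) (hg : D.W g) :
    ∀ᵐ x ∂μ, D.G (∑ i ∈ s, c i • f i) g x = ∑ i ∈ s, c i * D.G (f i) g x := by
  classical
  induction s using Finset.induction_on with
  | empty => simpa using G_smul 0 hg hg
  | insert i s hi ih =>
    have h1 := hf i (Finset.mem_insert_self i s)
    have h2 : ∀ j ∈ s, D.W (f j) := fun j hj => hf j (Finset.mem_insert_of_mem hj)
    filter_upwards [ih h2, G_smul (c i) h1 hg, G_add (h1.smul (c i))
      (W.sum s (f := fun j => c j • f j) fun j hj => (h2 j hj).smul (c j)) hg] with x a b d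
    rw [Finset.sum_insert hi, Finset.sum_insert hi, d, a, b]

theorem G_add_add {f g : X → ℝ} (hf : D.W f) (hg : D.W g) :
    ∀ᵐ x ∂μ, D.G (f + g) (f + g) x = D.G f f x + 2 * D.G f g x + D.G g g x := by
  filter_upwards [G_add hf hg (hf.add hg), G_add_right hf hf hg, G_add_right hg hf hg,
    G_symm hf hg] with x a b c d
  rw [a, b, c, ← d]
  ring

theorem G_sub_sub {f g : X → ℝ} (hf : D.W f) (hg : D.W g) :
    ∀ᵐ x ∂μ, D.G (f - g) (f - g) x = D.G f f x - 2 * D.G f g x + D.G g g x := by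
  filter_upwards [G_sub hf hg (hf.sub hg), G_sub_right hf hf hg, G_sub_right hg hf hg,
    G_symm hf hg] with x a b c d
  rw [a, b, c, ← d]
  ring

theorem G_smul_smul (c : ℝ) {f : X → ℝ} (hf : D.W f) :
    ∀ᵐ x ∂μ, D.G (c • f) (c • f) x = c ^ 2 * D.G f f x := by
  filter_upwards [G_smul c hf (hf.smul c), G_smul_right c hf hf] with x a b
  rw [a, b]
  ring

theorem G_nonneg {f : X → ℝ} (hf : D.W f) : ∀ᵐ x ∂μ, 0 ≤ D.G f f x :=
  D.ca3_ae fun χ hχ U hU h1 => by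
    filter_upwards [G_spec hf hf hχ hU h1, D.Γ_nonneg _ (hf χ hχ)] with x a b hx
    rwa [a hx]

theorem G_cs {f g : X → ℝ} (hf : D.W f) (hg : D.W g) :
    ∀ᵐ x ∂μ, D.G f g x ^ 2 ≤ D.G f f x * D.G g g x :=
  D.ca3_ae fun χ hχ U hU h1 => by
    filter_upwards [G_spec hf hg hχ hU h1, G_spec hf hf hχ hU h1, G_spec hg hg hχ hU h1,
      D.Γ_cs (hf χ hχ) (hg χ hχ)] with x a b c d hx
    rwa [a hx, b hx, c hx]

theorem G_abs_le {f g : X → ℝ} (hf : D.W f) (hg : D.W g) :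
    ∀ᵐ x ∂μ, |D.G f g x| ≤ √(D.G f f x) * √(D.G g g x) := by
  filter_upwards [G_cs hf hg, G_nonneg hf] with x a b
  rw [← Real.sqrt_mul b]
  exact Real.abs_le_sqrt a

theorem G_tri {f g : X → ℝ} (hf : D.W f) (hg : D.W g) :
    ∀ᵐ x ∂μ, √(D.G (f + g) (f + g) x) ≤ √(D.G f f x) + √(D.G g g x) :=
  D.ca3_ae fun χ hχ U hU h1 => by
    filter_upwards [G_spec (hf.add hg) (hf.add hg) hχ hU h1, G_spec hf hf hχ hU h1,
      G_spec hg hg hχ hU h1, D.Γ_tri (hf χ hχ) (hg χ hχ)] with x a b c d hx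
    rwa [a hx, b hx, c hx, mul_add]

theorem G_level {f g : X → ℝ} (hf : D.W f) (hg : D.W g) (c : ℝ) :
    ∀ᵐ x ∂μ, f x = c → D.G f g x = 0 :=
  D.ca3_ae fun χ hχ U hU h1 => by
    filter_upwards [G_spec hf hf hχ hU h1, G_cs hf hg, D.Γ_level (hf χ hχ) c] with x a b d hx e
    rw [a hx, d (by simp [e, h1 x hx]), zero_mul] at b
    exact pow_eq_zero_iff two_ne_zero |>.1 (b.antisymm (sq_nonneg _))

theorem G_const (c : ℝ) {g : X → ℝ} (hg : D.W g) : ∀ᵐ x ∂μ, D.G (fun _ => c) g x = 0 :=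
  (G_level (D.W_const c) hg c).mono fun _ h => h rfl

theorem G_le_lip {f : X → ℝ} (hf : D.W f) {g : X → ℝ} {U : Set X} (hU : IsOpen U) {L : ℝ}
    (hg : ∀ x ∈ U, ∀ y ∈ U, |g x - g y| ≤ L * dist x y) (hL : 0 ≤ L)
    (h : ∀ᵐ x ∂μ, x ∈ U → f x = g x) : ∀ᵐ x ∂μ, x ∈ U → D.G f f x ≤ L ^ 2 := by
  lift L to NNReal using hL
  refine D.ae_of_local fun x hx => ?_
  obtain ⟨r, hr, hb⟩ := Metric.isOpen_iff.1 hU x hx
  have h1 : LipschitzOnWith L g (ball x r) :=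
    .of_dist_le_mul fun y hy z hz => hg y (hb hy) z (hb hz)
  obtain ⟨g', h2, -, e, -⟩ := exists_lipB_eqOn (L := L + 1) (by positivity) hr
    (h1.weaken (le_add_right le_rfl))
  refine ⟨r, hr, ?_⟩
  filter_upwards [h, ca3_loc hf (D.lip _ h2) hf (D.lip _ h2), D.Γ_lip _ h2 _ L isOpen_ball
    fun y hy z hz => by rw [e hy, e hz]; exact h1 hy hz] with y a b c hy
  have e' := (a (hb hy)).trans (e hy).symm
  rw [b e' e']
  exact c hy

theorem G_le_lipschitz {f : X → ℝ} {L : NNReal} (hf : LipschitzWith L f) :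
    ∀ᵐ x ∂μ, D.G f f x ≤ (L : ℝ) ^ 2 :=
  (G_le_lip (D.W_of_lipschitz hf) isOpen_univ (fun x _ y _ => hf.dist_le_mul x y) L.2
    (ae_of_all _ fun _ _ => rfl)).mono fun _ h => h trivial

/-- Domination by an upper semicontinuous bound of the local Lipschitz constant. -/
theorem G_le_of_locLip {f : X → ℝ} (hf : D.W f) {γ : X → ℝ} (hγ : Continuous γ)
    (h : ∀ x ε, 0 < ε → ∃ r, 0 < r ∧ ∀ y ∈ ball x r, ∀ z ∈ ball x r,
      (f y - f z) ^ 2 ≤ (γ x + ε) * dist y z ^ 2) (h0 : ∀ x, 0 ≤ γ x) :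
    ∀ᵐ x ∂μ, D.G f f x ≤ γ x := by
  have key : ∀ ε, 0 < ε → ∀ᵐ y ∂μ, y ∈ univ → D.G f f y ≤ γ y + 2 * ε := fun ε hε => by
    refine D.ae_of_local fun x _ => ?_
    obtain ⟨r, hr, h1⟩ := h x ε hε
    obtain ⟨δ, hδ, h2⟩ := Metric.continuousAt_iff.1 (hγ.continuousAt (x := x)) ε hε
    have p : 0 ≤ γ x + ε := add_nonneg (h0 x) hε.le
    refine ⟨min r δ, lt_min hr hδ, ?_⟩
    filter_upwards [G_le_lip hf (g := f) isOpen_ball (L := √(γ x + ε)) (fun y hy z hz => by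
      rw [← Real.sqrt_sq (dist_nonneg (x := y) (y := z)), ← Real.sqrt_mul p]
      exact Real.abs_le_sqrt (h1 y hy z hz)) (Real.sqrt_nonneg _) (ae_of_all _ fun _ _ => rfl)]
      with y a hy
    have b := abs_lt.1 (h2 (ball_subset_ball (min_le_right _ _) hy))
    have c := a (ball_subset_ball (min_le_left _ _) hy)
    rw [Real.sq_sqrt p] at c
    linarith [b.1]
  filter_upwards [ae_all_iff.2 fun k : ℕ => key (1 / (k + 1)) Nat.one_div_pos_of_nat] with y a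
  refine le_of_forall_pos_le_add fun ε hε => ?_
  obtain ⟨k, hk⟩ := exists_nat_one_div_lt (half_pos hε)
  linarith [a k trivial]

theorem _root_.RC.LipB.bddG {f : X → ℝ} (hf : LipB f) : Bdd μ (D.G f f) := by
  obtain ⟨L, hL⟩ := hf.1
  refine ⟨L ^ 2, ?_⟩
  filter_upwards [G_le_lipschitz (D := D) hL, G_nonneg (D.W_of_lipschitz hL)] with x a b
  rwa [abs_of_nonneg b]

theorem G_mul_int {f g φ : X → ℝ} (hf : D.W f) (hg : D.W g) (hφ : LipB φ) :
    Integrable (fun x => φ x * D.G f g x) μ := by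
  simpa only [mul_comm] using (G_locInt hf hg).mul_lipB hφ

theorem G_lipB_int {f φ : X → ℝ} (hf : D.W f) (hφ : LipB φ) : Integrable (D.G f φ) μ := by
  rcases isEmpty_or_nonempty X with _ | ⟨⟨x⟩⟩
  · exact (integrable_zero _ _ _).congr (ae_of_all _ fun x => isEmptyElim x)
  obtain ⟨R, -, hR⟩ := hφ.exists_ball x
  have h := D.W_of_mem (D.lip _ hφ)
  refine (G_locInt hf h x R).integrable_of_ae_notMem_eq_zero ?_
  filter_upwards [G_level h hf 0, G_symm hf h] with y a b hy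
  rw [b, a (hR y hy)]

theorem ca3_mul_le {f χ : X → ℝ} (hf : D.W f) (hχ : LipB χ) (h0 : ∀ y, 0 ≤ χ y ∧ χ y ≤ 1)
    (hL : LipschitzWith 1 χ) :
    ∀ᵐ x ∂μ, D.Γ (χ * f) (χ * f) x ≤ 2 * D.G f f x + 2 * f x ^ 2 :=
  D.ca3_ae fun ψ hψ U hU h1 => by
    have a := hf ψ hψ
    have b := D.lip _ hχ
    have c := D.mul_mem_lipB hχ a
    filter_upwards [G_spec hf hf hψ hU h1, D.Γ_loc (hf χ hχ) c (hf χ hχ) c 0 0, D.Γ_mul b a c c,
      D.Γ_mul b a c a, D.Γ_mul b a c b, D.Γ_symm _ a _ c, D.Γ_symm _ b _ c, D.Γ_symm _ a _ b,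
      D.Γ_cs b a, D.Γ_nonneg _ a, D.Γ_lip _ hχ _ 1 isOpen_univ hL.lipschitzOnWith]
      with x e1 e2 e3 e4 e5 e6 e7 e8 e9 p1 p2 hx
    have e0 : (ψ * f) x = f x := by simp [h1 x hx]
    have p3 := p2 trivial
    have p4 : χ x ^ 2 ≤ 1 := by nlinarith [h0 x]
    rw [e1 hx, e2 (by simp [h1 x hx]) (by simp [h1 x hx]), e3, e6, e7, e4, e5, e8, e0]
    rw [NNReal.coe_one, one_pow] at p3
    nlinarith [sq_nonneg (f x - χ x * D.Γ χ (ψ * f) x), mul_le_mul_of_nonneg_right p3 p1,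
      mul_le_mul_of_nonneg_right p4 p1, mul_le_mul_of_nonneg_left p3 (sq_nonneg (f x)),
      mul_le_mul_of_nonneg_right p4 (sq_nonneg (D.Γ χ (ψ * f) x))]

/-- A local function with finite norm lies in the domain. -/
theorem W.mem {f : X → ℝ} (hf : D.W f) (h2 : MemLp f 2 μ) (hG : Integrable (D.G f f) μ) :
    f ∈ D.V := by
  rcases isEmpty_or_nonempty X with _ | ⟨⟨x₀⟩⟩
  · exact D.congr _ D.zero_mem _ (ae_of_all _ fun x => isEmptyElim x)
  choose χ hχ h0 h1 hL using fun k : ℕ => ca3_cut x₀ k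
  have hu : ∀ k, χ k * f ∈ D.V := fun k => hf _ (hχ k)
  have i2 := h2.integrable_sq
  refine (D.Γ_mazur (C := ∫ x, (2 * D.G f f x + 2 * f x ^ 2) ∂μ) hu h2 ?_ fun k =>
    integral_mono_ae (D.Γ_int _ (hu k) _ (hu k)) ((hG.const_mul 2).add (i2.const_mul 2))
      (ca3_mul_le hf (hχ k) (h0 k) (hL k))).1
  have := tendsto_integral_of_dominated_convergence (μ := μ) (f := fun _ => (0 : ℝ))
    (F := fun k x => (χ k * f - f) x ^ 2) (fun x => f x ^ 2)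
    (fun k => ((D.aesm (hu k)).sub h2.1).pow 2) i2 (fun k => ae_of_all _ fun x => ?_)
    (ae_of_all _ fun x => tendsto_const_nhds.congr' ?_)
  · rwa [integral_zero] at this
  · rw [Real.norm_of_nonneg (sq_nonneg _), Pi.sub_apply, Pi.mul_apply, ← sub_one_mul, mul_pow]
    exact mul_le_of_le_one_left (sq_nonneg _) (by nlinarith [h0 k x])
  · filter_upwards [tendsto_natCast_atTop_atTop.eventually_gt_atTop (dist x x₀)] with k hk
    simp [h1 k x hk]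

theorem W.mem_of_supp {f : X → ℝ} (hf : D.W f) {x : X} {R : ℝ}
    (h0 : ∀ᵐ y ∂μ, y ∉ ball x R → f y = 0) : f ∈ D.V := by
  obtain ⟨χ, hχ, -, h1, -⟩ := ca3_cut x R
  refine D.congr _ (hf χ hχ) _ (h0.mono fun y hy => ?_)
  by_cases hb : y ∈ ball x R
  · simp [h1 y hb]
  · simp [hy hb]

theorem E_nonneg {f : X → ℝ} (hf : D.W f) : 0 ≤ D.E f :=
  integral_nonneg_of_ae (G_nonneg hf)

theorem E_congr {f g : X → ℝ} (hf : D.W f) (h : f =ᵐ[μ] g) : D.E f = D.E g :=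
  integral_congr_ae (G_congr hf hf h h)

theorem E_smul (c : ℝ) {f : X → ℝ} (hf : D.W f) : D.E (c • f) = c ^ 2 * D.E f :=
  (integral_congr_ae (G_smul_smul c hf)).trans (integral_const_mul _ _)

theorem E_sub_comm {f g : X → ℝ} (hf : D.W f) (hg : D.W g) : D.E (f - g) = D.E (g - f) := by
  rw [← neg_sub g f]
  exact integral_congr_ae (G_neg_neg (hg.sub hf) (hg.sub hf))

theorem E_add_le {f g : X → ℝ} (hf : f ∈ D.V) (hg : g ∈ D.V) :
    D.E (f + g) ≤ 2 * D.E f + 2 * D.E g := by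
  have a := D.W_of_mem hf
  have b := D.W_of_mem hg
  have i1 := (G_int hf hf).const_mul 2
  have i2 := (G_int hg hg).const_mul 2
  rw [E, E, E, ← integral_const_mul, ← integral_const_mul, ← integral_add i1 i2]
  refine integral_mono_ae (G_int (D.add _ hf _ hg) (D.add _ hf _ hg)) (i1.add i2) ?_
  filter_upwards [G_add_add a b, G_sub_sub a b, G_nonneg (a.sub b)] with x c d e
  linarith

theorem ca3_int_le {f g : X → ℝ} (hf : f ∈ D.V) (hg : g ∈ D.V) :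
    ∫ x, |D.G f g x| ∂μ ≤ √(D.E f) * √(D.E g) := by
  rw [E_eq hf, E_eq hg]
  exact (integral_congr_ae ((G_eq hf hg).fun_comp abs)).trans_le (D.Γ_int_le hf hg)

theorem sqrt_E_add_le {f g : X → ℝ} (hf : f ∈ D.V) (hg : g ∈ D.V) :
    √(D.E (f + g)) ≤ √(D.E f) + √(D.E g) := by
  have a := D.W_of_mem hf
  have b := D.W_of_mem hg
  have i1 := G_int hf hf
  have i2 := (G_int hf hg).const_mul 2
  have e : D.E (f + g) = D.E f + 2 * ∫ x, D.G f g x ∂μ + D.E g := by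
    rw [E, E, E, integral_congr_ae (G_add_add a b), integral_add (i1.fun_add i2) (G_int hg hg),
      integral_add i1 i2, integral_const_mul]
  have k := (le_abs_self _).trans (abs_integral_le_integral_abs.trans (ca3_int_le hf hg))
  refine Real.sqrt_le_iff.2 ⟨by positivity, ?_⟩
  rw [e, add_sq, Real.sq_sqrt (E_nonneg a), Real.sq_sqrt (E_nonneg b)]
  linarith

theorem G_int_le {f g : X → ℝ} (hf : f ∈ D.V) (hg : g ∈ D.V) :
    ∫ x, |D.G f g x| ∂μ ≤ √(D.E f) * √(D.E g) := ca3_int_le hf hg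

theorem sqrt_G_memLp {f : X → ℝ} (hf : f ∈ D.V) : MemLp (fun x => √(D.G f f x)) 2 μ := by
  have a := D.W_of_mem hf
  refine (memLp_two_iff_integrable_sq
    (Real.continuous_sqrt.comp_aestronglyMeasurable (G_aesm a a))).2 ((G_int hf hf).congr ?_)
  filter_upwards [G_nonneg a] with x b using (Real.sq_sqrt b).symm

theorem G_memLp {f g : X → ℝ} (hf : f ∈ D.V) (hg : D.W g) (bG : Bdd μ (D.G g g)) :
    MemLp (D.G f g) 2 μ := by
  obtain ⟨C, hC⟩ := bG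
  have a := D.W_of_mem hf
  refine (sqrt_G_memLp hf).of_le_mul (c := √C) (G_aesm a hg) ?_
  filter_upwards [G_abs_le a hg, hC] with x b c
  rw [Real.norm_of_nonneg (Real.sqrt_nonneg _), mul_comm]
  exact b.trans (mul_le_mul_of_nonneg_left (Real.sqrt_le_sqrt ((le_abs_self _).trans c))
    (Real.sqrt_nonneg _))

theorem G_bdd {f g : X → ℝ} (hf : D.W f) (hg : D.W g) (bf : Bdd μ (D.G f f))
    (bg : Bdd μ (D.G g g)) : Bdd μ (D.G f g) := by
  obtain ⟨C, hC⟩ := bf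
  obtain ⟨C', hC'⟩ := bg
  refine ⟨√C * √C', ?_⟩
  filter_upwards [G_abs_le hf hg, hC, hC'] with x a b c
  exact a.trans (mul_le_mul (Real.sqrt_le_sqrt ((le_abs_self _).trans b))
    (Real.sqrt_le_sqrt ((le_abs_self _).trans c)) (Real.sqrt_nonneg _) (Real.sqrt_nonneg _))

end DS

end RC
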