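import Pool.Agent.P.MP_6472e5_gt.Ca3

/-! Chain and Leibniz rules for local functions. -/

set_option autoImplicit false
set_option linter.unusedSectionVars false

noncomputable section

namespace RC

open MeasureTheory Set Filter Topology Metric

variable {X : Type} [MetricSpace X] [SecondCountableTopology X] [MeasurableSpace X] [BorelSpace X]
  {μ : Measure X}

namespace DS

variable {D : DS μ}

theorem ca4_loc {f f' g g' : X → ℝ} (hf : D.W f) (hf' : D.W f') (hg : D.W g) (hg' : D.W g')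
    (c c' : ℝ) : ∀ᵐ x ∂μ, f x = f' x + c → g x = g' x + c' → D.G f g x = D.G f' g' x := by
  filter_upwards [G_level (hf.sub hf') hg c, G_sub hf hf' hg, G_level (hg.sub hg') hf' c',
    G_sub hg hg' hf', G_symm hf' hg, G_symm hf' hg'] with x h1 h2 h3 h4 h5 h6 e e'
  have a1 := h1 (sub_eq_iff_eq_add'.2 e)
  have a2 := h3 (sub_eq_iff_eq_add'.2 e')
  linarith

theorem ca4_Γ {f f' g g' : X → ℝ} (hf : D.W f) (hf' : f' ∈ D.V) (hg : D.W g) (hg' : g' ∈ D.V)
    (c c' : ℝ) : ∀ᵐ x ∂μ, f x = f' x + c → g x = g' x + c' → D.G f g x = D.Γ f' g' x := by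
  filter_upwards [ca4_loc hf (D.W_of_mem hf') hg (D.W_of_mem hg') c c', G_eq hf' hg']
    with x h1 h2 e e'
  rw [h1 e e', h2]

theorem ca4_Γ₀ {f f' g g' : X → ℝ} (hf : D.W f) (hf' : f' ∈ D.V) (hg : D.W g) (hg' : g' ∈ D.V) :
    ∀ᵐ x ∂μ, f' x = f x → g' x = g x → D.G f g x = D.Γ f' g' x :=
  (ca4_Γ hf hf' hg hg' 0 0).mono fun _ h e e' => h (by rw [e, add_zero]) (by rw [e', add_zero])

theorem ca4_lip {α : Type} [PseudoMetricSpace α] {Φ : α → ℝ} {L : NNReal}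
    (hΦ : LipschitzWith L Φ) (c : ℝ) : LipschitzWith L fun t => Φ t - c :=
  LipschitzWith.of_dist_le_mul fun s t => by
    rw [dist_sub_right]
    exact hΦ.dist_le_mul s t

theorem ca4_W {f : X → ℝ} (h : ∀ x r, ∃ g ∈ D.V, ∃ c, ∀ y ∈ ball x r, f y = g y + c) : D.W f :=
  D.W_of_balls fun x r => by
    obtain ⟨g, hg, c, e⟩ := h x r
    exact ⟨_, (D.W_of_mem hg).add (D.W_const c), .of_forall e⟩

theorem W.comp_lip {f : X → ℝ} (hf : D.W f) {Φ : ℝ → ℝ} {L : NNReal} (hΦ : LipschitzWith L Φ) :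
    D.W (fun x => Φ (f x)) ∧
      ∀ᵐ x ∂μ, D.G (fun x => Φ (f x)) (fun x => Φ (f x)) x ≤ (L : ℝ) ^ 2 * D.G f f x := by
  have h1 : D.W fun x => Φ (f x) := ca4_W fun x r => by
    obtain ⟨g, hg, e, -⟩ := hf.exists_mem x r
    exact ⟨_, (D.comp_mem hg (ca4_lip hΦ (Φ 0)) (sub_self _)).1, Φ 0, fun y hy => by
      rw [e y hy, sub_add_cancel]⟩
  refine ⟨h1, D.ae_of_balls fun x r => ?_⟩
  obtain ⟨g, hg, e, -⟩ := hf.exists_mem x r
  obtain ⟨h2, h3⟩ := D.comp_mem hg (ca4_lip hΦ (Φ 0)) (sub_self _)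
  filter_upwards [h3, ca4_Γ h1 h2 h1 h2 (Φ 0) (Φ 0), ca4_Γ₀ hf hg hf hg] with y a1 a2 a3 hy
  have a4 : Φ (f y) = Φ (g y) - Φ 0 + Φ 0 := by rw [e y hy, sub_add_cancel]
  rwa [a2 a4 a4, a3 (e y hy) (e y hy)]

theorem W.chain_lip {f g : X → ℝ} (hf : D.W f) (hg : D.W g) {Φ Φ' : ℝ → ℝ} {L : NNReal}
    (hΦ : LipschitzWith L Φ) (hd : ∀ t, HasDerivAt Φ (Φ' t) t) (hc : Continuous Φ') :
    ∀ᵐ x ∂μ, D.G (fun x => Φ (f x)) g x = Φ' (f x) * D.G f g x := by
  refine D.ae_of_balls fun x r => ?_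
  obtain ⟨f', hf', e, -⟩ := hf.exists_mem x r
  obtain ⟨g', hg', e', -⟩ := hg.exists_mem x r
  filter_upwards [D.Γ_chain hf' hg' (ca4_lip hΦ (Φ 0)) (sub_self _)
    (fun t => (hd t).sub_const _) hc, ca4_Γ (hf.comp_lip hΦ).1
    (D.comp_mem hf' (ca4_lip hΦ (Φ 0)) (sub_self _)).1 hg hg' (Φ 0) 0, ca4_Γ₀ hf hf' hg hg']
    with y a1 a2 a3 hy
  rw [a2 (by rw [e y hy, sub_add_cancel]) (by rw [e' y hy, add_zero]), a1,
    a3 (e y hy) (e' y hy), e y hy]

/-- On every ball the function takes values in a compact subset of `O`. -/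
def _root_.RC.LocIn (μ : Measure X) (f : X → ℝ) (O : Set ℝ) : Prop :=
  ∀ x r, ∃ K, IsCompact K ∧ K ⊆ O ∧ ∀ᵐ y ∂μ, y ∈ ball x r → f y ∈ K

theorem _root_.RC.LocBdd.locIn {f : X → ℝ} (hf : LocBdd μ f) : LocIn μ f univ := by
  intro x r
  obtain ⟨C, h⟩ := hf x r
  exact ⟨Icc (-C) C, isCompact_Icc, subset_univ _, h.mono fun y h hy => abs_le.1 (h hy)⟩

theorem _root_.RC.LocIn.locBdd {f : X → ℝ} {O : Set ℝ} (hf : LocIn μ f O) {Φ : ℝ → ℝ}
    (hΦ : ContinuousOn Φ O) : LocBdd μ (fun x => Φ (f x)) := by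
  intro x r
  obtain ⟨K, h1, h2, h3⟩ := hf x r
  obtain ⟨C, h⟩ := h1.exists_bound_of_continuousOn (hΦ.mono h2)
  exact ⟨C, h3.mono fun y h' hy => h _ (h' hy)⟩

theorem _root_.RC.locIn_of_continuous [ProperSpace X] {f : X → ℝ} {O : Set ℝ} (hf : Continuous f)
    (h : ∀ x, f x ∈ O) : LocIn μ f O := fun x r =>
  ⟨f '' closedBall x r, (isCompact_closedBall x r).image hf, fun _ ⟨y, _, e⟩ => e ▸ h y,
    .of_forall fun _ hy => mem_image_of_mem f (ball_subset_closedBall hy)⟩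

theorem ca4_ext {O K : Set ℝ} (hO : IsOpen O) (hK : IsCompact K) (h : K ⊆ O) {Φ Φ' : ℝ → ℝ}
    (hd : ∀ t ∈ O, HasDerivAt Φ (Φ' t) t) (hc : ContinuousOn Φ' O) :
    ∃ (Ψ : ℝ → ℝ) (L : NNReal), LipschitzWith L Ψ ∧ ContDiff ℝ 1 Ψ ∧
      ∀ t ∈ K, Ψ t = Φ t ∧ deriv Ψ t = Φ' t := by
  obtain ⟨K', h1, h2, h3⟩ := exists_compact_between hK hO h
  obtain ⟨η, h4, h5, -⟩ := exists_contMDiffMap_one_nhds_of_subset_interior (n := 1)
    (modelWithCornersSelf ℝ ℝ) hK.isClosed h2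
  have h6 : ContDiffOn ℝ 1 Φ O :=
    (contDiffOn_succ_iff_deriv_of_isOpen (n := 0) hO).2
      ⟨fun t ht => (hd t ht).differentiableAt.differentiableWithinAt, by simp,
        contDiffOn_zero.2 (hc.congr fun t ht => (hd t ht).deriv)⟩
  have h7 : ContDiff ℝ 1 fun t => η t * Φ t := contDiff_iff_contDiffAt.2 fun t => by
    by_cases ht : t ∈ K'
    · exact η.contMDiff.contDiff.contDiffAt.mul (h6.contDiffAt (hO.mem_nhds (h3 ht)))
    · refine contDiffAt_const.congr_of_eventuallyEq (f := fun _ => 0) ?_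
      filter_upwards [h1.isClosed.isOpen_compl.mem_nhds ht] with s hs
      rw [h5 s hs, zero_mul]
  obtain ⟨L, hL⟩ := h7.lipschitzWith_of_hasCompactSupport
    (HasCompactSupport.intro h1 fun t ht => by rw [h5 t ht, zero_mul]) one_ne_zero
  refine ⟨_, L, hL, h7, fun t ht => ?_⟩
  have h8 : (fun t => η t * Φ t) =ᶠ[𝓝 t] Φ :=
    (h4.filter_mono (nhds_le_nhdsSet ht)).mono fun s hs => by
      change η s * Φ s = Φ s
      rw [hs, one_mul]
  exact ⟨h8.eq_of_nhds, h8.deriv_eq.trans (hd t (h ht)).deriv⟩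

theorem W.comp {f : X → ℝ} (hf : D.W f) {O : Set ℝ} (hO : IsOpen O) (hin : LocIn μ f O)
    {Φ Φ' : ℝ → ℝ} (hd : ∀ t ∈ O, HasDerivAt Φ (Φ' t) t) (hc : ContinuousOn Φ' O) :
    D.W (fun x => Φ (f x)) := by
  refine D.W_of_balls fun x r => ?_
  obtain ⟨K, h1, h2, h3⟩ := hin x r
  obtain ⟨Ψ, L, hL, -, h⟩ := ca4_ext hO h1 h2 hd hc
  exact ⟨_, (hf.comp_lip hL).1, h3.mono fun y a hy => (h _ (a hy)).1.symm⟩

theorem W.chain {f g : X → ℝ} (hf : D.W f) (hg : D.W g) {O : Set ℝ} (hO : IsOpen O)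
    (hin : LocIn μ f O) {Φ Φ' : ℝ → ℝ} (hd : ∀ t ∈ O, HasDerivAt Φ (Φ' t) t)
    (hc : ContinuousOn Φ' O) :
    ∀ᵐ x ∂μ, D.G (fun x => Φ (f x)) g x = Φ' (f x) * D.G f g x := by
  refine D.ae_of_balls fun x r => ?_
  obtain ⟨K, h1, h2, h3⟩ := hin x r
  obtain ⟨Ψ, L, hL, hΨ, h⟩ := ca4_ext hO h1 h2 hd hc
  filter_upwards [h3, hf.chain_lip hg hL
    (fun t => (hΨ.differentiable one_ne_zero t).hasDerivAt) (hΨ.continuous_deriv le_rfl),
    G_loc (hf.comp hO hin hd hc) (hf.comp_lip hL).1 hg hg] with y a1 a2 a3 hy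
  rw [a3 (h _ (a1 hy)).1.symm rfl, a2, (h _ (a1 hy)).2]

theorem W.mul {f g : X → ℝ} (hf : D.W f) (hg : D.W g) (bf : LocBdd μ f) (bg : LocBdd μ g) :
    D.W (f * g) := by
  have key : ∀ {u : X → ℝ}, D.W u → LocBdd μ u → D.W fun x => u x ^ 2 := fun hu bu =>
    hu.comp isOpen_univ bu.locIn (Φ := fun t => t ^ 2) (fun t _ => hasDerivAt_pow 2 t)
      (by fun_prop)
  refine ((((key (hf.add hg) (bf.add bg)).sub (key hf bf)).sub (key hg bg)).smul (1 / 2)).congr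
    (.of_forall fun x => ?_)
  simp only [Pi.smul_apply, Pi.sub_apply, Pi.add_apply, Pi.mul_apply, smul_eq_mul]
  ring

theorem ca4_mul {f g h : X → ℝ} (hf : D.W f) (hg : D.W g) (hfg : D.W (f * g)) (hh : D.W h) :
    ∀ᵐ x ∂μ, D.G (f * g) h x = f x * D.G g h x + g x * D.G f h x := by
  refine D.ae_of_balls fun x r => ?_
  obtain ⟨χ, hχ, -, h1, -⟩ := exists_cutoff_ball x (lt_add_one r)
  have h2 : χ * f * (χ * g) ∈ D.V := by
    rw [mul_mul_mul_comm]
    exact hfg _ (hχ.mul hχ)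
  filter_upwards [D.Γ_mul (hf χ hχ) (hg χ hχ) h2 (hh χ hχ), ca4_Γ₀ hfg h2 hh (hh χ hχ),
    ca4_Γ₀ hg (hg χ hχ) hh (hh χ hχ), ca4_Γ₀ hf (hf χ hχ) hh (hh χ hχ)] with y a1 a2 a3 a4 hy
  have e : ∀ u : X → ℝ, (χ * u) y = u y := fun u => by
    rw [Pi.mul_apply, h1 y (ball_subset_closedBall hy), one_mul]
  rw [a2 (by rw [Pi.mul_apply, e, e, Pi.mul_apply]) (e h), a1, a3 (e g) (e h), a4 (e f) (e h), e, e]

theorem ca4_mul_le {f g : X → ℝ} (hf : D.W f) (hg : D.W g) (hfg : D.W (f * g)) :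
    ∀ᵐ x ∂μ, √(D.G (f * g) (f * g) x) ≤ |f x| * √(D.G g g x) + |g x| * √(D.G f f x) := by
  filter_upwards [ca4_mul hf hg hfg hfg, G_abs_le hg hfg, G_abs_le hf hfg, G_nonneg hfg]
    with x a1 a2 a3 a4
  refine (Real.sqrt_nonneg _).eq_or_lt.elim (fun h => h ▸ by positivity) fun h => ?_
  refine le_of_mul_le_mul_right ?_ h
  rw [Real.mul_self_sqrt a4, add_mul, mul_assoc, mul_assoc]
  refine a1.trans_le (add_le_add ((le_abs_self _).trans ?_) ((le_abs_self _).trans ?_))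
  · rw [abs_mul]
    exact mul_le_mul_of_nonneg_left a2 (abs_nonneg _)
  · rw [abs_mul]
    exact mul_le_mul_of_nonneg_left a3 (abs_nonneg _)

theorem ca4_sq {f g : X → ℝ} (hf : D.W f) (hg : D.W g) (hfg : D.W (f * g)) :
    ∀ᵐ x ∂μ, |D.G (f * g) (f * g) x| ≤ 2 * (f x ^ 2 * D.G g g x) + 2 * (g x ^ 2 * D.G f f x) := by
  filter_upwards [ca4_mul_le hf hg hfg, G_nonneg hfg, G_nonneg hf, G_nonneg hg] with x a1 a2 a3 a4
  have b1 := pow_le_pow_left₀ (Real.sqrt_nonneg _) a1 2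
  have b2 := sq_nonneg (|f x| * √(D.G g g x) - |g x| * √(D.G f f x))
  rw [add_sq, Real.sq_sqrt a2] at b1
  rw [sub_sq] at b2
  rw [mul_pow, mul_pow, Real.sq_sqrt a3, Real.sq_sqrt a4, sq_abs, sq_abs] at b1 b2
  rw [abs_of_nonneg a2]
  linarith

theorem W.mul' {f g : X → ℝ} (hf : D.W f) (hg : D.W g) (bg : LocBdd μ g)
    (bG : LocBdd μ (D.G g g)) : D.W (f * g) := by
  refine D.W_of_balls fun x r => ?_
  obtain ⟨χ, hχ, h0, h1, h2, -⟩ := exists_cutoff_ball x (lt_add_one r)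
  obtain ⟨C, hC⟩ := bg x (r + 1)
  obtain ⟨C', hC'⟩ := bG x (r + 1)
  obtain ⟨C'', hC''⟩ := hχ.bddG (D := D)
  have hW := D.W_of_mem (hg χ hχ)
  have b0 : ∀ y, |χ y| ≤ 1 := fun y => by
    rw [abs_of_nonneg (h0 y).1]
    exact (h0 y).2
  refine ⟨_, D.W_of_mem (D.mul_mem' (hf χ hχ) (hg χ hχ) ⟨|C|, hC.mono fun y a => ?_⟩
    ⟨2 * (1 ^ 2 * |C'|) + 2 * (C ^ 2 * |C''|), ?_⟩), .of_forall fun y hy => ?_⟩
  · by_cases hy : y ∈ ball x (r + 1)
    · rw [Pi.mul_apply, abs_mul]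
      exact (mul_le_of_le_one_left (abs_nonneg _) (b0 y)).trans ((a hy).trans (le_abs_self C))
    · rw [Pi.mul_apply, h2 y hy, zero_mul, abs_zero]
      exact abs_nonneg C
  · filter_upwards [hC, hC', hC'', G_eq (hg χ hχ) (hg χ hχ), G_level hW hW 0,
      ca4_sq (D.W_of_mem (D.lip χ hχ)) hg hW] with y a1 a2 a3 a4 a5 a6
    rw [← a4]
    by_cases hy : y ∈ ball x (r + 1)
    · refine a6.trans ?_
      have b1 := sq_le_sq' (abs_le.1 (b0 y)).1 (abs_le.1 (b0 y)).2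
      have b2 := sq_le_sq' (abs_le.1 (a1 hy)).1 (abs_le.1 (a1 hy)).2
      have b3 := (le_abs_self _).trans ((a2 hy).trans (le_abs_self C'))
      have b4 := (le_abs_self _).trans (a3.trans (le_abs_self C''))
      have b5 := (mul_le_mul_of_nonneg_left b3 (sq_nonneg (χ y))).trans
        (mul_le_mul_of_nonneg_right b1 (abs_nonneg _))
      have b6 := (mul_le_mul_of_nonneg_left b4 (sq_nonneg (g y))).trans
        (mul_le_mul_of_nonneg_right b2 (abs_nonneg _))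
      linarith
    · rw [a5 (by rw [Pi.mul_apply, h2 y hy, zero_mul]), abs_zero]
      positivity
  · simp only [Pi.mul_apply, h1 y (ball_subset_closedBall hy), one_mul]

theorem G_mul {f g h : X → ℝ} (hf : D.W f) (hg : D.W g) (hfg : D.W (f * g)) (hh : D.W h) :
    ∀ᵐ x ∂μ, D.G (f * g) h x = f x * D.G g h x + g x * D.G f h x := ca4_mul hf hg hfg hh

theorem G_mul_right {f g h : X → ℝ} (hf : D.W f) (hg : D.W g) (hfg : D.W (f * g)) (hh : D.W h) :
    ∀ᵐ x ∂μ, D.G h (f * g) x = f x * D.G h g x + g x * D.G h f x := by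
  filter_upwards [G_mul hf hg hfg hh, G_symm hh hfg, G_symm hh hg, G_symm hh hf] with x a1 a2 a3 a4
  rw [a2, a3, a4, a1]

theorem G_mul_le {f g : X → ℝ} (hf : D.W f) (hg : D.W g) (hfg : D.W (f * g)) :
    ∀ᵐ x ∂μ, √(D.G (f * g) (f * g) x) ≤ |f x| * √(D.G g g x) + |g x| * √(D.G f f x) :=
  ca4_mul_le hf hg hfg

theorem mul_mem_W {f g : X → ℝ} (hf : f ∈ D.V) (hg : D.W g) (bg : Bdd μ g)
    (bG : Bdd μ (D.G g g)) : f * g ∈ D.V := by
  have hW := (D.W_of_mem hf).mul' hg bg.locBdd bG.locBdd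
  obtain ⟨C, hC⟩ := bG
  have h1 : MemLp (f * g) 2 μ := by
    rw [mul_comm]
    exact bg.mul_memLp hg.aesm (D.memLp f hf)
  obtain ⟨C', hC'⟩ := bg
  refine hW.mem h1 (((((D.memLp f hf).integrable_sq.mul_const C).const_mul 2).add
    (((G_int hf hf).const_mul (C' ^ 2)).const_mul 2)).mono' (G_aesm hW hW) ?_)
  filter_upwards [ca4_sq (D.W_of_mem hf) hg hW, hC, hC', G_nonneg (D.W_of_mem hf)]
    with x a1 a2 a3 a4
  have b1 := mul_le_mul_of_nonneg_left ((le_abs_self _).trans a2) (sq_nonneg (f x))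
  have b2 := mul_le_mul_of_nonneg_right (sq_le_sq' (abs_le.1 a3).1 (abs_le.1 a3).2) a4
  exact a1.trans (add_le_add (by linarith) (by linarith))

theorem W.max {f g : X → ℝ} (hf : D.W f) (hg : D.W g) : D.W (fun x => max (f x) (g x)) := by
  refine (hg.add ((hf.sub hg).comp_lip (LipschitzWith.id.max_const 0)).1).congr
    (.of_forall fun x => ?_)
  simp only [Pi.add_apply, Pi.sub_apply, id, add_max, add_sub_cancel, add_zero]

theorem W.min {f g : X → ℝ} (hf : D.W f) (hg : D.W g) : D.W (fun x => min (f x) (g x)) := by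
  refine (hg.add ((hf.sub hg).comp_lip (LipschitzWith.id.min_const 0)).1).congr
    (.of_forall fun x => ?_)
  simp only [Pi.add_apply, Pi.sub_apply, id, add_min, add_sub_cancel, add_zero]

theorem G_max_le {f g : X → ℝ} (hf : D.W f) (hg : D.W g) : ∀ᵐ x ∂μ,
    D.G (fun x => max (f x) (g x)) (fun x => max (f x) (g x)) x ≤ max (D.G f f x) (D.G g g x) := by
  filter_upwards [G_loc (hf.max hg) hf (hf.max hg) hf, G_loc (hf.max hg) hg (hf.max hg) hg]
    with x a1 a2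
  rcases max_choice (f x) (g x) with h | h
  · exact (a1 h h).trans_le (le_max_left _ _)
  · exact (a2 h h).trans_le (le_max_right _ _)

theorem G_min_le {f g : X → ℝ} (hf : D.W f) (hg : D.W g) : ∀ᵐ x ∂μ,
    D.G (fun x => min (f x) (g x)) (fun x => min (f x) (g x)) x ≤ max (D.G f f x) (D.G g g x) := by
  filter_upwards [G_loc (hf.min hg) hf (hf.min hg) hf, G_loc (hf.min hg) hg (hf.min hg) hg]
    with x a1 a2
  rcases min_choice (f x) (g x) with h | h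
  · exact (a1 h h).trans_le (le_max_left _ _)
  · exact (a2 h h).trans_le (le_max_right _ _)

theorem ca4_lim {u : ℕ → X → ℝ} {f γ β : X → ℝ} (hu : ∀ n, D.W (u n)) (hγ : Integrable γ μ)
    (hG : ∀ n, ∀ᵐ x ∂μ, D.G (u n) (u n) x ≤ γ x) (hβ : MemLp β 2 μ) (hb : ∀ n x, |u n x| ≤ β x)
    (hl : ∀ x, Tendsto (fun n => u n x) atTop (𝓝 (f x))) :
    f ∈ D.V ∧ ∀ᵐ x ∂μ, D.G f f x ≤ γ x := by
  have h1 : ∀ n, u n ∈ D.V := fun n => (hu n).mem
    (hβ.mono' (hu n).aesm (.of_forall (hb n))) (hγ.mono' (G_aesm (hu n) (hu n)) (by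
      filter_upwards [hG n, G_nonneg (hu n)] with x a1 a2
      rwa [Real.norm_of_nonneg a2]))
  have h2 : ∀ x, |f x| ≤ β x := fun x => le_of_tendsto' (hl x).abs fun n => hb n x
  have hm : AEStronglyMeasurable f μ :=
    aestronglyMeasurable_of_tendsto_ae atTop (fun n => (hu n).aesm) (.of_forall hl)
  have h3 : MemLp f 2 μ := hβ.mono' hm (.of_forall h2)
  have h4 : Tendsto (fun n => n2 μ (u n - f)) atTop (𝓝 0) := by
    have := tendsto_integral_of_dominated_convergence (μ := μ) (F := fun n x => (u n - f) x ^ 2)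
      (f := fun _ => 0) (fun x => 4 * β x ^ 2) (fun n => ((hu n).aesm.sub hm).pow 2)
      (hβ.integrable_sq.const_mul 4) (fun n => .of_forall fun x => ?_) (.of_forall fun x => ?_)
    · rwa [integral_zero] at this
    · have a1 := abs_le.1 (hb n x)
      have a2 := abs_le.1 (h2 x)
      rw [Real.norm_of_nonneg (sq_nonneg _), Pi.sub_apply]
      nlinarith
    · simpa using ((hl x).sub_const (f x)).pow 2
  have h5 : ∀ n, ∫ x, D.Γ (u n) (u n) x ∂μ ≤ ∫ x, γ x ∂μ := fun n =>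
    integral_mono_ae (D.Γ_int _ (h1 n) _ (h1 n)) hγ (by
      filter_upwards [hG n, G_eq (h1 n) (h1 n)] with x a1 a2
      exact a2.symm.trans_le a1)
  have hf := (D.Γ_mazur h1 h3 h4 h5).1
  have h6 := (hγ.add (D.Γ_int _ hf _ hf)).div_const 2
  have h7 := D.ae_le_of_test (locInt_of_int (D.Γ_int _ hf _ hf)) (locInt_of_int h6) isOpen_univ
    fun φ hφ _ h0 => le_of_tendsto'
      (D.Γ_weak h1 h3 h4 h5 hf hφ.continuous.aestronglyMeasurable hφ.bdd) fun n =>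
      integral_mono_ae
        (hφ.bdd.mul_integrable hφ.continuous.aestronglyMeasurable (D.Γ_int _ (h1 n) _ hf))
        (hφ.bdd.mul_integrable hφ.continuous.aestronglyMeasurable h6) (by
      filter_upwards [hG n, G_eq (h1 n) hf, G_eq hf hf, G_sub_sub (hu n) (D.W_of_mem hf),
        G_nonneg ((hu n).sub (D.W_of_mem hf))] with x a1 a2 a3 a4 a5
      refine mul_le_mul_of_nonneg_left ?_ (h0 x)
      rw [Pi.add_apply]
      linarith)
  refine ⟨hf, ?_⟩
  filter_upwards [h7, G_eq hf hf] with x a1 a2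
  have := a1 trivial
  rw [Pi.add_apply] at this
  linarith

theorem ca4_seq {Y : Type} [PseudoMetricSpace Y] [TopologicalSpace.SeparableSpace Y] [Nonempty Y]
    {ψ : Y → ℝ} {M : NNReal} (hψ : LipschitzWith M ψ) {Q : (Y → ℝ) → Prop}
    (h1 : ∀ q, Q fun y => ψ q + M * dist y q)
    (h2 : ∀ u v, Q u → Q v → Q fun y => min (u y) (v y)) :
    ∃ u : ℕ → Y → ℝ, (∀ n, Q (u n)) ∧ ∀ y, Tendsto (fun n => u n y) atTop (𝓝 (ψ y)) := by
  let q := TopologicalSpace.denseSeq Y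
  let h : ℕ → Y → ℝ := fun i y => ψ (q i) + M * dist y (q i)
  let u : ℕ → Y → ℝ := fun n => Nat.rec (h 0) (fun n v y => min (v y) (h (n + 1) y)) n
  refine ⟨u, fun n => ?_, fun y => Metric.tendsto_atTop.2 fun ε hε => ?_⟩
  · induction n with
    | zero => exact h1 _
    | succ n ih => exact h2 _ _ ih (h1 _)
  have a1 : ∀ n, ψ y ≤ u n y := fun n => by
    induction n with
    | zero => exact hψ.le_add_mul _ _
    | succ n ih => exact le_min ih (hψ.le_add_mul _ _)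
  obtain ⟨N, hN⟩ := (TopologicalSpace.denseRange_denseSeq Y).exists_dist_lt y
    (ε := ε / (2 * M + 1)) (by positivity)
  refine ⟨N, fun n hn => ?_⟩
  have a2 : u n y ≤ h N y := by
    induction n, hn using Nat.le_induction with
    | base =>
      rcases N with _ | N
      exacts [le_rfl, min_le_right _ _]
    | succ n _ ih => exact (min_le_left _ _).trans ih
  have a3 := hψ.le_add_mul (q N) y
  have a4 : dist y (q N) * (2 * M + 1) < ε := (lt_div_iff₀ (by positivity)).1 hN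
  have a5 := dist_nonneg (x := y) (y := q N)
  rw [dist_comm] at a3
  rw [Real.dist_eq, abs_of_nonneg (sub_nonneg.2 (a1 n))]
  change _ ≤ ψ (q N) + M * dist y (q N) at a2
  linarith

theorem ca4_dist {k : ℕ} {F : Fin k → X → ℝ} (hF : ∀ j, D.W (F j)) (c : ℝ) (M : NNReal)
    (q : Fin k → ℝ) : D.W (fun x => c + M * dist (fun j => F j x) q) ∧ ∀ᵐ x ∂μ,
      D.G (fun x => c + M * dist (fun j => F j x) q) (fun x => c + M * dist (fun j => F j x) q) x ≤
        (M : ℝ) ^ 2 * ∑ j, D.G (F j) (F j) x := by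
  have h0 := ae_all_iff.2 fun j => G_nonneg (hF j)
  simp only [dist_pi_def]
  generalize hs : (Finset.univ : Finset (Fin k)) = s
  conv => enter [2, 1, x, 2]; rw [← hs]
  clear hs
  induction s using Finset.induction_on with
  | empty =>
    refine ⟨D.W_const (c + M * ((⊥ : NNReal) : ℝ)), ?_⟩
    filter_upwards [G_const (c + M * ((⊥ : NNReal) : ℝ)) (D.W_const (c + M * ((⊥ : NNReal) : ℝ))),
      h0] with x a1 a2
    exact a1.trans_le (mul_nonneg (sq_nonneg _) (Finset.sum_nonneg fun j _ => a2 j))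
  | insert j s hj ih =>
    have hl : LipschitzWith M fun t : ℝ => c + M * dist t (q j) :=
      LipschitzWith.of_le_add_mul _ fun s t => by
        have := mul_le_mul_of_nonneg_left (dist_triangle s t (q j)) M.2
        change (M : ℝ) * _ ≤ M * _ at this
        linarith
    obtain ⟨h1, h2⟩ := (hF j).comp_lip hl
    simp only [Finset.sup_insert, NNReal.coe_max, mul_max_of_nonneg _ _ M.coe_nonneg, add_max,
      coe_nndist]
    refine ⟨h1.max ih.1, ?_⟩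
    filter_upwards [G_max_le h1 ih.1, h2, ih.2, h0] with x a1 a2 a3 a4
    exact a1.trans (max_le (a2.trans (mul_le_mul_of_nonneg_left
      (Finset.single_le_sum (fun j _ => a4 j) (Finset.mem_univ j)) (sq_nonneg _))) a3)

theorem ca4_pi {k : ℕ} {F : Fin k → X → ℝ} (hF : ∀ j, F j ∈ D.V) {ψ : (Fin k → ℝ) → ℝ}
    {M : NNReal} (hψ : LipschitzWith M ψ) : (fun x => ψ (fun j => F j x) - ψ 0) ∈ D.V ∧ ∀ᵐ x ∂μ,
      D.G (fun x => ψ (fun j => F j x) - ψ 0) (fun x => ψ (fun j => F j x) - ψ 0) x ≤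
        (M : ℝ) ^ 2 * ∑ j, D.G (F j) (F j) x := by
  obtain ⟨u, h1, h2⟩ := ca4_seq hψ (Q := fun u => LipschitzWith M u ∧
      D.W (fun x => u fun j => F j x) ∧ ∀ᵐ x ∂μ, D.G (fun x => u fun j => F j x)
        (fun x => u fun j => F j x) x ≤ (M : ℝ) ^ 2 * ∑ j, D.G (F j) (F j) x)
    (fun q => ⟨LipschitzWith.of_le_add_mul _ fun s t => by
      have := mul_le_mul_of_nonneg_left (dist_triangle s t q) M.coe_nonneg
      linarith, ca4_dist (fun j => D.W_of_mem (hF j)) _ M q⟩)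
    fun u v hu hv => ⟨max_self M ▸ hu.1.min hv.1, hu.2.1.min hv.2.1, by
      filter_upwards [G_min_le hu.2.1 hv.2.1, hu.2.2, hv.2.2] with x a1 a2 a3
      exact a1.trans (max_le a2 a3)⟩
  have h3 := fun n => (h1 n).2.1.comp_lip (ca4_lip LipschitzWith.id (u n 0))
  refine ca4_lim (β := fun x => M * ∑ j, ‖F j x‖) (fun n => (h3 n).1)
    ((integrable_finsetSum _ fun j _ => G_int (hF j) (hF j)).const_mul _) (fun n => ?_)
    ((memLp_finsetSum _ fun j _ => (D.memLp _ (hF j)).norm).const_mul _) (fun n x => ?_)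
    fun x => (h2 _).sub (h2 0)
  · filter_upwards [(h3 n).2, (h1 n).2.2] with x a1 a2
    rw [NNReal.coe_one, one_pow, one_mul] at a1
    exact a1.trans a2
  · refine ((h1 n).1.dist_le_mul _ 0).trans (mul_le_mul_of_nonneg_left ?_ M.coe_nonneg)
    rw [dist_zero_right]
    exact (pi_norm_le_iff_of_nonneg (Finset.sum_nonneg fun j _ => norm_nonneg _)).2 fun j =>
      Finset.single_le_sum (fun j _ => norm_nonneg (F j x)) (Finset.mem_univ j)

theorem ca4_piW {k : ℕ} {F : Fin k → X → ℝ} (hF : ∀ j, D.W (F j)) {ψ : (Fin k → ℝ) → ℝ}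
    {M : NNReal} (hψ : LipschitzWith M ψ) : D.W (fun x => ψ fun j => F j x) ∧ ∀ᵐ x ∂μ,
      D.G (fun x => ψ fun j => F j x) (fun x => ψ fun j => F j x) x ≤
        (M : ℝ) ^ 2 * ∑ j, D.G (F j) (F j) x := by
  have h1 : D.W fun x => ψ fun j => F j x := ca4_W fun x r => by
    choose g hg e _ using fun j => (hF j).exists_mem x r
    exact ⟨_, (ca4_pi hg hψ).1, ψ 0, fun y hy => by simp only [e _ y hy, sub_add_cancel]⟩
  refine ⟨h1, D.ae_of_balls fun x r => ?_⟩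
  choose g hg e _ using fun j => (hF j).exists_mem x r
  obtain ⟨h2, h3⟩ := ca4_pi hg hψ
  have h4 := fun j => D.W_of_mem (hg j)
  filter_upwards [h3, ca4_loc h1 (D.W_of_mem h2) h1 (D.W_of_mem h2) (ψ 0) (ψ 0),
    ae_all_iff.2 fun j => G_loc (h4 j) (hF j) (h4 j) (hF j)] with y a1 a2 a3 hy
  have a4 : (ψ fun j => F j y) = (ψ fun j => g j y) - ψ 0 + ψ 0 := by
    simp only [e _ y hy, sub_add_cancel]
  rwa [a2 a4 a4, ← Finset.sum_congr rfl fun j _ => a3 j (e j y hy) (e j y hy)]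

theorem ca4_cover {k : ℕ} (F : X → Euc k) {δ : Euc k → ℝ} (hδ : ∀ p, 0 < δ p) {P : X → Prop}
    (h : ∀ p, ∀ᵐ x ∂μ, F x ∈ ball p (δ p) → P x) : ∀ᵐ x ∂μ, P x := by
  obtain ⟨s, hs, h3⟩ := TopologicalSpace.countable_cover_nhds fun p => ball_mem_nhds p (hδ p)
  filter_upwards [(ae_ball_iff hs).2 fun p _ => h p] with x a
  obtain ⟨p, hp, hx⟩ := mem_iUnion₂.1 (h3.ge (mem_univ (F x)))
  exact a p hp hx

theorem ca4_euc {k : ℕ} {F : X → Euc k} (hF : ∀ j, D.W (fun x => F x j)) :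
    ∃ K : X → ℝ, ∀ {ψ : Euc k → ℝ} {L : NNReal}, LipschitzWith L ψ →
      D.W (fun x => ψ (F x)) ∧ ∀ᵐ x ∂μ,
        √(D.G (fun x => ψ (F x)) (fun x => ψ (F x)) x) ≤ L * K x := by
  obtain ⟨c, hc⟩ : ∃ c, LipschitzWith c (WithLp.toLp 2 : (Fin k → ℝ) → Euc k) :=
    ⟨_, PiLp.lipschitzWith_toLp 2 _⟩
  refine ⟨fun x => c * √(∑ j, D.G (fun x => F x j) (fun x => F x j) x), fun {ψ L} h => ?_⟩
  obtain ⟨h1, h2⟩ := ca4_piW hF (h.comp hc)
  refine ⟨h1, h2.mono fun x a => (Real.sqrt_le_sqrt a).trans_eq ?_⟩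
  rw [Real.sqrt_mul (sq_nonneg _), Real.sqrt_sq (NNReal.coe_nonneg _), NNReal.coe_mul, mul_assoc]

/-- Chain rule in several variables. -/
theorem W.chain_vec {k : ℕ} {F : X → Euc k} (hF : ∀ j, D.W (fun x => F x j)) {ψ : Euc k → ℝ}
    (hψ : ContDiff ℝ 1 ψ) {L : NNReal} (hL : LipschitzWith L ψ) :
    D.W (fun x => ψ (F x)) ∧ ∀ g, D.W g → ∀ᵐ x ∂μ, D.G (fun x => ψ (F x)) g x =
      ∑ j, fderiv ℝ ψ (F x) (EuclideanSpace.single j 1) * D.G (fun x => F x j) g x := by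
  obtain ⟨K, hK⟩ := ca4_euc hF
  have h1 := (hK hL).1
  refine ⟨h1, fun g hg => ?_⟩
  have key : ∀ ε : NNReal, 0 < ε → ∀ᵐ x ∂μ, |D.G (fun x => ψ (F x)) g x -
      ∑ j, fderiv ℝ ψ (F x) (EuclideanSpace.single j 1) * D.G (fun x => F x j) g x| ≤
      ε * (K x * √(D.G g g x) + ∑ j, |D.G (fun x => F x j) g x|) := fun ε hε => by
    choose δ hδ h2 using fun p => Metric.continuousAt_iff.1
      ((hψ.continuous_fderiv one_ne_zero).continuousAt (x := p)) ε hε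
    refine ca4_cover F hδ fun p => ?_
    have h4 : ∀ y ∈ ball p (δ p), ‖fderiv ℝ ψ y - fderiv ℝ ψ p‖ ≤ ε := fun y hy => by
      rw [← dist_eq_norm]
      exact (h2 p hy).le
    obtain ⟨φ, h5, h6⟩ := ((convex_ball p (δ p)).lipschitzOnWith_of_nnnorm_hasFDerivWithin_le
      (fun y _ => ((hψ.differentiable one_ne_zero y).hasFDerivAt.sub
        (fderiv ℝ ψ p).hasFDerivAt).hasFDerivWithinAt) h4).extend_real
    have h7 := W.sum Finset.univ fun j _ =>
      (hF j).smul (fderiv ℝ ψ p (EuclideanSpace.single j 1))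
    filter_upwards [G_loc h1 ((hK h5).1.add h7) hg hg, G_add (hK h5).1 h7 hg,
      G_sum Finset.univ (fun j => fderiv ℝ ψ p (EuclideanSpace.single j 1)) (fun j _ => hF j) hg,
      G_abs_le (hK h5).1 hg, (hK h5).2] with x a1 a2 a3 a4 a5 hx
    have e : F x = ∑ j, F x j • EuclideanSpace.single j (1 : ℝ) := by
      simpa using ((EuclideanSpace.basisFun (Fin k) ℝ).sum_repr (F x)).symm
    have e' : fderiv ℝ ψ p (F x) = ∑ j, fderiv ℝ ψ p (EuclideanSpace.single j 1) * F x j := by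
      conv_lhs => rw [e, map_sum]
      simp only [map_smul, smul_eq_mul, mul_comm]
    rw [a1 (by
      rw [Pi.add_apply, ← h6 hx, Finset.sum_apply]
      simp only [Pi.smul_apply, smul_eq_mul, ← e', Pi.sub_apply, sub_add_cancel]) rfl, a2, a3,
      add_sub_assoc, ← Finset.sum_sub_distrib, mul_add, ← mul_assoc, Finset.mul_sum]
    refine (abs_add_le _ _).trans (add_le_add
      (a4.trans (mul_le_mul_of_nonneg_right a5 (Real.sqrt_nonneg _)))
      ((Finset.abs_sum_le_sum_abs _ _).trans (Finset.sum_le_sum fun j _ => ?_)))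
    rw [← sub_mul, abs_mul, abs_sub_comm]
    refine mul_le_mul_of_nonneg_right ?_ (abs_nonneg _)
    have := (fderiv ℝ ψ (F x) - fderiv ℝ ψ p).le_of_opNorm_le (h4 _ hx)
      (EuclideanSpace.single j 1)
    rwa [EuclideanSpace.norm_single, norm_one, mul_one] at this
  filter_upwards [ae_all_iff.2 fun n : ℕ => key ⟨1 / ((n : ℝ) + 1), Nat.one_div_pos_of_nat.le⟩
    Nat.one_div_pos_of_nat] with x a
  have h2 := (tendsto_one_div_add_atTop_nhds_zero_nat (𝕜 := ℝ)).mul_const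
    (K x * √(D.G g g x) + ∑ j, |D.G (fun x => F x j) g x|)
  rw [zero_mul] at h2
  exact sub_eq_zero.1 (abs_nonpos_iff.1 (ge_of_tendsto' h2 a))

end DS

end RC
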