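import Pool.Agent.P.MP_6472e5_gt.Ca4
import Pool.Agent.P.MP_6472e5_gt.Ca4c

/-! The Laplacian. -/

set_option autoImplicit false
set_option linter.unusedSectionVars false

noncomputable section

namespace RC

open MeasureTheory Set Filter Topology Metric

variable {X : Type} [MetricSpace X] [SecondCountableTopology X] [MeasurableSpace X] [BorelSpace X]
  {μ : Measure X}

namespace DS

variable {D : DS μ}

theorem ca5_W {φ : X → ℝ} (hφ : LipB φ) : D.W φ := D.W_of_mem (D.lip φ hφ)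

theorem ca5_level {f g : X → ℝ} (hf : D.W f) (hg : D.W g) (c : ℝ) :
    ∀ᵐ x ∂μ, g x = c → D.G f g x = 0 := by
  filter_upwards [G_symm hf hg, G_level hg hf c] with x h1 h2 hx
  rw [h1, h2 hx]

/-- Only the values of `f` on a set that carries `φ` matter. -/
theorem ca5_G_eq {f f' φ : X → ℝ} (hf : D.W f) (hf' : D.W f') (hφ : D.W φ) {S : Set X}
    (h1 : ∀ᵐ y ∂μ, y ∈ S → f y = f' y) (h0 : ∀ᵐ y ∂μ, y ∉ S → φ y = 0) :
    D.G f φ =ᵐ[μ] D.G f' φ := by
  filter_upwards [G_loc hf hf' hφ hφ, ca5_level hf hφ 0, ca5_level hf' hφ 0, h1, h0]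
    with y a1 a2 a3 a4 a5
  by_cases hy : y ∈ S
  · exact a1 (a4 hy) rfl
  · rw [a2 (a5 hy), a3 (a5 hy)]

theorem ca5_lim {ι : Type} {l : Filter ι} {a : ι → X → ℝ} {b : X → ℝ}
    (ha : ∀ᶠ i in l, Integrable (a i) μ) (hb : Integrable b μ)
    (h : Tendsto (fun i => ∫ x, |a i x - b x| ∂μ) l (𝓝 0)) :
    Tendsto (fun i => ∫ x, a i x ∂μ) l (𝓝 (∫ x, b x ∂μ)) := by
  rw [tendsto_iff_norm_sub_tendsto_zero]
  refine squeeze_zero' (Eventually.of_forall fun _ => norm_nonneg _) ?_ h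
  filter_upwards [ha] with i hi
  rw [← integral_sub hi hb]
  exact norm_integral_le_integral_norm _

theorem ca5_E0 {f : X → ℝ} : D.E (f - f) = 0 := by
  have h := E_smul (D := D) 0 (D.W_const 0)
  rw [zero_smul] at h
  rw [sub_self, h]
  ring

theorem ca5_n0 {f : X → ℝ} : n2 μ (f - f) = 0 := by simp [n2]

theorem ca5_Glim {ι : Type} {l : Filter ι} {v : ι → X → ℝ} {f g : X → ℝ} (hf : f ∈ D.V)
    (hg : g ∈ D.V) (hv : ∀ i, v i ∈ D.V)
    (h : Tendsto (fun i => ∫ x, D.Γ (v i - g) (v i - g) x ∂μ) l (𝓝 0)) :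
    Tendsto (fun i => ∫ x, D.G f (v i) x ∂μ) l (𝓝 (∫ x, D.G f g x ∂μ)) := by
  refine ca5_lim (Eventually.of_forall fun i => G_int hf (hv i)) (G_int hf hg)
    (G_tendsto (u := fun _ => f) (Eventually.of_forall fun _ => hf) (Eventually.of_forall hv) hf hg
      ?_ (h.congr fun i => (E_eq (D.sub_mem (hv i) hg)).symm))
  simp only [ca5_E0]
  exact tendsto_const_nhds

theorem ca5_mlim {ι : Type} {l : Filter ι} {u v : ι → X → ℝ} {f g : X → ℝ}
    (hu : ∀ᶠ i in l, MemLp (u i) 2 μ) (hv : ∀ᶠ i in l, MemLp (v i) 2 μ) (hf : MemLp f 2 μ)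
    (hg : MemLp g 2 μ) (h1 : Tendsto (fun i => n2 μ (u i - f)) l (𝓝 0))
    (h2 : Tendsto (fun i => n2 μ (v i - g)) l (𝓝 0)) :
    Tendsto (fun i => ∫ x, u i x * v i x ∂μ) l (𝓝 (∫ x, f x * g x ∂μ)) :=
  ca5_lim ((hu.and hv).mono fun _ h => integrable_mul_of_memLp h.1 h.2)
    (integrable_mul_of_memLp hf hg) (tendsto_integral_mul hu hv hf hg h1 h2)

theorem Lap.congr {f f' g g' : X → ℝ} (h : D.Lap f g) (hf : f =ᵐ[μ] f') (hg : g =ᵐ[μ] g') :
    D.Lap f' g' := by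
  refine ⟨h.1.congr hf, h.2.1.congr hg, fun φ hφ => ?_⟩
  rw [← integral_congr_ae (G_congr h.1 (ca5_W hφ) hf EventuallyEq.rfl), h.2.2 φ hφ]
  congr 1
  exact integral_congr_ae (hg.mul EventuallyEq.rfl)

theorem Lap.unique {f g g' : X → ℝ} (h : D.Lap f g) (h' : D.Lap f g') : g =ᵐ[μ] g' := by
  have := D.ae_eq_of_test h.2.1 h'.2.1 isOpen_univ fun φ hφ _ => by
    have e := (h.2.2 φ hφ).symm.trans (h'.2.2 φ hφ)
    simpa only [mul_comm, neg_inj] using e
  exact this.mono fun x hx => hx (mem_univ x)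

theorem Lap.add {f f' g g' : X → ℝ} (h : D.Lap f g) (h' : D.Lap f' g') :
    D.Lap (f + f') (g + g') := by
  refine ⟨h.1.add h'.1, h.2.1.add h'.2.1, fun φ hφ => ?_⟩
  rw [integral_congr_ae (G_add h.1 h'.1 (ca5_W hφ)),
    integral_add (G_lipB_int h.1 hφ) (G_lipB_int h'.1 hφ), h.2.2 φ hφ, h'.2.2 φ hφ, ← neg_add,
    ← integral_add (h.2.1.mul_lipB hφ) (h'.2.1.mul_lipB hφ)]
  simp only [Pi.add_apply, add_mul]

theorem Lap.smul (c : ℝ) {f g : X → ℝ} (h : D.Lap f g) : D.Lap (c • f) (c • g) := by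
  refine ⟨h.1.smul c, h.2.1.smul c, fun φ hφ => ?_⟩
  rw [integral_congr_ae (G_smul c h.1 (ca5_W hφ)), integral_const_mul, h.2.2 φ hφ, mul_neg,
    ← integral_const_mul]
  simp only [Pi.smul_apply, smul_eq_mul, mul_assoc]

theorem Lap.neg {f g : X → ℝ} (h : D.Lap f g) : D.Lap (-f) (-g) := by
  simpa only [neg_smul, one_smul] using h.smul (-1)

theorem Lap.sub {f f' g g' : X → ℝ} (h : D.Lap f g) (h' : D.Lap f' g') :
    D.Lap (f - f') (g - g') := by
  simpa only [sub_eq_add_neg] using h.add h'.neg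

theorem ca5_const (c : ℝ) : D.Lap (fun _ => c) 0 := by
  refine ⟨D.W_const c, locInt_of_int (integrable_zero _ _ _), fun φ hφ => ?_⟩
  rw [integral_congr_ae (G_const c (ca5_W hφ))]
  simp

theorem Lap.sum {ι : Type} (s : Finset ι) {f g : ι → X → ℝ} (h : ∀ i ∈ s, D.Lap (f i) (g i)) :
    D.Lap (∑ i ∈ s, f i) (∑ i ∈ s, g i) := by
  classical
  induction s using Finset.induction_on with
  | empty => exact ca5_const 0
  | insert a s ha ih =>
    rw [Finset.sum_insert ha, Finset.sum_insert ha]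
    exact (h a (Finset.mem_insert_self a s)).add
      (ih fun i hi => h i (Finset.mem_insert_of_mem hi))

theorem lap_const (c : ℝ) : D.Lap (fun _ => c) 0 := ca5_const c

theorem Lap.aesm {f g : X → ℝ} (h : D.Lap f g) : AEStronglyMeasurable g μ := h.2.1.aesm

theorem ca5_test_bdd {f g φ : X → ℝ} (h : D.Lap f g) (hφ : D.W φ) (bφ : Bdd μ φ) {x : X} {R : ℝ}
    (h0 : ∀ᵐ y ∂μ, y ∉ ball x R → φ y = 0) : ∫ x, D.G f φ x ∂μ = -∫ x, g x * φ x ∂μ := by
  have mφ := hφ.mem_of_supp h0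
  obtain ⟨C, hC, hb⟩ := bφ.nonneg
  obtain ⟨u, hu, h1, h2⟩ := D.dense_supp mφ (a := -C) (b := C) (by linarith) hC.le
    (hb.mono fun y hy => abs_le.1 hy) isBounded_ball h0 one_pos
  have hz : ∀ k y, y ∉ ball x (1 + R) → u k y = 0 := fun k y hy =>
    image_eq_zero_of_notMem_tsupport fun h' => hy (thickening_ball x 1 R ((hu k).2.1 h'))
  obtain ⟨f', mf', e', -⟩ := h.1.exists_mem x (1 + R)
  have h0' : ∀ᵐ y ∂μ, y ∉ ball x (1 + R) → φ y = 0 :=
    h0.mono fun y hy hy' => hy fun h' => hy' (ball_subset_ball (by linarith) h')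
  have ee : ∀ᵐ y ∂μ, y ∈ ball x (1 + R) → f y = f' y :=
    Eventually.of_forall fun y hy => (e' y hy).symm
  obtain ⟨s, hs, hae⟩ := exists_subseq_ae (fun k => D.lipB_memLp (hu k).1) (D.memLp φ mφ) h1
  have t1 := (ca5_Glim mf' mφ (fun k => D.lip _ (hu k).1) h2).comp hs.tendsto_atTop
  have t2 : Tendsto (fun k => ∫ y, g y * u (s k) y ∂μ) atTop (𝓝 (∫ y, g y * φ y ∂μ)) := by
    refine tendsto_integral_of_dominated_convergence
      ((ball x (1 + R)).indicator fun y => ‖g y‖ * C)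
      (fun k => (h.2.1.mul_lipB (hu _).1).1)
      (IntegrableOn.integrable_indicator ((h.2.1 x _).norm.mul_const C) measurableSet_ball)
      (fun k => Eventually.of_forall fun y => ?_) (hae.mono fun y hy => hy.const_mul _)
    by_cases hy : y ∈ ball x (1 + R)
    · rw [indicator_of_mem hy, norm_mul]
      exact mul_le_mul_of_nonneg_left (abs_le.2 ((hu _).2.2 y)) (norm_nonneg _)
    · rw [indicator_of_notMem hy, hz _ y hy, mul_zero, norm_zero]
  rw [integral_congr_ae (ca5_G_eq h.1 (D.W_of_mem mf') hφ ee h0')]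
  refine tendsto_nhds_unique t1 (t2.neg.congr fun k => ?_)
  rw [← h.2.2 _ (hu _).1]
  exact integral_congr_ae (ca5_G_eq h.1 (D.W_of_mem mf') (ca5_W (hu _).1) ee
    (Eventually.of_forall (hz _)))

theorem ca5_trunc_le (k : ℕ) (t : ℝ) : |max (-(k : ℝ)) (min k t)| ≤ |t| ∧
    |max (-(k : ℝ)) (min k t)| ≤ k := by
  have hk : (0 : ℝ) ≤ k := Nat.cast_nonneg k
  have h1 := le_abs_self t
  have h2 := neg_abs_le t
  simp only [max_def, min_def, abs_le]
  split_ifs <;> refine ⟨⟨?_, ?_⟩, ?_, ?_⟩ <;> linarith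

/-- Test functions with bounded support whose product with the Laplacian is integrable. -/
theorem ca5_test_gen {f g φ : X → ℝ} (h : D.Lap f g) (hφ : D.W φ) {x : X} {R : ℝ}
    (h0 : ∀ᵐ y ∂μ, y ∉ ball x R → φ y = 0) (hi : Integrable (fun y => g y * φ y) μ) :
    Integrable (D.G f φ) μ ∧ ∫ x, D.G f φ x ∂μ = -∫ x, g x * φ x ∂μ := by
  have mφ := hφ.mem_of_supp h0
  obtain ⟨f', mf', e', -⟩ := h.1.exists_mem x R
  have ee : ∀ᵐ y ∂μ, y ∈ ball x R → f y = f' y := Eventually.of_forall fun y hy => (e' y hy).symm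
  have e1 := ca5_G_eq h.1 (D.W_of_mem mf') hφ ee h0
  refine ⟨(G_int mf' mφ).congr e1.symm, ?_⟩
  obtain ⟨hm, -, h2⟩ := D.trunc_tendsto mφ
  have hz : ∀ k : ℕ, ∀ᵐ y ∂μ, y ∉ ball x R → max (-(k : ℝ)) (min k (φ y)) = 0 := fun k =>
    h0.mono fun y hy hy' => by
      have := (ca5_trunc_le k 0).1
      rw [abs_zero, abs_nonpos_iff] at this
      rw [hy hy', this]
  have t2 : Tendsto (fun k : ℕ => ∫ y, g y * max (-(k : ℝ)) (min k (φ y)) ∂μ) atTop
      (𝓝 (∫ y, g y * φ y ∂μ)) := by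
    refine tendsto_integral_of_dominated_convergence (fun y => ‖g y * φ y‖)
      (fun k => h.2.1.aesm.mul (D.aesm (hm k))) hi.norm
      (fun k => Eventually.of_forall fun y => ?_) (Eventually.of_forall fun y => ?_)
    · rw [norm_mul, norm_mul]
      exact mul_le_mul_of_nonneg_left (ca5_trunc_le k _).1 (norm_nonneg _)
    · refine tendsto_const_nhds.congr' ?_
      filter_upwards [tendsto_natCast_atTop_atTop.eventually_ge_atTop |φ y|] with k hk
      rw [min_eq_right (le_of_abs_le hk), max_eq_right (neg_le_of_abs_le hk)]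
  rw [integral_congr_ae e1]
  refine tendsto_nhds_unique (ca5_Glim mf' mφ hm h2) (t2.neg.congr fun k => ?_)
  rw [← ca5_test_bdd h (D.W_of_mem (hm k))
    ⟨k, Eventually.of_forall fun y => (ca5_trunc_le k _).2⟩ (hz k)]
  exact integral_congr_ae (ca5_G_eq h.1 (D.W_of_mem mf') (D.W_of_mem (hm k)) ee (hz k))

theorem ca5_test_glob {f g φ : X → ℝ} (h : D.Lap f g) (hf : f ∈ D.V) (hφ : φ ∈ D.V)
    (hi : Integrable (fun y => g y * φ y) μ) : ∫ x, D.G f φ x ∂μ = -∫ x, g x * φ x ∂μ := by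
  rcases isEmpty_or_nonempty X with hX | ⟨⟨x⟩⟩
  · simp [integral_of_isEmpty]
  have wφ := D.W_of_mem hφ
  choose χ c1 c2 c3 c4 c5 using fun k : ℕ => exists_cutoff_ball x (lt_add_one (k : ℝ))
  have hm : ∀ k, χ k * φ ∈ D.V := fun k => wφ _ (c1 k)
  have hev : ∀ y, ∀ᶠ k : ℕ in atTop, χ k y = 1 := fun y =>
    (tendsto_natCast_atTop_atTop.eventually_ge_atTop (dist y x)).mono fun k hk => c3 k y hk
  have hle : ∀ k y, ‖g y * (χ k * φ) y‖ ≤ ‖g y * φ y‖ := fun k y => by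
    rw [Pi.mul_apply, mul_left_comm, norm_mul, Real.norm_of_nonneg (c2 k y).1]
    exact mul_le_of_le_one_left (norm_nonneg _) (c2 k y).2
  have hms : ∀ k, AEStronglyMeasurable (fun y => g y * (χ k * φ) y) μ := fun k =>
    h.2.1.aesm.mul (D.aesm (hm k))
  have t2 : Tendsto (fun k : ℕ => ∫ y, g y * (χ k * φ) y ∂μ) atTop (𝓝 (∫ y, g y * φ y ∂μ)) := by
    refine tendsto_integral_of_dominated_convergence (fun y => ‖g y * φ y‖) hms hi.norm
      (fun k => Eventually.of_forall (hle k)) (Eventually.of_forall fun y => ?_)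
    refine tendsto_const_nhds.congr' ((hev y).mono fun k hk => ?_)
    simp only [Pi.mul_apply, hk, one_mul]
  have t1 : Tendsto (fun k : ℕ => ∫ y, D.G f (χ k * φ) y ∂μ) atTop (𝓝 (∫ y, D.G f φ y ∂μ)) := by
    refine tendsto_integral_of_dominated_convergence
      (fun y => ‖D.G f φ y‖ + ‖φ y * √(D.G f f y)‖) (fun k => (G_int hf (hm k)).1)
      ((G_int hf hφ).norm.add (integrable_mul_of_memLp (D.memLp φ hφ) (sqrt_G_memLp hf)).norm)
      (fun k => ?_) ?_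
    · have hL := G_le_lip (ca5_W (D := D) (c1 k)) isOpen_univ (g := χ k) (L := 1)
        (fun a _ b _ => by simpa using c5 k a b) zero_le_one (Eventually.of_forall fun _ _ => rfl)
      filter_upwards [G_mul_right (ca5_W (c1 k)) wφ (D.W_of_mem (hm k)) h.1,
        G_abs_le h.1 (ca5_W (c1 k)), hL] with y a1 a2 a3
      rw [a1]
      refine (norm_add_le _ _).trans (add_le_add ?_ ?_)
      · rw [norm_mul, Real.norm_of_nonneg (c2 k y).1]
        exact mul_le_of_le_one_left (norm_nonneg _) (c2 k y).2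
      · rw [norm_mul, norm_mul, Real.norm_of_nonneg (Real.sqrt_nonneg _)]
        refine mul_le_mul_of_nonneg_left (a2.trans ?_) (norm_nonneg _)
        exact mul_le_of_le_one_right (Real.sqrt_nonneg _)
          (Real.sqrt_le_one.2 (by simpa using a3 (mem_univ y)))
    · filter_upwards [ae_all_iff.2 fun k => G_loc h.1 h.1 (D.W_of_mem (hm k)) wφ] with y hy
      refine tendsto_const_nhds.congr' ((hev y).mono fun k hk => (hy k rfl ?_).symm)
      simp only [Pi.mul_apply, hk, one_mul]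
  refine tendsto_nhds_unique t1 (t2.neg.congr fun k => ?_)
  refine (ca5_test_gen h (D.W_of_mem (hm k)) (x := x) (R := k + 1)
    (Eventually.of_forall fun y hy => ?_) (hi.norm.mono' (hms k)
      (Eventually.of_forall (hle k)))).2.symm
  rw [Pi.mul_apply, c4 k y hy, zero_mul]

/-- Test functions in the domain. -/
theorem Lap.test {f g φ : X → ℝ} (h : D.Lap f g) (hf : f ∈ D.V) (hg : MemLp g 2 μ)
    (hφ : φ ∈ D.V) : ∫ x, D.G f φ x ∂μ = -∫ x, g x * φ x ∂μ := ca5_test_glob h hf hφ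
  (integrable_mul_of_memLp hg (D.memLp φ hφ))

/-- Bounded test functions with bounded support. -/
theorem Lap.test_bdd {f g φ : X → ℝ} (h : D.Lap f g) (hφ : D.W φ) (bφ : Bdd μ φ) {x : X} {R : ℝ}
    (h0 : ∀ᵐ y ∂μ, y ∉ ball x R → φ y = 0) :
    Integrable (D.G f φ) μ ∧ ∫ x, D.G f φ x ∂μ = -∫ x, g x * φ x ∂μ :=
  ca5_test_gen h hφ h0 (h.2.1.mul_integrable hφ.aesm bφ h0)

/-- Test functions with bounded support when the Laplacian is locally square integrable. -/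
theorem Lap.test_supp {f g φ : X → ℝ} (h : D.Lap f g) (hg : LocInt μ (fun x => g x ^ 2))
    (hφ : D.W φ) {x : X} {R : ℝ} (h0 : ∀ᵐ y ∂μ, y ∉ ball x R → φ y = 0) :
    Integrable (D.G f φ) μ ∧ ∫ x, D.G f φ x ∂μ = -∫ x, g x * φ x ∂μ := by
  refine ca5_test_gen h hφ h0 ?_
  have m1 : MemLp ((ball x R).indicator g) 2 μ := by
    rw [memLp_indicator_iff_restrict measurableSet_ball]
    exact (memLp_two_iff_integrable_sq h.aesm.restrict).2 (hg x R)
  refine (integrable_mul_of_memLp m1 (D.memLp φ (hφ.mem_of_supp h0))).congr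
    (h0.mono fun y hy => ?_)
  by_cases hy' : y ∈ ball x R
  · simp only [indicator_of_mem hy']
  · simp only [hy hy', mul_zero]

/-- Bounded test functions in the domain when the Laplacian is integrable. -/
theorem Lap.test_int {f g φ : X → ℝ} (h : D.Lap f g) (hf : f ∈ D.V) (hg : Integrable g μ)
    (hφ : φ ∈ D.V) (bφ : Bdd μ φ) : ∫ x, D.G f φ x ∂μ = -∫ x, g x * φ x ∂μ :=
  ca5_test_glob h hf hφ ((bφ.mul_integrable (D.aesm hφ) hg).congr
    (Eventually.of_forall fun _ => mul_comm _ _))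

theorem ca5_loc {f g f' g' : X → ℝ} (h : D.Lap f g) (h' : D.Lap f' g') {U : Set X} (hU : IsOpen U)
    (c : ℝ) (he : ∀ᵐ x ∂μ, x ∈ U → f x = f' x + c) : ∀ᵐ x ∂μ, x ∈ U → g x = g' x := by
  refine D.ae_eq_of_test h.2.1 h'.2.1 hU fun φ hφ hs => ?_
  have h2 := h'.add (ca5_const c)
  have e := integral_congr_ae (ca5_G_eq h.1 h2.1 (ca5_W hφ) he (Eventually.of_forall fun y hy =>
    image_eq_zero_of_notMem_tsupport fun hy' => hy (hs hy')))
  rw [h.2.2 φ hφ, h2.2.2 φ hφ] at e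
  simpa only [add_zero, mul_comm, neg_inj] using e

/-- A function with bounded support and bounded Laplacian tested against a local function. -/
theorem Lap.test_W {φ g f : X → ℝ} (h : D.Lap φ g) (hg : MemLp g 2 μ) {x : X} {R : ℝ}
    (h0 : ∀ᵐ y ∂μ, y ∉ ball x R → φ y = 0) (hf : D.W f) :
    Integrable (D.G φ f) μ ∧ Integrable (fun y => g y * f y) μ ∧
      ∫ x, D.G φ f x ∂μ = -∫ x, g x * f x ∂μ := by
  obtain ⟨f', mf', e', -⟩ := hf.exists_mem x (R + 1)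
  have mφ := h.1.mem_of_supp h0
  have h0' : ∀ᵐ y ∂μ, y ∉ ball x (R + 1) → φ y = 0 :=
    h0.mono fun y hy hy' => hy fun h' => hy' (ball_subset_ball (by linarith) h')
  have e1 : D.G φ f =ᵐ[μ] D.G φ f' := (G_symm h.1 hf).trans ((ca5_G_eq hf (D.W_of_mem mf') h.1
    (Eventually.of_forall fun y hy => (e' y hy).symm) h0').trans (G_symm (D.W_of_mem mf') h.1))
  have z := ca5_loc h (ca5_const 0) (isClosed_closedBall (x := x) (ε := R)).isOpen_compl 0
    (h0.mono fun y hy hy' => by rw [hy fun h' => hy' (ball_subset_closedBall h'), add_zero])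
  have e2 : (fun y => g y * f y) =ᵐ[μ] fun y => g y * f' y := z.mono fun y hy => by
    by_cases hy' : y ∈ closedBall x R
    · simp only [e' y (closedBall_subset_ball (lt_add_one R) hy')]
    · simp only [hy hy', Pi.zero_apply, zero_mul]
  refine ⟨(G_int mφ mf').congr e1.symm,
    (integrable_mul_of_memLp hg (D.memLp _ mf')).congr e2.symm, ?_⟩
  rw [integral_congr_ae e1, integral_congr_ae e2, h.test mφ hg mf']

theorem Lap.green {f Lf g Lg : X → ℝ} (hf : D.Lap f Lf) (hg : D.Lap g Lg) (mf : f ∈ D.V)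
    (mg : g ∈ D.V) (h1 : MemLp Lf 2 μ) (h2 : MemLp Lg 2 μ) :
    ∫ x, Lf x * g x ∂μ = ∫ x, f x * Lg x ∂μ := by
  have e := integral_congr_ae (G_symm hf.1 hg.1)
  rw [hf.test mf h1 mg, hg.test mg h2 mf] at e
  simpa only [mul_comm, neg_inj] using e

theorem lap_of_test {f g : X → ℝ} (hf : f ∈ D.V) (hg : MemLp g 2 μ)
    (h : ∀ φ ∈ D.V, ∫ x, D.G f φ x ∂μ = -∫ x, g x * φ x ∂μ) : D.Lap f g :=
  ⟨D.W_of_mem hf, D.locInt_of_memLp hg, fun φ hφ => h φ (D.lip φ hφ)⟩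

/-- Locality. -/
theorem Lap.loc {f g f' g' : X → ℝ} (h : D.Lap f g) (h' : D.Lap f' g') {U : Set X} (hU : IsOpen U)
    (c : ℝ) (he : ∀ᵐ x ∂μ, x ∈ U → f x = f' x + c) : ∀ᵐ x ∂μ, x ∈ U → g x = g' x :=
  ca5_loc h h' hU c he

theorem Lap.zero_on {f g : X → ℝ} (h : D.Lap f g) {U : Set X} (hU : IsOpen U) (c : ℝ)
    (he : ∀ᵐ x ∂μ, x ∈ U → f x = c) : ∀ᵐ x ∂μ, x ∈ U → g x = 0 :=
  ca5_loc h (ca5_const 0) hU c (he.mono fun x hx hx' => by rw [hx hx', zero_add])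

theorem lap_of_balls {f g : X → ℝ} (h : ∀ x r, ∃ f' g', D.Lap f' g' ∧
    ∀ᵐ y ∂μ, y ∈ ball x r → f y = f' y ∧ g y = g' y) : D.Lap f g := by
  have wf : D.W f := D.W_of_balls fun x r => by
    obtain ⟨f', g', h1, h2⟩ := h x r
    exact ⟨f', h1.1, h2.mono fun y hy hy' => (hy hy').1⟩
  refine ⟨wf, fun x r => ?_, fun φ hφ => ?_⟩
  · obtain ⟨f', g', h1, h2⟩ := h x r
    refine (h1.2.1 x r).congr_fun_ae ?_
    exact (ae_restrict_iff' measurableSet_ball).2 (h2.mono fun y hy hy' => (hy hy').2.symm)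
  · rcases isEmpty_or_nonempty X with hX | ⟨⟨x⟩⟩
    · simp [integral_of_isEmpty]
    obtain ⟨R, -, hR⟩ := hφ.exists_ball x
    obtain ⟨f', g', h1, h2⟩ := h x R
    rw [integral_congr_ae (ca5_G_eq wf h1.1 (ca5_W hφ) (h2.mono fun y hy hy' => (hy hy').1)
      (Eventually.of_forall hR)), h1.2.2 φ hφ]
    congr 1
    refine integral_congr_ae (h2.mono fun y hy => ?_)
    by_cases hy' : y ∈ ball x R
    · simp only [(hy hy').2]
    · simp only [hR y hy', mul_zero]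

theorem ca5_test_mul {f g ψ φ : X → ℝ} (h : D.Lap f g) (hψ : D.W ψ)
    (hi : LocInt μ fun x => ψ x * g x) (hφ : LipB φ) : Integrable (D.G f (φ * ψ)) μ ∧
      ∫ x, D.G f (φ * ψ) x ∂μ = -∫ x, ψ x * g x * φ x ∂μ := by
  rcases isEmpty_or_nonempty X with hX | ⟨⟨x⟩⟩
  · simp [integral_of_isEmpty, Measure.eq_zero_of_isEmpty μ]
  obtain ⟨R, -, hR⟩ := hφ.exists_ball x
  have e : (fun y => g y * (φ * ψ) y) = fun y => ψ y * g y * φ y := by
    funext y
    rw [Pi.mul_apply]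
    ring
  have := ca5_test_gen h (D.W_of_mem (hψ φ hφ)) (x := x) (R := R)
    (Eventually.of_forall fun y hy => by rw [Pi.mul_apply, hR y hy, zero_mul])
    (e ▸ hi.mul_lipB hφ)
  rwa [e] at this

theorem ca5_mul {f Lf g Lg : X → ℝ} (hf : D.Lap f Lf) (hg : D.Lap g Lg) (w : D.W (f * g))
    (i1 : LocInt μ fun x => f x * Lg x) (i2 : LocInt μ fun x => g x * Lf x) :
    D.Lap (f * g) (fun x => f x * Lg x + g x * Lf x + 2 * D.G f g x) := by
  have i3 := (G_locInt hf.1 hg.1).smul 2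
  refine ⟨w, (i1.add i2).add i3, fun φ hφ => ?_⟩
  obtain ⟨a1, a2⟩ := ca5_test_mul hg hf.1 i1 hφ
  obtain ⟨b1, b2⟩ := ca5_test_mul hf hg.1 i2 hφ
  have j3 : Integrable (fun y => 2 * D.G f g y * φ y) μ := i3.mul_lipB hφ
  have e : D.G (f * g) φ =ᵐ[μ]
      fun y => D.G g (φ * f) y + D.G f (φ * g) y - 2 * D.G f g y * φ y := by
    filter_upwards [G_mul hf.1 hg.1 w (ca5_W hφ),
      G_mul_right (ca5_W hφ) hf.1 (D.W_of_mem (hf.1 φ hφ)) hg.1,
      G_mul_right (ca5_W hφ) hg.1 (D.W_of_mem (hg.1 φ hφ)) hf.1, G_symm hg.1 hf.1]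
      with y e1 e2 e3 e4
    rw [e1, e2, e3, e4]
    ring
  simp only [add_mul]
  have j1 : Integrable (fun y => D.G g (φ * f) y + D.G f (φ * g) y) μ := a1.add b1
  have j2 : Integrable (fun y => f y * Lg y * φ y + g y * Lf y * φ y) μ :=
    (i1.mul_lipB hφ).add (i2.mul_lipB hφ)
  rw [integral_congr_ae e, integral_sub j1 j3, integral_add a1 b1, a2, b2, integral_add j2 j3,
    integral_add (i1.mul_lipB hφ) (i2.mul_lipB hφ)]
  ring

theorem Lap.mul {f Lf g Lg : X → ℝ} (hf : D.Lap f Lf) (hg : D.Lap g Lg) (bf : LocBdd μ f)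
    (bg : LocBdd μ g) :
    D.Lap (f * g) (fun x => f x * Lg x + g x * Lf x + 2 * D.G f g x) :=
  ca5_mul hf hg (hf.1.mul hg.1 bf bg) (bf.mul_locInt hf.1.aesm hg.2.1)
    (bg.mul_locInt hg.1.aesm hf.2.1)

/-- Product with a function that is locally bounded with its gradient and Laplacian. -/
theorem Lap.mul' {f Lf g Lg : X → ℝ} (hf : D.Lap f Lf) (hg : D.Lap g Lg) (bg : LocBdd μ g)
    (bG : LocBdd μ (D.G g g)) (bL : LocBdd μ Lg) :
    D.Lap (f * g) (fun x => f x * Lg x + g x * Lf x + 2 * D.G f g x) :=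
  ca5_mul hf hg (hf.1.mul' hg.1 bg bG) ((bL.mul_locInt hg.aesm hf.1.locInt).congr
    (Eventually.of_forall fun _ => mul_comm _ _)) (bg.mul_locInt hg.1.aesm hf.2.1)

theorem Lap.chain {f Lf : X → ℝ} (hf : D.Lap f Lf) {O : Set ℝ} (hO : IsOpen O) (hin : LocIn μ f O)
    {Φ Φ' Φ'' : ℝ → ℝ} (hd : ∀ t ∈ O, HasDerivAt Φ (Φ' t) t)
    (hd' : ∀ t ∈ O, HasDerivAt Φ' (Φ'' t) t) (hc : ContinuousOn Φ'' O) :
    D.Lap (fun x => Φ (f x)) (fun x => Φ' (f x) * Lf x + Φ'' (f x) * D.G f f x) := by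
  have hc' : ContinuousOn Φ' O := fun t ht => (hd' t ht).continuousAt.continuousWithinAt
  have w1 := hf.1.comp hO hin hd' hc
  have i1 : LocInt μ fun x => Φ' (f x) * Lf x := (hin.locBdd hc').mul_locInt w1.aesm hf.2.1
  have e2 := hf.1.chain hf.1 hO hin hd' hc
  have i2 : LocInt μ fun x => Φ'' (f x) * D.G f f x := (G_locInt w1 hf.1).congr e2
  refine ⟨hf.1.comp hO hin hd hc', i1.add i2, fun φ hφ => ?_⟩
  obtain ⟨a1, a2⟩ := ca5_test_mul hf w1 i1 hφ
  have e : D.G (fun x => Φ (f x)) φ =ᵐ[μ] fun y =>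
      D.G f (φ * fun x => Φ' (f x)) y - Φ'' (f y) * D.G f f y * φ y := by
    filter_upwards [hf.1.chain (ca5_W hφ) hO hin hd hc',
      G_mul_right (ca5_W hφ) w1 (D.W_of_mem (w1 φ hφ)) hf.1, G_symm hf.1 w1, e2]
      with y e1 e3 e4 e5
    rw [e1, e3, e4, e5]
    ring
  simp only [add_mul]
  rw [integral_congr_ae e, integral_sub a1 (i2.mul_lipB hφ), a2,
    integral_add (i1.mul_lipB hφ) (i2.mul_lipB hφ)]
  ring

/-- The Laplacian is closed. -/
theorem lap_closed {ι : Type} {l : Filter ι} [l.NeBot] [l.IsCountablyGenerated]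
    {u w : ι → X → ℝ} {f g : X → ℝ}
    (hu : ∀ᶠ i in l, u i ∈ D.V ∧ MemLp (w i) 2 μ ∧ D.Lap (u i) (w i)) (hf : MemLp f 2 μ)
    (hg : MemLp g 2 μ) (h1 : Tendsto (fun i => n2 μ (u i - f)) l (𝓝 0))
    (h2 : Tendsto (fun i => n2 μ (w i - g)) l (𝓝 0)) :
    f ∈ D.V ∧ D.Lap f g ∧ Tendsto (fun i => D.E (u i - f)) l (𝓝 0) := by
  have mu : ∀ᶠ i in l, MemLp (u i) 2 μ := hu.mono fun i hi => D.memLp _ hi.1
  have mw : ∀ᶠ i in l, MemLp (w i) 2 μ := hu.mono fun i hi => hi.2.1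
  have hE : ∀ᶠ i in l, u i ∈ D.V ∧ D.E (u i) ≤ -∫ x, g x * f x ∂μ + 1 := by
    filter_upwards [hu, (ca5_mlim mw mu hg hf h2 h1).neg.eventually_le_const (lt_add_one _)]
      with i hi hi'
    exact ⟨hi.1, (hi.2.2.test hi.1 hi.2.1 hi.1).le.trans hi'⟩
  have mf := (mem_of_bdd hE hf h1).1
  have hl : D.Lap f g := lap_of_test mf hg fun φ hφ => by
    have t1 := G_weak hE hf h1 hφ (ψ := fun _ => 1) aestronglyMeasurable_const (Bdd.const 1)
    simp only [one_mul] at t1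
    have t2 := ca5_mlim (v := fun _ => φ) mw (Eventually.of_forall fun _ => D.memLp φ hφ) hg
      (D.memLp φ hφ) h2 (by simp only [ca5_n0]; exact tendsto_const_nhds)
    refine tendsto_nhds_unique t1 (t2.neg.congr' (hu.mono fun i hi => ?_))
    exact (hi.2.2.test hi.1 hi.2.1 hφ).symm
  refine ⟨mf, hl, ?_⟩
  have t := (ca5_mlim (u := fun i => w i - g) (v := fun i => u i - f) (f := 0) (g := 0)
    (mw.mono fun i hi => hi.sub hg) (mu.mono fun i hi => hi.sub hf) MemLp.zero MemLp.zero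
    (by simpa only [sub_zero] using h2) (by simpa only [sub_zero] using h1)).neg
  simp only [Pi.zero_apply, mul_zero, integral_zero, neg_zero] at t
  refine t.congr' (hu.mono fun i hi => ?_)
  exact ((hi.2.2.sub hl).test (D.sub_mem hi.1 mf) (hi.2.1.sub hg) (D.sub_mem hi.1 mf)).symm

theorem ca5_int1 {f ζ : X → ℝ} (hf : D.W f) (hζ : LipB ζ) :
    Integrable (fun x => f x ^ 2 * D.G ζ ζ x) μ := by
  rcases isEmpty_or_nonempty X with hX | ⟨⟨x⟩⟩
  · simp [Measure.eq_zero_of_isEmpty μ]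
  obtain ⟨R, -, hR⟩ := hζ.exists_ball x
  exact hf.locInt_sq.mul_integrable (G_aesm (ca5_W hζ) (ca5_W hζ)) hζ.bddG (x := x) (R := R)
    ((G_level (ca5_W hζ) (ca5_W hζ) 0).mono fun y hy hy' => hy (hR y hy'))

theorem ca5_int2 {g ζ : X → ℝ} (hg : LocInt μ g) (hζ : LipB ζ) :
    Integrable (fun x => ζ x ^ 2 * g x) μ :=
  (hg.mul_lipB (hζ.mul hζ)).congr (Eventually.of_forall fun x => by
    simp only [Pi.mul_apply]
    ring)

theorem ca5_cacc {f g ζ : X → ℝ} (h : D.Lap f g) (hζ : LipB ζ)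
    (hg : LocInt μ (fun x => f x * g x)) :
    ∫ x, ζ x ^ 2 * D.G f f x ∂μ ≤
      4 * ∫ x, f x ^ 2 * D.G ζ ζ x ∂μ - 2 * ∫ x, ζ x ^ 2 * (f x * g x) ∂μ := by
  have h2 := hζ.mul hζ
  obtain ⟨a1, a2⟩ := ca5_test_mul h h.1 hg h2
  have e : ∫ x, ζ x ^ 2 * (f x * g x) ∂μ = ∫ x, f x * g x * (ζ * ζ) x ∂μ := by
    refine integral_congr_ae (Eventually.of_forall fun x => ?_)
    simp only [Pi.mul_apply]
    ring
  have i1 := ca5_int1 h.1 hζ
  have k : ∫ x, ζ x ^ 2 * D.G f f x ∂μ ≤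
      ∫ x, (4 * (f x ^ 2 * D.G ζ ζ x) + 2 * D.G f (ζ * ζ * f) x) ∂μ := by
    refine integral_mono_ae (ca5_int2 (G_locInt h.1 h.1) hζ)
      ((i1.const_mul 4).add (a1.const_mul 2)) ?_
    filter_upwards [G_mul_right (ca5_W h2) h.1 (D.W_of_mem (h.1 _ h2)) h.1,
      G_mul_right (ca5_W hζ) (ca5_W hζ) (ca5_W h2) h.1, G_cs h.1 (ca5_W hζ), G_nonneg h.1,
      G_nonneg (ca5_W (D := D) hζ)] with y e1 e2 c p q
    rw [e1, e2, Pi.mul_apply]
    generalize D.G f f y = A, D.G f ζ y = B, D.G ζ ζ y = C, ζ y = z, f y = t at *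
    rcases p.eq_or_lt with rfl | hA
    · have : B = 0 := by nlinarith [sq_nonneg B]
      subst this
      nlinarith [mul_nonneg (sq_nonneg t) q]
    · refine le_of_mul_le_mul_left ?_ hA
      nlinarith [sq_nonneg (z * A + 2 * t * B), mul_nonneg (sq_nonneg t) (sub_nonneg.2 c)]
  rw [integral_add (i1.const_mul 4) (a1.const_mul 2), integral_const_mul, integral_const_mul,
    a2] at k
  linarith

theorem ca5_ball {f g ζ : X → ℝ} (h : D.Lap f g) (hg : LocInt μ (fun x => f x * g x))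
    (hζ : LipB ζ) {x : X} {r : ℝ} (h1 : ∀ y ∈ ball x r, ζ y = 1) :
    ∫ y in ball x r, D.G f f y ∂μ ≤
      4 * ∫ x, f x ^ 2 * D.G ζ ζ x ∂μ - 2 * ∫ x, ζ x ^ 2 * (f x * g x) ∂μ := by
  refine le_trans ?_ (ca5_cacc h hζ hg)
  rw [← setIntegral_congr_fun (f := fun y => ζ y ^ 2 * D.G f f y) measurableSet_ball
    fun y hy => by simp only [h1 y hy, one_pow, one_mul]]
  exact setIntegral_le_integral (ca5_int2 (G_locInt h.1 h.1) hζ)
    ((G_nonneg h.1).mono fun y hy => mul_nonneg (sq_nonneg _) hy)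

/-- Local closedness under locally bounded pointwise convergence. -/
theorem lap_of_lim {u w : ℕ → X → ℝ} {f g : X → ℝ} (hu : ∀ k, D.Lap (u k) (w k))
    (hb : ∀ x r, ∃ C, ∀ k, ∀ᵐ y ∂μ, y ∈ ball x r → |u k y| ≤ C ∧ |w k y| ≤ C)
    (h1 : ∀ᵐ y ∂μ, Tendsto (fun k => u k y) atTop (𝓝 (f y)))
    (h2 : ∀ᵐ y ∂μ, Tendsto (fun k => w k y) atTop (𝓝 (g y))) :
    D.Lap f g ∧ ∀ x r, Tendsto (fun k => ∫ y in ball x r, D.G (u k - f) (u k - f) y ∂μ) atTop
      (𝓝 0) := by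
  have mf : AEStronglyMeasurable f μ :=
    aestronglyMeasurable_of_tendsto_ae atTop (fun k => (hu k).1.aesm) h1
  have mg : AEStronglyMeasurable g μ :=
    aestronglyMeasurable_of_tendsto_ae atTop (fun k => (hu k).aesm) h2
  have hb' : ∀ x r, ∃ C, 0 ≤ C ∧ ∀ᵐ y ∂μ, y ∈ ball x r → (∀ k, |u k y| ≤ C ∧ |w k y| ≤ C) ∧
      |f y| ≤ C ∧ |g y| ≤ C := fun x r => by
    obtain ⟨C, hC⟩ := hb x r
    refine ⟨|C|, abs_nonneg C, ?_⟩
    filter_upwards [ae_all_iff.2 hC, h1, h2] with y a1 a2 a3 hy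
    have b : ∀ k, |u k y| ≤ |C| ∧ |w k y| ≤ |C| := fun k =>
      ⟨(a1 k hy).1.trans (le_abs_self C), (a1 k hy).2.trans (le_abs_self C)⟩
    exact ⟨b, le_of_tendsto' a2.abs fun k => (b k).1, le_of_tendsto' a3.abs fun k => (b k).2⟩
  have bu : ∀ k, LocBdd μ (u k) := fun k x r => (hb' x r).imp fun C hC =>
    hC.2.mono fun y hy hy' => ((hy hy').1 k).1
  have bf : LocBdd μ f := fun x r => (hb' x r).imp fun C hC =>
    hC.2.mono fun y hy hy' => (hy hy').2.1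
  have bg : LocBdd μ g := fun x r => (hb' x r).imp fun C hC =>
    hC.2.mono fun y hy hy' => (hy hy').2.2
  have ig := D.locInt_of_locBdd mg bg
  obtain ⟨wf, hw, -⟩ := W_of_lim (fun k => (hu k).1) mf (fun x r => by
    obtain ⟨C, hC0, hC⟩ := hb' x r
    have hC' := (ae_restrict_iff' measurableSet_ball).2 hC
    have t := tendsto_lintegral_of_dominated_convergence' (μ := μ.restrict (ball x r))
      (F := fun k y => ‖u k y - f y‖ₑ ^ 2) (f := fun _ => 0) (fun _ => ‖C + C‖ₑ ^ 2)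
      (fun k => (((hu k).1.aesm.sub mf).restrict.enorm).pow_const 2)
      (fun k => hC'.mono fun y hy => ?_) ?_ (ae_restrict_of_ae (h1.mono fun y hy => ?_))
    · simpa using t
    · refine pow_le_pow_left' (enorm_le_iff_norm_le.2 ?_) 2
      rw [Real.norm_of_nonneg (add_nonneg hC0 hC0)]
      exact (norm_sub_le _ _).trans (add_le_add (hy.1 k).1 hy.2.1)
    · rw [lintegral_const, Measure.restrict_apply_univ]
      exact ENNReal.mul_ne_top (ENNReal.pow_ne_top enorm_ne_top) (D.fin x r).ne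
    · have t := ENNReal.Tendsto.pow (n := 2) (tendsto_sub_nhds_zero_iff.2 hy).enorm
      simpa using t) (fun x r => by
    obtain ⟨ζ, z1, -, z3, z4, -⟩ := exists_cutoff_ball x (lt_add_one r)
    obtain ⟨C, hC0, hC⟩ := hb' x (r + 1)
    refine ⟨4 * ∫ y, C ^ 2 * D.G ζ ζ y ∂μ + 2 * ∫ y, ζ y ^ 2 * C ^ 2 ∂μ, fun k => ?_⟩
    have i1 := (bu k).mul_locInt (hu k).1.aesm (hu k).2.1
    refine (ca5_ball (hu k) i1 z1 fun y hy => z3 y (ball_subset_closedBall hy)).trans ?_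
    have a1 : ∫ y, u k y ^ 2 * D.G ζ ζ y ∂μ ≤ ∫ y, C ^ 2 * D.G ζ ζ y ∂μ := by
      refine integral_mono_ae (ca5_int1 (hu k).1 z1) ((G_lipB_int (ca5_W z1) z1).const_mul _) ?_
      filter_upwards [hC, G_nonneg (D := D) (ca5_W z1), G_level (D := D) (ca5_W z1) (ca5_W z1) 0]
        with y b1 b2 b3
      by_cases hy : y ∈ ball x (r + 1)
      · exact mul_le_mul_of_nonneg_right (sq_le_sq' (abs_le.1 ((b1 hy).1 k).1).1
          (abs_le.1 ((b1 hy).1 k).1).2) b2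
      · simp only [b3 (z4 y hy), mul_zero, le_refl]
    have a2 : -∫ y, ζ y ^ 2 * (u k y * w k y) ∂μ ≤ ∫ y, ζ y ^ 2 * C ^ 2 ∂μ := by
      rw [← integral_neg]
      refine integral_mono_ae (ca5_int2 i1 z1).neg
        ((D.lipB_memLp z1).integrable_sq.mul_const _) (hC.mono fun y b1 => ?_)
      by_cases hy : y ∈ ball x (r + 1)
      · have b2 : |u k y * w k y| ≤ C ^ 2 := by
          rw [abs_mul, sq]
          exact mul_le_mul ((b1 hy).1 k).1 ((b1 hy).1 k).2 (abs_nonneg _) hC0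
        have := mul_le_mul_of_nonneg_left (abs_le.1 b2).1 (sq_nonneg (ζ y))
        simp only
        linarith
      · simp [z4 y hy]
    linarith)
  have hl : D.Lap f g := ⟨wf, ig, fun φ hφ => by
    rcases isEmpty_or_nonempty X with hX | ⟨⟨x⟩⟩
    · simp [integral_of_isEmpty]
    obtain ⟨R, -, hR⟩ := hφ.exists_ball x
    obtain ⟨ζ, z1, -, z3, -⟩ := exists_cutoff_ball x (lt_add_one R)
    obtain ⟨C, hC0, hC⟩ := hb' x R
    have e : ∀ v, D.W v → ∫ y, ζ y * D.G v φ y ∂μ = ∫ y, D.G v φ y ∂μ := fun v hv =>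
      integral_congr_ae ((ca5_level hv (ca5_W hφ) 0).mono fun y hy => by
        by_cases hy' : y ∈ ball x R
        · simp only [z3 y (ball_subset_closedBall hy'), one_mul]
        · simp only [hy (hR y hy'), mul_zero])
    have t1 := hw φ ζ (ca5_W hφ) z1.continuous.aestronglyMeasurable z1.bdd z1.2
    have t2 : Tendsto (fun k => ∫ y, w k y * φ y ∂μ) atTop (𝓝 (∫ y, g y * φ y ∂μ)) := by
      refine tendsto_integral_of_dominated_convergence (fun y => C * ‖φ y‖)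
        (fun k => ((hu k).2.1.mul_lipB hφ).1) ((D.lipB_int hφ).norm.const_mul C)
        (fun k => hC.mono fun y hy => ?_) (h2.mono fun y hy => hy.mul_const _)
      by_cases hy' : y ∈ ball x R
      · rw [norm_mul]
        exact mul_le_mul_of_nonneg_right ((hy hy').1 k).2 (norm_nonneg _)
      · simp [hR y hy']
    rw [e f wf] at t1
    refine tendsto_nhds_unique t1 (t2.neg.congr fun k => ?_)
    rw [e _ (hu k).1, (hu k).2.2 φ hφ]⟩
  refine ⟨hl, fun x r => ?_⟩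
  obtain ⟨ζ, z1, -, z3, z4, -⟩ := exists_cutoff_ball x (lt_add_one r)
  obtain ⟨C, hC0, hC⟩ := hb' x (r + 1)
  have hk : ∀ k, D.Lap (u k - f) (w k - g) := fun k => (hu k).sub hl
  have i1 : ∀ k, LocInt μ fun y => (u k - f) y * (w k - g) y := fun k => by
    have b : LocBdd μ (u k - f) := fun x r => by
      obtain ⟨C, -, hC⟩ := hb' x r
      exact ⟨C + C, hC.mono fun y hy hy' =>
        (abs_sub _ _).trans (add_le_add ((hy hy').1 k).1 (hy hy').2.1)⟩
    exact b.mul_locInt (hk k).1.aesm (hk k).2.1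
  have hd : ∀ k, ∀ᵐ y ∂μ, y ∈ ball x (r + 1) →
      |(u k - f) y| ≤ C + C ∧ |(w k - g) y| ≤ C + C := fun k => hC.mono fun y hy hy' =>
    ⟨(abs_sub _ _).trans (add_le_add ((hy hy').1 k).1 (hy hy').2.1),
      (abs_sub _ _).trans (add_le_add ((hy hy').1 k).2 (hy hy').2.2)⟩
  have t1 : Tendsto (fun k => ∫ y, (u k - f) y ^ 2 * D.G ζ ζ y ∂μ) atTop
      (𝓝 (∫ y, (0 : ℝ) ^ 2 * D.G ζ ζ y ∂μ)) := by
    refine tendsto_integral_of_dominated_convergence (fun y => (C + C) ^ 2 * ‖D.G ζ ζ y‖)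
      (fun k => (ca5_int1 (hk k).1 z1).1) ((G_lipB_int (ca5_W z1) z1).norm.const_mul _)
      (fun k => ?_) (h1.mono fun y hy => ((tendsto_sub_nhds_zero_iff.2 hy).pow 2).mul_const _)
    filter_upwards [hd k, G_level (D := D) (ca5_W z1) (ca5_W z1) 0] with y b1 b3
    by_cases hy : y ∈ ball x (r + 1)
    · rw [norm_mul, norm_pow]
      exact mul_le_mul_of_nonneg_right (pow_le_pow_left₀ (norm_nonneg _) (b1 hy).1 2)
        (norm_nonneg _)
    · simp [b3 (z4 y hy)]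
  have t2 : Tendsto (fun k => ∫ y, ζ y ^ 2 * ((u k - f) y * (w k - g) y) ∂μ) atTop
      (𝓝 (∫ y, ζ y ^ 2 * ((0 : ℝ) * 0) ∂μ)) := by
    refine tendsto_integral_of_dominated_convergence (fun y => ζ y ^ 2 * ((C + C) * (C + C)))
      (fun k => (ca5_int2 (i1 k) z1).1) ((D.lipB_memLp z1).integrable_sq.mul_const _)
      (fun k => (hd k).mono fun y b1 => ?_) ((h1.and h2).mono fun y hy =>
        ((tendsto_sub_nhds_zero_iff.2 hy.1).mul (tendsto_sub_nhds_zero_iff.2 hy.2)).const_mul _)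
    by_cases hy : y ∈ ball x (r + 1)
    · rw [norm_mul, norm_mul, Real.norm_of_nonneg (sq_nonneg _)]
      exact mul_le_mul_of_nonneg_left (mul_le_mul (b1 hy).1 (b1 hy).2 (norm_nonneg _)
        (add_nonneg hC0 hC0)) (sq_nonneg _)
    · simp [z4 y hy]
  have t := (t1.const_mul 4).sub (t2.const_mul 2)
  simp only [ne_eq, OfNat.ofNat_ne_zero, not_false_eq_true, zero_pow, zero_mul, mul_zero,
    integral_zero, sub_zero] at t
  refine squeeze_zero (fun k => integral_nonneg_of_ae (ae_restrict_of_ae (G_nonneg (hk k).1)))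
    (fun k => ca5_ball (hk k) (i1 k) z1 fun y hy => z3 y (ball_subset_closedBall hy)) t

/-- Caccioppoli inequality. -/
theorem Lap.cacc {f g ζ : X → ℝ} (h : D.Lap f g) (hζ : LipB ζ)
    (hg : LocInt μ (fun x => f x * g x)) :
    ∫ x, ζ x ^ 2 * D.G f f x ∂μ ≤
      4 * ∫ x, f x ^ 2 * D.G ζ ζ x ∂μ - 2 * ∫ x, ζ x ^ 2 * (f x * g x) ∂μ :=
  ca5_cacc h hζ hg

theorem TF.mem {U : Set X} {φ Lφ : X → ℝ} (h : D.TF U φ Lφ) : φ ∈ D.V := D.lip φ h.lip

theorem TF.mono {U U' : Set X} {φ Lφ : X → ℝ} (h : D.TF U φ Lφ) (hU : U ⊆ U') :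
    D.TF U' φ Lφ := ⟨h.lip, h.supp.trans hU, h.nonneg, h.lap, h.bddL⟩

theorem TF.L_zero {U : Set X} {φ Lφ : X → ℝ} (h : D.TF U φ Lφ) :
    ∀ᵐ x ∂μ, x ∉ tsupport φ → Lφ x = 0 :=
  h.lap.zero_on (isClosed_tsupport φ).isOpen_compl 0
    (Eventually.of_forall fun _ hx => image_eq_zero_of_notMem_tsupport hx)

theorem ca5_tsupp {φ : X → ℝ} (h : LipB φ) (x : X) : ∃ R, tsupport φ ⊆ ball x R :=
  h.2.closure.subset_ball x

theorem TF.L_memLp {U : Set X} {φ Lφ : X → ℝ} (h : D.TF U φ Lφ) :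
    MemLp Lφ 2 μ ∧ Integrable Lφ μ := by
  rcases isEmpty_or_nonempty X with hX | ⟨⟨x⟩⟩
  · simp [Measure.eq_zero_of_isEmpty μ]
  obtain ⟨R, hR⟩ := ca5_tsupp h.lip x
  exact D.memLp_of_bdd h.lap.aesm h.bddL (x := x) (R := R)
    (h.L_zero.mono fun y hy hy' => hy fun h' => hy' (hR h'))

theorem TF.L_integral {U : Set X} {φ Lφ : X → ℝ} (h : D.TF U φ Lφ) : ∫ x, Lφ x ∂μ = 0 := by
  rcases isEmpty_or_nonempty X with hX | ⟨⟨x⟩⟩
  · simp [integral_of_isEmpty]
  obtain ⟨R, -, hR⟩ := h.lip.exists_ball x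
  have e := (h.lap.test_W h.L_memLp.1 (Eventually.of_forall hR) (D.W_const 1)).2.2
  rw [integral_congr_ae ((G_symm h.lap.1 (D.W_const 1)).trans (G_const 1 h.lap.1))] at e
  simpa using e

theorem TF.add {U : Set X} {φ Lφ ψ Lψ : X → ℝ} (h : D.TF U φ Lφ) (h' : D.TF U ψ Lψ) :
    D.TF U (φ + ψ) (Lφ + Lψ) :=
  ⟨h.lip.add h'.lip, (tsupport_add φ ψ).trans (union_subset h.supp h'.supp),
    fun x => add_nonneg (h.nonneg x) (h'.nonneg x), h.lap.add h'.lap, h.bddL.add h'.bddL⟩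

theorem TF.smul {U : Set X} {φ Lφ : X → ℝ} {c : ℝ} (hc : 0 ≤ c) (h : D.TF U φ Lφ) :
    D.TF U (c • φ) (c • Lφ) :=
  ⟨h.lip.smul c, (tsupport_smul_subset_right (fun _ => c) φ).trans h.supp,
    fun x => mul_nonneg hc (h.nonneg x), h.lap.smul c, h.bddL.smul c⟩

/-- Product of a test function with a nonnegative locally Lipschitz function whose Laplacian is
locally bounded. -/
theorem TF.mul {U : Set X} {φ Lφ g Lg : X → ℝ} (h : D.TF U φ Lφ) (hg : D.Lap g Lg)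
    (lg : ∀ x r, ∃ L, LipschitzOnWith L g (ball x r)) (g0 : ∀ x, 0 ≤ g x) (bL : LocBdd μ Lg) :
    D.TF (U ∩ tsupport g) (φ * g) (fun x => φ x * Lg x + g x * Lφ x + 2 * D.G φ g x) := by
  refine ⟨h.lip.mul_loc lg, subset_inter (tsupport_mul_subset_left.trans h.supp)
    tsupport_mul_subset_right, fun x => mul_nonneg (h.nonneg x) (g0 x),
    h.lap.mul hg h.lip.bdd.locBdd (locBdd_of_lip lg), ?_⟩
  rcases isEmpty_or_nonempty X with hX | ⟨⟨x⟩⟩
  · exact ⟨0, Eventually.of_forall fun y => isEmptyElim y⟩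
  obtain ⟨R, hR⟩ := ca5_tsupp h.lip x
  obtain ⟨C, hC⟩ := ((h.lip.bdd.locBdd.mul bL).add ((locBdd_of_lip lg).mul h.bddL.locBdd)) x R
  obtain ⟨A, hA⟩ := h.lip.bddG (D := D)
  obtain ⟨L, hL⟩ := lg x R
  have hG := G_le_lip hg.1 isOpen_ball (g := g) (L := L)
    (fun a ha b hb => hL.dist_le_mul a ha b hb) L.2 (Eventually.of_forall fun _ _ => rfl)
  refine ⟨|C| + 2 * (√A * √((L : ℝ) ^ 2)), ?_⟩
  filter_upwards [hC, hA, hG, G_abs_le h.lap.1 hg.1, h.L_zero, G_level h.lap.1 hg.1 0]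
    with y a1 a2 a3 a4 a5 a6
  by_cases hy : y ∈ ball x R
  · refine (abs_add_le _ _).trans (add_le_add ((a1 hy).trans (le_abs_self C)) ?_)
    rw [abs_mul, abs_two]
    refine mul_le_mul_of_nonneg_left (a4.trans ?_) zero_le_two
    exact mul_le_mul (Real.sqrt_le_sqrt (le_of_abs_le a2)) (Real.sqrt_le_sqrt (a3 hy))
      (Real.sqrt_nonneg _) (Real.sqrt_nonneg _)
  · have h1 : y ∉ tsupport φ := fun h' => hy (hR h')
    have h2 := image_eq_zero_of_notMem_tsupport h1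
    rw [h2, a5 h1, a6 h2]
    simp only [zero_mul, mul_zero, add_zero, abs_zero]
    positivity

end DS

end RC
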