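import Pool.Agent.P.MP_6472e5_gt.ChE
import Pool.Agent.P.MP_6472e5_gt.GH

/-! The Cheeger energy of a double cover. -/

set_option autoImplicit false
set_option linter.unusedSectionVars false

noncomputable section

namespace RC

open MeasureTheory Set Filter Topology Metric

variable {X : Type} [MetricSpace X] [SecondCountableTopology X] [MeasurableSpace X] [BorelSpace X]
  {μ : Measure X}

variable {Y : Type} [MetricSpace Y] [SecondCountableTopology Y] [MeasurableSpace Y] [BorelSpace Y]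
  {μ' : Measure Y}

theorem ch_lipB_comp {T : Y → X} (hL : LipschitzWith 1 T)
    (hB : ∀ {S}, Bornology.IsBounded S → Bornology.IsBounded (T ⁻¹' S)) {u : X → ℝ}
    (hu : LipB u) : LipB (u ∘ T) :=
  ⟨hu.1.elim fun _ h => ⟨_, h.comp hL⟩, hB hu.2⟩

section

variable {T : Y → X} {c : ENNReal} (hT : MeasurePreserving T μ' (c • μ)) {f F : X → ℝ}
include hT

theorem ch_ae {P : X → Prop} (h : ∀ᵐ x ∂μ, P x) : ∀ᵐ a ∂μ', P (T a) :=
  hT.quasiMeasurePreserving.tendsto_ae.eventually (Measure.ae_smul_measure h c)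

theorem ch_n2 (hf : AEStronglyMeasurable f μ) : n2 μ' (f ∘ T) = c.toReal * n2 μ f := by
  have := integral_map (f := fun x => f x ^ 2) hT.aemeasurable
    (hT.map_eq.symm ▸ (hf.pow 2).smul_measure c)
  rw [hT.map_eq, integral_smul_measure] at this
  exact this.symm

variable (hc : c ≠ ⊤)
include hc

theorem ch_memLp (hf : MemLp f 2 μ) : MemLp (f ∘ T) 2 μ' :=
  (hf.smul_measure hc).comp_measurePreserving hT

theorem T2.comp {a : ℕ → X → ℝ} (h : T2 μ a) : T2 μ' fun k => a k ∘ T :=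
  ⟨fun k => ch_memLp hT hc (h.1 k), by
    simpa only [ch_n2 hT (h.1 _).1, mul_zero] using h.2.const_mul c.toReal⟩

theorem Rel.comp (hL : LipschitzWith 1 T)
    (hB : ∀ {S}, Bornology.IsBounded S → Bornology.IsBounded (T ⁻¹' S)) (h : Rel μ f F) :
    Rel μ' (f ∘ T) (F ∘ T) := by
  obtain ⟨h1, h2, u, H, h3, h4, h5⟩ := h
  exact ⟨ch_memLp hT hc h1, ch_memLp hT hc h2, fun k => u k ∘ T, fun k => H k ∘ T,
    fun k => ⟨ch_lipB_comp hL hB (h3 k).1, (ch_ae hT (h3 k).2).mono fun a ha =>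
      (sl_comp (h3 k).1.lip hL a).trans ha⟩, h4.comp hT hc, h5.comp hT hc⟩

end

variable {Γ : Y → Y} {π : Y → X} (hq : IsQuot Γ π)
include hq

theorem ch_near (a : Y) (x : X) : ∃ b, π b = x ∧ dist b a = dist x (π a) := by
  obtain ⟨b, rfl⟩ := hq.surj x
  rcases min_choice (dist b a) (dist b (Γ a)) with h | h
  · exact ⟨b, rfl, by rw [hq.dist_eq, h]⟩
  · exact ⟨Γ b, hq.π_Γ b, by rw [hq.dist_eq, h, hq.dist_Γ]⟩

theorem ch_lipB_desc {w : X → ℝ} (h : LipB (w ∘ π)) : LipB w := by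
  obtain ⟨⟨L, hL⟩, hb⟩ := h
  refine ⟨⟨L, LipschitzWith.of_dist_le_mul fun x y => ?_⟩,
    (hq.lip.isBounded_image hb).subset fun x hx => ?_⟩
  · obtain ⟨a, rfl⟩ := hq.surj y
    obtain ⟨b, rfl, h⟩ := ch_near hq a x
    exact h ▸ hL.dist_le_mul b a
  · obtain ⟨a, rfl⟩ := hq.surj x
    exact ⟨a, hx, rfl⟩

theorem ch_bdd {S : Set Y} (hS : Bornology.IsBounded S) : Bornology.IsBounded (Γ ⁻¹' S) :=
  hq.iso.antilipschitz.isBounded_preimage hS

variable (D : DS μ) (D' : DS μ') (hm : MeasurePreserving π μ' ((2 : ENNReal) • μ))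
  (hi : MeasurePreserving Γ μ' ((1 : ENNReal) • μ')) {h g : Y → ℝ} {f : X → ℝ}
include D' hi

theorem ch_refl (hh : W12 μ' h) : W12 μ' (h ∘ Γ) ∧ grad μ' (h ∘ Γ) =ᵐ[μ'] grad μ' h ∘ Γ := by
  have k : ∀ {h}, W12 μ' h → Rel μ' (h ∘ Γ) (grad μ' h ∘ Γ) := fun hh =>
    (D'.w_rel hh).comp hi ENNReal.one_ne_top hq.iso.lipschitz (ch_bdd hq)
  have k1 := D'.w_of_rel (k hh)
  have k2 := D'.grad_le (k k1)
  rw [show (h ∘ Γ) ∘ Γ = h from funext fun a => congrArg h (hq.invol a)] at k2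
  refine ⟨k1, (D'.grad_le (k hh)).antisymm ((ch_ae hi k2).mono fun a ha => ?_)⟩
  rwa [Function.comp_apply, hq.invol] at ha

include D hm

theorem ch_sym (hh : W12 μ' h) (hs : h ∘ Γ =ᵐ[μ'] h) : ∃ w : ℕ → X → ℝ, (∀ k, LipB (w k)) ∧
    (T2 μ' fun k => w k ∘ π - h) ∧
    ∀ ε, 0 < ε → ∀ᶠ k in atTop, n2 μ (sl (w k)) ≤ n2 μ' (grad μ' h) / 2 + ε := by
  obtain ⟨h1, -, u, h2, h3, h4⟩ := D'.w_spec hh
  have l := fun k => ch_lipB_comp hq.iso.lipschitz (ch_bdd hq) (h2 k)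
  obtain ⟨w, e⟩ : ∃ w : ℕ → X → ℝ, ∀ k, w k ∘ π = (1 / 2 : ℝ) • u k + (1 / 2 : ℝ) • (u k ∘ Γ) :=
    ⟨fun k => ((1 / 2 : ℝ) • u k + (1 / 2 : ℝ) • (u k ∘ Γ)) ∘ Function.surjInv hq.surj,
      fun k => funext fun a => by
        rcases (hq.eq_iff _ _).1 (Function.surjInv_eq hq.surj (π a)) with h | h
        · simp only [Function.comp_apply, h]
        · simp only [Function.comp_apply, h, Pi.add_apply, Pi.smul_apply, hq.invol, add_comm]⟩
  have l1 : ∀ k, LipB (w k ∘ π) := fun k => e k ▸ ((h2 k).smul _).add ((l k).smul _)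
  have l2 := fun k => ch_lipB_desc hq (l1 k)
  refine ⟨w, l2, ((h3.smul (1 / 2)).add ((h3.comp hi ENNReal.one_ne_top).smul (1 / 2))).congr
    fun k => hs.mono fun a ha => ?_, fun ε hε => ?_⟩
  · simp only [e, Pi.add_apply, Pi.smul_apply, Pi.sub_apply, Function.comp_apply, smul_eq_mul]
      at ha ⊢
    rw [ha]
    ring
  · filter_upwards [(h4.n2_lim h1.2.1).eventually (ge_mem_nhds (lt_add_of_pos_right _ hε))]
      with k hk
    have m := D'.sl_memLp (h2 k)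
    have m' := ch_memLp hi ENNReal.one_ne_top m
    have k1 := ch_n2 hm (D.sl_memLp (l2 k)).1
    have k2 := ch_n2 hi m.1
    have k3 := n2_add_le m m'
    have k4 : n2 μ' (sl (w k) ∘ π) ≤ n2 μ' ((1 / 2 : ℝ) • (sl (u k) + sl (u k) ∘ Γ)) :=
      ch_n2_mono ((m.add m').const_smul _) (ae_of_all _ fun a => by
        have k5 := sl_desc (l1 k).lip a (ch_near hq a)
        have k6 := sl_lin (h2 k).lip (l k).lip (1 / 2) (1 / 2) a
        have k7 := sl_comp (h2 k).lip hq.iso.lipschitz a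
        rw [← e, abs_of_pos one_half_pos] at k6
        refine (abs_of_nonneg (sl_nonneg _ _)).trans_le (le_trans ?_ (le_abs_self _))
        simp only [Pi.add_apply, Pi.smul_apply, Function.comp_apply, smul_eq_mul]
        linarith)
    rw [n2_smul] at k4
    simp only [ENNReal.toReal_ofNat, ENNReal.toReal_one] at k1 k2
    linarith

theorem ch_down (hf : MemLp f 2 μ) (hh : W12 μ' (f ∘ π)) :
    W12 μ f ∧ n2 μ (grad μ f) ≤ n2 μ' (grad μ' (f ∘ π)) / 2 := by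
  obtain ⟨w, h1, h2, h3⟩ := ch_sym hq D D' hm hi hh
    (.of_eq (funext fun a => congrArg f (hq.π_Γ a)))
  refine D.w_of_app hf fun ε hε => ?_
  obtain ⟨k, k1, k2⟩ := ((h2.eps hε).and (h3 ε hε)).exists
  have := ch_n2 hm ((D.lipB_memLp (h1 k)).sub hf).1
  rw [ENNReal.toReal_ofNat] at this
  exact ⟨w k, h1 k, by linarith [show n2 μ' ((w k - f) ∘ π) ≤ ε from k1], k2⟩

theorem ch_lift (hf : W12 μ f) : W12 μ' (f ∘ π) ∧ grad μ' (f ∘ π) =ᵐ[μ'] grad μ f ∘ π := by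
  have k := (D.w_rel hf).comp hm ENNReal.ofNat_ne_top hq.lip hq.bounded_preimage
  have k1 := D'.w_of_rel k
  refine ⟨k1, ch_eq_of_le (D'.grad_mem k1) k.2.1 (D'.grad_nonneg k1) (D'.grad_le k) ?_⟩
  rw [ch_n2 hm (D.grad_mem hf).1, ENNReal.toReal_ofNat]
  linarith [(ch_down hq D D' hm hi (D.w_rel hf).1 k1).2]

theorem ch_desc (hh : W12 μ' h) (hs : h ∘ Γ =ᵐ[μ'] h) : ∃ f, W12 μ f ∧ h =ᵐ[μ'] f ∘ π := by
  obtain ⟨w, h1, h2, -⟩ := ch_sym hq D D' hm hi hh hs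
  obtain ⟨σ, -, hσ⟩ := h2.ae
  have m := StronglyMeasurable.limUnder (l := atTop)
    fun k => (h1 (σ k)).continuous.stronglyMeasurable
  have e : h =ᵐ[μ'] (fun x => limUnder atTop fun k => w (σ k) x) ∘ π := hσ.mono fun a ha =>
    (tendsto_sub_nhds_zero_iff.1 ha).limUnder_eq.symm
  have k := (memLp_map_measure_iff m.aestronglyMeasurable hm.aemeasurable).2
    ((D'.w_rel hh).1.ae_eq e)
  rw [hm.map_eq, two_smul] at k
  exact ⟨_, (ch_down hq D D' hm hi (k.mono_measure (Measure.le_add_right le_rfl))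
    (D'.w_congr hh e)).1, e⟩

theorem ch_loc (hh : W12 μ' h) {a : Y} (ha : Γ a ≠ a) :
    ∃ f, W12 μ f ∧ ∀ᵐ b ∂μ', b ∈ ball a (dist (Γ a) a / 4) → h b = f (π b) := by
  have h0 := dist_pos.2 ha
  obtain ⟨χ, c1, c2, c3, c4, -⟩ := exists_cutoff_ball a (r := dist (Γ a) a / 4)
    (R := dist (Γ a) a / 2) (by linarith)
  have k := D'.w_mul hh c1 c2
  obtain ⟨f, h1, h2⟩ := ch_desc hq D D' hm hi (D'.w_add k (ch_refl hq D' hi k).1)
    (.of_eq (funext fun b => by simp only [Function.comp_apply, Pi.add_apply, hq.invol, add_comm]))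
  refine ⟨f, h1, h2.mono fun b hb hab => ?_⟩
  have : χ (Γ b) = 0 := c4 _ fun h => by
    have := dist_triangle (Γ a) (Γ b) a
    rw [hq.iso.dist_eq, dist_comm a] at this
    linarith [mem_ball.1 h, mem_ball.1 hab]
  simpa [this, c3 b (ball_subset_closedBall hab)] using hb

theorem ch_par (hD : IsCh D) (h0 : μ' {a | Γ a = a} = 0) : Par μ' := fun h g hh hg => by
  refine D'.par_of_pt hh hg ?_
  suffices ∀ᵐ b ∂μ', b ∈ {a | Γ a ≠ a} → _ by
    filter_upwards [this, measure_eq_zero_iff_ae_notMem.1 h0] with b h1 h2 using h1 h2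
  refine D'.ae_of_local fun a ha => ⟨_, div_pos (dist_pos.2 ha) four_pos, ?_⟩
  obtain ⟨f, f1, f2⟩ := ch_loc hq D D' hm hi hh ha
  obtain ⟨f', g1, g2⟩ := ch_loc hq D D' hm hi hg ha
  have k : ∀ {h f}, W12 μ' h → W12 μ f →
      (∀ᵐ b ∂μ', b ∈ ball a (dist (Γ a) a / 4) → h b = f (π b)) →
      ∀ᵐ b ∂μ', b ∈ ball a (dist (Γ a) a / 4) → grad μ' h b = grad μ f (π b) := fun hh hf e => by
    obtain ⟨k1, k2⟩ := ch_lift hq D D' hm hi hf
    filter_upwards [D'.grad_loc hh k1 isOpen_ball e, k2] with b h1 h2 hb using (h1 hb).trans h2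
  filter_upwards [k hh f1 f2, k hg g1 g2, k (D'.w_add hh hg) (D.w_add f1 g1) (by
      filter_upwards [f2, g2] with b h1 h2 hb using congrArg₂ (· + ·) (h1 hb) (h2 hb)),
    k (D'.w_sub hh hg) (D.w_sub f1 g1) (by
      filter_upwards [f2, g2] with b h1 h2 hb using congrArg₂ (· - ·) (h1 hb) (h2 hb)),
    ch_ae hm (hD.par_pt f1 g1)] with b h1 h2 h3 h4 h5 hb
  rwa [h1 hb, h2 hb, h3 hb, h4 hb]

end RC
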