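import Pool.Agent.P.MP_6472e5_gt.Defs

/-! The Jordan-von Neumann argument along a filter. -/

set_option autoImplicit false
set_option linter.unusedSectionVars false

noncomputable section

namespace RC

open MeasureTheory Set Filter Topology Metric

variable {V Z : Type} [AddCommGroup V] [Module ℝ V] {l : Filter Z} {S : V → Prop}
  {q : V → Z → ℝ}

/-- Polarisation. -/
def pol (q : V → Z → ℝ) (f g : V) (z : Z) : ℝ := (q (f + g) z - q (f - g) z) / 4

/-- `q` satisfies the parallelogram law on `S` along `l`. -/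
structure JN (l : Filter Z) (S : V → Prop) (q : V → Z → ℝ) : Prop where
  lin : ∀ {f g}, S f → S g → ∀ a b : ℝ, S (a • f + b • g)
  nonneg : ∀ {f}, S f → ∀ᶠ z in l, 0 ≤ q f z
  hom : ∀ {f}, S f → ∀ c : ℝ, ∀ᶠ z in l, q (c • f) z = c ^ 2 * q f z
  par : ∀ {f g}, S f → S g → ∀ᶠ z in l, q (f + g) z + q (f - g) z = 2 * q f z + 2 * q g z

theorem ch_hom [CountableInterFilter l] {a : ℝ → Z → ℝ} {K K' : Z → ℝ}
    (h1 : ∀ s t, ∀ᶠ z in l, a (s + t) z = a s z + a t z)
    (h2 : ∀ t, ∀ᶠ z in l, |a t z| ≤ t ^ 2 * K z + K' z) (c : ℝ) :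
    ∀ᶠ z in l, a c z = c * a 1 z := by
  filter_upwards [eventually_countable_forall.2 fun p : (ℚ × ℚ) × ℚ × ℚ =>
    h1 (p.1.1 + p.1.2 * c) (p.2.1 + p.2.2 * c),
    eventually_countable_forall.2 fun p : ℚ × ℚ => h2 (p.1 + p.2 * c)] with z h1 h2
  let F : ℚ × ℚ →+ ℝ := AddMonoidHom.mk' (fun p => a (p.1 + p.2 * c) z) fun p p' => by
    rw [← h1 (p, p')]
    congr 1
    simp only [Prod.fst_add, Prod.snd_add, Rat.cast_add]
    ring
  have k : ∀ p r : ℚ, a (p + r * c) z = p * a 1 z + r * a c z := fun p r => by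
    have : F (p • (1, 0) + r • (0, 1)) = p • F (1, 0) + r • F (0, 1) := by
      rw [map_add, map_rat_smul, map_rat_smul]
    simpa [F, Rat.smul_def] using this
  have k2 : ∀ n : ℕ, n * |a c z - c * a 1 z| ≤ K' z := fun n => by
    have : ∀ p : ℝ, |p * a 1 z + n * a c z| ≤ (p + n * c) ^ 2 * K z + K' z := fun p =>
      Rat.denseRange_cast.induction_on p (isClosed_le (by fun_prop) (by fun_prop)) fun p => by
        simpa [k p n] using (k p n).symm ▸ h2 (p, n)
    have := this (-(n * c))
    rwa [neg_add_cancel, zero_pow two_ne_zero, zero_mul, zero_add, show -(n * c) * a 1 z +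
      n * a c z = n * (a c z - c * a 1 z) by ring, abs_mul, Nat.abs_cast] at this
  by_contra h
  obtain ⟨n, hn⟩ := exists_nat_gt (K' z / |a c z - c * a 1 z|)
  exact (k2 n).not_gt ((div_lt_iff₀ (abs_pos.2 (sub_ne_zero.2 h))).1 hn)

namespace JN

variable (h : JN l S q) {f f' g g' : V}
include h

theorem add (hf : S f) (hg : S g) : S (f + g) := by simpa using h.lin hf hg 1 1

theorem sub (hf : S f) (hg : S g) : S (f - g) := by
  simpa [sub_eq_add_neg] using h.lin hf hg 1 (-1)

theorem smul (hf : S f) (c : ℝ) : S (c • f) := by simpa using h.lin hf hf c 0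

theorem comm (hf : S f) (hg : S g) : ∀ᶠ z in l, q (f - g) z = q (g - f) z := by
  simpa using h.hom (h.sub hg hf) (-1)

theorem symm (hf : S f) (hg : S g) : ∀ᶠ z in l, pol q f g z = pol q g f z :=
  (h.comm hf hg).mono fun z hz => by rw [pol, pol, hz, add_comm]

theorem self (hf : S f) : ∀ᶠ z in l, pol q f f z = q f z := by
  filter_upwards [h.hom hf 2, h.hom hf 0] with z h1 h2
  rw [pol, ← two_smul ℝ, sub_self, h1, ← zero_smul ℝ f, h2]
  ring

theorem par2 (hf : S f) (hf' : S f') (hg : S g) (hg' : S g') : ∀ᶠ z in l,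
    pol q (f + f') (g + g') z + pol q (f - f') (g - g') z =
      2 * pol q f g z + 2 * pol q f' g' z := by
  filter_upwards [h.par (h.add hf hg) (h.add hf' hg'), h.par (h.sub hf hg) (h.sub hf' hg')]
    with z h1 h2
  rw [add_add_add_comm, show f + g - (f' + g') = f - f' + (g - g') by abel] at h1
  rw [show f - g + (f' - g') = f + f' - (g + g') by abel, sub_sub_sub_comm] at h2
  simp only [pol]
  linarith

theorem pol_add (hf : S f) (hf' : S f') (hg : S g) :
    ∀ᶠ z in l, pol q (f + f') g z = pol q f g z + pol q f' g z := by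
  filter_upwards [h.par (h.add hf hg) hf', h.par (h.add hf' hg) hf, h.par (h.sub hf hg) hf',
    h.par (h.sub hf' hg) hf, h.comm (h.add hf hg) hf', h.comm (h.add hf' hg) hf]
    with z h1 h2 h3 h4 h5 h6
  rw [add_right_comm, h5] at h1
  rw [show f' + g + f = f + f' + g by abel, h6] at h2
  rw [show f - g + f' = f + f' - g by abel, show f - g - f' = f - (f' + g) by abel] at h3
  rw [show f' - g + f = f + f' - g by abel, show f' - g - f = f' - (f + g) by abel] at h4
  simp only [pol]
  linarith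

variable [CountableInterFilter l]

theorem pol_smul (hf : S f) (hg : S g) (c : ℝ) :
    ∀ᶠ z in l, pol q (c • f) g z = c * pol q f g z := by
  have := ch_hom (l := l) (a := fun t => pol q (t • f) g) (K := q f) (K' := q g)
    (fun s t => by simpa only [add_smul] using h.pol_add (h.smul hf s) (h.smul hf t) hg)
    (fun t => by
      filter_upwards [h.par (h.smul hf t) hg, h.hom hf t, h.nonneg (h.add (h.smul hf t) hg),
        h.nonneg (h.sub (h.smul hf t) hg)] with z h1 h2 h3 h4
      rw [pol, ← h2]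
      exact abs_le.2 ⟨by linarith, by linarith⟩) c
  rwa [one_smul] at this

theorem pol_smul' (hf : S f) (hg : S g) (c : ℝ) :
    ∀ᶠ z in l, pol q f (c • g) z = c * pol q f g z := by
  filter_upwards [h.symm hf (h.smul hg c), h.pol_smul hg hf c, h.symm hf hg] with z h1 h2 h3
  rw [h1, h2, h3]

theorem pol_lin (hf : S f) (hf' : S f') (hg : S g) (a b : ℝ) :
    ∀ᶠ z in l, pol q (a • f + b • f') g z = a * pol q f g z + b * pol q f' g z := by
  filter_upwards [h.pol_add (h.smul hf a) (h.smul hf' b) hg, h.pol_smul hf hg a,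
    h.pol_smul hf' hg b] with z h1 h2 h3
  rw [h1, h2, h3]

theorem expand (hf : S f) (hg : S g) (t : ℝ) :
    ∀ᶠ z in l, q (f + t • g) z = q f z + 2 * t * pol q f g z + t ^ 2 * q g z := by
  filter_upwards [h.par hf (h.smul hg t), h.pol_smul' hf hg t, h.hom hg t] with z h1 h2 h3
  rw [pol] at h2
  linarith

end JN

end RC
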