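import Pool.Agent.P.MP_6472e5_gt.ChG
import Pool.Agent.P.MP_6472e5_gt.ChJ

/-! From the integrated parallelogram law to the pointwise one. -/

set_option autoImplicit false
set_option linter.unusedSectionVars false

noncomputable section

namespace RC

open MeasureTheory Set Filter Topology Metric

variable {X : Type} [MetricSpace X] [SecondCountableTopology X] [MeasurableSpace X] [BorelSpace X]
  {μ : Measure X}

/-- The energy as a function on a point. -/
def chE (μ : Measure X) (f : X → ℝ) (_ : Unit) : ℝ := n2 μ (grad μ f)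

/-- The integrated parallelogram law. -/
def Par (μ : Measure X) : Prop := ∀ f g, W12 μ f → W12 μ g →
  n2 μ (grad μ (f + g)) + n2 μ (grad μ (f - g)) = 2 * n2 μ (grad μ f) + 2 * n2 μ (grad μ g)

theorem ch_frozen {u v : X → ℝ} (hu : LipB u) (hv : LipB v) (x : X) :
    Tendsto (sl (u * v - (u x • v + v x • u))) (𝓝 x) (𝓝 0) := by
  obtain ⟨L, hL⟩ := hu.1
  obtain ⟨M, hM⟩ := hv.1
  have t : Continuous fun y => |u y - u x| * M + |v y - v x| * L := by
    have := hu.continuous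
    have := hv.continuous
    fun_prop
  refine squeeze_zero (sl_nonneg _) (fun y => (sl_frozen hu.lip hv.lip _ _ y).trans (add_le_add
    (mul_le_mul_of_nonneg_left (sl_le_lip hM y) (abs_nonneg _))
    (mul_le_mul_of_nonneg_left (sl_le_lip hL y) (abs_nonneg _)))) (t.tendsto' x 0 (by simp))

theorem ch_frozen2 {u v : X → ℝ} (hu : LipB u) (hv : LipB v) {x : X} (a b : ℝ)
    (h1 : Tendsto (sl u) (𝓝 x) (𝓝 0)) (h2 : Tendsto (sl v) (𝓝 x) (𝓝 0)) :
    Tendsto (sl (a • u + b • v)) (𝓝 x) (𝓝 0) :=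
  squeeze_zero (sl_nonneg _) (sl_lin hu.lip hv.lip a b)
    (by simpa using (h1.const_mul |a|).add (h2.const_mul |b|))

theorem ch_pt {W A B C f φ s M : ℝ} (hW : 0 ≤ W) (hA : 0 ≤ A) (hB : 0 ≤ B) (hC : 0 ≤ C)
    (hs : 0 < s) (h1 : W ≤ |1 + s * (φ - f ^ 2)| * A + |s * f| * B) (h2 : C ≤ |f| * A)
    (h3 : f ^ 2 ≤ M) (h4 : |φ - f ^ 2| ≤ M) :
    W ^ 2 ≤ A ^ 2 + s * (2 * (φ * A ^ 2) - C ^ 2 + B ^ 2) +
      s ^ 2 * (2 * (M ^ 2 + M) * (A ^ 2 + B ^ 2)) := by
  have k0 : 0 ≤ M := (sq_nonneg f).trans h3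
  have k1 : |1 + s * (φ - f ^ 2)| ≤ 1 + s * M := (abs_add_le _ _).trans (by
    rw [abs_one, abs_mul, abs_of_pos hs]
    gcongr)
  have k2 : C ^ 2 ≤ f ^ 2 * A ^ 2 := by
    rw [← sq_abs f, ← mul_pow]
    exact pow_le_pow_left₀ hC h2 2
  have k3 : (φ - f ^ 2) ^ 2 ≤ M ^ 2 := sq_le_sq' (abs_le.1 h4).1 (abs_le.1 h4).2
  have k4 : 2 * (|f| * A * B) ≤ f ^ 2 * A ^ 2 + B ^ 2 := by
    rw [← sq_abs f]
    nlinarith [sq_nonneg (|f| * A - B)]
  have k5 : |1 + s * (φ - f ^ 2)| * (2 * (|f| * A * B)) ≤ (1 + s * M) * (f ^ 2 * A ^ 2 + B ^ 2) :=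
    mul_le_mul k1 k4 (by positivity) (by positivity)
  have k6 : (|1 + s * (φ - f ^ 2)| * A + |s * f| * B) ^ 2 = (1 + s * (φ - f ^ 2)) ^ 2 * A ^ 2 +
      s * (|1 + s * (φ - f ^ 2)| * (2 * (|f| * A * B))) + s ^ 2 * (f ^ 2 * B ^ 2) := by
    rw [← sq_abs (1 + _), ← sq_abs f, abs_mul, abs_of_pos hs, sq_abs f]
    rw [add_sq, mul_pow, mul_pow, mul_pow, sq_abs f]
    ring
  have k7 : (φ - f ^ 2) ^ 2 * A ^ 2 + M * (f ^ 2 * A ^ 2 + B ^ 2) + f ^ 2 * B ^ 2 ≤
      2 * (M ^ 2 + M) * (A ^ 2 + B ^ 2) := by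
    have := mul_le_mul_of_nonneg_right k3 (sq_nonneg A)
    have := mul_le_mul_of_nonneg_right h3 (sq_nonneg B)
    have := mul_le_mul_of_nonneg_left (mul_le_mul_of_nonneg_right h3 (sq_nonneg A)) k0
    have := mul_nonneg k0 (sq_nonneg A)
    have := mul_nonneg (sq_nonneg M) (sq_nonneg B)
    nlinarith
  refine (pow_le_pow_left₀ hW h1 2).trans ?_
  rw [k6]
  nlinarith [mul_le_mul_of_nonneg_left k5 hs.le, mul_le_mul_of_nonneg_left k2 hs.le,
    mul_le_mul_of_nonneg_left k7 (sq_nonneg s)]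

namespace DS

variable (D : DS μ) {f g φ : X → ℝ}
include D

theorem jn_int (hp : Par μ) : JN ⊤ (W12 μ) (chE μ) where
  lin := D.w_lin
  nonneg _ := eventually_top.2 fun _ => n2_nonneg _
  hom hf c := eventually_top.2 fun _ => by
    rw [chE, chE, ← sq_abs, ← n2_smul]
    exact n2_congr (D.grad_smul hf c)
  par hf hg := eventually_top.2 fun _ => hp _ _ hf hg

theorem ch_var (hp : Par μ) (hf : LipB f) (hφ : LipB φ) :
    2 * pol (chE μ) f (φ * f) () ≤ 2 * ∫ x, φ x * grad μ f x ^ 2 ∂μ +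
      2 * pol (chE μ) ((1 / 2 : ℝ) • (f * f)) φ () + n2 μ (grad μ φ) := by
  have J := D.jn_int hp
  have l1 := (hf.mul hf).smul (1 / 2)
  have l2 := l1.add hφ
  have l3 := fun x => (hf.mul hf).sub ((hf.smul (f x)).add (hf.smul (f x)))
  have c1 := hf.continuous
  have c2 := hφ.continuous
  have k1 := D.grad_frozen l1 hf hf (a := f) (b := 0) c1 continuous_const fun x => by
    have := ch_frozen2 (l3 x) (l3 x) (1 / 2) 0 (ch_frozen hf hf x) (ch_frozen hf hf x)
    rwa [show (1 / 2 : ℝ) • (f * f - (f x • f + f x • f)) + (0 : ℝ) • (f * f - (f x • f + f x • f))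
      = (1 / 2 : ℝ) • (f * f) - (f x • f + (0 : X → ℝ) x • f) by simp only [Pi.zero_apply]; module]
      at this
  obtain ⟨M1, hM1⟩ := (hf.mul hf).bound
  obtain ⟨M2, hM2⟩ := (hφ.sub (hf.mul hf)).bound
  have i1 := (D.grad_mem (D.w_lipB hf)).integrable_sq
  have i2 := (D.grad_mem (D.w_lipB l2)).integrable_sq
  have i3 := (D.grad_mem (D.w_lipB l1)).integrable_sq
  have i4 := hφ.bdd.mul_integrable c2.aestronglyMeasurable i1
  have e2 := eventually_top.1 (J.expand (D.w_lipB l1) (D.w_lipB hφ) 1) ()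
  rw [one_smul] at e2
  have := ch_small (δ := 1) (a := 2 * ∫ x, φ x * grad μ f x ^ 2 ∂μ -
    chE μ ((1 / 2 : ℝ) • (f * f)) () + chE μ ((1 / 2 : ℝ) • (f * f) + φ) () -
    2 * pol (chE μ) f (φ * f) ()) (b := 2 * (max M1 M2 ^ 2 + max M1 M2) *
      (chE μ f () + chE μ ((1 / 2 : ℝ) • (f * f) + φ) ())) one_pos fun s hs _ => by
    have l4 := hf.add ((hφ.mul hf).smul s)
    have k2 := D.grad_frozen l4 hf l2 (a := fun x => 1 + s * (φ x - f x ^ 2)) (b := fun x => s * f x)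
      (by fun_prop) (by fun_prop) fun x => by
      have := ch_frozen2 ((hφ.mul hf).sub ((hf.smul (φ x)).add (hφ.smul (f x)))) (l3 x) s
        (-(s * f x / 2)) (ch_frozen hφ hf x) (ch_frozen hf hf x)
      rwa [show s • (φ * f - (φ x • f + f x • φ)) + -(s * f x / 2) • (f * f - (f x • f + f x • f))
        = f + s • (φ * f) - ((1 + s * (φ x - f x ^ 2)) • f +
          (s * f x) • ((1 / 2 : ℝ) • (f * f) + φ)) by module] at this
    have k3 := integral_mono_ae (D.grad_mem (D.w_lipB l4)).integrable_sq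
      ((i1.add ((((i4.const_mul 2).sub i3).add i2).const_mul s)).add (((i1.add i2).const_mul
        (2 * (max M1 M2 ^ 2 + max M1 M2))).const_mul (s ^ 2))) (by
      filter_upwards [k1, k2, D.grad_nonneg (D.w_lipB l4), D.grad_nonneg (D.w_lipB hf),
        D.grad_nonneg (D.w_lipB l2), D.grad_nonneg (D.w_lipB l1)] with x h1 h2 h3 h4 h5 h6
      exact ch_pt h3 h4 h5 h6 hs h2 (by simpa using h1)
        (le_max_of_le_left ((le_abs_self _).trans (by simpa [sq] using hM1 x)))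
        (le_max_of_le_right (by simpa [sq] using hM2 x)))
    have e1 := eventually_top.1 (J.expand (D.w_lipB hf) (D.w_lipB (hφ.mul hf)) s) ()
    have := mul_nonneg (sq_nonneg s) (n2_nonneg (μ := μ) (grad μ (φ * f)))
    rw [integral_add' (i1.add ((((i4.const_mul 2).sub i3).add i2).const_mul s))
      (((i1.add i2).const_mul _).const_mul _), integral_add' i1
      ((((i4.const_mul 2).sub i3).add i2).const_mul s), integral_const_mul, integral_const_mul,
      integral_const_mul, integral_add' ((i4.const_mul 2).sub i3) i2, integral_add' i1 i2,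
      integral_sub' (i4.const_mul 2) i3, integral_const_mul] at k3
    simp only [chE, n2] at e1 this ⊢
    linarith
  simp only [chE] at e2 this
  linarith

theorem ch_key (hp : Par μ) (hf : LipB f) (hφ : LipB φ) :
    ∫ x, φ x * grad μ f x ^ 2 ∂μ =
      pol (chE μ) f (φ * f) () - pol (chE μ) ((1 / 2 : ℝ) • (f * f)) φ () := by
  have J := D.jn_int hp
  have k : ∀ t : ℝ, 0 ≤ t * (2 * (∫ x, φ x * grad μ f x ^ 2 ∂μ - (pol (chE μ) f (φ * f) () -
      pol (chE μ) ((1 / 2 : ℝ) • (f * f)) φ ()))) + t ^ 2 * chE μ φ () := fun t => by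
    have := D.ch_var hp hf (hφ.smul t)
    rw [smul_mul_assoc, eventually_top.1 (J.pol_smul' (D.w_lipB hf) (D.w_lipB (hφ.mul hf)) t),
      eventually_top.1 (J.pol_smul' (D.w_lipB ((hf.mul hf).smul _)) (D.w_lipB hφ) t)] at this
    simp only [Pi.smul_apply, smul_eq_mul, mul_assoc, integral_const_mul] at this
    linarith [eventually_top.1 (J.hom (D.w_lipB hφ) t) (),
      show chE μ (t • φ) () = n2 μ (grad μ (t • φ)) from rfl]
  have k1 := ch_small one_pos fun t _ _ => k t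
  have k2 := ch_small (a := -_) one_pos fun t _ _ => (k (-t)).trans_eq (by rw [neg_mul_comm, neg_sq])
  linarith

theorem par_lipB (hp : Par μ) (hf : LipB f) (hg : LipB g) : ∀ᵐ x ∂μ,
    grad μ (f + g) x ^ 2 + grad μ (f - g) x ^ 2 = 2 * grad μ f x ^ 2 + 2 * grad μ g x ^ 2 := by
  have J := D.jn_int hp
  have i : ∀ {f}, LipB f → Integrable (fun x => grad μ f x ^ 2) μ := fun hf =>
    (D.grad_mem (D.w_lipB hf)).integrable_sq
  refine (D.ae_eq_of_test (locInt_of_int ((i (hf.add hg)).add (i (hf.sub hg))))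
    (locInt_of_int (((i hf).const_mul 2).add ((i hg).const_mul 2))) isOpen_univ
    fun φ hφ _ => ?_).mono fun _ h => h trivial
  have j : ∀ {f}, LipB f → Integrable (fun x => φ x * grad μ f x ^ 2) μ := fun hf =>
    hφ.bdd.mul_integrable hφ.continuous.aestronglyMeasurable (i hf)
  have w : ∀ {f}, LipB f → W12 μ (f * f) := fun hf => D.w_lipB (hf.mul hf)
  have k1 := eventually_top.1 (J.par2 (D.w_lipB hf) (D.w_lipB hg) (D.w_lipB (hφ.mul hf))
    (D.w_lipB (hφ.mul hg))) ()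
  have k2 := eventually_top.1 (J.pol_add (D.w_smul (w (hf.add hg)) (1 / 2))
    (D.w_smul (w (hf.sub hg)) (1 / 2)) (D.w_lipB hφ)) ()
  have k3 := eventually_top.1 (J.pol_lin (D.w_smul (w hf) (1 / 2)) (D.w_smul (w hg) (1 / 2))
    (D.w_lipB hφ) 2 2) ()
  rw [show (1 / 2 : ℝ) • ((f + g) * (f + g)) + (1 / 2 : ℝ) • ((f - g) * (f - g)) =
    (2 : ℝ) • (1 / 2 : ℝ) • (f * f) + (2 : ℝ) • (1 / 2 : ℝ) • (g * g) by
      funext x; simp only [Pi.add_apply, Pi.smul_apply, Pi.mul_apply, Pi.sub_apply, smul_eq_mul]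
      ring] at k2
  rw [← mul_add, ← mul_sub] at k1
  simp only [Pi.add_apply, mul_add, mul_left_comm (φ _) 2]
  rw [integral_add (j (hf.add hg)) (j (hf.sub hg)), integral_add ((j hf).const_mul 2)
    ((j hg).const_mul 2), integral_const_mul, integral_const_mul, D.ch_key hp hf hφ,
    D.ch_key hp hg hφ, D.ch_key hp (hf.add hg) hφ, D.ch_key hp (hf.sub hg) hφ]
  linarith

theorem w_dense (hp : Par μ) (hf : W12 μ f) : ∃ u : ℕ → X → ℝ, (∀ k, LipB (u k)) ∧
    (T2 μ fun k => u k - f) ∧ T2 μ fun k => grad μ (u k - f) := by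
  obtain ⟨h1, -, u, h2, h3, h4⟩ := D.w_spec hf
  refine ⟨u, h2, h3, fun k => D.grad_mem (D.w_sub (D.w_lipB (h2 k)) hf),
    tendsto_order.2 ⟨fun a ha => Eventually.of_forall fun k => ha.trans_le (n2_nonneg _),
      fun ε hε => ?_⟩⟩
  have k1 : ∀ᶠ k in atTop, 4 * n2 μ (grad μ f) - ε / 2 < n2 μ (grad μ (u k + f)) := by
    by_contra h
    have := (D.w_lsc (f := (2 : ℝ) • f) (u := fun k => u k + f) (h1.1.const_smul 2)
      (h3.congr fun k => .of_eq (by module)) ((not_eventually.1 h).mono fun k hk =>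
        ⟨D.w_add (D.w_lipB (h2 k)) hf, not_lt.1 hk⟩)).2
    have e := eventually_top.1 ((D.jn_int hp).hom hf 2) ()
    simp only [chE] at e
    linarith
  filter_upwards [k1, (h4.n2_lim h1.2.1).eventually
    (gt_mem_nhds (lt_add_of_pos_right _ (half_pos (half_pos hε))))] with k k2 k3
  have := hp _ _ (D.w_lipB (h2 k)) hf
  have k4 : n2 μ (grad μ (u k)) ≤ n2 μ (sl (u k)) := ch_n2_mono (D.sl_memLp (h2 k)) (by
    filter_upwards [D.grad_le_sl (h2 k), D.grad_nonneg (D.w_lipB (h2 k))] with x h1 h2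
    rw [abs_of_nonneg h2]
    exact h1.trans (le_abs_self _))
  linarith

theorem jn_pt (hp : Par μ) : JN (ae μ) (W12 μ) fun f x => grad μ f x ^ 2 where
  lin := D.w_lin
  nonneg _ := ae_of_all _ fun _ => sq_nonneg _
  hom hf c := (D.grad_smul hf c).mono fun x hx => by rw [hx, mul_pow, sq_abs]
  par {f g} hf hg := by
    obtain ⟨u, u1, -, u2⟩ := D.w_dense hp hf
    obtain ⟨v, v1, -, v2⟩ := D.w_dense hp hg
    obtain ⟨σ, -, hσ⟩ := (u2.add v2).ae
    have k : ∀ a b : ℝ, ∀ᵐ x ∂μ, Tendsto (fun k => grad μ (a • u (σ k) + b • v (σ k)) x) atTop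
        (𝓝 (grad μ (a • f + b • g) x)) := fun a b => by
      have k : ∀ k, ∀ᵐ x ∂μ, ‖grad μ (a • u k + b • v k) x - grad μ (a • f + b • g) x‖ ≤
          (|a| + |b|) * (grad μ (u k - f) + grad μ (v k - g)) x := fun k => by
        have w1 := D.w_sub (D.w_lipB (u1 k)) hf
        have w2 := D.w_sub (D.w_lipB (v1 k)) hg
        filter_upwards [D.grad_sub (D.w_lin (D.w_lipB (u1 k)) (D.w_lipB (v1 k)) a b)
          (D.w_lin hf hg a b), D.grad_lin w1 w2 a b, D.grad_nonneg w1, D.grad_nonneg w2]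
          with x h1 h2 h3 h4
        rw [show a • (u k - f) + b • (v k - g) = a • u k + b • v k - (a • f + b • g) by module]
          at h2
        rw [Pi.add_apply]
        nlinarith [h1.trans h2, mul_nonneg (abs_nonneg a) h4, mul_nonneg (abs_nonneg b) h3,
          Real.norm_eq_abs (grad μ (a • u k + b • v k) x - grad μ (a • f + b • g) x)]
      filter_upwards [hσ, ae_all_iff.2 k] with x h1 h2
      exact tendsto_iff_norm_sub_tendsto_zero.2 (squeeze_zero (fun _ => norm_nonneg _)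
        (fun k => h2 (σ k)) (by simpa using h1.const_mul (|a| + |b|)))
    filter_upwards [k 1 1, k 1 (-1), k 1 0, k 0 1, ae_all_iff.2 fun k => D.par_lipB hp (u1 k) (v1 k)]
      with x h1 h2 h3 h4 h5
    simp only [one_smul, zero_smul, add_zero, zero_add, neg_smul, ← sub_eq_add_neg] at h1 h2 h3 h4
    exact tendsto_nhds_unique (((h1.pow 2).add (h2.pow 2)).congr fun k => h5 (σ k))
      (((h3.pow 2).const_mul 2).add ((h4.pow 2).const_mul 2))

end DS

end RC
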