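import Pool.Agent.P.MP_6472e5_gt.ChD
import Pool.Agent.P.MP_6472e5_gt.Ca3

/-! The Dirichlet structure of the Cheeger energy. -/

set_option autoImplicit false
set_option linter.unusedSectionVars false

noncomputable section

namespace RC

open MeasureTheory Set Filter Topology Metric

variable {X : Type} [MetricSpace X] [SecondCountableTopology X] [MeasurableSpace X] [BorelSpace X]
  {μ : Measure X}

theorem DS.ip_int (D : DS μ) (hp : Par μ) {f : X → ℝ} (hf : W12 μ f) :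
    ∫ x, ip μ f f x ∂μ = n2 μ (grad μ f) :=
  integral_congr_ae ((D.jn_pt hp).self hf)

/-- The Cheeger energy as a Dirichlet structure. -/
def DS.ch (D : DS μ) (hp : Par μ) : DS μ where
  V := {f | W12 μ f}
  Γ := ip μ
  fin := D.fin
  memLp _ hf := (D.w_rel hf).1
  congr _ hf _ h := D.w_congr hf h
  add _ hf _ hg := D.w_add hf hg
  smul c _ hf := D.w_smul hf c
  lip _ := D.w_lipB
  Γ_int _ hf _ hg := ((D.grad_mem (D.w_add hf hg)).integrable_sq.sub
    (D.grad_mem (D.w_sub hf hg)).integrable_sq).div_const 4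
  Γ_congr _ hf _ hg _ h := by
    filter_upwards [D.grad_congr (D.w_add hf hg) (h.add .rfl),
      D.grad_congr (D.w_sub hf hg) (h.sub .rfl)] with x h1 h2
    rw [ip, h1, h2, ip]
  Γ_symm _ hf _ hg := (D.jn_pt hp).symm hf hg
  Γ_add _ hf _ hf' _ hg := (D.jn_pt hp).pol_add hf hf' hg
  Γ_smul c _ hf _ hg := (D.jn_pt hp).pol_smul hf hg c
  Γ_nonneg _ hf := ((D.jn_pt hp).self hf).mono fun _ h => (sq_nonneg _).trans_eq h.symm
  Γ_lip f hf U L hU hL := by
    filter_upwards [(D.jn_pt hp).self (D.w_lipB hf), D.grad_le_sl hf, D.grad_nonneg (D.w_lipB hf)]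
      with x h1 h2 h3 hx
    exact h1.trans_le (pow_le_pow_left₀ h3 (h2.trans (sl_le_lipOn (hU.mem_nhds hx) hL)) 2)
  closed u f hu hf h1 h2 := by
    have m : ∀ k, MemLp (u k) 2 μ := fun k => (D.w_rel (hu k)).1
    have k : ∀ ε, 0 < ε → ∀ᶠ k in atTop, W12 μ (u k - f) ∧ n2 μ (grad μ (u k - f)) ≤ ε :=
      fun ε hε => by
      have := h2.eventually (ge_mem_nhds hε)
      rw [← prod_atTop_atTop_eq] at this
      filter_upwards [this.curry] with k hk
      refine D.w_lsc (u := fun j => u k - u j) ((m k).sub hf)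
        ((T2.smul ⟨fun j => (m j).sub hf, h1⟩ (-1)).congr fun j => .of_eq (by module))
        (hk.mono fun j hj => ⟨D.w_sub (hu k) (hu j), ?_⟩).frequently
      rwa [D.ip_int hp (D.w_sub (hu k) (hu j))] at hj
    obtain ⟨j, hj, -⟩ := (k 1 one_pos).exists
    have hf : W12 μ f := by simpa using D.w_sub (hu j) hj
    refine ⟨hf, (tendsto_order.2 ⟨fun a ha => Eventually.of_forall fun k =>
      ha.trans_le (n2_nonneg _), fun ε hε => (k _ (half_pos hε)).mono fun k hk =>
        hk.2.trans_lt (half_lt_self hε)⟩).congr fun k => (D.ip_int hp (D.w_sub (hu k) hf)).symm⟩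
  dense f hf := by
    obtain ⟨u, h1, h2, h3⟩ := D.w_dense hp hf
    exact ⟨u, h1, h2.2, h3.2.congr fun k => (D.ip_int hp (D.w_sub (D.w_lipB (h1 k)) hf)).symm⟩

theorem DS.isCh (D : DS μ) (hp : Par μ) : IsCh (D.ch hp) where
  mem _ := .rfl
  grad f hf := by
    filter_upwards [D.grad_nonneg hf, DS.G_eq hf hf, (D.jn_pt hp).self hf] with x h1 h2 h3
    exact ⟨h1, (h2.trans h3).symm⟩
  ip _ hf _ hg := (DS.G_eq hf hg).symm

theorem IsCh.par_pt {D : DS μ} (hD : IsCh D) {f g : X → ℝ} (hf : W12 μ f) (hg : W12 μ g) :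
    ∀ᵐ x ∂μ, RC.grad μ (f + g) x ^ 2 + RC.grad μ (f - g) x ^ 2 =
      2 * RC.grad μ f x ^ 2 + 2 * RC.grad μ g x ^ 2 := by
  rw [← hD.mem] at hf hg
  filter_upwards [hD.grad _ hf, hD.grad _ hg, hD.grad _ (D.add _ hf _ hg),
    hD.grad _ (D.sub_mem hf hg), DS.G_add_add (D.W_of_mem hf) (D.W_of_mem hg),
    DS.G_sub_sub (D.W_of_mem hf) (D.W_of_mem hg)] with x h1 h2 h3 h4 h5 h6
  linarith [h1.2, h2.2, h3.2, h4.2]

theorem DS.par_of_pt (D : DS μ) {f g : X → ℝ} (hf : W12 μ f) (hg : W12 μ g)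
    (h : ∀ᵐ x ∂μ, grad μ (f + g) x ^ 2 + grad μ (f - g) x ^ 2 =
      2 * grad μ f x ^ 2 + 2 * grad μ g x ^ 2) :
    n2 μ (grad μ (f + g)) + n2 μ (grad μ (f - g)) =
      2 * n2 μ (grad μ f) + 2 * n2 μ (grad μ g) := by
  have := integral_congr_ae h
  rwa [integral_add (D.grad_mem (D.w_add hf hg)).integrable_sq
    (D.grad_mem (D.w_sub hf hg)).integrable_sq,
    integral_add ((D.grad_mem hf).integrable_sq.const_mul 2)
      ((D.grad_mem hg).integrable_sq.const_mul 2), integral_const_mul, integral_const_mul] at this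

end RC
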