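import Pool.Agent.P.MP_6472e5_gt.ChR

/-! The minimal relaxed slope. -/

set_option autoImplicit false
set_option linter.unusedSectionVars false

noncomputable section

namespace RC

open MeasureTheory Set Filter Topology Metric

variable {X : Type} [MetricSpace X] [SecondCountableTopology X] [MeasurableSpace X] [BorelSpace X]
  {μ : Measure X}

theorem ch_small {a b δ : ℝ} (hδ : 0 < δ) (h : ∀ t, 0 < t → t < δ → 0 ≤ t * a + t ^ 2 * b) :
    0 ≤ a := by
  have t : Tendsto (fun t : ℝ => a + t * b) (𝓝[>] 0) (𝓝 (a + 0 * b)) :=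
    tendsto_nhdsWithin_of_tendsto_nhds (Continuous.tendsto (by fun_prop) 0)
  rw [zero_mul, add_zero] at t
  refine ge_of_tendsto t ?_
  filter_upwards [Ioo_mem_nhdsGT hδ] with t ht
  exact nonneg_of_mul_nonneg_right (by nlinarith [h t ht.1 ht.2]) ht.1

theorem n2_exp {f g : X → ℝ} (hf : MemLp f 2 μ) (hg : MemLp g 2 μ) (t : ℝ) :
    n2 μ (f + t • g) = n2 μ f + (t * (2 * ∫ x, f x * g x ∂μ) + t ^ 2 * n2 μ g) := by
  rw [n2_eq_norm (hf.add (hg.const_smul t)), MemLp.toLp_add hf (hg.const_smul t),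
    MemLp.toLp_const_smul t hg, norm_add_sq_real, inner_smul_right, ca0n_inner, norm_smul, mul_pow, Real.norm_eq_abs, sq_abs,
    n2_eq_norm hf, n2_eq_norm hg]
  ring

theorem ch_eq_of_le {a b : X → ℝ} (ha : MemLp a 2 μ) (hb : MemLp b 2 μ) (h0 : ∀ᵐ x ∂μ, 0 ≤ a x)
    (h : a ≤ᵐ[μ] b) (h1 : n2 μ b ≤ n2 μ a) : a =ᵐ[μ] b := by
  have k : (fun x => a x ^ 2) ≤ᵐ[μ] fun x => b x ^ 2 := by
    filter_upwards [h0, h] with x h0 h using pow_le_pow_left₀ h0 h 2
  filter_upwards [(integral_eq_iff_of_ae_le ha.integrable_sq hb.integrable_sq k).1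
    ((integral_mono_ae ha.integrable_sq hb.integrable_sq k).antisymm h1), h0, h] with x h2 h0 h
  exact (pow_left_inj₀ h0 (h0.trans h) two_ne_zero).1 h2

namespace DS

variable (D : DS μ) {f g F G : X → ℝ}
include D

theorem min_le (hf : Rel μ f F) (hm : ∀ F', Rel μ f F' → n2 μ F ≤ n2 μ F') (hg : Rel μ g G)
    {U : Set X} (hU : IsOpen U) (h : ∀ᵐ x ∂μ, x ∈ U → f x = g x) :
    ∀ᵐ x ∂μ, x ∈ U → F x ≤ G x := by
  have m := hg.2.1.sub hf.2.1
  have := D.ae_le_of_test (f := 0) (g := fun x => F x * (G - F) x)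
    (locInt_of_int (integrable_zero _ _ _))
    (locInt_of_int (integrable_mul_of_memLp hf.2.1 m)) hU fun φ hφ hs h0 => by
      obtain ⟨C, hC⟩ := hφ.bound
      have hw := hφ.bdd.mul_memLp hφ.continuous.aestronglyMeasurable m
      have := ch_small (a := 2 * ∫ x, F x * (φ x * (G - F) x) ∂μ)
        (b := n2 μ fun x => φ x * (G - F) x) (δ := 1 / (|C| + 1)) (by positivity) fun t t0 t1 => by
        have k := (hf.glue hg (hφ.smul t) fun x => ⟨mul_nonneg t0.le (h0 x), by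
          have := (lt_div_iff₀ (by positivity)).1 t1
          have := (le_abs_self _).trans ((hC x).trans (le_abs_self C))
          simp only [Pi.smul_apply, smul_eq_mul]
          nlinarith⟩).congr (f' := f) (G := F + t • fun x => φ x * (G - F) x) (by
            filter_upwards [h] with x hx
            by_cases hxU : x ∈ U
            · simp [hx hxU]
            · simp [image_eq_zero_of_notMem_tsupport (mt (hs ·) hxU)]) (by
            filter_upwards [h] with x hx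
            have : |g x - f x| * sl (t • φ) x = 0 := by
              by_cases hxU : x ∈ U
              · simp [hx hxU]
              · rw [sl_eq_zero (c := 0), mul_zero]
                filter_upwards [notMem_tsupport_iff_eventuallyEq.1 (mt (hs ·) hxU)] with y hy
                simp [hy]
            rw [this]
            simp only [Pi.add_apply, Pi.smul_apply, Pi.sub_apply, smul_eq_mul]
            ring)
        have := hm _ k
        rwa [n2_exp hf.2.1 hw, le_add_iff_nonneg_right] at this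
      simp only [Pi.zero_apply, mul_zero, integral_zero]
      refine le_trans (by linarith) (le_of_eq (integral_congr_ae (ae_of_all _ fun x => ?_)))
      exact mul_left_comm _ _ _
  filter_upwards [this, hf.nonneg, hg.nonneg] with x h1 h2 h3 hx
  have := h1 hx
  simp only [Pi.zero_apply, Pi.sub_apply] at this
  rcases h2.eq_or_lt with h4 | h4
  · rwa [← h4]
  · exact sub_nonneg.1 (nonneg_of_mul_nonneg_right this h4)

theorem exists_grad {C : ℝ} (hf : MemLp f 2 μ) (h : App μ f C) :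
    W12 μ f ∧ Rel μ f (grad μ f) ∧ (∀ c, App μ f c → n2 μ (grad μ f) ≤ c) ∧
      ∃ u : ℕ → X → ℝ, (∀ k, LipB (u k)) ∧ (T2 μ fun k => u k - f) ∧
        T2 μ fun k => sl (u k) - grad μ f := by
  obtain ⟨G, u, h1, h2, h3, h4, h5⟩ := D.exists_min hf h
  have r1 : IsRelaxed μ f G := ⟨hf, h1, u, G,
    fun k => ⟨(h2 k).1, D.lipB_memLp (h2 k), D.sl_memLp (h2 k)⟩,
    (Lp.tendsto_Lp_iff_tendsto_eLpNorm'' _ _ _ _).1 (h3.toLp hf), h1, fun w hw => by
      rw [← ca0n_inner h1 hw]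
      exact ((h4.toLp h1).inner (𝕜 := ℝ) tendsto_const_nhds).congr fun k => ca0n_inner _ hw, .rfl⟩
  have r2 : IsMinSlope μ f (grad μ f) := Classical.epsilon_spec ⟨G, r1, fun G' hG => by
    have := h5 _ (D.rel_of_relaxed hG).app
    rw [n2_eq_eLpNorm h1, n2_eq_eLpNorm hG.2.1] at this
    exact (ENNReal.toReal_le_toReal h1.2.ne hG.2.1.2.ne).1
      (le_of_sq_le_sq this ENNReal.toReal_nonneg)⟩
  have r3 := D.rel_of_relaxed r2.1
  have r4 : n2 μ (grad μ f) ≤ n2 μ G := by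
    rw [n2_eq_eLpNorm h1, n2_eq_eLpNorm r3.2.1]
    exact pow_le_pow_left₀ ENNReal.toReal_nonneg (ENNReal.toReal_mono h1.2.ne (r2.2 _ r1)) 2
  have r5 := D.rel_of_relaxed r1
  have r6 : G =ᵐ[μ] grad μ f := ch_eq_of_le h1 r3.2.1 r5.nonneg
    ((D.min_le r5 (fun _ h => h5 _ h.app) r3 isOpen_univ (ae_of_all _ fun _ _ => rfl)).mono
      fun _ h => h trivial) r4
  exact ⟨⟨G, r1⟩, r3, fun c hc => r4.trans (h5 c hc), u, h2, h3,
    h4.congr fun _ => EventuallyEq.rfl.sub r6⟩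

theorem w_spec (hf : W12 μ f) :
    Rel μ f (grad μ f) ∧ (∀ c, App μ f c → n2 μ (grad μ f) ≤ c) ∧
      ∃ u : ℕ → X → ℝ, (∀ k, LipB (u k)) ∧ (T2 μ fun k => u k - f) ∧
        T2 μ fun k => sl (u k) - grad μ f :=
  hf.elim fun _ h => (D.exists_grad h.1 (D.rel_of_relaxed h).app).2

theorem w_rel (hf : W12 μ f) : Rel μ f (grad μ f) := (D.w_spec hf).1

theorem w_of_rel (h : Rel μ f F) : W12 μ f := (D.exists_grad h.1 h.app).1

theorem w_of_app {C : ℝ} (hf : MemLp f 2 μ) (h : App μ f C) :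
    W12 μ f ∧ n2 μ (grad μ f) ≤ C :=
  ⟨(D.exists_grad hf h).1, (D.exists_grad hf h).2.2.1 C h⟩

theorem grad_mem (hf : W12 μ f) : MemLp (grad μ f) 2 μ := (D.w_rel hf).2.1

theorem grad_nonneg (hf : W12 μ f) : ∀ᵐ x ∂μ, 0 ≤ grad μ f x := (D.w_rel hf).nonneg

theorem grad_le_on (hf : W12 μ f) (hg : Rel μ g G) {U : Set X} (hU : IsOpen U)
    (h : ∀ᵐ x ∂μ, x ∈ U → f x = g x) : ∀ᵐ x ∂μ, x ∈ U → grad μ f x ≤ G x :=
  D.min_le (D.w_rel hf) (fun _ h => (D.w_spec hf).2.1 _ h.app) hg hU h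

theorem grad_le (h : Rel μ f F) : grad μ f ≤ᵐ[μ] F :=
  (D.grad_le_on (D.w_of_rel h) h isOpen_univ (ae_of_all _ fun _ _ => rfl)).mono
    fun _ h => h trivial

theorem grad_loc (hf : W12 μ f) (hg : W12 μ g) {U : Set X} (hU : IsOpen U)
    (h : ∀ᵐ x ∂μ, x ∈ U → f x = g x) : ∀ᵐ x ∂μ, x ∈ U → grad μ f x = grad μ g x := by
  filter_upwards [D.grad_le_on hf (D.w_rel hg) hU h, D.grad_le_on hg (D.w_rel hf) hU
    (h.mono fun _ h hx => (h hx).symm)] with x h1 h2 hx using (h1 hx).antisymm (h2 hx)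

theorem w_congr (hf : W12 μ f) (h : f =ᵐ[μ] g) : W12 μ g := D.w_of_rel ((D.w_rel hf).congr h .rfl)

theorem grad_congr (hf : W12 μ f) (h : f =ᵐ[μ] g) : grad μ f =ᵐ[μ] grad μ g :=
  (D.grad_loc hf (D.w_congr hf h) isOpen_univ (h.mono fun _ h _ => h)).mono fun _ h => h trivial

theorem w_lin (hf : W12 μ f) (hg : W12 μ g) (a b : ℝ) : W12 μ (a • f + b • g) :=
  D.w_of_rel ((D.w_rel hf).lin (D.w_rel hg) a b)

theorem grad_lin (hf : W12 μ f) (hg : W12 μ g) (a b : ℝ) :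
    ∀ᵐ x ∂μ, grad μ (a • f + b • g) x ≤ |a| * grad μ f x + |b| * grad μ g x :=
  D.grad_le ((D.w_rel hf).lin (D.w_rel hg) a b)

theorem w_add (hf : W12 μ f) (hg : W12 μ g) : W12 μ (f + g) := by
  simpa using D.w_lin hf hg 1 1

theorem w_sub (hf : W12 μ f) (hg : W12 μ g) : W12 μ (f - g) := by
  simpa [sub_eq_add_neg] using D.w_lin hf hg 1 (-1)

theorem w_smul (hf : W12 μ f) (c : ℝ) : W12 μ (c • f) := by
  simpa using D.w_lin hf hf c 0

theorem grad_add (hf : W12 μ f) (hg : W12 μ g) :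
    ∀ᵐ x ∂μ, grad μ (f + g) x ≤ grad μ f x + grad μ g x := by
  simpa using D.grad_lin hf hg 1 1

theorem grad_smul (hf : W12 μ f) (c : ℝ) : ∀ᵐ x ∂μ, grad μ (c • f) x = |c| * grad μ f x := by
  have k : ∀ {f} (c : ℝ), W12 μ f → ∀ᵐ x ∂μ, grad μ (c • f) x ≤ |c| * grad μ f x :=
    fun c hf => by simpa using D.grad_lin hf hf c 0
  filter_upwards [k c hf, k c⁻¹ (D.w_smul hf c), D.grad_nonneg (D.w_smul hf c)] with x h1 h2 h3
  refine h1.antisymm ?_
  rcases eq_or_ne c 0 with rfl | hc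
  · simpa using h3
  · rwa [inv_smul_smul₀ hc, abs_inv, le_inv_mul_iff₀ (abs_pos.2 hc)] at h2

theorem grad_sub (hf : W12 μ f) (hg : W12 μ g) :
    ∀ᵐ x ∂μ, |grad μ f x - grad μ g x| ≤ grad μ (f - g) x := by
  filter_upwards [D.grad_add (D.w_sub hf hg) hg, D.grad_lin (D.w_sub hf hg) hf (-1) 1]
    with x h1 h2
  rw [sub_add_cancel] at h1
  rw [show (-1 : ℝ) • (f - g) + (1 : ℝ) • f = g by module, abs_neg, abs_one] at h2
  exact abs_le.2 ⟨by linarith, by linarith⟩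

theorem w_lipB (hf : LipB f) : W12 μ f := D.w_of_rel (D.rel_lipB hf)

theorem grad_le_sl (hf : LipB f) : grad μ f ≤ᵐ[μ] sl f := D.grad_le (D.rel_lipB hf)

theorem w_lsc {u : ℕ → X → ℝ} {C : ℝ} (hf : MemLp f 2 μ) (h : T2 μ fun k => u k - f)
    (hu : ∃ᶠ k in atTop, W12 μ (u k) ∧ n2 μ (grad μ (u k)) ≤ C) :
    W12 μ f ∧ n2 μ (grad μ f) ≤ C := by
  refine D.w_of_app hf fun ε hε => ?_
  obtain ⟨k, ⟨k1, k2⟩, k3⟩ := (hu.and_eventually (h.eps (ε := ε / 4) (by positivity))).exists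
  obtain ⟨v, v1, v2, v3⟩ := (D.w_rel k1).app (ε / 4) (by positivity)
  have := n2_add_le ((D.lipB_memLp v1).sub (h.mem hf k)) (h.1 k)
  rw [sub_add_sub_cancel] at this
  exact ⟨v, v1, by linarith, by linarith⟩

theorem w_mul (hf : W12 μ f) {χ : X → ℝ} (hχ : LipB χ) (h : ∀ x, 0 ≤ χ x ∧ χ x ≤ 1) :
    W12 μ (χ * f) := by
  simpa using D.w_of_rel ((D.rel_lipB LipB.zero).glue (D.w_rel hf) hχ h)

theorem grad_frozen {w u v a b : X → ℝ} (hw : LipB w) (hu : LipB u) (hv : LipB v)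
    (ha : Continuous a) (hb : Continuous b)
    (h : ∀ x, Tendsto (sl (w - (a x • u + b x • v))) (𝓝 x) (𝓝 0)) :
    ∀ᵐ x ∂μ, grad μ w x ≤ |a x| * grad μ u x + |b x| * grad μ v x := by
  have k : ∀ n : ℕ, ∀ᵐ x ∂μ, x ∈ univ → grad μ w x ≤ |a x| * grad μ u x + |b x| * grad μ v x +
      1 / ((n : ℝ) + 1) * (1 + grad μ u x + grad μ v x) := fun n => D.ae_of_local fun x _ => by
    have e := Nat.one_div_pos_of_nat (α := ℝ) (n := n)
    obtain ⟨r, hr, k⟩ := Metric.eventually_nhds_iff_ball.1 (((h x).eventually (ge_mem_nhds e)).and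
      ((ha.abs.continuousAt.eventually (le_mem_nhds (sub_lt_self |a x| e))).and
        (hb.abs.continuousAt.eventually (le_mem_nhds (sub_lt_self |b x| e)))))
    have l := (hu.smul (a x)).add (hv.smul (b x))
    refine ⟨r, hr, ?_⟩
    filter_upwards [D.grad_add (D.w_lipB (hw.sub l)) (D.w_lipB l), D.grad_le_sl (hw.sub l),
      D.grad_lin (D.w_lipB hu) (D.w_lipB hv) (a x) (b x), D.grad_nonneg (D.w_lipB hu),
      D.grad_nonneg (D.w_lipB hv)] with y h1 h2 h3 h4 h5 hy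
    obtain ⟨k1, k2, k3⟩ := k y hy
    rw [sub_add_cancel] at h1
    have := mul_le_mul_of_nonneg_right k2 h4
    have := mul_le_mul_of_nonneg_right k3 h5
    linarith
  filter_upwards [ae_all_iff.2 k] with x hx
  have := ((tendsto_one_div_add_atTop_nhds_zero_nat (𝕜 := ℝ)).mul_const
    (1 + grad μ u x + grad μ v x)).const_add (|a x| * grad μ u x + |b x| * grad μ v x)
  rw [zero_mul, add_zero] at this
  exact ge_of_tendsto' this fun n => hx n trivial

end DS

end RC
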