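import Pool.Agent.P.MP_6472e5_gt.Ca0m

/-! Null sequences in `L²`, the trivial Dirichlet structure and an abstract lemma. -/

set_option autoImplicit false
set_option linter.unusedSectionVars false

noncomputable section

namespace RC

open MeasureTheory Set Filter Topology Metric

theorem ch_min {H : Type} [NormedAddCommGroup H] [InnerProductSpace ℝ H] [CompleteSpace H]
    {S P : ℕ → Set H} (hS : Antitone S)
    (hmid : ∀ j, ∀ a ∈ S j, ∀ b ∈ S j, (1 / 2 : ℝ) • (a + b) ∈ S j)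
    (hP : ∀ j, ∀ a ∈ S j, ∃ b ∈ S j, b ∈ P j ∧ ‖b‖ ≤ ‖a‖) {M : ℝ}
    (hM : ∀ j, ∃ a ∈ S j, ‖a‖ ^ 2 ≤ M) :
    ∃ (g : H) (t : ℕ → H), (∀ j, t j ∈ P j) ∧ Tendsto t atTop (𝓝 g) ∧
      ∀ c, (∀ j ε, 0 < ε → ∃ a ∈ S j, ‖a‖ ^ 2 ≤ c + ε) → ‖g‖ ^ 2 ≤ c := by
  obtain ⟨m, hm⟩ : ∃ m : ℕ → ℝ, ∀ j, m j = ⨅ a : S j, ‖(a : H)‖ ^ 2 := ⟨_, fun _ => rfl⟩
  have h1 : ∀ j, ∀ a ∈ S j, m j ≤ ‖a‖ ^ 2 := fun j a ha => by
    rw [hm]
    exact ciInf_le ⟨0, by rintro _ ⟨a, rfl⟩; positivity⟩ (⟨a, ha⟩ : S j)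
  have h2 : ∀ j, ∃ b ∈ S j, b ∈ P j ∧ ‖b‖ ^ 2 ≤ m j + 1 / ((j : ℝ) + 1) := fun j => by
    have : Nonempty (S j) := (hM j).elim fun a ha => ⟨⟨a, ha.1⟩⟩
    obtain ⟨a, ha⟩ := exists_lt_of_ciInf_lt
      ((hm j).symm.trans_lt (lt_add_of_pos_right _ (Nat.one_div_pos_of_nat (n := j))))
    obtain ⟨b, b1, b2, b3⟩ := hP j a a.2
    exact ⟨b, b1, b2, (pow_le_pow_left₀ (norm_nonneg _) b3 2).trans ha.le⟩
  have h3 : Monotone m := fun i j hij => by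
    have : Nonempty (S j) := (hM j).elim fun a ha => ⟨⟨a, ha.1⟩⟩
    rw [hm j]
    exact le_ciInf fun a => h1 i a (hS hij a.2)
  have h4 : BddAbove (range m) := ⟨M, by
    rintro _ ⟨j, rfl⟩
    exact (hM j).elim fun a ha => (h1 j a ha.1).trans ha.2⟩
  choose t t1 t2 t3 using h2
  have h5 : ∀ i j, i ≤ j → ‖t j‖ ^ 2 ≤ (⨆ j, m j) + 1 / ((i : ℝ) + 1) := fun i j hij =>
    (t3 j).trans (add_le_add (le_ciSup h4 j) (Nat.one_div_le_one_div hij))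
  have h6 := ((tendsto_one_div_add_atTop_nhds_zero_nat (𝕜 := ℝ)).const_add (⨆ j, m j))
  have h7 := ((h6.sub (tendsto_atTop_ciSup h3 h4)).const_mul 4).sqrt
  rw [add_zero] at h6
  rw [add_zero, sub_self, mul_zero, Real.sqrt_zero] at h7
  obtain ⟨g, hg⟩ := cauchySeq_tendsto_of_complete (cauchySeq_of_le_tendsto_0 (s := t) _
    (fun j l i hj hl => by
      have k1 := h1 i _ (hmid i _ (hS hj (t1 j)) _ (hS hl (t1 l)))
      have k2 := parallelogram_law_with_norm ℝ (t j) (t l)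
      rw [norm_smul, mul_pow, Real.norm_eq_abs, sq_abs] at k1
      rw [dist_eq_norm]
      exact Real.le_sqrt_of_sq_le (by linarith [h5 i j hj, h5 i l hl])) h7)
  refine ⟨g, t, t2, hg, fun c hc => (le_of_tendsto_of_tendsto' (hg.norm.pow 2) h6
    fun j => h5 j j le_rfl).trans (ciSup_le fun j => le_of_forall_pos_le_add fun ε hε => ?_)⟩
  exact (hc j ε hε).elim fun a ha => (h1 j a ha.1).trans ha.2

variable {X : Type} [MetricSpace X] [SecondCountableTopology X] [MeasurableSpace X] [BorelSpace X]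
  {μ : Measure X}

/-- Null sequences in `L²`. -/
def T2 (μ : Measure X) (a : ℕ → X → ℝ) : Prop :=
  (∀ k, MemLp (a k) 2 μ) ∧ Tendsto (fun k => n2 μ (a k)) atTop (𝓝 0)

theorem ch_n2_mono {f g : X → ℝ} (hg : MemLp g 2 μ) (h : ∀ᵐ x ∂μ, |f x| ≤ |g x|) :
    n2 μ f ≤ n2 μ g :=
  integral_mono_of_nonneg (ae_of_all _ fun _ => sq_nonneg _) hg.integrable_sq
    (h.mono fun _ hx => sq_le_sq.2 hx)

namespace T2

variable {a b : ℕ → X → ℝ} {f : X → ℝ}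

theorem add (ha : T2 μ a) (hb : T2 μ b) : T2 μ fun k => a k + b k :=
  ⟨fun k => (ha.1 k).add (hb.1 k), squeeze_zero (fun _ => n2_nonneg _)
    (fun k => n2_add_le (ha.1 k) (hb.1 k))
    (by simpa using (ha.2.const_mul 2).add (hb.2.const_mul 2))⟩

theorem smul (ha : T2 μ a) (c : ℝ) : T2 μ fun k => c • a k :=
  ⟨fun k => (ha.1 k).const_smul c, by simpa [n2_smul] using ha.2.const_mul (c ^ 2)⟩

theorem of_le (ha : T2 μ a) (hm : ∀ k, AEStronglyMeasurable (b k) μ)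
    (h : ∀ k, ∀ᵐ x ∂μ, |b k x| ≤ |a k x|) : T2 μ b :=
  ⟨fun k => (ha.1 k).of_le (hm k) (h k), squeeze_zero (fun _ => n2_nonneg _)
    (fun k => ch_n2_mono (ha.1 k) (h k)) ha.2⟩

theorem congr (ha : T2 μ a) (h : ∀ k, a k =ᵐ[μ] b k) : T2 μ b :=
  ha.of_le (fun k => (ha.1 k).1.congr (h k)) fun k => (h k).mono fun x hx => by rw [hx]

theorem abs (ha : T2 μ a) : T2 μ fun k x => |a k x| :=
  ha.of_le (fun k => (ha.1 k).abs.1) fun _ => ae_of_all _ fun _ => (abs_abs _).le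

theorem of_le' (ha : T2 μ a) (hm : ∀ k, AEStronglyMeasurable (b k) μ)
    (h : ∀ k, ∀ᵐ x ∂μ, |b k x| ≤ a k x) : T2 μ b :=
  ha.of_le hm fun k => (h k).mono fun _ hx => hx.trans (le_abs_self _)

theorem of_bound (hm : ∀ k, MemLp (a k) 2 μ) (h : ∀ k, n2 μ (a k) ≤ 1 / ((k : ℝ) + 1)) : T2 μ a :=
  ⟨hm, squeeze_zero (fun _ => n2_nonneg _) h tendsto_one_div_add_atTop_nhds_zero_nat⟩

theorem zero : T2 μ fun _ => 0 := ⟨fun _ => MemLp.zero, by simp [n2]⟩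

theorem div (hf : MemLp f 2 μ) : T2 μ fun k => (1 / ((k : ℝ) + 1)) • f :=
  ⟨fun _ => hf.const_smul _, by
    simpa only [n2_smul, zero_pow two_ne_zero, zero_mul] using
      ((tendsto_one_div_add_atTop_nhds_zero_nat (𝕜 := ℝ)).pow 2).mul_const (n2 μ f)⟩

theorem mem (ha : T2 μ fun k => a k - f) (hf : MemLp f 2 μ) (k : ℕ) : MemLp (a k) 2 μ := by
  simpa using (ha.1 k).add hf

theorem toLp (ha : T2 μ fun k => a k - f) (hf : MemLp f 2 μ) :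
    Tendsto (fun k => (ha.mem hf k).toLp (a k)) atTop (𝓝 (hf.toLp f)) := by
  refine tendsto_iff_norm_sub_tendsto_zero.2 ?_
  have h := ha.2.sqrt
  rw [Real.sqrt_zero] at h
  exact h.congr fun k => by rw [← MemLp.toLp_sub, ← ca0n_sqrt]

theorem of_Lp {t : ℕ → Lp ℝ 2 μ} {g : Lp ℝ 2 μ} (h : Tendsto t atTop (𝓝 g)) :
    T2 μ fun k => ⇑(t k) - ⇑g := by
  refine ⟨fun k => (Lp.memLp _).sub (Lp.memLp _), ?_⟩
  have h1 := (tendsto_iff_norm_sub_tendsto_zero.1 h).pow 2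
  rw [zero_pow two_ne_zero] at h1
  refine h1.congr fun k => ?_
  rw [← n2_congr (Lp.coeFn_sub _ _), n2_eq_norm (Lp.memLp _), Lp.toLp_coeFn]

theorem n2_lim (ha : T2 μ fun k => a k - f) (hf : MemLp f 2 μ) :
    Tendsto (fun k => n2 μ (a k)) atTop (𝓝 (n2 μ f)) := by
  rw [n2_eq_norm hf]
  exact ((ha.toLp hf).norm.pow 2).congr fun k => (n2_eq_norm _).symm

theorem ae (ha : T2 μ a) :
    ∃ φ : ℕ → ℕ, StrictMono φ ∧ ∀ᵐ x ∂μ, Tendsto (fun k => a (φ k) x) atTop (𝓝 0) :=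
  exists_subseq_ae (f := 0) ha.1 MemLp.zero (by simpa using ha.2)

theorem dom (hf : MemLp f 2 μ) (hm : ∀ k, AEStronglyMeasurable (a k) μ)
    (h : ∀ k, ∀ᵐ x ∂μ, |a k x| ≤ |f x|) (h0 : ∀ᵐ x ∂μ, Tendsto (fun k => a k x) atTop (𝓝 0)) :
    T2 μ a :=
  ⟨fun k => hf.of_le (hm k) (h k), by
    simpa [n2] using tendsto_integral_of_dominated_convergence (F := fun k x => a k x ^ 2)
      (f := fun _ => 0) (fun x => f x ^ 2) (fun k => (hm k).pow 2) hf.integrable_sq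
      (fun k => (h k).mono fun x hx => by
        rw [Real.norm_of_nonneg (sq_nonneg _)]
        exact sq_le_sq.2 hx) (h0.mono fun x hx => by simpa using hx.pow 2)⟩

theorem eps (ha : T2 μ a) {ε : ℝ} (hε : 0 < ε) : ∀ᶠ k in atTop, n2 μ (a k) ≤ ε :=
  ha.2.eventually (ge_mem_nhds hε)

end T2

/-- The zero form. -/
def DS.triv (hfin : ∀ x r, μ (ball x r) < ⊤) : DS μ where
  V := {f | MemLp f 2 μ ∧ ∃ u : ℕ → X → ℝ, (∀ k, LipB (u k)) ∧ T2 μ fun k => u k - f}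
  Γ := 0
  fin := hfin
  memLp _ hf := hf.1
  congr _ := fun ⟨h1, u, h2, h3⟩ _ h =>
    ⟨h1.ae_eq h, u, h2, h3.congr fun _ => EventuallyEq.rfl.sub h⟩
  add _ := fun ⟨h1, u, h2, h3⟩ _ ⟨k1, v, k2, k3⟩ =>
    ⟨h1.add k1, fun k => u k + v k, fun k => (h2 k).add (k2 k),
      (h3.add k3).congr fun _ => .of_eq (add_sub_add_comm _ _ _ _).symm⟩
  smul c _ := fun ⟨h1, u, h2, h3⟩ =>
    ⟨h1.const_smul c, fun k => c • u k, fun k => (h2 k).smul c,
      (h3.smul c).congr fun _ => .of_eq (smul_sub _ _ _)⟩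
  lip f hf := by
    refine ⟨memLp_of_int_bdd ?_ hf.bdd, fun _ => f, fun _ => hf,
      T2.zero.congr fun _ => .of_eq (sub_self _).symm⟩
    obtain ⟨C, hC⟩ := hf.bound
    rw [← integrableOn_iff_integrable_of_support_subset (s := Function.support f) subset_rfl]
    refine Measure.integrableOn_of_bounded (M := C) (ne_of_lt ?_)
      hf.continuous.aestronglyMeasurable (Eventually.of_forall fun x => hC x)
    rcases (Function.support f).eq_empty_or_nonempty with h | ⟨x, -⟩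
    · simp [h]
    · exact (hf.2.subset_ball x).elim fun r hr => (measure_mono hr).trans_lt (hfin x r)
  Γ_int _ _ _ _ := integrable_zero _ _ _
  Γ_congr _ _ _ _ _ _ := .rfl
  Γ_symm _ _ _ _ := .rfl
  Γ_add _ _ _ _ _ _ := .of_eq (add_zero _).symm
  Γ_smul _ _ _ _ _ := .of_eq (smul_zero _).symm
  Γ_nonneg _ _ := ae_of_all _ fun _ => le_rfl
  Γ_lip _ _ _ _ _ _ := ae_of_all _ fun _ _ => sq_nonneg _
  closed u f hu hf h _ := by
    have h1 : ∀ k : ℕ, ∃ v, LipB v ∧ MemLp (v - u k) 2 μ ∧ n2 μ (v - u k) ≤ 1 / ((k : ℝ) + 1) :=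
      fun k => by
        obtain ⟨-, v, h2, h3⟩ := hu k
        obtain ⟨j, hj⟩ := (h3.eps Nat.one_div_pos_of_nat).exists
        exact ⟨v j, h2 j, h3.1 j, hj⟩
    choose v h2 h3 h4 using h1
    exact ⟨⟨hf, v, h2, ((T2.of_bound h3 h4).add ⟨fun k => (hu k).1.sub hf, h⟩).congr
      fun _ => .of_eq (sub_add_sub_cancel _ _ _)⟩, by simp⟩
  dense _ := fun ⟨_, u, h2, h3⟩ => ⟨u, h2, h3.2, by simp⟩

end RC
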