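import Pool.Agent.P.MP_6472e5_gt.ChS
import Pool.Agent.P.MP_6472e5_gt.ChT

/-! Relaxed slopes through strong approximation. -/

set_option autoImplicit false
set_option linter.unusedSectionVars false

noncomputable section

namespace RC

open MeasureTheory Set Filter Topology Metric

variable {X : Type} [MetricSpace X] [SecondCountableTopology X] [MeasurableSpace X] [BorelSpace X]
  {μ : Measure X}

/-- `G` is a strong limit of upper bounds for the slopes of approximations of `f`. -/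
def Rel (μ : Measure X) (f G : X → ℝ) : Prop :=
  MemLp f 2 μ ∧ MemLp G 2 μ ∧ ∃ u H : ℕ → X → ℝ, (∀ k, LipB (u k) ∧ sl (u k) ≤ᵐ[μ] H k) ∧
    (T2 μ fun k => u k - f) ∧ T2 μ fun k => H k - G

/-- `f` has approximations whose slopes have energy almost `C`. -/
def App (μ : Measure X) (f : X → ℝ) (C : ℝ) : Prop :=
  ∀ ε, 0 < ε → ∃ u, LipB u ∧ n2 μ (u - f) ≤ ε ∧ n2 μ (sl u) ≤ C + ε

theorem LipB.lip {u : X → ℝ} (h : LipB u) : Lip u := h.1

theorem DS.sl_memLp (D : DS μ) {u : X → ℝ} (h : LipB u) : MemLp (sl u) 2 μ := by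
  obtain ⟨L, hL⟩ := h.1
  rcases isEmpty_or_nonempty X with hX | ⟨⟨x⟩⟩
  · exact MemLp.zero.ae_eq (.of_eq (Subsingleton.elim _ _))
  obtain ⟨R, -, hR⟩ := h.exists_ball x
  refine (D.memLp_of_bdd h.lip.measurable_sl.aestronglyMeasurable ⟨L, ae_of_all _ fun y => ?_⟩
    (x := x) (R := R + 1) (ae_of_all _ fun y hy => sl_eq_zero (c := 0) ?_)).1
  · rw [abs_of_nonneg (sl_nonneg _ _)]
    exact sl_le_lip hL y
  · filter_upwards [isClosed_closedBall.isOpen_compl.mem_nhds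
      (mt (closedBall_subset_ball (lt_add_one R) ·) hy)] with z hz
    exact hR z fun h => hz (ball_subset_closedBall h)

theorem DS.rel_lipB (D : DS μ) {u : X → ℝ} (h : LipB u) : Rel μ u (sl u) :=
  ⟨D.lipB_memLp h, D.sl_memLp h, fun _ => u, fun _ => sl u, fun _ => ⟨h, .rfl⟩,
    T2.zero.congr fun _ => .of_eq (sub_self _).symm, T2.zero.congr fun _ => .of_eq (sub_self _).symm⟩

namespace Rel

variable {f g F G : X → ℝ}

theorem congr {f' : X → ℝ} (h : Rel μ f F) (h1 : f =ᵐ[μ] f') (h2 : F =ᵐ[μ] G) : Rel μ f' G := by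
  obtain ⟨a, b, u, H, c, d, e⟩ := h
  exact ⟨a.ae_eq h1, b.ae_eq h2, u, H, c, d.congr fun _ => EventuallyEq.rfl.sub h1,
    e.congr fun _ => EventuallyEq.rfl.sub h2⟩

theorem mono (h : Rel μ f F) (h1 : F ≤ᵐ[μ] G) (h2 : MemLp G 2 μ) : Rel μ f G := by
  obtain ⟨a, -, u, H, c, d, e⟩ := h
  refine ⟨a, h2, u, fun k => H k + (G - F), fun k => ⟨(c k).1, ?_⟩, d,
    e.congr fun _ => .of_eq (by ring)⟩
  filter_upwards [(c k).2, h1] with x h3 h4
  exact h3.trans (le_add_of_nonneg_right (sub_nonneg.2 h4))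

theorem lin (hf : Rel μ f F) (hg : Rel μ g G) (a b : ℝ) :
    Rel μ (a • f + b • g) (|a| • F + |b| • G) := by
  obtain ⟨a1, a2, u, H, a3, a4, a5⟩ := hf
  obtain ⟨b1, b2, v, K, b3, b4, b5⟩ := hg
  refine ⟨(a1.const_smul a).add (b1.const_smul b), (a2.const_smul _).add (b2.const_smul _),
    fun k => a • u k + b • v k, fun k => |a| • H k + |b| • K k,
    fun k => ⟨((a3 k).1.smul a).add ((b3 k).1.smul b), ?_⟩,
    ((a4.smul a).add (b4.smul b)).congr fun _ => .of_eq (by module),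
    ((a5.smul |a|).add (b5.smul |b|)).congr fun _ => .of_eq (by module)⟩
  filter_upwards [(a3 k).2, (b3 k).2] with x h1 h2
  exact (sl_lin (a3 k).1.lip (b3 k).1.lip a b x).trans (add_le_add
    (mul_le_mul_of_nonneg_left h1 (abs_nonneg _)) (mul_le_mul_of_nonneg_left h2 (abs_nonneg _)))

theorem nonneg (h : Rel μ f F) : ∀ᵐ x ∂μ, 0 ≤ F x := by
  obtain ⟨-, -, u, H, c, -, e⟩ := h
  obtain ⟨φ, -, h⟩ := e.ae
  filter_upwards [h, ae_all_iff.2 fun k => (c k).2] with x h1 h2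
  have := le_of_tendsto' h1.neg (b := F x) fun k => by
    have := (sl_nonneg _ x).trans (h2 (φ k))
    simp only [Pi.sub_apply]
    linarith
  simpa using this

theorem closed {f' F' : ℕ → X → ℝ} (h : ∀ k, Rel μ (f' k) (F' k)) (hf : MemLp f 2 μ)
    (hF : MemLp F 2 μ) (h1 : T2 μ fun k => f' k - f) (h2 : T2 μ fun k => F' k - F) :
    Rel μ f F := by
  have k : ∀ k : ℕ, ∃ u H, (LipB u ∧ sl u ≤ᵐ[μ] H) ∧
      (MemLp (u - f' k) 2 μ ∧ n2 μ (u - f' k) ≤ 1 / ((k : ℝ) + 1)) ∧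
      MemLp (H - F' k) 2 μ ∧ n2 μ (H - F' k) ≤ 1 / ((k : ℝ) + 1) := fun k => by
    obtain ⟨-, -, u, H, c, d, e⟩ := h k
    obtain ⟨j, j1, j2⟩ := ((d.eps Nat.one_div_pos_of_nat).and (e.eps Nat.one_div_pos_of_nat)).exists
    exact ⟨u j, H j, c j, ⟨d.1 j, j1⟩, e.1 j, j2⟩
  choose u H c d e using k
  exact ⟨hf, hF, u, H, c, ((T2.of_bound (fun k => (d k).1) fun k => (d k).2).add h1).congr
      fun _ => .of_eq (sub_add_sub_cancel _ _ _),
    ((T2.of_bound (fun k => (e k).1) fun k => (e k).2).add h2).congr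
      fun _ => .of_eq (sub_add_sub_cancel _ _ _)⟩

theorem app (h : Rel μ f F) : App μ f (n2 μ F) := by
  obtain ⟨-, b, u, H, c, d, e⟩ := h
  intro ε hε
  obtain ⟨j, j1, j2⟩ := ((d.eps hε).and
    ((e.n2_lim b).eventually (ge_mem_nhds (lt_add_of_pos_right _ hε)))).exists
  refine ⟨u j, (c j).1, j1, (ch_n2_mono (e.mem b j) ((c j).2.mono fun x hx => ?_)).trans j2⟩
  rw [abs_of_nonneg (sl_nonneg _ _)]
  exact hx.trans (le_abs_self _)

theorem glue (hf : Rel μ f F) (hg : Rel μ g G) {χ : X → ℝ} (hχ : LipB χ)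
    (h01 : ∀ x, 0 ≤ χ x ∧ χ x ≤ 1) :
    Rel μ (f + χ * (g - f)) (fun x => (1 - χ x) * F x + χ x * G x + |g x - f x| * sl χ x) := by
  obtain ⟨a1, a2, u, H, a3, a4, a5⟩ := hf
  obtain ⟨b1, b2, v, K, b3, b4, b5⟩ := hg
  obtain ⟨L, hL⟩ := hχ.1
  have m1 : AEStronglyMeasurable χ μ := hχ.continuous.aestronglyMeasurable
  have m2 : AEStronglyMeasurable (fun x => 1 - χ x) μ := aestronglyMeasurable_const.sub m1
  have m3 : AEStronglyMeasurable (sl χ) μ := hχ.lip.measurable_sl.aestronglyMeasurable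
  have s1 : ∀ x, |sl χ x| ≤ L := fun x => (abs_of_nonneg (sl_nonneg _ _)).trans_le (sl_le_lip hL x)
  have key : ∀ {f g F G : X → ℝ}, MemLp f 2 μ → MemLp g 2 μ → MemLp F 2 μ → MemLp G 2 μ →
      MemLp (fun x => (1 - χ x) * F x + χ x * G x + |g x - f x| * sl χ x) 2 μ :=
    fun h1 h2 h3 h4 => ((((Bdd.const 1).sub hχ.bdd).mul_memLp m2 h3).add
      (hχ.bdd.mul_memLp m1 h4)).add ((Bdd.mul_memLp ⟨L, ae_of_all _ s1⟩ m3 (h2.sub h1).abs).ae_eq
        (.of_eq (mul_comm _ _)))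
  have u2 := a4.mem a1
  have v2 := b4.mem b1
  refine ⟨a1.add (hχ.bdd.mul_memLp m1 (b1.sub a1)), key a1 b1 a2 b2,
    fun k => u k + χ * (v k - u k),
    fun k x => (1 - χ x) * H k x + χ x * K k x + |v k x - u k x| * sl χ x,
    fun k => ⟨(a3 k).1.add (hχ.mul ((b3 k).1.sub (a3 k).1)), ?_⟩,
    (a4.abs.add b4.abs).of_le' (fun k => ((u2 k).1.add (m1.mul ((v2 k).1.sub (u2 k).1))).sub
      (a1.1.add (m1.mul (b1.1.sub a1.1)))) fun k => ae_of_all _ fun x => ?_,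
    ((a5.abs.add b5.abs).add ((a4.abs.add b4.abs).smul L)).of_le'
      (fun k => (key (u2 k) (v2 k) (a5.mem a2 k) (b5.mem b2 k)).1.sub (key a1 b1 a2 b2).1)
      fun k => ae_of_all _ fun x => ?_⟩
  · filter_upwards [(a3 k).2, (b3 k).2] with x h1 h2
    refine (sl_glue (a3 k).1.lip (b3 k).1.lip hχ.lip x).trans ?_
    have := h01 x
    rw [abs_of_nonneg (sub_nonneg.2 this.2), abs_of_nonneg this.1]
    gcongr
    exacts [sub_nonneg.2 this.2, this.1]
  · have := h01 x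
    simp only [Pi.add_apply, Pi.sub_apply, Pi.mul_apply]
    rw [show u k x + χ x * (v k x - u k x) - (f x + χ x * (g x - f x)) =
      (1 - χ x) * (u k x - f x) + χ x * (v k x - g x) by ring]
    refine (abs_add_le _ _).trans ?_
    rw [abs_mul, abs_mul, abs_of_nonneg (sub_nonneg.2 this.2), abs_of_nonneg this.1]
    exact add_le_add (mul_le_of_le_one_left (abs_nonneg _) (by linarith))
      (mul_le_of_le_one_left (abs_nonneg _) this.2)
  · have := h01 x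
    simp only [Pi.add_apply, Pi.sub_apply, Pi.smul_apply, smul_eq_mul]
    rw [show (1 - χ x) * H k x + χ x * K k x + |v k x - u k x| * sl χ x -
        ((1 - χ x) * F x + χ x * G x + |g x - f x| * sl χ x) =
      (1 - χ x) * (H k x - F x) + χ x * (K k x - G x) +
        sl χ x * (|v k x - u k x| - |g x - f x|) by ring]
    refine (abs_add_three _ _ _).trans ?_
    rw [abs_mul, abs_mul, abs_mul, abs_of_nonneg (sub_nonneg.2 this.2), abs_of_nonneg this.1]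
    refine add_le_add_three (mul_le_of_le_one_left (abs_nonneg _) (by linarith))
      (mul_le_of_le_one_left (abs_nonneg _) this.2)
      (mul_le_mul (s1 x) ((abs_abs_sub_abs_le_abs_sub _ _).trans ?_) (abs_nonneg _) L.2)
    rw [show v k x - u k x - (g x - f x) = v k x - g x - (u k x - f x) by ring, add_comm]
    exact abs_sub _ _

end Rel

theorem DS.rel_lip (D : DS μ) {u : X → ℝ} (h : Lip u) (h1 : MemLp u 2 μ)
    (h2 : MemLp (sl u) 2 μ) : Rel μ u (sl u) := by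
  rcases isEmpty_or_nonempty X with hX | ⟨⟨x⟩⟩
  · exact D.rel_lipB ⟨h, by simp [Set.eq_empty_of_isEmpty]⟩
  choose χ c1 c2 c3 c4 c5 using fun k : ℕ =>
    exists_cutoff_ball x (r := k) (R := k + (k + 1)) (lt_add_of_pos_right _ (Nat.cast_add_one_pos k))
  have h3 : ∀ k, LipB (χ k * u) := fun k =>
    (c1 k).mul_loc fun _ _ => h.imp fun _ h => h.lipschitzOnWith
  refine ⟨h1, h2, fun k => χ k * u, fun k => sl u + (1 / ((k : ℝ) + 1)) • |u|,
    fun k => ⟨h3 k, ae_of_all _ fun y => ?_⟩,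
    T2.dom h1 (fun k => (h3 k).continuous.aestronglyMeasurable.sub h1.1)
      (fun k => ae_of_all _ fun y => ?_) (ae_of_all _ fun y => tendsto_const_nhds.congr' ?_),
    (T2.div h1.abs).congr fun _ => .of_eq (add_sub_cancel_left _ _).symm⟩
  · have k1 := sl_glue LipB.zero.lip h (c1 k).lip y
    have k2 : sl (χ k) y ≤ 1 / ((k : ℝ) + 1) := sl_le Nat.one_div_pos_of_nat.le
      (Eventually.of_forall fun z => (c5 k z y).trans_eq (by ring))
    rw [zero_add, sub_zero, sl_eq_zero (f := 0) (c := 0) (Eventually.of_forall fun _ => rfl),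
      mul_zero, zero_add, abs_of_nonneg (c2 k y).1, Pi.zero_apply, sub_zero] at k1
    exact k1.trans (add_le_add (mul_le_of_le_one_left (sl_nonneg _ _) (c2 k y).2)
      ((mul_le_mul_of_nonneg_left k2 (abs_nonneg _)).trans_eq (mul_comm _ _)))
  · simp only [Pi.sub_apply, Pi.mul_apply]
    rw [← sub_one_mul, abs_mul]
    exact mul_le_of_le_one_left (abs_nonneg _)
      (abs_le.2 ⟨by linarith [(c2 k y).1], by linarith [(c2 k y).2]⟩)
  · filter_upwards [tendsto_natCast_atTop_atTop.eventually_ge_atTop (dist y x)] with k hk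
    simp only [Pi.sub_apply, Pi.mul_apply]
    rw [c3 k y hk, one_mul, sub_self]

theorem DS.rel_of_relaxed (D : DS μ) {f G : X → ℝ} (h : IsRelaxed μ f G) : Rel μ f G := by
  obtain ⟨hf, hG, u, G', hu, h1, hG', h2, h3⟩ := h
  refine Rel.mono ?_ h3 hG
  have c1 : Convex ℝ {z : Lp ℝ 2 μ × Lp ℝ 2 μ | Rel μ z.1 z.2} := fun z hz w hw a b ha hb _ => by
    have := Rel.lin hz hw a b
    rw [abs_of_nonneg ha, abs_of_nonneg hb] at this
    exact this.congr ((Lp.coeFn_add _ _).trans ((Lp.coeFn_smul _ _).add (Lp.coeFn_smul _ _))).symm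
      ((Lp.coeFn_add _ _).trans ((Lp.coeFn_smul _ _).add (Lp.coeFn_smul _ _))).symm
  have c2 : IsClosed {z : Lp ℝ 2 μ × Lp ℝ 2 μ | Rel μ z.1 z.2} :=
    IsSeqClosed.isClosed fun t z ht hz => Rel.closed ht (Lp.memLp _) (Lp.memLp _)
      (T2.of_Lp hz.fst_nhds) (T2.of_Lp hz.snd_nhds)
  by_contra hn
  obtain ⟨l, c, l1, l2⟩ := geometric_hahn_banach_closed_point c1 c2
    (x := (hf.toLp f, hG'.toLp G')) fun h => hn (Rel.congr h hf.coeFn_toLp hG'.coeFn_toLp)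
  obtain ⟨b, hb⟩ := (InnerProductSpace.toDual ℝ (Lp ℝ 2 μ)).surjective
    (l.comp (ContinuousLinearMap.inr ℝ _ _))
  have e : ∀ (p : Lp ℝ 2 μ) {q : X → ℝ} (hq : MemLp q 2 μ),
      l (p, hq.toLp q) = l (p, 0) + ∫ x, q x * b x ∂μ := fun p q hq => by
    have := congrArg (fun l => l (hq.toLp q)) hb
    simp only [InnerProductSpace.toDual_apply_apply, ContinuousLinearMap.comp_apply,
      ContinuousLinearMap.inr_apply] at this
    rw [← ca0n_inner hq (Lp.memLp b), Lp.toLp_coeFn, real_inner_comm, this, ← map_add]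
    simp
  have t1 : Tendsto (fun k => (hu k).2.1.toLp (u k)) atTop (𝓝 (hf.toLp f)) :=
    (Lp.tendsto_Lp_iff_tendsto_eLpNorm'' _ _ _ _).2 h1
  have t2 := ((l.continuous.tendsto _).comp (t1.prodMk_nhds (tendsto_const_nhds (x := 0)))).add
    (h2 b (Lp.memLp b))
  rw [← e _ hG'] at t2
  refine l2.not_ge (le_of_tendsto' t2 fun k => ?_)
  rw [Function.comp_apply, ← e _ (hu k).2.2]
  exact (l1 ((hu k).2.1.toLp _, (hu k).2.2.toLp _)
    ((D.rel_lip (hu k).1 (hu k).2.1 (hu k).2.2).congr (hu k).2.1.coeFn_toLp.symm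
      (hu k).2.2.coeFn_toLp.symm)).le

theorem DS.exists_min (D : DS μ) {f : X → ℝ} {C : ℝ} (hf : MemLp f 2 μ) (h : App μ f C) :
    ∃ (G : X → ℝ) (u : ℕ → X → ℝ), MemLp G 2 μ ∧ (∀ k, LipB (u k)) ∧ (T2 μ fun k => u k - f) ∧
      (T2 μ fun k => sl (u k) - G) ∧ ∀ c, App μ f c → n2 μ G ≤ c := by
  have e : ∀ {u}, (h : LipB u) → ‖(D.sl_memLp h).toLp _‖ ^ 2 = n2 μ (sl u) := fun h =>
    (n2_eq_norm _).symm
  have k : ∀ c, App μ f c → ∀ (j : ℕ) ε, 0 < ε → ∃ a ∈ {s : Lp ℝ 2 μ | ∃ u, LipB u ∧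
      n2 μ (u - f) ≤ 1 / ((j : ℝ) + 1) ∧ sl u ≤ᵐ[μ] s}, ‖a‖ ^ 2 ≤ c + ε := fun c hc j ε hε => by
    obtain ⟨u, h1, h2, h3⟩ := hc _ (lt_min hε (Nat.one_div_pos_of_nat (n := j)))
    exact ⟨_, ⟨u, h1, h2.trans (min_le_right _ _), (D.sl_memLp h1).coeFn_toLp.symm.le⟩,
      (e h1).trans_le (h3.trans (by gcongr; exact min_le_left _ _))⟩
  obtain ⟨g, t, h1, h2, h3⟩ := ch_min
    (S := fun j => {s : Lp ℝ 2 μ | ∃ u, LipB u ∧ n2 μ (u - f) ≤ 1 / ((j : ℝ) + 1) ∧ sl u ≤ᵐ[μ] s})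
    (P := fun j => {s | ∃ u, LipB u ∧ n2 μ (u - f) ≤ 1 / ((j : ℝ) + 1) ∧ sl u =ᵐ[μ] s})
    (fun i j hij s ⟨u, h1, h2, h3⟩ => ⟨u, h1, h2.trans (Nat.one_div_le_one_div hij), h3⟩)
    (fun j a ⟨u, a1, a2, a3⟩ b ⟨v, b1, b2, b3⟩ =>
      ⟨(1 / 2 : ℝ) • u + (1 / 2 : ℝ) • v, (a1.smul _).add (b1.smul _), by
        have := n2_add_le ((D.lipB_memLp a1).sub hf) ((D.lipB_memLp b1).sub hf)
        rw [show (1 / 2 : ℝ) • u + (1 / 2 : ℝ) • v - f = (1 / 2 : ℝ) • (u - f + (v - f)) by module,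
          n2_smul]
        linarith, by
        filter_upwards [a3, b3, Lp.coeFn_smul (1 / 2 : ℝ) (a + b), Lp.coeFn_add a b]
          with x h1 h2 h3 h4
        have := sl_lin a1.lip b1.lip (1 / 2) (1 / 2) x
        rw [abs_of_pos one_half_pos] at this
        rw [h3, Pi.smul_apply, h4, Pi.add_apply, smul_eq_mul]
        linarith⟩)
    (fun j a ⟨u, a1, a2, a3⟩ => ⟨_, ⟨u, a1, a2, (D.sl_memLp a1).coeFn_toLp.symm.le⟩,
      ⟨u, a1, a2, (D.sl_memLp a1).coeFn_toLp.symm⟩, Lp.norm_le_norm_of_ae_le (by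
        filter_upwards [a3, (D.sl_memLp a1).coeFn_toLp] with x h1 h2
        rw [h2, Real.norm_of_nonneg (sl_nonneg _ _)]
        exact h1.trans (le_abs_self _))⟩) fun j => k C h j 1 one_pos
  choose u u1 u2 u3 using h1
  refine ⟨g, u, Lp.memLp g, u1, T2.of_bound (fun k => (D.lipB_memLp (u1 k)).sub hf) u2,
    (T2.of_Lp h2).congr fun k => (u3 k).symm.sub .rfl, fun c hc => ?_⟩
  rw [n2_eq_norm (Lp.memLp g), Lp.toLp_coeFn]
  exact h3 c (k c hc)

end RC
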