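import Pool.Agent.P.MP_6472e5_gt.Ca0

/-! The slope of Lipschitz functions. -/

set_option autoImplicit false
set_option linter.unusedSectionVars false

noncomputable section

namespace RC

open MeasureTheory Set Filter Topology Metric

variable {X Y : Type} [MetricSpace X] [MetricSpace Y]

/-- The slope as a real number. -/
def sl (f : X → ℝ) (x : X) : ℝ := (lipSlope f x).toReal

/-- Lipschitz functions. -/
def Lip (f : X → ℝ) : Prop := ∃ L, LipschitzWith L f

theorem sl_nonneg (f : X → ℝ) (x : X) : 0 ≤ sl f x := ENNReal.toReal_nonneg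

theorem lipSlope_le {f : X → ℝ} {x : X} {c : ℝ}
    (h : ∀ᶠ y in 𝓝 x, |f y - f x| ≤ c * dist y x) : lipSlope f x ≤ ENNReal.ofReal c := by
  refine limsup_le_of_le (by isBoundedDefault) ?_
  filter_upwards [nhdsWithin_le_nhds h, self_mem_nhdsWithin] with y hy hne
  have h0 : 0 < dist y x := dist_pos.2 hne
  rw [edist_dist, edist_dist, ← ENNReal.ofReal_div_of_pos h0]
  exact ENNReal.ofReal_le_ofReal ((div_le_iff₀ h0).2 hy)

theorem sl_le {f : X → ℝ} {x : X} {c : ℝ} (hc : 0 ≤ c)
    (h : ∀ᶠ y in 𝓝 x, |f y - f x| ≤ c * dist y x) : sl f x ≤ c :=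
  ENNReal.toReal_le_of_le_ofReal hc (lipSlope_le h)

theorem sl_le_lipOn {f : X → ℝ} {x : X} {L : NNReal} {U : Set X} (hU : U ∈ 𝓝 x)
    (h : LipschitzOnWith L f U) : sl f x ≤ L :=
  sl_le L.2 (by
    filter_upwards [hU] with y hy using h.dist_le_mul y hy x (mem_of_mem_nhds hU))

theorem sl_le_lip {f : X → ℝ} {L : NNReal} (h : LipschitzWith L f) (x : X) : sl f x ≤ L :=
  sl_le_lipOn univ_mem h.lipschitzOnWith

theorem sl_eq_zero {f : X → ℝ} {x : X} {c : ℝ} (h : ∀ᶠ y in 𝓝 x, f y = c) : sl f x = 0 :=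
  le_antisymm (sl_le le_rfl (by
    filter_upwards [h] with y hy
    rw [hy, h.self_of_nhds, sub_self, abs_zero, zero_mul])) (sl_nonneg f x)

theorem Lip.ev {f : X → ℝ} (hf : Lip f) (x : X) {ε : ℝ} (hε : 0 < ε) :
    ∀ᶠ y in 𝓝 x, |f y - f x| ≤ (sl f x + ε) * dist y x := by
  obtain ⟨L, hL⟩ := hf
  have h1 : lipSlope f x ≠ ⊤ := ne_top_of_le_ne_top ENNReal.ofReal_ne_top
    (lipSlope_le (c := L) (Eventually.of_forall fun y => hL.dist_le_mul y x))
  have h2 : lipSlope f x < ENNReal.ofReal (sl f x + ε) :=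
    (ENNReal.lt_ofReal_iff_toReal_lt h1).2 (lt_add_of_pos_right _ hε)
  rw [← nhdsNE_sup_pure, eventually_sup]
  refine ⟨?_, by simp⟩
  filter_upwards [eventually_lt_of_limsup_lt h2, self_mem_nhdsWithin] with y hy hne
  have h0 : 0 < dist y x := dist_pos.2 hne
  rw [edist_dist, edist_dist, ← ENNReal.ofReal_div_of_pos h0] at hy
  exact (div_le_iff₀ h0).1 ((ENNReal.ofReal_lt_ofReal_iff'.1 hy).1.le)

theorem sl_comb {u v z w : X → ℝ} (hu : Lip u) (hv : Lip v) (hz : Lip z) {x : X}
    {a b c : X → ℝ} (ha : ContinuousAt a x) (hb : ContinuousAt b x) (hc : ContinuousAt c x)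
    (h : ∀ y, w y - w x = a y * (u y - u x) + b y * (v y - v x) + c y * (z y - z x)) :
    sl w x ≤ |a x| * sl u x + |b x| * sl v x + |c x| * sl z x := by
  have t : Tendsto (fun ε : ℝ => (|a x| + ε) * (sl u x + ε) + (|b x| + ε) * (sl v x + ε) +
      (|c x| + ε) * (sl z x + ε)) (𝓝[>] 0) (𝓝 ((|a x| + 0) * (sl u x + 0) +
      (|b x| + 0) * (sl v x + 0) + (|c x| + 0) * (sl z x + 0))) :=
    tendsto_nhdsWithin_of_tendsto_nhds (Continuous.tendsto (by fun_prop) 0)
  simp only [add_zero] at t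
  refine ge_of_tendsto t ?_
  filter_upwards [self_mem_nhdsWithin] with ε (hε : 0 < ε)
  have k : ∀ {a u : X → ℝ}, ContinuousAt a x → Lip u → ∀ᶠ y in 𝓝 x,
      |a y * (u y - u x)| ≤ (|a x| + ε) * (sl u x + ε) * dist y x := fun ha hu => by
    filter_upwards [hu.ev x hε, ha.abs.eventually_le_const (lt_add_of_pos_right _ hε)]
      with y h1 h2
    rw [abs_mul, mul_assoc]
    exact mul_le_mul h2 h1 (abs_nonneg _) (by positivity)
  have := sl_nonneg u x
  have := sl_nonneg v x
  have := sl_nonneg z x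
  refine sl_le (by positivity) ?_
  filter_upwards [k ha hu, k hb hv, k hc hz] with y h1 h2 h3
  rw [h, add_mul, add_mul]
  exact (abs_add_three _ _ _).trans (add_le_add_three h1 h2 h3)

theorem Lip.continuous {f : X → ℝ} (hf : Lip f) : Continuous f := hf.choose_spec.continuous

theorem sl_lin {u v : X → ℝ} (hu : Lip u) (hv : Lip v) (a b : ℝ) (x : X) :
    sl (a • u + b • v) x ≤ |a| * sl u x + |b| * sl v x := by
  simpa using sl_comb (w := a • u + b • v) hu hv hu (x := x) (a := fun _ => a) (b := fun _ => b)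
    (c := fun _ => 0) continuousAt_const continuousAt_const continuousAt_const fun y => by
      simp only [Pi.add_apply, Pi.smul_apply, smul_eq_mul]; ring

theorem sl_glue {u v χ : X → ℝ} (hu : Lip u) (hv : Lip v) (hχ : Lip χ) (x : X) :
    sl (u + χ * (v - u)) x ≤ |1 - χ x| * sl u x + |χ x| * sl v x + |v x - u x| * sl χ x :=
  sl_comb hu hv hχ (a := fun y => 1 - χ y) (b := χ) (c := fun _ => v x - u x)
    (continuous_const.sub hχ.continuous).continuousAt hχ.continuous.continuousAt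
    continuousAt_const fun y => by simp only [Pi.add_apply, Pi.mul_apply, Pi.sub_apply]; ring

theorem sl_frozen {u v : X → ℝ} (hu : Lip u) (hv : Lip v) (a b : ℝ) (x : X) :
    sl (u * v - (a • v + b • u)) x ≤ |u x - a| * sl v x + |v x - b| * sl u x := by
  simpa using sl_comb (w := u * v - (a • v + b • u)) hv hu hu (x := x) (a := fun y => u y - a)
    (b := fun _ => v x - b) (c := fun _ => 0)
    (hu.continuous.sub continuous_const).continuousAt continuousAt_const continuousAt_const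
    fun y => by
      simp only [Pi.add_apply, Pi.mul_apply, Pi.sub_apply, Pi.smul_apply, smul_eq_mul]; ring

theorem sl_comp {u : X → ℝ} (hu : Lip u) {T : Y → X} (hT : LipschitzWith 1 T) (a : Y) :
    sl (u ∘ T) a ≤ sl u (T a) := by
  refine le_of_forall_pos_le_add fun ε hε => ?_
  have h0 : 0 ≤ sl u (T a) + ε := add_nonneg (sl_nonneg _ _) hε.le
  refine sl_le h0 ?_
  filter_upwards [hT.continuous.continuousAt.eventually (hu.ev (T a) hε)] with b hb
  exact hb.trans (mul_le_mul_of_nonneg_left (by simpa using hT.dist_le_mul b a) h0)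

theorem sl_desc {u : X → ℝ} {T : Y → X} (hu : Lip (u ∘ T)) (a : Y)
    (hT : ∀ x, ∃ b, T b = x ∧ dist b a = dist x (T a)) : sl u (T a) ≤ sl (u ∘ T) a := by
  refine le_of_forall_pos_le_add fun ε hε => sl_le (add_nonneg (sl_nonneg _ _) hε.le) ?_
  obtain ⟨r, hr, h⟩ := Metric.eventually_nhds_iff.1 (hu.ev a hε)
  refine Metric.eventually_nhds_iff.2 ⟨r, hr, fun x hx => ?_⟩
  obtain ⟨b, rfl, hb⟩ := hT x
  rw [← hb] at hx ⊢
  exact h hx

variable [MeasurableSpace X] [BorelSpace X]

theorem Lip.measurable_sl {f : X → ℝ} (hf : Lip f) : Measurable (sl f) := by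
  have e : lipSlope f = fun x => ⨅ n : ℕ, ⨆ y, (ball y (1 / ((n : ℝ) + 1)) ∩ {y}ᶜ).indicator
      (fun x => edist (f y) (f x) / edist y x) x := by
    funext x
    rw [lipSlope, (nhdsWithin_hasBasis nhds_basis_ball_inv_nat_succ _).limsup_eq_iInf_iSup]
    refine iInf_congr fun n => ?_
    rw [iInf_true]
    refine iSup_congr fun y => ?_
    by_cases h : y ∈ ball x (1 / ((n : ℝ) + 1)) ∩ {x}ᶜ
    · rw [iSup_pos h, indicator_of_mem (s := ball y _ ∩ {y}ᶜ) ⟨mem_ball_comm.1 h.1, Ne.symm h.2⟩]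
    · rw [iSup_neg h, indicator_of_notMem (s := ball y _ ∩ {y}ᶜ)
        fun h' => h ⟨mem_ball_comm.1 h'.1, Ne.symm h'.2⟩]
      rfl
  refine Measurable.ennreal_toReal (e ▸ Measurable.iInf fun n => LowerSemicontinuous.measurable
    (lowerSemicontinuous_iSup fun y x c hc => ?_))
  have hx := mem_of_indicator_ne_zero (ne_of_gt (zero_le.trans_lt hc))
  beta_reduce at hc ⊢
  rw [indicator_of_mem hx] at hc
  have h1 : ContinuousAt (fun x => edist (f y) (f x) / edist y x) x :=
    ENNReal.Tendsto.div (continuous_const.edist hf.continuous).continuousAt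
      (Or.inr (edist_pos.2 (Ne.symm hx.2)).ne') (continuous_const.edist continuous_id).continuousAt
      (Or.inl (edist_ne_top _ _))
  filter_upwards [h1.eventually (lt_mem_nhds hc),
    (isOpen_ball.inter isOpen_compl_singleton).mem_nhds hx] with z h2 h3
  rwa [indicator_of_mem h3]

end RC
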