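import Pool.Agent.P.MP_6472e5_gt.St

/-! Epsilon regularity, and isometric copies of tangent objects in blow-ups. -/

set_option autoImplicit false
set_option linter.unusedSectionVars false

noncomputable section

namespace RC

open MeasureTheory Set Filter Topology Metric

variable {X : Type} [MetricSpace X] [ProperSpace X] [MeasurableSpace X] [BorelSpace X]
  {μ : Measure X} {D : DS μ} {κ : ℝ} {n : ℕ}

theorem cl_ctr_le (h1 : N1 D n) (hc : ∀ z, D.Ctr n z) (e : X) : D.Θ n e 1 ≤ θ n := by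
  refine le_of_forall_pos_le_add fun ε hε => ?_
  obtain ⟨δ, hδ, hv⟩ := h1.vc e 1 (ε / θ n) (div_pos hε (θ_pos n))
  have h2 := hv e (mem_ball_self one_pos) (δ ^ 2) (by positivity) le_rfl fun b _ => by
    rw [hc b _ (δ * δ ^ 2) (by positivity) (by positivity), sub_self]
    exact hδ.le
  rwa [hc e _ 1 (by positivity) one_pos, add_mul, one_mul, div_mul_cancel₀ _ (θ_pos n).ne'] at h2

theorem cl_euc (h : Model D n) (h1 : N1 D n) {e : X} (hle : ∀ s, 0 < s → D.Θ n e s ≤ θ n) :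
    ∃ a : X → Euc n, Isometry a ∧ Function.Surjective a ∧ a e = 0 := by
  have h2 : ∀ s, 0 < s → D.Θ n e s = θ n := fun s hs =>
    (hle s hs).antisymm ((h1.low e).trans (h.toPreModel.le0 e hs))
  have he : D.Ctr n e := fun s t hs ht => (h2 s hs).trans (h2 t ht).symm
  have hc := fun z => (h.all_ctr h1 he (hle 1 one_pos) z).1
  obtain ⟨k, -, ⟨A⟩⟩ := h.cone.ax e he
  obtain ⟨rfl, -⟩ := h.cone.euc e k A hc
  exact ⟨A.a, A.isometry_a hc⟩

theorem cl_ax_le (h : Model D n) {e : X} {k : ℕ} (A : Ax D n e k) : k ≤ n := by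
  obtain ⟨j, hj, ⟨A'⟩⟩ := h.cone.ax e A.ctr_e
  have h1 : Isometry (A'.a ∘ A.ι) := Isometry.of_dist_eq fun v w => by
    obtain ⟨v', hv⟩ := (A'.ctr _).1 ((A.ctr _).2 ⟨v, rfl⟩)
    obtain ⟨w', hw⟩ := (A'.ctr _).1 ((A.ctr _).2 ⟨w, rfl⟩)
    rw [Function.comp_apply, Function.comp_apply, ← A.iso.dist_eq, ← hv, ← hw, A'.a_ι, A'.a_ι,
      A'.iso.dist_eq]
  have h2 := dimH_mono (subset_univ ((A'.a ∘ A.ι) '' univ))
  rw [h1.dimH_image, Real.dimH_univ_eq_finrank, Real.dimH_univ_eq_finrank,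
    finrank_euclideanSpace_fin, finrank_euclideanSpace_fin] at h2
  exact (Nat.cast_le.1 h2).trans hj

theorem cl_tend : Tendsto (fun i : ℕ => 1 / ((i : ℝ) + 1)) (hyperfilter ℕ) (𝓝 0) :=
  tendsto_one_div_add_atTop_nhds_zero_nat.mono_left Nat.hyperfilter_le_atTop

namespace Blow

variable {U : Ultrafilter ℕ} {y : ℕ → X} {r : ℕ → ℝ} (B : Blow D n U y r)

theorem cl_euc (h : HP D κ n) (h1 : N1 D n) (hle : ∀ s η, 0 < s → 0 < η →
    ∀ᶠ i in (U : Filter ℕ), D.Θ n (y i) (s * r i) ≤ θ n + η) :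
    ∃ a : B.Z → Euc n, Isometry a ∧ Function.Surjective a ∧ a B.e = 0 :=
  RC.cl_euc B.model (B.n1 h h1) fun s hs => le_of_forall_pos_le_add fun η hη =>
    le_of_tendsto (B.bla_Θ B.lf_base hs) (hle s η hs hη)

/-- A space that is approximated along the sequence embeds into the blow-up. -/
theorem cl_embed {W : Type} [MetricSpace W] {w : W} (h : ∀ R ε, 0 < R → 0 < ε →
    ∀ᶠ i in (U : Filter ℕ), ∃ φ, GHApprox (y i) (r i) w R ε φ) :
    ∃ τ : W → B.Z, Isometry τ ∧ τ w = B.e := by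
  obtain ⟨φ, hφ⟩ := exists_diag (ultra_le_atTop B.seq.pos B.seq.lim) B.seq.pos h
  have h1 : ∀ v : W, ∃ a : ℕ → X, (∀ i, a i ∈ ball (y i) ((dist v w + 2) * r i)) ∧
      Tendsto (fun i => φ i (a i)) U (𝓝 v) := fun v => by
    have hR : 0 < dist v w + 2 := by positivity
    have h1 : ∀ i, ∃ a ∈ ball (y i) ((dist v w + 2) * r i), dist v (φ i a) <
        infDist v (φ i '' ball (y i) ((dist v w + 2) * r i)) + r i := fun i => by
      obtain ⟨_, ⟨a, ha, rfl⟩, h⟩ := (infDist_lt_iff (x := v) (Set.Nonempty.image (φ i)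
        ⟨y i, mem_ball_self (mul_pos hR (B.seq.pos i))⟩)).1 (lt_add_of_pos_right _ (B.seq.pos i))
      exact ⟨a, ha, h⟩
    choose a h1 h2 using h1
    refine ⟨a, h1, Metric.tendsto_nhds.2 fun ε hε => ?_⟩
    have h3 : 0 < min (ε / 2) 1 := lt_min (half_pos hε) one_pos
    filter_upwards [hφ _ _ hR h3, B.small (half_pos hε)] with i h4 h5
    obtain ⟨b, hb, h6⟩ := h4.2.2 v (by
      rw [mem_ball]
      linarith [min_le_right (ε / 2) 1])
    have h7 := infDist_le_dist_of_mem (x := v) (mem_image_of_mem (φ i) hb)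
    rw [dist_comm] at h6 ⊢
    linarith [h2 i, min_le_left (ε / 2) 1]
  have h2 : ∀ {a b : ℕ → X} {u v : W} {z z' : B.Z}, B.Lf a z → B.Lf b z' →
      Tendsto (fun i => φ i (a i)) U (𝓝 u) → Tendsto (fun i => φ i (b i)) U (𝓝 v) →
      dist z z' = dist u v := by
    intro a b u v z z' ha hb hu hv
    have h3 : Tendsto (fun i => dist (φ i (a i)) (φ i (b i)) - dist (a i) (b i) / r i) U
        (𝓝 0) := by
      refine Metric.tendsto_nhds.2 fun ε hε => ?_
      have hR : 0 < dist z B.e + dist z' B.e + 1 := by positivity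
      filter_upwards [hφ _ _ hR (half_pos hε),
        ha.mem (R := dist z B.e + dist z' B.e + 1)
          (mem_ball.2 (by linarith [dist_nonneg (x := z') (y := B.e)])),
        hb.mem (R := dist z B.e + dist z' B.e + 1)
          (mem_ball.2 (by linarith [dist_nonneg (x := z) (y := B.e)]))] with i h3 h4 h5
      rw [Real.dist_eq, sub_zero]
      linarith [h3.2.1 _ h4 _ h5]
    exact (sub_eq_zero.1 (tendsto_nhds_unique ((hu.dist hv).sub (ha.dist hb)) h3)).symm
  choose a ha hl using h1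
  choose τ _ hτ using fun v => B.exists_lim (Eventually.of_forall (ha v))
  refine ⟨τ, Isometry.of_dist_eq fun u v => h2 (hτ u) (hτ v) (hl u) (hl v), ?_⟩
  have h3 := h2 (hτ w) B.lf_base (hl w)
    (tendsto_const_nhds.congr' ((hφ 1 1 one_pos one_pos).mono fun _ h => h.1.symm))
  rwa [dist_self, dist_eq_zero] at h3

end Blow

theorem cl_er [HasBlow n] (h : HP D κ n) (h1 : N1 D n) (x₀ : X) (R₀ R : ℝ) {ε : ℝ} (hε : 0 < ε) :
    ∃ δ, 0 < δ ∧ ∀ x ∈ ball x₀ R₀, ∀ r, 0 < r → r ≤ δ ^ 2 →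
      D.Θ n x (r / δ) ≤ (1 + δ) * θ n → ∃ φ, GHApprox x r (0 : Euc n) R ε φ := by
  by_contra hn
  simp only [not_exists, not_and, not_forall, exists_prop] at hn
  have hp : ∀ i : ℕ, 0 < 1 / ((i : ℝ) + 1) := fun i => Nat.one_div_pos_of_nat
  choose y hy r hr hle hΘ hφ using fun i : ℕ => hn _ (hp i)
  have h2 : ∀ i : ℕ, r i / (1 / ((i : ℝ) + 1)) ≤ 1 / ((i : ℝ) + 1) := fun i =>
    (div_le_iff₀ (hp i)).2 ((hle i).trans_eq (sq _))
  obtain ⟨B⟩ := HasBlow.blow D κ h h1.n0 _ y r (seq_of_small hy hr fun i => (hle i).trans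
    (pow_le_of_le_one (hp i).le (div_le_one_of_le₀ (by simp) (by positivity)) two_ne_zero))
  obtain ⟨a, ha, hs, h0⟩ := B.cl_euc h h1 fun s η hs hη => by
    have h3 := (((cl_tend.pow 2).const_mul (n * κ)).rexp).mul
      ((cl_tend.const_add 1).mul_const (θ n))
    simp only [ne_eq, OfNat.ofNat_ne_zero, not_false_eq_true, zero_pow, mul_zero, Real.exp_zero,
      add_zero, one_mul] at h3
    filter_upwards [h3.eventually (Iic_mem_nhds (lt_add_of_pos_right _ hη)),
      hyper_small (inv_pos.2 hs)] with i h4 h5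
    have h6 : s * r i ≤ r i / (1 / ((i : ℝ) + 1)) := by
      rw [div_eq_inv_mul (r i)]
      exact mul_le_mul_of_nonneg_right ((le_inv_comm₀ hs (hp i)).2 h5) (hr i).le
    refine (h.Θ_mono _ _ _ (mul_pos hs (hr i)) h6).trans (le_trans ?_ h4)
    have h7 := h.κ_nonneg
    have h8 := (div_pos (hr i) (hp i)).le
    refine mul_le_mul (Real.exp_le_exp.2 ?_) (hΘ i) (h.Θ_pos _ (div_pos (hr i) (hp i))).le
      (Real.exp_pos _).le
    exact mul_le_mul_of_nonneg_left (pow_le_pow_left₀ h8 (h2 i) 2) (by positivity)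
  obtain ⟨i, φ, h3, -⟩ := (B.chart B.lf_base one_pos le_rfl
    (ghApprox_euc ha hs B.e one_pos (R + ε) le_rfl) hε).exists
  rw [one_mul, add_sub_cancel_right, mul_zero, zero_add] at h3
  exact hφ i φ h3

theorem cl_regular [HasBlow n] (h : HP D κ n) (h1 : N1 D n) {x : X} (hx : D.Θ0 n x ≤ θ n) :
    x ∈ RegularSet X n := by
  intro R ε _ hε
  obtain ⟨δ, hδ, he⟩ := cl_er h h1 x 1 R hε
  obtain ⟨ρ, hρ, hn⟩ := h.Θ_near x (c := (1 + δ) * θ n)
    (hx.trans_lt (lt_mul_of_one_lt_left (θ_pos n) (lt_add_of_pos_right _ hδ)))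
  filter_upwards [Ioo_mem_nhdsGT (lt_min (pow_pos hδ 2) (mul_pos hρ hδ))] with r hr
  exact he x (mem_ball_self one_pos) r hr.1 (hr.2.le.trans (min_le_left _ _))
    (hn x (mem_ball_self hρ) _ (div_pos hr.1 hδ)
      ((div_le_iff₀ hδ).2 (hr.2.le.trans (min_le_right _ _)))).le

/-- There is a blow-up at every point. -/
theorem cl_blow [HasBlow n] (h : HP D κ n) (h0 : N0 D n) (x : X) :
    ∃ U r, Nonempty (Blow D n U (fun _ => x) r) :=
  ⟨_, _, HasBlow.blow D κ h h0 _ _ _ (seq_of_small (fun _ => mem_ball_self one_pos)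
    (fun _ => Nat.one_div_pos_of_nat) fun _ => le_rfl)⟩

end RC
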