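import Pool.Agent.P.MP_6472e5_gt.ClS

/-! Classification of cones without boundary and the size of the singular set. -/

set_option autoImplicit false
set_option linter.unusedSectionVars false

noncomputable section

namespace RC

open MeasureTheory Set Filter Topology Metric

variable {X : Type} [MetricSpace X] [ProperSpace X] [MeasurableSpace X] [BorelSpace X]
  {μ : Measure X} {D : DS μ} {κ : ℝ} {m : ℕ}

theorem cl_tri [HasBlow (m + 2)] (h : Model D (m + 2)) (h1 : N1 D (m + 2)) {e : X} {k : ℕ}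
    (A : Ax D (m + 2) e k) (hk : m < k) : D.Θ (m + 2) e 1 ≤ θ (m + 2) ∨
      ∀ t, 0 < t → ∀ R, ∃ φ, GHApprox e t (hz (m + 1)) R 0 φ := by
  rcases (cl_ax_le h A).eq_or_lt with rfl | h2
  · exact Or.inl (cl_ctr_le h1 (ax_full h A) e)
  · obtain rfl : k = m + 1 := by omega
    exact cl_dich h h1 A

theorem cl_cls [HasBlow (m + 2)] (h : Model D (m + 2)) (h2 : N2 D m) {e : X} {k : ℕ}
    (A : Ax D (m + 2) e k) (hθ : θ (m + 2) < D.Θ (m + 2) e 1) : k ≤ m := by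
  by_contra hk
  rcases cl_tri h h2.toN1 A (not_le.1 hk) with h3 | h3
  · exact hθ.not_ge h3
  · obtain ⟨δ, hδ, h4⟩ := h2.nh e 1
    obtain ⟨φ, h5⟩ := h3 δ hδ δ⁻¹
    exact h4 e (mem_ball_self one_pos) δ hδ le_rfl ⟨φ, h5.mono_eps hδ.le⟩

theorem cl_reg [HasBlow (m + 2)] (h : Model D (m + 2)) (h2 : N2 D m) {e : X}
    (A : Ax D (m + 2) e m) {y : X} (hy : 0 < A.b y) : D.Θ0 (m + 2) y = θ (m + 2) := by
  obtain ⟨U, r, ⟨B⟩⟩ := cl_blow h.toHP h2.toN1.n0 y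
  obtain ⟨h3, h4⟩ := B.ctr_const h.toHP fun _ => rfl
  obtain ⟨j, -, ⟨A'⟩⟩ := B.model.cone.ax _ h3
  refine le_antisymm (not_lt.1 fun h5 => ?_) (h2.low y)
  exact Nat.not_succ_le_self m ((off_axis h A hy B A').trans
    (cl_cls B.model (B.n2 h.toHP h2) A' (h5.trans_eq h4.symm)))

theorem cl_meas [HasBlow (m + 2)] (h : HP D κ (m + 2)) (h2 : N2 D m) (x₀ : X) (R : ℝ) {ε β : ℝ}
    (hε : 0 < ε) (hβ : 0 < β) : ∃ ρ₀, 0 < ρ₀ ∧ ∀ ρ, 0 < ρ → ρ ≤ ρ₀ →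
      μ.real (thickening ρ ({z | (1 + ε) * θ (m + 2) ≤ D.Θ0 (m + 2) z} ∩ ball x₀ R)) ≤ β * ρ := by
  classical
  obtain ⟨δ, hδ, hδ1, hδ2⟩ : ∃ δ : ℝ, 0 < δ ∧ δ < 1 ∧ 60 ^ m * δ = 1 / 2 := by
    have h3 : (1 : ℝ) ≤ 60 ^ m := one_le_pow₀ (by norm_num)
    exact ⟨1 / (2 * 60 ^ m), by positivity, (div_lt_one (by positivity)).2 (by linarith),
      by field_simp⟩
  obtain ⟨r₀, C, N, hr₀, hC, hT⟩ := cover_of_ax h h2.toN1.n0 (k := m)
    (S := {z | (1 + ε) * θ (m + 2) ≤ D.Θ0 (m + 2) z} ∩ ball x₀ R) inter_subset_right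
    (fun U y r B j A hy => cl_cls B.model (B.n2 h h2) A
      ((lt_mul_of_one_lt_left (θ_pos _) (lt_add_of_pos_right _ hε)).trans_le
        ((B.Θ0_ge h B.lf_base (Eventually.of_forall fun i => (hy i).1)).trans
          (B.model.toPreModel.le0 _ one_pos)))) hδ hδ1
  obtain ⟨c, C', r₁, -, hC', hr₁, hv⟩ := h.vol_bds h2.toN1.n0 x₀ (R + r₀)
  have h3 := (((tendsto_pow_const_mul_const_pow_of_abs_lt_one N (r := 1 / 2)
    (by rw [abs_of_pos] <;> norm_num)).comp (tendsto_add_atTop_nat 1)).const_mul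
      (2 * C * C' * (2 * r₀) ^ (m + 2))).eventually
        (Iic_mem_nhds (show _ < β * (δ * r₀) by rw [mul_zero]; positivity))
  have h4 := ((tendsto_pow_atTop_nhds_zero_of_lt_one hδ.le hδ1).mul_const (2 * r₀)).eventually
    (Iic_mem_nhds (show _ < r₁ by rwa [zero_mul]))
  obtain ⟨J₀, hJ₀⟩ := eventually_atTop.1 (h3.and h4)
  refine ⟨δ ^ J₀ * r₀, by positivity, fun ρ hρ hle => ?_⟩
  have h5 := (div_le_iff₀ hr₀).2 hle
  obtain ⟨J, h6, h7⟩ := exists_nat_pow_near_of_lt_one (div_pos hρ hr₀)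
    (h5.trans (pow_le_one₀ hδ.le hδ1.le)) hδ hδ1
  obtain ⟨h8, h9⟩ := hJ₀ J (Nat.lt_succ_iff.1
    ((pow_lt_pow_iff_right_of_lt_one₀ hδ hδ1).1 (h6.trans_le h5)))
  obtain ⟨T, h10, h11⟩ := hT J
  rw [lt_div_iff₀ hr₀] at h6
  rw [div_le_iff₀ hr₀] at h7
  have h12 : δ ^ J * r₀ ≤ r₀ := mul_le_of_le_one_left hr₀.le (pow_le_one₀ hδ.le hδ1.le)
  have h13 : thickening ρ ({z | (1 + ε) * θ (m + 2) ≤ D.Θ0 (m + 2) z} ∩ ball x₀ R) ⊆
      ⋃ t ∈ T.filter (· ∈ ball x₀ (R + r₀)), ball t (δ ^ J * (2 * r₀)) := fun z hz => by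
    obtain ⟨w, hw, h13⟩ := mem_thickening_iff.1 hz
    obtain ⟨t, ht, h14⟩ := mem_iUnion₂.1 (h11 hw)
    have h15 := mem_ball.1 hw.2
    rw [mem_ball] at h14
    refine mem_iUnion₂.2 ⟨t, Finset.mem_filter.2 ⟨ht, mem_ball.2 ?_⟩, mem_ball.2 ?_⟩
    · linarith [dist_triangle_left t x₀ w]
    · linarith [dist_triangle z w t]
  have h14 : ∑ t ∈ T.filter (· ∈ ball x₀ (R + r₀)), μ.real (ball t (δ ^ J * (2 * r₀))) ≤
      T.card * (C' * (δ ^ J * (2 * r₀)) ^ (m + 2)) := by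
    refine (Finset.sum_le_card_nsmul _ _ _ fun t ht =>
      (hv t (Finset.mem_filter.1 ht).2 _ (by positivity) h9).2).trans ?_
    rw [nsmul_eq_mul]
    exact mul_le_mul_of_nonneg_right (Nat.cast_le.2 (Finset.card_filter_le _ _)) (by positivity)
  refine ((measureReal_mono h13 (D.fin_bdd ((Bornology.isBounded_biUnion_finset _).2
    fun _ _ => isBounded_ball)).ne).trans (measureReal_biUnion_finset_le _ _)).trans (h14.trans
      ((mul_le_mul_of_nonneg_right h10 (by positivity)).trans ?_))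
  have h15 : ((60 / δ) ^ m) ^ J * (δ ^ J) ^ (m + 2) = (1 / 2) ^ J * δ ^ J := by
    rw [← pow_mul δ J, mul_comm J, pow_mul, ← mul_pow, ← mul_pow, ← hδ2, div_pow]
    congr 1
    field_simp
    ring
  simp only [Function.comp_apply, Nat.cast_add, Nat.cast_one] at h8
  calc _ = C * C' * (2 * r₀) ^ (m + 2) * (J + 1) ^ N *
        (((60 / δ) ^ m) ^ J * (δ ^ J) ^ (m + 2)) := by ring
    _ = 2 * C * C' * (2 * r₀) ^ (m + 2) * ((J + 1) ^ N * (1 / 2) ^ (J + 1)) * δ ^ J := by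
        rw [h15]
        ring
    _ ≤ β * (δ * r₀) * δ ^ J := mul_le_mul_of_nonneg_right h8 (by positivity)
    _ = β * (δ ^ (J + 1) * r₀) := by ring
    _ ≤ β * ρ := mul_le_mul_of_nonneg_left h6.le hβ.le

end RC
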