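import Pool.Agent.P.MP_6472e5_gt.Defs

/-! A covering lemma for isometric copies of Euclidean sets, and Euclidean lemmas. -/

set_option autoImplicit false
set_option linter.unusedSectionVars false

noncomputable section

namespace RC

open MeasureTheory Set Filter Topology Metric

variable {Z : Type} [MetricSpace Z] [MeasurableSpace Z] [BorelSpace Z] {ν : Measure Z} {n : ℕ}
  {O : Set (Euc n)} {τ : Euc n → Z}

theorem cl_vit_open (hτ : ∀ v ∈ O, ∀ w ∈ O, dist (τ v) (τ w) = dist v w)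
    (hg : ∀ᵐ v : Euc n, v ∈ O → ∀ a : ENNReal, a < 1 →
      ∃ᶠ r in 𝓝[>] (0 : ℝ), a * volume (closedBall v r) ≤ ν (ball (τ v) r))
    {W : Set Z} (hW : IsOpen W) : volume (O ∩ τ ⁻¹' W) ≤ ν W := by
  refine ENNReal.le_of_forall_lt_one_mul_le fun a ha => ?_
  set s : Set (Euc n) := {v | v ∈ O ∩ τ ⁻¹' W ∧
    ∃ᶠ r in 𝓝[>] (0 : ℝ), a * volume (closedBall v r) ≤ ν (ball (τ v) r)} with hs
  have h1 : volume (O ∩ τ ⁻¹' W) ≤ volume s :=
    measure_mono_ae (hg.mono fun v hv h => ⟨h, hv h.1 a ha⟩)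
  obtain ⟨t, r, hc, hts, hr, h0, hd⟩ := Besicovitch.exists_disjoint_closedBall_covering_ae volume
    (fun v => {r | a * volume (closedBall v r) ≤ ν (ball (τ v) r) ∧ ball (τ v) r ⊆ W}) s
    (fun v hv δ hδ => by
      obtain ⟨ρ, hρ, h2⟩ := Metric.isOpen_iff.1 hW _ hv.1.2
      obtain ⟨r, h3, h4⟩ := (hv.2.and_eventually (Ioo_mem_nhdsGT (lt_min hδ hρ))).exists
      exact ⟨r, ⟨h3, (ball_subset_ball (h4.2.le.trans (min_le_right _ _))).trans h2⟩, h4.1,
        h4.2.trans_le (min_le_left _ _)⟩) (fun _ => 1) fun _ _ => one_pos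
  have h2 : volume s ≤ volume (⋃ v ∈ t, closedBall v (r v)) :=
    measure_mono_ae ((measure_eq_zero_iff_ae_notMem.1 h0).mono fun v hv h => by
      by_contra h3
      exact hv ⟨h, h3⟩)
  have h3 : t.PairwiseDisjoint fun v => ball (τ v) (r v) := fun v hv w hw h => by
    refine ball_disjoint_ball ?_
    rw [hτ v (hts hv).1.1 w (hts hw).1.1]
    exact ((disjoint_closedBall_closedBall_iff (hr v hv).2.1.le (hr w hw).2.1.le).1
      (hd hv hw h)).le
  calc a * volume (O ∩ τ ⁻¹' W) ≤ a * ∑' v : t, volume (closedBall (v : Euc n) (r v)) := by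
        gcongr
        exact h1.trans (h2.trans (measure_biUnion_le _ hc _))
    _ ≤ ∑' v : t, ν (ball (τ v) (r v)) := by
        rw [← ENNReal.tsum_mul_left]
        exact ENNReal.tsum_le_tsum fun v => (hr v v.2).1.1
    _ = ν (⋃ v ∈ t, ball (τ v) (r v)) :=
        (measure_biUnion hc h3 fun _ _ => measurableSet_ball).symm
    _ ≤ ν W := measure_mono (iUnion₂_subset fun v hv => (hr v hv).1.2)

theorem cl_contOn (hτ : ∀ v ∈ O, ∀ w ∈ O, dist (τ v) (τ w) = dist v w) : ContinuousOn τ O :=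
  (LipschitzOnWith.of_dist_le_mul (K := 1) fun v hv w hw => by
    rw [hτ v hv w hw, NNReal.coe_one, one_mul]).continuousOn

theorem cl_measIm (hO : MeasurableSet O) (hτ : ∀ v ∈ O, ∀ w ∈ O, dist (τ v) (τ w) = dist v w) :
    MeasurableSet (τ '' O) :=
  hO.image_of_continuousOn_injOn (cl_contOn hτ) fun v hv w hw h => by
    rw [← dist_eq_zero, ← hτ v hv w hw, h, dist_self]

theorem cl_vit [ν.OuterRegular] (hO : MeasurableSet O)
    (hτ : ∀ v ∈ O, ∀ w ∈ O, dist (τ v) (τ w) = dist v w)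
    (hg : ∀ᵐ v : Euc n, v ∈ O → ∀ a : ENNReal, a < 1 →
      ∃ᶠ r in 𝓝[>] (0 : ℝ), a * volume (closedBall v r) ≤ ν (ball (τ v) r))
    {g : Z → ENNReal} (hm : Measurable g) : ∫⁻ v in O, g (τ v) ≤ ∫⁻ z, g z ∂ν := by
  have h1 : AEMeasurable τ (volume.restrict O) := (cl_contOn hτ).aemeasurable hO
  rw [← lintegral_map' hm.aemeasurable h1]
  refine lintegral_mono' (Measure.le_iff.2 fun S hS => ?_) le_rfl
  rw [Measure.map_apply_of_aemeasurable h1 hS, Measure.restrict_apply' hO,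
    S.measure_eq_iInf_isOpen ν]
  refine le_iInf fun W => le_iInf fun h2 => le_iInf fun hW => le_trans ?_ (cl_vit_open hτ hg hW)
  exact measure_mono fun v hv => ⟨hv.2, h2 hv.1⟩

theorem cl_null (hτ : ∀ v ∈ O, ∀ w ∈ O, dist (τ v) (τ w) = dist v w) {S : Set Z}
    (hS : μH[(n : ℝ)] S = 0) : ∀ᵐ v : Euc n, v ∈ O → τ v ∉ S := by
  have h1 : Isometry (O.domRestrict τ) := Isometry.of_dist_eq fun v w => hτ v v.2 w w.2
  have h2 : μH[(n : ℝ)] (O.domRestrict τ ⁻¹' S) = 0 := by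
    rw [h1.hausdorffMeasure_preimage (Or.inl (Nat.cast_nonneg n))]
    exact measure_mono_null inter_subset_left hS
  rw [← isometry_subtype_coe.hausdorffMeasure_image (Or.inl (Nat.cast_nonneg n))] at h2
  have h3 := isAddHaarMeasure_hausdorffMeasure (E := Euc n)
  rw [finrank_euclideanSpace_fin] at h3
  have h4 := Measure.absolutelyContinuous_isAddHaarMeasure (volume : Measure (Euc n))
    μH[(n : ℝ)] h2
  exact (measure_eq_zero_iff_ae_notMem.1 h4).mono fun v hv h5 h6 => hv ⟨⟨v, h5⟩, h6, rfl⟩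

theorem cl_prod_dist {α β : Type} [MetricSpace α] [MetricSpace β] (x y : WithLp 2 (α × β)) :
    dist x y ^ 2 = dist x.fst y.fst ^ 2 + dist x.snd y.snd ^ 2 := by
  rw [WithLp.prod_dist_eq_add (by simp), ENNReal.toReal_ofNat, Real.rpow_two, Real.rpow_two,
    ← Real.sqrt_eq_rpow, Real.sq_sqrt (by positivity)]

/-- The last coordinates of a vector. -/
def clTl {k : ℕ} (v : Euc (k + 1)) : Euc k := WithLp.toLp 2 fun j => v j.succ

theorem clTl_dist {k : ℕ} (v w : Euc (k + 1)) :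
    dist v w ^ 2 = dist (clTl v) (clTl w) ^ 2 + (v 0 - w 0) ^ 2 := by
  rw [EuclideanSpace.dist_sq_eq, EuclideanSpace.dist_sq_eq, Fin.sum_univ_succ, add_comm,
    Real.dist_eq, sq_abs]
  rfl

/-- A short retraction onto an isometric copy of a hyperplane is the orthogonal projection. -/
theorem cl_proj {k : ℕ} {G : Euc (k + 1) → Euc k} {h : Euc k → Euc (k + 1)}
    (hG : LipschitzWith 1 G) (hh : Isometry h) (h0 : h 0 = 0) (hGh : ∀ v, G (h v) = v) :
    ∃ g : Euc (k + 1) ≃ₗᵢ[ℝ] Euc (k + 1), ∀ x (j : Fin k), g x j.succ = G x j := by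
  set L := hh.affineIsometryOfStrictConvexSpace.linearIsometry
  have hL : ∀ v, L v = h v := fun v => by
    have h1 := hh.affineIsometryOfStrictConvexSpace.map_vsub v 0
    simpa [h0] using h1
  have h1 : ∀ x u, inner ℝ (L u) x = inner ℝ u (G x) := fun x u => by
    have h2 : ∀ t : ℝ, 2 * t * (inner ℝ (L u) x - inner ℝ u (G x)) ≤ ‖x‖ ^ 2 - ‖G x‖ ^ 2 :=
      fun t => by
        have h3 := hG.dist_le_mul (h (t • u)) x
        rw [hGh, ← hL, NNReal.coe_one, one_mul, dist_eq_norm, dist_eq_norm] at h3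
        have h4 := pow_le_pow_left₀ (norm_nonneg _) h3 2
        rw [norm_sub_sq_real, norm_sub_sq_real, L.norm_map, map_smul, real_inner_smul_left,
          real_inner_smul_left] at h4
        linarith
    by_contra h3
    have h4 := h2 ((‖x‖ ^ 2 - ‖G x‖ ^ 2 + 1) / (2 * (inner ℝ (L u) x - inner ℝ u (G x))))
    have h5 := sub_ne_zero.2 h3
    field_simp at h4
    linarith
  obtain ⟨b, hb⟩ := Orthonormal.exists_orthonormalBasis_extension_of_card_eq (𝕜 := ℝ)
    (E := Euc (k + 1)) (ι := Fin (k + 1)) (by simp)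
    (v := Fin.cons 0 fun j => L (EuclideanSpace.single j 1)) (s := {i | i ≠ 0}) (by
      rw [orthonormal_iff_ite]
      rintro ⟨i, hi⟩ ⟨j, hj⟩
      obtain ⟨i, rfl⟩ := Fin.exists_succ_eq.2 hi
      obtain ⟨j, rfl⟩ := Fin.exists_succ_eq.2 hj
      have h2 := orthonormal_iff_ite.1 (EuclideanSpace.orthonormal_single (𝕜 := ℝ) (ι := Fin k))
        i j
      simpa using h2)
  refine ⟨b.repr, fun x j => ?_⟩
  rw [b.repr_apply_apply, hb _ (Fin.succ_ne_zero j), Fin.cons_succ, h1,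
    EuclideanSpace.inner_single_left, map_one, one_mul]

end RC
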