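import Pool.Agent.P.MP_6472e5_gt.ClA
import Pool.Agent.P.MP_6472e5_gt.ClV
import Pool.Agent.P.MP_6472e5_gt.BlB

/-! The measure dominates Lebesgue measure on isometric copies of Euclidean sets. -/

set_option autoImplicit false
set_option linter.unusedSectionVars false

noncomputable section

namespace RC

open MeasureTheory Set Filter Topology Metric

variable {X : Type} [MetricSpace X] [ProperSpace X] [MeasurableSpace X] [BorelSpace X]
  {μ : Measure X} {D : DS μ} {κ : ℝ} {n : ℕ}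

theorem cl_Θ0 [HasBlow (n + 1)] (h : HP D κ (n + 1)) (h1 : N1 D (n + 1)) {x : X}
    (hx : ¬NoAx D (n + 1) n x) : D.Θ0 (n + 1) x = θ (n + 1) := by
  obtain ⟨U, r, B, A, hc, -⟩ := exists_euc h hx
  exact ((B.ctr_const h fun _ => rfl).2.symm.trans_le (cl_ctr_le (B.n1 h h1) hc _)).antisymm
    (h1.low x)

theorem cl_good [HasBlow (n + 1)] (h : HP D κ (n + 1)) (h1 : N1 D (n + 1)) {x : X}
    (hx : ¬NoAx D (n + 1) n x) (v : Euc (n + 1)) (a : ENNReal) (ha : a < 1) :
    ∃ᶠ r in 𝓝[>] (0 : ℝ), a * volume (closedBall v r) ≤ μ (ball x r) := by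
  obtain ⟨U, r, B, A, hc, hm⟩ := exists_euc h hx
  rw [cl_Θ0 h h1 hx, div_self (θ_pos _).ne', ENNReal.ofReal_one, one_smul] at hm
  obtain ⟨h2, -, h3⟩ := A.isometry_a hc
  have h4 : B.ν (ball B.e 1) = volume (ball (0 : Euc (n + 1)) 1) := by
    rw [← hm, Measure.map_apply h2.continuous.measurable measurableSet_ball, ← h3,
      h2.preimage_ball]
  have h5 : 0 < volume.real (ball (0 : Euc (n + 1)) 1) :=
    ENNReal.toReal_pos (measure_ball_pos _ _ one_pos).ne' measure_ball_lt_top.ne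
  lift a to NNReal using ha.ne_top
  have h6 : (a : ℝ) < 1 := by exact_mod_cast ha
  have h7 : Tendsto r U (𝓝[>] 0) :=
    tendsto_nhdsWithin_iff.2 ⟨B.seq.lim, Eventually.of_forall B.seq.pos⟩
  refine h7.frequently (Eventually.frequently ?_)
  filter_upwards [B.ball_ge B.lf_base 1 (mul_pos (sub_pos.2 h6) h5)] with i hi
  rw [← ENNReal.toReal_le_toReal (ENNReal.mul_ne_top ENNReal.coe_ne_top
    measure_closedBall_lt_top.ne) (D.fin _ _).ne, ENNReal.toReal_mul, ENNReal.coe_toReal,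
    ← measureReal_def, ← measureReal_def, Measure.addHaar_real_closedBall _ _ (B.seq.pos i).le,
    finrank_euclideanSpace_fin]
  rw [measureReal_def B.ν, h4, ← measureReal_def, one_mul] at hi
  linarith

theorem cl_dens [HasBlow (n + 1)] (h : HP D κ (n + 1)) (h1 : N1 D (n + 1))
    {O : Set (Euc (n + 1))} {τ : Euc (n + 1) → X} (hO : MeasurableSet O)
    (hτ : ∀ v ∈ O, ∀ w ∈ O, dist (τ v) (τ w) = dist v w) {g : X → ENNReal} (hm : Measurable g) :
    ∫⁻ v in O, g (τ v) ≤ ∫⁻ z, g z ∂μ := by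
  have := D.locFin
  have h2 := strat h h1.n0 n
  rw [← Nat.cast_succ] at h2
  exact cl_vit hO hτ ((cl_null hτ h2).mono fun v hv h3 => cl_good h h1 (hv h3) v) hm

/-- A point that sees Euclidean volume has the Euclidean value of the monotone quantity. -/
theorem cl_key (h : PreModel D n) (h1 : N1 D n) {x : X} {r : ℝ} (hr : 0 < r)
    (hi : ∫⁻ v : Euc n, ENNReal.ofReal (Real.exp (-(‖v‖ ^ 2 / (4 * r ^ 2)))) ≤
      ∫⁻ z, ENNReal.ofReal (Real.exp (-(dist x z ^ 2 / (4 * r ^ 2)))) ∂μ) :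
    D.Θ n x r ≤ θ n := by
  have hθ := θ_pos n
  have h2 : ∀ z, 0 ≤ r ^ n * D.p (r ^ 2) x z -
      θ n * Real.exp (-(dist x z ^ 2 / (4 * r ^ 2))) := fun z => by
    have h2 := h.lower r x z hr
    rw [mul_zero, zero_mul, zero_add, add_zero, one_mul] at h2
    exact sub_nonneg.2 ((mul_le_mul_of_nonneg_right (h1.low x) (Real.exp_pos _).le).trans h2)
  have h3 : Continuous fun z => Real.exp (-(dist x z ^ 2 / (4 * r ^ 2))) := by fun_prop
  have h4 : Continuous fun z => D.p (r ^ 2) x z :=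
    (h.toHP.p_cont (pow_pos hr 2)).comp (Continuous.prodMk_right x)
  have h5 := (h.p_int _ x (pow_pos hr 2)).const_mul (r ^ n)
  have h6 : Integrable (fun z => θ n * Real.exp (-(dist x z ^ 2 / (4 * r ^ 2)))) μ :=
    h5.mono' (h3.const_mul _).aestronglyMeasurable (Eventually.of_forall fun z => by
      rw [Real.norm_of_nonneg (by positivity)]
      exact sub_nonneg.1 (h2 z))
  have h7 : Integrable (fun v : Euc n => Real.exp (-(‖v‖ ^ 2 / (4 * r ^ 2)))) :=
    Integrable.of_integral_ne_zero (by rw [integral_gauss n hr]; positivity)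
  rw [← ofReal_integral_eq_lintegral_ofReal h7 (Eventually.of_forall fun _ => (Real.exp_pos _).le),
    ← ofReal_integral_eq_lintegral_ofReal ((integrable_const_mul_iff (Ne.isUnit hθ.ne') _).1 h6)
      (Eventually.of_forall fun _ => (Real.exp_pos _).le), integral_gauss n hr,
    ENNReal.ofReal_le_ofReal_iff (integral_nonneg fun _ => (Real.exp_pos _).le),
    div_le_iff₀' hθ] at hi
  have h8 := (integral_eq_zero_iff_of_nonneg h2 (h5.sub h6)).1 (le_antisymm (by
    rw [integral_sub h5 h6, integral_const_mul, integral_const_mul, h.p_one _ x (pow_pos hr 2)]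
    linarith) (integral_nonneg h2))
  have : μ.IsOpenPosMeasure := ⟨fun U hU ⟨z, hz⟩ h0 => by
    obtain ⟨ρ, hρ, h9⟩ := Metric.isOpen_iff.1 hU z hz
    exact (h.pos z ρ hρ).ne' (measure_mono_null h9 h0)⟩
  have h9 := congrFun ((Continuous.ae_eq_iff_eq μ ((h4.const_mul _).sub (h3.const_mul _))
    continuous_zero).1 h8) x
  simp only [Pi.sub_apply, dist_self, ne_eq, OfNat.ofNat_ne_zero, not_false_eq_true, zero_pow, zero_div,
    neg_zero, Real.exp_zero, mul_one, Pi.zero_apply] at h9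
  exact (sub_eq_zero.1 h9).le

theorem cl_key_euc [HasBlow (n + 1)] (h : PreModel D (n + 1)) (h1 : N1 D (n + 1))
    {τ : Euc (n + 1) → X} (hτ : Isometry τ) {r : ℝ} (hr : 0 < r) :
    D.Θ (n + 1) (τ 0) r ≤ θ (n + 1) := by
  refine cl_key h h1 hr (le_trans (le_of_eq ?_) (cl_dens h.toHP h1 MeasurableSet.univ
    (fun v _ w _ => hτ.dist_eq v w) (by fun_prop)))
  simp only [hτ.dist_eq, dist_zero_left, Measure.restrict_univ]

end RC
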