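import Pool.Agent.P.MP_6472e5_gt.ClC

/-! Euclidean charts adapted to an axis of codimension two. -/

set_option autoImplicit false
set_option linter.unusedSectionVars false

noncomputable section

namespace RC

open MeasureTheory Set Filter Topology Metric

variable {X : Type} [MetricSpace X] [ProperSpace X] [MeasurableSpace X] [BorelSpace X]
  {μ : Measure X} {D : DS μ} {κ : ℝ} {n m : ℕ}

/-- Short maps with isometric sections become coordinate projections in a Euclidean blow-up. -/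
theorem Blow.cl_coord {U : Ultrafilter ℕ} {y : ℕ → X} {r : ℕ → ℝ} (B : Blow D n U y r) {k : ℕ}
    {a : B.Z → Euc (k + 1)} (ha : Isometry a) (hs : Function.Surjective a) (h0 : a B.e = 0)
    {c : X → Euc k} (hc : LipschitzWith 1 c) (hy : ∀ i, c (y i) = 0) {σ : ℕ → Euc k → X}
    (hσ0 : ∀ i, σ i 0 = y i) (hσ1 : ∀ v, ∀ᶠ i in (U : Filter ℕ), c (σ i v) = r i • v)
    (hσ2 : ∀ v w, ∀ᶠ i in (U : Filter ℕ), dist (σ i v) (σ i w) = r i * dist v w) (R : ℝ) {ε : ℝ}
    (hε : 0 < ε) : ∀ᶠ i in (U : Filter ℕ), ∃ φ, GHApprox (y i) (r i) (0 : Euc (k + 1)) R ε φ ∧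
      ∀ z ∈ ball (y i) (R * r i), ∀ j : Fin k, |φ z j.succ - c z j / r i| ≤ ε := by
  have hr := B.seq.pos
  have h1 : ∀ j : Fin k, ∃ f, LipschitzWith 1 f ∧ B.Cv (fun i z => c z j / r i) f := fun j =>
    Blow.exists_cv (M := 0) (fun _ => Eventually.of_forall fun i z _ z' _ => by
      rw [← sub_div, abs_div, abs_of_pos (hr i), NNReal.coe_one, one_mul]
      refine div_le_div_of_nonneg_right ((PiLp.dist_apply_le (c z) (c z') j).trans ?_) (hr i).le
      simpa using hc.dist_le_mul z z') (Eventually.of_forall fun i => by simp [hy])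
  choose f hf hcv using h1
  have h2 : ∀ {b : ℕ → X} {z : B.Z}, B.Lf b z → Tendsto (fun i => (r i)⁻¹ • c (b i)) U
      (𝓝 (WithLp.toLp 2 fun j => f j z)) := by
    intro b z hb
    refine ((PiLp.continuous_toLp 2 _).tendsto _).comp (f := fun i j => (r i)⁻¹ * c (b i) j)
      (tendsto_pi_nhds.2 fun j => ?_)
    simpa only [div_eq_inv_mul] using (hcv j).lf (hf j).continuous hb
  have h3 : ∀ z z' : B.Z, dist (WithLp.toLp 2 fun j => f j z : Euc k)
      (WithLp.toLp 2 fun j => f j z') ≤ dist z z' := fun z z' => by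
    obtain ⟨b, hb⟩ := B.exists_lf z
    obtain ⟨b', hb'⟩ := B.exists_lf z'
    refine le_of_tendsto_of_tendsto' ((h2 hb).dist (h2 hb')) (hb.dist hb') fun i => ?_
    rw [dist_smul₀, Real.norm_of_nonneg (inv_pos.2 (hr i)).le, ← div_eq_inv_mul]
    refine div_le_div_of_nonneg_right ?_ (hr i).le
    simpa using hc.dist_le_mul (b i) (b' i)
  have h4 : ∀ v : Euc k, ∃ z, B.Lf (fun i => σ i v) z := fun v => by
    obtain ⟨z, -, hz⟩ := B.exists_lim (a := fun i => σ i v) (R := dist v 0 + 1) (by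
      filter_upwards [hσ2 v 0] with i hi
      rw [mem_ball, ← hσ0 i, hi, mul_comm]
      exact mul_lt_mul_of_pos_right (lt_add_one _) (hr i))
    exact ⟨z, hz⟩
  choose τ hτ using h4
  have h5 : Isometry τ := Isometry.of_dist_eq fun v w =>
    tendsto_nhds_unique ((hτ v).dist (hτ w)) (tendsto_const_nhds.congr' ((hσ2 v w).mono
      fun i hi => by simp only [hi, mul_div_cancel_left₀ _ (hr i).ne']))
  have h6 : τ 0 = B.e := dist_eq_zero.1 (tendsto_nhds_unique ((hτ 0).dist B.lf_base)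
    (by simp only [hσ0, dist_self, zero_div, tendsto_const_nhds]))
  have h7 : ∀ z, Function.surjInv hs (a z) = z := fun z => ha.injective (Function.surjInv_eq hs _)
  obtain ⟨g, hg⟩ := cl_proj (G := fun x => WithLp.toLp 2 fun j => f j (Function.surjInv hs x))
    (h := a ∘ τ) (LipschitzWith.of_dist_le_mul fun x x' => (h3 _ _).trans_eq (by
      rw [← ha.dist_eq, Function.surjInv_eq hs, Function.surjInv_eq hs, NNReal.coe_one, one_mul]))
    (ha.comp h5) (by rw [Function.comp_apply, h6, h0]) fun v => by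
      simp only [Function.comp_apply, h7]
      exact tendsto_nhds_unique (h2 (hτ v)) (tendsto_const_nhds.congr' ((hσ1 v).mono
        fun i hi => by simp only [hi, inv_smul_smul₀ (hr i).ne']))
  filter_upwards [B.chart B.lf_base one_pos le_rfl (ghApprox_euc (g.isometry.comp ha)
    (g.surjective.comp hs) B.e one_pos (R + ε) le_rfl) hε,
    eventually_all.2 fun j => hcv j R ε hε] with i ⟨φ, h8, h9⟩ h10
  rw [one_mul, add_sub_cancel_right, mul_zero, zero_add] at h8
  refine ⟨φ, h8, fun z hz j => ?_⟩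
  by_cases h11 : z = y i
  · simp [h11, h8.1, hy, hε.le]
  · rw [h9 z h11, abs_sub_comm]
    simpa [h0, hg, h7] using h10 j z hz

theorem cl_chart [HasBlow (m + 2)] (h : Model D (m + 2)) (h2 : N2 D m) {e : X}
    (A : Ax D (m + 2) e m) {ε : ℝ} (hε : 0 < ε) :
    ∃ s₀, 0 < s₀ ∧ ∀ w, A.a w = 0 → A.b w = 1 / 4 → ∀ s, 0 < s → s ≤ s₀ →
      ∃ φ, GHApprox w s (0 : Euc (m + 2)) 100 ε φ ∧ ∀ z ∈ ball w (100 * s),
        |φ z 1 - (A.b z - 1 / 4) / s| ≤ ε ∧ ∀ j : Fin m, |φ z j.succ.succ - A.a z j / s| ≤ ε := by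
  by_contra hn
  simp only [not_exists (p := fun s₀ : ℝ => _), not_and (a := (0 : ℝ) < _), not_forall,
    exists_prop] at hn
  choose y ha hb r hr hle hφ using fun i : ℕ => hn _ (Nat.one_div_pos_of_nat (n := i))
  have h3 : ∀ i, y i ∈ ball e 1 := fun i => by
    have h3 := A.dist_sq (y i) 0
    rw [A.zero, ha, hb, dist_self] at h3
    exact mem_ball.2 (lt_of_pow_lt_pow_left₀ 2 zero_le_one (by rw [h3]; norm_num))
  obtain ⟨B⟩ := HasBlow.blow D 0 h.toHP h2.toN1.n0 _ y r (seq_of_small h3 hr hle)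
  obtain ⟨x, -, hx⟩ := (isCompact_closedBall e 1).ultrafilter_le_nhds' ((hyperfilter ℕ).map y)
    (Filter.mem_map.2 (Eventually.of_forall fun i => ball_subset_closedBall (h3 i)))
  have h4 : A.b x = 1 / 4 := tendsto_nhds_unique ((A.lip_b.continuous.tendsto x).comp hx)
    (tendsto_const_nhds.congr fun i => (hb i).symm)
  obtain ⟨a, h5, h6, h7⟩ := B.cl_euc h.toHP h2.toN1 fun s η hs hη => by
    obtain ⟨ρ, hρ, h5⟩ := h.toHP.Θ_near x (c := θ (m + 2) + η) (by
      rw [cl_reg h h2 A (by rw [h4]; norm_num)]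
      exact lt_add_of_pos_right _ hη)
    filter_upwards [Tendsto.eventually (f := y) hx (ball_mem_nhds x hρ), B.small (div_pos hρ hs)]
      with i h6 h7
    exact (h5 _ h6 _ (mul_pos hs (hr i)) ((le_div_iff₀' hs).1 h7)).le
  choose σ s1 s2 s3 _ using fun i => A.sheet (y i) (by rw [hb]; norm_num)
  have h8 : ∀ v : Euc (m + 1), ∀ᶠ i in (hyperfilter ℕ : Filter ℕ), 0 < 1 / 4 + r i * v 0 :=
    fun v => ((B.seq.lim.mul_const (v 0)).const_add (1 / 4)).eventually
      (Ioi_mem_nhds (by norm_num))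
  obtain ⟨i, φ, h9, h10⟩ := (B.cl_coord h5 h6 h7
    (c := fun z => WithLp.toLp 2 (Fin.cons (A.b z - 1 / 4) (A.a z)))
    (σ := fun i v => σ i (r i • clTl v) (1 / 4 + r i * v 0))
    (LipschitzWith.of_dist_le_mul fun z z' => by
      rw [NNReal.coe_one, one_mul, ← sq_le_sq₀ dist_nonneg dist_nonneg, clTl_dist]
      refine le_trans (le_of_eq ?_) (A.lip z z')
      simp only [Fin.cons_zero, sub_sub_sub_cancel_right]
      rfl)
    (fun i => by
      ext j
      refine Fin.cases ?_ (fun j => ?_) j <;> simp [ha, hb])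
    (fun i => by
      have h9 := s1 i
      rw [ha, hb] at h9
      rw [← h9, show clTl (0 : Euc (m + 1)) = 0 from rfl]
      simp)
    (fun v => (h8 v).mono fun i hi => by
      simp only [s2 i _ _ hi]
      ext j
      refine Fin.cases ?_ (fun j => ?_) j <;> simp [clTl])
    (fun v w => by
      filter_upwards [h8 v, h8 w] with i h9 h10
      rw [← sq_eq_sq₀ dist_nonneg (mul_nonneg (hr i).le dist_nonneg), s3 i _ _ _ _ h9 h10,
        dist_smul₀, Real.norm_of_nonneg (hr i).le, mul_pow, mul_pow, clTl_dist]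
      ring) 100 hε).exists
  exact hφ i ⟨φ, h9, fun z hz => ⟨h10 z hz 0, fun j => h10 z hz j.succ⟩⟩

end RC
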