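import Pool.Agent.P.MP_6472e5_gt.ClD

/-! Cones with an axis of codimension one. -/

set_option autoImplicit false
set_option linter.unusedSectionVars false

noncomputable section

namespace RC

open MeasureTheory Set Filter Topology Metric

variable {X : Type} [MetricSpace X] [ProperSpace X] [MeasurableSpace X] [BorelSpace X]
  {μ : Measure X} {D : DS μ} {κ : ℝ} {n k : ℕ} {e : X}

/-- A flat half-space bounded by the axis. -/
def ClSheet (A : Ax D n e k) (s : Euc k → ℝ → X) : Prop :=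
  (∀ v β, 0 < β → A.a (s v β) = v ∧ A.b (s v β) = β) ∧
    ∀ v β v' β', 0 < β → 0 < β' → dist (s v β) (s v' β') ^ 2 = dist v v' ^ 2 + (β - β') ^ 2

theorem ClSheet.hom (h : Model D n) {A : Ax D n e k} {s : Euc k → ℝ → X} (hs : ClSheet A s)
    (u v : Euc k) {β l : ℝ} (hβ : 0 < β) (hl : 0 < l) :
    s (u + l • (v - u)) (l * β) = hom (A.ι u) l (s v β) := by
  have h1 := A.dist_sq (s v β) u
  have h2 := A.dist_sq (s (u + l • (v - u)) (l * β)) u
  have h3 := hs.2 (u + l • (v - u)) (l * β) v β (mul_pos hl hβ) hβ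
  rw [(hs.1 _ _ hβ).1, (hs.1 _ _ hβ).2, dist_comm, dist_eq_norm v] at h1
  rw [(hs.1 _ _ (mul_pos hl hβ)).1, (hs.1 _ _ (mul_pos hl hβ)).2, dist_comm, dist_self_add_left,
    norm_smul, Real.norm_of_nonneg hl.le] at h2
  have h4 : u + l • (v - u) - v = (l - 1) • (v - u) := by module
  rw [dist_eq_norm _ v, h4, norm_smul, mul_pow, Real.norm_eq_abs, sq_abs] at h3
  refine h.cone.hom_uniq _ ((A.ctr _).2 ⟨u, rfl⟩) l _ _ hl ?_ ?_
  · refine (sq_eq_sq₀ dist_nonneg (by positivity)).1 ?_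
    rw [h2, mul_pow l (dist _ _), h1]
    ring
  · refine (sq_eq_sq₀ dist_nonneg (by positivity)).1 ?_
    rw [h3, mul_pow |1 - l|, h1, sq_abs]
    ring

theorem ClSheet.ext (h : Model D n) {A : Ax D n e k} {s s' : Euc k → ℝ → X} (hs : ClSheet A s)
    (hs' : ClSheet A s') {v v' : Euc k} {β β' : ℝ} (hβ : 0 < β) (hβ' : 0 < β')
    (he : s v β = s' v β) : s v' β' = s' v' β' := by
  have h1 : ∀ {v v' : Euc k} {β β' : ℝ}, 0 < β → 0 < β' → β ≠ β' → s v β = s' v β →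
      s v' β' = s' v' β' := by
    intro v v' β β' hβ hβ' hne he
    have h1 : β - β' ≠ 0 := sub_ne_zero.2 hne
    have h2 := hs.hom h ((β - β')⁻¹ • (β • v' - β' • v)) v hβ (div_pos hβ' hβ)
    have h3 := hs'.hom h ((β - β')⁻¹ • (β • v' - β' • v)) v hβ (div_pos hβ' hβ)
    have h4 : (β - β')⁻¹ • (β • v' - β' • v) +
        (β' / β) • (v - (β - β')⁻¹ • (β • v' - β' • v)) = v' := by
      match_scalars <;> field_simp <;> ring
    rw [h4, div_mul_cancel₀ _ hβ.ne'] at h2 h3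
    rw [h2, h3, he]
  exact h1 (add_pos hβ hβ') hβ' (by linarith) (h1 (v' := v) hβ (add_pos hβ hβ') (by linarith) he)

theorem cl_half {A : Ax D n e k} {s : Euc k → ℝ → X} (hs : ClSheet A s)
    (ha : ∀ y, 0 < A.b y → s (A.a y) (A.b y) = y) {t : ℝ} (ht : 0 < t) (R : ℝ) :
    ∃ φ, GHApprox e t (hz k) R 0 φ := by
  have h1 : ∀ y y', A.b y' = 0 →
      dist y y' ^ 2 = dist (A.a y) (A.a y') ^ 2 + (A.b y - A.b y') ^ 2 := fun y y' h => by
    rw [h, sub_zero, ← A.dist_sq, A.b_eq_zero h]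
  have h2 : ∀ y y', dist y y' ^ 2 = dist (A.a y) (A.a y') ^ 2 + (A.b y - A.b y') ^ 2 :=
    fun y y' => by
      rcases (A.b_nonneg y').eq_or_lt with h | h
      · exact h1 y y' h.symm
      rcases (A.b_nonneg y).eq_or_lt with h' | h'
      · rw [dist_comm, h1 y' y h'.symm, dist_comm, sub_sq_comm]
      rw [← hs.2 _ _ _ _ h' h, ha y h', ha y' h]
  have h3 : ∀ y, 0 ≤ t⁻¹ * A.b y := fun y => mul_nonneg (inv_pos.2 ht).le (A.b_nonneg y)
  refine ⟨fun y => WithLp.toLp 2 (t⁻¹ • A.a y, NNReal.mk (t⁻¹ * A.b y) (h3 y)), ?_, fun y _ y' _ => ?_,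
    fun w hw => ?_⟩
  · have h4 : A.a e = 0 := by
      have h4 := A.a_ι 0
      rwa [A.zero] at h4
    have h5 : A.b e = 0 := by
      have h5 := A.b_ι 0
      rwa [A.zero] at h5
    simp only [h4, h5, smul_zero, mul_zero]
    rfl
  · rw [abs_nonpos_iff, sub_eq_zero]
    refine (sq_eq_sq₀ dist_nonneg (by positivity)).1 ?_
    rw [cl_prod_dist, div_pow, h2]
    change dist (t⁻¹ • A.a y) (t⁻¹ • A.a y') ^ 2 + |t⁻¹ * A.b y - t⁻¹ * A.b y'| ^ 2 = _
    rw [dist_smul₀, sq_abs, Real.norm_of_nonneg (inv_pos.2 ht).le]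
    field_simp
  · obtain ⟨y, h4, h5⟩ : ∃ y, A.a y = t • w.fst ∧ A.b y = t * w.snd := by
      rcases w.snd.2.eq_or_lt with h | h
      · exact ⟨A.ι _, A.a_ι _, (A.b_ι _).trans (mul_eq_zero_of_right t h.symm).symm⟩
      · exact ⟨_, hs.1 _ _ (mul_pos ht h)⟩
    refine ⟨y, ?_, dist_le_zero.2 ?_⟩
    · have h6 := A.dist_sq y 0
      have h7 := cl_prod_dist w (hz k)
      change _ = dist w.fst 0 ^ 2 + |(w.snd : ℝ) - 0| ^ 2 at h7
      rw [A.zero, h4, h5, dist_zero_right, norm_smul, Real.norm_of_nonneg ht.le, mul_pow, mul_pow,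
        ← mul_add] at h6
      rw [dist_zero_right, sub_zero, sq_abs] at h7
      rw [← h7, ← mul_pow, sq_eq_sq₀ dist_nonneg (by positivity)] at h6
      rw [sub_zero, mem_ball] at hw
      rw [mem_ball, h6, mul_comm]
      exact mul_lt_mul_of_pos_right hw ht
    · simp only [h4, h5, inv_smul_smul₀ ht.ne', inv_mul_cancel_left₀ ht.ne']
      rfl

theorem cl_two [HasBlow (k + 1)] (h : Model D (k + 1)) (h1 : N1 D (k + 1)) {A : Ax D (k + 1) e k}
    {s s' : Euc k → ℝ → X} (hs : ClSheet A s) (hs' : ClSheet A s')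
    (hne : ∀ v β, 0 < β → s v β ≠ s' v β) : D.Θ (k + 1) e 1 ≤ θ (k + 1) := by
  refine cl_key h.toPreModel h1 one_pos ?_
  set g : X → ENNReal := fun z => ENNReal.ofReal (Real.exp (-(dist e z ^ 2 / (4 * 1 ^ 2))))
  have hg : Measurable g := by fun_prop
  have hc : Continuous fun v : Euc (k + 1) => v 0 := by fun_prop
  have o1 := (isOpen_lt (continuous_const (y := (0 : ℝ))) hc).measurableSet
  have o2 := (isOpen_lt hc (continuous_const (y := (0 : ℝ)))).measurableSet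
  have t1 : ∀ v ∈ {v : Euc (k + 1) | 0 < v 0}, ∀ w ∈ {v : Euc (k + 1) | 0 < v 0},
      dist (s (clTl v) (v 0)) (s (clTl w) (w 0)) = dist v w := fun v hv w hw => by
    rw [← sq_eq_sq₀ dist_nonneg dist_nonneg, hs.2 _ _ _ _ hv hw, clTl_dist]
  have t2 : ∀ v ∈ {v : Euc (k + 1) | v 0 < 0}, ∀ w ∈ {v : Euc (k + 1) | v 0 < 0},
      dist (s' (clTl v) (-v 0)) (s' (clTl w) (-w 0)) = dist v w := fun v hv w hw => by
    rw [← sq_eq_sq₀ dist_nonneg dist_nonneg, hs'.2 _ _ _ _ (neg_pos.2 hv) (neg_pos.2 hw),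
      clTl_dist]
    ring
  obtain ⟨S, hS, s1, s2⟩ : ∃ S : Set X, MeasurableSet S ∧
      (∀ v : Euc (k + 1), 0 < v 0 → s (clTl v) (v 0) ∈ S) ∧
      ∀ v : Euc (k + 1), v 0 < 0 → s' (clTl v) (-v 0) ∈ Sᶜ := by
    refine ⟨_, cl_measIm o1 t1, fun v hv => ⟨v, hv, rfl⟩, fun v hv => ?_⟩
    rintro ⟨w, hw, h2⟩
    have h3 := hs.1 (clTl w) _ hw
    have h4 := hs'.1 (clTl v) _ (neg_pos.2 hv)
    beta_reduce at h2
    rw [h2, h4.1, h4.2] at h3
    rw [← h3.1, ← h3.2] at h2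
    exact hne _ _ (neg_pos.2 hv) h2
  have d1 := cl_dens h.toHP h1 o1 t1 (hg.indicator hS)
  have d2 := cl_dens h.toHP h1 o2 t2 (hg.indicator hS.compl)
  have e0 : ∀ {σ : Euc k → ℝ → X}, ClSheet A σ → ∀ (v : Euc (k + 1)) (β : ℝ), 0 < β →
      β ^ 2 = v 0 ^ 2 → g (σ (clTl v) β) =
        ENNReal.ofReal (Real.exp (-(‖v‖ ^ 2 / (4 * 1 ^ 2)))) := by
    intro σ hσ v β hβ he
    have h2 := A.dist_sq (σ (clTl v) β) 0
    have h3 := clTl_dist v 0
    rw [dist_zero_right] at h3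
    rw [A.zero, (hσ.1 _ _ hβ).1, (hσ.1 _ _ hβ).2, he, dist_comm] at h2
    simp only [g, h2, h3, PiLp.zero_apply, sub_zero]
    rfl
  rw [setLIntegral_congr_fun o1
    (fun v hv => (indicator_of_mem (s1 v hv) g).trans (e0 hs v _ hv rfl)),
    lintegral_indicator hS] at d1
  rw [setLIntegral_congr_fun o2
    (fun v hv => (indicator_of_mem (s2 v hv) g).trans (e0 hs' v _ (neg_pos.2 hv) (neg_sq _))),
    lintegral_indicator hS.compl] at d2
  have h2 : volume {v : Euc (k + 1) | v 0 = 0} = 0 :=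
    Measure.addHaar_submodule volume
      (LinearMap.ker (EuclideanSpace.projₗ (𝕜 := ℝ) (0 : Fin (k + 1)))) fun h => by
      simpa using Submodule.eq_top_iff'.1 h (EuclideanSpace.single 0 1)
  rw [← lintegral_add_compl g hS, ← lintegral_add_compl _ o1]
  refine add_le_add d1 (le_trans (le_of_eq (setLIntegral_congr ?_)) d2)
  filter_upwards [measure_eq_zero_iff_ae_notMem.1 h2] with v hv
  exact propext ⟨fun h : ¬0 < v 0 => (not_lt.1 h).lt_of_ne hv, fun h : v 0 < 0 => h.not_gt⟩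

/-- A cone with an axis of codimension one is Euclidean or a half-space. -/
theorem cl_dich [HasBlow (k + 1)] (h : Model D (k + 1)) (h1 : N1 D (k + 1))
    (A : Ax D (k + 1) e k) : D.Θ (k + 1) e 1 ≤ θ (k + 1) ∨
      ∀ t, 0 < t → ∀ R, ∃ φ, GHApprox e t (hz k) R 0 φ := by
  by_cases h2 : ∃ y, 0 < A.b y
  · obtain ⟨y, hy⟩ := h2
    obtain ⟨s, -, h3, h4, -⟩ := A.sheet y hy
    by_cases h5 : ∀ y, 0 < A.b y → s (A.a y) (A.b y) = y
    · exact Or.inr fun t ht R => cl_half ⟨h3, h4⟩ h5 ht R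
    · simp only [not_forall] at h5
      obtain ⟨y', hy', h5⟩ := h5
      obtain ⟨s', h6, h7, h8, -⟩ := A.sheet y' hy'
      exact Or.inl (cl_two h h1 ⟨h3, h4⟩ ⟨h7, h8⟩ fun v β hβ h9 =>
        h5 ((ClSheet.ext h ⟨h3, h4⟩ ⟨h7, h8⟩ hβ hy' h9).trans h6))
  · exact Or.inl (cl_ctr_le h1 (fun z => (A.ctr z).2 ⟨_, A.b_eq_zero
      ((A.b_nonneg z).eq_or_lt.resolve_right fun h3 => h2 ⟨z, h3⟩).symm⟩) e)

end RC
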