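import Pool.Agent.P.MP_6472e5_gt.CoDef
import Pool.Agent.P.MP_6472e5_gt.HpB
import Pool.Agent.P.MP_6472e5_gt.DeV
import Pool.Agent.P.MP_6472e5_gt.Ca5

/-! Time derivatives of the kernel. -/

set_option autoImplicit false
set_option linter.unusedSectionVars false

noncomputable section

namespace RC.Co

open MeasureTheory Set Filter Topology Metric

variable {X : Type} [MetricSpace X] [ProperSpace X] [MeasurableSpace X] [BorelSpace X]
  {μ : Measure X} {D : DS μ} {κ : ℝ} {n : ℕ}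

theorem derV_p (h : HP D κ n) {r : ℝ} (hr : 0 < r) (x : X) :
    D.DerV (fun s => D.p s x) (D.dp r x) r := by
  have h2 := half_pos hr
  have h1 := h.flow.derV _ (r / 2) (h.ker.2.1 _ x h2) h2
  rw [show r / 2 = 1 * r + -(r / 2) by ring] at h1
  have h3 := DS.DerV.affine one_ne_zero h1
  rw [show 1 * r + -(r / 2) = r / 2 by ring, one_smul] at h3
  refine h3.congr ?_ ?_
  · filter_upwards [lt_mem_nhds (half_lt_self hr)] with s hs
    have := h.P_p (1 * s + -(r / 2)) (r / 2) x (by linarith) h2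
    rwa [show 1 * s + -(r / 2) + r / 2 = s by ring] at this
  · have := h.L_p (r / 2) (r / 2) x h2 h2
    rwa [add_halves] at this

theorem exists_dd (h : HP D κ n) {r : ℝ} (hr : 0 < r) (x : X) :
    ∃ dd, D.Tb (D.dp r x) dd ∧ D.DerV (fun s => D.dp s x) dd r := by
  have h2 := half_pos hr
  have h4 := half_pos h2
  have mf := h.ker.2.1 _ x h2
  refine ⟨D.L (r / 2 / 2) (D.L (r / 2 / 2) (D.p (r / 2) x)), ?_, ?_⟩
  · have tg := h.p_tb _ x (add_pos h4 h2)
    have mg := D.memLp _ tg.memL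
    have e0 := (h.L_p (r / 2 / 2) (r / 2) x h4 h2).symm
    have t := h.tb _ (r / 2 / 2) mg tg.bddL h4
    have e2 := h.flow.L_congr _ _ (r / 2 / 2) mg e0 h4
    have e1 := ((h.flow.congr _ _ (r / 2 / 2) mg e0).trans
      (h.flow.L_semi _ _ _ mf h4.le h4).symm).trans (h.L_p _ _ x (add_pos h4 h4) h2)
    rw [add_halves, add_halves] at e1
    exact ⟨D.congr _ t.mem _ e1, t.bdd.congr e1, t.bddG.congr (DS.G_congr t.lap.1 t.lap.1 e1 e1),
      t.lap.congr e1 e2, D.congr _ t.memL _ e2, t.bddL.congr e2⟩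
  · have h1 := h.flow.L_derV _ (r / 2) mf h2
    generalize D.L (r / 2 / 2) (D.L (r / 2 / 2) (D.p (r / 2) x)) = dd at h1 ⊢
    have h3 := DS.DerV.affine (t := r) (b := -(r / 2)) one_ne_zero
      (by rwa [show 1 * r + -(r / 2) = r / 2 by ring])
    rw [one_smul] at h3
    refine h3.congr ?_ EventuallyEq.rfl
    filter_upwards [lt_mem_nhds (half_lt_self hr)] with s hs
    have := h.L_p (1 * s + -(r / 2)) (r / 2) x (by linarith) h2
    rwa [show 1 * s + -(r / 2) + r / 2 = s by ring] at this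

theorem p_cont' (h : HP D κ n) {r : ℝ} (hr : 0 < r) (x : X) : Continuous (D.p r x) :=
  hpb_ker_cont' h.ker.1 hr x

theorem dp_cont' (h : HP D κ n) {r : ℝ} (hr : 0 < r) (x : X) : Continuous (D.dp r x) :=
  hpb_ker_cont' h.dp_cont hr x

theorem int_pp (h : HP D κ n) {s t : ℝ} (hs : 0 < s) (ht : 0 < t) (x y : X) :
    ∫ z, D.p s x z * D.p t y z ∂μ = D.p (s + t) x y := by
  simp only [h.ck s t x y hs ht, h.p_symm t y _ ht]

theorem int_dpp (h : HP D κ n) {s t : ℝ} (hs : 0 < s) (ht : 0 < t) (x y : X) :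
    ∫ z, D.dp s x z * D.p t y z ∂μ = D.dp (s + t) x y := by
  simp only [h.dck s t x y hs ht, h.p_symm t y _ ht]

theorem derL1_unique {u u' : ℝ → X → ℝ} {w w' : X → ℝ} {t : ℝ} (h : DerL1 μ u w t)
    (h' : DerL1 μ u' w' t) (he : ∀ᶠ s in 𝓝 t, u s =ᵐ[μ] u' s) : w =ᵐ[μ] w' := by
  have h1 := h.congr he EventuallyEq.rfl
  have hl := h1.2.2.add h'.2.2
  rw [add_zero] at hl
  have hi := (h.2.1.sub h'.2.1).abs
  have h0 : ∫ x, |w x - w' x| ∂μ ≤ 0 := by
    refine ge_of_tendsto hl ?_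
    filter_upwards [(de1.1 h1).2.2.1, (de1.1 h').2.2.1] with k k1 k2
    have i1 := (memLp_one_iff_integrable.1 k1).abs
    have i2 := (memLp_one_iff_integrable.1 k2).abs
    refine le_trans (integral_mono hi (i1.add i2) fun x => ?_) (integral_add i1 i2).le
    have := abs_sub_le (w x) (DQ u' t k x) (w' x)
    rwa [abs_sub_comm (w x) (DQ u' t k x)] at this
  have h2 := (integral_eq_zero_iff_of_nonneg (fun x => abs_nonneg _) hi).1
    (le_antisymm h0 (integral_nonneg fun x => abs_nonneg _))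
  exact h2.mono fun x hx => sub_eq_zero.1 (abs_eq_zero.1 hx)

/-- Pointwise derivatives with difference quotients dominated in `L²`. -/
theorem derL2_of_pt {u : ℝ → X → ℝ} {w b : X → ℝ} {t : ℝ} (hm : ∀ᶠ s in 𝓝 t, MemLp (u s) 2 μ)
    (hd : ∀ᵐ x ∂μ, HasDerivAt (fun s => u s x) (w x) t) (hb : MemLp b 2 μ)
    (hC : ∀ᶠ h in 𝓝[≠] (0 : ℝ), ∀ᵐ x ∂μ, |DQ u t h x| ≤ b x) : DerL2 μ u w t := by
  have hm' : ∀ᶠ s in 𝓝 t, AEStronglyMeasurable (u s) μ := hm.mono fun s hs => hs.1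
  obtain ⟨h1, h2⟩ := de_lim hm' hd hC
  refine de2.2 ⟨hm, hb.mono' h1 h2,
    deSm_dom one_le_two ENNReal.ofNat_ne_top ((de_DQ_meas hm').mono fun k hk => hk.sub h1)
      (hb.add hb) ?_ (hd.mono fun x hx => tendsto_sub_nhds_zero_iff.2 (de_slope hx))⟩
  filter_upwards [hC] with k hk
  filter_upwards [hk, h2] with x b1 b2
  exact ((abs_sub _ _).trans (add_le_add b1 b2)).trans (le_abs_self _)

end RC.Co
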