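import Pool.Agent.P.MP_6472e5_gt.CoDef
import Pool.Agent.P.MP_6472e5_gt.HpB

/-! Weighted bounds for the kernel. -/

set_option autoImplicit false
set_option linter.unusedSectionVars false

noncomputable section

namespace RC.Co

open MeasureTheory Set Filter Topology Metric

variable {X : Type} [MetricSpace X] [ProperSpace X] [MeasurableSpace X] [BorelSpace X]
  {μ : Measure X} {D : DS μ} {κ : ℝ} {n : ℕ}

namespace CoA2Aux

theorem up (h : PreModel D n) : ∃ C, 0 < C ∧ ∀ r x z, 0 < r →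
    √r ^ n * D.p r x z ≤ C * 1 * Real.exp (-(dist x z ^ 2 / (C * r))) ∧
      √r ^ n * |D.dp r x z| ≤ C * (1 / r) * Real.exp (-(dist x z ^ 2 / (C * r))) := by
  obtain ⟨c, C', hc, hv⟩ := h.volume
  obtain ⟨C₁, h1, g1⟩ := h.gauss 1 one_pos
  obtain ⟨C₂, h2, g2⟩ := h.dp_le
  have e1 : 0 < C₁ / c := by positivity
  have e2 : 0 < C₂ / c := by positivity
  refine ⟨C₁ / c + C₂ / c + 8 + C₂, by positivity, fun r x z hr => ?_⟩
  obtain ⟨ρ, hρ, rfl⟩ : ∃ ρ, 0 < ρ ∧ r = ρ ^ 2 :=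
    ⟨√r, Real.sqrt_pos.2 hr, (Real.sq_sqrt hr.le).symm⟩
  rw [Real.sqrt_sq hρ.le]
  refine ⟨HP.hpa_up (K := C₁) (K' := 8) (h.p_pos _ x z hr).le hc (hv x ρ hρ).1 (by linarith)
    (by norm_num) (by linarith) zero_le_one (sq_nonneg _) hρ ?_,
    HP.hpa_up (K := C₂) (abs_nonneg _) hc (hv x ρ hρ).1 (by linarith) h2 (by linarith)
      (by positivity) (sq_nonneg _) hρ ?_⟩
  · have := g1 ρ x z hρ (by simp)
    rw [mul_zero, zero_mul, Real.exp_zero, mul_one, show (4 : ℝ) * (1 + 1) = 8 by norm_num] at this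
    rwa [mul_one]
  · rw [mul_one_div]
    exact g2 ρ x z hρ (by simp)

theorem wt {a b d R : ℝ} (hR : 0 < R) (ha : 0 ≤ a) (h : a ≤ b + d) :
    (1 + a ^ 2) * Real.exp (-(d ^ 2 / (4 * R))) ≤ 1 + 2 * b ^ 2 + 8 * R := by
  have h0 : 0 ≤ d ^ 2 / (4 * R) := by positivity
  have h1 : Real.exp (-(d ^ 2 / (4 * R))) ≤ 1 := Real.exp_le_one_iff.2 (by linarith)
  have h2 : d ^ 2 / (4 * R) * Real.exp (-(d ^ 2 / (4 * R))) ≤ 1 := by
    rw [Real.exp_neg, ← div_eq_mul_inv, div_le_one (Real.exp_pos _)]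
    linarith [Real.add_one_le_exp (d ^ 2 / (4 * R))]
  have h3 : a ^ 2 ≤ 2 * b ^ 2 + 2 * d ^ 2 := by
    nlinarith [pow_le_pow_left₀ ha h 2, sq_nonneg (b - d)]
  have h4 := Real.exp_pos (-(d ^ 2 / (4 * R)))
  generalize Real.exp (-(d ^ 2 / (4 * R))) = E at *
  rw [div_mul_eq_mul_div, div_le_one (by positivity)] at h2
  nlinarith [mul_le_mul_of_nonneg_right h3 h4.le, mul_le_mul_of_nonneg_left h1 (sq_nonneg b)]

end CoA2Aux

theorem p_le (h : PreModel D n) {t : ℝ} (ht : 0 < t) : ∃ C, ∀ x y, D.p t x y ≤ C := by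
  obtain ⟨C, hC, hu⟩ := CoA2Aux.up h
  refine ⟨C / √t ^ n, fun x y => ?_⟩
  rw [le_div_iff₀' (pow_pos (Real.sqrt_pos.2 ht) n)]
  refine (hu t x y ht).1.trans ?_
  rw [mul_one]
  exact mul_le_of_le_one_right hC.le (Real.exp_le_one_iff.2 (neg_nonpos.2 (by positivity)))

/-- Domination by the kernel at a later time. -/
theorem wt_dom (h : PreModel D n) (e x : X) {r₀ : ℝ} (h0 : 0 < r₀) (r₁ : ℝ) :
    ∃ C R, 0 < C ∧ 0 < R ∧ ∀ r ∈ Icc r₀ r₁, ∀ z,
      (1 + dist e z ^ 2) * (D.p r x z + |D.dp r x z|) ≤ C * D.p R x z := by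
  obtain ⟨C, hC, hu⟩ := CoA2Aux.up h
  obtain ⟨c, hc, hl⟩ := h.n0
  obtain ⟨R, hR, eR⟩ : ∃ R, 0 < R ∧ C * max r₀ r₁ = 2 * R :=
    ⟨C * max r₀ r₁ / 2, by have := h0.trans_le (le_max_left r₀ r₁); positivity, by ring⟩
  have ha : 0 < √r₀ ^ n := pow_pos (Real.sqrt_pos.2 h0) n
  have hb : 0 < √R ^ n := pow_pos (Real.sqrt_pos.2 hR) n
  refine ⟨C * (1 + 1 / r₀) / √r₀ ^ n * (1 + 2 * dist e x ^ 2 + 8 * R) * (√R ^ n / c), R,
    by positivity, hR, fun r hr z => ?_⟩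
  have hr0 := h0.trans_le hr.1
  obtain ⟨u1, u2⟩ := hu r x z hr0
  have l1 := h.lower (√R) x z (Real.sqrt_pos.2 hR)
  simp only [mul_zero, zero_mul, add_zero, zero_add, one_mul, Real.sq_sqrt hR.le] at l1
  have w := CoA2Aux.wt hR dist_nonneg (dist_triangle e x z)
  have e1 : Real.exp (-(dist x z ^ 2 / (C * r))) ≤ Real.exp (-(dist x z ^ 2 / (4 * R))) ^ 2 := by
    rw [← Real.exp_nat_mul, Real.exp_le_exp, show ((2 : ℕ) : ℝ) * -(dist x z ^ 2 / (4 * R)) =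
      -(dist x z ^ 2 / (2 * R)) by push_cast; field_simp; ring, neg_le_neg_iff, ← eR]
    exact div_le_div_of_nonneg_left (sq_nonneg _) (by positivity)
      (mul_le_mul_of_nonneg_left (hr.2.trans (le_max_right _ _)) hC.le)
  have e0 := Real.exp_pos (-(dist x z ^ 2 / (4 * R)))
  have l2 : Real.exp (-(dist x z ^ 2 / (4 * R))) ≤ √R ^ n / c * D.p R x z := by
    rw [div_mul_eq_mul_div, le_div_iff₀' hc]
    exact (mul_le_mul_of_nonneg_right (hl x) e0.le).trans l1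
  have u3 : D.p r x z + |D.dp r x z| ≤
      C * (1 + 1 / r₀) / √r₀ ^ n * Real.exp (-(dist x z ^ 2 / (4 * R))) ^ 2 := by
    rw [div_mul_eq_mul_div, le_div_iff₀' ha]
    have p0 : 0 ≤ D.p r x z + |D.dp r x z| := add_nonneg (h.p_pos r x z hr0).le (abs_nonneg _)
    calc _ ≤ √r ^ n * (D.p r x z + |D.dp r x z|) := mul_le_mul_of_nonneg_right
          (pow_le_pow_left₀ (Real.sqrt_nonneg _) (Real.sqrt_le_sqrt hr.1) n) p0
      _ ≤ C * (1 + 1 / r) * Real.exp (-(dist x z ^ 2 / (C * r))) := by linarith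
      _ ≤ _ := mul_le_mul (mul_le_mul_of_nonneg_left
          (add_le_add_right (one_div_le_one_div_of_le h0 hr.1) 1) hC.le) e1 (Real.exp_pos _).le
          (by positivity)
  generalize Real.exp (-(dist x z ^ 2 / (4 * R))) = E at *
  calc _ ≤ (1 + dist e z ^ 2) * (C * (1 + 1 / r₀) / √r₀ ^ n * E ^ 2) :=
        mul_le_mul_of_nonneg_left u3 (by positivity)
    _ = C * (1 + 1 / r₀) / √r₀ ^ n * ((1 + dist e z ^ 2) * E) * E := by ring
    _ ≤ C * (1 + 1 / r₀) / √r₀ ^ n * (1 + 2 * dist e x ^ 2 + 8 * R) * (√R ^ n / c * D.p R x z) :=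
        mul_le_mul (mul_le_mul_of_nonneg_left w (by positivity)) l2 e0.le (by positivity)
    _ = _ := by ring

theorem wt_memLp (h : PreModel D n) (e x : X) {r : ℝ} (hr : 0 < r) :
    MemLp (fun z => (1 + dist e z ^ 2) * D.p r x z) 2 μ ∧
      MemLp (fun z => (1 + dist e z ^ 2) * D.dp r x z) 2 μ := by
  obtain ⟨C, R, hC, hR, hb⟩ := wt_dom h e x hr r
  have hm := (h.ker.2.1 R x hR).const_mul C
  have c0 : Continuous fun z => 1 + dist e z ^ 2 := by fun_prop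
  have w0 : ∀ z, 0 ≤ 1 + dist e z ^ 2 := fun z => by positivity
  refine ⟨hm.mono' (c0.mul (hpb_ker_cont' h.ker.1 hr x)).aestronglyMeasurable
    (ae_of_all _ fun z => le_trans ?_ (hb r ⟨le_rfl, le_rfl⟩ z)),
    hm.mono' (c0.mul (hpb_ker_cont' h.dp_cont hr x)).aestronglyMeasurable
      (ae_of_all _ fun z => le_trans ?_ (hb r ⟨le_rfl, le_rfl⟩ z))⟩
  · rw [Real.norm_of_nonneg (mul_nonneg (w0 z) (h.p_pos r x z hr).le)]
    exact mul_le_mul_of_nonneg_left (le_add_of_nonneg_right (abs_nonneg _)) (w0 z)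
  · rw [Real.norm_eq_abs, abs_mul, abs_of_nonneg (w0 z)]
    exact mul_le_mul_of_nonneg_left (le_add_of_nonneg_left (h.p_pos r x z hr).le) (w0 z)

theorem wt_bdd (h : PreModel D n) (e x : X) {r₀ : ℝ} (h0 : 0 < r₀) (r₁ : ℝ) :
    ∃ C, ∀ r ∈ Icc r₀ r₁, ∀ z, (1 + dist e z ^ 2) * (D.p r x z + |D.dp r x z|) ≤ C := by
  obtain ⟨C, R, hC, hR, hb⟩ := wt_dom h e x h0 r₁
  obtain ⟨M, hM⟩ := h.p_bdd R x hR
  exact ⟨C * M, fun r hr z => (hb r hr z).trans (mul_le_mul_of_nonneg_left (hM z) hC.le)⟩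

end RC.Co
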