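import Pool.Agent.P.MP_6472e5_gt.CoDef
import Pool.Agent.P.MP_6472e5_gt.HpB

/-! Short time asymptotics and the maximality of the density at a centre. -/

set_option autoImplicit false
set_option linter.unusedSectionVars false

noncomputable section

namespace RC.Co

open MeasureTheory Set Filter Topology Metric

variable {X : Type} [MetricSpace X] [ProperSpace X] [MeasurableSpace X] [BorelSpace X]
  {μ : Measure X} {D : DS μ} {κ : ℝ} {n : ℕ}

namespace CoA3Aux

theorem log_sqrt_pow (n : ℕ) {t : ℝ} (ht : 0 < t) : Real.log (√t ^ n) = n / 2 * Real.log t := by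
  rw [Real.log_pow, Real.log_sqrt ht.le]; ring

theorem tends (a b c : ℝ) :
    Tendsto (fun t : ℝ => a * t + b * (t * Real.log t) + c) (𝓝[>] 0) (𝓝 c) := by
  have h : Continuous fun t : ℝ => a * t + b * (t * Real.log t) + c :=
    ((continuous_const.mul continuous_id).add
      (continuous_const.mul Real.continuous_mul_log)).add continuous_const
  have h' := (h.tendsto 0).mono_left (nhdsWithin_le_nhds (s := Ioi 0))
  simpa using h'

theorem upper (h : PreModel D n) (x y : X) : ∃ a : ℝ, ∀ t, 0 < t →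
    -4 * t * Real.log (D.p t x y) ≤ a * t + 2 * n * (t * Real.log t) + dist x y ^ 2 := by
  obtain ⟨c, hc, h0⟩ := h.n0
  refine ⟨-4 * Real.log (D.Θ0 n x), fun t ht => ?_⟩
  have h1 := h.lower (√t) x y (Real.sqrt_pos.2 ht)
  rw [Real.sq_sqrt ht.le] at h1
  simp only [mul_zero, zero_mul, add_zero, zero_add, one_mul] at h1
  have hθ : 0 < D.Θ0 n x := hc.trans_le (h0 x)
  have hp := h.p_pos t x y ht
  have h2 := Real.log_le_log (by positivity) h1
  rw [Real.log_mul hθ.ne' (Real.exp_pos _).ne', Real.log_exp,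
    Real.log_mul (by positivity) hp.ne', log_sqrt_pow n ht] at h2
  have h3 := mul_le_mul_of_nonneg_left h2 (by positivity : 0 ≤ 4 * t)
  have e : 4 * t * (Real.log (D.Θ0 n x) + -(dist x y ^ 2 / (4 * t))) =
      4 * t * Real.log (D.Θ0 n x) - dist x y ^ 2 := by field_simp; ring
  rw [e] at h3
  nlinarith

theorem lower (h : PreModel D n) (x y : X) {δ : ℝ} (hδ : 0 < δ) : ∃ a : ℝ, ∀ t, 0 < t →
    a * t + 2 * n * (t * Real.log t) + dist x y ^ 2 / (1 + δ) ≤ -4 * t * Real.log (D.p t x y) := by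
  obtain ⟨c, C', hc, hv⟩ := h.volume
  obtain ⟨C, hC, hg⟩ := h.gauss δ hδ
  refine ⟨4 * Real.log c - 4 * Real.log C, fun t ht => ?_⟩
  have hs := Real.sqrt_pos.2 ht
  have h1 := hg (√t) x y hs (by simp)
  rw [Real.sq_sqrt ht.le] at h1
  simp only [mul_zero, zero_mul, Real.exp_zero, mul_one] at h1
  have hp := h.p_pos t x y ht
  have h1' := (mul_le_mul_of_nonneg_left (hv x _ hs).1 hp.le).trans h1
  have h2 := Real.log_le_log (by positivity) h1'
  rw [Real.log_mul hC.ne' (Real.exp_pos _).ne', Real.log_exp,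
    Real.log_mul hp.ne' (by positivity), Real.log_mul hc.ne' (by positivity),
    log_sqrt_pow n ht] at h2
  have h3 := mul_le_mul_of_nonneg_left h2 (by positivity : 0 ≤ 4 * t)
  have e : 4 * t * (Real.log C + -(dist x y ^ 2 / (4 * (1 + δ) * t))) =
      4 * t * Real.log C - dist x y ^ 2 / (1 + δ) := by field_simp; ring
  rw [e] at h3
  nlinarith

theorem sqrt_pow' (n : ℕ) {a : ℝ} (ha : 0 ≤ a) : √(a ^ n) = √a ^ n := by
  rw [Real.sqrt_eq_iff_mul_self_eq (pow_nonneg ha n) (pow_nonneg (Real.sqrt_nonneg a) n),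
    ← mul_pow, Real.mul_self_sqrt ha]

theorem harn' (h : PreModel D n) {s t : ℝ} (hs : 0 < s) (hst : s < t) (z x y : X) :
    √s ^ n * D.p s z x ≤ √t ^ n * D.p t z y * Real.exp (dist x y ^ 2 / (4 * (t - s))) := by
  have h1 := h.harn s t z x y hs hst
  simp only [mul_zero, zero_mul, add_zero, zero_add, one_mul] at h1
  have ht : 0 < t := hs.trans hst
  have hs' : 0 < √s := Real.sqrt_pos.2 hs
  rw [sqrt_pow' n (by positivity), Real.sqrt_div ht.le, div_pow] at h1
  have h2 := mul_le_mul_of_nonneg_left h1 (by positivity : 0 ≤ √s ^ n)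
  refine h2.trans_eq ?_
  field_simp

theorem theta_sqrt (x : X) {t : ℝ} (ht : 0 < t) : D.Θ n x √t = √t ^ n * D.p t x x := by
  unfold DS.Θ; rw [Real.sq_sqrt ht.le]

end CoA3Aux

open CoA3Aux

theorem varadhan (h : PreModel D n) (x y : X) :
    Tendsto (fun t => -4 * t * Real.log (D.p t x y)) (𝓝[>] 0) (𝓝 (dist x y ^ 2)) := by
  refine tendsto_order.2 ⟨fun a ha => ?_, fun a ha => ?_⟩
  · have hc : ContinuousAt (fun δ : ℝ => dist x y ^ 2 / (1 + δ)) 0 :=
      continuousAt_const.div (by fun_prop) (by norm_num)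
    have h1 : ∀ᶠ δ in 𝓝[>] (0 : ℝ), a < dist x y ^ 2 / (1 + δ) :=
      nhdsWithin_le_nhds (hc.tendsto.eventually (lt_mem_nhds (by simpa using ha)))
    obtain ⟨δ, h2, hδ⟩ := (h1.and self_mem_nhdsWithin).exists
    obtain ⟨b, hb⟩ := lower h x y hδ
    filter_upwards [(tends b (2 * n) _).eventually (lt_mem_nhds h2), self_mem_nhdsWithin]
      with t h3 ht using h3.trans_le (hb t ht)
  · obtain ⟨b, hb⟩ := upper h x y
    filter_upwards [(tends b (2 * n) _).eventually (gt_mem_nhds ha), self_mem_nhdsWithin]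
      with t h3 ht using (hb t ht).trans_lt h3

theorem top (h : PreModel D n) {e : X} (he : D.Ctr n e) (y : X) {r : ℝ} (hr : 0 < r) :
    D.Θ n y r ≤ D.Θ n e 1 := by
  have hs : 0 < r ^ 2 := by positivity
  have key : ∀ M : ℝ, 0 < M → D.Θ n y r ≤
      D.Θ n e 1 * Real.exp (dist y e ^ 2 / 4 * M⁻¹) * Real.exp (dist y e ^ 2 / 4 * M⁻¹) := by
    intro M hM
    have h1 := harn' h hs (show r ^ 2 < r ^ 2 + M by linarith) y y e
    have h2 := harn' h (show 0 < r ^ 2 + M by linarith)
      (show r ^ 2 + M < r ^ 2 + M + M by linarith) e y e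
    have ht : 0 < r ^ 2 + M + M := by linarith
    rw [← theta_sqrt e ht, he _ 1 (Real.sqrt_pos.2 ht) one_pos] at h2
    rw [← theta_sqrt y hs, Real.sqrt_sq hr.le, h.p_symm _ y e (by linarith)] at h1
    have e1 : dist y e ^ 2 / (4 * (r ^ 2 + M - r ^ 2)) = dist y e ^ 2 / 4 * M⁻¹ := by
      rw [add_sub_cancel_left]; field_simp
    have e2 : dist y e ^ 2 / (4 * (r ^ 2 + M + M - (r ^ 2 + M))) = dist y e ^ 2 / 4 * M⁻¹ := by
      rw [add_sub_cancel_left]; field_simp
    rw [e1] at h1
    rw [e2] at h2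
    exact h1.trans (mul_le_mul_of_nonneg_right h2 (Real.exp_pos _).le)
  have h3 : Tendsto (fun M : ℝ => Real.exp (dist y e ^ 2 / 4 * M⁻¹)) atTop (𝓝 1) := by
    have := (Real.continuous_exp.tendsto _).comp
      (tendsto_inv_atTop_zero.const_mul (dist y e ^ 2 / 4))
    simpa [Function.comp_def] using this
  have h4 := (h3.const_mul (D.Θ n e 1)).mul h3
  simp only [mul_one] at h4
  exact ge_of_tendsto h4 ((eventually_gt_atTop 0).mono key)

theorem log_p_ctr (h : PreModel D n) {e : X} (he : D.Ctr n e) {t : ℝ} (ht : 0 < t) :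
    Real.log (D.p t e e) = Real.log (D.Θ n e 1) - n / 2 * Real.log t := by
  have hs := Real.sqrt_pos.2 ht
  rw [he 1 _ one_pos hs, theta_sqrt e ht, Real.log_mul (by positivity) (h.p_pos t e e ht).ne',
    log_sqrt_pow n ht]
  ring

theorem dp_ctr (h : PreModel D n) {e : X} (he : D.Ctr n e) {t : ℝ} (ht : 0 < t) :
    D.dp t e e = -(n / (2 * t)) * D.p t e e := by
  have hp := h.p_pos t e e ht
  have h1 := (h.der t e e ht).log hp.ne'
  have h2 : HasDerivAt (fun s => Real.log (D.Θ n e 1) - n / 2 * Real.log s) (-(n / 2 * t⁻¹)) t :=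
    ((Real.hasDerivAt_log ht.ne').const_mul _).const_sub _
  have h3 : HasDerivAt (fun s => Real.log (D.p s e e)) (-(n / 2 * t⁻¹)) t :=
    h2.congr_of_eventuallyEq ((lt_mem_nhds ht).mono fun s hs => log_p_ctr h he hs)
  have h4 := h1.unique h3
  rw [div_eq_iff hp.ne'] at h4
  rw [h4]; field_simp

theorem gau_log (h : PreModel D n) {e : X} (hG : Gau D n e) {t : ℝ} (ht : 0 < t) (z : X) :
    Real.log (D.p t e z) =
      Real.log (D.Θ n e 1) - n / 2 * Real.log t - FF e z / (2 * t) := by
  have hs := Real.sqrt_pos.2 ht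
  have h1 := congrArg Real.log (hG _ z hs)
  rw [Real.sq_sqrt ht.le, Real.log_mul (by positivity) (h.p_pos t e z ht).ne', log_sqrt_pow n ht,
    Real.log_mul (h.toHP.Θ_pos e one_pos).ne' (Real.exp_pos _).ne', Real.log_exp] at h1
  have e1 : FF e z / (2 * t) = dist e z ^ 2 / (4 * t) := by unfold FF; field_simp; ring
  rw [e1]; linarith

/-- The Gaussian formula from a differential equation in time. -/
theorem gau_of_ode (h : PreModel D n) {e : X} (he : D.Ctr n e)
    (hq : ∀ t z, 0 < t → t * (D.dp t e z / D.p t e z + n / (2 * t)) =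
      -(Real.log (D.p t e z) - Real.log (D.p t e e))) :
    Gau D n e ∧ ∀ t z, 0 < t →
      -2 * t * (Real.log (D.p t e z) - Real.log (D.p t e e)) = FF e z := by
  have key : ∀ t z, 0 < t →
      -2 * t * (Real.log (D.p t e z) - Real.log (D.p t e e)) = FF e z := by
    intro t z ht
    set g : ℝ → ℝ := fun s => s * (Real.log (D.p s e z) - Real.log (D.p s e e)) with hg
    have hd : ∀ s ∈ Ioi (0 : ℝ), HasDerivAt g 0 s := fun s hs => by
      have hs' : 0 < s := hs
      have hp := h.p_pos s e e hs'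
      have h1 := (hasDerivAt_id' s).mul
        (((h.der s e z hs').log (h.p_pos s e z hs').ne').sub ((h.der s e e hs').log hp.ne'))
      refine h1.congr_deriv ?_
      have h2 := hq s z hs'
      have h3 : D.dp s e e / D.p s e e = -(n / (2 * s)) := by
        rw [dp_ctr h he hs', mul_div_cancel_right₀ _ hp.ne']
      simp only [Pi.sub_apply]
      rw [h3]
      linarith
    have hc : ∀ s, 0 < s → g s = g t := fun s hs =>
      isOpen_Ioi.is_const_of_deriv_eq_zero isPreconnected_Ioi
        (fun u hu => (hd u hu).differentiableAt.differentiableWithinAt)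
        (fun u hu => (hd u hu).deriv) hs ht
    have h1 := (varadhan h e z).sub (varadhan h e e)
    have h2 : Tendsto (fun s => -4 * s * Real.log (D.p s e z) - -4 * s * Real.log (D.p s e e))
        (𝓝[>] 0) (𝓝 (-4 * g t)) := by
      refine tendsto_const_nhds.congr' (eventually_mem_nhdsWithin.mono fun s hs => ?_)
      rw [← hc s hs, hg]; ring
    have h3 := tendsto_nhds_unique h1 h2
    simp only [dist_self, hg] at h3
    unfold FF
    linarith
  refine ⟨fun r y hr => ?_, key⟩
  have ht : 0 < r ^ 2 := by positivity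
  have h1 := key _ y ht
  have hp := h.p_pos _ e y ht
  have hθ := h.toHP.Θ_pos e one_pos
  rw [log_p_ctr h he ht] at h1
  apply Real.log_injOn_pos (mem_Ioi.2 (by positivity)) (mem_Ioi.2 (by positivity))
  rw [Real.log_mul (by positivity) hp.ne', Real.log_mul hθ.ne' (Real.exp_pos _).ne', Real.log_exp,
    Real.log_pow]
  rw [Real.log_pow] at h1
  unfold FF at h1
  have e1 : dist e y ^ 2 / (4 * r ^ 2) = -(Real.log (D.p (r ^ 2) e y) -
      (Real.log (D.Θ n e 1) - n / 2 * (((2 : ℕ) : ℝ) * Real.log r))) := by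
    rw [div_eq_iff (by positivity)]; linarith
  rw [e1]; push_cast; ring

end RC.Co
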