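import Pool.Agent.P.MP_6472e5_gt.CoA1
import Pool.Agent.P.MP_6472e5_gt.CoA3

/-! Equality in the Li-Yau inequality at a centre. -/

set_option autoImplicit false
set_option linter.unusedSectionVars false

noncomputable section

namespace RC.Co

open MeasureTheory Set Filter Topology Metric

variable {X : Type} [MetricSpace X] [ProperSpace X] [MeasurableSpace X] [BorelSpace X]
  {μ : Measure X} {D : DS μ} {κ : ℝ} {n : ℕ}

theorem ly_eq (h : PreModel D n) {e : X} (he : D.Ctr n e) {t : ℝ} (ht : 0 < t) :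
    ∀ᵐ z ∂μ, D.G (D.p t e) (D.p t e) z =
      D.p t e z * (D.dp t e z + n / (2 * t) * D.p t e z) := by
  have tb := h.p_tb t e ht
  have mu : MemLp (D.p t e) 2 μ := D.memLp _ tb.mem
  have md : MemLp (D.dp t e) 2 μ := D.memLp _ tb.memL
  have i1 : Integrable (fun z => D.dp t e z * D.p t e z) μ := md.integrable_mul mu
  have i2 : Integrable (fun z => D.p t e z * D.p t e z) μ := mu.integrable_mul mu
  have i3 : Integrable (D.G (D.p t e) (D.p t e)) μ := DS.G_int tb.mem tb.mem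
  have e1 := int_dpp h.toHP ht ht e e
  have e2 := int_pp h.toHP ht ht e e
  have e3 := tb.lap.test tb.mem md tb.mem
  have e4 := dp_ctr h he (add_pos ht ht)
  have hly := h.ly t e ht
  have h0 : 0 ≤ᵐ[μ] fun z => D.dp t e z * D.p t e z + n / (2 * t) * (D.p t e z * D.p t e z) -
      D.G (D.p t e) (D.p t e) z := by
    filter_upwards [hly] with z hz
    have e5 : D.p t e z * ((1 + 2 * 0 * t / 3) * D.dp t e z +
        n / 2 * (1 / t + 0 + 0 ^ 2 * t / 3) * D.p t e z) =
        D.dp t e z * D.p t e z + n / (2 * t) * (D.p t e z * D.p t e z) := by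
      field_simp
      ring
    rw [e5] at hz
    simp only [Pi.zero_apply]
    linarith
  have i5 : Integrable
      (fun z => D.dp t e z * D.p t e z + n / (2 * t) * (D.p t e z * D.p t e z)) μ :=
    i1.add (i2.const_mul _)
  have i4 : Integrable (fun z => D.dp t e z * D.p t e z + n / (2 * t) * (D.p t e z * D.p t e z) -
      D.G (D.p t e) (D.p t e) z) μ := i5.sub i3
  have hI : ∫ z, (D.dp t e z * D.p t e z + n / (2 * t) * (D.p t e z * D.p t e z) -
      D.G (D.p t e) (D.p t e) z) ∂μ = 0 := by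
    rw [integral_sub i5 i3, integral_add i1 (i2.const_mul _),
      integral_const_mul, e3, e1, e2, e4]
    field_simp
    ring
  have hz := (integral_eq_zero_iff_of_nonneg_ae h0 i4).1 hI
  filter_upwards [hz] with z hz
  simp only [Pi.zero_apply] at hz
  linarith

theorem lap_log (h : PreModel D n) {e : X} (he : D.Ctr n e) {t : ℝ} (ht : 0 < t) :
    D.Lap (fun z => Real.log (D.p t e z)) (fun _ => -(n / (2 * t))) ∧
      ∀ᵐ z ∂μ, D.G (fun z => Real.log (D.p t e z)) (fun z => Real.log (D.p t e z)) z =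
        D.dp t e z / D.p t e z + n / (2 * t) := by
  have tb := h.p_tb t e ht
  have hpos : ∀ z, 0 < D.p t e z := fun z => h.p_pos t e z ht
  have hin : LocIn μ (D.p t e) (Ioi 0) := locIn_of_continuous (p_cont' h.toHP ht e) hpos
  have d1 : ∀ s ∈ Ioi (0 : ℝ), HasDerivAt Real.log s⁻¹ s := fun s hs =>
    Real.hasDerivAt_log (ne_of_gt hs)
  have d2 : ∀ s ∈ Ioi (0 : ℝ), HasDerivAt (fun s : ℝ => s⁻¹) (-(s ^ 2)⁻¹) s := fun s hs =>
    hasDerivAt_inv (ne_of_gt hs)
  have c1 : ContinuousOn (fun s : ℝ => s⁻¹) (Ioi 0) :=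
    continuousOn_id.inv₀ fun s hs => ne_of_gt hs
  have c2 : ContinuousOn (fun s : ℝ => -(s ^ 2)⁻¹) (Ioi 0) :=
    ((continuousOn_id.pow 2).inv₀ fun s hs => pow_ne_zero 2 (ne_of_gt hs)).neg
  have hL := tb.lap.chain isOpen_Ioi hin d1 d2 c2
  have hE := ly_eq h he ht
  refine ⟨hL.congr (ae_eq_refl _) ?_, ?_⟩
  · filter_upwards [hE] with z hz
    rw [hz]
    have := (hpos z).ne'
    field_simp
    ring
  · have wu := tb.lap.1
    have wl := hL.1
    filter_upwards [hE, DS.W.chain wu wl isOpen_Ioi hin d1 c1, DS.G_symm wu wl,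
      DS.W.chain wu wu isOpen_Ioi hin d1 c1] with z hz a1 a2 a3
    rw [a1, a2, a3, hz]
    have := (hpos z).ne'
    field_simp

theorem lap_q (h : PreModel D n) {e : X} (he : D.Ctr n e) {t : ℝ} (ht : 0 < t) :
    D.Lap (fun z => D.dp t e z / D.p t e z) (fun _ => n / (2 * t ^ 2)) := by
  have tb := h.p_tb t e ht
  have hpos : ∀ z, 0 < D.p t e z := fun z => h.p_pos t e z ht
  have hin : LocIn μ (D.p t e) (Ioi 0) := locIn_of_continuous (p_cont' h.toHP ht e) hpos
  obtain ⟨dd, tbd, hdd⟩ := exists_dd h.toHP ht e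
  have hu := derV_p h.toHP ht e
  have hc : HasDerivAt (fun s : ℝ => (n : ℝ) / (2 * s)) (-(n / (2 * t ^ 2))) t := by
    have h1 := (hasDerivAt_inv ht.ne').const_mul ((n : ℝ) / 2)
    have e1 : (fun s : ℝ => (n : ℝ) / (2 * s)) = fun s => (n : ℝ) / 2 * s⁻¹ := by
      funext s
      rw [div_mul_eq_div_div, div_eq_mul_inv]
    have e2 : -((n : ℝ) / (2 * t ^ 2)) = (n : ℝ) / 2 * -(t ^ 2)⁻¹ := by
      field_simp
    rw [e1, e2]
    exact h1
  have A := hu.G_self
  have B := ((hu.derL2.mul hdd.derL2).add ((hu.derL2.mul hu.derL2).smul hc))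
  have hAB := derL1_unique A B (by
    filter_upwards [Ioi_mem_nhds ht] with s hs
    filter_upwards [ly_eq h he hs] with z hz
    simp only [Pi.add_apply, Pi.smul_apply, smul_eq_mul]
    rw [hz]
    ring)
  have d1 : ∀ s ∈ Ioi (0 : ℝ), HasDerivAt (fun s : ℝ => s⁻¹) (-(s ^ 2)⁻¹) s := fun s hs =>
    hasDerivAt_inv (ne_of_gt hs)
  have d2 : ∀ s ∈ Ioi (0 : ℝ), HasDerivAt (fun s : ℝ => -(s ^ 2)⁻¹) (2 * (s ^ 3)⁻¹) s := by
    intro s hs
    have hs' : s ≠ 0 := ne_of_gt hs
    have h1 := ((hasDerivAt_pow 2 s).inv (pow_ne_zero 2 hs')).neg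
    have e2 : 2 * (s ^ 3)⁻¹ = -(-(((2 : ℕ) : ℝ) * s ^ (2 - 1)) / (s ^ 2) ^ 2) := by
      push_cast
      field_simp
    rw [e2]
    exact h1
  have c0 : ContinuousOn (fun s : ℝ => s⁻¹) (Ioi 0) :=
    continuousOn_id.inv₀ fun s hs => ne_of_gt hs
  have c1 : ContinuousOn (fun s : ℝ => -(s ^ 2)⁻¹) (Ioi 0) :=
    ((continuousOn_id.pow 2).inv₀ fun s hs => pow_ne_zero 2 (ne_of_gt hs)).neg
  have c2 : ContinuousOn (fun s : ℝ => 2 * (s ^ 3)⁻¹) (Ioi 0) :=
    continuousOn_const.mul ((continuousOn_id.pow 3).inv₀ fun s hs => pow_ne_zero 3 (ne_of_gt hs))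
  have hL := tb.lap.chain isOpen_Ioi hin d1 d2 c2
  have b1 : LocBdd μ (D.dp t e) := by
    obtain ⟨C, hC⟩ := tbd.bdd
    exact fun x r => ⟨C, hC.mono fun y hy _ => hy⟩
  have b2 : LocBdd μ (fun z => (D.p t e z)⁻¹) := hin.locBdd c0
  have hM := tbd.lap.mul hL b1 b2
  have wu := tb.lap.1
  have wd := tbd.lap.1
  refine hM.congr (Eventually.of_forall fun z => ?_) ?_
  · simp only [Pi.mul_apply, div_eq_mul_inv]
  · filter_upwards [hAB, ly_eq h he ht, DS.G_symm wd hL.1,
      DS.W.chain wu wd isOpen_Ioi hin d1 c1] with z a1 a2 a3 a4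
    simp only [Pi.add_apply, Pi.smul_apply, smul_eq_mul] at a1
    have a5 : D.G (D.p t e) (D.dp t e) z = (D.dp t e z * D.dp t e z + D.p t e z * dd z +
        (-(n / (2 * t ^ 2)) * (D.p t e z * D.p t e z) +
          n / (2 * t) * (D.dp t e z * D.p t e z + D.p t e z * D.dp t e z))) / 2 := by
      linarith
    rw [a3, a4, a5, a2]
    have := (hpos z).ne'
    field_simp
    ring

end RC.Co
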