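import Pool.Agent.P.MP_6472e5_gt.CoC0

/-! The commutator of the Laplacian with the gradient of a potential. -/

set_option autoImplicit false
set_option linter.unusedSectionVars false

noncomputable section

namespace RC.Co

open MeasureTheory Set Filter Topology Metric

variable {X : Type} [MetricSpace X] [ProperSpace X] [MeasurableSpace X] [BorelSpace X]
  {μ : Measure X} {D : DS μ} {κ : ℝ} {n : ℕ}

namespace CoCAux

theorem loc {φ u v : X → ℝ} (hφ : D.W φ) (hu : D.W u) (hv : D.W v)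
    (h : ∀ᵐ y ∂μ, φ y ≠ 0 → u y = v y) : ∫ y, D.G φ u y ∂μ = ∫ y, D.G φ v y ∂μ := by
  refine integral_congr_ae ?_
  filter_upwards [h, DS.G_loc hφ hφ hu hv, DS.G_level hφ hu 0, DS.G_level hφ hv 0]
    with y a1 a2 a3 a4
  by_cases e : φ y = 0
  · rw [a3 e, a4 e]
  · exact a2 rfl (a1 e)

theorem pert (h : R1 D 0 n) {φ f Lf g Lg : X → ℝ} (hφ : LipB φ) (h0 : ∀ x, 0 ≤ φ x)
    (hf : D.Tb f Lf) (hg : D.Tb g Lg) (h1 : ∀ᵐ y ∂μ, φ y ≠ 0 → Lf y = n)
    (h2 : D.B2 φ f Lf f Lf = n * ∫ y, φ y ∂μ) : D.B2 φ f Lf g Lg = ∫ y, φ y * Lg y ∂μ := by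
  have mφ := D.lip φ hφ
  have hn : (n : ℝ) ≠ 0 := Nat.cast_ne_zero.2 h.n_pos.ne'
  have i1 := D.lipB_int hφ
  have i2 : Integrable (fun y => φ y * Lg y) μ := by
    simpa only [mul_comm] using hg.lap.2.1.mul_lipB hφ
  have i3 : Integrable (fun y => φ y * Lg y ^ 2) μ := by
    simpa only [mul_comm] using hg.WL.locInt_sq.mul_lipB hφ
  have key : ∀ ε : ℝ, 0 ≤ (D.B2 φ g Lg g Lg - (n : ℝ)⁻¹ * ∫ y, φ y * Lg y ^ 2 ∂μ) * (ε * ε) +
      2 * (D.B2 φ f Lf g Lg - ∫ y, φ y * Lg y ∂μ) * ε + 0 := fun ε => by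
    have hε := hg.smul ε
    have hs := hf.add hε
    have k := h.B2_ge mφ hφ.bdd (ae_of_all _ h0) hs
    rw [h.B2_add mφ hφ.bdd hf hε hs, h.B2_smul ε mφ hg hs, h.B2_symm mφ hf hs, h.B2_symm mφ hg hs,
      h.B2_add mφ hφ.bdd hf hε hf, h.B2_add mφ hφ.bdd hf hε hg, h.B2_smul ε mφ hg hf,
      h.B2_smul ε mφ hg hg, h.B2_symm mφ hg hf, h2] at k
    have e : ∫ x, φ x * ((Lf + ε • Lg) x ^ 2 / n - 0 * D.G (f + ε • g) (f + ε • g) x) ∂μ =
        ∫ x, (n * φ x + (2 * ε * (φ x * Lg x) + ε ^ 2 * (n : ℝ)⁻¹ * (φ x * Lg x ^ 2))) ∂μ := by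
      refine integral_congr_ae (h1.mono fun y a => ?_)
      by_cases e : φ y = 0
      · simp only [e, zero_mul, mul_zero, add_zero]
      · simp only [Pi.add_apply, Pi.smul_apply, smul_eq_mul, a e]
        field_simp
        ring
    rw [e, integral_add (i1.const_mul _) ((i2.const_mul _).fun_add (i3.const_mul _)),
      integral_add (i2.const_mul _) (i3.const_mul _)] at k
    simp only [integral_const_mul] at k
    linarith
  have := discrim_le_zero key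
  rw [discrim, mul_zero, sub_zero] at this
  have := pow_eq_zero_iff two_ne_zero |>.1 (le_antisymm this (sq_nonneg _))
  linarith

end CoCAux

theorem Pot.lie (h : R1 D 0 n) {F g Lg : X → ℝ} (P : Pot D n F) (hg : D.Tb g Lg) :
    D.Lap (D.G F g) (fun x => D.G F Lg x + 2 * Lg x) := by
  have wG := P.WG h hg
  have l1 := DS.G_locInt P.W hg.WL
  refine lap_of_nonneg wG (l1.add (hg.lap.2.1.smul 2)) fun φ hφ h0 => ?_
  rcases isEmpty_or_nonempty X with _ | ⟨⟨x⟩⟩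
  · simp only [Measure.eq_zero_of_isEmpty μ, integral_zero_measure, neg_zero]
  obtain ⟨R, -, hR⟩ := hφ.exists_ball x
  obtain ⟨f, Lf, hf, e⟩ := P.loc x R
  have wφ := D.W_of_mem (D.lip φ hφ)
  have hb : ∀ y, φ y ≠ 0 → y ∈ ball x R := fun y hy => by_contra fun k => hy (hR y k)
  have h1 : ∀ᵐ y ∂μ, φ y ≠ 0 → Lf y = n :=
    (hf.lap.loc P.lap isOpen_ball 0 (ae_of_all _ fun y hy => by rw [e y hy, add_zero])).mono
      fun y a hy => a (hb y hy)
  have h2 : ∀ k, D.W k → ∀ᵐ y ∂μ, φ y * D.G k Lf y = 0 := fun k hk => by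
    filter_upwards [h1, DS.G_symm hk hf.WL, DS.G_level hf.WL hk n] with y a1 a2 a3
    by_cases c : φ y = 0
    · rw [c, zero_mul]
    · rw [a2, a3 (a1 c), mul_zero]
  have h3 : D.B2 φ f Lf f Lf = n * ∫ y, φ y ∂μ := by
    rw [tba_B2, integral_congr_ae (h2 f hf.W), integral_zero,
      CoCAux.loc wφ (D.W_of_mem (h.G_mem hf hf)) P.lapG.1
        ((DS.G_loc hf.W P.W hf.W P.W).mono fun y a hy => a (e y (hb y hy)) (e y (hb y hy))),
      integral_congr_ae (DS.G_symm wφ P.lapG.1), P.lapG.2.2 φ hφ, integral_const_mul]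
    ring
  have k := CoCAux.pert h hφ h0 hf hg h1 h3
  have h4 : ∫ y, φ y * (D.G f Lg y + D.G g Lf y) ∂μ = ∫ y, D.G F Lg y * φ y ∂μ := by
    refine integral_congr_ae ?_
    filter_upwards [h2 g hg.W, DS.G_loc hf.W P.W hg.WL hg.WL] with y a1 a2
    rw [mul_add, a1, add_zero, mul_comm]
    by_cases c : φ y = 0
    · rw [c, mul_zero, mul_zero]
    · rw [a2 (e y (hb y c)) rfl]
  rw [DS.B2, h4, CoCAux.loc wφ (D.W_of_mem (h.G_mem hf hg)) wG
    ((DS.G_loc hf.W P.W hg.W hg.W).mono fun y a hy => a (e y (hb y hy)) rfl),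
    integral_congr_ae (DS.G_symm wφ wG)] at k
  have i2 := hg.lap.2.1.mul_lipB hφ
  simp only [add_mul, mul_assoc]
  rw [integral_add (l1.mul_lipB hφ) (i2.const_mul 2), integral_const_mul]
  simp only [mul_comm (φ _)] at k
  linarith

end RC.Co
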