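import Pool.Agent.P.MP_6472e5_gt.Ca5

/-! The algebra of test functions, the Hessian identity and the Kato inequality. -/

set_option autoImplicit false
set_option linter.unusedSectionVars false

noncomputable section

namespace RC

open MeasureTheory Set Filter Topology Metric

variable {X : Type} [MetricSpace X] [SecondCountableTopology X] [MeasurableSpace X] [BorelSpace X]
  {μ : Measure X}

variable {D : DS μ} {κ : ℝ} {n : ℕ}

/-- The iterated carre du champ tested against `φ`. -/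
def DS.B2 (D : DS μ) (φ f Lf g Lg : X → ℝ) : ℝ :=
  -(1 / 2) * ∫ x, D.G φ (D.G f g) x ∂μ - 1 / 2 * ∫ x, φ x * (D.G f Lg x + D.G g Lf x) ∂μ

theorem tba_bdd {f : X → ℝ} {K : Set ℝ} (hK : IsCompact K) (hin : ∀ᵐ x ∂μ, f x ∈ K) {Φ : ℝ → ℝ}
    (hΦ : ContinuousOn Φ K) : Bdd μ fun x => Φ (f x) := by
  obtain ⟨C, hC⟩ := hK.exists_bound_of_continuousOn hΦ
  exact ⟨C, hin.mono fun x hx => hC _ hx⟩

theorem tba_locIn {f : X → ℝ} {K O : Set ℝ} (hK : IsCompact K) (hKO : K ⊆ O)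
    (hin : ∀ᵐ x ∂μ, f x ∈ K) : LocIn μ f O := fun _ _ => ⟨K, hK, hKO, hin.mono fun _ hx _ => hx⟩

theorem tba_int {φ f g : X → ℝ} (hφ : D.W φ) (bφ : Bdd μ φ) (hf : f ∈ D.V) (hg : g ∈ D.V) :
    Integrable (fun x => φ x * D.G f g x) μ := bφ.mul_integrable hφ.aesm (DS.G_int hf hg)

theorem tba_comp_mem {f : X → ℝ} (hf : f ∈ D.V) {K O : Set ℝ} (hK : IsCompact K) (hO : IsOpen O)
    (hKO : K ⊆ O) (h0 : (0 : ℝ) ∈ K) (hin : ∀ᵐ x ∂μ, f x ∈ K) {Φ Φ' : ℝ → ℝ} (hΦ : Φ 0 = 0)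
    (d1 : ∀ t ∈ O, HasDerivAt Φ (Φ' t) t) (hc : ContinuousOn Φ' O) :
    (fun x => Φ (f x)) ∈ D.V := by
  have wf := D.W_of_mem hf
  have hl := tba_locIn hK hKO hin
  have w := wf.comp hO hl d1 hc
  have c0 : ContinuousOn Φ O := fun t ht => (d1 t ht).continuousAt.continuousWithinAt
  have c1 : ContinuousOn (dslope Φ 0) O :=
    (continuousOn_dslope (hO.mem_nhds (hKO h0))).2 ⟨c0, (d1 0 (hKO h0)).differentiableAt⟩
  obtain ⟨C, hC⟩ := tba_bdd hK hin (c1.mono hKO)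
  obtain ⟨B, hB⟩ := tba_bdd hK hin (hc.mono hKO)
  refine w.mem ?_ ?_
  · refine (D.memLp f hf).of_le_mul (c := C) w.aesm (hC.mono fun x hx => ?_)
    have := sub_smul_dslope Φ 0 (f x)
    rw [hΦ, sub_zero, sub_zero, smul_eq_mul] at this
    rw [← this, Real.norm_eq_abs, Real.norm_eq_abs, abs_mul, mul_comm]
    gcongr
  · refine ((DS.G_int hf hf).const_mul (B ^ 2)).mono' (DS.G_aesm w w) ?_
    filter_upwards [wf.chain w hO hl d1 hc, wf.chain wf hO hl d1 hc, DS.G_symm wf w, hB,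
      DS.G_nonneg wf] with x h1 h2 h3 h4 h5
    rw [h1, h3, h2, ← mul_assoc, ← sq, Real.norm_eq_abs, abs_of_nonneg (by positivity)]
    exact mul_le_mul_of_nonneg_right (sq_le_sq' (abs_le.1 h4).1 (abs_le.1 h4).2) h5

theorem tba_comp_mul {f g : X → ℝ} (hf : f ∈ D.V) (hg : g ∈ D.V) (bg : Bdd μ g) {K O : Set ℝ}
    (hK : IsCompact K) (hO : IsOpen O) (hKO : K ⊆ O) (h0 : (0 : ℝ) ∈ K)
    (hin : ∀ᵐ x ∂μ, f x ∈ K) {Φ Φ' : ℝ → ℝ} (d1 : ∀ t ∈ O, HasDerivAt Φ (Φ' t) t)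
    (hc : ContinuousOn Φ' O) : (fun x => Φ (f x) * g x) ∈ D.V := by
  have c0 : ContinuousOn Φ O := fun t ht => (d1 t ht).continuousAt.continuousWithinAt
  have h1 := tba_comp_mem hf hK hO hKO h0 hin (Φ := fun t => Φ t - Φ 0) (sub_self _)
    (fun t ht => (d1 t ht).sub_const _) hc
  have h2 := tba_bdd hK hin (Φ := fun t => Φ t - Φ 0) ((c0.mono hKO).sub continuousOn_const)
  refine D.congr _ (D.add _ (D.mul_mem h1 hg h2 bg) _ (D.smul (Φ 0) g hg)) _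
    (Eventually.of_forall fun x => ?_)
  simp only [Pi.add_apply, Pi.mul_apply, Pi.smul_apply, smul_eq_mul]
  ring

namespace DS.Tb

theorem congr {f Lf f' Lf' : X → ℝ} (h : D.Tb f Lf) (h1 : f =ᵐ[μ] f') (h2 : Lf =ᵐ[μ] Lf') :
    D.Tb f' Lf' :=
  ⟨D.congr _ h.mem _ h1, h.bdd.congr h1, h.bddG.congr (G_congr h.lap.1 h.lap.1 h1 h1),
    h.lap.congr h1 h2, D.congr _ h.memL _ h2, h.bddL.congr h2⟩

theorem zero : D.Tb 0 0 :=
  ⟨D.zero_mem, Bdd.const 0, (Bdd.const 0).congr (EventuallyEq.symm (G_const 0 (D.W_const 0))),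
    lap_const 0, D.zero_mem, Bdd.const 0⟩

theorem add {f Lf g Lg : X → ℝ} (hf : D.Tb f Lf) (hg : D.Tb g Lg) : D.Tb (f + g) (Lf + Lg) := by
  refine ⟨D.add _ hf.mem _ hg.mem, hf.bdd.add hg.bdd, ?_, hf.lap.add hg.lap,
    D.add _ hf.memL _ hg.memL, hf.bddL.add hg.bddL⟩
  exact ((hf.bddG.add ((DS.G_bdd hf.lap.1 hg.lap.1 hf.bddG hg.bddG).smul 2)).add hg.bddG).congr
    (EventuallyEq.symm (G_add_add hf.lap.1 hg.lap.1))

theorem smul (c : ℝ) {f Lf : X → ℝ} (hf : D.Tb f Lf) : D.Tb (c • f) (c • Lf) :=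
  ⟨D.smul c _ hf.mem, hf.bdd.smul c,
    (hf.bddG.smul (c ^ 2)).congr (EventuallyEq.symm (G_smul_smul c hf.lap.1)), hf.lap.smul c,
    D.smul c _ hf.memL, hf.bddL.smul c⟩

theorem sub {f Lf g Lg : X → ℝ} (hf : D.Tb f Lf) (hg : D.Tb g Lg) : D.Tb (f - g) (Lf - Lg) := by
  have h := hf.add (hg.smul (-1))
  rwa [neg_one_smul, neg_one_smul, ← sub_eq_add_neg, ← sub_eq_add_neg] at h

theorem sum {ι : Type} (s : Finset ι) {f Lf : ι → X → ℝ} (h : ∀ i ∈ s, D.Tb (f i) (Lf i)) :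
    D.Tb (∑ i ∈ s, f i) (∑ i ∈ s, Lf i) := by
  classical
  induction s using Finset.induction_on with
  | empty => simpa using zero
  | insert a s ha ih =>
    rw [Finset.sum_insert ha, Finset.sum_insert ha]
    exact (h a (Finset.mem_insert_self _ _)).add
      (ih fun i hi => h i (Finset.mem_insert_of_mem hi))

theorem W {f Lf : X → ℝ} (h : D.Tb f Lf) : D.W f := h.lap.1

theorem WL {f Lf : X → ℝ} (h : D.Tb f Lf) : D.W Lf := D.W_of_mem h.memL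

theorem G_bdd {f Lf g Lg : X → ℝ} (hf : D.Tb f Lf) (hg : D.Tb g Lg) : Bdd μ (D.G f g) :=
  DS.G_bdd hf.W hg.W hf.bddG hg.bddG

end DS.Tb

theorem tba_B2 (φ f Lf : X → ℝ) : D.B2 φ f Lf f Lf =
    -(1 / 2) * ∫ x, D.G φ (D.G f f) x ∂μ - ∫ x, φ x * D.G f Lf x ∂μ := by
  unfold DS.B2
  simp only [← two_mul, mul_left_comm (φ _) 2, integral_const_mul]
  ring

theorem tba_range {f : X → ℝ} (hf : D.W f) (b : Bdd μ (D.G f f)) :
    ∃ C : ℝ, 0 ≤ C ∧ ∀ᵐ x ∂μ, D.G f f x ∈ Icc 0 C := by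
  obtain ⟨C, hC, hb⟩ := b.nonneg
  refine ⟨C, hC.le, ?_⟩
  filter_upwards [hb, DS.G_nonneg hf] with x h1 h2 using ⟨h2, (le_abs_self _).trans h1⟩

namespace R1

variable (h : R1 D κ n)
include h

theorem G_mem {f Lf g Lg : X → ℝ} (hf : D.Tb f Lf) (hg : D.Tb g Lg) : D.G f g ∈ D.V := by
  refine D.congr _ (D.smul (1 / 2) _ (D.sub_mem (D.sub_mem (h.sav _ _ (hf.add hg)) (h.sav _ _ hf))
    (h.sav _ _ hg))) _ ?_
  filter_upwards [DS.G_add_add hf.W hg.W] with x hx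
  simp only [Pi.smul_apply, Pi.sub_apply, smul_eq_mul, hx]
  ring

theorem tb_mul {f Lf g Lg : X → ℝ} (hf : D.Tb f Lf) (hg : D.Tb g Lg) :
    D.Tb (f * g) (fun x => f x * Lg x + g x * Lf x + 2 * D.G f g x) := by
  have hm := D.mul_mem hf.mem hg.mem hf.bdd hg.bdd
  have w := D.W_of_mem hm
  refine ⟨hm, hf.bdd.mul hg.bdd, ?_, hf.lap.mul hg.lap hf.bdd.locBdd hg.bdd.locBdd,
    D.add _ (D.add _ (D.mul_mem hf.mem hg.memL hf.bdd hg.bddL) _
      (D.mul_mem hg.mem hf.memL hg.bdd hf.bddL)) _ (D.smul 2 _ (h.G_mem hf hg)),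
    ((hf.bdd.mul hg.bddL).add (hg.bdd.mul hf.bddL)).add ((hf.G_bdd hg).smul 2)⟩
  refine ((hf.bdd.mul ((hf.bdd.mul hg.bddG).add (hg.bdd.mul (hg.G_bdd hf)))).add
    (hg.bdd.mul ((hf.bdd.mul (hf.G_bdd hg)).add (hg.bdd.mul hf.bddG)))).congr ?_
  filter_upwards [DS.G_mul hf.W hg.W w w, DS.G_mul_right hf.W hg.W w hg.W,
    DS.G_mul_right hf.W hg.W w hf.W] with x h1 h2 h3
  simp only [Pi.add_apply, Pi.mul_apply, h1, h2, h3]

theorem tb_comp {f Lf : X → ℝ} (hf : D.Tb f Lf) {K O : Set ℝ} (hK : IsCompact K) (hO : IsOpen O)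
    (hKO : K ⊆ O) (h0 : (0 : ℝ) ∈ K) (hin : ∀ᵐ x ∂μ, f x ∈ K) {Φ Φ' Φ'' Φ''' : ℝ → ℝ}
    (hΦ : Φ 0 = 0) (d1 : ∀ t ∈ O, HasDerivAt Φ (Φ' t) t) (d2 : ∀ t ∈ O, HasDerivAt Φ' (Φ'' t) t)
    (d3 : ∀ t ∈ O, HasDerivAt Φ'' (Φ''' t) t) (hc : ContinuousOn Φ''' O) :
    D.Tb (fun x => Φ (f x)) (fun x => Φ' (f x) * Lf x + Φ'' (f x) * D.G f f x) := by
  have c0 : ContinuousOn Φ O := fun t ht => (d1 t ht).continuousAt.continuousWithinAt
  have c1 : ContinuousOn Φ' O := fun t ht => (d2 t ht).continuousAt.continuousWithinAt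
  have c2 : ContinuousOn Φ'' O := fun t ht => (d3 t ht).continuousAt.continuousWithinAt
  have hl := tba_locIn hK hKO hin
  have hm := tba_comp_mem hf.mem hK hO hKO h0 hin hΦ d1 c1
  have w := D.W_of_mem hm
  have b1 := tba_bdd hK hin (c1.mono hKO)
  have b2 := tba_bdd hK hin (c2.mono hKO)
  refine ⟨hm, tba_bdd hK hin (c0.mono hKO), ?_, hf.lap.chain hO hl d1 d2 c2,
    D.add _ (tba_comp_mul hf.mem hf.memL hf.bddL hK hO hKO h0 hin d2 c2) _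
      (tba_comp_mul hf.mem (h.sav _ _ hf) hf.bddG hK hO hKO h0 hin d3 hc),
    (b1.mul hf.bddL).add (b2.mul hf.bddG)⟩
  refine (b1.mul (b1.mul hf.bddG)).congr ?_
  filter_upwards [hf.W.chain w hO hl d1 c1, hf.W.chain hf.W hO hl d1 c1, DS.G_symm hf.W w]
    with x h1 h2 h3
  simp only [Pi.mul_apply, h1, h2, h3]

theorem exists_lip {f Lf : X → ℝ} (hf : D.Tb f Lf) : ∃ g L, LipschitzWith L g ∧ f =ᵐ[μ] g := by
  obtain ⟨C, hC, hb⟩ := hf.bddG.nonneg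
  have hs : 0 < √C := Real.sqrt_pos.2 hC
  obtain ⟨g, hg, e⟩ := h.s2l _ (D.smul (√C)⁻¹ _ hf.mem) (by
    filter_upwards [DS.G_smul_smul (√C)⁻¹ hf.W, hb] with x h1 h2
    rw [h1, inv_pow, Real.sq_sqrt hC.le, inv_mul_le_iff₀ hC, mul_one]
    exact (le_abs_self _).trans h2)
  refine ⟨fun x => √C • g x, _, (lipschitzWith_smul (√C)).comp hg, ?_⟩
  filter_upwards [e] with x hx
  rw [← hx, Pi.smul_apply, smul_inv_smul₀ hs.ne']

theorem B2_symm {φ f Lf g Lg : X → ℝ} (hφ : φ ∈ D.V) (hf : D.Tb f Lf) (hg : D.Tb g Lg) :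
    D.B2 φ f Lf g Lg = D.B2 φ g Lg f Lf := by
  unfold DS.B2
  rw [integral_congr_ae (DS.G_congr (D.W_of_mem hφ) (D.W_of_mem (h.G_mem hf hg)) EventuallyEq.rfl
    (DS.G_symm hf.W hg.W))]
  simp only [add_comm (D.G f Lg _)]

theorem B2_add {φ f Lf f' Lf' g Lg : X → ℝ} (hφ : φ ∈ D.V) (bφ : Bdd μ φ) (hf : D.Tb f Lf)
    (hf' : D.Tb f' Lf') (hg : D.Tb g Lg) :
    D.B2 φ (f + f') (Lf + Lf') g Lg = D.B2 φ f Lf g Lg + D.B2 φ f' Lf' g Lg := by
  have w := D.W_of_mem hφ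
  have m1 := h.G_mem hf hg
  have m2 := h.G_mem hf' hg
  have e1 : ∫ x, D.G φ (D.G (f + f') g) x ∂μ =
      ∫ x, D.G φ (D.G f g) x ∂μ + ∫ x, D.G φ (D.G f' g) x ∂μ := by
    rw [← integral_add (DS.G_int hφ m1) (DS.G_int hφ m2)]
    refine integral_congr_ae ((DS.G_congr (g' := D.G f g + D.G f' g) w
      (D.W_of_mem (h.G_mem (hf.add hf') hg)) EventuallyEq.rfl (DS.G_add hf.W hf'.W hg.W)).trans ?_)
    exact DS.G_add_right w (D.W_of_mem m1) (D.W_of_mem m2)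
  have e2 : ∫ x, φ x * (D.G (f + f') Lg x + D.G g (Lf + Lf') x) ∂μ =
      ∫ x, φ x * (D.G f Lg x + D.G g Lf x) ∂μ + ∫ x, φ x * (D.G f' Lg x + D.G g Lf' x) ∂μ := by
    refine Eq.trans (integral_congr_ae ?_) (integral_add
      (bφ.mul_integrable w.aesm ((DS.G_int hf.mem hg.memL).add (DS.G_int hg.mem hf.memL)))
      (bφ.mul_integrable w.aesm ((DS.G_int hf'.mem hg.memL).add (DS.G_int hg.mem hf'.memL))))
    filter_upwards [DS.G_add hf.W hf'.W hg.WL, DS.G_add_right hg.W hf.WL hf'.WL] with x h1 h2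
    simp only [h1, h2]
    ring
  unfold DS.B2
  rw [e1, e2]
  ring

theorem B2_smul (c : ℝ) {φ f Lf g Lg : X → ℝ} (hφ : φ ∈ D.V) (hf : D.Tb f Lf) (hg : D.Tb g Lg) :
    D.B2 φ (c • f) (c • Lf) g Lg = c * D.B2 φ f Lf g Lg := by
  have w := D.W_of_mem hφ
  have e1 : ∫ x, D.G φ (D.G (c • f) g) x ∂μ = c * ∫ x, D.G φ (D.G f g) x ∂μ := by
    rw [← integral_const_mul]
    refine integral_congr_ae ((DS.G_congr (g' := c • D.G f g) w
      (D.W_of_mem (h.G_mem (hf.smul c) hg)) EventuallyEq.rfl (DS.G_smul c hf.W hg.W)).trans ?_)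
    exact DS.G_smul_right c w (D.W_of_mem (h.G_mem hf hg))
  have e2 : ∫ x, φ x * (D.G (c • f) Lg x + D.G g (c • Lf) x) ∂μ =
      c * ∫ x, φ x * (D.G f Lg x + D.G g Lf x) ∂μ := by
    rw [← integral_const_mul]
    refine integral_congr_ae ?_
    filter_upwards [DS.G_smul c hf.W hg.WL, DS.G_smul_right c hg.W hf.WL] with x h1 h2
    simp only [h1, h2]
    ring
  unfold DS.B2
  rw [e1, e2]
  ring

theorem B2_add_test {φ ψ f Lf g Lg : X → ℝ} (hφ : φ ∈ D.V) (bφ : Bdd μ φ) (hψ : ψ ∈ D.V)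
    (bψ : Bdd μ ψ) (hf : D.Tb f Lf) (hg : D.Tb g Lg) :
    D.B2 (φ + ψ) f Lf g Lg = D.B2 φ f Lf g Lg + D.B2 ψ f Lf g Lg := by
  have w := D.W_of_mem hφ
  have w' := D.W_of_mem hψ
  have m1 := h.G_mem hf hg
  have i1 : Integrable (fun x => D.G f Lg x + D.G g Lf x) μ :=
    (DS.G_int hf.mem hg.memL).add (DS.G_int hg.mem hf.memL)
  have e1 : ∫ x, D.G (φ + ψ) (D.G f g) x ∂μ =
      ∫ x, D.G φ (D.G f g) x ∂μ + ∫ x, D.G ψ (D.G f g) x ∂μ := by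
    rw [← integral_add (DS.G_int hφ m1) (DS.G_int hψ m1)]
    exact integral_congr_ae (DS.G_add w w' (D.W_of_mem m1))
  unfold DS.B2
  simp only [e1, Pi.add_apply, add_mul (φ _)]
  rw [integral_add (bφ.mul_integrable w.aesm i1) (bψ.mul_integrable w'.aesm i1)]
  ring

theorem B2_ge {φ f Lf : X → ℝ} (hφ : φ ∈ D.V) (bφ : Bdd μ φ) (h0 : ∀ᵐ x ∂μ, 0 ≤ φ x)
    (hf : D.Tb f Lf) :
    ∫ x, φ x * (Lf x ^ 2 / n - κ * D.G f f x) ∂μ ≤ D.B2 φ f Lf f Lf := by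
  have w := D.W_of_mem hφ
  have h1 := h.be1 f Lf hf φ hφ bφ h0
  have i1 : Integrable (fun x => φ x * (Lf x ^ 2 / n - κ * D.G f f x)) μ :=
    bφ.mul_integrable w.aesm (((D.memLp _ hf.memL).integrable_sq.div_const _).sub
      ((DS.G_int hf.mem hf.mem).const_mul κ))
  have e1 : ∫ x, φ x * (Lf x ^ 2 / n + D.G f Lf x - κ * D.G f f x) ∂μ =
      ∫ x, φ x * (Lf x ^ 2 / n - κ * D.G f f x) ∂μ + ∫ x, φ x * D.G f Lf x ∂μ := by
    rw [← integral_add i1 (tba_int w bφ hf.mem hf.memL)]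
    exact integral_congr_ae (Eventually.of_forall fun x => by ring)
  rw [tba_B2]
  linarith

/-- The Hessian in terms of the iterated carre du champ. -/
theorem hess {φ g Lg f Lf : X → ℝ} (hφ : φ ∈ D.V) (bφ : Bdd μ φ) (hg : D.Tb g Lg)
    (hf : D.Tb f Lf) :
    D.B2 φ g Lg (fun x => f x ^ 2 / 2) (fun x => f x * Lf x + D.G f f x) -
      D.B2 (φ * f) g Lg f Lf =
      ∫ x, φ x * (D.G f (D.G g f) x - 1 / 2 * D.G g (D.G f f) x) ∂μ := by
  have w := D.W_of_mem hφ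
  have mA := h.G_mem hg hf
  have bA := hg.G_bdd hf
  have wA := D.W_of_mem mA
  have mS := h.sav _ _ hf
  have m1 := D.mul_mem hf.mem hf.mem hf.bdd hf.bdd
  have m2 := D.mul_mem hf.mem mA hf.bdd bA
  have m3 := D.mul_mem hf.mem hf.memL hf.bdd hf.bddL
  have m4 := D.mul_mem hφ hf.mem bφ hf.bdd
  have m5 := D.mul_mem hφ mA bφ bA
  have eu : (fun x => f x ^ 2 / 2) = (1 / 2 : ℝ) • (f * f) := by
    ext x
    simp only [Pi.smul_apply, Pi.mul_apply, smul_eq_mul]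
    ring
  have a1 : D.G g ((1 / 2 : ℝ) • (f * f)) =ᵐ[μ] f * D.G g f := by
    filter_upwards [DS.G_smul_right (1 / 2) hg.W (D.W_of_mem m1),
      DS.G_mul_right hf.W hf.W (D.W_of_mem m1) hg.W] with x h1 h2
    rw [h1, h2, Pi.mul_apply]
    ring
  have i1 := tba_int hf.W hf.bdd hφ mA
  have i2 := tba_int wA bA hφ hf.mem
  have i3 := tba_int w bφ hf.mem mA
  have i4 : Integrable (fun x => (φ * f) x * (D.G g Lf x + D.G f Lg x)) μ :=
    (bφ.mul hf.bdd).mul_integrable (D.aesm m4)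
      ((DS.G_int hg.mem hf.memL).add (DS.G_int hf.mem hg.memL))
  have i5 : Integrable (fun x => Lf x * (φ * D.G g f) x) μ :=
    integrable_mul_of_memLp (D.memLp _ hf.memL) (D.memLp _ m5)
  have i6 := tba_int w bφ hg.mem mS
  have e1 : ∫ x, D.G φ (D.G g ((1 / 2 : ℝ) • (f * f))) x ∂μ =
      ∫ x, f x * D.G φ (D.G g f) x ∂μ + ∫ x, D.G g f x * D.G φ f x ∂μ := by
    rw [← integral_add i1 i2]
    exact integral_congr_ae ((DS.G_congr w (D.W_of_mem m2) EventuallyEq.rfl a1.symm).symm.trans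
      (DS.G_mul_right hf.W wA (D.W_of_mem m2) w))
  have e2 : ∫ x, D.G (φ * f) (D.G g f) x ∂μ =
      ∫ x, φ x * D.G f (D.G g f) x ∂μ + ∫ x, f x * D.G φ (D.G g f) x ∂μ := by
    rw [← integral_add i3 i1]
    exact integral_congr_ae (DS.G_mul w hf.W (D.W_of_mem m4) wA)
  have e3 : ∫ x, φ x * (D.G g (f * Lf + D.G f f) x + D.G ((1 / 2 : ℝ) • (f * f)) Lg x) ∂μ =
      ∫ x, (φ * f) x * (D.G g Lf x + D.G f Lg x) ∂μ + ∫ x, Lf x * (φ * D.G g f) x ∂μ +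
        ∫ x, φ x * D.G g (D.G f f) x ∂μ := by
    rw [← integral_add i4 i5]
    refine Eq.trans (integral_congr_ae ?_) (integral_add (i4.add i5) i6)
    filter_upwards [DS.G_add_right hg.W (D.W_of_mem m3) (D.W_of_mem mS),
      DS.G_mul_right hf.W hf.WL (D.W_of_mem m3) hg.W, DS.G_smul (1 / 2) (D.W_of_mem m1) hg.WL,
      DS.G_mul hf.W hf.W (D.W_of_mem m1) hg.WL] with x h1 h2 h3 h4
    simp only [h1, h2, h3, h4, Pi.mul_apply]
    ring
  have e4 : ∫ x, φ x * D.G f (D.G g f) x ∂μ + ∫ x, D.G g f x * D.G φ f x ∂μ =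
      -∫ x, Lf x * (φ * D.G g f) x ∂μ := by
    rw [← hf.lap.test hf.mem (D.memLp _ hf.memL) m5, ← integral_add i3 i2]
    refine integral_congr_ae ?_
    filter_upwards [DS.G_mul_right w wA (D.W_of_mem m5) hf.W, DS.G_symm hf.W w] with x h1 h2
    rw [h1, h2]
  have e5 : ∫ x, φ x * (D.G f (D.G g f) x - 1 / 2 * D.G g (D.G f f) x) ∂μ =
      ∫ x, φ x * D.G f (D.G g f) x ∂μ - 1 / 2 * ∫ x, φ x * D.G g (D.G f f) x ∂μ := by
    rw [← integral_const_mul, ← integral_sub i3 (i6.const_mul _)]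
    exact integral_congr_ae (Eventually.of_forall fun x => by ring)
  change D.B2 φ g Lg _ (f * Lf + D.G f f) - _ = _
  unfold DS.B2
  rw [eu, e1, e2, e3, e5]
  linarith

theorem kato {φ f Lf : X → ℝ} (hφ : φ ∈ D.V) (bφ : Bdd μ φ) (h0 : ∀ᵐ x ∂μ, 0 ≤ φ x)
    (hf : D.Tb f Lf) {ε : ℝ} (hε : 0 < ε) :
    ∫ x, φ x * ((D.G f Lf x - κ * D.G f f x) / √(D.G f f x + ε ^ 2)) ∂μ ≤
      -∫ x, D.G φ (fun y => √(D.G f f y + ε ^ 2) - ε) x ∂μ := by
  have w := D.W_of_mem hφ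
  have mS := h.sav _ _ hf
  have wS := D.W_of_mem mS
  obtain ⟨C, hC, hin⟩ := tba_range hf.W hf.bddG
  have hε2 : 0 < ε ^ 2 := by positivity
  have hKO : Icc 0 C ⊆ Ioi (-ε ^ 2) := fun t ht => lt_of_lt_of_le (by linarith) ht.1
  have hp : ∀ t ∈ Ioi (-ε ^ 2), 0 < t + ε ^ 2 := fun t (ht : -ε ^ 2 < t) => by linarith
  have hq : ∀ t ∈ Ioi (-ε ^ 2), √(t + ε ^ 2) ≠ 0 := fun t ht => (Real.sqrt_pos.2 (hp t ht)).ne'
  have hl := tba_locIn isCompact_Icc hKO hin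
  have d0 : ∀ t ∈ Ioi (-ε ^ 2), HasDerivAt (fun t => √(t + ε ^ 2)) (1 / (2 * √(t + ε ^ 2))) t :=
    fun t ht => ((hasDerivAt_id t).add_const _).sqrt (hp t ht).ne'
  have d1 : ∀ t ∈ Ioi (-ε ^ 2), HasDerivAt (fun t => (√(t + ε ^ 2))⁻¹)
      (-(1 / (2 * √(t + ε ^ 2))) / √(t + ε ^ 2) ^ 2) t := fun t ht => (d0 t ht).inv (hq t ht)
  have cs : ContinuousOn (fun t : ℝ => √(t + ε ^ 2)) (Ioi (-ε ^ 2)) := by fun_prop
  have c0 : ContinuousOn (fun t : ℝ => 1 / (2 * √(t + ε ^ 2))) (Ioi (-ε ^ 2)) :=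
    continuousOn_const.div (continuousOn_const.mul cs) fun t ht =>
      mul_ne_zero two_ne_zero (hq t ht)
  have c1 : ContinuousOn (fun t : ℝ => -(1 / (2 * √(t + ε ^ 2))) / √(t + ε ^ 2) ^ 2)
      (Ioi (-ε ^ 2)) := c0.neg.div (cs.pow 2) fun t ht => pow_ne_zero 2 (hq t ht)
  have mψ := tba_comp_mul mS hφ bφ isCompact_Icc isOpen_Ioi hKO ⟨le_rfl, hC⟩ hin d1 c1
  have wΨ := wS.comp isOpen_Ioi hl d1 c1
  have bΨ := tba_bdd isCompact_Icc hin ((cs.inv₀ hq).mono hKO)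
  have bψ : Bdd μ fun x => (√(D.G f f x + ε ^ 2))⁻¹ * φ x := bΨ.mul bφ
  have key := h.imp f Lf hf _ mψ bψ (h0.mono fun x hx => by positivity) _ hε2
  have i1 : Integrable (fun x => (√(D.G f f x + ε ^ 2))⁻¹ * φ x *
      (D.G f Lf x - κ * D.G f f x)) μ :=
    bψ.mul_integrable (D.aesm mψ) ((DS.G_int hf.mem hf.memL).sub
      ((DS.G_int hf.mem hf.mem).const_mul κ))
  have i2 := tba_int wΨ bΨ hφ mS
  have i3 : Integrable (fun x => -(1 / 2) *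
      (D.G (fun x => (√(D.G f f x + ε ^ 2))⁻¹ * φ x) (D.G f f) x -
        (√(D.G f f x + ε ^ 2))⁻¹ * D.G φ (D.G f f) x)) μ :=
    ((DS.G_int mψ mS).sub i2).const_mul (-(1 / 2))
  have a1 : ∀ᵐ x ∂μ, (√(D.G f f x + ε ^ 2))⁻¹ * φ x * (D.G f Lf x - κ * D.G f f x +
      D.G (D.G f f) (D.G f f) x / (4 * (D.G f f x + ε ^ 2))) =
      (√(D.G f f x + ε ^ 2))⁻¹ * φ x * (D.G f Lf x - κ * D.G f f x) + -(1 / 2) *
        (D.G (fun x => (√(D.G f f x + ε ^ 2))⁻¹ * φ x) (D.G f f) x -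
          (√(D.G f f x + ε ^ 2))⁻¹ * D.G φ (D.G f f) x) := by
    filter_upwards [DS.G_mul wΨ w (D.W_of_mem mψ) wS, wS.chain wS isOpen_Ioi hl d1 c1, hin]
      with x h1 h2 h3
    have h4 := hq _ (hKO h3)
    have h5 := Real.sq_sqrt (hp _ (hKO h3)).le
    rw [h2] at h1
    rw [show D.G (fun x => (√(D.G f f x + ε ^ 2))⁻¹ * φ x) (D.G f f) x = _ from h1]
    set r := √(D.G f f x + ε ^ 2)
    rw [← h5]
    field_simp
    ring
  rw [integral_congr_ae a1, integral_add i1 i3, integral_const_mul,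
    integral_sub (DS.G_int mψ mS) i2] at key
  have d2 : ∀ t ∈ Ioi (-ε ^ 2), HasDerivAt (fun t => √(t + ε ^ 2) - ε)
      (1 / (2 * √(t + ε ^ 2))) t := fun t ht => (d0 t ht).sub_const _
  have e1 : ∫ x, D.G φ (fun y => √(D.G f f y + ε ^ 2) - ε) x ∂μ =
      1 / 2 * ∫ x, (√(D.G f f x + ε ^ 2))⁻¹ * D.G φ (D.G f f) x ∂μ := by
    rw [← integral_const_mul]
    refine integral_congr_ae ?_
    filter_upwards [DS.G_symm w (wS.comp isOpen_Ioi hl d2 c0), wS.chain w isOpen_Ioi hl d2 c0,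
      DS.G_symm wS w] with x h1 h2 h3
    rw [h1, h2, h3]
    ring
  have e2 : ∫ x, φ x * ((D.G f Lf x - κ * D.G f f x) / √(D.G f f x + ε ^ 2)) ∂μ =
      ∫ x, (√(D.G f f x + ε ^ 2))⁻¹ * φ x * (D.G f Lf x - κ * D.G f f x) ∂μ :=
    integral_congr_ae (Eventually.of_forall fun x => by ring)
  rw [e1, e2]
  linarith

/-- The gradient of the carre du champ is controlled by the iterated carre du champ. -/
theorem GG_le {φ f Lf : X → ℝ} (hφ : φ ∈ D.V) (bφ : Bdd μ φ) (h0 : ∀ᵐ x ∂μ, 0 ≤ φ x)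
    (hf : D.Tb f Lf) {M : ℝ} (hM : ∀ᵐ x ∂μ, φ x ≠ 0 → D.G f f x ≤ M) :
    ∫ x, φ x * D.G (D.G f f) (D.G f f) x ∂μ ≤
      4 * M * (D.B2 φ f Lf f Lf + κ * ∫ x, φ x * D.G f f x ∂μ) := by
  have w := D.W_of_mem hφ
  have mS := h.sav _ _ hf
  have wS := D.W_of_mem mS
  rw [tba_B2]
  rcases lt_or_ge M 0 with hM0 | hM0
  · have z : ∀ᵐ x ∂μ, φ x = 0 := by
      filter_upwards [hM, DS.G_nonneg hf.W] with x h1 h2
      by_contra h3
      linarith [h1 h3]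
    have z1 : ∀ u : X → ℝ, ∫ x, φ x * u x ∂μ = 0 := fun u =>
      integral_eq_zero_of_ae (z.mono fun x hx => by simp [hx])
    have z2 : ∫ x, D.G φ (D.G f f) x ∂μ = 0 := by
      refine integral_eq_zero_of_ae ?_
      filter_upwards [z, DS.G_level w wS 0] with x h1 h2 using h2 h1
    simp [z1, z2]
  have i1 := tba_int w bφ hf.mem hf.memL
  have i2 := tba_int w bφ hf.mem hf.mem
  have i3 := tba_int w bφ mS mS
  have key : ∀ ε : ℝ, 0 < ε → ∫ x, φ x * D.G (D.G f f) (D.G f f) x ∂μ ≤ 4 * (M + ε) *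
      (-(1 / 2) * ∫ x, D.G φ (D.G f f) x ∂μ - ∫ x, φ x * D.G f Lf x ∂μ +
        κ * ∫ x, φ x * D.G f f x ∂μ) := by
    intro ε hε
    have h1 := h.imp f Lf hf φ hφ bφ h0 ε hε
    have i4 : Integrable (fun x => φ x * D.G (D.G f f) (D.G f f) x / (4 * (D.G f f x + ε))) μ := by
      refine (i3.norm.div_const (4 * ε)).mono'
        (i3.aemeasurable.div ((wS.aesm.aemeasurable.add_const ε).const_mul 4)).aestronglyMeasurable
        ?_
      filter_upwards [DS.G_nonneg hf.W] with x hx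
      rw [norm_div, Real.norm_of_nonneg (r := 4 * _) (by positivity)]
      gcongr
      linarith
    have e1 : ∫ x, φ x * (D.G f Lf x - κ * D.G f f x +
        D.G (D.G f f) (D.G f f) x / (4 * (D.G f f x + ε))) ∂μ =
        ∫ x, φ x * D.G f Lf x ∂μ - κ * ∫ x, φ x * D.G f f x ∂μ +
          ∫ x, φ x * D.G (D.G f f) (D.G f f) x / (4 * (D.G f f x + ε)) ∂μ := by
      rw [← integral_const_mul, ← integral_sub i1 (i2.const_mul _)]
      refine Eq.trans (integral_congr_ae (Eventually.of_forall fun x => ?_))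
        (integral_add (i1.sub (i2.const_mul _)) i4)
      ring
    have h2 : ∫ x, φ x * D.G (D.G f f) (D.G f f) x ∂μ ≤ 4 * (M + ε) *
        ∫ x, φ x * D.G (D.G f f) (D.G f f) x / (4 * (D.G f f x + ε)) ∂μ := by
      rw [← integral_const_mul]
      refine integral_mono_ae i3 (i4.const_mul _) ?_
      filter_upwards [hM, h0, DS.G_nonneg hf.W, DS.G_nonneg wS] with x a1 a2 a3 a4
      rcases eq_or_ne (φ x) 0 with a5 | a5
      · simp [a5]
      · rw [← mul_div_assoc, le_div_iff₀ (by positivity), mul_comm]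
        gcongr
        exact a1 a5
    refine h2.trans (mul_le_mul_of_nonneg_left (by linarith) (by positivity))
  refine ge_of_tendsto (f := fun ε : ℝ => 4 * (M + ε) * _) (x := 𝓝[>] 0) ?_
    (eventually_mem_nhdsWithin.mono key)
  refine Tendsto.mono_left (Continuous.tendsto' (by fun_prop) _ _ (by simp)) nhdsWithin_le_nhds

end R1

end RC
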