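import Pool.Agent.P.MP_6472e5_gt.CoDef
import Pool.Agent.P.MP_6472e5_gt.TbA
import Pool.Agent.P.MP_6472e5_gt.Ca0m

/-! Local test functions. -/

set_option autoImplicit false
set_option linter.unusedSectionVars false

noncomputable section

namespace RC.Co

open MeasureTheory Set Filter Topology Metric

variable {X : Type} [MetricSpace X] [ProperSpace X] [MeasurableSpace X] [BorelSpace X]
  {μ : Measure X} {D : DS μ} {κ : ℝ} {n : ℕ}

/-- A function of a positive test function is locally a test function. -/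
theorem exists_tb_comp (h : R1 D κ n) {f Lf : X → ℝ} (hf : D.Tb f Lf) (hc : Continuous f)
    (hp : ∀ y, 0 < f y) {Φ : ℝ → ℝ} (hΦ : ContDiffOn ℝ 3 Φ (Ioi 0)) (x : X) (R : ℝ) :
    ∃ g Lg, D.Tb g Lg ∧ ∀ y ∈ ball x R, g y = Φ (f y) := by
  obtain ⟨δ, hδ, hle⟩ := (isCompact_closedBall x R).exists_forall_le' hc.continuousOn
    fun y _ => hp y
  obtain ⟨M, hM0, hM⟩ := hf.bdd.nonneg
  have z : ∀ s, s < δ / 2 → Real.smoothTransition (2 * s / δ - 1) * Φ s = 0 := fun s hs => by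
    rw [Real.smoothTransition.zero_of_nonpos, zero_mul]
    rw [sub_nonpos, div_le_one hδ]
    linarith
  have c3 : ContDiff ℝ (2 + 1) fun s => Real.smoothTransition (2 * s / δ - 1) * Φ s := by
    refine contDiff_iff_contDiffAt.2 fun s => ?_
    rcases lt_or_ge s (δ / 2) with hs | hs
    · exact contDiffAt_const.congr_of_eventuallyEq (mem_of_superset (Iio_mem_nhds hs) z)
    · refine ContDiffAt.mul (ContDiff.contDiffAt ?_)
        (hΦ.contDiffAt (Ioi_mem_nhds (by linarith)))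
      exact (Real.smoothTransition.contDiff (n := 3)).comp (by fun_prop)
  have c2 : ContDiff ℝ (1 + 1) (deriv fun s => Real.smoothTransition (2 * s / δ - 1) * Φ s) :=
    (contDiff_succ_iff_deriv.1 c3).2.2
  have c1 := (contDiff_succ_iff_deriv.1 c2).2.2
  refine ⟨_, _, h.tb_comp hf (isCompact_Icc (a := 0) (b := M)) isOpen_univ (subset_univ _)
    ⟨le_rfl, hM0.le⟩ (hM.mono fun y hy => ⟨(hp y).le, (abs_le.1 hy).2⟩) (z 0 (half_pos hδ))
    (fun t _ => ((contDiff_succ_iff_deriv.1 c3).1 t).hasDerivAt)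
    (fun t _ => ((contDiff_succ_iff_deriv.1 c2).1 t).hasDerivAt)
    (fun t _ => (c1.differentiable one_ne_zero t).hasDerivAt)
    (c1.continuous_deriv le_rfl).continuousOn, fun y hy => ?_⟩
  have a := hle y (ball_subset_closedBall hy)
  show Real.smoothTransition (2 * f y / δ - 1) * Φ (f y) = Φ (f y)
  rw [Real.smoothTransition.one_of_one_le, one_mul]
  rw [le_sub_iff_add_le, le_div_iff₀ hδ]
  linarith

/-- Constants are locally test functions. -/
theorem exists_tb_const (h : HP D κ n) (c : ℝ) (x : X) (R : ℝ) :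
    ∃ g Lg, D.Tb g Lg ∧ ∀ y ∈ ball x R, g y = c := by
  have hκ := h.κ_nonneg
  obtain ⟨C, -, hC⟩ := h.cut
  have hs : 0 < (κ + 1)⁻¹ := by positivity
  obtain ⟨ζ, Lζ, h1, -, -, h2, -⟩ := hC (ball x R) (κ + 1)⁻¹ isBounded_ball hs (by
    rw [inv_pow, ← div_eq_mul_inv, div_le_one (by positivity)]
    nlinarith)
  refine ⟨_, _, h1.smul c, fun y hy => ?_⟩
  rw [Pi.smul_apply, h2 y (self_subset_thickening hs _ hy), smul_eq_mul, mul_one]

/-- It is enough to test with nonnegative functions. -/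
theorem lap_of_nonneg {f g : X → ℝ} (hf : D.W f) (hg : LocInt μ g)
    (h : ∀ φ, LipB φ → (∀ x, 0 ≤ φ x) → ∫ x, D.G f φ x ∂μ = -∫ x, g x * φ x ∂μ) :
    D.Lap f g := by
  refine ⟨hf, hg, fun φ hφ => ?_⟩
  have l : LipschitzWith 1 fun t : ℝ => max t 0 := LipschitzWith.id.max_const 0
  have p1 := hφ.comp l (max_self 0)
  have p2 := hφ.neg.comp l (max_self 0)
  have e : φ = (fun x => max (φ x) 0) - fun x => max ((-φ) x) 0 :=
    funext fun x => (max_zero_sub_max_neg_zero_eq_self (φ x)).symm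
  have a := DS.G_sub_right hf (D.W_of_mem (D.lip _ p1)) (D.W_of_mem (D.lip _ p2))
  rw [← e] at a
  have b : ∀ x, g x * φ x = g x * max (φ x) 0 - g x * max ((-φ) x) 0 := fun x => by
    rw [← mul_sub, Pi.neg_apply, max_zero_sub_max_neg_zero_eq_self]
  rw [integral_congr_ae a, integral_sub (DS.G_lipB_int hf p1) (DS.G_lipB_int hf p2),
    h _ p1 fun _ => le_max_right _ _, h _ p2 fun _ => le_max_right _ _,
    integral_congr_ae (ae_of_all _ b), integral_sub (hg.mul_lipB p1) (hg.mul_lipB p2)]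
  ring

theorem Pot.W {F : X → ℝ} (P : Pot D n F) : D.W F := P.lap.1

theorem Pot.bddG {F : X → ℝ} (P : Pot D n F) : LocBdd μ (D.G F F) := by
  intro x r
  obtain ⟨f, Lf, hf, e⟩ := P.loc x r
  obtain ⟨C, hC⟩ := hf.bddG
  refine ⟨C, ?_⟩
  filter_upwards [hC, DS.G_loc hf.W P.W hf.W P.W] with y h1 h2 hy
  rwa [← h2 (e y hy) (e y hy)]

theorem Pot.bddG' {F g Lg : X → ℝ} (P : Pot D n F) (hg : D.Tb g Lg) : LocBdd μ (D.G F g) := by
  intro x r
  obtain ⟨f, Lf, hf, e⟩ := P.loc x r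
  obtain ⟨C, hC⟩ := hf.G_bdd hg
  refine ⟨C, ?_⟩
  filter_upwards [hC, DS.G_loc hf.W P.W hg.W hg.W] with y h1 h2 hy
  rwa [← h2 (e y hy) rfl]

theorem Pot.WG (h : R1 D κ n) {F g Lg : X → ℝ} (P : Pot D n F) (hg : D.Tb g Lg) :
    D.W (D.G F g) := by
  refine D.W_of_balls fun x r => ?_
  obtain ⟨f, Lf, hf, e⟩ := P.loc x r
  refine ⟨_, D.W_of_mem (h.G_mem hf hg), ?_⟩
  filter_upwards [DS.G_loc hf.W P.W hg.W hg.W] with y h2 hy
  exact (h2 (e y hy) rfl).symm

end RC.Co
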