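import Pool.Agent.P.MP_6472e5_gt.Ca4

/-! The local Sobolev-to-Lipschitz property. -/

set_option autoImplicit false
set_option linter.unusedSectionVars false

noncomputable section

namespace RC

open MeasureTheory Set Filter Topology Metric

variable {X : Type} [MetricSpace X] [SecondCountableTopology X] [MeasurableSpace X] [BorelSpace X]
  {μ : Measure X}

namespace DS

variable {D : DS μ}

theorem ls_real {a b d δ R : ℝ} (ha : R / 2 < a) (hb : R / 2 < b) (hd : d < R) (hR : 0 < R)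
    (h : |max (-a) (min δ a) - max (-b) (min (-δ) b)| ≤ d) : |2 * δ| ≤ d := by
  rw [abs_le] at h ⊢
  obtain ⟨h1, h2⟩ := h
  simp only [max_def, min_def] at h1 h2
  split_ifs at h1 h2 <;> constructor <;> linarith

theorem ls_clamp
    (hs : ∀ f ∈ D.V, (∀ᵐ x ∂μ, D.G f f x ≤ 1) → ∃ g, LipschitzWith 1 g ∧ f =ᵐ[μ] g)
    {f : X → ℝ} (hf : D.W f) (x : X) (R : ℝ) (h : ∀ᵐ y ∂μ, y ∈ ball x R → D.G f f y ≤ 1)
    (c : ℝ) : ∃ g, LipschitzWith 1 g ∧ (fun y => max (-max 0 (R - dist y x))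
      (min (f y - c) (max 0 (R - dist y x)))) =ᵐ[μ] g := by
  have hρ : LipschitzWith 1 fun y => max 0 (R - dist y x) := by
    refine LipschitzWith.const_max (LipschitzWith.of_dist_le_mul fun y z => ?_) 0
    rw [Real.dist_eq, NNReal.coe_one, one_mul, sub_sub_sub_cancel_left, abs_sub_comm]
    exact abs_dist_sub_le y z x
  have hρ' : LipschitzWith 1 fun y => -max 0 (R - dist y x) := hρ.neg
  have hΦ : LipschitzWith 1 fun t : ℝ => t - c :=
    LipschitzWith.of_dist_le_mul fun s t => by rw [dist_sub_right, NNReal.coe_one, one_mul]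
  obtain ⟨w1, g1⟩ := hf.comp_lip hΦ
  have w2 := D.W_of_lipschitz hρ
  have w3 := D.W_of_lipschitz hρ'
  have w4 := w1.min w2
  have w5 := w3.max w4
  have h0 : ∀ y, y ∉ ball x R → max (-max 0 (R - dist y x))
      (min (f y - c) (max 0 (R - dist y x))) = 0 := by
    intro y hy
    rw [mem_ball, not_lt] at hy
    rw [max_eq_left (sub_nonpos.2 hy), neg_zero]
    exact max_eq_left (min_le_right _ _)
  refine hs _ (w5.mem_of_supp (x := x) (R := R) (Eventually.of_forall h0)) ?_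
  filter_upwards [h, g1, G_le_lipschitz (D := D) hρ, G_le_lipschitz (D := D) hρ', G_min_le w1 w2,
    G_max_le w3 w4, G_level w5 w5 0] with y e0 e1 e2 e3 e4 e5 e6
  by_cases hy : y ∈ ball x R
  · simp only [NNReal.coe_one, one_pow, one_mul] at e1 e2 e3
    exact e5.trans (max_le e3 (e4.trans (max_le (e1.trans (e0 hy)) e2)))
  · rw [e6 (h0 y hy)]
    exact zero_le_one

theorem ls_one
    (hs : ∀ f ∈ D.V, (∀ᵐ x ∂μ, D.G f f x ≤ 1) → ∃ g, LipschitzWith 1 g ∧ f =ᵐ[μ] g)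
    {f : X → ℝ} (hf : D.W f) (x : X) (R : ℝ) (h : ∀ᵐ y ∂μ, y ∈ ball x R → D.G f f y ≤ 1) :
    ∃ S : Set X, (∀ᵐ y ∂μ, y ∈ S) ∧ ∀ y ∈ S, ∀ z ∈ S, y ∈ ball x (R / 2) → z ∈ ball x (R / 2) →
      |f y - f z| ≤ dist y z := by
  choose g hg hg' using ls_clamp hs hf x R h
  refine ⟨{y | ∀ c : ℚ, max (-max 0 (R - dist y x))
      (min (f y - c) (max 0 (R - dist y x))) = g c y}, ae_all_iff.2 fun c => hg' c, ?_⟩
  intro y hy z hz hyx hzx
  rw [mem_ball] at hyx hzx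
  have hR : 0 < R := by linarith [dist_nonneg (x := y) (y := x)]
  have hd : dist y z < R := by linarith [dist_triangle_right y z x]
  have key : ∀ c : ℝ, |max (-max 0 (R - dist y x)) (min (f y - c) (max 0 (R - dist y x))) -
      max (-max 0 (R - dist z x)) (min (f z - c) (max 0 (R - dist z x)))| ≤ dist y z := by
    refine isClosed_property (Rat.denseRange_cast (𝕜 := ℝ))
      (isClosed_le (by fun_prop) continuous_const) fun c => ?_
    rw [hy c, hz c, ← Real.dist_eq]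
    simpa using (hg c).dist_le_mul y z
  have h1 := key ((f y + f z) / 2)
  have e1 : f y - (f y + f z) / 2 = (f y - f z) / 2 := by ring
  have e2 : f z - (f y + f z) / 2 = -((f y - f z) / 2) := by ring
  rw [e1, e2] at h1
  have h2 := ls_real (lt_max_of_lt_right (by linarith)) (lt_max_of_lt_right (by linarith)) hd hR h1
  rwa [mul_div_cancel₀ _ two_ne_zero] at h2

theorem ls_core
    (hs : ∀ f ∈ D.V, (∀ᵐ x ∂μ, D.G f f x ≤ 1) → ∃ g, LipschitzWith 1 g ∧ f =ᵐ[μ] g)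
    {f : X → ℝ} (hf : D.W f) (x : X) (R : ℝ) {L : ℝ} (hL : 0 ≤ L)
    (h : ∀ᵐ y ∂μ, y ∈ ball x R → D.G f f y ≤ L ^ 2) :
    ∃ S : Set X, (∀ᵐ y ∂μ, y ∈ S) ∧ ∀ y ∈ S, ∀ z ∈ S, y ∈ ball x (R / 2) → z ∈ ball x (R / 2) →
      |f y - f z| ≤ L * dist y z := by
  have hp : ∀ n : ℕ, 0 < L + 1 / ((n : ℝ) + 1) := fun n => by positivity
  have h1 : ∀ n : ℕ, ∀ᵐ y ∂μ, y ∈ ball x R →
      D.G ((L + 1 / ((n : ℝ) + 1))⁻¹ • f) ((L + 1 / ((n : ℝ) + 1))⁻¹ • f) y ≤ 1 := by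
    intro n
    filter_upwards [h, G_smul_smul (L + 1 / ((n : ℝ) + 1))⁻¹ hf] with y e1 e2 hy
    rw [e2, inv_pow, inv_mul_le_iff₀ (pow_pos (hp n) 2), mul_one]
    refine (e1 hy).trans (pow_le_pow_left₀ hL (le_add_of_nonneg_right ?_) 2)
    positivity
  choose S hS hS' using fun n => ls_one hs (hf.smul _) x R (h1 n)
  refine ⟨{y | ∀ n, y ∈ S n}, ae_all_iff.2 hS, fun y hy z hz hyx hzx => ?_⟩
  have h2 : ∀ n : ℕ, |f y - f z| ≤ (L + 1 / ((n : ℝ) + 1)) * dist y z := by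
    intro n
    have h3 := hS' n y (hy n) z (hz n) hyx hzx
    rwa [Pi.smul_apply, Pi.smul_apply, smul_eq_mul, smul_eq_mul, ← mul_sub, abs_mul,
      abs_of_pos (inv_pos.2 (hp n)), inv_mul_le_iff₀ (hp n)] at h3
  have h4 : Tendsto (fun n : ℕ => (L + 1 / ((n : ℝ) + 1)) * dist y z) atTop
      (𝓝 ((L + 0) * dist y z)) :=
    (tendsto_const_nhds.add tendsto_one_div_add_atTop_nhds_zero_nat).mul_const _
  rw [add_zero] at h4
  exact ge_of_tendsto' h4 h2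

/-- The local form of the Sobolev-to-Lipschitz property. -/
theorem ls2l (hp : ∀ x r, 0 < r → 0 < μ (ball x r)) (hg : IsGeodesic X)
    (hs : ∀ f ∈ D.V, (∀ᵐ x ∂μ, D.G f f x ≤ 1) → ∃ g, LipschitzWith 1 g ∧ f =ᵐ[μ] g)
    {f : X → ℝ} (hf : D.W f) (x : X) (R : ℝ) (L : NNReal)
    (h : ∀ᵐ y ∂μ, y ∈ ball x R → D.G f f y ≤ (L : ℝ) ^ 2) :
    ∃ g, LipschitzOnWith L g (ball x (R / 2)) ∧ ∀ᵐ y ∂μ, y ∈ ball x (R / 2) → f y = g y := by
  obtain ⟨S, hS, hS'⟩ := ls_core hs hf x R L.coe_nonneg h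
  have h1 : LipschitzOnWith L f (S ∩ ball x (R / 2)) :=
    LipschitzOnWith.of_dist_le_mul fun y hy z hz => hS' y hy.1 z hz.1 hy.2 hz.2
  obtain ⟨g, hg1, hg2⟩ := h1.extend_real
  refine ⟨g, hg1.lipschitzOnWith, ?_⟩
  filter_upwards [hS] with y hy hyx
  exact hg2 ⟨hy, hyx⟩

theorem gs2l (hp : ∀ x r, 0 < r → 0 < μ (ball x r)) (hg : IsGeodesic X)
    (hs : ∀ f ∈ D.V, (∀ᵐ x ∂μ, D.G f f x ≤ 1) → ∃ g, LipschitzWith 1 g ∧ f =ᵐ[μ] g)
    {f : X → ℝ} (hf : D.W f) (L : NNReal) (h : ∀ᵐ y ∂μ, D.G f f y ≤ (L : ℝ) ^ 2) :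
    ∃ g, LipschitzWith L g ∧ f =ᵐ[μ] g := by
  rcases isEmpty_or_nonempty X with hX | ⟨⟨x⟩⟩
  · exact ⟨f, fun y => isEmptyElim y, EventuallyEq.rfl⟩
  choose S hS hS' using fun n : ℕ =>
    ls_core hs hf x n L.coe_nonneg (h.mono fun y hy _ => hy)
  have h1 : LipschitzOnWith L f {y | ∀ n, y ∈ S n} := by
    refine LipschitzOnWith.of_dist_le_mul fun y hy z hz => ?_
    obtain ⟨n, hn⟩ := exists_nat_gt (2 * (dist y x + dist z x))
    have h2 := dist_nonneg (x := y) (y := x)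
    have h3 := dist_nonneg (x := z) (y := x)
    exact hS' n y (hy n) z (hz n) (mem_ball.2 (by linarith)) (mem_ball.2 (by linarith))
  obtain ⟨g, hg1, hg2⟩ := h1.extend_real
  refine ⟨g, hg1, ?_⟩
  filter_upwards [ae_all_iff.2 hS] with y hy
  exact hg2 hy

/-- A continuous local function with bounded gradient on a ball is Lipschitz there. -/
theorem lip_of_G_le (hp : ∀ x r, 0 < r → 0 < μ (ball x r)) (hg : IsGeodesic X)
    (hs : ∀ f ∈ D.V, (∀ᵐ x ∂μ, D.G f f x ≤ 1) → ∃ g, LipschitzWith 1 g ∧ f =ᵐ[μ] g)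
    {f : X → ℝ} (hf : D.W f) (hc : Continuous f) (x : X) (R : ℝ) {L : ℝ} (hL : 0 ≤ L)
    (h : ∀ᵐ y ∂μ, y ∈ ball x R → D.G f f y ≤ L ^ 2) :
    ∀ y ∈ ball x (R / 2), ∀ z ∈ ball x (R / 2), |f y - f z| ≤ L * dist y z := by
  obtain ⟨g, hg1, hg2⟩ := ls2l hp hg hs hf x R ⟨L, hL⟩ h
  have h1 := eq_of_ae_eq hp isOpen_ball hc.continuousOn hg1.continuousOn hg2
  intro y hy z hz
  rw [h1 y hy, h1 z hz]
  exact hg1.dist_le_mul y hy z hz

end DS

end RC
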