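import Pool.Agent.P.MP_6472e5_gt.CoC
import Pool.Agent.P.MP_6472e5_gt.Ls

/-! The gradient of the carre du champ of a potential. -/

set_option autoImplicit false
set_option linter.unusedSectionVars false

noncomputable section

namespace RC.Co

open MeasureTheory Set Filter Topology Metric

variable {X : Type} [MetricSpace X] [ProperSpace X] [MeasurableSpace X] [BorelSpace X]
  {μ : Measure X} {D : DS μ} {κ : ℝ} {n : ℕ}

theorem Pot.hess (h : R1 D 0 n) {F g Lg : X → ℝ} (P : Pot D n F) (hg : D.Tb g Lg) :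
    ∀ᵐ x ∂μ, D.G (D.G F F) g x = 2 * D.G F g x := by
  refine D.ae_of_balls fun x R => ?_
  obtain ⟨f, Lf, hf, he⟩ := P.loc x R
  have hfg := h.tb_mul hf hg
  have bF : LocBdd μ F := locBdd_of_continuous P.cont
  have wk := P.WG h hg
  have w1 : D.W (F * Lg) := P.W.mul hg.WL bF hg.bddL.locBdd
  have w2 := hg.W.smul (n : ℝ)
  have w3 := wk.smul 2
  have h1 := (P.lie h hfg).loc ((P.lapG.mul hg.lap P.bddG hg.bdd.locBdd).add
    (P.lap.mul (P.lie h hg) bF (P.bddG' hg))) isOpen_ball (U := ball x R) 0 (by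
      filter_upwards [DS.G_mul_right hf.W hg.W hfg.W P.W, DS.G_loc P.W P.W hf.W P.W]
        with y a1 a2 hy
      rw [a1, a2 rfl (he y hy), he y hy]
      simp only [Pi.add_apply, Pi.mul_apply]
      ring)
  have h2 := hf.lap.loc P.lap isOpen_ball (U := ball x R) 0
    (Eventually.of_forall fun y hy => by rw [he y hy, add_zero])
  filter_upwards [h1, h2, DS.G_loc hf.W P.W hg.W hg.W,
    DS.G_loc P.W P.W hfg.WL (w1.add (w2.add w3)), DS.G_add_right P.W w1 (w2.add w3),
    DS.G_add_right P.W w2 w3, DS.G_mul_right P.W hg.WL w1 P.W, DS.G_smul_right n P.W hg.W,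
    DS.G_smul_right 2 P.W wk] with y a1 a2 a3 a4 a5 a6 a7 a8 a9 hy
  have b1 := a1 hy
  have b2 := a2 hy
  have b3 := a3 (he y hy) rfl
  rw [a4 rfl (by
    simp only [Pi.add_apply, Pi.mul_apply, Pi.smul_apply, smul_eq_mul, b2, b3, he y hy]
    ring), a5, a6, a7, a8, a9, b2, b3, he y hy] at b1
  simp only [Pi.add_apply] at b1
  linarith

/-- The carre du champ of a potential is twice the potential, up to a constant. -/
theorem Pot.const (h : R1 D 0 n) {F q : X → ℝ} (P : Pot D n F) (hq : Continuous q)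
    (he : ∀ᵐ x ∂μ, D.G F F x = q x)
    (hl : ∀ x R, ∃ f Lf, D.Tb f Lf ∧ ∀ y ∈ ball x R, f y = q y) (x y : X) :
    q x - 2 * F x = q y - 2 * F y := by
  obtain ⟨f, Lf, hf, h1⟩ := P.loc x (2 * (dist y x + 1))
  obtain ⟨g, Lg, hg, h2⟩ := hl x (2 * (dist y x + 1))
  have hk := hg.sub (hf.smul 2)
  have wq : D.W q := P.lapG.1.congr he
  have w1 := P.W.smul 2
  have wk := wq.sub w1
  have h3 := DS.lip_of_G_le h.pos h.geo h.s2l wk (hq.sub (P.cont.const_smul (2 : ℝ))) x
    (2 * (dist y x + 1)) le_rfl (by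
      filter_upwards [P.hess h hk, DS.G_loc wk wk wk hk.W, DS.G_sub wq w1 hk.W,
        DS.G_smul 2 P.W hk.W, DS.G_congr P.lapG.1 hk.W he EventuallyEq.rfl] with z a1 a2 a3 a4 a5 hz
      rw [a2 rfl (by simp only [Pi.sub_apply, Pi.smul_apply, h1 z hz, h2 z hz]), a3, a4, ← a5, a1]
      simp) x (mem_ball_self (by positivity)) y (mem_ball.2 (by linarith))
  rw [zero_mul, abs_nonpos_iff, sub_eq_zero] at h3
  exact h3

end RC.Co
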