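import Pool.Agent.P.MP_6472e5_gt.CoB
import Pool.Agent.P.MP_6472e5_gt.CoC2

/-! The kernel at a centre is Gaussian. -/

set_option autoImplicit false
set_option linter.unusedSectionVars false

noncomputable section

namespace RC.Co

open MeasureTheory Set Filter Topology Metric

variable {X : Type} [MetricSpace X] [ProperSpace X] [MeasurableSpace X] [BorelSpace X]
  {μ : Measure X} {D : DS μ} {κ : ℝ} {n : ℕ}

theorem pot_log (h : PreModel D n) {e : X} (he : D.Ctr n e) {t : ℝ} (ht : 0 < t) :
    Pot D n (fun z => -2 * t * (Real.log (D.p t e z) - Real.log (D.p t e e))) ∧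
      ∀ᵐ z ∂μ, D.G (fun z => -2 * t * (Real.log (D.p t e z) - Real.log (D.p t e e)))
        (fun z => -2 * t * (Real.log (D.p t e z) - Real.log (D.p t e e))) z =
        4 * t ^ 2 * (D.dp t e z / D.p t e z + n / (2 * t)) := by
  obtain ⟨h1, h2⟩ := lap_log h he ht
  have wc := D.W_const (Real.log (D.p t e e))
  have hF : (fun z => -2 * t * (Real.log (D.p t e z) - Real.log (D.p t e e))) =
      (-2 * t) • ((fun z => Real.log (D.p t e z)) - fun _ => Real.log (D.p t e e)) := rfl
  have hG : ∀ᵐ z ∂μ, D.G (fun z => -2 * t * (Real.log (D.p t e z) - Real.log (D.p t e e)))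
      (fun z => -2 * t * (Real.log (D.p t e z) - Real.log (D.p t e e))) z =
      4 * t ^ 2 * (D.dp t e z / D.p t e z + n / (2 * t)) := by
    rw [hF]
    filter_upwards [DS.G_smul_smul (-2 * t) (h1.1.sub wc), DS.G_sub_sub h1.1 wc,
      DS.G_symm h1.1 wc, DS.G_const (Real.log (D.p t e e)) h1.1,
      DS.G_const (Real.log (D.p t e e)) wc, h2] with z e1 e2 e3 e4 e5 e6
    rw [e1, e2, e3, e4, e5, e6]
    ring
  refine ⟨⟨?_, ?_, ?_, fun x R => ?_⟩, hG⟩
  · exact continuous_const.mul
      (((p_cont' h.toHP ht e).log fun z => (h.p_pos t e z ht).ne').sub continuous_const)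
  · rw [hF]
    refine ((h1.sub (DS.lap_const _)).smul (-2 * t)).congr EventuallyEq.rfl
      (Eventually.of_forall fun z => ?_)
    simp only [Pi.smul_apply, Pi.sub_apply, Pi.zero_apply, smul_eq_mul]
    field_simp
    ring
  · refine (((lap_q h he ht).add (DS.lap_const (n / (2 * t)))).smul (4 * t ^ 2)).congr
      (hG.mono fun z hz => hz.symm) (Eventually.of_forall fun z => ?_)
    simp only [Pi.smul_apply, Pi.add_apply, Pi.zero_apply, smul_eq_mul]
    field_simp
    ring
  · exact exists_tb_comp h.toHP.toR2.toR1 (h.p_tb t e ht) (p_cont' h.toHP ht e)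
      (fun z => h.p_pos t e z ht)
      (Φ := fun s => -2 * t * (Real.log s - Real.log (D.p t e e)))
      (contDiffOn_const.mul ((Real.contDiffOn_log.mono fun s hs => ne_of_gt hs).sub
        contDiffOn_const)) x R

theorem pot2 (h : PreModel D n) {e : X} (he : D.Ctr n e) : Gau D n e ∧ Pot2 D n e := by
  have hq : ∀ t z, 0 < t → t * (D.dp t e z / D.p t e z + n / (2 * t)) =
      -(Real.log (D.p t e z) - Real.log (D.p t e e)) := by
    intro t z ht
    obtain ⟨P, hG⟩ := pot_log h he ht
    have hc : Continuous fun z => 4 * t ^ 2 * (D.dp t e z / D.p t e z + n / (2 * t)) :=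
      continuous_const.mul (((dp_cont' h.toHP ht e).div (p_cont' h.toHP ht e)
        fun z => (h.p_pos t e z ht).ne').add continuous_const)
    have k := P.const h.toHP.toR2.toR1 hc hG (fun x R => by
      obtain ⟨dd, hd, -⟩ := exists_dd h.toHP ht e
      obtain ⟨g, Lg, hg, eg⟩ := exists_tb_comp h.toHP.toR2.toR1 (h.p_tb t e ht)
        (p_cont' h.toHP ht e) (fun z => h.p_pos t e z ht) (Φ := fun s => s⁻¹)
        ((contDiffOn_inv ℝ).mono fun s hs => ne_of_gt hs) x R
      obtain ⟨k, Lk, hk, ek⟩ := exists_tb_const h.toHP (n / (2 * t)) x R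
      refine ⟨_, _, ((h.toHP.toR2.toR1.tb_mul hd hg).add hk).smul (4 * t ^ 2), fun y hy => ?_⟩
      simp only [Pi.smul_apply, Pi.add_apply, Pi.mul_apply, smul_eq_mul, eg y hy, ek y hy,
        div_eq_mul_inv]) z e
    have hp := (h.p_pos t e e ht).ne'
    have k0 : D.dp t e e / D.p t e e + n / (2 * t) = 0 := by
      rw [dp_ctr h he ht, mul_div_assoc, div_self hp, mul_one, neg_add_cancel]
    rw [k0, sub_self] at k
    refine mul_left_cancel₀ (show 4 * t ≠ 0 by positivity) ?_
    linear_combination k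
  obtain ⟨hg, hF⟩ := gau_of_ode h he hq
  obtain ⟨P, hG⟩ := pot_log h he one_pos
  have e1 : (fun z => -2 * (1 : ℝ) * (Real.log (D.p 1 e z) - Real.log (D.p 1 e e))) = FF e :=
    funext fun z => hF 1 z one_pos
  rw [e1] at P hG
  refine ⟨hg, P, hG.mono fun z hz => ?_⟩
  have k1 := hq 1 z one_pos
  have k2 := hF 1 z one_pos
  unfold FF at k2
  rw [hz]
  linear_combination 4 * k1 + 2 * k2

end RC.Co
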