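import Pool.Agent.P.MP_6472e5_gt.Kern

/-! Definitions for block K (cones). -/

set_option autoImplicit false
set_option linter.unusedSectionVars false

noncomputable section

namespace RC.Co

open MeasureTheory Set Filter Topology Metric

variable {X : Type} [MetricSpace X] [ProperSpace X] [MeasurableSpace X] [BorelSpace X]
  {μ : Measure X} {D : DS μ} {κ : ℝ} {n : ℕ}

/-- Half the square of the distance from `e`. -/
def FF (e z : X) : ℝ := dist e z ^ 2 / 2

/-- Potentials: equality holds in the Bochner inequality. -/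
structure Pot (D : DS μ) (n : ℕ) (F : X → ℝ) : Prop where
  cont : Continuous F
  lap : D.Lap F (fun _ => (n : ℝ))
  lapG : D.Lap (D.G F F) (fun _ => 2 * (n : ℝ))
  loc : ∀ x R, ∃ f Lf, D.Tb f Lf ∧ ∀ y ∈ ball x R, f y = F y

/-- Half the square of the distance from `e` is a potential. -/
structure Pot2 (D : DS μ) (n : ℕ) (e : X) : Prop extends Pot D n (FF e) where
  GF : ∀ᵐ z ∂μ, D.G (FF e) (FF e) z = dist e z ^ 2

/-- `w` is an image of `y` under the homothety of centre `e` and ratio `l`. -/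
def Rel (e : X) (l : ℝ) (y w : X) : Prop :=
  dist e w = l * dist e y ∧ dist w y = |1 - l| * dist e y

/-- The radial derivative of the heat kernel. -/
def beta (D : DS μ) (n : ℕ) (e : X) (t : ℝ) (x y : X) : ℝ :=
  ((FF e x - FF e y) * D.p t x y / t - n * D.p t x y - 2 * t * D.dp t x y) / 2

/-- The formula for the radial derivative of the heat kernel. -/
def IdI (D : DS μ) (n : ℕ) (e : X) : Prop :=
  ∀ t x, 0 < t → ∀ᵐ y ∂μ, D.G (FF e) (D.p t x) y = beta D n e t x y

/-- The behaviour of the heat kernel along rays. -/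
def Ray (D : DS μ) (n : ℕ) (e : X) : Prop :=
  ∀ l x w y t, 0 < l → l ≤ 1 → 0 < t → Rel e l x w →
    Real.log (D.p (l * t) y w) + n / 2 * Real.log l + l * FF e x / (2 * t) +
      FF e y / (2 * l * t) = Real.log (D.p t y x) + (FF e x + FF e y) / (2 * t)

/-- The law of cosines of a cone. -/
def Law (e : X) : Prop :=
  ∀ l y z, 0 < l → dist z (hom e l y) ^ 2 =
    l * dist z y ^ 2 + (1 - l) * dist e z ^ 2 - l * (1 - l) * dist e y ^ 2

/-- The Gaussian formula for the kernel at `e`. -/
def Gau (D : DS μ) (n : ℕ) (e : X) : Prop :=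
  ∀ r y, 0 < r → r ^ n * D.p (r ^ 2) e y = D.Θ n e 1 * Real.exp (-(dist e y ^ 2 / (4 * r ^ 2)))

/-- The analytic part of the cone structure. -/
structure Cone0 (D : DS μ) (n : ℕ) : Prop where
  gauss : ∀ e, D.Ctr n e → Gau D n e
  law : ∀ e, D.Ctr n e → Law e
  hom_map : ∀ e, D.Ctr n e → ∀ l, 0 < l → μ.map (hom e l) = ENNReal.ofReal (l ^ n)⁻¹ • μ
  hom_Θ : ∀ e, D.Ctr n e → ∀ l y r, 0 < l → 0 < r → D.Θ n (hom e l y) (l * r) = D.Θ n y r

/-- The weighted integral along the bridge from `y` to `x`. -/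
def aa (D : DS μ) (e : X) (t : ℝ) (x y : X) (s : ℝ) : ℝ :=
  ∫ z, FF e z * (D.p s y z * D.p (t - s) x z) ∂μ

/-- The radial derivative integrated along the bridge from `y` to `x`. -/
def bb (D : DS μ) (e : X) (t : ℝ) (x y : X) (s : ℝ) : ℝ :=
  ∫ z, D.G (FF e) (D.p (t - s) x) z * D.p s y z ∂μ

theorem FF_cont (e : X) : Continuous (FF e) := by
  unfold FF; fun_prop

theorem FF_nonneg (e z : X) : 0 ≤ FF e z := by
  unfold FF; positivity

theorem FF_self (e : X) : FF e e = 0 := by simp [FF]

theorem rel_hom {e y : X} {l : ℝ} (h : ∃ w, Rel e l y w) : Rel e l y (hom e l y) := by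
  have h' : ∃ w, dist e w = l * dist e y ∧ dist w y = |1 - l| * dist e y := h
  unfold hom
  rw [dif_pos h']
  exact h'.choose_spec

end RC.Co
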