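import Pool.Agent.P.MP_6472e5_gt.CoDef
import Pool.Agent.P.MP_6472e5_gt.Ca5
import Pool.Agent.P.MP_6472e5_gt.DeV
import Pool.Agent.P.MP_6472e5_gt.Ca0m

/-! Weighted energy estimates. -/

set_option autoImplicit false
set_option linter.unusedSectionVars false

noncomputable section

namespace RC.Co

open MeasureTheory Set Filter Topology Metric

variable {X : Type} [MetricSpace X] [ProperSpace X] [MeasurableSpace X] [BorelSpace X]
  {μ : Measure X} {D : DS μ} {κ : ℝ} {n : ℕ}

namespace CoEAux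

/-- Fatou lemma for real functions. -/
theorem fatou {F : ℕ → X → ℝ} {f : X → ℝ} {C : ℝ} (hm : AEStronglyMeasurable f μ)
    (hi : ∀ k, Integrable (F k) μ) (h0 : ∀ k, ∀ᵐ x ∂μ, 0 ≤ F k x) (hC : ∀ k, ∫ x, F k x ∂μ ≤ C)
    (hl : ∀ᵐ x ∂μ, Tendsto (fun k => F k x) atTop (𝓝 (f x))) : Integrable f μ := by
  refine ⟨hm, ?_⟩
  have h1 : ∫⁻ x, ‖f x‖ₑ ∂μ = ∫⁻ x, liminf (fun k => ‖F k x‖ₑ) atTop ∂μ :=
    lintegral_congr_ae (hl.mono fun x hx => (hx.enorm.liminf_eq).symm)
  have h2 : ∀ k, ∫⁻ x, ‖F k x‖ₑ ∂μ ≤ ENNReal.ofReal C := fun k => by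
    rw [← ofReal_integral_norm_eq_lintegral_enorm (hi k)]
    refine ENNReal.ofReal_le_ofReal (le_trans (le_of_eq (integral_congr_ae ?_)) (hC k))
    exact (h0 k).mono fun x hx => Real.norm_of_nonneg hx
  unfold HasFiniteIntegral
  rw [h1]
  refine lt_of_le_of_lt ((lintegral_liminf_le' fun k => (hi k).1.enorm).trans ?_)
    (ENNReal.ofReal_lt_top (r := C))
  exact liminf_le_of_frequently_le' (Frequently.of_forall h2)

/-- Truncation of a weight. -/
def tr (x₀ : X) (ω : X → ℝ) (k : ℕ) (z : X) : ℝ :=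
  max (-(max (k - dist x₀ z) 0)) (min (ω z) (max (k - dist x₀ z) 0))

theorem tr_lip (x₀ : X) {ω : X → ℝ} {L : NNReal} (hω : LipschitzWith L ω) (k : ℕ) :
    LipschitzWith (max L 1) (tr x₀ ω k) := by
  have hb : LipschitzWith 1 (fun z => max ((k : ℝ) - dist x₀ z) 0) := by
    refine LipschitzWith.max_const ?_ 0
    refine LipschitzWith.of_dist_le_mul fun y z => ?_
    have := (LipschitzWith.dist_right x₀).dist_le_mul y z
    rw [Real.dist_eq] at this ⊢
    rw [show (k : ℝ) - dist x₀ y - (k - dist x₀ z) = -(dist x₀ y - dist x₀ z) by ring, abs_neg]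
    exact this
  have h1 := hb.neg.max (hω.min hb)
  exact h1.weaken (max_le (le_max_right _ _) le_rfl)

theorem tr_abs (x₀ : X) (ω : X → ℝ) (k : ℕ) (z : X) : |tr x₀ ω k z| ≤ |ω z| := by
  have h0 : 0 ≤ max ((k : ℝ) - dist x₀ z) 0 := le_max_right _ _
  unfold tr
  generalize max ((k : ℝ) - dist x₀ z) 0 = b at h0
  rw [abs_le]
  refine ⟨?_, max_le (by linarith [abs_nonneg (ω z)]) ((min_le_left _ _).trans (le_abs_self _))⟩
  refine le_max_of_le_right (le_min (neg_abs_le _) ?_)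
  linarith [abs_nonneg (ω z)]

theorem tr_lipB (x₀ : X) {ω : X → ℝ} {L : NNReal} (hω : LipschitzWith L ω) (k : ℕ) :
    LipB (tr x₀ ω k) := by
  refine ⟨⟨_, tr_lip x₀ hω k⟩, (isBounded_ball (x := x₀) (r := k)).subset fun z hz => ?_⟩
  by_contra hb
  have h1 : (k : ℝ) ≤ dist x₀ z := by
    rw [mem_ball, dist_comm] at hb
    exact not_lt.1 hb
  refine hz ?_
  unfold tr
  rw [max_eq_right (by linarith : (k : ℝ) - dist x₀ z ≤ 0), neg_zero]
  exact max_eq_left (min_le_right _ _)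

theorem tr_ev (x₀ : X) (ω : X → ℝ) (z : X) : ∀ᶠ k : ℕ in atTop, tr x₀ ω k z = ω z := by
  filter_upwards [(tendsto_natCast_atTop_atTop (R := ℝ)).eventually_ge_atTop
    (dist x₀ z + |ω z|)] with k hk
  have h1 : |ω z| ≤ max ((k : ℝ) - dist x₀ z) 0 := le_max_of_le_left (by linarith)
  unfold tr
  generalize max ((k : ℝ) - dist x₀ z) 0 = b at h1
  rw [min_eq_left ((le_abs_self _).trans h1), max_eq_right]
  linarith [neg_abs_le (ω z)]

/-- The radial derivative is dominated by the energy density. -/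
theorem rad_sq {e : X} (P : Pot2 D n e) {k : X → ℝ} (hk : D.W k) :
    ∀ᵐ z ∂μ, (D.G (FF e) k z / (1 + dist e z)) ^ 2 ≤ D.G k k z := by
  filter_upwards [DS.G_cs P.lap.1 hk, P.GF, DS.G_nonneg hk] with z a b c
  have hd : 0 ≤ dist e z := dist_nonneg
  rw [b] at a
  rw [div_pow, div_le_iff₀ (by positivity)]
  nlinarith [mul_nonneg c hd]

theorem rad_aesm {e : X} (P : Pot2 D n e) {k : X → ℝ} (hk : D.W k) :
    AEStronglyMeasurable (fun z => D.G (FF e) k z / (1 + dist e z)) μ := by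
  have h1 : Continuous fun z => (1 + dist e z)⁻¹ :=
    Continuous.inv₀ (by fun_prop) fun z => by positivity
  simp only [div_eq_mul_inv]
  exact (DS.G_aesm P.lap.1 hk).mul h1.aestronglyMeasurable

theorem rad_int {e : X} (P : Pot2 D n e) {k : X → ℝ} (hk : k ∈ D.V) :
    Integrable (fun z => (D.G (FF e) k z / (1 + dist e z)) ^ 2) μ := by
  have hW := D.W_of_mem hk
  refine (DS.G_int hk hk).mono' ((rad_aesm P hW).pow 2) ?_
  filter_upwards [rad_sq P hW] with z hz
  rwa [Real.norm_of_nonneg (sq_nonneg _)]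

theorem rad_memLp {e : X} (P : Pot2 D n e) {k : X → ℝ} (hk : k ∈ D.V) :
    MemLp (fun z => D.G (FF e) k z / (1 + dist e z)) 2 μ :=
  (memLp_two_iff_integrable_sq (rad_aesm P (D.W_of_mem hk))).2 (rad_int P hk)

end CoEAux

open CoEAux

theorem wt_energy {f g ω : X → ℝ} {L : NNReal} (h : D.Lap f g) (hf : MemLp f 2 μ)
    (hω : LipschitzWith L ω) (hi : Integrable (fun z => ω z ^ 2 * (f z * g z)) μ)
    (hl : LocInt μ (fun z => f z * g z)) :
    Integrable (fun z => ω z ^ 2 * D.G f f z) μ := by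
  rcases isEmpty_or_nonempty X with hX | ⟨⟨x₀⟩⟩
  · exact (integrable_zero X ℝ μ).congr (ae_of_all _ fun x => isEmptyElim x)
  have hW := h.1
  have i2 := hf.integrable_sq
  refine fatou (F := fun k z => tr x₀ ω k z ^ 2 * D.G f f z)
    (C := 4 * ∫ z, f z ^ 2 * ((max L 1 : NNReal) : ℝ) ^ 2 ∂μ +
      2 * ∫ z, |ω z ^ 2 * (f z * g z)| ∂μ)
    ((hω.continuous.aestronglyMeasurable.pow 2).mul (DS.G_aesm hW hW)) (fun k => ?_) (fun k => ?_)
    (fun k => ?_) (ae_of_all _ fun z => ?_)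
  · have hb := tr_lipB x₀ hω k
    refine ((DS.G_locInt hW hW).mul_lipB (hb.mul hb)).congr (ae_of_all _ fun z => ?_)
    simp only [Pi.mul_apply]
    ring
  · filter_upwards [DS.G_nonneg hW] with z hz
    positivity
  · have hb := tr_lipB x₀ hω k
    have hW' : D.W (tr x₀ ω k) := D.W_of_lipschitz (tr_lip x₀ hω k)
    have h1 := DS.Lap.cacc h hb hl
    have h2 : ∫ z, f z ^ 2 * D.G (tr x₀ ω k) (tr x₀ ω k) z ∂μ ≤
        ∫ z, f z ^ 2 * ((max L 1 : NNReal) : ℝ) ^ 2 ∂μ := by
      refine integral_mono_of_nonneg ?_ (i2.mul_const _) ?_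
      · filter_upwards [DS.G_nonneg hW'] with z hz
        positivity
      · filter_upwards [D.G_le_lipschitz (tr_lip x₀ hω k)] with z hz
        exact mul_le_mul_of_nonneg_left hz (sq_nonneg _)
    have h3 : |∫ z, tr x₀ ω k z ^ 2 * (f z * g z) ∂μ| ≤ ∫ z, |ω z ^ 2 * (f z * g z)| ∂μ := by
      refine (abs_integral_le_integral_abs).trans
        (integral_mono_of_nonneg (ae_of_all _ fun z => abs_nonneg _) hi.abs
          (ae_of_all _ fun z => ?_))
      simp only [abs_mul, abs_pow]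
      exact mul_le_mul_of_nonneg_right
        (pow_le_pow_left₀ (abs_nonneg _) (tr_abs x₀ ω k z) 2) (by positivity)
    linarith [neg_abs_le (∫ z, tr x₀ ω k z ^ 2 * (f z * g z) ∂μ)]
  · refine tendsto_const_nhds.congr' ?_
    filter_upwards [tr_ev x₀ ω z] with k hk
    rw [hk]

theorem mem_of_lap {f g : X → ℝ} (h : D.Lap f g) (hf : MemLp f 2 μ) (hg : MemLp g 2 μ) :
    f ∈ D.V := by
  have hi : Integrable (fun z => f z * g z) μ := hf.integrable_mul hg
  have h1 := wt_energy (ω := fun _ => 1) (L := 0) h hf (LipschitzWith.const 1)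
    (by simpa using hi) (locInt_of_int hi)
  exact DS.W.mem h.1 hf (by simpa using h1)

/-- The radial derivative of a function with decay is square integrable. -/
theorem memLp_GF {e : X} (P : Pot2 D n e) {f g : X → ℝ} (h : D.Lap f g) (hg : MemLp g 2 μ)
    (hf : MemLp (fun z => (1 + dist e z ^ 2) * f z) 2 μ) : MemLp (D.G (FF e) f) 2 μ := by
  have hW := h.1
  have hf2 : MemLp f 2 μ := by
    refine hf.of_le hW.aesm (ae_of_all _ fun z => ?_)
    rw [Real.norm_eq_abs, Real.norm_eq_abs, abs_mul,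
      abs_of_nonneg (a := 1 + dist e z ^ 2) (by positivity)]
    nlinarith [abs_nonneg (f z), sq_nonneg (dist e z)]
  have hc : Continuous fun z => dist e z ^ 2 := by fun_prop
  have hf3 : MemLp (fun z => dist e z ^ 2 * f z) 2 μ := by
    refine hf.of_le (hc.aestronglyMeasurable.mul hW.aesm) (ae_of_all _ fun z => ?_)
    rw [Real.norm_eq_abs, Real.norm_eq_abs, abs_mul, abs_mul, abs_of_nonneg (by positivity),
      abs_of_nonneg (a := 1 + dist e z ^ 2) (by positivity)]
    nlinarith [abs_nonneg (f z), sq_nonneg (dist e z)]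
  have hi : Integrable (fun z => f z * g z) μ := hf2.integrable_mul hg
  have hi' : Integrable (fun z => dist e z ^ 2 * (f z * g z)) μ := by
    have := integrable_mul_of_memLp hf3 hg
    simpa only [mul_assoc] using this
  have h1 := wt_energy (ω := fun z => dist e z) h hf2 (LipschitzWith.dist_right e) hi'
    (locInt_of_int hi)
  have hm := DS.G_aesm P.lap.1 hW
  refine (memLp_two_iff_integrable_sq hm).2 (h1.mono' (hm.pow 2) ?_)
  filter_upwards [DS.G_cs P.lap.1 hW, P.GF] with z a b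
  rw [b] at a
  rwa [Real.norm_of_nonneg (sq_nonneg _)]

theorem derL2_GF {e : X} (P : Pot2 D n e) {u : ℝ → X → ℝ} {w : X → ℝ} {t : ℝ}
    (h : D.DerV u w t) : DerL2 μ (fun s z => D.G (FF e) (u s) z / (1 + dist e z))
      (fun z => D.G (FF e) w z / (1 + dist e z)) t := by
  obtain ⟨h1, h2, -, h4⟩ := h
  refine ⟨h1.mono fun s hs => rad_memLp P hs, rad_memLp P h2, ?_⟩
  refine squeeze_zero' (Eventually.of_forall fun _ => n2_nonneg _) ?_ h4
  have ht := h1.self_of_nhds
  filter_upwards [(de_shift t).eventually h1, DS.deV_mem h1] with k hk hq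
  have hs : DQ u t k - w ∈ D.V := D.sub_mem hq h2
  have hF := P.lap.1
  have a1 := D.W_of_mem hk
  have a2 := D.W_of_mem ht
  have e1 : n2 μ (DQ (fun s z => D.G (FF e) (u s) z / (1 + dist e z)) t k -
      fun z => D.G (FF e) w z / (1 + dist e z)) =
      n2 μ (fun z => D.G (FF e) (DQ u t k - w) z / (1 + dist e z)) := by
    refine n2_congr ?_
    filter_upwards [DS.G_sub_right hF (D.W_of_mem hq) (D.W_of_mem h2),
      DS.G_smul_right k⁻¹ hF (a1.sub a2), DS.G_sub_right hF a1 a2] with z a b c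
    rw [a, de_DQ_eq u t k, b, c]
    simp only [DQ, Pi.sub_apply]
    ring
  rw [e1]
  exact integral_mono_ae (rad_int P hs) (DS.G_int hs hs) (rad_sq P (D.W_of_mem hs))

end RC.Co
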