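import Pool.Agent.P.MP_6472e5_gt.CoA1
import Pool.Agent.P.MP_6472e5_gt.CoA2
import Pool.Agent.P.MP_6472e5_gt.CoE

/-! The first derivative along the bridge, and the end points. -/

set_option autoImplicit false
set_option linter.unusedSectionVars false

noncomputable section

namespace RC.Co

open MeasureTheory Set Filter Topology Metric

variable {X : Type} [MetricSpace X] [ProperSpace X] [MeasurableSpace X] [BorelSpace X]
  {μ : Measure X} {D : DS μ} {κ : ℝ} {n : ℕ}

namespace CoFAux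

theorem FF_le (e z : X) : FF e z ≤ 1 + dist e z ^ 2 := by
  unfold FF
  nlinarith [sq_nonneg (dist e z)]

theorem alg {F w a b c d C B : ℝ} (h0 : 0 ≤ F) (h1 : F ≤ w) (hw : 1 ≤ w) (ha : 0 ≤ a) (hc : 0 ≤ c)
    (h2 : w * (c + |d|) ≤ C) (h3 : w * (a + |b|) ≤ B) : |F * (b * c + a * (d * -1))| ≤ C * B := by
  have h4 : |b * c + a * (d * -1)| ≤ (c + |d|) * (a + |b|) := by
    have := abs_add_le (b * c) (a * (d * -1))
    rw [abs_mul, abs_mul, abs_mul, abs_of_nonneg ha, abs_of_nonneg hc, abs_neg, abs_one] at this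
    nlinarith [mul_nonneg ha hc, mul_nonneg (abs_nonneg b) (abs_nonneg d)]
  have h5 : 0 ≤ a + |b| := by positivity
  have h6 : 0 ≤ c + |d| := by positivity
  rw [abs_mul, abs_of_nonneg h0]
  calc F * |b * c + a * (d * -1)| ≤ w * ((c + |d|) * (a + |b|)) :=
        mul_le_mul h1 h4 (abs_nonneg _) (h0.trans h1)
    _ ≤ C * B := by
        rw [← mul_assoc]
        exact mul_le_mul h2 ((le_mul_of_one_le_left h5 hw).trans h3) h5
          ((mul_nonneg (h0.trans h1) h6).trans h2)

theorem memLp_F {e : X} {g : X → ℝ} (hg : Continuous g)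
    (h : MemLp (fun z => (1 + dist e z ^ 2) * g z) 2 μ) : MemLp (fun z => FF e z * g z) 2 μ := by
  refine h.of_le ((FF_cont e).mul hg).aestronglyMeasurable (ae_of_all _ fun z => ?_)
  rw [norm_mul, norm_mul, Real.norm_of_nonneg (FF_nonneg e z),
    Real.norm_of_nonneg (by positivity : 0 ≤ 1 + dist e z ^ 2)]
  exact mul_le_mul_of_nonneg_right (FF_le e z) (norm_nonneg _)

theorem der (h : PreModel D n) (e : X) {t s : ℝ} (hs : 0 < s) (hst : s < t) (x y : X) :
    HasDerivAt (aa D e t x y) (∫ z, FF e z * (D.dp s y z * D.p (t - s) x z +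
      D.p s y z * (D.dp (t - s) x z * -1)) ∂μ) s := by
  have hp := h.toHP
  have hts := sub_pos.2 hst
  obtain ⟨C, hC⟩ := wt_bdd h e x (half_pos hts) t
  obtain ⟨B, R, -, hR, hB⟩ := wt_dom h e y (half_pos hs) t
  have hI : Ioo (s / 2) ((s + t) / 2) ∈ 𝓝 s := Ioo_mem_nhds (by linarith) (by linarith)
  have hc : ∀ σ, 0 < σ → σ < t → Continuous fun z => FF e z * (D.p σ y z * D.p (t - σ) x z) :=
    fun σ h1 h2 => (FF_cont e).mul ((p_cont' hp h1 y).mul (p_cont' hp (sub_pos.2 h2) x))
  refine (hasDerivAt_integral_of_dominated_loc_of_deriv_le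
    (F := fun σ z => FF e z * (D.p σ y z * D.p (t - σ) x z))
    (F' := fun σ z => FF e z * (D.dp σ y z * D.p (t - σ) x z +
      D.p σ y z * (D.dp (t - σ) x z * -1))) (bound := fun z => C * (B * D.p R y z)) hI
    (mem_of_superset hI fun σ hσ =>
      (hc σ (by linarith [hσ.1]) (by linarith [hσ.2])).aestronglyMeasurable) ?_ ?_
    (ae_of_all _ fun z σ hσ => ?_) (((hp.p_int R y hR).const_mul B).const_mul C)
    (ae_of_all _ fun z σ hσ => ?_)).2
  · refine (integrable_mul_of_memLp (hp.ker.2.1 s y hs)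
      (memLp_F (p_cont' hp hts x) (wt_memLp h e x hts).1)).congr (ae_of_all _ fun z => ?_)
    simp only
    ring
  · exact ((FF_cont e).mul (((dp_cont' hp hs y).mul (p_cont' hp hts x)).add ((p_cont' hp hs y).mul
      ((dp_cont' hp hts x).mul continuous_const)))).aestronglyMeasurable
  · have h1 : 0 < σ := by linarith [hσ.1]
    have h2 : 0 < t - σ := by linarith [hσ.2]
    exact alg (FF_nonneg e z) (FF_le e z) (le_add_of_nonneg_right (sq_nonneg _))
      (hp.p_pos _ _ _ h1).le (hp.p_pos _ _ _ h2).le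
      (hC _ ⟨by linarith [hσ.2], by linarith⟩ z) (hB _ ⟨hσ.1.le, by linarith⟩ z)
  · have h1 : 0 < σ := by linarith [hσ.1]
    have h2 : 0 < t - σ := by linarith [hσ.2]
    exact ((hp.der σ y z h1).mul
      ((hp.der (t - σ) x z h2).comp σ ((hasDerivAt_id' σ).const_sub t))).const_mul _

end CoFAux

open CoFAux

theorem aa_deriv (h : PreModel D n) {e : X} (P : Pot2 D n e) {t s : ℝ} (hs : 0 < s) (hst : s < t)
    (x y : X) : HasDerivAt (aa D e t x y) (n * D.p t x y + 2 * bb D e t x y s) s := by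
  have hp := h.toHP
  have hts := sub_pos.2 hst
  refine (der h e hs hst x y).congr_deriv ?_
  have Tx := hp.p_tb (t - s) x hts
  have Ty := hp.p_tb s y hs
  have m1 := memLp_F (p_cont' hp hts x) (wt_memLp h e x hts).1
  have m2 := memLp_F (dp_cont' hp hts x) (wt_memLp h e x hts).2
  have m3 := memLp_GF P Tx.lap (D.memLp _ Tx.memL) (wt_memLp h e x hts).1
  have m4 := D.memLp _ Tx.mem
  have m5 := D.memLp _ Ty.mem
  have m6 := D.memLp _ Ty.memL
  have hL := P.lap.mul Tx.lap (locBdd_of_continuous (FF_cont e)) Tx.bdd.locBdd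
  have m7 : MemLp (fun z => FF e z * D.dp (t - s) x z + D.p (t - s) x z * n +
      2 * D.G (FF e) (D.p (t - s) x) z) 2 μ := (m2.add (m4.mul_const _)).add (m3.const_mul 2)
  have hg := hL.green Ty.lap (mem_of_lap hL m1 m7) Ty.mem m7 m6
  have i1 := integrable_mul_of_memLp m1 m6
  have i2 := integrable_mul_of_memLp m2 m5
  have i3 := integrable_mul_of_memLp m4 m5
  have i4 := integrable_mul_of_memLp m3 m5
  have e1 : ∫ z, FF e z * (D.dp s y z * D.p (t - s) x z + D.p s y z * (D.dp (t - s) x z * -1)) ∂μ =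
      ∫ z, FF e z * D.p (t - s) x z * D.dp s y z ∂μ -
        ∫ z, FF e z * D.dp (t - s) x z * D.p s y z ∂μ := by
    rw [← integral_sub i1 i2]
    exact integral_congr_ae (ae_of_all _ fun z => by ring)
  have e2 : ∫ z, (FF e z * D.dp (t - s) x z + D.p (t - s) x z * n +
      2 * D.G (FF e) (D.p (t - s) x) z) * D.p s y z ∂μ =
      ∫ z, FF e z * D.dp (t - s) x z * D.p s y z ∂μ +
        (n * ∫ z, D.p (t - s) x z * D.p s y z ∂μ + 2 * bb D e t x y s) := by
    rw [bb, ← integral_const_mul, ← integral_const_mul,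
      ← integral_add (i3.const_mul _) (i4.const_mul _)]
    exact Eq.trans (integral_congr_ae (ae_of_all _ fun z => by ring))
      (integral_add i2 ((i3.const_mul (n : ℝ)).add (i4.const_mul 2)))
  rw [int_pp hp hts hs, sub_add_cancel] at e2
  rw [e2] at hg
  simp only [Pi.mul_apply] at hg
  rw [e1, ← hg]
  ring

theorem aa_zero (h : PreModel D n) (e : X) {t : ℝ} (ht : 0 < t) (x y : X) :
    Tendsto (aa D e t x y) (𝓝[>] 0) (𝓝 (FF e y * D.p t x y)) := by
  have hp := h.toHP
  obtain ⟨C, hC⟩ := wt_bdd h e x (half_pos ht) t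
  have hc : ∀ r, 0 < r → Continuous fun z => FF e z * D.p r x z := fun r hr =>
    (FF_cont e).mul (p_cont' hp hr x)
  have hd : ∀ r ∈ Icc (t / 2) t, ∀ z, |FF e z * D.p r x z| ≤ C ∧ |FF e z * D.dp r x z| ≤ C := by
    intro r hr z
    have h1 := hp.p_pos r x z (by linarith [hr.1])
    have h2 := mul_le_mul_of_nonneg_right (FF_le e z)
      (add_nonneg h1.le (abs_nonneg (D.dp r x z)))
    have h3 := FF_nonneg e z
    have h4 := hC r hr z
    rw [abs_mul, abs_mul, abs_of_nonneg h3, abs_of_pos h1]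
    constructor <;> nlinarith [mul_nonneg h3 h1.le, mul_nonneg h3 (abs_nonneg (D.dp r x z))]
  have hb : ∀ r ∈ Icc (t / 2) t, Bdd μ fun z => FF e z * D.p r x z := fun r hr =>
    ⟨C, ae_of_all _ fun z => (hd r hr z).1⟩
  have ht' : t ∈ Icc (t / 2) t := ⟨by linarith, le_rfl⟩
  have h1 := hp.pk_zero (hc t ht).aestronglyMeasurable (hb t ht') (x := y) (hc t ht).continuousAt
  have h2 : Tendsto (fun s => aa D e t x y s - D.Pk s (fun z => FF e z * D.p t x z) y) (𝓝[>] 0)
      (𝓝 0) := by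
    have h3 : Tendsto (fun s : ℝ => C * s) (𝓝[>] 0) (𝓝 0) := by
      simpa using ((tendsto_id (x := 𝓝 (0 : ℝ))).const_mul C).mono_left nhdsWithin_le_nhds
    refine squeeze_zero_norm' ?_ h3
    filter_upwards [Ioo_mem_nhdsGT (half_pos ht)] with s hs
    have hs' : t - s ∈ Icc (t / 2) t := ⟨by linarith [hs.2], by linarith [hs.1]⟩
    have h4 := hc (t - s) (by linarith [hs.2])
    have h5 : ∀ z, |FF e z * D.p (t - s) x z - FF e z * D.p t x z| ≤ C * s := fun z => by
      have := (convex_Icc (t / 2) t).norm_image_sub_le_of_norm_hasDerivWithin_le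
        (f := fun r => FF e z * D.p r x z) (f' := fun r => FF e z * D.dp r x z) (C := C)
        (fun r hr => ((hp.der r x z (by linarith [hr.1])).const_mul _).hasDerivWithinAt)
        (fun r hr => (hd r hr z).2) ht' hs'
      rwa [sub_sub_cancel_left, norm_neg, Real.norm_of_nonneg hs.1.le] at this
    refine le_of_eq_of_le (congrArg abs ?_) ((hp.pk_bdd _ s _
      (h4.sub (hc t ht)).aestronglyMeasurable (ae_of_all _ h5) hs.1).1 y)
    rw [aa, DS.Pk, DS.Pk, ← integral_sub ((hp.pk_int h4.aestronglyMeasurable (hb _ hs') hs.1 y).1.congr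
      (ae_of_all _ fun z => by ring)) (hp.pk_int (hc t ht).aestronglyMeasurable (hb t ht') hs.1 y).1]
    exact integral_congr_ae (ae_of_all _ fun z => by simp only [Pi.sub_apply]; ring)
  simpa using h2.add h1

theorem aa_end (h : PreModel D n) (e : X) {t : ℝ} (ht : 0 < t) (x y : X) :
    Tendsto (aa D e t x y) (𝓝[<] t) (𝓝 (FF e x * D.p t x y)) := by
  have h1 : Tendsto (fun s => t - s) (𝓝[<] t) (𝓝[>] 0) :=
    tendsto_nhdsWithin_iff.2 ⟨by
      simpa using ((tendsto_id (x := 𝓝 t)).const_sub t).mono_left nhdsWithin_le_nhds,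
      eventually_nhdsWithin_of_forall fun s hs => mem_Ioi.2 (sub_pos.2 hs)⟩
  rw [h.toHP.p_symm t x y ht]
  refine ((aa_zero h e ht y x).comp h1).congr fun s => ?_
  simp only [Function.comp, aa, sub_sub_cancel, mul_comm (D.p s y _)]

end RC.Co
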