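import Pool.Agent.P.MP_6472e5_gt.CoA1
import Pool.Agent.P.MP_6472e5_gt.CoA2
import Pool.Agent.P.MP_6472e5_gt.CoE
import Pool.Agent.P.MP_6472e5_gt.CoC

/-! The second derivative along the bridge. -/

set_option autoImplicit false
set_option linter.unusedSectionVars false

noncomputable section

namespace RC.Co

open MeasureTheory Set Filter Topology Metric

variable {X : Type} [MetricSpace X] [ProperSpace X] [MeasurableSpace X] [BorelSpace X]
  {μ : Measure X} {D : DS μ} {κ : ℝ} {n : ℕ}

namespace CoGAux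

theorem wt_le (e z : X) (a : ℝ) : ‖(1 + dist e z) * a‖ ≤ 2 * ‖(1 + dist e z ^ 2) * a‖ := by
  have h0 := dist_nonneg (x := e) (y := z)
  rw [norm_mul, norm_mul, ← mul_assoc, Real.norm_of_nonneg (by positivity),
    Real.norm_of_nonneg (r := 1 + dist e z ^ 2) (by positivity)]
  exact mul_le_mul_of_nonneg_right (by nlinarith [sq_nonneg (dist e z - 1)]) (norm_nonneg _)

theorem der_wt (h : PreModel D n) (e y : X) {s : ℝ} (hs : 0 < s) :
    DerL2 μ (fun r z => (1 + dist e z) * D.p r y z) (fun z => (1 + dist e z) * D.dp s y z) s := by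
  obtain ⟨C, R, -, hR, hC⟩ := wt_dom h e y (half_pos hs) (2 * s)
  refine derL2_of_pt (b := fun z => 2 * (C * D.p R y z)) ?_
    (ae_of_all _ fun z => (h.der s y z hs).const_mul _)
    (((h.ker.2.1 R y hR).const_mul C).const_mul 2) ?_
  · filter_upwards [Ioi_mem_nhds hs] with r hr
    exact (wt_memLp h e y hr).1.of_le_mul (c := 2) (Continuous.mul (by fun_prop)
      (p_cont' h.toHP hr y)).aestronglyMeasurable (ae_of_all _ fun z => wt_le e z _)
  · have h1 : Icc (s / 2) (2 * s) ∈ 𝓝 s := Icc_mem_nhds (half_lt_self hs) (by linarith)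
    filter_upwards [(de_shift s).eventually h1, de_ne] with k hk hk0
    refine ae_of_all _ fun z => ?_
    have h2 := Convex.norm_image_sub_le_of_norm_hasDerivWithin_le
      (f := fun r => (1 + dist e z) * D.p r y z) (f' := fun r => (1 + dist e z) * D.dp r y z)
      (C := 2 * (C * D.p R y z)) (fun r hr => ((h.der r y z ((half_pos hs).trans_le hr.1)).const_mul
        _).hasDerivWithinAt) (fun r hr => by
        refine (wt_le e z _).trans (mul_le_mul_of_nonneg_left (le_trans ?_ (hC r hr z)) two_pos.le)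
        rw [norm_mul, Real.norm_of_nonneg (by positivity), Real.norm_eq_abs]
        exact mul_le_mul_of_nonneg_left (le_add_of_nonneg_left
          (h.p_pos r y z ((half_pos hs).trans_le hr.1)).le) (by positivity))
      (convex_Icc _ _) (mem_of_mem_nhds h1) hk
    rw [add_sub_cancel_left] at h2
    rw [DQ, abs_div, div_le_iff₀ (abs_pos.2 hk0)]
    exact h2

end CoGAux

theorem bb_deriv (h : PreModel D n) {e : X} (P : Pot2 D n e) {t s : ℝ} (hs : 0 < s) (hst : s < t)
    (x y : X) : HasDerivAt (bb D e t x y) (2 * D.dp t x y) s := by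
  have hτ := sub_pos.2 hst
  have hH := h.toHP
  have h3 := ((derL2_GF P (derV_p hH hτ x).rev).mul (CoGAux.der_wt h e y hs)).hasDerivAt
  have h0 : ∀ (z : X) (a b : ℝ), a / (1 + dist e z) * ((1 + dist e z) * b) = a * b := fun z a b => by
    have := dist_nonneg (x := e) (y := z)
    field_simp
  simp only [h0] at h3
  refine h3.congr_deriv ?_
  obtain ⟨dd, hdd, -⟩ := exists_dd hH hτ x
  have t1 := h.p_tb _ x hτ
  have t2 := h.p_tb _ y hs
  have m1 := D.memLp _ t1.memL
  have m2 := D.memLp _ t2.mem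
  have m3 := D.memLp _ t2.memL
  have k1 := memLp_GF P t1.lap m1 (wt_memLp h e x hτ).1
  have k2 := memLp_GF P hdd.lap (D.memLp _ hdd.memL) (wt_memLp h e x hτ).2
  have l1 := P.toPot.lie hH.toR2.toR1 t1
  have k3 : MemLp (fun z => D.G (FF e) (D.dp (t - s) x) z + 2 * D.dp (t - s) x z) 2 μ :=
    k2.add (m1.const_mul 2)
  have g := l1.green t2.lap (mem_of_lap l1 k1 k3) t2.mem k3 m3
  have i1 := integrable_mul_of_memLp k2 m2
  have i2 := (integrable_mul_of_memLp m1 m2).const_mul 2
  have w := D.W_of_mem t1.memL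
  have e1 : (fun z => D.G (FF e) (-D.dp (t - s) x) z * D.p s y z +
      D.G (FF e) (D.p (t - s) x) z * D.dp s y z) =ᵐ[μ] fun z =>
      D.G (FF e) (D.p (t - s) x) z * D.dp s y z - D.G (FF e) (D.dp (t - s) x) z * D.p s y z := by
    filter_upwards [DS.G_symm P.toPot.W w.neg, DS.G_neg w P.toPot.W, DS.G_symm P.toPot.W w]
      with z a b c
    rw [a, b, c]
    ring
  simp only [add_mul, mul_assoc] at g
  rw [integral_add i1 i2, integral_const_mul, int_dpp hH hτ hs, sub_add_cancel] at g
  rw [integral_congr_ae e1, integral_sub (integrable_mul_of_memLp k1 m3) i1, ← g]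
  ring

end RC.Co
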