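import Pool.Agent.P.MP_6472e5_gt.CoF
import Pool.Agent.P.MP_6472e5_gt.CoG

/-! The radial derivative of the kernel. -/

set_option autoImplicit false
set_option linter.unusedSectionVars false

noncomputable section

namespace RC.Co

open MeasureTheory Set Filter Topology Metric

variable {X : Type} [MetricSpace X] [ProperSpace X] [MeasurableSpace X] [BorelSpace X]
  {μ : Measure X} {D : DS μ} {κ : ℝ} {n : ℕ}

namespace CoHAux

theorem const {f : ℝ → ℝ} {t : ℝ} (hf : ∀ s ∈ Ioo 0 t, HasDerivAt f 0 s) :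
    ∃ c, ∀ s ∈ Ioo 0 t, f s = c :=
  isOpen_Ioo.exists_is_const_of_deriv_eq_zero isPreconnected_Ioo
    (fun s hs => (hf s hs).differentiableAt.differentiableWithinAt) fun s hs => (hf s hs).deriv

theorem beta_lim (h : PreModel D n) (e : X) {t : ℝ} (ht : 0 < t) (x y : X) :
    ContinuousAt (fun s => beta D n e (t + s) x y + 2 * s * D.dp (t + s) x y) 0 := by
  have h1 : ContinuousAt (fun s => D.p (t + s) x y) 0 :=
    ContinuousAt.comp (g := fun s => D.p s x y) (by simpa using (h.der t x y ht).continuousAt)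
      (by fun_prop)
  have h2 : ContinuousAt (fun s => D.dp (t + s) x y) 0 :=
    ContinuousAt.comp (g := fun a : ℝ × X × X => D.dp a.1 a.2.1 a.2.2)
      (f := fun s => (t + s, x, y)) (h.dp_cont.continuousAt
        ((isOpen_Ioi.prod isOpen_univ).mem_nhds ⟨by simpa using ht, trivial⟩)) (by fun_prop)
  have h3 : t + 0 ≠ 0 := by simpa using ht.ne'
  unfold beta
  fun_prop (disch := assumption)

end CoHAux

theorem bb_eq (h : PreModel D n) {e : X} (P : Pot2 D n e) {t s : ℝ} (hs : 0 < s) (hst : s < t)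
    (x y : X) : bb D e t x y s = beta D n e t x y + 2 * s * D.dp t x y := by
  have ht : 0 < t := hs.trans hst
  obtain ⟨β, hβ⟩ := CoHAux.const (f := fun s => bb D e t x y s - 2 * D.dp t x y * s) (t := t)
    fun s hs => ((bb_deriv h P hs.1 hs.2 x y).sub
      ((hasDerivAt_id s).const_mul (2 * D.dp t x y))).congr_deriv (by ring)
  obtain ⟨α, hα⟩ := CoHAux.const (t := t) (f := fun s => aa D e t x y s -
      ((n * D.p t x y + 2 * β) * s + 2 * D.dp t x y * (s * s))) fun s hs => by
    have h1 := (aa_deriv h P hs.1 hs.2 x y).sub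
      (((hasDerivAt_id s).const_mul (n * D.p t x y + 2 * β)).add
        (((hasDerivAt_id s).mul (hasDerivAt_id s)).const_mul (2 * D.dp t x y)))
    refine h1.congr_deriv ?_
    rw [← hβ s hs]
    simp only [id]
    ring
  have hc : Continuous fun s : ℝ => (n * D.p t x y + 2 * β) * s + 2 * D.dp t x y * (s * s) := by
    fun_prop
  have h0 := tendsto_nhds_unique
    ((aa_zero h e ht x y).sub ((hc.tendsto 0).mono_left nhdsWithin_le_nhds))
    (tendsto_const_nhds.congr' (mem_of_superset (Ioo_mem_nhdsGT ht) fun s hs => (hα s hs).symm))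
  have h1 := tendsto_nhds_unique
    ((aa_end h e ht x y).sub ((hc.tendsto t).mono_left nhdsWithin_le_nhds))
    (tendsto_const_nhds.congr' (mem_of_superset (Ioo_mem_nhdsLT ht) fun s hs => (hα s hs).symm))
  have h2 := hβ s ⟨hs, hst⟩
  have h3 : (FF e x - FF e y) * D.p t x y / t = n * D.p t x y + 2 * β + 2 * D.dp t x y * t := by
    rw [div_eq_iff ht.ne']
    linarith
  rw [beta, h3]
  linarith

theorem idI (h : PreModel D n) {e : X} (P : Pot2 D n e) : IdI D n e := by
  intro t x ht
  have tb := h.p_tb t x ht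
  have hg : MemLp (D.G (FF e) (D.p t x)) 2 μ :=
    memLp_GF P tb.lap (D.memLp _ tb.memL) (wt_memLp h e x ht).1
  have hs : Tendsto (fun k : ℕ => 1 / ((k : ℝ) + 1)) atTop (𝓝[>] 0) :=
    tendsto_nhdsWithin_iff.2 ⟨tendsto_one_div_add_atTop_nhds_zero_nat,
      Eventually.of_forall fun k => mem_Ioi.2 Nat.one_div_pos_of_nat⟩
  obtain ⟨φ, hφ, hae⟩ := exists_subseq_ae
    (u := fun k : ℕ => D.P (1 / ((k : ℝ) + 1)) (D.G (FF e) (D.p t x)))
    (fun k => h.flow.memLp _ _ hg) hg ((h.flow.heat _ hg).2.comp hs)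
  filter_upwards [hae, ae_all_iff.2 fun k : ℕ =>
    h.ker.2.2 _ (1 / ((k : ℝ) + 1)) hg Nat.one_div_pos_of_nat] with y h1 h2
  have h3 := (CoHAux.beta_lim h e ht x y).tendsto.comp
    ((hs.mono_right nhdsWithin_le_nhds).comp hφ.tendsto_atTop)
  simp only [add_zero, mul_zero, zero_mul] at h3
  refine tendsto_nhds_unique h1 (h3.congr fun k => ?_)
  simp only [Function.comp_apply]
  rw [h2, ← bb_eq h P Nat.one_div_pos_of_nat (lt_add_of_pos_left _ ht), bb, add_sub_cancel_right]
  simp only [mul_comm]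

end RC.Co
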