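import Pool.Agent.P.MP_6472e5_gt.CoDef
import Pool.Agent.P.MP_6472e5_gt.Ls
import Pool.Agent.P.MP_6472e5_gt.Ca0m

/-! Derivatives along rays. -/

set_option autoImplicit false
set_option linter.unusedSectionVars false

noncomputable section

namespace RC.Co

open MeasureTheory Set Filter Topology Metric

variable {X : Type} [MetricSpace X] [ProperSpace X] [MeasurableSpace X] [BorelSpace X]
  {μ : Measure X} {D : DS μ} {κ : ℝ} {n : ℕ}

theorem coI1_up (h : RS D κ n) {e : X} (P : Pot2 D n e) {f β : X → ℝ} (hf : D.W f)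
    (hc : Continuous f) (hb : Bdd μ (D.G f f)) (hβ : Continuous β)
    (he : ∀ᵐ z ∂μ, D.G (FF e) f z = β z) {a : X} (ha : a ≠ e) {η : ℝ} (hη : 0 < η) :
    ∃ δ, 0 < δ ∧ ∀ b₁ ∈ ball a δ, ∀ b₂ ∈ ball a δ, dist e b₂ = dist e b₁ + dist b₁ b₂ →
      f b₂ - f b₁ ≤ (β a / dist e a + η) * dist b₁ b₂ := by
  obtain ⟨M, hM⟩ := hb
  have hρ : 0 < dist e a := dist_pos.2 ha.symm
  have hF : D.W (FF e) := P.lap.1
  have e1 : ∀ᶠ ε in 𝓝 (0 : ℝ), ε * M < dist e a * η :=
    ContinuousAt.eventually_lt (by fun_prop) continuousAt_const (by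
      simpa using mul_pos hρ hη)
  have e2 : ∀ᶠ ε in 𝓝 (0 : ℝ), 0 < dist e a + ε * (β a / dist e a + η / 2) :=
    ContinuousAt.eventually_lt continuousAt_const (by fun_prop) (by simpa using hρ)
  obtain ⟨ε, ⟨h1, h2⟩, hε⟩ :=
    (((e1.and e2).filter_mono nhdsWithin_le_nhds).and (self_mem_nhdsWithin (s := Ioi 0))).exists
  have hε : 0 < ε := hε
  have e3 : ∀ᶠ z in 𝓝 a, dist e z ^ 2 + 2 * (ε * β z) + ε ^ 2 * M <
      (dist e a + ε * (β a / dist e a + η / 2)) ^ 2 := by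
    refine ContinuousAt.eventually_lt (by fun_prop) continuousAt_const ?_
    have a1 : β a = β a / dist e a * dist e a := (div_mul_cancel₀ _ hρ.ne').symm
    generalize β a / dist e a = q at a1 h2 ⊢
    rw [a1]
    nlinarith [mul_lt_mul_of_pos_left h1 hε, sq_nonneg (ε * (q + η / 2))]
  obtain ⟨R, hR, h3⟩ := Metric.eventually_nhds_iff_ball.1 e3
  have key := DS.lip_of_G_le h.pos h.geo h.s2l (hF.add (hf.smul ε))
    ((FF_cont e).add (hc.const_smul ε)) a R h2.le (by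
      filter_upwards [DS.G_add_add hF (hf.smul ε), DS.G_smul_right ε hF hf, DS.G_smul_smul ε hf,
        P.GF, he, hM] with z a1 a2 a3 a4 a5 a6 hz
      have a7 := mul_le_mul_of_nonneg_left ((le_abs_self _).trans a6) (sq_nonneg ε)
      have a8 := h3 z hz
      rw [a1, a2, a3, a4, a5]
      linarith)
  refine ⟨min (R / 2) (ε * η / 2), lt_min (by positivity) (by positivity),
    fun b₁ g1 b₂ g2 hd => ?_⟩
  have k1 := (le_abs_self _).trans (key b₂ (ball_subset_ball (min_le_left _ _) g2) b₁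
    (ball_subset_ball (min_le_left _ _) g1))
  have k2 : dist b₁ a < ε * η / 2 := ball_subset_ball (min_le_right _ _) g1
  have k3 := dist_triangle e b₁ a
  have k4 : 0 ≤ dist b₁ b₂ := dist_nonneg
  simp only [Pi.add_apply, Pi.smul_apply, smul_eq_mul, FF, hd, dist_comm b₂ b₁] at k1
  refine le_of_mul_le_mul_left ?_ hε
  have k5 : (dist e a - ε * η / 2) * dist b₁ b₂ ≤ dist e b₁ * dist b₁ b₂ :=
    mul_le_mul_of_nonneg_right (by linarith) k4
  nlinarith [sq_nonneg (dist b₁ b₂)]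

theorem rad_le (h : RS D κ n) {e : X} (P : Pot2 D n e) {f β : X → ℝ} (hf : D.W f)
    (hc : Continuous f) (hb : Bdd μ (D.G f f)) (hβ : Continuous β)
    (he : ∀ᵐ z ∂μ, D.G (FF e) f z = β z) {a : X} (ha : a ≠ e) {η : ℝ} (hη : 0 < η) :
    ∃ δ, 0 < δ ∧ ∀ b₁ ∈ ball a δ, ∀ b₂ ∈ ball a δ, dist e b₂ = dist e b₁ + dist b₁ b₂ →
      |f b₂ - f b₁ - β a / dist e a * dist b₁ b₂| ≤ η * dist b₁ b₂ := by
  have hF : D.W (FF e) := P.lap.1
  obtain ⟨δ, hδ, h1⟩ := coI1_up h P hf hc hb hβ he ha hη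
  obtain ⟨δ', hδ', h2⟩ := coI1_up h P hf.neg hc.neg
    (hb.congr (EventuallyEq.symm (DS.G_neg_neg hf hf))) hβ.neg (β := -β) (by
      filter_upwards [DS.G_symm hF hf.neg, DS.G_neg hf hF, DS.G_symm hF hf, he] with z a b c d
      rw [a, b, ← c, d, Pi.neg_apply]) ha hη
  refine ⟨min δ δ', lt_min hδ hδ', fun b₁ g1 b₂ g2 hd => ?_⟩
  have k1 := h1 b₁ (ball_subset_ball (min_le_left _ _) g1) b₂
    (ball_subset_ball (min_le_left _ _) g2) hd
  have k2 := h2 b₁ (ball_subset_ball (min_le_right _ _) g1) b₂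
    (ball_subset_ball (min_le_right _ _) g2) hd
  simp only [Pi.neg_apply, neg_div] at k2
  rw [abs_le]
  constructor <;> linarith

/-- The derivative along a geodesic that moves away from `e` at constant speed. -/
theorem rad_deriv (h : RS D κ n) {e : X} (P : Pot2 D n e) {f β : X → ℝ} (hf : D.W f)
    (hc : Continuous f) (hb : Bdd μ (D.G f f)) (hβ : Continuous β)
    (he : ∀ᵐ z ∂μ, D.G (FF e) f z = β z) {γ : ℝ → X} {c v : ℝ} (hc0 : 0 < c) (hv : 0 ≤ v)
    (h1 : ∀ s ∈ Icc (0 : ℝ) 1, ∀ s' ∈ Icc (0 : ℝ) 1, dist (γ s) (γ s') = |s - s'| * v)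
    (h2 : ∀ s ∈ Icc (0 : ℝ) 1, dist e (γ s) = c + s * v) {s : ℝ} (hs : s ∈ Ioo (0 : ℝ) 1) :
    HasDerivAt (fun s => f (γ s)) (β (γ s) / (c + s * v) * v) s := by
  have hs' : s ∈ Icc (0 : ℝ) 1 := Ioo_subset_Icc_self hs
  have hρ : 0 < dist e (γ s) := by
    rw [h2 s hs']
    have := mul_nonneg hs.1.le hv
    linarith
  rw [hasDerivAt_iff_isLittleO, Asymptotics.isLittleO_iff, ← h2 s hs']
  intro η hη
  obtain ⟨δ, hδ, k⟩ := rad_le h P hf hc hb hβ he (dist_pos.1 hρ).symm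
    (η := η / (v + 1)) (by positivity)
  have e1 : ∀ᶠ s' in 𝓝 s, |s' - s| * v < δ :=
    ContinuousAt.eventually_lt (by fun_prop) continuousAt_const (by simpa using hδ)
  filter_upwards [e1, Icc_mem_nhds hs.1 hs.2] with r a b
  have m1 : γ r ∈ ball (γ s) δ := by rwa [mem_ball, h1 r b s hs']
  have m2 : η / (v + 1) * (|r - s| * v) ≤ η * |r - s| := by
    have a1 : η / (v + 1) * v ≤ η := by
      rw [div_mul_eq_mul_div, div_le_iff₀ (by positivity)]
      nlinarith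
    nlinarith [mul_le_mul_of_nonneg_right a1 (abs_nonneg (r - s))]
  rw [Real.norm_eq_abs, Real.norm_eq_abs, smul_eq_mul]
  refine le_trans ?_ m2
  rcases le_total s r with l | l
  · have d : dist (γ s) (γ r) = (r - s) * v := by
      rw [h1 s hs' r b, abs_sub_comm, abs_of_nonneg (sub_nonneg.2 l)]
    have k1 := k _ (mem_ball_self hδ) _ m1 (by rw [h2 r b, h2 s hs', d]; ring)
    rw [d] at k1
    rw [abs_of_nonneg (sub_nonneg.2 l)]
    refine le_trans (le_of_eq ?_) k1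
    congr 1
    ring
  · have d : dist (γ r) (γ s) = (s - r) * v := by
      rw [h1 r b s hs', abs_sub_comm, abs_of_nonneg (sub_nonneg.2 l)]
    have k1 := k _ m1 _ (mem_ball_self hδ) (by rw [h2 r b, h2 s hs', d]; ring)
    rw [d] at k1
    rw [abs_sub_comm r s, abs_of_nonneg (sub_nonneg.2 l), ← abs_neg]
    refine le_trans (le_of_eq ?_) k1
    congr 1
    ring

end RC.Co
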