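import Pool.Agent.P.MP_6472e5_gt.CoI1
import Pool.Agent.P.MP_6472e5_gt.CoA1
import Pool.Agent.P.MP_6472e5_gt.CoA3
import Pool.Agent.P.MP_6472e5_gt.TbA

/-! The kernel along rays. -/

set_option autoImplicit false
set_option linter.unusedSectionVars false

noncomputable section

namespace RC.Co

open MeasureTheory Set Filter Topology Metric

variable {X : Type} [MetricSpace X] [ProperSpace X] [MeasurableSpace X] [BorelSpace X]
  {μ : Measure X} {D : DS μ} {κ : ℝ} {n : ℕ}

namespace CoI2Aux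

theorem chain {f f₁ f₂ : ℝ → ℝ → ℝ} {a : ℝ → ℝ} {a' s : ℝ} (ha : HasDerivAt a a' s)
    (d₁ : ∀ᶠ v : ℝ × ℝ in 𝓝 (a s, s), HasDerivAt (f · v.2) (f₁ v.1 v.2) v.1)
    (d₂ : ∀ᶠ v : ℝ × ℝ in 𝓝 (a s, s), HasDerivAt (f v.1) (f₂ v.1 v.2) v.2)
    (c₁ : ContinuousAt (fun v : ℝ × ℝ => f₁ v.1 v.2) (a s, s))
    (c₂ : ContinuousAt (fun v : ℝ × ℝ => f₂ v.1 v.2) (a s, s)) :
    HasDerivAt (fun s => f (a s) s) (a' * f₁ (a s) s + f₂ (a s) s) s := by
  have hc : Continuous fun c : ℝ => ContinuousLinearMap.toSpanSingleton ℝ c :=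
    (ContinuousLinearMap.smulRightL ℝ ℝ ℝ 1).continuous
  have h1 := hasStrictFDerivAt_uncurry_coprod (𝕜 := ℝ) (u := (a s, s)) (f := f)
    (f₁ := fun x y => ContinuousLinearMap.toSpanSingleton ℝ (f₁ x y))
    (f₂ := fun x y => ContinuousLinearMap.toSpanSingleton ℝ (f₂ x y))
    (d₁.mono fun v hv => hv.hasFDerivAt) (d₂.mono fun v hv => hv.hasFDerivAt)
    (hc.continuousAt.comp c₁) (hc.continuousAt.comp c₂)
  have h2 := h1.hasFDerivAt.comp_hasDerivAt s (f := fun s => (a s, s))
    (ha.prodMk (hasDerivAt_id s))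
  refine h2.congr_deriv ?_
  change a' • f₁ (a s) s + (1 : ℝ) • f₂ (a s) s = _
  rw [one_smul, smul_eq_mul]

theorem cont {q : ℝ → X → X → ℝ}
    (hq : ContinuousOn (fun a : ℝ × X × X => q a.1 a.2.1 a.2.2) (Ioi 0 ×ˢ univ)) (y : X)
    {γ : ℝ → X} {u : ℝ × ℝ} (h0 : 0 < u.1) (hγ : ContinuousAt γ u.2) :
    ContinuousAt (fun v : ℝ × ℝ => q v.1 y (γ v.2)) u :=
  (hq.continuousAt (x := (u.1, y, γ u.2))
    ((isOpen_Ioi.prod isOpen_univ).mem_nhds ⟨h0, trivial⟩)).comp
    (f := fun v : ℝ × ℝ => (v.1, y, γ v.2))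
    (continuousAt_fst.prodMk (continuousAt_const.prodMk (hγ.comp continuousAt_snd)))

end CoI2Aux

theorem ray (h : PreModel D n) {e : X} (P : Pot2 D n e) (hG : Gau D n e) (hI : IdI D n e) :
    Ray D n e := by
  intro l x w y t hl hl1 ht ⟨r1, r2⟩
  have H := h.toHP
  rcases eq_or_ne x e with rfl | hx
  · obtain rfl : x = w := by simpa using r1
    rw [H.p_symm _ y x (mul_pos hl ht), H.p_symm _ y x ht, gau_log h hG (mul_pos hl ht),
      gau_log h hG ht, Real.log_mul hl.ne' ht.ne', FF_self]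
    ring
  have hρ : 0 < dist e x := dist_pos.2 hx.symm
  rw [abs_of_nonneg (sub_nonneg.2 hl1)] at r2
  obtain ⟨γ, g0, g1, hγ⟩ := H.geo w x
  rw [r2] at hγ
  have hv : 0 ≤ (1 - l) * dist e x := mul_nonneg (sub_nonneg.2 hl1) hρ.le
  have h2 : ∀ s ∈ Icc (0 : ℝ) 1, dist e (γ s) = l * dist e x + s * ((1 - l) * dist e x) := by
    intro s hs
    have a1 := hγ 0 (left_mem_Icc.2 zero_le_one) s hs
    have a2 := hγ s hs 1 (right_mem_Icc.2 zero_le_one)
    rw [g0, zero_sub, abs_neg, abs_of_nonneg hs.1] at a1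
    rw [g1, abs_of_nonpos (sub_nonpos.2 hs.2)] at a2
    linarith [dist_triangle e w (γ s), dist_triangle e (γ s) x]
  have hc : ContinuousOn γ (Icc 0 1) :=
    (LipschitzOnWith.of_dist_le_mul (K := ⟨_, hv⟩) fun s hs s' hs' =>
      ((hγ s hs s' hs').trans (mul_comm _ _)).le).continuousOn
  have hl' : ∀ s ∈ Icc (0 : ℝ) 1, 0 < l + s * (1 - l) := fun s hs =>
    add_pos_of_pos_of_nonneg hl (mul_nonneg hs.1 (sub_nonneg.2 hl1))
  have hβ : ∀ τ, 0 < τ → Continuous (beta D n e τ y) := fun τ hτ => by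
    have a1 := p_cont' H hτ y
    have a2 := dp_cont' H hτ y
    have a3 := FF_cont e
    unfold beta
    fun_prop
  obtain ⟨s, -, h3⟩ := exists_hasDerivAt_eq_slope (fun s => Real.log
    (D.p ((l + s * (1 - l)) * t) y (γ s)) + n / 2 * Real.log (l + s * (1 - l)) +
      (l + s * (1 - l)) * FF e x / (2 * t) + FF e y / (2 * (l + s * (1 - l)) * t)) (fun _ => 0)
    zero_lt_one (by
      have a1 : ContinuousOn (fun s => D.p ((l + s * (1 - l)) * t) y (γ s)) (Icc 0 1) :=
        H.ker.1.comp (f := fun s => ((l + s * (1 - l)) * t, y, γ s))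
          ((by fun_prop : ContinuousOn (fun s : ℝ => (l + s * (1 - l)) * t) _).prodMk
            (continuousOn_const.prodMk hc)) fun s hs => ⟨mul_pos (hl' s hs) ht, trivial⟩
      refine (((a1.log fun s hs => (H.p_pos _ _ _ (mul_pos (hl' s hs) ht)).ne').add
        (continuousOn_const.mul (ContinuousOn.log (by fun_prop) fun s hs => (hl' s hs).ne'))).add
        (by fun_prop)).add (continuousOn_const.div (by fun_prop) fun s hs => ?_)
      exact (mul_pos (mul_pos two_pos (hl' s hs)) ht).ne') fun s hs => by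
      have a0 := hl' s (Ioo_subset_Icc_self hs)
      have a1 := mul_pos a0 ht
      have a2 : HasDerivAt (fun s : ℝ => l + s * (1 - l)) (1 - l) s := by
        simpa using ((hasDerivAt_id s).mul_const (1 - l)).const_add l
      have a3 : ∀ᶠ v : ℝ × ℝ in 𝓝 ((l + s * (1 - l)) * t, s), 0 < v.1 ∧ v.2 ∈ Ioo (0 : ℝ) 1 :=
        (isOpen_Ioi.prod isOpen_Ioo).mem_nhds ⟨a1, hs⟩
      have a4 := hc.continuousAt (Icc_mem_nhds hs.1 hs.2)
      have a5 := CoI2Aux.cont H.ker.1 y (u := ((l + s * (1 - l)) * t, s)) a1 a4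
      have a6 := CoI2Aux.cont H.dp_cont y (u := ((l + s * (1 - l)) * t, s)) a1 a4
      have a7 : ContinuousAt (fun v : ℝ × ℝ => FF e (γ v.2)) ((l + s * (1 - l)) * t, s) :=
        (FF_cont e).continuousAt.comp (f := fun v : ℝ × ℝ => γ v.2)
          (a4.comp (f := fun v : ℝ × ℝ => v.2) continuousAt_snd)
      have a8 : l * dist e x + s * ((1 - l) * dist e x) = (l + s * (1 - l)) * dist e x := by ring
      have a9 := CoI2Aux.chain (f := fun τ s => D.p τ y (γ s)) (f₁ := fun τ s => D.dp τ y (γ s))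
        (f₂ := fun τ s => beta D n e τ y (γ s) / (l * dist e x + s * ((1 - l) * dist e x)) *
          ((1 - l) * dist e x)) (a2.mul_const t) (a3.mono fun v hv => H.der _ _ _ hv.1)
        (a3.mono fun v hv' => rad_deriv H.toR2.toR1.toRS P (H.p_tb _ y hv'.1).W
          (p_cont' H hv'.1 y) (H.p_tb _ y hv'.1).bddG (hβ _ hv'.1) (hI _ y hv'.1) (mul_pos hl hρ)
          hv hγ h2 hv'.2) a6 (by
          unfold beta
          refine ContinuousAt.mul (ContinuousAt.div (ContinuousAt.div_const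
            (((((continuousAt_const.sub a7).mul a5).div continuousAt_fst a1.ne').sub
              (continuousAt_const.mul a5)).sub ((continuousAt_const.mul continuousAt_fst).mul a6))
            2) (by fun_prop) ?_) continuousAt_const
          exact (a8.trans_gt (mul_pos a0 hρ)).ne')
      have b1 := H.p_pos _ y (γ s) a1
      have b2 : FF e (γ s) = (l + s * (1 - l)) ^ 2 * FF e x := by
        unfold FF
        rw [h2 s (Ioo_subset_Icc_self hs)]
        ring
      refine ((((a9.log b1.ne').add ((a2.log a0.ne').const_mul (n / 2 : ℝ))).add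
        ((a2.mul_const (FF e x)).div_const (2 * t))).add ((hasDerivAt_const s (FF e y)).div
          ((a2.const_mul 2).mul_const t) (mul_pos (mul_pos two_pos a0) ht).ne')).congr_deriv ?_
      simp only [beta]
      rw [b2, a8]
      generalize D.p ((l + s * (1 - l)) * t) y (γ s) = p at b1
      generalize l + s * (1 - l) = m at a0
      field_simp
      ring
  simp only [g0, g1, zero_mul, one_mul, add_zero, add_sub_cancel, Real.log_one, mul_zero,
    mul_one, sub_zero, div_one] at h3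
  rw [add_div]
  linarith

end RC.Co
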