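import Pool.Agent.P.MP_6472e5_gt.CoA3

/-! Metric consequences of the ray identity. -/

set_option autoImplicit false
set_option linter.unusedSectionVars false

noncomputable section

namespace RC.Co

open MeasureTheory Set Filter Topology Metric

variable {X : Type} [MetricSpace X] [ProperSpace X] [MeasurableSpace X] [BorelSpace X]
  {μ : Measure X} {D : DS μ} {κ : ℝ} {n : ℕ}

theorem law_rel (h : PreModel D n) {e : X} (hS : Ray D n e) {l : ℝ} (h0 : 0 < l) (h1 : l ≤ 1)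
    {y w : X} (hr : Rel e l y w) (z : X) :
    dist z w ^ 2 = l * dist z y ^ 2 + (1 - l) * dist e z ^ 2 - l * (1 - l) * dist e y ^ 2 := by
  have m : Tendsto (fun t : ℝ => l * t) (𝓝[>] 0) (𝓝[>] 0) := by
    refine tendsto_nhdsWithin_iff.2 ⟨?_, eventually_mem_nhdsWithin.mono fun t ht => mul_pos h0 ht⟩
    have : Tendsto (fun t : ℝ => l * t) (𝓝[>] 0) (𝓝 (l * 0)) :=
      (tendsto_id.mono_left nhdsWithin_le_nhds).const_mul l
    rwa [mul_zero] at this
  have l1 := (varadhan h z w).comp m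
  have l2 : Tendsto (fun t : ℝ => l * (-4 * t * Real.log (D.p t z y)) +
      2 * l * n * Real.log l * t + (2 * (1 - l) * FF e z - 2 * l * (1 - l) * FF e y)) (𝓝[>] 0)
      (𝓝 (l * dist z y ^ 2 + 2 * l * n * Real.log l * 0 +
        (2 * (1 - l) * FF e z - 2 * l * (1 - l) * FF e y))) :=
    (((varadhan h z y).const_mul l).add
      ((tendsto_id.mono_left nhdsWithin_le_nhds).const_mul _)).add_const _
  have := tendsto_nhds_unique_of_eventuallyEq l1 l2
    (eventually_mem_nhdsWithin.mono fun t (ht : 0 < t) => ?_)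
  · rw [this]
    unfold FF
    ring
  · have H := hS l y w z t h0 h1 ht hr
    have e1 : Real.log (D.p (l * t) z w) = Real.log (D.p t z y) + (FF e y + FF e z) / (2 * t) -
        (n / 2 * Real.log l + l * FF e y / (2 * t) + FF e z / (2 * l * t)) := by linarith
    show -4 * (l * t) * Real.log (D.p (l * t) z w) = _
    rw [e1]
    field_simp
    ring

theorem ker_rel (h : PreModel D n) {e : X} (hS : Ray D n e) {l : ℝ} (h0 : 0 < l) (h1 : l ≤ 1)
    {y w y' w' : X} (hr : Rel e l y w) (hr' : Rel e l y' w') {t : ℝ} (ht : 0 < t) :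
    l ^ n * D.p (l ^ 2 * t) w w' = D.p t y y' := by
  have hlt := mul_pos h0 ht
  have h2 : 0 < l ^ 2 * t := mul_pos (pow_pos h0 2) ht
  have H1 := hS l y w w' (l * t) h0 h1 hlt hr
  have H2 := hS l y' w' y t h0 h1 ht hr'
  have e1 : FF e w' = l ^ 2 * FF e y' := by
    unfold FF
    rw [hr'.1]
    ring
  rw [show l * (l * t) = l ^ 2 * t by ring, h.p_symm _ w' w h2, h.p_symm _ w' y hlt, e1] at H1
  refine Real.log_injOn_pos (mul_pos (pow_pos h0 n) (h.p_pos _ _ _ h2)) (h.p_pos _ _ _ ht) ?_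
  rw [Real.log_mul (pow_pos h0 n).ne' (h.p_pos _ _ _ h2).ne', Real.log_pow]
  have e2 : l * FF e y / (2 * (l * t)) + l ^ 2 * FF e y' / (2 * l * (l * t)) =
      (FF e y' + FF e y) / (2 * t) := by
    field_simp
    ring
  have e3 : (FF e y + l ^ 2 * FF e y') / (2 * (l * t)) =
      l * FF e y' / (2 * t) + FF e y / (2 * l * t) := by
    field_simp
    ring
  linarith

theorem exists_rel_le (h : IsGeodesic X) (e y : X) {l : ℝ} (h0 : 0 ≤ l) (h1 : l ≤ 1) :
    ∃ w, Rel e l y w := by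
  obtain ⟨γ, g0, g1, hγ⟩ := h e y
  refine ⟨γ l, ?_, ?_⟩
  · have := hγ 0 ⟨le_rfl, zero_le_one⟩ l ⟨h0, h1⟩
    rwa [g0, zero_sub, abs_neg, abs_of_nonneg h0] at this
  · have := hγ l ⟨h0, h1⟩ 1 ⟨zero_le_one, le_rfl⟩
    rwa [g1, abs_sub_comm] at this

theorem Rel.inv {e y w : X} {l : ℝ} (hl : 0 < l) (h : Rel e l y w) : Rel e l⁻¹ w y := by
  refine ⟨by rw [h.1, inv_mul_cancel_left₀ hl.ne'], ?_⟩
  have e1 : |1 - l⁻¹| * l = |1 - l| := by
    rw [abs_sub_comm 1 l, ← abs_of_pos hl, ← abs_mul, abs_of_pos hl, sub_mul,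
      inv_mul_cancel₀ hl.ne', one_mul]
  rw [dist_comm, h.2, h.1, ← mul_assoc, e1]

/-- The product of two kernels along a ray. -/
theorem ker_prod (h : PreModel D n) {e : X} (hS : Ray D n e) (hG : Gau D n e) {l : ℝ}
    (h0 : 0 < l) (h1 : l < 1) {y w : X} (hr : Rel e l y w) (z : X) :
    D.p 1 e y * D.p (l * (1 - l)) w z = D.p (1 - l) y z * D.p l e z := by
  have hl : 0 < 1 - l := sub_pos.2 h1
  have hm := mul_pos h0 hl
  have H := hS l y w z (1 - l) h0 h1.le hl hr
  have G1 := gau_log h hG one_pos y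
  have G2 := gau_log h hG h0 z
  rw [h.p_symm _ z w hm, h.p_symm _ z y hl] at H
  rw [Real.log_one] at G1
  refine Real.log_injOn_pos (mul_pos (h.p_pos _ _ _ one_pos) (h.p_pos _ _ _ hm))
    (mul_pos (h.p_pos _ _ _ hl) (h.p_pos _ _ _ h0)) ?_
  rw [Real.log_mul (h.p_pos _ _ _ one_pos).ne' (h.p_pos _ _ _ hm).ne',
    Real.log_mul (h.p_pos _ _ _ hl).ne' (h.p_pos _ _ _ h0).ne']
  have e1 : (FF e y + FF e z) / (2 * (1 - l)) - l * FF e y / (2 * (1 - l)) -
      FF e z / (2 * l * (1 - l)) = FF e y / (2 * 1) - FF e z / (2 * l) := by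
    field_simp
    ring
  linarith

end RC.Co
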