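import Pool.Agent.P.MP_6472e5_gt.CoA2

/-! Backward uniqueness for the heat flow of a measure. -/

set_option autoImplicit false
set_option linter.unusedSectionVars false

noncomputable section

namespace RC.Co

open MeasureTheory Set Filter Topology Metric

variable {X : Type} [MetricSpace X] [ProperSpace X] [MeasurableSpace X] [BorelSpace X]
  {μ : Measure X} {D : DS μ} {κ : ℝ} {n : ℕ}

namespace CoJ2Aux

/-- The flow of the image measure minus the flow of the second measure. -/
def dd (D : DS μ) (T : X → X) (e : X) (a b c : ℝ) (z : X) : ℝ :=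
  ∫ y, D.p a e y * D.p c (T y) z ∂μ - D.p (b + c) e z

variable (h : PreModel D n) {T : X → X} (hT : Continuous T) {e : X} {a b : ℝ} (ha : 0 < a)
  (hb : 0 < b)
include h

theorem p_c {t : ℝ} (ht : 0 < t) (x : X) : Continuous (D.p t x) :=
  (h.toHP.p_cont ht).comp (Continuous.prodMk_right x)

theorem p_b {t : ℝ} (ht : 0 < t) (x : X) : Bdd μ (D.p t x) := by
  obtain ⟨C, hC⟩ := h.p_bdd t x ht
  exact ⟨C, Eventually.of_forall fun y => by
    rw [abs_of_pos (h.p_pos t x y ht)]
    exact hC y⟩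

theorem pk_p {s t : ℝ} (hs : 0 < s) (ht : 0 < t) (x z : X) :
    D.Pk s (D.p t z) x = D.p (s + t) x z := by
  rw [h.ck s t x z hs ht]
  exact integral_congr_ae (Eventually.of_forall fun w => by
    simp only [h.p_symm t z w ht])

include hT ha

theorem int_a {c : ℝ} (hc : 0 < c) :
    Integrable (fun z => ∫ y, D.p a e y * D.p c (T y) z ∂μ) μ := by
  haveI := D.sfin
  have hm : AEStronglyMeasurable (fun q : X × X => D.p a e q.1 * D.p c (T q.1) q.2) (μ.prod μ) :=
    (((p_c h ha e).comp continuous_fst).mul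
      ((h.toHP.p_cont hc).comp (hT.prodMap continuous_id))).aestronglyMeasurable
  refine Integrable.integral_prod_right (f := fun q : X × X => D.p a e q.1 * D.p c (T q.1) q.2) ?_
  rw [integrable_prod_iff hm]
  refine ⟨Eventually.of_forall fun y => (h.p_int c (T y) hc).const_mul (D.p a e y),
    (h.p_int a e ha).congr (Eventually.of_forall fun y => ?_)⟩
  have e1 : ∀ w, ‖D.p a e y * D.p c (T y) w‖ = D.p a e y * D.p c (T y) w := fun w =>
    Real.norm_of_nonneg (mul_pos (h.p_pos a e y ha) (h.p_pos c _ w hc)).le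
  simp only [e1, integral_const_mul, h.p_one c (T y) hc, mul_one]

include hb

theorem dd_int {c : ℝ} (hc : 0 < c) : Integrable (dd D T e a b c) μ :=
  (int_a h hT ha hc).sub (h.p_int _ e (add_pos hb hc))

theorem dd_bdd {c : ℝ} (hc : 0 < c) : Bdd μ (dd D T e a b c) := by
  obtain ⟨C, hC⟩ := p_le h hc
  refine Bdd.sub (f := fun z => ∫ y, D.p a e y * D.p c (T y) z ∂μ)
    ⟨C, Eventually.of_forall fun z => ?_⟩ (p_b h (add_pos hb hc) e)
  refine (h.pk_bdd (fun y => D.p c (T y) z) a C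
    ((h.toHP.p_cont hc).comp (hT.prodMk continuous_const)).aestronglyMeasurable
    (Eventually.of_forall fun y => ?_) ha).1 e
  rw [abs_of_pos (h.p_pos c _ z hc)]
  exact hC _ _

theorem fub {c : ℝ} (hc : 0 < c) {f : X → ℝ} (hm : AEStronglyMeasurable f μ) (hf : Bdd μ f) :
    ∫ y, D.p a e y * D.Pk c f (T y) ∂μ - ∫ z, D.p b e z * D.Pk c f z ∂μ =
      ∫ w, f w * dd D T e a b c w ∂μ := by
  haveI := D.sfin
  have h1 := (hpb_fub (ν := μ) (k := fun y w => D.p c (T y) w) (C := 1)
    ((h.toHP.p_cont hc).comp (hT.prodMap continuous_id)).aestronglyMeasurable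
    (Eventually.of_forall fun y => ⟨h.p_int c _ hc, by
      simp only [abs_of_pos (h.p_pos c (T y) _ hc), h.p_one c (T y) hc, le_refl]⟩)
    (h.p_int a e ha) hm hf).2
  have h2 : ∫ z, D.p b e z * D.Pk c f z ∂μ = ∫ w, D.p (b + c) e w * f w ∂μ :=
    (h.toHP.pk_semi hm hf hb hc e).1.symm
  have h3 : ∫ y, D.p a e y * D.Pk c f (T y) ∂μ =
      ∫ w, (∫ y, D.p a e y * D.p c (T y) w ∂μ) * f w ∂μ := h1
  rw [h2, h3]
  simp only [dd, mul_sub]
  rw [integral_sub (hf.mul_integrable hm (int_a h hT ha hc))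
    (hf.mul_integrable hm (h.p_int _ e (add_pos hb hc)))]
  simp only [mul_comm (f _)]

theorem semi {c s : ℝ} (hc : 0 < c) (hs : 0 < s) (z : X) :
    D.Pk s (dd D T e a b c) z = dd D T e a b (c + s) z := by
  have h1 := fub h hT (e := e) ha hb hc (p_c h hs z).aestronglyMeasurable (p_b h hs z)
  simp only [pk_p h hc hs] at h1
  rw [← h.ck b (c + s) e z hb (add_pos hc hs)] at h1
  exact h1.symm

theorem later {c s : ℝ} (hc : 0 < c) (hs : 0 < s) (h0 : dd D T e a b c =ᵐ[μ] 0) (z : X) :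
    dd D T e a b (c + s) z = 0 := by
  rw [← semi h hT ha hb hc hs z, (h.toHP.pk_congr h0 s).1]
  simp [DS.Pk]

theorem half {c : ℝ} (hc : 0 < c) (h0 : ∀ z, dd D T e a b (c + c) z = 0) :
    dd D T e a b c =ᵐ[μ] 0 := by
  have hi := dd_int h hT (e := e) ha hb hc
  have hbd := dd_bdd h hT (e := e) ha hb hc
  have h1 := fub h hT (e := e) ha hb hc hi.aestronglyMeasurable hbd
  simp only [semi h hT ha hb hc hc, h0, mul_zero, integral_zero, sub_self] at h1
  have h2 := (integral_eq_zero_iff_of_nonneg (fun w => mul_self_nonneg (dd D T e a b c w))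
    (hbd.mul_integrable hi.aestronglyMeasurable hi)).mp h1.symm
  filter_upwards [h2] with w hw using mul_self_eq_zero.mp hw

theorem all {σ : ℝ} (hσ : 0 < σ) (h0 : ∀ z, dd D T e a b σ z = 0) {c : ℝ} (hc : 0 < c) (z : X) :
    dd D T e a b c z = 0 := by
  have key : ∀ k : ℕ, ∀ c, σ * (1 / 2) ^ k < c → ∀ z, dd D T e a b c z = 0 := by
    intro k
    induction k with
    | zero =>
      intro c hc z
      rw [pow_zero, mul_one] at hc
      have h1 := later h hT ha hb hσ (sub_pos.mpr hc) (Eventually.of_forall h0) z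
      rwa [add_sub_cancel] at h1
    | succ k ih =>
      intro c hc z
      obtain ⟨c₁, h1, h2⟩ := exists_between hc
      have h3 : 0 < c₁ := lt_trans (by positivity) h1
      rw [pow_succ] at h1
      have h4 := later h hT ha hb h3 (sub_pos.mpr h2)
        (half h hT ha hb h3 (ih _ (by linarith))) z
      rwa [add_sub_cancel] at h4
  obtain ⟨k, hk⟩ := exists_pow_lt_of_lt_one (div_pos hc hσ) (show (1 / 2 : ℝ) < 1 by norm_num)
  exact key k c ((lt_div_iff₀' hσ).mp hk) z

omit hb in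
theorem lim {f : X → ℝ} (hf : Continuous f) {M : ℝ} (hM : ∀ z, |f z| ≤ M) :
    Tendsto (fun c => ∫ y, D.p a e y * D.Pk c f (T y) ∂μ) (𝓝[>] 0)
      (𝓝 (∫ y, D.p a e y * f (T y) ∂μ)) := by
  have hm : AEStronglyMeasurable f μ := hf.aestronglyMeasurable
  have hb : Bdd μ f := ⟨M, Eventually.of_forall hM⟩
  have hpos : ∀ᶠ c in 𝓝[>] (0 : ℝ), 0 < c := self_mem_nhdsWithin
  refine tendsto_integral_filter_of_dominated_convergence (fun y => D.p a e y * M)
    (hpos.mono fun c hc => ((p_c h ha e).mul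
      ((h.toHP.pk_cont hm hb hc).comp hT)).aestronglyMeasurable)
    (hpos.mono fun c hc => Eventually.of_forall fun y => ?_) ((h.p_int a e ha).mul_const M)
    (Eventually.of_forall fun y => (h.toHP.pk_zero hm hb hf.continuousAt).const_mul _)
  rw [Real.norm_eq_abs, abs_mul, abs_of_pos (h.p_pos a e y ha)]
  exact mul_le_mul_of_nonneg_left ((h.pk_bdd f c M hm (Eventually.of_forall hM) hc).1 _)
    (h.p_pos a e y ha).le

end CoJ2Aux

theorem push_eq (h : PreModel D n) {T : X → X} (hT : Continuous T) {e : X} {a b σ : ℝ}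
    (ha : 0 < a) (hb : 0 < b) (hσ : 0 < σ)
    (he : ∀ z, ∫ y, D.p a e y * D.p σ (T y) z ∂μ = D.p (b + σ) e z) {f : X → ℝ}
    (hf : Continuous f) {M : ℝ} (hM : ∀ z, |f z| ≤ M) :
    ∫ y, D.p a e y * f (T y) ∂μ = ∫ z, D.p b e z * f z ∂μ := by
  refine tendsto_nhds_unique (CoJ2Aux.lim h hT ha hf hM)
    ((CoJ2Aux.lim h continuous_id hb hf hM).congr' ?_)
  filter_upwards [self_mem_nhdsWithin] with c hc
  have h1 := CoJ2Aux.fub h hT (e := e) ha hb hc hf.aestronglyMeasurable
    ⟨M, Eventually.of_forall hM⟩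
  simp only [CoJ2Aux.all h hT ha hb hσ (fun z => sub_eq_zero.mpr (he z)) hc, mul_zero,
    integral_zero] at h1
  exact (sub_eq_zero.mp h1).symm

end RC.Co
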