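import Pool.Agent.P.MP_6472e5_gt.CoDef
import Pool.Agent.P.MP_6472e5_gt.HpB

/-! From densities to measures. -/

set_option autoImplicit false
set_option linter.unusedSectionVars false

noncomputable section

namespace RC.Co

open MeasureTheory Set Filter Topology Metric

variable {X : Type} [MetricSpace X] [ProperSpace X] [MeasurableSpace X] [BorelSpace X]
  {μ : Measure X} {D : DS μ} {κ : ℝ} {n : ℕ}

theorem map_of_push (h : HP D κ n) {T : X → X} (hT : Continuous T) {e : X} {a b c : ℝ}
    (ha : 0 < a) (hb : 0 < b) (hc : 0 < c) (hd : ∀ y, D.p a e y = c * D.p b e (T y))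
    (he : ∀ f : X → ℝ, Continuous f → (∃ M, ∀ z, |f z| ≤ M) →
      ∫ y, D.p a e y * f (T y) ∂μ = ∫ z, D.p b e z * f z ∂μ) :
    μ.map T = ENNReal.ofReal c⁻¹ • μ := by
  have hm : ∀ t, 0 < t → Measurable fun y => ENNReal.ofReal (D.p t e y) := fun t ht =>
    ((h.p_cont ht).comp (Continuous.prodMk_right e)).measurable.ennreal_ofReal
  have hi : ∀ t, 0 < t → ∀ g : X → ℝ,
      ∫ y, g y ∂μ.withDensity (fun y => ENNReal.ofReal (D.p t e y)) = ∫ y, D.p t e y * g y ∂μ :=
    fun t ht g => by
      rw [integral_withDensity_eq_integral_toReal_smul (hm t ht) (by simp)]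
      simp only [ENNReal.toReal_ofReal (h.p_pos t e _ ht).le, smul_eq_mul]
  have := isFiniteMeasure_withDensity_ofReal (h.p_int a e ha).2
  have := isFiniteMeasure_withDensity_ofReal (h.p_int b e hb).2
  have h1 : (μ.withDensity fun y => ENNReal.ofReal (D.p a e y)).map T =
      μ.withDensity fun y => ENNReal.ofReal (D.p b e y) :=
    ext_of_forall_integral_eq_of_IsFiniteMeasure fun f => by
      rw [integral_map hT.aemeasurable f.continuous.aestronglyMeasurable, hi a ha, hi b hb]
      exact he f f.continuous ⟨‖f‖, f.norm_coe_le_norm⟩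
  have h0 : ∀ z, ENNReal.ofReal (D.p b e z) ≠ 0 := fun z =>
    (ENNReal.ofReal_pos.2 (h.p_pos b e z hb)).ne'
  have hc0 : ENNReal.ofReal c ≠ 0 := (ENNReal.ofReal_pos.2 hc).ne'
  have hg : Measurable fun z => (ENNReal.ofReal c)⁻¹ * (ENNReal.ofReal (D.p b e z))⁻¹ :=
    (hm b hb).inv.const_mul _
  ext A hA
  have h2 := congrArg (fun m => ∫⁻ z, A.indicator
    (fun z => (ENNReal.ofReal c)⁻¹ * (ENNReal.ofReal (D.p b e z))⁻¹) z ∂m) h1
  rw [lintegral_map (hg.indicator hA) hT.measurable,
    lintegral_withDensity_eq_lintegral_mul _ (hm a ha) ((hg.indicator hA).fun_comp hT.measurable),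
    lintegral_withDensity_eq_lintegral_mul _ (hm b hb) (hg.indicator hA)] at h2
  rw [Measure.smul_apply, smul_eq_mul, ENNReal.ofReal_inv_of_pos hc, ← lintegral_indicator_const hA,
    Measure.map_apply hT.measurable hA, ← lintegral_indicator_one (hT.measurable hA)]
  refine Eq.trans (lintegral_congr fun y => ?_) (h2.trans (lintegral_congr fun z => ?_))
  · by_cases c1 : T y ∈ A
    · simp only [Pi.mul_apply, indicator_of_mem c1,
        indicator_of_mem (mem_preimage.2 c1), Pi.one_apply, hd, ENNReal.ofReal_mul hc.le]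
      rw [mul_mul_mul_comm, ENNReal.mul_inv_cancel hc0 ENNReal.ofReal_ne_top,
        ENNReal.mul_inv_cancel (h0 _) ENNReal.ofReal_ne_top, one_mul]
    · simp [c1]
  · by_cases c1 : z ∈ A
    · simp only [Pi.mul_apply, indicator_of_mem c1]
      rw [mul_left_comm, ENNReal.mul_inv_cancel (h0 _) ENNReal.ofReal_ne_top, mul_one]
    · simp [c1]

theorem surj_of_map (h : HP D κ n) {T : X → X} {l c : ℝ} (hl : 0 < l) (hc : 0 < c)
    (hd : ∀ y y', dist (T y) (T y') = l * dist y y') (hm : μ.map T = ENNReal.ofReal c • μ) :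
    Function.Surjective T := by
  have h1 : LipschitzWith l.toNNReal T := LipschitzWith.of_dist_le_mul fun y y' => by
    rw [hd, Real.coe_toNNReal _ hl.le]
  have h2 : AntilipschitzWith l⁻¹.toNNReal T := AntilipschitzWith.of_le_mul_dist fun y y' => by
    rw [hd, Real.coe_toNNReal _ (inv_pos.2 hl).le, inv_mul_cancel_left₀ hl.ne']
  intro z
  by_contra hz
  obtain ⟨r, hr, h3⟩ := Metric.isOpen_iff.1
    (h2.isClosed_range h1.uniformContinuous).isOpen_compl z hz
  have h4 := congrArg (fun m : Measure X => m (ball z r)) hm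
  simp only [Measure.map_apply h1.continuous.measurable measurableSet_ball, Measure.smul_apply,
    smul_eq_mul] at h4
  rw [show T ⁻¹' ball z r = ∅ from eq_empty_of_forall_notMem fun y hy => h3 hy ⟨y, rfl⟩,
    measure_empty] at h4
  exact (ENNReal.mul_pos (ENNReal.ofReal_pos.2 hc).ne' (h.pos z r hr).ne').ne h4

end RC.Co
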