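import Pool.Agent.P.MP_6472e5_gt.CoJ1
import Pool.Agent.P.MP_6472e5_gt.CoJ2
import Pool.Agent.P.MP_6472e5_gt.CoJ3

/-! Homotheties. -/

set_option autoImplicit false
set_option linter.unusedSectionVars false

noncomputable section

namespace RC.Co

open MeasureTheory Set Filter Topology Metric

variable {X : Type} [MetricSpace X] [ProperSpace X] [MeasurableSpace X] [BorelSpace X]
  {μ : Measure X} {D : DS μ} {κ : ℝ} {n : ℕ}

theorem hom_le_one (h : PreModel D n) {e : X} (hS : Ray D n e) (hG : Gau D n e) {l : ℝ}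
    (h0 : 0 < l) (h1 : l < 1) : (∀ y y', dist (hom e l y) (hom e l y') = l * dist y y') ∧
      μ.map (hom e l) = ENNReal.ofReal (l ^ n)⁻¹ • μ ∧ Function.Surjective (hom e l) := by
  have R : ∀ y, Rel e l y (hom e l y) := fun y => rel_hom (exists_rel_le h.geo e y h0.le h1.le)
  have hd : ∀ y y', dist (hom e l y) (hom e l y') = l * dist y y' := by
    intro y y'
    have a1 := law_rel h hS h0 h1.le (R y') (hom e l y)
    have a2 := law_rel h hS h0 h1.le (R y) y'
    rw [dist_comm y' (hom e l y), dist_comm y' y] at a2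
    rw [a2, (R y).1] at a1
    refine (pow_left_inj₀ dist_nonneg (mul_nonneg h0.le dist_nonneg) two_ne_zero).1 ?_
    rw [a1]; ring
  have hc : Continuous (hom e l) :=
    (LipschitzWith.of_dist_le_mul (K := ⟨l, h0.le⟩) fun y y' => (hd y y').le).continuous
  have h1' : 0 < 1 - l := by linarith
  have hm : μ.map (hom e l) = ENNReal.ofReal (l ^ n)⁻¹ • μ := by
    refine map_of_push h.toHP hc (e := e) one_pos (pow_pos h0 2) (pow_pos h0 n) (fun y => ?_)
      fun f hf ⟨M, hM⟩ => push_eq h hc one_pos (pow_pos h0 2) (mul_pos h0 h1') (fun z => ?_) hf hM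
    · have := ker_rel h hS h0 h1.le (y := e) (w := e) ⟨by simp, by simp⟩ (R y) one_pos
      rw [mul_one] at this
      exact this.symm
    · have e1 : ∀ y, D.p 1 e y * D.p (l * (1 - l)) (hom e l y) z =
          D.p (1 - l) z y * D.p l e z := fun y => by
        rw [ker_prod h hS hG h0 h1 (R y) z, h.p_symm _ y z h1']
      simp only [e1]
      rw [integral_mul_const, h.p_one _ _ h1', one_mul]
      congr 1
      ring
  exact ⟨hd, hm, surj_of_map h.toHP h0 (inv_pos.2 (pow_pos h0 n)) hd hm⟩

theorem hom_all (h : PreModel D n) {e : X} (hS : Ray D n e) (hG : Gau D n e) :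
    Law e ∧ (∀ l, 0 < l → μ.map (hom e l) = ENNReal.ofReal (l ^ n)⁻¹ • μ) ∧
      ∀ l y r, 0 < l → 0 < r → D.Θ n (hom e l y) (l * r) = D.Θ n y r := by
  have R : ∀ l y, 0 < l → Rel e l y (hom e l y) := by
    intro l y h0
    rcases le_or_gt l 1 with h1 | h1
    · exact rel_hom (exists_rel_le h.geo e y h0.le h1)
    · have hm0 : 0 < l⁻¹ := inv_pos.2 h0
      have hm1 : l⁻¹ < 1 := inv_lt_one_of_one_lt₀ h1
      obtain ⟨w, rfl⟩ := (hom_le_one h hS hG hm0 hm1).2.2 y
      have := (rel_hom (exists_rel_le h.geo e w hm0.le hm1.le)).inv hm0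
      rw [inv_inv] at this
      exact rel_hom ⟨w, this⟩
  have hL : Law e := by
    intro l y z h0
    rcases le_or_gt l 1 with h1 | h1
    · exact law_rel h hS h0 h1 (R l y h0) z
    · have a1 := law_rel h hS (inv_pos.2 h0) (inv_lt_one_of_one_lt₀ h1).le ((R l y h0).inv h0) z
      rw [(R l y h0).1] at a1
      rw [a1]
      field_simp
      ring
  refine ⟨hL, fun l h0 => ?_, fun l y r h0 hr => ?_⟩
  · rcases lt_trichotomy l 1 with h1 | rfl | h1
    · exact (hom_le_one h hS hG h0 h1).2.1
    · have : hom e 1 = id := funext fun y => by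
        have := (R 1 y one_pos).2
        rw [sub_self, abs_zero, zero_mul] at this
        exact dist_eq_zero.1 this
      rw [this, Measure.map_id]
      simp
    · have hm0 : 0 < l⁻¹ := inv_pos.2 h0
      have hm1 : l⁻¹ < 1 := inv_lt_one_of_one_lt₀ h1
      obtain ⟨hd, hm, hs⟩ := hom_le_one h hS hG hm0 hm1
      have hi : ∀ w, hom e l (hom e l⁻¹ w) = w := by
        intro w
        have a1 := hL l (hom e l⁻¹ w) w h0
        rw [dist_comm w (hom e l⁻¹ w), (R _ w hm0).1, (R _ w hm0).2,
          abs_of_pos (sub_pos.2 hm1)] at a1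
        have a2 : dist w (hom e l (hom e l⁻¹ w)) ^ 2 = 0 := by
          rw [a1]
          field_simp
          ring
        exact (dist_eq_zero.1 (pow_eq_zero_iff two_ne_zero |>.1 a2)).symm
      have hc : Continuous (hom e l) := by
        refine (LipschitzWith.of_dist_le_mul (K := ⟨l, h0.le⟩) fun y y' => ?_).continuous
        obtain ⟨w, rfl⟩ := hs y
        obtain ⟨w', rfl⟩ := hs y'
        rw [hi, hi, hd]
        change dist w w' ≤ l * (l⁻¹ * dist w w')
        rw [mul_inv_cancel_left₀ h0.ne']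
      have hc' : Continuous (hom e l⁻¹) :=
        (LipschitzWith.of_dist_le_mul (K := ⟨l⁻¹, hm0.le⟩) fun y y' => (hd y y').le).continuous
      have a1 : (μ.map (hom e l⁻¹)).map (hom e l) = μ := by
        rw [Measure.map_map hc.measurable hc'.measurable,
          show hom e l ∘ hom e l⁻¹ = id from funext hi, Measure.map_id]
      rw [hm, Measure.map_smul, inv_pow, inv_inv] at a1
      have a2 : ENNReal.ofReal (l ^ n)⁻¹ * ENNReal.ofReal (l ^ n) = 1 := by
        rw [← ENNReal.ofReal_mul (inv_pos.2 (pow_pos h0 n)).le,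
          inv_mul_cancel₀ (pow_pos h0 n).ne', ENNReal.ofReal_one]
      calc μ.map (hom e l)
          = (ENNReal.ofReal (l ^ n)⁻¹ * ENNReal.ofReal (l ^ n)) • μ.map (hom e l) := by
            rw [a2, one_smul]
        _ = _ := by rw [mul_smul, a1]
  · unfold DS.Θ
    rcases le_or_gt l 1 with h1 | h1
    · rw [← ker_rel h hS h0 h1 (R l y h0) (R l y h0) (pow_pos hr 2), mul_pow, mul_pow]
      ring
    · rw [← ker_rel h hS (inv_pos.2 h0) (inv_lt_one_of_one_lt₀ h1).le ((R l y h0).inv h0)
        ((R l y h0).inv h0) (pow_pos (mul_pos h0 hr) 2),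
        show l⁻¹ ^ 2 * (l * r) ^ 2 = r ^ 2 by field_simp, mul_pow, inv_pow]
      field_simp

end RC.Co
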