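import Pool.Agent.P.MP_6472e5_gt.CoP

/-! The set of centres is a Euclidean space. -/

set_option autoImplicit false
set_option linter.unusedSectionVars false

noncomputable section

namespace RC.Co

open MeasureTheory Set Filter Topology Metric

variable {X : Type} [MetricSpace X] [ProperSpace X] [MeasurableSpace X] [BorelSpace X]
  {μ : Measure X} {D : DS μ} {κ : ℝ} {n : ℕ}

namespace CoL1Aux

/-- The Gromov product at `e`. -/
def al (e c z : X) : ℝ := (dist e c ^ 2 + dist e z ^ 2 - dist c z ^ 2) / 2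

theorem al_symm (e c z : X) : al e c z = al e z c := by
  unfold al
  rw [dist_comm c z]
  ring

theorem al_dist (e c z : X) : dist c z ^ 2 = al e c c + al e z z - 2 * al e c z := by
  unfold al
  rw [dist_self, dist_self]
  ring

theorem al_base (e z : X) : al e e z = 0 := by
  unfold al
  rw [dist_self]
  ring

theorem al_hom (e : X) {c : X} (h : Law c) {l : ℝ} (hl : 0 < l) (y z : X) :
    al e (hom c l y) z = l * al e y z + (1 - l) * al e c z := by
  have h1 := h l y z hl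
  have h2 := h l y e hl
  unfold al
  rw [dist_comm (hom c l y) z, h1, h2, dist_comm c e, dist_comm z y]
  ring

/-- Orthonormal families of centres. -/
def ON (C : Set X) (e : X) (k : ℕ) : Prop :=
  ∃ c : Fin k → X, (∀ i, c i ∈ C) ∧ ∀ i j, al e (c i) (c j) = if i = j then 1 else 0

variable {C : Set X} (hL : ∀ c ∈ C, Law c)
  (hm : ∀ c ∈ C, ∀ c' ∈ C, ∀ l, 0 < l → hom c l c' ∈ C) {e : X} (he : e ∈ C)
include hL hm he

theorem ex_pos {c : X} (hc : c ∈ C) {t : ℝ} (ht : 0 < t) :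
    ∃ w ∈ C, ∀ z, al e w z = t * al e c z :=
  ⟨_, hm e he c hc t ht, fun z => by rw [al_hom e (hL e he) ht, al_base, mul_zero, add_zero]⟩

theorem ex_smul {c : X} (hc : c ∈ C) (t : ℝ) : ∃ w ∈ C, ∀ z, al e w z = t * al e c z := by
  rcases lt_trichotomy t 0 with h | rfl | h
  · obtain ⟨w, hw, h1⟩ := ex_pos hL hm he (hm c hc e he 2 two_pos) (neg_pos.2 h)
    refine ⟨w, hw, fun z => ?_⟩
    rw [h1, al_hom e (hL c hc) two_pos, al_base]
    ring
  · exact ⟨e, he, fun z => by rw [al_base, zero_mul]⟩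
  · exact ex_pos hL hm he hc h

theorem ex_add {c c' : X} (hc : c ∈ C) (hc' : c' ∈ C) :
    ∃ w ∈ C, ∀ z, al e w z = al e c z + al e c' z := by
  obtain ⟨w, hw, h1⟩ := ex_pos hL hm he (hm c hc c' hc' _ one_half_pos) two_pos
  refine ⟨w, hw, fun z => ?_⟩
  rw [h1, al_hom e (hL c hc) one_half_pos]
  ring

theorem ex_sum {k : ℕ} {c : Fin k → X} (hc : ∀ i, c i ∈ C) (v : Euc k) :
    ∃ w ∈ C, ∀ z, al e w z = ∑ i, v i * al e (c i) z := by
  have h := Finset.sum_induction (s := Finset.univ) (fun i z => v i * al e (c i) z)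
    (fun f => ∃ w ∈ C, ∀ z, al e w z = f z) (by
      rintro f g ⟨a, ha, h1⟩ ⟨b, hb, h2⟩
      obtain ⟨w, hw, h3⟩ := ex_add hL hm he ha hb
      exact ⟨w, hw, fun z => by rw [h3, h1, h2, Pi.add_apply]⟩) ⟨e, he, al_base e⟩
    fun i _ => ex_smul hL hm he (hc i) (v i)
  simpa only [Finset.sum_apply] using h

theorem key {k : ℕ} (h : ON C e k) :
    ∃ (ι : Euc k → X) (a : X → Euc k) (b : X → ℝ), Isometry ι ∧ ι 0 = e ∧ (∀ v, ι v ∈ C) ∧
      (∀ y, 0 ≤ b y) ∧ (∀ y v, dist y (ι v) ^ 2 = dist (a y) v ^ 2 + b y ^ 2) ∧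
      ∀ z ∈ C, z ∉ range ι → ON C e (k + 1) := by
  obtain ⟨c, hc, ho⟩ := h
  choose ι hι h1 using ex_sum hL hm he hc
  obtain ⟨a, ha⟩ : ∃ a : X → Euc k, ∀ y i, a y i = al e (c i) y :=
    ⟨fun y => WithLp.toLp 2 fun i => al e (c i) y, fun _ _ => rfl⟩
  have h2 : ∀ v, a (ι v) = v := fun v => by
    ext j
    rw [ha, al_symm, h1]
    simp [ho]
  have h3 : ∀ v y, al e (ι v) y = ∑ i, v i * a y i := fun v y => by simp only [h1, ha]
  have h4 : ∀ y v, dist y (ι v) ^ 2 = dist (a y) v ^ 2 + (al e y y - ∑ i, a y i * a y i) := by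
    intro y v
    have h5 : dist (a y) v ^ 2 = ∑ i, a y i * a y i + ∑ i, v i * v i - 2 * ∑ i, v i * a y i := by
      rw [EuclideanSpace.dist_sq_eq, Finset.mul_sum, ← Finset.sum_add_distrib,
        ← Finset.sum_sub_distrib]
      refine Finset.sum_congr rfl fun i _ => ?_
      rw [Real.dist_eq, sq_abs]
      ring
    rw [al_dist e, al_symm e y (ι v), h3, h3, h2, h5]
    ring
  refine ⟨ι, a, fun y => dist y (ι (a y)), Isometry.of_dist_eq fun v w => ?_, ?_, hι,
    fun y => dist_nonneg, fun y v => ?_, fun z hz hn => ?_⟩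
  · refine (sq_eq_sq₀ dist_nonneg dist_nonneg).1 ?_
    rw [h4, h3, h2, sub_self, add_zero]
  · have h5 : a e = 0 := by
      ext i
      rw [ha, al_symm, al_base]
      rfl
    have h6 := h4 e 0
    rw [h5, al_base] at h6
    exact (dist_eq_zero.1 (pow_eq_zero_iff two_ne_zero |>.1 (by simpa using h6))).symm
  · rw [h4 y v, h4 y (a y), dist_self]
    ring
  · have hb : dist z (ι (a z)) ≠ 0 := fun h0 => hn ⟨a z, (dist_eq_zero.1 h0).symm⟩
    obtain ⟨p, hp, e1⟩ := ex_smul hL hm he hz (dist z (ι (a z)))⁻¹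
    obtain ⟨q, hq, e2⟩ := ex_smul hL hm he (hι (a z)) (-(dist z (ι (a z)))⁻¹)
    obtain ⟨u, hu, e3⟩ := ex_add hL hm he hp hq
    have e4 : ∀ y, al e u y = (dist z (ι (a z)))⁻¹ * (al e z y - al e (ι (a z)) y) := fun y => by
      rw [e3, e1, e2]
      ring
    have e5 : ∀ j, al e u (c j) = 0 := fun j => by
      rw [e4, al_symm e z, al_symm e (ι (a z)), ← ha, ← ha, h2, sub_self, mul_zero]
    have e6 : al e u u = 1 := by
      have e7 := al_dist e z (ι (a z))
      rw [e4, al_symm e z, al_symm e (ι (a z)), e4, e4, al_symm e (ι (a z)) z]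
      field_simp
      linarith
    refine ⟨Fin.cons u c, fun i => Fin.cases hu hc i, fun i j => ?_⟩
    refine Fin.cases ?_ (fun i => ?_) i <;> refine Fin.cases ?_ (fun j => ?_) j
    · simpa using e6
    · simpa [(Fin.succ_ne_zero j).symm] using e5 j
    · simpa [al_symm e (c i) u] using e5 i
    · simpa using ho i j

end CoL1Aux

theorem exists_axis {C : Set X} (hL : ∀ c ∈ C, Law c)
    (hm : ∀ c ∈ C, ∀ c' ∈ C, ∀ l, 0 < l → hom c l c' ∈ C) {e : X} (he : e ∈ C)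
    (hd : ∀ (k : ℕ) (ι : Euc k → X), Isometry ι → k ≤ n) :
    ∃ k, k ≤ n ∧ ∃ (ι : Euc k → X) (a : X → Euc k) (b : X → ℝ), Isometry ι ∧ ι 0 = e ∧
      (∀ z, z ∈ C ↔ z ∈ range ι) ∧ (∀ y, 0 ≤ b y) ∧
      ∀ y v, dist y (ι v) ^ 2 = dist (a y) v ^ 2 + b y ^ 2 := by
  obtain ⟨k, h1, h2⟩ : ∃ k, CoL1Aux.ON C e k ∧ ¬CoL1Aux.ON C e (k + 1) := by
    by_contra hn
    push Not at hn
    have h : ∀ k, CoL1Aux.ON C e k := fun k => by
      induction k with
      | zero => exact ⟨Fin.elim0, fun i => i.elim0, fun i => i.elim0⟩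
      | succ k ih => exact hn k ih
    obtain ⟨ι, -, -, hι, -⟩ := CoL1Aux.key hL hm he (h (n + 1))
    exact Nat.not_succ_le_self n (hd _ ι hι)
  obtain ⟨ι, a, b, hι, h0, h3, h4, h5, h6⟩ := CoL1Aux.key hL hm he h1
  refine ⟨k, hd k ι hι, ι, a, b, hι, h0, fun z => ⟨fun hz => ?_, ?_⟩, h4, h5⟩
  · by_contra hn
    exact h2 (h6 z hz hn)
  · rintro ⟨v, rfl⟩
    exact h3 v

end RC.Co
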