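import Pool.Agent.P.MP_6472e5_gt.CoP

/-! The coordinates along and across the axis. -/

set_option autoImplicit false
set_option linter.unusedSectionVars false

noncomputable section

namespace RC.Co

open MeasureTheory Set Filter Topology Metric

variable {X : Type} [MetricSpace X] [ProperSpace X] [MeasurableSpace X] [BorelSpace X]
  {μ : Measure X} {D : DS μ} {κ : ℝ} {n : ℕ}

namespace CoL2Aux

theorem stewart {k : ℕ} (v p w : Euc k) (l : ℝ) : dist w (v + l • (p - v)) ^ 2 =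
    l * dist w p ^ 2 + (1 - l) * dist w v ^ 2 - l * (1 - l) * dist p v ^ 2 := by
  have h1 : w - (v + l • (p - v)) = (w - v) - l • (p - v) := by abel
  have h2 : w - p = (w - v) - (p - v) := by abel
  rw [dist_eq_norm, dist_eq_norm, dist_eq_norm, dist_eq_norm, h1, h2]
  generalize w - v = x
  generalize p - v = y
  rw [norm_sub_sq_real, norm_sub_sq_real, real_inner_smul_right, norm_smul, mul_pow,
    Real.norm_eq_abs, sq_abs]
  ring

theorem uniq {k : ℕ} {p p' : Euc k} {β β' : ℝ} (h1 : 0 ≤ β) (h2 : 0 ≤ β')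
    (h : ∀ v, dist p v ^ 2 + β ^ 2 = dist p' v ^ 2 + β' ^ 2) : p = p' ∧ β = β' := by
  have h3 := h p
  have h4 := h p'
  rw [dist_self] at h3 h4
  rw [dist_comm] at h3
  have h5 : dist p p' ^ 2 = 0 := by linarith
  exact ⟨dist_eq_zero.1 (pow_eq_zero_iff two_ne_zero |>.1 h5),
    (pow_left_inj₀ h1 h2 two_ne_zero).1 (by linarith)⟩

end CoL2Aux

theorem exists_ax (h : Cone0 D n) {e : X} {k : ℕ} {ι : Euc k → X} {a : X → Euc k} {b : X → ℝ}
    (hι : Isometry ι) (h0 : ι 0 = e) (hc : ∀ z, D.Ctr n z ↔ z ∈ range ι) (hb : ∀ y, 0 ≤ b y)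
    (hd : ∀ y v, dist y (ι v) ^ 2 = dist (a y) v ^ 2 + b y ^ 2) : Nonempty (Ax D n e k) := by
  have hctr : ∀ v, D.Ctr n (ι v) := fun v => (hc _).2 ⟨v, rfl⟩
  have hab : ∀ v l y, 0 < l →
      a (hom (ι v) l y) = v + l • (a y - v) ∧ b (hom (ι v) l y) = l * b y := by
    intro v l y hl
    refine CoL2Aux.uniq (hb _) (mul_nonneg hl.le (hb y)) fun w => ?_
    rw [← hd, dist_comm, h.law _ (hctr v) l y (ι w) hl, dist_comm (v + l • (a y - v)),
      CoL2Aux.stewart, dist_comm (ι w) y, dist_comm (ι v) y, hι.dist_eq, hd, hd, dist_comm v w,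
      dist_comm w (a y)]
    ring
  obtain ⟨δ, hδ⟩ : ∃ δ : X → X → ℝ,
      ∀ z y, δ z y = dist z y ^ 2 - dist (a z) (a y) ^ 2 - (b z - b y) ^ 2 :=
    ⟨_, fun _ _ => rfl⟩
  have hsymm : ∀ z y, δ z y = δ y z := fun z y => by
    rw [hδ, hδ, dist_comm z y, dist_comm (a z) (a y)]
    ring
  have hhom : ∀ z v l y, 0 < l → δ z (hom (ι v) l y) = l * δ z y := by
    intro z v l y hl
    rw [hδ, hδ, (hab v l y hl).1, (hab v l y hl).2, h.law _ (hctr v) l y z hl, CoL2Aux.stewart,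
      dist_comm (ι v) z, dist_comm (ι v) y, hd, hd]
    ring
  have hzero : ∀ z y, b y = 0 → δ z y = 0 := by
    intro z y hy
    have h1 := hd y (a y)
    rw [hy, dist_self] at h1
    have h2 : y = ι (a y) := dist_eq_zero.1 (pow_eq_zero_iff two_ne_zero |>.1 (by linarith))
    have h3 := hd z (a y)
    rw [← h2] at h3
    rw [hδ, h3, hy]
    ring
  have hne : ∀ z y, 0 < b z → 0 < b y → b z ≠ b y → 0 ≤ δ z y := by
    intro z y hz hy hzy
    have hl : 0 < b z / b y := div_pos hz hy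
    have hl1 : 1 - b z / b y ≠ 0 := by
      rw [sub_ne_zero, ne_comm, Ne, div_eq_one_iff_eq hy.ne']
      exact hzy
    have h1 := hhom z ((1 - b z / b y)⁻¹ • (a z - (b z / b y) • a y)) _ y hl
    obtain ⟨h2, h3⟩ := hab ((1 - b z / b y)⁻¹ • (a z - (b z / b y) • a y)) _ y hl
    have h4 : ∀ u : Euc k, u + (b z / b y) • (a y - u) = (1 - b z / b y) • u + (b z / b y) • a y :=
      fun u => by module
    rw [h4, smul_smul, mul_inv_cancel₀ hl1, one_smul, sub_add_cancel] at h2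
    rw [div_mul_cancel₀ _ hy.ne'] at h3
    rw [hδ, h2, h3, dist_self, sub_self] at h1
    refine nonneg_of_mul_nonneg_right ?_ hl
    rw [← h1]
    simp
  have hlip : ∀ z y, 0 ≤ δ z y := by
    intro z y
    rcases (hb y).eq_or_lt with hy | hy
    · exact (hzero z y hy.symm).ge
    rcases (hb z).eq_or_lt with hz | hz
    · exact ((hsymm z y).trans (hzero y z hz.symm)).ge
    by_cases hzy : b z = b y
    · have h1 := (hab 0 2 y two_pos).2
      have h2 := hne z (hom (ι 0) 2 y) hz (by linarith) (by linarith [hy, hzy, h1] : b z < _).ne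
      rw [hhom z 0 2 y two_pos] at h2
      linarith
    · exact hne z y hz hy hzy
  refine ⟨⟨ι, a, b, hι, h0, hc, hb, hd, fun y y' => ?_, fun v l y hl => (hab v l y hl).1,
    fun v l y hl => (hab v l y hl).2, fun y hy => ?_⟩⟩
  · have h1 := hlip y y'
    rw [hδ] at h1
    linarith
  obtain ⟨s, hs⟩ : ∃ s : Euc k → ℝ → X, ∀ v β, s v β =
      hom (ι ((2 : ℝ) • v - (2 * β / b y) • a y)) (1 / 2) (hom (ι 0) (2 * β / b y) y) :=
    ⟨_, fun _ _ => rfl⟩
  have hm : ∀ β : ℝ, 0 < β → 0 < 2 * β / b y := fun β hβ => by positivity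
  have h1 : ∀ v β, 0 < β → a (s v β) = v ∧ b (s v β) = β := by
    intro v β hβ
    rw [hs, (hab _ _ _ one_half_pos).1, (hab _ _ _ one_half_pos).2, (hab _ _ _ (hm β hβ)).1,
      (hab _ _ _ (hm β hβ)).2]
    constructor
    · module
    · field_simp
  have h2 : ∀ z v β, 0 < β → δ z y = 0 → δ z (s v β) = 0 := by
    intro z v β hβ hz
    rw [hs, hhom _ _ _ _ one_half_pos, hhom _ _ _ _ (hm β hβ), hz, mul_zero, mul_zero]
  have h3 : δ y y = 0 := by
    rw [hδ, dist_self, dist_self]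
    ring
  refine ⟨s, ?_, h1, fun v β v' β' hβ hβ' => ?_, fun v β r hβ hr => ?_⟩
  · have h4 := h2 y (a y) (b y) hy h3
    rw [hδ, (h1 _ _ hy).1, (h1 _ _ hy).2, dist_self, sub_self] at h4
    exact (dist_eq_zero.1 (pow_eq_zero_iff two_ne_zero |>.1 (by linarith))).symm
  · have h4 := h2 (s v β) v' β' hβ' ((hsymm _ _).trans (h2 y v β hβ h3))
    rw [hδ, (h1 _ _ hβ).1, (h1 _ _ hβ).2, (h1 _ _ hβ').1, (h1 _ _ hβ').2] at h4
    linarith
  · have h4 := h.hom_Θ _ (hctr ((2 : ℝ) • v - (2 * β / b y) • a y)) (1 / 2)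
      (hom (ι 0) (2 * β / b y) y) (2 * r) one_half_pos (by positivity)
    have h5 := h.hom_Θ _ (hctr 0) (2 * β / b y) y (r * (b y / β)) (hm β hβ) (by positivity)
    have e1 : 1 / 2 * (2 * r) = r := by ring
    have e2 : 2 * β / b y * (r * (b y / β)) = 2 * r := by field_simp
    rw [e1] at h4
    rw [e2] at h5
    rw [hs, h4, h5]

end RC.Co
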