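import Pool.Agent.P.MP_6472e5_gt.Kern
import Pool.Agent.P.MP_6472e5_gt.Ca0m

/-! Consequences of the heat kernel package: the monotone quantity and volumes. -/

set_option autoImplicit false
set_option linter.unusedSectionVars false

noncomputable section

namespace RC

open MeasureTheory Set Filter Topology Metric

variable {X : Type} [MetricSpace X] [ProperSpace X] [MeasurableSpace X] [BorelSpace X]
  {μ : Measure X} {D : DS μ} {κ : ℝ} {n : ℕ}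

theorem θ_pos (n : ℕ) : 0 < θ n := by
  unfold θ
  positivity

namespace HP

variable (h : HP D κ n)
include h

theorem exists_scale : ∃ r₀, 0 < r₀ ∧ r₀ ≤ 1 ∧ ∀ r, 0 ≤ r → r ≤ r₀ → κ * r ^ 2 ≤ 1 := by
  have hκ := h.κ_nonneg
  refine ⟨1 / (1 + κ), by positivity, by rw [div_le_one (by positivity)]; linarith,
    fun r h0 h1 => ?_⟩
  rw [le_div_iff₀ (by positivity)] at h1
  nlinarith [mul_nonneg h0 hκ, mul_nonneg (mul_nonneg h0 hκ) hκ]

theorem p_cont {t : ℝ} (ht : 0 < t) : Continuous (fun a : X × X => D.p t a.1 a.2) :=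
  h.ker.1.comp_continuous (f := fun a : X × X => (t, a)) (by fun_prop) fun _ => ⟨ht, trivial⟩

theorem Θ_cont : ContinuousOn (fun a : X × ℝ => D.Θ n a.1 a.2) (univ ×ˢ Ioi 0) :=
  (continuous_snd.pow n).continuousOn.mul (h.ker.1.comp
    (f := fun a : X × ℝ => (a.2 ^ 2, a.1, a.1)) (by fun_prop)
    fun a ha => ⟨pow_pos (show 0 < a.2 from ha.2) 2, trivial⟩)

theorem hpa_cont {r : ℝ} (hr : 0 < r) : Continuous fun x => D.Θ n x r :=
  h.Θ_cont.comp_continuous (f := fun x : X => (x, r)) (by fun_prop) fun _ => ⟨trivial, hr⟩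

theorem Θ_pos (x : X) {r : ℝ} (hr : 0 < r) : 0 < D.Θ n x r :=
  mul_pos (pow_pos hr n) (h.p_pos _ _ _ (pow_pos hr 2))

theorem Θ0_nonneg (x : X) : 0 ≤ D.Θ0 n x :=
  ge_of_tendsto (h.Θ_lim x) (eventually_nhdsWithin_of_forall fun _ hr => (h.Θ_pos x hr).le)

theorem Θ_bdd (x₀ : X) (R : ℝ) : ∃ C, ∀ x ∈ ball x₀ R, ∀ r, 0 < r → r ≤ 1 → D.Θ n x r ≤ C := by
  obtain ⟨C, hC⟩ := (isCompact_closedBall x₀ R).bddAbove_image (h.hpa_cont one_pos).continuousOn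
  exact ⟨Real.exp (n * κ * 1 ^ 2) * C, fun x hx r h0 h1 => (h.Θ_mono x r 1 h0 h1).trans
    (mul_le_mul_of_nonneg_left (hC ⟨x, ball_subset_closedBall hx, rfl⟩) (Real.exp_pos _).le)⟩

/-- Near a point and at small scales the quantity is almost below its limit at the point. -/
theorem Θ_near (x : X) {c : ℝ} (hc : D.Θ0 n x < c) :
    ∃ ρ, 0 < ρ ∧ ∀ z ∈ ball x ρ, ∀ r, 0 < r → r ≤ ρ → D.Θ n z r < c := by
  have h1 : Tendsto (fun s : ℝ => Real.exp (n * κ * s ^ 2)) (𝓝[>] 0) (𝓝 1) :=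
    (Continuous.tendsto' (by fun_prop) _ _ (by simp)).mono_left nhdsWithin_le_nhds
  have h2 := h1.mul (h.Θ_lim x)
  rw [one_mul] at h2
  obtain ⟨s, h3, hs⟩ := ((h2.eventually (gt_mem_nhds hc)).and self_mem_nhdsWithin).exists
  obtain ⟨δ, hδ, h4⟩ := Metric.eventually_nhds_iff_ball.1
    (((h.hpa_cont hs).const_mul (Real.exp (n * κ * s ^ 2))).continuousAt.eventually
      (gt_mem_nhds h3))
  exact ⟨min δ s, lt_min hδ hs, fun z hz r h0 hr => (h.Θ_mono z r s h0 (hr.trans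
    (min_le_right _ _))).trans_lt (h4 z (ball_subset_ball (min_le_left _ _) hz))⟩

theorem Θ_low {η : ℝ} (hη : 0 < η) (x₀ : X) (R : ℝ) :
    ∃ ρ, 0 < ρ ∧ ∀ z ∈ ball x₀ R, ∀ r, 0 < r → r ≤ ρ → D.Θ0 n z - η ≤ D.Θ n z r := by
  obtain ⟨C, hC⟩ := h.Θ_bdd x₀ R
  have h1 : Tendsto (fun s : ℝ => (Real.exp (n * κ * s ^ 2) - 1) * C) (𝓝 0) (𝓝 0) :=
    Continuous.tendsto' (by fun_prop) _ _ (by simp)
  obtain ⟨δ, hδ, h2⟩ := Metric.eventually_nhds_iff.1 (h1.eventually (gt_mem_nhds hη))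
  refine ⟨min (δ / 2) 1, by positivity, fun z hz r h0 hr => ?_⟩
  have h3 := h2 (y := r) (by
    rw [Real.dist_eq, sub_zero, abs_of_pos h0]
    linarith [hr.trans (min_le_left _ _)])
  have h4 : 0 ≤ Real.exp (n * κ * r ^ 2) - 1 :=
    sub_nonneg.2 (Real.one_le_exp (by have := h.κ_nonneg; positivity))
  linarith [h.Θ0_le z r h0,
    mul_le_mul_of_nonneg_left (hC z hz r h0 (hr.trans (min_le_right _ _))) h4]

theorem real_pos (x : X) {r : ℝ} (hr : 0 < r) : 0 < μ.real (ball x r) :=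
  ENNReal.toReal_pos (h.pos x r hr).ne' (D.fin x r).ne

theorem hpa_vol : ∃ K, 0 < K ∧ ∀ x r c C, 0 < r → κ * r ^ 2 ≤ 1 → 0 < c → c ≤ D.Θ n x r →
    D.Θ n x r ≤ C → (K * C)⁻¹ * r ^ n ≤ μ.real (ball x r) ∧ μ.real (ball x r) ≤ K / c * r ^ n := by
  obtain ⟨K, hK, h1⟩ := h.vol
  refine ⟨K, hK, fun x r c C hr hκ hc h2 h3 => ?_⟩
  obtain ⟨h4, h5⟩ := h1 x r hr hκ
  have h6 := h.real_pos x hr
  have h7 := pow_pos hr n
  have hC := (hc.trans_le h2).trans_le h3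
  unfold DS.Θ at h2 h3
  constructor
  · rw [mul_inv_rev, mul_assoc, inv_mul_le_iff₀ hC]
    nlinarith [mul_le_mul_of_nonneg_right h4 h7.le, mul_le_mul_of_nonneg_right h3 h6.le]
  · rw [div_mul_eq_mul_div, le_div_iff₀ hc]
    nlinarith [mul_le_mul_of_nonneg_right h5 h7.le, mul_le_mul_of_nonneg_right h2 h6.le]

theorem vol_bds (h0 : N0 D n) (x₀ : X) (R : ℝ) : ∃ c C r₀, 0 < c ∧ 0 < C ∧ 0 < r₀ ∧
    ∀ x ∈ ball x₀ R, ∀ r, 0 < r → r ≤ r₀ →
      c * r ^ n ≤ μ.real (ball x r) ∧ μ.real (ball x r) ≤ C * r ^ n := by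
  obtain ⟨c, hc, h0⟩ := h0
  obtain ⟨K, hK, h1⟩ := h.hpa_vol
  obtain ⟨C, hC⟩ := h.Θ_bdd x₀ R
  obtain ⟨ρ, hρ, h2⟩ := h.Θ_low (half_pos hc) x₀ R
  obtain ⟨r₀, h3, h4, h5⟩ := h.exists_scale
  refine ⟨(K * max C 1)⁻¹, K / (c / 2), min ρ r₀, by positivity, by positivity, lt_min hρ h3,
    fun x hx r hr h6 => ?_⟩
  rw [le_min_iff] at h6
  exact h1 x r _ _ hr (h5 r hr.le h6.2) (half_pos hc) (by linarith [h2 x hx r hr h6.1, h0 x])
    ((hC x hx r hr (h6.2.trans h4)).trans (le_max_left _ _))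

omit h in
theorem hpa_up {A m ρ c K K' C w q r : ℝ} (hA : 0 ≤ A) (hc : 0 < c) (hm : c * ρ ≤ m)
    (hK : K / c ≤ C) (hK' : 0 < K') (hC : K' ≤ C) (hw : 0 ≤ w) (hq : 0 ≤ q) (hr : 0 < r)
    (h : A * m ≤ K * w * Real.exp (-(q / (K' * r ^ 2)))) :
    ρ * A ≤ C * w * Real.exp (-(q / (C * r ^ 2))) := by
  have h0 := hK'.trans_le hC
  calc ρ * A ≤ K / c * w * Real.exp (-(q / (K' * r ^ 2))) := by
        rw [div_mul_eq_mul_div, div_mul_eq_mul_div, le_div_iff₀ hc]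
        nlinarith [mul_le_mul_of_nonneg_left hm hA]
    _ ≤ _ := by gcongr

/-- Kernel bounds in the non-collapsed form. -/
theorem ker_bds (h0 : N0 D n) (x₀ : X) (R : ℝ) : ∃ C r₀, 0 < C ∧ 0 < r₀ ∧
    ∀ x ∈ ball x₀ R, ∀ r, 0 < r → r ≤ r₀ → ∀ y,
      C⁻¹ * Real.exp (-(C * dist x y ^ 2 / r ^ 2)) ≤ r ^ n * D.p (r ^ 2) x y ∧
      r ^ n * D.p (r ^ 2) x y ≤ C * Real.exp (-(dist x y ^ 2 / (C * r ^ 2))) ∧
      r ^ n * |D.dp (r ^ 2) x y| ≤ C / r ^ 2 * Real.exp (-(dist x y ^ 2 / (C * r ^ 2))) ∧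
      ∀ y', r ^ n * |D.p (r ^ 2) x y - D.p (r ^ 2) x y'| ≤
        C * (dist y y' / r) * Real.exp (-(min (dist x y) (dist x y') ^ 2 / (C * r ^ 2))) := by
  obtain ⟨c, C', ρ, hc, -, hρ, hv⟩ := h.vol_bds h0 x₀ R
  obtain ⟨c₀, hc₀, h0⟩ := h0
  obtain ⟨r₀, h3, -, h5⟩ := h.exists_scale
  obtain ⟨K₁, k₁, g₁⟩ := h.gauss 1 one_pos
  obtain ⟨K₂, k₂, g₂⟩ := h.dp_le
  obtain ⟨K₃, k₃, g₃⟩ := h.plip
  obtain ⟨C, hC⟩ := (Set.toFinite {Real.exp n / c₀, 1, K₁ / c, 4 * (1 + 1) * Real.exp 2, K₂ / c, K₂,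
    K₃ / c, K₃}).bddAbove
  simp only [mem_upperBounds, mem_insert_iff, mem_singleton_iff, forall_eq_or_imp, forall_eq] at hC
  obtain ⟨c1, c2, c3, c4, c5, c6, c7, c8⟩ := hC
  have hC := one_pos.trans_le c2
  refine ⟨C, min ρ r₀, hC, lt_min hρ h3, fun x hx r hr h6 y => ?_⟩
  rw [le_min_iff] at h6
  have hκ := h5 r hr.le h6.2
  have hm := (hv x hx r hr h6.1).1
  refine ⟨le_trans ?_ (h.lower r x y hr), ?_, ?_, fun y' => hpa_up (abs_nonneg _) hc hm c7 k₃ c8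
    (by positivity) (sq_nonneg _) hr (g₃ r x y y' hr hκ)⟩
  · rw [neg_add, Real.exp_add, ← mul_assoc]
    refine mul_le_mul ?_ (Real.exp_le_exp.2 (neg_le_neg ?_)) (Real.exp_pos _).le
      (mul_nonneg (h.Θ0_nonneg x) (Real.exp_pos _).le)
    · calc C⁻¹ ≤ (Real.exp n / c₀)⁻¹ := inv_anti₀ (by positivity) c1
        _ = c₀ * Real.exp (-n) := by rw [inv_div, Real.exp_neg, div_eq_mul_inv]
        _ ≤ _ := mul_le_mul (h0 x) (Real.exp_le_exp.2 (neg_le_neg (by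
          rw [mul_assoc]; exact mul_le_of_le_one_right n.cast_nonneg hκ))) (Real.exp_pos _).le
          (h.Θ0_nonneg x)
    · rw [← div_div_eq_mul_div, div_div_eq_mul_div, mul_comm 4, ← div_div, div_right_comm]
      gcongr
      nlinarith [sq_nonneg (dist x y)]
  · simpa using hpa_up (w := 1) (K' := 4 * (1 + 1) * Real.exp (2 * κ * r ^ 2))
      (h.p_pos _ x y (pow_pos hr 2)).le hc hm c3 (by positivity)
      (le_trans (by gcongr; linarith) c4) zero_le_one (sq_nonneg _) hr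
      (by simpa only [mul_one] using g₁ r x y hr hκ)
  · simpa only [div_eq_mul_inv] using hpa_up (w := (r ^ 2)⁻¹) (abs_nonneg _) hc hm c5 k₂ c6
      (by positivity) (sq_nonneg _) hr (g₂ r x y hr hκ)

end HP

theorem integral_gauss (n : ℕ) {r : ℝ} (hr : 0 < r) :
    ∫ v : Euc n, Real.exp (-(‖v‖ ^ 2 / (4 * r ^ 2))) = r ^ n / θ n := by
  have h := GaussianFourier.integral_rexp_neg_mul_sq_norm (V := Euc n) (b := 1 / (4 * r ^ 2))
    (by positivity)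
  have e : Real.pi / (1 / (4 * r ^ 2)) = (r * (2 * √Real.pi)) ^ (2 : ℝ) := by
    rw [Real.rpow_two, mul_pow, mul_pow, Real.sq_sqrt Real.pi_pos.le]
    field_simp
    norm_num
  rw [e, ← Real.rpow_mul (by positivity), finrank_euclideanSpace_fin, mul_div_cancel₀ _ two_ne_zero,
    Real.rpow_natCast, mul_pow] at h
  rw [θ, div_inv_eq_mul, ← h]
  congr 1
  ext v
  congr 1
  ring

theorem N1.n0 (h : N1 D n) : N0 D n := ⟨θ n, θ_pos n, h.low⟩

theorem PreModel.n0 (h : PreModel D n) : N0 D n := by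
  obtain ⟨c, C, hc, h1⟩ := h.bds
  exact ⟨c, hc, fun x => ge_of_tendsto (h.Θ_lim x)
    (eventually_nhdsWithin_of_forall fun r hr => (h1 x r hr).1)⟩

theorem PreModel.mono (h : PreModel D n) (x : X) {r s : ℝ} (hr : 0 < r) (hs : r ≤ s) :
    D.Θ n x r ≤ D.Θ n x s := by
  simpa using h.Θ_mono x r s hr hs

theorem PreModel.le0 (h : PreModel D n) (x : X) {r : ℝ} (hr : 0 < r) :
    D.Θ0 n x ≤ D.Θ n x r := by
  simpa using h.Θ0_le x r hr

theorem PreModel.volume (h : PreModel D n) : ∃ c C, 0 < c ∧ ∀ x r, 0 < r →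
    c * r ^ n ≤ μ.real (ball x r) ∧ μ.real (ball x r) ≤ C * r ^ n := by
  obtain ⟨c, C, hc, h1⟩ := h.bds
  obtain ⟨K, hK, h2⟩ := h.toHP.hpa_vol
  refine ⟨(K * max C 1)⁻¹, K / c, by positivity, fun x r hr => ?_⟩
  exact h2 x r _ _ hr (by simp) hc (h1 x r hr).1 ((h1 x r hr).2.trans (le_max_left _ _))

theorem PreModel.Θ0_ctr (h : PreModel D n) {e : X} (he : D.Ctr n e) : D.Θ0 n e = D.Θ n e 1 :=
  tendsto_nhds_unique (h.Θ_lim e) (tendsto_const_nhds.congr'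
    (eventually_nhdsWithin_of_forall fun r hr => he 1 r one_pos hr))

theorem PreModel.isClosed_ctr (h : PreModel D n) : IsClosed {e | D.Ctr n e} := by
  simp only [DS.Ctr, ofPred_forall]
  exact isClosed_iInter fun r => isClosed_iInter fun s => isClosed_iInter fun hr =>
    isClosed_iInter fun hs => isClosed_eq (h.toHP.hpa_cont hr) (h.toHP.hpa_cont hs)

/-- If the quantity does not exceed the Euclidean value at a centre, all points are centres. -/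
theorem Model.all_ctr (h : Model D n) (h1 : N1 D n) {e : X} (he : D.Ctr n e)
    (hle : D.Θ n e 1 ≤ θ n) (z : X) : D.Ctr n z ∧ D.Θ n z 1 = θ n := by
  have h2 : ∀ r, 0 < r → D.Θ n z r = θ n := fun r hr =>
    le_antisymm ((h.cone.top e he z r hr).trans hle) ((h1.low z).trans (h.toPreModel.le0 z hr))
  exact ⟨fun r s hr hs => (h2 r hr).trans (h2 s hs).symm, h2 1 one_pos⟩

theorem Model.Θ0_hom (h : Model D n) {e : X} (he : D.Ctr n e) {l : ℝ} (hl : 0 < l) (y : X) :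
    D.Θ0 n (hom e l y) = D.Θ0 n y := by
  have h1 : Tendsto (fun r : ℝ => l * r) (𝓝[>] 0) (𝓝[>] 0) :=
    tendsto_nhdsWithin_iff.2 ⟨(Continuous.tendsto' (by fun_prop) _ _ (mul_zero l)).mono_left
      nhdsWithin_le_nhds, eventually_nhdsWithin_of_forall fun r hr => mul_pos hl hr⟩
  exact tendsto_nhds_unique ((h.Θ_lim _).comp h1) ((h.Θ_lim y).congr'
    (eventually_nhdsWithin_of_forall fun r hr => (h.cone.hom_Θ e he l y r hl hr).symm))

theorem Model.hom_one (h : Model D n) {e : X} (he : D.Ctr n e) (y : X) : hom e 1 y = y :=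
  (h.cone.hom_uniq e he 1 y y one_pos (one_mul _).symm (by simp)).symm

theorem Ax.a_ι {e : X} {k : ℕ} (A : Ax D n e k) (v : Euc k) : A.a (A.ι v) = v := by
  have h := A.dist_sq (A.ι v) v
  rw [dist_self] at h
  exact dist_eq_zero.1 (pow_eq_zero_iff two_ne_zero |>.1 (by
    nlinarith [sq_nonneg (dist (A.a (A.ι v)) v), sq_nonneg (A.b (A.ι v))]))

theorem Ax.b_ι {e : X} {k : ℕ} (A : Ax D n e k) (v : Euc k) : A.b (A.ι v) = 0 := by
  have h := A.dist_sq (A.ι v) v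
  rw [A.a_ι] at h
  simpa using h.symm

theorem Ax.b_eq_zero {e : X} {k : ℕ} (A : Ax D n e k) {y : X} (h : A.b y = 0) :
    A.ι (A.a y) = y := by
  have h1 := A.dist_sq y (A.a y)
  rw [h] at h1
  exact (show y = A.ι (A.a y) by simpa using h1).symm

theorem Ax.b_eq (e : X) {k : ℕ} (A : Ax D n e k) (y : X) :
    A.b y = dist y (A.ι (A.a y)) ∧ A.b y = infDist y (range A.ι) := by
  have h : A.b y = dist y (A.ι (A.a y)) :=
    (sq_eq_sq₀ (A.b_nonneg y) dist_nonneg).1 (by rw [A.dist_sq]; simp)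
  refine ⟨h, le_antisymm ((le_infDist (range_nonempty _)).2 ?_)
    (h ▸ infDist_le_dist_of_mem ⟨_, rfl⟩)⟩
  rintro _ ⟨v, rfl⟩
  exact (sq_le_sq₀ (A.b_nonneg y) dist_nonneg).1 (by rw [A.dist_sq]; simp)

theorem Ax.lip_a {e : X} {k : ℕ} (A : Ax D n e k) : LipschitzWith 1 A.a :=
  LipschitzWith.mk_one fun y y' => (sq_le_sq₀ dist_nonneg dist_nonneg).1
    (le_trans (le_add_of_nonneg_right (sq_nonneg _)) (A.lip y y'))

theorem Ax.lip_b {e : X} {k : ℕ} (A : Ax D n e k) : LipschitzWith 1 A.b :=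
  LipschitzWith.mk_one fun y y' => (sq_le_sq₀ dist_nonneg dist_nonneg).1 (by
    rw [Real.dist_eq, sq_abs]
    exact le_trans (le_add_of_nonneg_left (sq_nonneg _)) (A.lip y y'))

theorem Ax.ctr_e {e : X} {k : ℕ} (A : Ax D n e k) : D.Ctr n e := (A.ctr e).2 ⟨0, A.zero⟩

theorem Ax.isometry_a {e : X} {k : ℕ} (A : Ax D n e k) (h : ∀ z, D.Ctr n z) :
    Isometry A.a ∧ Function.Surjective A.a ∧ A.a e = 0 := by
  refine ⟨Isometry.of_dist_eq fun y y' => ?_, fun v => ⟨_, A.a_ι v⟩,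
    (congrArg A.a A.zero.symm).trans (A.a_ι 0)⟩
  obtain ⟨v, rfl⟩ := (A.ctr y).1 (h y)
  obtain ⟨v', rfl⟩ := (A.ctr y').1 (h y')
  rw [A.a_ι, A.a_ι, A.iso.dist_eq]

end RC
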