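import Pool.Agent.P.MP_6472e5_gt.CoP
import Pool.Agent.P.MP_6472e5_gt.HpA
import Pool.Agent.P.MP_6472e5_gt.GH

/-! The dimension of the axis, and the Euclidean case. -/

set_option autoImplicit false
set_option linter.unusedSectionVars false

noncomputable section

namespace RC.Co

open MeasureTheory Set Filter Topology Metric

variable {X : Type} [MetricSpace X] [ProperSpace X] [MeasurableSpace X] [BorelSpace X]
  {μ : Measure X} {D : DS μ} {κ : ℝ} {n : ℕ}

theorem dim_le (h : PreModel D n) (k : ℕ) (ι : Euc k → X) (hι : Isometry ι) : k ≤ n := by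
  by_contra hk
  obtain ⟨c, C, c0, hv⟩ := h.volume
  obtain ⟨a, a0, ha⟩ := exists_sep_euc k
  have key : ∀ δ : ℝ, 0 < δ → δ ≤ 1 → a * c ≤ C * 2 ^ n * 2 ^ n * δ := fun δ h0 h1 => by
    obtain ⟨T, t1, t2, t3⟩ := ha δ h0 h1
    have s1 : μ.real (⋃ v ∈ T, ball (ι v) (δ / 2)) = ∑ v ∈ T, μ.real (ball (ι v) (δ / 2)) :=
      measureReal_biUnion_finset (fun v hv w hw hne => ball_disjoint_ball (by
        rw [hι.dist_eq, add_halves]; exact t3 v hv w hw hne)) (fun _ _ => measurableSet_ball)
        fun _ _ => (D.fin _ _).ne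
    have s2 : μ.real (⋃ v ∈ T, ball (ι v) (δ / 2)) ≤ μ.real (ball (ι 0) 2) :=
      measureReal_mono (iUnion₂_subset fun v hv => ball_subset_ball' (by
        rw [hι.dist_eq]; linarith [mem_ball.1 (t2 v hv)])) (D.fin _ _).ne
    have s3 : (T.card : ℝ) * (c * (δ / 2) ^ n) ≤ C * 2 ^ n := by
      rw [← nsmul_eq_mul]
      exact (Finset.card_nsmul_le_sum T _ _ fun v _ => (hv (ι v) _ (half_pos h0)).1).trans
        (s1.symm.le.trans (s2.trans (hv _ 2 two_pos).2))
    have s4 : a / δ ^ (n + 1) ≤ T.card := le_trans (div_le_div_of_nonneg_left a0.le (pow_pos h0 k)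
      (pow_le_pow_of_le_one h0.le h1 (not_le.1 hk))) t1
    have s5 := (mul_le_mul_of_nonneg_right s4 (by positivity)).trans s3
    have e : a / δ ^ (n + 1) * (c * (δ / 2) ^ n) = a * c / (2 ^ n * δ) := by
      rw [div_pow, pow_succ]
      field_simp
    rw [e, div_le_iff₀ (by positivity)] at s5
    linarith
  have l : Tendsto (fun δ : ℝ => C * 2 ^ n * 2 ^ n * δ) (𝓝[>] 0) (𝓝 (C * 2 ^ n * 2 ^ n * 0)) :=
    ((continuous_const_mul _).tendsto 0).mono_left nhdsWithin_le_nhds
  have := ge_of_tendsto l (mem_of_superset (Ioc_mem_nhdsGT one_pos) fun δ hδ => key δ hδ.1 hδ.2)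
  rw [mul_zero] at this
  exact absurd this (not_le.2 (mul_pos a0 c0))

theorem euc (h : PreModel D n) (hc : Cone0 D n) {e : X} {k : ℕ} (A : Ax D n e k)
    (ha : ∀ z, D.Ctr n z) :
    k = n ∧ μ.map A.a = ENNReal.ofReal (θ n / D.Θ n e 1) • (volume : Measure (Euc k)) := by
  obtain ⟨iso, -, a0⟩ := A.isometry_a ha
  have ma := iso.continuous.measurable
  have mh : ∀ z l, 0 < l → Measurable (hom z l : X → X) := fun z l hl =>
    ((hc.law z (ha z)).cont hl).measurable
  haveI : IsFiniteMeasureOnCompacts (μ.map A.a) := ⟨fun K hK => by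
    rw [Measure.map_apply ma hK.measurableSet]
    exact D.fin_bdd (iso.antilipschitz.isBounded_preimage hK.isBounded)⟩
  haveI : (μ.map A.a).IsAddLeftInvariant := ⟨fun v => by
    have m1 := mh (A.ι ((2 : ℝ) • v)) (1 / 2) one_half_pos
    have m2 := mh (A.ι 0) 2 two_pos
    have e1 : (μ.map (hom (A.ι 0) 2)).map (hom (A.ι ((2 : ℝ) • v)) (1 / 2)) = μ := by
      rw [hc.hom_map _ (ha _) 2 two_pos, Measure.map_smul, hc.hom_map _ (ha _) _ one_half_pos,
        smul_smul, ← ENNReal.ofReal_mul (by positivity), ← mul_inv, ← mul_pow]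
      simp
    refine Eq.trans ?_ (congrArg (Measure.map A.a) e1)
    rw [Measure.map_map (measurable_const_add v) ma, Measure.map_map m1 m2,
      Measure.map_map ma (m1.comp m2)]
    congr 1
    funext y
    simp only [Function.comp, A.hom_a _ _ _ one_half_pos, A.hom_a _ _ _ two_pos]
    module⟩
  have he := Measure.isAddLeftInvariant_eq_smul (μ.map A.a) (volume : Measure (Euc k))
  generalize Measure.addHaarScalarFactor (μ.map A.a) (volume : Measure (Euc k)) = c at he
  have key : ∀ r : ℝ, 0 < r → r ^ n = D.Θ n e 1 * (c * (r ^ k / θ k)) := fun r hr => by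
    rw [← integral_gauss k hr, ← smul_eq_mul (c : ℝ), ← NNReal.smul_def,
      ← integral_smul_nnreal_measure, ← he, integral_map ma.aemeasurable (by fun_prop),
      ← integral_const_mul]
    refine (mul_one _).symm.trans ((congrArg _ (h.p_one (r ^ 2) e (by positivity)).symm).trans ?_)
    rw [← integral_const_mul]
    refine integral_congr_ae (ae_of_all _ fun y => ?_)
    simp only
    rw [hc.gauss _ (ha _) r y hr, ← iso.dist_eq, a0, dist_zero_left]
  have k1 := key 1 one_pos
  have k2 := key 2 two_pos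
  rw [one_pow, one_pow] at k1
  have k3 : (2 : ℝ) ^ n = 2 ^ k := by
    linear_combination k2 - 2 ^ k * k1
  obtain rfl : k = n := (pow_right_injective₀ two_pos (by norm_num) k3).symm
  refine ⟨rfl, he.trans ?_⟩
  have p1 := θ_pos k
  have p2 := h.toHP.Θ_pos e one_pos
  rw [show θ k / D.Θ k e 1 = c by rw [div_eq_iff p2.ne']; field_simp at k1; linarith,
    ENNReal.ofReal_coe_nnreal]
  rfl

end RC.Co
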