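import Pool.Agent.P.MP_6472e5_gt.CoDef

/-! Consequences of the law of cosines. -/

set_option autoImplicit false
set_option linter.unusedSectionVars false

noncomputable section

namespace RC.Co

open MeasureTheory Set Filter Topology Metric

variable {X : Type} [MetricSpace X] [ProperSpace X] [MeasurableSpace X] [BorelSpace X]
  {μ : Measure X} {D : DS μ} {κ : ℝ} {n : ℕ}

theorem Law.spec {e : X} (h : Law e) {l : ℝ} (hl : 0 < l) (y : X) : Rel e l y (hom e l y) := by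
  have h1 := h l y e hl
  have h2 := h l y y hl
  rw [dist_self] at h1 h2
  refine ⟨?_, ?_⟩
  · refine (sq_eq_sq₀ dist_nonneg (mul_nonneg hl.le dist_nonneg)).1 ?_
    rw [h1]
    ring
  · refine (sq_eq_sq₀ dist_nonneg (mul_nonneg (abs_nonneg _) dist_nonneg)).1 ?_
    rw [dist_comm, h2, mul_pow, sq_abs]
    ring

theorem Law.uniq {e : X} (h : Law e) {l : ℝ} (hl : 0 < l) {y w : X} (hw : Rel e l y w) :
    w = hom e l y := by
  have h1 := h l y w hl
  rw [hw.1, hw.2, mul_pow, sq_abs] at h1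
  refine dist_eq_zero.1 (pow_eq_zero_iff two_ne_zero |>.1 ?_)
  rw [h1]
  ring

theorem Law.hdist {e : X} (h : Law e) {l : ℝ} (hl : 0 < l) (y y' : X) :
    dist (hom e l y) (hom e l y') = l * dist y y' := by
  have h1 := h l y' (hom e l y) hl
  have h2 := h l y y' hl
  rw [dist_comm (hom e l y) y', h2, (h.spec hl y).1, dist_comm y' y] at h1
  refine (sq_eq_sq₀ dist_nonneg (mul_nonneg hl.le dist_nonneg)).1 ?_
  rw [h1]
  ring

theorem Law.cont {e : X} (h : Law e) {l : ℝ} (hl : 0 < l) : Continuous (hom e l) :=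
  (LipschitzWith.of_dist_le_mul (K := ⟨l, hl.le⟩) fun y y' => (h.hdist hl y y').le).continuous

theorem Law.hom_hom {e : X} (h : Law e) {l l' : ℝ} (hl : 0 < l) (hl' : 0 < l') (y : X) :
    hom e l (hom e l' y) = hom e (l * l') y := by
  have h1 := h l (hom e l' y) (hom e (l * l') y) hl
  have h2 := h l' y (hom e (l * l') y) hl'
  have h3 := h (l * l') y (hom e (l * l') y) (mul_pos hl hl')
  rw [dist_self] at h3
  rw [h2, (h.spec hl' y).1] at h1
  refine (dist_eq_zero.1 (pow_eq_zero_iff two_ne_zero |>.1 ?_)).symm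
  rw [h1]
  linear_combination -h3

theorem law_cont {C : Set X} (h : ∀ e ∈ C, Law e) :
    ContinuousOn (fun a : X × ℝ × X => hom a.1 a.2.1 a.2.2) (C ×ˢ Ioi 0 ×ˢ univ) := by
  intro a ha
  rw [ContinuousWithinAt, tendsto_iff_dist_tendsto_zero]
  set z := hom a.1 a.2.1 a.2.2 with hz
  let F : X × ℝ × X → ℝ := fun b => √(b.2.1 * dist z b.2.2 ^ 2 + (1 - b.2.1) * dist b.1 z ^ 2 -
    b.2.1 * (1 - b.2.1) * dist b.1 b.2.2 ^ 2)
  have hF : Continuous F := by fun_prop
  have hE : ∀ b ∈ C ×ˢ Ioi (0 : ℝ) ×ˢ (univ : Set X), dist (hom b.1 b.2.1 b.2.2) z = F b := by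
    intro b hb
    simp only [F]
    rw [← h b.1 hb.1 b.2.1 b.2.2 z hb.2.1, Real.sqrt_sq dist_nonneg, dist_comm]
  have h0 : F a = 0 := by rw [← hE a ha, dist_self]
  have h1 : Tendsto F (𝓝[C ×ˢ Ioi (0 : ℝ) ×ˢ (univ : Set X)] a) (𝓝 0) :=
    h0 ▸ hF.continuousWithinAt.tendsto
  exact h1.congr' (eventually_nhdsWithin_of_forall fun b hb => (hE b hb).symm)

theorem Cone0.ctr_hom (h : Cone0 D n) {e c : X} (he : D.Ctr n e) (hc : D.Ctr n c) {l : ℝ}
    (hl : 0 < l) : D.Ctr n (hom e l c) := by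
  intro r s hr hs
  have h1 := h.hom_Θ e he l c (r / l) hl (div_pos hr hl)
  have h2 := h.hom_Θ e he l c (s / l) hl (div_pos hs hl)
  rw [mul_div_cancel₀ _ hl.ne'] at h1 h2
  rw [h1, h2]
  exact hc _ _ (div_pos hr hl) (div_pos hs hl)

end RC.Co
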