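import Pool.Agent.P.MP_6472e5_gt.Defs

/-! Dirichlet structures, heat flow, the Bakry-Emery condition and its first consequences. -/

set_option autoImplicit false
set_option linter.unusedSectionVars false

noncomputable section

namespace RC

open MeasureTheory Set Filter Topology Metric

variable {X : Type} [MetricSpace X] [MeasurableSpace X]

/-- Essentially bounded. -/
def Bdd (μ : Measure X) (f : X → ℝ) : Prop := ∃ C : ℝ, ∀ᵐ x ∂μ, |f x| ≤ C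

/-- Essentially bounded on every ball. -/
def LocBdd (μ : Measure X) (f : X → ℝ) : Prop :=
  ∀ x r, ∃ C : ℝ, ∀ᵐ y ∂μ, y ∈ ball x r → |f y| ≤ C

/-- Integrable on every ball. -/
def LocInt (μ : Measure X) (g : X → ℝ) : Prop := ∀ x r, IntegrableOn g (ball x r) μ

/-- Lipschitz with bounded support. -/
def LipB (f : X → ℝ) : Prop :=
  (∃ L, LipschitzWith L f) ∧ Bornology.IsBounded (Function.support f)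

/-- Square of the `L²` norm. -/
def n2 (μ : Measure X) (f : X → ℝ) : ℝ := ∫ x, f x ^ 2 ∂μ

/-- A strongly local Dirichlet form with a carre du champ dominated by the Lipschitz constant. -/
structure DS (μ : Measure X) where
  V : Set (X → ℝ)
  Γ : (X → ℝ) → (X → ℝ) → X → ℝ
  fin : ∀ x r, μ (ball x r) < ⊤
  memLp : ∀ f ∈ V, MemLp f 2 μ
  congr : ∀ f ∈ V, ∀ g, f =ᵐ[μ] g → g ∈ V
  add : ∀ f ∈ V, ∀ g ∈ V, f + g ∈ V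
  smul : ∀ (c : ℝ), ∀ f ∈ V, c • f ∈ V
  lip : ∀ f, LipB f → f ∈ V
  Γ_int : ∀ f ∈ V, ∀ g ∈ V, Integrable (Γ f g) μ
  Γ_congr : ∀ f ∈ V, ∀ g ∈ V, ∀ f', f =ᵐ[μ] f' → Γ f g =ᵐ[μ] Γ f' g
  Γ_symm : ∀ f ∈ V, ∀ g ∈ V, Γ f g =ᵐ[μ] Γ g f
  Γ_add : ∀ f ∈ V, ∀ f' ∈ V, ∀ g ∈ V, Γ (f + f') g =ᵐ[μ] Γ f g + Γ f' g
  Γ_smul : ∀ (c : ℝ), ∀ f ∈ V, ∀ g ∈ V, Γ (c • f) g =ᵐ[μ] c • Γ f g
  Γ_nonneg : ∀ f ∈ V, ∀ᵐ x ∂μ, 0 ≤ Γ f f x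
  Γ_lip : ∀ f, LipB f → ∀ (U : Set X) (L : NNReal), IsOpen U → LipschitzOnWith L f U →
    ∀ᵐ x ∂μ, x ∈ U → Γ f f x ≤ (L : ℝ) ^ 2
  closed : ∀ (u : ℕ → X → ℝ) (f : X → ℝ), (∀ k, u k ∈ V) → MemLp f 2 μ →
    Tendsto (fun k => n2 μ (u k - f)) atTop (𝓝 0) →
    Tendsto (fun p : ℕ × ℕ => ∫ x, Γ (u p.1 - u p.2) (u p.1 - u p.2) x ∂μ) atTop (𝓝 0) →
    f ∈ V ∧ Tendsto (fun k => ∫ x, Γ (u k - f) (u k - f) x ∂μ) atTop (𝓝 0)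
  dense : ∀ f ∈ V, ∃ u : ℕ → X → ℝ, (∀ k, LipB (u k)) ∧
    Tendsto (fun k => n2 μ (u k - f)) atTop (𝓝 0) ∧
    Tendsto (fun k => ∫ x, Γ (u k - f) (u k - f) x ∂μ) atTop (𝓝 0)

/-- Difference quotient in time. -/
def DQ (u : ℝ → X → ℝ) (t h : ℝ) : X → ℝ := fun x => (u (t + h) x - u t x) / h

/-- Derivative in `L¹`. -/
def DerL1 (μ : Measure X) (u : ℝ → X → ℝ) (w : X → ℝ) (t : ℝ) : Prop :=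
  (∀ᶠ s in 𝓝 t, Integrable (u s) μ) ∧ Integrable w μ ∧
    Tendsto (fun h => ∫ x, |DQ u t h x - w x| ∂μ) (𝓝[≠] 0) (𝓝 0)

/-- Derivative in `L²`. -/
def DerL2 (μ : Measure X) (u : ℝ → X → ℝ) (w : X → ℝ) (t : ℝ) : Prop :=
  (∀ᶠ s in 𝓝 t, MemLp (u s) 2 μ) ∧ MemLp w 2 μ ∧
    Tendsto (fun h => n2 μ (DQ u t h - w)) (𝓝[≠] 0) (𝓝 0)

/-- Derivative in the weak-star topology of `L^∞`. -/
def DerW (μ : Measure X) (u : ℝ → X → ℝ) (w : X → ℝ) (t : ℝ) : Prop :=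
  (∀ᶠ s in 𝓝 t, AEStronglyMeasurable (u s) μ) ∧ AEStronglyMeasurable w μ ∧ Bdd μ (u t) ∧
    Bdd μ w ∧ (∃ C : ℝ, ∀ᶠ h in 𝓝[≠] (0 : ℝ), ∀ᵐ x ∂μ, |DQ u t h x| ≤ C) ∧
    ∀ g, Integrable g μ →
      Tendsto (fun h => ∫ x, DQ u t h x * g x ∂μ) (𝓝[≠] 0) (𝓝 (∫ x, w x * g x ∂μ))

namespace DS

variable {μ : Measure X} (D : DS μ)

/-- Functions that are locally in the domain. -/
def W (f : X → ℝ) : Prop := ∀ χ, LipB χ → χ * f ∈ D.V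

/-- The carre du champ of functions that are locally in the domain. -/
def G (f g : X → ℝ) : X → ℝ :=
  Classical.epsilon fun γ : X → ℝ => ∀ χ, LipB χ → ∀ U : Set X, IsOpen U → (∀ x ∈ U, χ x = 1) →
    ∀ᵐ x ∂μ, x ∈ U → γ x = D.Γ (χ * f) (χ * g) x

/-- The energy. -/
def E (f : X → ℝ) : ℝ := ∫ x, D.G f f x ∂μ

/-- The distributional Laplacian of `f` is the locally integrable function `g`. -/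
def Lap (f g : X → ℝ) : Prop :=
  D.W f ∧ LocInt μ g ∧ ∀ φ, LipB φ → ∫ x, D.G f φ x ∂μ = -∫ x, g x * φ x ∂μ

/-- Derivative in the energy norm. -/
def DerV (u : ℝ → X → ℝ) (w : X → ℝ) (t : ℝ) : Prop :=
  (∀ᶠ s in 𝓝 t, u s ∈ D.V) ∧ w ∈ D.V ∧ Tendsto (fun h => n2 μ (DQ u t h - w)) (𝓝[≠] 0) (𝓝 0) ∧
    Tendsto (fun h => D.E (DQ u t h - w)) (𝓝[≠] 0) (𝓝 0)

/-- `u` solves the heat equation with initial datum `f`, and `w` is its time derivative. -/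
def IsHeat (f : X → ℝ) (u w : ℝ → X → ℝ) : Prop :=
  (∀ t, 0 < t → u t ∈ D.V ∧ D.Lap (u t) (w t) ∧ DerL2 μ u (w t) t) ∧
    Tendsto (fun t => n2 μ (u t - f)) (𝓝[>] 0) (𝓝 0)

/-- A choice of the solution of the heat equation. -/
def heat (f : X → ℝ) : (ℝ → X → ℝ) × (ℝ → X → ℝ) :=
  Classical.epsilon fun uw : (ℝ → X → ℝ) × (ℝ → X → ℝ) => D.IsHeat f uw.1 uw.2

/-- The heat flow. -/
def P (t : ℝ) (f : X → ℝ) : X → ℝ := if 0 < t then (D.heat f).1 t else f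

/-- The Laplacian of the heat flow. -/
def L (t : ℝ) (f : X → ℝ) : X → ℝ := (D.heat f).2 t

/-- The properties of the heat flow (true for every `D`, see `DS.flow`). -/
structure Flow : Prop where
  heat : ∀ f, MemLp f 2 μ → D.IsHeat f (fun t => D.P t f) (fun t => D.L t f)
  uniq : ∀ f u w, MemLp f 2 μ → D.IsHeat f u w → ∀ t, 0 < t →
    u t =ᵐ[μ] D.P t f ∧ w t =ᵐ[μ] D.L t f
  memLp : ∀ f t, MemLp f 2 μ → MemLp (D.P t f) 2 μ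
  L_mem : ∀ f t, MemLp f 2 μ → 0 < t → D.L t f ∈ D.V
  congr : ∀ f g t, MemLp f 2 μ → f =ᵐ[μ] g → D.P t f =ᵐ[μ] D.P t g
  L_congr : ∀ f g t, MemLp f 2 μ → f =ᵐ[μ] g → 0 < t → D.L t f =ᵐ[μ] D.L t g
  add : ∀ f g t, MemLp f 2 μ → MemLp g 2 μ → D.P t (f + g) =ᵐ[μ] D.P t f + D.P t g
  L_add : ∀ f g t, MemLp f 2 μ → MemLp g 2 μ → 0 < t → D.L t (f + g) =ᵐ[μ] D.L t f + D.L t g
  smul : ∀ (c : ℝ) f t, MemLp f 2 μ → D.P t (c • f) =ᵐ[μ] c • D.P t f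
  L_smul : ∀ (c : ℝ) f t, MemLp f 2 μ → 0 < t → D.L t (c • f) =ᵐ[μ] c • D.L t f
  semi : ∀ f s t, MemLp f 2 μ → 0 ≤ s → 0 ≤ t → D.P (s + t) f =ᵐ[μ] D.P s (D.P t f)
  L_semi : ∀ f s t, MemLp f 2 μ → 0 ≤ s → 0 < t → D.L (s + t) f =ᵐ[μ] D.P s (D.L t f)
  L_semi' : ∀ f s t, MemLp f 2 μ → 0 < s → 0 ≤ t → D.L (s + t) f =ᵐ[μ] D.L s (D.P t f)
  comm : ∀ f ∈ D.V, ∀ Lf t, D.Lap f Lf → MemLp Lf 2 μ → 0 < t → D.L t f =ᵐ[μ] D.P t Lf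
  symm : ∀ f g t, MemLp f 2 μ → MemLp g 2 μ →
    ∫ x, D.P t f x * g x ∂μ = ∫ x, f x * D.P t g x ∂μ
  L_symm : ∀ f g t, MemLp f 2 μ → MemLp g 2 μ → 0 < t →
    ∫ x, D.L t f x * g x ∂μ = ∫ x, f x * D.L t g x ∂μ
  n2_le : ∀ f t, MemLp f 2 μ → n2 μ (D.P t f) ≤ n2 μ f
  E_le : ∀ f t, MemLp f 2 μ → 0 < t → D.E (D.P t f) ≤ n2 μ f / t
  E_mono : ∀ f ∈ D.V, ∀ t, D.E (D.P t f) ≤ D.E f
  L_le : ∀ f t, MemLp f 2 μ → 0 < t → n2 μ (D.L t f) ≤ n2 μ f / t ^ 2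
  L_le' : ∀ f ∈ D.V, ∀ t, 0 < t → n2 μ (D.L t f) ≤ D.E f / t
  derV : ∀ f t, MemLp f 2 μ → 0 < t → D.DerV (fun s => D.P s f) (D.L t f) t
  L_lap : ∀ f t, MemLp f 2 μ → 0 < t → D.Lap (D.L t f) (D.L (t / 2) (D.L (t / 2) f))
  L_derV : ∀ f t, MemLp f 2 μ → 0 < t →
    D.DerV (fun s => D.L s f) (D.L (t / 2) (D.L (t / 2) f)) t
  E_zero : ∀ f ∈ D.V, Tendsto (fun t => D.E (D.P t f - f)) (𝓝[>] 0) (𝓝 0)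
  n2_zero : ∀ f ∈ D.V, Tendsto (fun t => n2 μ (D.P t f - f) / t) (𝓝[>] 0) (𝓝 0)
  der_zero : ∀ f ∈ D.V, ∀ Lf, D.Lap f Lf → MemLp Lf 2 μ →
    Tendsto (fun t => n2 μ (t⁻¹ • (D.P t f - f) - Lf)) (𝓝[>] 0) (𝓝 0)
  form : ∀ f ∈ D.V, ∀ g ∈ D.V,
    Tendsto (fun t => t⁻¹ * ∫ x, (f x - D.P t f x) * g x ∂μ) (𝓝[>] 0) (𝓝 (∫ x, D.G f g x ∂μ))
  dom : ∀ f (C : ℝ), MemLp f 2 μ →
    (∃ᶠ t in 𝓝[>] (0 : ℝ), t⁻¹ * ∫ x, (f x - D.P t f x) * f x ∂μ ≤ C) → f ∈ D.V ∧ D.E f ≤ C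
  markov : ∀ f t (a b : ℝ), MemLp f 2 μ → a ≤ 0 → 0 ≤ b → (∀ᵐ x ∂μ, a ≤ f x ∧ f x ≤ b) →
    ∀ᵐ x ∂μ, a ≤ D.P t f x ∧ D.P t f x ≤ b
  pos : ∀ f t, MemLp f 2 μ → (∀ᵐ x ∂μ, 0 ≤ f x) → ∀ᵐ x ∂μ, 0 ≤ D.P t f x
  l1 : ∀ f t, MemLp f 2 μ → Integrable f μ →
    Integrable (D.P t f) μ ∧ ∫ x, |D.P t f x| ∂μ ≤ ∫ x, |f x| ∂μ
  jensen : ∀ f φ t, MemLp f 2 μ → MemLp φ 2 μ → Bdd μ φ → (∀ᵐ x ∂μ, 0 ≤ φ x) →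
    ∫ x, φ x * D.P t f x ^ 2 ∂μ ≤ ∫ x, D.P t φ x * f x ^ 2 ∂μ
  res : ∀ f (ε : ℝ), MemLp f 2 μ → 0 < ε → ∃ g ∈ D.V, D.Lap g (ε⁻¹ • (g - f)) ∧
    n2 μ g ≤ n2 μ f ∧
    ∀ a b : ℝ, a ≤ 0 → 0 ≤ b → (∀ᵐ x ∂μ, a ≤ f x ∧ f x ≤ b) → ∀ᵐ x ∂μ, a ≤ g x ∧ g x ≤ b
  res_lim : ∀ f (ε : ℕ → ℝ) (g : ℕ → X → ℝ), MemLp f 2 μ → (∀ k, 0 < ε k) →
    Tendsto ε atTop (𝓝 0) → (∀ k, g k ∈ D.V ∧ D.Lap (g k) ((ε k)⁻¹ • (g k - f))) →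
    Tendsto (fun k => n2 μ (g k - f)) atTop (𝓝 0) ∧
      (f ∈ D.V → Tendsto (fun k => D.E (g k - f)) atTop (𝓝 0))

/-- Test functions for the Bochner inequality. -/
structure Tb (f Lf : X → ℝ) : Prop where
  mem : f ∈ D.V
  bdd : Bdd μ f
  bddG : Bdd μ (D.G f f)
  lap : D.Lap f Lf
  memL : Lf ∈ D.V
  bddL : Bdd μ Lf

/-- Nonnegative Lipschitz functions supported in `U` with bounded Laplacian. -/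
structure TF (U : Set X) (φ Lφ : X → ℝ) : Prop where
  lip : LipB φ
  supp : tsupport φ ⊆ U
  nonneg : ∀ x, 0 ≤ φ x
  lap : D.Lap φ Lφ
  bddL : Bdd μ Lφ

end DS

variable {μ : Measure X}

/-- The Bakry-Emery condition `BE(-κ, n)` with the Sobolev-to-Lipschitz property. -/
structure RS (D : DS μ) (κ : ℝ) (n : ℕ) : Prop where
  κ_nonneg : 0 ≤ κ
  n_pos : 0 < n
  pos : ∀ x r, 0 < r → 0 < μ (ball x r)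
  geo : IsGeodesic X
  flow : D.Flow
  s2l : ∀ f ∈ D.V, (∀ᵐ x ∂μ, D.G f f x ≤ 1) → ∃ g, LipschitzWith 1 g ∧ f =ᵐ[μ] g
  be : ∀ f ∈ D.V, ∀ Lf ∈ D.V, ∀ φ ∈ D.V, ∀ Lφ, D.Lap f Lf → D.Lap φ Lφ → MemLp Lφ 2 μ →
    (∀ᵐ x ∂μ, 0 ≤ φ x) → Bdd μ φ → Bdd μ Lφ →
    ∫ x, φ x * (Lf x ^ 2 / n + D.G f Lf x - κ * D.G f f x) ∂μ ≤
      1 / 2 * ∫ x, Lφ x * D.G f f x ∂μ

/-- Consequences of `RS` on the level of the semigroup. -/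
structure R1 (D : DS μ) (κ : ℝ) (n : ℕ) : Prop extends RS D κ n where
  ge : ∀ f ∈ D.V, ∀ φ t, MemLp φ 2 μ → Bdd μ φ → (∀ᵐ x ∂μ, 0 ≤ φ x) → 0 < t →
    ∫ x, φ x * D.G (D.P t f) (D.P t f) x ∂μ + 2 * t / n * ∫ x, φ x * D.L t f x ^ 2 ∂μ ≤
      Real.exp (2 * κ * t) * ∫ x, D.P t φ x * D.G f f x ∂μ
  rp : ∀ f φ t, MemLp f 2 μ → MemLp φ 2 μ → Bdd μ φ → (∀ᵐ x ∂μ, 0 ≤ φ x) → 0 < t →
    2 * t * Real.exp (-(2 * κ * t)) * ∫ x, φ x * D.G (D.P t f) (D.P t f) x ∂μ ≤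
      ∫ x, D.P t φ x * f x ^ 2 ∂μ - ∫ x, φ x * D.P t f x ^ 2 ∂μ
  lp : ∀ f ∈ D.V, ∀ φ t, MemLp φ 2 μ → Bdd μ φ → (∀ᵐ x ∂μ, 0 ≤ φ x) → 0 < t →
    ∫ x, D.P t φ x * f x ^ 2 ∂μ - ∫ x, φ x * D.P t f x ^ 2 ∂μ ≤
      2 * t * Real.exp (2 * κ * t) * ∫ x, D.P t φ x * D.G f f x ∂μ
  cons : ∀ φ t, MemLp φ 2 μ → Integrable φ μ → ∫ x, D.P t φ x ∂μ = ∫ x, φ x ∂μ
  tb : ∀ f t, MemLp f 2 μ → Bdd μ f → 0 < t → D.Tb (D.P t f) (D.L t f)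
  G_le : ∀ f t (M : ℝ), MemLp f 2 μ → (∀ᵐ x ∂μ, |f x| ≤ M) → 0 < t →
    ∀ᵐ x ∂μ, D.G (D.P t f) (D.P t f) x ≤ Real.exp (2 * κ * t) * M ^ 2 / (2 * t)
  L_le : ∀ f t (M : ℝ), MemLp f 2 μ → (∀ᵐ x ∂μ, |f x| ≤ M) → 0 < t →
    ∀ᵐ x ∂μ, D.L t f x ^ 2 ≤ n * Real.exp (2 * κ * t) * M ^ 2 / t ^ 2
  G_le' : ∀ f ∈ D.V, ∀ t (M : ℝ), (∀ᵐ x ∂μ, D.G f f x ≤ M) → 0 < t → ∀ᵐ x ∂μ,
    D.G (D.P t f) (D.P t f) x + 2 * t / n * D.L t f x ^ 2 ≤ Real.exp (2 * κ * t) * M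
  derW : ∀ f t, MemLp f 2 μ → Bdd μ f → 0 < t → DerW μ (fun s => D.P s f) (D.L t f) t
  sav : ∀ f Lf, D.Tb f Lf → D.G f f ∈ D.V
  be1 : ∀ f Lf, D.Tb f Lf → ∀ φ ∈ D.V, Bdd μ φ → (∀ᵐ x ∂μ, 0 ≤ φ x) →
    ∫ x, φ x * (Lf x ^ 2 / n + D.G f Lf x - κ * D.G f f x) ∂μ ≤
      -(1 / 2) * ∫ x, D.G φ (D.G f f) x ∂μ
  imp : ∀ f Lf, D.Tb f Lf → ∀ φ ∈ D.V, Bdd μ φ → (∀ᵐ x ∂μ, 0 ≤ φ x) → ∀ ε : ℝ, 0 < ε →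
    ∫ x, φ x * (D.G f Lf x - κ * D.G f f x +
      D.G (D.G f f) (D.G f f) x / (4 * (D.G f f x + ε))) ∂μ ≤
      -(1 / 2) * ∫ x, D.G φ (D.G f f) x ∂μ

/-- `D` is the Cheeger energy. -/
structure IsCh (D : DS μ) : Prop where
  mem : ∀ f, f ∈ D.V ↔ W12 μ f
  grad : ∀ f ∈ D.V, ∀ᵐ x ∂μ, 0 ≤ grad μ f x ∧ grad μ f x ^ 2 = D.G f f x
  ip : ∀ f ∈ D.V, ∀ g ∈ D.V, ip μ f g =ᵐ[μ] D.G f g

end RC
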