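import Pool.Agent.P.MP_6472e5_gt.Kern

/-! Interfaces between the blocks: local analysis, structure theory, topology, the cover. -/

set_option autoImplicit false
set_option linter.unusedSectionVars false

noncomputable section

namespace RC

open MeasureTheory Set Filter Topology Metric

section

variable {X Y : Type} [MetricSpace X] [MeasurableSpace X] {μ : Measure X} [MetricSpace Y]

/-- Block F: local analysis on a non-collapsed space. -/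
structure FT (D : DS μ) (κ : ℝ) (n : ℕ) : Prop where
  locbe : ∀ f ∈ D.V, ∀ w ∈ D.V, ∀ Lf U φ Lφ, D.Lap f Lf → MemLp Lf 2 μ → IsOpen U →
    (∀ᵐ x ∂μ, x ∈ U → Lf x = w x) → D.TF U φ Lφ →
    ∫ x, φ x * (w x ^ 2 / n + D.G f w x - κ * D.G f f x) ∂μ ≤ 1 / 2 * ∫ x, Lφ x * D.G f f x ∂μ
  lockato : ∀ f ∈ D.V, ∀ w ∈ D.V, ∀ Lf U φ Lφ (ε : ℝ), Bdd μ f → D.Lap f Lf → MemLp Lf 2 μ →
    IsOpen U → (∀ᵐ x ∂μ, x ∈ U → Lf x = w x) → D.TF U φ Lφ → 0 < ε →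
    ∫ x, φ x * ((D.G f w x - κ * D.G f f x) / √(D.G f f x + ε ^ 2)) ∂μ ≤
      ∫ x, Lφ x * (√(D.G f f x + ε ^ 2) - ε) ∂μ
  int : ∀ (x₀ : X) (R : ℝ), ∃ C r₀, 0 < C ∧ 0 < r₀ ∧ ∀ x ∈ ball x₀ R, ∀ r, 0 < r → r ≤ r₀ →
    ∀ (a b M t : ℝ) (w w' : ℝ → X → ℝ), 0 ≤ a → a * r ^ 2 ≤ 1 → 0 ≤ b →
    (∀ s ∈ Icc (t - r ^ 2) t, (∀ᵐ y ∂μ, 0 ≤ w s y) ∧ DerL1 μ w (w' s) s ∧
      ∀ φ Lφ, D.TF (ball x r) φ Lφ → ∫ y, φ y * w' s y ∂μ ≤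
        ∫ y, Lφ y * w s y ∂μ + a * ∫ y, φ y * w s y ∂μ + b * ∫ y, φ y ∂μ) →
    ∫ s in (t - r ^ 2)..t, ∫ y in ball x r, w s y ∂μ ≤ M * r ^ (n + 2) →
    ∀ᵐ y ∂μ, y ∈ ball x (r / 2) → w t y ≤ C * (M + b * r ^ 2)
  sup : ∀ (x₀ : X) (R ε : ℝ), 0 < ε → ∃ K c r₀, 1 ≤ K ∧ 0 < c ∧ c < 1 ∧ 0 < r₀ ∧
    ∀ x ∈ ball x₀ R, ∀ r, 0 < r → r ≤ r₀ → ∀ (t : ℝ) (w w' γ : ℝ → X → ℝ),
    (∀ s ∈ Icc (t - 2 * r ^ 2) t, DerL1 μ w (w' s) s ∧ Integrable (γ s) μ ∧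
      (∀ᵐ y ∂μ, 0 ≤ γ s y) ∧ (∀ᵐ y ∂μ, y ∈ ball x (K * r) → 0 ≤ w s y ∧ w s y ≤ 1) ∧
      ∀ φ Lφ, D.TF (ball x (K * r)) φ Lφ →
        ∫ y, φ y * w' s y ∂μ + ∫ y, φ y * γ s y ∂μ ≤ ∫ y, Lφ y * w s y ∂μ) →
    (∀ᵐ y ∂μ, y ∈ ball x r → w t y ≤ 1 - c) ∨ ∃ s ∈ Icc (t - 2 * r ^ 2) (t - r ^ 2),
      ∫ y in ball x r, (1 - w s y) ∂μ ≤ ε * r ^ n ∧ ∫ y in ball x r, γ s y ∂μ ≤ ε * r ^ n / r ^ 2
  majx : ∀ (x₀ : X) (R ε : ℝ), 0 < ε → ∃ β r₀, 0 < β ∧ 0 < r₀ ∧ ∀ x ∈ ball x₀ R, ∀ r, 0 < r →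
    r ≤ r₀ → ∀ f ∈ D.V, (∀ᵐ y ∂μ, |f y| ≤ 1) →
    μ.real {y | y ∈ ball x (2 * r) ∧ |f y| ≠ 1} ≤ β * r ^ n →
    ∫ y in ball x (2 * r), √(D.G f f y) ∂μ ≤ β * r ^ n / r →
    ∃ s : ℝ, (s = 1 ∨ s = -1) ∧ μ.real {y | y ∈ ball x r ∧ f y ≠ s} ≤ ε * r ^ n

/-- The topological data of the cover over the manifold `A`. -/
structure Top (m : ℕ) (Γ : Y → Y) (π : Y → X) (A : Set X) : Prop where
  quot : IsQuot Γ π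
  dense : Dense (π ⁻¹' A)
  mfd' : IsTopMfd (m + 2) (π ⁻¹' A)
  ori : Orientable (m + 1) (π ⁻¹' A)
  len : IsLengthSet (π ⁻¹' A)
  mfd : IsTopMfd (m + 2) A
  conn : IsConnected A
  free : ∀ a, π a ∈ A → Γ a ≠ a

/-- Block T: the orientation sign attached to an almost Euclidean chart. -/
structure Sgn (n : ℕ) (Γ : Y → Y) (π : Y → X) (ε : ℝ) (σ : (X → Euc n) → X → ℝ → Y → ℝ) :
    Prop where
  val : ∀ φ x s, 0 < s → Reif n x (10 * s) ε → GHApprox x s (0 : Euc n) 100 ε φ →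
    ∀ a, π a ∈ ball x s → (σ φ x s a = 1 ∨ σ φ x s a = -1) ∧ σ φ x s (Γ a) = -σ φ x s a
  loc : ∀ φ x s, 0 < s → Reif n x (10 * s) ε → GHApprox x s (0 : Euc n) 100 ε φ →
    ∀ a a', π a ∈ ball x s → π a' ∈ ball x s → dist a a' ≤ s / 10 → σ φ x s a = σ φ x s a'
  cmp : ∀ φ φ' x x' s (c : Euc n), 0 < s → Reif n x (10 * s) ε → Reif n x' (10 * s) ε →
    GHApprox x s (0 : Euc n) 100 ε φ → GHApprox x' s (0 : Euc n) 100 ε φ' → dist x x' ≤ s →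
    (∀ z ∈ ball x (10 * s), dist (φ' z) (φ z + c) ≤ 1 / 100) →
    ∀ a, π a ∈ ball x s → π a ∈ ball x' s → σ φ x s a = σ φ' x' s a

/-- Block L: the blow-ups of the cover are unramified at almost regular points and trivial around
an axis of codimension two. -/
def Lim (D : DS μ) (m : ℕ) (Γ : Y → Y) (π : Y → X) : Prop :=
  ∀ x₀ : X, ∃ ε, 0 < ε ∧ ∀ (U : Ultrafilter ℕ) (y : ℕ → X) (r : ℕ → ℝ)
    (B : Blow D (m + 2) U y r) (w : ℕ → Y) (Q : QBlow B Γ π w), (∀ i, y i ∈ ball x₀ 1) →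
    (∀ t, B.E.Θ0 (m + 2) (Q.π' t) < (1 + ε) * θ (m + 2) → Q.Γ' t ≠ t) ∧
    ∀ A : Ax B.E (m + 2) B.e m, Sec Q.Γ' Q.π' {z | A.a z = 0 ∧ A.b z = 1 / 4}

variable [MeasurableSpace Y] {μ' : Measure Y}

/-- The Dirichlet structure of the cover. -/
structure PreCov (D : DS μ) (D' : DS μ') (Γ : Y → Y) (π : Y → X) : Prop where
  quot : IsQuot Γ π
  map : μ'.map π = (2 : ENNReal) • μ
  inv : MeasurePreserving Γ μ' μ'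
  null : μ' {a | Γ a = a} = 0
  lift : ∀ f ∈ D.V, f ∘ π ∈ D'.V ∧ D'.G (f ∘ π) (f ∘ π) =ᵐ[μ'] D.G f f ∘ π
  refl : ∀ h ∈ D'.V, h ∘ Γ ∈ D'.V ∧ D'.G (h ∘ Γ) (h ∘ Γ) =ᵐ[μ'] D'.G h h ∘ Γ
  desc : ∀ h ∈ D'.V, h ∘ Γ =ᵐ[μ'] h → ∃ f ∈ D.V, h =ᵐ[μ'] f ∘ π

/-- Everything the analysis on the cover uses. -/
structure Cov (D : DS μ) (D' : DS μ') (Γ : Y → Y) (π : Y → X) : Prop extends PreCov D D' Γ π where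
  geo : IsGeodesic Y
  flow : D'.Flow
  s2l : ∀ f ∈ D'.V, (∀ᵐ x ∂μ', D'.G f f x ≤ 1) → ∃ g, LipschitzWith 1 g ∧ f =ᵐ[μ'] g
  ls2l : ∀ f, D'.W f → ∀ (x : Y) (R : ℝ) (L : NNReal),
    (∀ᵐ y ∂μ', y ∈ ball x R → D'.G f f y ≤ (L : ℝ) ^ 2) →
    ∃ g, LipschitzOnWith L g (ball x (R / 2)) ∧ ∀ᵐ y ∂μ', y ∈ ball x (R / 2) → f y = g y
  sec : ∃ s : X → Y, Measurable s ∧ ∀ x, π (s x) = x
  path : ∀ y, Γ y = y → ∀ ρ, 0 < ρ → ∃ a, JoinedIn (ball y ρ ∩ {b | Γ b ≠ b}) a (Γ a)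

end

/-- Block V: structure theory. -/
class HasStr (m : ℕ) : Prop where
  er : ∀ {X : Type} [MetricSpace X] [ProperSpace X] [MeasurableSpace X] [BorelSpace X]
    {μ : Measure X} (D : DS μ) (κ : ℝ), HP D κ (m + 2) → N1 D (m + 2) →
    ∀ (x₀ : X) (R₀ R ε : ℝ), 0 < ε → ∃ δ, 0 < δ ∧ ∀ x ∈ ball x₀ R₀, ∀ r, 0 < r → r ≤ δ ^ 2 →
      D.Θ (m + 2) x (r / δ) ≤ (1 + δ) * θ (m + 2) → ∃ φ, GHApprox x r (0 : Euc (m + 2)) R ε φ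
  meas : ∀ {X : Type} [MetricSpace X] [ProperSpace X] [MeasurableSpace X] [BorelSpace X]
    {μ : Measure X} (D : DS μ) (κ : ℝ), HP D κ (m + 2) → N2 D m →
    ∀ (x₀ : X) (R ε β : ℝ), 0 < ε → 0 < β → ∃ ρ₀, 0 < ρ₀ ∧ ∀ ρ, 0 < ρ → ρ ≤ ρ₀ →
      μ.real (thickening ρ ({z | (1 + ε) * θ (m + 2) ≤ D.Θ0 (m + 2) z} ∩ ball x₀ R)) ≤ β * ρ
  cls : ∀ {X : Type} [MetricSpace X] [ProperSpace X] [MeasurableSpace X] [BorelSpace X]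
    {μ : Measure X} (D : DS μ), Model D (m + 2) → N2 D m → ∀ e k (_ : Ax D (m + 2) e k),
    θ (m + 2) < D.Θ (m + 2) e 1 → k ≤ m
  reg : ∀ {X : Type} [MetricSpace X] [ProperSpace X] [MeasurableSpace X] [BorelSpace X]
    {μ : Measure X} (D : DS μ), Model D (m + 2) → N2 D m → ∀ e (A : Ax D (m + 2) e m) y,
    0 < A.b y → D.Θ0 (m + 2) y = θ (m + 2)
  chart : ∀ {X : Type} [MetricSpace X] [ProperSpace X] [MeasurableSpace X] [BorelSpace X]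
    {μ : Measure X} (D : DS μ), Model D (m + 2) → N2 D m → ∀ e (A : Ax D (m + 2) e m) (ε : ℝ),
    0 < ε → ∃ s₀, 0 < s₀ ∧ ∀ w, A.a w = 0 → A.b w = 1 / 4 → ∀ s, 0 < s → s ≤ s₀ →
      ∃ φ, GHApprox w s (0 : Euc (m + 2)) 100 ε φ ∧ ∀ z ∈ ball w (100 * s),
        |φ z 1 - (A.b z - 1 / 4) / s| ≤ ε ∧ ∀ j : Fin m, |φ z j.succ.succ - A.a z j / s| ≤ ε

end RC
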