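import Mathlib

/-!
Definitions used in the statement: the RCD condition (Cheeger energy, Sobolev-to-Lipschitz
property, weak Bochner inequality), tangent cones and strata, topological manifolds and their
orientability, ramified double covers.
-/

set_option autoImplicit false

noncomputable section

namespace RC

open MeasureTheory Set Filter Topology Metric

/-- Euclidean space. -/
abbrev Euc (n : ℕ) : Type := EuclideanSpace ℝ (Fin n)

section Sobolev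

variable {X : Type} [MetricSpace X] [MeasurableSpace X]

/-- The local Lipschitz constant (slope) of `f` at `x`. -/
def lipSlope (f : X → ℝ) (x : X) : ENNReal :=
  limsup (fun y => edist (f y) (f x) / edist y x) (𝓝[≠] x)

/-- `G` is a relaxed slope of `f`: Lipschitz functions `u k` tend to `f` in `L²` and their slopes
tend weakly in `L²` to some `G' ≤ G`. -/
def IsRelaxed (μ : Measure X) (f G : X → ℝ) : Prop :=
  MemLp f 2 μ ∧ MemLp G 2 μ ∧ ∃ (u : ℕ → X → ℝ) (G' : X → ℝ),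
    (∀ k, (∃ L, LipschitzWith L (u k)) ∧ MemLp (u k) 2 μ ∧
      MemLp (fun x => (lipSlope (u k) x).toReal) 2 μ) ∧
    Tendsto (fun k => eLpNorm (u k - f) 2 μ) atTop (𝓝 0) ∧ MemLp G' 2 μ ∧
    (∀ h, MemLp h 2 μ → Tendsto (fun k => ∫ x, (lipSlope (u k) x).toReal * h x ∂μ) atTop
      (𝓝 (∫ x, G' x * h x ∂μ))) ∧ G' ≤ᵐ[μ] G

/-- `G` is the relaxed slope of `f` of minimal `L²` norm. -/
def IsMinSlope (μ : Measure X) (f G : X → ℝ) : Prop :=
  IsRelaxed μ f G ∧ ∀ G', IsRelaxed μ f G' → eLpNorm G 2 μ ≤ eLpNorm G' 2 μ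

/-- The Sobolev space `W^{1,2}`. -/
def W12 (μ : Measure X) (f : X → ℝ) : Prop := ∃ G, IsRelaxed μ f G

/-- The minimal relaxed slope `|∇f|`. -/
def grad (μ : Measure X) (f : X → ℝ) : X → ℝ := Classical.epsilon (IsMinSlope μ f)

/-- The pointwise product `⟨∇f, ∇g⟩`, by polarisation. -/
def ip (μ : Measure X) (f g : X → ℝ) (x : X) : ℝ :=
  (grad μ (f + g) x ^ 2 - grad μ (f - g) x ^ 2) / 4

/-- `f` lies in the domain of the Laplacian and `Δ f = g`. -/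
def IsLap (μ : Measure X) (f g : X → ℝ) : Prop :=
  W12 μ f ∧ MemLp g 2 μ ∧ ∀ φ, W12 μ φ → ∫ x, ip μ f φ x ∂μ = -∫ x, g x * φ x ∂μ

/-- The condition `RCD(K, N)`. -/
structure IsRCD (K N : ℝ) (μ : Measure X) : Prop where
  support : ∀ x r, 0 < r → 0 < μ (ball x r)
  growth : ∀ x, ∃ a b : ℝ, ∀ r, μ (ball x r) ≤ ENNReal.ofReal (a * Real.exp (b * r ^ 2))
  hilbert : ∀ f g, W12 μ f → W12 μ g →
    ∫ x, grad μ (f + g) x ^ 2 ∂μ + ∫ x, grad μ (f - g) x ^ 2 ∂μ =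
      2 * ∫ x, grad μ f x ^ 2 ∂μ + 2 * ∫ x, grad μ g x ^ 2 ∂μ
  sobLip : ∀ f, W12 μ f → (∀ᵐ x ∂μ, grad μ f x ≤ 1) → ∃ g, LipschitzWith 1 g ∧ f =ᵐ[μ] g
  bochner : ∀ f Lf φ Lφ, IsLap μ f Lf → W12 μ Lf → IsLap μ φ Lφ → (∀ᵐ x ∂μ, 0 ≤ φ x) →
    MemLp φ ⊤ μ → MemLp Lφ ⊤ μ →
    ∫ x, φ x * (Lf x ^ 2 / N + ip μ f Lf x + K * grad μ f x ^ 2) ∂μ ≤
      1 / 2 * ∫ x, Lφ x * grad μ f x ^ 2 ∂μ

end Sobolev

section Tangent

variable {X Z : Type} [MetricSpace X] [MetricSpace Z]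

/-- `φ` is a pointed `ε`-Gromov-Hausdorff approximation from the ball of radius `R` about `x` in
`(X, d / r)` to the ball of radius `R` about `z` in `Z`. -/
def GHApprox (x : X) (r : ℝ) (z : Z) (R ε : ℝ) (φ : X → Z) : Prop :=
  φ x = z ∧ (∀ a ∈ ball x (R * r), ∀ b ∈ ball x (R * r), |dist (φ a) (φ b) - dist a b / r| ≤ ε) ∧
    ∀ w ∈ ball z (R - ε), ∃ a ∈ ball x (R * r), dist (φ a) w ≤ ε

/-- `(Z, z)` is a tangent cone of `X` at `x`. -/
def IsTangent (x : X) (z : Z) : Prop :=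
  ∃ r : ℕ → ℝ, (∀ i, 0 < r i) ∧ Tendsto r atTop (𝓝 0) ∧
    ∀ R ε : ℝ, 0 < R → 0 < ε → ∀ᶠ i in atTop, ∃ φ, GHApprox x (r i) z R ε φ

/-- The points whose tangent cone is `ℝⁿ`. -/
def RegularSet (X : Type) [MetricSpace X] (n : ℕ) : Set X :=
  {x | ∀ R ε : ℝ, 0 < R → 0 < ε → ∀ᶠ r in 𝓝[>] 0, ∃ φ, GHApprox x r (0 : Euc n) R ε φ}

/-- Some tangent cone at `x` is a metric product `ℝʲ × Z`. -/
def Splits (x : X) (j : ℕ) : Prop :=
  ∃ (Z : Type) (_ : MetricSpace Z) (_ : CompleteSpace Z) (z : Z),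
    IsTangent x (WithLp.toLp 2 ((0 : Euc j), z))

/-- The singular stratum `𝒮ᵏ`: no tangent cone splits off `ℝᵏ⁺¹`. -/
def Stratum (X : Type) [MetricSpace X] (k : ℕ) : Set X := {x | ¬Splits x (k + 1)}

/-- The boundary of a space of dimension `m + 2`. -/
def bdry (X : Type) [MetricSpace X] (m : ℕ) : Set X := closure (Stratum X (m + 1) \ Stratum X m)

end Tangent

section Homology

variable {X : Type} [TopologicalSpace X]

/-- Singular `n`-simplices. -/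
abbrev Simp (X : Type) [TopologicalSpace X] (n : ℕ) : Type := C(stdSimplex ℝ (Fin (n + 1)), X)

/-- The face of `σ` spanned by the vertices `v 0, …, v k`. -/
def sub {n k : ℕ} (σ : Simp X n) (v : Fin (k + 1) → Fin (n + 1)) : Simp X k :=
  σ.comp ⟨stdSimplex.map v, stdSimplex.continuous_map v⟩

/-- The boundary of singular chains with coefficients in `R`. -/
def bd (R : Type) [CommRing R] (X : Type) [TopologicalSpace X] (n : ℕ) :
    (Simp X (n + 1) →₀ R) →ₗ[R] (Simp X n →₀ R) :=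
  Finsupp.linearCombination R fun σ : Simp X (n + 1) =>
    ∑ i : Fin (n + 2), (-1 : R) ^ (i : ℕ) • Finsupp.single (sub σ i.succAbove) (1 : R)

/-- Chains in the subset `S`. -/
def chn (R : Type) [CommRing R] (S : Set X) (n : ℕ) : Submodule R (Simp X n →₀ R) :=
  Finsupp.supported R R {σ : Simp X n | range σ ⊆ S}

/-- Boundaries in the subset `S`. -/
def bdy (R : Type) [CommRing R] (S : Set X) (n : ℕ) : Submodule R (Simp X n →₀ R) :=
  (chn R S (n + 1)).map (bd R X n)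

/-- Relative cycles of the pair `(A, A \ K)` in degree `k + 1`. -/
def RelCyc (A K : Set X) (k : ℕ) (c : Simp X (k + 1) →₀ ℤ) : Prop :=
  c ∈ chn ℤ A (k + 1) ∧ bd ℤ X k c ∈ chn ℤ (A \ K) k

/-- `c` and `c'` have the same class in `H_n(A, A \ K; ℤ)`. -/
def RelEq (A K : Set X) (n : ℕ) (c c' : Simp X n →₀ ℤ) : Prop :=
  c - c' ∈ bdy ℤ A n ⊔ chn ℤ (A \ K) n

/-- `o` is an orientation of the `(k + 1)`-manifold `A`: a locally consistent choice of generators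
of the local homology groups `H_{k+1}(A, A \ {x}; ℤ)`. -/
structure IsOrient (k : ℕ) (A : Set X) (o : X → (Simp X (k + 1) →₀ ℤ)) : Prop where
  cyc : ∀ x ∈ A, RelCyc A {x} k (o x)
  gen : ∀ x ∈ A, ∀ c, RelCyc A {x} k c → ∃ j : ℤ, RelEq A {x} (k + 1) c (j • o x)
  loc : ∀ x ∈ A, ∃ U ∈ 𝓝 x, U ⊆ A ∧ ∃ c, RelCyc A U k c ∧ ∀ y ∈ U, RelEq A {y} (k + 1) c (o y)

/-- The `(k + 1)`-manifold `A` is orientable. -/
def Orientable (k : ℕ) (A : Set X) : Prop := ∃ o, IsOrient k A o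

/-- `A` is an open subset that is a topological `n`-manifold. -/
def IsTopMfd (n : ℕ) (A : Set X) : Prop :=
  IsOpen A ∧ ∀ x ∈ A, ∃ e : OpenPartialHomeomorph X (Euc n), x ∈ e.source ∧ e.source ⊆ A

end Homology

section Cover

variable {X Y : Type} [MetricSpace X] [MetricSpace Y]

/-- Any two points are joined by a minimising geodesic. -/
def IsGeodesic (Y : Type) [MetricSpace Y] : Prop :=
  ∀ a b : Y, ∃ γ : ℝ → Y, γ 0 = a ∧ γ 1 = b ∧
    ∀ s ∈ Icc (0 : ℝ) 1, ∀ t ∈ Icc (0 : ℝ) 1, dist (γ s) (γ t) = |s - t| * dist a b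

/-- The subset `A` with the restricted distance is a length space. -/
def IsLengthSet (A : Set Y) : Prop :=
  ∀ a ∈ A, ∀ b ∈ A, ∀ ε : ℝ, 0 < ε → ∃ γ : ℝ → Y, ContinuousOn γ (Icc 0 1) ∧ γ 0 = a ∧ γ 1 = b ∧
    MapsTo γ (Icc 0 1) A ∧ eVariationOn γ (Icc 0 1) ≤ ENNReal.ofReal (dist a b + ε)

/-- `Γ` is an isometric involution of `Y` and `π` identifies `X` with the metric quotient. -/
structure IsQuot (Γ : Y → Y) (π : Y → X) : Prop where
  iso : Isometry Γ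
  invol : ∀ y, Γ (Γ y) = y
  surj : Function.Surjective π
  dist_eq : ∀ a b, dist (π a) (π b) = min (dist a b) (dist a (Γ b))

/-- `X`, of dimension `m + 2`, is non-orientable. -/
def NonOrientable (X : Type) [MetricSpace X] (m : ℕ) : Prop :=
  ∃ A : Set X, IsTopMfd (m + 2) A ∧ IsConnected A ∧ RegularSet X (m + 2) ⊆ A ∧
    ¬Orientable (m + 1) A

/-- `π : Y → X` is the ramified double cover of `X`, of dimension `m + 2`. -/
structure IsRamCover (m : ℕ) (Γ : Y → Y) (π : Y → X) : Prop where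
  geodesic : IsGeodesic Y
  quot : IsQuot Γ π
  mfd : ∃ (B : Set Y) (A : Set X),
    (Dense B ∧ IsTopMfd (m + 2) B ∧ Orientable (m + 1) B ∧ IsLengthSet B) ∧
    (IsTopMfd (m + 2) A ∧ IsConnected A ∧ RegularSet X (m + 2) ⊆ A ∧ B = π ⁻¹' A) ∧
    (∀ a ∈ B, ∃ U ∈ 𝓝 a, ∀ b ∈ U, ∀ c ∈ U, dist (π b) (π c) = dist b c) ∧
    IsCoveringMapOn π A ∧ ∀ x ∈ A, (π ⁻¹' {x}).encard = 2

end Cover

end RC
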