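import Pool.Agent.P.MP_6472e5_gt.E1c

/-! Points that are not fixed are good. -/

set_option autoImplicit false
set_option linter.unusedSectionVars false
set_option linter.unusedVariables false

noncomputable section

namespace RC

open MeasureTheory Set Filter Topology Metric

variable {X Y : Type} [MetricSpace X] [ProperSpace X] [MeasurableSpace X] [BorelSpace X]
  [MetricSpace Y] [ProperSpace Y] [MeasurableSpace Y] [BorelSpace Y] {μ : Measure X}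
  {μ' : Measure Y} {D : DS μ} {D' : DS μ'} {Γ : Y → Y} {π : Y → X} {κ : ℝ} {m : ℕ}

namespace Env

variable (c : Env D D' Γ π κ m)

/-- Restriction of a test function to one of two separated sets. -/
theorem e2b_restrict {A B : Set Y} {φ Lφ η : Y → ℝ} (h : D'.TF (A ∪ B) φ Lφ) (hη : LipB η)
    (η0 : ∀ y, 0 ≤ η y) (η1 : ∀ y ∈ A, η y = 1) (hB : ∀ y ∈ B, y ∉ tsupport η) :
    D'.TF A (φ * η) (fun y => Lφ y * η y) := by
  have hl := h.lip.mul hη
  have w1 := D'.W_of_mem (D'.lip _ hl)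
  refine ⟨hl, fun y hy => ?_, fun y => mul_nonneg (h.nonneg y) (η0 y),
    ⟨w1, (hη.bdd.locBdd.mul_locInt hη.continuous.aestronglyMeasurable h.lap.2.1).congr
      (Eventually.of_forall fun y => mul_comm _ _), fun ψ hψ => ?_⟩, h.bddL.mul hη.bdd⟩
  · exact (h.supp (tsupport_mul_subset_left hy)).resolve_right
      fun hy' => hB y hy' (tsupport_mul_subset_right hy)
  have w2 := D'.W_of_mem (D'.lip _ hψ)
  have w3 := D'.W_of_mem (D'.lip _ (hη.mul hψ))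
  have e : D'.G (φ * η) ψ =ᵐ[μ'] D'.G φ (η * ψ) := by
    filter_upwards [DS.G_loc w1 h.lap.1 w2 w3, DS.G_level w1 w2 0, DS.G_level h.lap.1 w3 0,
      DS.G_level w3 h.lap.1 0, DS.G_symm h.lap.1 w3] with y a1 a2 a3 a4 a5
    by_cases hA : y ∈ A
    · exact a1 (by rw [Pi.mul_apply, η1 y hA, mul_one]) (by rw [Pi.mul_apply, η1 y hA, one_mul])
    by_cases hy : y ∈ B
    · have z := image_eq_zero_of_notMem_tsupport (hB y hy)
      rw [a2 (by rw [Pi.mul_apply, z, mul_zero]), a5, a4 (by rw [Pi.mul_apply, z, zero_mul])]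
    · have z := image_eq_zero_of_notMem_tsupport fun h' => (h.supp h').elim hA hy
      rw [a2 (by rw [Pi.mul_apply, z, zero_mul]), a3 z]
  rw [integral_congr_ae e, h.lap.2.2 _ (hη.mul hψ)]
  simp only [Pi.mul_apply, mul_assoc]

theorem e2b_cut (b b' : Y) {r : ℝ} (hr : 0 < r) (hd : 3 * r ≤ dist b b') :
    ∃ η : Y → ℝ, LipB η ∧ (∀ y, 0 ≤ η y) ∧ (∀ y ∈ ball b r, η y = 1) ∧
      ∀ y ∈ ball b' r, y ∉ tsupport η := by
  obtain ⟨η, h1, h2, h3, h4, -⟩ := exists_cutoff_ball b (show r < 2 * r by linarith)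
  refine ⟨η, h1, fun y => (h2 y).1, fun y hy => h3 y (ball_subset_closedBall hy),
    fun y hy hy' => ?_⟩
  have h5 : tsupport η ⊆ closedBall b (2 * r) := closure_minimal
    (fun z hz => ball_subset_closedBall (by_contra fun h => hz (h4 z h))) isClosed_closedBall
  have h6 := mem_closedBall.1 (h5 hy')
  have h7 := mem_ball.1 hy
  linarith [dist_triangle_left b b' y]

include c in
/-- Local descent of a function on one sheet. -/
theorem e2b_sheet {b : Y} {ρ : ℝ} (hρ : 0 < ρ) (hd : 6 * ρ ≤ dist b (Γ b)) (hκ : κ * ρ ^ 2 ≤ 1)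
    {u Lu : Y → ℝ} (hu : u ∈ D'.V) (hL : Lu ∈ D'.V) (hl : D'.Lap u Lu) (bu : Bdd μ' u) :
    ∃ f ∈ D.V, ∃ w ∈ D.V, ∃ Lf, Bdd μ f ∧ D.Lap f Lf ∧ MemLp Lf 2 μ ∧
      (∀ᵐ x ∂μ, x ∈ ball (π b) ρ → Lf x = w x) ∧ ∀ᵐ y ∂μ', y ∈ ball b ρ →
        w (π y) = Lu y ∧ D.G f w (π y) = D'.G u Lu y ∧ D.G f f (π y) = D'.G u u y := by
  have p := c.toPreCov
  obtain ⟨s, hm, hs⟩ := c.sec
  obtain ⟨C, -, hC⟩ := c.hp.cut
  obtain ⟨ζ₀, L₀, -, t0, -, o0, -⟩ := hC {π b} ρ Bornology.isBounded_singleton hρ hκ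
  rw [thickening_singleton] at t0 o0
  have t1 := p.tf_lift t0
  rw [p.quot.preimage_ball] at t1
  obtain ⟨η, η1, η2, η3, η4⟩ := e2b_cut b (Γ b) (r := 2 * ρ) (by linarith) (by linarith)
  obtain ⟨ζ, Lζ, t, z1⟩ : ∃ ζ Lζ, D'.TF (ball b (2 * ρ)) ζ Lζ ∧ ∀ y ∈ ball b ρ, ζ y = 1 := by
    refine ⟨_, _, e2b_restrict t1 η1 η2 η3 η4, fun y hy => ?_⟩
    rw [Pi.mul_apply, η3 y (ball_subset_ball (by linarith) hy), mul_one]
    exact o0 _ ((p.quot.dist_le y b).trans_lt hy)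
  have z0 : ∀ y ∈ ball (Γ b) ρ, ζ y = 0 := fun y hy =>
    image_eq_zero_of_notMem_tsupport fun h => by
      have h1 := mem_ball.1 (t.supp h)
      have h2 := mem_ball.1 hy
      linarith [dist_triangle_left b (Γ b) y]
  have zΓ : ∀ y ∈ ball b ρ, ζ (Γ y) = 0 := fun y hy =>
    z0 _ (by rw [mem_ball, p.quot.iso.dist_eq]; exact hy)
  have wu := hl.1
  have wζ := t.lap.1
  have mζ := t.lip.continuous.aestronglyMeasurable (μ := μ')
  have l1 := hl.mul' t.lap t.lip.bdd.locBdd t.lip.bddG.locBdd t.bddL.locBdd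
  have m1 : u * ζ ∈ D'.V := mul_comm ζ u ▸ D'.mul_mem_lipB t.lip hu
  have m2 : ζ * Lu ∈ D'.V := D'.mul_mem_lipB t.lip hL
  have m3 : MemLp (fun y => u y * Lζ y + ζ y * Lu y + 2 * D'.G u ζ y) 2 μ' :=
    ((bu.mul_memLp wu.aesm t.L_memLp.1).add (D'.memLp _ m2)).add
      ((DS.G_memLp hu wζ t.lip.bddG).const_mul 2)
  have f1 := p.mem_dsc hs m1
  have f2 := p.mem_dsc hs m2
  refine ⟨_, f1, _, f2, _, p.bdd_dsc hs (bu.mul t.lip.bdd), p.lap_dsc hm hs l1,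
    p.memLp_dsc hm hs m3, ?_, ?_⟩
  · have e : ∀ᵐ y ∂μ', π y ∈ ball (π b) ρ →
        u y * Lζ y + ζ y * Lu y + 2 * D'.G u ζ y = (ζ * Lu) y := by
      filter_upwards [t.lap.zero_on isOpen_ball 1 (Eventually.of_forall z1),
        t.lap.zero_on isOpen_ball 0 (Eventually.of_forall z0), DS.G_symm wu wζ,
        DS.G_level wζ wu 1, DS.G_level wζ wu 0] with y a1 a2 a3 a4 a5 hy
      rw [← mem_preimage, p.quot.preimage_ball] at hy
      rcases hy with hy | hy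
      · rw [a1 hy, a3, a4 (z1 y hy), Pi.mul_apply]
        ring
      · rw [a2 hy, a3, a5 (z0 y hy), Pi.mul_apply]
        ring
    filter_upwards [p.ae_sec hs e] with x hx hx'
    rw [dsc, dsc, hx.1 (by rwa [hs]), hx.2 (by rwa [p.quot.π_Γ, hs])]
  · have wf := D.W_of_mem f1
    have ww := D.W_of_mem f2
    filter_upwards [p.G_lift wf ww, p.G_lift wf wf,
      DS.G_loc (p.W_lift wf) wu (p.W_lift ww) (D'.W_of_mem hL),
      DS.G_loc (p.W_lift wf) wu (p.W_lift wf) wu] with y a1 a2 a3 a4 hy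
    have e1 : dsc Γ s (u * ζ) (π y) = u y := by
      rw [p.dsc_π hs, Pi.mul_apply, Pi.mul_apply, z1 y hy, zΓ y hy]
      ring
    have e2 : dsc Γ s (ζ * Lu) (π y) = Lu y := by
      rw [p.dsc_π hs, Pi.mul_apply, Pi.mul_apply, z1 y hy, zΓ y hy]
      ring
    exact ⟨e2, a1 ▸ a3 e1 e2, a2 ▸ a4 e1 e1⟩

include c in
theorem e2b_conv {s : X → Y} (hm : Measurable s) (hs : ∀ x, π (s x) = x) {F : X → ℝ}
    {F' h : Y → ℝ} {B : Set Y} (hF : AEStronglyMeasurable F μ) (hh : AEStronglyMeasurable h μ')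
    (hi : Integrable (fun y => h y * F' y) μ') (e : ∀ᵐ y ∂μ', y ∈ B → F (π y) = F' y)
    (h0 : ∀ᵐ y ∂μ', y ∉ B → h y = 0) :
    ∫ x, dsc Γ s h x * F x ∂μ = ∫ y, h y * F' y ∂μ' := by
  have e1 : (fun y => h y * F' y) =ᵐ[μ'] fun y => F (π y) * h y := by
    filter_upwards [e, h0] with y a1 a2
    by_cases hy : y ∈ B
    · rw [a1 hy, mul_comm]
    · rw [a2 hy, zero_mul, mul_zero]
  rw [integral_congr_ae e1, ← c.toPreCov.integral_mul_dsc hm hs hF hh (hi.congr e1)]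
  simp only [mul_comm]

theorem e2b_I1 {b : Y} {ρ : ℝ} (hρ : 0 < ρ) (hd : 6 * ρ ≤ dist b (Γ b)) (hκ : κ * ρ ^ 2 ≤ 1)
    {u Lu : Y → ℝ} (hu : u ∈ D'.V) (hL : Lu ∈ D'.V) (hl : D'.Lap u Lu) (bu : Bdd μ' u)
    {φ Lφ : Y → ℝ} (t : D'.TF (ball b ρ) φ Lφ) : c.I1 u Lu φ Lφ := by
  have p := c.toPreCov
  obtain ⟨s, hm, hs⟩ := c.sec
  obtain ⟨f, mf, w, mw, Lf, -, l, m2, e1, e2⟩ := c.e2b_sheet hρ hd hκ hu hL hl bu
  have t1 := p.tf_dsc hm hs (W := ball (π b) ρ)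
    (t.mono fun y hy => (p.quot.dist_le y b).trans_lt hy)
  have k := c.ft.locbe f mf w mw Lf _ _ _ l m2 isOpen_ball e1 t1
  have mφ := t.lip.continuous.aestronglyMeasurable (μ := μ')
  obtain ⟨-, i1, i2⟩ := c.I1_int hu hL mφ t.lip.bdd t.lap.aesm t.bddL
  have wf := D.W_of_mem mf
  have ww := D.W_of_mem mw
  have mF : AEStronglyMeasurable
      (fun x => w x ^ 2 / (m + 2 : ℕ) + D.G f w x - κ * D.G f f x) μ :=
    ((((ww.aesm.pow 2).mul_const ((m + 2 : ℕ) : ℝ)⁻¹).add (DS.G_aesm wf ww)).sub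
      ((DS.G_aesm wf wf).const_mul κ))
  rw [c.e2b_conv hm hs mF mφ i1 (B := ball b ρ)
      (e2.mono fun y hy hy' => by rw [(hy hy').1, (hy hy').2.1, (hy hy').2.2])
      (Eventually.of_forall fun y hy => image_eq_zero_of_notMem_tsupport fun h => hy (t.supp h)),
    c.e2b_conv hm hs (DS.G_aesm wf wf) t.lap.aesm i2 (B := ball b ρ)
      (e2.mono fun y hy hy' => (hy hy').2.2)
      (t.L_zero.mono fun y hy hy' => hy fun h => hy' (t.supp h))] at k
  exact k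

theorem e2b_P1 {a : Y} {ρ : ℝ} (hρ : 0 < ρ) (hd : 6 * ρ ≤ dist a (Γ a)) (hκ : κ * ρ ^ 2 ≤ 1) :
    c.P1 (ball (π a) ρ) := by
  intro h t φ Lφ mh bh ht T
  have p := c.toPreCov
  obtain ⟨hu, hL, hl⟩ := c.P_mem mh ht
  have bu := c.P_bdd mh bh t
  rw [p.quot.preimage_ball] at T
  obtain ⟨η, η1, η2, η3, η4⟩ := e2b_cut a (Γ a) hρ (by linarith)
  obtain ⟨ξ, ξ1, ξ2, ξ3, ξ4⟩ := e2b_cut (Γ a) a hρ (by rw [dist_comm]; linarith)
  have T1 := e2b_restrict T η1 η2 η3 η4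
  have T2 := e2b_restrict (union_comm _ _ ▸ T) ξ1 ξ2 ξ3 ξ4
  have k1 := c.e2b_I1 hρ hd hκ hu hL hl bu T1
  have k2 := c.e2b_I1 hρ (by rwa [p.quot.invol, dist_comm]) hκ hu hL hl bu T2
  obtain ⟨-, i1, j1⟩ := c.I1_int hu hL T1.lip.continuous.aestronglyMeasurable T1.lip.bdd
    T1.lap.aesm T1.bddL
  obtain ⟨-, i2, j2⟩ := c.I1_int hu hL T2.lip.continuous.aestronglyMeasurable T2.lip.bdd
    T2.lap.aesm T2.bddL
  have hs : ∀ y ∈ tsupport φ, η y + ξ y = 1 := fun y hy => by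
    rcases T.supp hy with hy | hy
    · rw [η3 y hy, image_eq_zero_of_notMem_tsupport (ξ4 y hy), add_zero]
    · rw [ξ3 y hy, image_eq_zero_of_notMem_tsupport (η4 y hy), zero_add]
  have k := add_le_add k1 k2
  rw [← integral_add i1 i2, ← mul_add, ← integral_add j1 j2] at k
  refine (le_of_eq (integral_congr_ae (Eventually.of_forall fun y => ?_))).trans
    (k.trans (le_of_eq (congrArg _ (integral_congr_ae (T.L_zero.mono fun y hy => ?_)))))
  · simp only [Pi.mul_apply]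
    by_cases hy : y ∈ tsupport φ
    · rw [← add_mul, ← mul_add, hs y hy, mul_one]
    · simp only [image_eq_zero_of_notMem_tsupport hy, zero_mul, add_zero]
  · by_cases hy' : y ∈ tsupport φ
    · simp only
      rw [← add_mul, ← mul_add, hs y hy', mul_one]
    · simp only [hy hy', zero_mul, add_zero]

theorem e2b_P2 {a : Y} {ρ : ℝ} (hρ : 0 < ρ) (hd : 6 * ρ ≤ dist a (Γ a)) (hκ : κ * ρ ^ 2 ≤ 1) :
    c.P2 (ball (π a) ρ) := by
  intro h t φ Lφ ε mh bh oh ht T hε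
  have p := c.toPreCov
  obtain ⟨hu, hL, hl⟩ := c.P_mem mh ht
  obtain ⟨o1, o2⟩ := c.P_odd mh oh ht
  obtain ⟨f, mf, w, mw, Lf, bf, l, m2, e1, e2⟩ :=
    c.e2b_sheet hρ hd hκ hu hL hl (c.P_bdd mh bh t)
  have k := c.ft.lockato f mf w mw Lf _ _ _ ε bf l m2 isOpen_ball e1 T hε
  have wf := D.W_of_mem mf
  have ww := D.W_of_mem mw
  have e3 : ∀ᵐ y ∂μ', π y ∈ ball (π a) ρ → D.G f w (π y) = D'.G (D'.P t h) (D'.L t h) y ∧
      D.G f f (π y) = D'.G (D'.P t h) (D'.P t h) y := by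
    filter_upwards [e2, p.ae_refl e2, p.G_odd hl.1 (D'.W_of_mem hL) o1 o2,
      p.G_odd hl.1 hl.1 o1 o1] with y a1 a2 a3 a4 hy
    rw [← mem_preimage, p.quot.preimage_ball] at hy
    rcases hy with hy | hy
    · exact (a1 hy).2
    · have b := (a2 (by rw [mem_ball, p.quot.dist_Γ]; exact hy)).2
      rwa [p.quot.π_Γ, a3, a4] at b
  have mG := (DS.G_aesm wf wf).aemeasurable
  have mS : AEMeasurable (fun x => √(D.G f f x + ε ^ 2)) μ := (mG.add_const _).sqrt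
  have m3 : AEStronglyMeasurable
      (fun x => φ x * ((D.G f w x - κ * D.G f f x) / √(D.G f f x + ε ^ 2))) μ :=
    (T.lip.continuous.measurable.aemeasurable.mul
      (((DS.G_aesm wf ww).aemeasurable.sub (mG.const_mul κ)).div mS)).aestronglyMeasurable
  have m4 : AEStronglyMeasurable (fun x => Lφ x * (√(D.G f f x + ε ^ 2) - ε)) μ :=
    (T.lap.aesm.aemeasurable.mul (mS.sub_const ε)).aestronglyMeasurable
  have k2 := mul_le_mul_of_nonneg_left k zero_le_two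
  rw [← p.integral_lift m3, ← p.integral_lift m4] at k2
  refine (le_of_eq (integral_congr_ae (e3.mono fun y hy => ?_))).trans
    (k2.trans (le_of_eq (integral_congr_ae ((e3.and (p.ae_lift T.L_zero)).mono fun y hy => ?_))))
  · by_cases hy' : π y ∈ tsupport φ
    · simp only [(hy (T.supp hy')).1, (hy (T.supp hy')).2]
    · simp only [image_eq_zero_of_notMem_tsupport hy', zero_mul]
  · by_cases hy' : π y ∈ tsupport φ
    · simp only [(hy.1 (T.supp hy')).2]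
    · simp only [hy.2 hy', zero_mul]

theorem mem_Gd {a : Y} (ha : Γ a ≠ a) : π a ∈ c.Gd := by
  have hd : 0 < dist a (Γ a) := dist_pos.2 ha.symm
  have hk := c.hp.κ_nonneg
  obtain ⟨ρ, h0, h1, h2⟩ : ∃ ρ : ℝ, 0 < ρ ∧ 6 * ρ ≤ dist a (Γ a) ∧ ρ ≤ 1 / (κ + 1) :=
    ⟨min (dist a (Γ a) / 6) (1 / (κ + 1)), by positivity,
      by linarith [min_le_left (dist a (Γ a) / 6) (1 / (κ + 1))], min_le_right _ _⟩
  have h3 : κ * ρ ^ 2 ≤ 1 := by
    rw [le_div_iff₀ (by positivity)] at h2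
    nlinarith [mul_nonneg hk h0.le]
  exact ⟨_, isOpen_ball, mem_ball_self h0, c.e2b_P1 h0 h1 h3, c.e2b_P2 h0 h1 h3⟩

theorem exists_fix {x : X} (hx : x ∉ c.Gd) : ∃ a, Γ a = a ∧ π a = x := by
  obtain ⟨a, rfl⟩ := c.quot.surj x
  exact ⟨a, by_contra fun h => hx (c.mem_Gd h), rfl⟩

end Env

end RC
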