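import Pool.Agent.P.MP_6472e5_gt.E4a

/-! Majority signs in the good region. -/

set_option autoImplicit false
set_option linter.unusedSectionVars false
set_option linter.unusedVariables false

noncomputable section

namespace RC

open MeasureTheory Set Filter Topology Metric

variable {X Y : Type} [MetricSpace X] [ProperSpace X] [MeasurableSpace X] [BorelSpace X]
  [MetricSpace Y] [ProperSpace Y] [MeasurableSpace Y] [BorelSpace Y] {μ : Measure X}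
  {μ' : Measure Y} {D : DS μ} {D' : DS μ'} {Γ : Y → Y} {π : Y → X} {κ : ℝ} {m : ℕ}

theorem e4b_exp {C ε : ℝ} (hC : 0 < C) (hε : 0 < ε) (n : ℕ) :
    ∃ τ : ℝ, 0 < τ ∧ τ ≤ 1 ∧ Real.exp (-(1 / (C * τ ^ 2))) ≤ ε * τ ^ n := by
  have h1 := (Real.tendsto_pow_mul_exp_neg_atTop_nhds_zero n).eventually
    (gt_mem_nhds (div_pos hε (pow_pos hC n)))
  obtain ⟨t, ht, ht1⟩ := (h1.and (eventually_ge_atTop (1 / C))).exists
  have h2 : 1 ≤ C * t := by
    rw [div_le_iff₀ hC] at ht1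
    linarith
  have h3 : 1 ≤ √(C * t) := Real.one_le_sqrt.2 h2
  have ht0 : 0 < t := lt_of_lt_of_le (by positivity) ht1
  have h4 : (√(C * t))⁻¹ ^ 2 = (C * t)⁻¹ := by rw [inv_pow, Real.sq_sqrt (by linarith)]
  have h5 : (√(C * t))⁻¹ ≤ 1 := inv_le_one_of_one_le₀ h3
  refine ⟨(√(C * t))⁻¹, by positivity, h5, ?_⟩
  have h6 : 1 / (C * (√(C * t))⁻¹ ^ 2) = t := by
    rw [h4]
    field_simp
  have h7 : (C * t)⁻¹ ^ n ≤ (√(C * t))⁻¹ ^ n := by
    refine pow_le_pow_left₀ (by positivity) ?_ n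
    rw [← h4, sq]
    exact mul_le_of_le_one_left (by positivity) h5
  rw [h6]
  refine le_trans ?_ (mul_le_mul_of_nonneg_left h7 hε.le)
  rw [lt_div_iff₀ (pow_pos hC n)] at ht
  rw [inv_pow, ← div_eq_mul_inv, le_div_iff₀ (by positivity), mul_pow]
  linarith

theorem e4b_sign {a u v : ℝ} (ha : |a| = 1) (hu : |u - a| < 1 / 4) (hv : |u - v| ≤ 1 / 2) :
    a = if 0 ≤ v then 1 else -1 := by
  obtain ⟨h1, h2⟩ := abs_lt.1 hu
  obtain ⟨h3, h4⟩ := abs_le.1 hv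
  rcases (abs_eq zero_le_one).1 ha with h | h
  · rw [if_pos (by linarith), h]
  · rw [if_neg (by linarith), h]

namespace Env

variable (c : Env D D' Γ π κ m)

include c in
theorem e4b_π (a b : Y) : dist (π a) (π b) ≤ dist a b := by
  rw [c.quot.dist_eq]
  exact min_le_left _ _

include c in
theorem e4b_Γ (a : Y) : π (Γ a) = π a := by
  refine dist_le_zero.1 ?_
  rw [dist_comm, c.quot.dist_eq, c.quot.invol, dist_self]
  exact min_le_right _ _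

include c in
theorem e4b_fin (x : X) (r : ℝ) : μ' (π ⁻¹' ball x r) ≠ ⊤ := by
  rw [c.toPreCov.measure_preimage]
  exact ENNReal.mul_ne_top (by norm_num) (D.fin x r).ne

include c in
theorem e4b_int {f : Y → ℝ} (hf : MemLp f 2 μ') (x : X) (r : ℝ) :
    IntegrableOn f (π ⁻¹' ball x r) μ' := by
  have : IsFiniteMeasure (μ'.restrict (π ⁻¹' ball x r)) :=
    isFiniteMeasure_restrict.2 (c.e4b_fin x r)
  exact (hf.restrict _).integrable (by norm_num)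

theorem ne (x₀ : X) (R : ℝ) {k ϑ : ℝ} (hk : 0 < k) (hϑ : 0 < ϑ) :
    ∃ η β r₀, 0 < η ∧ η ≤ k / 10 ∧ 0 < β ∧ 0 < r₀ ∧ ∀ x ∈ ball x₀ R, ∀ r, 0 < r → r ≤ r₀ →
    ∀ h, c.Wit x r β h → ∀ y, ball (π y) (k * r) ⊆ c.Gd ∩ ball x r →
    ∃ s : ℝ, (s = 1 ∨ s = -1) ∧
      μ'.real {a | a ∈ ball y (η * r) ∧ h a ≠ s} ≤ ϑ * (η * r) ^ (m + 2) := by
  obtain ⟨C₁, r₁, hC₁, hr₁, H₁⟩ := c.hl1 x₀ (R + 1)
  obtain ⟨C₂, r₂, hC₂, hr₂, H₂⟩ := c.lg_short x₀ (R + 1)
  obtain ⟨A, hA⟩ : ∃ A : ℝ, A = 10 + 2 * √C₂ := ⟨_, rfl⟩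
  have hs2 := Real.sqrt_nonneg C₂
  have hA0 : 0 < A := by linarith
  obtain ⟨τ₀, hτ0, hτ1, hτ⟩ := e4b_exp hC₁ (ε := ϑ / (8 * C₁ * A ^ (m + 2))) (by positivity) (m + 2)
  obtain ⟨η, hη⟩ : ∃ η : ℝ, η = τ₀ * k / A := ⟨_, rfl⟩
  have hη0 : 0 < η := by rw [hη]; positivity
  have hηA : η * A = τ₀ * k := by rw [hη]; field_simp
  have hη1 : η ≤ k / 10 := by nlinarith
  obtain ⟨β, hβ⟩ : ∃ β : ℝ, β = ϑ * η ^ (m + 2) / (2 * (1 + 4 * C₁ * τ₀ * k)) := ⟨_, rfl⟩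
  have hβ0 : 0 < β := by rw [hβ]; positivity
  have hβ1 : β * (1 + 4 * C₁ * τ₀ * k) = ϑ * η ^ (m + 2) / 2 := by rw [hβ]; field_simp
  refine ⟨η, β, min 1 (min r₁ r₂ / k), hη0, hη1, hβ0, by positivity, ?_⟩
  intro x hx r hr hr0 h w y hy
  have hρ : 0 < k * r := mul_pos hk hr
  have hρ1 : k * r ≤ min r₁ r₂ := by
    have := (le_div_iff₀ hk).1 (hr0.trans (min_le_right _ _))
    linarith
  have hyx : π y ∈ ball x₀ (R + 1) := by
    have h1 := mem_ball.1 (hy (mem_ball_self hρ)).2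
    have h2 := mem_ball.1 hx
    have h3 := hr0.trans (min_le_left _ _)
    rw [mem_ball]
    linarith [dist_triangle (π y) x x₀]
  have hG : ball (π y) (k * r) ⊆ c.Gd := fun z hz => (hy hz).1
  have hτp : 0 < τ₀ * (k * r) := by positivity
  have hτl : τ₀ * (k * r) ≤ k * r := mul_le_of_le_one_left hρ.le hτ1
  have hh := D'.memLp h w.mem
  have I₁ := H₁ _ hyx _ hρ (hρ1.trans (min_le_left _ _)) hG h w.mem w.le _ hτp hτl
  have I₂ := (H₂ _ hyx _ hρ (hρ1.trans (min_le_right _ _)) hG h hh w.le _ hτp hτl).1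
  have hu := (c.P_mem hh (t := (τ₀ * (k * r)) ^ 2) (by positivity)).1
  generalize D'.P ((τ₀ * (k * r)) ^ 2) h = u at I₁ I₂ hu
  have hηr : η * r ≤ k * r / 10 := by nlinarith
  have hηr0 : 0 < η * r := mul_pos hη0 hr
  obtain ⟨g, hg, hug⟩ := c.ls2l u (D'.W_of_mem hu) y (2 * (η * r))
    (NNReal.mk (√C₂ / (τ₀ * (k * r))) (by positivity)) (by
      filter_upwards [I₂] with a ha hay
      have h1 : π a ∈ ball (π y) (3 * (k * r) / 4) := by
        have h2 := (c.e4b_π a y).trans_lt (mem_ball.1 hay)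
        rw [mem_ball]
        linarith
      refine (ha h1).trans (le_of_eq ?_)
      rw [NNReal.coe_mk, div_pow, Real.sq_sqrt hC₂.le])
  rw [show 2 * (η * r) / 2 = η * r by ring] at hg hug
  have hosc : ∀ a ∈ ball y (η * r), |g a - g y| ≤ 1 / 2 := fun a ha => by
    have h1 := hg.dist_le_mul a ha y (mem_ball_self hηr0)
    rw [Real.dist_eq, NNReal.coe_mk] at h1
    refine h1.trans ((mul_le_mul_of_nonneg_left (mem_ball.1 ha).le (by positivity)).trans ?_)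
    rw [div_mul_eq_mul_div, div_le_iff₀ hτp]
    have h2 : τ₀ * (k * r) = η * r * A := by linear_combination -r * hηA
    rw [h2, hA]
    nlinarith
  refine ⟨if 0 ≤ g y then 1 else -1, by split_ifs <;> simp, ?_⟩
  have hS : MeasurableSet (π ⁻¹' ball (π y) (k * r / 8)) := c.toPreCov.meas_π measurableSet_ball
  have hsub : {a | a ∈ ball y (η * r) ∧ h a ≠ if 0 ≤ g y then 1 else -1} ≤ᵐ[μ']
      ({a | π a ∈ ball x r ∧ |h a| ≠ 1} ∪
        ({a | 1 / 4 ≤ |u a - h a|} ∩ π ⁻¹' ball (π y) (k * r / 8)) : Set Y) := by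
    filter_upwards [hug] with a ha hb
    obtain ⟨hb1, hb2⟩ := hb
    have h1 : dist (π a) (π y) < k * r / 8 := by
      have h2 := (c.e4b_π a y).trans_lt (mem_ball.1 hb1)
      linarith
    by_cases h3 : |h a| = 1
    · refine Or.inr ⟨?_, h1⟩
      by_contra h4
      exact hb2 (e4b_sign h3 (not_le.1 h4) (by rw [ha hb1]; exact hosc a hb1))
    · exact Or.inl ⟨(hy (mem_ball.2 (by linarith))).2, h3⟩
  have hf1 : μ' {a | π a ∈ ball x r ∧ |h a| ≠ 1} ≠ ⊤ :=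
    ne_top_of_le_ne_top (c.e4b_fin x r) (measure_mono fun a ha => ha.1)
  have hf2 : μ' ({a | 1 / 4 ≤ |u a - h a|} ∩ π ⁻¹' ball (π y) (k * r / 8)) ≠ ⊤ :=
    ne_top_of_le_ne_top (c.e4b_fin _ _) (measure_mono inter_subset_right)
  have J₁ := (ENNReal.toReal_mono ((measure_union_lt_top hf1.lt_top hf2.lt_top).ne)
    (measure_mono_ae hsub)).trans (measureReal_union_le _ _)
  have J₂ := mul_meas_ge_le_integral_of_nonneg (μ := μ'.restrict (π ⁻¹' ball (π y) (k * r / 8)))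
    (f := fun a => |u a - h a|) (ae_of_all _ fun a => abs_nonneg _)
    (c.e4b_int ((D'.memLp u hu).sub hh) _ _).abs (1 / 4)
  rw [measureReal_restrict_apply' hS] at J₂
  have J₃ : ∫ a in π ⁻¹' ball (π y) (k * r), √(D'.G h h a) ∂μ' ≤ β * r ^ (m + 2) / r :=
    (setIntegral_mono_set (c.e4b_int (D'.sqrt_G_memLp w.mem) x r)
      (ae_of_all _ fun a => Real.sqrt_nonneg _)
      (LE.le.eventuallyLE fun a ha => (hy ha).2)).trans w.grad
  have J₄ : C₁ * (τ₀ * (k * r)) * ∫ a in π ⁻¹' ball (π y) (k * r), √(D'.G h h a) ∂μ' ≤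
      C₁ * τ₀ * k * β * r ^ (m + 2) := by
    refine (mul_le_mul_of_nonneg_left J₃ (by positivity)).trans (le_of_eq ?_)
    field_simp
  have J₅ : C₁ * (k * r) ^ (m + 2) * Real.exp (-((k * r) ^ 2 / (C₁ * (τ₀ * (k * r)) ^ 2))) ≤
      ϑ * (η * r) ^ (m + 2) / 8 := by
    rw [show (k * r) ^ 2 / (C₁ * (τ₀ * (k * r)) ^ 2) = 1 / (C₁ * τ₀ ^ 2) by field_simp]
    refine (mul_le_mul_of_nonneg_left hτ (by positivity)).trans (le_of_eq ?_)
    rw [hη, mul_pow, mul_pow, div_pow, mul_pow]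
    field_simp
  have J₆ : β * (1 + 4 * C₁ * τ₀ * k) * r ^ (m + 2) = ϑ * (η * r) ^ (m + 2) / 2 := by
    rw [hβ1, mul_pow]
    ring
  have J₇ := w.one
  refine J₁.trans ?_
  linarith

theorem ne' (x₀ : X) (R : ℝ) {k ϑ : ℝ} (hk : 0 < k) (hϑ : 0 < ϑ) :
    ∃ η β r₀, 0 < η ∧ η ≤ k / 10 ∧ 0 < β ∧ 0 < r₀ ∧ ∀ x ∈ ball x₀ R, ∀ r, 0 < r → r ≤ r₀ →
    ∀ h, c.Wit x r β h → ∃ σ : Y → ℝ, ∀ y, ball (π y) (k * r) ⊆ c.Gd ∩ ball x r →
      (σ y = 1 ∨ σ y = -1) ∧ σ (Γ y) = -σ y ∧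
      μ'.real {a | a ∈ ball y (η * r) ∧ h a ≠ σ y} ≤ ϑ * (η * r) ^ (m + 2) ∧
      ∀ y', ball (π y') (k * r) ⊆ c.Gd ∩ ball x r → dist y y' ≤ η * r / 2 → σ y = σ y' := by
  obtain ⟨c₁, C, r₁, hc₁, -, hr₁, -, -, -, hv⟩ := c.vol' x₀ (R + 1)
  obtain ⟨η, β, r₀, hη, hη1, hβ, hr₀, H⟩ := c.ne x₀ R hk
    (ϑ := min ϑ (c₁ / (4 * 2 ^ (m + 2)))) (by positivity)
  refine ⟨η, β, min r₀ (min 1 (r₁ / η)), hη, hη1, hβ, by positivity, ?_⟩
  intro x hx r hr hr0 h w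
  have hηr : 0 < η * r := mul_pos hη hr
  have hr1 : r ≤ 1 := hr0.trans ((min_le_right _ _).trans (min_le_left _ _))
  have hr2 : η * r ≤ r₁ := by
    have := (le_div_iff₀ hη).1 (hr0.trans ((min_le_right _ _).trans (min_le_right _ _)))
    linarith
  have huniq : ∀ y y' s s', ball (π y') (k * r) ⊆ c.Gd ∩ ball x r → dist y y' ≤ η * r / 2 →
      μ'.real {a | a ∈ ball y (η * r) ∧ h a ≠ s} ≤
        min ϑ (c₁ / (4 * 2 ^ (m + 2))) * (η * r) ^ (m + 2) →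
      μ'.real {a | a ∈ ball y' (η * r) ∧ h a ≠ s'} ≤
        min ϑ (c₁ / (4 * 2 ^ (m + 2))) * (η * r) ^ (m + 2) → s = s' := by
    intro y y' s s' hy' hd h1 h2
    by_contra hne
    have hyx : π y' ∈ ball x₀ (R + 1) := by
      have h3 := mem_ball.1 (hy' (mem_ball_self (mul_pos hk hr))).2
      have h4 := mem_ball.1 hx
      rw [mem_ball]
      linarith [dist_triangle (π y') x x₀]
    have h3 := hv y' hyx (η * r / 2) (by positivity) (by linarith)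
    have h4 : ball y' (η * r / 2) ⊆ {a | a ∈ ball y (η * r) ∧ h a ≠ s} ∪
        {a | a ∈ ball y' (η * r) ∧ h a ≠ s'} := fun a ha => by
      have h5 := mem_ball.1 ha
      by_cases h6 : h a = s
      · exact Or.inr ⟨mem_ball.2 (by linarith), fun h7 => hne (h6.symm.trans h7)⟩
      · exact Or.inl ⟨mem_ball.2 (by linarith [dist_triangle a y' y, dist_comm y y']), h6⟩
    have h5 := (measureReal_mono h4 (measure_union_lt_top
      ((measure_mono fun a ha => ha.1).trans_lt (D'.fin y (η * r)))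
      ((measure_mono fun a ha => ha.1).trans_lt (D'.fin y' (η * r)))).ne).trans
      (measureReal_union_le _ _)
    have h6 : min ϑ (c₁ / (4 * 2 ^ (m + 2))) * (η * r) ^ (m + 2) ≤
        c₁ * (η * r / 2) ^ (m + 2) / 4 := by
      refine (mul_le_mul_of_nonneg_right (min_le_right _ _) (by positivity)).trans (le_of_eq ?_)
      rw [div_pow]
      field_simp
    have h7 : 0 < c₁ * (η * r / 2) ^ (m + 2) := by positivity
    linarith
  choose! σ hσ1 hσ2 using H x hx r hr (hr0.trans (min_le_left _ _)) h w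
  refine ⟨σ, fun y hy => ⟨hσ1 y hy, ?_, (hσ2 y hy).trans ?_,
    fun y' hy' hd => huniq y y' _ _ hy' hd (hσ2 y hy) (hσ2 y' hy')⟩⟩
  · have h1 := hσ2 (Γ y) (by rwa [c.e4b_Γ])
    have h2 : μ'.real {a | a ∈ ball y (η * r) ∧ h a ≠ -σ (Γ y)} =
        μ'.real {a | a ∈ ball (Γ y) (η * r) ∧ h a ≠ σ (Γ y)} := by
      rw [Measure.real, Measure.real,
        ← c.toPreCov.measure_refl {a | a ∈ ball (Γ y) (η * r) ∧ h a ≠ σ (Γ y)}]
      refine congrArg _ (measure_congr ?_)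
      filter_upwards [w.odd] with a ha
      refine propext ?_
      change (a ∈ ball y (η * r) ∧ h a ≠ -σ (Γ y)) ↔
        (Γ a ∈ ball (Γ y) (η * r) ∧ h (Γ a) ≠ σ (Γ y))
      rw [mem_ball, mem_ball, c.quot.iso.dist_eq, ha, Ne, Ne, neg_eq_iff_eq_neg]
    have h3 := huniq y y _ _ hy (by rw [dist_self]; positivity) (hσ2 y hy) (h2.trans_le h1)
    rw [h3, neg_neg]
  · exact mul_le_mul_of_nonneg_right (min_le_left _ _) (by positivity)

end Env

end RC
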