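import Pool.Agent.P.MP_6472e5_gt.E10a
import Pool.Agent.P.MP_6472e5_gt.E4b
import Pool.Agent.P.MP_6472e5_gt.E2b

/-! Splitting at all scales is impossible at a bad point. -/

set_option autoImplicit false
set_option linter.unusedSectionVars false
set_option linter.unusedVariables false

noncomputable section

namespace RC

open MeasureTheory Set Filter Topology Metric

variable {X Y : Type} [MetricSpace X] [ProperSpace X] [MeasurableSpace X] [BorelSpace X]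
  [MetricSpace Y] [ProperSpace Y] [MeasurableSpace Y] [BorelSpace Y] {μ : Measure X}
  {μ' : Measure Y} {D : DS μ} {D' : DS μ'} {Γ : Y → Y} {π : Y → X} {κ : ℝ} {m : ℕ}

/-- Admissible pairs of a centre and a dyadic scale. -/
def e10_Adm (S : Set X) (x₁ : X) (r₁ : ℝ) (z : X) (p : X × ℕ) : Prop :=
  p.1 ∈ S ∩ ball x₁ (r₁ / 10) ∧ 1 ≤ p.2 ∧ dist z p.1 ≤ r₁ / 2 ^ p.2 / 32 ∧
    r₁ / 2 ^ p.2 / 100 ≤ infDist z S

theorem e10_exists {S : Set X} (hS : IsClosed S) {x₁ : X} (h1 : x₁ ∈ S) {r₁ : ℝ} {z : X}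
    (hz : z ∉ S) (hz1 : z ∈ ball x₁ (r₁ / 100)) :
    ∃ p, ∀ᶠ z' in 𝓝 z, e10_Adm S x₁ r₁ z' p := by
  classical
  have hρ : 0 < infDist z S := (hS.notMem_iff_infDist_pos ⟨x₁, h1⟩).1 hz
  rw [mem_ball] at hz1
  have hρ1 : infDist z S < r₁ / 100 := lt_of_le_of_lt (infDist_le_dist_of_mem h1) hz1
  have hr : 0 < r₁ := by linarith
  have hex : ∃ j : ℕ, r₁ / 2 ^ j / 100 < infDist z S := by
    obtain ⟨j, hj⟩ := pow_unbounded_of_one_lt (r₁ / 100 / infDist z S) (one_lt_two (α := ℝ))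
    refine ⟨j, ?_⟩
    rw [div_lt_iff₀ hρ] at hj
    rw [div_right_comm, div_lt_iff₀ (by positivity)]
    linarith
  have hj := Nat.find_spec hex
  have hj0 : Nat.find hex ≠ 0 := by
    intro h
    rw [h, pow_zero, div_one] at hj
    linarith
  obtain ⟨i, hi⟩ := Nat.exists_eq_succ_of_ne_zero hj0
  have hi' := Nat.find_min hex (m := i) (by omega)
  rw [hi] at hj
  push Not at hi'
  have e : r₁ / 2 ^ i = 2 * (r₁ / 2 ^ i.succ) := by rw [pow_succ]; field_simp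
  have hs : 0 < r₁ / 2 ^ i.succ := by positivity
  have hle : r₁ / 2 ^ i ≤ r₁ := div_le_self hr.le (one_le_pow₀ one_le_two)
  obtain ⟨x, hx, hxz⟩ := (infDist_lt_iff (x := z) (r := r₁ / 2 ^ i.succ / 32) ⟨x₁, h1⟩).1
    (by linarith)
  refine ⟨(x, i.succ), ?_⟩
  have e1 : ∀ᶠ z' in 𝓝 z, dist z' x < r₁ / 2 ^ i.succ / 32 :=
    (continuous_id.dist continuous_const).continuousAt.eventually_lt continuousAt_const hxz
  have e2 : ∀ᶠ z' in 𝓝 z, r₁ / 2 ^ i.succ / 100 < infDist z' S :=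
    continuousAt_const.eventually_lt (continuous_infDist_pt S).continuousAt hj
  filter_upwards [e1, e2] with z' h2 h3
  refine ⟨⟨hx, ?_⟩, Nat.succ_pos i, h2.le, h3.le⟩
  have := dist_triangle_left x x₁ z
  rw [mem_ball]
  linarith

theorem e10_near {S : Set X} {x₁ : X} {r₁ : ℝ} (hr : 0 < r₁) {z : X} {p q : X × ℕ}
    (hp : e10_Adm S x₁ r₁ z p) (hq : e10_Adm S x₁ r₁ z q) : q.2 ≤ p.2 + 1 := by
  by_contra hn
  have h1 := hp.2.2.2.trans ((infDist_le_dist_of_mem hq.1.1).trans hq.2.2.1)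
  have h2 : r₁ / 2 ^ q.2 ≤ r₁ / 2 ^ (p.2 + 2) :=
    div_le_div_of_nonneg_left hr.le (by positivity) (pow_le_pow_right₀ one_le_two (by omega))
  have e : r₁ / 2 ^ (p.2 + 2) = r₁ / 2 ^ p.2 / 4 := by rw [pow_add]; field_simp; norm_num
  have hs : 0 < r₁ / 2 ^ p.2 := by positivity
  linarith

theorem e10_ball {S : Set X} {x₁ : X} {r₁ : ℝ} (hr : 0 < r₁) {z : X} {p : X × ℕ}
    (hp : e10_Adm S x₁ r₁ z p) :
    ball z (1 / 200 * (r₁ / 2 ^ p.2)) ⊆ Sᶜ ∩ ball p.1 (r₁ / 2 ^ p.2) := by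
  intro w hw
  have hs : 0 < r₁ / 2 ^ p.2 := by positivity
  rw [mem_ball] at hw
  refine ⟨fun h => ?_, ?_⟩
  · have := hp.2.2.2.trans (infDist_le_dist_of_mem h)
    rw [dist_comm] at this
    linarith
  · have := dist_triangle w z p.1
    rw [mem_ball]
    linarith [hp.2.2.1]

namespace Env

variable (c : Env D D' Γ π κ m)

theorem glue (x₀ : X) : ∃ β r₀, 0 < β ∧ 0 < r₀ ∧ ∀ x₁ ∈ ball x₀ 1, x₁ ∉ c.Gd → ∀ r₁, 0 < r₁ →
    r₁ ≤ r₀ → ¬∀ x ∈ c.Gdᶜ ∩ ball x₁ r₁, ∀ s, 0 < s → s ≤ r₁ → c.Spl x s β := by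
  classical
  obtain ⟨c₁, C, rv, hc₁, -, hrv, hrv1, -, -, hvol⟩ := c.vol' x₀ 2
  obtain ⟨η, β₁, rn, hη, hηk, hβ₁, hrn, hne⟩ := c.ne' x₀ 2 (k := 1 / 200)
    (ϑ := c₁ / (8 * 2 ^ (m + 2))) (by norm_num) (by positivity)
  obtain ⟨β, rc, hβ, hrc, hco⟩ := c.coherent x₀ (ε := c₁ / (8 * 2 ^ (m + 2)) * η ^ (m + 2))
    (by positivity) hβ₁
  refine ⟨β, min rv (min rn rc), hβ, by positivity, fun x₁ hx₁ hx₁G r₁ hr₁ hr₀ hall => ?_⟩
  have hr1 : r₁ ≤ rv := hr₀.trans (min_le_left _ _)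
  have hr2 : r₁ ≤ rn := hr₀.trans ((min_le_right _ _).trans (min_le_left _ _))
  have hr3 : r₁ ≤ rc := hr₀.trans ((min_le_right _ _).trans (min_le_right _ _))
  obtain ⟨h, hw, hv, hh⟩ := hco x₁ hx₁ r₁ hr₁ hr3 c.Gdᶜ hx₁G hall
  have hs0 : ∀ j : ℕ, 0 < r₁ / 2 ^ j := fun j => by positivity
  have hs1 : ∀ j : ℕ, r₁ / 2 ^ j ≤ r₁ := fun j => div_le_self hr₁.le (one_le_pow₀ one_le_two)
  rw [mem_ball] at hx₁
  have hσ : ∀ p : X × ℕ, ∃ σ : Y → ℝ, ∀ y, e10_Adm c.Gdᶜ x₁ r₁ (π y) p →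
      (σ y = 1 ∨ σ y = -1) ∧ σ (Γ y) = -σ y ∧
      μ'.real {a | a ∈ ball y (η * (r₁ / 2 ^ p.2)) ∧ h p.1 p.2 a ≠ σ y} ≤
        c₁ / (8 * 2 ^ (m + 2)) * (η * (r₁ / 2 ^ p.2)) ^ (m + 2) ∧
      ∀ y', e10_Adm c.Gdᶜ x₁ r₁ (π y') p → dist y y' ≤ η * (r₁ / 2 ^ p.2) / 2 → σ y = σ y' := by
    intro p
    by_cases hp : p.1 ∈ c.Gdᶜ ∩ ball x₁ (r₁ / 10)
    · obtain ⟨σ, hσ⟩ := hne p.1 (by
        have h1 := mem_ball.1 hp.2
        have h2 := dist_triangle p.1 x₁ x₀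
        rw [mem_ball]
        linarith) (r₁ / 2 ^ p.2) (hs0 _) ((hs1 _).trans hr2) _ (hw p.1 hp p.2)
      refine ⟨σ, fun y hy => ?_⟩
      obtain ⟨h1, h2, h3, h4⟩ := hσ y (by simpa only [compl_compl] using e10_ball hr₁ hy)
      exact ⟨h1, h2, h3, fun y' hy' => h4 y' (by simpa only [compl_compl] using e10_ball hr₁ hy')⟩
    · exact ⟨0, fun y hy => absurd hy.1 hp⟩
  choose σ hσ using hσ
  have hfin : ∀ (x : X) (r : ℝ) (P : Y → Prop), μ' {a | π a ∈ ball x r ∧ P a} ≠ ⊤ := by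
    intro x r P
    refine ne_top_of_le_ne_top ?_ (measure_mono (t := π ⁻¹' ball x r) fun a ha => ha.1)
    rw [c.measure_preimage]
    exact ENNReal.mul_ne_top (by norm_num) (D.fin x r).ne
  have hfin' : ∀ (y : Y) (r : ℝ) (P : Y → Prop), μ' {a | a ∈ ball y r ∧ P a} ≠ ⊤ := fun y r P =>
    ne_top_of_le_ne_top (D'.fin y r).ne (measure_mono fun a ha => ha.1)
  have hcmp : ∀ y p q, e10_Adm c.Gdᶜ x₁ r₁ (π y) p → e10_Adm c.Gdᶜ x₁ r₁ (π y) q → p.2 ≤ q.2 →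
      σ p y = σ q y := by
    intro y p q hp hq hpq
    by_contra hn
    have hq1 := e10_near hr₁ hp hq
    have hs := hs0 p.2
    have hle : r₁ / 2 ^ q.2 ≤ r₁ / 2 ^ p.2 :=
      div_le_div_of_nonneg_left hr₁.le (by positivity) (pow_le_pow_right₀ one_le_two hpq)
    have hge : r₁ / 2 ^ p.2 / 2 ≤ r₁ / 2 ^ q.2 := by
      rw [div_div, ← pow_succ]
      exact div_le_div_of_nonneg_left hr₁.le (by positivity) (pow_le_pow_right₀ one_le_two hq1)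
    have hp3 := hp.2.2.1
    have hq3 := hq.2.2.1
    have b1 := (hσ p y hp).2.2.1
    have b2 := (hσ q y hq).2.2.1.trans (mul_le_mul_of_nonneg_left (pow_le_pow_left₀
      (mul_pos hη (hs0 _)).le (mul_le_mul_of_nonneg_left hle hη.le) _) (by positivity))
    have b3 := hh p.1 hp.1 q.1 hq.1 p.2 hp.2.1 (by
      have := dist_triangle_left p.1 q.1 (π y)
      linarith)
    have b4 : μ'.real {a | π a ∈ ball q.1 (r₁ / 2 ^ p.2 / 4) ∧ h q.1 q.2 a ≠ h q.1 p.2 a} ≤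
        c₁ / (8 * 2 ^ (m + 2)) * η ^ (m + 2) * (r₁ / 2 ^ p.2) ^ (m + 2) := by
      rcases (show q.2 = p.2 ∨ q.2 = p.2 + 1 by omega) with e | e
      · rw [e]
        simp only [ne_eq, not_true_eq_false, and_false, ofPred_false, measureReal_empty]
        positivity
      · rw [e]
        exact hv q.1 hq.1 p.2 hp.2.1
    have hηs : η * (r₁ / 2 ^ p.2) ≤ 1 / 2000 * (r₁ / 2 ^ p.2) :=
      mul_le_mul_of_nonneg_right (by linarith) hs.le
    have hηs0 : 0 < η * (r₁ / 2 ^ p.2) := mul_pos hη hs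
    have b5 := hvol y (by
      have h1 := mem_ball.1 hp.1.2
      have h2 := dist_triangle4 (π y) p.1 x₁ x₀
      have h3 := hs1 p.2
      rw [mem_ball]
      linarith) (η * (r₁ / 2 ^ p.2) / 2) (by positivity) (by linarith [hs1 p.2])
    have hsub : ball y (η * (r₁ / 2 ^ p.2) / 2) ⊆
        ({a | a ∈ ball y (η * (r₁ / 2 ^ p.2)) ∧ h p.1 p.2 a ≠ σ p y} ∪
          {a | a ∈ ball y (η * (r₁ / 2 ^ q.2)) ∧ h q.1 q.2 a ≠ σ q y}) ∪
        ({a | π a ∈ ball p.1 (r₁ / 2 ^ p.2 / 4) ∧ h q.1 p.2 a ≠ h p.1 p.2 a} ∪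
          {a | π a ∈ ball q.1 (r₁ / 2 ^ p.2 / 4) ∧ h q.1 q.2 a ≠ h q.1 p.2 a}) := by
      intro a ha
      rw [mem_ball] at ha
      have d1 := c.quot.dist_le a y
      have d2 := dist_triangle (π a) (π y) p.1
      have d3 := dist_triangle (π a) (π y) q.1
      have d4 := mul_le_mul_of_nonneg_left hge hη.le
      by_contra hc
      simp only [mem_union, mem_ofPred_eq, mem_ball, not_or, not_and, not_not] at hc
      obtain ⟨⟨e1, e2⟩, e3, e4⟩ := hc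
      exact hn ((e1 (by linarith)).symm.trans ((e3 (by linarith)).symm.trans
        ((e4 (by linarith)).symm.trans (e2 (by linarith)))))
    have b6 := (measureReal_mono hsub (measure_union_ne_top
      (measure_union_ne_top (hfin' _ _ _) (hfin' _ _ _))
      (measure_union_ne_top (hfin _ _ _) (hfin _ _ _)))).trans ((measureReal_union_le _ _).trans
        (add_le_add (measureReal_union_le _ _) (measureReal_union_le _ _)))
    have e1 : c₁ * (η * (r₁ / 2 ^ p.2) / 2) ^ (m + 2) =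
        8 * (c₁ / (8 * 2 ^ (m + 2)) * (η * (r₁ / 2 ^ p.2)) ^ (m + 2)) := by
      rw [div_pow]; field_simp
    have e2 : c₁ / (8 * 2 ^ (m + 2)) * η ^ (m + 2) * (r₁ / 2 ^ p.2) ^ (m + 2) =
        c₁ / (8 * 2 ^ (m + 2)) * (η * (r₁ / 2 ^ p.2)) ^ (m + 2) := by rw [mul_pow]; ring
    have e3 : 0 < c₁ / (8 * 2 ^ (m + 2)) * (η * (r₁ / 2 ^ p.2)) ^ (m + 2) := by positivity
    linarith
  let τ : Y → ℝ := fun y => if hy : ∃ p, e10_Adm c.Gdᶜ x₁ r₁ (π y) p then σ hy.choose y else 0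
  have hτ : ∀ y p, e10_Adm c.Gdᶜ x₁ r₁ (π y) p → τ y = σ p y := by
    intro y p hp
    have hy : ∃ p, e10_Adm c.Gdᶜ x₁ r₁ (π y) p := ⟨p, hp⟩
    simp only [τ, dif_pos hy]
    rcases le_total hy.choose.2 p.2 with h1 | h1
    · exact hcmp y _ _ hy.choose_spec hp h1
    · exact (hcmp y _ _ hp hy.choose_spec h1).symm
  obtain ⟨a₀, ha₀, rfl⟩ := c.exists_fix hx₁G
  obtain ⟨a, hj⟩ := c.path a₀ ha₀ (r₁ / 100) (by positivity)
  have hF : ∀ b ∈ ball a₀ (r₁ / 100) ∩ {b | Γ b ≠ b},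
      ∃ p, ∀ᶠ b' in 𝓝 b, e10_Adm c.Gdᶜ (π a₀) r₁ (π b') p := by
    intro b hb
    obtain ⟨p, hp⟩ := e10_exists c.isOpen_Gd.isClosed_compl hx₁G (r₁ := r₁) (z := π b)
      (fun h => h (c.mem_Gd hb.2)) (lt_of_le_of_lt (c.quot.dist_le _ _) hb.1)
    exact ⟨p, c.quot.cont.continuousAt.eventually hp⟩
  obtain ⟨γ, hγ⟩ := id hj
  have hlc : IsLocallyConstant fun t => τ (γ t) := by
    rw [IsLocallyConstant.iff_eventually_eq]
    intro t
    obtain ⟨p, hp⟩ := hF _ (hγ t)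
    have h1 : ∀ᶠ b' in 𝓝 (γ t), τ b' = τ (γ t) := by
      filter_upwards [hp, closedBall_mem_nhds (γ t)
        (show 0 < η * (r₁ / 2 ^ p.2) / 2 by have := hs0 p.2; positivity)] with b' h2 h3
      rw [hτ _ _ h2, hτ _ _ hp.self_of_nhds]
      exact (hσ p b' h2).2.2.2 _ hp.self_of_nhds h3
    exact γ.continuous.continuousAt.eventually h1
  have h1 := hlc.apply_eq_of_preconnectedSpace 0 1
  obtain ⟨p, hp⟩ := hF a hj.source_mem
  have hp := hp.self_of_nhds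
  rw [γ.source, γ.target, hτ a p hp, hτ (Γ a) p (by rwa [c.quot.π_Γ]), (hσ p a hp).2.1] at h1
  rcases (hσ p a hp).1 with h2 | h2 <;> rw [h2] at h1 <;> norm_num at h1

end Env

end RC
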