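import Pool.Agent.P.MP_6472e5_gt.E1c

/-! Comparison of two almost splittings. -/

set_option autoImplicit false
set_option linter.unusedSectionVars false
set_option linter.unusedVariables false

noncomputable section

namespace RC

open MeasureTheory Set Filter Topology Metric

variable {X Y : Type} [MetricSpace X] [ProperSpace X] [MeasurableSpace X] [BorelSpace X]
  [MetricSpace Y] [ProperSpace Y] [MeasurableSpace Y] [BorelSpace Y] {μ : Measure X}
  {μ' : Measure Y} {D : DS μ} {D' : DS μ'} {Γ : Y → Y} {π : Y → X} {κ : ℝ} {m : ℕ}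

namespace Env

variable (c : Env D D' Γ π κ m)

include c in
theorem e10a_fin (x : X) (r : ℝ) {T : Set Y} (hT : ∀ a ∈ T, π a ∈ ball x r) : μ' T ≠ ⊤ := by
  refine ((measure_mono (show T ⊆ π ⁻¹' ball x r from hT)).trans_lt ?_).ne
  rw [c.toPreCov.measure_preimage]
  exact ENNReal.mul_lt_top (by simp) (D.fin x r)

include c in
theorem e10a_int {h : Y → ℝ} (hh : h ∈ D'.V) (x : X) (r : ℝ) :
    IntegrableOn (fun a => √(D'.G h h a)) (π ⁻¹' ball x r) μ' := by
  have : IsFiniteMeasure (μ'.restrict (π ⁻¹' ball x r)) :=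
    isFiniteMeasure_restrict.2 (c.e10a_fin x r fun a ha => ha)
  have h1 : Integrable (fun a => 1 + |D'.G h h a|) (μ'.restrict (π ⁻¹' ball x r)) :=
    (integrable_const 1).add (DS.G_int hh hh).integrableOn.abs
  refine h1.mono' (Real.continuous_sqrt.comp_aestronglyMeasurable (DS.G_int hh hh).1.restrict)
    (ae_of_all _ fun a => ?_)
  rw [Real.norm_of_nonneg (Real.sqrt_nonneg _)]
  refine Real.sqrt_le_iff.2 ⟨by positivity, ?_⟩
  nlinarith [le_abs_self (D'.G h h a), abs_nonneg (D'.G h h a)]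

theorem e10a_le {A B C : Set Y} (hB : μ' B ≠ ⊤) (hC : μ' C ≠ ⊤)
    (h : ∀ᵐ a ∂μ', a ∈ A → a ∈ B ∨ a ∈ C) : μ'.real A ≤ μ'.real B + μ'.real C :=
  (ENNReal.toReal_mono (measure_union_ne_top hB hC)
    (measure_mono_ae (show A ≤ᵐ[μ'] (B ∪ C : Set Y) from h))).trans (measureReal_union_le B C)

theorem rel (x₀ : X) (R : ℝ) {ε : ℝ} (hε : 0 < ε) : ∃ β r₀, 0 < β ∧ 0 < r₀ ∧ ∀ x ∈ ball x₀ R,
    ∀ r, 0 < r → r ≤ r₀ → ∀ h h', c.Wit x (2 * r) β h → c.Wit x (2 * r) β h' →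
    ∃ s : ℝ, (s = 1 ∨ s = -1) ∧
      μ'.real {a | π a ∈ ball x r ∧ h' a ≠ s * h a} ≤ ε * r ^ (m + 2) := by
  obtain ⟨β₀, r₀, hβ₀, hr₀, H⟩ := c.ft.majx x₀ R (ε / 4) (by positivity)
  have h2 : (0 : ℝ) < 2 ^ (m + 2) := by positivity
  refine ⟨min β₀ (ε / 2) / 2 ^ (m + 2), r₀, by positivity, hr₀, fun x hx r hr hrr h h' w w' => ?_⟩
  have e : min β₀ (ε / 2) / 2 ^ (m + 2) * (2 * r) ^ (m + 2) = min β₀ (ε / 2) * r ^ (m + 2) := by
    rw [mul_pow]
    field_simp
  have hp : 0 < r ^ (m + 2) := by positivity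
  have e1 : min β₀ (ε / 2) * r ^ (m + 2) ≤ β₀ * r ^ (m + 2) := by gcongr; exact min_le_left _ _
  have e2 : min β₀ (ε / 2) * r ^ (m + 2) ≤ ε / 2 * r ^ (m + 2) := by gcongr; exact min_le_right _ _
  have o := w.one
  have o' := w'.one
  have g := w.grad
  have g' := w'.grad
  rw [e] at o o' g g'
  obtain ⟨f, hf, f1, f2⟩ := c.toPreCov.mul_odd w.mem w'.mem w.odd w'.odd w.le w'.le
  obtain ⟨s, hs, H1⟩ := H x hx r hr hrr f hf (c.toPreCov.ae_desc (P := fun y => |f y| ≤ 1) (by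
      filter_upwards [f1, w.le, w'.le] with a a1 a2 a3
      rw [a1, abs_mul]
      exact mul_le_one₀ a2 (abs_nonneg _) a3)) (by
      have h1 := c.toPreCov.real_preimage {y | y ∈ ball x (2 * r) ∧ |f y| ≠ 1}
      have h3 := e10a_le (A := π ⁻¹' {y | y ∈ ball x (2 * r) ∧ |f y| ≠ 1})
        (c.e10a_fin x (2 * r) (T := {a | π a ∈ ball x (2 * r) ∧ |h a| ≠ 1}) fun a ha => ha.1)
        (c.e10a_fin x (2 * r) (T := {a | π a ∈ ball x (2 * r) ∧ |h' a| ≠ 1}) fun a ha => ha.1) (by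
          filter_upwards [f1] with a a1 ha
          by_contra hc
          simp only [not_or, not_and, not_not] at hc
          refine ha.2 ?_
          rw [a1, abs_mul, hc.1 ha.1, hc.2 ha.1, mul_one])
      linarith) (by
      have hm : AEStronglyMeasurable (fun y => √(D.G f f y)) μ :=
        Real.continuous_sqrt.comp_aestronglyMeasurable (DS.G_int hf hf).1
      have hB := c.toPreCov.meas_π (measurableSet_ball (x := x) (ε := 2 * r))
      have h1 := c.toPreCov.integral_lift (hm.indicator (measurableSet_ball (x := x) (ε := 2 * r)))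
      rw [integral_indicator measurableSet_ball] at h1
      have h3 : ∫ a, (ball x (2 * r)).indicator (fun y => √(D.G f f y)) (π a) ∂μ' =
          ∫ a in π ⁻¹' ball x (2 * r), √(D.G f f (π a)) ∂μ' := by
        rw [← integral_indicator hB]
        rfl
      have h4 : ∫ a in π ⁻¹' ball x (2 * r), √(D.G f f (π a)) ∂μ' ≤
          ∫ a in π ⁻¹' ball x (2 * r), (√(D'.G h h a) + √(D'.G h' h' a)) ∂μ' :=
        integral_mono_of_nonneg (ae_of_all _ fun a => Real.sqrt_nonneg _)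
          ((c.e10a_int w.mem x _).add (c.e10a_int w'.mem x _)) (ae_restrict_of_ae f2)
      rw [integral_add (c.e10a_int w.mem x _) (c.e10a_int w'.mem x _)] at h4
      have h5 : min β₀ (ε / 2) * r ^ (m + 2) / (2 * r) ≤ β₀ * r ^ (m + 2) / r := by
        gcongr
        linarith
      linarith)
  refine ⟨s, hs, ?_⟩
  have h1 := c.toPreCov.real_preimage {y | y ∈ ball x r ∧ f y ≠ s}
  have h3 := e10a_le (A := {a | π a ∈ ball x r ∧ h' a ≠ s * h a})
    (c.e10a_fin x r (T := π ⁻¹' {y | y ∈ ball x r ∧ f y ≠ s}) fun a ha => ha.1)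
    (c.e10a_fin x (2 * r) (T := {a | π a ∈ ball x (2 * r) ∧ |h a| ≠ 1}) fun a ha => ha.1) (by
      filter_upwards [f1] with a a1 ha
      by_contra hc
      simp only [mem_preimage, mem_ofPred_eq, not_or, not_and, not_not] at hc
      have a2 := hc.1 ha.1
      have a3 := hc.2 (ball_subset_ball (by linarith) ha.1)
      refine ha.2 ?_
      have a4 : h a * h a = 1 := by rw [← abs_mul_abs_self, a3, mul_one]
      rw [← a2, a1]
      linear_combination (-h' a) * a4)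
  linarith

/-- Coherent witnesses at all dyadic scales. -/
theorem coherent (x₀ : X) {ε β₁ : ℝ} (hε : 0 < ε) (hβ₁ : 0 < β₁) : ∃ β r₀, 0 < β ∧ 0 < r₀ ∧
    ∀ x₁ ∈ ball x₀ 1, ∀ r₁, 0 < r₁ → r₁ ≤ r₀ → ∀ S : Set X, x₁ ∈ S →
    (∀ x ∈ S ∩ ball x₁ r₁, ∀ s, 0 < s → s ≤ r₁ → c.Spl x s β) →
    ∃ h : X → ℕ → Y → ℝ, (∀ x ∈ S ∩ ball x₁ (r₁ / 10), ∀ j, c.Wit x (r₁ / 2 ^ j) β₁ (h x j)) ∧
      (∀ x ∈ S ∩ ball x₁ (r₁ / 10), ∀ j, 1 ≤ j →
        μ'.real {a | π a ∈ ball x (r₁ / 2 ^ j / 4) ∧ h x (j + 1) a ≠ h x j a} ≤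
          ε * (r₁ / 2 ^ j) ^ (m + 2)) ∧
      ∀ x ∈ S ∩ ball x₁ (r₁ / 10), ∀ x' ∈ S ∩ ball x₁ (r₁ / 10), ∀ j, 1 ≤ j →
        dist x x' ≤ r₁ / 2 ^ j / 8 →
        μ'.real {a | π a ∈ ball x (r₁ / 2 ^ j / 4) ∧ h x' j a ≠ h x j a} ≤
          ε * (r₁ / 2 ^ j) ^ (m + 2) := by
  obtain ⟨c₁, C, rv, hc₁, hC, hrv, hrv1, -, hv, -⟩ := c.vol' x₀ 2
  obtain ⟨η, hη, hηε, hηc⟩ : ∃ η : ℝ, 0 < η ∧ η ≤ ε ∧ 5 * η ≤ c₁ / 8 ^ (m + 2) :=
    ⟨min ε (c₁ / 8 ^ (m + 2) / 5), by positivity, min_le_left _ _, by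
      linarith [min_le_right ε (c₁ / 8 ^ (m + 2) / 5)]⟩
  obtain ⟨β₀, r₀, hβ₀, hr₀, H⟩ := c.rel x₀ 2 hη
  have h2 : (1 : ℝ) ≤ 2 ^ (m + 2) := one_le_pow₀ one_le_two
  obtain ⟨β, hβ, hb1, hb2, hb3⟩ : ∃ β : ℝ, 0 < β ∧ β ≤ β₁ ∧ β ≤ η ∧ β * 2 ^ (m + 2) ≤ β₀ :=
    ⟨min (min β₁ η) (β₀ / 2 ^ (m + 2)), by positivity,
      (min_le_left _ _).trans (min_le_left _ _), (min_le_left _ _).trans (min_le_right _ _),
      (le_div_iff₀ (by positivity)).1 (min_le_right _ _)⟩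
  refine ⟨β, min r₀ rv, hβ, by positivity, fun x₁ hx₁ r₁ hr₁ hrr S hS hspl => ?_⟩
  have hr0 := hrr.trans (min_le_left _ _)
  have hr1 := hrr.trans (min_le_right _ _)
  obtain ⟨s, hs⟩ : ∃ s : ℕ → ℝ, ∀ j, r₁ / 2 ^ j = s j := ⟨_, fun _ => rfl⟩
  have sp : ∀ j, 0 < s j := fun j => by rw [← hs]; positivity
  have s0 : s 0 = r₁ := by rw [← hs]; simp
  have ss : ∀ j, s j = 2 * s (j + 1) := fun j => by rw [← hs, ← hs, pow_succ]; field_simp
  have sl : ∀ j, s j ≤ r₁ := fun j => by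
    rw [← hs]; exact div_le_self hr₁.le (one_le_pow₀ one_le_two)
  simp only [hs]
  have hx2 : ∀ x ∈ S ∩ ball x₁ (r₁ / 10), x ∈ ball x₀ 2 := fun x hx => by
    have := dist_triangle x x₁ x₀
    have := mem_ball.1 hx.2
    have := mem_ball.1 hx₁
    rw [mem_ball]
    linarith
  have hxS : ∀ x ∈ S ∩ ball x₁ (r₁ / 10), x ∈ S ∩ ball x₁ r₁ := fun x hx =>
    ⟨hx.1, ball_subset_ball (by linarith) hx.2⟩
  have half : ∀ (x x' : X) (ρ : ℝ) (u : Y → ℝ), 0 < ρ → dist x' x ≤ ρ → c.Wit x (2 * ρ) β u →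
      c.Wit x' ρ β₀ u := fun x x' ρ u h0 hd w =>
    Wit.restrict c w (ball_subset_ball' (by linarith)) h0 (by linarith) hβ.le (by
      rw [mul_pow, ← mul_assoc]
      gcongr)
  have same : ∀ (x : X) (ρ b : ℝ) (u : Y → ℝ), 0 < ρ → β ≤ b → c.Wit x ρ β u →
      c.Wit x ρ b u := fun x ρ b u h0 hb w =>
    Wit.restrict c w subset_rfl h0 le_rfl hβ.le (by gcongr)
  have hb0 : β ≤ β₀ := le_trans (le_mul_of_one_le_right hβ.le h2) hb3
  have quarter : ∀ ρ : ℝ, 0 < ρ → η * (ρ / 4) ^ (m + 2) ≤ η * ρ ^ (m + 2) := fun ρ h0 => by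
    gcongr
    linarith
  have step : ∀ (x : X) (j : ℕ) (u : Y → ℝ), x ∈ S ∩ ball x₁ (r₁ / 10) →
      c.Wit x (s (j + 1)) β₀ u → ∃ v, c.Wit x (s (j + 1)) β v ∧
        μ'.real {a | π a ∈ ball x (s j / 4) ∧ v a ≠ u a} ≤ η * s j ^ (m + 2) := by
    intro x j u hx wu
    obtain ⟨w, hw⟩ := hspl x (hxS x hx) _ (sp (j + 1)) (sl _)
    have e : s (j + 1) = 2 * (s j / 4) := by linarith [ss j]
    obtain ⟨σ, hσ, H1⟩ := H x (hx2 x hx) (s j / 4) (by linarith [sp j]) (by linarith [sl j, sp j])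
      u w (e ▸ wu) (e ▸ same _ _ _ _ (sp _) hb0 hw)
    replace H1 := H1.trans (quarter _ (sp j))
    rcases hσ with rfl | rfl
    · exact ⟨w, hw, by simpa only [one_mul] using H1⟩
    · exact ⟨-w, Wit.neg c hw, by
        simpa only [neg_mul, one_mul, Pi.neg_apply, ne_eq, neg_eq_iff_eq_neg] using H1⟩
  choose! F hF1 hF2 using step
  obtain ⟨g, hg⟩ := hspl x₁ ⟨hS, mem_ball_self hr₁⟩ r₁ hr₁ le_rfl
  have ex0 : ∀ x ∈ S ∩ ball x₁ (r₁ / 10), ∃ u, c.Wit x (s 0) β u := fun x hx =>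
    hspl x (hxS x hx) _ (sp 0) (sl 0)
  choose! w0 hw0 using ex0
  obtain ⟨K, K0, K1⟩ : ∃ K : X → ℕ → Y → ℝ, (∀ x, K x 0 = g) ∧
      ∀ x j, K x (j + 1) = F x j (K x j) :=
    ⟨fun x j => Nat.rec g (fun j u => F x j u) j, fun _ => rfl, fun _ _ => rfl⟩
  have W0 : ∀ x ∈ S ∩ ball x₁ (r₁ / 10), ∀ j, c.Wit x (s (j + 1)) β₀ (K x j) := by
    intro x hx j
    induction j with
    | zero =>
      rw [K0]
      have := mem_ball.1 hx.2
      exact half x₁ x _ g (sp _) (by linarith [ss 0]) (by rwa [← ss 0, s0])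
    | succ j ih =>
      rw [K1]
      exact half x x _ _ (sp _) (by simpa using (sp _).le) (by rw [← ss]; exact hF1 x j _ hx ih)
  have W1 : ∀ x ∈ S ∩ ball x₁ (r₁ / 10), ∀ j, c.Wit x (s (j + 1)) β (K x (j + 1)) :=
    fun x hx j => by rw [K1]; exact hF1 x j _ hx (W0 x hx j)
  have W2 : ∀ x ∈ S ∩ ball x₁ (r₁ / 10), ∀ j,
      μ'.real {a | π a ∈ ball x (s j / 4) ∧ K x (j + 1) a ≠ K x j a} ≤ η * s j ^ (m + 2) :=
    fun x hx j => by rw [K1]; exact hF2 x j _ hx (W0 x hx j)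
  have W3 : ∀ j, ∀ x ∈ S ∩ ball x₁ (r₁ / 10), ∀ x' ∈ S ∩ ball x₁ (r₁ / 10), dist x x' ≤ s j / 8 →
      μ'.real {a | π a ∈ ball x (s j / 4) ∧ K x' j a ≠ K x j a} ≤ η * s j ^ (m + 2) := by
    intro j
    induction j with
    | zero =>
      intro x hx x' hx' hd
      have := sp 0
      simp only [K0, ne_eq, not_true, and_false, ofPred_false, measureReal_empty]
      positivity
    | succ j ih =>
      intro x hx x' hx' hd
      have p1 := sp (j + 1)
      have p2 := ss j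
      have p3 := ss (j + 1)
      have e : s (j + 1 + 1) = 2 * (s (j + 1) / 4) := by linarith
      obtain ⟨σ, hσ, H1⟩ := H x (hx2 x hx) (s (j + 1) / 4) (by linarith) (by linarith [sl (j + 1)])
        (K x (j + 1)) (K x' (j + 1)) (e ▸ W0 x hx (j + 1))
        (e ▸ half x' x _ _ (sp _) (by linarith) (by rw [← p3]; exact W1 x' hx' j))
      replace H1 := H1.trans (quarter _ p1)
      rcases hσ with rfl | rfl
      · simpa only [one_mul] using H1
      exfalso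
      have a1 := W2 x hx j
      have a2 := W2 x' hx' j
      have a3 := ih x hx x' hx' (by linarith)
      have a4 := (W1 x hx j).one
      have a5 := (hv x (hx2 x hx) (s (j + 1) / 4) (by linarith) (by linarith [sl (j + 1)])).1
      have a6 := c.toPreCov.real_preimage (ball x (s (j + 1) / 4))
      have e' : s (j + 1) / 4 = s j / 8 := by linarith
      have a7 : c₁ * (s (j + 1) / 4) ^ (m + 2) = c₁ / 8 ^ (m + 2) * s j ^ (m + 2) := by
        rw [e', div_pow]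
        ring
      have q1 : 0 < s j ^ (m + 2) := pow_pos (sp j) _
      have q2 : s (j + 1) ^ (m + 2) ≤ s j ^ (m + 2) := pow_le_pow_left₀ p1.le (by linarith) _
      have q3 : η * s (j + 1) ^ (m + 2) ≤ η * s j ^ (m + 2) := by gcongr
      have q4 : β * s (j + 1) ^ (m + 2) ≤ η * s j ^ (m + 2) := by gcongr
      have q5 : 5 * η * s j ^ (m + 2) ≤ c₁ / 8 ^ (m + 2) * s j ^ (m + 2) := by gcongr
      have q6 : 0 < η * s j ^ (m + 2) := by positivity
      have hsub : π ⁻¹' ball x (s (j + 1) / 4) ⊆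
          {a | π a ∈ ball x (s (j + 1) / 4) ∧ K x' (j + 1) a ≠ -1 * K x (j + 1) a} ∪
          ({a | π a ∈ ball x (s j / 4) ∧ K x (j + 1) a ≠ K x j a} ∪
          ({a | π a ∈ ball x' (s j / 4) ∧ K x' (j + 1) a ≠ K x' j a} ∪
          ({a | π a ∈ ball x (s j / 4) ∧ K x' j a ≠ K x j a} ∪
          {a | π a ∈ ball x (s (j + 1)) ∧ |K x (j + 1) a| ≠ 1}))) := by
        intro a ha
        by_contra hc
        simp only [mem_union, mem_ofPred_eq, not_or, not_and, not_not] at hc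
        obtain ⟨c1, c2, c3, c4, c5⟩ := hc
        have d1 := c1 ha
        have d2 := c2 (ball_subset_ball (by linarith) ha)
        have d3 := c3 (ball_subset_ball' (by linarith) ha)
        have d4 := c4 (ball_subset_ball (by linarith) ha)
        have d5 := c5 (ball_subset_ball (by linarith) ha)
        rw [show K x (j + 1) a = 0 by linarith, abs_zero] at d5
        exact zero_ne_one d5
      have b1 := measureReal_mono hsub (measure_union_ne_top
        (c.e10a_fin x _ fun a ha => ha.1) (measure_union_ne_top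
        (c.e10a_fin x _ fun a ha => ha.1) (measure_union_ne_top
        (c.e10a_fin x' _ fun a ha => ha.1) (measure_union_ne_top
        (c.e10a_fin x _ fun a ha => ha.1) (c.e10a_fin x _ fun a ha => ha.1)))))
      have b2 := b1.trans ((measureReal_union_le _ _).trans (add_le_add H1
        ((measureReal_union_le _ _).trans (add_le_add a1
        ((measureReal_union_le _ _).trans (add_le_add a2
        ((measureReal_union_le _ _).trans (add_le_add a3 a4))))))))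
      linarith
  have fin : ∀ j, η * s j ^ (m + 2) ≤ ε * s j ^ (m + 2) := fun j => by
    have := sp j
    gcongr
  refine ⟨fun x j => if j = 0 then w0 x else K x j, fun x hx j => ?_, fun x hx j hj => ?_,
    fun x hx x' hx' j hj hd => ?_⟩
  · rcases j with _ | j
    · exact same _ _ _ _ (sp _) hb1 (hw0 x hx)
    · exact same _ _ _ _ (sp _) hb1 (W1 x hx j)
  · simp only [if_neg (Nat.succ_ne_zero j), if_neg (Nat.one_le_iff_ne_zero.1 hj)]
    exact (W2 x hx j).trans (fin j)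
  · simp only [if_neg (Nat.one_le_iff_ne_zero.1 hj)]
    exact (W3 j x hx x' hx' hd).trans (fin j)

end Env

end RC
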