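import Pool.Agent.P.MP_6472e5_gt.E1c

/-! Contraction and decay of odd solutions. -/

set_option autoImplicit false
set_option linter.unusedSectionVars false
set_option linter.unusedVariables false

noncomputable section

namespace RC

open MeasureTheory Set Filter Topology Metric

variable {X Y : Type} [MetricSpace X] [ProperSpace X] [MeasurableSpace X] [BorelSpace X]
  [MetricSpace Y] [ProperSpace Y] [MeasurableSpace Y] [BorelSpace Y] {μ : Measure X}
  {μ' : Measure Y} {D : DS μ} {D' : DS μ'} {Γ : Y → Y} {π : Y → X} {κ : ℝ} {m : ℕ}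

namespace Env

variable (c : Env D D' Γ π κ m)

theorem e5_lip (b : NNReal) :
    LipschitzWith b fun y : ℝ => max (-1) (min 1 (b * y)) := by
  have h : LipschitzWith b fun y : ℝ => (b : ℝ) * y := LipschitzWith.of_dist_le_mul fun y z => by
    rw [Real.dist_eq, Real.dist_eq, ← mul_sub, abs_mul, NNReal.abs_eq]
  exact (h.const_min 1).const_max (-1)

theorem e5_odd (y : ℝ) : max (-1) (min 1 (-y)) = -max (-1) (min 1 y) := by
  simp only [max_def, min_def]
  split_ifs <;> linarith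

theorem e5_le (y : ℝ) : |max (-1) (min 1 y)| ≤ 1 :=
  abs_le.2 ⟨le_max_left _ _, max_le (by norm_num) (min_le_left _ _)⟩

theorem e5_ne {y : ℝ} (h : |max (-1) (min 1 y)| ≠ 1) : y ^ 2 ≤ 1 := by
  rw [sq_le_one_iff_abs_le_one, abs_le]
  constructor
  · by_contra h1
    rw [min_eq_right (by linarith), max_eq_left (by linarith)] at h
    simp at h
  · by_contra h1
    rw [min_eq_left (by linarith), max_eq_right (by linarith)] at h
    simp at h

theorem e5_wit {x : X} {r β C M ε : ℝ} (hr : 0 < r) (hβ : 0 < β) (hC : 0 < C) (hM : 0 < M)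
    (h1 : ε ≤ β / 4) (h2 : ε ≤ β ^ 2 / (4 * C))
    (hv : μ'.real (π ⁻¹' ball x r) ≤ C * r ^ (m + 2)) {u : Y → ℝ} (hu : u ∈ D'.V)
    (ho : IsOdd μ' Γ u) (hb : ∀ᵐ a ∂μ', π a ∈ ball x r → |u a| ≤ M)
    (i1 : ∫ a in π ⁻¹' ball x r, (1 / 2 - (2 * M ^ 2)⁻¹ * (u a * u a)) ∂μ' ≤ ε * r ^ (m + 2))
    (i2 : ∫ a in π ⁻¹' ball x r, (2 * M ^ 2)⁻¹ * (2 * D'.G u u a) ∂μ' ≤ ε * r ^ (m + 2) / r ^ 2) :
    c.Spl x r β := by
  have hS : MeasurableSet (π ⁻¹' ball x r) := c.meas_π measurableSet_ball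
  have hf : μ' (π ⁻¹' ball x r) < ⊤ := by
    rw [c.measure_preimage]
    exact ENNReal.mul_lt_top (by simp) (D.fin x r)
  have : IsFiniteMeasure (μ'.restrict (π ⁻¹' ball x r)) := isFiniteMeasure_restrict.2 hf.ne
  have hp : 0 < r ^ (m + 2) := pow_pos hr _
  let b : NNReal := ⟨2 / M, by positivity⟩
  have hbb : (b : ℝ) = 2 / M := rfl
  have hk := (D'.comp_mem hu (e5_lip b) (by simp)).1
  refine ⟨_, hk, ?_, Eventually.of_forall fun a => e5_le _, ?_, ?_⟩
  · filter_upwards [ho] with a ha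
    rw [ha, mul_neg, e5_odd]
  · have a1 := mul_meas_ge_le_integral_of_nonneg (μ := μ'.restrict (π ⁻¹' ball x r))
      (f := fun a => 1 / 2 - (2 * M ^ 2)⁻¹ * (u a * u a)) ?_ ((integrable_const _).sub
        ((integrable_mul_of_memLp (D'.memLp u hu) (D'.memLp u hu)).const_mul _).integrableOn)
      (3 / 8)
    · rw [measureReal_restrict_apply' hS] at a1
      have a2 : μ'.real {a | π a ∈ ball x r ∧ |max (-1) (min 1 (b * u a))| ≠ 1} ≤
          μ'.real ({a | 3 / 8 ≤ 1 / 2 - (2 * M ^ 2)⁻¹ * (u a * u a)} ∩ π ⁻¹' ball x r) := by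
        refine measureReal_mono (fun a ha => ⟨?_, ha.1⟩)
          ((measure_mono inter_subset_right).trans_lt hf).ne
        have a3 := e5_ne ha.2
        have a4 : (2 * M ^ 2)⁻¹ * (u a * u a) = (b * u a) ^ 2 / 8 := by
          rw [hbb]
          field_simp
          ring
        rw [mem_ofPred_eq, a4]
        linarith
      nlinarith
    · refine (ae_restrict_iff' hS).2 ?_
      filter_upwards [hb] with a ha h
      have a3 : u a * u a ≤ M ^ 2 := by
        rw [← sq, sq_le_sq, abs_of_pos hM]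
        exact ha h
      have a4 : (2 * M ^ 2)⁻¹ * (u a * u a) ≤ (2 * M ^ 2)⁻¹ * M ^ 2 := by gcongr
      have a5 : (2 * M ^ 2)⁻¹ * M ^ 2 = 1 / 2 := by field_simp
      simp only [Pi.zero_apply]
      linarith
  · have a1 := ((D'.W_of_mem hu).comp_lip (e5_lip b)).2
    have a0 := DS.G_nonneg (D'.W_of_mem hk)
    have a2 : Integrable (fun a => β / (2 * C * r) + 2 * C * r / β *
        ((2 * M ^ 2)⁻¹ * (2 * D'.G u u a))) (μ'.restrict (π ⁻¹' ball x r)) :=
      (integrable_const _).add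
        ((((DS.G_int hu hu).const_mul _).const_mul _).const_mul _).integrableOn
    refine (integral_mono_of_nonneg (Eventually.of_forall fun a => Real.sqrt_nonneg _) a2
      (ae_restrict_of_ae ?_)).trans ?_
    · filter_upwards [a1, a0] with a b1 b0
      generalize D'.G (fun a => max (-1) (min 1 (b * u a)))
        (fun a => max (-1) (min 1 (b * u a))) a = g at b1 b0 ⊢
      have b2 : (2 * M ^ 2)⁻¹ * (2 * D'.G u u a) = (b : ℝ) ^ 2 * D'.G u u a / 4 := by
        rw [hbb]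
        field_simp
        ring
      have b3 : 0 < β / (C * r) := by positivity
      have b4 : β / (2 * C * r) = β / (C * r) / 2 := by field_simp
      have b5 : 2 * C * r / β = 2 / (β / (C * r)) := by field_simp
      rw [b2, b4, b5]
      generalize β / (C * r) = l at b3
      have b6 : √g ≤ l / 2 + g / (2 * l) := by
        have b7 : l / 2 + g / (2 * l) = (l ^ 2 + √g ^ 2) / (2 * l) := by
          rw [Real.sq_sqrt b0]
          field_simp
        rw [b7, le_div_iff₀ (by positivity)]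
        nlinarith [sq_nonneg (l - √g)]
      have b8 : 2 / l * ((b : ℝ) ^ 2 * D'.G u u a / 4) = (b : ℝ) ^ 2 * D'.G u u a / (2 * l) := by
        field_simp
        ring
      have b9 : g / (2 * l) ≤ (b : ℝ) ^ 2 * D'.G u u a / (2 * l) := by gcongr
      linarith
    · rw [integral_add (integrable_const _)
        ((((DS.G_int hu hu).const_mul _).const_mul _).const_mul _).integrableOn,
        integral_const_mul, setIntegral_const, smul_eq_mul]
      have b1 : μ'.real (π ⁻¹' ball x r) * (β / (2 * C * r)) ≤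
          C * r ^ (m + 2) * (β / (2 * C * r)) := by gcongr
      have b2 := mul_le_mul_of_nonneg_left (i2.trans (div_le_div_of_nonneg_right
        (mul_le_mul_of_nonneg_right h2 hp.le) (sq_nonneg r))) (show 0 ≤ 2 * C * r / β by positivity)
      have b3 : C * r ^ (m + 2) * (β / (2 * C * r)) = β * r ^ (m + 2) / r / 2 := by field_simp
      have b4 : 2 * C * r / β * (β ^ 2 / (4 * C) * r ^ (m + 2) / r ^ 2) =
          β * r ^ (m + 2) / r / 2 := by
        field_simp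
        norm_num
      linarith

include c in
theorem e5_test {u Lu : Y → ℝ} (hu : u ∈ D'.V) (hl : D'.Lap u Lu) (hb : Bdd μ' u) {W : Set X}
    {φ Lφ : X → ℝ} (h : D.TF W φ Lφ) :
    ∫ a, φ (π a) * (u a * Lu a + u a * Lu a + 2 * D'.G u u a) ∂μ' =
      ∫ a, Lφ (π a) * (u a * u a) ∂μ' := by
  have h1 := c.tf_lift h
  have h2 := hl.mul hl hb.locBdd hb.locBdd
  obtain ⟨a⟩ | hY := isEmpty_or_nonempty Y
  · simp [Measure.eq_zero_of_isEmpty μ']
  obtain ⟨y⟩ := hY
  obtain ⟨R, -, hR⟩ := h1.lip.exists_ball y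
  have h3 := (h1.lap.test_W h1.L_memLp.1 (Eventually.of_forall hR) h2.1).2.2
  have h4 := h2.2.2 _ h1.lip
  rw [integral_congr_ae (DS.G_symm h2.1 h1.lap.1), h3, neg_inj] at h4
  simp only [mul_comm (φ _)]
  exact h4.symm

theorem con (x₀ : X) (R : ℝ) {β : ℝ} (hβ : 0 < β) : ∃ K γ r₀ : ℝ, 2 ≤ K ∧ 0 < γ ∧ γ < 1 ∧ 0 < r₀ ∧
    ∀ x ∈ ball x₀ R, ∀ r, 0 < r → r ≤ r₀ → ¬c.Spl x r β → ∀ h t M, MemLp h 2 μ' → Bdd μ' h →
    IsOdd μ' Γ h → 2 * r ^ 2 < t → 0 < M →
    (∀ s ∈ Icc (t - 2 * r ^ 2) t, ∀ᵐ a ∂μ', π a ∈ ball x (K * r) → |D'.P s h a| ≤ M) →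
    ∀ᵐ a ∂μ', π a ∈ ball x r → |D'.P t h a| ≤ γ * M := by
  obtain ⟨c₁, C, r₁, -, hC, hr₁, -, -, hv, -⟩ := c.vol' x₀ R
  obtain ⟨K, c₀, r₀, hK, h0, h1, hr₀, H⟩ := c.ft.sup x₀ R (min (β / 4) (β ^ 2 / (4 * C)))
    (by positivity)
  obtain ⟨s, hm, hs⟩ := c.sec
  refine ⟨max K 2, 1 - c₀ / 2, min r₀ r₁, le_max_right _ _, by linarith, by linarith,
    lt_min hr₀ hr₁, fun x hx r hr hrr hn h t M hh bh oh ht hM hb => ?_⟩
  have hb' : ∀ τ ∈ Icc (t - 2 * r ^ 2) t, ∀ᵐ a ∂μ', π a ∈ ball x (K * r) → |D'.P τ h a| ≤ M :=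
    fun τ hτ => (hb τ hτ).mono fun a ha h2 =>
      ha (ball_subset_ball (mul_le_mul_of_nonneg_right (le_max_left _ _) hr.le) h2)
  have hq : ∀ y : ℝ, |y| ≤ M → 0 ≤ (2 * M ^ 2)⁻¹ * (y * y) ∧ (2 * M ^ 2)⁻¹ * (y * y) ≤ 1 / 2 := by
    intro y hy
    have a3 : y * y ≤ M ^ 2 := by
      rw [← sq, sq_le_sq, abs_of_pos hM]
      exact hy
    have a4 : (2 * M ^ 2)⁻¹ * (y * y) ≤ (2 * M ^ 2)⁻¹ * M ^ 2 := by gcongr
    have a5 : (2 * M ^ 2)⁻¹ * M ^ 2 = 1 / 2 := by field_simp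
    exact ⟨mul_nonneg (by positivity) (mul_self_nonneg y), a4.trans a5.le⟩
  have hS : MeasurableSet (π ⁻¹' ball x r) := c.meas_π measurableSet_ball
  refine (H x hx r hr (hrr.trans (min_le_left _ _)) t
    (fun τ => dsc Γ s fun a => (2 * M ^ 2)⁻¹ * (D'.P τ h a * D'.P τ h a))
    (fun τ => dsc Γ s fun a => (2 * M ^ 2)⁻¹ * (D'.L τ h a * D'.P τ h a + D'.P τ h a * D'.L τ h a))
    (fun τ => dsc Γ s fun a => (2 * M ^ 2)⁻¹ * (2 * D'.G (D'.P τ h) (D'.P τ h) a))
    (fun τ hτ => ?_)).elim (fun H1 => ?_) fun ⟨τ, hτ, H1, H2⟩ => ?_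
  rotate_left
  · filter_upwards [c.ae_lift H1, (c.P_odd hh oh (by nlinarith : 0 < t)).1] with a a1 a2 a3
    have a4 := a1 a3
    rw [c.dsc_π hs, a2, neg_mul_neg, ← mul_add, inv_mul_le_iff₀ (by positivity)] at a4
    refine abs_le_of_sq_le_sq ?_ (mul_nonneg (by linarith) hM.le)
    nlinarith [sq_nonneg (c₀ * M)]
  · have h2 : 0 < τ := by linarith [hτ.1]
    obtain ⟨m1, -, -⟩ := c.P_mem hh h2
    have hf : μ' (π ⁻¹' ball x r) < ⊤ := by
      rw [c.measure_preimage]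
      exact ENNReal.mul_lt_top (by simp) (D.fin x r)
    refine absurd (c.e5_wit hr hβ hC hM (min_le_left _ _) (min_le_right _ _)
      (hv x hx r hr (hrr.trans (min_le_right _ _))).2 m1 (c.P_odd hh oh h2).1
      ((hb' τ ⟨hτ.1, by nlinarith [hτ.2]⟩).mono fun a ha h3 =>
        ha (ball_subset_ball (le_mul_of_one_le_left hr.le hK) h3)) ?_ ?_) hn
    · rw [← c.setIntegral_dsc hm hs measurableSet_ball (h := fun a => 1 / 2 - (2 * M ^ 2)⁻¹ *
        (D'.P τ h a * D'.P τ h a)) ((integrableOn_const hf.ne).sub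
        ((integrable_mul_of_memLp (D'.memLp _ m1) (D'.memLp _ m1)).const_mul _).integrableOn)]
      refine le_of_eq_of_le (integral_congr_ae (Eventually.of_forall fun y => ?_)) H1
      simp only [dsc]
      ring
    · rwa [← c.setIntegral_dsc hm hs measurableSet_ball
        (((DS.G_int m1 m1).const_mul _).const_mul _).integrableOn]
  · have h2 : 0 < τ := by linarith [hτ.1]
    obtain ⟨m1, m2, m3⟩ := c.P_mem hh h2
    have hd := ((c.flow.heat h hh).1 τ h2).2.2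
    have d1 := (hd.mul hd).bdd_mul (ζ := fun _ => (2 * M ^ 2)⁻¹) aestronglyMeasurable_const
      (Bdd.const _)
    have i1 : Integrable (fun a => (2 * M ^ 2)⁻¹ * (2 * D'.G (D'.P τ h) (D'.P τ h) a)) μ' :=
      ((DS.G_int m1 m1).const_mul _).const_mul _
    have i2 : Integrable (fun a => (2 * M ^ 2)⁻¹ * (D'.P τ h a * D'.P τ h a)) μ' :=
      (integrable_mul_of_memLp (D'.memLp _ m1) (D'.memLp _ m1)).const_mul _
    refine ⟨c.derL1_dsc hm hs d1, c.integrable_dsc hm hs i1, ?_, ?_, fun φ Lφ hφ => ?_⟩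
    · filter_upwards [c.ae_sec hs (DS.G_nonneg (D'.W_of_mem m1))] with y hy
      have := hy.1
      have := hy.2
      simp only [dsc]
      positivity
    · filter_upwards [c.ae_sec hs (hb' τ hτ)] with y hy h3
      have a1 := hq _ (hy.1 (by rwa [hs]))
      have a2 := hq _ (hy.2 (by rwa [c.quot.π_Γ, hs]))
      simp only [dsc]
      constructor <;> linarith [a1.1, a1.2, a2.1, a2.2]
    · have t1 := c.tf_lift hφ
      have j1 := t1.lip.bdd.mul_integrable t1.lip.continuous.aestronglyMeasurable d1.2.1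
      have j2 := t1.lip.bdd.mul_integrable t1.lip.continuous.aestronglyMeasurable i1
      have j3 := t1.bddL.mul_integrable t1.lap.aesm i2
      rw [c.integral_mul_dsc hm hs hφ.lip.continuous.aestronglyMeasurable d1.2.1.1 j1,
        c.integral_mul_dsc hm hs hφ.lip.continuous.aestronglyMeasurable i1.1 j2,
        c.integral_mul_dsc hm hs hφ.lap.aesm i2.1 j3, ← integral_add j1 j2]
      have e := congrArg ((2 * M ^ 2)⁻¹ * ·) (c.e5_test m1 m3 (c.P_bdd hh bh τ) hφ)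
      simp only [← integral_const_mul] at e
      refine le_of_eq ((integral_congr_ae (Eventually.of_forall fun a => ?_)).trans
        (e.trans (integral_congr_ae (Eventually.of_forall fun a => ?_)))) <;> simp only <;> ring

theorem dec (x₀ : X) (R : ℝ) {β : ℝ} (hβ : 0 < β) : ∃ K γ r₀ : ℝ, 2 ≤ K ∧ 0 < γ ∧ γ < 1 ∧ 0 < r₀ ∧
    ∀ x ∈ ball x₀ R, ∀ ρ, 0 < ρ → ρ ≤ r₀ → (∀ r, 0 < r → r ≤ ρ → ¬c.Spl x r β) →
    ∀ h t M, MemLp h 2 μ' → IsOdd μ' Γ h → 0 < M → (∀ᵐ a ∂μ', |h a| ≤ M) → ρ ^ 2 < t →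
    ∀ j : ℕ, ∀ᵐ a ∂μ', π a ∈ ball x (ρ / K ^ j) → |D'.P t h a| ≤ γ ^ j * M := by
  obtain ⟨K, γ, r₀, hK, h0, h1, hr₀, H⟩ := c.con x₀ R hβ
  refine ⟨K, γ, r₀, hK, h0, h1, hr₀, fun x hx ρ hρ hρr hn h t M hh oh hM hb ht j => ?_⟩
  have hK0 : 0 < K := by linarith
  have hle : ∀ j : ℕ, ρ / K ^ j ≤ ρ := fun j => div_le_self hρ.le (one_le_pow₀ (by linarith))
  have key : ∀ (j : ℕ) (t : ℝ), ρ ^ 2 - (ρ / K ^ j) ^ 2 < t →
      ∀ᵐ a ∂μ', π a ∈ ball x (ρ / K ^ j) → |D'.P t h a| ≤ γ ^ j * M := by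
    intro j
    induction j with
    | zero => exact fun t _ => (c.P_abs_le hh hb t).mono fun a ha _ => by simpa using ha
    | succ j ih =>
      intro t ht
      have e : K * (ρ / K ^ (j + 1)) = ρ / K ^ j := by
        rw [pow_succ]
        field_simp
      have a0 : 0 < ρ / K ^ (j + 1) := by positivity
      have a1 : 4 * (ρ / K ^ (j + 1)) ^ 2 ≤ (ρ / K ^ j) ^ 2 := by
        rw [← e, mul_pow]
        exact mul_le_mul_of_nonneg_right (by nlinarith) (sq_nonneg _)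
      have a2 : (ρ / K ^ j) ^ 2 ≤ ρ ^ 2 := pow_le_pow_left₀ (by positivity) (hle j) 2
      have a3 := sq_nonneg (ρ / K ^ (j + 1))
      rw [pow_succ' γ, mul_assoc]
      refine H x hx _ a0 ((hle _).trans hρr) (hn _ a0 (hle _)) h t _ hh ⟨M, hb⟩ oh
        (by linarith) (by positivity) fun τ hτ => ?_
      rw [e]
      exact ih τ (by linarith [hτ.1])
  exact key j t (by linarith [sq_nonneg (ρ / K ^ j)])

end Env

end RC
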