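import Pool.Agent.P.MP_6472e5_gt.E1c

/-! The good set. -/

set_option autoImplicit false
set_option linter.unusedSectionVars false
set_option linter.unusedVariables false

noncomputable section

namespace RC

open MeasureTheory Set Filter Topology Metric

variable {X Y : Type} [MetricSpace X] [ProperSpace X] [MeasurableSpace X] [BorelSpace X]
  [MetricSpace Y] [ProperSpace Y] [MeasurableSpace Y] [BorelSpace Y] {μ : Measure X}
  {μ' : Measure Y} {D : DS μ} {D' : DS μ'} {Γ : Y → Y} {π : Y → X} {κ : ℝ} {m : ℕ}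

/-- Gluing an additive property of test functions along an open cover of the base. -/
theorem e2a_glue {Z : Type} [MetricSpace Z] [ProperSpace Z] [MeasurableSpace Z] [BorelSpace Z]
    {ν : Measure Z} {E : DS ν} {n : ℕ} (hp : HP D κ n) {p : Z → X} (hc : Continuous p)
    (lift : ∀ W ζ Lζ, D.TF W ζ Lζ → E.TF (p ⁻¹' W) (fun a => ζ (p a)) (fun a => Lζ (p a)))
    {Q : (Z → ℝ) → (Z → ℝ) → Prop}
    (add : ∀ φ Lφ ψ Lψ, E.TF univ φ Lφ → E.TF univ ψ Lψ → Q φ Lφ → Q ψ Lψ → Q (φ + ψ) (Lφ + Lψ))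
    (cong : ∀ φ L L', L =ᵐ[ν] L' → Q φ L → Q φ L') (zero : Q 0 0) {G : Set X}
    (hG : ∀ x ∈ G, ∃ W, IsOpen W ∧ x ∈ W ∧ ∀ φ Lφ, E.TF (p ⁻¹' W) φ Lφ → Q φ Lφ)
    {φ Lφ : Z → ℝ} (h : E.TF (p ⁻¹' G) φ Lφ) : Q φ Lφ := by
  have cpt : ∀ {ψ : Z → ℝ}, LipB ψ → IsCompact (p '' tsupport ψ) := fun hψ =>
    (Metric.isCompact_of_isClosed_isBounded (isClosed_tsupport _) hψ.2.closure).image hc
  have two : ∀ W₁ W₂ : Set X, IsOpen W₁ → IsOpen W₂ →
      (∀ φ Lφ, E.TF (p ⁻¹' W₁) φ Lφ → Q φ Lφ) → (∀ φ Lφ, E.TF (p ⁻¹' W₂) φ Lφ → Q φ Lφ) →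
      ∀ φ Lφ, E.TF (p ⁻¹' (W₁ ∪ W₂)) φ Lφ → Q φ Lφ := by
    intro W₁ W₂ o₁ o₂ h₁ h₂ φ Lφ hφ
    have hK : IsCompact (p '' tsupport φ \ W₂) := (cpt hφ.lip).diff o₂
    have hsub : p '' tsupport φ \ W₂ ⊆ W₁ := by
      rintro _ ⟨⟨a, ha, rfl⟩, h2⟩
      exact (hφ.supp ha).resolve_right h2
    obtain ⟨δ, hδ, hth⟩ := hK.exists_thickening_subset_open o₁ hsub
    obtain ⟨C, -, hC⟩ := hp.cut
    have hκ := hp.κ_nonneg
    have s0 : 0 < min (δ / 2) (1 / (κ + 1)) := lt_min (by positivity) (by positivity)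
    have s1 : min (δ / 2) (1 / (κ + 1)) ≤ δ / 2 := min_le_left _ _
    have s2 : min (δ / 2) (1 / (κ + 1)) ≤ 1 / (κ + 1) := min_le_right _ _
    generalize min (δ / 2) (1 / (κ + 1)) = s at s0 s1 s2
    have s3 : s * (κ + 1) ≤ 1 := (le_div_iff₀ (by positivity)).1 s2
    have s4 : κ * s ^ 2 ≤ 1 := by
      have a1 : κ * s ≤ 1 := by nlinarith
      have a2 : s ≤ 1 := by nlinarith
      have a3 : κ * s * s ≤ 1 * 1 := mul_le_mul a1 a2 s0.le zero_le_one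
      nlinarith
    obtain ⟨ζ, Lζ, -, tζ, le1, eq1, -⟩ := hC _ s hK.isBounded s0 s4
    have tζ' := lift _ _ _ tζ
    have hφ' : E.TF (tsupport φ) φ Lφ := ⟨hφ.lip, subset_rfl, hφ.nonneg, hφ.lap, hφ.bddL⟩
    obtain ⟨L, hL⟩ := tζ'.lip.1
    have t₁ := hφ'.mul tζ'.lap (fun _ _ => ⟨L, hL.lipschitzOnWith⟩) tζ'.nonneg tζ'.bddL.locBdd
    have t₂ := hφ'.mul ((DS.lap_const (D := E) 1).sub tζ'.lap)
      (fun _ _ => ⟨_, ((LipschitzWith.const 1).sub hL).lipschitzOnWith⟩)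
      (fun a => sub_nonneg.2 (le1 (p a))) ((Bdd.const 0).sub tζ'.bddL).locBdd
    have q₁ := h₁ _ _ (t₁.mono fun a ha =>
      hth (thickening_mono (by linarith) _ (tζ'.supp ha.2)))
    have q₂ := h₂ _ _ (t₂.mono fun a ha => by
      by_contra hn
      refine notMem_tsupport_iff_eventuallyEq.2 ?_ ha.2
      have hm : p a ∈ thickening s (p '' tsupport φ \ W₂) :=
        self_subset_thickening s0 _ ⟨mem_image_of_mem p ha.1, hn⟩
      filter_upwards [(isOpen_thickening.preimage hc).mem_nhds hm] with b hb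
      simp only [Pi.sub_apply, Pi.zero_apply, eq1 _ hb, sub_self])
    have q := add _ _ _ _ (t₁.mono (subset_univ _)) (t₂.mono (subset_univ _)) q₁ q₂
    have l := t₁.lap.add t₂.lap
    have e : (φ * fun a => ζ (p a)) + φ * ((fun _ => 1) - fun a => ζ (p a)) = φ := by
      funext a
      simp only [Pi.add_apply, Pi.mul_apply, Pi.sub_apply]
      ring
    rw [e] at q l
    exact cong _ _ _ (l.unique hφ.lap) q
  have key : ∃ W, IsOpen W ∧ p '' tsupport φ ⊆ W ∧ ∀ φ Lφ, E.TF (p ⁻¹' W) φ Lφ → Q φ Lφ := by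
    refine (cpt h.lip).induction_on
      (p := fun S => ∃ W, IsOpen W ∧ S ⊆ W ∧ ∀ φ Lφ, E.TF (p ⁻¹' W) φ Lφ → Q φ Lφ) ?_ ?_ ?_ ?_
    · refine ⟨∅, isOpen_empty, subset_rfl, fun ψ Lψ hψ => ?_⟩
      have e : tsupport ψ = ∅ := subset_empty_iff.1 hψ.supp
      have e0 : ψ = 0 := tsupport_eq_empty_iff.1 e
      have e1 := hψ.L_zero
      rw [e] at e1
      rw [e0]
      exact cong _ _ _ (e1.mono fun x hx => (hx (notMem_empty x)).symm) zero
    · rintro S T hST ⟨W, o, hW, hQ⟩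
      exact ⟨W, o, hST.trans hW, hQ⟩
    · rintro S T ⟨W₁, o₁, s₁, q₁⟩ ⟨W₂, o₂, s₂, q₂⟩
      exact ⟨W₁ ∪ W₂, o₁.union o₂, union_subset_union s₁ s₂, two W₁ W₂ o₁ o₂ q₁ q₂⟩
    · rintro _ ⟨a, ha, rfl⟩
      obtain ⟨W, o, hW, hQ⟩ := hG _ (h.supp ha)
      exact ⟨W, mem_nhdsWithin_of_mem_nhds (o.mem_nhds hW), W, o, subset_rfl, hQ⟩
  obtain ⟨W, -, hW, hQ⟩ := key
  exact hQ φ Lφ ⟨h.lip, fun a ha => hW (mem_image_of_mem p ha), h.nonneg, h.lap, h.bddL⟩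

theorem e2a_cont (h : IsQuot Γ π) : Continuous π :=
  (LipschitzWith.mk_one fun a b => (h.dist_eq a b).trans_le (min_le_left _ _)).continuous

namespace Env

variable (c : Env D D' Γ π κ m)

theorem P1.mono {c : Env D D' Γ π κ m} {W W' : Set X} (h : c.P1 W) (hW : W' ⊆ W) : c.P1 W' := by
  exact fun g t φ Lφ a b d e => h g t φ Lφ a b d (e.mono (preimage_mono hW))

theorem P2.mono {c : Env D D' Γ π κ m} {W W' : Set X} (h : c.P2 W) (hW : W' ⊆ W) : c.P2 W' := by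
  exact fun g t φ Lφ ε a b o d e f => h g t φ Lφ ε a b o d (e.mono hW) f

theorem isOpen_Gd : IsOpen c.Gd := by
  refine isOpen_iff_mem_nhds.2 ?_
  rintro x ⟨W, o, hx, h1, h2⟩
  exact mem_of_superset (o.mem_nhds hx) fun y hy => ⟨W, o, hy, h1, h2⟩

theorem p1_Gd : c.P1 c.Gd := by
  intro g t φ Lφ hg bg ht hφ
  obtain ⟨hu, hL, -⟩ := c.P_mem hg ht
  refine e2a_glue c.hp (e2a_cont c.quot) (fun W ζ Lζ h => c.toPreCov.tf_lift h)
    (Q := c.I1 (D'.P t g) (D'.L t g)) ?_ ?_ ?_ ?_ hφ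
  · intro φ Lφ ψ Lψ h h' q q'
    obtain ⟨-, i1, i2⟩ := c.I1_int hu hL h.lip.continuous.aestronglyMeasurable h.lip.bdd
      h.lap.aesm h.bddL
    obtain ⟨-, j1, j2⟩ := c.I1_int hu hL h'.lip.continuous.aestronglyMeasurable h'.lip.bdd
      h'.lap.aesm h'.bddL
    unfold I1 at q q' ⊢
    simp only [Pi.add_apply, add_mul]
    rw [integral_add i1 j1, integral_add i2 j2]
    linarith
  · intro φ L L' e q
    unfold I1 at q ⊢
    refine q.trans_eq ?_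
    congr 1
    exact integral_congr_ae (e.mono fun a ha => by simp only [ha])
  · simp [I1]
  · rintro x ⟨W, o, hx, h1, -⟩
    exact ⟨W, o, hx, fun φ Lφ h => h1 g t φ Lφ hg bg ht h⟩

theorem p2_Gd : c.P2 c.Gd := by
  intro g t φ Lφ ε hg bg og ht hφ hε
  obtain ⟨hu, hL, -⟩ := c.P_mem hg ht
  obtain ⟨i1, i2⟩ := c.I2_int hu hL hε
  refine e2a_glue c.hp continuous_id (fun W ζ Lζ h => h)
    (Q := fun φ Lφ => c.I2 (D'.P t g) (D'.L t g) φ Lφ ε) ?_ ?_ ?_ (G := c.Gd) ?_ hφ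
  · intro φ Lφ ψ Lψ h h' q q'
    have a := c.toPreCov.tf_lift h
    have a' := c.toPreCov.tf_lift h'
    unfold I2 at q q' ⊢
    simp only [Pi.add_apply, add_mul]
    rw [integral_add (a.lip.bdd.mul_integrable a.lip.continuous.aestronglyMeasurable i1)
        (a'.lip.bdd.mul_integrable a'.lip.continuous.aestronglyMeasurable i1),
      integral_add (a.bddL.mul_integrable a.lap.aesm i2) (a'.bddL.mul_integrable a'.lap.aesm i2)]
    exact add_le_add q q'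
  · intro φ L L' e q
    unfold I2 at q ⊢
    refine q.trans_eq ?_
    exact integral_congr_ae ((c.toPreCov.ae_lift e).mono fun a ha => by simp only [ha])
  · simp [I2]
  · rintro x ⟨W, o, hx, -, h2⟩
    exact ⟨W, o, hx, fun φ Lφ h => h2 g t φ Lφ ε hg bg og ht h hε⟩

end Env

end RC
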