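import Pool.Agent.P.MP_6472e5_gt.E3
import Pool.Agent.P.MP_6472e5_gt.E2a

/-! Removal of a small bad set. -/

set_option autoImplicit false
set_option linter.unusedSectionVars false
set_option linter.unusedVariables false

noncomputable section

namespace RC

open MeasureTheory Set Filter Topology Metric

variable {X Y : Type} [MetricSpace X] [ProperSpace X] [MeasurableSpace X] [BorelSpace X]
  [MetricSpace Y] [ProperSpace Y] [MeasurableSpace Y] [BorelSpace Y] {μ : Measure X}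
  {μ' : Measure Y} {D : DS μ} {D' : DS μ'} {Γ : Y → Y} {π : Y → X} {κ : ℝ} {m : ℕ}

/-- A function that vanishes near `S`, equals one off `N`, with bounds `L`. -/
structure E6Cut (D : DS μ) (S N : Set X) (L : ℝ) (g Lg : X → ℝ) : Prop where
  lap : D.Lap g Lg
  L0 : 0 ≤ L
  lip : ∀ x y, |g x - g y| ≤ L * dist x y
  mem : ∀ x, 0 ≤ g x ∧ g x ≤ 1
  supp : tsupport g ⊆ Sᶜ
  one : ∀ x, x ∉ N → g x = 1
  bd : ∀ x, |Lg x| ≤ L
  zero : ∀ᵐ x ∂μ, x ∉ N → Lg x = 0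

theorem e6_cut {n : ℕ} (h : HP D κ n) : ∃ C, 0 < C ∧ ∀ (S N : Set X) (s : ℝ),
    Bornology.IsBounded S → 0 < s → s ≤ 1 → κ * s ^ 2 ≤ 1 → thickening (2 * s) S ⊆ N →
    ∃ g Lg, E6Cut D S N (C / s ^ 2) g Lg := by
  obtain ⟨C, hC, hcut⟩ := h.cut
  refine ⟨C, hC, fun S N s hS hs hs1 hκ hN => ?_⟩
  obtain ⟨ζ, Lζ, -, tf, z1, z2, z3, z4⟩ := hcut S s hS hs hκ
  refine ⟨(fun _ => 1) - ζ, 0 - Lζ, (DS.lap_const 1).sub tf.lap, by positivity, fun x y => ?_,
    fun x => ?_, ?_, fun x hx => ?_, fun x => ?_, ?_⟩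
  · simp only [Pi.sub_apply, sub_sub_sub_cancel_left]
    rw [abs_sub_comm]
    refine (z3 x y).trans (mul_le_mul_of_nonneg_right ?_ dist_nonneg)
    exact div_le_div_of_nonneg_left hC.le (by positivity) (by nlinarith)
  · simp only [Pi.sub_apply]
    constructor <;> linarith [z1 x, tf.nonneg x]
  · refine (closure_minimal (t := (thickening s S)ᶜ)
      (fun x hx hxs => Function.mem_support.1 hx ?_) isOpen_thickening.isClosed_compl).trans
      (compl_subset_compl.2 (self_subset_thickening hs S))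
    simp [z2 x hxs]
  · simp [image_eq_zero_of_notMem_tsupport fun h' => hx (hN (tf.supp h'))]
  · simpa using z4 x
  · filter_upwards [tf.L_zero] with x hx hxN
    simp [hx fun h' => hxN (hN (tf.supp h'))]

theorem E6Cut.lift (c : PreCov D D' Γ π) {S N : Set X} {L : ℝ} {g Lg : X → ℝ}
    (h : E6Cut D S N L g Lg) :
    E6Cut D' (π ⁻¹' S) (π ⁻¹' N) L (fun a => g (π a)) (fun a => Lg (π a)) :=
  ⟨c.lap_lift h.lap, h.L0,
    fun a b => (h.lip _ _).trans (mul_le_mul_of_nonneg_left (c.quot.dist_le a b) h.L0),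
    fun _ => h.mem _, fun _ ha => h.supp (c.tsupport_lift g ha), fun _ ha => h.one _ ha,
    fun _ => h.bd _, c.ae_lift h.zero⟩

theorem e6_err {U : Set X} {φ Lφ : X → ℝ} (hφ : D.TF U φ Lφ) : ∃ K, 0 ≤ K ∧
    ∀ (S N : Set X) (L : ℝ) (g Lg : X → ℝ), E6Cut D S N L g Lg →
      D.TF (U \ S) (φ * g) (fun x => φ x * Lg x + g x * Lφ x + 2 * D.G φ g x) ∧
      AEStronglyMeasurable (fun x => φ x * Lg x + 2 * D.G φ g x) μ ∧
      ∀ᵐ x ∂μ, |φ x * Lg x + 2 * D.G φ g x| ≤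
        indicator (N ∩ tsupport φ) (fun _ => K * L) x := by
  obtain ⟨K₁, hK₁⟩ := hφ.lip.bound
  obtain ⟨K₂, hK₂⟩ := hφ.lip.bddG (D := D)
  refine ⟨|K₁| + 2 * √K₂, by positivity, fun S N L g Lg h => ⟨?_, ?_, ?_⟩⟩
  · refine (hφ.mul h.lap (fun x r => ⟨⟨L, h.L0⟩, LipschitzOnWith.of_dist_le_mul
      fun y _ z _ => h.lip y z⟩) (fun x => (h.mem x).1)
      (Bdd.locBdd ⟨L, Eventually.of_forall h.bd⟩)).mono ?_
    exact inter_subset_inter_right _ h.supp
  · exact (hφ.lip.continuous.aestronglyMeasurable.mul h.lap.aesm).add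
      ((DS.G_aesm hφ.lap.1 h.lap.1).const_mul 2)
  · filter_upwards [hK₂, h.zero, DS.G_abs_le hφ.lap.1 h.lap.1, DS.G_level hφ.lap.1 h.lap.1 0,
      DS.ca5_level hφ.lap.1 h.lap.1 1, DS.G_le_lip h.lap.1 isOpen_univ
        (fun x _ y _ => h.lip x y) h.L0 (Eventually.of_forall fun _ _ => rfl)]
      with x e1 e2 e3 e4 e5 e6
    by_cases hx : x ∈ N ∩ tsupport φ
    · rw [indicator_of_mem hx]
      have a1 : |φ x * Lg x| ≤ |K₁| * L := by
        rw [abs_mul]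
        exact mul_le_mul ((hK₁ x).trans (le_abs_self _)) (h.bd x) (abs_nonneg _) (abs_nonneg _)
      have a2 : |D.G φ g x| ≤ √K₂ * L :=
        e3.trans (mul_le_mul (Real.sqrt_le_sqrt ((le_abs_self _).trans e1))
          (Real.sqrt_le_iff.2 ⟨h.L0, e6 (mem_univ _)⟩) (Real.sqrt_nonneg _) (Real.sqrt_nonneg _))
      have a3 := abs_add_le (φ x * Lg x) (2 * D.G φ g x)
      rw [abs_mul 2, abs_two] at a3
      linarith
    · rw [indicator_of_notMem hx]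
      rcases not_and_or.1 hx with hN | hZ
      · simp [e2 hN, e5 (h.one x hN)]
      · have h0 := image_eq_zero_of_notMem_tsupport hZ
        simp [h0, e4 h0]

theorem e6_step {a b B g E : Y → ℝ} {N Z : Set Y} {K : ℝ} (mN : MeasurableSet N)
    (mZ : MeasurableSet Z) (ia : Integrable a μ') (ib : Integrable b μ') (iB : Integrable B μ')
    (B0 : ∀ᵐ y ∂μ', 0 ≤ B y) (mg : AEStronglyMeasurable g μ') (hg : ∀ y, 0 ≤ g y ∧ g y ≤ 1)
    (g1 : ∀ y, y ∉ N → g y = 1) (mE : AEStronglyMeasurable E μ')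
    (hE : ∀ᵐ y ∂μ', |E y| ≤ indicator (N ∩ Z) (fun _ => K) y)
    (h : ∫ y, g y * a y ∂μ' ≤ ∫ y, (E y * B y + g y * b y) ∂μ') :
    ∫ y, a y ∂μ' ≤ ∫ y, b y ∂μ' + (∫ y in N, |a y| ∂μ' + ∫ y in N, |b y| ∂μ' +
      K * ∫ y in N ∩ Z, B y ∂μ') := by
  have bg : Bdd μ' g := ⟨1, Eventually.of_forall fun y =>
    abs_le.2 ⟨by linarith [(hg y).1], (hg y).2⟩⟩
  have bE : Bdd μ' E := ⟨|K|, hE.mono fun y hy => hy.trans (by
    by_cases hy' : y ∈ N ∩ Z <;> simp [hy', le_abs_self])⟩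
  have key : ∀ u : Y → ℝ, ∀ y, |u y - g y * u y| ≤ indicator N (fun y => |u y|) y := by
    intro u y
    by_cases hy : y ∈ N
    · rw [indicator_of_mem hy, ← one_sub_mul, abs_mul, abs_of_nonneg (sub_nonneg.2 (hg y).2)]
      exact mul_le_of_le_one_left (abs_nonneg _) (by linarith [(hg y).1])
    · simp [g1 y hy, hy]
  have h1 : ∫ y, a y ∂μ' ≤ ∫ y, g y * a y ∂μ' + ∫ y in N, |a y| ∂μ' := by
    rw [← integral_indicator mN, ← integral_add (bg.mul_integrable mg ia) (ia.abs.indicator mN)]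
    refine integral_mono ia ((bg.mul_integrable mg ia).add (ia.abs.indicator mN)) fun y => ?_
    have := (abs_le.1 (key a y)).2
    dsimp only
    linarith
  have h2 : ∫ y, g y * b y ∂μ' ≤ ∫ y, b y ∂μ' + ∫ y in N, |b y| ∂μ' := by
    rw [← integral_indicator mN, ← integral_add ib (ib.abs.indicator mN)]
    refine integral_mono (bg.mul_integrable mg ib) (ib.add (ib.abs.indicator mN)) fun y => ?_
    have := (abs_le.1 (key b y)).1
    dsimp only
    linarith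
  have h3 : ∫ y, E y * B y ∂μ' ≤ K * ∫ y in N ∩ Z, B y ∂μ' := by
    rw [← integral_indicator (mN.inter mZ), ← integral_const_mul]
    refine integral_mono_ae (bE.mul_integrable mE iB)
      ((iB.indicator (mN.inter mZ)).const_mul K) ?_
    filter_upwards [hE, B0] with y e1 e2
    refine (mul_le_mul_of_nonneg_right ((le_abs_self _).trans e1) e2).trans (le_of_eq ?_)
    by_cases hy : y ∈ N ∩ Z <;> simp [hy]
  rw [integral_add (bE.mul_integrable mE iB) (bg.mul_integrable mg ib)] at h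
  linarith

theorem e6_sum {ι : Type} (T : Finset ι) (S : ι → Set Y) {B : Y → ℝ} (iB : Integrable B μ')
    (B0 : ∀ᵐ y ∂μ', 0 ≤ B y) :
    ∫ y in ⋃ b ∈ T, S b, B y ∂μ' ≤ ∑ b ∈ T, ∫ y in S b, B y ∂μ' := by
  classical
  induction T using Finset.induction_on with
  | empty => simp
  | insert b T hb ih =>
    rw [Finset.sum_insert hb, Finset.set_biUnion_insert]
    refine le_trans ?_ (add_le_add le_rfl ih)
    rw [← integral_add_measure iB.integrableOn iB.integrableOn]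
    refine integral_mono_measure (Measure.restrict_union_le _ _) ?_
      (Integrable.add_measure iB.integrableOn iB.integrableOn)
    exact ae_add_measure_iff.2 ⟨ae_restrict_of_ae B0, ae_restrict_of_ae B0⟩

theorem e6_cacc (c : PreCov D D' Γ π) {u Lu B : Y → ℝ} (hu : u ∈ D'.V) (hL : Lu ∈ D'.V)
    (lap : D'.Lap u Lu) (hB : ∀ᵐ a ∂μ', 0 ≤ B a ∧ B a ^ 2 ≤ D'.G u u a) {b : X} {s M K : ℝ}
    (hs : 0 < s) (hs1 : s ≤ 1) (hM : 0 ≤ M) (hK : 0 ≤ K)
    (h1 : ∀ᵐ a ∂μ', π a ∈ ball b (4 * s) → |u a| ≤ M ∧ |Lu a| ≤ K) :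
    ∫ a in π ⁻¹' ball b (3 * s), B a ∂μ' ≤
      μ'.real (π ⁻¹' ball b (4 * s)) * (3 * M / s + 1 + K) := by
  obtain ⟨χ, x1, x2, x3, x4, x5⟩ := exists_cutoff_ball b (show 3 * s < 4 * s by linarith)
  have l1 := c.lipB_lift x1
  have w1 : D'.W fun a => χ (π a) := DS.ca5_W l1
  have wu := D'.W_of_mem hu
  have m3 : MeasurableSet (π ⁻¹' ball b (3 * s)) := c.meas_π measurableSet_ball
  have m4 : MeasurableSet (π ⁻¹' ball b (4 * s)) := c.meas_π measurableSet_ball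
  have f4 : μ' (π ⁻¹' ball b (4 * s)) ≠ ⊤ :=
    (D'.fin_bdd (c.quot.bounded_preimage isBounded_ball)).ne
  have ic : ∀ k : ℝ, Integrable (indicator (π ⁻¹' ball b (4 * s)) fun _ => k) μ' := fun k =>
    (integrable_indicator_iff m4).2 (integrableOn_const f4)
  have ic' : ∀ k : ℝ, μ'.real (π ⁻¹' ball b (4 * s)) * k =
      ∫ a, indicator (π ⁻¹' ball b (4 * s)) (fun _ => k) a ∂μ' := fun k =>
    (integral_indicator_const k m4).symm
  have li : LocInt μ' fun a => u a * Lu a :=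
    locInt_of_int (integrable_mul_of_memLp (D'.memLp _ hu) (D'.memLp _ hL))
  have e1 := lap.cacc l1 li
  have i1 := DS.ca5_int1 wu l1
  have i2 := DS.ca5_int2 li l1
  have i3 := DS.ca5_int2 (DS.G_locInt wu wu) l1
  have hlip : ∀ a ∈ (univ : Set Y), ∀ a' ∈ (univ : Set Y),
      |χ (π a) - χ (π a')| ≤ 1 / s * dist a a' := by
    intro a _ a' _
    refine (x5 _ _).trans ?_
    rw [show 4 * s - 3 * s = s by ring, one_div_mul_eq_div]
    exact div_le_div_of_nonneg_right (c.quot.dist_le a a') hs.le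
  have e2 : 4 * ∫ a, u a ^ 2 * D'.G (fun a => χ (π a)) (fun a => χ (π a)) a ∂μ' -
      2 * ∫ a, χ (π a) ^ 2 * (u a * Lu a) ∂μ' ≤
      μ'.real (π ⁻¹' ball b (4 * s)) * (4 * (M ^ 2 * (1 / s) ^ 2) + 2 * (M * K)) := by
    rw [← integral_const_mul, ← integral_const_mul, ← integral_sub (i1.const_mul 4)
      (i2.const_mul 2), ic']
    refine integral_mono_ae ((i1.const_mul 4).sub (i2.const_mul 2)) (ic _) ?_
    filter_upwards [h1, DS.G_level w1 w1 0, DS.G_nonneg w1, DS.G_le_lip w1 isOpen_univ hlip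
      (by positivity) (Eventually.of_forall fun _ _ => rfl)] with a k1 k2 k3 k4
    by_cases ha : π a ∈ ball b (4 * s)
    · rw [indicator_of_mem (show a ∈ π ⁻¹' ball b (4 * s) from ha)]
      obtain ⟨k5, k6⟩ := k1 ha
      have k7 : u a ^ 2 ≤ M ^ 2 := by rw [← sq_abs]; exact pow_le_pow_left₀ (abs_nonneg _) k5 2
      have k8 := mul_le_mul k7 (k4 (mem_univ _)) k3 (by positivity)
      have k9 : |χ (π a) ^ 2 * (u a * Lu a)| ≤ M * K := by
        rw [abs_mul, abs_mul, abs_of_nonneg (sq_nonneg _)]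
        exact (mul_le_of_le_one_left (by positivity) (pow_le_one₀ (x2 _).1 (x2 _).2)).trans
          (mul_le_mul k5 k6 (abs_nonneg _) hM)
      linarith [(abs_le.1 k9).1]
    · rw [indicator_of_notMem (show a ∉ π ⁻¹' ball b (4 * s) from ha), k2 (x4 _ ha), x4 _ ha]
      simp
  have hl : 0 < M / s + 1 := by positivity
  have e3 : ∫ a in π ⁻¹' ball b (3 * s), B a ∂μ' ≤
      μ'.real (π ⁻¹' ball b (4 * s)) * ((M / s + 1) / 2) +
        1 / (2 * (M / s + 1)) * ∫ a, χ (π a) ^ 2 * D'.G u u a ∂μ' := by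
    rw [← integral_indicator m3, ic', ← integral_const_mul,
      ← integral_add (ic _) (i3.const_mul _)]
    refine integral_mono_of_nonneg ?_ ((ic _).add (i3.const_mul _)) ?_
    · filter_upwards [hB] with a ha
      exact indicator_apply_nonneg fun _ => ha.1
    · filter_upwards [hB] with a ha
      have k0 : 0 ≤ D'.G u u a := (sq_nonneg _).trans ha.2
      by_cases h3 : π a ∈ ball b (3 * s)
      · rw [indicator_of_mem (show a ∈ π ⁻¹' ball b (3 * s) from h3),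
          indicator_of_mem (show a ∈ π ⁻¹' ball b (4 * s) from
            ball_subset_ball (by linarith) h3), x3 _ (ball_subset_closedBall h3), one_pow,
          one_mul, one_div_mul_eq_div, ← sub_le_iff_le_add', le_div_iff₀ (by positivity)]
        nlinarith [sq_nonneg (B a - (M / s + 1)), ha.2]
      · rw [indicator_of_notMem (show a ∉ π ⁻¹' ball b (3 * s) from h3)]
        exact add_nonneg (indicator_apply_nonneg fun _ => by positivity) (by positivity)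
  have e4 : 1 / (2 * (M / s + 1)) * (4 * (M ^ 2 * (1 / s) ^ 2) + 2 * (M * K)) ≤
      2 * (M / s) + K := by
    rw [one_div_mul_eq_div, div_le_iff₀ (by positivity), ← mul_pow, mul_one_div]
    have k1 : M ≤ M / s := le_div_self hM hs hs1
    have k2 : 0 ≤ M / s := by positivity
    nlinarith [mul_le_mul_of_nonneg_right k1 hK]
  have e5 := mul_le_mul_of_nonneg_left (e1.trans e2)
    (show 0 ≤ 1 / (2 * (M / s + 1)) by positivity)
  have e6 := mul_le_mul_of_nonneg_left e4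
    (measureReal_nonneg (μ := μ') (s := π ⁻¹' ball b (4 * s)))
  have e7 : 0 ≤ μ'.real (π ⁻¹' ball b (4 * s)) * (M / s + 1) := by positivity
  rw [mul_left_comm] at e5
  rw [mul_div_assoc]
  linarith

namespace Env

variable (c : Env D D' Γ π κ m)

include c in
theorem e6_vol {x₁ : X} {r₁ : ℝ} {s : ℕ → ℝ} {T : ℕ → Finset X} (hs : ∀ j, 0 < s j)
    (h0 : Tendsto s atTop (𝓝 0)) (hT : ∀ j, ∀ b ∈ T j, b ∈ ball x₁ r₁)
    (h1 : Tendsto (fun j => ((T j).card : ℝ) * (s j ^ (m + 2) / s j ^ 2)) atTop (𝓝 0)) :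
    Tendsto (fun j => μ'.real (π ⁻¹' ⋃ b ∈ T j, ball b (3 * s j)) / s j ^ 2) atTop (𝓝 0) := by
  obtain ⟨c₁, C, r₀, -, hC, hr₀, -, -, hv, -⟩ := c.vol' x₁ r₁
  have h2 := h1.const_mul (C * 3 ^ (m + 2))
  rw [mul_zero] at h2
  refine squeeze_zero' (Eventually.of_forall fun j => by positivity) ?_ h2
  filter_upwards [h0.eventually (gt_mem_nhds (show 0 < r₀ / 3 by positivity))] with j hj
  have h3 : μ'.real (π ⁻¹' ⋃ b ∈ T j, ball b (3 * s j)) ≤
      (T j).card * (C * (3 * s j) ^ (m + 2)) := by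
    rw [preimage_iUnion₂, ← nsmul_eq_mul]
    exact (measureReal_biUnion_finset_le _ _).trans (Finset.sum_le_card_nsmul _ _ _ fun b hb =>
      (hv b (hT j b hb) _ (by linarith [hs j]) (by linarith)).2)
  refine (div_le_div_of_nonneg_right h3 (sq_nonneg _)).trans (le_of_eq ?_)
  rw [mul_pow]
  ring

theorem e6_main {x₁ : X} {r₁ : ℝ} {s : ℕ → ℝ} {T : ℕ → Finset X} (hs : ∀ j, 0 < s j)
    (h0 : Tendsto s atTop (𝓝 0)) (hT : ∀ j, ∀ b ∈ T j, b ∈ ball x₁ r₁)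
    (hcov : ∀ j, c.Gdᶜ ∩ ball x₁ r₁ ⊆ ⋃ b ∈ T j, ball b (s j))
    (h1 : Tendsto (fun j => ((T j).card : ℝ) * (s j ^ (m + 2) / s j ^ 2)) atTop (𝓝 0))
    {a b B : Y → ℝ} {Z : Set Y} {K : ℝ} (mZ : MeasurableSet Z) (ia : Integrable a μ')
    (ib : Integrable b μ') (iB : Integrable B μ') (B0 : ∀ᵐ y ∂μ', 0 ≤ B y)
    (hstep : ∀ N L g Lg, E6Cut D (c.Gdᶜ ∩ ball x₁ r₁) N L g Lg → ∃ E : Y → ℝ,
      AEStronglyMeasurable E μ' ∧
      (∀ᵐ y ∂μ', |E y| ≤ indicator (π ⁻¹' N ∩ Z) (fun _ => K * L) y) ∧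
      ∫ y, g (π y) * a y ∂μ' ≤ ∫ y, (E y * B y + g (π y) * b y) ∂μ')
    (hlim : Tendsto (fun j => (∫ y in (π ⁻¹' ⋃ b ∈ T j, ball b (3 * s j)) ∩ Z, B y ∂μ') /
      s j ^ 2) atTop (𝓝 0)) : ∫ y, a y ∂μ' ≤ ∫ y, b y ∂μ' := by
  obtain ⟨C, hC, hcut⟩ := e6_cut c.hp
  obtain ⟨r₀, hr₀, hr₁, hκ⟩ := c.hp.exists_scale
  have hsm := h0.eventually (gt_mem_nhds hr₀)
  have hN : Tendsto (μ' ∘ fun j => π ⁻¹' ⋃ b ∈ T j, ball b (3 * s j)) atTop (𝓝 0) := by
    refine (ENNReal.tendsto_toReal_zero_iff fun j => (D'.fin_bdd (c.quot.bounded_preimage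
      ((Bornology.isBounded_biUnion_finset _).2 fun _ _ => isBounded_ball))).ne).1 ?_
    refine squeeze_zero' (Eventually.of_forall fun j => ENNReal.toReal_nonneg) ?_
      (c.e6_vol hs h0 hT h1)
    filter_upwards [hsm] with j hj
    exact le_div_self measureReal_nonneg (pow_pos (hs j) 2)
      (pow_le_one₀ (hs j).le (by linarith))
  have hl := (((ia.abs.tendsto_setIntegral_nhds_zero hN).add
    (ib.abs.tendsto_setIntegral_nhds_zero hN)).add (hlim.const_mul (K * C))).const_add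
    (∫ y, b y ∂μ')
  simp only [mul_zero, add_zero] at hl
  refine ge_of_tendsto hl ?_
  filter_upwards [hsm] with j hj
  have hth : thickening (2 * s j) (c.Gdᶜ ∩ ball x₁ r₁) ⊆ ⋃ b ∈ T j, ball b (3 * s j) := by
    intro x hx
    obtain ⟨z, hz, hxz⟩ := mem_thickening_iff.1 hx
    obtain ⟨b, hb, hzb⟩ := mem_iUnion₂.1 (hcov j hz)
    refine mem_iUnion₂.2 ⟨b, hb, mem_ball.2 ?_⟩
    linarith [dist_triangle x z b, mem_ball.1 hzb]
  obtain ⟨g, Lg, hg⟩ := hcut _ _ (s j) (isBounded_ball.subset inter_subset_right) (hs j)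
    (by linarith) (hκ _ (hs j).le hj.le) hth
  obtain ⟨E, e1, e2, e3⟩ := hstep _ _ g Lg hg
  have mN : MeasurableSet (π ⁻¹' ⋃ b ∈ T j, ball b (3 * s j)) :=
    c.meas_π (isOpen_biUnion fun _ _ => isOpen_ball).measurableSet
  refine (e6_step mN mZ ia ib iB B0 (c.aesm_lift hg.lap.1.aesm) (fun y => hg.mem _)
    (fun y hy => hg.one _ hy) e1 e2 e3).trans (le_of_eq ?_)
  ring

theorem e6_sub (x₁ : X) (r₁ : ℝ) : ball x₁ r₁ \ (c.Gdᶜ ∩ ball x₁ r₁) ⊆ c.Gd :=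
  fun _ hx => by_contra fun h => hx.2 ⟨h, hx.1⟩

/-- The gradient of the flow is bounded over smaller balls. -/
theorem e6_G_bdd {x₁ : X} {r₁ r' : ℝ} (hr : r' < r₁) (h2 : c.P2 (ball x₁ r₁)) {h : Y → ℝ}
    (hh : MemLp h 2 μ') (hb : Bdd μ' h) {t : ℝ} (ht : 0 < t) : ∃ K, 0 ≤ K ∧
    ∀ᵐ a ∂μ', π a ∈ ball x₁ r' → D'.G (D'.P t h) (D'.P t h) a ≤ K := by
  obtain ⟨f, k, f2, ⟨Mf, fb⟩, k2, kb, ko, hfk⟩ := c.split hh hb
  obtain ⟨C, r₀, hC, hr₀, hlg⟩ := c.lg2 x₁ r₁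
  obtain ⟨M, hM⟩ := id kb
  have hst := Real.sqrt_pos.2 ht
  obtain ⟨r, r0, r1, r2, r3⟩ : ∃ r, 0 < r ∧ r ≤ r₀ ∧ r ≤ r₁ - r' ∧ r ^ 2 < t := by
    refine ⟨min (min r₀ (r₁ - r')) (√t / 2), by positivity,
      (min_le_left _ _).trans (min_le_left _ _), (min_le_left _ _).trans (min_le_right _ _), ?_⟩
    refine (pow_le_pow_left₀ (by positivity) (min_le_right _ _) 2).trans_lt ?_
    rw [div_pow, Real.sq_sqrt ht.le]
    linarith
  have e1 : ∀ᵐ a ∂μ', a ∈ π ⁻¹' ball x₁ r' →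
      D'.G (D'.P t k) (D'.P t k) a ≤ C * M ^ 2 / r ^ 2 := by
    refine D'.ae_of_local fun a ha => ⟨r / 4, by positivity, ?_⟩
    have k1 := hlg (π a) (ball_subset_ball hr.le ha) r r0 r1
      (h2.mono (ball_subset_ball' (by linarith [mem_ball.1 ha]))) k t M k2 kb ko r3
      fun τ _ => (c.P_abs_le k2 hM τ).mono fun _ h' _ => h'
    filter_upwards [k1] with y hy hya
    exact hy ((c.quot.dist_le y a).trans_lt hya)
  have wf : D.W (D.P t f) := D.W_of_mem ((c.hp.flow.heat f f2).1 t ht).1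
  have w1 := c.W_lift wf
  have w2 := D'.W_of_mem (c.P_mem k2 ht).1
  have wu := D'.W_of_mem (c.P_mem hh ht).1
  have he : D'.P t h =ᵐ[μ'] (fun a => D.P t f (π a)) + D'.P t k := hfk t ht
  refine ⟨2 * (Real.exp (2 * κ * t) * Mf ^ 2 / (2 * t)) + 2 * (C * M ^ 2 / r ^ 2),
    by positivity, ?_⟩
  filter_upwards [e1, DS.G_congr wu wu he he, DS.G_add_add w1 w2, DS.G_sub_sub w1 w2,
    DS.G_nonneg (w1.sub w2), c.G_lift wf wf, c.ae_lift (c.hp.G_le f t Mf f2 fb ht)]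
    with a k1 k2 k3 k4 k5 k6 k7 ha
  have k8 := k1 ha
  linarith

theorem rem2 {x₁ : X} {r₁ : ℝ} (hr : 0 < r₁) {s : ℕ → ℝ} {T : ℕ → Finset X} (hs : ∀ j, 0 < s j)
    (h0 : Tendsto s atTop (𝓝 0)) (hT : ∀ j, ∀ b ∈ T j, b ∈ ball x₁ r₁)
    (hcov : ∀ j, c.Gdᶜ ∩ ball x₁ r₁ ⊆ ⋃ b ∈ T j, ball b (s j))
    (h1 : Tendsto (fun j => ((T j).card : ℝ) * (s j ^ (m + 2) / s j ^ 2)) atTop (𝓝 0))
    (h2 : ∀ h t, MemLp h 2 μ' → Bdd μ' h → IsOdd μ' Γ h → 0 < t → ∃ M : ℕ → ℝ, (∀ j, 0 ≤ M j) ∧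
      (∀ᶠ j in atTop, ∀ b ∈ T j, ∀ᵐ a ∂μ', π a ∈ ball b (4 * s j) → |D'.P t h a| ≤ M j) ∧
      Tendsto (fun j => ((T j).card : ℝ) * (s j ^ (m + 2) / s j ^ 3) * M j) atTop (𝓝 0)) :
    c.P2 (ball x₁ r₁) := by
  intro h t φ Lφ ε hh hb ho ht hφ hε
  obtain ⟨hu, hL, lap⟩ := c.P_mem hh ht
  obtain ⟨iA, iB⟩ := c.I2_int hu hL hε
  obtain ⟨K, hK0, hK⟩ := e6_err hφ
  obtain ⟨M, M0, hM, hMl⟩ := h2 h t hh hb ho ht
  have hB : ∀ᵐ a ∂μ', 0 ≤ √(D'.G (D'.P t h) (D'.P t h) a + ε ^ 2) - ε ∧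
      (√(D'.G (D'.P t h) (D'.P t h) a + ε ^ 2) - ε) ^ 2 ≤ D'.G (D'.P t h) (D'.P t h) a := by
    filter_upwards [DS.G_nonneg (D'.W_of_mem hu)] with a ha
    have k1 : ε ≤ √(D'.G (D'.P t h) (D'.P t h) a + ε ^ 2) :=
      Real.le_sqrt_of_sq_le (by linarith)
    have k2 := Real.sq_sqrt (show 0 ≤ D'.G (D'.P t h) (D'.P t h) a + ε ^ 2 by positivity)
    exact ⟨by linarith, by nlinarith⟩
  have B0 := hB.mono fun a ha => ha.1
  refine c.e6_main hs h0 hT hcov h1 (Z := π ⁻¹' tsupport φ) (K := K)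
    (c.meas_π (isClosed_tsupport φ).measurableSet)
    ((c.bdd_lift hφ.lip.bdd).mul_integrable
      (c.aesm_lift hφ.lip.continuous.aestronglyMeasurable) iA)
    ((c.bdd_lift hφ.bddL).mul_integrable (c.aesm_lift hφ.lap.aesm) iB) iB B0
    (fun N L g Lg hg => ?_) ?_
  · obtain ⟨k1, k2, k3⟩ := hK _ _ _ _ _ hg
    refine ⟨fun y => φ (π y) * Lg (π y) + 2 * D.G φ g (π y), c.aesm_lift k2, c.ae_lift k3, ?_⟩
    have k4 := c.p2_Gd h t _ _ ε hh hb ho ht (k1.mono (c.e6_sub x₁ r₁)) hε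
    refine (le_of_eq ?_).trans (k4.trans (le_of_eq ?_)) <;>
      refine integral_congr_ae (Eventually.of_forall fun y => ?_)
    · simp only [Pi.mul_apply]
      ring
    · ring
  obtain ⟨c₁, C, r₀, -, hC, hr₀, hr₁, -, hv, -⟩ := c.vol' x₁ r₁
  obtain ⟨y₀, -⟩ := c.quot.surj x₁
  obtain ⟨R, hR⟩ := (c.quot.bounded_preimage
    (isBounded_ball (x := x₁) (r := r₁ + 1))).subset_ball y₀
  obtain ⟨K', hK'⟩ := (c.P_locBdd hh ht).2 y₀ R
  have hl := ((hMl.const_mul 3).add (h1.const_mul (1 + |K'|))).const_mul (C * 4 ^ (m + 2))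
  simp only [mul_zero, add_zero] at hl
  refine squeeze_zero' (Eventually.of_forall fun j =>
    div_nonneg (setIntegral_nonneg_of_ae B0) (sq_nonneg _)) ?_ hl
  filter_upwards [hM, h0.eventually (gt_mem_nhds (show 0 < r₀ / 4 by positivity))] with j k1 k2
  have sj := hs j
  have k3 : ∀ b ∈ T j, ∫ a in π ⁻¹' ball b (3 * s j),
      (√(D'.G (D'.P t h) (D'.P t h) a + ε ^ 2) - ε) ∂μ' ≤
      C * (4 * s j) ^ (m + 2) * (3 * M j / s j + 1 + |K'|) := by
    intro b hb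
    refine (e6_cacc c.toPreCov hu hL lap hB sj (by linarith) (M0 j) (abs_nonneg K') ?_).trans
      (mul_le_mul_of_nonneg_right (hv b (hT j b hb) _ (by linarith) (by linarith)).2 ?_)
    · filter_upwards [k1 b hb, hK'] with a e1 e2 ha
      refine ⟨e1 ha, (e2 (hR (ball_subset_ball' ?_ ha))).trans (le_abs_self _)⟩
      linarith [mem_ball.1 (hT j b hb)]
    · have := M0 j
      positivity
  have k4 := (setIntegral_mono_set iB.integrableOn (ae_restrict_of_ae B0)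
    (inter_subset_left (s := π ⁻¹' ⋃ b ∈ T j, ball b (3 * s j))
      (t := π ⁻¹' tsupport φ)).eventuallyLE)
  refine (div_le_div_of_nonneg_right (k4.trans ?_) (sq_nonneg _)).trans
    (le_of_eq (?_ : (T j).card * (C * (4 * s j) ^ (m + 2) * (3 * M j / s j + 1 + |K'|)) /
      s j ^ 2 = _))
  · rw [preimage_iUnion₂, ← nsmul_eq_mul]
    exact (e6_sum _ _ iB B0).trans (Finset.sum_le_card_nsmul _ _ _ k3)
  · rw [mul_pow]
    field_simp
    ring

theorem rem1 {x₁ : X} {r₁ : ℝ} (hr : 0 < r₁) {s : ℕ → ℝ} {T : ℕ → Finset X} (hs : ∀ j, 0 < s j)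
    (h0 : Tendsto s atTop (𝓝 0)) (hT : ∀ j, ∀ b ∈ T j, b ∈ ball x₁ r₁)
    (hcov : ∀ j, c.Gdᶜ ∩ ball x₁ r₁ ⊆ ⋃ b ∈ T j, ball b (s j))
    (h1 : Tendsto (fun j => ((T j).card : ℝ) * (s j ^ (m + 2) / s j ^ 2)) atTop (𝓝 0))
    (h2 : c.P2 (ball x₁ r₁)) : c.P1 (ball x₁ r₁) := by
  intro h t φ Lφ hh hb ht hφ
  obtain ⟨hu, hL, lap⟩ := c.P_mem hh ht
  obtain ⟨-, ia, ib⟩ := c.I1_int hu hL hφ.lip.continuous.aestronglyMeasurable hφ.lip.bdd
    hφ.lap.aesm hφ.bddL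
  obtain ⟨K, hK0, hK⟩ := e6_err hφ
  obtain ⟨r', hr', hsub⟩ := exists_lt_subset_ball
    (c.quot.isClosedMap _ (isClosed_tsupport φ)) (image_subset_iff.2 hφ.supp)
  obtain ⟨K', K0, hK'⟩ := c.e6_G_bdd hr' h2 hh hb ht
  have G0 := DS.G_nonneg (D'.W_of_mem hu)
  have B0 : ∀ᵐ a ∂μ', 0 ≤ 1 / 2 * D'.G (D'.P t h) (D'.P t h) a :=
    G0.mono fun a ha => by positivity
  unfold I1
  rw [← integral_const_mul]
  refine c.e6_main hs h0 hT hcov h1 (Z := tsupport φ) (K := K)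
    (isClosed_tsupport φ).measurableSet ia (ib.const_mul _) ((DS.G_int hu hu).const_mul _) B0
    (fun N L g Lg hg => ?_) ?_
  · obtain ⟨k1, k2, k3⟩ := hK _ _ _ _ _ (hg.lift c.toPreCov)
    refine ⟨_, k2, k3, ?_⟩
    have k4 := c.p1_Gd h t _ _ hh hb ht (k1.mono fun a ha => c.e6_sub x₁ r₁ ha)
    unfold I1 at k4
    rw [← integral_const_mul] at k4
    refine (le_of_eq ?_).trans (k4.trans (le_of_eq ?_)) <;>
      refine integral_congr_ae (Eventually.of_forall fun y => ?_)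
    · simp only [Pi.mul_apply]
      ring
    · ring
  have hl := (c.e6_vol hs h0 hT h1).const_mul K'
  rw [mul_zero] at hl
  refine squeeze_zero (fun j => div_nonneg (setIntegral_nonneg_of_ae B0) (sq_nonneg _))
    (fun j => ?_) hl
  have fin : μ' (π ⁻¹' ⋃ b ∈ T j, ball b (3 * s j)) < ⊤ := D'.fin_bdd (c.quot.bounded_preimage
    ((Bornology.isBounded_biUnion_finset _).2 fun _ _ => isBounded_ball))
  rw [← mul_div_assoc]
  refine div_le_div_of_nonneg_right ((Real.le_norm_self _).trans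
    ((norm_setIntegral_le_of_norm_le_const_ae' (C := K')
      ((measure_mono inter_subset_left).trans_lt fin) ?_).trans
      (mul_le_mul_of_nonneg_left (measureReal_mono inter_subset_left fin.ne) K0))) (sq_nonneg _)
  filter_upwards [hK', G0] with a e1 e2 ha
  have e3 := e1 (hsub (mem_image_of_mem π ha.2))
  rw [Real.norm_eq_abs, abs_of_nonneg (by positivity)]
  linarith

end Env

end RC
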