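import Pool.Agent.P.MP_6472e5_gt.Kern
import Pool.Agent.P.MP_6472e5_gt.GH

/-! Homotopy invariance of odd sign functions. -/

set_option autoImplicit false
set_option linter.unusedSectionVars false

noncomputable section

namespace RC

open MeasureTheory Set Filter Topology Metric

variable {X Y : Type} [MetricSpace X] [MetricSpace Y] {Γ : Y → Y} {π : Y → X}

theorem htp_cov (hq : IsQuot Γ π) {U : Set X} (hU : ∀ a, π a ∈ U → Γ a ≠ a) :
    IsCoveringMap (U.restrictPreimage π) := by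
  apply IsCoveringMapOn.isCoveringMap_restrictPreimage
  refine hq.isClosedMap.isCoveringMapOn_of_isLocalHomeomorphOn (fun x _ => ?_) ?_
  · obtain ⟨a, rfl⟩ := hq.surj x
    refine (Set.toFinite ({a, Γ a} : Set Y)).subset fun b hb => ?_
    exact (hq.eq_iff b a).mp hb
  · rw [isLocalHomeomorphOn_iff_isOpenEmbedding_restrict]
    intro a ha
    have hd : 0 < dist a (Γ a) := dist_pos.mpr (hU a ha).symm
    refine ⟨ball a (dist a (Γ a) / 4), ball_mem_nhds _ (by positivity), ?_⟩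
    refine IsOpenEmbedding.of_continuous_injective_isOpenMap
      (hq.cont.comp continuous_subtype_val) ?_ (hq.isOpenMap.domRestrict isOpen_ball)
    intro b c hbc
    have h1 := hq.dist_loc (a := a) (r := dist a (Γ a) / 4) (by linarith) b.2 c.2
    have h2 : π b = π c := hbc
    rw [h2, dist_self] at h1
    exact Subtype.ext (dist_eq_zero.mp h1.symm)

theorem htp_lift (hq : IsQuot Γ π) {U : Set X} (hU : ∀ a, π a ∈ U → Γ a ≠ a) (H : ℝ → X → X)
    (hc : ContinuousOn (fun p : ℝ × X => H p.1 p.2) (Icc 0 1 ×ˢ U)) (h0 : ∀ z ∈ U, H 0 z = z)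
    (hm : ∀ s ∈ Icc (0 : ℝ) 1, ∀ z ∈ U, H s z ∈ U) :
    ∃ F : (π ⁻¹' U) → Y, Continuous F ∧ (∀ a, π (F a) = H 1 (π a)) ∧
      ∀ a b : (π ⁻¹' U), (b : Y) = Γ a → F b = Γ (F a) := by
  have cov := htp_cov hq hU
  have hπ := hq.cont
  have hΓ := hq.iso.continuous
  have hGc : Continuous fun p : unitInterval × (π ⁻¹' U) => H p.1 (π p.2) :=
    hc.comp_continuous (f := fun p : unitInterval × (π ⁻¹' U) => ((p.1 : ℝ), π p.2))
      (by fun_prop) (fun p => ⟨p.1.2, p.2.2⟩)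
  let G : C(unitInterval × (π ⁻¹' U), U) :=
    ⟨fun p => ⟨H p.1 (π p.2), hm _ p.1.2 _ p.2.2⟩, hGc.subtype_mk _⟩
  have hG0 : ∀ a : (π ⁻¹' U), G (0, a) = U.restrictPreimage π (ContinuousMap.id _ a) :=
    fun a => Subtype.ext (h0 _ a.2)
  obtain ⟨L, hL, hL0⟩ : ∃ L : C(unitInterval × (π ⁻¹' U), (π ⁻¹' U)),
      (∀ t a, π (L (t, a)) = H t (π a)) ∧ ∀ a, L (0, a) = a :=
    ⟨cov.liftHomotopy G (ContinuousMap.id _) hG0,
      fun t a => congrArg Subtype.val (congr_fun (cov.liftHomotopy_lifts G _ hG0) (t, a)),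
      cov.liftHomotopy_zero G _ hG0⟩
  have hgm : ∀ a : (π ⁻¹' U), Γ a ∈ π ⁻¹' U := fun a => by
    show π (Γ a) ∈ U
    rw [hq.π_Γ]
    exact a.2
  let g : (π ⁻¹' U) → (π ⁻¹' U) := fun a => ⟨Γ a, hgm a⟩
  have hg : Continuous g := (hΓ.comp continuous_subtype_val).subtype_mk _
  have hLc := L.continuous
  refine ⟨fun a => L (1, a), by fun_prop, fun a => hL 1 a, fun a b hab => ?_⟩
  have hb : b = g a := Subtype.ext hab
  have key := cov.eq_of_comp_eq (g₁ := fun t : unitInterval => L (t, b))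
    (g₂ := fun t : unitInterval => g (L (t, a))) (by fun_prop) (by fun_prop)
    (funext fun t => Subtype.ext (by
      show π (L (t, b)) = π (Γ (L (t, a)))
      rw [hq.π_Γ, hL, hL, hab, hq.π_Γ])) 0 (by
      show L (0, b) = g (L (0, a))
      rw [hL0, hL0, hb])
  exact congrArg Subtype.val (congr_fun key 1)

theorem Sec.mono {S S' : Set X} (h : Sec Γ π S) (hS : S' ⊆ S) : Sec Γ π S' := by
  obtain ⟨σ, hc, hσ⟩ := h
  exact ⟨σ, hc.mono (preimage_mono hS), fun a ha => hσ a (hS ha)⟩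

theorem Sec.htpy (hq : IsQuot Γ π) {U S : Set X} (hU : ∀ a, π a ∈ U → Γ a ≠ a) (H : ℝ → X → X)
    (hc : ContinuousOn (fun p : ℝ × X => H p.1 p.2) (Icc 0 1 ×ˢ U)) (h0 : ∀ z ∈ U, H 0 z = z)
    (hm : ∀ s ∈ Icc (0 : ℝ) 1, ∀ z ∈ U, H s z ∈ U) (h1 : ∀ z ∈ U, H 1 z ∈ S) (hS : Sec Γ π S) :
    Sec Γ π U := by
  classical
  obtain ⟨σ, hσc, hσ⟩ := hS
  obtain ⟨F, hFc, hF, hFΓ⟩ := htp_lift hq hU H hc h0 hm
  have hFS : ∀ a, π (F a) ∈ S := fun a => by
    rw [hF]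
    exact h1 _ a.2
  refine ⟨fun a => if h : π a ∈ U then σ (F ⟨a, h⟩) else 0, ?_, fun a ha => ?_⟩
  · rw [continuousOn_iff_continuous_domRestrict]
    have he : (π ⁻¹' U).domRestrict (fun a => if h : π a ∈ U then σ (F ⟨a, h⟩) else 0) =
        fun a : (π ⁻¹' U) => σ (F a) := funext fun a => dif_pos a.2
    rw [he]
    exact hσc.comp_continuous hFc hFS
  · have ha' : π (Γ a) ∈ U := by
      rw [hq.π_Γ]
      exact ha
    simp only [dif_pos ha, dif_pos ha']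
    rw [hFΓ ⟨a, ha⟩ ⟨Γ a, ha'⟩ rfl]
    exact hσ _ (hFS _)

/-- Retraction of an invariant set onto a fibre of the axis coordinates. -/
theorem Sec.cone [ProperSpace X] [MeasurableSpace X] [BorelSpace X] {μ : Measure X} {D : DS μ}
    {n k : ℕ} (hM : Model D n) {e : X} (A : Ax D n e k) (hq : IsQuot Γ π) {U : Set X}
    (hb : ∀ z ∈ U, 0 < A.b z) (hU : ∀ a, π a ∈ U → Γ a ≠ a)
    (hinv : ∀ v l, 0 < l → ∀ z ∈ U, hom (A.ι v) l z ∈ U)
    (hS : Sec Γ π (U ∩ {z | A.a z = 0 ∧ A.b z = 1 / 4})) : Sec Γ π U := by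
  have hC := hM.cone
  have hctr : ∀ v, D.Ctr n (A.ι v) := fun v => (A.ctr _).mpr ⟨v, rfl⟩
  have hac : Continuous A.a := by
    refine (LipschitzWith.mk_one fun y y' => ?_).continuous
    have h1 := A.lip y y'
    exact abs_le_of_sq_le_sq' (by nlinarith [sq_nonneg (A.b y - A.b y')]) dist_nonneg |>.2
  have hbc : Continuous A.b := by
    refine (LipschitzWith.mk_one fun y y' => ?_).continuous
    have h1 := A.lip y y'
    rw [Real.dist_eq]
    exact abs_le_of_sq_le_sq (by nlinarith [sq_nonneg (dist (A.a y) (A.a y'))]) dist_nonneg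
  have hιc : Continuous A.ι := A.iso.continuous
  have hone : ∀ v y, hom (A.ι v) 1 y = y := fun v y =>
    (hC.hom_uniq _ (hctr v) 1 y y one_pos (by simp) (by simp)).symm
  have hl1 : ∀ s ∈ Icc (0 : ℝ) 1, ∀ z ∈ U, 0 < 1 - s + s / (2 * A.b z) := by
    intro s hs z hz
    have h1 := hb z hz
    rcases hs.1.eq_or_lt with h | h
    · rw [← h]
      simp
    · have h2 : 0 < s / (2 * A.b z) := by positivity
      linarith [hs.2]
  have hl2 : ∀ s ∈ Icc (0 : ℝ) 1, 0 < 1 - s / 2 := fun s hs => by linarith [hs.2]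
  refine Sec.htpy hq hU
    (fun s z => hom (A.ι (-A.a z)) (1 - s / 2) (hom (A.ι (A.a z)) (1 - s + s / (2 * A.b z)) z))
    ?_ ?_ ?_ ?_ hS
  · have hi : ContinuousOn
        (fun p : ℝ × X => hom (A.ι (A.a p.2)) (1 - p.1 + p.1 / (2 * A.b p.2)) p.2)
        (Icc 0 1 ×ˢ U) := by
      refine hC.hom_cont.comp
        (f := fun p : ℝ × X => (A.ι (A.a p.2), 1 - p.1 + p.1 / (2 * A.b p.2), p.2)) ?_
        (fun p hp => ⟨hctr _, hl1 _ hp.1 _ hp.2, mem_univ _⟩)
      refine ContinuousOn.prodMk (by fun_prop) (ContinuousOn.prodMk ?_ (by fun_prop))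
      refine ContinuousOn.add (by fun_prop) (ContinuousOn.div (by fun_prop) (by fun_prop) ?_)
      intro p hp
      have h1 := hb _ hp.2
      positivity
    refine hC.hom_cont.comp
      (f := fun p : ℝ × X => (A.ι (-A.a p.2), 1 - p.1 / 2,
        hom (A.ι (A.a p.2)) (1 - p.1 + p.1 / (2 * A.b p.2)) p.2)) ?_
      (fun p hp => ⟨hctr _, hl2 _ hp.1, mem_univ _⟩)
    exact ContinuousOn.prodMk (by fun_prop) (ContinuousOn.prodMk (by fun_prop) hi)
  · intro z _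
    simp only [zero_div, sub_zero, add_zero, hone]
  · intro s hs z hz
    exact hinv _ _ (hl2 s hs) _ (hinv _ _ (hl1 s hs z hz) z hz)
  · intro z hz
    have hs : (1 : ℝ) ∈ Icc (0 : ℝ) 1 := ⟨zero_le_one, le_rfl⟩
    have h1 := hb z hz
    refine ⟨hinv _ _ (hl2 1 hs) _ (hinv _ _ (hl1 1 hs z hz) z hz), ?_, ?_⟩
    · rw [A.hom_a _ _ _ (hl2 1 hs), A.hom_a _ _ _ (hl1 1 hs z hz)]
      module
    · rw [A.hom_b _ _ _ (hl2 1 hs), A.hom_b _ _ _ (hl1 1 hs z hz)]
      field_simp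
      ring

/-- A sign over a compact set is uniformly locally constant. -/
theorem Sec.unif (hq : IsQuot Γ π) {K : Set X} (hK : IsCompact K) (h : Sec Γ π K) :
    ∃ (σ : Y → ℝ) (ρ : ℝ), 0 < ρ ∧ (∀ a, π a ∈ K → (σ a = 1 ∨ σ a = -1) ∧ σ (Γ a) = -σ a) ∧
      ∀ a b, π a ∈ K → π b ∈ K → dist a b ≤ ρ → σ a = σ b := by
  obtain ⟨σ, hc, hσ⟩ := h
  obtain ⟨δ, hδ, hu⟩ := Metric.uniformContinuousOn_iff.mp
    ((hq.compact_preimage hK).uniformContinuousOn_of_continuous hc) 1 one_pos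
  refine ⟨σ, δ / 2, by positivity, hσ, fun a b ha hb hab => ?_⟩
  have h1 := hu a ha b hb (by linarith)
  rw [Real.dist_eq, abs_lt] at h1
  rcases (hσ a ha).1 with h2 | h2 <;> rcases (hσ b hb).1 with h3 | h3 <;>
    rw [h2, h3] at h1 ⊢ <;> linarith [h1.1, h1.2]

end RC
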