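import Pool.Agent.P.MP_6472e5_gt.E4b
import Pool.Agent.P.MP_6472e5_gt.BlA
import Pool.Agent.P.MP_6472e5_gt.Htp

/-! An almost splitting gives a sign on the blow-up. -/

set_option autoImplicit false
set_option linter.unusedSectionVars false
set_option linter.unusedVariables false

noncomputable section

namespace RC

open MeasureTheory Set Filter Topology Metric

variable {X Y : Type} [MetricSpace X] [ProperSpace X] [MeasurableSpace X] [BorelSpace X]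
  [MetricSpace Y] [ProperSpace Y] [MeasurableSpace Y] [BorelSpace Y] {μ : Measure X}
  {μ' : Measure Y} {D : DS μ} {D' : DS μ'} {Γ : Y → Y} {π : Y → X} {κ : ℝ} {m : ℕ}

theorem e8_tend {Z : Type} [MetricSpace Z] {l : Filter ℕ} {f g : ℕ → Z} {z : Z}
    (h : Tendsto f l (𝓝 z)) (h' : ∀ ε, 0 < ε → ∀ᶠ i in l, dist (f i) (g i) ≤ ε) :
    Tendsto g l (𝓝 z) := Metric.tendsto_nhds.2 fun ε hε => by
  filter_upwards [Metric.tendsto_nhds.1 h _ (half_pos hε), h' _ (half_pos hε)] with i h1 h2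
  linarith [dist_triangle_left (g i) z (f i)]

section

variable {n : ℕ} {U : Ultrafilter ℕ} {y : ℕ → X} {r : ℕ → ℝ} {B : Blow D n U y r} {w : ℕ → Y}
  (Q : QBlow B Γ π w)

/-- The points `a i` of the cover converge to `t`. -/
def E8Lf (a : ℕ → Y) (t : Q.T) : Prop :=
  (∃ R, ∀ᶠ i in (U : Filter ℕ), a i ∈ ball (w i) (R * r i)) ∧
    Tendsto (fun i => Q.q i (a i)) U (𝓝 t)

theorem e8_exists (z : Q.T) : ∃ a, E8Lf Q a z := by
  have hR : 0 < dist z Q.o + 2 := by positivity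
  have h1 : ∀ i, ∃ a ∈ ball (w i) ((dist z Q.o + 2) * r i), dist z (Q.q i a) <
      infDist z (Q.q i '' ball (w i) ((dist z Q.o + 2) * r i)) + r i := fun i => by
    obtain ⟨_, ⟨a, ha, rfl⟩, h⟩ := (infDist_lt_iff (x := z) (Set.Nonempty.image (Q.q i)
      ⟨w i, mem_ball_self (mul_pos hR (B.seq.pos i))⟩)).1 (lt_add_of_pos_right _ (B.seq.pos i))
    exact ⟨a, ha, h⟩
  choose a h1 h2 using h1
  refine ⟨a, ⟨_, Eventually.of_forall h1⟩, Metric.tendsto_nhds.2 fun ε hε => ?_⟩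
  have h3 : 0 < min (ε / 2) 1 := lt_min (half_pos hε) one_pos
  filter_upwards [Q.app _ _ hR h3, B.small (half_pos hε)] with i h4 h5
  obtain ⟨b, hb, h6⟩ := h4.2.2 z (by
    rw [mem_ball]
    linarith [min_le_right (ε / 2) 1])
  have h7 := infDist_le_dist_of_mem (x := z) (mem_image_of_mem (Q.q i) hb)
  rw [dist_comm] at h6 ⊢
  linarith [h2 i, min_le_left (ε / 2) 1]

variable {Q}

theorem e8_dist {a b : ℕ → Y} {t t' : Q.T} (ha : E8Lf Q a t) (hb : E8Lf Q b t') {ρ : ℝ}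
    (h : dist t t' < ρ) : ∀ᶠ i in (U : Filter ℕ), dist (a i) (b i) ≤ ρ * r i := by
  obtain ⟨⟨R, h1⟩, h2⟩ := ha
  obtain ⟨⟨R', h3⟩, h4⟩ := hb
  have hε : 0 < (ρ - dist t t') / 2 := by linarith
  filter_upwards [h1, h3, Q.app (|R| + |R'| + 1) _ (by positivity) hε,
    (h2.dist h4).eventually (gt_mem_nhds (lt_add_of_pos_right _ hε))] with i e1 e2 e3 e4
  have e5 := e3.2.1 _ (ball_subset_ball (mul_le_mul_of_nonneg_right
    (by linarith [le_abs_self R, abs_nonneg R']) (B.seq.pos i).le) e1) _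
    (ball_subset_ball (mul_le_mul_of_nonneg_right
      (by linarith [le_abs_self R', abs_nonneg R]) (B.seq.pos i).le) e2)
  rw [← div_le_iff₀ (B.seq.pos i)]
  linarith [(abs_le.1 e5).1]

theorem e8_π (hq : IsQuot Γ π) {a : ℕ → Y} {t : Q.T} (ha : E8Lf Q a t) :
    B.Lf (fun i => π (a i)) (Q.π' t) := by
  obtain ⟨⟨R, h1⟩, h2⟩ := ha
  refine ⟨⟨R, h1.mono fun i hi => ?_⟩, e8_tend ((Q.quot.cont.tendsto t).comp h2) fun ε hε => ?_⟩
  · rw [← Q.w_base i]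
    exact (hq.dist_le _ _).trans_lt hi
  · filter_upwards [h1, Q.comm R ε hε] with i e1 e2 using (e2 _ e1).1

theorem e8_Γ (hq : IsQuot Γ π) {a : ℕ → Y} {t : Q.T} (ha : E8Lf Q a t) :
    E8Lf Q (fun i => Γ (a i)) (Q.Γ' t) := by
  obtain ⟨⟨R, h1⟩, h2⟩ := ha
  refine ⟨⟨R, h1.mono fun i hi => ?_⟩,
    e8_tend ((Q.quot.iso.continuous.tendsto t).comp h2) fun ε hε => ?_⟩
  · rw [mem_ball, hq.dist_Γ, Q.w_fix i]
    exact hi
  · filter_upwards [h1, Q.comm R ε hε] with i e1 e2 using (e2 _ e1).2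

theorem e8_good {k : ℕ} (A : Ax B.E n B.e k) {G : Set X}
    (h : ∀ a z, B.Lf a z → (∀ᶠ i in (U : Filter ℕ), a i ∉ G) → B.E.Ctr n z) {x : ℕ → X} {z : B.Z}
    (hx : B.Lf x z) (h1 : A.a z = 0) (h2 : A.b z = 1 / 4) :
    ∀ᶠ i in (U : Filter ℕ), ball (x i) (1 / 10 * r i) ⊆ G ∩ ball (y i) (r i) := by
  have h3 : z ∈ ball B.e (1 / 2) := by
    have e := A.dist_sq z 0
    rw [A.zero, h1, h2, dist_self] at e
    rw [mem_ball]
    nlinarith [dist_nonneg (x := z) (y := B.e)]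
  have hε : (0 : ℝ) < 1 / 50 := by norm_num
  filter_upwards [hx.mem h3, B.near (S := fun _ => Gᶜ) (F := range A.ι)
    (fun a z ha hb => (A.ctr z).1 (h a z ha hb)) 1 hε, B.bla_app 1 hε,
    Metric.tendsto_nhds.1 hx.2 _ hε] with i e1 e2 e3 e4 p hp
  have hr := B.seq.pos i
  rw [mem_ball] at e1 hp
  have e5 : dist p (y i) < r i := by linarith [dist_triangle p (x i) (y i)]
  refine ⟨by_contra fun hG => ?_, e5⟩
  obtain ⟨_, ⟨v, rfl⟩, e6⟩ := e2 p ⟨hG, by rwa [one_mul]⟩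
  have e7 := (abs_le.1 (e3 p (by rwa [one_mul]) (x i) (by rw [mem_ball]; linarith))).2
  have e8 := (div_lt_iff₀ hr).2 hp
  have e9 := A.dist_sq z v
  rw [h2] at e9
  have e10 := dist_triangle4 z (B.q i (x i)) (B.q i p) (A.ι v)
  rw [dist_comm (B.q i (x i)) (B.q i p), dist_comm z (B.q i (x i))] at e10
  have e11 : dist z (A.ι v) < 1 / 4 := by linarith
  nlinarith [dist_nonneg (x := z) (y := A.ι v), sq_nonneg (dist (A.a z) v)]

end

namespace Env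

variable (c : Env D D' Γ π κ m)

theorem sec_of_spl (x₀ : X) : ∃ β, 0 < β ∧ ∀ (U : Ultrafilter ℕ) (y : ℕ → X) (r : ℕ → ℝ)
    (B : Blow D (m + 2) U y r) (w : ℕ → Y) (Q : QBlow B Γ π w) (k : ℕ)
    (A : Ax B.E (m + 2) B.e k), (∀ i, y i ∈ ball x₀ 1) →
    (∀ a z, B.Lf a z → (∀ᶠ i in (U : Filter ℕ), a i ∉ c.Gd) → B.E.Ctr (m + 2) z) →
    (∀ᶠ i in (U : Filter ℕ), c.Spl (y i) (r i) β) →
    Sec Q.Γ' Q.π' {z | A.a z = 0 ∧ A.b z = 1 / 4} := by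
  obtain ⟨η, β, r₀, hη, -, hβ, hr₀, hN⟩ := c.ne' x₀ 1 (k := 1 / 10) (by norm_num) one_pos
  refine ⟨β, hβ, fun U y r B w Q k A hy hc hs => ?_⟩
  have hE : ∀ᶠ i in (U : Filter ℕ), ∃ σ : Y → ℝ, ∀ b,
      ball (π b) (1 / 10 * r i) ⊆ c.Gd ∩ ball (y i) (r i) → (σ b = 1 ∨ σ b = -1) ∧
        σ (Γ b) = -σ b ∧ ∀ b', ball (π b') (1 / 10 * r i) ⊆ c.Gd ∩ ball (y i) (r i) →
          dist b b' ≤ η * r i / 2 → σ b = σ b' := by
    filter_upwards [hs, B.small hr₀] with i ⟨h, hh⟩ hi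
    obtain ⟨σ, hσ⟩ := hN _ (hy i) _ (B.seq.pos i) hi h hh
    exact ⟨σ, fun b hb => ⟨(hσ b hb).1, (hσ b hb).2.1, (hσ b hb).2.2.2⟩⟩
  obtain ⟨σ, hσ⟩ := hE.choice
  choose a ha using e8_exists Q
  have hg : ∀ {b : ℕ → Y} {t : Q.T}, E8Lf Q b t → A.a (Q.π' t) = 0 ∧ A.b (Q.π' t) = 1 / 4 →
      ∀ᶠ i in (U : Filter ℕ), ball (π (b i)) (1 / 10 * r i) ⊆ c.Gd ∩ ball (y i) (r i) :=
    fun hb ht => e8_good A hc (e8_π c.quot hb) ht.1 ht.2
  classical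
  let τ : Q.T → ℝ := fun t => if ∀ᶠ i in (U : Filter ℕ), σ i (a t i) = 1 then 1 else -1
  have hK : ∀ t, A.a (Q.π' t) = 0 ∧ A.b (Q.π' t) = 1 / 4 →
      ∀ᶠ i in (U : Filter ℕ), σ i (a t i) = τ t := fun t ht => by
    by_cases h : ∀ᶠ i in (U : Filter ℕ), σ i (a t i) = 1
    · simpa only [τ, if_pos h] using h
    · simp only [τ, if_neg h]
      filter_upwards [Ultrafilter.eventually_not.2 h, hσ, hg (ha t) ht] with i e1 e2 e3
      exact (e2 _ e3).1.resolve_left e1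
  have hM : ∀ {b b' : ℕ → Y} {t t' : Q.T}, E8Lf Q b t → E8Lf Q b' t' →
      A.a (Q.π' t) = 0 ∧ A.b (Q.π' t) = 1 / 4 → A.a (Q.π' t') = 0 ∧ A.b (Q.π' t') = 1 / 4 →
      dist t t' < η / 2 → ∀ᶠ i in (U : Filter ℕ), σ i (b i) = σ i (b' i) :=
    fun hb hb' ht ht' hd => by
      filter_upwards [hσ, hg hb ht, hg hb' ht', e8_dist hb hb' hd] with i e1 e2 e3 e4
      exact (e1 _ e2).2.2 _ e3 (e4.trans_eq (by ring))
  refine ⟨τ, fun t ht => tendsto_const_nhds.congr' ?_, fun t ht => ⟨?_, ?_⟩⟩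
  · filter_upwards [self_mem_nhdsWithin, mem_nhdsWithin_of_mem_nhds (ball_mem_nhds t (half_pos hη))]
      with t' h1 h2
    obtain ⟨i, e1, e2, e3⟩ := ((hK t ht).and ((hK t' h1).and (hM (ha t') (ha t) h1 ht h2))).exists
    rw [← e1, ← e2, e3]
  · simp only [τ]
    split_ifs
    exacts [Or.inl rfl, Or.inr rfl]
  · have ht' : A.a (Q.π' (Q.Γ' t)) = 0 ∧ A.b (Q.π' (Q.Γ' t)) = 1 / 4 := by
      rw [Q.quot.π_Γ]
      exact ht
    obtain ⟨i, ⟨e1, e2⟩, e3, e4, e5⟩ := (((hK t ht).and (hK _ ht')).and ((hM (ha _)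
      (e8_Γ c.quot (ha t)) ht' ht' (by rw [dist_self]; exact half_pos hη)).and
        (hσ.and (hg (ha t) ht)))).exists
    rw [← e1, ← e2, e3, (e4 _ e5).2.1]

end Env

end RC
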