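import Pool.Agent.P.MP_6472e5_gt.BlA

/-! Blow-ups of the cover. -/

set_option autoImplicit false
set_option linter.unusedSectionVars false

noncomputable section

namespace RC

open MeasureTheory Set Filter Topology Metric

theorem xq_quot {S : Type} (d : S → S → ℝ) (h1 : ∀ a, d a a = 0) (h2 : ∀ a b, d a b = d b a)
    (h3 : ∀ a b c, d a c ≤ d a b + d b c) : ∃ (T : Type) (_ : MetricSpace T) (m : S → T),
      Function.Surjective m ∧ ∀ a b, dist (m a) (m b) = d a b := by
  let _ : PseudoMetricSpace S := { dist := d, dist_self := h1, dist_comm := h2, dist_triangle := h3 }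
  exact ⟨SeparationQuotient S, inferInstance, SeparationQuotient.mk,
    SeparationQuotient.surjective_mk, SeparationQuotient.dist_mk⟩

section

variable {Y : Type} [MetricSpace Y]

/-- Bounded sequences. -/
def XqS (U : Ultrafilter ℕ) (w : ℕ → Y) (r : ℕ → ℝ) : Type :=
  {a : ℕ → Y // ∃ R, ∀ᶠ i in (U : Filter ℕ), a i ∈ ball (w i) (R * r i)}

theorem xq_lim (U : Ultrafilter ℕ) (w : ℕ → Y) {r : ℕ → ℝ} (hr : ∀ i, 0 < r i) :
    ∃ (T : Type) (_ : MetricSpace T) (m : XqS U w r → T), Function.Surjective m ∧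
      ∀ a b, Tendsto (fun i => dist (a.1 i) (b.1 i) / r i) U (𝓝 (dist (m a) (m b))) := by
  have h : ∀ a b : XqS U w r, ∃ c, Tendsto (fun i => dist (a.1 i) (b.1 i) / r i) U (𝓝 c) := by
    rintro ⟨a, R, ha⟩ ⟨b, S, hb⟩
    have h1 : ∀ᶠ i in (U : Filter ℕ), dist (a i) (b i) / r i ∈ Icc 0 (R + S) := by
      filter_upwards [ha, hb] with i h1 h2
      refine ⟨div_nonneg dist_nonneg (hr i).le, (div_le_iff₀ (hr i)).2 ?_⟩
      linarith [dist_triangle_right (a i) (b i) (w i), mem_ball.1 h1, mem_ball.1 h2]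
    obtain ⟨c, -, hc⟩ := isCompact_Icc.ultrafilter_le_nhds
      (U.map fun i => dist (a i) (b i) / r i) (le_principal_iff.2 h1)
    exact ⟨c, hc⟩
  choose d hd using h
  obtain ⟨T, _, m, h1, h2⟩ := xq_quot d
    (fun a => tendsto_nhds_unique (hd a a) (by simp))
    (fun a b => tendsto_nhds_unique (hd a b) (by simpa only [dist_comm] using hd b a))
    fun a b c => le_of_tendsto_of_tendsto' (hd a c) ((hd a b).add (hd b c)) fun i => by
      rw [← add_div]
      exact div_le_div_of_nonneg_right (dist_triangle _ _ _) (hr i).le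
  exact ⟨T, inferInstance, m, h1, fun a b => h2 a b ▸ hd a b⟩

theorem xq_unif {U : Ultrafilter ℕ} {w : ℕ → Y} {r : ℕ → ℝ} {p : ℕ → Y → Y → Prop}
    (h : ∀ a b : XqS U w r, ∀ᶠ i in (U : Filter ℕ), p i (a.1 i) (b.1 i)) (R : ℝ) :
    ∀ᶠ i in (U : Filter ℕ), ∀ a ∈ ball (w i) (R * r i), ∀ b ∈ ball (w i) (R * r i), p i a b := by
  by_contra hn
  have h1 : ∀ᶠ i in (U : Filter ℕ), ∃ c : Y × Y, c.1 ∈ ball (w i) (R * r i) ∧
      c.2 ∈ ball (w i) (R * r i) ∧ ¬p i c.1 c.2 :=
    (Ultrafilter.eventually_not.2 hn).mono fun i hi => by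
      by_contra h2
      exact hi fun a ha b hb => by_contra fun h3 => h2 ⟨(a, b), ha, hb, h3⟩
  obtain ⟨c, hc⟩ := h1.choice
  obtain ⟨i, h2, h3⟩ := (hc.and (h ⟨fun i => (c i).1, R, hc.mono fun _ hi => hi.1⟩
    ⟨fun i => (c i).2, R, hc.mono fun _ hi => hi.2.1⟩)).exists
  exact h2.2.2 h3

theorem xq_q {S T : Type} [MetricSpace T] [ProperSpace T] [Nonempty T] {l : Filter ℕ}
    (hl : l ≤ atTop) {r : ℕ → ℝ} (hr : ∀ i, 0 < r i) (v : S → ℕ → Y) {m : S → T}
    (hm : Function.Surjective m)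
    (hd : ∀ a b, Tendsto (fun i => dist (v a i) (v b i) / r i) l (𝓝 (dist (m a) (m b)))) :
    ∃ q : ℕ → Y → T, ∀ a, Tendsto (fun i => q i (v a i)) l (𝓝 (m a)) := by
  classical
  choose s hs using fun k => hm (TopologicalSpace.denseSeq T k)
  let P : ℕ → ℕ → Prop := fun i N => ∀ k ∈ Finset.range (N + 1), ∀ j ∈ Finset.range (N + 1),
    dist (m (s k)) (m (s j)) - 1 / ((N : ℝ) + 1) < dist (v (s k) i) (v (s j) i) / r i
  have hP : ∀ N, ∀ᶠ i in l, P i N := fun N =>
    (eventually_all_finset _).2 fun k _ => (eventually_all_finset _).2 fun j _ =>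
      (hd _ _).eventually (Ioi_mem_nhds (sub_lt_self _ Nat.one_div_pos_of_nat))
  choose k hk h1 using fun i a => (Finset.range (Nat.findGreatest (P i) i + 1)).exists_min_image
    (fun k => dist (v (s k) i) a) Finset.nonempty_range_add_one
  refine ⟨fun i a => m (s (k i a)), fun a => Metric.tendsto_nhds.2 fun ε hε => ?_⟩
  have h0 : 0 < ε / 4 := by positivity
  obtain ⟨j, hj⟩ := (TopologicalSpace.denseRange_denseSeq T).exists_dist_lt (m a) h0
  obtain ⟨M, hM⟩ := exists_nat_one_div_lt h0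
  rw [← hs, dist_comm] at hj
  filter_upwards [hP (max j M), hl (eventually_ge_atTop (max j M)),
    (hd (s j) a).eventually (Iio_mem_nhds hj)] with i h2 h3 h4
  have h5 := Nat.le_findGreatest h3 h2
  have h6 : j ∈ Finset.range (Nat.findGreatest (P i) i + 1) :=
    Finset.mem_range.2 (Nat.lt_succ_of_le ((le_max_left _ _).trans h5))
  have h7 := Nat.findGreatest_spec h3 h2 _ (hk i (v a i)) j h6
  have h8 := Nat.one_div_le_one_div (α := ℝ) ((le_max_right _ _).trans h5)
  have h9 := div_le_div_of_nonneg_right ((dist_triangle_right _ (v (s j) i) (v a i)).trans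
    (add_le_add_left (h1 i (v a i) j h6) _)) (hr i).le
  rw [add_div] at h9
  linarith [dist_triangle (m (s (k i (v a i)))) (m (s j)) (m a)]

end

variable {X : Type} [MetricSpace X] [ProperSpace X] [MeasurableSpace X] [BorelSpace X]
  {μ : Measure X} {D : DS μ} {κ : ℝ} {n : ℕ}

theorem exists_qblow {U : Ultrafilter ℕ} {y : ℕ → X} {r : ℕ → ℝ} (B : Blow D n U y r) {Y : Type}
    [MetricSpace Y] {Γ : Y → Y} {π : Y → X} (hq : IsQuot Γ π) {w : ℕ → Y} (h1 : ∀ i, Γ (w i) = w i)
    (h2 : ∀ i, π (w i) = y i) : Nonempty (QBlow B Γ π w) := by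
  classical
  have hr := B.seq.pos
  obtain ⟨T, _, m, hm, hd⟩ := xq_lim U w hr
  let g : XqS U w r → XqS U w r := fun a => ⟨fun i => Γ (a.1 i), a.2.imp fun R h =>
    h.mono fun i hi => by rwa [mem_ball, hq.dist_Γ, h1]⟩
  have hg : ∀ a b, dist (m (g a)) (m (g b)) = dist (m a) (m b) := fun a b =>
    tendsto_nhds_unique (hd (g a) (g b)) (by simpa only [g, hq.iso.dist_eq] using hd a b)
  have hp : ∀ a : XqS U w r, ∃ z, B.Lf (fun i => π (a.1 i)) z := fun a => by
    obtain ⟨R, hR⟩ := a.2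
    obtain ⟨z, -, hz⟩ := B.exists_lim (a := fun i => π (a.1 i)) (R := R)
      (hR.mono fun i hi => by rwa [mem_ball, ← h2, hq.dist_fix (h1 i)])
    exact ⟨z, hz⟩
  choose p hp using hp
  have hp' : ∀ a b, dist (p a) (p b) = min (dist (m a) (m b)) (dist (m a) (m (g b))) :=
    fun a b => tendsto_nhds_unique ((hp a).dist (hp b)) (((hd a b).min (hd a (g b))).congr
      fun i => by rw [min_div_div_right (hr i).le, hq.dist_eq])
  obtain ⟨s, hs⟩ := hm.hasRightInverse
  have hΓ : ∀ a, m (g (s (m a))) = m (g a) := fun a =>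
    eq_of_dist_eq_zero (by rw [hg, hs, dist_self])
  have hπ : ∀ a, p (s (m a)) = p a := fun a =>
    eq_of_dist_eq_zero (by rw [hp', hs, dist_self, min_eq_left dist_nonneg])
  have hQ : IsQuot (fun t => m (g (s t))) fun t => p (s t) := by
    refine ⟨Isometry.of_dist_eq fun a b => by rw [hg, hs, hs], fun t => ?_, fun z => ?_,
      fun a b => by rw [hp', hs, hs]⟩
    · rw [hΓ, show g (g (s t)) = s t from Subtype.ext (funext fun i => hq.invol _), hs]
    · obtain ⟨x, hx⟩ := B.exists_lf z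
      choose a ha using fun i => hq.surj (x i)
      obtain ⟨R, hR⟩ := hx.1
      let a' : XqS U w r := ⟨a, R, hR.mono fun i hi => by
        rwa [mem_ball, ← hq.dist_fix (h1 i), ha, h2]⟩
      refine ⟨m a', (hπ a').trans (tendsto_nhds_unique (hp a').2 ?_)⟩
      simpa only [a', ha] using hx.2
  have := hQ.proper
  let w' : XqS U w r := ⟨w, 1, Eventually.of_forall fun i => mem_ball_self (by simpa using hr i)⟩
  have : Nonempty T := ⟨m w'⟩
  obtain ⟨q₀, hq₀⟩ := xq_q (ultra_le_atTop hr B.seq.lim) hr Subtype.val hm hd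
  let q : ℕ → Y → T := fun i a => if a = w i then m w' else q₀ i a
  have hl : ∀ a : XqS U w r, Tendsto (fun i => q i (a.1 i)) U (𝓝 (m a)) := fun a => by
    rcases U.em fun i => a.1 i = w i with h | h
    · have h3 : dist (m a) (m w') = 0 := tendsto_nhds_unique (hd a w')
        (tendsto_const_nhds.congr' (h.mono fun i hi => by simp [w', hi]))
      rw [eq_of_dist_eq_zero h3]
      exact tendsto_const_nhds.congr' (h.mono fun i hi => (if_pos hi).symm)
    · exact (hq₀ a).congr' (h.mono fun i hi => (if_neg hi).symm)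
  refine ⟨⟨T, m w', _, _, q, hQ, ?_, ?_, h1, h2, fun R ε _ hε => ?_, fun R ε hε => ?_⟩⟩
  · rw [hΓ, show g w' = w' from Subtype.ext (funext h1)]
  · refine (hπ w').trans (tendsto_nhds_unique (hp w').2 ?_)
    simpa only [w', h2] using B.lf_base.2
  · have h3 := xq_unif (p := fun i a b => |dist (q i a) (q i b) - dist a b / r i| ≤ ε)
      (fun a b => by
        have h := (((hl a).dist (hl b)).sub (hd a b)).abs
        rw [sub_self, abs_zero] at h
        exact h.eventually (Iic_mem_nhds hε)) R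
    have h4 : ∀ᶠ i in (U : Filter ℕ), ∀ t ∈ ball (m w') (R - ε),
        ∃ a ∈ ball (w i) (R * r i), dist (q i a) t ≤ ε := by
      by_contra hn
      have h5 : ∀ᶠ i in (U : Filter ℕ), ∃ t, t ∈ ball (m w') (R - ε) ∧
          ¬∃ a ∈ ball (w i) (R * r i), dist (q i a) t ≤ ε :=
        (Ultrafilter.eventually_not.2 hn).mono fun i hi => by
          simpa only [not_forall, exists_prop] using hi
      obtain ⟨t, ht⟩ := h5.choice
      obtain ⟨z, hz, h6⟩ := (isCompact_closedBall (m w') (R - ε)).ultrafilter_le_nhds (U.map t)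
        (le_principal_iff.2 (ht.mono fun i hi => ball_subset_closedBall hi.1))
      obtain ⟨a, rfl⟩ := hm z
      have h7 := (hl a).dist (show Tendsto t U _ from h6)
      rw [dist_self] at h7
      obtain ⟨i, h8, h9, h10⟩ := (ht.and ((h7.eventually (Iic_mem_nhds hε)).and
        ((hd a w').eventually (Iio_mem_nhds ((mem_closedBall.1 hz).trans_lt
          (sub_lt_self R hε)))))).exists
      exact h8.2 ⟨_, (div_lt_iff₀ (hr i)).1 h10, h9⟩
    filter_upwards [h3, h4] with i h5 h6
    exact ⟨if_pos rfl, h5, h6⟩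
  · refine (xq_unif (p := fun i a _ => dist (p (s (q i a))) (B.q i (π a)) ≤ ε ∧
      dist (m (g (s (q i a)))) (q i (Γ a)) ≤ ε) (fun a _ => ?_) R).mono
      fun i hi a ha => hi a ha a ha
    have h3 := ((hQ.cont.tendsto _).comp (hl a)).dist (hp a).2
    have h4 := ((hQ.iso.continuous.tendsto _).comp (hl a)).dist (hl (g a))
    rw [hπ, dist_self] at h3
    rw [hΓ, dist_self] at h4
    exact (h3.eventually (Iic_mem_nhds hε)).and (h4.eventually (Iic_mem_nhds hε))

end RC
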