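import Pool.Agent.P.MP_6472e5_gt.E7
import Pool.Agent.P.MP_6472e5_gt.E8
import Pool.Agent.P.MP_6472e5_gt.E2b
import Pool.Agent.P.MP_6472e5_gt.XQ

/-! Propagation of splitting and packing at pinched points. -/

set_option autoImplicit false
set_option linter.unusedSectionVars false
set_option linter.unusedVariables false

noncomputable section

namespace RC

open MeasureTheory Set Filter Topology Metric

variable {X Y : Type} [MetricSpace X] [ProperSpace X] [MeasurableSpace X] [BorelSpace X]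
  [MetricSpace Y] [ProperSpace Y] [MeasurableSpace Y] [BorelSpace Y] {μ : Measure X}
  {μ' : Measure Y} {D : DS μ} {D' : DS μ'} {Γ : Y → Y} {π : Y → X} {κ : ℝ} {m : ℕ}

namespace Env

variable (c : Env D D' Γ π κ m)

theorem e9_setup [HasBlow (m + 2)] {x₀ : X} {y : ℕ → X} {r : ℕ → ℝ} (hy : ∀ i, y i ∈ ball x₀ 1)
    (hG : ∀ i, y i ∉ c.Gd) (hr : ∀ i, 0 < r i) (hle : ∀ i : ℕ, r i ≤ 1 / ((i : ℝ) + 1))
    (hp : ∀ i : ℕ, c.Pin (y i) (r i) (1 / ((i : ℝ) + 1))) :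
    ∃ (B : Blow D (m + 2) (hyperfilter ℕ) y r) (w : ℕ → Y) (_ : QBlow B Γ π w) (k : ℕ)
      (_ : Ax B.E (m + 2) B.e k), ∀ a z, B.Lf a z →
        (∀ᶠ i in (hyperfilter ℕ : Filter ℕ), a i ∉ c.Gd) → B.E.Ctr (m + 2) z := by
  obtain ⟨B⟩ := HasBlow.blow D κ c.hp c.n2.toN1.n0 _ y r (seq_of_small hy hr hle)
  choose w h1 h2 using fun i => c.exists_fix (hG i)
  obtain ⟨Q⟩ := exists_qblow B c.quot h1 h2
  have h3 : ∀ a z, B.Lf a z →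
      (∀ᶠ i in (hyperfilter ℕ : Filter ℕ), a i ∉ c.Gd) → B.E.Ctr (m + 2) z := by
    intro a z ha hb
    obtain ⟨S, hS⟩ := ha.1
    refine B.ctr_of_pinch ha fun η hη => ?_
    filter_upwards [hS, hb, hyper_small hη, hyper_small (inv_pos.2 hη),
      hyper_small (inv_pos.2 (by positivity : 0 < |S| + 1))] with i a1 a2 a3 a4 a5
    have b0 : (0 : ℝ) < 1 / ((i : ℝ) + 1) := by positivity
    have b1 : ∀ u : ℝ, 0 < u → 1 / ((i : ℝ) + 1) ≤ u⁻¹ → u * r i ≤ r i / (1 / ((i : ℝ) + 1)) := by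
      intro u hu h
      rw [le_div_iff₀ b0, mul_right_comm]
      refine mul_le_of_le_one_left (hr i).le ?_
      exact (mul_le_mul_of_nonneg_left h hu.le).trans_eq (mul_inv_cancel₀ hu.ne')
    refine (hp i (a i) (ball_subset_ball ?_ a1) a2 _ _ (mul_pos (inv_pos.2 hη) (hr i))
      (b1 _ (inv_pos.2 hη) (by rwa [inv_inv])) (mul_pos hη (hr i)) (b1 _ hη a4)).trans a3
    refine le_trans (mul_le_mul_of_nonneg_right ?_ (hr i).le) (b1 _ (by positivity) a5)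
    linarith [le_abs_self S]
  obtain ⟨k, -, ⟨A⟩⟩ := B.model.cone.ax B.e (h3 y B.e B.lf_base (Eventually.of_forall hG))
  exact ⟨B, w, Q, k, A, h3⟩

theorem e9_top {U : Ultrafilter ℕ} {y : ℕ → X} {r : ℕ → ℝ} {B : Blow D (m + 2) U y r} {w : ℕ → Y}
    (Q : QBlow B Γ π w) {k : ℕ} (A : Ax B.E (m + 2) B.e k) {ε : ℝ}
    (hU : ∀ t, B.E.Θ0 (m + 2) (Q.π' t) < (1 + ε) * θ (m + 2) → Q.Γ' t ≠ t) :
    (1 + ε) * θ (m + 2) ≤ B.E.Θ (m + 2) B.e 1 := by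
  rw [← B.model.toPreModel.Θ0_ctr A.ctr_e, ← Q.base]
  exact not_lt.1 fun h => hU _ h Q.fix

theorem e9_sec {U : Ultrafilter ℕ} {y : ℕ → X} {r : ℕ → ℝ} {B : Blow D (m + 2) U y r} {w : ℕ → Y}
    (Q : QBlow B Γ π w) {k : ℕ} (A : Ax B.E (m + 2) B.e k) {ε : ℝ}
    (hU : ∀ t, B.E.Θ0 (m + 2) (Q.π' t) < (1 + ε) * θ (m + 2) → Q.Γ' t ≠ t)
    (hS : Sec Q.Γ' Q.π' {z | A.a z = 0 ∧ A.b z = 1 / 4}) :
    Sec Q.Γ' Q.π' {z | B.E.Θ0 (m + 2) z < (1 + ε) * θ (m + 2)} := by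
  have h1 : ∀ v, B.E.Ctr (m + 2) (A.ι v) := fun v => (A.ctr _).2 ⟨v, rfl⟩
  refine Sec.cone B.model A Q.quot (fun z hz => ?_) hU (fun v l hl z hz => ?_)
    (hS.mono inter_subset_right)
  · refine (A.b_nonneg z).lt_of_ne fun h => ?_
    have h2 : B.E.Ctr (m + 2) z := A.b_eq_zero h.symm ▸ h1 _
    have h3 := B.model.cone.top z h2 B.e 1 one_pos
    have h4 := e9_top Q A hU
    rw [mem_ofPred_eq, B.model.toPreModel.Θ0_ctr h2] at hz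
    linarith
  · rw [mem_ofPred_eq, B.model.Θ0_hom (h1 v) hl]
    exact hz

theorem prop [HasBlow (m + 2)] [HasStr m] (x₀ : X) : ∃ β₀, 0 < β₀ ∧ ∀ β, 0 < β → ∃ η, 0 < η ∧
    ∀ x ∈ ball x₀ 1, x ∉ c.Gd → ∀ r, 0 < r → r ≤ η → c.Pin x r η → c.Spl x r β₀ →
    c.Spl x (100 * r) β := by
  obtain ⟨β₀, h0, hs⟩ := c.sec_of_spl x₀
  obtain ⟨ε, hε, hl⟩ := c.lim x₀
  refine ⟨β₀, h0, fun β hβ => ?_⟩
  by_contra hn
  have h1 : ∀ i : ℕ, ∃ x r, x ∈ ball x₀ 1 ∧ x ∉ c.Gd ∧ 0 < r ∧ r ≤ 1 / ((i : ℝ) + 1) ∧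
      c.Pin x r (1 / ((i : ℝ) + 1)) ∧ c.Spl x r β₀ ∧ ¬c.Spl x (100 * r) β := fun i => by
    by_contra h
    exact hn ⟨1 / ((i : ℝ) + 1), by positivity, fun x a1 a2 r a3 a4 a5 a6 =>
      by_contra fun a7 => h ⟨x, r, a1, a2, a3, a4, a5, a6, a7⟩⟩
  choose y r a1 a2 a3 a4 a5 a6 a7 using h1
  obtain ⟨B, w, Q, k, A, h3⟩ := c.e9_setup a1 a2 a3 a4 a5
  obtain ⟨i, hi⟩ := (c.spl_of_sec B Q hε (e9_sec Q A (hl _ y r B w Q a1).1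
    (hs _ y r B w Q k A a1 h3 (Eventually.of_forall a6))) (by norm_num : (0 : ℝ) < 100) hβ).exists
  exact a7 i hi

theorem qnc [HasBlow (m + 2)] [HasStr m] (x₀ : X) {β δ : ℝ} (hβ : 0 < β) (h0 : 0 < δ)
    (h1 : δ ≤ 1) : ∃ η, 0 < η ∧ ∀ x ∈ ball x₀ 1, x ∉ c.Gd → ∀ r, 0 < r → r ≤ η → c.Pin x r η →
    ¬c.Spl x r β → 1 ≤ m ∧ ∃ T : Finset X, (T.card : ℝ) ≤ (30 / δ) ^ (m - 1) ∧
      c.Gdᶜ ∩ ball x r ⊆ ⋃ t ∈ T, ball t (δ * r) := by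
  obtain ⟨ε, hε, hl⟩ := c.lim x₀
  by_contra hn
  have h2 : ∀ i : ℕ, ∃ x r, x ∈ ball x₀ 1 ∧ x ∉ c.Gd ∧ 0 < r ∧ r ≤ 1 / ((i : ℝ) + 1) ∧
      c.Pin x r (1 / ((i : ℝ) + 1)) ∧ ¬c.Spl x r β ∧
      ¬(1 ≤ m ∧ ∃ T : Finset X, (T.card : ℝ) ≤ (30 / δ) ^ (m - 1) ∧
        c.Gdᶜ ∩ ball x r ⊆ ⋃ t ∈ T, ball t (δ * r)) := fun i => by
    by_contra h
    exact hn ⟨1 / ((i : ℝ) + 1), by positivity, fun x a1 a2 r a3 a4 a5 a6 =>
      by_contra fun a7 => h ⟨x, r, a1, a2, a3, a4, a5, a6, a7⟩⟩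
  choose y r a1 a2 a3 a4 a5 a6 a7 using h2
  obtain ⟨B, w, Q, k, A, h3⟩ := c.e9_setup a1 a2 a3 a4 a5
  obtain ⟨hU, hS⟩ := hl _ y r B w Q a1
  have h4 : k ≤ m := by
    refine HasStr.cls B.E B.model (B.n2 c.hp c.n2) B.e k A (lt_of_lt_of_le ?_ (e9_top Q A hU))
    nlinarith [θ_pos (m + 2)]
  rcases h4.eq_or_lt with rfl | h5
  · obtain ⟨i, hi⟩ := (c.spl_of_sec B Q hε (e9_sec Q A hU (hS A)) one_pos hβ).exists
    rw [one_mul] at hi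
    exact a6 i hi
  · obtain ⟨i, T, b1, -, b2⟩ := (B.pack A (S := fun _ => c.Gdᶜ) h3 h0 h1).exists
    refine a7 i ⟨by omega, T, b1.trans (pow_le_pow_right₀ ?_ (by omega)), b2⟩
    rw [le_div_iff₀ h0]
    linarith

end Env

end RC
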