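import Pool.Agent.P.MP_6472e5_gt.Defs

/-! Covering lemma with a bounded number of bad scales. -/

set_option autoImplicit false
set_option linter.unusedSectionVars false

noncomputable section

namespace RC

open MeasureTheory Set Filter Topology Metric

variable {X : Type} [MetricSpace X]

/-- Covering of the points with a prescribed pattern of bad scales. -/
theorem st1_pattern {S : Set X} {good : X → ℕ → Prop} {δ r₀ M M' : ℝ}
    (hM : 1 ≤ M) (hM' : 1 ≤ M')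
    (hg : ∀ j, ∀ x ∈ S, good x j → ∃ T : Finset X, (T.card : ℝ) ≤ M ∧
      {y | y ∈ S ∧ good y j} ∩ ball x (δ ^ j * r₀) ⊆ ⋃ t ∈ T, ball t (δ ^ (j + 1) * r₀ / 2))
    (hb : ∀ j, ∀ x ∈ S, ∃ T : Finset X, (T.card : ℝ) ≤ M' ∧
      S ∩ ball x (δ ^ j * r₀) ⊆ ⋃ t ∈ T, ball t (δ ^ (j + 1) * r₀ / 2))
    (x₀ : X) (B : Finset ℕ) (j : ℕ) : ∃ T : Finset X,
      (T.card : ℝ) ≤ ∏ i ∈ Finset.range j, (if i ∈ B then M' else M) ∧
      {y | y ∈ S ∩ ball x₀ (r₀ / 2) ∧ ∀ i < j, i ∉ B → good y i} ⊆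
        ⋃ t ∈ T, ball t (δ ^ j * r₀ / 2) := by
  classical
  induction j with
  | zero =>
    refine ⟨{x₀}, by simp, ?_⟩
    intro y hy
    simpa using hy.1.2
  | succ j ih =>
    obtain ⟨T, hT, hsub⟩ := ih
    have hc : (0 : ℝ) ≤ (if j ∈ B then M' else M) := by
      split_ifs <;> linarith
    have key : ∀ t : X, ∃ U : Finset X, (U.card : ℝ) ≤ (if j ∈ B then M' else M) ∧
        {y | y ∈ S ∩ ball x₀ (r₀ / 2) ∧ ∀ i < j + 1, i ∉ B → good y i} ∩
          ball t (δ ^ j * r₀ / 2) ⊆ ⋃ u ∈ U, ball u (δ ^ (j + 1) * r₀ / 2) := by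
      intro t
      by_cases hne : ({y | y ∈ S ∩ ball x₀ (r₀ / 2) ∧ ∀ i < j + 1, i ∉ B → good y i} ∩
          ball t (δ ^ j * r₀ / 2)).Nonempty
      · obtain ⟨x, ⟨hxS, hxg⟩, hxt⟩ := hne
        have hball : ∀ y ∈ ball t (δ ^ j * r₀ / 2), y ∈ ball x (δ ^ j * r₀) := by
          intro y hy
          rw [mem_ball] at hy hxt ⊢
          have := dist_triangle_right y x t
          linarith
        by_cases hj : j ∈ B
        · obtain ⟨U, hU, hUs⟩ := hb j x hxS.1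
          refine ⟨U, by rw [if_pos hj]; exact hU, ?_⟩
          intro y hy
          exact hUs ⟨hy.1.1.1, hball y hy.2⟩
        · obtain ⟨U, hU, hUs⟩ := hg j x hxS.1 (hxg j (Nat.lt_succ_self j) hj)
          refine ⟨U, by rw [if_neg hj]; exact hU, ?_⟩
          intro y hy
          exact hUs ⟨⟨hy.1.1.1, hy.1.2 j (Nat.lt_succ_self j) hj⟩, hball y hy.2⟩
      · refine ⟨∅, by simpa using hc, ?_⟩
        intro y hy
        exact absurd ⟨y, hy⟩ hne
    choose U hU hUs using key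
    refine ⟨T.biUnion U, ?_, ?_⟩
    · rw [Finset.prod_range_succ]
      calc ((T.biUnion U).card : ℝ) ≤ ((∑ t ∈ T, (U t).card : ℕ) : ℝ) := by
            exact_mod_cast Finset.card_biUnion_le
        _ = ∑ t ∈ T, ((U t).card : ℝ) := by push_cast; rfl
        _ ≤ ∑ _t ∈ T, (if j ∈ B then M' else M) := Finset.sum_le_sum fun t _ => hU t
        _ = T.card * (if j ∈ B then M' else M) := by rw [Finset.sum_const, nsmul_eq_mul]
        _ ≤ _ := mul_le_mul_of_nonneg_right hT hc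
    · intro y hy
      have hy' := hsub (a := y) ⟨hy.1, fun i hi hiB => hy.2 i (Nat.lt_succ_of_lt hi) hiB⟩
      simp only [mem_iUnion] at hy'
      obtain ⟨t, ht, hyt⟩ := hy'
      have h2 := hUs t ⟨hy, hyt⟩
      simp only [mem_iUnion] at h2 ⊢
      obtain ⟨u, hu, hyu⟩ := h2
      exact ⟨u, Finset.mem_biUnion.2 ⟨t, ht, hu⟩, hyu⟩

theorem st1_prod_le {M M' : ℝ} (hM : 1 ≤ M) (hM' : 1 ≤ M') (B : Finset ℕ) {N : ℕ}
    (hB : B.card ≤ N) (J : ℕ) :
    ∏ i ∈ Finset.range J, (if i ∈ B then M' else M) ≤ M' ^ N * M ^ J := by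
  rw [Finset.prod_ite, Finset.prod_const, Finset.prod_const]
  refine mul_le_mul (pow_le_pow_right₀ hM' ?_) (pow_le_pow_right₀ hM ?_) (by positivity)
    (by positivity)
  · refine le_trans (Finset.card_le_card ?_) hB
    intro i hi
    exact (Finset.mem_filter.1 hi).2
  · exact (Finset.card_filter_le _ _).trans (Finset.card_range J).le

theorem st1_enum {J N : ℕ} (B : Finset ℕ) (hB : ∀ i ∈ B, i < J) (hc : B.card ≤ N) :
    ∃ g : Fin N → Fin (J + 1), ∀ i ∈ B, ∃ k, (g k : ℕ) = i := by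
  classical
  refine ⟨fun k => if h : (k : ℕ) < B.card then
    ⟨(B.equivFin.symm ⟨k, h⟩ : ℕ), Nat.lt_succ_of_lt (hB _ (B.equivFin.symm ⟨k, h⟩).2)⟩
    else Fin.last J, ?_⟩
  intro i hi
  refine ⟨⟨(B.equivFin ⟨i, hi⟩ : ℕ), lt_of_lt_of_le (B.equivFin ⟨i, hi⟩).2 hc⟩, ?_⟩
  simp

/-- Covering with good and bad scales. -/
theorem cover_scales {S : Set X} {good : X → ℕ → Prop} {δ r₀ M M' : ℝ} {N : ℕ} (h0 : 0 < δ)
    (h1 : δ ≤ 1) (hr : 0 < r₀) (hM : 1 ≤ M) (hM' : 1 ≤ M')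
    (hbad : ∀ x ∈ S, ∀ J : Finset ℕ, (∀ j ∈ J, ¬good x j) → J.card ≤ N)
    (hg : ∀ j, ∀ x ∈ S, good x j → ∃ T : Finset X, (T.card : ℝ) ≤ M ∧
      {y | y ∈ S ∧ good y j} ∩ ball x (δ ^ j * r₀) ⊆ ⋃ t ∈ T, ball t (δ ^ (j + 1) * r₀ / 2))
    (hb : ∀ j, ∀ x ∈ S, ∃ T : Finset X, (T.card : ℝ) ≤ M' ∧
      S ∩ ball x (δ ^ j * r₀) ⊆ ⋃ t ∈ T, ball t (δ ^ (j + 1) * r₀ / 2))
    {x₀ : X} (J : ℕ) : ∃ T : Finset X, (T.card : ℝ) ≤ ((J : ℝ) + 1) ^ N * M' ^ N * M ^ J ∧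
      S ∩ ball x₀ (r₀ / 2) ⊆ ⋃ t ∈ T, ball t (δ ^ J * r₀) := by
  classical
  have key : ∀ g : Fin N → Fin (J + 1), ∃ T : Finset X, (T.card : ℝ) ≤ M' ^ N * M ^ J ∧
      {y | y ∈ S ∩ ball x₀ (r₀ / 2) ∧
        ∀ i < J, i ∉ Finset.univ.image (fun k => (g k : ℕ)) → good y i} ⊆
        ⋃ t ∈ T, ball t (δ ^ J * r₀ / 2) := by
    intro g
    obtain ⟨T, hT, hs⟩ := st1_pattern hM hM' hg hb x₀ (Finset.univ.image (fun k => (g k : ℕ))) J
    refine ⟨T, hT.trans (st1_prod_le hM hM' _ ?_ J), hs⟩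
    exact Finset.card_image_le.trans (by simp)
  choose U hU hUs using key
  refine ⟨Finset.univ.biUnion U, ?_, ?_⟩
  · calc ((Finset.univ.biUnion U).card : ℝ) ≤ ((∑ g, (U g).card : ℕ) : ℝ) := by
          exact_mod_cast Finset.card_biUnion_le
      _ = ∑ g, ((U g).card : ℝ) := by push_cast; rfl
      _ ≤ ∑ _g : Fin N → Fin (J + 1), M' ^ N * M ^ J := Finset.sum_le_sum fun g _ => hU g
      _ = ((J : ℝ) + 1) ^ N * M' ^ N * M ^ J := by
          rw [Finset.sum_const, nsmul_eq_mul, mul_assoc]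
          simp
  · intro y hy
    obtain ⟨g, hgB⟩ := st1_enum (J := J) (N := N) ((Finset.range J).filter fun i => ¬good y i)
      (fun i hi => Finset.mem_range.1 (Finset.mem_filter.1 hi).1)
      (hbad y hy.1 _ fun j hj => (Finset.mem_filter.1 hj).2)
    have h2 := hUs g (a := y) ⟨hy, fun i hi hiB => by
      by_contra hng
      obtain ⟨k, hk⟩ := hgB i (Finset.mem_filter.2 ⟨Finset.mem_range.2 hi, hng⟩)
      exact hiB (Finset.mem_image.2 ⟨k, Finset.mem_univ _, hk⟩)⟩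
    simp only [mem_iUnion] at h2 ⊢
    obtain ⟨u, hu, hyu⟩ := h2
    refine ⟨u, Finset.mem_biUnion.2 ⟨g, Finset.mem_univ _, hu⟩, ball_subset_ball ?_ hyu⟩
    have : 0 < δ ^ J * r₀ := by positivity
    linarith

/-- A bounded monotone function has few scales with a definite drop. -/
theorem card_drops {C δ η r₀ : ℝ} (h0 : 0 < δ) (h1 : δ < 1) (hη : 0 < η) (hη1 : η ≤ 1)
    (hr : 0 < r₀) : ∃ N : ℕ, ∀ f : ℝ → ℝ, MonotoneOn f (Ioc 0 (η⁻¹ * r₀)) →
      (∀ s ∈ Ioc 0 (η⁻¹ * r₀), 0 ≤ f s ∧ f s ≤ C) → ∀ J : Finset ℕ,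
      (∀ j ∈ J, η < f (η⁻¹ * (δ ^ j * r₀)) - f (η * (δ ^ j * r₀))) → J.card ≤ N := by
  obtain ⟨K, hK⟩ := exists_pow_lt_of_lt_one (show 0 < η * η by positivity) h1
  refine ⟨⌈K * C / η⌉₊, ?_⟩
  intro f hf hC J hJ
  have hmem : ∀ j : ℕ, η⁻¹ * (δ ^ j * r₀) ∈ Ioc 0 (η⁻¹ * r₀) := by
    intro j
    refine ⟨by positivity, mul_le_mul_of_nonneg_left ?_ (by positivity)⟩
    have : δ ^ j ≤ 1 := pow_le_one₀ h0.le h1.le
    nlinarith
  have hinv : η ≤ η⁻¹ := by
    have : 1 ≤ η⁻¹ := one_le_inv_iff₀.2 ⟨hη, hη1⟩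
    linarith
  have hmem' : ∀ j : ℕ, η * (δ ^ j * r₀) ∈ Ioc 0 (η⁻¹ * r₀) := by
    intro j
    refine ⟨by positivity, le_trans ?_ (hmem j).2⟩
    exact mul_le_mul_of_nonneg_right hinv (by positivity)
  set g : ℕ → ℝ := fun j => f (η⁻¹ * (δ ^ j * r₀)) with hgdef
  have hstep : ∀ j : ℕ, g (K + j) ≤ f (η * (δ ^ j * r₀)) := by
    intro j
    refine hf (hmem _) (hmem' j) ?_
    have h2 : η⁻¹ * δ ^ K ≤ η := by
      rw [inv_mul_le_iff₀ hη]
      exact hK.le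
    have h3 : 0 ≤ δ ^ j * r₀ := by positivity
    calc η⁻¹ * (δ ^ (K + j) * r₀) = (η⁻¹ * δ ^ K) * (δ ^ j * r₀) := by ring
      _ ≤ η * (δ ^ j * r₀) := mul_le_mul_of_nonneg_right h2 h3
  have hnn : ∀ j : ℕ, 0 ≤ g j - g (K + j) := by
    intro j
    have h2 : f (η * (δ ^ j * r₀)) ≤ g j :=
      hf (hmem' j) (hmem j) (mul_le_mul_of_nonneg_right hinv (by positivity))
    linarith [hstep j]
  obtain ⟨n, hn⟩ := J.exists_nat_subset_range
  have h4 : ∑ j ∈ Finset.range n, (g j - g (K + j)) ≤ K * C := by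
    have e1 := Finset.sum_range_add g n K
    have e2 := Finset.sum_range_add g K n
    rw [add_comm K n] at e2
    have e3 : ∑ j ∈ Finset.range K, g j ≤ K * C := by
      calc ∑ j ∈ Finset.range K, g j ≤ ∑ _j ∈ Finset.range K, C :=
            Finset.sum_le_sum fun j _ => (hC _ (hmem j)).2
        _ = K * C := by rw [Finset.sum_const, Finset.card_range, nsmul_eq_mul]
    have e4 : 0 ≤ ∑ j ∈ Finset.range K, g (n + j) :=
      Finset.sum_nonneg fun j _ => (hC _ (hmem _)).1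
    rw [Finset.sum_sub_distrib]
    linarith
  have h5 : (J.card : ℝ) * η ≤ K * C := by
    calc (J.card : ℝ) * η = ∑ _j ∈ J, η := by rw [Finset.sum_const, nsmul_eq_mul]
      _ ≤ ∑ j ∈ J, (g j - g (K + j)) := Finset.sum_le_sum fun j hj => by
          have := hJ j hj
          linarith [hstep j]
      _ ≤ ∑ j ∈ Finset.range n, (g j - g (K + j)) :=
          Finset.sum_le_sum_of_subset_of_nonneg hn fun j _ _ => hnn j
      _ ≤ _ := h4
  have h6 : (J.card : ℝ) ≤ (⌈K * C / η⌉₊ : ℝ) :=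
    le_trans ((le_div_iff₀ hη).2 h5) (Nat.le_ceil _)
  exact_mod_cast h6

theorem haus_null_of_cover [MeasurableSpace X] [BorelSpace X] {S : Set X} {δ r₀ C M d : ℝ} {N : ℕ}
    (h0 : 0 < δ) (h1 : δ < 1) (hr : 0 < r₀) (hd : 0 < d) (hM : M * δ ^ d < 1) (hM0 : 0 ≤ M)
    (h : ∀ J : ℕ, ∃ T : Finset X, (T.card : ℝ) ≤ C * ((J : ℝ) + 1) ^ N * M ^ J ∧
      S ⊆ ⋃ t ∈ T, ball t (δ ^ J * r₀)) : μH[d] S = 0 := by
  choose T hT hS using h
  have hdiam : ∀ (n : ℕ) (t : X), ediam (ball t (δ ^ n * r₀)) ≤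
      ENNReal.ofReal (2 * (δ ^ n * r₀)) := by
    intro n t
    refine ediam_le_of_forall_dist_le fun x hx y hy => ?_
    rw [mem_ball] at hx hy
    have := dist_triangle_right x y t
    linarith
  have hlim : Tendsto (fun n : ℕ => ENNReal.ofReal (2 * (δ ^ n * r₀))) atTop (𝓝 0) := by
    have h2 : Tendsto (fun n : ℕ => 2 * (δ ^ n * r₀)) atTop (𝓝 (2 * (0 * r₀))) :=
      ((tendsto_pow_atTop_nhds_zero_of_lt_one h0.le h1).mul_const r₀).const_mul 2
    have h3 := ENNReal.tendsto_ofReal h2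
    simpa using h3
  have hle := Measure.hausdorffMeasure_le_liminf_sum (β := ℕ) (ι := fun n => (T n : Set X)) d S
    (l := atTop) (fun n => ENNReal.ofReal (2 * (δ ^ n * r₀))) hlim
    (fun n i => ball (i : X) (δ ^ n * r₀)) (Eventually.of_forall fun n i => hdiam n i)
    (Eventually.of_forall fun n y hy => by
      have h2 := hS n hy
      simp only [mem_iUnion] at h2 ⊢
      obtain ⟨t, ht, hyt⟩ := h2
      exact ⟨⟨t, ht⟩, hyt⟩)
  have hq0 : 0 ≤ M * δ ^ d := mul_nonneg hM0 (Real.rpow_nonneg h0.le d)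
  have hreal : Tendsto (fun n : ℕ => |C| * 2 ^ N * (2 * r₀) ^ d *
      ((n : ℝ) ^ N * (M * δ ^ d) ^ n)) atTop (𝓝 (|C| * 2 ^ N * (2 * r₀) ^ d * 0)) :=
    (tendsto_pow_const_mul_const_pow_of_abs_lt_one N
      (by rw [abs_of_nonneg hq0]; exact hM)).const_mul _
  have hE := ENNReal.tendsto_ofReal hreal
  rw [mul_zero, ENNReal.ofReal_zero] at hE
  have hsum : Tendsto (fun n : ℕ => ∑ i : (T n : Set X), ediam (ball (i : X) (δ ^ n * r₀)) ^ d)
      atTop (𝓝 0) := by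
    refine tendsto_of_tendsto_of_tendsto_of_le_of_le' tendsto_const_nhds hE
      (Eventually.of_forall fun n => zero_le) ?_
    filter_upwards [eventually_ge_atTop 1] with n hn
    have hpos : 0 ≤ 2 * (δ ^ n * r₀) := by positivity
    have hw : 0 ≤ (2 * (δ ^ n * r₀)) ^ d := Real.rpow_nonneg hpos d
    calc ∑ i : (T n : Set X), ediam (ball (i : X) (δ ^ n * r₀)) ^ d
        ≤ ∑ _i : (T n : Set X), ENNReal.ofReal ((2 * (δ ^ n * r₀)) ^ d) :=
          Finset.sum_le_sum fun i _ => by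
            rw [← ENNReal.ofReal_rpow_of_nonneg hpos hd.le]
            exact ENNReal.rpow_le_rpow (hdiam n i) hd.le
      _ = ENNReal.ofReal ((T n).card * (2 * (δ ^ n * r₀)) ^ d) := by
          rw [Finset.sum_const, nsmul_eq_mul, ENNReal.ofReal_mul (Nat.cast_nonneg _)]
          simp
      _ ≤ _ := by
          refine ENNReal.ofReal_le_ofReal ?_
          have hn1 : (1 : ℝ) ≤ n := by exact_mod_cast hn
          have e1 : (2 * (δ ^ n * r₀)) ^ d = (2 * r₀) ^ d * (δ ^ d) ^ n := by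
            rw [show 2 * (δ ^ n * r₀) = (2 * r₀) * δ ^ n by ring,
              Real.mul_rpow (by positivity) (by positivity), ← Real.rpow_natCast δ n,
              ← Real.rpow_mul h0.le, mul_comm (n : ℝ) d, Real.rpow_mul h0.le, Real.rpow_natCast]
          have e2 : ((n : ℝ) + 1) ^ N ≤ 2 ^ N * (n : ℝ) ^ N := by
            rw [← mul_pow]
            exact pow_le_pow_left₀ (by positivity) (by linarith) N
          have e3 : ((T n).card : ℝ) ≤ |C| * (2 ^ N * (n : ℝ) ^ N) * M ^ n := by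
            refine (hT n).trans (mul_le_mul_of_nonneg_right ?_ (by positivity))
            calc C * ((n : ℝ) + 1) ^ N ≤ |C| * ((n : ℝ) + 1) ^ N :=
                  mul_le_mul_of_nonneg_right (le_abs_self C) (by positivity)
              _ ≤ _ := mul_le_mul_of_nonneg_left e2 (abs_nonneg C)
          calc ((T n).card : ℝ) * (2 * (δ ^ n * r₀)) ^ d
              ≤ |C| * (2 ^ N * (n : ℝ) ^ N) * M ^ n * (2 * (δ ^ n * r₀)) ^ d :=
                mul_le_mul_of_nonneg_right e3 hw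
            _ = _ := by rw [e1, mul_pow]; ring
  rw [hsum.liminf_eq] at hle
  exact le_antisymm hle zero_le

end RC
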