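import Pool.Agent.P.MP_6472e5_gt.E11a
import Pool.Agent.P.MP_6472e5_gt.E9
import Pool.Agent.P.MP_6472e5_gt.E10
import Pool.Agent.P.MP_6472e5_gt.E5
import Pool.Agent.P.MP_6472e5_gt.E6
import Pool.Agent.P.MP_6472e5_gt.St1

/-! Every point is good. -/

set_option autoImplicit false
set_option linter.unusedSectionVars false
set_option linter.unusedVariables false

noncomputable section

namespace RC

open MeasureTheory Set Filter Topology Metric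

variable {X Y : Type} [MetricSpace X] [ProperSpace X] [MeasurableSpace X] [BorelSpace X]
  [MetricSpace Y] [ProperSpace Y] [MeasurableSpace Y] [BorelSpace Y] {μ : Measure X}
  {μ' : Measure Y} {D : DS μ} {D' : DS μ'} {Γ : Y → Y} {π : Y → X} {κ : ℝ} {m : ℕ}

theorem e11_recentre {S : Set X} {T : Finset X} {ρ : ℝ} (h : S ⊆ ⋃ t ∈ T, ball t ρ) :
    ∃ T' : Finset X, T'.card ≤ T.card ∧ (∀ b ∈ T', b ∈ S) ∧ S ⊆ ⋃ b ∈ T', ball b (2 * ρ) := by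
  classical
  have hc : ∀ t : X, ∃ b : X, (S ∩ ball t ρ).Nonempty → b ∈ S ∩ ball t ρ := fun t => by
    by_cases hne : (S ∩ ball t ρ).Nonempty
    · exact ⟨hne.some, fun _ => hne.some_mem⟩
    · exact ⟨t, fun h => absurd h hne⟩
  choose b hb using hc
  refine ⟨(T.filter fun t => (S ∩ ball t ρ).Nonempty).image b,
    Finset.card_image_le.trans (Finset.card_filter_le _ _), fun x hx => ?_, fun x hx => ?_⟩
  · obtain ⟨t, ht, rfl⟩ := Finset.mem_image.1 hx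
    exact (hb t (Finset.mem_filter.1 ht).2).1
  · obtain ⟨t, ht, hxt⟩ := mem_iUnion₂.1 (h hx)
    have hne : (S ∩ ball t ρ).Nonempty := ⟨x, hx, hxt⟩
    refine mem_iUnion₂.2 ⟨b t, Finset.mem_image.2 ⟨t, Finset.mem_filter.2 ⟨ht, hne⟩, rfl⟩, ?_⟩
    have h1 := mem_ball.1 (hb t hne).2
    have h2 := mem_ball.1 hxt
    have h3 := dist_triangle_right x (b t) t
    rw [mem_ball]
    linarith

theorem e11_geom {C : ℝ} {f : ℕ → ℝ} (h0 : ∀ j, 0 ≤ f j) (h : ∀ j, f j ≤ C * (1 / 2) ^ j) :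
    Tendsto f atTop (𝓝 0) := by
  have h1 : Tendsto (fun j : ℕ => C * (1 / 2 : ℝ) ^ j) atTop (𝓝 (C * 0)) :=
    (tendsto_pow_atTop_nhds_zero_of_lt_one (by norm_num) (by norm_num)).const_mul C
  rw [mul_zero] at h1
  exact squeeze_zero h0 h h1

theorem e11_pow {δ ρ : ℝ} (h0 : 0 < δ) (k j : ℕ) :
    ((60 / δ) ^ k) ^ j * (2 * (δ ^ j * ρ)) ^ k = (2 * ρ) ^ k * (60 ^ k) ^ j := by
  have h1 : (δ ^ j) ^ k ≠ 0 := by positivity
  have h2 : ((60 / δ) ^ k) ^ j = (60 ^ k) ^ j / (δ ^ j) ^ k := by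
    rw [div_pow, div_pow, ← pow_mul δ k j, ← pow_mul δ j k, mul_comm k j]
  rw [h2, mul_pow, mul_pow, mul_pow]
  field_simp

namespace Env

variable (c : Env D D' Γ π κ m)

theorem Spl.mono {c : Env D D' Γ π κ m} {x : X} {r β β' : ℝ} (h : c.Spl x r β) (hr : 0 < r)
    (h0 : 0 ≤ β) (hle : β ≤ β') : c.Spl x r β' := by
  obtain ⟨k, w⟩ := h
  exact ⟨k, w.restrict c subset_rfl hr le_rfl h0 (by gcongr)⟩

theorem e11_remove {x₁ : X} {r₁ δ γ K : ℝ} {k l : ℕ} (hm : m = k + 1) (hr : 0 < r₁) (hK : 2 ≤ K)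
    (hδ : δ = (K ^ l)⁻¹) (hγ0 : 0 < γ) (hγ1 : γ < 1) (h1 : 60 ^ k * γ ^ l ≤ 1 / 2)
    (h2 : 60 ^ k * δ ≤ 1 / 2)
    (hQ : ∀ x ∈ c.Gdᶜ ∩ ball x₁ r₁, ∀ r, 0 < r → r ≤ r₁ → ∃ T : Finset X,
      (T.card : ℝ) ≤ (30 / (δ / 2)) ^ k ∧ c.Gdᶜ ∩ ball x r ⊆ ⋃ t ∈ T, ball t (δ / 2 * r))
    (hD : ∀ x ∈ c.Gdᶜ ∩ ball x₁ r₁, ∀ ρ, 0 < ρ → ρ ≤ r₁ →
      ∀ h t M, MemLp h 2 μ' → IsOdd μ' Γ h → 0 < M → (∀ᵐ a ∂μ', |h a| ≤ M) → ρ ^ 2 < t →
      ∀ j : ℕ, ∀ᵐ a ∂μ', π a ∈ ball x (ρ / K ^ j) → |D'.P t h a| ≤ γ ^ j * M) :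
    x₁ ∈ c.Gd := by
  have hK0 : 0 < K := by linarith
  have hδ0 : 0 < δ := by rw [hδ]; positivity
  have h60 : (1 : ℝ) ≤ 60 ^ k := one_le_pow₀ (by norm_num)
  have hδ1 : δ ≤ 1 / 2 := by nlinarith
  have hM : 1 ≤ (60 / δ) ^ k := one_le_pow₀ (by rw [le_div_iff₀ hδ0]; linarith)
  have hc : ∀ j : ℕ, ∀ x ∈ c.Gdᶜ ∩ ball x₁ r₁, ∃ T : Finset X, (T.card : ℝ) ≤ (60 / δ) ^ k ∧
      (c.Gdᶜ ∩ ball x₁ r₁) ∩ ball x (δ ^ j * r₁) ⊆ ⋃ t ∈ T, ball t (δ ^ (j + 1) * r₁ / 2) := by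
    intro j x hx
    have hj : δ ^ j ≤ 1 := pow_le_one₀ hδ0.le (by linarith)
    obtain ⟨T, hT, hs⟩ := hQ x hx (δ ^ j * r₁) (by positivity) (by nlinarith)
    refine ⟨T, ?_, fun z hz => ?_⟩
    · rwa [show 30 / (δ / 2) = 60 / δ by field_simp; norm_num] at hT
    · rw [show δ ^ (j + 1) * r₁ / 2 = δ / 2 * (δ ^ j * r₁) by ring]
      exact hs ⟨hz.1.1, hz.2⟩
  have hcov : ∀ J : ℕ, ∃ T : Finset X, (T.card : ℝ) ≤ ((60 / δ) ^ k) ^ J ∧
      (∀ b ∈ T, b ∈ c.Gdᶜ ∩ ball x₁ (r₁ / 2)) ∧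
      c.Gdᶜ ∩ ball x₁ (r₁ / 2) ⊆ ⋃ b ∈ T, ball b (2 * (δ ^ J * r₁)) := by
    intro J
    obtain ⟨T, hT, hs⟩ := cover_scales (S := c.Gdᶜ ∩ ball x₁ r₁) (good := fun _ _ => True)
      (N := 0) hδ0 (by linarith) hr hM hM
      (fun x _ J hJ => by
        rcases J.eq_empty_or_nonempty with rfl | ⟨j, hj⟩
        · simp
        · exact absurd trivial (hJ j hj))
      (fun j x hx _ => by
        obtain ⟨T, hT, hs⟩ := hc j x hx
        exact ⟨T, hT, fun z hz => hs ⟨hz.1.1, hz.2⟩⟩) hc (x₀ := x₁) J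
    obtain ⟨T', h1, h2, h3⟩ := e11_recentre (S := c.Gdᶜ ∩ ball x₁ (r₁ / 2)) (T := T)
      (ρ := δ ^ J * r₁) fun z hz => hs ⟨⟨hz.1, ball_subset_ball (by linarith) hz.2⟩, hz.2⟩
    refine ⟨T', ?_, h2, h3⟩
    simp only [pow_zero, one_mul] at hT
    exact (Nat.cast_le.2 h1).trans hT
  choose T hT hTm hTc using hcov
  have hs : ∀ j : ℕ, 0 < 2 * (δ ^ j * r₁) := fun j => by positivity
  have hs0 : Tendsto (fun j : ℕ => 2 * (δ ^ j * r₁)) atTop (𝓝 0) := by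
    refine e11_geom (C := 2 * r₁) (fun j => (hs j).le) fun j => ?_
    have := pow_le_pow_left₀ hδ0.le hδ1 j
    nlinarith
  have hN : ∀ j : ℕ, ((T j).card : ℝ) * (2 * (δ ^ j * r₁)) ^ k ≤ (2 * r₁) ^ k * (60 ^ k) ^ j :=
    fun j => by
      rw [← e11_pow hδ0]
      exact mul_le_mul_of_nonneg_right (hT j) (by positivity)
  have hA : Tendsto (fun j => ((T j).card : ℝ) *
      ((2 * (δ ^ j * r₁)) ^ (m + 2) / (2 * (δ ^ j * r₁)) ^ 2)) atTop (𝓝 0) := by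
    refine e11_geom (C := (2 * r₁) ^ k * (2 * r₁)) (fun j => by have := hs j; positivity)
      fun j => ?_
    have h3 : (2 * (δ ^ j * r₁)) ^ (m + 2) / (2 * (δ ^ j * r₁)) ^ 2 =
        (2 * (δ ^ j * r₁)) ^ k * (2 * (δ ^ j * r₁)) := by
      have := (hs j).ne'
      rw [hm]
      field_simp
      ring
    have h4 : (60 ^ k * δ) ^ j ≤ (1 / 2) ^ j := pow_le_pow_left₀ (by positivity) h2 j
    calc _ = ((T j).card : ℝ) * (2 * (δ ^ j * r₁)) ^ k * (2 * (δ ^ j * r₁)) := by rw [h3]; ring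
      _ ≤ (2 * r₁) ^ k * (60 ^ k) ^ j * (2 * (δ ^ j * r₁)) :=
        mul_le_mul_of_nonneg_right (hN j) (hs j).le
      _ = (2 * r₁) ^ k * (2 * r₁) * (60 ^ k * δ) ^ j := by rw [mul_pow (60 ^ k) δ]; ring
      _ ≤ _ := mul_le_mul_of_nonneg_left h4 (by positivity)
  have hr2 : 0 < r₁ / 2 := by positivity
  have hP2 : c.P2 (ball x₁ (r₁ / 2)) := by
    refine c.rem2 hr2 hs hs0 (fun j b hb => (hTm j b hb).2) hTc hA fun h t hh hb ho ht => ?_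
    obtain ⟨M, hM0, hM⟩ := hb.nonneg
    have hρ0 : 0 < min r₁ (√t / 2) := lt_min hr (by positivity)
    have hρt : min r₁ (√t / 2) ^ 2 < t := by
      have h5 : min r₁ (√t / 2) ^ 2 ≤ (√t / 2) ^ 2 := pow_le_pow_left₀ hρ0.le (min_le_right _ _) 2
      have h6 : (√t / 2) ^ 2 = t / 4 := by rw [div_pow, Real.sq_sqrt ht.le]; norm_num
      linarith
    set ρ := min r₁ (√t / 2) with hρ
    obtain ⟨i, hi⟩ := pow_unbounded_of_one_lt (8 * r₁ / ρ) (show 1 < K by linarith)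
    have hl : 1 ≤ l := by
      rcases Nat.eq_zero_or_pos l with rfl | h
      · simp only [pow_zero, mul_one] at h1
        linarith
      · exact h
    refine ⟨fun j => γ ^ (l * j - i) * M, fun j => by positivity, ?_, ?_⟩
    · filter_upwards [eventually_ge_atTop i] with j hj b hb
      have hij : i ≤ l * j := hj.trans (Nat.le_mul_of_pos_left j hl)
      have hb' := hTm j b hb
      filter_upwards [hD b ⟨hb'.1, ball_subset_ball (by linarith) hb'.2⟩ ρ hρ0 (min_le_left _ _)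
        h t M hh ho hM0 hM hρt (l * j - i)] with a ha hab
      refine ha (ball_subset_ball ?_ hab)
      have h7 : K ^ (l * j - i) * K ^ i = (K ^ l) ^ j := by
        rw [← pow_add, Nat.sub_add_cancel hij, pow_mul]
      have h8 : δ ^ j * (K ^ (l * j - i) * K ^ i) = 1 := by
        rw [h7, hδ, ← mul_pow, inv_mul_cancel₀ (by positivity), one_pow]
      rw [le_div_iff₀ (by positivity)]
      rw [div_lt_iff₀ hρ0] at hi
      have h9 : 0 < δ ^ j * K ^ (l * j - i) := by positivity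
      nlinarith
    · refine e11_geom (C := (2 * r₁) ^ k * M / γ ^ i) (fun j => by have := hs j; positivity)
        fun j => ?_
      have h3 : (2 * (δ ^ j * r₁)) ^ (m + 2) / (2 * (δ ^ j * r₁)) ^ 3 = (2 * (δ ^ j * r₁)) ^ k := by
        have := (hs j).ne'
        rw [hm]
        field_simp
        ring
      have h4 : (60 ^ k * γ ^ l) ^ j ≤ (1 / 2) ^ j := pow_le_pow_left₀ (by positivity) h1 j
      have h5 : γ ^ (l * j - i) ≤ (γ ^ l) ^ j / γ ^ i := by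
        rw [le_div_iff₀ (by positivity), ← pow_add, ← pow_mul]
        exact pow_le_pow_of_le_one hγ0.le hγ1.le (by omega)
      rw [h3]
      calc _ ≤ (2 * r₁) ^ k * (60 ^ k) ^ j * ((γ ^ l) ^ j / γ ^ i * M) :=
            mul_le_mul (hN j) (mul_le_mul_of_nonneg_right h5 hM0.le) (by positivity)
              (by positivity)
        _ = (2 * r₁) ^ k * M / γ ^ i * (60 ^ k * γ ^ l) ^ j := by rw [mul_pow (60 ^ k)]; ring
        _ ≤ _ := mul_le_mul_of_nonneg_left h4 (by positivity)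
  exact ⟨ball x₁ (r₁ / 2), isOpen_ball, mem_ball_self hr2,
    c.rem1 hr2 hs hs0 (fun j b hb => (hTm j b hb).2) hTc hA hP2, hP2⟩

theorem all_good [HasBlow (m + 2)] [HasStr m] (x : X) : x ∈ c.Gd := by
  by_contra hx
  obtain ⟨βG, rG, hβG, hrG, hG⟩ := c.glue x
  obtain ⟨βP, hβP, hP⟩ := c.prop x
  have hβ : 0 < min βG βP := lt_min hβG hβP
  obtain ⟨K, γ, rC, hK, hγ0, hγ1, hrC, hD⟩ := c.dec x 1 hβ
  have h60 : (0 : ℝ) < 60 ^ (m - 1) := by positivity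
  obtain ⟨l₁, hl₁⟩ := exists_pow_lt_of_lt_one (show (0 : ℝ) < 1 / 2 / 60 ^ (m - 1) by positivity) hγ1
  obtain ⟨l₂, hl₂⟩ := pow_unbounded_of_one_lt (2 * 60 ^ (m - 1) : ℝ) (show 1 < K by linarith)
  have h1 : 60 ^ (m - 1) * γ ^ (l₁ + l₂) ≤ 1 / 2 := by
    have := pow_le_pow_of_le_one hγ0.le hγ1.le (Nat.le_add_right l₁ l₂)
    rw [lt_div_iff₀ h60] at hl₁
    nlinarith
  have hKl : 0 < K ^ (l₁ + l₂) := by positivity
  have h2 : 60 ^ (m - 1) * (K ^ (l₁ + l₂))⁻¹ ≤ 1 / 2 := by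
    have := pow_le_pow_right₀ (show 1 ≤ K by linarith) (Nat.le_add_left l₂ l₁)
    rw [← div_eq_mul_inv, div_le_iff₀ hKl]
    linarith
  have hδ1 : (K ^ (l₁ + l₂))⁻¹ / 2 ≤ 1 := by
    have := inv_le_one_of_one_le₀ (one_le_pow₀ (show 1 ≤ K by linarith) (n := l₁ + l₂))
    linarith
  obtain ⟨ηP, hηP, hP'⟩ := hP (min βG βP / 200 ^ (m + 2)) (by positivity)
  obtain ⟨ηQ, hηQ, hQ⟩ := c.qnc x hβ (show 0 < (K ^ (l₁ + l₂))⁻¹ / 2 by positivity) hδ1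
  have hη : 0 < min (min ηP ηQ) (min rG rC) := lt_min (lt_min hηP hηQ) (lt_min hrG hrC)
  obtain ⟨x₁, r₁, hx₁, hr₁, hle, hsub, hpin⟩ := c.exists_pin hx hη
  have e1 : min (min ηP ηQ) (min rG rC) ≤ ηP := (min_le_left _ _).trans (min_le_left _ _)
  have e2 : min (min ηP ηQ) (min rG rC) ≤ ηQ := (min_le_left _ _).trans (min_le_right _ _)
  have e3 : min (min ηP ηQ) (min rG rC) ≤ rG := (min_le_right _ _).trans (min_le_left _ _)
  have e4 : min (min ηP ηQ) (min rG rC) ≤ rC := (min_le_right _ _).trans (min_le_right _ _)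
  by_cases hs : ∃ z ∈ c.Gdᶜ ∩ ball x₁ r₁, ∃ r, 0 < r ∧ r ≤ r₁ ∧ c.Spl z r (min βG βP)
  · obtain ⟨z, hz, r, h0, hr, hs⟩ := hs
    refine hG x₁ (hsub (mem_ball_self hr₁)) hx₁ r₁ hr₁ (hle.trans e3) fun z' hz' s hs0 hs1 => ?_
    refine (c.spread hβ (fun w hw ρ hρ0 hρ1 hw' => ?_) hz h0 hr hs z' hz' s hs0 hs1).mono hs0
      hβ.le (min_le_left _ _)
    exact hP' w (hsub hw.2) hw.1 ρ hρ0 (hρ1.trans (hle.trans e1))
      ((hpin w hw.2 ρ hρ0 hρ1).mono hρ0 hη e1) (hw'.mono hρ0 hβ.le (min_le_right _ _))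
  · have hn : ∀ z ∈ c.Gdᶜ ∩ ball x₁ r₁, ∀ r, 0 < r → r ≤ r₁ → ¬c.Spl z r (min βG βP) :=
      fun z hz r h0 hr h => hs ⟨z, hz, r, h0, hr, h⟩
    have hq := fun z (hz : z ∈ c.Gdᶜ ∩ ball x₁ r₁) r (h0 : 0 < r) (hr : r ≤ r₁) =>
      hQ z (hsub hz.2) hz.1 r h0 (hr.trans (hle.trans e2))
        ((hpin z hz.2 r h0 hr).mono h0 hη e2) (hn z hz r h0 hr)
    have hm := (hq x₁ ⟨hx₁, mem_ball_self hr₁⟩ r₁ hr₁ le_rfl).1
    exact hx₁ (c.e11_remove (k := m - 1) (by omega) hr₁ hK rfl hγ0 hγ1 h1 h2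
      (fun z hz r h0 hr => (hq z hz r h0 hr).2)
      fun z hz ρ h0 hρ => hD z (hsub hz.2) ρ h0 (hρ.trans (hle.trans e4))
        fun r hr0 hr => hn z hz r hr0 (hr.trans hρ))

end Env

end RC
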