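import Pool.Agent.P.MP_6472e5_gt.E1c

/-! Choice of a pinched bad point. -/

set_option autoImplicit false
set_option linter.unusedSectionVars false
set_option linter.unusedVariables false

noncomputable section

namespace RC

open MeasureTheory Set Filter Topology Metric

variable {X Y : Type} [MetricSpace X] [ProperSpace X] [MeasurableSpace X] [BorelSpace X]
  [MetricSpace Y] [ProperSpace Y] [MeasurableSpace Y] [BorelSpace Y] {μ : Measure X}
  {μ' : Measure Y} {D : DS μ} {D' : DS μ'} {Γ : Y → Y} {π : Y → X} {κ : ℝ} {m : ℕ}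

namespace Env

variable (c : Env D D' Γ π κ m)

theorem exists_pin {x₀ : X} (h0 : x₀ ∉ c.Gd) {η : ℝ} (hη : 0 < η) :
    ∃ x₁ r₁, x₁ ∉ c.Gd ∧ 0 < r₁ ∧ r₁ ≤ η ∧ ball x₁ r₁ ⊆ ball x₀ 1 ∧
      ∀ x ∈ ball x₁ r₁, ∀ r, 0 < r → r ≤ r₁ → c.Pin x r η := by
  have hp := c.hp
  have hΘ0 : ∀ b s, 0 < s → 0 ≤ D.Θ (m + 2) b s := fun b s hs =>
    mul_nonneg (pow_nonneg hs.le _) (hp.p_pos _ _ _ (by positivity)).le
  have hbb : BddBelow (D.Θ0 (m + 2) '' (c.Gdᶜ ∩ ball x₀ 1)) := ⟨θ (m + 2), by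
    rintro _ ⟨b, -, rfl⟩
    exact c.n2.low b⟩
  have hne : (D.Θ0 (m + 2) '' (c.Gdᶜ ∩ ball x₀ 1)).Nonempty :=
    ⟨_, x₀, ⟨h0, mem_ball_self one_pos⟩, rfl⟩
  have hlow : ∀ b ∈ c.Gdᶜ ∩ ball x₀ 1, sInf (D.Θ0 (m + 2) '' (c.Gdᶜ ∩ ball x₀ 1)) ≤
      D.Θ0 (m + 2) b := fun b hb => csInf_le hbb ⟨b, hb, rfl⟩
  obtain ⟨_, ⟨x₁, hx₁, rfl⟩, hlt⟩ := exists_lt_of_csInf_lt hne
    (lt_add_of_pos_right _ (half_pos hη))
  generalize sInf (D.Θ0 (m + 2) '' (c.Gdᶜ ∩ ball x₀ 1)) = l at hlow hlt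
  have he : Tendsto (fun s : ℝ => Real.exp ((m + 2 : ℕ) * κ * s ^ 2)) (𝓝[>] 0) (𝓝 1) := by
    have h1 : Continuous (fun s : ℝ => Real.exp ((m + 2 : ℕ) * κ * s ^ 2)) := by fun_prop
    have h2 := h1.tendsto 0
    simp only [ne_eq, OfNat.ofNat_ne_zero, not_false_eq_true, zero_pow, mul_zero,
      Real.exp_zero] at h2
    exact h2.mono_left nhdsWithin_le_nhds
  have e1 := he.mul (hp.Θ_lim x₁)
  rw [one_mul] at e1
  have e2 := he.mul_const (l - η / 2)
  rw [one_mul] at e2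
  obtain ⟨s₀, ⟨a1, a2⟩, a3⟩ := (((e1.eventually (gt_mem_nhds hlt)).and
    (e2.eventually (gt_mem_nhds (sub_lt_self l (half_pos hη))))).and self_mem_nhdsWithin).exists
  have hs₀ : 0 < s₀ := a3
  have hc : Continuous fun b => Real.exp ((m + 2 : ℕ) * κ * s₀ ^ 2) * D.Θ (m + 2) b s₀ := by
    refine continuous_const.mul (continuous_const.mul ?_)
    exact hp.ker.1.comp_continuous (f := fun b : X => (s₀ ^ 2, b, b)) (by fun_prop)
      fun b => ⟨show 0 < s₀ ^ 2 by positivity, trivial⟩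
  obtain ⟨ρ, hρ, hρs⟩ := Metric.isOpen_iff.1
    ((isOpen_lt hc (continuous_const (y := l + η / 2))).inter (isOpen_ball (x := x₀) (ε := 1)))
    x₁ ⟨a1, hx₁.2⟩
  refine ⟨x₁, min (min η (ρ / 2)) (min (η * (ρ / 2)) (η * s₀)), hx₁.1, by positivity,
    (min_le_left _ _).trans (min_le_left _ _), fun y hy => (hρs (ball_subset_ball ?_ hy)).2, ?_⟩
  · exact (min_le_left _ _).trans ((min_le_right _ _).trans (half_le_self hρ.le))
  intro x hx r hr hr1 b hb hbG s s' hs hsr hs' hsr'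
  have k1 : r / η ≤ ρ / 2 := by
    rw [div_le_iff₀' hη]
    exact hr1.trans ((min_le_right _ _).trans (min_le_left _ _))
  have k2 : r / η ≤ s₀ := by
    rw [div_le_iff₀' hη]
    exact hr1.trans ((min_le_right _ _).trans (min_le_right _ _))
  have k3 : b ∈ ball x₁ ρ := by
    have j1 : dist x x₁ < ρ / 2 :=
      (mem_ball.1 hx).trans_le ((min_le_left _ _).trans (min_le_right _ _))
    have j2 : dist b x < ρ / 2 := (mem_ball.1 hb).trans_le k1
    rw [mem_ball]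
    linarith [dist_triangle b x x₁]
  obtain ⟨k4, k5⟩ := hρs k3
  have k6 : D.Θ (m + 2) b s < l + η / 2 := (hp.Θ_mono b s s₀ hs (hsr.trans k2)).trans_lt k4
  have k7 : l ≤ Real.exp ((m + 2 : ℕ) * κ * s₀ ^ 2) * D.Θ (m + 2) b s' := by
    refine (hlow b ⟨hbG, k5⟩).trans ((hp.Θ0_le b s' hs').trans ?_)
    refine mul_le_mul_of_nonneg_right (Real.exp_le_exp.2 ?_) (hΘ0 b s' hs')
    exact mul_le_mul_of_nonneg_left (pow_le_pow_left₀ hs'.le (hsr'.trans k2) 2)
      (mul_nonneg (Nat.cast_nonneg _) hp.κ_nonneg)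
  have k8 : l - η / 2 < D.Θ (m + 2) b s' :=
    lt_of_mul_lt_mul_left (a2.trans_le k7) (Real.exp_pos _).le
  linarith

theorem Pin.mono {c : Env D D' Γ π κ m} {x : X} {r η η' : ℝ} (h : c.Pin x r η) (hr : 0 < r)
    (h0 : 0 < η) (hle : η ≤ η') : c.Pin x r η' := by
  have k : r / η' ≤ r / η := div_le_div_of_nonneg_left hr.le h0 hle
  intro b hb hG s s' h1 h2 h3 h4
  exact (h b (ball_subset_ball k hb) hG s s' h1 (h2.trans k) h3 (h4.trans k)).trans hle

/-- Splitting spreads to all centres and scales. -/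
theorem spread {S : Set X} {x₁ : X} {r₁ β : ℝ} (hβ : 0 < β)
    (h : ∀ x ∈ S ∩ ball x₁ r₁, ∀ r, 0 < r → r ≤ r₁ → c.Spl x r β →
      c.Spl x (100 * r) (β / 200 ^ (m + 2))) {x : X} (hx : x ∈ S ∩ ball x₁ r₁) {r : ℝ}
    (h0 : 0 < r) (h1 : r ≤ r₁) (hs : c.Spl x r β) :
    ∀ x' ∈ S ∩ ball x₁ r₁, ∀ s, 0 < s → s ≤ r₁ → c.Spl x' s β := by
  have step : ∀ x ∈ S ∩ ball x₁ r₁, ∀ r, 0 < r → r ≤ r₁ → c.Spl x r β → ∀ x' s, r / 2 ≤ s →
      dist x' x + s ≤ 100 * r → c.Spl x' s β := by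
    intro x hx r h0 h1 hs x' s k1 k2
    obtain ⟨w, hw⟩ := h x hx r h0 h1 hs
    refine ⟨w, Wit.restrict c hw (ball_subset_ball' (by linarith)) (by linarith)
      (by linarith [dist_nonneg (x := x') (y := x)]) (by positivity) ?_⟩
    have e : β / 200 ^ (m + 2) * (100 * r) ^ (m + 2) = β * (r / 2) ^ (m + 2) := by
      rw [show r / 2 = 100 * r / 200 by ring, div_pow]
      ring
    rw [e]
    exact mul_le_mul_of_nonneg_left (pow_le_pow_left₀ (by positivity) k1 _) hβ.le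
  have hr₁ : 0 < r₁ := h0.trans_le h1
  have up : ∀ k : ℕ, c.Spl x (min (2 ^ k * r) r₁) β := by
    intro k
    induction k with
    | zero => rwa [pow_zero, one_mul, min_eq_left h1]
    | succ k ih =>
      have hk : 0 < 2 ^ k * r := by positivity
      refine step x hx _ (lt_min hk hr₁) (min_le_right _ _) ih x _ ?_ ?_
      · rw [pow_succ]
        refine le_min ?_ ?_
        · linarith [min_le_left (2 ^ k * r) r₁]
        · linarith [min_le_right (2 ^ k * r) r₁]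
      · rw [dist_self, zero_add, pow_succ]
        rcases le_total (2 ^ k * r) r₁ with h2 | h2
        · rw [min_eq_left h2]
          linarith [min_le_left (2 ^ k * 2 * r) r₁]
        · rw [min_eq_right h2]
          linarith [min_le_right (2 ^ k * 2 * r) r₁]
  have top : c.Spl x r₁ β := by
    obtain ⟨k, hk⟩ := pow_unbounded_of_one_lt (r₁ / r) (one_lt_two (α := ℝ))
    have h2 := up k
    rwa [min_eq_right ((div_le_iff₀ h0).1 hk.le)] at h2
  intro x' hx' s hs0 hs1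
  have top' : c.Spl x' r₁ β := by
    refine step x hx r₁ hr₁ le_rfl top x' r₁ (by linarith) ?_
    linarith [dist_triangle_right x' x x₁, mem_ball.1 hx.2, mem_ball.1 hx'.2]
  have down : ∀ k : ℕ, ∀ s, 0 < s → s ≤ r₁ → r₁ ≤ 2 ^ k * s → c.Spl x' s β := by
    intro k
    induction k with
    | zero =>
      intro s _ a b
      rw [pow_zero, one_mul] at b
      rwa [le_antisymm a b]
    | succ k ih =>
      intro s a0 a b
      have h2 : c.Spl x' (min (2 * s) r₁) β := by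
        rcases le_total (2 * s) r₁ with h2 | h2
        · rw [min_eq_left h2]
          exact ih _ (by linarith) h2 (by rw [pow_succ] at b; linarith)
        · rwa [min_eq_right h2]
      refine step x' hx' _ (lt_min (by linarith) hr₁) (min_le_right _ _) h2 x' s ?_ ?_
      · linarith [min_le_left (2 * s) r₁]
      · rw [dist_self, zero_add]
        have h3 : s ≤ min (2 * s) r₁ := le_min (by linarith) a
        linarith
  obtain ⟨k, hk⟩ := pow_unbounded_of_one_lt (r₁ / s) (one_lt_two (α := ℝ))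
  exact down k s hs0 hs1 ((div_le_iff₀ hs0).1 hk.le)

end Env

end RC
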