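import Pool.Agent.P.MP_6472e5_gt.E1c

/-! From local test functions to the Bochner inequality. -/

set_option autoImplicit false
set_option linter.unusedSectionVars false
set_option linter.unusedVariables false

noncomputable section

namespace RC

open MeasureTheory Set Filter Topology Metric

variable {X Y : Type} [MetricSpace X] [ProperSpace X] [MeasurableSpace X] [BorelSpace X]
  [MetricSpace Y] [ProperSpace Y] [MeasurableSpace Y] [BorelSpace Y] {μ : Measure X}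
  {μ' : Measure Y} {D : DS μ} {D' : DS μ'} {Γ : Y → Y} {π : Y → X} {κ : ℝ} {m : ℕ}

theorem e12_dom {a : ℕ → Y → ℝ} {a₀ F : Y → ℝ} {C : ℝ}
    (hm : ∀ k, AEStronglyMeasurable (a k) μ') (hb : ∀ k, ∀ᵐ y ∂μ', |a k y| ≤ C)
    (hl : ∀ᵐ y ∂μ', Tendsto (fun k => a k y) atTop (𝓝 (a₀ y))) (hF : Integrable F μ') :
    Tendsto (fun k => ∫ y, a k y * F y ∂μ') atTop (𝓝 (∫ y, a₀ y * F y ∂μ')) := by
  refine tendsto_integral_of_dominated_convergence (fun y => C * |F y|)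
    (fun k => (hm k).mul hF.aestronglyMeasurable) (hF.abs.const_mul C) (fun k => ?_) ?_
  · filter_upwards [hb k] with y hy
    rw [Real.norm_eq_abs, abs_mul]
    exact mul_le_mul_of_nonneg_right hy (abs_nonneg _)
  · filter_upwards [hl] with y hy using hy.mul_const _

theorem e12_weak {ι : Type} {l : Filter ι} [l.IsCountablyGenerated] {u : ι → Y → ℝ}
    {f F : Y → ℝ} {C : ℝ} (hu : ∀ i, MemLp (u i) 2 μ') (hb : ∀ i, ∀ᵐ y ∂μ', |u i y| ≤ C)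
    (hf : MemLp f 2 μ') (hl : Tendsto (fun i => n2 μ' (u i - f)) l (𝓝 0)) (hF : Integrable F μ') :
    Tendsto (fun i => ∫ y, u i y * F y ∂μ') l (𝓝 (∫ y, f y * F y ∂μ')) := by
  refine tendsto_of_subseq_tendsto fun ns hns => ?_
  obtain ⟨ms, -, hae⟩ := exists_subseq_ae (u := fun k => u (ns k)) (fun k => hu _) hf (hl.comp hns)
  exact ⟨ms, e12_dom (a := fun k => u (ns (ms k))) (fun k => (hu _).aestronglyMeasurable)
    (fun k => hb _) hae hF⟩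

theorem e12_bl1 {ι : Type} {l : Filter ι} {a : ι → Y → ℝ} {a₀ φ : Y → ℝ}
    (hm : AEStronglyMeasurable φ μ') (hφ : Bdd μ' φ) (ha : ∀ᶠ i in l, Integrable (a i) μ')
    (h0 : Integrable a₀ μ') (hl : Tendsto (fun i => ∫ y, |a i y - a₀ y| ∂μ') l (𝓝 0)) :
    Tendsto (fun i => ∫ y, φ y * a i y ∂μ') l (𝓝 (∫ y, φ y * a₀ y ∂μ')) := by
  obtain ⟨C, -, hC⟩ := hφ.nonneg
  rw [tendsto_iff_norm_sub_tendsto_zero]
  have hl' := hl.const_mul C
  rw [mul_zero] at hl'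
  refine squeeze_zero' (Eventually.of_forall fun i => norm_nonneg _) ?_ hl'
  filter_upwards [ha] with i hi
  rw [← integral_sub (hφ.mul_integrable hm hi) (hφ.mul_integrable hm h0), ← integral_const_mul]
  refine norm_integral_le_of_norm_le ((hi.sub h0).abs.const_mul C) ?_
  filter_upwards [hC] with y hy
  rw [Real.norm_eq_abs, ← mul_sub, abs_mul]
  exact mul_le_mul_of_nonneg_right hy (abs_nonneg _)

theorem e12_green {u Lu φ Lφ : Y → ℝ} (hu : u ∈ D'.V) (hL : Lu ∈ D'.V) (bu : Bdd μ' u)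
    (l1 : D'.Lap u Lu) (hφ : φ ∈ D'.V) (bφ : Bdd μ' φ) (l2 : D'.Lap φ Lφ) (h2 : MemLp Lφ 2 μ') :
    ∫ a, Lφ a * (u a * u a) ∂μ' - ∫ a, φ a * (Lu a * u a + u a * Lu a) ∂μ' =
      2 * ∫ a, φ a * D'.G u u a ∂μ' := by
  have huu := D'.mul_mem hu hu bu bu
  have i1 := integrable_mul_of_memLp (D'.memLp _ hu) (D'.memLp _ hL)
  have i2 := integrable_mul_of_memLp (D'.memLp _ hL) (D'.memLp _ hu)
  have i3 := DS.G_int hu hu
  have i4 : Integrable (fun a => u a * Lu a + u a * Lu a + 2 * D'.G u u a) μ' :=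
    (i1.add i1).add (i3.const_mul 2)
  have i5 : Integrable (fun a => Lu a * u a + u a * Lu a) μ' := i2.add i1
  have e1 := (l1.mul l1 bu.locBdd bu.locBdd).test_int huu i4 hφ bφ
  have e2 := l2.test hφ h2 huu
  rw [integral_congr_ae (DS.G_symm (D'.W_of_mem hφ) (D'.W_of_mem huu)), e1] at e2
  have e3 : ∫ a, Lφ a * (u a * u a) ∂μ' =
      ∫ a, (u a * Lu a + u a * Lu a + 2 * D'.G u u a) * φ a ∂μ' := (neg_injective e2).symm
  have hm := D'.aesm hφ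
  rw [e3, ← integral_const_mul, sub_eq_iff_eq_add,
    ← integral_add ((bφ.mul_integrable hm i3).const_mul 2) (bφ.mul_integrable hm i5)]
  exact integral_congr_ae (Eventually.of_forall fun a => by ring)

namespace Env

variable (c : Env D D' Γ π κ m)

theorem e12_split {u w φ Lφ : Y → ℝ} (hu : u ∈ D'.V) (hw : w ∈ D'.V)
    (hm : AEStronglyMeasurable φ μ') (bφ : Bdd μ' φ) :
    c.I1 u w φ Lφ ↔ ((m + 2 : ℕ) : ℝ)⁻¹ * ∫ a, φ a * (w a * w a) ∂μ' + ∫ a, φ a * D'.G u w a ∂μ' -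
      κ * ∫ a, φ a * D'.G u u a ∂μ' ≤ 1 / 2 * ∫ a, Lφ a * D'.G u u a ∂μ' := by
  have i1 := (bφ.mul_integrable hm
    (integrable_mul_of_memLp (D'.memLp _ hw) (D'.memLp _ hw))).const_mul ((m + 2 : ℕ) : ℝ)⁻¹
  have i2 := bφ.mul_integrable hm (DS.G_int hu hw)
  have i3 := (bφ.mul_integrable hm (DS.G_int hu hu)).const_mul κ
  have i4 : Integrable (fun a => ((m + 2 : ℕ) : ℝ)⁻¹ * (φ a * (w a * w a)) + φ a * D'.G u w a) μ' :=
    i1.add i2
  have e : ∫ a, φ a * (w a ^ 2 / (m + 2 : ℕ) + D'.G u w a - κ * D'.G u u a) ∂μ' =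
      ((m + 2 : ℕ) : ℝ)⁻¹ * ∫ a, φ a * (w a * w a) ∂μ' + ∫ a, φ a * D'.G u w a ∂μ' -
        κ * ∫ a, φ a * D'.G u u a ∂μ' := by
    rw [← integral_const_mul, ← integral_const_mul, ← integral_add i1 i2, ← integral_sub i4 i3]
    exact integral_congr_ae (Eventually.of_forall fun a => by ring)
  unfold I1
  rw [e]

theorem e12_lim {ι : Type} {l : Filter ι} [l.NeBot] {u w : ι → Y → ℝ} {f g φ Lφ : Y → ℝ}
    (hu : ∀ᶠ i in l, u i ∈ D'.V) (hw : ∀ᶠ i in l, w i ∈ D'.V) (hf : f ∈ D'.V) (hg : g ∈ D'.V)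
    (h1 : Tendsto (fun i => D'.E (u i - f)) l (𝓝 0))
    (h2 : Tendsto (fun i => D'.E (w i - g)) l (𝓝 0))
    (h3 : Tendsto (fun i => RC.n2 μ' (w i - g)) l (𝓝 0))
    (m1 : AEStronglyMeasurable φ μ') (b1 : Bdd μ' φ) (m2 : AEStronglyMeasurable Lφ μ')
    (b2 : Bdd μ' Lφ) (hI : ∀ᶠ i in l, c.I1 (u i) (w i) φ Lφ) : c.I1 f g φ Lφ := by
  have hw2 : ∀ᶠ i in l, MemLp (w i) 2 μ' := hw.mono fun i hi => D'.memLp _ hi
  have hg2 := D'.memLp _ hg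
  have t1 := e12_bl1 (a := fun i y => w i y * w i y) m1 b1
    (hw2.mono fun i hi => integrable_mul_of_memLp hi hi) (integrable_mul_of_memLp hg2 hg2)
    (tendsto_integral_mul hw2 hw2 hg2 hg2 h3 h3)
  have t2 := e12_bl1 (a := fun i => D'.G (u i) (w i)) m1 b1
    ((hu.and hw).mono fun i hi => DS.G_int hi.1 hi.2) (DS.G_int hf hg)
    (DS.G_tendsto hu hw hf hg h1 h2)
  have t3 := e12_bl1 (a := fun i => D'.G (u i) (u i)) m1 b1
    (hu.mono fun i hi => DS.G_int hi hi) (DS.G_int hf hf) (DS.G_tendsto hu hu hf hf h1 h1)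
  have t4 := e12_bl1 (a := fun i => D'.G (u i) (u i)) m2 b2
    (hu.mono fun i hi => DS.G_int hi hi) (DS.G_int hf hf) (DS.G_tendsto hu hu hf hf h1 h1)
  rw [c.e12_split hf hg m1 b1]
  refine le_of_tendsto_of_tendsto (((t1.const_mul _).add t2).sub (t3.const_mul κ))
    (t4.const_mul (1 / 2)) ?_
  filter_upwards [hu, hw, hI] with i a1 a2 a3
  exact (c.e12_split a1 a2 m1 b1).mp a3

include c in
theorem e12_cut (y₀ : Y) : ∃ (C : NNReal) (χ Lχ : ℕ → Y → ℝ),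
    (∀ k, D'.TF univ (χ k) (Lχ k) ∧ (∀ a, χ k a ≤ 1) ∧ LipschitzWith C (χ k) ∧
      ∀ a, |Lχ k a| ≤ C) ∧ ∀ᵐ a ∂μ', ∀ᶠ k in atTop, χ k a = 1 ∧ Lχ k a = 0 := by
  obtain ⟨C, hC, hcut⟩ := c.hp.cut
  obtain ⟨s, hs, hs1, hκ⟩ := c.hp.exists_scale
  have hch := fun k : ℕ => hcut (ball (π y₀) k) s isBounded_ball hs (hκ s hs.le le_rfl)
  choose ζ Lζ _ hTF hle hone hlip hLb using hch
  have hle2 : C / s ≤ C / s ^ 2 :=
    div_le_div_of_nonneg_left hC.le (by positivity) (by nlinarith)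
  refine ⟨⟨C / s ^ 2, by positivity⟩, fun k a => ζ k (π a), fun k a => Lζ k (π a),
    fun k => ⟨(c.tf_lift (hTF k)).mono (subset_univ _), fun a => hle k _, ?_, fun a => hLb k _⟩, ?_⟩
  · refine LipschitzWith.of_dist_le_mul fun a b => ?_
    rw [Real.dist_eq]
    exact (hlip k _ _).trans (mul_le_mul hle2 (c.quot.dist_le a b) dist_nonneg (by positivity))
  · have hz : ∀ᵐ x ∂μ, ∀ k : ℕ, x ∈ thickening s (ball (π y₀) k) → Lζ k x = 0 :=
      ae_all_iff.mpr fun k => (hTF k).lap.zero_on isOpen_thickening 1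
        (Eventually.of_forall (hone k))
    filter_upwards [c.ae_lift hz] with a ha
    filter_upwards [(tendsto_natCast_atTop_atTop (R := ℝ)).eventually_gt_atTop
      (dist (π a) (π y₀))] with k hk
    have hm : π a ∈ thickening s (ball (π y₀) k) := self_subset_thickening hs _ hk
    exact ⟨hone k _ hm, ha k hm⟩

theorem p1_ext (h1 : c.P1 univ) {h : Y → ℝ} (hh : MemLp h 2 μ') (hb : Bdd μ' h) {t : ℝ}
    (ht : 0 < t) {φ Lφ : Y → ℝ} {L : NNReal} (hL : LipschitzWith L φ) (h0 : ∀ a, 0 ≤ φ a)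
    (bφ : Bdd μ' φ) (hl : D'.Lap φ Lφ) (bL : Bdd μ' Lφ) :
    c.I1 (D'.P t h) (D'.L t h) φ Lφ := by
  rcases isEmpty_or_nonempty Y with hY | ⟨⟨y₀⟩⟩
  · unfold I1
    simp [Measure.eq_zero_of_isEmpty μ']
  obtain ⟨C, χ, Lχ, hχ, hae⟩ := c.e12_cut y₀
  obtain ⟨u1, u2, -⟩ := c.P_mem hh ht
  have mφ : AEStronglyMeasurable φ μ' := hL.continuous.aestronglyMeasurable
  obtain ⟨i1, -, -⟩ := c.I1_int u1 u2 mφ bφ hl.aesm bL
  have wφ := D'.W_of_lipschitz hL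
  have wχ := fun k => D'.W_of_lipschitz (hχ k).2.2.1
  have hT := fun k => (hχ k).1.mul hl (fun x r => ⟨L, hL.lipschitzOnWith⟩) h0 bL.locBdd
  have hχ1 : ∀ k a, |χ k a| ≤ 1 := fun k a =>
    abs_le.mpr ⟨by linarith [(hχ k).1.nonneg a], (hχ k).2.1 a⟩
  obtain ⟨C1, hC10, hC1⟩ := bφ.nonneg
  obtain ⟨C2, hC20, hC2⟩ := bL.nonneg
  have t1 := e12_dom (a := fun k => χ k * φ) (a₀ := φ) (C := C1)
    (fun k => (hT k).lip.continuous.aestronglyMeasurable) (fun k => by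
      filter_upwards [hC1] with a ha
      rw [Pi.mul_apply, abs_mul]
      nlinarith [hχ1 k a, abs_nonneg (χ k a), abs_nonneg (φ a)]) (by
      filter_upwards [hae] with a ha
      refine tendsto_const_nhds.congr' ?_
      filter_upwards [ha] with k hk
      rw [Pi.mul_apply, hk.1, one_mul]) i1
  have t2 := e12_dom (a := fun k a => χ k a * Lφ a + φ a * Lχ k a + 2 * D'.G (χ k) φ a) (a₀ := Lφ)
    (C := C2 + C1 * C + 2 * (C * L)) (fun k => (hT k).lap.aesm) (fun k => by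
      filter_upwards [hC1, hC2, DS.G_abs_le (wχ k) wφ, DS.G_le_lipschitz (D := D') (hχ k).2.2.1,
        DS.G_le_lipschitz (D := D') hL] with a a1 a2 a3 a4 a5
      have a6 : |χ k a * Lφ a| ≤ C2 := by
        rw [abs_mul]
        nlinarith [hχ1 k a, abs_nonneg (χ k a), abs_nonneg (Lφ a)]
      have a7 : |φ a * Lχ k a| ≤ C1 * C := by
        rw [abs_mul]
        exact mul_le_mul a1 ((hχ k).2.2.2 a) (abs_nonneg _) hC10.le
      have a8 : |D'.G (χ k) φ a| ≤ C * L :=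
        a3.trans (mul_le_mul (Real.sqrt_le_iff.mpr ⟨C.2, a4⟩) (Real.sqrt_le_iff.mpr ⟨L.2, a5⟩)
          (Real.sqrt_nonneg _) C.2)
      rw [abs_le] at a6 a7 a8 ⊢
      constructor <;> linarith [a6.1, a6.2, a7.1, a7.2, a8.1, a8.2]) (by
      filter_upwards [hae, ae_all_iff.mpr fun k => DS.G_level (wχ k) wφ 1] with a ha hG
      refine tendsto_const_nhds.congr' ?_
      filter_upwards [ha] with k hk
      rw [hG k hk.1, hk.1, hk.2]
      ring) (DS.G_int u1 u1)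
  exact le_of_tendsto_of_tendsto' t1 (t2.const_mul (1 / 2)) fun k =>
    h1 h t _ _ hh hb ht ((hT k).mono fun a _ => mem_univ _)

include c in
theorem e12_conv {s : X → Y} (hm : Measurable s) (hs : ∀ x, π (s x) = x) {φ : X → ℝ}
    (hφ : AEStronglyMeasurable φ μ) (bφ : Bdd μ φ) {g : Y → ℝ} (hg : Integrable g μ') :
    ∫ x, φ x * dsc Γ s g x ∂μ = ∫ a, φ (π a) * g a ∂μ' :=
  c.integral_mul_dsc hm hs hφ hg.aestronglyMeasurable
    ((c.bdd_lift bφ).mul_integrable (c.aesm_lift hφ) hg)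

include c in
theorem e12_test {ψ : X → ℝ} (hψ : LipB ψ) {τ : ℝ} (hτ : 0 < τ) :
    (∃ L, LipschitzWith L (D.Pk τ ψ)) ∧ Bdd μ (D.Pk τ ψ) ∧ Bdd μ (D.Lk τ ψ) ∧
      D.Lap (D.Pk τ ψ) (D.Lk τ ψ) ∧ D.Pk τ ψ ∈ D.V ∧ D.Lk τ ψ ∈ D.V := by
  obtain ⟨M, hM0, hM⟩ := (hψ.bdd (μ := μ)).nonneg
  obtain ⟨a1, a2, a3, -, a5⟩ := c.hp.pk_bdd ψ τ M hψ.continuous.aestronglyMeasurable hM hτ
  have h2 := D.lipB_memLp hψ
  refine ⟨⟨⟨Real.exp (κ * τ) * M / √(2 * τ), by positivity⟩,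
    LipschitzWith.of_dist_le_mul fun x y => ?_⟩, ⟨M, Eventually.of_forall a1⟩,
    ⟨_, Eventually.of_forall a5⟩, a3,
    D.congr _ ((c.hp.flow.heat ψ h2).1 τ hτ).1 _ (c.hp.P_rep h2 hτ),
    D.congr _ (c.hp.flow.L_mem ψ τ h2 hτ) _ (c.hp.L_rep ψ τ h2 hτ)⟩
  rw [Real.dist_eq]
  exact a2 x y

include c in
theorem e12_der {s : X → Y} (hm : Measurable s) (hs : ∀ x, π (s x) = x) {ψ : X → ℝ}
    (hψ : LipB ψ) {w : ℝ → Y → ℝ} {w' : Y → ℝ} {t τ : ℝ} (hτ : 0 < τ)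
    (hw : DerL1 μ' w w' (t - τ)) :
    HasDerivAt (fun σ => ∫ x, D.Pk σ ψ x * dsc Γ s (w (t - σ)) x ∂μ)
      (∫ a, D.Lk τ ψ (π a) * w (t - τ) a ∂μ' - ∫ a, D.Pk τ ψ (π a) * w' a ∂μ') τ := by
  obtain ⟨-, b1, b2, -, v1, v2⟩ := c.e12_test hψ hτ
  have h1 := (c.hp.pk_derW hψ.continuous.aestronglyMeasurable hψ.bdd hτ).hasDerivAt_mul
    (c.derL1_dsc hm hs hw).rev
  refine h1.congr_deriv ?_
  rw [← c.e12_conv hm hs (D.aesm v2) b2 hw.1.self_of_nhds, ← c.e12_conv hm hs (D.aesm v1) b1 hw.2.1,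
    sub_eq_add_neg (∫ x, _ ∂μ), ← integral_neg]
  congr 1
  exact integral_congr_ae (Eventually.of_forall fun x => by simp)

theorem e12_step (h1 : c.P1 univ) {h : Y → ℝ} (hh : MemLp h 2 μ') (hb : Bdd μ' h)
    {s : X → Y} (hm : Measurable s) (hs : ∀ x, π (s x) = x) {ψ : X → ℝ} (hψ : LipB ψ)
    (h0 : ∀ x, 0 ≤ ψ x) {t τ : ℝ} (hτ : 0 < τ) (ht : τ < t) {A B : ℝ → ℝ}
    (hA : A = fun σ => ∫ x, D.Pk σ ψ x * dsc Γ s (D'.G (D'.P (t - σ) h) (D'.P (t - σ) h)) x ∂μ)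
    (hB : B = fun σ => ∫ x, D.Pk σ ψ x *
      dsc Γ s (fun a => D'.P (t - σ) h a * D'.P (t - σ) h a) x ∂μ) :
    (∃ A', HasDerivAt A A' τ ∧ 0 ≤ 2 * κ * A τ + A') ∧ 0 ≤ A τ ∧ HasDerivAt B (2 * A τ) τ := by
  have hσ : 0 < t - τ := sub_pos.mpr ht
  obtain ⟨⟨L, hL⟩, b1, b2, l1, v1, v2⟩ := c.e12_test hψ hτ
  obtain ⟨u1, u2, u3⟩ := c.P_mem hh hσ
  have hd := c.flow.derV h (t - τ) hh hσ
  have hp : ∀ a, 0 ≤ D.Pk τ ψ (π a) := fun a => c.hp.pk_nonneg (Eventually.of_forall h0) hτ _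
  have e1 : A τ = ∫ a, D.Pk τ ψ (π a) * D'.G (D'.P (t - τ) h) (D'.P (t - τ) h) a ∂μ' := by
    rw [hA]
    exact c.e12_conv hm hs (D.aesm v1) b1 (DS.G_int u1 u1)
  refine ⟨⟨_, hA ▸ c.e12_der hm hs hψ hτ hd.G_self, ?_⟩, ?_, ?_⟩
  · have k1 := c.p1_ext h1 hh hb hσ (φ := fun a => D.Pk τ ψ (π a)) (hL.comp c.quot.lip) hp
      (c.bdd_lift b1) (c.lap_lift l1) (c.bdd_lift b2)
    rw [c.e12_split u1 u2 (c.aesm_lift (D.aesm v1)) (c.bdd_lift b1), ← e1] at k1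
    have k2 : 0 ≤ ((m + 2 : ℕ) : ℝ)⁻¹ *
        ∫ a, D.Pk τ ψ (π a) * (D'.L (t - τ) h a * D'.L (t - τ) h a) ∂μ' :=
      mul_nonneg (by positivity) (integral_nonneg fun a => mul_nonneg (hp a) (mul_self_nonneg _))
    have k3 : ∫ a, D.Pk τ ψ (π a) * (2 * D'.G (D'.P (t - τ) h) (D'.L (t - τ) h) a) ∂μ' =
        2 * ∫ a, D.Pk τ ψ (π a) * D'.G (D'.P (t - τ) h) (D'.L (t - τ) h) a ∂μ' := by
      rw [← integral_const_mul]
      exact integral_congr_ae (Eventually.of_forall fun a => by ring)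
    rw [k3]
    linarith
  · rw [e1]
    refine integral_nonneg_of_ae ?_
    filter_upwards [DS.G_nonneg (D'.W_of_mem u1)] with a ha using mul_nonneg (hp a) ha
  · have k1 := c.e12_der hm hs hψ hτ (hd.derL2.mul hd.derL2)
    rw [e12_green u1 u2 (c.P_bdd hh hb _) u3 (c.mem_lift v1) (c.bdd_lift b1) (c.lap_lift l1)
      (c.memLp_lift (D.memLp _ v2)), ← e1] at k1
    exact hB ▸ k1

theorem e12_key (h1 : c.P1 univ) {h : Y → ℝ} (hh : MemLp h 2 μ') {M : ℝ}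
    (hM : ∀ᵐ a ∂μ', |h a| ≤ M) {s : X → Y} (hm : Measurable s) (hs : ∀ x, π (s x) = x)
    {ψ : X → ℝ} (hψ : LipB ψ) (h0 : ∀ x, 0 ≤ ψ x) {t : ℝ} (ht : 0 < t) :
    ∫ x, ψ x * dsc Γ s (D'.G (D'.P t h) (D'.P t h)) x ∂μ ≤
      ∫ x, ψ x * (Real.exp (2 * κ * t) * (2 * M ^ 2) / (t / 2)) ∂μ := by
  have hκ := c.hp.κ_nonneg
  have hψm : AEStronglyMeasurable ψ μ := hψ.continuous.aestronglyMeasurable
  obtain ⟨A, hA⟩ : ∃ A : ℝ → ℝ, A = fun σ => ∫ x, D.Pk σ ψ x *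
    dsc Γ s (D'.G (D'.P (t - σ) h) (D'.P (t - σ) h)) x ∂μ := ⟨_, rfl⟩
  obtain ⟨B, hB⟩ : ∃ B : ℝ → ℝ, B = fun σ => ∫ x, D.Pk σ ψ x *
    dsc Γ s (fun a => D'.P (t - σ) h a * D'.P (t - σ) h a) x ∂μ := ⟨_, rfl⟩
  have hst := fun τ (a1 : 0 < τ) (a2 : τ < t) => c.e12_step h1 hh ⟨M, hM⟩ hm hs hψ h0 a1 a2 hA hB
  have hA' : ∀ τ, ∃ A', 0 < τ → τ < t → HasDerivAt A A' τ ∧ 0 ≤ 2 * κ * A τ + A' := fun τ => by
    by_cases hτ : 0 < τ ∧ τ < t
    · obtain ⟨A', hA'⟩ := (hst τ hτ.1 hτ.2).1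
      exact ⟨A', fun _ _ => hA'⟩
    · exact ⟨0, fun a1 a2 => absurd ⟨a1, a2⟩ hτ⟩
  choose A' hA' using hA'
  set K : ℝ := Real.exp (2 * κ * t) with hK
  have hK0 : 0 < K := Real.exp_pos _
  have hF : ∀ τ, 0 < τ → τ < t → HasDerivAt
      (fun σ => (t / 2 - σ) * Real.exp (2 * κ * σ) * A σ + K * B σ)
      ((t / 2 - τ) * Real.exp (2 * κ * τ) * (2 * κ * A τ + A' τ) +
        (2 * K - Real.exp (2 * κ * τ)) * A τ) τ := fun τ a1 a2 => by
    have d1 : HasDerivAt (fun σ : ℝ => t / 2 - σ) (-1) τ := (hasDerivAt_id τ).const_sub (t / 2)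
    have d2 : HasDerivAt (fun σ : ℝ => Real.exp (2 * κ * σ)) (Real.exp (2 * κ * τ) * (2 * κ)) τ := by
      have d := ((hasDerivAt_id τ).const_mul (2 * κ)).exp
      simpa using d
    refine (((d1.mul d2).mul (hA' τ a1 a2).1).add ((hst τ a1 a2).2.2.const_mul K)).congr_deriv ?_
    simp only [Pi.mul_apply]
    ring
  have hB0 : ∀ τ, 0 < τ → 0 ≤ B τ := fun τ a1 => by
    rw [hB]
    exact integral_nonneg fun x => mul_nonneg (c.hp.pk_nonneg (Eventually.of_forall h0) a1 x)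
      (add_nonneg (mul_self_nonneg _) (mul_self_nonneg _))
  have ht2 : 0 < t / 2 := by positivity
  have hBa : B (t / 2) ≤ ∫ x, ψ x * (2 * M ^ 2) ∂μ := by
    have u2 := c.flow.memLp h (t - t / 2) hh
    have q1 := c.integrable_dsc hm hs (integrable_mul_of_memLp u2 u2)
    have q2 : ∀ᵐ x ∂μ, |dsc Γ s (fun a => D'.P (t - t / 2) h a * D'.P (t - t / 2) h a) x| ≤
        2 * M ^ 2 := by
      filter_upwards [c.ae_sec hs (c.P_abs_le hh hM (t - t / 2))] with x hx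
      have a1 := sq_le_sq' (abs_le.mp hx.1).1 (abs_le.mp hx.1).2
      have a2 := sq_le_sq' (abs_le.mp hx.2).1 (abs_le.mp hx.2).2
      unfold dsc
      rw [abs_of_nonneg (add_nonneg (mul_self_nonneg _) (mul_self_nonneg _))]
      nlinarith
    have q3 := (c.hp.pk_bdd _ (t / 2) _ q1.aestronglyMeasurable q2 ht2).1
    rw [hB]
    simp only
    rw [c.hp.pk_symm hψm hψ.bdd q1 ht2]
    refine integral_mono (hψ.bdd.mul_integrable hψm (c.hp.pk_l1 _ _ q1 ht2).2)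
      ((D.lipB_int hψ).mul_const _) fun x => ?_
    exact mul_le_mul_of_nonneg_left ((le_abs_self _).trans (q3 x)) (h0 x)
  have hmono : ∀ τ ∈ Ioo 0 (t / 2), (t / 2 - τ) * Real.exp (2 * κ * τ) * A τ ≤
      K * ∫ x, ψ x * (2 * M ^ 2) ∂μ := fun τ hτ => by
    have k1 := sub_ge_of_deriv (B := fun _ => 0) (B' := fun _ => 0) hτ.2.le
      (fun σ hσ => (hF σ (hτ.1.trans_le hσ.1) (by linarith [hσ.2])).continuousAt.continuousWithinAt)
      continuousOn_const (fun σ hσ => hF σ (hτ.1.trans hσ.1) (by linarith [hσ.2]))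
      (fun σ _ => hasDerivAt_const σ 0) (fun σ hσ => by
        have a1 : 0 < σ := hτ.1.trans hσ.1
        have a2 : σ < t := by linarith [hσ.2]
        have a3 : Real.exp (2 * κ * σ) ≤ K :=
          Real.exp_le_exp.mpr (mul_le_mul_of_nonneg_left a2.le (by positivity))
        exact add_nonneg (mul_nonneg (mul_nonneg (by linarith [hσ.2]) (Real.exp_pos _).le)
          (hA' σ a1 a2).2) (mul_nonneg (by linarith) (hst σ a1 a2).2.1))
    have k2 := mul_nonneg hK0.le (hB0 τ hτ.1)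
    have k3 := mul_le_mul_of_nonneg_left hBa hK0.le
    simp only [sub_self, zero_mul, zero_add] at k1
    linarith
  have hd : DerL1 μ (fun σ => dsc Γ s (D'.G (D'.P σ h) (D'.P σ h))) _ (t - 0) :=
    c.derL1_dsc hm hs (c.flow.derV h (t - 0) hh (by linarith)).G_self
  have hlim := c.hp.pk_zero_weak hψm hψ.bdd
    (w := fun σ => dsc Γ s (D'.G (D'.P (t - σ) h) (D'.P (t - σ) h)))
    (hd.rev.1.filter_mono nhdsWithin_le_nhds) hd.1.self_of_nhds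
    (hd.rev.cont.mono_left nhdsWithin_le_nhds)
  rw [← hA, sub_zero] at hlim
  have hc : Continuous fun τ : ℝ => (t / 2 - τ) * Real.exp (2 * κ * τ) := by fun_prop
  have hlim2 := ((hc.tendsto 0).mono_left (nhdsWithin_le_nhds (s := Ioi (0 : ℝ)))).mul hlim
  have k4 := le_of_tendsto hlim2 (by
    filter_upwards [Ioo_mem_nhdsGT ht2] with τ hτ using hmono τ hτ)
  simp only [sub_zero, mul_zero, Real.exp_zero, mul_one] at k4
  rw [integral_mul_const] at k4 ⊢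
  rw [← mul_div_assoc, le_div_iff₀ ht2]
  linarith

theorem G_bdd (h1 : c.P1 univ) {h : Y → ℝ} (hh : MemLp h 2 μ') (hb : Bdd μ' h) {t : ℝ}
    (ht : 0 < t) : Bdd μ' (D'.G (D'.P t h) (D'.P t h)) := by
  obtain ⟨s, hm, hs⟩ := c.sec
  obtain ⟨M, hM⟩ := hb
  have u1 := (c.P_mem hh ht).1
  have key := D.ae_le_of_test (f := dsc Γ s (D'.G (D'.P t h) (D'.P t h)))
    (g := fun _ => Real.exp (2 * κ * t) * (2 * M ^ 2) / (t / 2))
    (locInt_of_int (c.integrable_dsc hm hs (DS.G_int u1 u1)))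
    (D.locInt_of_locBdd aestronglyMeasurable_const (Bdd.const _).locBdd) isOpen_univ
    (fun ψ hψ _ h0 => c.e12_key h1 hh hM hm hs hψ h0 ht)
  have hG := DS.G_nonneg (D'.W_of_mem u1)
  refine ⟨Real.exp (2 * κ * t) * (2 * M ^ 2) / (t / 2), ?_⟩
  filter_upwards [c.ae_lift key, hG, c.ae_refl hG] with a a1 a2 a3
  have a4 := a1 (mem_univ _)
  rw [c.dsc_π hs] at a4
  rw [abs_of_nonneg a2]
  linarith

include c in
theorem e12_rep {f : Y → ℝ} (hf : f ∈ D'.V) (hG : Bdd μ' (D'.G f f)) :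
    ∃ g L, LipschitzWith L g ∧ f =ᵐ[μ'] g := by
  obtain ⟨C, hC0, hC⟩ := hG.nonneg
  have hk : 0 < C + 1 := by linarith
  obtain ⟨g, hg, he⟩ := c.s2l ((C + 1)⁻¹ • f) (D'.smul _ f hf) (by
    filter_upwards [hC, DS.G_smul_smul (C + 1)⁻¹ (D'.W_of_mem hf)] with a a1 a2
    rw [a2, inv_pow, inv_mul_le_iff₀ (by positivity)]
    nlinarith [le_abs_self (D'.G f f a)])
  refine ⟨_, _, (lipschitzWith_smul (C + 1)).comp hg, ?_⟩
  filter_upwards [he] with a ha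
  simp only [Function.comp_apply, ← ha, Pi.smul_apply, smul_eq_mul]
  field_simp

theorem e12_be1 (h1 : c.P1 univ) {h : Y → ℝ} (hh : MemLp h 2 μ') (hb : Bdd μ' h) {t : ℝ}
    (ht : 0 < t) {φ Lφ : Y → ℝ} (hφ : φ ∈ D'.V) (l2 : D'.Lap φ Lφ) (h2 : MemLp Lφ 2 μ')
    (h0 : ∀ᵐ a ∂μ', 0 ≤ φ a) (b1 : Bdd μ' φ) (b2 : Bdd μ' Lφ) :
    c.I1 (D'.P t h) (D'.L t h) φ Lφ := by
  have hφ2 := D'.memLp _ hφ
  obtain ⟨u1, u2, -⟩ := c.P_mem hh ht
  obtain ⟨i1, -, -⟩ := c.I1_int u1 u2 hφ2.aestronglyMeasurable b1 h2.aestronglyMeasurable b2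
  obtain ⟨C1, hC1⟩ := b1
  obtain ⟨C2, hC2⟩ := b2
  have t1 := e12_weak (fun δ => c.flow.memLp φ δ hφ2) (c.P_abs_le hφ2 hC1) hφ2
    (c.flow.heat φ hφ2).2 i1
  have t2 := e12_weak (fun δ => c.flow.memLp Lφ δ h2) (c.P_abs_le h2 hC2) h2
    (c.flow.heat Lφ h2).2 (DS.G_int u1 u1)
  refine le_of_tendsto_of_tendsto t1 (t2.const_mul (1 / 2)) ?_
  filter_upwards [self_mem_nhdsWithin] with δ hδ
  have hδ' : 0 < δ := hδ
  obtain ⟨v1, -, v3⟩ := c.P_mem hφ2 hδ'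
  obtain ⟨g, L, hg, he⟩ := c.e12_rep v1 (c.G_bdd h1 hφ2 ⟨C1, hC1⟩ hδ')
  have he' : D'.P δ φ =ᵐ[μ'] fun a => max (g a) 0 := by
    filter_upwards [he, c.flow.pos φ δ hφ2 h0] with a a1 a2
    rw [← a1, max_eq_left a2]
  have k := c.p1_ext h1 hh hb ht (hg.max_const 0) (fun a => le_max_right _ _)
    ((c.P_bdd hφ2 ⟨C1, hC1⟩ δ).congr he')
    (v3.congr he' (c.flow.comm φ hφ Lφ δ l2 h2 hδ')) (c.P_bdd h2 ⟨C2, hC2⟩ δ)
  refine le_trans (le_of_eq (integral_congr_ae ?_)) k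
  filter_upwards [he'] with a ha
  rw [ha]

include c in
theorem e12_sub {f g : Y → ℝ} (hf : MemLp f 2 μ') (hg : MemLp g 2 μ') {t : ℝ} (ht : 0 < t) :
    D'.P t (f - g) =ᵐ[μ'] D'.P t f - D'.P t g ∧ D'.L t (f - g) =ᵐ[μ'] D'.L t f - D'.L t g := by
  have e : f - g + g = f := sub_add_cancel f g
  have a1 := c.flow.add (f - g) g t (hf.sub hg) hg
  have a2 := c.flow.L_add (f - g) g t (hf.sub hg) hg ht
  rw [e] at a1 a2
  constructor
  · filter_upwards [a1] with a ha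
    rw [Pi.sub_apply, ha, Pi.add_apply, add_sub_cancel_right]
  · filter_upwards [a2] with a ha
    rw [Pi.sub_apply, ha, Pi.add_apply, add_sub_cancel_right]

theorem e12_be2 (h1 : c.P1 univ) {h : Y → ℝ} (hh : MemLp h 2 μ') {t : ℝ}
    (ht : 0 < t) {φ Lφ : Y → ℝ} (hφ : φ ∈ D'.V) (l2 : D'.Lap φ Lφ) (h2 : MemLp Lφ 2 μ')
    (h0 : ∀ᵐ a ∂μ', 0 ≤ φ a) (b1 : Bdd μ' φ) (b2 : Bdd μ' Lφ) :
    c.I1 (D'.P t h) (D'.L t h) φ Lφ := by
  obtain ⟨u, hu, hl⟩ := D'.exists_lipB_n2 hh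
  have hu2 := fun k => D'.lipB_memLp (hu k)
  have hd := fun k => (hu2 k).sub hh
  have ht2 : 0 < t / 2 := by positivity
  have hz : ∀ b : ℝ, Tendsto (fun k => RC.n2 μ' (u k - h) / b) atTop (𝓝 0) := fun b => by
    simpa using hl.div_const b
  refine c.e12_lim (l := atTop) (u := fun k => D'.P t (u k)) (w := fun k => D'.L t (u k))
    (Eventually.of_forall fun k => (c.P_mem (hu2 k) ht).1)
    (Eventually.of_forall fun k => (c.P_mem (hu2 k) ht).2.1) (c.P_mem hh ht).1 (c.P_mem hh ht).2.1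
    ?_ ?_ ?_ (D'.aesm hφ) b1 h2.aestronglyMeasurable b2
    (Eventually.of_forall fun k => c.e12_be1 h1 (hu2 k) (hu k).bdd ht hφ l2 h2 h0 b1 b2)
  · refine squeeze_zero (fun k => ?_) (fun k => ?_) (hz t)
    · exact DS.E_nonneg (D'.W_of_mem (D'.sub_mem (c.P_mem (hu2 k) ht).1 (c.P_mem hh ht).1))
    · rw [← DS.E_congr (D'.W_of_mem (c.P_mem (hd k) ht).1) (c.e12_sub (hu2 k) hh ht).1]
      exact c.flow.E_le _ t (hd k) ht
  · refine squeeze_zero (fun k => ?_) (fun k => ?_) (hz ((t / 2) ^ 2 * (t / 2)))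
    · exact DS.E_nonneg (D'.W_of_mem (D'.sub_mem (c.P_mem (hu2 k) ht).2.1 (c.P_mem hh ht).2.1))
    · have a1 := c.flow.L_semi (u k - h) (t / 2) (t / 2) (hd k) ht2.le ht2
      rw [add_halves] at a1
      rw [← DS.E_congr (D'.W_of_mem (c.P_mem (hd k) ht).2.1) (c.e12_sub (hu2 k) hh ht).2,
        DS.E_congr (D'.W_of_mem (c.P_mem (hd k) ht).2.1) a1, ← div_div]
      exact (c.flow.E_le _ _ (D'.memLp _ (c.P_mem (hd k) ht2).2.1) ht2).trans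
        (div_le_div_of_nonneg_right (c.flow.L_le _ _ (hd k) ht2) ht2.le)
  · refine squeeze_zero (fun k => n2_nonneg _) (fun k => ?_) (hz (t ^ 2))
    rw [← n2_congr (c.e12_sub (hu2 k) hh ht).2]
    exact c.flow.L_le _ t (hd k) ht

theorem be (h1 : c.P1 univ) {f Lf φ Lφ : Y → ℝ} (hf : f ∈ D'.V) (hL : Lf ∈ D'.V) (hφ : φ ∈ D'.V)
    (l1 : D'.Lap f Lf) (l2 : D'.Lap φ Lφ) (h2 : MemLp Lφ 2 μ') (h0 : ∀ᵐ a ∂μ', 0 ≤ φ a)
    (b1 : Bdd μ' φ) (b2 : Bdd μ' Lφ) : c.I1 f Lf φ Lφ := by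
  have hf2 := D'.memLp _ hf
  have hL2 := D'.memLp _ hL
  have hpos : ∀ᶠ t in 𝓝[>] (0 : ℝ), 0 < t := self_mem_nhdsWithin
  refine c.e12_lim (l := 𝓝[>] (0 : ℝ)) (u := fun t => D'.P t f) (w := fun t => D'.P t Lf)
    (hpos.mono fun t ht => (c.P_mem hf2 ht).1) (hpos.mono fun t ht => (c.P_mem hL2 ht).1) hf hL
    (c.flow.E_zero f hf) (c.flow.E_zero Lf hL) (c.flow.heat Lf hL2).2 (D'.aesm hφ) b1
    h2.aestronglyMeasurable b2 (hpos.mono fun t ht => ?_)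
  have k := c.e12_be2 h1 hf2 ht hφ l2 h2 h0 b1 b2
  have e := c.flow.comm f hf Lf t l1 hL2 ht
  obtain ⟨u1, u2, -⟩ := c.P_mem hf2 ht
  refine le_trans (le_of_eq (integral_congr_ae ?_)) k
  filter_upwards [e, DS.G_congr (D'.W_of_mem u1) (D'.W_of_mem u2) (ae_eq_refl _) e] with a a1 a2
  rw [a1, a2]

end Env

end RC
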