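import Pool.Agent.P.MP_6472e5_gt.ED
import Pool.Agent.P.MP_6472e5_gt.Ca0m
import Pool.Agent.P.MP_6472e5_gt.De
import Pool.Agent.P.MP_6472e5_gt.GH

/-! Measure theory on the cover. -/

set_option autoImplicit false
set_option linter.unusedSectionVars false
set_option linter.unusedVariables false

noncomputable section

namespace RC

open MeasureTheory Set Filter Topology Metric

variable {X Y : Type} [MetricSpace X] [ProperSpace X] [MeasurableSpace X] [BorelSpace X]
  [MetricSpace Y] [ProperSpace Y] [MeasurableSpace Y] [BorelSpace Y] {μ : Measure X}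
  {μ' : Measure Y} {D : DS μ} {D' : DS μ'} {Γ : Y → Y} {π : Y → X} {κ : ℝ} {m : ℕ}

namespace PreCov

variable (c : PreCov D D' Γ π)
include c

theorem meas_π : Measurable π := c.quot.cont.measurable

theorem meas_Γ : Measurable Γ := c.inv.measurable

theorem e1a_mp : MeasurePreserving π μ' ((2 : ENNReal) • μ) := ⟨c.meas_π, c.map⟩

theorem e1a_emb : MeasurableEmbedding Γ := c.quot.iso.isClosedEmbedding.measurableEmbedding

theorem e1a_pre (S : Set X) : μ' (π ⁻¹' S) = 2 * μ S := by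
  refine le_antisymm ((Measure.le_map_apply c.meas_π.aemeasurable S).trans_eq (by
    rw [c.map, Measure.smul_apply, smul_eq_mul])) ?_
  have := D'.locFin
  rw [Set.measure_eq_iInf_isOpen (π ⁻¹' S) μ']
  refine le_iInf fun O => le_iInf fun h1 => le_iInf fun h2 => ?_
  have h3 := c.quot.isOpenMap _ (h2.inter (h2.preimage c.quot.iso.continuous))
  have h4 := c.e1a_mp.measure_preimage h3.measurableSet.nullMeasurableSet
  rw [Measure.smul_apply, smul_eq_mul] at h4
  refine le_trans (mul_le_mul_right (measure_mono fun x hx => ?_) _)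
    (h4.symm.trans_le (measure_mono ?_))
  · obtain ⟨a, rfl⟩ := c.quot.surj x
    exact ⟨a, ⟨h1 hx, h1 (show π (Γ a) ∈ S by rwa [c.quot.π_Γ])⟩, rfl⟩
  · rintro a ⟨b, hb, e⟩
    rcases (c.quot.eq_iff a b).1 e.symm with rfl | rfl
    exacts [hb.1, hb.2]

theorem ae_lift {P : X → Prop} (h : ∀ᵐ x ∂μ, P x) : ∀ᵐ a ∂μ', P (π a) :=
  c.e1a_mp.quasiMeasurePreserving.ae (Measure.ae_smul_measure h _)

theorem ae_refl {P : Y → Prop} (h : ∀ᵐ a ∂μ', P a) : ∀ᵐ a ∂μ', P (Γ a) :=
  c.inv.quasiMeasurePreserving.ae h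

theorem ae_desc {P : X → Prop} (h : ∀ᵐ a ∂μ', P (π a)) : ∀ᵐ x ∂μ, P x :=
  (mul_eq_zero.1 ((c.e1a_pre {x | ¬P x}).symm.trans h)).resolve_left two_ne_zero

theorem ae_sec {s : X → Y} (hs : ∀ x, π (s x) = x) {P : Y → Prop} (h : ∀ᵐ a ∂μ', P a) :
    ∀ᵐ x ∂μ, P (s x) ∧ P (Γ (s x)) := by
  refine c.ae_desc ?_
  filter_upwards [h, c.ae_refl h] with a h1 h2
  rcases (c.quot.eq_iff _ _).1 (hs (π a)) with e | e <;> rw [e]
  · exact ⟨h1, h2⟩
  · exact ⟨h2, by rwa [c.quot.invol]⟩

theorem measure_preimage (S : Set X) : μ' (π ⁻¹' S) = 2 * μ S := c.e1a_pre S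

theorem real_preimage (S : Set X) : μ'.real (π ⁻¹' S) = 2 * μ.real S := by
  rw [measureReal_def, c.measure_preimage, ENNReal.toReal_mul, ENNReal.toReal_ofNat,
    measureReal_def]

theorem measure_refl (S : Set Y) : μ' (Γ ⁻¹' S) = μ' S :=
  c.inv.measure_preimage_emb c.e1a_emb S

theorem real_ball (a : Y) (r : ℝ) : μ.real (ball (π a) r) ≤ μ'.real (ball a r) ∧
    μ'.real (ball a r) ≤ 2 * μ.real (ball (π a) r) := by
  have h1 := c.real_preimage (ball (π a) r)
  have h2 : μ'.real (ball (Γ a) r) = μ'.real (ball a r) := by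
    rw [measureReal_def, ← c.measure_refl, c.quot.iso.preimage_ball, measureReal_def]
  rw [c.quot.preimage_ball] at h1
  have h3 := measureReal_union_le (μ := μ') (ball a r) (ball (Γ a) r)
  have h4 := measureReal_mono (μ := μ') (subset_union_left (s := ball a r) (t := ball (Γ a) r))
    (measure_union_ne_top (D'.fin _ _).ne (D'.fin _ _).ne)
  exact ⟨by linarith, by linarith⟩

theorem aesm_lift {f : X → ℝ} (hf : AEStronglyMeasurable f μ) :
    AEStronglyMeasurable (fun a => f (π a)) μ' :=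
  (hf.smul_measure _).comp_measurePreserving c.e1a_mp

theorem aesm_refl {h : Y → ℝ} (hh : AEStronglyMeasurable h μ') :
    AEStronglyMeasurable (fun a => h (Γ a)) μ' :=
  hh.comp_measurePreserving c.inv

theorem integral_lift {f : X → ℝ} (hf : AEStronglyMeasurable f μ) :
    ∫ a, f (π a) ∂μ' = 2 * ∫ x, f x ∂μ := by
  rw [← integral_map c.meas_π.aemeasurable (c.map ▸ hf.smul_measure _), c.map,
    integral_smul_measure, ENNReal.toReal_ofNat, smul_eq_mul]

theorem integral_refl (h : Y → ℝ) : ∫ a, h (Γ a) ∂μ' = ∫ a, h a ∂μ' :=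
  c.inv.integral_comp c.e1a_emb h

theorem integrable_lift {f : X → ℝ} (hf : Integrable f μ) : Integrable (fun a => f (π a)) μ' :=
  c.e1a_mp.integrable_comp_of_integrable (hf.smul_measure ENNReal.ofNat_ne_top)

theorem memLp_lift {f : X → ℝ} (hf : MemLp f 2 μ) : MemLp (fun a => f (π a)) 2 μ' :=
  (hf.smul_measure ENNReal.ofNat_ne_top).comp_measurePreserving c.e1a_mp

theorem integrable_refl {h : Y → ℝ} (hh : Integrable h μ') : Integrable (fun a => h (Γ a)) μ' :=
  c.inv.integrable_comp_of_integrable hh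

theorem memLp_refl {h : Y → ℝ} (hh : MemLp h 2 μ') : MemLp (fun a => h (Γ a)) 2 μ' :=
  hh.comp_measurePreserving c.inv

theorem bdd_lift {f : X → ℝ} (hf : Bdd μ f) : Bdd μ' (fun a => f (π a)) :=
  hf.imp fun _ h => c.ae_lift h

theorem bdd_refl {h : Y → ℝ} (hh : Bdd μ' h) : Bdd μ' (fun a => h (Γ a)) :=
  hh.imp fun _ h => c.ae_refl h

theorem locBdd_lift {f : X → ℝ} (hf : LocBdd μ f) : LocBdd μ' (fun a => f (π a)) := fun a r =>
  (hf (π a) r).imp fun _ h => (c.ae_lift h).mono fun b hb hb' =>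
    hb ((c.quot.dist_le b a).trans_lt hb')

theorem locInt_lift {f : X → ℝ} (hf : LocInt μ f) : LocInt μ' (fun a => f (π a)) := fun a r => by
  have h1 := (c.e1a_mp.restrict_preimage (measurableSet_ball (x := π a) (ε := r))
    ).integrable_comp_of_integrable (g := f) (by
      rw [Measure.restrict_smul]
      exact Integrable.smul_measure (hf (π a) r) ENNReal.ofNat_ne_top)
  exact IntegrableOn.mono_set h1 fun b hb => (c.quot.dist_le b a).trans_lt hb

theorem locInt_refl {h : Y → ℝ} (hh : LocInt μ' h) : LocInt μ' (fun a => h (Γ a)) := fun a r => by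
  have h1 := (c.inv.restrict_preimage (measurableSet_ball (x := Γ a) (ε := r))
    ).integrable_comp_of_integrable (hh (Γ a) r)
  rwa [c.quot.iso.preimage_ball] at h1

theorem n2_lift {f : X → ℝ} (hf : AEStronglyMeasurable f μ) :
    n2 μ' (fun a => f (π a)) = 2 * n2 μ f :=
  c.integral_lift (hf.pow 2)

theorem n2_refl (h : Y → ℝ) : n2 μ' (fun a => h (Γ a)) = n2 μ' h :=
  c.integral_refl fun a => h a ^ 2

theorem lipB_lift {f : X → ℝ} (hf : LipB f) : LipB (fun a => f (π a)) :=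
  ⟨hf.1.elim fun _ h => ⟨_, h.comp c.quot.lip⟩, c.quot.bounded_preimage hf.2⟩

theorem lipB_refl {h : Y → ℝ} (hh : LipB h) : LipB (fun a => h (Γ a)) :=
  ⟨hh.1.elim fun _ h => ⟨_, h.comp c.quot.iso.lipschitz⟩,
    c.quot.iso.antilipschitz.isBounded_preimage hh.2⟩

theorem tsupport_lift (f : X → ℝ) : tsupport (fun a => f (π a)) ⊆ π ⁻¹' tsupport f :=
  closure_minimal (fun _ ha => subset_tsupport f ha) ((isClosed_tsupport f).preimage c.quot.cont)

variable {s : X → Y} (hm : Measurable s) (hs : ∀ x, π (s x) = x)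
include hs

theorem dsc_π (h : Y → ℝ) (a : Y) : dsc Γ s h (π a) = h a + h (Γ a) := by
  rcases (c.quot.eq_iff _ _).1 (hs (π a)) with e | e <;> rw [dsc, e]
  rw [c.quot.invol, add_comm]

theorem lipB_dsc {h : Y → ℝ} (hh : LipB h) : LipB (dsc Γ s h) := by
  obtain ⟨⟨L, hL⟩, hb⟩ := hh
  refine ⟨⟨L + L, LipschitzWith.of_dist_le_mul fun x y => ?_⟩,
    (c.quot.lip.isBounded_image hb).subset fun x hx => ?_⟩
  · have h1 : ∀ a b, dist (dsc Γ s h (π a)) (dsc Γ s h (π b)) ≤ (L + L : NNReal) * dist a b :=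
      fun a b => by
        rw [c.dsc_π hs, c.dsc_π hs]
        simpa using (hL.add (hL.comp c.quot.iso.lipschitz)).dist_le_mul a b
    obtain ⟨a, rfl⟩ := c.quot.surj x
    obtain ⟨b, rfl⟩ := c.quot.surj y
    rw [c.quot.dist_eq a b, mul_min_of_nonneg _ _ (NNReal.coe_nonneg _)]
    exact le_min (h1 a b) (by simpa only [c.quot.π_Γ] using h1 a (Γ b))
  · by_cases h1 : h (s x) = 0
    · exact ⟨Γ (s x), fun h2 => hx (by rw [dsc, h1, h2, add_zero]), by rw [c.quot.π_Γ, hs]⟩
    · exact ⟨s x, h1, hs x⟩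

theorem dsc_congr {h h' : Y → ℝ} (hh : h =ᵐ[μ'] h') : dsc Γ s h =ᵐ[μ] dsc Γ s h' :=
  (c.ae_sec hs hh).mono fun x hx => by rw [dsc, dsc, hx.1, hx.2]

theorem bdd_dsc {h : Y → ℝ} (hh : Bdd μ' h) : Bdd μ (dsc Γ s h) := by
  obtain ⟨C, hC⟩ := hh
  exact ⟨C + C, (c.ae_sec hs hC).mono fun x hx => (abs_add_le _ _).trans (add_le_add hx.1 hx.2)⟩

theorem e1a_ind (S : Set X) (h : Y → ℝ) :
    dsc Γ s ((π ⁻¹' S).indicator h) = S.indicator (dsc Γ s h) := by
  funext x
  by_cases hx : x ∈ S <;> simp [dsc, indicator, c.quot.π_Γ, hs, hx]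

include hm

theorem aesm_dsc {h : Y → ℝ} (hh : AEStronglyMeasurable h μ') :
    AEStronglyMeasurable (dsc Γ s h) μ := by
  have h1 := hh.stronglyMeasurable_mk.measurable
  exact ((h1.comp hm).add (h1.comp (c.meas_Γ.comp hm))).aestronglyMeasurable.congr
    (c.dsc_congr hs hh.ae_eq_mk).symm

theorem integrable_dsc {h : Y → ℝ} (hh : Integrable h μ') : Integrable (dsc Γ s h) μ := by
  refine (integrable_smul_measure two_ne_zero ENNReal.ofNat_ne_top).1
    ((c.e1a_mp.integrable_comp ((c.aesm_dsc hm hs hh.1).smul_measure _)).1 ?_)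
  exact (hh.add (c.integrable_refl hh)).congr (.of_forall fun a => (c.dsc_π hs h a).symm)

theorem memLp_dsc {h : Y → ℝ} (hh : MemLp h 2 μ') : MemLp (dsc Γ s h) 2 μ := by
  have h1 := c.aesm_dsc hm hs hh.1
  refine MemLp.mono_measure (μ := μ'.map π) ?_ ((memLp_map_measure_iff (c.map ▸ h1.smul_measure _)
    c.meas_π.aemeasurable).2 ((hh.add (c.memLp_refl hh)).ae_eq
      (.of_forall fun a => (c.dsc_π hs h a).symm)))
  rw [c.map, two_smul]
  exact Measure.le_add_right le_rfl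

theorem locInt_dsc {h : Y → ℝ} (hh : LocInt μ' h) : LocInt μ (dsc Γ s h) := fun x r => by
  rw [← integrable_indicator_iff measurableSet_ball, ← c.e1a_ind hs]
  refine c.integrable_dsc hm hs ((integrable_indicator_iff (c.meas_π measurableSet_ball)).2 ?_)
  rw [← hs x, c.quot.preimage_ball]
  exact (hh _ _).union (hh _ _)

theorem integral_dsc {h : Y → ℝ} (hh : Integrable h μ') :
    ∫ x, dsc Γ s h x ∂μ = ∫ a, h a ∂μ' := by
  have h1 := c.integral_lift (c.aesm_dsc hm hs hh.1)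
  simp only [c.dsc_π hs] at h1
  rw [integral_add hh (c.integrable_refl hh), c.integral_refl] at h1
  linarith

theorem integral_mul_dsc {φ : X → ℝ} {h : Y → ℝ} (hφ : AEStronglyMeasurable φ μ)
    (hh : AEStronglyMeasurable h μ') (hi : Integrable (fun a => φ (π a) * h a) μ') :
    ∫ x, φ x * dsc Γ s h x ∂μ = ∫ a, φ (π a) * h a ∂μ' := by
  rw [← c.integral_dsc hm hs hi]
  simp only [dsc, c.quot.π_Γ, hs, mul_add]

theorem setIntegral_dsc {S : Set X} (hS : MeasurableSet S) {h : Y → ℝ}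
    (hh : IntegrableOn h (π ⁻¹' S) μ') :
    ∫ x in S, dsc Γ s h x ∂μ = ∫ a in π ⁻¹' S, h a ∂μ' := by
  rw [← integral_indicator hS, ← integral_indicator (c.meas_π hS), ← c.e1a_ind hs,
    c.integral_dsc hm hs ((integrable_indicator_iff (c.meas_π hS)).2 hh)]

theorem derL1_dsc {u : ℝ → Y → ℝ} {w : Y → ℝ} {t : ℝ} (h : DerL1 μ' u w t) :
    DerL1 μ (fun τ => dsc Γ s (u τ)) (dsc Γ s w) t := by
  obtain ⟨h1, h2, h3⟩ := h
  refine ⟨h1.mono fun τ hτ => c.integrable_dsc hm hs hτ, c.integrable_dsc hm hs h2,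
    squeeze_zero' (.of_forall fun _ => integral_nonneg fun _ => abs_nonneg _) ?_ h3⟩
  have h4 : Tendsto (fun r : ℝ => t + r) (𝓝[≠] 0) (𝓝 t) :=
    ((continuous_const_add t).tendsto' 0 t (add_zero t)).mono_left nhdsWithin_le_nhds
  filter_upwards [h4.eventually h1] with r hr
  have h5 : Integrable (fun a => |DQ u t r a - w a|) μ' :=
    (((hr.sub h1.self_of_nhds).div_const r).sub h2).abs
  rw [← c.integral_dsc hm hs h5]
  refine integral_mono_of_nonneg (.of_forall fun _ => abs_nonneg _) (c.integrable_dsc hm hs h5)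
    (.of_forall fun x => le_trans (le_of_eq ?_) (abs_add_le _ _))
  simp only [DQ, dsc]
  congr 1
  ring

end PreCov

end RC
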