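import Pool.Agent.P.MP_6472e5_gt.E1a
import Pool.Agent.P.MP_6472e5_gt.Ca5

/-! The Dirichlet form on the cover. -/

set_option autoImplicit false
set_option linter.unusedSectionVars false
set_option linter.unusedVariables false

noncomputable section

namespace RC

open MeasureTheory Set Filter Topology Metric

variable {X Y : Type} [MetricSpace X] [ProperSpace X] [MeasurableSpace X] [BorelSpace X]
  [MetricSpace Y] [ProperSpace Y] [MeasurableSpace Y] [BorelSpace Y] {μ : Measure X}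
  {μ' : Measure Y} {D : DS μ} {D' : DS μ'} {Γ : Y → Y} {π : Y → X} {κ : ℝ} {m : ℕ}

section

variable {T : Y → X} (h1 : ∀ a b, dist (T a) (T b) ≤ dist a b)
  (h2 : ∀ f ∈ D.V, f ∘ T ∈ D'.V ∧ D'.G (f ∘ T) (f ∘ T) =ᵐ[μ'] D.G f f ∘ T)
include h1 h2

theorem e1b_W {f : X → ℝ} (hf : D.W f) : D'.W (fun a => f (T a)) :=
  D'.W_of_balls fun a r => by
    obtain ⟨g, hg, e, -⟩ := hf.exists_mem (T a) r
    exact ⟨g ∘ T, D'.W_of_mem (h2 g hg).1,
      ae_of_all _ fun b hb => (e _ ((h1 b a).trans_lt hb)).symm⟩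

variable (h3 : ∀ {P : X → Prop}, (∀ᵐ x ∂μ, P x) → ∀ᵐ a ∂μ', P (T a))
include h3

theorem e1b_self {f : X → ℝ} (hf : D.W f) :
    ∀ᵐ a ∂μ', D'.G (fun a => f (T a)) (fun a => f (T a)) a = D.G f f (T a) :=
  D'.ae_of_balls fun a r => by
    obtain ⟨g, hg, e, -⟩ := hf.exists_mem (T a) r
    have w1 := e1b_W h1 h2 hf
    have w2 := D'.W_of_mem (h2 g hg).1
    filter_upwards [DS.G_loc w1 w2 w1 w2, (h2 g hg).2,
      h3 (DS.G_loc (D.W_of_mem hg) hf (D.W_of_mem hg) hf)] with b a1 a2 a3 hb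
    have a4 := e _ ((h1 b a).trans_lt hb)
    exact (a1 a4.symm a4.symm).trans (a2.trans (a3 a4 a4))

theorem e1b_G {f g : X → ℝ} (hf : D.W f) (hg : D.W g) :
    ∀ᵐ a ∂μ', D'.G (fun a => f (T a)) (fun a => g (T a)) a = D.G f g (T a) := by
  filter_upwards [e1b_self h1 h2 h3 hf, e1b_self h1 h2 h3 hg, e1b_self h1 h2 h3 (hf.add hg),
    DS.G_add_add (e1b_W h1 h2 hf) (e1b_W h1 h2 hg), h3 (DS.G_add_add hf hg)] with a a1 a2 a3 a4 a5
  have a6 := a4.symm.trans (a3.trans a5)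
  linarith

end

namespace PreCov

variable (c : PreCov D D' Γ π)
include c

theorem mem_lift {f : X → ℝ} (hf : f ∈ D.V) : (fun a => f (π a)) ∈ D'.V := (c.lift f hf).1

theorem mem_refl {h : Y → ℝ} (hh : h ∈ D'.V) : (fun a => h (Γ a)) ∈ D'.V := (c.refl h hh).1

theorem W_lift {f : X → ℝ} (hf : D.W f) : D'.W (fun a => f (π a)) :=
  e1b_W c.quot.dist_le c.lift hf

theorem W_refl {h : Y → ℝ} (hh : D'.W h) : D'.W (fun a => h (Γ a)) :=
  e1b_W (fun a b => (c.quot.iso.dist_eq a b).le) c.refl hh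

theorem G_lift {f g : X → ℝ} (hf : D.W f) (hg : D.W g) :
    ∀ᵐ a ∂μ', D'.G (fun a => f (π a)) (fun a => g (π a)) a = D.G f g (π a) :=
  e1b_G c.quot.dist_le c.lift c.ae_lift hf hg

theorem G_refl {h k : Y → ℝ} (hh : D'.W h) (hk : D'.W k) :
    ∀ᵐ a ∂μ', D'.G (fun a => h (Γ a)) (fun a => k (Γ a)) a = D'.G h k (Γ a) :=
  e1b_G (fun a b => (c.quot.iso.dist_eq a b).le) c.refl c.ae_refl hh hk

theorem e1b_desc {f : X → ℝ} (hf : (fun a => f (π a)) ∈ D'.V) : f ∈ D.V := by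
  obtain ⟨g, hg, e⟩ := c.desc _ hf (ae_of_all _ fun a => congrArg f (c.quot.π_Γ a))
  exact D.congr g hg f (c.ae_desc (P := fun x => g x = f x) e.symm)

theorem e1b_lap {f g : X → ℝ} (h : D'.Lap (fun a => f (π a)) (fun a => g (π a)))
    (hg : LocInt μ g) : D.Lap f g := by
  have hf : D.W f := fun χ hχ => c.e1b_desc (h.1 _ (c.lipB_lift hχ))
  refine ⟨hf, hg, fun ψ hψ => ?_⟩
  have w := D.W_of_mem (D.lip ψ hψ)
  have a1 := h.2.2 _ (c.lipB_lift hψ)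
  rw [integral_congr_ae (c.G_lift hf w), c.integral_lift (DS.G_aesm hf w),
    c.integral_lift (hg.mul_lipB hψ).1] at a1
  linarith

theorem mem_dsc {s : X → Y} (hs : ∀ x, π (s x) = x) {h : Y → ℝ} (hh : h ∈ D'.V) :
    dsc Γ s h ∈ D.V := by
  refine c.e1b_desc ?_
  simp only [c.dsc_π hs]
  exact D'.add _ hh _ (c.mem_refl hh)

theorem mem_desc {f : X → ℝ} (hf : (fun a => f (π a)) ∈ D'.V) : f ∈ D.V := c.e1b_desc hf

theorem lap_lift {f g : X → ℝ} (h : D.Lap f g) :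
    D'.Lap (fun a => f (π a)) (fun a => g (π a)) := by
  have w := c.W_lift h.1
  have li := c.locInt_lift h.2.1
  refine ⟨w, li, fun φ hφ => ?_⟩
  choose s hs using c.quot.surj
  have hψ := c.lipB_dsc hs hφ
  have hφ' := c.lipB_refl hφ
  have w1 := D'.W_of_mem (D'.lip φ hφ)
  have w2 := D.W_of_mem (D.lip _ hψ)
  have a1 := integral_congr_ae (c.G_refl w w1)
  have a2 := integral_congr_ae (c.G_lift h.1 w2)
  have a3 := c.integral_lift (h.2.1.mul_lipB hψ).1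
  have a4 := c.integral_refl fun a => g (π a) * φ a
  have a5 : ∫ a, D'.G (fun a => f (π a)) (fun a => φ a + φ (Γ a)) a ∂μ' = _ :=
    (integral_congr_ae (DS.G_add_right w w1 (c.W_refl w1))).trans
      (integral_add (DS.G_lipB_int w hφ) (DS.G_lipB_int w hφ'))
  rw [c.integral_refl] at a1
  rw [c.integral_lift (DS.G_aesm h.1 w2), h.2.2 _ hψ] at a2
  simp only [c.dsc_π hs, c.quot.π_Γ, mul_add] at a1 a2 a3 a4
  rw [integral_add (li.mul_lipB hφ) (li.mul_lipB hφ')] at a3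
  linarith

theorem lap_refl {h k : Y → ℝ} (hh : D'.Lap h k) :
    D'.Lap (fun a => h (Γ a)) (fun a => k (Γ a)) := by
  refine ⟨c.W_refl hh.1, c.locInt_refl hh.2.1, fun φ hφ => ?_⟩
  have hφ' := c.lipB_refl hφ
  have a1 := integral_congr_ae (c.G_refl hh.1 (D'.W_of_mem (D'.lip _ hφ')))
  rw [c.integral_refl, hh.2.2 _ hφ', ← c.integral_refl fun a => k a * φ (Γ a)] at a1
  simpa only [c.quot.invol] using a1

theorem lap_dsc {s : X → Y} (hm : Measurable s) (hs : ∀ x, π (s x) = x) {h k : Y → ℝ}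
    (hh : D'.Lap h k) : D.Lap (dsc Γ s h) (dsc Γ s k) := by
  refine c.e1b_lap ?_ (c.locInt_dsc hm hs hh.2.1)
  simp only [c.dsc_π hs]
  exact hh.add (c.lap_refl hh)

theorem tf_lift {W : Set X} {φ Lφ : X → ℝ} (h : D.TF W φ Lφ) :
    D'.TF (π ⁻¹' W) (fun a => φ (π a)) (fun a => Lφ (π a)) :=
  ⟨c.lipB_lift h.lip, (c.tsupport_lift φ).trans (preimage_mono h.supp), fun _ => h.nonneg _,
    c.lap_lift h.lap, c.bdd_lift h.bddL⟩

theorem tf_dsc {s : X → Y} (hm : Measurable s) (hs : ∀ x, π (s x) = x) {W : Set X}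
    {φ Lφ : Y → ℝ} (h : D'.TF (π ⁻¹' W) φ Lφ) : D.TF W (dsc Γ s φ) (dsc Γ s Lφ) := by
  refine ⟨c.lipB_dsc hs h.lip, (closure_minimal (fun x hx => ?_)
    (c.quot.isClosedMap _ (isClosed_tsupport φ))).trans (image_subset_iff.2 h.supp),
    fun _ => add_nonneg (h.nonneg _) (h.nonneg _), c.lap_dsc hm hs h.lap, c.bdd_dsc hs h.bddL⟩
  by_cases h1 : φ (s x) = 0
  · refine ⟨Γ (s x), subset_tsupport φ fun h2 => hx ?_, (c.quot.π_Γ _).trans (hs x)⟩
    rw [dsc, h1, h2, add_zero]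
  · exact ⟨s x, subset_tsupport φ h1, hs x⟩

theorem G_odd {h k : Y → ℝ} (hh : D'.W h) (hk : D'.W k) (oh : IsOdd μ' Γ h) (ok : IsOdd μ' Γ k) :
    ∀ᵐ a ∂μ', D'.G h k (Γ a) = D'.G h k a := by
  filter_upwards [c.G_refl hh hk, DS.G_neg_neg hh hk,
    DS.G_congr (f' := -h) (g' := -k) (c.W_refl hh) (c.W_refl hk) oh ok] with a a1 a2 a3
  exact a1.symm.trans (a3.trans a2)

/-- The product of two bounded odd functions descends. -/
theorem mul_odd {h k : Y → ℝ} (hh : h ∈ D'.V) (hk : k ∈ D'.V) (oh : IsOdd μ' Γ h)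
    (ok : IsOdd μ' Γ k) (bh : ∀ᵐ a ∂μ', |h a| ≤ 1) (bk : ∀ᵐ a ∂μ', |k a| ≤ 1) :
    ∃ f ∈ D.V, (∀ᵐ a ∂μ', f (π a) = h a * k a) ∧
      ∀ᵐ a ∂μ', √(D.G f f (π a)) ≤ √(D'.G h h a) + √(D'.G k k a) := by
  have hp := D'.mul_mem hh hk ⟨1, bh⟩ ⟨1, bk⟩
  obtain ⟨f, hf, e⟩ := c.desc _ hp (by
    filter_upwards [oh, ok] with a a1 a2
    simp only [Function.comp_apply, Pi.mul_apply, a1, a2, neg_mul_neg])
  have w := D'.W_of_mem hp
  refine ⟨f, hf, e.symm, ?_⟩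
  filter_upwards [(c.lift f hf).2, DS.G_congr w w e e, bh, bk,
    DS.G_mul_le (D'.W_of_mem hh) (D'.W_of_mem hk) w] with a a1 a2 a3 a4 a5
  rw [a2, a1] at a5
  have a6 := mul_le_of_le_one_left (Real.sqrt_nonneg (D'.G k k a)) a3
  have a7 := mul_le_of_le_one_left (Real.sqrt_nonneg (D'.G h h a)) a4
  exact a5.trans (by linarith)

end PreCov

end RC
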