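import Pool.Agent.P.MP_6472e5_gt.E1b
import Pool.Agent.P.MP_6472e5_gt.HpB
import Pool.Agent.P.MP_6472e5_gt.DeV

/-! The heat flow on the cover. -/

set_option autoImplicit false
set_option linter.unusedSectionVars false
set_option linter.unusedVariables false

noncomputable section

namespace RC

open MeasureTheory Set Filter Topology Metric

variable {X Y : Type} [MetricSpace X] [ProperSpace X] [MeasurableSpace X] [BorelSpace X]
  [MetricSpace Y] [ProperSpace Y] [MeasurableSpace Y] [BorelSpace Y] {μ : Measure X}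
  {μ' : Measure Y} {D : DS μ} {D' : DS μ'} {Γ : Y → Y} {π : Y → X} {κ : ℝ} {m : ℕ}

theorem e1c_tend (t : ℝ) : Tendsto (fun k : ℝ => t + k) (𝓝[≠] 0) (𝓝 t) := by
  have h1 : Tendsto (fun k : ℝ => t + k) (𝓝 0) (𝓝 (t + 0)) := tendsto_id.const_add t
  rw [add_zero] at h1
  exact h1.mono_left nhdsWithin_le_nhds

theorem e1c_le (fl : D'.Flow) {u v : Y → ℝ} (hu : MemLp u 2 μ') (hv : MemLp v 2 μ')
    (hle : ∀ᵐ a ∂μ', u a ≤ v a) (t : ℝ) : ∀ᵐ a ∂μ', D'.P t u a ≤ D'.P t v a := by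
  have h1 := fl.add u (v - u) t hu (hv.sub hu)
  rw [add_sub_cancel] at h1
  filter_upwards [h1, fl.pos (v - u) t (hv.sub hu) (hle.mono fun a ha => sub_nonneg.2 ha)]
    with a h2 h3
  rw [h2, Pi.add_apply]
  linarith

theorem e1c_heat_lift (c : PreCov D D' Γ π) {f : X → ℝ} {u w : ℝ → X → ℝ} (hf : MemLp f 2 μ)
    (h : D.IsHeat f u w) :
    D'.IsHeat (fun a => f (π a)) (fun t a => u t (π a)) (fun t a => w t (π a)) := by
  refine ⟨fun t ht => ?_, ?_⟩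
  · obtain ⟨h1, h2, h3, h4, h5⟩ := h.1 t ht
    refine ⟨c.mem_lift h1, c.lap_lift h2, h3.mono fun s hs => c.memLp_lift hs, c.memLp_lift h4, ?_⟩
    have h6 := h5.const_mul 2
    rw [mul_zero] at h6
    refine h6.congr' ?_
    filter_upwards [(e1c_tend t).eventually h3] with k hk
    have hm : AEStronglyMeasurable (DQ u t k - w t) μ :=
      ((hk.1.sub h3.self_of_nhds.1).mul_const k⁻¹).sub h4.1
    exact (c.n2_lift hm).symm
  · have h6 := h.2.const_mul 2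
    rw [mul_zero] at h6
    refine h6.congr' ?_
    filter_upwards [self_mem_nhdsWithin] with t ht
    exact (c.n2_lift ((D.memLp _ (h.1 t ht).1).1.sub hf.1)).symm

theorem e1c_heat_refl (c : PreCov D D' Γ π) {f : Y → ℝ} {u w : ℝ → Y → ℝ}
    (h : D'.IsHeat f u w) :
    D'.IsHeat (fun a => f (Γ a)) (fun t a => u t (Γ a)) (fun t a => w t (Γ a)) := by
  refine ⟨fun t ht => ?_, h.2.congr fun t => (c.n2_refl (u t - f)).symm⟩
  obtain ⟨h1, h2, h3, h4, h5⟩ := h.1 t ht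
  exact ⟨c.mem_refl h1, c.lap_refl h2, h3.mono fun s hs => c.memLp_refl hs, c.memLp_refl h4,
    h5.congr fun k => (c.n2_refl (DQ u t k - w t)).symm⟩

namespace Env

variable (c : Env D D' Γ π κ m)
include c

theorem P_lift {f : X → ℝ} (hf : MemLp f 2 μ) {t : ℝ} (ht : 0 < t) :
    (∀ᵐ a ∂μ', D'.P t (fun a => f (π a)) a = D.P t f (π a)) ∧
      ∀ᵐ a ∂μ', D'.L t (fun a => f (π a)) a = D.L t f (π a) := by
  have h := c.flow.uniq _ _ _ (c.memLp_lift hf)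
    (e1c_heat_lift c.toPreCov hf (c.hp.flow.heat f hf)) t ht
  exact ⟨h.1.symm, h.2.symm⟩

theorem P_refl {h : Y → ℝ} (hh : MemLp h 2 μ') {t : ℝ} (ht : 0 < t) :
    (∀ᵐ a ∂μ', D'.P t (fun a => h (Γ a)) a = D'.P t h (Γ a)) ∧
      ∀ᵐ a ∂μ', D'.L t (fun a => h (Γ a)) a = D'.L t h (Γ a) := by
  have h1 := c.flow.uniq _ _ _ (c.memLp_refl hh)
    (e1c_heat_refl c.toPreCov (c.flow.heat h hh)) t ht
  exact ⟨h1.1.symm, h1.2.symm⟩

theorem P_odd {h : Y → ℝ} (hh : MemLp h 2 μ') (ho : IsOdd μ' Γ h) {t : ℝ} (ht : 0 < t) :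
    IsOdd μ' Γ (D'.P t h) ∧ IsOdd μ' Γ (D'.L t h) := by
  have he : (fun a => h (Γ a)) =ᵐ[μ'] (-1 : ℝ) • h := ho.mono fun a ha => by simpa using ha
  constructor
  · filter_upwards [(c.P_refl hh ht).1, c.flow.congr _ _ t (c.memLp_refl hh) he,
      c.flow.smul (-1) h t hh] with a h1 h2 h3
    rw [← h1, h2, h3]
    simp
  · filter_upwards [(c.P_refl hh ht).2, c.flow.L_congr _ _ t (c.memLp_refl hh) he ht,
      c.flow.L_smul (-1) h t hh ht] with a h1 h2 h3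
    rw [← h1, h2, h3]
    simp

theorem P_mem {h : Y → ℝ} (hh : MemLp h 2 μ') {t : ℝ} (ht : 0 < t) :
    D'.P t h ∈ D'.V ∧ D'.L t h ∈ D'.V ∧ D'.Lap (D'.P t h) (D'.L t h) :=
  ⟨((c.flow.heat h hh).1 t ht).1, c.flow.L_mem h t hh ht, ((c.flow.heat h hh).1 t ht).2.1⟩

theorem P_abs_le {h : Y → ℝ} (hh : MemLp h 2 μ') {M : ℝ} (hM : ∀ᵐ a ∂μ', |h a| ≤ M) (t : ℝ) :
    ∀ᵐ a ∂μ', |D'.P t h a| ≤ M := by
  by_cases hM0 : 0 ≤ M
  · exact (c.flow.markov h t (-M) M hh (neg_nonpos.2 hM0) hM0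
      (hM.mono fun a ha => abs_le.1 ha)).mono fun a ha => abs_le.2 ha
  · exact hM.mono fun a ha => absurd ((abs_nonneg _).trans ha) hM0

theorem P_bdd {h : Y → ℝ} (hh : MemLp h 2 μ') (hb : Bdd μ' h) (t : ℝ) : Bdd μ' (D'.P t h) :=
  let ⟨M, hM⟩ := hb
  ⟨M, c.P_abs_le hh hM t⟩

/-- Domination by the heat flow of the base. -/
theorem P_dom {h : Y → ℝ} (hh : MemLp h 2 μ') {f : X → ℝ} (hm : AEStronglyMeasurable f μ)
    (hf : Bdd μ f ∨ MemLp f 2 μ) (hle : ∀ᵐ a ∂μ', |h a| ≤ f (π a)) {t : ℝ} (ht : 0 < t) :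
    ∀ᵐ a ∂μ', |D'.P t h a| ≤ D.Pk t f (π a) := by
  obtain ⟨s, ms, hs⟩ := c.sec
  have hd : MemLp (dsc Γ s fun a => |h a|) 2 μ := c.memLp_dsc ms hs hh.abs
  have hf0 : ∀ᵐ x ∂μ, 0 ≤ f x := c.ae_desc (hle.mono fun a ha => (abs_nonneg _).trans ha)
  set g : X → ℝ := fun x => min (f x) (dsc Γ s (fun a => |h a|) x) with hg
  have hd0 : ∀ x, 0 ≤ dsc Γ s (fun a => |h a|) x := fun x =>
    add_nonneg (abs_nonneg _) (abs_nonneg _)
  have mg : MemLp g 2 μ := by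
    refine hd.mono' (hm.aemeasurable.min hd.1.aemeasurable).aestronglyMeasurable ?_
    filter_upwards [hf0] with x hx
    rw [Real.norm_of_nonneg (le_min hx (hd0 x))]
    exact min_le_right _ _
  have hG := c.memLp_lift mg
  have hle' : ∀ᵐ a ∂μ', |h a| ≤ g (π a) := by
    filter_upwards [hle] with a ha
    refine le_min ha ?_
    rw [c.dsc_π hs]
    exact le_add_of_nonneg_right (abs_nonneg _)
  have h1 := e1c_le c.flow hh hG (hle'.mono fun a ha => (le_abs_self _).trans ha) t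
  have h2 := e1c_le c.flow (hh.const_smul (-1 : ℝ)) hG
    (hle'.mono fun a ha => by simpa using (neg_le_abs _).trans ha) t
  have hi : ∀ x, Integrable (fun y => D.p t x y * f y) μ := fun x =>
    hf.elim (fun hb => (c.hp.pk_int hm hb ht x).1)
      fun h2 => integrable_mul_of_memLp (c.hp.ker.2.1 t x ht) h2
  filter_upwards [h1, h2, c.flow.smul (-1) h t hh, (c.P_lift mg ht).1,
    c.ae_lift (c.hp.P_rep mg ht)] with a a1 a2 a3 a4 a5
  rw [a3] at a2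
  rw [a4, a5] at a1 a2
  have h3 : D.Pk t g (π a) ≤ D.Pk t f (π a) :=
    c.hp.pk_mono ht (integrable_mul_of_memLp (c.hp.ker.2.1 t _ ht) mg) (hi _)
      (ae_of_all _ fun x => min_le_left _ _)
  simp only [Pi.smul_apply, smul_eq_mul, neg_mul, one_mul] at a2
  exact abs_le.2 ⟨by linarith, by linarith⟩

theorem e1c_locBdd {h : Y → ℝ} (hh : MemLp h 2 μ') {t : ℝ} (ht : 0 < t) :
    LocBdd μ' (D'.P t h) := by
  obtain ⟨s, ms, hs⟩ := c.sec
  have hd : MemLp (dsc Γ s fun a => |h a|) 2 μ := c.memLp_dsc ms hs hh.abs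
  have h1 := c.P_dom hh hd.1 (Or.inr hd) (ae_of_all _ fun a => by
    rw [c.dsc_π hs]; exact le_add_of_nonneg_right (abs_nonneg _)) ht
  have hc : Continuous fun a =>
      √(D.p (t + t) (π a) (π a)) * √(RC.n2 μ (dsc Γ s fun a => |h a|)) :=
    ((c.hp.p_cont (add_pos ht ht)).comp
      (c.quot.cont.prodMk c.quot.cont)).sqrt.mul continuous_const
  intro y r
  obtain ⟨C, hC⟩ := locBdd_of_continuous (μ := μ') hc y r
  refine ⟨C, ?_⟩
  filter_upwards [h1, hC] with a a1 a2 ha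
  refine a1.trans (le_trans ?_ ((le_abs_self _).trans (a2 ha)))
  have h2 : D.p (t + t) (π a) (π a) = RC.n2 μ (D.p t (π a)) := by
    rw [c.hp.ck t t _ _ ht ht]
    refine integral_congr_ae (ae_of_all _ fun z => ?_)
    show D.p t (π a) z * D.p t z (π a) = D.p t (π a) z ^ 2
    rw [c.hp.p_symm t z _ ht, sq]
  rw [h2]
  exact ((le_abs_self _).trans abs_integral_le_integral_abs).trans
    (integral_abs_mul_le (c.hp.ker.2.1 t _ ht) hd)

theorem P_locBdd {h : Y → ℝ} (hh : MemLp h 2 μ') {t : ℝ} (ht : 0 < t) :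
    LocBdd μ' (D'.P t h) ∧ LocBdd μ' (D'.L t h) := by
  refine ⟨c.e1c_locBdd hh ht, ?_⟩
  have h1 := c.flow.L_semi h (t / 2) (t / 2) hh (half_pos ht).le (half_pos ht)
  rw [add_halves] at h1
  exact (c.e1c_locBdd (D'.memLp _ (c.flow.L_mem h _ hh (half_pos ht))) (half_pos ht)).congr h1.symm

/-- Splitting into the even and the odd part. -/
theorem split {h : Y → ℝ} (hh : MemLp h 2 μ') (hb : Bdd μ' h) :
    ∃ (f : X → ℝ) (k : Y → ℝ), MemLp f 2 μ ∧ Bdd μ f ∧ MemLp k 2 μ' ∧ Bdd μ' k ∧ IsOdd μ' Γ k ∧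
      ∀ t, 0 < t → ∀ᵐ a ∂μ', D'.P t h a = D.P t f (π a) + D'.P t k a := by
  obtain ⟨s, ms, hs⟩ := c.sec
  have mf : MemLp ((1 / 2 : ℝ) • dsc Γ s h) 2 μ := (c.memLp_dsc ms hs hh).const_smul _
  have bf : Bdd μ ((1 / 2 : ℝ) • dsc Γ s h) := (c.bdd_dsc hs hb).smul _
  have mk := hh.sub (c.memLp_lift mf)
  refine ⟨_, _, mf, bf, mk, hb.sub (c.bdd_lift bf), ae_of_all _ fun a => ?_, fun t ht => ?_⟩
  · simp only [Pi.sub_apply, Pi.smul_apply, smul_eq_mul, c.dsc_π hs, c.quot.invol]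
    ring
  · have h1 := c.flow.add _ _ t (c.memLp_lift mf) mk
    rw [add_sub_cancel] at h1
    filter_upwards [h1, (c.P_lift mf ht).1] with a a1 a2
    rw [a1, Pi.add_apply, a2]

theorem I1_int {u Lu φ Lφ : Y → ℝ} (hu : u ∈ D'.V) (hL : Lu ∈ D'.V)
    (m1 : AEStronglyMeasurable φ μ') (b1 : Bdd μ' φ) (m2 : AEStronglyMeasurable Lφ μ')
    (b2 : Bdd μ' Lφ) :
    Integrable (fun a => Lu a ^ 2 / (m + 2 : ℕ) + D'.G u Lu a - κ * D'.G u u a) μ' ∧
    Integrable (fun a => φ a * (Lu a ^ 2 / (m + 2 : ℕ) + D'.G u Lu a - κ * D'.G u u a)) μ' ∧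
    Integrable (fun a => Lφ a * D'.G u u a) μ' := by
  have h1 : Integrable (fun a => Lu a ^ 2 / (m + 2 : ℕ) + D'.G u Lu a - κ * D'.G u u a) μ' :=
    (((D'.memLp _ hL).integrable_sq.div_const _).add (DS.G_int hu hL)).sub
      ((DS.G_int hu hu).const_mul κ)
  exact ⟨h1, b1.mul_integrable m1 h1, b2.mul_integrable m2 (DS.G_int hu hu)⟩

theorem I2_int {u Lu : Y → ℝ} (hu : u ∈ D'.V) (hL : Lu ∈ D'.V) {ε : ℝ} (hε : 0 < ε) :
    Integrable (fun a => (D'.G u Lu a - κ * D'.G u u a) / √(D'.G u u a + ε ^ 2)) μ' ∧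
    Integrable (fun a => √(D'.G u u a + ε ^ 2) - ε) μ' := by
  have hW := D'.W_of_mem hu
  have hm : AEMeasurable (fun a => √(D'.G u u a + ε ^ 2)) μ' :=
    ((DS.G_aesm hW hW).aemeasurable.add_const _).sqrt
  have hge : ∀ᵐ a ∂μ', ε ≤ √(D'.G u u a + ε ^ 2) := (DS.G_nonneg hW).mono fun a ha =>
    Real.le_sqrt_of_sq_le (by linarith)
  constructor
  · have hb : Bdd μ' fun a => (√(D'.G u u a + ε ^ 2))⁻¹ := ⟨ε⁻¹, hge.mono fun a ha => by
      rw [abs_of_nonneg (inv_nonneg.2 (Real.sqrt_nonneg _))]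
      exact inv_anti₀ hε ha⟩
    refine (hb.mul_integrable hm.inv.aestronglyMeasurable
      ((DS.G_int hu hL).sub ((DS.G_int hu hu).const_mul κ))).congr (ae_of_all _ fun a => ?_)
    exact (div_eq_inv_mul _ _).symm
  · refine ((DS.G_int hu hu).div_const ε).mono' (hm.sub_const ε).aestronglyMeasurable ?_
    filter_upwards [hge, DS.G_nonneg hW] with a h1 h2
    rw [Real.norm_of_nonneg (sub_nonneg.2 h1), sub_le_iff_le_add]
    have h3 : 0 ≤ D'.G u u a / ε := div_nonneg h2 hε.le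
    refine Real.sqrt_le_iff.2 ⟨by linarith, ?_⟩
    have h4 : D'.G u u a / ε * ε = D'.G u u a := div_mul_cancel₀ _ hε.ne'
    nlinarith [sq_nonneg (D'.G u u a / ε)]

theorem pos' (y : Y) {r : ℝ} (hr : 0 < r) : 0 < μ' (ball y r) :=
  (ENNReal.toReal_pos_iff.1 ((c.hp.real_pos (π y) hr).trans_le (c.real_ball y r).1)).1

theorem vol' (x₀ : X) (R : ℝ) : ∃ c₁ C r₀, 0 < c₁ ∧ 0 < C ∧ 0 < r₀ ∧ r₀ ≤ 1 ∧ κ * r₀ ^ 2 ≤ 1 ∧
    (∀ x ∈ ball x₀ R, ∀ r, 0 < r → r ≤ r₀ → c₁ * r ^ (m + 2) ≤ μ.real (ball x r) ∧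
      μ'.real (π ⁻¹' ball x r) ≤ C * r ^ (m + 2)) ∧
    ∀ y, π y ∈ ball x₀ R → ∀ r, 0 < r → r ≤ r₀ → c₁ * r ^ (m + 2) ≤ μ'.real (ball y r) := by
  obtain ⟨c₁, C, r₀, h1, h2, h3, h4⟩ := c.hp.vol_bds c.n2.toN1.n0 x₀ R
  obtain ⟨r₁, k1, k2, k3⟩ := c.hp.exists_scale
  refine ⟨c₁, 2 * C, min r₀ r₁, h1, by positivity, lt_min h3 k1, (min_le_right _ _).trans k2,
    k3 _ (lt_min h3 k1).le (min_le_right _ _), fun x hx r hr hr' => ?_, fun y hy r hr hr' => ?_⟩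
  · have h5 := h4 x hx r hr (hr'.trans (min_le_left _ _))
    refine ⟨h5.1, ?_⟩
    rw [c.real_preimage, mul_assoc]
    linarith [h5.2]
  · exact (h4 _ hy r hr (hr'.trans (min_le_left _ _))).1.trans (c.real_ball y r).1

theorem Wit.neg {c : Env D D' Γ π κ m} {x : X} {r β : ℝ} {h : Y → ℝ} (w : c.Wit x r β h) :
    c.Wit x r β (-h) := by
  have hW := D'.W_of_mem w.mem
  refine ⟨D'.neg_mem w.mem, w.odd.mono fun a ha => by simp only [Pi.neg_apply, ha],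
    w.le.mono fun a ha => by rwa [Pi.neg_apply, abs_neg], ?_, ?_⟩
  · simpa only [Pi.neg_apply, abs_neg] using w.one
  · refine le_of_eq_of_le (integral_congr_ae (ae_restrict_of_ae ?_)) w.grad
    filter_upwards [DS.G_neg_neg hW hW] with a ha
    rw [ha]

theorem Wit.restrict {c : Env D D' Γ π κ m} {x x' : X} {r r' β β' : ℝ} {h : Y → ℝ}
    (w : c.Wit x r β h) (hs : ball x' r' ⊆ ball x r) (h0 : 0 < r') (h1 : r' ≤ r) (hβ : 0 ≤ β)
    (hle : β * r ^ (m + 2) ≤ β' * r' ^ (m + 2)) : c.Wit x' r' β' h := by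
  have hfin : μ' (π ⁻¹' ball x r) ≠ ⊤ := by
    rw [c.measure_preimage]
    exact ENNReal.mul_ne_top (by simp) (D.fin x r).ne
  have hr : 0 < r := h0.trans_le h1
  refine ⟨w.mem, w.odd, w.le, le_trans ?_ (w.one.trans hle), ?_⟩
  · exact measureReal_mono (fun a ha => ⟨hs ha.1, ha.2⟩)
      (measure_ne_top_of_subset (fun a ha => ha.1) hfin)
  · have : IsFiniteMeasure (μ'.restrict (π ⁻¹' ball x r)) := isFiniteMeasure_restrict.2 hfin
    have hi : IntegrableOn (fun a => √(D'.G h h a)) (π ⁻¹' ball x r) μ' :=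
      ((DS.sqrt_G_memLp w.mem).restrict _).integrable one_le_two
    refine (setIntegral_mono_set hi (ae_of_all _ fun a => Real.sqrt_nonneg _)
      (preimage_mono hs).eventuallyLE).trans (w.grad.trans ?_)
    exact div_le_div₀ ((by positivity : 0 ≤ β * r ^ (m + 2)).trans hle) hle h0 h1

end Env

end RC
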