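import Pool.Agent.P.MP_6472e5_gt.E1c

/-! Local gradient estimates. -/

set_option autoImplicit false
set_option linter.unusedSectionVars false
set_option linter.unusedVariables false

noncomputable section

namespace RC

open MeasureTheory Set Filter Topology Metric

variable {X Y : Type} [MetricSpace X] [ProperSpace X] [MeasurableSpace X] [BorelSpace X]
  [MetricSpace Y] [ProperSpace Y] [MeasurableSpace Y] [BorelSpace Y] {μ : Measure X}
  {μ' : Measure Y} {D : DS μ} {D' : DS μ'} {Γ : Y → Y} {π : Y → X} {κ : ℝ} {m : ℕ}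

theorem e3_cont {w : ℝ → Y → ℝ} {w' : Y → ℝ} {t : ℝ} (h : DerL1 μ' w w' t) {S : Set Y}
    (hS : MeasurableSet S) : ContinuousAt (fun s => ∫ a in S, w s a ∂μ') t := by
  have h1 := (h.bdd_mul (ζ := S.indicator 1) (aestronglyMeasurable_one.indicator hS)
    ⟨1, .of_forall fun a => by by_cases ha : a ∈ S <;> simp [ha]⟩).hasDerivAt.continuousAt
  refine h1.congr (.of_forall fun s => ?_)
  simp only [← integral_indicator hS]
  exact integral_congr_ae (.of_forall fun a => by by_cases ha : a ∈ S <;> simp [ha])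

theorem e3_int {w w' : ℝ → Y → ℝ} {t₀ t₁ : ℝ} (h1 : t₀ ≤ t₁)
    (h : ∀ s ∈ Icc t₀ t₁, DerL1 μ' w (w' s) s) {S : Set Y} (hS : MeasurableSet S) :
    IntervalIntegrable (fun s => ∫ a in S, w s a ∂μ') volume t₀ t₁ :=
  ContinuousOn.intervalIntegrable_of_Icc h1 fun s hs => (e3_cont (h s hs) hS).continuousWithinAt

theorem e3_sqrt {g ε l : ℝ} (hg : 0 ≤ g) (hε : 0 < ε) (hl : 0 < l) :
    0 ≤ √(g + ε ^ 2) - ε ∧ √(g + ε ^ 2) - ε ≤ (2 * l)⁻¹ * g + l / 2 ∧
      g / √(g + ε ^ 2) ≤ √(g + ε ^ 2) := by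
  have h1 : 0 < g + ε ^ 2 := by positivity
  refine ⟨sub_nonneg.2 (Real.le_sqrt_of_sq_le (by linarith)), ?_, ?_⟩
  · have h2 : √(g + ε ^ 2) ≤ √g + ε := Real.sqrt_le_iff.2 ⟨by positivity, by
      have := Real.sq_sqrt hg
      nlinarith [Real.sqrt_nonneg g]⟩
    have h3 : √g - l / 2 ≤ (2 * l)⁻¹ * g := by
      rw [le_inv_mul_iff₀ (by positivity)]
      have := Real.sq_sqrt hg
      nlinarith [sq_nonneg (√g - l)]
    linarith
  · rw [div_le_iff₀ (Real.sqrt_pos.2 h1), Real.mul_self_sqrt h1.le]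
    linarith [sq_nonneg ε]

namespace Env

variable (c : Env D D' Γ π κ m)
include c

theorem e3_fin (x : X) (r : ℝ) :
    MeasurableSet (π ⁻¹' ball x r) ∧ μ' (π ⁻¹' ball x r) ≠ ⊤ :=
  ⟨c.meas_π measurableSet_ball, by
    rw [c.measure_preimage]
    exact ENNReal.mul_ne_top ENNReal.ofNat_ne_top (D.fin x r).ne⟩

theorem e3_bd {x : X} {r K : ℝ} {f : Y → ℝ} (h : ∀ᵐ a ∂μ', 0 ≤ f a ∧
    (π a ∈ ball x r → f a ≤ K) ∧ (π a ∉ ball x r → f a = 0)) :
    ∫ a, f a ∂μ' ≤ μ'.real (π ⁻¹' ball x r) * K := by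
  obtain ⟨h1, h2⟩ := c.e3_fin x r
  rw [← smul_eq_mul, ← integral_indicator_const K h1]
  refine integral_mono_of_nonneg (h.mono fun a ha => ha.1)
    ((integrableOn_const h2).integrable_indicator h1) (h.mono fun a ha => ?_)
  by_cases hb : a ∈ π ⁻¹' ball x r
  · rw [indicator_of_mem hb]
    exact ha.2.1 hb
  · rw [indicator_of_notMem hb]
    exact (ha.2.2 hb).le

/-- Parabolic energy estimate. -/
theorem energy {h : Y → ℝ} (hh : MemLp h 2 μ') {x : X} {r M t₀ t₁ : ℝ} (hr : 0 < r) (h0 : 0 < t₀)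
    (h1 : t₀ ≤ t₁) (hM : ∀ s ∈ Icc t₀ t₁, ∀ᵐ a ∂μ', π a ∈ ball x r → |D'.P s h a| ≤ M) :
    ∫ s in t₀..t₁, ∫ a in π ⁻¹' ball x (r / 2), D'.G (D'.P s h) (D'.P s h) a ∂μ' ≤
      M ^ 2 * μ'.real (π ⁻¹' ball x r) * (1 + 16 * (t₁ - t₀) / r ^ 2) := by
  obtain ⟨χ, hχ, h01, h2, h3, h4⟩ := exists_cutoff_ball x (half_lt_self hr)
  have hζ := c.lipB_lift hχ
  have hW := D'.W_of_mem (D'.lip _ hζ)
  have hm : AEStronglyMeasurable (fun a => χ (π a) ^ 2) μ' :=
    (hζ.continuous.pow 2).aestronglyMeasurable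
  have h5 : ∀ a, χ (π a) ^ 2 ≤ 1 := fun a => pow_le_one₀ (h01 _).1 (h01 _).2
  have hb : Bdd μ' fun a => χ (π a) ^ 2 :=
    ⟨1, .of_forall fun a => (abs_of_nonneg (sq_nonneg _)).trans_le (h5 a)⟩
  have hG := DS.G_le_lip hW isOpen_univ (g := fun a => χ (π a)) (L := 2 / r)
    (fun a _ b _ => (h4 _ _).trans (by
      rw [c.quot.dist_eq, sub_half, div_div_eq_mul_div, mul_div_assoc, mul_comm]
      exact mul_le_mul_of_nonneg_left (min_le_left _ _) (by positivity)))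
    (by positivity) (.of_forall fun _ _ => rfl)
  have hp : ∀ s ∈ Icc t₀ t₁, 0 < s := fun s hs => h0.trans_le hs.1
  have hsq : ∀ s ∈ Icc t₀ t₁, ∀ᵐ a ∂μ', π a ∈ ball x r → D'.P s h a ^ 2 ≤ M ^ 2 := fun s hs =>
    (hM s hs).mono fun a ha hb => sq_le_sq' (abs_le.1 (ha hb)).1 (abs_le.1 (ha hb)).2
  have hd : ∀ s ∈ Icc t₀ t₁, HasDerivAt (fun s => 4 * (μ'.real (π ⁻¹' ball x r) *
      (M ^ 2 * (2 / r) ^ 2)) * s - ∫ a, χ (π a) ^ 2 * (D'.P s h a * D'.P s h a) ∂μ')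
      (4 * (μ'.real (π ⁻¹' ball x r) * (M ^ 2 * (2 / r) ^ 2)) -
        2 * ∫ a, χ (π a) ^ 2 * (D'.P s h a * D'.L s h a) ∂μ') s := fun s hs => by
    have d := (c.flow.derV h s hh (hp s hs)).derL2
    refine (((hasDerivAt_id' s).const_mul _).sub
      ((d.mul d).bdd_mul hm hb).hasDerivAt).congr_deriv ?_
    rw [mul_one, ← integral_const_mul]
    exact congrArg _ (integral_congr_ae (.of_forall fun a => by ring))
  have h6 := intervalIntegral.integral_le_sub_of_hasDeriv_right_of_le h1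
    (fun s hs => (hd s hs).continuousAt.continuousWithinAt)
    (fun s hs => (hd s (Ioo_subset_Icc_self hs)).hasDerivWithinAt)
    ((intervalIntegrable_iff_integrableOn_Icc_of_le h1).1 (e3_int h1
      (fun s hs => (c.flow.derV h s hh (hp s hs)).G_self) (c.e3_fin x (r / 2)).1)) fun s hs => by
      have hs' := Ioo_subset_Icc_self hs
      obtain ⟨a1, a2, a3⟩ := c.P_mem hh (hp s hs')
      have a4 := a3.cacc hζ
        (locInt_of_int (integrable_mul_of_memLp (D'.memLp _ a1) (D'.memLp _ a2)))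
      have a5 : ∫ a, D'.P s h a ^ 2 * D'.G (fun a => χ (π a)) (fun a => χ (π a)) a ∂μ' ≤
          μ'.real (π ⁻¹' ball x r) * (M ^ 2 * (2 / r) ^ 2) := c.e3_bd (by
        filter_upwards [hG, DS.G_nonneg hW, DS.G_level hW hW 0, hsq s hs'] with a b1 b2 b3 b4
        exact ⟨mul_nonneg (sq_nonneg _) b2, fun ha => mul_le_mul (b4 ha) (b1 trivial) b2
          (sq_nonneg _), fun ha => by rw [b3 (h3 _ ha), mul_zero]⟩)
      have a6 : ∫ a in π ⁻¹' ball x (r / 2), D'.G (D'.P s h) (D'.P s h) a ∂μ' ≤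
          ∫ a, χ (π a) ^ 2 * D'.G (D'.P s h) (D'.P s h) a ∂μ' := by
        rw [← integral_indicator (c.e3_fin x (r / 2)).1]
        refine integral_mono_ae ((DS.G_int a1 a1).indicator (c.e3_fin x (r / 2)).1)
          (hb.mul_integrable hm (DS.G_int a1 a1))
          ((DS.G_nonneg (D'.W_of_mem a1)).mono fun a ha => ?_)
        by_cases h7 : a ∈ π ⁻¹' ball x (r / 2)
        · simp only [indicator_of_mem h7, h2 _ (ball_subset_closedBall h7), one_pow, one_mul, le_refl]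
        · simp only [indicator_of_notMem h7]
          exact mul_nonneg (sq_nonneg _) ha
      linarith
  have h7 : ∫ a, χ (π a) ^ 2 * (D'.P t₀ h a * D'.P t₀ h a) ∂μ' ≤
      μ'.real (π ⁻¹' ball x r) * M ^ 2 := c.e3_bd (by
    filter_upwards [hsq t₀ ⟨le_rfl, h1⟩] with a b1
    exact ⟨mul_nonneg (sq_nonneg _) (mul_self_nonneg _), fun ha =>
      (mul_le_of_le_one_left (mul_self_nonneg _) (h5 a)).trans ((sq _).symm.trans_le (b1 ha)),
      fun ha => by rw [h3 _ ha, zero_pow two_ne_zero, zero_mul]⟩)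
  have h8 : 0 ≤ ∫ a, χ (π a) ^ 2 * (D'.P t₁ h a * D'.P t₁ h a) ∂μ' :=
    integral_nonneg fun a => mul_nonneg (sq_nonneg _) (mul_self_nonneg _)
  have h9 : M ^ 2 * μ'.real (π ⁻¹' ball x r) * (1 + 16 * (t₁ - t₀) / r ^ 2) =
      μ'.real (π ⁻¹' ball x r) * M ^ 2 +
        4 * (μ'.real (π ⁻¹' ball x r) * (M ^ 2 * (2 / r) ^ 2)) * (t₁ - t₀) := by ring
  linarith

theorem e3_ft (x₀ : X) (R : ℝ) : ∃ C r₀, 0 < C ∧ 0 < r₀ ∧ ∀ x ∈ ball x₀ R, ∀ r, 0 < r → r ≤ r₀ →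
    ∀ (a b M t : ℝ) (v v' : ℝ → Y → ℝ), 0 ≤ a → a * r ^ 2 ≤ 1 → 0 ≤ b →
    (∀ s ∈ Icc (t - r ^ 2) t, (∀ᵐ y ∂μ', 0 ≤ v s y) ∧ DerL1 μ' v (v' s) s ∧
      ∀ φ Lφ, D.TF (ball x r) φ Lφ → ∫ y, φ (π y) * v' s y ∂μ' ≤ ∫ y, Lφ (π y) * v s y ∂μ' +
        a * ∫ y, φ (π y) * v s y ∂μ' + b * ∫ y, φ y ∂μ) →
    ∫ s in (t - r ^ 2)..t, ∫ y in π ⁻¹' ball x r, v s y ∂μ' ≤ M * r ^ (m + 2 + 2) →
    ∀ᵐ y ∂μ', π y ∈ ball x (r / 2) → v t y ≤ C * (M + b * r ^ 2) := by
  obtain ⟨σ, hm, hs⟩ := c.sec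
  obtain ⟨C, r₀, hC, hr₀, H⟩ := c.ft.int x₀ R
  refine ⟨C, r₀, hC, hr₀, fun x hx r hr hr' a b M t v v' ha ha' hb h1 h2 => ?_⟩
  have ht : t - r ^ 2 ≤ t := sub_le_self _ (sq_nonneg r)
  have key : ∀ {φ : X → ℝ} {k : Y → ℝ}, AEStronglyMeasurable φ μ → Bdd μ φ → Integrable k μ' →
      ∫ y, φ y * dsc Γ σ k y ∂μ = ∫ y, φ (π y) * k y ∂μ' := fun m1 b1 hk =>
    c.integral_mul_dsc hm hs m1 hk.1 ((c.bdd_lift b1).mul_integrable (c.aesm_lift m1) hk)
  have h3 := H x hx r hr hr' a b M t (fun s => dsc Γ σ (v s)) (fun s => dsc Γ σ (v' s)) ha ha' hb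
    (fun s hs' => by
      obtain ⟨a1, a2, a3⟩ := h1 s hs'
      refine ⟨(c.ae_sec hs a1).mono fun y hy => add_nonneg hy.1 hy.2, c.derL1_dsc hm hs a2,
        fun φ Lφ hφ => ?_⟩
      rw [key hφ.lip.continuous.aestronglyMeasurable hφ.lip.bdd a2.2.1,
        key hφ.lip.continuous.aestronglyMeasurable hφ.lip.bdd a2.1.self_of_nhds,
        key hφ.lap.aesm hφ.bddL a2.1.self_of_nhds]
      exact a3 φ Lφ hφ)
    ((intervalIntegral.integral_congr fun s hs' => c.setIntegral_dsc hm hs measurableSet_ball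
      (h1 s (uIcc_of_le ht ▸ hs')).2.1.1.self_of_nhds.integrableOn).trans_le h2)
  filter_upwards [c.ae_lift h3, c.ae_refl (h1 t ⟨ht, le_rfl⟩).1] with y a1 a2 hy
  have a3 := a1 hy
  rw [c.dsc_π hs] at a3
  linarith

theorem e3_en {h : Y → ℝ} (hh : MemLp h 2 μ') {x : X} {r M t C : ℝ} (hr : 0 < r) (ht : r ^ 2 < t)
    (hM : ∀ s ∈ Icc (t - r ^ 2) t, ∀ᵐ a ∂μ', π a ∈ ball x r → |D'.P s h a| ≤ M)
    (hv : μ'.real (π ⁻¹' ball x r) ≤ C * r ^ (m + 2)) :
    (∀ s ∈ Icc (t - (r / 2) ^ 2) t, 0 < s) ∧ ∫ s in (t - (r / 2) ^ 2)..t,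
      ∫ a in π ⁻¹' ball x (r / 2), D'.G (D'.P s h) (D'.P s h) a ∂μ' ≤
      M ^ 2 * (C * r ^ (m + 2)) * 5 := by
  have h1 : (r / 2) ^ 2 ≤ r ^ 2 := pow_le_pow_left₀ (half_pos hr).le (half_le_self hr.le) 2
  refine ⟨fun s hs => by linarith [hs.1], (c.energy hh hr (by linarith)
    (sub_le_self _ (sq_nonneg _)) fun s hs => hM s ⟨by linarith [hs.1], hs.2⟩).trans ?_⟩
  have e : 1 + 16 * (t - (t - (r / 2) ^ 2)) / r ^ 2 = 5 := by
    field_simp
    ring
  rw [e]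
  gcongr

theorem lg1 (x₀ : X) (R : ℝ) : ∃ C r₀, 0 < C ∧ 0 < r₀ ∧ ∀ x ∈ ball x₀ R, ∀ r, 0 < r → r ≤ r₀ →
    c.P1 (ball x r) → ∀ h t M, MemLp h 2 μ' → Bdd μ' h → r ^ 2 < t →
    (∀ s ∈ Icc (t - r ^ 2) t, ∀ᵐ a ∂μ', π a ∈ ball x r → |D'.P s h a| ≤ M) →
    ∀ᵐ a ∂μ', π a ∈ ball x (r / 4) → D'.G (D'.P t h) (D'.P t h) a ≤ C * M ^ 2 / r ^ 2 := by
  obtain ⟨C, r₀, hC, hr₀, H⟩ := c.e3_ft x₀ R
  obtain ⟨c₁, C', r₁, -, hC', hr₁, -, hκ, hv, -⟩ := c.vol' x₀ R
  have κ0 := c.hp.κ_nonneg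
  refine ⟨C * (5 * C' * 2 ^ (m + 2 + 2)), min r₀ r₁, by positivity, lt_min hr₀ hr₁,
    fun x hx r hr hr' hP h t M hh hb ht hM => ?_⟩
  obtain ⟨hp, h1⟩ := c.e3_en hh hr ht hM (hv x hx r hr (hr'.trans (min_le_right _ _))).2
  have h2 := mul_le_mul_of_nonneg_left
    (pow_le_pow_left₀ hr.le (hr'.trans (min_le_right _ _)) 2) κ0
  have h3 := H x hx (r / 2) (half_pos hr) ((half_le_self hr.le).trans (hr'.trans (min_le_left _ _)))
    (2 * κ) 0 (5 * C' * 2 ^ (m + 2 + 2) * M ^ 2 / r ^ 2) t (fun s => D'.G (D'.P s h) (D'.P s h))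
    (fun s a => 2 * D'.G (D'.P s h) (D'.L s h) a) (by positivity) (by nlinarith) le_rfl
    (fun s hs => by
      obtain ⟨a1, a2, a3⟩ := c.P_mem hh (hp s hs)
      refine ⟨DS.G_nonneg (D'.W_of_mem a1), (c.flow.derV h s hh (hp s hs)).G_self,
        fun φ Lφ hφ => ?_⟩
      have t1 := c.tf_lift (hφ.mono (ball_subset_ball (half_le_self hr.le)))
      have m1 : AEStronglyMeasurable (fun a => φ (π a)) μ' := t1.lip.continuous.aestronglyMeasurable
      have a4 := hP h s _ _ hh hb (hp s hs) t1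
      have i1 := t1.lip.bdd.mul_integrable m1 (DS.G_int a1 a2)
      have i2 := t1.lip.bdd.mul_integrable m1 (DS.G_int a1 a1)
      have a5 := (integral_mono (i1.sub (i2.const_mul κ))
        (c.I1_int a1 a2 m1 t1.lip.bdd t1.lap.aesm t1.bddL).2.1 fun a => by
          have : 0 ≤ φ (π a) * (D'.L s h a ^ 2 / (m + 2 : ℕ)) :=
            mul_nonneg (hφ.nonneg _) (by positivity)
          simp only [Pi.sub_apply]
          linarith).trans a4
      simp only [Pi.sub_apply] at a5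
      rw [integral_sub i1 (i2.const_mul κ), integral_const_mul] at a5
      simp only [mul_left_comm _ (2 : ℝ), integral_const_mul]
      linarith)
    (h1.trans_eq (by
      rw [div_pow]
      field_simp
      ring))
  refine h3.mono fun a ha ha' => (ha (by rwa [div_div, show (2 : ℝ) * 2 = 4 by norm_num])).trans_eq ?_
  ring

theorem lg2 (x₀ : X) (R : ℝ) : ∃ C r₀, 0 < C ∧ 0 < r₀ ∧ ∀ x ∈ ball x₀ R, ∀ r, 0 < r → r ≤ r₀ →
    c.P2 (ball x r) → ∀ h t M, MemLp h 2 μ' → Bdd μ' h → IsOdd μ' Γ h → r ^ 2 < t →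
    (∀ s ∈ Icc (t - r ^ 2) t, ∀ᵐ a ∂μ', π a ∈ ball x r → |D'.P s h a| ≤ M) →
    ∀ᵐ a ∂μ', π a ∈ ball x (r / 4) → D'.G (D'.P t h) (D'.P t h) a ≤ C * M ^ 2 / r ^ 2 := by
  obtain ⟨C, r₀, hC, hr₀, H⟩ := c.e3_ft x₀ R
  obtain ⟨c₁, C', r₁, -, hC', hr₁, -, hκ, hv, -⟩ := c.vol' x₀ R
  have κ0 := c.hp.κ_nonneg
  refine ⟨(C * (3 * C' * 2 ^ (m + 2 + 2))) ^ 2, min r₀ r₁, by positivity, lt_min hr₀ hr₁,
    fun x hx r hr hr' hP h t M hh hb ho ht hM => ?_⟩
  have hv' := (hv x hx r hr (hr'.trans (min_le_right _ _))).2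
  obtain ⟨hp, h1⟩ := c.e3_en hh hr ht hM hv'
  have h2 := mul_le_mul_of_nonneg_left
    (pow_le_pow_left₀ hr.le (hr'.trans (min_le_right _ _)) 2) κ0
  have ht' : t - (r / 2) ^ 2 ≤ t := sub_le_self _ (sq_nonneg _)
  obtain ⟨s1, s2⟩ := c.e3_fin x (r / 2)
  have key : ∀ ε : ℝ, 0 < ε → ∀ᵐ a ∂μ', π a ∈ ball x (r / 2 / 2) →
      √(D'.G (D'.P t h) (D'.P t h) a + ε ^ 2) - ε ≤
        C * (3 * C' * 2 ^ (m + 2 + 2) * ((|M| + ε) / r) + κ * ε * 2 * (r / 2) ^ 2) := fun ε hε => by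
    have hl : 0 < (|M| + ε) / r := by positivity
    have hd := fun s hs => (c.flow.derV h s hh (hp s hs)).sqrt_G hε
    have hn := fun s hs => DS.G_nonneg (D'.W_of_mem (c.P_mem hh (hp s hs)).1)
    refine H x hx (r / 2) (half_pos hr) ((half_le_self hr.le).trans (hr'.trans (min_le_left _ _)))
      κ _ _ t (fun s a => √(D'.G (D'.P s h) (D'.P s h) a + ε ^ 2) - ε) _ κ0 (by nlinarith)
      (by positivity) (fun s hs => ⟨(hn s hs).mono fun a ha => (e3_sqrt ha hε hl).1, hd s hs,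
        fun φ Lφ hφ => ?_⟩) ?_
    · obtain ⟨a1, a2, a3⟩ := c.P_mem hh (hp s hs)
      have t1 := c.tf_lift hφ
      have m1 : AEStronglyMeasurable (fun a => φ (π a)) μ' := t1.lip.continuous.aestronglyMeasurable
      have a4 := hP h s _ _ ε hh hb ho (hp s hs) (hφ.mono (ball_subset_ball (half_le_self hr.le))) hε
      have i1 := t1.lip.bdd.mul_integrable m1 (c.I2_int a1 a2 hε).1
      have i2 := (t1.lip.bdd.mul_integrable m1 (c.I2_int a1 a2 hε).2).const_mul κ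
      have i3 := (D'.lipB_int t1.lip).const_mul (κ * ε)
      have a5 := integral_mono_ae (t1.lip.bdd.mul_integrable m1 (hd s hs).2.1) ((i1.add i2).add i3)
        ((hn s hs).mono fun a ha => by
          have := mul_le_mul_of_nonneg_left (e3_sqrt ha hε hl).2.2 (mul_nonneg (hφ.nonneg (π a)) κ0)
          simp only [Pi.add_apply, sub_div, mul_div_assoc]
          linarith)
      rw [integral_add' (i1.add i2) i3, integral_add' i1 i2, integral_const_mul, integral_const_mul,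
        c.integral_lift hφ.lip.continuous.aestronglyMeasurable] at a5
      rw [Env.I2] at a4
      linarith
    · have i1 := (e3_int ht' (fun s hs => (c.flow.derV h s hh (hp s hs)).G_self) s1).const_mul
        (2 * ((|M| + ε) / r))⁻¹
      refine (intervalIntegral.integral_mono_on ht' (e3_int ht' hd s1)
        (i1.add (intervalIntegrable_const
          (c := μ'.real (π ⁻¹' ball x (r / 2)) * ((|M| + ε) / r / 2)))) fun s hs => ?_).trans ?_
      · have a1 := (c.P_mem hh (hp s hs)).1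
        have i2 := ((DS.G_int a1 a1).const_mul (2 * ((|M| + ε) / r))⁻¹).integrableOn
          (s := π ⁻¹' ball x (r / 2))
        rw [← integral_const_mul, ← smul_eq_mul (μ'.real _), ← setIntegral_const,
          ← integral_add i2 (integrableOn_const s2)]
        exact integral_mono_ae (hd s hs).1.self_of_nhds.integrableOn (i2.add (integrableOn_const s2))
          (ae_restrict_of_ae ((hn s hs).mono fun a ha => (e3_sqrt ha hε hl).2.1))
      · rw [intervalIntegral.integral_add i1 intervalIntegrable_const,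
          intervalIntegral.integral_const_mul, intervalIntegral.integral_const, smul_eq_mul]
        have a1 : μ'.real (π ⁻¹' ball x (r / 2)) ≤ C' * r ^ (m + 2) := (measureReal_mono
          (preimage_mono (ball_subset_ball (half_le_self hr.le))) (c.e3_fin x r).2).trans hv'
        have a2 : M ^ 2 ≤ (|M| + ε) ^ 2 := by
          rw [← sq_abs]
          exact pow_le_pow_left₀ (abs_nonneg M) (le_add_of_nonneg_right hε.le) 2
        have a3 : 0 < |M| + ε := by positivity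
        calc _ ≤ (2 * ((|M| + ε) / r))⁻¹ * ((|M| + ε) ^ 2 * (C' * r ^ (m + 2)) * 5) +
              (t - (t - (r / 2) ^ 2)) * (C' * r ^ (m + 2) * ((|M| + ε) / r / 2)) := by
              refine add_le_add (mul_le_mul_of_nonneg_left (h1.trans ?_) (by positivity))
                (mul_le_mul_of_nonneg_left ?_ (sub_nonneg.2 ht')) <;> gcongr
          _ = 21 / 8 * ((|M| + ε) * C' * r ^ (m + 3)) := by
              field_simp
              ring
          _ ≤ 3 * ((|M| + ε) * C' * r ^ (m + 3)) :=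
              mul_le_mul_of_nonneg_right (by norm_num) (by positivity)
          _ = _ := by
              rw [div_pow]
              field_simp
              ring
  filter_upwards [ae_all_iff.2 fun k : ℕ => key _ (Nat.one_div_pos_of_nat (n := k)),
    DS.G_nonneg (D'.W_of_mem (c.P_mem hh (hp t ⟨ht', le_rfl⟩)).1)] with a a1 a2 ha
  have a3 := le_of_tendsto_of_tendsto'
    ((Continuous.tendsto (f := fun ε : ℝ => √(D'.G (D'.P t h) (D'.P t h) a + ε ^ 2) - ε)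
      (by fun_prop) 0).comp tendsto_one_div_add_atTop_nhds_zero_nat)
    ((Continuous.tendsto (f := fun ε : ℝ => C * (3 * C' * 2 ^ (m + 2 + 2) * ((|M| + ε) / r) +
      κ * ε * 2 * (r / 2) ^ 2)) (by fun_prop) 0).comp tendsto_one_div_add_atTop_nhds_zero_nat)
    fun k => a1 k (by rwa [div_div, show (2 : ℝ) * 2 = 4 by norm_num])
  simp only [zero_pow two_ne_zero, add_zero, sub_zero, mul_zero, zero_mul] at a3
  refine (Real.sqrt_le_iff.1 a3).2.trans_eq ?_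
  rw [← sq_abs M]
  ring

end Env

end RC
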