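import Pool.Agent.P.MP_6472e5_gt.E3
import Pool.Agent.P.MP_6472e5_gt.E2a

/-! The heat flow moves functions with small gradient little. -/

set_option autoImplicit false
set_option linter.unusedSectionVars false
set_option linter.unusedVariables false

noncomputable section

namespace RC

open MeasureTheory Set Filter Topology Metric

variable {X Y : Type} [MetricSpace X] [ProperSpace X] [MeasurableSpace X] [BorelSpace X]
  [MetricSpace Y] [ProperSpace Y] [MeasurableSpace Y] [BorelSpace Y] {μ : Measure X}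
  {μ' : Measure Y} {D : DS μ} {D' : DS μ'} {Γ : Y → Y} {π : Y → X} {κ : ℝ} {m : ℕ}

namespace Env

variable (c : Env D D' Γ π κ m)

theorem e4a_lip (c : Env D D' Γ π κ m) (a b : Y) : dist (π a) (π b) ≤ dist a b :=
  (c.quot.dist_eq a b).trans_le (min_le_left _ _)

theorem e4a_exp {r τ σ A B : ℝ} (hσ : 0 < σ) (hτ : σ ≤ τ) (hA : 0 < A) (hB : A ≤ B) :
    Real.exp (-(r ^ 2 / (A * σ ^ 2))) ≤ Real.exp (-(r ^ 2 / (B * τ ^ 2))) := by
  have := hA.trans_le hB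
  gcongr

theorem e4a_ind (S : Set X) (y : X) : |S.indicator (fun _ => (1 : ℝ)) y| ≤ 1 := by
  by_cases h : y ∈ S <;> simp [h]

theorem e4a_dom (c : Env D D' Γ π κ m) {S : Set X} (hS : MeasurableSet S) {φ : Y → ℝ}
    (hφ : MemLp φ 2 μ') (h1 : ∀ᵐ a ∂μ', |φ a| ≤ 1) (h0 : ∀ᵐ a ∂μ', π a ∉ S → φ a = 0) {t : ℝ}
    (ht : 0 < t) : ∀ᵐ a ∂μ', |D'.P t φ a| ≤ D.Pk t (S.indicator fun _ => 1) (π a) := by
  refine c.P_dom hφ (aestronglyMeasurable_const.indicator hS)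
    (Or.inl ⟨1, Eventually.of_forall (e4a_ind S)⟩) ?_ ht
  filter_upwards [h1, h0] with a a1 a2
  by_cases h : π a ∈ S
  · rwa [indicator_of_mem h]
  · rw [indicator_of_notMem h, a2 h, abs_zero]

theorem e4a_off (c : Env D D' Γ π κ m) : ∃ C r₀, 0 < C ∧ 0 < r₀ ∧ r₀ ≤ 1 ∧ ∀ S : Set X,
    MeasurableSet S → ∀ σ r, 0 < σ → σ ≤ r₀ → 0 ≤ r → ∀ y, (∀ z ∈ ball y (r / 4), z ∉ S) →
      D.Pk (σ ^ 2) (S.indicator fun _ => 1) y ≤ C * Real.exp (-(r ^ 2 / (16 * C * σ ^ 2))) := by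
  obtain ⟨C, hC, h⟩ := c.hp.pk_off
  obtain ⟨r₀, h1, h2, h3⟩ := c.hp.exists_scale
  refine ⟨C, r₀, hC, h1, h2, fun S hS σ r hσ hσr hr y hy => (le_abs_self _).trans
    ((h _ 1 σ (r / 4) y (aestronglyMeasurable_const.indicator hS)
      (Eventually.of_forall (e4a_ind S)) (by positivity)
      (Eventually.of_forall fun z hz => indicator_of_notMem (hy z hz) _) hσ
      (h3 σ hσ.le hσr)).trans_eq ?_)⟩
  rw [mul_one]
  congr 3
  field_simp
  norm_num

/-- Gradient bounds in the interior of a good ball, for all short times. -/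
theorem lg_short (x₀ : X) (R : ℝ) : ∃ C r₀, 0 < C ∧ 0 < r₀ ∧ ∀ x ∈ ball x₀ R, ∀ r, 0 < r →
    r ≤ r₀ → ball x r ⊆ c.Gd → ∀ φ : Y → ℝ, MemLp φ 2 μ' → (∀ᵐ a ∂μ', |φ a| ≤ 1) →
    ∀ τ, 0 < τ → τ ≤ r →
    (∀ᵐ a ∂μ', π a ∈ ball x (3 * r / 4) →
      D'.G (D'.P (τ ^ 2) φ) (D'.P (τ ^ 2) φ) a ≤ C / τ ^ 2) ∧
    ((∀ᵐ a ∂μ', π a ∉ ball x (r / 8) → φ a = 0) →
      ∀ᵐ a ∂μ', π a ∈ ball x (3 * r / 4) → π a ∉ ball x (r / 2) →
        D'.G (D'.P (τ ^ 2) φ) (D'.P (τ ^ 2) φ) a ≤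
          C / τ ^ 2 * Real.exp (-(r ^ 2 / (C * τ ^ 2)))) := by
  obtain ⟨C₁, r₁, hC₁, hr₁, H1⟩ := c.lg1 x₀ (R + 1)
  obtain ⟨C₂, r₂, hC₂, hr₂, hr₂', H2⟩ := c.e4a_off
  refine ⟨64 * C₁ + 64 * C₁ * C₂ ^ 2 + 16 * C₂, min r₁ r₂, by positivity, lt_min hr₁ hr₂,
    fun x hx r hr hrr hG φ hφ hb τ hτ hτr => ?_⟩
  have a1 := hrr.trans (min_le_left _ _)
  have a2 := hrr.trans (min_le_right _ _)
  have key : ∀ (U : Set X) (M : ℝ), U ⊆ ball x (3 * r / 4) →
      (∀ z ∈ U, ∀ s ∈ Icc (τ ^ 2 - (τ / 8) ^ 2) (τ ^ 2), ∀ᵐ a ∂μ', π a ∈ ball z (τ / 8) →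
        |D'.P s φ a| ≤ M) → ∀ᵐ a ∂μ', a ∈ π ⁻¹' U →
      D'.G (D'.P (τ ^ 2) φ) (D'.P (τ ^ 2) φ) a ≤ 64 * C₁ * M ^ 2 / τ ^ 2 := fun U M hU hM => by
    refine D'.ae_of_local fun b hb' => ⟨τ / 8 / 4, by positivity, ?_⟩
    have b1 := mem_ball.1 (hU hb')
    filter_upwards [H1 (π b) (by
        have := dist_triangle (π b) x x₀
        have := mem_ball.1 hx
        rw [mem_ball]
        linarith) (τ / 8) (by positivity) (by linarith)
      (c.p1_Gd.mono ((ball_subset_ball' (by linarith)).trans hG)) φ (τ ^ 2) M hφ ⟨1, hb⟩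
      (by nlinarith) (hM _ hb')] with a ha h
    exact (ha ((c.e4a_lip a b).trans_lt h)).trans_eq (by field_simp; norm_num)
  refine ⟨?_, fun h0 => ?_⟩
  · filter_upwards [key _ 1 Subset.rfl fun z _ s _ => (c.P_abs_le hφ hb s).mono fun a h _ => h]
      with a ha h
    refine (ha h).trans (div_le_div_of_nonneg_right ?_ (by positivity))
    nlinarith [mul_pos hC₁ (pow_pos hC₂ 2)]
  · filter_upwards [key (ball x (3 * r / 4) \ ball x (r / 2))
      (C₂ * Real.exp (-(r ^ 2 / (16 * C₂ * τ ^ 2)))) sdiff_subset fun z hz s hs => by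
        have s0 : 0 < s := by nlinarith [hs.1]
        have s1 : √s ≤ τ := Real.sqrt_le_iff.2 ⟨hτ.le, hs.2⟩
        filter_upwards [c.e4a_dom measurableSet_ball hφ hb h0 s0] with a ha h
        have h1 := H2 _ (measurableSet_ball (x := x) (ε := r / 8)) (√s) r (Real.sqrt_pos.2 s0)
          (by linarith) hr.le (π a) fun y hy hy' => hz.2 (by
            have := dist_triangle4 z (π a) y x
            rw [mem_ball] at hy hy' ⊢
            rw [mem_ball'] at h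
            rw [dist_comm] at hy
            linarith)
        refine (ha.trans_eq (by rw [Real.sq_sqrt s0.le])).trans (h1.trans ?_)
        exact mul_le_mul_of_nonneg_left (e4a_exp (Real.sqrt_pos.2 s0) s1 (by positivity) le_rfl)
          hC₂.le] with a ha h h'
    refine (ha ⟨h, h'⟩).trans ?_
    have e1 := e4a_exp (r := r) hτ le_rfl (A := 16 * C₂)
      (B := 64 * C₁ + 64 * C₁ * C₂ ^ 2 + 16 * C₂) (by positivity)
      (le_add_of_nonneg_left (by positivity))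
    have e2 : Real.exp (-(r ^ 2 / (16 * C₂ * τ ^ 2))) ≤ 1 :=
      Real.exp_le_one_iff.2 (neg_nonpos.2 (by positivity))
    rw [div_mul_eq_mul_div, mul_pow, ← mul_assoc, sq (Real.exp _)]
    refine div_le_div_of_nonneg_right (mul_le_mul (by nlinarith)
      ((mul_le_of_le_one_left (Real.exp_pos _).le e2).trans e1) (by positivity) (by positivity))
      (by positivity)

theorem e4a_pt (c : Env D D' Γ π κ m) {x : X} {r K E : ℝ} (hr : 0 < r) (hK : 0 ≤ K) (hE : 0 ≤ E)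
    {χ : X → ℝ} (c1 : LipB χ) (c2 : ∀ y, 0 ≤ χ y ∧ χ y ≤ 1) (c3 : ∀ y ∈ closedBall x (r / 2), χ y = 1)
    (c4 : ∀ y, y ∉ ball x (3 * r / 4) → χ y = 0)
    (c5 : ∀ y z, |χ y - χ z| ≤ dist y z / (3 * r / 4 - r / 2)) {h w : Y → ℝ} (hh : h ∈ D'.V)
    (hb : ∀ᵐ a ∂μ', |h a| ≤ 1) (hw : w ∈ D'.V)
    (k1 : ∀ᵐ a ∂μ', π a ∈ ball x (3 * r / 4) → D'.G w w a ≤ K ^ 2)
    (k2 : ∀ᵐ a ∂μ', π a ∈ ball x (3 * r / 4) → π a ∉ ball x (r / 2) → D'.G w w a ≤ (K * E) ^ 2) :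
    -∫ a, D'.G w ((fun a => χ (π a)) * h) a ∂μ' ≤
      K * (∫ a in π ⁻¹' ball x r, √(D'.G h h a) ∂μ' + 4 / r * E * μ'.real (π ⁻¹' ball x r)) := by
  have hζ := c.lipB_lift c1
  have hg := D'.mul_mem_lipB hζ hh
  have wζ := D'.W_of_mem (D'.lip _ hζ)
  have wh := D'.W_of_mem hh
  have ww := D'.W_of_mem hw
  have hS : MeasurableSet (π ⁻¹' ball x r) := c.meas_π measurableSet_ball
  have hfin : μ' (π ⁻¹' ball x r) ≠ ⊤ := by
    rw [c.measure_preimage]
    exact ENNReal.mul_ne_top ENNReal.ofNat_ne_top (D.fin x r).ne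
  have := isFiniteMeasure_restrict.2 hfin
  have i1 : IntegrableOn (fun a => √(D'.G h h a)) (π ⁻¹' ball x r) μ' :=
    ((DS.sqrt_G_memLp hh).restrict _).integrable one_le_two
  have i2 : IntegrableOn (fun _ : Y => 4 / r * E) (π ⁻¹' ball x r) μ' := integrable_const _
  rw [mul_comm _ (μ'.real _), ← smul_eq_mul (μ'.real _), ← setIntegral_const, ← integral_add i1 i2,
    ← integral_const_mul, ← integral_indicator hS, ← integral_neg]
  refine integral_mono_ae (DS.G_int hw hg).neg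
    ((integrable_indicator_iff hS).2 ((i1.add i2).const_mul K)) ?_
  filter_upwards [DS.G_mul_right wζ wh (D'.W_of_mem hg) ww, DS.G_symm ww wζ,
    DS.G_level wζ ww 0, DS.G_level wζ ww 1, DS.G_abs_le ww wh, DS.G_abs_le ww wζ, hb, k1, k2,
    DS.G_le_lip wζ isOpen_univ (g := fun a => χ (π a)) (L := 4 / r) (fun a _ b _ => by
      refine (c5 _ _).trans ?_
      rw [show 3 * r / 4 - r / 2 = r / 4 by ring, div_div_eq_mul_div, div_mul_eq_mul_div, mul_comm]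
      gcongr
      exact c.e4a_lip a b) (by positivity) (Eventually.of_forall fun _ _ => rfl)]
    with a a1 a2 a3 a4 a5 a6 a7 a8 a9 a10
  rw [a1]
  by_cases h1 : π a ∈ ball x (3 * r / 4)
  · rw [indicator_of_mem (show a ∈ π ⁻¹' ball x r from ball_subset_ball (by linarith) h1), neg_add,
      mul_add]
    refine add_le_add ((neg_le_abs _).trans ?_) ((neg_le_abs _).trans ?_)
    · rw [abs_mul, abs_of_nonneg (c2 _).1]
      refine (mul_le_of_le_one_left (abs_nonneg _) (c2 _).2).trans (a5.trans ?_)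
      exact mul_le_mul_of_nonneg_right (Real.sqrt_le_iff.2 ⟨hK, a8 h1⟩) (Real.sqrt_nonneg _)
    · rw [abs_mul]
      refine (mul_le_of_le_one_left (abs_nonneg _) a7).trans ?_
      by_cases h2 : π a ∈ ball x (r / 2)
      · rw [a2, a4 (c3 _ (ball_subset_closedBall h2)), abs_zero]
        positivity
      · refine a6.trans ((mul_le_mul (Real.sqrt_le_iff.2 ⟨by positivity, a9 h1 h2⟩)
          (Real.sqrt_le_iff.2 ⟨by positivity, a10 (mem_univ _)⟩) (Real.sqrt_nonneg _)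
          (by positivity)).trans_eq (by ring))
  · rw [a2, a3 (c4 _ h1), c4 _ h1, zero_mul, mul_zero, add_zero, neg_zero]
    exact indicator_nonneg (fun a _ => by positivity) a

theorem e4a_time (c : Env D D' Γ π κ m) {φ g : Y → ℝ} (hφ : MemLp φ 2 μ') (hg : g ∈ D'.V)
    {τ K : ℝ} (hτ : 0 < τ)
    (h : ∀ σ, 0 < σ → σ ≤ τ → -∫ a, D'.G (D'.P (σ ^ 2) φ) g a ∂μ' ≤ K / σ) :
    ∫ a, g a * D'.P (τ ^ 2) φ a ∂μ' - ∫ a, g a * φ a ∂μ' ≤ 2 * K * τ := by
  have g2 := D'.memLp g hg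
  have hd : ∀ s, 0 < s → HasDerivAt (fun s => ∫ a, g a * D'.P s φ a ∂μ')
      (∫ a, g a * D'.L s φ a ∂μ') s := fun s hs =>
    (((c.flow.heat φ hφ).1 s hs).2.2.mul_memLp g2).hasDerivAt
  have hc : Continuous fun s : ℝ => 2 * K * √s := by fun_prop
  have h3 : Tendsto (fun s => ∫ a, g a * D'.P s φ a ∂μ') (𝓝[>] 0) (𝓝 (∫ a, g a * φ a ∂μ')) := by
    have h1 := tendsto_integral_mul (u := fun _ : ℝ => g) (v := fun s => D'.P s φ)
      (Eventually.of_forall fun _ => g2) (Eventually.of_forall fun s => c.flow.memLp φ s hφ) g2 hφ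
      (by simp [RC.n2]) (c.flow.heat φ hφ).2
    refine tendsto_iff_dist_tendsto_zero.2 (squeeze_zero (fun _ => dist_nonneg) (fun s => ?_) h1)
    rw [Real.dist_eq, ← integral_sub (integrable_mul_of_memLp g2 (c.flow.memLp φ s hφ))
      (integrable_mul_of_memLp g2 hφ)]
    exact abs_integral_le_integral_abs
  have := sub_ge_of_deriv' (pow_pos hτ 2) (hc.continuousAt.tendsto.mono_left nhdsWithin_le_nhds)
    (hc.continuousAt.tendsto.mono_left nhdsWithin_le_nhds) h3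
    ((hd _ (pow_pos hτ 2)).continuousAt.tendsto.mono_left nhdsWithin_le_nhds)
    (fun s hs => (Real.hasDerivAt_sqrt hs.1.ne').const_mul (2 * K)) (fun s hs => hd s hs.1)
    fun s hs => by
      obtain ⟨m1, m2, m3⟩ := c.P_mem hφ hs.1
      have h1 := h (√s) (Real.sqrt_pos.2 hs.1) (Real.sqrt_le_iff.2 ⟨hτ.le, hs.2.le⟩)
      rw [Real.sq_sqrt hs.1.le, m3.test m1 (D'.memLp _ m2) hg, neg_neg] at h1
      simp only [mul_comm (g _)]
      exact h1.trans_eq (by ring)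
  rwa [Real.sqrt_sq hτ.le, Real.sqrt_zero, mul_zero, sub_zero] at this

theorem e4a_tail (c : Env D D' Γ π κ m) {S T : Set X} (hS : MeasurableSet S)
    (hT : MeasurableSet T) (hfin : μ S ≠ ⊤) {φ k : Y → ℝ} (hφ : MemLp φ 2 μ')
    (h1 : ∀ᵐ a ∂μ', |φ a| ≤ 1) (h0 : ∀ᵐ a ∂μ', π a ∉ S → φ a = 0) (hk : MemLp k 2 μ')
    (k1 : ∀ᵐ a ∂μ', |k a| ≤ T.indicator (fun _ => 1) (π a)) {t M : ℝ} (ht : 0 < t)
    (hM : ∀ y ∈ S, D.Pk t (T.indicator fun _ => 1) y ≤ M) :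
    ∫ a, D'.P t φ a * k a ∂μ' ≤ M * μ'.real (π ⁻¹' S) := by
  have i1 : ∀ b : ℝ, Integrable (S.indicator fun _ => b) μ := fun b =>
    (integrable_indicator_iff hS).2 (integrableOn_const hfin)
  have m1 : AEStronglyMeasurable (T.indicator fun _ => (1 : ℝ)) μ :=
    aestronglyMeasurable_const.indicator hT
  have b1 : Bdd μ (T.indicator fun _ => (1 : ℝ)) := ⟨1, Eventually.of_forall (e4a_ind T)⟩
  have i2 := b1.mul_integrable m1 (c.hp.pk_l1 _ t (i1 1) ht).2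
  refine (integral_mono_ae (integrable_mul_of_memLp (c.flow.memLp φ t hφ) hk)
    (c.integrable_lift i2) ?_).trans ?_
  · filter_upwards [c.e4a_dom hS hφ h1 h0 ht, k1] with a a1 a2
    refine (le_abs_self _).trans ?_
    rw [abs_mul, mul_comm]
    exact mul_le_mul a2 a1 (abs_nonneg _) ((abs_nonneg _).trans a2)
  · have h2 := c.hp.pk_bdd _ t 1 m1 (Eventually.of_forall (e4a_ind T)) ht
    have h3 : ∫ y, D.Pk t (T.indicator fun _ => 1) y * S.indicator (fun _ => 1) y ∂μ ≤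
        ∫ y, S.indicator (fun _ => M) y ∂μ := by
      refine integral_mono (Bdd.mul_integrable ⟨1, Eventually.of_forall h2.1⟩
        (c.hp.pk_cont m1 b1 ht).aestronglyMeasurable (i1 1)) (i1 M) fun y => ?_
      by_cases hy : y ∈ S
      · simpa [hy] using hM y hy
      · simp [hy]
    rw [c.integral_lift i2.aestronglyMeasurable, ← c.hp.pk_symm m1 b1 (i1 1) ht, c.real_preimage]
    rw [integral_indicator_const _ hS, smul_eq_mul] at h3
    linarith

theorem hl1 (x₀ : X) (R : ℝ) : ∃ C r₀, 0 < C ∧ 0 < r₀ ∧ ∀ x ∈ ball x₀ R, ∀ r, 0 < r → r ≤ r₀ →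
    ball x r ⊆ c.Gd → ∀ h ∈ D'.V, (∀ᵐ a ∂μ', |h a| ≤ 1) → ∀ τ, 0 < τ → τ ≤ r →
    ∫ a in π ⁻¹' ball x (r / 8), |D'.P (τ ^ 2) h a - h a| ∂μ' ≤
      C * τ * ∫ a in π ⁻¹' ball x r, √(D'.G h h a) ∂μ' +
        C * r ^ (m + 2) * Real.exp (-(r ^ 2 / (C * τ ^ 2))) := by
  obtain ⟨C₀, r₀, hC₀, hr₀, H0⟩ := c.lg_short x₀ R
  obtain ⟨C₂, r₂, hC₂, hr₂, -, H2⟩ := c.e4a_off
  obtain ⟨c₁, C₃, r₃, -, hC₃, hr₃, -, -, H3, -⟩ := c.vol' x₀ R
  obtain ⟨K, hK, rfl⟩ : ∃ K, 0 < K ∧ C₀ = K ^ 2 :=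
    ⟨√C₀, Real.sqrt_pos.2 hC₀, (Real.sq_sqrt hC₀.le).symm⟩
  refine ⟨2 * K + 8 * K * C₃ + C₂ * C₃ + 2 * K ^ 2 + 16 * C₂, min r₀ (min r₂ r₃), by positivity,
    lt_min hr₀ (lt_min hr₂ hr₃), fun x hx r hr hrr hG h hh hb τ hτ hτr => ?_⟩
  obtain ⟨a0, a2, a3⟩ : r ≤ r₀ ∧ r ≤ r₂ ∧ r ≤ r₃ := by simpa only [le_min_iff] using hrr
  set C := 2 * K + 8 * K * C₃ + C₂ * C₃ + 2 * K ^ 2 + 16 * C₂ with hC
  have h2 := D'.memLp h hh
  have u2 := c.flow.memLp h (τ ^ 2) h2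
  have hS : MeasurableSet (π ⁻¹' ball x (r / 8)) := c.meas_π measurableSet_ball
  have hfin : ∀ ρ, μ' (π ⁻¹' ball x ρ) ≠ ⊤ := fun ρ => by
    rw [c.measure_preimage]
    exact ENNReal.mul_ne_top ENNReal.ofNat_ne_top (D.fin x ρ).ne
  set φ : Y → ℝ := (π ⁻¹' ball x (r / 8)).indicator fun a =>
    (D'.P (τ ^ 2) h a - h a) / |D'.P (τ ^ 2) h a - h a| with hφ
  have φ0 : ∀ a, π a ∉ ball x (r / 8) → φ a = 0 := fun a ha =>
    indicator_of_notMem (s := π ⁻¹' ball x (r / 8)) ha _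
  have φ1 : ∀ a, |φ a| ≤ 1 := fun a => by
    by_cases ha : a ∈ π ⁻¹' ball x (r / 8)
    · rw [hφ, indicator_of_mem ha, abs_div, abs_abs]
      exact div_self_le_one _
    · rw [φ0 a ha, abs_zero]
      exact zero_le_one
  have φ2 : MemLp φ 2 μ' := by
    have := isFiniteMeasure_restrict.2 (hfin (r / 8))
    have m := (u2.sub h2).aestronglyMeasurable.aemeasurable
    refine (memLp_indicator_iff_restrict hS).2 (MemLp.of_bound
      (m.div (measurable_abs.comp_aemeasurable m)).aestronglyMeasurable.restrict 1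
      (Eventually.of_forall fun a => ?_))
    rw [Real.norm_eq_abs, abs_div, abs_abs]
    exact div_self_le_one _
  obtain ⟨χ, c1, c2, c3, c4, c5⟩ := exists_cutoff_ball x (r := r / 2) (R := 3 * r / 4) (by linarith)
  have hg := D'.mul_mem_lipB (c.lipB_lift c1) hh
  have g2 := D'.memLp _ hg
  have p2 := c.flow.memLp φ (τ ^ 2) φ2
  set I := ∫ a in π ⁻¹' ball x r, √(D'.G h h a) ∂μ' with hI
  have hI0 : 0 ≤ I := integral_nonneg fun a => Real.sqrt_nonneg _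
  set E := Real.exp (-(r ^ 2 / (C * τ ^ 2))) with hE
  have hE0 : 0 < E := Real.exp_pos _
  have v1 := (H3 x hx r hr a3).2
  have t1 := c.e4a_time φ2 hg hτ (K := K * (I + 4 / r * E * μ'.real (π ⁻¹' ball x r)))
    fun σ hσ hστ => by
      obtain ⟨k1, k2⟩ := H0 x hx r hr a0 hG φ φ2 (Eventually.of_forall φ1) σ hσ (hστ.trans hτr)
      rw [← div_pow] at k1 k2
      refine (c.e4a_pt hr (K := K / σ) (by positivity) hE0.le c1 c2 c3 c4 c5 hh hb
        (c.P_mem φ2 (pow_pos hσ 2)).1 k1 ?_).trans_eq (by ring)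
      filter_upwards [k2 (Eventually.of_forall φ0)] with a ha b1 b2
      refine (ha b1 b2).trans ?_
      rw [mul_pow]
      refine mul_le_mul_of_nonneg_left (le_trans (le_of_eq ?_) (pow_le_pow_left₀ (Real.exp_pos _).le
        (e4a_exp (r := r) hσ hστ (A := 2 * K ^ 2) (by positivity) ?_) 2)) (by positivity)
      · rw [← Real.exp_nat_mul]
        congr 1
        field_simp
        norm_num
      · rw [hC]
        nlinarith [mul_pos hK hC₃, mul_pos hC₂ hC₃]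
  have t2 := c.e4a_tail measurableSet_ball (measurableSet_ball (x := x) (ε := r / 2)).compl
    (D.fin x (r / 8)).ne φ2 (Eventually.of_forall φ1) (Eventually.of_forall φ0) (h2.sub g2)
    (hb.mono fun a ha => by
      by_cases h1 : π a ∈ ball x (r / 2)
      · simp [h1, c3 _ (ball_subset_closedBall h1)]
      · rw [indicator_of_mem (mem_compl h1), Pi.sub_apply, Pi.mul_apply, ← one_sub_mul, abs_mul,
          abs_of_nonneg (sub_nonneg.2 (c2 _).2)]
        exact mul_le_one₀ (by linarith [(c2 (π a)).1]) (abs_nonneg _) ha) (pow_pos hτ 2)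
    (M := C₂ * E) fun y hy => (H2 _ measurableSet_ball.compl τ r hτ (by linarith) hr.le y
      fun z hz hz' => hz' (by
        have := dist_triangle z y x
        rw [mem_ball] at hy hz ⊢
        linarith)).trans (mul_le_mul_of_nonneg_left (e4a_exp hτ le_rfl (by positivity)
          (le_add_of_nonneg_left (by positivity))) hC₂.le)
  have v2 := (measureReal_mono (preimage_mono (ball_subset_ball (x := x)
    (by linarith : r / 8 ≤ r))) (hfin r)).trans v1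
  have e1 : ∫ a in π ⁻¹' ball x (r / 8), |D'.P (τ ^ 2) h a - h a| ∂μ' =
      ∫ a, φ a * D'.P (τ ^ 2) h a ∂μ' - ∫ a, ((fun a => χ (π a)) * h) a * φ a ∂μ' := by
    rw [← integral_indicator hS, ← integral_sub (integrable_mul_of_memLp φ2 u2)
      (integrable_mul_of_memLp g2 φ2)]
    refine integral_congr_ae (Eventually.of_forall fun a => ?_)
    by_cases ha : a ∈ π ⁻¹' ball x (r / 8)
    · simp only [Pi.mul_apply]
      rw [c3 _ (ball_subset_closedBall (ball_subset_ball (by linarith) ha)), one_mul,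
        mul_comm (h a), ← mul_sub, hφ, indicator_of_mem ha, indicator_of_mem ha,
        div_mul_eq_mul_div, ← abs_mul_abs_self, mul_self_div_self]
    · simp only [φ0 a ha, indicator_of_notMem ha, zero_mul, mul_zero, sub_zero]
  have e2 : ∫ a, φ a * D'.P (τ ^ 2) h a ∂μ' =
      ∫ a, ((fun a => χ (π a)) * h) a * D'.P (τ ^ 2) φ a ∂μ' +
        ∫ a, D'.P (τ ^ 2) φ a * (h - (fun a => χ (π a)) * h) a ∂μ' := by
    rw [← c.flow.symm φ h _ φ2 h2, ← integral_add (integrable_mul_of_memLp g2 p2)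
      (integrable_mul_of_memLp p2 (h2.sub g2))]
    refine integral_congr_ae (Eventually.of_forall fun a => ?_)
    simp only [Pi.sub_apply]
    ring
  have f1 : 2 * (K * (4 / r * E * μ'.real (π ⁻¹' ball x r))) * τ ≤ 8 * K * C₃ * r ^ (m + 2) * E :=
    calc _ ≤ 2 * (K * (4 / r * E * (C₃ * r ^ (m + 2)))) * r := by gcongr
      _ = _ := by field_simp; norm_num
  have f2 : C₂ * E * μ'.real (π ⁻¹' ball x (r / 8)) ≤ C₂ * C₃ * r ^ (m + 2) * E :=
    (mul_le_mul_of_nonneg_left v2 (by positivity)).trans_eq (by ring)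
  have f3 : 2 * K * τ * I ≤ C * τ * I := by
    gcongr
    rw [hC]
    nlinarith [mul_pos hK hC₃, mul_pos hC₂ hC₃]
  have f4 : (8 * K * C₃ + C₂ * C₃) * r ^ (m + 2) * E ≤ C * r ^ (m + 2) * E := by
    gcongr
    rw [hC]
    nlinarith
  rw [e1, e2]
  linarith

end Env

end RC
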