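import Pool.Agent.P.MP_6472e5_gt.E1c
import Pool.Agent.P.MP_6472e5_gt.BlB
import Pool.Agent.P.MP_6472e5_gt.Htp

/-! A sign on the blow-up gives an almost splitting. -/

set_option autoImplicit false
set_option linter.unusedSectionVars false
set_option linter.unusedVariables false

noncomputable section

namespace RC

open MeasureTheory Set Filter Topology Metric

variable {X Y : Type} [MetricSpace X] [ProperSpace X] [MeasurableSpace X] [BorelSpace X]
  [MetricSpace Y] [ProperSpace Y] [MeasurableSpace Y] [BorelSpace Y] {μ : Measure X}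
  {μ' : Measure Y} {D : DS μ} {D' : DS μ'} {Γ : Y → Y} {π : Y → X} {κ : ℝ} {m : ℕ}

namespace Env

variable (c : Env D D' Γ π κ m)

theorem e7_core {x : X} {r ρ δ β M : ℝ} {G : Set X} (τ : Y → ℝ) (hG : G ⊆ ball x r) (hρ : 0 < ρ)
    (hδ : 0 < δ)
    (h1 : ∀ a, π a ∈ thickening ρ G → (τ a = 1 ∨ τ a = -1) ∧ τ (Γ a) = -τ a)
    (h2 : ∀ a b, π a ∈ thickening ρ G → π b ∈ thickening ρ G → dist a b ≤ δ → τ a = τ b)
    (hM : 2 * μ.real (ball x r \ G) ≤ M) (hM1 : M ≤ β * r ^ (m + 2))
    (hM2 : ρ⁻¹ * M ≤ β * r ^ (m + 2) / r) : c.Spl x r β := by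
  have hb : Bornology.IsBounded G := isBounded_ball.subset hG
  obtain ⟨χ, -, hχ0, hχ1, hχ2, hχ3⟩ := exists_cutoff hb (le_refl 0) hρ
  rw [sub_zero] at hχ3
  have hq := c.quot
  set h : Y → ℝ := fun a => τ a * χ (π a) with hh
  have habs : ∀ a, |h a| = χ (π a) := fun a => by
    by_cases ha : π a ∈ thickening ρ G
    · rcases (h1 a ha).1 with e | e <;> simp [hh, e, abs_of_nonneg (hχ0 (π a)).1]
    · simp [hh, hχ2 _ ha]
  have hπ : ∀ a b, |χ (π a) - χ (π b)| ≤ ρ⁻¹ * dist a b := fun a b => by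
    refine (hχ3 _ _).trans ?_
    rw [inv_mul_eq_div]
    exact div_le_div_of_nonneg_right (hq.dist_le a b) hρ.le
  have hloc : ∀ a b, dist a b ≤ δ → |h a - h b| ≤ ρ⁻¹ * dist a b := fun a b hab => by
    by_cases ha : π a ∈ thickening ρ G
    · by_cases hb' : π b ∈ thickening ρ G
      · have e : h a - h b = τ a * (χ (π a) - χ (π b)) := by
          simp only [hh, ← h2 a b ha hb' hab]
          ring
        have e1 : |τ a| = 1 := by rcases (h1 a ha).1 with e | e <;> simp [e]
        rw [e, abs_mul, e1, one_mul]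
        exact hπ a b
      · have e : h b = 0 := by simp [hh, hχ2 _ hb']
        have e1 := hπ a b
        rw [hχ2 _ hb', sub_zero, abs_of_nonneg (hχ0 _).1] at e1
        rw [e, sub_zero, habs]
        exact e1
    · have e : h a = 0 := by simp [hh, hχ2 _ ha]
      have e1 := hπ a b
      rw [hχ2 _ ha, zero_sub, abs_neg, abs_of_nonneg (hχ0 _).1] at e1
      rw [e, zero_sub, abs_neg, habs]
      exact e1
  have hlip : LipschitzWith (Real.toNNReal (ρ⁻¹ + 2 / δ)) h :=
    LipschitzWith.of_dist_le' fun a b => by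
      rw [Real.dist_eq, add_mul]
      have e0 : 0 ≤ 2 / δ * dist a b := by positivity
      have e1 : 0 ≤ ρ⁻¹ * dist a b := by positivity
      rcases le_total (dist a b) δ with hab | hab
      · linarith [hloc a b hab]
      · have e2 : 2 ≤ 2 / δ * dist a b := by
          rw [div_mul_eq_mul_div, le_div_iff₀ hδ]
          linarith
        have e3 := abs_sub (h a) (h b)
        rw [habs, habs] at e3
        linarith [(hχ0 (π a)).2, (hχ0 (π b)).2]
  have hB : LipB h := ⟨⟨_, hlip⟩, (hq.bounded_preimage (hb.thickening (δ := ρ))).subset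
    fun a ha => by_contra fun hn => ha (by simp [hh, hχ2 _ hn])⟩
  have hV := D'.lip h hB
  have hW := D'.W_of_mem hV
  set T : Set Y := {a | π a ∈ ball x r ∧ |h a| ≠ 1} with hT
  have hTs : T ⊆ π ⁻¹' (ball x r \ G) := fun a ha =>
    ⟨ha.1, fun hn => ha.2 (by rw [habs, hχ1 _ (self_subset_cthickening _ hn)])⟩
  have hfin : μ' (π ⁻¹' (ball x r \ G)) ≠ ⊤ :=
    (D'.fin_bdd (hq.bounded_preimage (isBounded_ball.subset sdiff_subset))).ne
  have hTM : μ'.real T ≤ M := by
    refine (measureReal_mono hTs hfin).trans ?_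
    rw [c.toCov.toPreCov.real_preimage]
    exact hM
  have hTm : MeasurableSet T :=
    ((isOpen_ball.preimage hq.cont).inter
      (isOpen_ne.preimage hB.continuous.abs)).measurableSet
  have hGl : ∀ᵐ a ∂μ', a ∈ univ → D'.G h h a ≤ ρ⁻¹ ^ 2 :=
    D'.ae_of_local fun a _ => ⟨δ / 2, half_pos hδ, DS.G_le_lip hW isOpen_ball (g := h)
      (fun b hb c hc => hloc b c (by
        have := dist_triangle_right b c a
        linarith [mem_ball.1 hb, mem_ball.1 hc])) (by positivity)
      (Eventually.of_forall fun _ _ => rfl)⟩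
  refine ⟨h, hV, Eventually.of_forall fun a => ?_, Eventually.of_forall fun a => ?_,
    hTM.trans hM1, le_trans ?_ hM2⟩
  · by_cases ha : π a ∈ thickening ρ G
    · simp only [hh, hq.π_Γ, (h1 a ha).2, neg_mul]
    · simp only [hh, hq.π_Γ, hχ2 _ ha, mul_zero, neg_zero]
  · rw [habs]
    exact (hχ0 _).2
  · have hA : MeasurableSet (π ⁻¹' ball x r) := (isOpen_ball.preimage hq.cont).measurableSet
    have hTf : μ' T ≠ ⊤ := ne_top_of_le_ne_top hfin (measure_mono hTs)
    have hI : Integrable (T.indicator fun _ => ρ⁻¹) μ' :=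
      (integrable_indicator_iff hTm).2 (integrableOn_const hTf)
    calc ∫ a in π ⁻¹' ball x r, √(D'.G h h a) ∂μ'
        ≤ ∫ a in π ⁻¹' ball x r, T.indicator (fun _ => ρ⁻¹) a ∂μ' := by
          refine integral_mono_of_nonneg (Eventually.of_forall fun a => Real.sqrt_nonneg _)
            hI.integrableOn ((ae_restrict_iff' hA).2 ?_)
          filter_upwards [hGl, DS.G_level hW hW 1, DS.G_level hW hW (-1)] with a a1 a2 a3 ha
          by_cases hm : a ∈ T
          · rw [indicator_of_mem hm]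
            exact Real.sqrt_le_iff.2 ⟨by positivity, a1 trivial⟩
          · rw [indicator_of_notMem hm]
            have e : |h a| = 1 := by_contra fun hn => hm ⟨ha, hn⟩
            rcases (abs_eq zero_le_one).1 e with e | e
            · rw [a2 e, Real.sqrt_zero]
            · rw [a3 e, Real.sqrt_zero]
      _ ≤ ∫ a, T.indicator (fun _ => ρ⁻¹) a ∂μ' :=
          setIntegral_le_integral hI (Eventually.of_forall fun a =>
            indicator_nonneg (fun _ _ => by positivity) a)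
      _ = μ'.real T * ρ⁻¹ := by rw [integral_indicator_const _ hTm, smul_eq_mul]
      _ ≤ ρ⁻¹ * M := by
          rw [mul_comm]
          exact mul_le_mul_of_nonneg_left hTM (by positivity)

theorem spl_of_sec [HasStr m] {U : Ultrafilter ℕ} {y : ℕ → X} {r : ℕ → ℝ}
    (B : Blow D (m + 2) U y r) {w : ℕ → Y} (Q : QBlow B Γ π w) {ε : ℝ} (hε : 0 < ε)
    (hS : Sec Q.Γ' Q.π' {z | B.E.Θ0 (m + 2) z < (1 + ε) * θ (m + 2)}) {R β : ℝ} (hR : 0 < R)
    (hβ : 0 < β) : ∀ᶠ i in (U : Filter ℕ), c.Spl (y i) (R * r i) β := by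
  set S : Set B.Z := {z | (1 + ε) * θ (m + 2) ≤ B.E.Θ0 (m + 2) z} ∩ ball B.e (R + 4) with hSd
  set β' := β * R ^ (m + 2) / (10 * R) with hβ'
  have hβ0 : 0 < β' := by positivity
  obtain ⟨ρ₀, hρ₀, hme⟩ := HasStr.meas B.E 0 B.model.toHP (B.n2 c.hp c.n2) B.e (R + 4) ε β' hε hβ0
  obtain ⟨ρ, hρ, hρ1, hρ2, hρ3⟩ : ∃ ρ, 0 < ρ ∧ 4 * ρ ≤ ρ₀ ∧ ρ ≤ R ∧ ρ ≤ 1 :=
    ⟨min (ρ₀ / 4) (min R 1), by positivity, by linarith [min_le_left (ρ₀ / 4) (min R 1)],
      (min_le_right _ _).trans (min_le_left _ _), (min_le_right _ _).trans (min_le_right _ _)⟩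
  have hSb : Bornology.IsBounded S := isBounded_ball.subset inter_subset_right
  set K : Set B.Z := closedBall B.e (R + 3) \ thickening ρ S with hK
  have hKc : IsCompact K := (isCompact_closedBall _ _).diff isOpen_thickening
  have hKs : K ⊆ {z | B.E.Θ0 (m + 2) z < (1 + ε) * θ (m + 2)} := fun z hz =>
    by_contra fun hn => hz.2 (self_subset_thickening hρ S
      ⟨(not_lt (α := ℝ)).1 hn, closedBall_subset_ball (by linarith) hz.1⟩)
  obtain ⟨σ, δ, hδ, hσ1, hσ2⟩ := (hS.mono hKs).unif Q.quot hKc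
  have hK' : IsCompact (cthickening (3 * ρ) S) :=
    isCompact_of_isClosed_isBounded isClosed_cthickening hSb.cthickening
  have hν : B.ν.real (cthickening (3 * ρ) S) ≤ β' * (4 * ρ) :=
    (measureReal_mono (cthickening_subset_thickening' (by positivity) (by linarith) S)
      (B.E.fin_bdd hSb.thickening).ne).trans (hme _ (by positivity) hρ1)
  obtain ⟨ρ', hρ', hml⟩ := B.meas_le hK' R (ε := β' * ρ) (by positivity)
  have hη : 0 < min (ρ / 2) (δ / 2) := by positivity
  have hη1 := min_le_left (ρ / 2) (δ / 2)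
  have hη2 := min_le_right (ρ / 2) (δ / 2)
  set η := min (ρ / 2) (δ / 2)
  filter_upwards [hml, B.bla_app (R + 1) hη, B.app 1 1 one_pos one_pos,
    Q.app (R + 1) η (by positivity) hη, Q.comm (R + 1) η hη] with i a1 a2 a3 a4 a5
  have hr := B.seq.pos i
  set G : Set X := {x | x ∈ ball (y i) (R * r i) ∧ B.q i x ∉ thickening (3 * ρ) S} with hG
  have hq := c.quot
  have key : ∀ a, π a ∈ thickening (ρ * r i) G →
      a ∈ ball (w i) ((R + 1) * r i) ∧ Q.π' (Q.q i a) ∈ K := fun a ha => by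
    obtain ⟨x, hx, hd⟩ := mem_thickening_iff.1 ha
    have b0 := mem_ball.1 hx.1
    have b1 : dist (π a) (y i) < (R + 1) * r i := by
      have := dist_triangle (π a) x (y i)
      nlinarith
    have b2 : a ∈ ball (w i) ((R + 1) * r i) := by
      rw [mem_ball, ← hq.dist_fix (Q.w_fix i), Q.w_base]
      exact b1
    have b3 := (a5 a b2).1
    have b4 := (abs_le.1 (a2 _ b1 x (mem_ball.2 (by nlinarith)))).2
    have b5 := (div_lt_iff₀ hr).2 hd
    have b6 := (abs_le.1 (a2 _ b1 _ (mem_ball_self (by positivity)))).2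
    have b7 := (div_lt_iff₀ hr).2 b1
    rw [a3.1] at b6
    refine ⟨b2, ?_, fun hn => hx.2 ?_⟩
    · have := dist_triangle (Q.π' (Q.q i a)) (B.q i (π a)) B.e
      rw [mem_closedBall]
      linarith
    · obtain ⟨z, hz, hzd⟩ := mem_thickening_iff.1 hn
      refine mem_thickening_iff.2 ⟨z, hz, ?_⟩
      have e1 := dist_triangle_left (B.q i x) z (B.q i (π a))
      have e2 := dist_triangle_left (B.q i (π a)) z (Q.π' (Q.q i a))
      linarith
  refine c.e7_core (ρ := ρ * r i) (δ := δ / 2 * r i) (G := G) (M := 10 * β' * ρ * r i ^ (m + 2))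
    (fun a => σ (Q.q i a)) (fun x hx => hx.1) (by positivity) (by positivity)
    (fun a ha => ?_) (fun a b ha hb hab => ?_) ?_ ?_ ?_
  · obtain ⟨b1, b2⟩ := key a ha
    obtain ⟨-, b3⟩ := key (Γ a) (by rwa [hq.π_Γ])
    refine ⟨(hσ1 _ b2).1, ?_⟩
    rw [← (hσ1 _ b2).2]
    exact (hσ2 _ _ (by rwa [Q.quot.π_Γ]) b3 ((a5 a b1).2.trans (by linarith))).symm
  · obtain ⟨b1, b2⟩ := key a ha
    obtain ⟨b3, b4⟩ := key b hb
    have b5 := (abs_le.1 (a4.2.1 a b1 b b3)).2
    have b6 := (div_le_iff₀ hr).2 hab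
    exact hσ2 _ _ b2 b4 (by linarith)
  · have b1 : μ.real (ball (y i) (R * r i) \ G) ≤
        μ.real {a | a ∈ ball (y i) (R * r i) ∧ B.q i a ∈ thickening ρ' (cthickening (3 * ρ) S)} :=
      measureReal_mono (fun x hx => ⟨hx.1, self_subset_thickening hρ' _
        (thickening_subset_cthickening _ _ (by_contra fun hn => hx.2 ⟨hx.1, hn⟩))⟩)
        (D.fin_bdd (isBounded_ball.subset fun x hx => hx.1)).ne
    have b2 := mul_le_mul_of_nonneg_right (add_le_add_left hν (β' * ρ)) (pow_pos hr (m + 2)).le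
    linarith
  · have b1 : 10 * β' * R = β * R ^ (m + 2) := by
      rw [hβ']
      field_simp
    rw [mul_pow, ← mul_assoc, ← b1]
    gcongr
  · refine le_of_eq ?_
    rw [hβ', mul_pow]
    field_simp

end Env

end RC
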