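import Pool.Agent.P.MP_6472e5_gt.CovD

/-! Definitions for the analysis on the cover. -/

set_option autoImplicit false
set_option linter.unusedSectionVars false
set_option linter.unusedVariables false

noncomputable section

namespace RC

open MeasureTheory Set Filter Topology Metric

variable {X Y : Type} [MetricSpace X] [ProperSpace X] [MeasurableSpace X] [BorelSpace X]
  [MetricSpace Y] [ProperSpace Y] [MeasurableSpace Y] [BorelSpace Y] {μ : Measure X}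
  {μ' : Measure Y} {D : DS μ} {D' : DS μ'} {Γ : Y → Y} {π : Y → X} {κ : ℝ} {m : ℕ}

/-- Sum over the fibre, along a section `s`. -/
def dsc (Γ : Y → Y) (s : X → Y) (h : Y → ℝ) (x : X) : ℝ := h (s x) + h (Γ (s x))

/-- Odd functions. -/
def IsOdd (μ' : Measure Y) (Γ : Y → Y) (h : Y → ℝ) : Prop := ∀ᵐ a ∂μ', h (Γ a) = -h a

/-- The standing assumptions. -/
structure Env (D : DS μ) (D' : DS μ') (Γ : Y → Y) (π : Y → X) (κ : ℝ) (m : ℕ) : Prop
    extends Cov D D' Γ π where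
  hp : HP D κ (m + 2)
  n2 : N2 D m
  ft : FT D κ (m + 2)
  lim : Lim D m Γ π

namespace Env

variable (c : Env D D' Γ π κ m)

/-- The Bochner inequality for `u` tested against `φ`. -/
def I1 (c : Env D D' Γ π κ m) (u Lu φ Lφ : Y → ℝ) : Prop :=
  ∫ a, φ a * (Lu a ^ 2 / (m + 2 : ℕ) + D'.G u Lu a - κ * D'.G u u a) ∂μ' ≤
    1 / 2 * ∫ a, Lφ a * D'.G u u a ∂μ'

/-- The Kato inequality for `u` tested against the lift of `φ`. -/
def I2 (c : Env D D' Γ π κ m) (u Lu : Y → ℝ) (φ Lφ : X → ℝ) (ε : ℝ) : Prop :=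
  ∫ a, φ (π a) * ((D'.G u Lu a - κ * D'.G u u a) / √(D'.G u u a + ε ^ 2)) ∂μ' ≤
    ∫ a, Lφ (π a) * (√(D'.G u u a + ε ^ 2) - ε) ∂μ'

/-- The Bochner inequality over `W`. -/
def P1 (W : Set X) : Prop :=
  ∀ h t φ Lφ, MemLp h 2 μ' → Bdd μ' h → 0 < t → D'.TF (π ⁻¹' W) φ Lφ →
    c.I1 (D'.P t h) (D'.L t h) φ Lφ

/-- The Kato inequality for odd solutions over `W`. -/
def P2 (W : Set X) : Prop :=
  ∀ h t φ Lφ ε, MemLp h 2 μ' → Bdd μ' h → IsOdd μ' Γ h → 0 < t → D.TF W φ Lφ → 0 < ε →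
    c.I2 (D'.P t h) (D'.L t h) φ Lφ ε

/-- The good set. -/
def Gd : Set X := {x | ∃ W, IsOpen W ∧ x ∈ W ∧ c.P1 W ∧ c.P2 W}

/-- `h` is almost an odd sign function over the ball. -/
structure Wit (c : Env D D' Γ π κ m) (x : X) (r β : ℝ) (h : Y → ℝ) : Prop where
  mem : h ∈ D'.V
  odd : IsOdd μ' Γ h
  le : ∀ᵐ a ∂μ', |h a| ≤ 1
  one : μ'.real {a | π a ∈ ball x r ∧ |h a| ≠ 1} ≤ β * r ^ (m + 2)
  grad : ∫ a in π ⁻¹' ball x r, √(D'.G h h a) ∂μ' ≤ β * r ^ (m + 2) / r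

/-- The cover almost splits over the ball. -/
def Spl (x : X) (r β : ℝ) : Prop := ∃ h, c.Wit x r β h

/-- The bad points near `x` are pinched. -/
def Pin (x : X) (r η : ℝ) : Prop :=
  ∀ b ∈ ball x (r / η), b ∉ c.Gd → ∀ s s', 0 < s → s ≤ r / η → 0 < s' → s' ≤ r / η →
    D.Θ (m + 2) b s - D.Θ (m + 2) b s' ≤ η

end Env

end RC
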