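import Pool.Agent.P.MP_6472e5_gt.Kern
import Pool.Agent.P.MP_6472e5_gt.Ca5
import Pool.Agent.P.MP_6472e5_gt.Ca0m

/-! The flow given by the kernel: square integrable and bounded data. -/

set_option autoImplicit false
set_option linter.unusedSectionVars false

noncomputable section

namespace RC

open MeasureTheory Set Filter Topology Metric

variable {X : Type} [MetricSpace X] [SecondCountableTopology X] [MeasurableSpace X] [BorelSpace X]
  {μ : Measure X} {D : DS μ} {κ : ℝ} {n : ℕ}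

namespace R2

variable (h : R2 D κ n)
include h

theorem ga_cont {t : ℝ} (ht : 0 < t) : Continuous (fun a : X × X => D.p t a.1 a.2) :=
  h.ker.1.comp_continuous (f := fun a : X × X => (t, a.1, a.2)) (by fun_prop)
    fun _ => ⟨ht, mem_univ _⟩

theorem ga_cont' {t : ℝ} (ht : 0 < t) (x : X) : Continuous (D.p t x) :=
  (h.ga_cont ht).comp (Continuous.prodMk_right x)

theorem ga_dcont {t : ℝ} (ht : 0 < t) : Continuous (fun a : X × X => D.dp t a.1 a.2) :=
  h.dp_cont.comp_continuous (f := fun a : X × X => (t, a.1, a.2)) (by fun_prop)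
    fun _ => ⟨ht, mem_univ _⟩

theorem ga_dcont' {t : ℝ} (ht : 0 < t) (x : X) : Continuous (D.dp t x) :=
  (h.ga_dcont ht).comp (Continuous.prodMk_right x)

theorem ga_memLp {t : ℝ} (ht : 0 < t) (x : X) :
    MemLp (D.p t x) 2 μ ∧ MemLp (D.dp t x) 2 μ :=
  ⟨h.ker.2.1 t x ht, D.memLp _ (h.p_tb t x ht).memL⟩

theorem ga_real_pos (x : X) {r : ℝ} (hr : 0 < r) : 0 < μ.real (ball x r) :=
  ENNReal.toReal_pos (h.pos x r hr).ne' (D.fin x r).ne

theorem ga_congr {f g : X → ℝ} (hfg : f =ᵐ[μ] g) (t : ℝ) :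
    D.Pk t f = D.Pk t g ∧ D.Lk t f = D.Lk t g :=
  ⟨funext fun _ => integral_congr_ae (hfg.mono fun _ hy => congrArg _ hy),
    funext fun _ => integral_congr_ae (hfg.mono fun _ hy => congrArg _ hy)⟩

theorem ga_P_rep {f : X → ℝ} (hf : MemLp f 2 μ) {t : ℝ} (ht : 0 < t) : D.P t f =ᵐ[μ] D.Pk t f :=
  h.ker.2.2 f t hf ht

theorem ga_int2 {f : X → ℝ} (hf : MemLp f 2 μ) {t : ℝ} (ht : 0 < t) (x : X) :
    Integrable (fun y => D.p t x y * f y) μ ∧ Integrable (fun y => D.dp t x y * f y) μ :=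
  ⟨(h.ga_memLp ht x).1.integrable_mul hf, (h.ga_memLp ht x).2.integrable_mul hf⟩

theorem ga_int_bdd {f : X → ℝ} (hm : AEStronglyMeasurable f μ) (hf : Bdd μ f) {t : ℝ} (ht : 0 < t)
    (x : X) : Integrable (fun y => D.p t x y * f y) μ ∧
      Integrable (fun y => D.dp t x y * f y) μ := by
  simp only [mul_comm _ (f _)]
  exact ⟨hf.mul_integrable hm (h.p_int t x ht), hf.mul_integrable hm (h.dp_int t x ht)⟩

theorem ga_int1 {f : X → ℝ} (hf : Integrable f μ) {t : ℝ} (ht : 0 < t) (x : X) :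
    Integrable (fun y => D.p t x y * f y) μ := by
  obtain ⟨C, hC⟩ := h.p_bdd t x ht
  exact Bdd.mul_integrable
    ⟨C, Eventually.of_forall fun y => (abs_of_pos (h.p_pos t x y ht)).trans_le (hC y)⟩
    (h.ga_cont' ht x).aestronglyMeasurable hf

theorem ga_abs_le {f : X → ℝ} {M : ℝ} (hf : ∀ᵐ y ∂μ, |f y| ≤ M) {t : ℝ} (ht : 0 < t) (x : X) :
    |D.Pk t f x| ≤ M := by
  have h1 := norm_integral_le_of_norm_le (f := fun y => D.p t x y * f y)
    ((h.p_int t x ht).mul_const M) (hf.mono fun y hy => by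
      rw [Real.norm_eq_abs, abs_mul, abs_of_pos (h.p_pos t x y ht)]
      exact mul_le_mul_of_nonneg_left hy (h.p_pos t x y ht).le)
  rwa [integral_mul_const, h.p_one t x ht, one_mul] at h1

theorem ga_nonneg {f : X → ℝ} (hf : ∀ᵐ y ∂μ, 0 ≤ f y) {t : ℝ} (ht : 0 < t) (x : X) :
    0 ≤ D.Pk t f x :=
  integral_nonneg_of_ae (hf.mono fun y hy => mul_nonneg (h.p_pos t x y ht).le hy)

theorem gaa_n2 {t : ℝ} (ht : 0 < t) (x y : X) : n2 μ (D.p t x - D.p t y) =
    D.p (t + t) x x - 2 * D.p (t + t) x y + D.p (t + t) y y := by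
  have e : ∀ a b, D.p (t + t) a b = ∫ z, D.p t a z * D.p t b z ∂μ := fun a b => by
    simp only [h.ck t t a b ht ht, h.p_symm t _ b ht]
  have i : ∀ a b, Integrable (fun z => D.p t a z * D.p t b z) μ := fun a b =>
    (h.ga_memLp ht a).1.integrable_mul (h.ga_memLp ht b).1
  have j : Integrable (fun z => D.p t x z * D.p t x z - 2 * (D.p t x z * D.p t y z)) μ :=
    (i x x).sub ((i x y).const_mul 2)
  rw [e, e, e, ← integral_const_mul, ← integral_sub (i x x) ((i x y).const_mul 2),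
    ← integral_add j (i y y)]
  exact integral_congr_ae (Eventually.of_forall fun z => by
    simp only [Pi.sub_apply]
    ring)

theorem ga_pk_cont2 {f : X → ℝ} (hf : MemLp f 2 μ) {t : ℝ} (ht : 0 < t) :
    Continuous (D.Pk t f) := by
  refine continuous_iff_continuousAt.2 fun x => tendsto_iff_dist_tendsto_zero.2 ?_
  have h1 := h.ga_cont (add_pos ht ht)
  have h2 : Continuous fun y => √(D.p (t + t) y y - 2 * D.p (t + t) y x + D.p (t + t) x x) *
      √(n2 μ f) :=
    ((((h1.comp (continuous_id.prodMk continuous_id)).sub (continuous_const.mul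
      (h1.comp (Continuous.prodMk_left x)))).add continuous_const).sqrt).mul continuous_const
  refine squeeze_zero (fun _ => dist_nonneg) (fun y => ?_) (h2.tendsto' x 0 (by
    rw [show D.p (t + t) x x - 2 * D.p (t + t) x x + D.p (t + t) x x = 0 by ring, Real.sqrt_zero,
      zero_mul]))
  rw [← h.gaa_n2 ht, Real.dist_eq, DS.Pk, DS.Pk,
    ← integral_sub (h.ga_int2 hf ht y).1 (h.ga_int2 hf ht x).1]
  refine abs_integral_le_integral_abs.trans (le_of_eq_of_le ?_
    (integral_abs_mul_le ((h.ga_memLp ht y).1.sub (h.ga_memLp ht x).1) hf))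
  simp only [Pi.sub_apply, sub_mul]

theorem ga_mem2 {f : X → ℝ} (hf : MemLp f 2 μ) {t : ℝ} (ht : 0 < t) :
    D.Pk t f ∈ D.V ∧ D.Lk t f ∈ D.V ∧ D.Lap (D.Pk t f) (D.Lk t f) := by
  obtain ⟨h1, h2, -⟩ := (h.flow.heat f hf).1 t ht
  exact ⟨D.congr _ h1 _ (h.ga_P_rep hf ht), D.congr _ (h.flow.L_mem f t hf ht) _ (h.L_rep f t hf ht),
    h2.congr (h.ga_P_rep hf ht) (h.L_rep f t hf ht)⟩

theorem ga_lk_semi {f : X → ℝ} (hf : MemLp f 2 μ) {s t : ℝ} (hs : 0 < s) (ht : 0 < t) (x : X) :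
    D.Lk (s + t) f x = D.Pk s (D.Lk t f) x := by
  rw [← (h.ga_congr (h.L_rep f t hf ht) s).1, DS.Pk,
    ← h.flow.L_symm _ f t (h.ga_memLp hs x).1 hf ht, add_comm]
  exact integral_congr_ae ((h.L_p t s x ht hs).mono fun y hy => congrArg (· * f y) hy.symm)

theorem ga_lk_cont2 {f : X → ℝ} (hf : MemLp f 2 μ) {t : ℝ} (ht : 0 < t) :
    Continuous (D.Lk t f) := by
  have h1 := half_pos ht
  have h2 := h.ga_pk_cont2 (D.memLp _ (h.ga_mem2 hf h1).2.1) h1
  rwa [← funext (h.ga_lk_semi hf h1 h1), add_halves] at h2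

/-- Dominated convergence. -/
theorem ga_lim {u : ℕ → X → ℝ} {f F : X → ℝ} (hu : ∀ k, AEStronglyMeasurable (u k) μ)
    (hF : ∀ k, ∀ᵐ y ∂μ, |u k y| ≤ |F y|) (hl : ∀ᵐ y ∂μ, Tendsto (fun k => u k y) atTop (𝓝 (f y)))
    (t : ℝ) (ht : 0 < t) (x : X) :
    (Integrable (fun y => D.p t x y * F y) μ →
      Tendsto (fun k => D.Pk t (u k) x) atTop (𝓝 (D.Pk t f x))) ∧
    (Integrable (fun y => D.dp t x y * F y) μ →
      Tendsto (fun k => D.Lk t (u k) x) atTop (𝓝 (D.Lk t f x))) := by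
  have key : ∀ k : X → ℝ, Continuous k → Integrable (fun y => k y * F y) μ →
      Tendsto (fun j => ∫ y, k y * u j y ∂μ) atTop (𝓝 (∫ y, k y * f y ∂μ)) := fun k hk hi =>
    tendsto_integral_of_dominated_convergence _ (fun j => hk.aestronglyMeasurable.mul (hu j)) hi.abs
      (fun j => (hF j).mono fun y hy => by
        rw [Real.norm_eq_abs, abs_mul, abs_mul]
        exact mul_le_mul_of_nonneg_left hy (abs_nonneg _))
      (hl.mono fun y hy => hy.const_mul _)
  exact ⟨key _ (h.ga_cont' ht x), key _ (h.ga_dcont' ht x)⟩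

theorem gaa_bd {t : ℝ} (ht : 0 < t) (x : X) : ∃ C, ∀ z ∈ ball x 1, ∀ y, D.p t z y ≤ C := by
  have h2 : t < 2 * t := by linarith
  obtain ⟨C, hC⟩ := h.p_bdd (2 * t) x (ht.trans h2)
  refine ⟨C * √((2 * t / t) ^ n) *
    Real.exp (n * κ * (2 * t) + (1 + κ * (2 * t)) * 1 ^ 2 / (4 * (2 * t - t))), fun z hz y => ?_⟩
  have h3 := h.κ_nonneg
  have h4 := sub_pos.2 h2
  have h5 := (mem_ball.1 hz).le
  have h6 := (h.p_pos _ x y (ht.trans h2)).le.trans (hC y)
  rw [h.p_symm t z y ht]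
  refine (h.harn t (2 * t) y z x ht h2).trans ?_
  rw [h.p_symm _ y x (ht.trans h2)]
  gcongr
  exact hC y

theorem gaa_inner (g : X → ℝ) {t : ℝ} (ht : 0 < t) (y : X) :
    ∫ x, ‖D.p t x y * g y‖ ∂μ = |g y| := by
  simp only [Real.norm_eq_abs, abs_mul, abs_of_pos (h.p_pos t _ _ ht), h.p_symm t _ y ht]
  rw [integral_mul_const, h.p_one t y ht, one_mul]

theorem gaa_prod {g : X → ℝ} (hg : Integrable g μ) {t : ℝ} (ht : 0 < t) :
    Integrable (fun a : X × X => D.p t a.1 a.2 * g a.2) (μ.prod μ) := by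
  have := D.sfin
  refine (integrable_prod_iff' ((h.ga_cont ht).aestronglyMeasurable.mul hg.1.comp_snd)).2
    ⟨Eventually.of_forall fun y => ?_, ?_⟩
  · simp only [Pi.mul_apply, h.p_symm t _ y ht]
    exact (h.p_int t y ht).mul_const _
  · simp only [Pi.mul_apply, h.gaa_inner g ht]
    exact hg.abs

theorem ga_pk_l1 {g : X → ℝ} (hg : Integrable g μ) {t : ℝ} (ht : 0 < t) :
    Continuous (D.Pk t g) ∧ Integrable (D.Pk t g) μ := by
  have := D.sfin
  refine ⟨continuous_iff_continuousAt.2 fun x => ?_, (h.gaa_prod hg ht).integral_prod_left⟩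
  obtain ⟨C, hC⟩ := h.gaa_bd ht x
  refine continuousAt_of_dominated (bound := fun y => C * |g y|)
    (Eventually.of_forall fun z => (h.ga_int1 hg ht z).1) ?_ (hg.abs.const_mul C)
    (Eventually.of_forall fun y =>
      (((h.ga_cont ht).comp (Continuous.prodMk_left y)).mul continuous_const).continuousAt)
  filter_upwards [ball_mem_nhds x one_pos] with z hz
  refine Eventually.of_forall fun y => ?_
  rw [Real.norm_eq_abs, abs_mul, abs_of_pos (h.p_pos t z y ht)]
  exact mul_le_mul_of_nonneg_right (hC z hz y) (abs_nonneg _)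

theorem ga_l1_le {g : X → ℝ} (hg : Integrable g μ) {t : ℝ} (ht : 0 < t) :
    ∫ x, |D.Pk t g x| ∂μ ≤ ∫ x, |g x| ∂μ := by
  have := D.sfin
  have h1 := (h.gaa_prod hg ht).norm
  refine (integral_mono (h.ga_pk_l1 hg ht).2.abs h1.integral_prod_left
    fun x => norm_integral_le_integral_norm fun y => D.p t x y * g y).trans_eq ?_
  rw [integral_integral_swap (f := fun x y => ‖D.p t x y * g y‖) h1]
  simp only [h.gaa_inner g ht]

theorem ga_semi1 {g : X → ℝ} (hg : Integrable g μ) {s t : ℝ} (hs : 0 < s) (ht : 0 < t) (x : X) :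
    D.Pk s (D.Pk t g) x = D.Pk (s + t) g x := by
  have := D.sfin
  obtain ⟨C, hC⟩ := h.p_bdd s x hs
  have h1 : Integrable (fun a : X × X => D.p s x a.1 * (D.p t a.1 a.2 * g a.2)) (μ.prod μ) :=
    (h.gaa_prod hg ht).bdd_mul (c := C) ((h.ga_cont' hs x).comp continuous_fst).aestronglyMeasurable
      (Eventually.of_forall fun a => (abs_of_pos (h.p_pos s x a.1 hs)).trans_le (hC _))
  simp only [DS.Pk, ← integral_const_mul]
  rw [integral_integral_swap (f := fun z y => D.p s x z * (D.p t z y * g y)) h1]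
  simp only [h.ck s t x _ hs ht, ← integral_mul_const, mul_assoc]

end R2

end RC
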