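import Pool.Agent.P.MP_6472e5_gt.GaA
import Pool.Agent.P.MP_6472e5_gt.Ls
import Pool.Agent.P.MP_6472e5_gt.De

/-! Regularisation of bounded and of Lipschitz data. -/

set_option autoImplicit false
set_option linter.unusedSectionVars false

noncomputable section

namespace RC

open MeasureTheory Set Filter Topology Metric

variable {X : Type} [MetricSpace X] [SecondCountableTopology X] [MeasurableSpace X] [BorelSpace X]
  {μ : Measure X} {D : DS μ} {κ : ℝ} {n : ℕ}

namespace R2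

variable (h : R2 D κ n)
include h

omit h in
theorem gab_exp (κ t : ℝ) : Real.exp (κ * t) ^ 2 = Real.exp (2 * κ * t) := by
  rw [← Real.exp_nat_mul, mul_assoc]
  norm_num

theorem gab_M {f : X → ℝ} {M : ℝ} (hM : ∀ᵐ y ∂μ, |f y| ≤ M) (x : X) : 0 ≤ M :=
  (abs_nonneg _).trans (h.ga_abs_le hM one_pos x)

/-- A continuous local function with bounded gradient is Lipschitz. -/
theorem ga_lip_of_G {f : X → ℝ} (hf : D.W f) (hc : Continuous f) {L : ℝ} (hL : 0 ≤ L)
    (hG : ∀ᵐ y ∂μ, D.G f f y ≤ L ^ 2) (x y : X) : |f x - f y| ≤ L * dist x y := by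
  have h0 : 0 < 2 * (dist x y + 1) / 2 := by positivity
  refine DS.lip_of_G_le h.pos h.geo h.s2l hf hc x (2 * (dist x y + 1)) hL
    (hG.mono fun _ hz _ => hz) x (mem_ball_self h0) y ?_
  rw [mem_ball, dist_comm]
  linarith

theorem ga_bdd2 {f : X → ℝ} (hf : MemLp f 2 μ) {M : ℝ} (hM : ∀ᵐ y ∂μ, |f y| ≤ M) {t : ℝ}
    (ht : 0 < t) :
    (∀ x y, |D.Pk t f x - D.Pk t f y| ≤ Real.exp (κ * t) * M / √(2 * t) * dist x y) ∧
    ∀ x, |D.Lk t f x| ≤ √n * Real.exp (κ * t) * M / t := by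
  have hr := h.ga_P_rep hf ht
  have hW := D.W_of_mem (h.flow.heat f hf |>.1 t ht).1
  refine ⟨fun x y => ?_, fun x => ?_⟩
  · have hM0 := h.gab_M hM x
    refine h.ga_lip_of_G (hW.congr hr) (h.ga_pk_cont2 hf ht) (by positivity) ?_ x y
    filter_upwards [h.G_le f t M hf hM ht, DS.G_congr hW hW hr hr] with z h1 h2
    rw [← h2, div_pow, mul_pow, Real.sq_sqrt (by positivity), gab_exp]
    exact h1
  · have hM0 := h.gab_M hM x
    refine le_of_ae_le h.pos isOpen_univ (h.ga_lk_cont2 hf ht).abs.continuousOn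
      continuousOn_const ?_ x trivial
    filter_upwards [h.L_le f t M hf hM ht, h.L_rep f t hf ht] with z h1 h2 _
    refine abs_le_of_sq_le_sq' ?_ (by positivity) |> abs_le.2
    rw [← h2, div_pow, mul_pow, mul_pow, Real.sq_sqrt (by positivity), gab_exp]
    exact h1

theorem ga_lipB {f : X → ℝ} (hf : LipB f) {L : NNReal} (hL : LipschitzWith L f) {t : ℝ}
    (ht : 0 < t) :
    (∀ᵐ x ∂μ, D.G (D.Pk t f) (D.Pk t f) x ≤ (Real.exp (κ * t) * L) ^ 2) ∧
    (∀ x y, |D.Pk t f x - D.Pk t f y| ≤ Real.exp (κ * t) * L * dist x y) ∧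
    ∀ x, |D.Lk t f x| ≤ √(n / (2 * t)) * Real.exp (κ * t) * L := by
  have hf2 := D.lipB_memLp hf
  have hr := h.ga_P_rep hf2 ht
  have hW := D.W_of_mem (h.flow.heat f hf2 |>.1 t ht).1
  have hG := h.G_le' f (D.lip f hf) t _ (DS.G_le_lipschitz hL) ht
  have hn : (0 : ℝ) < n := Nat.cast_pos.2 h.n_pos
  have h1 : ∀ᵐ x ∂μ, D.G (D.Pk t f) (D.Pk t f) x ≤ (Real.exp (κ * t) * L) ^ 2 := by
    filter_upwards [hG, DS.G_congr hW hW hr hr] with z h1 h2
    rw [← h2, mul_pow, gab_exp]
    exact (le_add_of_nonneg_right (by positivity)).trans h1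
  refine ⟨h1, h.ga_lip_of_G (hW.congr hr) (h.ga_pk_cont2 hf2 ht) (by positivity) h1, fun x => ?_⟩
  refine le_of_ae_le h.pos isOpen_univ (h.ga_lk_cont2 hf2 ht).abs.continuousOn
    continuousOn_const ?_ x trivial
  filter_upwards [hG, h.L_rep f t hf2 ht, DS.G_nonneg hW] with z h1 h2 h3 _
  refine abs_le_of_sq_le_sq' ?_ (by positivity) |> abs_le.2
  rw [← h2, mul_pow, mul_pow, Real.sq_sqrt (by positivity), gab_exp, mul_assoc, div_mul_eq_mul_div,
    le_div_iff₀ (by positivity)]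
  have h4 : 2 * t / n * D.L t f z ^ 2 ≤ Real.exp (2 * κ * t) * L ^ 2 := by linarith
  rw [div_mul_eq_mul_div, div_le_iff₀ hn] at h4
  linarith

theorem gab_sub {f : X → ℝ} (hf : LipB f) {L : NNReal} (hL : LipschitzWith L f) {t : ℝ}
    (ht : 0 < t) (x : X) : D.Pk t f x - f x ≤ √(2 * n * t) * Real.exp (κ * t) * L := by
  have hf2 := D.lipB_memLp hf
  have hc := h.ga_pk_cont2 hf2 ht
  have hP := h.flow.memLp f t hf2
  have hr := h.ga_P_rep hf2 ht
  refine le_of_ae_le h.pos isOpen_univ (hc.sub hf.continuous).continuousOn continuousOn_const ?_ x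
    trivial
  have l1 : LocInt μ (fun x => D.Pk t f x - f x) :=
    D.locInt_of_memLp ((hP.ae_eq hr).sub hf2)
  refine D.ae_le_of_test l1
    (D.locInt_of_locBdd aestronglyMeasurable_const (Bdd.const _).locBdd) isOpen_univ
    fun φ hφ _ h0 => ?_
  have hφ2 := D.lipB_memLp hφ
  have hφ1 := D.lipB_int hφ
  have hI : 0 ≤ ∫ x, φ x ∂μ := integral_nonneg h0
  set c := √(2 * n) * Real.exp (κ * t) * L with hc'
  have hd : ∀ s, 0 < s → HasDerivAt (fun s => ∫ x, φ x * D.P s f x ∂μ)
      (∫ x, φ x * D.L s f x ∂μ) s := fun s hs =>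
    (((h.flow.heat f hf2).1 s hs).2.2.mul_memLp hφ2).hasDerivAt
  have hB : Continuous fun s => c * √s * ∫ x, φ x ∂μ := by fun_prop
  have h0' : Tendsto (fun s => ∫ x, φ x * D.P s f x ∂μ) (𝓝[>] 0) (𝓝 (∫ x, φ x * f x ∂μ)) := by
    refine tendsto_integral_of_L1 _ (integrable_mul_of_memLp hφ2 hf2).aestronglyMeasurable
      (Eventually.of_forall fun s => integrable_mul_of_memLp hφ2 (h.flow.memLp f s hf2)) ?_
    have := tendsto_integral_mul (u := fun _ : ℝ => φ) (v := fun s => D.P s f)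
      (Eventually.of_forall fun _ => hφ2) (Eventually.of_forall fun s => h.flow.memLp f s hf2)
      hφ2 hf2 (by simp [n2]) (h.flow.heat f hf2).2
    have h3 := ENNReal.tendsto_ofReal this
    rw [ENNReal.ofReal_zero] at h3
    refine h3.congr fun s => ?_
    exact ofReal_integral_norm_eq_lintegral_enorm
      ((integrable_mul_of_memLp hφ2 (h.flow.memLp f s hf2)).sub (integrable_mul_of_memLp hφ2 hf2))
  have key := sub_ge_of_deriv' (B := fun s => ∫ x, φ x * D.P s f x ∂μ)
    (A := fun s => c * √s * ∫ x, φ x ∂μ) (A' := fun s => c * (1 / (2 * √s)) * ∫ x, φ x ∂μ) ht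
    (hB.continuousAt.tendsto.mono_left nhdsWithin_le_nhds)
    (hB.continuousAt.tendsto.mono_left nhdsWithin_le_nhds) h0'
    ((hd t ht).continuousAt.tendsto.mono_left nhdsWithin_le_nhds)
    (fun s hs => ((Real.hasDerivAt_sqrt hs.1.ne').const_mul c).mul_const _)
    (fun s hs => hd s hs.1) fun s hs => by
      rw [← integral_const_mul]
      refine integral_mono_ae (integrable_mul_of_memLp hφ2 (D.memLp _ (h.flow.L_mem f s hf2 hs.1)))
        (hφ1.const_mul _) ?_
      filter_upwards [h.L_rep f s hf2 hs.1] with z hz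
      rw [hz, mul_comm]
      refine mul_le_mul_of_nonneg_right ((le_abs_self _).trans
        (((h.ga_lipB hf hL hs.1).2.2 z).trans ?_)) (h0 z)
      have e : √(n / (2 * s)) = √(2 * n) * (1 / (2 * √s)) := by
        have h4 : √s ^ 2 = s := Real.sq_sqrt hs.1.le
        have h5 := Real.sqrt_pos.2 hs.1
        rw [Real.sqrt_eq_iff_mul_self_eq (by have := hs.1; positivity) (by positivity), ← pow_two,
          mul_pow, Real.sq_sqrt (by positivity), div_pow, mul_pow, h4]
        have := hs.1.ne'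
        field_simp
      rw [e, hc']
      have h6 : Real.exp (κ * s) ≤ Real.exp (κ * t) :=
        Real.exp_le_exp.2 (mul_le_mul_of_nonneg_left hs.2.le h.κ_nonneg)
      calc √(2 * n) * (1 / (2 * √s)) * Real.exp (κ * s) * L
          ≤ √(2 * n) * (1 / (2 * √s)) * Real.exp (κ * t) * L := by gcongr
        _ = _ := by ring
  have e1 : ∫ x, φ x * (D.Pk t f x - f x) ∂μ = ∫ x, φ x * D.P t f x ∂μ - ∫ x, φ x * f x ∂μ := by
    rw [← integral_sub (integrable_mul_of_memLp hφ2 hP) (integrable_mul_of_memLp hφ2 hf2)]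
    refine integral_congr_ae ?_
    filter_upwards [hr] with z hz
    rw [hz, mul_sub]
  rw [e1, integral_mul_const, Real.sqrt_mul (by positivity) t]
  rw [Real.sqrt_zero, mul_zero, zero_mul, sub_zero, hc'] at key
  exact key.trans_eq (by ring)

theorem ga_lipB_sub {f : X → ℝ} (hf : LipB f) {L : NNReal} (hL : LipschitzWith L f) {t : ℝ}
    (ht : 0 < t) (x : X) : |D.Pk t f x - f x| ≤ √(2 * n * t) * Real.exp (κ * t) * L := by
  have h1 := h.gab_sub hf hL ht x
  have h2 := h.gab_sub hf.neg hL.neg ht x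
  have e : D.Pk t (-f) x = -D.Pk t f x := by
    simp only [DS.Pk, Pi.neg_apply, mul_neg, integral_neg]
  rw [e, Pi.neg_apply] at h2
  exact abs_le.2 ⟨by linarith, h1⟩

end R2

end RC
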