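import Pool.Agent.P.MP_6472e5_gt.GaB

/-! The flow of bounded and of Lipschitz functions. -/

set_option autoImplicit false
set_option linter.unusedSectionVars false

noncomputable section

namespace RC

open MeasureTheory Set Filter Topology Metric

variable {X : Type} [MetricSpace X] [SecondCountableTopology X] [MeasurableSpace X] [BorelSpace X]
  {μ : Measure X} {D : DS μ} {κ : ℝ} {n : ℕ}

theorem gac_trunc {f : X → ℝ} {L : NNReal} (hL : LipschitzWith L f) (x₀ : X) (R : ℝ) :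
    ∃ g, LipB g ∧ LipschitzWith L g ∧ (∀ y, |g y| ≤ |f y|) ∧ (∀ y, 0 ≤ f y → 0 ≤ g y) ∧
      ∀ y, |f y| ≤ L * (R - dist x₀ y) → g y = f y := by
  have h1 : LipschitzWith L fun y => max (L * (R - dist x₀ y)) (0 : ℝ) :=
    (LipschitzWith.of_dist_le_mul fun y z => by
      rw [Real.dist_eq, ← mul_sub, sub_sub_sub_cancel_left, abs_mul, NNReal.abs_eq, dist_comm y,
        dist_comm x₀, dist_comm x₀]
      exact mul_le_mul_of_nonneg_left (abs_dist_sub_le _ _ _) L.2).max_const 0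
  have h2 := h1.neg.max (h1.min hL)
  simp only [max_self] at h2
  refine ⟨_, ⟨⟨L, h2⟩, (isBounded_ball (x := x₀) (r := R)).subset fun y hy => ?_⟩, h2,
    fun y => ?_, fun y hy => le_max_of_le_right (le_min (le_max_right _ _) hy), fun y hy => ?_⟩
  · by_contra hb
    have : (L : ℝ) * (R - dist x₀ y) ≤ 0 := mul_nonpos_of_nonneg_of_nonpos L.2
      (by rw [mem_ball', not_lt] at hb; linarith)
    exact hy (by simp [this])
  · have := le_max_right (L * (R - dist x₀ y)) (0 : ℝ)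
    rw [Pi.neg_apply]
    generalize max (L * (R - dist x₀ y)) (0 : ℝ) = a at this
    exact abs_le.2 ⟨le_max_of_le_right (le_min (by linarith [abs_nonneg (f y)]) (neg_abs_le _)),
      max_le (by linarith [abs_nonneg (f y)]) ((min_le_right _ _).trans (le_abs_self _))⟩
  · have := abs_le.1 (hy.trans (le_max_left _ 0))
    rw [Pi.neg_apply, min_eq_right this.2, max_eq_right this.1]

theorem gac_eps {a c : ℝ} {L : NNReal} (h : ∀ L' : NNReal, L < L' → a ≤ c * L') : a ≤ c * L :=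
  ge_of_tendsto (x := 𝓝[>] L) (f := fun L' : NNReal => c * L')
    ((Continuous.tendsto (by fun_prop) L).mono_left nhdsWithin_le_nhds)
    (eventually_nhdsWithin_of_forall h)

theorem gac_int (D : DS μ) {q : X → ℝ} (hq : MemLp q 2 μ) (h0 : ∀ᵐ y ∂μ, 0 ≤ q y) (x : X) (I : ℝ)
    (hb : ∀ g, LipB g → LipschitzWith 1 g → g x = 0 → ∫ y, q y * g y ∂μ ≤ I) :
    Integrable (fun y => q y * dist x y) μ := by
  choose g h1 h2 h3 h4 h5 using fun k : ℕ => gac_trunc (LipschitzWith.dist_right x) x (2 * k)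
  have i := fun k => integrable_mul_of_memLp hq (D.lipB_memLp (h1 k))
  have e : ∀ k : ℕ, EqOn (fun y => q y * g k y) (fun y => q y * dist x y) (ball x k) :=
    fun k y hy => congrArg (q y * ·) (h5 k y (by
      rw [abs_dist, NNReal.coe_one]; linarith [mem_ball'.1 hy]))
  refine AECover.integrable_of_integral_bounded_of_nonneg_ae
    (aecover_ball (x := x) tendsto_natCast_atTop_atTop) I
    (fun k => (i k).integrableOn.congr_fun (e k) measurableSet_ball)
    (h0.mono fun y hy => mul_nonneg hy dist_nonneg) (Eventually.of_forall fun k => ?_)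
  rw [← setIntegral_congr_fun measurableSet_ball (e k)]
  exact (setIntegral_le_integral (i k) (h0.mono fun y hy => mul_nonneg hy
    (h4 k y dist_nonneg))).trans (hb _ (h1 k) (h2 k) (by simpa using h3 k x))

theorem gac_ind (D : DS μ) {f : X → ℝ} (hm : AEStronglyMeasurable f μ) (hf : Bdd μ f) (x₀ : X) :
    ∃ u : ℕ → X → ℝ, (∀ k, MemLp (u k) 2 μ) ∧ (∀ k y, |u k y| ≤ |f y|) ∧
      ∀ y, Tendsto (fun k => u k y) atTop (𝓝 (f y)) := by
  have h : ∀ (k : ℕ) y, |(ball x₀ k).indicator f y| ≤ |f y| := fun k y =>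
    norm_indicator_le_norm_self f y
  refine ⟨fun k => (ball x₀ k).indicator f, fun k => (D.memLp_of_bdd
    (hm.indicator measurableSet_ball) (hf.imp fun _ hC => hC.mono fun y hy => (h k y).trans hy)
    (ae_of_all _ fun y hy => indicator_of_notMem hy f)).1, h,
    fun y => tendsto_const_nhds.congr' ?_⟩
  filter_upwards [tendsto_natCast_atTop_atTop.eventually_gt_atTop (dist y x₀)] with k hk
  exact (indicator_of_mem (mem_ball.2 hk) f).symm

namespace R2

variable (h : R2 D κ n)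
include h

theorem gac_lip {f : X → ℝ} {t M : ℝ} (hm : AEStronglyMeasurable f μ) (hM : ∀ᵐ x ∂μ, |f x| ≤ M)
    (ht : 0 < t) (x y : X) :
    |D.Pk t f x - D.Pk t f y| ≤ Real.exp (κ * t) * M / √(2 * t) * dist x y := by
  obtain ⟨u, h1, h2, h3⟩ := gac_ind D hm ⟨M, hM⟩ x
  have l := fun z => (h.ga_lim (fun k => (h1 k).1) (fun k => ae_of_all _ (h2 k)) (ae_of_all _ h3)
    t ht z).1 (h.ga_int_bdd hm ⟨M, hM⟩ ht z).1
  exact le_of_tendsto' ((l x).sub (l y)).abs fun k =>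
    (h.ga_bdd2 (h1 k) (hM.mono fun z hz => (h2 k z).trans hz) ht).1 x y

theorem gac_lim {u : ℕ → X → ℝ} {f : X → ℝ} (h1 : ∀ k, MemLp (u k) 2 μ)
    (h2 : ∀ k y, |u k y| ≤ |f y|) (h3 : ∀ y, Tendsto (fun k => u k y) atTop (𝓝 (f y)))
    (hi : ∀ t, 0 < t → ∀ x, Integrable (fun y => D.p t x y * f y) μ ∧
      Integrable (fun y => D.dp t x y * f y) μ)
    (hL : ∀ t, 0 < t → ∃ C, ∀ k x, |D.Lk t (u k) x| ≤ C) {t : ℝ} (ht : 0 < t)
    (hP : ∀ x r, ∃ C, ∀ k, ∀ y ∈ ball x r, |D.Pk t (u k) y| ≤ C) :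
    (∀ x, Tendsto (fun k => D.Pk t (u k) x) atTop (𝓝 (D.Pk t f x))) ∧
    (∀ x, Tendsto (fun k => D.Lk t (u k) x) atTop (𝓝 (D.Lk t f x))) ∧
    D.Lap (D.Pk t f) (D.Lk t f) ∧ Continuous (D.Lk t f) := by
  have l := fun t ht z => h.ga_lim (fun k => (h1 k).1) (fun k => ae_of_all _ (h2 k))
    (ae_of_all _ h3) t ht z
  have l1 := fun z => (l t ht z).1 (hi t ht z).1
  have l2 := fun t ht z => (l t ht z).2 (hi t ht z).2
  refine ⟨l1, l2 t ht, (DS.lap_of_lim (fun k => (h.ga_mem2 (h1 k) ht).2.2) (fun x r => ?_)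
    (ae_of_all _ l1) (ae_of_all _ (l2 t ht))).1, ?_⟩
  · obtain ⟨C, hC⟩ := hP x r
    obtain ⟨C', hC'⟩ := hL t ht
    exact ⟨max C C', fun k => ae_of_all _ fun y hy =>
      ⟨le_max_of_le_left (hC k y hy), le_max_of_le_right (hC' k y)⟩⟩
  have hs := half_pos ht
  obtain ⟨C, hC⟩ := hL _ hs
  have m := fun k => (h.ga_lk_cont2 (h1 k) hs).aestronglyMeasurable (μ := μ)
  have e : D.Lk t f = D.Pk (t / 2) (D.Lk (t / 2) f) := funext fun x => by
    refine tendsto_nhds_unique (l2 t ht x) (((h.ga_lim m (F := fun _ => C)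
      (fun k => ae_of_all _ fun y => (hC k y).trans (le_abs_self C)) (ae_of_all _ (l2 _ hs)) _ hs
      x).1 ((h.p_int _ x hs).mul_const C)).congr fun k => ?_)
    rw [← h.ga_lk_semi (h1 k) hs hs, add_halves]
  rw [e]
  exact (LipschitzWith.of_dist_le' (h.gac_lip (aestronglyMeasurable_of_tendsto_ae atTop m
    (ae_of_all _ (l2 _ hs))) (ae_of_all _ fun y => le_of_tendsto' (l2 _ hs y).abs
      fun k => hC k y) hs)).continuous

theorem ga_pk_bdd (f : X → ℝ) (t M : ℝ) (hm : AEStronglyMeasurable f μ) (hM : ∀ᵐ x ∂μ, |f x| ≤ M)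
    (ht : 0 < t) : (∀ x, |D.Pk t f x| ≤ M) ∧
    (∀ x y, |D.Pk t f x - D.Pk t f y| ≤ Real.exp (κ * t) * M / √(2 * t) * dist x y) ∧
    D.Lap (D.Pk t f) (D.Lk t f) ∧ Continuous (D.Lk t f) ∧
    ∀ x, |D.Lk t f x| ≤ √n * Real.exp (κ * t) * M / t := by
  rcases isEmpty_or_nonempty X with _ | ⟨⟨x₀⟩⟩
  · exact ⟨isEmptyElim, isEmptyElim, (DS.lap_const 0).congr (ae_of_all _ isEmptyElim)
      (ae_of_all _ isEmptyElim), continuous_of_discreteTopology, isEmptyElim⟩
  obtain ⟨u, h1, h2, h3⟩ := gac_ind D hm ⟨M, hM⟩ x₀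
  have hb : ∀ k, ∀ᵐ y ∂μ, |u k y| ≤ M := fun k => hM.mono fun z hz => (h2 k z).trans hz
  obtain ⟨-, l, a, b⟩ := h.gac_lim h1 h2 h3 (fun t ht => h.ga_int_bdd hm ⟨M, hM⟩ ht)
    (fun t ht => ⟨_, fun k => (h.ga_bdd2 (h1 k) (hb k) ht).2⟩) ht
    fun _ _ => ⟨M, fun k y _ => h.ga_abs_le (hb k) ht y⟩
  exact ⟨h.ga_abs_le hM ht, h.gac_lip hm hM ht, a, b,
    fun x => le_of_tendsto' (l x).abs fun k => (h.ga_bdd2 (h1 k) (hb k) ht).2 x⟩

/-- The first moment is finite. -/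
theorem ga_mom {t : ℝ} (ht : 0 < t) (x : X) :
    Integrable (fun y => D.p t x y * dist x y) μ ∧ Integrable (fun y => D.dp t x y * dist x y) μ := by
  have m := h.ga_memLp ht x
  have hκ := h.κ_nonneg
  have b1 : ∀ g, LipB g → LipschitzWith 1 g → g x = 0 → D.Pk t g x ≤ _ := fun g a b c =>
    (sub_zero _).symm.trans_le (c ▸ (le_abs_self _).trans (h.ga_lipB_sub a b ht x))
  have i1 := gac_int D m.1 (ae_of_all _ fun y => (h.p_pos t x y ht).le) x _ b1
  refine ⟨i1, ?_⟩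
  obtain ⟨a, b, pa, pb, hy⟩ : ∃ a b : ℝ, 0 < a ∧ 0 ≤ b ∧
      ∀ᵐ y ∂μ, 0 ≤ a * D.dp t x y + b * D.p t x y := by
    refine ⟨1 + 2 * κ * t / 3, n / 2 * (1 / t + κ + κ ^ 2 * t / 3), by positivity, by positivity,
      ?_⟩
    filter_upwards [h.ly t x ht, DS.G_nonneg (D.W_of_mem (h.p_tb t x ht).mem)] with y c d
    exact (mul_nonneg_iff_of_pos_left (h.p_pos t x y ht)).1 (d.trans c)
  have i2 := gac_int D ((m.2.const_mul a).add (m.1.const_mul b)) hy x _ fun g c d e => by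
    have j := h.ga_int2 (D.lipB_memLp c) ht x
    simp only [Pi.add_apply, add_mul, mul_assoc]
    rw [integral_add (j.2.const_mul a) (j.1.const_mul b), integral_const_mul, integral_const_mul]
    exact add_le_add (mul_le_mul_of_nonneg_left ((le_abs_self _).trans
      ((h.ga_lipB c d ht).2.2 x)) pa.le) (mul_le_mul_of_nonneg_left (b1 g c d e) pb)
  refine ((i2.sub (i1.const_mul b)).const_mul a⁻¹).congr (ae_of_all _ fun y => ?_)
  simp only [Pi.add_apply, Pi.sub_apply]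
  field_simp
  ring

theorem gac_int_lip {f : X → ℝ} {L : NNReal} (hL : LipschitzWith L f) {t : ℝ} (ht : 0 < t)
    (x : X) : Integrable (fun y => D.p t x y * f y) μ ∧
      Integrable (fun y => D.dp t x y * f y) μ := by
  have key : ∀ q : X → ℝ, Integrable q μ → Integrable (fun y => q y * dist x y) μ →
      Integrable (fun y => q y * f y) μ := fun q a b => by
    refine ((a.norm.mul_const |f x|).add (b.norm.mul_const L)).mono'
      (a.1.mul hL.continuous.aestronglyMeasurable) (ae_of_all _ fun y => ?_)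
    have c := (abs_sub_abs_le_abs_sub (f y) (f x)).trans (hL.dist_le_mul y x)
    rw [Pi.add_apply, norm_mul, norm_mul, Real.norm_of_nonneg dist_nonneg, mul_assoc, ← mul_add,
      dist_comm]
    exact mul_le_mul_of_nonneg_left (by rw [Real.norm_eq_abs]; linarith) (norm_nonneg _)
  exact ⟨key _ (h.p_int t x ht) (h.ga_mom ht x).1, key _ (h.dp_int t x ht) (h.ga_mom ht x).2⟩

theorem gac_pos {f : X → ℝ} {t : ℝ} {L : NNReal} (hL : LipschitzWith L f) (ht : 0 < t) (x₀ : X)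
    (h0 : 0 < L) : (∀ x y, |D.Pk t f x - D.Pk t f y| ≤ Real.exp (κ * t) * L * dist x y) ∧
    (∀ x, |D.Pk t f x - f x| ≤ √(2 * n * t) * Real.exp (κ * t) * L) ∧
    D.Lap (D.Pk t f) (D.Lk t f) ∧ Continuous (D.Lk t f) ∧
    ∀ x, |D.Lk t f x| ≤ √(n / (2 * t)) * Real.exp (κ * t) * L := by
  choose u h1 h2 h3 _ h5 using fun k : ℕ => gac_trunc hL x₀ k
  have h6 : ∀ y, Tendsto (fun k => u k y) atTop (𝓝 (f y)) := fun y => by
    refine tendsto_const_nhds.congr' ?_
    filter_upwards [tendsto_natCast_atTop_atTop.eventually_ge_atTop (|f y| / L + dist x₀ y)]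
      with k hk
    exact (h5 k y ((div_le_iff₀' (by exact_mod_cast h0)).1 (le_sub_iff_add_le.2 hk))).symm
  obtain ⟨l1, l2, a, b⟩ := h.gac_lim (fun k => D.lipB_memLp (h1 k)) h3 h6
    (fun t ht => h.gac_int_lip hL ht)
    (fun t ht => ⟨_, fun k => (h.ga_lipB (h1 k) (h2 k) ht).2.2⟩) ht fun x r =>
      ⟨√(2 * n * t) * Real.exp (κ * t) * L + (|f x| + L * r), fun k y hy => by
        have c1 := (abs_sub_abs_le_abs_sub _ _).trans (h.ga_lipB_sub (h1 k) (h2 k) ht y)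
        have c2 := (abs_sub_abs_le_abs_sub (f y) (f x)).trans (hL.dist_le_mul y x)
        have c3 := mul_le_mul_of_nonneg_left (mem_ball.1 hy).le L.coe_nonneg
        linarith [h3 k y]⟩
  exact ⟨fun x y => le_of_tendsto' ((l1 x).sub (l1 y)).abs
      fun k => (h.ga_lipB (h1 k) (h2 k) ht).2.1 x y,
    fun x => le_of_tendsto' ((l1 x).sub (h6 x)).abs fun k => h.ga_lipB_sub (h1 k) (h2 k) ht x,
    a, b, fun x => le_of_tendsto' (l2 x).abs fun k => (h.ga_lipB (h1 k) (h2 k) ht).2.2 x⟩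

theorem ga_pk_lip (f : X → ℝ) (t : ℝ) (L : NNReal) (hL : LipschitzWith L f) (ht : 0 < t)
    (hκ : κ * t ≤ 1) : (∀ x, Integrable (fun y => D.p t x y * f y) μ) ∧
    (∀ x y, |D.Pk t f x - D.Pk t f y| ≤ Real.exp (κ * t) * L * dist x y) ∧
    (∀ x, |D.Pk t f x - f x| ≤ 10 * √(n * t) * L) ∧
    D.Lap (D.Pk t f) (D.Lk t f) ∧ Continuous (D.Lk t f) ∧
    ∀ x, |D.Lk t f x| ≤ 10 * √(n / t) * L := by
  rcases isEmpty_or_nonempty X with _ | ⟨⟨x₀⟩⟩
  · exact ⟨isEmptyElim, isEmptyElim, isEmptyElim, (DS.lap_const 0).congr (ae_of_all _ isEmptyElim)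
      (ae_of_all _ isEmptyElim), continuous_of_discreteTopology, isEmptyElim⟩
  have key := fun (L' : NNReal) (hl : L < L') =>
    h.gac_pos (hL.weaken hl.le) ht x₀ (zero_le.trans_lt hl)
  have e3 : Real.exp (κ * t) ≤ 3 :=
    (Real.exp_le_exp.2 hκ).trans (Real.exp_one_lt_d9.le.trans (by norm_num))
  have a1 : √(2 * n * t) ≤ 2 * √(n * t) := Real.sqrt_le_iff.2 ⟨by positivity, by
    rw [mul_pow, Real.sq_sqrt (by positivity)]
    nlinarith [mul_nonneg (Nat.cast_nonneg (α := ℝ) n) ht.le]⟩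
  have a2 : √(n / (2 * t)) ≤ √(n / t) :=
    Real.sqrt_le_sqrt (div_le_div_of_nonneg_left n.cast_nonneg ht (by linarith))
  refine ⟨fun x => (h.gac_int_lip hL ht x).1, fun x y => ?_,
    fun x => (gac_eps fun L' hl => (key L' hl).2.1 x).trans (mul_le_mul_of_nonneg_right ?_ L.2),
    (key _ (lt_add_one L)).2.2.1, (key _ (lt_add_one L)).2.2.2.1,
    fun x => (gac_eps fun L' hl => (key L' hl).2.2.2.2 x).trans
      (mul_le_mul_of_nonneg_right ?_ L.2)⟩
  · rw [mul_right_comm]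
    exact gac_eps fun L' hl => ((key L' hl).1 x y).trans_eq (mul_right_comm _ _ _)
  · nlinarith [mul_le_mul a1 e3 (Real.exp_pos _).le (by positivity), Real.sqrt_nonneg (n * t)]
  · nlinarith [mul_le_mul a2 e3 (Real.exp_pos _).le (by positivity), Real.sqrt_nonneg (n / t)]

end R2

end RC
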