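import Pool.Agent.P.MP_6472e5_gt.GaB

/-! Pointwise gradient estimates. -/

set_option autoImplicit false
set_option linter.unusedSectionVars false

noncomputable section

namespace RC

open MeasureTheory Set Filter Topology Metric

variable {X : Type} [MetricSpace X] [SecondCountableTopology X] [MeasurableSpace X] [BorelSpace X]
  {μ : Measure X} {D : DS μ} {κ : ℝ} {n : ℕ}

namespace R2

variable (h : R2 D κ n)
include h

theorem gae_mono {f g : X → ℝ} (hf : Integrable f μ) (hg : Integrable g μ) {c : ℝ}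
    (hfg : ∀ᵐ y ∂μ, f y ≤ c * g y) {t : ℝ} (ht : 0 < t) (x : X) :
    D.Pk t f x ≤ c * D.Pk t g x := by
  unfold DS.Pk
  rw [← integral_const_mul]
  refine integral_mono_ae (h.ga_int1 hf ht x) ((h.ga_int1 hg ht x).const_mul c) ?_
  filter_upwards [hfg] with y hy
  have h1 := mul_le_mul_of_nonneg_left hy (h.p_pos t x y ht).le
  linarith

theorem gae_sub {f g : X → ℝ} (hf : Integrable f μ) (hg : Integrable g μ) {t : ℝ} (ht : 0 < t)
    (x : X) : D.Pk t (fun y => f y - g y) x = D.Pk t f x - D.Pk t g x := by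
  unfold DS.Pk
  rw [← integral_sub (h.ga_int1 hf ht x) (h.ga_int1 hg ht x)]
  refine integral_congr_ae (Eventually.of_forall fun y => ?_)
  simp only [mul_sub]

theorem gae_lipB {u : X → ℝ} (hu : LipB u) :
    Tendsto (fun t => ∫ x, |D.Pk t u x - u x| ∂μ) (𝓝[>] 0) (𝓝 0) := by
  rcases isEmpty_or_nonempty X with hX | ⟨⟨x₀⟩⟩
  · simp only [Measure.eq_zero_of_isEmpty μ, integral_zero_measure]
    exact tendsto_const_nhds
  obtain ⟨R, -, hR⟩ := hu.exists_ball x₀
  obtain ⟨L, hL⟩ := hu.1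
  have hui := D.lipB_int hu
  have hc : Continuous fun t : ℝ =>
      2 * (√(2 * n * t) * Real.exp (κ * t) * L) * μ.real (ball x₀ R) := by fun_prop
  have hlim : Tendsto (fun t : ℝ =>
      2 * (√(2 * n * t) * Real.exp (κ * t) * L) * μ.real (ball x₀ R)) (𝓝[>] 0) (𝓝 0) := by
    have h1 := (hc.tendsto 0).mono_left (nhdsWithin_le_nhds (s := Ioi (0 : ℝ)))
    simpa using h1
  refine squeeze_zero' (Eventually.of_forall fun t => integral_nonneg fun x => abs_nonneg _) ?_ hlim
  filter_upwards [self_mem_nhdsWithin] with t ht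
  have ht' : 0 < t := ht
  set c : ℝ := √(2 * n * t) * Real.exp (κ * t) * L with hcdef
  have hb : ∀ x, |D.Pk t u x - u x| ≤ c := h.ga_lipB_sub hu hL ht'
  have hvi := (h.ga_pk_l1 hui ht').2
  have hind : Integrable ((ball x₀ R).indicator fun _ => 2 * c) μ :=
    (integrable_indicator_iff measurableSet_ball).mpr (integrableOn_const (D.fin x₀ R).ne)
  have hle : ∫ x, |D.Pk t u x - u x| ∂μ ≤
      ∫ x, ((|D.Pk t u x| - |u x|) + (ball x₀ R).indicator (fun _ => 2 * c) x) ∂μ := by
    refine integral_mono (hvi.sub hui).abs ((hvi.abs.sub hui.abs).add hind) fun x => ?_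
    by_cases hx : x ∈ ball x₀ R
    · have h1 := hb x
      have h2 := abs_sub_abs_le_abs_sub (u x) (D.Pk t u x)
      rw [abs_sub_comm] at h2
      simp only [indicator_of_mem hx]
      linarith
    · simp [indicator_of_notMem hx, hR x hx]
  have hd : Integrable (fun x => |D.Pk t u x| - |u x|) μ := hvi.abs.sub hui.abs
  rw [integral_add hd hind, integral_sub hvi.abs hui.abs,
    integral_indicator measurableSet_ball, setIntegral_const, smul_eq_mul] at hle
  have h3 := h.ga_l1_le hui ht'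
  linarith

theorem ga_ge_pt (f : X → ℝ) (hf : f ∈ D.V) (t : ℝ) (ht : 0 < t) : ∀ᵐ x ∂μ,
    D.G (D.P t f) (D.P t f) x + 2 * t / n * D.L t f x ^ 2 ≤
      Real.exp (2 * κ * t) * D.Pk t (D.G f f) x := by
  have hf2 := D.memLp f hf
  have hu : D.P t f ∈ D.V := ((h.flow.heat f hf2).1 t ht).1
  have hG := DS.G_int hu hu
  have hL := (D.memLp _ (h.flow.L_mem f t hf2 ht)).integrable_sq
  have hg := DS.G_int hf hf
  have hP := (h.ga_pk_l1 hg ht).2
  have key := D.ae_le_of_test
    (f := fun x => D.G (D.P t f) (D.P t f) x + 2 * t / n * D.L t f x ^ 2)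
    (g := fun x => Real.exp (2 * κ * t) * D.Pk t (D.G f f) x)
    (locInt_of_int (hG.add (hL.const_mul _))) (locInt_of_int (hP.const_mul _)) isOpen_univ
    (fun φ hφ _ h0 => by
      have hm := hφ.continuous.aestronglyMeasurable (μ := μ)
      have h1 := h.ge f hf φ t (D.lipB_memLp hφ) hφ.bdd (Eventually.of_forall h0) ht
      rw [h.P_l1 φ _ t (D.lipB_memLp hφ) hφ.bdd hg ht, ← integral_const_mul, ← integral_const_mul,
        ← integral_add (hφ.bdd.mul_integrable hm hG)
          ((hφ.bdd.mul_integrable hm hL).const_mul _)] at h1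
      refine le_trans (le_of_eq ?_) (h1.trans (le_of_eq ?_))
      · exact integral_congr_ae (Eventually.of_forall fun x => by ring)
      · exact integral_congr_ae (Eventually.of_forall fun x => by ring))
  filter_upwards [key] with x hx using hx (mem_univ x)

theorem ga_rp_pt (f : X → ℝ) (t : ℝ) (hf : MemLp f 2 μ) (ht : 0 < t) : ∀ᵐ x ∂μ,
    2 * t * Real.exp (-(2 * κ * t)) * D.G (D.P t f) (D.P t f) x ≤
      D.Pk t (fun y => f y ^ 2) x - D.Pk t f x ^ 2 := by
  have hu : D.P t f ∈ D.V := ((h.flow.heat f hf).1 t ht).1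
  have hG := DS.G_int hu hu
  have hg : Integrable (fun y => f y ^ 2) μ := hf.integrable_sq
  have hP := (h.ga_pk_l1 hg ht).2
  have hQ := (D.memLp _ hu).integrable_sq
  have key := D.ae_le_of_test
    (f := fun x => 2 * t * Real.exp (-(2 * κ * t)) * D.G (D.P t f) (D.P t f) x)
    (g := fun x => D.Pk t (fun y => f y ^ 2) x - D.P t f x ^ 2)
    (locInt_of_int (hG.const_mul _)) (locInt_of_int (hP.sub hQ)) isOpen_univ
    (fun φ hφ _ h0 => by
      have hm := hφ.continuous.aestronglyMeasurable (μ := μ)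
      have h1 := h.rp f φ t hf (D.lipB_memLp hφ) hφ.bdd (Eventually.of_forall h0) ht
      rw [h.P_l1 φ _ t (D.lipB_memLp hφ) hφ.bdd hg ht, ← integral_const_mul,
        ← integral_sub (hφ.bdd.mul_integrable hm hP) (hφ.bdd.mul_integrable hm hQ)] at h1
      refine le_trans (le_of_eq ?_) (h1.trans (le_of_eq ?_))
      · exact integral_congr_ae (Eventually.of_forall fun x => by ring)
      · exact integral_congr_ae (Eventually.of_forall fun x => by ring))
  filter_upwards [key, h.ga_P_rep hf ht] with x hx hx'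
  rw [← hx']
  exact hx (mem_univ x)

theorem ga_lk_sq {f : X → ℝ} (hf : MemLp f 2 μ) {t : ℝ} (ht : 0 < t) (x : X) :
    D.Lk t f x ^ 2 ≤ n * Real.exp (2 * κ * t) / t ^ 2 * D.Pk t (fun y => f y ^ 2) x := by
  obtain ⟨s, rfl⟩ : ∃ s, t = s + s := ⟨t / 2, by ring⟩
  have hs : 0 < s := by linarith
  have hn : (0 : ℝ) < n := by exact_mod_cast h.n_pos
  have hu : D.P s f ∈ D.V := ((h.flow.heat f hf).1 s hs).1
  have hv : D.P s (D.P s f) ∈ D.V := ((h.flow.heat _ (D.memLp _ hu)).1 s hs).1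
  have hg : Integrable (fun y => f y ^ 2) μ := hf.integrable_sq
  have hE : 0 < Real.exp (2 * κ * s) := Real.exp_pos _
  have h1 : ∀ᵐ y ∂μ, D.G (D.P s f) (D.P s f) y ≤
      Real.exp (2 * κ * s) / (2 * s) * D.Pk s (fun y => f y ^ 2) y := by
    filter_upwards [h.ga_rp_pt f s hf hs] with y hy
    rw [Real.exp_neg] at hy
    have h2 : 2 * s * (Real.exp (2 * κ * s))⁻¹ * D.G (D.P s f) (D.P s f) y ≤
        D.Pk s (fun y => f y ^ 2) y := by nlinarith [sq_nonneg (D.Pk s f y)]
    have h3 := mul_le_mul_of_nonneg_left h2 (div_pos hE (by positivity : 0 < 2 * s)).le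
    refine le_trans (le_of_eq ?_) h3
    field_simp
  have h2 : ∀ y, D.Pk s (D.G (D.P s f) (D.P s f)) y ≤
      Real.exp (2 * κ * s) / (2 * s) * D.Pk (s + s) (fun y => f y ^ 2) y := fun y => by
    rw [← h.ga_semi1 hg hs hs y]
    exact h.gae_mono (DS.G_int hu hu) (h.ga_pk_l1 hg hs).2 h1 hs y
  refine le_of_ae_le h.pos isOpen_univ (f := fun x => D.Lk (s + s) f x ^ 2)
    (g := fun x => n * Real.exp (2 * κ * (s + s)) / (s + s) ^ 2 *
      D.Pk (s + s) (fun y => f y ^ 2) x)
    ((h.ga_lk_cont2 hf ht).pow 2).continuousOn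
    (continuous_const.mul (h.ga_pk_l1 hg ht).1).continuousOn ?_ x (mem_univ x)
  filter_upwards [h.ga_ge_pt _ hu s hs, DS.G_nonneg (D.W_of_mem hv), h.L_rep f _ hf ht,
    h.flow.L_semi' f s s hf hs hs.le] with y a1 a2 a3 a4 _
  rw [← a3, a4]
  have h3 : 2 * s / n * D.L s (D.P s f) y ^ 2 ≤ Real.exp (2 * κ * s) *
      (Real.exp (2 * κ * s) / (2 * s) * D.Pk (s + s) (fun y => f y ^ 2) y) := by
    have h4 := mul_le_mul_of_nonneg_left (h2 y) hE.le
    linarith
  have h5 := mul_le_mul_of_nonneg_left h3 (div_pos hn (by positivity : 0 < 2 * s)).le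
  have h6 : Real.exp (2 * κ * (s + s)) = Real.exp (2 * κ * s) * Real.exp (2 * κ * s) := by
    rw [← Real.exp_add]
    congr 1
    ring
  refine le_trans (le_of_eq ?_) (h5.trans (le_of_eq ?_))
  · field_simp
  · rw [h6]
    field_simp
    ring

theorem ga_l1_zero (g : X → ℝ) (hg : Integrable g μ) :
    Tendsto (fun t => ∫ x, |D.Pk t g x - g x| ∂μ) (𝓝[>] 0) (𝓝 0) := by
  obtain ⟨u, hu, hl⟩ := D.exists_lipB_l1 hg
  rw [Metric.tendsto_nhds]
  intro ε hε
  obtain ⟨k, hk⟩ := (hl.eventually (gt_mem_nhds (show (0 : ℝ) < ε / 3 by positivity))).exists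
  have hui := D.lipB_int (hu k)
  filter_upwards [(h.gae_lipB (hu k)).eventually (gt_mem_nhds (show (0 : ℝ) < ε / 3 by positivity)),
    self_mem_nhdsWithin] with t h1 ht
  have ht' : 0 < t := ht
  have hd : Integrable (fun y => u k y - g y) μ := hui.sub hg
  have h2 := h.ga_l1_le hd ht'
  have hP := (h.ga_pk_l1 hd ht').2
  have hQ : Integrable (fun x => D.Pk t (u k) x - u k x) μ := (h.ga_pk_l1 hui ht').2.sub hui
  have hle : ∫ x, |D.Pk t g x - g x| ∂μ ≤ ∫ x, (|D.Pk t (fun y => u k y - g y) x| +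
      |D.Pk t (u k) x - u k x| + |u k x - g x|) ∂μ := by
    refine integral_mono ((h.ga_pk_l1 hg ht').2.sub hg).abs ((hP.abs.add hQ.abs).add hd.abs)
      fun x => ?_
    simp only [h.gae_sub hui hg ht' x]
    rw [abs_le]
    constructor <;>
      linarith [le_abs_self (D.Pk t (u k) x - D.Pk t g x), neg_abs_le (D.Pk t (u k) x - D.Pk t g x),
        le_abs_self (D.Pk t (u k) x - u k x), neg_abs_le (D.Pk t (u k) x - u k x),
        le_abs_self (u k x - g x), neg_abs_le (u k x - g x)]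
  have hs : Integrable (fun x => |D.Pk t (fun y => u k y - g y) x| + |D.Pk t (u k) x - u k x|) μ :=
    hP.abs.add hQ.abs
  rw [integral_add hs hd.abs, integral_add hP.abs hQ.abs] at hle
  rw [Real.dist_eq, sub_zero, abs_of_nonneg (integral_nonneg fun x => abs_nonneg _)]
  linarith

end R2

end RC
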