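import Pool.Agent.P.MP_6472e5_gt.GaH

/-! Volume, doubling and the Gaussian bound. -/

set_option autoImplicit false
set_option linter.unusedSectionVars false

noncomputable section

namespace RC

open MeasureTheory Set Filter Topology Metric

variable {X : Type} [MetricSpace X] [SecondCountableTopology X] [MeasurableSpace X] [BorelSpace X]
  {μ : Measure X} {D : DS μ} {κ : ℝ} {n : ℕ}

namespace R2

theorem gag_exp {C a r k : ℝ} (hC : 0 < C) (ha : 0 ≤ a) (hr : 0 < r) (hk : k * r ^ 2 ≤ 1) :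
    C * Real.exp (-(a / (8 * Real.exp (2 * k * r ^ 2) * r ^ 2))) ≤
      (C + 8 * Real.exp 2) * Real.exp (-(a / ((C + 8 * Real.exp 2) * r ^ 2))) := by
  have h1 : Real.exp (2 * k * r ^ 2) ≤ Real.exp 2 := Real.exp_le_exp.2 (by linarith)
  have h2 := Real.exp_pos 2
  refine mul_le_mul (by linarith) (Real.exp_le_exp.2 (neg_le_neg ?_)) (Real.exp_pos _).le
    (by positivity)
  refine div_le_div_of_nonneg_left ha (by positivity) ?_
  exact mul_le_mul_of_nonneg_right (by linarith) (by positivity)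

theorem gag_sq {d r η : ℝ} (hd : 0 ≤ d) (hη : 0 < η) :
    d ^ 2 / (1 + η) - r ^ 2 / η ≤ max (d - r) 0 ^ 2 := by
  rw [sub_le_iff_le_add, div_le_iff₀ (by positivity)]
  have h1 : d ≤ max (d - r) 0 + r := by
    have := le_max_left (d - r) 0
    linarith
  have h0 : 0 ≤ max (d - r) 0 := le_max_right _ _
  generalize max (d - r) 0 = m at h1 h0 ⊢
  have h2 : d ^ 2 ≤ (m + r) ^ 2 := pow_le_pow_left₀ hd h1 2
  have h3 : (m ^ 2 + r ^ 2 / η) * (1 + η) - (m + r) ^ 2 = (η * m - r) ^ 2 / η := by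
    field_simp
    ring
  have h4 : 0 ≤ (η * m - r) ^ 2 / η := by positivity
  linarith

theorem gag_eta {δ : ℝ} (hδ : 0 < δ) :
    ∃ η : ℝ, 0 < η ∧ η ≤ 1 ∧ (1 + η) ^ 3 * Real.exp (2 * η) ≤ 1 + δ := by
  have h1 : 0 < Real.log (1 + δ) := Real.log_pos (by linarith)
  obtain ⟨η, h2, h3, h4⟩ : ∃ η : ℝ, 0 < η ∧ η ≤ 1 ∧ η ≤ Real.log (1 + δ) / 5 :=
    ⟨min 1 (Real.log (1 + δ) / 5), lt_min one_pos (by positivity), min_le_left _ _,
      min_le_right _ _⟩
  refine ⟨η, h2, h3, ?_⟩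
  have h5 : 1 + η ≤ Real.exp η := by
    have := Real.add_one_le_exp η
    linarith
  calc (1 + η) ^ 3 * Real.exp (2 * η) ≤ Real.exp η ^ 3 * Real.exp (2 * η) := by gcongr
    _ = Real.exp (5 * η) := by
      rw [← Real.exp_nat_mul, ← Real.exp_add]
      congr 1
      push_cast
      ring
    _ ≤ Real.exp (Real.log (1 + δ)) := Real.exp_le_exp.2 (by linarith)
    _ = 1 + δ := Real.exp_log (by linarith)

variable (h : R2 D κ n)
include h

theorem ga_conc : ∃ C, 0 < C ∧ ∀ r x ρ, 0 < r → κ * r ^ 2 ≤ 1 → 0 ≤ ρ →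
    ∫ y in (ball x ρ)ᶜ, D.p (r ^ 2) x y ∂μ ≤ C * Real.exp (-(ρ ^ 2 / (C * r ^ 2))) := by
  refine ⟨Real.exp (n / 2) + 8 * Real.exp 2, by positivity, fun r x ρ hr hk hρ => ?_⟩
  refine (h.ga_tail one_pos (t := r ^ 2) (by positivity) x hρ).trans ?_
  refine le_trans (le_of_eq ?_) (gag_exp (Real.exp_pos _) (sq_nonneg ρ) hr hk)
  rw [← Real.exp_add]
  congr 1
  ring

/-- The averaged Harnack inequality. -/
theorem ga_avg {s t ρ : ℝ} (hs : 0 < s) (hst : s < t) (hρ : 0 ≤ ρ) (z x : X) :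
    D.p s z x * μ.real (ball x ρ) ≤ √((t / s) ^ n) *
      Real.exp (n * κ * t + (1 + κ * t) * ρ ^ 2 / (4 * (t - s))) *
      ∫ y in ball x ρ, D.p t z y ∂μ := by
  have ht : 0 < t := hs.trans hst
  have hκ := h.κ_nonneg
  rw [← integral_const_mul, mul_comm, ← smul_eq_mul, ← setIntegral_const]
  refine setIntegral_mono_on (integrableOn_const (D.fin x ρ).ne)
    ((h.p_int t z ht).const_mul _).integrableOn measurableSet_ball fun y hy => ?_
  refine (h.harn s t z x y hs hst).trans ?_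
  have h1 : dist x y ≤ ρ := (mem_ball'.1 hy).le
  have h2 := (h.p_pos t z y ht).le
  have h3 : 0 < t - s := sub_pos.2 hst
  rw [mul_assoc, mul_comm]
  gcongr

theorem gag_up : ∃ C, 0 < C ∧ ∀ x r ρ, 0 < r → κ * r ^ 2 ≤ 1 → 0 ≤ ρ → ρ ≤ 2 * r →
    D.p (r ^ 2) x x * μ.real (ball x ρ) ≤ C := by
  refine ⟨√(2 ^ n) * Real.exp (2 * n + 3), by positivity, fun x r ρ hr hk h0 h1 => ?_⟩
  have hr2 : 0 < r ^ 2 := by positivity
  have hκ := h.κ_nonneg
  refine (h.ga_avg hr2 (t := 2 * r ^ 2) (by linarith) h0 x x).trans ?_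
  have e1 : 2 * r ^ 2 / r ^ 2 = 2 := by field_simp
  have e2 : ∫ y in ball x ρ, D.p (2 * r ^ 2) x y ∂μ ≤ 1 := by
    rw [← h.p_one (2 * r ^ 2) x (by positivity)]
    exact setIntegral_le_integral (h.p_int _ x (by positivity))
      (Eventually.of_forall fun y => (h.p_pos _ x y (by positivity)).le)
  have e3 : (1 + κ * (2 * r ^ 2)) * ρ ^ 2 / (4 * (2 * r ^ 2 - r ^ 2)) ≤ 3 := by
    rw [div_le_iff₀ (by linarith)]
    have h2 : ρ ^ 2 ≤ (2 * r) ^ 2 := pow_le_pow_left₀ h0 h1 2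
    calc (1 + κ * (2 * r ^ 2)) * ρ ^ 2 ≤ 3 * (2 * r) ^ 2 :=
          mul_le_mul (by linarith) h2 (by positivity) (by norm_num)
      _ = _ := by ring
  have e4 : n * κ * (2 * r ^ 2) ≤ 2 * n := by
    have := mul_le_mul_of_nonneg_left hk (Nat.cast_nonneg (α := ℝ) n)
    linarith
  rw [e1]
  refine (mul_le_of_le_one_right (by positivity) e2).trans ?_
  exact mul_le_mul_of_nonneg_left (Real.exp_le_exp.2 (add_le_add e4 e3)) (Real.sqrt_nonneg _)

theorem gag_low : ∃ C, 0 < C ∧ ∀ x r, 0 < r → κ * r ^ 2 ≤ 1 →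
    1 ≤ C * (D.p (r ^ 2) x x * μ.real (ball x r)) := by
  obtain ⟨C, hC, hc⟩ := h.ga_conc
  obtain ⟨K, hK, hK'⟩ : ∃ K : ℝ, 2 ≤ K ∧ 2 * C ≤ K := ⟨2 + 2 * C, by linarith, by linarith⟩
  have hK0 : 0 < K := by linarith
  refine ⟨2 * (√((K ^ 2) ^ n) * Real.exp (n + 1)), by positivity, fun x r hr hk => ?_⟩
  have hr2 : 0 < r ^ 2 := by positivity
  have hκ := h.κ_nonneg
  have hs : 0 < (r / K) ^ 2 := by positivity
  have hs' : (r / K) ^ 2 ≤ r ^ 2 / 4 := by
    rw [div_pow]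
    exact div_le_div_of_nonneg_left hr2.le (by norm_num) (by nlinarith)
  have hk' : κ * (r / K) ^ 2 ≤ 1 :=
    (mul_le_mul_of_nonneg_left (hs'.trans (by linarith)) hκ).trans hk
  have h1 := hc (r / K) x r (by positivity) hk' hr.le
  have e1 : r ^ 2 / (C * (r / K) ^ 2) = K ^ 2 / C := by field_simp
  have e2 : C * Real.exp (-(K ^ 2 / C)) ≤ 1 / 2 := by
    have h2 : K ^ 2 / C ≤ Real.exp (K ^ 2 / C) := by
      have := Real.add_one_le_exp (K ^ 2 / C)
      linarith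
    have h3 : 2 * C ≤ K ^ 2 / C := by
      rw [le_div_iff₀ hC]
      nlinarith
    rw [Real.exp_neg, ← div_eq_mul_inv, div_le_iff₀ (Real.exp_pos _)]
    linarith
  rw [e1] at h1
  have h4 := integral_add_compl (measurableSet_ball (x := x) (ε := r)) (h.p_int _ x hs)
  rw [h.p_one _ x hs] at h4
  have h5 : ∫ y in ball x r, D.p ((r / K) ^ 2) x y ∂μ ≤
      ∫ _ in ball x r, D.p (r ^ 2) x x * √((K ^ 2) ^ n) * Real.exp (n + 1) ∂μ := by
    refine setIntegral_mono_on (h.p_int _ x hs).integrableOn (integrableOn_const (D.fin x r).ne)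
      measurableSet_ball fun y hy => ?_
    refine (h.harn _ (r ^ 2) x y x hs (by linarith)).trans ?_
    have e3 : r ^ 2 / (r / K) ^ 2 = K ^ 2 := by field_simp
    have e4 : n * κ * r ^ 2 ≤ n := by
      have := mul_le_mul_of_nonneg_left hk (Nat.cast_nonneg (α := ℝ) n)
      linarith
    have e5 : (1 + κ * r ^ 2) * dist y x ^ 2 / (4 * (r ^ 2 - (r / K) ^ 2)) ≤ 1 := by
      rw [div_le_one (by linarith)]
      have h6 : dist y x ^ 2 ≤ r ^ 2 := pow_le_pow_left₀ dist_nonneg (mem_ball.1 hy).le 2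
      calc (1 + κ * r ^ 2) * dist y x ^ 2 ≤ 2 * r ^ 2 :=
            mul_le_mul (by linarith) h6 (by positivity) (by norm_num)
        _ ≤ _ := by linarith
    rw [e3]
    exact mul_le_mul_of_nonneg_left (Real.exp_le_exp.2 (add_le_add e4 e5))
      (mul_nonneg (h.p_pos _ x x hr2).le (Real.sqrt_nonneg _))
  rw [setIntegral_const, smul_eq_mul] at h5
  linarith

theorem ga_vol : ∃ C, 0 < C ∧ ∀ x r, 0 < r → κ * r ^ 2 ≤ 1 →
    C⁻¹ ≤ D.p (r ^ 2) x x * μ.real (ball x r) ∧ D.p (r ^ 2) x x * μ.real (ball x r) ≤ C := by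
  obtain ⟨C, hC, h1⟩ := h.gag_up
  obtain ⟨C', hC', h2⟩ := h.gag_low
  refine ⟨C + C', by positivity, fun x r hr hk => ⟨?_, ?_⟩⟩
  · refine le_trans (inv_anti₀ hC' (by linarith)) ?_
    rw [inv_eq_one_div, div_le_iff₀' hC']
    exact h2 x r hr hk
  · exact (h1 x r r hr hk hr.le (by linarith)).trans (by linarith)

theorem ga_dbl : ∃ C, 0 < C ∧ ∀ x r, 0 < r → κ * r ^ 2 ≤ 1 →
    μ.real (ball x (2 * r)) ≤ C * μ.real (ball x r) := by
  obtain ⟨C, hC, h1⟩ := h.gag_up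
  obtain ⟨C', hC', h2⟩ := h.gag_low
  refine ⟨C' * C, by positivity, fun x r hr hk => ?_⟩
  have h3 := h1 x r (2 * r) hr hk (by linarith) le_rfl
  have h4 := mul_le_mul_of_nonneg_right (h2 x r hr hk)
    (measureReal_nonneg (μ := μ) (s := ball x (2 * r)))
  have h5 := mul_le_mul_of_nonneg_left h3
    (mul_nonneg hC'.le (measureReal_nonneg (μ := μ) (s := ball x r)))
  linarith

theorem ga_gauss (δ : ℝ) (hδ : 0 < δ) : ∃ C, 0 < C ∧ ∀ r x y, 0 < r → κ * r ^ 2 ≤ 1 →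
    D.p (r ^ 2) x y * μ.real (ball x r) ≤
      C * Real.exp (-(dist x y ^ 2 / (4 * (1 + δ) * Real.exp (2 * κ * r ^ 2) * r ^ 2))) := by
  obtain ⟨η, hη, hη1, hη2⟩ := gag_eta hδ
  refine ⟨√((1 + η) ^ n) * Real.exp (2 * n + 3 / (4 * η)) *
    Real.exp (n / (2 * η) + 1 / (4 * η)), by positivity, fun r x y hr hk => ?_⟩
  have hr2 : 0 < r ^ 2 := by positivity
  have hκ := h.κ_nonneg
  have hηr : 0 < η * r ^ 2 := by positivity
  have ht : 0 < (1 + η) * r ^ 2 := by positivity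
  have hkt : κ * ((1 + η) * r ^ 2) ≤ 2 := by
    have := mul_le_mul_of_nonneg_left hk (show 0 ≤ 1 + η by positivity)
    linarith
  rw [h.p_symm _ x y hr2]
  refine (h.ga_avg hr2 (t := (1 + η) * r ^ 2) (by linarith) hr.le y x).trans ?_
  have e1 : (1 + η) * r ^ 2 / r ^ 2 = 1 + η := by field_simp
  have e2 : n * κ * ((1 + η) * r ^ 2) ≤ 2 * n := by
    have := mul_le_mul_of_nonneg_left hkt (Nat.cast_nonneg (α := ℝ) n)
    linarith
  have e3 : (1 + κ * ((1 + η) * r ^ 2)) * r ^ 2 / (4 * ((1 + η) * r ^ 2 - r ^ 2)) ≤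
      3 / (4 * η) := by
    rw [div_le_div_iff₀ (by linarith) (by positivity)]
    have := mul_le_mul_of_nonneg_right hkt hηr.le
    linarith
  have e4 : ∫ z in ball x r, D.p ((1 + η) * r ^ 2) y z ∂μ ≤
      ∫ z in (ball y (max (dist x y - r) 0))ᶜ, D.p ((1 + η) * r ^ 2) y z ∂μ := by
    refine setIntegral_mono_set (h.p_int _ y ht).integrableOn
      (Eventually.of_forall fun z => (h.p_pos _ y z ht).le) (LE.le.eventuallyLE ?_)
    intro z hz hz'
    rw [mem_ball] at hz hz'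
    have h1 := dist_triangle_right x y z
    rw [dist_comm x z, dist_comm y z] at h1
    rcases lt_max_iff.1 hz' with h2 | h2
    · linarith
    · exact absurd h2 (not_lt.2 dist_nonneg)
  have e5 := h.ga_tail hη ht y (le_max_right (dist x y - r) 0)
  have e6 : 1 ≤ Real.exp (2 * κ * ((1 + η) * r ^ 2)) := Real.one_le_exp (by positivity)
  have e7 : Real.exp (2 * κ * ((1 + η) * r ^ 2)) ≤
      Real.exp (2 * η) * Real.exp (2 * κ * r ^ 2) := by
    rw [← Real.exp_add]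
    have := mul_le_mul_of_nonneg_left hk hη.le
    exact Real.exp_le_exp.2 (by linarith)
  have e8 := gag_sq (r := r) (dist_nonneg (x := x) (y := y)) hη
  generalize Real.exp (2 * κ * ((1 + η) * r ^ 2)) = E at e5 e6 e7
  have hQ : 0 < 4 * (1 + η) * ((1 + η) * r ^ 2 * E) := by positivity
  have e9 : dist x y ^ 2 / (4 * (1 + δ) * Real.exp (2 * κ * r ^ 2) * r ^ 2) ≤
      dist x y ^ 2 / (1 + η) / (4 * (1 + η) * ((1 + η) * r ^ 2 * E)) := by
    rw [div_div]
    refine div_le_div_of_nonneg_left (sq_nonneg _) (by positivity) ?_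
    calc (1 + η) * (4 * (1 + η) * ((1 + η) * r ^ 2 * E)) = 4 * ((1 + η) ^ 3 * E) * r ^ 2 := by ring
      _ ≤ 4 * ((1 + η) ^ 3 * (Real.exp (2 * η) * Real.exp (2 * κ * r ^ 2))) * r ^ 2 := by gcongr
      _ = 4 * ((1 + η) ^ 3 * Real.exp (2 * η)) * Real.exp (2 * κ * r ^ 2) * r ^ 2 := by ring
      _ ≤ _ := by gcongr
  have e10 : r ^ 2 / η / (4 * (1 + η) * ((1 + η) * r ^ 2 * E)) ≤ 1 / (4 * η) := by
    rw [div_div, div_le_div_iff₀ (by positivity) (by positivity)]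
    have h1 : 1 ≤ (1 + η) * ((1 + η) * E) :=
      one_le_mul_of_one_le_of_one_le (by linarith)
        (one_le_mul_of_one_le_of_one_le (by linarith) e6)
    have := mul_le_mul_of_nonneg_left h1 hηr.le
    linarith
  have e11 := div_le_div_of_nonneg_right e8 hQ.le
  rw [sub_div] at e11
  rw [e1, mul_assoc (√((1 + η) ^ n) * Real.exp (2 * n + 3 / (4 * η))), ← Real.exp_add]
  refine mul_le_mul (mul_le_mul_of_nonneg_left (Real.exp_le_exp.2 (add_le_add e2 e3))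
    (Real.sqrt_nonneg _)) ((e4.trans e5).trans (Real.exp_le_exp.2 (by linarith)))
    (setIntegral_nonneg measurableSet_ball fun z _ => (h.p_pos _ y z ht).le) (by positivity)

theorem ga_gauss' : ∃ C, 0 < C ∧ ∀ r x y, 0 < r → κ * r ^ 2 ≤ 1 →
    D.p (r ^ 2) x y * μ.real (ball x r) ≤ C * Real.exp (-(dist x y ^ 2 / (C * r ^ 2))) := by
  obtain ⟨C, hC, h1⟩ := h.ga_gauss 1 one_pos
  refine ⟨C + 8 * Real.exp 2, by positivity, fun r x y hr hk => ?_⟩
  refine (h1 r x y hr hk).trans (le_trans (le_of_eq ?_) (gag_exp hC (sq_nonneg _) hr hk))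
  norm_num

end R2

end RC
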