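import Pool.Agent.P.MP_6472e5_gt.GaB
import Pool.Agent.P.MP_6472e5_gt.TbA

/-! The argument of Herbst. -/

set_option autoImplicit false
set_option linter.unusedSectionVars false

noncomputable section

namespace RC

open MeasureTheory Set Filter Topology Metric

variable {X : Type} [MetricSpace X] [SecondCountableTopology X] [MeasurableSpace X] [BorelSpace X]
  {μ : Measure X} {D : DS μ} {κ : ℝ} {n : ℕ}

namespace R2

variable (h : R2 D κ n)
include h

omit h in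
theorem gah_Φ {l M : ℝ} (hl : 0 ≤ l) (hM : 0 ≤ M) : ∃ (Φ Φ' : ℝ → ℝ) (K : NNReal),
    LipschitzWith K Φ ∧ Φ 0 = 0 ∧ (∀ a, HasDerivAt Φ (Φ' a) a) ∧ Continuous Φ' ∧
    ∀ a, a ≤ M → Φ a = Real.exp (l * a) - 1 ∧ Φ' a = l * Real.exp (l * a) := by
  have hc : Continuous fun b => l * Real.exp (l * min b M) := by fun_prop
  have hd : ∀ a, HasDerivAt (fun a => ∫ b in (0 : ℝ)..a, l * Real.exp (l * min b M))
      (l * Real.exp (l * min a M)) a := fun a => (hc.integral_hasStrictDerivAt 0 a).hasDerivAt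
  refine ⟨_, _, ⟨l * Real.exp (l * M), by positivity⟩, ?_, by simp, hd, hc, fun a ha =>
    ⟨?_, by rw [min_eq_left ha]⟩⟩
  · refine lipschitzWith_of_nnnorm_deriv_le (fun a => (hd a).differentiableAt) fun a => ?_
    rw [(hd a).deriv, ← NNReal.coe_le_coe, coe_nnnorm, Real.norm_of_nonneg (by positivity)]
    exact mul_le_mul_of_nonneg_left
      (Real.exp_le_exp.2 (mul_le_mul_of_nonneg_left (min_le_right _ _) hl)) hl
  · have e : ∫ b in (0 : ℝ)..a, l * Real.exp (l * min b M) =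
        ∫ b in (0 : ℝ)..a, Real.exp (l * b) * l := by
      refine intervalIntegral.integral_congr fun b hb => ?_
      have : b ≤ M := hb.2.trans (max_le hM ha)
      simp only [min_eq_left this, mul_comm]
    rw [e, intervalIntegral.integral_eq_sub_of_hasDerivAt (f := fun b => Real.exp (l * b))
      (fun b _ => by simpa using ((hasDerivAt_id b).const_mul l).exp)
      ((by fun_prop : Continuous fun b => Real.exp (l * b) * l).intervalIntegrable _ _)]
    simp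

omit h in
theorem gah_lim {l : Filter ℝ} {u v : ℝ → X → ℝ} {f g : X → ℝ}
    (hu : ∀ i, MemLp (u i) 2 μ) (hv : ∀ i, MemLp (v i) 2 μ) (hf : MemLp f 2 μ)
    (hg : MemLp g 2 μ) (h1 : Tendsto (fun i => n2 μ (u i - f)) l (𝓝 0))
    (h2 : Tendsto (fun i => n2 μ (v i - g)) l (𝓝 0)) :
    Tendsto (fun i => ∫ x, u i x * v i x ∂μ) l (𝓝 (∫ x, f x * g x ∂μ)) := by
  rw [tendsto_iff_norm_sub_tendsto_zero]
  refine squeeze_zero (fun _ => norm_nonneg _) (fun i => ?_) (tendsto_integral_mul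
    (Eventually.of_forall hu) (Eventually.of_forall hv) hf hg h1 h2)
  rw [← integral_sub (integrable_mul_of_memLp (hu i) (hv i)) (integrable_mul_of_memLp hf hg)]
  exact norm_integral_le_integral_norm _

omit h in
theorem gah_n2 {Φ : ℝ → ℝ} {K : NNReal} (hΦ : LipschitzWith K Φ) {a b : X → ℝ}
    (ha : MemLp a 2 μ) (hb : MemLp b 2 μ) :
    n2 μ ((fun x => Φ (a x)) - fun x => Φ (b x)) ≤ (K : ℝ) ^ 2 * n2 μ (a - b) := by
  rw [n2, n2, ← integral_const_mul]
  refine integral_mono_of_nonneg (ae_of_all _ fun x => sq_nonneg _)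
    ((ha.sub hb).integrable_sq.const_mul _) (ae_of_all _ fun x => ?_)
  have := pow_le_pow_left₀ dist_nonneg (hΦ.dist_le_mul (a x) (b x)) 2
  rwa [mul_pow, Real.dist_eq, Real.dist_eq, sq_abs, sq_abs] at this

theorem gah_step {φ ψ : X → ℝ} (hφ : LipB φ) (hL : LipschitzWith 1 φ) (hψ : LipB ψ)
    (h0 : ∀ x, 0 ≤ ψ x) {l M s r t : ℝ} (hM0 : 0 ≤ M) (hM : ∀ x, |φ x| ≤ M) (hs : 0 < s)
    (hr : 0 < r) (hrt : r ≤ t) {Φ Φ' : ℝ → ℝ}
    (hΦ : ∀ a, a ≤ M → Φ a = Real.exp (l * a) - 1 ∧ Φ' a = l * Real.exp (l * a)) :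
    ∫ x, (D.L s ψ x * Φ (D.P r φ x) + D.P s ψ x * (Φ' (D.P r φ x) * (-D.L r φ) x)) ∂μ ≤
      l ^ 2 * Real.exp (2 * κ * t) * (∫ x, D.P s ψ x * Φ (D.P r φ x) ∂μ + ∫ x, ψ x ∂μ) := by
  have hφ2 := D.lipB_memLp hφ
  have hψ2 := D.lipB_memLp hψ
  have hu := h.tb φ r hφ2 hφ.bdd hr
  have hin : ∀ᵐ x ∂μ, D.P r φ x ∈ Icc (-M) M := h.flow.markov φ r (-M) M hφ2 (by linarith) hM0
    (ae_of_all _ fun x => abs_le.1 (hM x))
  have he : ∀ a, HasDerivAt (fun a => Real.exp (l * a)) (Real.exp (l * a) * l) a := fun a => by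
    simpa using ((hasDerivAt_id a).const_mul l).exp
  have hE := h.toR1.tb_comp hu isCompact_Icc isOpen_univ (subset_univ _)
    ⟨by linarith, hM0⟩ hin (Φ := fun a => Real.exp (l * a) - 1)
    (Φ' := fun a => Real.exp (l * a) * l) (Φ'' := fun a => Real.exp (l * a) * l * l)
    (Φ''' := fun a => Real.exp (l * a) * l * l * l) (by simp) (fun a _ => (he a).sub_const 1)
    (fun a _ => (he a).mul_const l) (fun a _ => ((he a).mul_const l).mul_const l) (by fun_prop)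
  obtain ⟨hv, hlap, -⟩ := (h.flow.heat ψ hψ2).1 s hs
  have hv2 := D.memLp _ hv
  have hL2 := D.memLp _ (h.flow.L_mem ψ s hψ2 hs)
  have hg := hlap.green hE.lap hv hE.mem hL2 (D.memLp _ hE.memL)
  have i1 := integrable_mul_of_memLp hL2 (D.memLp _ hE.mem)
  have i2 := integrable_mul_of_memLp hv2 (D.memLp _ hE.memL)
  have i3 := integrable_mul_of_memLp hv2 (D.memLp _ hE.mem)
  have i4 := (h.flow.l1 ψ s hψ2 (D.lipB_int hψ)).1
  have i5 : Integrable (fun x => D.P s ψ x * (Real.exp (l * D.P r φ x) * l * D.L r φ x)) μ := by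
    refine integrable_mul_of_memLp hv2 (Bdd.mul_memLp ⟨Real.exp (|l| * M) * |l|, ?_⟩
      ((by fun_prop : Continuous fun a => Real.exp (l * a) * l).comp_aestronglyMeasurable
        (D.aesm hu.mem)) (D.memLp _ hu.memL))
    filter_upwards [hin] with x hx
    rw [abs_mul, abs_of_pos (Real.exp_pos _)]
    refine mul_le_mul_of_nonneg_right (Real.exp_le_exp.2 ((le_abs_self _).trans ?_)) (abs_nonneg _)
    rw [abs_mul]
    exact mul_le_mul_of_nonneg_left (abs_le.2 hx) (abs_nonneg _)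
  have e1 : ∫ x, (D.L s ψ x * Φ (D.P r φ x) + D.P s ψ x * (Φ' (D.P r φ x) * (-D.L r φ) x)) ∂μ =
      ∫ x, (D.L s ψ x * (Real.exp (l * D.P r φ x) - 1) -
        D.P s ψ x * (Real.exp (l * D.P r φ x) * l * D.L r φ x)) ∂μ := by
    refine integral_congr_ae ?_
    filter_upwards [hin] with x hx
    rw [(hΦ _ hx.2).1, (hΦ _ hx.2).2, Pi.neg_apply]
    ring
  have e2 : ∫ x, D.P s ψ x * Φ (D.P r φ x) ∂μ =
      ∫ x, D.P s ψ x * (Real.exp (l * D.P r φ x) - 1) ∂μ := by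
    refine integral_congr_ae ?_
    filter_upwards [hin] with x hx
    rw [(hΦ _ hx.2).1]
  rw [e1, e2, integral_sub i1 i5, hg, ← integral_sub i2 i5, ← h.cons ψ s hψ2 (D.lipB_int hψ),
    ← integral_add i3 i4, ← integral_const_mul]
  refine integral_mono_ae (i2.sub i5) ((i3.add i4).const_mul _) ?_
  filter_upwards [h.G_le' φ (D.lip φ hφ) r _ (DS.G_le_lipschitz hL) hr,
    h.flow.pos ψ s hψ2 (ae_of_all _ h0)] with x h1 h2
  have h3 : D.G (D.P r φ) (D.P r φ) x ≤ Real.exp (2 * κ * t) := by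
    have h4 : 0 ≤ 2 * r / n * D.L r φ x ^ 2 := by positivity
    have h5 : Real.exp (2 * κ * r) ≤ Real.exp (2 * κ * t) :=
      Real.exp_le_exp.2 (mul_le_mul_of_nonneg_left hrt (by have := h.κ_nonneg; positivity))
    rw [NNReal.coe_one, one_pow, mul_one] at h1
    linarith
  have h6 := mul_le_mul_of_nonneg_left h3
    (by positivity : 0 ≤ D.P s ψ x * Real.exp (l * D.P r φ x) * l ^ 2)
  linarith

theorem gah_weak {φ ψ : X → ℝ} (hφ : LipB φ) (hL : LipschitzWith 1 φ) (hψ : LipB ψ)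
    (h0 : ∀ x, 0 ≤ ψ x) {l M t : ℝ} (hM0 : 0 ≤ M) (hM : ∀ x, |φ x| ≤ M) (ht : 0 < t)
    {Φ Φ' : ℝ → ℝ} {K : NNReal} (hK : LipschitzWith K Φ) (hz : Φ 0 = 0)
    (hd : ∀ a, HasDerivAt Φ (Φ' a) a) (hc : Continuous Φ')
    (hΦ : ∀ a, a ≤ M → Φ a = Real.exp (l * a) - 1 ∧ Φ' a = l * Real.exp (l * a)) :
    ∫ x, D.P t ψ x * Φ (φ x) ∂μ + ∫ x, ψ x ∂μ ≤ Real.exp (l ^ 2 * Real.exp (2 * κ * t) * t) *
      (∫ x, ψ x * Φ (D.P t φ x) ∂μ + ∫ x, ψ x ∂μ) := by
  have hφ2 := D.lipB_memLp hφ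
  have hψ2 := D.lipB_memLp hψ
  set c := l ^ 2 * Real.exp (2 * κ * t) with hc'
  have d1 : ∀ s, s < t → DerL2 μ (fun s x => Φ (D.P (t - s) φ x))
      (fun x => Φ' (D.P (t - s) φ x) * (-D.L (t - s) φ) x) s := fun s hs =>
    (((h.flow.heat φ hφ2).1 (t - s) (by linarith)).2.2.rev).chain hK hz hd hc
  have m1 : ∀ s, MemLp (D.P s ψ) 2 μ := fun s => h.flow.memLp ψ s hψ2
  have m2 : ∀ s, MemLp (fun x => Φ (D.P s φ x)) 2 μ := fun s =>
    hK.comp_memLp hz (h.flow.memLp φ s hφ2)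
  have hec : Continuous fun s => Real.exp (-(c * s)) := by fun_prop
  have l0 : Tendsto (fun s => ∫ x, D.P s ψ x * Φ (D.P (t - s) φ x) ∂μ) (𝓝[>] 0)
      (𝓝 (∫ x, ψ x * Φ (D.P t φ x) ∂μ)) := by
    refine gah_lim m1 (fun s => m2 _) hψ2 (m2 t) (h.flow.heat ψ hψ2).2 ?_
    simpa only [sub_zero] using (d1 0 ht).cont.mono_left nhdsWithin_le_nhds
  have l1 : Tendsto (fun s => ∫ x, D.P s ψ x * Φ (D.P (t - s) φ x) ∂μ) (𝓝[<] t)
      (𝓝 (∫ x, D.P t ψ x * Φ (φ x) ∂μ)) := by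
    refine gah_lim m1 (fun s => m2 _) (m1 t) (hK.comp_memLp hz hφ2)
      (((h.flow.heat ψ hψ2).1 t ht).2.2.cont.mono_left nhdsWithin_le_nhds) ?_
    have h1 : Tendsto (fun s => t - s) (𝓝[<] t) (𝓝[>] 0) := by
      refine tendsto_nhdsWithin_iff.2 ⟨?_, eventually_mem_nhdsWithin.mono fun s hs =>
        sub_pos.2 (mem_Iio.1 hs)⟩
      have : Continuous fun s => t - s := by fun_prop
      simpa using (this.tendsto t).mono_left nhdsWithin_le_nhds
    have h2 := ((h.flow.heat φ hφ2).2.comp h1).const_mul ((K : ℝ) ^ 2)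
    rw [mul_zero] at h2
    exact squeeze_zero (fun _ => n2_nonneg _) (fun s => gah_n2 hK (h.flow.memLp φ _ hφ2) hφ2) h2
  have key := sub_ge_of_deriv' (A := fun _ => 0) (A' := fun _ => 0)
    (B := fun s => Real.exp (-(c * s)) * (∫ x, D.P s ψ x * Φ (D.P (t - s) φ x) ∂μ + ∫ x, ψ x ∂μ))
    ht tendsto_const_nhds tendsto_const_nhds
    (((hec.tendsto 0).mono_left nhdsWithin_le_nhds).mul (l0.add_const _))
    (((hec.tendsto t).mono_left nhdsWithin_le_nhds).mul (l1.add_const _))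
    (fun s _ => hasDerivAt_const s 0)
    (fun s hs => (((hasDerivAt_id s).const_mul c).neg.exp).mul
      (((((h.flow.heat ψ hψ2).1 s hs.1).2.2.mul (d1 s hs.2)).hasDerivAt).add_const _))
    fun s hs => by
      have := mul_le_mul_of_nonneg_left (h.gah_step hφ hL hψ h0 hM0 hM hs.1 (sub_pos.2 hs.2)
        (t := t) (by linarith [hs.1]) hΦ) (Real.exp_pos (-(c * s))).le
      simp only [Pi.neg_apply, id] at this ⊢
      linarith
  rw [mul_zero, neg_zero, Real.exp_zero, one_mul, sub_zero, sub_nonpos, Real.exp_neg,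
    inv_mul_le_iff₀ (Real.exp_pos _)] at key
  exact key

theorem ga_herbst {φ : X → ℝ} (hφ : LipB φ) (hL : LipschitzWith 1 φ) {l t : ℝ} (hl : 0 ≤ l)
    (ht : 0 < t) (x : X) : D.Pk t (fun y => Real.exp (l * φ y)) x ≤
      Real.exp (l * D.Pk t φ x + l ^ 2 * (t * Real.exp (2 * κ * t))) := by
  obtain ⟨M, hM⟩ := hφ.bound
  have hM0 : 0 ≤ M := (abs_nonneg _).trans (hM x)
  obtain ⟨Φ, Φ', K, hK, hz, hd, hc, hΦ⟩ := gah_Φ hl hM0
  have hφ2 := D.lipB_memLp hφ
  have hg2 : MemLp (fun y => Φ (φ y)) 2 μ := hK.comp_memLp hz hφ2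
  have e1 : D.Pk t (fun y => Real.exp (l * φ y)) x = D.Pk t (fun y => Φ (φ y)) x + 1 := by
    rw [← h.p_one t x ht, DS.Pk, DS.Pk, ← integral_add (h.ga_int2 hg2 ht x).1 (h.p_int t x ht)]
    congr 1
    funext y
    rw [(hΦ _ (abs_le.1 (hM y)).2).1]
    ring
  have hb := h.ga_abs_le (ae_of_all _ hM) ht
  have c1 := h.ga_pk_cont2 hg2 ht
  have c2 := h.ga_pk_cont2 hφ2 ht
  have c3 : Continuous fun x => Real.exp (l * D.Pk t φ x + l ^ 2 * (t * Real.exp (2 * κ * t))) := by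
    fun_prop
  rw [e1]
  refine le_of_ae_le h.pos isOpen_univ (c1.add continuous_const).continuousOn c3.continuousOn ?_ x
    trivial
  have m1 := D.memLp _ (h.ga_mem2 hg2 ht).1
  refine D.ae_le_of_test ((D.locInt_of_memLp m1).add
    (D.locInt_of_locBdd aestronglyMeasurable_const (Bdd.const 1).locBdd))
    (D.locInt_of_locBdd c3.aestronglyMeasurable (Bdd.locBdd
      ⟨Real.exp (l * M + l ^ 2 * (t * Real.exp (2 * κ * t))), ae_of_all _ fun y => ?_⟩))
    isOpen_univ fun ψ hψ _ h0 => ?_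
  · rw [abs_of_pos (Real.exp_pos _), Real.exp_le_exp, add_le_add_iff_right]
    exact mul_le_mul_of_nonneg_left (abs_le.1 (hb y)).2 hl
  have hψ2 := D.lipB_memLp hψ
  have hψ1 := D.lipB_int hψ
  have key := h.gah_weak hφ hL hψ h0 hM0 hM ht hK hz hd hc hΦ
  have m2 : MemLp (fun y => Φ (D.P t φ y)) 2 μ := hK.comp_memLp hz (h.flow.memLp φ t hφ2)
  rw [h.flow.symm ψ _ t hψ2 hg2, ← integral_add (integrable_mul_of_memLp hψ2 m2) hψ1,
    ← integral_add (integrable_mul_of_memLp hψ2 (h.flow.memLp _ t hg2)) hψ1,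
    ← integral_const_mul] at key
  refine (integral_congr_ae ?_).trans_le (key.trans_eq (integral_congr_ae ?_))
  · filter_upwards [h.ga_P_rep hg2 ht] with y hy
    rw [hy, Pi.add_apply, mul_add, mul_one]
  · filter_upwards [h.ga_P_rep hφ2 ht] with y hy
    rw [hy, (hΦ _ (abs_le.1 (hb y)).2).1, Real.exp_add, mul_comm t, ← mul_assoc (l ^ 2)]
    ring

theorem ga_tail {η t : ℝ} (hη : 0 < η) (ht : 0 < t) (x : X) {ρ : ℝ} (hρ : 0 ≤ ρ) :
    ∫ y in (ball x ρ)ᶜ, D.p t x y ∂μ ≤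
      Real.exp (n / (2 * η) - ρ ^ 2 / (4 * (1 + η) * (t * Real.exp (2 * κ * t)))) := by
  have hL : LipschitzWith 1 fun y => -max (ρ - dist x y) 0 := by
    refine LipschitzWith.neg (LipschitzWith.max_const ?_ 0)
    simpa using (LipschitzWith.const ρ).sub (LipschitzWith.dist_right x)
  have hz : ∀ y, y ∉ ball x ρ → -max (ρ - dist x y) 0 = 0 := fun y hy => by
    rw [mem_ball', not_lt] at hy
    rw [max_eq_right (by linarith), neg_zero]
  have hφ : LipB fun y => -max (ρ - dist x y) 0 :=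
    ⟨⟨1, hL⟩, (isBounded_ball (x := x) (r := ρ)).subset fun y hy => by_contra fun h' => hy (hz y h')⟩
  set σ := t * Real.exp (2 * κ * t) with hσ
  have hσ0 : 0 < σ := by positivity
  set l := ρ / (2 * (1 + η) * σ) with hl
  have hl0 : 0 ≤ l := by positivity
  have h1 := h.ga_herbst hφ hL hl0 ht x
  have h2 := (abs_le.1 (h.ga_lipB_sub hφ hL ht x)).2
  rw [dist_self, sub_zero, max_eq_left hρ, NNReal.coe_one, mul_one] at h2
  set m := √(2 * n * t) * Real.exp (κ * t) with hm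
  have hm2 : m ^ 2 = 2 * n * σ := by
    rw [hm, mul_pow, Real.sq_sqrt (by positivity), gab_exp, hσ]
    ring
  have h3 : ∫ y in (ball x ρ)ᶜ, D.p t x y ∂μ ≤
      D.Pk t (fun y => Real.exp (l * -max (ρ - dist x y) 0)) x := by
    have hi := (h.ga_int_bdd (f := fun y => Real.exp (l * -max (ρ - dist x y) 0))
      (Continuous.aestronglyMeasurable (by fun_prop)) ⟨1, ae_of_all _ fun y => by
        rw [abs_of_pos (Real.exp_pos _), Real.exp_le_one_iff]
        exact mul_nonpos_of_nonneg_of_nonpos hl0 (neg_nonpos.2 (le_max_right _ _))⟩ ht x).1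
    refine le_trans (le_of_eq (setIntegral_congr_fun measurableSet_ball.compl fun y hy => ?_))
      (setIntegral_le_integral hi (ae_of_all _ fun y =>
        mul_nonneg (h.p_pos t x y ht).le (Real.exp_pos _).le))
    simp only [hz y hy, mul_zero, Real.exp_zero, mul_one]
  refine h3.trans (h1.trans (Real.exp_le_exp.2 ?_))
  have h4 := mul_le_mul_of_nonneg_left h2 hl0
  have h5 : l * m ≤ η * l ^ 2 * σ + n / (2 * η) := by
    have e : (n : ℝ) / (2 * η) = m ^ 2 / (4 * η * σ) := by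
      rw [hm2]
      field_simp
      ring
    have : η * l ^ 2 * σ + m ^ 2 / (4 * η * σ) - l * m = (2 * η * σ * l - m) ^ 2 / (4 * η * σ) := by
      field_simp
      ring
    have h6 : 0 ≤ (2 * η * σ * l - m) ^ 2 / (4 * η * σ) := by positivity
    linarith
  have h7 : (1 + η) * l ^ 2 * σ - l * ρ = -(ρ ^ 2 / (4 * (1 + η) * σ)) := by
    rw [hl]
    field_simp
    ring
  rw [← hσ]
  linarith

end R2

end RC
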