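import Pool.Agent.P.MP_6472e5_gt.GaG
import Pool.Agent.P.MP_6472e5_gt.GaE

/-! Bounds for the derivatives of the kernel. -/

set_option autoImplicit false
set_option linter.unusedSectionVars false

noncomputable section

namespace RC

open MeasureTheory Set Filter Topology Metric

variable {X : Type} [MetricSpace X] [SecondCountableTopology X] [MeasurableSpace X] [BorelSpace X]
  {μ : Measure X} {D : DS μ} {κ : ℝ} {n : ℕ}

theorem gap_mono {a b r d e : ℝ} (ha : 0 < a) (hab : a ≤ b) (hr : 0 < r) (he : 0 ≤ e)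
    (hd : e ≤ d) : Real.exp (-(d ^ 2 / (a * r ^ 2))) ≤ Real.exp (-(e ^ 2 / (b * r ^ 2))) := by
  gcongr

theorem gap_half (a r d : ℝ) :
    Real.exp (-(d ^ 2 / (a * r ^ 2))) = Real.exp (-(d ^ 2 / (2 * a * r ^ 2))) ^ 2 := by
  rw [← Real.exp_nat_mul]
  congr 1
  push_cast
  ring

namespace R2

variable (h : R2 D κ n)
include h

theorem ga_dp_le : ∃ C, 0 < C ∧ ∀ r x y, 0 < r → κ * r ^ 2 ≤ 1 →
    |D.dp (r ^ 2) x y| * μ.real (ball x r) ≤
      C / r ^ 2 * Real.exp (-(dist x y ^ 2 / (C * r ^ 2))) := by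
  obtain ⟨A, hA, h1⟩ := h.ga_gauss'
  obtain ⟨B, hB, h2⟩ := h.ga_dbl
  obtain ⟨K, hK⟩ : ∃ K, K = √(2 * n * Real.exp 2 * B) * A := ⟨_, rfl⟩
  have hK0 : 0 ≤ K := by rw [hK]; positivity
  have hK2 : K ^ 2 = 2 * n * Real.exp 2 * B * A ^ 2 := by
    rw [hK, mul_pow, Real.sq_sqrt (by positivity)]
  refine ⟨K + 2 * A, by positivity, fun r x y hr hκ => ?_⟩
  have hs : 0 < (r / 2) ^ 2 := by positivity
  have ht : 0 < 3 / 4 * r ^ 2 := by positivity
  have hκ' : κ * (r / 2) ^ 2 ≤ 1 := by nlinarith [h.κ_nonneg]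
  have e : 3 / 4 * r ^ 2 + (r / 2) ^ 2 = r ^ 2 := by ring
  have hV := h.ga_real_pos x hr
  have a1 : D.dp (r ^ 2) x y = D.Lk (3 / 4 * r ^ 2) (D.p ((r / 2) ^ 2) x) y := by
    have b1 := h.dck _ _ y x ht hs
    rw [e] at b1
    rw [h.dp_symm _ x y (by positivity), b1]
    simp only [DS.Lk, h.p_symm _ x _ hs]
  have a2 : ∀ z, D.p ((r / 2) ^ 2) x z ≤ A * B / μ.real (ball x r) := fun z => by
    have b1 := h1 (r / 2) x z (by positivity) hκ'
    have b2 := h2 x (r / 2) (by positivity) hκ'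
    have b3 : Real.exp (-(dist x z ^ 2 / (A * (r / 2) ^ 2))) ≤ 1 :=
      Real.exp_le_one_iff.2 (neg_nonpos.2 (by positivity))
    rw [mul_div_cancel₀ _ two_ne_zero] at b2
    rw [le_div_iff₀ hV]
    calc _ ≤ D.p ((r / 2) ^ 2) x z * (B * μ.real (ball x (r / 2))) :=
          mul_le_mul_of_nonneg_left b2 (h.p_pos _ _ _ hs).le
      _ = D.p ((r / 2) ^ 2) x z * μ.real (ball x (r / 2)) * B := by ring
      _ ≤ A * B := mul_le_mul_of_nonneg_right (b1.trans (mul_le_of_le_one_right hA.le b3)) hB.le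
  have a3 : D.Pk (3 / 4 * r ^ 2) (fun z => D.p ((r / 2) ^ 2) x z ^ 2) y ≤
      A * B / μ.real (ball x r) * D.p (r ^ 2) x y := by
    have b1 := h.ck _ _ y x ht hs
    rw [e] at b1
    rw [h.p_symm _ x y (by positivity), b1, ← integral_const_mul]
    simp only [h.p_symm _ _ x hs]
    refine integral_mono_of_nonneg (Eventually.of_forall fun z =>
      mul_nonneg (h.p_pos _ _ _ ht).le (sq_nonneg _))
      ((h.ga_int2 (h.ga_memLp hs x).1 ht y).1.const_mul _) (Eventually.of_forall fun z => ?_)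
    have := mul_le_mul_of_nonneg_left (a2 z)
      (mul_pos (h.p_pos _ y z ht) (h.p_pos _ x z hs)).le
    simp only
    linarith
  have a4 := h.ga_lk_sq (h.ga_memLp hs x).1 ht y
  have a5 : n * Real.exp (2 * κ * (3 / 4 * r ^ 2)) / (3 / 4 * r ^ 2) ^ 2 ≤
      2 * n * Real.exp 2 / (r ^ 2) ^ 2 := by
    have b1 : Real.exp (2 * κ * (3 / 4 * r ^ 2)) ≤ Real.exp 2 := Real.exp_le_exp.2 (by linarith)
    have b2 : (n : ℝ) * Real.exp 2 / (3 / 4 * r ^ 2) ^ 2 ≤ 2 * n * Real.exp 2 / (r ^ 2) ^ 2 := by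
      rw [div_le_div_iff₀ (by positivity) (by positivity)]
      have : 0 ≤ (n : ℝ) * Real.exp 2 * (r ^ 2) ^ 2 := by positivity
      linarith
    exact le_trans (by gcongr) b2
  have a6 := h1 r x y hr hκ
  have a7 : D.dp (r ^ 2) x y ^ 2 ≤
      2 * n * Real.exp 2 / (r ^ 2) ^ 2 * (A * B / μ.real (ball x r) * D.p (r ^ 2) x y) := by
    rw [a1]
    exact a4.trans (mul_le_mul a5 a3 (h.ga_nonneg (Eventually.of_forall fun _ => sq_nonneg _) ht y)
      (by positivity))
  have a8 : |D.dp (r ^ 2) x y| * μ.real (ball x r) ≤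
      K / r ^ 2 * Real.exp (-(dist x y ^ 2 / (2 * A * r ^ 2))) := by
    refine le_of_sq_le_sq ?_ (by positivity)
    rw [mul_pow, sq_abs, mul_pow, ← gap_half, div_pow, hK2]
    calc _ ≤ 2 * n * Real.exp 2 / (r ^ 2) ^ 2 * (A * B / μ.real (ball x r) * D.p (r ^ 2) x y) *
          μ.real (ball x r) ^ 2 := mul_le_mul_of_nonneg_right a7 (sq_nonneg _)
      _ = 2 * n * Real.exp 2 / (r ^ 2) ^ 2 * (A * B) * (D.p (r ^ 2) x y * μ.real (ball x r)) := by
          field_simp
      _ ≤ 2 * n * Real.exp 2 / (r ^ 2) ^ 2 * (A * B) *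
          (A * Real.exp (-(dist x y ^ 2 / (A * r ^ 2)))) :=
          mul_le_mul_of_nonneg_left a6 (by positivity)
      _ = _ := by ring
  refine a8.trans (mul_le_mul (by gcongr; linarith)
    (gap_mono (by positivity) (by linarith) hr dist_nonneg le_rfl) (by positivity) (by positivity))

theorem ga_plip : ∃ C, 0 < C ∧ ∀ r x y y', 0 < r → κ * r ^ 2 ≤ 1 →
    |D.p (r ^ 2) x y - D.p (r ^ 2) x y'| * μ.real (ball x r) ≤
      C * (dist y y' / r) * Real.exp (-(min (dist x y) (dist x y') ^ 2 / (C * r ^ 2))) := by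
  obtain ⟨A, hA, h1⟩ := h.ga_gauss'
  obtain ⟨B, hB, h2⟩ := h.ga_dp_le
  obtain ⟨K, hK⟩ : ∃ K, K = A + B := ⟨_, rfl⟩
  have hK0 : 0 < K := by rw [hK]; positivity
  obtain ⟨M, hM⟩ : ∃ M, M = K * (2 + n) * Real.exp (1 / K) := ⟨_, rfl⟩
  have hM0 : 0 < M := by rw [hM]; positivity
  refine ⟨2 * K + M, by positivity, fun r x y y' hr hκ => ?_⟩
  have ht : 0 < r ^ 2 := by positivity
  have hV := h.ga_real_pos x hr
  have hm : 0 ≤ min (dist x y) (dist x y') := le_min dist_nonneg dist_nonneg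
  rcases le_or_gt (r / 2) (dist y y') with hd | hd
  · have a1 := (h1 r x y hr hκ).trans (mul_le_mul_of_nonneg_left
      (gap_mono hA (b := 2 * K + M) (by linarith) hr hm (min_le_left _ _)) hA.le)
    have a2 := (h1 r x y' hr hκ).trans (mul_le_mul_of_nonneg_left
      (gap_mono hA (b := 2 * K + M) (by linarith) hr hm (min_le_right _ _)) hA.le)
    have a3 := mul_pos (h.p_pos _ x y ht) hV
    have a4 := mul_pos (h.p_pos _ x y' ht) hV
    have a5 : A ≤ (2 * K + M) * (dist y y' / r) := by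
      have : 1 / 2 ≤ dist y y' / r := by
        rw [le_div_iff₀ hr]
        linarith
      nlinarith
    refine le_trans ?_ (mul_le_mul_of_nonneg_right a5 (Real.exp_pos _).le)
    rw [← abs_of_pos hV, ← abs_mul, sub_mul, abs_le]
    constructor <;> linarith
  obtain ⟨E, hE⟩ : ∃ E, E = Real.exp (-(dist x y ^ 2 / (2 * K * r ^ 2))) := ⟨_, rfl⟩
  have hE0 : 0 < E := hE ▸ Real.exp_pos _
  have a1 := DS.lip_of_G_le h.pos h.geo h.s2l (h.p_tb _ x ht).lap.1 (h.ga_cont' ht x) y r
    (L := M / r * E / μ.real (ball x r)) (by positivity) (by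
      filter_upwards [h.ly _ x ht] with z hz hz'
      obtain ⟨F, hF⟩ : ∃ F, F = Real.exp (1 / K) * E := ⟨_, rfl⟩
      have hF0 : 0 < F := by rw [hF]; positivity
      have b0 : Real.exp (-(dist x z ^ 2 / (K * r ^ 2))) ≤ F := by
        rw [hF, hE, ← Real.exp_add, Real.exp_le_exp]
        have c1 : dist x y ≤ dist x z + r := by linarith [dist_triangle x z y, mem_ball.1 hz']
        have c2 : dist x y ^ 2 ≤ (dist x z + r) ^ 2 := by gcongr
        have c3 : dist x y ^ 2 / (2 * K * r ^ 2) ≤ (2 * dist x z ^ 2 + 2 * r ^ 2) / (2 * K * r ^ 2) := by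
          gcongr
          nlinarith [sq_nonneg (dist x z - r)]
        have c4 : (2 * dist x z ^ 2 + 2 * r ^ 2) / (2 * K * r ^ 2) =
            dist x z ^ 2 / (K * r ^ 2) + 1 / K := by field_simp
        linarith
      have b1 : D.p (r ^ 2) x z ≤ K * F / μ.real (ball x r) := by
        rw [le_div_iff₀ hV]
        exact (h1 r x z hr hκ).trans (mul_le_mul (by linarith)
          ((gap_mono hA (by linarith) hr dist_nonneg le_rfl).trans b0) (by positivity) hK0.le)
      have b2 : D.dp (r ^ 2) x z ≤ K / r ^ 2 * F / μ.real (ball x r) := by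
        rw [le_div_iff₀ hV]
        refine (mul_le_mul_of_nonneg_right (le_abs_self _) hV.le).trans ((h2 r x z hr hκ).trans
          (mul_le_mul (by gcongr; linarith)
          ((gap_mono hB (by linarith) hr dist_nonneg le_rfl).trans b0) (by positivity)
          (by positivity)))
      have hκ0 := h.κ_nonneg
      have b3 : 1 / r ^ 2 + κ + κ ^ 2 * r ^ 2 / 3 ≤ 3 / r ^ 2 := by
        rw [le_div_iff₀ ht]
        have c1 : 0 ≤ κ * r ^ 2 := by positivity
        have c2 : (1 / r ^ 2 + κ + κ ^ 2 * r ^ 2 / 3) * r ^ 2 =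
            1 + κ * r ^ 2 + (κ * r ^ 2) ^ 2 / 3 := by field_simp
        nlinarith
      have b4 : (1 + 2 * κ * r ^ 2 / 3) * D.dp (r ^ 2) x z ≤
          2 * (K / r ^ 2 * F / μ.real (ball x r)) :=
        (mul_le_mul_of_nonneg_left b2 (by positivity)).trans
          (mul_le_mul_of_nonneg_right (by linarith) (by positivity))
      have b5 := (h.p_pos _ x z ht).le
      have b6 : (n : ℝ) / 2 * (1 / r ^ 2 + κ + κ ^ 2 * r ^ 2 / 3) * D.p (r ^ 2) x z ≤
          n / 2 * (3 / r ^ 2) * (K * F / μ.real (ball x r)) := by gcongr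
      calc _ ≤ _ := hz
        _ ≤ D.p (r ^ 2) x z * (2 * (K / r ^ 2 * F / μ.real (ball x r)) +
            n / 2 * (3 / r ^ 2) * (K * F / μ.real (ball x r))) :=
            mul_le_mul_of_nonneg_left (add_le_add b4 b6) b5
        _ ≤ K * F / μ.real (ball x r) * (2 * (K / r ^ 2 * F / μ.real (ball x r)) +
            n / 2 * (3 / r ^ 2) * (K * F / μ.real (ball x r))) :=
            mul_le_mul_of_nonneg_right b1 (by positivity)
        _ = (2 + 3 / 2 * n) * (K * F / (r * μ.real (ball x r))) ^ 2 := by field_simp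
        _ ≤ (2 + n) ^ 2 * (K * F / (r * μ.real (ball x r))) ^ 2 :=
            mul_le_mul_of_nonneg_right (by nlinarith [n.cast_nonneg (α := ℝ)]) (sq_nonneg _)
        _ = _ := by
            rw [hM, hF]
            field_simp)
    y (mem_ball_self (by positivity)) y' (mem_ball'.2 hd)
  calc _ ≤ M / r * E / μ.real (ball x r) * dist y y' * μ.real (ball x r) :=
        mul_le_mul_of_nonneg_right a1 hV.le
    _ = M * (dist y y' / r) * E := by field_simp
    _ ≤ _ := mul_le_mul (by gcongr; linarith) (hE ▸ gap_mono (by positivity) (by linarith) hr hm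
        (min_le_left _ _)) hE0.le (by positivity)

end R2

end RC
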