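import Pool.Agent.P.MP_6472e5_gt.GaA

/-! The almost monotone quantity, and properness. -/

set_option autoImplicit false
set_option linter.unusedSectionVars false

noncomputable section

namespace RC

open MeasureTheory Set Filter Topology Metric

variable {X : Type} [MetricSpace X] [SecondCountableTopology X] [MeasurableSpace X] [BorelSpace X]
  {μ : Measure X} {D : DS μ} {κ : ℝ} {n : ℕ}

namespace R2

variable (h : R2 D κ n)
include h

theorem gat_harn {s r : ℝ} (hs : 0 < s) (hr : s < r) (z x y : X) :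
    s ^ n * D.p (s ^ 2) z x ≤ r ^ n * D.p (r ^ 2) z y *
      Real.exp (n * κ * r ^ 2 + (1 + κ * r ^ 2) * dist x y ^ 2 / (4 * (r ^ 2 - s ^ 2))) := by
  have hr0 := hs.trans hr
  have a := h.harn (s ^ 2) (r ^ 2) z x y (by positivity) (by gcongr)
  have e : √((r ^ 2 / s ^ 2) ^ n) = r ^ n / s ^ n := by
    rw [← div_pow, ← pow_mul, mul_comm, pow_mul, Real.sqrt_sq (by positivity), div_pow]
  rw [e] at a
  refine (mul_le_mul_of_nonneg_left a (by positivity)).trans_eq ?_
  field_simp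

theorem gat_exp (c : ℝ) : Tendsto (fun s : ℝ => Real.exp (c * s ^ 2)) (𝓝[>] 0) (𝓝 1) := by
  have : Continuous fun s : ℝ => Real.exp (c * s ^ 2) := by fun_prop
  simpa using (this.tendsto 0).mono_left nhdsWithin_le_nhds

theorem ga_Θ_mono (x : X) (r s : ℝ) (hr : 0 < r) (hs : r ≤ s) :
    D.Θ n x r ≤ Real.exp (n * κ * s ^ 2) * D.Θ n x s := by
  rcases hs.eq_or_lt with rfl | hs
  · refine le_mul_of_one_le_left (mul_nonneg (by positivity) (h.p_pos _ x x (by positivity)).le)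
      (Real.one_le_exp ?_)
    have := h.κ_nonneg
    positivity
  · have a := h.gat_harn hr hs x x x
    rw [dist_self, zero_pow two_ne_zero, mul_zero, zero_div, add_zero, mul_comm _ (Real.exp _)] at a
    exact a

theorem ga_Θ_lim (x : X) : Tendsto (D.Θ n x) (𝓝[>] 0) (𝓝 (D.Θ0 n x)) := by
  refine tendsto_nhds_limUnder ⟨sInf ((fun s => Real.exp (n * κ * s ^ 2) * D.Θ n x s) '' Ioi 0),
    tendsto_order.2 ⟨fun a ha => ?_, fun a ha => ?_⟩⟩
  · have hb : BddBelow ((fun s => Real.exp (n * κ * s ^ 2) * D.Θ n x s) '' Ioi 0) := by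
      refine ⟨0, ?_⟩
      rintro _ ⟨s, hs, rfl⟩
      have hs0 : 0 < s := hs
      exact mul_nonneg (Real.exp_pos _).le
        (mul_nonneg (by positivity) (h.p_pos _ x x (by positivity)).le)
    have l := (h.gat_exp (n * κ)).const_mul a
    rw [mul_one] at l
    filter_upwards [l.eventually (gt_mem_nhds ha), self_mem_nhdsWithin] with r h1 hr
    have h2 := h1.trans_le (csInf_le hb ⟨r, hr, rfl⟩)
    rw [mul_comm] at h2
    exact lt_of_mul_lt_mul_left h2 (Real.exp_pos _).le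
  · obtain ⟨_, ⟨s, hs, rfl⟩, h1⟩ := exists_lt_of_csInf_lt (nonempty_Ioi.image _) ha
    filter_upwards [Ioo_mem_nhdsGT hs] with r hr
    exact (h.ga_Θ_mono x r s hr.1 hr.2.le).trans_lt h1

theorem ga_Θ0_le (x : X) (s : ℝ) (hs : 0 < s) :
    D.Θ0 n x ≤ Real.exp (n * κ * s ^ 2) * D.Θ n x s := by
  refine le_of_tendsto (h.ga_Θ_lim x) ?_
  filter_upwards [Ioo_mem_nhdsGT hs] with r hr
  exact h.ga_Θ_mono x r s hr.1 hr.2.le

theorem ga_Θ0_usc : UpperSemicontinuous (D.Θ0 n) := by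
  intro x c hc
  have l := (h.gat_exp (n * κ)).mul (h.ga_Θ_lim x)
  rw [one_mul] at l
  obtain ⟨s, h1, hs⟩ := ((l.eventually (gt_mem_nhds hc)).and self_mem_nhdsWithin).exists
  have hs0 : 0 < s := hs
  have c1 : Continuous fun y => D.p (s ^ 2) y y :=
    (h.ga_cont (t := s ^ 2) (by positivity)).comp (continuous_id.prodMk continuous_id)
  have c2 : Continuous fun y => Real.exp (n * κ * s ^ 2) * D.Θ n y s :=
    continuous_const.mul (continuous_const.mul c1)
  filter_upwards [(c2.tendsto x).eventually (gt_mem_nhds h1)] with y hy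
  exact (h.ga_Θ0_le y s hs0).trans_lt hy

theorem ga_lower (r : ℝ) (x y : X) (hr : 0 < r) : D.Θ0 n x *
    Real.exp (-(n * κ * r ^ 2 + (1 + κ * r ^ 2) * dist x y ^ 2 / (4 * r ^ 2))) ≤
      r ^ n * D.p (r ^ 2) x y := by
  have c : ContinuousAt (fun s : ℝ => r ^ n * D.p (r ^ 2) x y *
      Real.exp (n * κ * r ^ 2 + (1 + κ * r ^ 2) * dist x y ^ 2 / (4 * (r ^ 2 - s ^ 2)))) 0 := by
    refine continuousAt_const.mul (Real.continuous_exp.continuousAt.comp
      (continuousAt_const.add (continuousAt_const.div (by fun_prop) ?_)))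
    rw [zero_pow two_ne_zero, sub_zero]
    positivity
  have a := le_of_tendsto_of_tendsto (h.ga_Θ_lim x) (c.tendsto.mono_left nhdsWithin_le_nhds) (by
    filter_upwards [Ioo_mem_nhdsGT hr] with s hs
    exact h.gat_harn hs.1 hs.2 x x y)
  rw [zero_pow two_ne_zero, sub_zero] at a
  rw [Real.exp_neg, ← div_eq_mul_inv, div_le_iff₀ (Real.exp_pos _)]
  exact a

theorem ga_proper [CompleteSpace X] {C : ℝ} (hC : 0 < C) (hv : ∀ x r, 0 < r → κ * r ^ 2 ≤ 1 →
    C⁻¹ ≤ D.p (r ^ 2) x x * μ.real (ball x r)) : ProperSpace X := by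
  refine ⟨fun x R => TotallyBounded.isCompact_of_isClosed ?_ isClosed_closedBall⟩
  refine Metric.totallyBounded_iff.2 fun ε hε => ?_
  by_contra hn
  have hκ := h.κ_nonneg
  obtain ⟨u, hu⟩ := seq_of_forall_finite_exists
    (P := fun c t => c ∈ closedBall x R ∧ c ∉ ⋃ y ∈ t, ball y ε) fun t ht =>
      not_subset.1 fun hs => hn ⟨t, ht, hs⟩
  have sep : ∀ i j, i < j → ε ≤ dist (u j) (u i) := fun i j hij =>
    not_lt.1 fun hd => (hu j).2 (mem_biUnion ⟨i, hij, rfl⟩ hd)
  obtain ⟨r, hr, hr1, hr2⟩ : ∃ r : ℝ, 0 < r ∧ r ≤ ε / 2 ∧ κ * r ^ 2 ≤ 1 := by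
    refine ⟨min (ε / 2) (κ + 1)⁻¹, by positivity, min_le_left _ _, ?_⟩
    calc κ * min (ε / 2) (κ + 1)⁻¹ ^ 2 ≤ (κ + 1) ^ 2 * (κ + 1)⁻¹ ^ 2 := by
          gcongr
          · nlinarith
          · exact min_le_right _ _
      _ = 1 := by field_simp
  obtain ⟨B, hB⟩ := h.p_bdd (2 * r ^ 2) x (by positivity)
  have hB0 : 0 < B := (h.p_pos _ x x (by positivity)).trans_le (hB x)
  obtain ⟨K, hK, hK'⟩ : ∃ K : ℝ, 0 < K ∧ ∀ z ∈ closedBall x R, D.p (r ^ 2) z z ≤ K := by
    refine ⟨B * √((2 * r ^ 2 / r ^ 2) ^ n) * Real.exp (n * κ * (2 * r ^ 2) +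
      (1 + κ * (2 * r ^ 2)) * R ^ 2 / (4 * (2 * r ^ 2 - r ^ 2))), by positivity, fun z hz => ?_⟩
    have h2 : 0 < r ^ 2 := by positivity
    have h3 : 0 < 2 * r ^ 2 - r ^ 2 := by linarith
    refine (h.harn (r ^ 2) (2 * r ^ 2) z z x h2 (by linarith)).trans ?_
    rw [h.p_symm _ z x (by positivity)]
    have h4 : dist z x ≤ R := hz
    gcongr
    exact hB z
  have fin := Measure.finite_const_le_meas_of_disjoint_iUnion μ
    (ε := ENNReal.ofReal (C⁻¹ / K)) (ENNReal.ofReal_pos.2 (by positivity))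
    (As := fun i => ball (u i) r) (fun _ => measurableSet_ball)
    (pairwise_disjoint_on _ |>.2 fun i j hij => ball_disjoint_ball (by
      rw [dist_comm]
      linarith [sep i j hij]))
    (ne_top_of_le_ne_top (D.fin x (R + r)).ne (measure_mono (iUnion_subset fun i y hy => by
      have a : dist (u i) x ≤ R := (hu i).1
      have b : dist y (u i) < r := hy
      exact mem_ball.2 (by linarith [dist_triangle y (u i) x]))))
  refine infinite_univ (fin.subset fun i _ => ?_)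
  refine ENNReal.ofReal_le_of_le_toReal ?_
  rw [div_le_iff₀ hK, mul_comm]
  exact (hv (u i) r hr hr2).trans (mul_le_mul_of_nonneg_right (hK' _ (hu i).1) measureReal_nonneg)

end R2

end RC
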