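import Pool.Agent.P.MP_6472e5_gt.GaB
import Pool.Agent.P.MP_6472e5_gt.TbA

/-! Good cutoff functions. -/

set_option autoImplicit false
set_option linter.unusedSectionVars false

noncomputable section

namespace RC

open MeasureTheory Set Filter Topology Metric

variable {X : Type} [MetricSpace X] [SecondCountableTopology X] [MeasurableSpace X] [BorelSpace X]
  {μ : Measure X} {D : DS μ} {κ : ℝ} {n : ℕ}

theorem gaz_eta : ∃ (η η1 η2 η3 : ℝ → ℝ) (M : ℝ), 0 < M ∧ (∀ t, HasDerivAt η (η1 t) t) ∧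
    (∀ t, HasDerivAt η1 (η2 t) t) ∧ (∀ t, HasDerivAt η2 (η3 t) t) ∧ Continuous η3 ∧
    (∀ a, a ≤ 1 / 4 → η a = 0) ∧ (∀ a, 3 / 4 ≤ a → η a = 1) ∧ (∀ a, 0 ≤ η a ∧ η a ≤ 1) ∧
    (∀ a ∈ Icc (-1 : ℝ) 1, |η1 a| ≤ M ∧ |η2 a| ≤ M) ∧
    ∀ a ∈ Icc (-1 : ℝ) 1, ∀ b ∈ Icc (-1 : ℝ) 1, |η a - η b| ≤ M * |a - b| := by
  have h0 : ContDiff ℝ 3 (fun a : ℝ => Real.smoothTransition (2 * a - 1 / 2)) :=
    (Real.smoothTransition.contDiff (n := 3)).comp
      ((contDiff_const.mul contDiff_id).sub contDiff_const)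
  generalize hη : (fun a : ℝ => Real.smoothTransition (2 * a - 1 / 2)) = η at h0
  have h1 : ContDiff ℝ 2 (deriv η) := ContDiff.deriv' (n := 2) (by exact_mod_cast h0)
  have h2 : ContDiff ℝ 1 (deriv (deriv η)) := ContDiff.deriv' (n := 1) (by exact_mod_cast h1)
  have h3 : Continuous (deriv (deriv (deriv η))) := h2.continuous_deriv le_rfl
  have d1 : ∀ t, HasDerivAt η (deriv η t) t := fun t =>
    (h0.differentiable (by norm_num) t).hasDerivAt
  obtain ⟨M1, hM1⟩ := (isCompact_Icc (a := (-1 : ℝ)) (b := 1)).exists_bound_of_continuousOn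
    h1.continuous.continuousOn
  obtain ⟨M2, hM2⟩ := (isCompact_Icc (a := (-1 : ℝ)) (b := 1)).exists_bound_of_continuousOn
    h2.continuous.continuousOn
  have hb : ∀ a ∈ Icc (-1 : ℝ) 1, |deriv η a| ≤ max 1 (max M1 M2) := fun a ha =>
    (hM1 a ha).trans ((le_max_left _ _).trans (le_max_right _ _))
  refine ⟨η, deriv η, deriv (deriv η), deriv (deriv (deriv η)), max 1 (max M1 M2),
    lt_max_of_lt_left one_pos, d1, fun t => (h1.differentiable (by norm_num) t).hasDerivAt,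
    fun t => (h2.differentiable (by norm_num) t).hasDerivAt, h3, fun a ha => ?_, fun a ha => ?_,
    fun a => ?_, fun a ha => ⟨hb a ha,
      (hM2 a ha).trans ((le_max_right _ _).trans (le_max_right _ _))⟩, fun a ha b hb' => ?_⟩
  · rw [← hη]
    exact Real.smoothTransition.zero_of_nonpos (by linarith)
  · rw [← hη]
    exact Real.smoothTransition.one_of_one_le (by linarith)
  · rw [← hη]
    exact ⟨Real.smoothTransition.nonneg _, Real.smoothTransition.le_one _⟩
  · exact (convex_Icc (-1 : ℝ) 1).norm_image_sub_le_of_norm_hasDerivWithin_le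
      (fun t _ => (d1 t).hasDerivWithinAt) hb hb' ha

theorem gaz_clamp {a c : ℝ} (hc : 0 ≤ c) :
    |max (-c) (min c a)| ≤ c ∧ (|a| ≤ c → a = max (-c) (min c a)) := by
  refine ⟨abs_le.2 ⟨le_max_left _ _, max_le (by linarith) (min_le_left _ _)⟩, fun h => ?_⟩
  rw [min_eq_right (abs_le.1 h).2, max_eq_right (abs_le.1 h).1]

namespace R2

variable (h : R2 D κ n)
include h

theorem ga_cut : ∃ C, 0 < C ∧ ∀ (S : Set X) (s : ℝ), Bornology.IsBounded S → 0 < s →
    κ * s ^ 2 ≤ 1 →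
    ∃ ζ Lζ, D.Tb ζ Lζ ∧ D.TF (thickening (2 * s) S) ζ Lζ ∧ (∀ x, ζ x ≤ 1) ∧
      (∀ x ∈ thickening s S, ζ x = 1) ∧ (∀ x y, |ζ x - ζ y| ≤ C / s * dist x y) ∧
      ∀ x, |Lζ x| ≤ C / s ^ 2 := by
  obtain ⟨η, η1, η2, η3, M, hM, d1, d2, d3, c3, e0, e1, e01, hb, hlip⟩ := gaz_eta
  have hn : (1 : ℝ) ≤ n := by exact_mod_cast h.n_pos
  refine ⟨M * (180 * n + 36), by positivity, fun S s hS hs hκ => ?_⟩
  obtain ⟨χ, hχ, χ01, χ1, χ0, χL⟩ := exists_cutoff hS hs.le (show s < 3 * s / 2 by linarith)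
  obtain ⟨L, hLe⟩ : ∃ L : NNReal, (L : ℝ) = 2 / s := ⟨⟨2 / s, by positivity⟩, rfl⟩
  have hL : LipschitzWith L χ := by
    refine LipschitzWith.of_dist_le_mul fun x y => (χL x y).trans (le_of_eq ?_)
    rw [hLe, show 3 * s / 2 - s = s / 2 by ring]
    field_simp
  obtain ⟨t, hte⟩ : ∃ t : ℝ, t = s ^ 2 / (1800 * n) := ⟨_, rfl⟩
  have ht : 0 < t := by rw [hte]; positivity
  have hE : Real.exp (κ * t) ≤ 3 := by
    have h1 : κ * t ≤ 1 := by
      rw [hte, ← mul_div_assoc, div_le_one (by positivity)]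
      linarith
    exact (Real.exp_le_exp.2 h1).trans (Real.exp_one_lt_d9.le.trans (by norm_num))
  have hEL : Real.exp (κ * t) * L ≤ 6 / s := by
    rw [hLe, show 6 / s = 3 * (2 / s) by ring]
    exact mul_le_mul_of_nonneg_right hE (by positivity)
  have hEL0 : 0 ≤ Real.exp (κ * t) * L := by positivity
  have q1 : √(2 * n * t) = s / 30 := by
    rw [show 2 * n * t = (s / 30) ^ 2 by rw [hte]; field_simp; ring]
    exact Real.sqrt_sq (by positivity)
  have q2 : √(n / (2 * t)) = 30 * n / s := by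
    rw [show n / (2 * t) = (30 * n / s) ^ 2 by rw [hte]; field_simp; ring]
    exact Real.sqrt_sq (by positivity)
  obtain ⟨uG, uL, uk⟩ := h.ga_lipB hχ hL ht
  have usub : ∀ x, |D.Pk t χ x - χ x| ≤ 1 / 5 := fun x => by
    refine (h.ga_lipB_sub hχ hL ht x).trans ?_
    rw [q1, mul_assoc]
    refine (mul_le_mul_of_nonneg_left hEL (by positivity)).trans (le_of_eq ?_)
    field_simp
    ring
  have uin : ∀ x, D.Pk t χ x ∈ Icc (-1 : ℝ) 1 := fun x =>
    abs_le.1 (h.ga_abs_le (Eventually.of_forall fun y => by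
      rw [abs_of_nonneg (χ01 y).1]; exact (χ01 y).2) ht x)
  have hm : MemLp χ 2 μ := D.lipB_memLp hχ
  have T0 : D.Tb (D.Pk t χ) (D.Lk t χ) :=
    (h.tb χ t hm hχ.bdd ht).congr (h.ga_P_rep hm ht) (h.L_rep χ t hm ht)
  have T1 := h.toR1.tb_comp T0 isCompact_Icc isOpen_univ (subset_univ _)
    (show (0 : ℝ) ∈ Icc (-1 : ℝ) 1 by norm_num) (Eventually.of_forall uin)
    (e0 0 (by norm_num)) (fun t _ => d1 t) (fun t _ => d2 t) (fun t _ => d3 t) c3.continuousOn
  have hC0 : 0 ≤ M * (180 * n + 36) / s ^ 2 := by positivity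
  have T2 : D.Tb (fun x => η (D.Pk t χ x)) (fun x => max (-(M * (180 * n + 36) / s ^ 2))
      (min (M * (180 * n + 36) / s ^ 2) (η1 (D.Pk t χ x) * D.Lk t χ x +
        η2 (D.Pk t χ x) * D.G (D.Pk t χ) (D.Pk t χ) x))) := by
    refine T1.congr EventuallyEq.rfl ?_
    filter_upwards [uG, DS.G_nonneg T0.W] with x a b
    refine (gaz_clamp hC0).2 ?_
    obtain ⟨b1, b2⟩ := hb _ (uin x)
    have k1 : |D.Lk t χ x| ≤ 180 * n / s ^ 2 := by
      refine (uk x).trans ?_
      rw [q2, mul_assoc]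
      refine (mul_le_mul_of_nonneg_left hEL (by positivity)).trans (le_of_eq ?_)
      field_simp
      ring
    have k2 : |D.G (D.Pk t χ) (D.Pk t χ) x| ≤ 36 / s ^ 2 := by
      rw [abs_of_nonneg b]
      refine a.trans ((pow_le_pow_left₀ hEL0 hEL 2).trans (le_of_eq ?_))
      ring
    refine (abs_add_le _ _).trans ?_
    rw [abs_mul, abs_mul]
    refine (add_le_add (mul_le_mul b1 k1 (abs_nonneg _) hM.le)
      (mul_le_mul b2 k2 (abs_nonneg _) hM.le)).trans (le_of_eq ?_)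
    ring
  have hζL : ∀ x y, |η (D.Pk t χ x) - η (D.Pk t χ y)| ≤ M * (180 * n + 36) / s * dist x y := by
    intro x y
    refine (hlip _ (uin x) _ (uin y)).trans ?_
    have k1 : |D.Pk t χ x - D.Pk t χ y| ≤ (180 * n + 36) / s * dist x y := by
      refine (uL x y).trans (mul_le_mul_of_nonneg_right (hEL.trans ?_) dist_nonneg)
      exact div_le_div_of_nonneg_right (by linarith) hs.le
    refine (mul_le_mul_of_nonneg_left k1 hM.le).trans (le_of_eq ?_)
    ring
  have hsup : Function.support (fun x => η (D.Pk t χ x)) ⊆ thickening (3 * s / 2) S := by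
    intro x hx
    by_contra hx'
    have k1 := (abs_le.1 (usub x)).2
    rw [χ0 x hx'] at k1
    exact hx (e0 _ (by linarith))
  refine ⟨_, _, T2, ⟨⟨⟨⟨M * (180 * n + 36) / s, by positivity⟩,
    LipschitzWith.of_dist_le_mul hζL⟩, hS.thickening.subset hsup⟩, ?_, fun x => (e01 _).1, T2.lap,
    T2.bddL⟩, fun x => (e01 _).2, fun x hx => ?_, hζL, fun x => (gaz_clamp hC0).1⟩
  · exact (closure_mono hsup).trans ((closure_thickening_subset_cthickening _ _).trans
      (cthickening_subset_thickening' (by linarith) (by linarith) S))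
  · have k1 := (abs_le.1 (usub x)).1
    rw [χ1 x (thickening_subset_cthickening s S hx)] at k1
    exact e1 _ (by linarith)

end R2

end RC
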