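import Pool.Agent.P.MP_6472e5_gt.HkD
import Pool.Agent.P.MP_6472e5_gt.Ca0
import Pool.Agent.P.MP_6472e5_gt.Ca0n

/-! Weak limits of integrable functions. -/

set_option autoImplicit false
set_option linter.unusedSectionVars false

noncomputable section

namespace RC

open MeasureTheory Set Filter Topology Metric

variable {Z : Type} [MetricSpace Z] [ProperSpace Z] [MeasurableSpace Z] [BorelSpace Z]
  {ν : Measure Z} {a b : ℕ → Z → ℝ} {w w' : Z → ℝ}

theorem WL.hkw_set (h : WL ν a w) {S : Set Z} (hS : MeasurableSet S) :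
    Tendsto (fun j => ∫ x in S, a j x ∂ν) (hyperfilter ℕ) (𝓝 (∫ x in S, w x ∂ν)) := by
  have l := h.2.2 (S.indicator fun _ => 1) (aestronglyMeasurable_const.indicator hS)
    ⟨1, ae_of_all _ fun x => by by_cases hx : x ∈ S <;> simp [hx]⟩
  simpa only [← indicator_mul_left, one_mul, integral_indicator hS] using l

theorem hkw_le {ψ f g : Z → ℝ} {M : ℝ} (hm : AEStronglyMeasurable ψ ν) (hM : ∀ᵐ x ∂ν, |ψ x| ≤ M)
    (hf : Integrable f ν) (hg : Integrable g ν) :
    dist (∫ x, ψ x * f x ∂ν) (∫ x, ψ x * g x ∂ν) ≤ M * ∫ x, |f x - g x| ∂ν := by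
  rw [dist_eq_norm, ← integral_sub (Bdd.mul_integrable ⟨M, hM⟩ hm hf)
    (Bdd.mul_integrable ⟨M, hM⟩ hm hg), ← integral_const_mul]
  refine norm_integral_le_of_norm_le ((hf.sub hg).abs.const_mul M) ?_
  filter_upwards [hM] with x hx
  rw [← mul_sub, Real.norm_eq_abs, abs_mul]
  exact mul_le_mul_of_nonneg_right hx (abs_nonneg _)

theorem hkw_mem {S : Set Z} (hS : MeasurableSet S) (hf : ν S < ⊤) {g : Z → ℝ}
    (hm : AEStronglyMeasurable g ν) {C : ℝ} (hC : ∀ᵐ x ∂ν, |g x| ≤ C) (p : ENNReal) :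
    MemLp (S.indicator g) p ν := by
  have : IsFiniteMeasure (ν.restrict S) := isFiniteMeasure_restrict.2 hf.ne
  exact (memLp_indicator_iff_restrict hS).2 (MemLp.of_bound hm.restrict C (ae_restrict_of_ae hC))

theorem hkw_weak {E : Type} [NormedAddCommGroup E] [InnerProductSpace ℝ E] [CompleteSpace E]
    (U : Ultrafilter ℕ) {A : ℕ → E} {M : ℝ} (hA : ∀ j, ‖A j‖ ≤ M) :
    ∃ W, ∀ φ, Tendsto (fun j => inner ℝ φ (A j)) U (𝓝 (inner ℝ φ W)) := by
  have ex : ∀ φ : E, ∃ l ∈ closedBall (0 : ℝ) (M * ‖φ‖),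
      Tendsto (fun j => inner ℝ φ (A j)) U (𝓝 l) := fun φ =>
    (isCompact_closedBall _ _).ultrafilter_le_nhds' (U.map fun j => inner ℝ φ (A j))
      (Ultrafilter.mem_map.2 (univ_mem' fun j => mem_closedBall_zero_iff.2
        ((norm_inner_le_norm φ (A j)).trans ((mul_comm _ _).trans_le
          (mul_le_mul_of_nonneg_right (hA j) (norm_nonneg _))))))
  choose L hL hT using ex
  let L' : E →ₗ[ℝ] ℝ :=
    { toFun := L
      map_add' := fun u v => tendsto_nhds_unique (hT (u + v)) (by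
        simpa only [inner_add_left] using (hT u).add (hT v))
      map_smul' := fun c u => tendsto_nhds_unique (hT (c • u)) (by
        simp only [real_inner_smul_left]
        exact (hT u).const_mul c) }
  refine ⟨(InnerProductSpace.toDual ℝ E).symm
    (L'.mkContinuous M fun φ => mem_closedBall_zero_iff.1 (hL φ)), fun φ => ?_⟩
  rw [real_inner_comm, InnerProductSpace.toDual_symm_apply]
  exact hT φ

theorem WL.unique (h : WL ν a w) (h' : WL ν a w') : w =ᵐ[ν] w' :=
  h.2.1.ae_eq_of_forall_setIntegral_eq _ _ h'.2.1 fun _ hs _ =>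
    tendsto_nhds_unique (h.hkw_set hs) (h'.hkw_set hs)

theorem WL.congr (h : WL ν a w) (ha : ∀ j, a j =ᵐ[ν] b j) (hw : w =ᵐ[ν] w') : WL ν b w' := by
  refine ⟨fun j => (h.1 j).congr (ha j), h.2.1.congr hw, fun ψ hm hb => ?_⟩
  have e : ∀ f g : Z → ℝ, f =ᵐ[ν] g → ∫ x, ψ x * f x ∂ν = ∫ x, ψ x * g x ∂ν := fun f g e =>
    integral_congr_ae (e.mono fun x hx => by simp only [hx])
  rw [← e _ _ hw]
  exact (h.2.2 ψ hm hb).congr fun j => e _ _ (ha j)

theorem WL.add (h : WL ν a w) (h' : WL ν b w') : WL ν (fun j => a j + b j) (w + w') := by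
  refine ⟨fun j => (h.1 j).add (h'.1 j), h.2.1.add h'.2.1, fun ψ hm hb => ?_⟩
  have e : ∀ f g : Z → ℝ, Integrable f ν → Integrable g ν →
      ∫ x, ψ x * f x ∂ν + ∫ x, ψ x * g x ∂ν = ∫ x, ψ x * (f + g) x ∂ν := fun f g hf hg => by
    rw [← integral_add (hb.mul_integrable hm hf) (hb.mul_integrable hm hg)]
    simp only [Pi.add_apply, mul_add]
  rw [← e _ _ h.2.1 h'.2.1]
  exact ((h.2.2 ψ hm hb).add (h'.2.2 ψ hm hb)).congr fun j => e _ _ (h.1 j) (h'.1 j)

theorem WL.smul (c : ℝ) (h : WL ν a w) : WL ν (fun j => c • a j) (c • w) := by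
  refine ⟨fun j => (h.1 j).smul c, h.2.1.smul c, fun ψ hm hb => ?_⟩
  simpa only [Pi.smul_apply, smul_eq_mul, mul_left_comm (ψ _) c, integral_const_mul] using
    (h.2.2 ψ hm hb).const_mul c

theorem WL.sub (h : WL ν a w) (h' : WL ν b w') : WL ν (fun j => a j - b j) (w - w') := by
  simpa only [neg_smul, one_smul, ← sub_eq_add_neg] using h.add (h'.smul (-1))

theorem WL.integral (h : WL ν a w) :
    Tendsto (fun j => ∫ x, a j x ∂ν) (hyperfilter ℕ) (𝓝 (∫ x, w x ∂ν)) := by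
  simpa only [Measure.restrict_univ] using h.hkw_set MeasurableSet.univ

theorem WL.nonneg (h : WL ν a w) (h0 : ∀ j x, 0 ≤ a j x) : ∀ᵐ x ∂ν, 0 ≤ w x :=
  ae_nonneg_of_forall_setIntegral_nonneg h.2.1 fun _ hs _ =>
    ge_of_tendsto' (h.hkw_set hs) fun j => integral_nonneg (h0 j)

theorem WL.le_on (h : WL ν a w) {S : Set Z} (hS : MeasurableSet S) (hf : ν S < ⊤) {c : ℝ}
    (hc : ∀ ε, 0 < ε → ∀ᶠ j in (hyperfilter ℕ : Filter ℕ), ∀ x ∈ S, a j x ≤ c + ε) :
    ∀ᵐ x ∂ν, x ∈ S → w x ≤ c := by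
  have : IsFiniteMeasure (ν.restrict S) := isFiniteMeasure_restrict.2 hf.ne
  have key : ∀ ε, 0 < ε → ∀ᵐ x ∂ν, x ∈ S → w x ≤ c + ε := fun ε hε => by
    refine (ae_restrict_iff' hS).1 (ae_le_of_forall_setIntegral_le (g := fun _ => c + ε)
      h.2.1.integrableOn (integrable_const _) fun s hs _ => ?_)
    rw [Measure.restrict_restrict hs]
    refine le_of_tendsto (h.hkw_set (hs.inter hS)) ((hc ε hε).mono fun j hj => ?_)
    exact setIntegral_mono_on (h.1 j).integrableOn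
      (integrableOn_const ((measure_mono inter_subset_right).trans_lt hf).ne) (hs.inter hS)
      fun x hx => hj x hx.2
  filter_upwards [ae_all_iff.2 fun n : ℕ => key (1 / (n + 1)) Nat.one_div_pos_of_nat] with x hx hxS
  refine le_of_forall_pos_le_add fun ε hε => ?_
  obtain ⟨n, hn⟩ := exists_nat_one_div_lt hε
  linarith [hx n hxS]

theorem WL.l1_le (h : WL ν a w) {C : ℝ}
    (hC : ∀ᶠ j in (hyperfilter ℕ : Filter ℕ), ∫ x, |a j x| ∂ν ≤ C) : ∫ x, |w x| ∂ν ≤ C := by
  have hm := h.2.1.aestronglyMeasurable.aemeasurable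
  have m := (hm.div hm.abs).aestronglyMeasurable
  have b1 : ∀ᵐ y ∂ν, |w y / abs (w y)| ≤ 1 := ae_of_all _ fun y => by
    rw [abs_div, abs_abs]
    exact div_self_le_one _
  have l := h.2.2 _ m ⟨1, b1⟩
  have e : ∀ x, w x / |w x| * w x = |w x| := fun x => by
    rw [div_mul_eq_mul_div, ← abs_mul_abs_self, mul_self_div_self]
  simp only [Pi.div_apply, e] at l
  refine le_of_tendsto l (hC.mono fun j hj => ?_)
  have a1 := hkw_le m b1 (h.1 j) (integrable_zero _ _ _)
  simp only [Pi.zero_apply, mul_zero, integral_zero, sub_zero, one_mul, dist_zero_right] at a1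
  exact (le_abs_self _).trans (a1.trans hj)

/-- Bounded sequences supported in a set of finite measure have weak limits. -/
theorem wl_of_bdd {S : Set Z} (hS : MeasurableSet S) (hf : ν S < ⊤)
    (hm : ∀ j, AEStronglyMeasurable (a j) ν) {C : ℝ} (hC : ∀ j x, |a j x| ≤ C)
    (h0 : ∀ j x, x ∉ S → a j x = 0) : ∃ w, WL ν a w := by
  have : IsFiniteMeasure (ν.restrict S) := isFiniteMeasure_restrict.2 hf.ne
  have e : ∀ j, S.indicator (a j) = a j := fun j =>
    indicator_eq_self.2 fun x hx => by_contra fun hn => hx (h0 j x hn)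
  have m : ∀ j p, MemLp (a j) p ν := fun j p =>
    e j ▸ hkw_mem hS hf (hm j) (ae_of_all _ (hC j)) p
  have mC := hkw_mem hS hf (g := fun _ => C) aestronglyMeasurable_const
    (ae_of_all _ fun _ => le_rfl) 2
  obtain ⟨W, hW⟩ := hkw_weak (hyperfilter ℕ) (A := fun j => (m j 2).toLp _) (M := ‖mC.toLp _‖)
    fun j => Lp.norm_le_norm_of_ae_le (by
      filter_upwards [(m j 2).coeFn_toLp, mC.coeFn_toLp] with x h1 h2
      rw [h1, h2]
      by_cases hx : x ∈ S
      · rw [indicator_of_mem hx]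
        exact (hC j x).trans (le_abs_self C)
      · rw [h0 j x hx, norm_zero]
        exact norm_nonneg _)
  refine ⟨S.indicator W, fun j => memLp_one_iff_integrable.1 (m j 1),
    (integrable_indicator_iff hS).2 (((Lp.memLp W).restrict S).integrable one_le_two),
    fun ψ hψ ⟨M, hM⟩ => ?_⟩
  have l := hW ((hkw_mem hS hf hψ hM 2).toLp _)
  rw [← Lp.toLp_coeFn W (Lp.memLp W)] at l
  simp only [ca0n_inner, ← indicator_mul_left] at l
  simp only [indicator_mul_right, e] at l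
  exact l

/-- The existence of weak limits is stable under approximation in norm. -/
theorem wl_closed (hi : ∀ j, Integrable (a j) ν)
    (h : ∀ ε : ℝ, 0 < ε → ∃ b w, WL ν b w ∧
      ∀ᶠ j in (hyperfilter ℕ : Filter ℕ), ∫ x, |a j x - b j x| ∂ν ≤ ε) : ∃ w, WL ν a w := by
  choose b w hw hb using fun k : ℕ => h (1 / (k + 1)) Nat.one_div_pos_of_nat
  have d : ∀ k (F : Lp ℝ 1 ν), dist ((hw k).2.1.toL1 _) F = ∫ x, |w k x - F x| ∂ν := fun k F => by
    rw [L1.dist_eq_integral_dist]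
    exact integral_congr_ae ((hw k).2.1.coeFn_toL1.mono fun x hx => by
      simp only [hx, Real.dist_eq])
  have l0 : Tendsto (fun k : ℕ => (1 : ℝ) / (k + 1)) atTop (𝓝 0) :=
    tendsto_one_div_add_atTop_nhds_zero_nat
  have cs : CauchySeq fun k => (hw k).2.1.toL1 _ := by
    refine cauchySeq_of_le_tendsto_0 (fun N : ℕ => (1 : ℝ) / (N + 1) + 1 / (N + 1))
      (fun k l N hk hl => ?_) (by simpa only [add_zero] using l0.add l0)
    have a1 : ∫ x, |(w k - w l) x| ∂ν ≤ 1 / (k + 1) + 1 / (l + 1) := by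
      refine ((hw k).sub (hw l)).l1_le ?_
      filter_upwards [hb k, hb l] with j h1 h2
      have i1 := ((hi j).sub ((hw k).1 j)).abs
      have i2 := ((hi j).sub ((hw l).1 j)).abs
      refine le_trans (integral_mono (((hw k).1 j).sub ((hw l).1 j)).abs (i1.add i2) fun x => ?_)
        ((integral_add i1 i2).trans_le (add_le_add h1 h2))
      simp only [Pi.sub_apply, Pi.add_apply]
      rw [abs_sub_comm (a j x)]
      exact abs_sub_le _ _ _
    rw [d, integral_congr_ae ((hw l).2.1.coeFn_toL1.mono fun x hx => by simp only [hx]; rfl)]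
    exact a1.trans (add_le_add (Nat.one_div_le_one_div hk) (Nat.one_div_le_one_div hl))
  obtain ⟨F, hF⟩ := cauchySeq_tendsto_of_complete cs
  refine ⟨F, hi, L1.integrable_coeFn F, fun ψ hm hψ => Metric.tendsto_nhds.2 fun ε hε => ?_⟩
  obtain ⟨M, hM0, hM⟩ := hψ.nonneg
  have l1 := (l0.add (tendsto_iff_dist_tendsto_zero.1 hF)).const_mul M
  rw [add_zero, mul_zero] at l1
  obtain ⟨k, hk⟩ := (l1.eventually (gt_mem_nhds (half_pos hε))).exists
  filter_upwards [hb k, Metric.tendsto_nhds.1 ((hw k).2.2 ψ hm hψ) _ (half_pos hε)] with j h1 h2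
  have a1 := (hkw_le hm hM (hi j) ((hw k).1 j)).trans (mul_le_mul_of_nonneg_left h1 hM0.le)
  have a2 := hkw_le hm hM (hw k).2.1 (L1.integrable_coeFn F)
  rw [d] at hk
  linarith [dist_triangle4 (∫ x, ψ x * a j x ∂ν) (∫ x, ψ x * b k j x ∂ν) (∫ x, ψ x * w k x ∂ν)
    (∫ x, ψ x * F x ∂ν)]

end RC
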