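import Pool.Agent.P.MP_6472e5_gt.HkG
import Pool.Agent.P.MP_6472e5_gt.HkW
import Pool.Agent.P.MP_6472e5_gt.Ca5
import Pool.Agent.P.MP_6472e5_gt.DeV

/-! The gradient estimate for the form generated by a kernel. -/

set_option autoImplicit false
set_option linter.unusedSectionVars false

noncomputable section

namespace RC

open MeasureTheory Set Filter Topology Metric

variable {Z : Type} [MetricSpace Z] [ProperSpace Z] [MeasurableSpace Z] [BorelSpace Z]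
  {ν : Measure Z} {k : ℝ → Z → Z → ℝ} {n : ℕ}

variable {E : DS ν}

theorem hkb_lim {ι : Type} {l : Filter ι} {a : ι → Z → ℝ} {b φ : Z → ℝ}
    (hm : AEStronglyMeasurable φ ν) (bφ : Bdd ν φ) (ha : ∀ i, Integrable (a i) ν)
    (hb : Integrable b ν) (h : Tendsto (fun i => ∫ x, |a i x - b x| ∂ν) l (𝓝 0)) :
    Tendsto (fun i => ∫ x, φ x * a i x ∂ν) l (𝓝 (∫ x, φ x * b x ∂ν)) := by
  refine DS.ca5_lim (Eventually.of_forall fun i => bφ.mul_integrable hm (ha i))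
    (bφ.mul_integrable hm hb) ?_
  obtain ⟨C, hC⟩ := bφ
  have h1 := h.const_mul C
  rw [mul_zero] at h1
  refine squeeze_zero (fun i => integral_nonneg fun x => abs_nonneg _) (fun i => ?_) h1
  rw [← integral_const_mul]
  refine integral_mono_of_nonneg (ae_of_all _ fun x => abs_nonneg _)
    (((ha i).sub hb).abs.const_mul C) (hC.mono fun x hx => ?_)
  simp only [← mul_sub, abs_mul]
  exact mul_le_mul_of_nonneg_right hx (abs_nonneg _)

theorem hkb_sq {ι : Type} {l : Filter ι} {u : ι → Z → ℝ} {f φ : Z → ℝ}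
    (hm : AEStronglyMeasurable φ ν) (bφ : Bdd ν φ) (hu : ∀ i, MemLp (u i) 2 ν) (hf : MemLp f 2 ν)
    (h : Tendsto (fun i => n2 ν (u i - f)) l (𝓝 0)) :
    Tendsto (fun i => ∫ x, φ x * u i x ^ 2 ∂ν) l (𝓝 (∫ x, φ x * f x ^ 2 ∂ν)) := by
  refine hkb_lim hm bφ (fun i => (hu i).integrable_sq) hf.integrable_sq ?_
  simpa only [sq] using tendsto_integral_mul (Eventually.of_forall hu) (Eventually.of_forall hu)
    hf hf h h

theorem hkb_G {ι : Type} {l : Filter ι} {u : ι → Z → ℝ} {f φ : Z → ℝ}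
    (hm : AEStronglyMeasurable φ ν) (bφ : Bdd ν φ) (hu : ∀ i, u i ∈ E.V) (hf : f ∈ E.V)
    (h : Tendsto (fun i => E.E (u i - f)) l (𝓝 0)) :
    Tendsto (fun i => ∫ x, φ x * E.G (u i) (u i) x ∂ν) l (𝓝 (∫ x, φ x * E.G f f x ∂ν)) := by
  refine hkb_lim hm bφ (fun i => DS.G_int (hu i) (hu i)) (DS.G_int hf hf) ?_
  have h1 := h.congr fun i => DS.E_eq (E.sub_mem (hu i) hf)
  refine (E.Γ_tendsto (Eventually.of_forall hu) (Eventually.of_forall hu) hf hf h1 h1).congr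
    fun i => integral_congr_ae ?_
  filter_upwards [DS.G_eq (hu i) (hu i), DS.G_eq hf hf] with x a b
  rw [a, b]

theorem hkb_bdd (hF : E.Flow) {φ : Z → ℝ} (h2 : MemLp φ 2 ν) (bφ : Bdd ν φ) (t : ℝ) :
    Bdd ν (E.P t φ) := by
  obtain ⟨C, hC, hb⟩ := bφ.nonneg
  exact ⟨C, (hF.markov φ t (-C) C h2 (by linarith) hC.le (hb.mono fun x => abs_le.1)).mono
    fun x => abs_le.2⟩

theorem hkb_pt (h : HK ν n k) (hF : E.Flow)
    (hP : ∀ f t, MemLp f 2 ν → 0 < t → E.P t f =ᵐ[ν] kT ν k t f) {f : Z → ℝ} (hf : LipB f)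
    {s r : ℝ} (hs : 0 ≤ s) (hr : 0 < r) :
    ∀ᵐ x ∂ν, kG ν k r (kT ν k (s + r) f) (kT ν k (s + r) f) x +
      2 * s / n * E.L (s + 2 * r) f x ^ 2 ≤ kT ν k (s + r) (kG ν k r f f) x := by
  obtain ⟨C, hC⟩ := h.be
  obtain ⟨M, hM⟩ := hf.bound
  have f2 := E.lipB_memLp hf
  have hτ : 0 < s + 2 * r := by positivity
  have d := ((hF.heat f f2).1 _ hτ).2.2
  have hj0 : Tendsto hj atTop (𝓝[≠] 0) :=
    hj_tendsto.mono_right (nhdsWithin_mono _ fun x hx => ne_of_gt hx)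
  obtain ⟨ψ, hψ, hl⟩ := exists_subseq_ae
    (u := fun m => DQ (fun t => E.P t f) (s + 2 * r) (hj m)) (fun m => by
      rw [DS.deV_DQ]
      exact ((hF.memLp f _ f2).sub (hF.memLp f _ f2)).const_smul _) d.2.1 (d.2.2.comp hj0)
  filter_upwards [hl, hP f _ f2 hτ,
    ae_all_iff.2 fun m => hP f (s + 2 * r + hj m) f2 (add_pos hτ (hj_pos m))] with x a b c
  have t1 := ((a.pow 2).const_mul (2 * s / n)).const_add
    (kG ν k r (kT ν k (s + r) f) (kT ν k (s + r) f) x)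
  have t2 := ((((hj0.mono_right nhdsWithin_le_nhds).comp hψ.tendsto_atTop).const_mul
    (C * M ^ 2)).div_const ((s + 2 * r) ^ 2)).const_add (kT ν k (s + r) (kG ν k r f f) x)
  rw [mul_zero, zero_div, add_zero] at t2
  refine le_of_tendsto_of_tendsto' t1 t2 fun m => ?_
  have e := hC f M s r (hj (ψ m)) x hf.continuous hM hs hr (hj_pos _)
  simpa only [DQ, b, c, Function.comp] using e

theorem hkb_int (h : HK ν n k) (hF : E.Flow)
    (hP : ∀ f t, MemLp f 2 ν → 0 < t → E.P t f =ᵐ[ν] kT ν k t f) {f : Z → ℝ} (hf : LipB f)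
    {φ : Z → ℝ} {t r : ℝ} (h2 : MemLp φ 2 ν) (bφ : Bdd ν φ) (h0 : ∀ᵐ x ∂ν, 0 ≤ φ x)
    (hr : 0 < r) (ht : r < t) :
    ∫ x, φ x * kG ν k r (E.P t f) (E.P t f) x ∂ν +
      2 * (t - r) / n * ∫ x, φ x * E.L (t + r) f x ^ 2 ∂ν ≤
      ∫ x, E.P t φ x * kG ν k r f f x ∂ν := by
  have f2 := E.lipB_memLp hf
  have t0 : 0 < t := hr.trans ht
  have a := hkb_pt h hF hP hf (sub_nonneg.2 ht.le) hr
  rw [sub_add_cancel, show t - r + 2 * r = t + r by ring,
    ← kG_congr (hP f t f2 t0) (hP f t f2 t0)] at a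
  have g1 := h.toHK0.kG_int f2 f2 hr
  have i1 := bφ.mul_integrable h2.1 (h.toHK0.kG_int (hF.memLp f t f2) (hF.memLp f t f2) hr)
  have i2 := bφ.mul_integrable h2.1
    (E.memLp _ (hF.L_mem f (t + r) f2 (add_pos t0 hr))).integrable_sq
  have i3 := bφ.mul_integrable h2.1 (h.toHK0.kT_l1 g1 t0).1
  have e : ∫ x, E.P t φ x * kG ν k r f f x ∂ν = ∫ x, φ x * kT ν k t (kG ν k r f f) x ∂ν := by
    rw [← h.toHK0.kT_symm1 h2.1 bφ g1 t0]
    exact integral_congr_ae ((hP φ t h2 t0).mono fun x hx => by simp only [hx])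
  rw [e, ← integral_const_mul, ← integral_add i1 (i2.const_mul _)]
  refine integral_mono_ae (i1.add (i2.const_mul _)) i3 ?_
  filter_upwards [a, h0] with x a b
  have := mul_le_mul_of_nonneg_left a b
  linarith

theorem hkb_lip (h : HK ν n k) (hE : KD E k) (hF : E.Flow)
    (hP : ∀ f t, MemLp f 2 ν → 0 < t → E.P t f =ᵐ[ν] kT ν k t f) {f : Z → ℝ} (hf : LipB f)
    {φ : Z → ℝ} {t : ℝ} (h2 : MemLp φ 2 ν) (bφ : Bdd ν φ) (h0 : ∀ᵐ x ∂ν, 0 ≤ φ x) (ht : 0 < t) :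
    ∫ x, φ x * E.G (E.P t f) (E.P t f) x ∂ν + 2 * t / n * ∫ x, φ x * E.L t f x ^ 2 ∂ν ≤
      ∫ x, E.P t φ x * E.G f f x ∂ν := by
  have f2 := E.lipB_memLp hf
  have pm : E.P t f ∈ E.V := ((hF.heat f f2).1 t ht).1
  have z : Tendsto hj (hyperfilter ℕ) (𝓝 0) := hj_hyper.mono_right nhdsWithin_le_nhds
  have z1 := z.const_add t
  have z2 := ((z.const_sub t).const_mul 2).div_const (n : ℝ)
  rw [add_zero] at z1
  rw [sub_zero] at z2
  have t1 := (hE _ pm _ pm).2.2 φ h2.1 bφ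
  have t2 := hkb_sq h2.1 bφ
    (fun j => E.memLp _ (hF.L_mem f (t + hj j) f2 (add_pos ht (hj_pos j))))
    (E.memLp _ (hF.L_mem f t f2 ht)) ((hF.L_derV f t f2 ht).derL2.cont.comp z1)
  have t3 := (hE _ (E.lip f hf) _ (E.lip f hf)).2.2 _ (hF.memLp φ t h2).1 (hkb_bdd hF h2 bφ t)
  refine le_of_tendsto_of_tendsto (t1.add (z2.mul t2)) t3 ?_
  filter_upwards [z.eventually (gt_mem_nhds ht)] with j hj'
  exact hkb_int h hF hP hf h2 bφ h0 (hj_pos j) hj'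

theorem HK.ge (h : HK ν n k) (hE : KD E k) (hF : E.Flow)
    (hP : ∀ f t, MemLp f 2 ν → 0 < t → E.P t f =ᵐ[ν] kT ν k t f) {f : Z → ℝ} (hf : f ∈ E.V)
    {φ : Z → ℝ} {t : ℝ} (h2 : MemLp φ 2 ν) (bφ : Bdd ν φ) (h0 : ∀ᵐ x ∂ν, 0 ≤ φ x) (ht : 0 < t) :
    ∫ x, φ x * E.G (E.P t f) (E.P t f) x ∂ν + 2 * t / n * ∫ x, φ x * E.L t f x ^ 2 ∂ν ≤
      ∫ x, E.P t φ x * E.G f f x ∂ν := by
  obtain ⟨u, hu, h1, h3⟩ := E.dense f hf
  have f2 := E.memLp f hf
  have um : ∀ j, u j ∈ E.V := fun j => E.lip _ (hu j)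
  have u2 : ∀ j, MemLp (u j) 2 ν := fun j => E.memLp _ (um j)
  have h4 : Tendsto (fun j => E.E (u j - f)) atTop (𝓝 0) :=
    h3.congr fun j => (DS.E_eq (E.sub_mem (um j) hf)).symm
  have pm : ∀ g, MemLp g 2 ν → E.P t g ∈ E.V := fun g hg => ((hF.heat g hg).1 t ht).1
  have t1 := hkb_G (l := atTop) h2.1 bφ (fun j => pm _ (u2 j)) (pm f f2) (by
    refine squeeze_zero (fun j => DS.E_nonneg (E.W_of_mem (E.sub_mem (pm _ (u2 j)) (pm f f2))))
      (fun j => ?_) h4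
    have a := hF.add (u j - f) f t ((u2 j).sub f2) f2
    rw [sub_add_cancel] at a
    refine le_trans (DS.E_congr (E.W_of_mem (E.sub_mem (pm _ (u2 j)) (pm f f2))) ?_).le
      (hF.E_mono _ (E.sub_mem (um j) hf) t)
    filter_upwards [a] with x hx
    simp only [Pi.sub_apply, hx, Pi.add_apply, add_sub_cancel_right])
  have t2 := hkb_sq (l := atTop) h2.1 bφ (fun j => E.memLp _ (hF.L_mem (u j) t (u2 j) ht))
    (E.memLp _ (hF.L_mem f t f2 ht)) (by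
    have h5 := h1.div_const (t ^ 2)
    rw [zero_div] at h5
    refine squeeze_zero (fun j => n2_nonneg _) (fun j => ?_) h5
    have a := hF.L_add (u j - f) f t ((u2 j).sub f2) f2 ht
    rw [sub_add_cancel] at a
    refine le_trans (n2_congr ?_).le (hF.L_le _ t ((u2 j).sub f2) ht)
    filter_upwards [a] with x hx
    simp only [Pi.sub_apply, hx, Pi.add_apply, add_sub_cancel_right])
  have t3 := hkb_G (hF.memLp φ t h2).1 (hkb_bdd hF h2 bφ t) um hf h4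
  exact le_of_tendsto_of_tendsto' (t1.add (t2.const_mul _)) t3 fun j =>
    hkb_lip h hE hF hP (hu j) h2 bφ h0 ht

end RC
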