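import Pool.Agent.P.MP_6472e5_gt.Core

/-! Markov kernels and the forms they generate: definitions. -/

set_option autoImplicit false
set_option linter.unusedSectionVars false

noncomputable section

namespace RC

open MeasureTheory Set Filter Topology Metric

variable {Z : Type} [MetricSpace Z] [MeasurableSpace Z]

/-- The integral operator of a kernel. -/
def kT (ν : Measure Z) (k : ℝ → Z → Z → ℝ) (t : ℝ) (f : Z → ℝ) (x : Z) : ℝ :=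
  ∫ y, k t x y * f y ∂ν

/-- The approximate carre du champ. -/
def kG (ν : Measure Z) (k : ℝ → Z → Z → ℝ) (t : ℝ) (f g : Z → ℝ) (x : Z) : ℝ :=
  (2 * t)⁻¹ * (kT ν k t (fun y => f y * g y) x - kT ν k t f x * kT ν k t g x)

/-- The approximate energy. -/
def kE (ν : Measure Z) (k : ℝ → Z → Z → ℝ) (t : ℝ) (f g : Z → ℝ) : ℝ := ∫ x, kG ν k t f g x ∂ν

/-- Dyadic times. -/
def hj (j : ℕ) : ℝ := (1 / 2) ^ j

/-- Weak limits in `L¹` along the hyperfilter. -/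
def WL (ν : Measure Z) (a : ℕ → Z → ℝ) (w : Z → ℝ) : Prop :=
  (∀ j, Integrable (a j) ν) ∧ Integrable w ν ∧ ∀ ψ, AEStronglyMeasurable ψ ν → Bdd ν ψ →
    Tendsto (fun j => ∫ x, ψ x * a j x ∂ν) (hyperfilter ℕ) (𝓝 (∫ x, ψ x * w x ∂ν))

/-- A symmetric Markov semigroup of bounded continuous kernels with small tails. -/
structure HK0 (ν : Measure Z) (k : ℝ → Z → Z → ℝ) : Prop where
  fin : ∀ x r, ν (ball x r) < ⊤
  cont : ContinuousOn (fun a : ℝ × Z × Z => k a.1 a.2.1 a.2.2) (Ioi 0 ×ˢ univ)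
  nonneg : ∀ t x y, 0 < t → 0 ≤ k t x y
  symm : ∀ t x y, 0 < t → k t x y = k t y x
  int : ∀ t x, 0 < t → Integrable (k t x) ν
  one : ∀ t x, 0 < t → ∫ y, k t x y ∂ν = 1
  bdd : ∀ t, 0 < t → ∃ C, ∀ x y, k t x y ≤ C
  ck : ∀ s t x y, 0 < s → 0 < t → k (s + t) x y = ∫ z, k s x z * k t z y ∂ν
  tail : ∀ ρ ε : ℝ, 0 < ρ → 0 < ε →
    ∀ᶠ t in 𝓝[>] (0 : ℝ), ∀ x, ∫ y in (ball x ρ)ᶜ, k t x y ∂ν ≤ ε * t

/-- The properties of a limit of heat kernels. -/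
structure HK (ν : Measure Z) (n : ℕ) (k : ℝ → Z → Z → ℝ) : Prop extends HK0 ν k where
  pos : ∀ x r, 0 < r → 0 < ν (ball x r)
  geo : IsGeodesic Z
  n_pos : 0 < n
  unif : ∀ t ε : ℝ, 0 < t → 0 < ε → ∀ᶠ s in 𝓝 t, ∀ x y, |k s x y - k t x y| ≤ ε
  var : ∀ (f : Z → ℝ) (L : NNReal) (M t : ℝ) (x : Z), LipschitzWith L f → (∀ y, |f y| ≤ M) →
    0 < t → kG ν k t f f x ≤ (L : ℝ) ^ 2
  lip : ∀ (f : Z → ℝ) (M L t : ℝ), Continuous f → (∀ y, |f y| ≤ M) → 0 ≤ L → 0 < t →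
    (∀ x, kG ν k t f f x ≤ L ^ 2) → ∀ x y, |kT ν k t f x - kT ν k t f y| ≤ L * dist x y
  be : ∃ C : ℝ, ∀ (f : Z → ℝ) (M s h δ : ℝ) (x : Z), Continuous f → (∀ y, |f y| ≤ M) → 0 ≤ s →
    0 < h → 0 < δ → kG ν k h (kT ν k (s + h) f) (kT ν k (s + h) f) x +
      2 * s / n * ((kT ν k (s + 2 * h + δ) f x - kT ν k (s + 2 * h) f x) / δ) ^ 2 ≤
      kT ν k (s + h) (kG ν k h f f) x + C * M ^ 2 * δ / (s + 2 * h) ^ 2

/-- The form `E` is generated by the kernel `k`. -/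
def KD {ν : Measure Z} (E : DS ν) (k : ℝ → Z → Z → ℝ) : Prop :=
  ∀ f ∈ E.V, ∀ g ∈ E.V, WL ν (fun j => kG ν k (hj j) f g) (E.G f g)

theorem hj_pos (j : ℕ) : 0 < hj j := pow_pos one_half_pos j

theorem hj_succ (j : ℕ) : hj j = 2 * hj (j + 1) := by
  unfold hj
  ring

theorem hj_tendsto : Tendsto hj atTop (𝓝[>] 0) :=
  tendsto_nhdsWithin_iff.2 ⟨tendsto_pow_atTop_nhds_zero_of_lt_one one_half_pos.le one_half_lt_one,
    Eventually.of_forall hj_pos⟩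

theorem hj_hyper : Tendsto hj (hyperfilter ℕ) (𝓝[>] 0) :=
  hj_tendsto.mono_left Nat.hyperfilter_le_atTop

end RC
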