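import Pool.Agent.P.MP_6472e5_gt.HkV
import Pool.Agent.P.MP_6472e5_gt.Ca3

/-! The Dirichlet form generated by a kernel. -/

set_option autoImplicit false
set_option linter.unusedSectionVars false

noncomputable section

namespace RC

open MeasureTheory Set Filter Topology Metric

variable {Z : Type} [MetricSpace Z] [ProperSpace Z] [MeasurableSpace Z] [BorelSpace Z]
  {ν : Measure Z} {k : ℝ → Z → Z → ℝ} {n : ℕ}

theorem hke_E_congr {f g : Z → ℝ} (hfg : f =ᵐ[ν] g) (t : ℝ) : kE ν k t f f = kE ν k t g g := by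
  unfold kE
  rw [kG_congr hfg hfg]

theorem hke_E_smul (c : ℝ) (f : Z → ℝ) (t : ℝ) :
    kE ν k t (c • f) (c • f) = c ^ 2 * kE ν k t f f := by
  unfold kE
  rw [kG_smul, kG_symm f (c • f), kG_smul]
  simp only [Pi.smul_apply, smul_eq_mul, integral_const_mul]
  ring

theorem hke_E_add (h : HK0 ν k) {f g : Z → ℝ} (hf : MemLp f 2 ν) (hg : MemLp g 2 ν) {t : ℝ}
    (ht : 0 < t) : kE ν k t (f + g) (f + g) ≤ 2 * kE ν k t f f + 2 * kE ν k t g g := by
  have h1 := h.sqrt_kE_add_le hf hg ht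
  have h2 := Real.sq_sqrt (h.kE_nonneg (hf.add hg) ht)
  have h3 := Real.sq_sqrt (h.kE_nonneg hf ht)
  have h4 := Real.sq_sqrt (h.kE_nonneg hg ht)
  have h5 := pow_le_pow_left₀ (Real.sqrt_nonneg _) h1 2
  nlinarith [sq_nonneg (√(kE ν k t f f) - √(kE ν k t g g))]

theorem hke_congr {f g : Z → ℝ} (hf : f ∈ kV ν k) (hfg : f =ᵐ[ν] g) : g ∈ kV ν k := by
  refine ⟨hf.1.ae_eq hfg, fun ε hε => ?_⟩
  obtain ⟨u, hu, h1, h2⟩ := hf.2 ε hε
  have e : u - f =ᵐ[ν] u - g := (EventuallyEq.refl _ u).sub hfg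
  exact ⟨u, hu, by rwa [← n2_congr e], fun j => by rw [← hke_E_congr e]; exact h2 j⟩

theorem hke_add (h : HK0 ν k) {f g : Z → ℝ} (hf : f ∈ kV ν k) (hg : g ∈ kV ν k) :
    f + g ∈ kV ν k := by
  refine ⟨hf.1.add hg.1, fun ε hε => ?_⟩
  obtain ⟨u, hu, h1, h2⟩ := hf.2 (ε / 4) (by positivity)
  obtain ⟨v, hv, h3, h4⟩ := hg.2 (ε / 4) (by positivity)
  have e : u + v - (f + g) = (u - f) + (v - g) := by abel
  have mu := (h.lipB_int hu).2.sub hf.1
  have mv := (h.lipB_int hv).2.sub hg.1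
  refine ⟨u + v, hu.add hv, ?_, fun j => ?_⟩
  · rw [e]
    linarith [n2_add_le mu mv]
  · rw [e]
    linarith [hke_E_add h mu mv (hj_pos j), h2 j, h4 j]

theorem hke_smul (c : ℝ) {f : Z → ℝ} (hf : f ∈ kV ν k) : c • f ∈ kV ν k := by
  refine ⟨hf.1.const_smul c, fun ε hε => ?_⟩
  have hc : 0 < c ^ 2 + 1 := by positivity
  obtain ⟨u, hu, h1, h2⟩ := hf.2 (ε / (c ^ 2 + 1)) (by positivity)
  have e : c • u - c • f = c • (u - f) := (smul_sub c u f).symm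
  have key : ∀ x : ℝ, x ≤ ε / (c ^ 2 + 1) → c ^ 2 * x ≤ ε := by
    intro x hx
    have h3 : c ^ 2 * x ≤ c ^ 2 * (ε / (c ^ 2 + 1)) := mul_le_mul_of_nonneg_left hx (sq_nonneg c)
    have h4 : (c ^ 2 + 1) * (ε / (c ^ 2 + 1)) = ε := by field_simp
    have h5 : 0 ≤ ε / (c ^ 2 + 1) := by positivity
    nlinarith
  refine ⟨c • u, hu.smul c, ?_, fun j => ?_⟩
  · rw [e, n2_smul]
    exact key _ h1
  · rw [e, hke_E_smul]
    exact key _ (h2 j)

theorem hke_sub (h : HK0 ν k) {f g : Z → ℝ} (hf : f ∈ kV ν k) (hg : g ∈ kV ν k) :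
    f - g ∈ kV ν k := by
  have := hke_add h hf (hke_smul (-1) hg)
  rwa [neg_one_smul, ← sub_eq_add_neg] at this

theorem hke_le (h : HK ν n k) {f : Z → ℝ} (hf : f ∈ kV ν k) (j : ℕ) :
    kE ν k (hj j) f f ≤ ∫ x, kΓ ν k f f x ∂ν := h.toHK0.wl_le hf.1 (h.wl_mem hf hf) j

theorem hke_ge (h : HK ν n k) {f : Z → ℝ} (hf : f ∈ kV ν k) {C : ℝ}
    (hC : ∀ j, kE ν k (hj j) f f ≤ C) : ∫ x, kΓ ν k f f x ∂ν ≤ C :=
  le_of_tendsto' (h.wl_mem hf hf).integral hC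

theorem hke_nonneg (h : HK ν n k) {f : Z → ℝ} (hf : f ∈ kV ν k) : 0 ≤ ∫ x, kΓ ν k f f x ∂ν :=
  (h.toHK0.kE_nonneg hf.1 (hj_pos 0)).trans (hke_le h hf 0)

/-- The key estimate of the closedness. -/
theorem hke_cauchy (h : HK ν n k) {u : ℕ → Z → ℝ} {f : Z → ℝ} (hu : ∀ a, u a ∈ kV ν k)
    (hf : MemLp f 2 ν) (h1 : Tendsto (fun a => n2 ν (u a - f)) atTop (𝓝 0))
    (h2 : Tendsto (fun p : ℕ × ℕ => ∫ x, kΓ ν k (u p.1 - u p.2) (u p.1 - u p.2) x ∂ν) atTop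
      (𝓝 0)) {ε : ℝ} (hε : 0 < ε) :
    ∀ᶠ a in atTop, ∀ j, kE ν k (hj j) (u a - f) (u a - f) ≤ ε := by
  have h3 := h2.eventually (eventually_le_nhds (show (0 : ℝ) < ε / 4 by positivity))
  obtain ⟨K, hK⟩ := eventually_atTop.1 h3
  filter_upwards [eventually_ge_atTop K.1] with a ha j
  have h4 : Tendsto (fun b => (2 * hj j)⁻¹ * n2 ν (u b - f)) atTop (𝓝 0) := by
    simpa using h1.const_mul (2 * hj j)⁻¹
  obtain ⟨b, hb1, hb2⟩ := ((h4.eventually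
    (eventually_le_nhds (show (0 : ℝ) < ε / 4 by positivity))).and (eventually_ge_atTop K.2)).exists
  have e : u a - f = (u a - u b) + (u b - f) := by abel
  have m1 : MemLp (u a - u b) 2 ν := (hu a).1.sub (hu b).1
  have m2 : MemLp (u b - f) 2 ν := (hu b).1.sub hf
  have h5 := hke_E_add h.toHK0 m1 m2 (hj_pos j)
  have h6 := hke_le h (hke_sub h.toHK0 (hu a) (hu b)) j
  have h7 := hK (a, b) ⟨ha, hb2⟩
  have h8 := h.toHK0.kE_le m2 (hj_pos j)
  rw [e]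
  simp only at h7
  linarith

theorem hke_closed (h : HK ν n k) {u : ℕ → Z → ℝ} {f : Z → ℝ} (hu : ∀ a, u a ∈ kV ν k)
    (hf : MemLp f 2 ν) (h1 : Tendsto (fun a => n2 ν (u a - f)) atTop (𝓝 0))
    (h2 : Tendsto (fun p : ℕ × ℕ => ∫ x, kΓ ν k (u p.1 - u p.2) (u p.1 - u p.2) x ∂ν) atTop
      (𝓝 0)) :
    f ∈ kV ν k ∧ Tendsto (fun a => ∫ x, kΓ ν k (u a - f) (u a - f) x ∂ν) atTop (𝓝 0) := by
  have hV : f ∈ kV ν k := by
    refine ⟨hf, fun ε hε => ?_⟩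
    have hε4 : (0 : ℝ) < ε / 4 := by positivity
    obtain ⟨a, ha1, ha2⟩ :=
      ((hke_cauchy h hu hf h1 h2 hε4).and (h1.eventually (eventually_le_nhds hε4))).exists
    obtain ⟨v, hv, h3, h4⟩ := (hu a).2 (ε / 4) hε4
    have e : v - f = (v - u a) + (u a - f) := by abel
    have m1 : MemLp (v - u a) 2 ν := (h.toHK0.lipB_int hv).2.sub (hu a).1
    have m2 : MemLp (u a - f) 2 ν := (hu a).1.sub hf
    refine ⟨v, hv, ?_, fun j => ?_⟩
    · rw [e]
      linarith [n2_add_le m1 m2]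
    · rw [e]
      linarith [hke_E_add h.toHK0 m1 m2 (hj_pos j), h4 j, ha1 j]
  refine ⟨hV, tendsto_order.2 ⟨fun c hc => Eventually.of_forall fun a =>
    hc.trans_le (hke_nonneg h (hke_sub h.toHK0 (hu a) hV)), fun c hc => ?_⟩⟩
  filter_upwards [hke_cauchy h hu hf h1 h2 (half_pos hc)] with a ha
  exact (hke_ge h (hke_sub h.toHK0 (hu a) hV) ha).trans_lt (half_lt_self hc)

theorem hke_dense (h : HK ν n k) {f : Z → ℝ} (hf : f ∈ kV ν k) :
    ∃ u : ℕ → Z → ℝ, (∀ a, LipB (u a)) ∧ Tendsto (fun a => n2 ν (u a - f)) atTop (𝓝 0) ∧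
      Tendsto (fun a => ∫ x, kΓ ν k (u a - f) (u a - f) x ∂ν) atTop (𝓝 0) := by
  choose u hu h1 h2 using fun a : ℕ => hf.2 (1 / ((a : ℝ) + 1)) (by positivity)
  refine ⟨u, hu, ?_, ?_⟩
  · exact squeeze_zero (fun a => n2_nonneg _) h1 tendsto_one_div_add_atTop_nhds_zero_nat
  · exact squeeze_zero (fun a => hke_nonneg h (hke_sub h.toHK0 (h.lip_mem (hu a)) hf))
      (fun a => hke_ge h (hke_sub h.toHK0 (h.lip_mem (hu a)) hf) (h2 a))
      tendsto_one_div_add_atTop_nhds_zero_nat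

/-- The Dirichlet structure of the kernel. -/
def hkeDS (h : HK ν n k) : DS ν where
  V := kV ν k
  Γ := kΓ ν k
  fin := h.fin
  memLp := fun _ hf => hf.1
  congr := fun _ hf _ hfg => hke_congr hf hfg
  add := fun _ hf _ hg => hke_add h.toHK0 hf hg
  smul := fun c _ hf => hke_smul c hf
  lip := fun _ hf => h.lip_mem hf
  Γ_int := fun _ hf _ hg => (h.wl_mem hf hg).2.1
  Γ_congr := fun f hf g hg f' e => by
    refine (h.wl_mem hf hg).unique ((h.wl_mem (hke_congr hf e) hg).congr (fun j => ?_)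
      (EventuallyEq.refl _ _))
    rw [kG_congr e (EventuallyEq.refl _ g)]
  Γ_symm := fun f hf g hg => by
    refine (h.wl_mem hf hg).unique ((h.wl_mem hg hf).congr (fun j => ?_) (EventuallyEq.refl _ _))
    rw [kG_symm]
  Γ_add := fun f hf f' hf' g hg => by
    refine (h.wl_mem (hke_add h.toHK0 hf hf') hg).unique
      (((h.wl_mem hf hg).add (h.wl_mem hf' hg)).congr (fun j => ?_) (EventuallyEq.refl _ _))
    rw [h.toHK0.kG_add hf.1 hf'.1 hg.1 (hj_pos j)]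
  Γ_smul := fun c f hf g hg => by
    refine (h.wl_mem (hke_smul c hf) hg).unique
      (((h.wl_mem hf hg).smul c).congr (fun j => ?_) (EventuallyEq.refl _ _))
    rw [kG_smul]
  Γ_nonneg := fun f hf =>
    (h.wl_mem hf hf).nonneg fun j x => h.toHK0.kG_nonneg hf.1 (hj_pos j) x
  Γ_lip := fun f hf U L hU hL => h.kΓ_lip hf hU hL
  closed := fun u f hu hf h1 h2 => hke_closed h hu hf h1 h2
  dense := fun f hf => hke_dense h hf

theorem HK.exists_ds (h : HK ν n k) : ∃ E : DS ν, KD E k := by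
  refine ⟨hkeDS h, fun f hf g hg => ?_⟩
  exact (h.wl_mem hf hg).congr (fun j => EventuallyEq.refl _ _) (DS.G_eq hf hg).symm

end RC
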