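import Pool.Agent.P.MP_6472e5_gt.Ca5
import Pool.Agent.P.MP_6472e5_gt.DeV

/-! The Bochner inequality follows from the gradient estimate. -/

set_option autoImplicit false
set_option linter.unusedSectionVars false

noncomputable section

namespace RC

open MeasureTheory Set Filter Topology Metric

variable {X : Type} [MetricSpace X] [SecondCountableTopology X] [MeasurableSpace X] [BorelSpace X]
  {μ : Measure X} {D : DS μ} {n : ℕ}

theorem hkf_mvt {A A' : ℝ → ℝ} {A0 a b t : ℝ} (ht : 0 < t)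
    (hd : ∀ s, 0 < s → HasDerivAt A (A' s) s) (h0 : Tendsto A (𝓝[>] 0) (𝓝 A0))
    (h1 : ∀ s ∈ Ioo 0 t, a ≤ A' s ∧ A' s ≤ b) : a * t ≤ A t - A0 ∧ A t - A0 ≤ b * t := by
  have hc : Tendsto A (𝓝[<] t) (𝓝 (A t)) :=
    (hd t ht).continuousAt.tendsto.mono_left nhdsWithin_le_nhds
  have l : ∀ (c s : ℝ) (S : Set ℝ), Tendsto (fun s => c * s) (𝓝[S] s) (𝓝 (c * s)) := fun c s S =>
    ((continuous_const_mul c).tendsto s).mono_left nhdsWithin_le_nhds
  have d : ∀ c s : ℝ, HasDerivAt (fun s => c * s) c s := fun c s => by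
    simpa using (hasDerivAt_id s).const_mul c
  constructor
  · simpa using sub_ge_of_deriv' (B' := fun _ => a) ht h0 hc (l a 0 _) (l a t _)
      (fun s hs => hd s hs.1) (fun s _ => d a s) fun s hs => (h1 s hs).1
  · simpa using sub_ge_of_deriv' (A' := fun _ => b) ht (l b 0 _) (l b t _) h0 hc
      (fun s _ => d b s) (fun s hs => hd s hs.1) fun s hs => (h1 s hs).2

theorem hkf_slope {A A' : ℝ → ℝ} {A0 a : ℝ} (hd : ∀ s, 0 < s → HasDerivAt A (A' s) s)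
    (h0 : Tendsto A (𝓝[>] 0) (𝓝 A0)) (h1 : Tendsto A' (𝓝[>] 0) (𝓝 a)) :
    Tendsto (fun t => t⁻¹ * (A t - A0)) (𝓝[>] 0) (𝓝 a) := by
  refine Metric.tendsto_nhds.2 fun ε hε => ?_
  obtain ⟨δ, hδ, h⟩ := mem_nhdsGT_iff_exists_Ioo_subset.1
    (Metric.tendsto_nhds.1 h1 (ε / 2) (half_pos hε))
  filter_upwards [Ioo_mem_nhdsGT hδ] with t ht
  obtain ⟨k1, k2⟩ := hkf_mvt (a := a - ε / 2) (b := a + ε / 2) ht.1 hd h0 fun s hs => by
    have := abs_lt.1 (show |A' s - a| < ε / 2 from h ⟨hs.1, hs.2.trans ht.2⟩)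
    constructor <;> linarith [this.1, this.2]
  rw [Real.dist_eq, abs_lt, inv_mul_eq_div]
  have k3 := (le_div_iff₀ ht.1).2 k1
  have k4 := (div_le_iff₀ ht.1).2 k2
  constructor <;> linarith

theorem hkf_test {ι : Type} {l : Filter ι} {b : ι → X → ℝ} {b' ψ : X → ℝ}
    (hb : ∀ᶠ k in l, Integrable (b k) μ) (hb' : Integrable b' μ)
    (h : Tendsto (fun k => ∫ x, |b k x - b' x| ∂μ) l (𝓝 0))
    (hm : AEStronglyMeasurable ψ μ) (hψ : Bdd μ ψ) :
    Tendsto (fun k => ∫ x, ψ x * b k x ∂μ) l (𝓝 (∫ x, ψ x * b' x ∂μ)) := by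
  obtain ⟨C, hC⟩ := id hψ
  rw [tendsto_iff_norm_sub_tendsto_zero]
  refine squeeze_zero' (Eventually.of_forall fun _ => norm_nonneg _) (hb.mono fun k hk => ?_)
    (by simpa using h.const_mul C)
  rw [← integral_sub (hψ.mul_integrable hm hk) (hψ.mul_integrable hm hb'), ← integral_const_mul]
  refine norm_integral_le_of_norm_le ((hk.sub hb').abs.const_mul C) ?_
  filter_upwards [hC] with x hx
  rw [← mul_sub, norm_mul]
  exact mul_le_mul_of_nonneg_right hx (abs_nonneg _)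

theorem DS.Flow.sub_le (hF : D.Flow) {φ Lφ : X → ℝ} (hφ : φ ∈ D.V) (hL : D.Lap φ Lφ)
    (h2 : MemLp Lφ 2 μ) {M : ℝ} (hM : ∀ᵐ x ∂μ, |Lφ x| ≤ M) {t : ℝ} (ht : 0 < t) :
    ∀ᵐ x ∂μ, |D.P t φ x - φ x| ≤ M * t := by
  rcases lt_or_ge M 0 with h0 | h0
  · exact hM.mono fun x hx => absurd ((abs_nonneg _).trans hx) (not_le.2 h0)
  have m := D.memLp φ hφ
  have key : ∀ ψ, LipB ψ → (∀ x, 0 ≤ ψ x) →
      ∫ x, ψ x * (-(M * t)) ∂μ ≤ ∫ x, ψ x * (D.P t φ - φ) x ∂μ ∧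
      ∫ x, ψ x * (D.P t φ - φ) x ∂μ ≤ ∫ x, ψ x * (M * t) ∂μ := fun ψ hψ p => by
    have mψ := D.lipB_memLp hψ
    have iψ := D.lipB_int hψ
    have k := hkf_mvt (A := fun s => ∫ x, ψ x * D.P s φ x ∂μ)
      (A' := fun s => ∫ x, ψ x * D.L s φ x ∂μ) (A0 := ∫ x, ψ x * φ x ∂μ)
      (a := ∫ x, ψ x * (-M) ∂μ) (b := ∫ x, ψ x * M ∂μ) ht
      (fun s hs => (((hF.heat φ m).1 s hs).2.2.mul_memLp mψ).hasDerivAt)
      (DS.ca5_mlim (u := fun _ => ψ) (Eventually.of_forall fun _ => mψ)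
        (Eventually.of_forall fun s => hF.memLp φ s m) mψ m
        (by simp only [DS.ca5_n0]; exact tendsto_const_nhds) (hF.heat φ m).2)
      fun s hs => by
        have i := integrable_mul_of_memLp mψ (D.memLp _ (hF.L_mem φ s m hs.1))
        have a : ∀ᵐ x ∂μ, -M ≤ D.L s φ x ∧ D.L s φ x ≤ M := by
          filter_upwards [hF.comm φ hφ Lφ s hL h2 hs.1, hF.markov Lφ s (-M) M h2 (neg_nonpos.2 h0) h0
            (hM.mono fun x hx => abs_le.1 hx)] with x e hx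
          rwa [e]
        exact ⟨integral_mono_ae (iψ.mul_const _) i
            (a.mono fun x hx => mul_le_mul_of_nonneg_left hx.1 (p x)),
          integral_mono_ae i (iψ.mul_const _)
            (a.mono fun x hx => mul_le_mul_of_nonneg_left hx.2 (p x))⟩
    rw [← integral_sub (integrable_mul_of_memLp mψ (hF.memLp φ t m)) (integrable_mul_of_memLp mψ m),
      ← integral_mul_const, ← integral_mul_const] at k
    simp only [Pi.sub_apply, mul_sub]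
    simpa only [mul_assoc, neg_mul] using k
  have li := D.locInt_of_memLp ((hF.memLp φ t m).sub m)
  have lc : ∀ c : ℝ, LocInt μ fun _ => c := fun c =>
    D.locInt_of_locBdd aestronglyMeasurable_const (Bdd.const c).locBdd
  filter_upwards [D.ae_le_of_test (lc (-(M * t))) li isOpen_univ fun ψ a _ b => (key ψ a b).1,
    D.ae_le_of_test li (lc (M * t)) isOpen_univ fun ψ a _ b => (key ψ a b).2] with x a b
  exact abs_le.2 ⟨a trivial, b trivial⟩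

theorem hkf_right (hF : D.Flow) {φ Lφ g : X → ℝ} (hφ : φ ∈ D.V) (hL : D.Lap φ Lφ)
    (h2 : MemLp Lφ 2 μ) (bφ : Bdd μ φ) (bL : Bdd μ Lφ) (hg : Integrable g μ) :
    ∃ t : ℕ → ℝ, Tendsto t atTop (𝓝[>] 0) ∧
      Tendsto (fun k => (t k)⁻¹ * (∫ x, D.P (t k) φ x * g x ∂μ - ∫ x, φ x * g x ∂μ)) atTop
        (𝓝 (∫ x, Lφ x * g x ∂μ)) := by
  obtain ⟨M, hM⟩ := bL
  have m := D.memLp φ hφ
  have p : ∀ k : ℕ, (0 : ℝ) < 1 / (k + 1) := fun k => Nat.one_div_pos_of_nat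
  have h1 : Tendsto (fun k : ℕ => (1 / (k + 1) : ℝ)) atTop (𝓝[>] 0) :=
    tendsto_nhdsWithin_iff.2 ⟨tendsto_one_div_add_atTop_nhds_zero_nat, Eventually.of_forall p⟩
  have mu : ∀ s : ℝ, MemLp (s⁻¹ • (D.P s φ - φ)) 2 μ := fun s =>
    ((hF.memLp φ s m).sub m).const_smul _
  obtain ⟨σ, hσ, h3⟩ := exists_subseq_ae (fun k => mu (1 / (k + 1))) h2
    ((hF.der_zero φ hφ Lφ hL h2).comp h1)
  have bd : ∀ s : ℝ, 0 < s → ∀ᵐ x ∂μ, |(s⁻¹ • (D.P s φ - φ)) x| ≤ M := fun s hs => by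
    filter_upwards [hF.sub_le hφ hL h2 hM hs] with x hx
    rw [Pi.smul_apply, Pi.sub_apply, smul_eq_mul, abs_mul, abs_of_pos (inv_pos.2 hs),
      inv_mul_le_iff₀ hs, mul_comm]
    exact hx
  refine ⟨fun k => 1 / (σ k + 1), h1.comp hσ.tendsto_atTop, ?_⟩
  refine (tendsto_integral_of_dominated_convergence
    (F := fun k x => ((1 / (σ k + 1) : ℝ)⁻¹ • (D.P (1 / (σ k + 1)) φ - φ)) x * g x)
    (fun x => M * |g x|) (fun k => (mu _).1.mul hg.1) (hg.abs.const_mul M) (fun k => ?_)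
    (h3.mono fun x hx => hx.mul_const _)).congr fun k => ?_
  · filter_upwards [bd _ (p (σ k))] with x hx
    rw [norm_mul]
    exact mul_le_mul_of_nonneg_right hx (abs_nonneg _)
  · obtain ⟨C, c0, hC⟩ := bφ.nonneg
    have b : Bdd μ (D.P (1 / (σ k + 1)) φ) := ⟨C, (hF.markov φ _ (-C) C m (neg_nonpos.2 c0.le) c0.le
      (hC.mono fun x hx => abs_le.1 hx)).mono fun x hx => abs_le.2 hx⟩
    rw [← integral_sub (b.mul_integrable (hF.memLp φ _ m).1 hg) (bφ.mul_integrable m.1 hg),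
      ← integral_const_mul]
    simp only [Pi.smul_apply, Pi.sub_apply, smul_eq_mul, mul_assoc, sub_mul]

theorem DS.Flow.be_of_ge (hF : D.Flow)
    (ge : ∀ f ∈ D.V, ∀ φ t, MemLp φ 2 μ → Bdd μ φ → (∀ᵐ x ∂μ, 0 ≤ φ x) → 0 < t →
      ∫ x, φ x * D.G (D.P t f) (D.P t f) x ∂μ + 2 * t / n * ∫ x, φ x * D.L t f x ^ 2 ∂μ ≤
        ∫ x, D.P t φ x * D.G f f x ∂μ) :
    ∀ f ∈ D.V, ∀ Lf ∈ D.V, ∀ φ ∈ D.V, ∀ Lφ, D.Lap f Lf → D.Lap φ Lφ → MemLp Lφ 2 μ →
      (∀ᵐ x ∂μ, 0 ≤ φ x) → Bdd μ φ → Bdd μ Lφ →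
      ∫ x, φ x * (Lf x ^ 2 / n + D.G f Lf x - 0 * D.G f f x) ∂μ ≤
        1 / 2 * ∫ x, Lφ x * D.G f f x ∂μ := by
  intro f hf Lf hLf φ hφ Lφ lf lφ h2 p bφ bL
  have mf := D.memLp f hf
  have mL := D.memLp Lf hLf
  have mφ := D.memLp φ hφ
  have pos : ∀ᶠ t in 𝓝[>] (0 : ℝ), 0 < t := eventually_mem_nhdsWithin
  have vP : ∀ g ∈ D.V, ∀ᶠ t in 𝓝[>] (0 : ℝ), D.P t g ∈ D.V := fun g hg =>
    pos.mono fun t ht => ((hF.heat g (D.memLp g hg)).1 t ht).1
  have lG : ∀ g ∈ D.V, Tendsto (fun t => ∫ x, φ x * D.G (D.P t f) (D.P t g) x ∂μ) (𝓝[>] 0)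
      (𝓝 (∫ x, φ x * D.G f g x ∂μ)) := fun g hg =>
    hkf_test (((vP f hf).and (vP g hg)).mono fun t h => DS.G_int h.1 h.2) (DS.G_int hf hg)
      (DS.G_tendsto (vP f hf) (vP g hg) hf hg (hF.E_zero f hf) (hF.E_zero g hg)) mφ.1 bφ
  have k1 := hkf_slope (A := fun t => ∫ x, φ x * D.G (D.P t f) (D.P t f) x ∂μ)
    (A' := fun t => 2 * ∫ x, φ x * D.G (D.P t f) (D.P t Lf) x ∂μ) (fun s hs => by
      have h := ((hF.derV f s mf hs).G_self.bdd_mul mφ.1 bφ).hasDerivAt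
      refine h.congr_deriv ?_
      rw [← integral_const_mul]
      refine integral_congr_ae ?_
      filter_upwards [DS.G_congr (D.W_of_mem ((hF.heat f mf).1 s hs).1)
        (D.W_of_mem (hF.L_mem f s mf hs)) EventuallyEq.rfl (hF.comm f hf Lf s lf mL hs)] with x e
      rw [e]
      ring) (lG f hf) ((lG Lf hLf).const_mul 2)
  have k2 : Tendsto (fun t => ∫ x, φ x * D.L t f x ^ 2 ∂μ) (𝓝[>] 0)
      (𝓝 (∫ x, φ x * (Lf x * Lf x) ∂μ)) := by
    have a : ∀ᶠ t in 𝓝[>] (0 : ℝ), MemLp (D.P t Lf) 2 μ :=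
      Eventually.of_forall fun t => hF.memLp Lf t mL
    refine (hkf_test (a.mono fun t h => integrable_mul_of_memLp h h) (integrable_mul_of_memLp mL mL)
      (tendsto_integral_mul a a mL mL (hF.heat Lf mL).2 (hF.heat Lf mL).2) mφ.1 bφ).congr' ?_
    filter_upwards [pos] with t ht
    refine integral_congr_ae ?_
    filter_upwards [hF.comm f hf Lf t lf mL ht] with x e
    rw [e, sq]
  obtain ⟨t, t0, k3⟩ := hkf_right hF hφ lφ h2 bφ bL (DS.G_int hf hf)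
  have k4 := (k1.comp t0).add ((k2.comp t0).const_mul (2 / (n : ℝ)))
  have k := le_of_tendsto_of_tendsto k4 k3 (by
    filter_upwards [t0.eventually pos] with k hk
    have h := ge f hf φ (t k) mφ bφ p hk
    have e : 2 / (n : ℝ) * ∫ x, φ x * D.L (t k) f x ^ 2 ∂μ =
        (t k)⁻¹ * (2 * t k / n * ∫ x, φ x * D.L (t k) f x ^ 2 ∂μ) := by
      field_simp
    simp only [Function.comp]
    rw [e, ← mul_add]
    exact mul_le_mul_of_nonneg_left (by linarith) (inv_pos.2 hk).le)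
  have e : ∫ x, φ x * (Lf x ^ 2 / n + D.G f Lf x - 0 * D.G f f x) ∂μ =
      1 / (n : ℝ) * ∫ x, φ x * (Lf x * Lf x) ∂μ + ∫ x, φ x * D.G f Lf x ∂μ := by
    rw [← integral_const_mul, ← integral_add
      ((bφ.mul_integrable mφ.1 (integrable_mul_of_memLp mL mL)).const_mul _)
      (bφ.mul_integrable mφ.1 (DS.G_int hf hLf))]
    exact integral_congr_ae (ae_of_all _ fun x => by ring)
  rw [e]
  have e2 : 2 / (n : ℝ) = 2 * (1 / n) := by ring
  rw [e2, mul_assoc] at k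
  linarith

end RC
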