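import Pool.Agent.P.MP_6472e5_gt.HkU

/-! The approximate carre du champ. -/

set_option autoImplicit false
set_option linter.unusedSectionVars false

noncomputable section

namespace RC

open MeasureTheory Set Filter Topology Metric

variable {Z : Type} [MetricSpace Z] [ProperSpace Z] [MeasurableSpace Z] [BorelSpace Z]
  {ν : Measure Z} {k : ℝ → Z → Z → ℝ} {n : ℕ}

theorem kG_congr {f f' g g' : Z → ℝ} (hf : f =ᵐ[ν] f') (hg : g =ᵐ[ν] g') (t : ℝ) :
    kG ν k t f g = kG ν k t f' g' := by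
  funext x
  have e : (fun y => f y * g y) =ᵐ[ν] fun y => f' y * g' y := hf.mul hg
  rw [kG, kG, kT_congr e, kT_congr hf, kT_congr hg]

theorem kG_symm (f g : Z → ℝ) (t : ℝ) : kG ν k t f g = kG ν k t g f := by
  funext x
  simp only [kG, mul_comm (f _), mul_comm (kT ν k t f x)]

theorem kG_smul (c : ℝ) (f g : Z → ℝ) (t : ℝ) : kG ν k t (c • f) g = c • kG ν k t f g := by
  funext x
  have e : (fun y => (c • f) y * g y) = c • fun y => f y * g y := funext fun y => mul_assoc _ _ _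
  rw [kG, e, kT_smul, kT_smul, Pi.smul_apply, kG, smul_eq_mul]
  ring

namespace HK0

variable (h : HK0 ν k) {t : ℝ} {f f' g g' : Z → ℝ}
include h

theorem hkg_int (hf : MemLp f 2 ν) (hg : MemLp g 2 ν) (ht : 0 < t) (x : Z) :
    Integrable (fun y => k t x y * (f y * g y)) ν :=
  h.int_l1 (integrable_mul_of_memLp hf hg) ht x

theorem kG_add (hf : MemLp f 2 ν) (hf' : MemLp f' 2 ν) (hg : MemLp g 2 ν) (ht : 0 < t) :
    kG ν k t (f + f') g = kG ν k t f g + kG ν k t f' g := by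
  funext x
  have e : (fun y => (f + f') y * g y) = (fun y => f y * g y) + fun y => f' y * g y :=
    funext fun y => add_mul _ _ _
  rw [kG, e, kT_add (h.hkg_int hf hg ht x) (h.hkg_int hf' hg ht x),
    kT_add (h.int_l2 hf ht x) (h.int_l2 hf' ht x), Pi.add_apply, kG, kG]
  ring

theorem kG_sub (hf : MemLp f 2 ν) (hf' : MemLp f' 2 ν) (hg : MemLp g 2 ν) (ht : 0 < t) :
    kG ν k t (f - f') g = kG ν k t f g - kG ν k t f' g := by
  funext x
  have e : (fun y => (f - f') y * g y) = (fun y => f y * g y) - fun y => f' y * g y :=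
    funext fun y => sub_mul _ _ _
  rw [kG, e, kT_sub (h.hkg_int hf hg ht x) (h.hkg_int hf' hg ht x),
    kT_sub (h.int_l2 hf ht x) (h.int_l2 hf' ht x), Pi.sub_apply, kG, kG]
  ring

theorem hkg_exp (hf : MemLp f 2 ν) (hg : MemLp g 2 ν) (ht : 0 < t) (x : Z) :
    kG ν k t (f + g) (f + g) x = kG ν k t f f x + 2 * kG ν k t f g x + kG ν k t g g x := by
  simp only [h.kG_add hf hg (hf.add hg) ht, kG_symm f (f + g), kG_symm g (f + g),
    h.kG_add hf hg hf ht, h.kG_add hf hg hg ht, Pi.add_apply, kG_symm g f]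
  ring

theorem kG_nonneg (hf : MemLp f 2 ν) (ht : 0 < t) (x : Z) : 0 ≤ kG ν k t f f x :=
  mul_nonneg (by positivity)
    (sub_nonneg.2 (h.kT_sq_le ht (h.int_l2 hf ht x) (h.hkg_int hf hf ht x)))

theorem kG_abs_le (hf : MemLp f 2 ν) (hg : MemLp g 2 ν) (ht : 0 < t) (x : Z) :
    |kG ν k t f g x| ≤ √(kG ν k t f f x) * √(kG ν k t g g x) := by
  have h1 := discrim_le_zero (a := kG ν k t f f x) (b := 2 * kG ν k t f g x) (c := kG ν k t g g x)
    fun c => by
      have h2 := h.kG_nonneg ((hf.const_smul c).add hg) ht x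
      rw [h.hkg_exp (hf.const_smul c) hg ht, kG_smul, kG_smul, kG_symm f (c • f), kG_smul] at h2
      simp only [Pi.smul_apply, smul_eq_mul] at h2
      linarith
  rw [← Real.sqrt_mul (h.kG_nonneg hf ht x)]
  refine Real.abs_le_sqrt ?_
  rw [discrim] at h1
  linarith

theorem kG_int (hf : MemLp f 2 ν) (hg : MemLp g 2 ν) (ht : 0 < t) :
    Integrable (kG ν k t f g) ν :=
  ((h.kT_l1 (integrable_mul_of_memLp hf hg) ht).1.sub
    (integrable_mul_of_memLp (h.kT_l2 hf ht).1 (h.kT_l2 hg ht).1)).const_mul _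

theorem hkg_two (hf : MemLp f 2 ν) (hg : MemLp g 2 ν) (ht : 0 < t) :
    ∫ x, f x * kT ν k (2 * t) g x ∂ν = ∫ x, kT ν k t f x * kT ν k t g x ∂ν := by
  rw [h.kT_symm2 hf (h.kT_l2 hg ht).1 ht, two_mul]
  simp only [fun x => h.kT_semi hg.1 ht ht (h.int_l2 hg (add_pos ht ht) x)]

theorem kE_eq (hf : MemLp f 2 ν) (hg : MemLp g 2 ν) (ht : 0 < t) :
    kE ν k t f g = (2 * t)⁻¹ * (∫ x, f x * g x ∂ν - ∫ x, f x * kT ν k (2 * t) g x ∂ν) := by
  have h1 := h.kT_l1 (integrable_mul_of_memLp hf hg) ht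
  simp only [kE, kG]
  rw [integral_const_mul, integral_sub h1.1
    (integrable_mul_of_memLp (h.kT_l2 hf ht).1 (h.kT_l2 hg ht).1), h1.2, h.hkg_two hf hg ht]

theorem kE_nonneg (hf : MemLp f 2 ν) (ht : 0 < t) : 0 ≤ kE ν k t f f :=
  integral_nonneg (h.kG_nonneg hf ht)

theorem kE_le (hf : MemLp f 2 ν) (ht : 0 < t) : kE ν k t f f ≤ (2 * t)⁻¹ * n2 ν f := by
  rw [h.kE_eq hf hf ht, h.hkg_two hf hf ht]
  refine mul_le_mul_of_nonneg_left ?_ (by positivity)
  simp only [n2, sq]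
  exact sub_le_self _ (integral_nonneg fun _ => mul_self_nonneg _)

theorem kE_two (hf : MemLp f 2 ν) (ht : 0 < t) : kE ν k (2 * t) f f ≤ kE ν k t f f := by
  have h2 : 0 < 2 * t := by linarith
  have h3 := (h.kT_l2 hf h2).1
  have h4 : 0 ≤ ∫ x, (f x * f x - 2 * (f x * kT ν k (2 * t) f x) +
      kT ν k (2 * t) f x * kT ν k (2 * t) f x) ∂ν :=
    integral_nonneg fun x => by
      simp only [Pi.zero_apply]
      nlinarith [sq_nonneg (f x - kT ν k (2 * t) f x)]
  have i1 := integrable_mul_of_memLp hf hf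
  have i2 := (integrable_mul_of_memLp hf h3).const_mul 2
  rw [integral_add (i1.sub' i2) (integrable_mul_of_memLp h3 h3), integral_sub i1 i2,
    integral_const_mul] at h4
  rw [h.kE_eq hf hf ht, h.kE_eq hf hf h2, h.hkg_two hf hf h2, mul_inv 2 (2 * t), mul_comm 2⁻¹,
    mul_assoc]
  exact mul_le_mul_of_nonneg_left (by linarith) (by positivity)

theorem kE_mono (hf : MemLp f 2 ν) : Monotone fun j => kE ν k (hj j) f f :=
  monotone_nat_of_le_succ fun j => by
    rw [hj_succ j]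
    exact h.kE_two hf (hj_pos _)

theorem wl_le (hf : MemLp f 2 ν) {w : Z → ℝ} (hw : WL ν (fun j => kG ν k (hj j) f f) w) (j : ℕ) :
    kE ν k (hj j) f f ≤ ∫ x, w x ∂ν := by
  have h1 := hw.2.2 (fun _ => 1) aestronglyMeasurable_const ⟨1, by simp⟩
  simp only [one_mul] at h1
  exact ge_of_tendsto h1 (((eventually_ge_atTop j).filter_mono Nat.hyperfilter_le_atTop).mono
    fun _ c => h.kE_mono hf c)

theorem hkg_sqrt (hf : MemLp f 2 ν) (ht : 0 < t) : MemLp (fun x => √(kG ν k t f f x)) 2 ν ∧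
    n2 ν (fun x => √(kG ν k t f f x)) = kE ν k t f f := by
  have h1 := h.kG_int hf hf ht
  rw [memLp_two_iff_integrable_sq (Real.continuous_sqrt.comp_aestronglyMeasurable h1.1)]
  simp only [n2, Real.sq_sqrt (h.kG_nonneg hf ht _)]
  exact ⟨h1, rfl⟩

theorem kG_int_le (hf : MemLp f 2 ν) (hg : MemLp g 2 ν) (ht : 0 < t) :
    ∫ x, |kG ν k t f g x| ∂ν ≤ √(kE ν k t f f) * √(kE ν k t g g) := by
  obtain ⟨a1, a2⟩ := h.hkg_sqrt hf ht
  obtain ⟨a3, a4⟩ := h.hkg_sqrt hg ht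
  rw [← a2, ← a4]
  exact (integral_mono (h.kG_int hf hg ht).abs (integrable_mul_of_memLp a1 a3).abs fun x =>
    (h.kG_abs_le hf hg ht x).trans (le_abs_self _)).trans (integral_abs_mul_le a1 a3)

theorem sqrt_kE_add_le (hf : MemLp f 2 ν) (hg : MemLp g 2 ν) (ht : 0 < t) :
    √(kE ν k t (f + g) (f + g)) ≤ √(kE ν k t f f) + √(kE ν k t g g) := by
  have i1 := h.kG_int hf hf ht
  have i2 := (h.kG_int hf hg ht).const_mul 2
  have h1 : kE ν k t (f + g) (f + g) = kE ν k t f f + 2 * kE ν k t f g + kE ν k t g g := by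
    simp only [kE, h.hkg_exp hf hg ht]
    rw [integral_add (i1.fun_add i2) (h.kG_int hg hg ht), integral_add i1 i2, integral_const_mul]
  have h2 : kE ν k t f g ≤ √(kE ν k t f f) * √(kE ν k t g g) :=
    ((le_abs_self _).trans abs_integral_le_integral_abs).trans (h.kG_int_le hf hg ht)
  refine Real.sqrt_le_iff.2 ⟨by positivity, ?_⟩
  rw [h1, add_sq, Real.sq_sqrt (h.kE_nonneg hf ht), Real.sq_sqrt (h.kE_nonneg hg ht)]
  linarith

theorem kG_diff_le (hf : MemLp f 2 ν) (hf' : MemLp f' 2 ν) (hg : MemLp g 2 ν)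
    (hg' : MemLp g' 2 ν) (ht : 0 < t) : ∫ x, |kG ν k t f g x - kG ν k t f' g' x| ∂ν ≤
      √(kE ν k t (f - f') (f - f')) * √(kE ν k t g g) +
        √(kE ν k t f' f') * √(kE ν k t (g - g') (g - g')) := by
  have i1 := (h.kG_int (hf.sub hf') hg ht).abs
  have i2 := (h.kG_int hf' (hg.sub hg') ht).abs
  refine le_trans ?_ (add_le_add (h.kG_int_le (hf.sub hf') hg ht) (h.kG_int_le hf' (hg.sub hg') ht))
  rw [← integral_add i1 i2]
  refine integral_mono ((h.kG_int hf hg ht).sub (h.kG_int hf' hg' ht)).abs (i1.add i2) fun x => ?_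
  simp only [h.kG_sub hf hf' hg ht, kG_symm f' (g - g'), h.kG_sub hg hg' hf' ht, Pi.sub_apply,
    kG_symm g f', kG_symm g' f']
  exact abs_sub_le _ _ _

theorem kG_two (hf : MemLp f 2 ν) (ht : 0 < t) (x : Z) : kG ν k (2 * t) f f x =
    (kT ν k t (kG ν k t f f) x + kG ν k t (kT ν k t f) (kT ν k t f) x) / 2 := by
  have h2 : 0 < t + t := by linarith
  have i1 := integrable_mul_of_memLp hf hf
  have h3 := (h.kT_l2 hf ht).1
  have e : kG ν k t f f = (2 * t)⁻¹ • (kT ν k t (fun y => f y * f y) -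
      fun y => kT ν k t f y * kT ν k t f y) := rfl
  rw [e, kT_smul, kT_sub (h.int_l1 (h.kT_l1 i1 ht).1 ht x) (h.hkg_int h3 h3 ht x), kG, kG,
    ← h.kT_semi i1.1 ht ht (h.int_l1 i1 h2 x), ← h.kT_semi hf.1 ht ht (h.int_l2 hf h2 x),
    ← two_mul, mul_inv 2 (2 * t)]
  ring

/-- Uniform continuity with respect to the norm of `L²`. -/
theorem kG_unif (ht : 0 < t) : ∃ C, 0 ≤ C ∧ ∀ f g, MemLp f 2 ν → MemLp g 2 ν → ∀ x,
    |kG ν k t f f x - kG ν k t g g x| ≤ C * (√(n2 ν (f - g)) * (√(n2 ν f) + √(n2 ν g))) := by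
  obtain ⟨C, c0, c1⟩ := h.kT_le_l1 ht
  obtain ⟨C', c2, c3⟩ := h.kT_le_l2 ht
  refine ⟨(2 * t)⁻¹ * (C + C' * C'), by positivity, fun f g hf hg x => ?_⟩
  have e : ((fun y => f y * f y) - fun y => g y * g y) = fun y => (f - g) y * (f + g) y := by
    funext y
    simp only [Pi.sub_apply, Pi.add_apply]
    ring
  have a1 := c1 _ (integrable_mul_of_memLp (hf.sub hg) (hf.add hg)) x
  have a2 := (integral_abs_mul_le (hf.sub hg) (hf.add hg)).trans
    (mul_le_mul_of_nonneg_left (sqrt_n2_add_le hf hg) (Real.sqrt_nonneg _))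
  rw [← e, kT_sub (h.hkg_int hf hf ht x) (h.hkg_int hg hg ht x)] at a1
  have a3 := c3 _ (hf.sub hg) x
  rw [kT_sub (h.int_l2 hf ht x) (h.int_l2 hg ht x)] at a3
  have a4 := mul_le_mul a3 ((abs_add_le _ _).trans (add_le_add (c3 f hf x) (c3 g hg x)))
    (abs_nonneg _) (by positivity)
  rw [← abs_mul] at a4
  rw [kG, kG, ← mul_sub, abs_mul, abs_of_pos (by positivity : 0 < (2 * t)⁻¹), mul_assoc]
  refine mul_le_mul_of_nonneg_left ?_ (by positivity)
  have a5 := abs_le.1 (a1.trans (mul_le_mul_of_nonneg_left a2 c0))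
  have a6 := abs_le.1 a4
  exact abs_le.2 ⟨by linarith, by linarith⟩

/-- Locality. -/
theorem kG_loc {ρ ε : ℝ} (M : ℝ) (hρ : 0 < ρ) (hε : 0 < ε) : ∀ᶠ t in 𝓝[>] (0 : ℝ),
    ∀ (f g : Z → ℝ) (x : Z), AEStronglyMeasurable f ν → AEStronglyMeasurable g ν →
      (∀ y, |f y| ≤ M) → (∀ y, |g y| ≤ M) → EqOn f g (ball x ρ) →
      |kG ν k t f f x - kG ν k t g g x| ≤ ε := by
  have h0 : 0 < 3 * M ^ 2 + 1 := by positivity
  filter_upwards [h.tail ρ (ε / (3 * M ^ 2 + 1)) hρ (by positivity), self_mem_nhdsWithin]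
    with t a1 ht f g x hf hg bf bg he
  have ht : 0 < t := ht
  have hM : 0 ≤ M := (abs_nonneg _).trans (bf x)
  have sq : ∀ u : Z → ℝ, (∀ y, |u y| ≤ M) → ∀ y, |u y * u y| ≤ M * M := fun u hu y => by
    rw [abs_mul]
    exact mul_self_le_mul_self (abs_nonneg _) (hu y)
  have a2 := (h.kT_loc (hf.mul hf) (hg.mul hg) (sq f bf) (sq g bg) ht fun y hy => by
    simp only [Pi.mul_apply, he hy]).trans (mul_le_mul_of_nonneg_left (a1 x) (by positivity))
  have a3 := (h.kT_loc hf hg bf bg ht he).trans (mul_le_mul_of_nonneg_left (a1 x) (by positivity))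
  have a4 := mul_le_mul a3 ((abs_add_le _ _).trans (add_le_add
    (h.kT_abs_le (Eventually.of_forall bf) ht x) (h.kT_abs_le (Eventually.of_forall bg) ht x)))
    (abs_nonneg _) (by positivity)
  rw [← abs_mul] at a4
  rw [kG, kG, ← mul_sub, abs_mul, abs_of_pos (by positivity : 0 < (2 * t)⁻¹),
    inv_mul_le_iff₀ (by positivity)]
  have a5 : ε / (3 * M ^ 2 + 1) * t * (3 * M ^ 2 + 1) = ε * t := by field_simp
  have a6 : 0 ≤ ε / (3 * M ^ 2 + 1) * t := by positivity
  have a7 := abs_le.1 a2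
  have a8 := abs_le.1 a4
  change _ ≤ kT ν k t (fun y => f y * f y) x - kT ν k t (fun y => g y * g y) x ∧
    kT ν k t (fun y => f y * f y) x - kT ν k t (fun y => g y * g y) x ≤ _ at a7
  exact abs_le.2 ⟨by linarith, by linarith⟩

/-- Tightness. -/
theorem kG_tail (hf : MemLp f 2 ν) {x₀ : Z} {R : ℝ} (h0 : ∀ y, y ∉ ball x₀ R → f y = 0) :
    Tendsto (fun t => ∫ x in (ball x₀ (R + 1))ᶜ, kG ν k t f f x ∂ν) (𝓝[>] 0) (𝓝 0) := by
  have i1 := integrable_mul_of_memLp hf hf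
  have hB : MeasurableSet (ball x₀ (R + 1))ᶜ := measurableSet_ball.compl
  have hn : 0 ≤ ∫ y, f y * f y ∂ν := integral_nonneg fun _ => mul_self_nonneg _
  refine Metric.tendsto_nhds.2 fun ε hε => ?_
  filter_upwards [h.tail 1 (ε / (∫ y, f y * f y ∂ν + 1)) one_pos (by positivity),
    self_mem_nhdsWithin] with t a1 ht
  have ht : 0 < t := ht
  rw [Real.dist_0_eq_abs, abs_of_nonneg (integral_nonneg (h.kG_nonneg hf ht))]
  have a2 := h.kT_symm1 (ψ := (ball x₀ (R + 1))ᶜ.indicator 1)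
    (aestronglyMeasurable_one.indicator hB) ⟨1, Eventually.of_forall fun y => by
      by_cases c : y ∈ (ball x₀ (R + 1))ᶜ <;> simp [c]⟩ i1 ht
  simp only [← indicator_mul_left, Pi.one_apply, one_mul] at a2
  rw [integral_indicator hB] at a2
  have a3 : ∫ y, kT ν k t ((ball x₀ (R + 1))ᶜ.indicator 1) y * (f y * f y) ∂ν ≤
      ∫ y, ε / (∫ y, f y * f y ∂ν + 1) * t * (f y * f y) ∂ν := by
    refine integral_mono_of_nonneg (Eventually.of_forall fun y => mul_nonneg (h.kT_nonneg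
      (Eventually.of_forall fun _ => indicator_nonneg (fun _ _ => zero_le_one) _) ht y)
      (mul_self_nonneg _)) (i1.const_mul _) (Eventually.of_forall fun y => ?_)
    by_cases c : y ∈ ball x₀ R
    · refine mul_le_mul_of_nonneg_right (le_trans ?_ (a1 y)) (mul_self_nonneg _)
      simp only [kT, ← indicator_mul_right, Pi.one_apply, mul_one]
      rw [integral_indicator hB]
      refine setIntegral_mono_set (h.int t y ht).integrableOn
        (Eventually.of_forall fun z => h.nonneg t y z ht)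
        (LE.le.eventuallyLE (compl_subset_compl.2 (ball_subset_ball' ?_)))
      linarith [mem_ball.1 c]
    · simp [h0 y c]
  have a4 : ∫ x in (ball x₀ (R + 1))ᶜ, kG ν k t f f x ∂ν ≤
      ∫ x in (ball x₀ (R + 1))ᶜ, (2 * t)⁻¹ * kT ν k t (fun y => f y * f y) x ∂ν :=
    integral_mono (h.kG_int hf hf ht).integrableOn ((h.kT_l1 i1 ht).1.const_mul _).integrableOn
      fun x => mul_le_mul_of_nonneg_left (sub_le_self _ (mul_self_nonneg _)) (by positivity)
  rw [integral_const_mul] at a3 a4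
  refine a4.trans_lt ?_
  rw [← a2, inv_mul_lt_iff₀ (by positivity)]
  have a5 : ε / (∫ y, f y * f y ∂ν + 1) * t * (∫ y, f y * f y ∂ν + 1) = ε * t := by field_simp
  have a6 : 0 < ε / (∫ y, f y * f y ∂ν + 1) * t := by positivity
  have a7 := mul_pos hε ht
  linarith

end HK0

end RC
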