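import Pool.Agent.P.MP_6472e5_gt.HkG
import Pool.Agent.P.MP_6472e5_gt.HkW
import Pool.Agent.P.MP_6472e5_gt.Ca5

/-! The semigroup preserves the domain. -/

set_option autoImplicit false
set_option linter.unusedSectionVars false

noncomputable section

namespace RC

open MeasureTheory Set Filter Topology Metric

variable {Z : Type} [MetricSpace Z] [ProperSpace Z] [MeasurableSpace Z] [BorelSpace Z]
  {ν : Measure Z} {k : ℝ → Z → Z → ℝ} {n : ℕ}

variable {E : DS ν}

theorem hkp_le {a b c : ℝ} (h : ∀ δ : ℝ, 0 < δ → a ≤ b + c * δ) : a ≤ b := by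
  have l : Tendsto (fun δ : ℝ => b + c * δ) (𝓝[>] 0) (𝓝 (b + c * 0)) :=
    ((continuous_const.add (continuous_const.mul continuous_id)).tendsto 0).mono_left
      nhdsWithin_le_nhds
  rw [mul_zero, add_zero] at l
  exact ge_of_tendsto l (eventually_nhdsWithin_of_forall h)

theorem hkp_pt (h : HK ν n k) {g : Z → ℝ} (hg : LipB g) {s t : ℝ} (hs : 0 < s) (ht : s ≤ t)
    (x : Z) : kG ν k s (kT ν k t g) (kT ν k t g) x ≤ kT ν k t (kG ν k s g g) x := by
  obtain ⟨C, hC⟩ := h.be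
  obtain ⟨M, hM⟩ := hg.bound
  refine hkp_le (c := C * M ^ 2 / (t + s) ^ 2) fun δ hδ => ?_
  have a := hC g M (t - s) s δ x hg.continuous hM (sub_nonneg.2 ht) hs hδ
  have e : t - s + 2 * s = t + s := by ring
  rw [sub_add_cancel, e] at a
  have q : 0 ≤ t - s := sub_nonneg.2 ht
  have p : 0 ≤ 2 * (t - s) / n * ((kT ν k (t + s + δ) g x - kT ν k (t + s) g x) / δ) ^ 2 := by
    positivity
  have r : C * M ^ 2 * δ / (t + s) ^ 2 = C * M ^ 2 / (t + s) ^ 2 * δ := by ring
  linarith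

theorem HK.kE_kT (h : HK ν n k) {g : Z → ℝ} (hg : LipB g) {s t : ℝ} (hs : 0 < s) (ht : s ≤ t) :
    kE ν k s (kT ν k t g) (kT ν k t g) ≤ kE ν k s g g := by
  have t0 : 0 < t := hs.trans_le ht
  have g2 := (h.toHK0.lipB_int hg).2
  have u2 := (h.toHK0.kT_l2 g2 t0).1
  have i1 := h.toHK0.kT_l1 (h.toHK0.kG_int g2 g2 hs) t0
  unfold kE
  rw [← i1.2]
  exact integral_mono (h.toHK0.kG_int u2 u2 hs) i1.1 (hkp_pt h hg hs ht)

theorem hkp_ball (h : HK0 ν k) (hE : KD E k) {u : Z → ℝ} {L : NNReal} (hL : LipschitzWith L u)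
    {M : ℝ} (hM : ∀ x, |u x| ≤ M) (u2 : MemLp u 2 ν) {I : ℝ}
    (hI : ∀ᶠ j in (hyperfilter ℕ : Filter ℕ), kE ν k (hj j) u u ≤ I) (x₀ : Z) (R : ℝ) :
    ∫ x in ball x₀ R, E.G u u x ∂ν ≤ I := by
  obtain ⟨χ, hχ, h01, h1, -, -⟩ := exists_cutoff_ball x₀ (show R + 1 < R + 2 by linarith)
  have hv : LipB (χ * u) := hχ.mul_loc fun _ _ => ⟨L, hL.lipschitzOnWith⟩
  have vV := E.lip _ hv
  have v2 := E.memLp _ vV
  have vM : ∀ x, |(χ * u) x| ≤ M := fun x => by
    rw [Pi.mul_apply, abs_mul, abs_of_nonneg (h01 x).1]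
    exact (mul_le_of_le_one_left (abs_nonneg _) (h01 x).2).trans (hM x)
  have eq : ∀ x ∈ ball x₀ R, EqOn (χ * u) u (ball x 1) := fun x hx y hy => by
    have : y ∈ closedBall x₀ (R + 1) := by
      rw [mem_ball] at hx hy
      rw [mem_closedBall]
      linarith [dist_triangle y x x₀]
    rw [Pi.mul_apply, h1 y this, one_mul]
  have e1 : ∫ x in ball x₀ R, E.G u u x ∂ν = ∫ x in ball x₀ R, E.G (χ * u) (χ * u) x ∂ν := by
    refine setIntegral_congr_ae measurableSet_ball ?_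
    filter_upwards [DS.G_loc (E.W_of_lipschitz hL) (E.W_of_mem vV) (E.W_of_lipschitz hL)
      (E.W_of_mem vV)] with x a hx
    have b := (eq x hx (mem_ball_self one_pos)).symm
    exact a b b
  have ind : ∀ w : Z → ℝ, ∫ x, (ball x₀ R).indicator (fun _ => (1 : ℝ)) x * w x ∂ν =
      ∫ x in ball x₀ R, w x ∂ν := fun w => by
    rw [← integral_indicator measurableSet_ball]
    refine integral_congr_ae (Eventually.of_forall fun x => ?_)
    by_cases hx : x ∈ ball x₀ R <;> simp [hx]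
  have lim := (hE _ vV _ vV).2.2 ((ball x₀ R).indicator fun _ => (1 : ℝ))
    (aestronglyMeasurable_const.indicator measurableSet_ball)
    ⟨1, Eventually.of_forall fun x => by by_cases hx : x ∈ ball x₀ R <;> simp [hx]⟩
  simp only [ind] at lim
  rw [e1]
  refine hkp_le (c := ν.real (ball x₀ R)) fun ε hε => le_of_tendsto lim ?_
  filter_upwards [hI, hj_hyper.eventually (h.kG_loc M one_pos hε)] with j a b
  have iu := h.kG_int u2 u2 (hj_pos j)
  have iv := h.kG_int v2 v2 (hj_pos j)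
  have ic : IntegrableOn (fun _ => ε) (ball x₀ R) ν := integrableOn_const (h.fin x₀ R).ne
  calc ∫ x in ball x₀ R, kG ν k (hj j) (χ * u) (χ * u) x ∂ν
      ≤ ∫ x in ball x₀ R, (kG ν k (hj j) u u x + ε) ∂ν := by
        refine setIntegral_mono_on iv.integrableOn (iu.integrableOn.add ic) measurableSet_ball
          fun x hx => ?_
        have c := b (χ * u) u x v2.1 u2.1 vM hM (eq x hx)
        linarith [(abs_le.1 c).2]
    _ = ∫ x in ball x₀ R, kG ν k (hj j) u u x ∂ν + ν.real (ball x₀ R) * ε := by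
        rw [integral_add iu.integrableOn ic, setIntegral_const, smul_eq_mul]
    _ ≤ I + ν.real (ball x₀ R) * ε := by
        have c := setIntegral_le_integral (s := ball x₀ R) iu
          (Eventually.of_forall (h.kG_nonneg u2 (hj_pos j)))
        unfold kE at a
        linarith

theorem HK.kT_mem (h : HK ν n k) (hE : KD E k) {g : Z → ℝ} (hg : LipB g) {t : ℝ} (ht : 0 < t) :
    kT ν k t g ∈ E.V := by
  obtain ⟨M, hM⟩ := hg.bound
  obtain ⟨L, hL⟩ := hg.1
  have g2 := (h.toHK0.lipB_int hg).2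
  have u2 := (h.toHK0.kT_l2 g2 ht).1
  have uL : LipschitzWith L (kT ν k t g) := LipschitzWith.of_dist_le_mul fun x y =>
    h.lip g M L t hg.continuous hM L.2 ht (fun z => h.var g L M t z hL hM ht) x y
  have uM := h.toHK0.kT_abs_le (Eventually.of_forall hM) ht
  have uW := E.W_of_lipschitz uL
  refine uW.mem u2 ?_
  have gV := E.lip g hg
  have hI : ∀ᶠ j in (hyperfilter ℕ : Filter ℕ),
      kE ν k (hj j) (kT ν k t g) (kT ν k t g) ≤ ∫ x, E.G g g x ∂ν := by
    filter_upwards [(hj_hyper.mono_right nhdsWithin_le_nhds).eventually (ge_mem_nhds ht)] with j a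
    exact (h.kE_kT hg (hj_pos j) a).trans (h.toHK0.wl_le g2 (hE g gV g gV) j)
  rcases isEmpty_or_nonempty Z with hZ | ⟨⟨x₀⟩⟩
  · exact Integrable.of_isEmpty
  · exact (aecover_ball (μ := ν) (x := x₀) (tendsto_id (x := (atTop : Filter ℝ)))).integrable_of_integral_bounded_of_nonneg_ae
      _ (fun R => DS.G_locInt uW uW x₀ R) (DS.G_nonneg uW)
      (Eventually.of_forall fun R => hkp_ball h.toHK0 hE uL uM u2 hI x₀ R)

end RC
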