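import Pool.Agent.P.MP_6472e5_gt.Core

/-! The heat kernel, the monotone quantity, cones, blow-ups. -/

set_option autoImplicit false
set_option linter.unusedSectionVars false

noncomputable section

namespace RC

open MeasureTheory Set Filter Topology Metric

/-- The Euclidean value of `r ^ n * p (r ^ 2) x x`. -/
def θ (n : ℕ) : ℝ := ((2 * √Real.pi) ^ n)⁻¹

/-- The half-space of dimension `k + 1`. -/
abbrev Half (k : ℕ) : Type := WithLp 2 (Euc k × NNReal)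

/-- The origin of the half-space. -/
def hz (k : ℕ) : Half k := WithLp.toLp 2 (0, 0)

section

variable {X : Type} [MetricSpace X]

open Classical in
/-- The image of `y` under the homothety of centre `e` and ratio `l`. -/
def hom (e : X) (l : ℝ) (y : X) : X :=
  if h : ∃ w, dist e w = l * dist e y ∧ dist w y = |1 - l| * dist e y then h.choose else y

/-- Every ball `B(z, s)` with `z ∈ B(x, r)`, `s ≤ r` is close to a Euclidean ball. -/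
def Reif (n : ℕ) (x : X) (r ε : ℝ) : Prop :=
  ∀ z ∈ ball x r, ∀ s, 0 < s → s ≤ r → ∃ φ, GHApprox z s (0 : Euc n) 100 ε φ

/-- Bounded centres and scales tending to zero. -/
structure Seq (U : Ultrafilter ℕ) (y : ℕ → X) (r : ℕ → ℝ) : Prop where
  bdd : ∃ x R, ∀ i, y i ∈ ball x R
  pos : ∀ i, 0 < r i
  lim : Tendsto r U (𝓝 0)

variable [MeasurableSpace X] {μ : Measure X}

namespace DS

variable (D : DS μ)

/-- `p` is a continuous kernel of the heat flow. -/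
def IsKer (p : ℝ → X → X → ℝ) : Prop :=
  ContinuousOn (fun a : ℝ × X × X => p a.1 a.2.1 a.2.2) (Ioi 0 ×ˢ univ) ∧
    (∀ t x, 0 < t → MemLp (p t x) 2 μ) ∧
    ∀ f t, MemLp f 2 μ → 0 < t → D.P t f =ᵐ[μ] fun x => ∫ y, p t x y * f y ∂μ

/-- The heat kernel. -/
def p : ℝ → X → X → ℝ := Classical.epsilon D.IsKer

/-- The time derivative of the heat kernel. -/
def dp (t : ℝ) (x y : X) : ℝ := deriv (fun s => D.p s x y) t

/-- The heat flow given by the kernel. -/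
def Pk (t : ℝ) (f : X → ℝ) (x : X) : ℝ := ∫ y, D.p t x y * f y ∂μ

/-- The Laplacian of the heat flow given by the kernel. -/
def Lk (t : ℝ) (f : X → ℝ) (x : X) : ℝ := ∫ y, D.dp t x y * f y ∂μ

/-- The almost monotone quantity. -/
def Θ (n : ℕ) (x : X) (r : ℝ) : ℝ := r ^ n * D.p (r ^ 2) x x

/-- Its limit at scale zero. -/
def Θ0 (n : ℕ) (x : X) : ℝ := limUnder (𝓝[>] 0) (D.Θ n x)

/-- Centres: points at which the monotone quantity is constant. -/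
def Ctr (n : ℕ) (z : X) : Prop := ∀ r s, 0 < r → 0 < s → D.Θ n z r = D.Θ n z s

end DS

/-- Existence of the kernel, Li-Yau and Harnack inequalities. -/
structure R2 (D : DS μ) (κ : ℝ) (n : ℕ) : Prop extends R1 D κ n where
  ker : D.IsKer D.p
  p_pos : ∀ t x y, 0 < t → 0 < D.p t x y
  p_symm : ∀ t x y, 0 < t → D.p t x y = D.p t y x
  p_int : ∀ t x, 0 < t → Integrable (D.p t x) μ
  p_one : ∀ t x, 0 < t → ∫ y, D.p t x y ∂μ = 1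
  p_bdd : ∀ t x, 0 < t → ∃ C, ∀ y, D.p t x y ≤ C
  ck : ∀ s t x y, 0 < s → 0 < t → D.p (s + t) x y = ∫ z, D.p s x z * D.p t z y ∂μ
  der : ∀ t x y, 0 < t → HasDerivAt (fun s => D.p s x y) (D.dp t x y) t
  dp_cont : ContinuousOn (fun a : ℝ × X × X => D.dp a.1 a.2.1 a.2.2) (Ioi 0 ×ˢ univ)
  dp_symm : ∀ t x y, 0 < t → D.dp t x y = D.dp t y x
  dp_int : ∀ t x, 0 < t → Integrable (D.dp t x) μ
  dck : ∀ s t x y, 0 < s → 0 < t → D.dp (s + t) x y = ∫ z, D.dp s x z * D.p t z y ∂μ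
  p_tb : ∀ t x, 0 < t → D.Tb (D.p t x) (D.dp t x)
  P_p : ∀ s t x, 0 ≤ s → 0 < t → D.P s (D.p t x) =ᵐ[μ] D.p (s + t) x
  L_p : ∀ s t x, 0 < s → 0 < t → D.L s (D.p t x) =ᵐ[μ] D.dp (s + t) x
  L_rep : ∀ f t, MemLp f 2 μ → 0 < t → D.L t f =ᵐ[μ] D.Lk t f
  P_l1 : ∀ φ g t, MemLp φ 2 μ → Bdd μ φ → Integrable g μ → 0 < t →
    ∫ x, D.P t φ x * g x ∂μ = ∫ x, φ x * D.Pk t g x ∂μ
  ly : ∀ t x, 0 < t → ∀ᵐ y ∂μ, D.G (D.p t x) (D.p t x) y ≤ D.p t x y *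
    ((1 + 2 * κ * t / 3) * D.dp t x y + n / 2 * (1 / t + κ + κ ^ 2 * t / 3) * D.p t x y)
  harn : ∀ s t z x y, 0 < s → s < t → D.p s z x ≤ D.p t z y * √((t / s) ^ n) *
    Real.exp (n * κ * t + (1 + κ * t) * dist x y ^ 2 / (4 * (t - s)))
  ls2l : ∀ f, D.W f → ∀ (x : X) (R : ℝ) (L : NNReal),
    (∀ᵐ y ∂μ, y ∈ ball x R → D.G f f y ≤ (L : ℝ) ^ 2) →
    ∃ g, LipschitzOnWith L g (ball x (R / 2)) ∧ ∀ᵐ y ∂μ, y ∈ ball x (R / 2) → f y = g y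

/-- Estimates for the heat kernel. -/
structure HP (D : DS μ) (κ : ℝ) (n : ℕ) : Prop extends R2 D κ n where
  vol : ∃ C, 0 < C ∧ ∀ x r, 0 < r → κ * r ^ 2 ≤ 1 →
    C⁻¹ ≤ D.p (r ^ 2) x x * μ.real (ball x r) ∧ D.p (r ^ 2) x x * μ.real (ball x r) ≤ C
  dbl : ∃ C, 0 < C ∧ ∀ x r, 0 < r → κ * r ^ 2 ≤ 1 →
    μ.real (ball x (2 * r)) ≤ C * μ.real (ball x r)
  gauss : ∀ δ, 0 < δ → ∃ C, 0 < C ∧ ∀ r x y, 0 < r → κ * r ^ 2 ≤ 1 →
    D.p (r ^ 2) x y * μ.real (ball x r) ≤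
      C * Real.exp (-(dist x y ^ 2 / (4 * (1 + δ) * Real.exp (2 * κ * r ^ 2) * r ^ 2)))
  conc : ∃ C, 0 < C ∧ ∀ r x ρ, 0 < r → κ * r ^ 2 ≤ 1 → 0 ≤ ρ →
    ∫ y in (ball x ρ)ᶜ, D.p (r ^ 2) x y ∂μ ≤ C * Real.exp (-(ρ ^ 2 / (C * r ^ 2)))
  plip : ∃ C, 0 < C ∧ ∀ r x y y', 0 < r → κ * r ^ 2 ≤ 1 →
    |D.p (r ^ 2) x y - D.p (r ^ 2) x y'| * μ.real (ball x r) ≤
      C * (dist y y' / r) * Real.exp (-(min (dist x y) (dist x y') ^ 2 / (C * r ^ 2)))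
  dp_le : ∃ C, 0 < C ∧ ∀ r x y, 0 < r → κ * r ^ 2 ≤ 1 →
    |D.dp (r ^ 2) x y| * μ.real (ball x r) ≤
      C / r ^ 2 * Real.exp (-(dist x y ^ 2 / (C * r ^ 2)))
  pk_bdd : ∀ f t (M : ℝ), AEStronglyMeasurable f μ → (∀ᵐ x ∂μ, |f x| ≤ M) → 0 < t →
    (∀ x, |D.Pk t f x| ≤ M) ∧
    (∀ x y, |D.Pk t f x - D.Pk t f y| ≤ Real.exp (κ * t) * M / √(2 * t) * dist x y) ∧
    D.Lap (D.Pk t f) (D.Lk t f) ∧ Continuous (D.Lk t f) ∧
    ∀ x, |D.Lk t f x| ≤ √n * Real.exp (κ * t) * M / t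
  pk_lip : ∀ f t (L : NNReal), LipschitzWith L f → 0 < t → κ * t ≤ 1 →
    (∀ x, Integrable (fun y => D.p t x y * f y) μ) ∧
    (∀ x y, |D.Pk t f x - D.Pk t f y| ≤ Real.exp (κ * t) * L * dist x y) ∧
    (∀ x, |D.Pk t f x - f x| ≤ 10 * √(n * t) * L) ∧
    D.Lap (D.Pk t f) (D.Lk t f) ∧ Continuous (D.Lk t f) ∧
    ∀ x, |D.Lk t f x| ≤ 10 * √(n / t) * L
  ge_pt : ∀ f ∈ D.V, ∀ t, 0 < t → ∀ᵐ x ∂μ,
    D.G (D.P t f) (D.P t f) x + 2 * t / n * D.L t f x ^ 2 ≤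
      Real.exp (2 * κ * t) * D.Pk t (D.G f f) x
  rp_pt : ∀ f t, MemLp f 2 μ → 0 < t → ∀ᵐ x ∂μ,
    2 * t * Real.exp (-(2 * κ * t)) * D.G (D.P t f) (D.P t f) x ≤
      D.Pk t (fun y => f y ^ 2) x - D.Pk t f x ^ 2
  pk_l1 : ∀ g t, Integrable g μ → 0 < t → Continuous (D.Pk t g) ∧ Integrable (D.Pk t g) μ
  pk_l1_zero : ∀ g, Integrable g μ →
    Tendsto (fun t => ∫ x, |D.Pk t g x - g x| ∂μ) (𝓝[>] 0) (𝓝 0)
  cut : ∃ C, 0 < C ∧ ∀ (S : Set X) (s : ℝ), Bornology.IsBounded S → 0 < s → κ * s ^ 2 ≤ 1 →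
    ∃ ζ Lζ, D.Tb ζ Lζ ∧ D.TF (thickening (2 * s) S) ζ Lζ ∧ (∀ x, ζ x ≤ 1) ∧
      (∀ x ∈ thickening s S, ζ x = 1) ∧ (∀ x y, |ζ x - ζ y| ≤ C / s * dist x y) ∧
      ∀ x, |Lζ x| ≤ C / s ^ 2
  Θ_mono : ∀ x r s, 0 < r → r ≤ s → D.Θ n x r ≤ Real.exp (n * κ * s ^ 2) * D.Θ n x s
  Θ_lim : ∀ x, Tendsto (D.Θ n x) (𝓝[>] 0) (𝓝 (D.Θ0 n x))
  Θ0_le : ∀ x s, 0 < s → D.Θ0 n x ≤ Real.exp (n * κ * s ^ 2) * D.Θ n x s
  Θ0_usc : UpperSemicontinuous (D.Θ0 n)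
  lower : ∀ r x y, 0 < r → D.Θ0 n x *
    Real.exp (-(n * κ * r ^ 2 + (1 + κ * r ^ 2) * dist x y ^ 2 / (4 * r ^ 2))) ≤
      r ^ n * D.p (r ^ 2) x y

/-- Non-collapsing. -/
def N0 (D : DS μ) (n : ℕ) : Prop := ∃ c, 0 < c ∧ ∀ x, c ≤ D.Θ0 n x

/-- Sharp non-collapsing and volume convergence in pinching form. -/
structure N1 (D : DS μ) (n : ℕ) : Prop where
  low : ∀ x, θ n ≤ D.Θ0 n x
  vc : ∀ (x₀ : X) (R ε : ℝ), 0 < ε → ∃ δ, 0 < δ ∧ ∀ x ∈ ball x₀ R, ∀ r, 0 < r → r ≤ δ ^ 2 →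
    (∀ b ∈ ball x (r / δ), D.Θ n b (r / δ) - D.Θ n b (δ * r) ≤ δ) → D.Θ n x r ≤ (1 + ε) * θ n

/-- No small ball is close to a half-space of dimension `k + 1`. -/
def NH (X : Type) [MetricSpace X] (k : ℕ) : Prop :=
  ∀ (x₀ : X) (R : ℝ), ∃ δ, 0 < δ ∧ ∀ x ∈ ball x₀ R, ∀ r, 0 < r → r ≤ δ →
    ¬∃ φ, GHApprox x r (hz k) δ⁻¹ δ φ

/-- `N1` and absence of boundary. -/
structure N2 (D : DS μ) (m : ℕ) : Prop extends N1 D (m + 2) where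
  nh : NH X (m + 1)

/-- Nonnegative curvature with Euclidean volume growth at all scales. -/
structure PreModel (D : DS μ) (n : ℕ) : Prop extends HP D 0 n where
  bds : ∃ c C, 0 < c ∧ ∀ x r, 0 < r → c ≤ D.Θ n x r ∧ D.Θ n x r ≤ C

/-- The set of centres as a Euclidean axis, and the coordinates along and across it. -/
structure Ax (D : DS μ) (n : ℕ) (e : X) (k : ℕ) where
  ι : Euc k → X
  a : X → Euc k
  b : X → ℝ
  iso : Isometry ι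
  zero : ι 0 = e
  ctr : ∀ z, D.Ctr n z ↔ z ∈ range ι
  b_nonneg : ∀ y, 0 ≤ b y
  dist_sq : ∀ y v, dist y (ι v) ^ 2 = dist (a y) v ^ 2 + b y ^ 2
  lip : ∀ y y', dist (a y) (a y') ^ 2 + (b y - b y') ^ 2 ≤ dist y y' ^ 2
  hom_a : ∀ v l y, 0 < l → a (hom (ι v) l y) = v + l • (a y - v)
  hom_b : ∀ v l y, 0 < l → b (hom (ι v) l y) = l * b y
  sheet : ∀ y, 0 < b y → ∃ s : Euc k → ℝ → X, s (a y) (b y) = y ∧
    (∀ v β, 0 < β → a (s v β) = v ∧ b (s v β) = β) ∧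
    (∀ v β v' β', 0 < β → 0 < β' → dist (s v β) (s v' β') ^ 2 = dist v v' ^ 2 + (β - β') ^ 2) ∧
    ∀ v β r, 0 < β → 0 < r → D.Θ n (s v β) r = D.Θ n y (r * (b y / β))

/-- The cone structure at the centres. -/
structure Cone (D : DS μ) (n : ℕ) : Prop where
  gauss : ∀ e, D.Ctr n e → ∀ r y, 0 < r →
    r ^ n * D.p (r ^ 2) e y = D.Θ n e 1 * Real.exp (-(dist e y ^ 2 / (4 * r ^ 2)))
  top : ∀ e, D.Ctr n e → ∀ y r, 0 < r → D.Θ n y r ≤ D.Θ n e 1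
  hom_spec : ∀ e, D.Ctr n e → ∀ l y, 0 < l →
    dist e (hom e l y) = l * dist e y ∧ dist (hom e l y) y = |1 - l| * dist e y
  hom_uniq : ∀ e, D.Ctr n e → ∀ l y w, 0 < l → dist e w = l * dist e y →
    dist w y = |1 - l| * dist e y → w = hom e l y
  hom_dist : ∀ e, D.Ctr n e → ∀ l y y', 0 < l → dist (hom e l y) (hom e l y') = l * dist y y'
  hom_hom : ∀ e, D.Ctr n e → ∀ l l' y, 0 < l → 0 < l' → hom e l (hom e l' y) = hom e (l * l') y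
  hom_cont : ContinuousOn (fun a : X × ℝ × X => hom a.1 a.2.1 a.2.2)
    ({e | D.Ctr n e} ×ˢ Ioi 0 ×ˢ univ)
  hom_map : ∀ e, D.Ctr n e → ∀ l, 0 < l → μ.map (hom e l) = ENNReal.ofReal (l ^ n)⁻¹ • μ
  hom_Θ : ∀ e, D.Ctr n e → ∀ l y r, 0 < l → 0 < r → D.Θ n (hom e l y) (l * r) = D.Θ n y r
  ax : ∀ e, D.Ctr n e → ∃ k, k ≤ n ∧ Nonempty (Ax D n e k)
  euc : ∀ e k (A : Ax D n e k), (∀ z, D.Ctr n z) →
    k = n ∧ μ.map A.a = ENNReal.ofReal (θ n / D.Θ n e 1) • (volume : Measure (Euc k))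

/-- The spaces that arise as blow-ups. -/
structure Model (D : DS μ) (n : ℕ) : Prop extends PreModel D n where
  cone : Cone D n

/-- A blow-up of `X` along centres `y i` and scales `r i`. -/
structure Blow (D : DS μ) (n : ℕ) (U : Ultrafilter ℕ) (y : ℕ → X) (r : ℕ → ℝ) where
  Z : Type
  [ms : MetricSpace Z]
  [pr : ProperSpace Z]
  [me : MeasurableSpace Z]
  [bo : BorelSpace Z]
  ν : Measure Z
  E : DS ν
  e : Z
  q : ℕ → X → Z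
  seq : Seq U y r
  model : Model E n
  app : ∀ R ε, 0 < R → 0 < ε → ∀ᶠ i in (U : Filter ℕ), GHApprox (y i) (r i) e R ε (q i)
  conv : ∀ (f : Z → ℝ) (g : ℕ → X → ℝ) (R : ℝ), Continuous f → (∀ z, z ∉ ball e R → f z = 0) →
    (∀ i, AEStronglyMeasurable (g i) μ) →
    (∀ᶠ i in (U : Filter ℕ), ∀ a, a ∉ ball (y i) (R * r i) → g i a = 0) →
    (∀ ε, 0 < ε → ∀ᶠ i in (U : Filter ℕ), ∀ a ∈ ball (y i) (R * r i), |g i a - f (q i a)| ≤ ε) →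
    Tendsto (fun i => (r i ^ n)⁻¹ * ∫ a, g i a ∂μ) U (𝓝 (∫ z, f z ∂ν))
  ker : ∀ t R ε, 0 < t → 0 < ε → ∀ᶠ i in (U : Filter ℕ), ∀ a ∈ ball (y i) (R * r i),
    ∀ b ∈ ball (y i) (R * r i), |r i ^ n * D.p (r i ^ 2 * t) a b - E.p t (q i a) (q i b)| ≤ ε

attribute [instance] Blow.ms Blow.pr Blow.me Blow.bo

/-- A blow-up of a ramified cover at fixed points, compatible with a blow-up of the base. -/
structure QBlow {D : DS μ} {n : ℕ} {U : Ultrafilter ℕ} {y : ℕ → X} {r : ℕ → ℝ}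
    (B : Blow D n U y r) {Y : Type} [MetricSpace Y] (Γ : Y → Y) (π : Y → X) (w : ℕ → Y) where
  T : Type
  [ms : MetricSpace T]
  [pr : ProperSpace T]
  o : T
  Γ' : T → T
  π' : T → B.Z
  q : ℕ → Y → T
  quot : IsQuot Γ' π'
  fix : Γ' o = o
  base : π' o = B.e
  w_fix : ∀ i, Γ (w i) = w i
  w_base : ∀ i, π (w i) = y i
  app : ∀ R ε, 0 < R → 0 < ε → ∀ᶠ i in (U : Filter ℕ), GHApprox (w i) (r i) o R ε (q i)
  comm : ∀ R ε, 0 < ε → ∀ᶠ i in (U : Filter ℕ), ∀ a ∈ ball (w i) (R * r i),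
    dist (π' (q i a)) (B.q i (π a)) ≤ ε ∧ dist (Γ' (q i a)) (q i (Γ a)) ≤ ε

attribute [instance] QBlow.ms QBlow.pr

/-- An odd locally constant sign over the set `S`. -/
def Sec {Y : Type} [MetricSpace Y] (Γ : Y → Y) (π : Y → X) (S : Set X) : Prop :=
  ∃ σ : Y → ℝ, ContinuousOn σ (π ⁻¹' S) ∧
    ∀ a, π a ∈ S → (σ a = 1 ∨ σ a = -1) ∧ σ (Γ a) = -σ a

end

/-- Block B: the heat kernel package follows from `RS`. -/
class HasHP (n : ℕ) : Prop where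
  hp : ∀ {X : Type} [MetricSpace X] [CompleteSpace X] [SecondCountableTopology X]
    [MeasurableSpace X] [BorelSpace X] {μ : Measure X} (D : DS μ) (κ : ℝ), RS D κ n → HP D κ n

/-- Block K: the cone structure. -/
class HasCone (n : ℕ) : Prop where
  cone : ∀ {X : Type} [MetricSpace X] [ProperSpace X] [MeasurableSpace X] [BorelSpace X]
    {μ : Measure X} (D : DS μ), PreModel D n → Cone D n

/-- Block U: existence of blow-ups. -/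
class HasBlow (n : ℕ) : Prop where
  blow : ∀ {X : Type} [MetricSpace X] [ProperSpace X] [MeasurableSpace X] [BorelSpace X]
    {μ : Measure X} (D : DS μ) (κ : ℝ), HP D κ n → N0 D n →
    ∀ (U : Ultrafilter ℕ) (y : ℕ → X) (r : ℕ → ℝ), Seq U y r → Nonempty (Blow D n U y r)

end RC
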