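import Pool.Agent.P.MP_6472e5_gt.HkP
import Pool.Agent.P.MP_6472e5_gt.Kern
import Pool.Agent.P.MP_6472e5_gt.De

/-! The heat flow of the form generated by a kernel. -/

set_option autoImplicit false
set_option linter.unusedSectionVars false

noncomputable section

namespace RC

open MeasureTheory Set Filter Topology Metric

variable {Z : Type} [MetricSpace Z] [ProperSpace Z] [MeasurableSpace Z] [BorelSpace Z]
  {ν : Measure Z} {k : ℝ → Z → Z → ℝ} {n : ℕ}

variable {E : DS ν}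

theorem hkq_le {F : ℝ → ℝ} {t : ℝ} (hc : ∀ s ∈ Ioo 0 t, ContinuousAt F s)
    (hs : ∀ s ∈ Ioo 0 t, ∀ r, 0 < r → ∃ᶠ z in 𝓝[>] s, slope F s z < r) {a b : ℝ} (ha : 0 < a)
    (hab : a ≤ b) (hb : b < t) : F b ≤ F a :=
  image_le_of_liminf_slope_right_le_deriv_boundary (f := F) (a := a) (b := b)
    (B := fun _ => F a) (B' := fun _ => 0)
    (fun s hs' => (hc s ⟨ha.trans_le hs'.1, hs'.2.trans_lt hb⟩).continuousWithinAt) le_rfl
    continuousOn_const (fun _ _ => hasDerivWithinAt_const _ _ _)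
    (fun s hs' r hr => hs s ⟨ha.trans_le hs'.1, hs'.2.trans hb⟩ r hr) ⟨hab, le_rfl⟩

theorem hkq_lim_le {F : ℝ → ℝ} {t A B : ℝ} (ht : 0 < t) (hc : ∀ s ∈ Ioo 0 t, ContinuousAt F s)
    (hs : ∀ s ∈ Ioo 0 t, ∀ r, 0 < r → ∃ᶠ z in 𝓝[>] s, slope F s z < r)
    (hA : Tendsto F (𝓝[>] 0) (𝓝 A)) (hB : Tendsto F (𝓝[<] t) (𝓝 B)) : B ≤ A := by
  have h1 : F (t / 2) ≤ A := by
    refine ge_of_tendsto hA ?_
    filter_upwards [Ioo_mem_nhdsGT (half_pos ht)] with a ha
    exact hkq_le hc hs ha.1 ha.2.le (half_lt_self ht)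
  have h2 : B ≤ F (t / 2) := by
    refine le_of_tendsto hB ?_
    filter_upwards [Ioo_mem_nhdsLT (half_lt_self ht)] with b hb
    exact hkq_le hc hs (half_pos ht) hb.1.le hb.2
  exact h2.trans h1

/-- A continuous function whose right slopes tend to zero along a sequence is constant. -/
theorem hkq_const {F : ℝ → ℝ} {t A B : ℝ} (ht : 0 < t) (hc : ∀ s ∈ Ioo 0 t, ContinuousAt F s)
    {l : Filter ℕ} [l.NeBot] {δ : ℕ → ℝ} (hδ : Tendsto δ l (𝓝[>] 0))
    (hs : ∀ s ∈ Ioo 0 t, Tendsto (fun j => (F (s + δ j) - F s) / δ j) l (𝓝 0))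
    (hA : Tendsto F (𝓝[>] 0) (𝓝 A)) (hB : Tendsto F (𝓝[<] t) (𝓝 B)) : A = B := by
  have hz : ∀ s : ℝ, Tendsto (fun j => s + δ j) l (𝓝[>] s) := by
    intro s
    refine tendsto_nhdsWithin_iff.2 ⟨?_, ?_⟩
    · simpa using tendsto_const_nhds.add (tendsto_nhdsWithin_iff.1 hδ).1
    · filter_upwards [(tendsto_nhdsWithin_iff.1 hδ).2] with j hj
      exact lt_add_of_pos_right s hj
  refine le_antisymm ?_ (hkq_lim_le ht hc ?_ hA hB)
  · have := hkq_lim_le (F := fun s => -F s) ht (fun s hs' => (hc s hs').neg) ?_ hA.neg hB.neg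
    · linarith
    · intro s hs' r hr
      refine (hz s).frequently (Eventually.frequently ?_)
      have h1 := (hs s hs').neg
      rw [neg_zero] at h1
      filter_upwards [h1.eventually (gt_mem_nhds hr)] with j hj
      rw [slope_def_field, add_sub_cancel_left]
      refine lt_of_eq_of_lt ?_ hj
      ring
  · intro s hs' r hr
    refine (hz s).frequently (Eventually.frequently ?_)
    filter_upwards [(hs s hs').eventually (gt_mem_nhds hr)] with j hj
    rw [slope_def_field, add_sub_cancel_left]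
    exact hj

theorem HK0.hkq_semi (h : HK0 ν k) {g : Z → ℝ} (hg : MemLp g 2 ν) {a b : ℝ} (ha : 0 < a)
    (hb : 0 < b) : kT ν k (a + b) g = kT ν k a (kT ν k b g) :=
  funext fun x => h.kT_semi hg.1 ha hb (h.int_l2 hg (add_pos ha hb) x)

theorem HK0.hkq_step (h : HK0 ν k) {g : Z → ℝ} (hg : MemLp g 2 ν) {a b : ℝ} (ha : 0 < a)
    (hb : 0 < b) : n2 ν (kT ν k (a + b) g - kT ν k a g) ≤ n2 ν (kT ν k b g - g) := by
  have hb2 := (h.kT_l2 hg hb).1
  have e : kT ν k (a + b) g - kT ν k a g = kT ν k a (kT ν k b g - g) := by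
    funext x
    rw [kT_sub (h.int_l2 hb2 ha x) (h.int_l2 hg ha x), h.hkq_semi hg ha hb]
    rfl
  rw [e]
  exact (h.kT_l2 (hb2.sub hg) ha).2

/-- Strong continuity at positive times. -/
theorem HK0.hkq_cont (h : HK0 ν k) {g : Z → ℝ} (hg : LipB g) {s : ℝ} (hs : 0 < s) :
    Tendsto (fun s' => n2 ν (kT ν k s' g - kT ν k s g)) (𝓝 s) (𝓝 0) := by
  have hg2 := (h.lipB_int hg).2
  refine tendsto_order.2 ⟨fun a ha => Eventually.of_forall fun s' => ha.trans_le (n2_nonneg _),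
    fun ε hε => ?_⟩
  have h1 := (h.kT_zero hg).eventually (gt_mem_nhds hε)
  obtain ⟨η, hη, hsub⟩ := (nhdsGT_basis (0 : ℝ)).eventually_iff.1 h1
  filter_upwards [Ioo_mem_nhds (show max 0 (s - η) < s from max_lt hs (by linarith))
    (show s < s + η by linarith)] with s' hs'
  have p0 : 0 < s' := (le_max_left _ _).trans_lt hs'.1
  have p1 : s - η < s' := (le_max_right _ _).trans_lt hs'.1
  rcases lt_trichotomy s' s with hlt | heq | hgt
  · have := h.hkq_step hg2 p0 (sub_pos.2 hlt)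
    rw [add_sub_cancel] at this
    rw [n2_sub_comm]
    exact this.trans_lt (hsub ⟨sub_pos.2 hlt, by linarith⟩)
  · rw [heq, DS.ca5_n0]
    exact hε
  · have := h.hkq_step hg2 hs (sub_pos.2 hgt)
    rw [add_sub_cancel] at this
    exact this.trans_lt (hsub ⟨sub_pos.2 hgt, by linarith [hs'.2]⟩)

theorem HK.hkq_test (h : HK ν n k) (hE : KD E k) (hF : E.Flow) {f g : Z → ℝ} (hf : MemLp f 2 ν)
    (hg : LipB g) {t : ℝ} (ht : 0 < t) :
    ∫ x, E.P t f x * g x ∂ν = ∫ x, f x * kT ν k t g x ∂ν := by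
  have h0 := h.toHK0
  have hg2 := (h0.lipB_int hg).2
  have hH := hF.heat f hf
  have hT : ∀ s, 0 < s → MemLp (kT ν k s g) 2 ν := fun s hs => (h0.kT_l2 hg2 hs).1
  have hU : ∀ s, MemLp (E.P (t - s) f) 2 ν := fun s => hF.memLp f _ hf
  have hD : ∀ s, s < t → DerL2 ν (fun s => E.P (t - s) f) (-E.L (t - s) f) s := fun s hs =>
    DerL2.rev (u := fun s => E.P s f) (hH.1 (t - s) (sub_pos.2 hs)).2.2
  have hδ : Tendsto (fun j => 2 * hj j) (hyperfilter ℕ) (𝓝[>] 0) := by
    refine tendsto_nhdsWithin_iff.2 ⟨?_, Eventually.of_forall fun j => ?_⟩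
    · simpa using (tendsto_nhdsWithin_iff.1 hj_hyper).1.const_mul 2
    · exact mul_pos two_pos (hj_pos j)
  refine hkq_const (F := fun s => ∫ x, E.P (t - s) f x * kT ν k s g x ∂ν) ht ?_ hδ ?_ ?_ ?_
  · intro s hs
    exact DS.ca5_mlim (Eventually.of_forall hU)
      ((lt_mem_nhds hs.1).mono hT) (hU s) (hT s hs.1) (hD s hs.2).cont (h0.hkq_cont hg hs.1)
  · intro s hs
    have hts : 0 < t - s := sub_pos.2 hs.2
    have hu : E.P (t - s) f ∈ E.V := (hH.1 _ hts).1
    have hv : kT ν k s g ∈ E.V := h.kT_mem hE hg hs.1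
    have hL : MemLp (E.L (t - s) f) 2 ν := (hH.1 _ hts).2.2.2.1
    have hne : Tendsto (fun j => 2 * hj j) (hyperfilter ℕ) (𝓝[≠] 0) :=
      hδ.mono_right (nhdsWithin_mono _ fun x hx => ne_of_gt hx)
    have hsh : Tendsto (fun j => s + 2 * hj j) (hyperfilter ℕ) (𝓝 s) := by
      simpa using tendsto_const_nhds.add (tendsto_nhdsWithin_iff.1 hδ).1
    have hpos : ∀ j, 0 < s + 2 * hj j := fun j => add_pos hs.1 (mul_pos two_pos (hj_pos j))
    have hDQ : ∀ j, MemLp (DQ (fun s => E.P (t - s) f) s (2 * hj j)) 2 ν := fun j => by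
      rw [de_DQ_eq]
      exact ((hU _).sub (hU _)).const_smul _
    have t1 := DS.ca5_mlim (l := hyperfilter ℕ)
      (u := fun j => DQ (fun s => E.P (t - s) f) s (2 * hj j))
      (v := fun j => kT ν k (s + 2 * hj j) g) (Eventually.of_forall hDQ)
      (Eventually.of_forall fun j => hT _ (hpos j)) hL.neg (hT s hs.1)
      ((hD s hs.2).2.2.comp hne) ((h0.hkq_cont hg hs.1).comp hsh)
    have t2 := (hE _ hu _ hv).2.2 (fun _ => 1) aestronglyMeasurable_const
      ⟨1, Eventually.of_forall fun _ => by simp⟩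
    simp only [one_mul] at t2
    have t3 := t1.sub t2
    have e0 : ∫ x, (-E.L (t - s) f) x * kT ν k s g x ∂ν -
        ∫ x, E.G (E.P (t - s) f) (kT ν k s g) x ∂ν = 0 := by
      rw [(hH.1 _ hts).2.1.test hu hL hv, ← integral_neg, sub_eq_zero]
      refine integral_congr_ae (Eventually.of_forall fun x => ?_)
      simp
    rw [e0] at t3
    refine t3.congr fun j => ?_
    have hj0 : 2 * hj j ≠ 0 := (mul_pos two_pos (hj_pos j)).ne'
    have e1 := h0.kE_eq (hU s) (hT s hs.1) (hj_pos j)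
    rw [← h0.hkq_semi hg2 (mul_pos two_pos (hj_pos j)) hs.1, add_comm (2 * hj j) s] at e1
    have e2 : ∫ x, DQ (fun s => E.P (t - s) f) s (2 * hj j) x * kT ν k (s + 2 * hj j) g x ∂ν =
        (2 * hj j)⁻¹ * (∫ x, E.P (t - (s + 2 * hj j)) f x * kT ν k (s + 2 * hj j) g x ∂ν -
          ∫ x, E.P (t - s) f x * kT ν k (s + 2 * hj j) g x ∂ν) := by
      rw [← integral_sub (integrable_mul_of_memLp (hU _) (hT _ (hpos j)))
        (integrable_mul_of_memLp (hU _) (hT _ (hpos j))), ← integral_const_mul]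
      refine integral_congr_ae (Eventually.of_forall fun x => ?_)
      simp only [DQ]
      ring
    unfold kE at e1
    rw [e1, e2, div_eq_inv_mul]
    ring
  · have t1 := ((hD 0 ht).cont).mono_left (nhdsWithin_le_nhds (s := Ioi 0))
    rw [sub_zero] at t1
    exact DS.ca5_mlim (Eventually.of_forall hU)
      (eventually_mem_nhdsWithin.mono fun s hs => hT s hs) (hF.memLp f t hf) hg2 t1
      (h0.kT_zero hg)
  · have hrev : Tendsto (fun s => t - s) (𝓝[<] t) (𝓝[>] 0) := by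
      refine tendsto_nhdsWithin_iff.2 ⟨?_, eventually_mem_nhdsWithin.mono fun s hs => ?_⟩
      · have : Tendsto (fun s => t - s) (𝓝 t) (𝓝 (t - t)) := tendsto_const_nhds.sub tendsto_id
        rw [sub_self] at this
        exact this.mono_left nhdsWithin_le_nhds
      · exact sub_pos.2 (show s < t from hs)
    exact DS.ca5_mlim (Eventually.of_forall hU)
      (((lt_mem_nhds ht).mono hT).filter_mono nhdsWithin_le_nhds) hf (hT t ht)
      (hH.2.comp hrev) ((h0.hkq_cont hg ht).mono_left nhdsWithin_le_nhds)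

theorem HK.P_eq (h : HK ν n k) (hE : KD E k) (hF : E.Flow) {f : Z → ℝ} (hf : MemLp f 2 ν) {t : ℝ}
    (ht : 0 < t) : E.P t f =ᵐ[ν] kT ν k t f := by
  have h0 := h.toHK0
  have h1 := E.ae_eq_of_test (E.locInt_of_memLp (hF.memLp f t hf))
    (E.locInt_of_memLp (h0.kT_l2 hf ht).1) isOpen_univ (fun φ hφ _ => by
      have e1 := h.hkq_test hE hF hf hφ ht
      rw [← h0.kT_symm2 hf (h0.lipB_int hφ).2 ht] at e1
      simpa only [mul_comm] using e1)
  filter_upwards [h1] with x hx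
  exact hx (mem_univ x)

theorem HK.isKer (h : HK ν n k) (hE : KD E k) (hF : E.Flow) : E.IsKer k :=
  ⟨h.cont, fun _ x ht => h.toHK0.k_memLp ht x, fun _ _ hf ht => h.P_eq hE hF hf ht⟩

end RC
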