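import Pool.Agent.P.MP_6472e5_gt.HkG
import Pool.Agent.P.MP_6472e5_gt.HkW
import Pool.Agent.P.MP_6472e5_gt.Ca3

/-! The Sobolev-to-Lipschitz property of the form generated by a kernel. -/

set_option autoImplicit false
set_option linter.unusedSectionVars false

noncomputable section

namespace RC

open MeasureTheory Set Filter Topology Metric

variable {Z : Type} [MetricSpace Z] [ProperSpace Z] [MeasurableSpace Z] [BorelSpace Z]
  {ν : Measure Z} {k : ℝ → Z → Z → ℝ} {n : ℕ}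

variable {E : DS ν}

theorem hks_le {a b c : ℝ} (h : ∀ δ, 0 < δ → a ≤ b + c * δ) : a ≤ b := by
  have h1 : Tendsto (fun δ : ℝ => b + c * δ) (𝓝[>] 0) (𝓝 (b + c * 0)) :=
    (by fun_prop : Continuous fun δ : ℝ => b + c * δ).continuousAt.tendsto.mono_left
      nhdsWithin_le_nhds
  rw [mul_zero, add_zero] at h1
  exact ge_of_tendsto h1 (eventually_mem_nhdsWithin.mono h)

theorem hks_apx (h : HK0 ν k) (E : DS ν) {f : Z → ℝ} (hf : MemLp f 2 ν) {s t ε : ℝ} (hs : 0 < s)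
    (ht : 0 < t) (hε : 0 < ε) : ∃ u, LipB u ∧ √(n2 ν (u - f)) ≤ ε ∧
      (∀ x, |kG ν k s u u x - kG ν k s f f x| ≤ ε ^ 2) ∧
      ∀ x, |kG ν k t u u x - kG ν k t f f x| ≤ ε ^ 2 := by
  obtain ⟨u, hu, h1⟩ := E.exists_lipB_n2 hf
  have h2 := h1.sqrt
  rw [Real.sqrt_zero] at h2
  have h3 : ∀ r, 0 < r → ∀ᶠ i in atTop, ∀ x,
      |kG ν k r (u i) (u i) x - kG ν k r f f x| ≤ ε ^ 2 := fun r hr => by
    obtain ⟨C, hC, h3⟩ := h.kG_unif hr
    have h4 := (h2.mul ((h2.add_const (√(n2 ν f))).add_const (√(n2 ν f)))).const_mul C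
    rw [zero_mul, mul_zero] at h4
    filter_upwards [h4.eventually_le_const (pow_pos hε 2)] with i hi x
    have h5 := E.lipB_memLp (hu i)
    have h6 := sqrt_n2_add_le (h5.sub hf) hf
    rw [sub_add_cancel] at h6
    refine (h3 _ _ h5 hf x).trans (le_trans ?_ hi)
    gcongr
  obtain ⟨i, a1, a2, a3⟩ := ((h2.eventually_le_const hε).and ((h3 s hs).and (h3 t ht))).exists
  exact ⟨u i, hu i, a1, a2, a3⟩

theorem hks_step (h : HK ν n k) {u : Z → ℝ} (hu : LipB u) {t : ℝ} (ht : 0 < t) (x : Z) :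
    kG ν k (2 * t) u u x ≤ kT ν k t (kG ν k t u u) x := by
  obtain ⟨C, hC⟩ := h.be
  obtain ⟨M, hM⟩ := hu.bound
  have h1 : kG ν k t (kT ν k t u) (kT ν k t u) x ≤ kT ν k t (kG ν k t u u) x :=
    hks_le (c := C * M ^ 2 / (2 * t) ^ 2) fun δ hδ => by
      have h2 := hC u M 0 t δ x hu.continuous hM le_rfl ht hδ
      simp only [zero_add, mul_zero, zero_div, zero_mul, add_zero] at h2
      rwa [mul_div_right_comm] at h2
  rw [h.toHK0.kG_two (h.toHK0.lipB_int hu).2 ht]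
  linarith

theorem HK.kG_step (h : HK ν n k) (E : DS ν) {f : Z → ℝ} (hf : MemLp f 2 ν) {t : ℝ} (ht : 0 < t)
    (x : Z) : kG ν k (2 * t) f f x ≤ kT ν k t (kG ν k t f f) x := by
  refine le_of_forall_pos_le_add fun ε hε => ?_
  obtain ⟨u, hu, -, h1, h2⟩ := hks_apx h.toHK0 E hf (mul_pos two_pos ht) ht
    (Real.sqrt_pos.2 (half_pos hε))
  rw [Real.sq_sqrt (half_pos hε).le] at h1 h2
  have hu2 := E.lipB_memLp hu
  have h3 := h.toHK0.kT_abs_le (f := kG ν k t u u - kG ν k t f f) (.of_forall h2) ht x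
  rw [kT_sub (h.toHK0.int_l1 (h.toHK0.kG_int hu2 hu2 ht) ht x)
    (h.toHK0.int_l1 (h.toHK0.kG_int hf hf ht) ht x)] at h3
  linarith [hks_step h hu ht x, abs_le.1 (h1 x), abs_le.1 h3]

theorem hks_lt {m j : ℕ} (h : m < j) : 0 < hj m - hj j :=
  sub_pos.2 (pow_lt_pow_right_of_lt_one₀ one_half_pos one_half_lt_one h)

theorem hks_iter (h : HK ν n k) (E : DS ν) {f : Z → ℝ} (hf : MemLp f 2 ν) {m j : ℕ} (hm : m < j)
    (x : Z) : kG ν k (hj m) f f x ≤ kT ν k (hj m - hj j) (kG ν k (hj j) f f) x := by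
  induction j, hm using Nat.le_induction with
  | base =>
    rw [hj_succ m, show 2 * hj (m + 1) - hj (m + 1) = hj (m + 1) by ring]
    exact h.kG_step E hf (hj_pos _) x
  | succ j hm ih =>
    have h0 := hks_lt hm
    have h1 := h.toHK0.kG_int hf hf (hj_pos (j + 1))
    rw [show hj m - hj (j + 1) = hj m - hj j + hj (j + 1) by rw [hj_succ j]; ring,
      h.toHK0.kT_semi h1.1 h0 (hj_pos _) (h.toHK0.int_l1 h1 (add_pos h0 (hj_pos _)) x)]
    refine ih.trans (h.toHK0.kT_mono h0 (h.toHK0.int_l1 (h.toHK0.kG_int hf hf (hj_pos j)) h0 x)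
      (h.toHK0.int_l1 (h.toHK0.kT_l1 h1 (hj_pos _)).1 h0 x) (.of_forall fun y => ?_))
    rw [hj_succ j]
    exact h.kG_step E hf (hj_pos _) y

theorem HK.kG_le (h : HK ν n k) (hE : KD E k) {f : Z → ℝ} (hf : f ∈ E.V) (m : ℕ) (x : Z) :
    kG ν k (hj m) f f x ≤ kT ν k (hj m) (E.G f f) x := by
  have h2 := E.memLp f hf
  have hw := hE f hf f hf
  obtain ⟨C, hC⟩ := h.bdd _ (hj_pos m)
  have h1 := hw.2.2 (k (hj m) x) (h.int _ x (hj_pos m)).1
    ⟨C, .of_forall fun y => by rw [abs_of_nonneg (h.nonneg _ _ _ (hj_pos m))]; exact hC x y⟩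
  refine hks_le (c := ∫ y, E.G f f y ∂ν) fun ε hε => ge_of_tendsto (h1.add_const _) ?_
  have h3 : Tendsto (fun j => hj m - hj j) (hyperfilter ℕ) (𝓝 (hj m)) := by
    simpa using (hj_hyper.mono_right nhdsWithin_le_nhds).const_sub (hj m)
  filter_upwards [h3.eventually (h.unif _ ε (hj_pos m) hε),
    (eventually_gt_atTop m).filter_mono Nat.hyperfilter_le_atTop] with j a1 a2
  have a3 := h.toHK0.kG_int h2 h2 (hj_pos j)
  have a4 := h.toHK0.int_l1 a3 (hj_pos m) x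
  have a5 : kT ν k (hj m - hj j) (kG ν k (hj j) f f) x ≤
      ∫ y, (k (hj m) x y * kG ν k (hj j) f f y + kG ν k (hj j) f f y * ε) ∂ν :=
    integral_mono (h.toHK0.int_l1 a3 (hks_lt a2) x) (a4.add (a3.mul_const ε)) fun y => by
      have b1 := mul_le_mul_of_nonneg_right (abs_le.1 (a1 x y)).2
        (h.toHK0.kG_nonneg h2 (hj_pos j) y)
      beta_reduce
      linarith
  rw [integral_add a4 (a3.mul_const ε), integral_mul_const] at a5
  have a6 := mul_le_mul_of_nonneg_right (h.toHK0.wl_le h2 hw j) hε.le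
  unfold kE at a6
  linarith [hks_iter h E h2 a2 x]

theorem HK.lip2 (h : HK ν n k) (E : DS ν) {f : Z → ℝ} (hf : MemLp f 2 ν) {t L : ℝ} (ht : 0 < t)
    (hL : 0 ≤ L) (hle : ∀ x, kG ν k t f f x ≤ L ^ 2) (x y : Z) :
    |kT ν k t f x - kT ν k t f y| ≤ L * dist x y := by
  obtain ⟨C, hC, h1⟩ := h.toHK0.kT_le_l2 ht
  refine hks_le (c := dist x y + 2 * C) fun ε hε => ?_
  obtain ⟨u, hu, h2, h3, -⟩ := hks_apx h.toHK0 E hf ht ht hε
  obtain ⟨M, hM⟩ := hu.bound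
  have hu2 := E.lipB_memLp hu
  have h4 := h.lip u M (L + ε) t hu.continuous hM (by positivity) ht (fun z => by
    nlinarith [hle z, abs_le.1 (h3 z), mul_nonneg hL hε.le]) x y
  have h5 : ∀ z, |kT ν k t u z - kT ν k t f z| ≤ C * ε := fun z => by
    rw [← kT_sub (h.toHK0.int_l2 hu2 ht z) (h.toHK0.int_l2 hf ht z)]
    exact (h1 _ (hu2.sub hf) z).trans (mul_le_mul_of_nonneg_left h2 hC)
  have h6 := abs_le.1 (h5 x)
  have h7 := abs_le.1 (h5 y)
  have h8 := abs_le.1 h4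
  rw [abs_le]
  constructor <;> linarith

theorem HK0.kT_zero2 (h : HK0 ν k) (E : DS ν) {f : Z → ℝ} (hf : MemLp f 2 ν) :
    Tendsto (fun t => n2 ν (kT ν k t f - f)) (𝓝[>] 0) (𝓝 0) := by
  refine tendsto_order.2 ⟨fun a ha => .of_forall fun t => ha.trans_le (n2_nonneg _),
    fun ε hε => ?_⟩
  obtain ⟨u, hu, h1⟩ := E.exists_lipB_n2 hf
  obtain ⟨i, hi⟩ := (h1.eventually_lt_const (by positivity : 0 < ε / 10)).exists
  have hu2 := E.lipB_memLp (hu i)
  filter_upwards [(h.kT_zero (hu i)).eventually_lt_const (by positivity : 0 < ε / 10),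
    self_mem_nhdsWithin] with t h2 ht
  have h3 : kT ν k t f - f = kT ν k t (f - u i) + (kT ν k t (u i) - u i + (u i - f)) := by
    funext x
    simp only [Pi.add_apply, Pi.sub_apply, kT_sub (h.int_l2 hf ht x) (h.int_l2 hu2 ht x)]
    ring
  have h4 := h.kT_l2 (hf.sub hu2) ht
  have h5 := ((h.kT_l2 hu2 ht).1).sub hu2
  have h6 := n2_add_le h4.1 (h5.add (hu2.sub hf))
  have h7 := n2_add_le h5 (hu2.sub hf)
  rw [h3]
  linarith [h4.2, n2_sub_comm (μ := ν) f (u i)]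

theorem HK.s2l (h : HK ν n k) (hE : KD E k) {f : Z → ℝ} (hf : f ∈ E.V)
    (hG : ∀ᵐ x ∂ν, E.G f f x ≤ 1) : ∃ g, LipschitzWith 1 g ∧ f =ᵐ[ν] g := by
  have h2 := E.memLp f hf
  have h1 : ∀ m x y, |kT ν k (hj m) f x - kT ν k (hj m) f y| ≤ 1 * dist x y := fun m =>
    h.lip2 E h2 (hj_pos m) zero_le_one fun x => by
      refine (h.kG_le hE hf m x).trans ((h.toHK0.kT_mono (g := fun _ => 1) (hj_pos m)
        (h.toHK0.int_l1 (hE f hf f hf).2.1 (hj_pos m) x) ?_ hG).trans ?_)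
      · exact (h.int _ x (hj_pos m)).mul_const 1
      · rw [h.toHK0.kT_const 1 (hj_pos m), one_pow]
  obtain ⟨φ, -, h3⟩ := exists_subseq_ae (fun m => (h.toHK0.kT_l2 h2 (hj_pos m)).1) h2
    ((h.toHK0.kT_zero2 E h2).comp hj_tendsto)
  obtain ⟨g, hg, h4⟩ := LipschitzOnWith.extend_real (f := f) (K := 1)
    (s := {x | Tendsto (fun m => kT ν k (hj (φ m)) f x) atTop (𝓝 (f x))})
    (LipschitzOnWith.of_dist_le_mul fun x hx y hy =>
      le_of_tendsto' (Tendsto.abs (Tendsto.sub hx hy)) fun m => h1 _ x y)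
  exact ⟨g, hg, h3.mono fun x hx => h4 hx⟩

end RC
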