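import Pool.Agent.P.MP_6472e5_gt.HkD
import Pool.Agent.P.MP_6472e5_gt.Ca0
import Pool.Agent.P.MP_6472e5_gt.Ca0n

/-! The semigroup given by a Markov kernel. -/

set_option autoImplicit false
set_option linter.unusedSectionVars false

noncomputable section

namespace RC

open MeasureTheory Set Filter Topology Metric

variable {Z : Type} [MetricSpace Z] [ProperSpace Z] [MeasurableSpace Z] [BorelSpace Z]
  {ν : Measure Z} {k : ℝ → Z → Z → ℝ} {n : ℕ}

theorem kT_congr {f g : Z → ℝ} (hfg : f =ᵐ[ν] g) (t : ℝ) : kT ν k t f = kT ν k t g := by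
  funext x
  exact integral_congr_ae (hfg.mono fun y hy => by simp only [hy])

theorem kT_add {f g : Z → ℝ} {t : ℝ} {x : Z} (hf : Integrable (fun y => k t x y * f y) ν)
    (hg : Integrable (fun y => k t x y * g y) ν) :
    kT ν k t (f + g) x = kT ν k t f x + kT ν k t g x := by
  unfold kT
  rw [← integral_add hf hg]
  simp only [Pi.add_apply, mul_add]

theorem kT_sub {f g : Z → ℝ} {t : ℝ} {x : Z} (hf : Integrable (fun y => k t x y * f y) ν)
    (hg : Integrable (fun y => k t x y * g y) ν) :
    kT ν k t (f - g) x = kT ν k t f x - kT ν k t g x := by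
  unfold kT
  rw [← integral_sub hf hg]
  simp only [Pi.sub_apply, mul_sub]

theorem kT_smul (c : ℝ) (f : Z → ℝ) (t : ℝ) (x : Z) :
    kT ν k t (c • f) x = c * kT ν k t f x := by
  unfold kT
  rw [← integral_const_mul]
  simp only [Pi.smul_apply, smul_eq_mul, mul_left_comm]

namespace HK0

variable (h : HK0 ν k) {t : ℝ}
include h

theorem sfin : SigmaFinite ν := by
  have : IsLocallyFiniteMeasure ν := ⟨fun x => ⟨ball x 1, ball_mem_nhds x one_pos, h.fin x 1⟩⟩
  infer_instance

theorem lipB_int {f : Z → ℝ} (hf : LipB f) : Integrable f ν ∧ MemLp f 2 ν := by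
  have h1 : ν (Function.support f) < ⊤ := by
    rcases (Function.support f).eq_empty_or_nonempty with e | ⟨x, -⟩
    · rw [e, measure_empty]
      exact ENNReal.zero_lt_top
    · obtain ⟨r, hr⟩ := hf.2.subset_ball x
      exact (measure_mono hr).trans_lt (h.fin x r)
  have h2 : Integrable f ν := by
    obtain ⟨C, hC⟩ := hf.bound
    rw [← integrableOn_iff_integrable_of_support_subset (s := Function.support f) subset_rfl]
    exact Measure.integrableOn_of_bounded (M := C) h1.ne
      hf.continuous.aestronglyMeasurable (Eventually.of_forall fun x => hC x)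
  exact ⟨h2, memLp_of_int_bdd h2 hf.bdd⟩

theorem k_cont (ht : 0 < t) : Continuous fun a : Z × Z => k t a.1 a.2 :=
  h.cont.comp_continuous (f := fun a : Z × Z => ((t, a) : ℝ × Z × Z))
    (continuous_const.prodMk continuous_id) fun _ => ⟨ht, mem_univ _⟩

theorem k_memLp (ht : 0 < t) (x : Z) : MemLp (k t x) 2 ν := by
  obtain ⟨C, hC⟩ := h.bdd t ht
  exact memLp_of_int_bdd (h.int t x ht) ⟨C, Eventually.of_forall fun y => by
    rw [abs_of_nonneg (h.nonneg t x y ht)]
    exact hC x y⟩

theorem int_bdd {f : Z → ℝ} (hm : AEStronglyMeasurable f ν) (hf : Bdd ν f) (ht : 0 < t) (x : Z) :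
    Integrable (fun y => k t x y * f y) ν := by
  simpa only [mul_comm] using hf.mul_integrable hm (h.int t x ht)

theorem int_l1 {f : Z → ℝ} (hf : Integrable f ν) (ht : 0 < t) (x : Z) :
    Integrable (fun y => k t x y * f y) ν := by
  obtain ⟨C, hC⟩ := h.bdd t ht
  exact Bdd.mul_integrable ⟨C, Eventually.of_forall fun y => by
    rw [abs_of_nonneg (h.nonneg t x y ht)]
    exact hC x y⟩ (h.int t x ht).1 hf

theorem int_l2 {f : Z → ℝ} (hf : MemLp f 2 ν) (ht : 0 < t) (x : Z) :
    Integrable (fun y => k t x y * f y) ν :=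
  (h.k_memLp ht x).integrable_mul hf

theorem kT_meas {f : Z → ℝ} (hm : AEStronglyMeasurable f ν) (ht : 0 < t) :
    StronglyMeasurable (kT ν k t f) := by
  have := h.sfin
  rw [kT_congr hm.ae_eq_mk]
  exact StronglyMeasurable.integral_prod_right (f := fun x y => k t x y * hm.mk f y)
    ((h.k_cont ht).stronglyMeasurable.mul (hm.stronglyMeasurable_mk.comp_measurable measurable_snd))

theorem kT_const (c : ℝ) (ht : 0 < t) (x : Z) : kT ν k t (fun _ => c) x = c := by
  unfold kT
  rw [integral_mul_const, h.one t x ht, one_mul]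

theorem kT_nonneg {f : Z → ℝ} (hf : ∀ᵐ y ∂ν, 0 ≤ f y) (ht : 0 < t) (x : Z) :
    0 ≤ kT ν k t f x :=
  integral_nonneg_of_ae (hf.mono fun y hy => mul_nonneg (h.nonneg t x y ht) hy)

theorem kT_mono {f g : Z → ℝ} (ht : 0 < t) {x : Z} (hf : Integrable (fun y => k t x y * f y) ν)
    (hg : Integrable (fun y => k t x y * g y) ν) (hle : ∀ᵐ y ∂ν, f y ≤ g y) :
    kT ν k t f x ≤ kT ν k t g x :=
  integral_mono_ae hf hg (hle.mono fun y hy => mul_le_mul_of_nonneg_left hy (h.nonneg t x y ht))

theorem kT_abs_le {f : Z → ℝ} {M : ℝ} (hf : ∀ᵐ y ∂ν, |f y| ≤ M) (ht : 0 < t) (x : Z) :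
    |kT ν k t f x| ≤ M := by
  have h1 := norm_integral_le_of_norm_le (f := fun y => k t x y * f y)
    ((h.int t x ht).mul_const M) (hf.mono fun y hy => by
      rw [Real.norm_eq_abs, abs_mul, abs_of_nonneg (h.nonneg t x y ht)]
      exact mul_le_mul_of_nonneg_left hy (h.nonneg t x y ht))
  rwa [integral_mul_const, h.one t x ht, one_mul] at h1

/-- Jensen's inequality. -/
theorem kT_sq_le {f : Z → ℝ} (ht : 0 < t) {x : Z} (h1 : Integrable (fun y => k t x y * f y) ν)
    (h2 : Integrable (fun y => k t x y * (f y * f y)) ν) :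
    kT ν k t f x * kT ν k t f x ≤ kT ν k t (fun y => f y * f y) x := by
  set c := kT ν k t f x with hc
  have h3 : 0 ≤ ∫ y, (k t x y * (f y * f y) - 2 * c * (k t x y * f y) + k t x y * (c * c)) ∂ν :=
    integral_nonneg fun y => by
      have := mul_nonneg (h.nonneg t x y ht) (sq_nonneg (f y - c))
      show 0 ≤ _
      nlinarith
  have h5 : Integrable (fun y => k t x y * (f y * f y) - 2 * c * (k t x y * f y)) ν :=
    h2.sub (h1.const_mul _)
  rw [integral_add h5 ((h.int t x ht).mul_const _),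
    integral_sub h2 (h1.const_mul _), integral_const_mul, integral_mul_const, h.one t x ht] at h3
  have h4 : ∫ y, k t x y * f y ∂ν = c := rfl
  rw [h4] at h3
  show c * c ≤ ∫ y, k t x y * (f y * f y) ∂ν
  linarith

end HK0

end RC
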