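import Pool.Agent.P.MP_6472e5_gt.HkT

/-! The semigroup given by a Markov kernel: integral properties. -/

set_option autoImplicit false
set_option linter.unusedSectionVars false

noncomputable section

namespace RC

open MeasureTheory Set Filter Topology Metric

variable {Z : Type} [MetricSpace Z] [ProperSpace Z] [MeasurableSpace Z] [BorelSpace Z]
  {ν : Measure Z} {k : ℝ → Z → Z → ℝ} {n : ℕ}

namespace HK0

variable (h : HK0 ν k) {t : ℝ}
include h

theorem hku_int (ht : 0 < t) (y : Z) : Integrable (fun x => k t x y) ν :=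
  (h.int t y ht).congr (ae_of_all _ fun x => h.symm t y x ht)

theorem hku_one (ht : 0 < t) (y : Z) : ∫ x, k t x y ∂ν = 1 := by
  rw [← h.one t y ht]
  exact integral_congr_ae (ae_of_all _ fun x => h.symm t x y ht)

theorem hku_prod {f : Z → ℝ} (hf : Integrable f ν) (ht : 0 < t) :
    Integrable (fun a : Z × Z => k t a.1 a.2 * f a.2) (ν.prod ν) := by
  have := h.sfin
  refine (integrable_prod_iff' ((h.k_cont ht).aestronglyMeasurable.mul hf.1.comp_snd)).2
    ⟨ae_of_all _ fun y => (h.hku_int ht y).mul_const (f y), hf.norm.congr (ae_of_all _ fun y => ?_)⟩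
  have e : ∀ x, ‖k t x y * f y‖ = k t x y * ‖f y‖ := fun x => by
    rw [norm_mul, Real.norm_of_nonneg (h.nonneg t x y ht)]
  simp only [Pi.mul_apply, e]
  rw [integral_mul_const, h.hku_one ht, one_mul]

theorem hku_prod' {f : Z → ℝ} (hf : Integrable f ν) (ht : 0 < t) :
    Integrable (fun a : Z × Z => k t a.1 a.2 * f a.1) (ν.prod ν) := by
  have := h.sfin
  refine (h.hku_prod hf ht).swap.congr (ae_of_all _ fun a => ?_)
  simp only [Function.comp, Prod.fst_swap, Prod.snd_swap, h.symm t a.2 a.1 ht]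

theorem hku_swap {f g : Z → ℝ} (ht : 0 < t)
    (hi : Integrable (fun a : Z × Z => k t a.1 a.2 * f a.2 * g a.1) (ν.prod ν)) :
    ∫ x, kT ν k t f x * g x ∂ν = ∫ x, f x * kT ν k t g x ∂ν := by
  have := h.sfin
  have e := integral_integral_swap (f := fun x y => k t x y * f y * g x) hi
  simp only [kT]
  simp_rw [← integral_mul_const, ← integral_const_mul]
  rw [e]
  refine integral_congr_ae (ae_of_all _ fun y => integral_congr_ae (ae_of_all _ fun x => ?_))
  simp only [h.symm t x y ht]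
  ring

theorem kT_l1 {f : Z → ℝ} (hf : Integrable f ν) (ht : 0 < t) :
    Integrable (kT ν k t f) ν ∧ ∫ x, kT ν k t f x ∂ν = ∫ x, f x ∂ν := by
  have := h.sfin
  have hi := h.hku_prod hf ht
  refine ⟨hi.integral_prod_left, ?_⟩
  have e := integral_integral_swap (f := fun x y => k t x y * f y) hi
  simp only [kT]
  rw [e]
  refine integral_congr_ae (ae_of_all _ fun y => ?_)
  simp only
  rw [integral_mul_const, h.hku_one ht, one_mul]

theorem kT_l2 {f : Z → ℝ} (hf : MemLp f 2 ν) (ht : 0 < t) :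
    MemLp (kT ν k t f) 2 ν ∧ n2 ν (kT ν k t f) ≤ n2 ν f := by
  have i2 : Integrable (fun y => f y * f y) ν := integrable_mul_of_memLp hf hf
  obtain ⟨a1, a2⟩ := h.kT_l1 i2 ht
  have hm := (h.kT_meas hf.1 ht).aestronglyMeasurable (μ := ν)
  have hle : ∀ x, kT ν k t f x ^ 2 ≤ kT ν k t (fun y => f y * f y) x := fun x => by
    rw [sq]
    exact h.kT_sq_le ht (h.int_l2 hf ht x) (h.int_l1 i2 ht x)
  have i3 : Integrable (fun x => kT ν k t f x ^ 2) ν :=
    a1.mono' (hm.pow 2) (ae_of_all _ fun x => by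
      rw [Real.norm_of_nonneg (sq_nonneg _)]
      exact hle x)
  refine ⟨(memLp_two_iff_integrable_sq hm).2 i3, (integral_mono i3 a1 hle).trans (le_of_eq ?_)⟩
  rw [a2]
  simp only [n2, sq]

theorem kT_symm1 {ψ w : Z → ℝ} (hm : AEStronglyMeasurable ψ ν) (hψ : Bdd ν ψ)
    (hw : Integrable w ν) (ht : 0 < t) :
    ∫ x, kT ν k t ψ x * w x ∂ν = ∫ x, ψ x * kT ν k t w x ∂ν := by
  have := h.sfin
  obtain ⟨C, hC⟩ := hψ
  refine h.hku_swap ht ?_
  have hb : ∀ᵐ a : Z × Z ∂ν.prod ν, ‖ψ a.2‖ ≤ C :=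
    (Measure.quasiMeasurePreserving_snd (μ := ν) (ν := ν)).ae hC
  refine ((h.hku_prod' hw ht).bdd_mul hm.comp_snd hb).congr (ae_of_all _ fun a => ?_)
  simp only
  ring

theorem kT_symm2 {f g : Z → ℝ} (hf : MemLp f 2 ν) (hg : MemLp g 2 ν) (ht : 0 < t) :
    ∫ x, kT ν k t f x * g x ∂ν = ∫ x, f x * kT ν k t g x ∂ν := by
  have := h.sfin
  refine h.hku_swap ht ?_
  refine ((h.hku_prod (integrable_mul_of_memLp hf hf) ht).add
    (h.hku_prod' (integrable_mul_of_memLp hg hg) ht)).mono'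
    (((h.k_cont ht).aestronglyMeasurable.mul hf.1.comp_snd).mul hg.1.comp_fst)
    (ae_of_all _ fun a => ?_)
  have h0 := h.nonneg t a.1 a.2 ht
  simp only [Pi.add_apply]
  rw [mul_assoc, norm_mul, Real.norm_of_nonneg h0, ← mul_add]
  refine mul_le_mul_of_nonneg_left (abs_le.2 ⟨?_, ?_⟩) h0
  · nlinarith [sq_nonneg (f a.2 + g a.1), mul_self_nonneg (f a.2), mul_self_nonneg (g a.1)]
  · nlinarith [sq_nonneg (f a.2 - g a.1), mul_self_nonneg (f a.2), mul_self_nonneg (g a.1)]

theorem kT_semi {f : Z → ℝ} (hm : AEStronglyMeasurable f ν) {s : ℝ} (hs : 0 < s) (ht : 0 < t)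
    {x : Z} (hi : Integrable (fun y => k (s + t) x y * f y) ν) :
    kT ν k (s + t) f x = kT ν k s (kT ν k t f) x := by
  have := h.sfin
  obtain ⟨C, hC⟩ := h.bdd t ht
  have c1 : Continuous fun z => k s x z := (h.k_cont hs).comp (Continuous.prodMk_right x)
  have i1 : ∀ y, Integrable (fun z => k s x z * k t z y) ν := fun y =>
    (h.int s x hs).mul_bdd (c := C)
      ((h.k_cont ht).comp (Continuous.prodMk_left y)).aestronglyMeasurable
      (ae_of_all _ fun z => by
        rw [Real.norm_of_nonneg (h.nonneg t z y ht)]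
        exact hC z y)
  have hi' : Integrable (fun a : Z × Z => k s x a.1 * k t a.1 a.2 * f a.2) (ν.prod ν) := by
    refine (integrable_prod_iff' ((((c1.comp continuous_fst).mul
      (h.k_cont ht)).aestronglyMeasurable).mul hm.comp_snd)).2
      ⟨ae_of_all _ fun y => (i1 y).mul_const (f y), hi.norm.congr (ae_of_all _ fun y => ?_)⟩
    have e : ∀ z, ‖k s x z * k t z y * f y‖ = k s x z * k t z y * ‖f y‖ := fun z => by
      rw [norm_mul, Real.norm_of_nonneg (mul_nonneg (h.nonneg s x z hs) (h.nonneg t z y ht))]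
    simp only [Pi.mul_apply, Function.comp, e]
    rw [integral_mul_const, ← h.ck s t x y hs ht, norm_mul,
      Real.norm_of_nonneg (h.nonneg _ x y (add_pos hs ht))]
  have e := integral_integral_swap (f := fun z y => k s x z * k t z y * f y) hi'
  simp only [kT]
  simp_rw [← integral_const_mul, ← mul_assoc]
  rw [e]
  refine integral_congr_ae (ae_of_all _ fun y => ?_)
  simp only
  rw [integral_mul_const, ← h.ck s t x y hs ht]

theorem kT_le_l1 (ht : 0 < t) : ∃ C, 0 ≤ C ∧ ∀ w, Integrable w ν → ∀ x,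
    |kT ν k t w x| ≤ C * ∫ y, |w y| ∂ν := by
  obtain ⟨C, hC⟩ := h.bdd t ht
  refine ⟨max C 0, le_max_right _ _, fun w hw x => ?_⟩
  rw [← integral_const_mul, ← Real.norm_eq_abs, kT]
  refine norm_integral_le_of_norm_le (hw.abs.const_mul _) (ae_of_all _ fun y => ?_)
  rw [norm_mul, Real.norm_of_nonneg (h.nonneg t x y ht)]
  exact mul_le_mul_of_nonneg_right ((hC x y).trans (le_max_left _ _)) (abs_nonneg _)

theorem kT_le_l2 (ht : 0 < t) : ∃ C, 0 ≤ C ∧ ∀ f, MemLp f 2 ν → ∀ x,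
    |kT ν k t f x| ≤ C * √(n2 ν f) := by
  obtain ⟨C, hC⟩ := h.bdd t ht
  refine ⟨√C, Real.sqrt_nonneg _, fun f hf x => ?_⟩
  have a1 : n2 ν (k t x) ≤ C := by
    have a2 : ∫ y, C * k t x y ∂ν = C := by rw [integral_const_mul, h.one t x ht, mul_one]
    rw [← a2]
    refine integral_mono (h.k_memLp ht x).integrable_sq ((h.int t x ht).const_mul C) fun y => ?_
    simp only [sq]
    exact mul_le_mul_of_nonneg_right (hC x y) (h.nonneg t x y ht)
  refine (abs_integral_le_integral_abs.trans (integral_abs_mul_le (h.k_memLp ht x) hf)).trans ?_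
  exact mul_le_mul_of_nonneg_right (Real.sqrt_le_sqrt a1) (Real.sqrt_nonneg _)

/-- Functions that agree near `x`. -/
theorem kT_loc {f g : Z → ℝ} (hf : AEStronglyMeasurable f ν) (hg : AEStronglyMeasurable g ν)
    {M : ℝ} (bf : ∀ y, |f y| ≤ M) (bg : ∀ y, |g y| ≤ M) (ht : 0 < t) {x : Z} {ρ : ℝ}
    (he : EqOn f g (ball x ρ)) :
    |kT ν k t f x - kT ν k t g x| ≤ 2 * M * ∫ y in (ball x ρ)ᶜ, k t x y ∂ν := by
  rw [← kT_sub (h.int_bdd hf ⟨M, ae_of_all _ bf⟩ ht x) (h.int_bdd hg ⟨M, ae_of_all _ bg⟩ ht x),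
    ← integral_indicator measurableSet_ball.compl, ← integral_const_mul, ← Real.norm_eq_abs, kT]
  refine norm_integral_le_of_norm_le
    (((h.int t x ht).indicator measurableSet_ball.compl).const_mul _) (ae_of_all _ fun y => ?_)
  by_cases hy : y ∈ ball x ρ
  · rw [indicator_of_notMem (not_not.2 hy), Pi.sub_apply, he hy, sub_self, mul_zero, mul_zero,
      norm_zero]
  · rw [indicator_of_mem hy, norm_mul, Real.norm_of_nonneg (h.nonneg t x y ht), mul_comm]
    refine mul_le_mul_of_nonneg_right ((abs_sub _ _).trans ?_) (h.nonneg t x y ht)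
    linarith [bf y, bg y]

theorem hku_sup {g : Z → ℝ} {L : NNReal} (hL : LipschitzWith L g) {M : ℝ} (hM : ∀ y, |g y| ≤ M)
    (ht : 0 < t) (x : Z) {ρ : ℝ} (hρ : 0 ≤ ρ) :
    |kT ν k t g x - g x| ≤ L * ρ + 2 * M * ∫ y in (ball x ρ)ᶜ, k t x y ∂ν := by
  have i0 := h.int t x ht
  have i1 := (i0.indicator (measurableSet_ball (x := x) (ε := ρ)).compl).const_mul (2 * M)
  have e1 : (L : ℝ) * ρ = ∫ y, L * ρ * k t x y ∂ν := by
    rw [integral_const_mul, h.one t x ht, mul_one]
  have e2 : kT ν k t g x - g x = kT ν k t (g - fun _ => g x) x := by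
    rw [kT_sub (h.int_bdd hL.continuous.aestronglyMeasurable ⟨M, ae_of_all _ hM⟩ ht x)
      (i0.mul_const (g x)), h.kT_const (g x) ht x]
  rw [e2, ← integral_indicator measurableSet_ball.compl, ← integral_const_mul, e1,
    ← integral_add (i0.const_mul _) i1, ← Real.norm_eq_abs, kT]
  refine norm_integral_le_of_norm_le ((i0.const_mul _).add i1) (ae_of_all _ fun y => ?_)
  have h0 := h.nonneg t x y ht
  have h1 : (0 : ℝ) ≤ L * ρ := mul_nonneg L.coe_nonneg hρ
  rw [norm_mul, Real.norm_of_nonneg h0, Pi.sub_apply, Real.norm_eq_abs]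
  by_cases hy : y ∈ ball x ρ
  · rw [indicator_of_notMem (not_not.2 hy), mul_zero, add_zero, mul_comm]
    refine mul_le_mul_of_nonneg_right ((hL.dist_le_mul y x).trans ?_) h0
    exact mul_le_mul_of_nonneg_left (mem_ball.1 hy).le L.coe_nonneg
  · rw [indicator_of_mem hy, ← add_mul, mul_comm]
    refine mul_le_mul_of_nonneg_right ((abs_sub _ _).trans ?_) h0
    linarith [hM y, hM x]

theorem hku_n2 {g : Z → ℝ} (hg : LipB g) (ht : 0 < t) {δ : ℝ}
    (hδ : ∀ x, |kT ν k t g x - g x| ≤ δ) : n2 ν (kT ν k t g - g) ≤ 2 * (δ * ∫ x, |g x| ∂ν) := by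
  obtain ⟨i1, m⟩ := h.lipB_int hg
  obtain ⟨m', le⟩ := h.kT_l2 m ht
  have e : n2 ν (kT ν k t g - g) = n2 ν (kT ν k t g) - n2 ν g +
      2 * ∫ x, (g x - kT ν k t g x) * g x ∂ν := by
    have i2 : Integrable (fun x => (g x - kT ν k t g x) * g x) ν :=
      integrable_mul_of_memLp (m.sub m') m
    have i3 : Integrable (fun x => kT ν k t g x ^ 2 - g x ^ 2) ν :=
      m'.integrable_sq.sub m.integrable_sq
    simp only [n2]
    rw [← integral_sub m'.integrable_sq m.integrable_sq, ← integral_const_mul,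
      ← integral_add i3 (i2.const_mul 2)]
    refine integral_congr_ae (ae_of_all _ fun x => ?_)
    simp only [Pi.sub_apply]
    ring
  have b : ∫ x, (g x - kT ν k t g x) * g x ∂ν ≤ δ * ∫ x, |g x| ∂ν := by
    rw [← integral_const_mul]
    refine (Real.le_norm_self _).trans
      (norm_integral_le_of_norm_le (i1.abs.const_mul δ) (ae_of_all _ fun x => ?_))
    rw [norm_mul, Real.norm_eq_abs, abs_sub_comm]
    exact mul_le_mul_of_nonneg_right (hδ x) (abs_nonneg _)
  linarith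

/-- Strong continuity at time zero. -/
theorem kT_zero {g : Z → ℝ} (hg : LipB g) :
    Tendsto (fun t => n2 ν (kT ν k t g - g)) (𝓝[>] 0) (𝓝 0) := by
  obtain ⟨L, hL⟩ := hg.1
  obtain ⟨M, hM⟩ := hg.bound
  have hI : 0 ≤ ∫ x, |g x| ∂ν := integral_nonneg fun _ => abs_nonneg _
  refine tendsto_order.2 ⟨fun a ha => Eventually.of_forall fun t => ha.trans_le (n2_nonneg _),
    fun ε hε => ?_⟩
  have c : Continuous fun ρ : ℝ => 2 * ((L * ρ + 2 * |M| * ρ) * ∫ x, |g x| ∂ν) := by fun_prop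
  have l := (c.tendsto 0).mono_left (nhdsWithin_le_nhds (s := Ioi 0))
  simp only [mul_zero, add_zero, zero_mul] at l
  obtain ⟨ρ, h1, hρ⟩ := ((l.eventually (gt_mem_nhds hε)).and self_mem_nhdsWithin).exists
  filter_upwards [h.tail ρ 1 hρ one_pos, Ioo_mem_nhdsGT hρ] with t a1 a2
  refine (h.hku_n2 hg a2.1 fun x => (h.hku_sup hL (fun y => (hM y).trans (le_abs_self M)) a2.1 x
    (le_of_lt hρ)).trans ?_).trans_lt h1
  have a3 := a1 x
  have a4 : ∫ y in (ball x ρ)ᶜ, k t x y ∂ν ≤ ρ := by linarith [a2.2]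
  gcongr

end HK0

end RC
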