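import Pool.Agent.P.MP_6472e5_gt.HkG
import Pool.Agent.P.MP_6472e5_gt.HkW

/-! The domain and the carre du champ generated by a kernel. -/

set_option autoImplicit false
set_option linter.unusedSectionVars false

noncomputable section

namespace RC

open MeasureTheory Set Filter Topology Metric

variable {Z : Type} [MetricSpace Z] [ProperSpace Z] [MeasurableSpace Z] [BorelSpace Z]
  {ν : Measure Z} {k : ℝ → Z → Z → ℝ} {n : ℕ}

/-- The closure of the Lipschitz functions with bounded support. -/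
def kV (ν : Measure Z) (k : ℝ → Z → Z → ℝ) : Set (Z → ℝ) :=
  {f | MemLp f 2 ν ∧ ∀ ε : ℝ, 0 < ε → ∃ u, LipB u ∧ n2 ν (u - f) ≤ ε ∧
    ∀ j, kE ν k (hj j) (u - f) (u - f) ≤ ε}

/-- The limit of the approximate carre du champ. -/
def kΓ (ν : Measure Z) (k : ℝ → Z → Z → ℝ) (f g : Z → ℝ) : Z → ℝ :=
  Classical.epsilon (WL ν fun j => kG ν k (hj j) f g)

theorem HK.wl_lip (h : HK ν n k) {f g : Z → ℝ} (hf : LipB f) (hg : LipB g) :
    ∃ w, WL ν (fun j => kG ν k (hj j) f g) w := by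
  have f2 := (h.lipB_int hf).2
  have g2 := (h.lipB_int hg).2
  have hi := fun j => h.kG_int f2 g2 (hj_pos j)
  rcases isEmpty_or_nonempty Z with _ | ⟨⟨x₀⟩⟩
  · exact wl_of_bdd (S := ∅) MeasurableSet.empty (by simp) (fun j => (hi j).aestronglyMeasurable)
      (C := 0) (fun j x => isEmptyElim x) fun j x => isEmptyElim x
  obtain ⟨R₁, -, h1⟩ := hf.exists_ball x₀
  obtain ⟨R₂, -, h2⟩ := hg.exists_ball x₀
  have h1' : ∀ y, y ∉ ball x₀ (max R₁ R₂) → f y = 0 := fun y hy =>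
    h1 y fun hb => hy (ball_subset_ball (le_max_left _ _) hb)
  have h2' : ∀ y, y ∉ ball x₀ (max R₁ R₂) → g y = 0 := fun y hy =>
    h2 y fun hb => hy (ball_subset_ball (le_max_right _ _) hb)
  have t1 := (h.kG_tail f2 h1').comp hj_hyper
  have t2 := (h.kG_tail g2 h2').comp hj_hyper
  have hB : MeasurableSet (ball x₀ (max R₁ R₂ + 1)) := measurableSet_ball
  have hfin := h.fin x₀ (max R₁ R₂ + 1)
  generalize ball x₀ (max R₁ R₂ + 1) = B at t1 t2 hB hfin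
  obtain ⟨L, hL⟩ := hf.1
  obtain ⟨L', hL'⟩ := hg.1
  obtain ⟨M, hM⟩ := hf.bound
  obtain ⟨M', hM'⟩ := hg.bound
  obtain ⟨w, hw⟩ := wl_of_bdd (a := fun j => B.indicator (kG ν k (hj j) f g)) hB hfin
    (fun j => (hi j).aestronglyMeasurable.indicator hB) (C := L * L') (fun j x => by
      by_cases hx : x ∈ B
      · rw [indicator_of_mem hx]
        exact (h.kG_abs_le f2 g2 (hj_pos j) x).trans (mul_le_mul
          (Real.sqrt_le_iff.2 ⟨L.2, h.var f L M _ x hL hM (hj_pos j)⟩)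
          (Real.sqrt_le_iff.2 ⟨L'.2, h.var g L' M' _ x hL' hM' (hj_pos j)⟩) (Real.sqrt_nonneg _) L.2)
      · rw [indicator_of_notMem hx, abs_zero]
        positivity) fun j x hx => indicator_of_notMem hx _
  refine wl_closed hi fun ε hε => ⟨_, w, hw, ?_⟩
  filter_upwards [t1.eventually (eventually_le_nhds hε), t2.eventually (eventually_le_nhds hε)]
    with j a b
  have i1 := (h.kG_int f2 f2 (hj_pos j)).integrableOn (s := Bᶜ)
  have i2 := (h.kG_int g2 g2 (hj_pos j)).integrableOn (s := Bᶜ)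
  calc ∫ x, |kG ν k (hj j) f g x - B.indicator (kG ν k (hj j) f g) x| ∂ν
      = ∫ x in Bᶜ, |kG ν k (hj j) f g x| ∂ν := by
        rw [← integral_indicator hB.compl]
        refine integral_congr_ae (ae_of_all _ fun x => ?_)
        by_cases hx : x ∈ B <;> simp [hx]
    _ ≤ ∫ x in Bᶜ, (kG ν k (hj j) f f x + kG ν k (hj j) g g x) / 2 ∂ν := by
        refine integral_mono (hi j).abs.integrableOn ((i1.add i2).div_const 2) fun x => ?_
        have e := h.kG_abs_le f2 g2 (hj_pos j) x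
        have e1 := Real.sq_sqrt (h.kG_nonneg f2 (hj_pos j) x)
        have e2 := Real.sq_sqrt (h.kG_nonneg g2 (hj_pos j) x)
        change |kG ν k (hj j) f g x| ≤ (kG ν k (hj j) f f x + kG ν k (hj j) g g x) / 2
        nlinarith [sq_nonneg (√(kG ν k (hj j) f f x) - √(kG ν k (hj j) g g x))]
    _ ≤ ε := by
        rw [integral_div, integral_add i1 i2]
        exact (div_le_iff₀ two_pos).2 ((add_le_add a b).trans_eq (by ring))

theorem hkv_swap (f g : Z → ℝ) (t : ℝ) :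
    kE ν k t (f - g) (f - g) = kE ν k t (g - f) (g - f) := by
  have e : f - g = (-1 : ℝ) • (g - f) := by simp
  unfold kE
  rw [e, kG_smul, kG_symm, kG_smul, smul_smul]
  simp

theorem HK0.hkv_tri (h : HK0 ν k) {f g : Z → ℝ} (hf : MemLp f 2 ν) (hg : MemLp g 2 ν) {t : ℝ}
    (ht : 0 < t) : √(kE ν k t f f) ≤ √(kE ν k t g g) + √(kE ν k t (f - g) (f - g)) := by
  have e := h.sqrt_kE_add_le hg (hf.sub hg) ht
  rwa [add_sub_cancel] at e

theorem HK.kE_bdd (h : HK ν n k) {f : Z → ℝ} (hf : f ∈ kV ν k) :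
    ∃ C, ∀ j, kE ν k (hj j) f f ≤ C := by
  obtain ⟨u, hu, -, h1⟩ := hf.2 1 one_pos
  obtain ⟨w, hw⟩ := h.wl_lip hu hu
  have u2 := (h.lipB_int hu).2
  refine ⟨(√(∫ x, w x ∂ν) + 1) ^ 2, fun j => (Real.sqrt_le_iff.1 ?_).2⟩
  refine (h.hkv_tri hf.1 u2 (hj_pos j)).trans (add_le_add (Real.sqrt_le_sqrt (h.wl_le u2 hw j)) ?_)
  rw [hkv_swap]
  exact Real.sqrt_le_one.2 (h1 j)

theorem HK.wl_mem (h : HK ν n k) {f g : Z → ℝ} (hf : f ∈ kV ν k) (hg : g ∈ kV ν k) :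
    WL ν (fun j => kG ν k (hj j) f g) (kΓ ν k f g) := by
  refine Classical.epsilon_spec (p := WL ν fun j => kG ν k (hj j) f g) ?_
  obtain ⟨A, hA⟩ := h.kE_bdd hf
  obtain ⟨B, hB⟩ := h.kE_bdd hg
  refine wl_closed (fun j => h.kG_int hf.1 hg.1 (hj_pos j)) fun ε hε => ?_
  have hp : 0 < √B + √A + 1 := by positivity
  obtain ⟨η, h0, h1, h2⟩ : ∃ η : ℝ, 0 < η ∧ η ≤ 1 ∧ η * (√B + √A + 1) ≤ ε :=
    ⟨min 1 (ε / (√B + √A + 1)), lt_min one_pos (div_pos hε hp), min_le_left _ _,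
      (le_div_iff₀ hp).1 (min_le_right _ _)⟩
  obtain ⟨u, hu, -, h3⟩ := hf.2 (η ^ 2) (pow_pos h0 2)
  obtain ⟨v, hv, -, h4⟩ := hg.2 (η ^ 2) (pow_pos h0 2)
  have u2 := (h.lipB_int hu).2
  have v2 := (h.lipB_int hv).2
  obtain ⟨w, hw⟩ := h.wl_lip hu hv
  refine ⟨_, w, hw, Eventually.of_forall fun j => ?_⟩
  refine (h.kG_diff_le hf.1 u2 hg.1 v2 (hj_pos j)).trans ?_
  have a1 := Real.sqrt_le_iff.2 ⟨h0.le, h3 j⟩
  have a2 := Real.sqrt_le_iff.2 ⟨h0.le, h4 j⟩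
  have a3 := (h.hkv_tri u2 hf.1 (hj_pos j)).trans
    (add_le_add (Real.sqrt_le_sqrt (hA j)) (a1.trans h1))
  rw [hkv_swap f, hkv_swap g]
  have a4 := mul_le_mul a1 (Real.sqrt_le_sqrt (hB j)) (Real.sqrt_nonneg _) h0.le
  have a5 := mul_le_mul a3 a2 (Real.sqrt_nonneg _) (by positivity)
  linarith

theorem HK.lip_mem (h : HK ν n k) {f : Z → ℝ} (hf : LipB f) : f ∈ kV ν k :=
  ⟨(h.lipB_int hf).2, fun ε hε => ⟨f, hf, by simp [n2, hε.le], fun j => by
    simp [kE, kG, kT, hε.le]⟩⟩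

theorem HK.kΓ_lip (h : HK ν n k) {f : Z → ℝ} (hf : LipB f) {U : Set Z} {L : NNReal}
    (hU : IsOpen U) (hL : LipschitzOnWith L f U) :
    ∀ᵐ x ∂ν, x ∈ U → kΓ ν k f f x ≤ (L : ℝ) ^ 2 := by
  have key : ∀ x ∈ U, ∃ r, 0 < r ∧ ∀ᵐ y ∂ν, y ∈ ball x r → kΓ ν k f f y ≤ (L : ℝ) ^ 2 := by
    intro x hx
    obtain ⟨r, hr, hb⟩ := Metric.isOpen_iff.1 hU x hx
    refine ⟨r / 2, half_pos hr, (h.wl_mem (h.lip_mem hf) (h.lip_mem hf)).le_on measurableSet_ball
      (h.fin _ _) fun ε hε => ?_⟩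
    have hp : 0 < (L : ℝ) ^ 2 + ε / 2 := by positivity
    obtain ⟨L', h0, h1, h2⟩ : ∃ L' : NNReal, 0 < L' ∧ L ≤ L' ∧ (L' : ℝ) ^ 2 = L ^ 2 + ε / 2 :=
      ⟨⟨√((L : ℝ) ^ 2 + ε / 2), Real.sqrt_nonneg _⟩, Real.sqrt_pos.2 hp,
        Real.le_sqrt_of_sq_le (le_add_of_nonneg_right (half_pos hε).le), Real.sq_sqrt hp.le⟩
    obtain ⟨g, hg, hgL, he, -⟩ := exists_lipB_eqOn h0 hr ((hL.mono hb).weaken h1)
    obtain ⟨M, hM⟩ := hf.bound
    obtain ⟨M', hM'⟩ := hg.bound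
    filter_upwards [hj_hyper.eventually (h.kG_loc (max M M') (half_pos hr) (half_pos hε))]
      with j H y hy
    have a1 := H f g y hf.continuous.aestronglyMeasurable hg.continuous.aestronglyMeasurable
      (fun y => (hM y).trans (le_max_left _ _)) (fun y => (hM' y).trans (le_max_right _ _))
      (he.symm.mono (ball_subset_ball' (by linarith [mem_ball.1 hy])))
    have a2 := h.var g L' M' _ y hgL hM' (hj_pos j)
    linarith [(abs_le.1 a1).2]
  choose! r hr hP using key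
  obtain ⟨t, htU, htc, hcov⟩ := TopologicalSpace.countable_cover_nhdsWithin
    (f := fun x => ball x (r x)) (s := U)
    fun x hx => mem_nhdsWithin_of_mem_nhds (ball_mem_nhds x (hr x hx))
  filter_upwards [(ae_ball_iff htc).2 fun x (hx : x ∈ t) => hP x (htU hx)] with y hy hyU
  obtain ⟨x, hx, hyx⟩ := mem_iUnion₂.1 (hcov hyU)
  exact hy x hx hyx

end RC
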