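import Pool.Agent.P.MP_6472e5_gt.HoD

/-! Formal chains over a ring and their barycentric subdivision. -/

set_option autoImplicit false
set_option linter.unusedSectionVars false

noncomputable section

namespace RC.Ho

open Set Filter Topology

theorem diam_aff_val {k n : ℕ} (v : Fin (k + 1) → Dl n) (t : Dl k) :
    (aff v t).1 = ∑ i, t i • (v i).1 := rfl

theorem aff_vertex {k n : ℕ} (v : Fin (k + 1) → Dl n) (i : Fin (k + 1)) :
    aff v (stdSimplex.vertex i) = v i := by
  apply Subtype.ext
  rw [diam_aff_val, stdSimplex.vertex_coe, Finset.sum_eq_single i]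
  · simp
  · intro j _ hj
    rw [Pi.single_eq_of_ne hj, zero_smul]
  · intro h
    exact absurd (Finset.mem_univ i) h

theorem aff_id (n : ℕ) :
    aff (fun i : Fin (n + 1) => (stdSimplex.vertex i : Dl n)) = ContinuousMap.id _ := by
  ext1 t
  apply Subtype.ext
  rw [diam_aff_val]
  funext j
  rw [Finset.sum_apply, Finset.sum_eq_single j]
  · simp only [Pi.smul_apply, Pi.single_eq_same, smul_eq_mul, mul_one, ContinuousMap.id_apply]
    rfl
  · intro i _ hi
    simp only [Pi.smul_apply, smul_eq_mul]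
    rw [Pi.single_eq_of_ne hi.symm, mul_zero]
  · intro h
    exact absurd (Finset.mem_univ j) h

theorem aff_comp {j k n : ℕ} (w : Fin (k + 1) → Dl n) (v : Fin (j + 1) → Dl k) :
    (aff w).comp (aff v) = aff (aff w ∘ v) := by
  ext1 t
  apply Subtype.ext
  rw [ContinuousMap.comp_apply, diam_aff_val, diam_aff_val]
  have h1 : ∀ a : Fin (k + 1), (aff v t) a = ∑ i, t i * (v i) a := by
    intro a
    change (aff v t).1 a = _
    rw [diam_aff_val, Finset.sum_apply]
    rfl
  simp only [h1, Function.comp_apply, diam_aff_val, Finset.sum_smul, Finset.smul_sum, mul_smul]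
  exact Finset.sum_comm

theorem aff_face {k n : ℕ} (v : Fin (k + 2) → Dl n) (i : Fin (k + 2)) :
    sub (aff v) i.succAbove = aff (v ∘ i.succAbove) := by
  ext1 t
  apply Subtype.ext
  change (aff v (stdSimplex.map i.succAbove t)).1 = _
  rw [diam_aff_val, diam_aff_val, stdSimplex.map_coe]
  simp only [FunOnFinite.linearMap_apply_apply, Finset.sum_smul, Function.comp_apply]
  rw [← Finset.sum_fiberwise Finset.univ i.succAbove (fun a => t a • (v (i.succAbove a)).1)]
  refine Finset.sum_congr rfl fun b _ => Finset.sum_congr rfl fun a ha => ?_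
  rw [(Finset.mem_filter.1 ha).2]

theorem diam_dist_aff {k n : ℕ} (w : Fin (k + 1) → Dl n) (p : Dl n) (t : Dl k) :
    dist (aff w t) p ≤ ∑ i, t i * dist (w i) p := by
  rw [Subtype.dist_eq, diam_aff_val, dist_eq_norm]
  have h : (∑ i, t i • (w i).1) - p.1 = ∑ i, t i • ((w i).1 - p.1) := by
    simp only [smul_sub, Finset.sum_sub_distrib, ← Finset.sum_smul, stdSimplex.sum_eq_one,
      one_smul]
  rw [h]
  refine (norm_sum_le _ _).trans (Finset.sum_le_sum fun i _ => ?_)
  rw [norm_smul, Real.norm_of_nonneg (stdSimplex.zero_le t i), Subtype.dist_eq, dist_eq_norm]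

theorem dist_aff_le {k n : ℕ} (w : Fin (k + 1) → Dl n) {p : Dl n} {r : ℝ}
    (h : ∀ i, dist (w i) p ≤ r) (t : Dl k) : dist (aff w t) p ≤ r := by
  refine (diam_dist_aff w p t).trans ?_
  calc ∑ i, t i * dist (w i) p ≤ ∑ i, t i * r :=
        Finset.sum_le_sum fun i _ => mul_le_mul_of_nonneg_left (h i) (stdSimplex.zero_le t i)
    _ = r := by rw [← Finset.sum_mul, stdSimplex.sum_eq_one, one_mul]

theorem diam_bary {k n : ℕ} (v : Fin (k + 1) → Dl n) {r : ℝ}
    (h : ∀ i j, dist (v i) (v j) ≤ r) (j : Fin (k + 1)) :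
    dist (v j) (bary n k v) ≤ (k : ℝ) / (k + 1) * r := by
  rw [dist_comm, bary]
  refine (diam_dist_aff v (v j) _).trans ?_
  have hb : ∀ i : Fin (k + 1),
      (stdSimplex.barycenter : Dl k) i = ((k : ℝ) + 1)⁻¹ := by
    intro i
    change (stdSimplex.barycenter : Dl k).1 i = _
    rw [stdSimplex.barycenter_apply]
    simp
  simp only [hb]
  rw [← Finset.mul_sum, Fin.sum_univ_succAbove _ j, dist_self, zero_add]
  have h1 : ∑ i : Fin k, dist (v (j.succAbove i)) (v j) ≤ ∑ _i : Fin k, r :=
    Finset.sum_le_sum fun i _ => h _ _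
  rw [Finset.sum_const, Finset.card_univ, Fintype.card_fin, nsmul_eq_mul] at h1
  have h2 : (0 : ℝ) ≤ ((k : ℝ) + 1)⁻¹ := by positivity
  calc ((k : ℝ) + 1)⁻¹ * ∑ i : Fin k, dist (v (j.succAbove i)) (v j)
      ≤ ((k : ℝ) + 1)⁻¹ * (k * r) := mul_le_mul_of_nonneg_left h1 h2
    _ = (k : ℝ) / (k + 1) * r := by rw [div_eq_mul_inv]; ring

namespace SdAux

section

variable (R : Type) [CommRing R]

/-- Formal chains of ordered `k`-simplices with vertices in `P`. -/
abbrev AC (P : Type) (k : ℕ) : Type := (Fin (k + 1) → P) →₀ R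

/-- Boundary of formal chains. -/
def abd (P : Type) (k : ℕ) : AC R P (k + 1) →ₗ[R] AC R P k :=
  Finsupp.linearCombination R fun v : Fin (k + 2) → P =>
    ∑ i : Fin (k + 2), (-1 : R) ^ (i : ℕ) • Finsupp.single (v ∘ i.succAbove) (1 : R)

/-- Cone with apex `p`. -/
def acone {P : Type} (k : ℕ) (p : P) : AC R P k →ₗ[R] AC R P (k + 1) :=
  Finsupp.lmapDomain R R fun v : Fin (k + 1) → P => (Fin.cons p v : Fin (k + 2) → P)

/-- Image of formal chains under a map of the vertices. -/
def amap {P P' : Type} (k : ℕ) (φ : P → P') : AC R P k →ₗ[R] AC R P' k :=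
  Finsupp.lmapDomain R R fun v : Fin (k + 1) → P => φ ∘ v

/-- Subdivision with respect to the choice of centres `β`. -/
def asd {P : Type} (β : ∀ k, (Fin (k + 1) → P) → P) : ∀ k, AC R P k →ₗ[R] AC R P k
  | 0 => LinearMap.id
  | k + 1 => Finsupp.linearCombination R fun v : Fin (k + 2) → P =>
      acone R k (β (k + 1) v) (asd β k (abd R P k (Finsupp.single v 1)))

/-- The homotopy between the identity and the subdivision. -/
def aht {P : Type} (β : ∀ k, (Fin (k + 1) → P) → P) : ∀ k, AC R P k →ₗ[R] AC R P (k + 1)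
  | 0 => 0
  | k + 1 => Finsupp.linearCombination R fun v : Fin (k + 2) → P =>
      acone R (k + 1) (β (k + 1) v) (Finsupp.single v 1 - aht β k (abd R P k (Finsupp.single v 1)))

end

variable {R : Type} [CommRing R]

variable {P P' : Type}

theorem aff_abd_single (k : ℕ) (v : Fin (k + 2) → P) :
    abd R P k (Finsupp.single v 1) =
      ∑ i : Fin (k + 2), (-1 : R) ^ (i : ℕ) • Finsupp.single (v ∘ i.succAbove) (1 : R) := by
  simp [abd]

theorem aff_acone_single (k : ℕ) (p : P) (v : Fin (k + 1) → P) :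
    acone R k p (Finsupp.single v 1) = Finsupp.single (Fin.cons p v : Fin (k + 2) → P) 1 := by
  simp [acone]

theorem aff_amap_single (k : ℕ) (φ : P → P') (v : Fin (k + 1) → P) :
    amap R k φ (Finsupp.single v 1) = Finsupp.single (φ ∘ v) 1 := by
  simp [amap]

theorem aff_asd_single (β : ∀ k, (Fin (k + 1) → P) → P) (k : ℕ) (v : Fin (k + 2) → P) :
    asd R β (k + 1) (Finsupp.single v 1) =
      acone R k (β (k + 1) v) (asd R β k (abd R P k (Finsupp.single v 1))) := by
  simp [asd]

theorem aff_aht_single (β : ∀ k, (Fin (k + 1) → P) → P) (k : ℕ) (v : Fin (k + 2) → P) :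
    aht R β (k + 1) (Finsupp.single v 1) = acone R (k + 1) (β (k + 1) v)
      (Finsupp.single v 1 - aht R β k (abd R P k (Finsupp.single v 1))) := by
  simp [aht]

/-- Linear maps on formal chains agree once they agree on simplices. -/
theorem aff_ext {k : ℕ} {W : Type} [AddCommGroup W] [Module R W] {f g : AC R P k →ₗ[R] W}
    (h : ∀ v, f (Finsupp.single v 1) = g (Finsupp.single v 1)) (c : AC R P k) : f c = g c := by
  have : f = g := Finsupp.lhom_ext' fun v => LinearMap.ext_ring (h v)
  rw [this]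

theorem aff_cons_zero {k : ℕ} (p : P) (v : Fin (k + 1) → P) :
    (Fin.cons p v : Fin (k + 2) → P) ∘ (0 : Fin (k + 2)).succAbove = v := by
  funext j
  simp

theorem aff_cons_succ {k : ℕ} (p : P) (v : Fin (k + 2) → P) (i : Fin (k + 2)) :
    (Fin.cons p v : Fin (k + 3) → P) ∘ i.succ.succAbove =
      (Fin.cons p (v ∘ i.succAbove) : Fin (k + 2) → P) := by
  funext j
  refine Fin.cases ?_ (fun j => ?_) j
  · simp
  · simp [Fin.succ_succAbove_succ]

theorem abd_acone (k : ℕ) (p : P) (c : AC R P (k + 1)) :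
    abd R P (k + 1) (acone R (k + 1) p c) = c - acone R k p (abd R P k c) := by
  refine aff_ext (f := abd R P (k + 1) ∘ₗ acone R (k + 1) p)
    (g := LinearMap.id - acone R k p ∘ₗ abd R P k) (fun v => ?_) c
  simp only [LinearMap.comp_apply, LinearMap.sub_apply, LinearMap.id_apply]
  rw [aff_acone_single, aff_abd_single, aff_abd_single, Fin.sum_univ_succ, aff_cons_zero, map_sum,
    sub_eq_add_neg, ← Finset.sum_neg_distrib]
  simp only [Fin.val_zero, pow_zero, one_smul, add_right_inj]
  refine Finset.sum_congr rfl fun i _ => ?_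
  rw [aff_cons_succ, map_smul, aff_acone_single, Fin.val_succ, pow_succ, mul_neg_one, neg_smul]

/-- The augmentation. -/
def affEps (R : Type) [CommRing R] (P : Type) : AC R P 0 →ₗ[R] R :=
  Finsupp.linearCombination R fun _ : Fin 1 → P => (1 : R)

theorem aff_eps_single (v : Fin 1 → P) : affEps R P (Finsupp.single v 1) = 1 := by
  simp [affEps]

theorem aff_eps_abd (c : AC R P 1) : affEps R P (abd R P 0 c) = 0 := by
  refine aff_ext (f := affEps R P ∘ₗ abd R P 0) (g := 0) (fun v => ?_) c
  rw [LinearMap.comp_apply, aff_abd_single, Fin.sum_univ_two, map_add, map_smul, map_smul,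
    aff_eps_single, aff_eps_single]
  simp

theorem aff_abd_acone_zero (p : P) (c : AC R P 0) :
    abd R P 0 (acone R 0 p c) = c - affEps R P c • Finsupp.single (fun _ => p) 1 := by
  refine aff_ext (f := abd R P 0 ∘ₗ acone R 0 p)
    (g := LinearMap.id - (affEps R P).smulRight (Finsupp.single (fun _ => p) 1)) (fun v => ?_) c
  simp only [LinearMap.comp_apply, LinearMap.sub_apply, LinearMap.id_apply,
    LinearMap.smulRight_apply]
  have h : (Fin.cons p v : Fin 2 → P) ∘ (1 : Fin 2).succAbove = fun _ => p := by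
    funext j
    fin_cases j
    rfl
  rw [aff_acone_single, aff_abd_single, Fin.sum_univ_two, aff_cons_zero, h, aff_eps_single]
  simp [sub_eq_add_neg]

theorem abd_abd (k : ℕ) (c : AC R P (k + 2)) : abd R P k (abd R P (k + 1) c) = 0 := by
  induction k with
  | zero =>
    refine aff_ext (f := abd R P 0 ∘ₗ abd R P 1) (g := 0) (fun v => ?_) c
    rw [← Fin.cons_self_tail v, ← aff_acone_single, LinearMap.comp_apply, abd_acone, map_sub,
      aff_abd_acone_zero, aff_eps_abd]
    simp
  | succ k ih =>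
    refine aff_ext (f := abd R P (k + 1) ∘ₗ abd R P (k + 2)) (g := 0) (fun v => ?_) c
    rw [← Fin.cons_self_tail v, ← aff_acone_single, LinearMap.comp_apply, abd_acone, map_sub,
      abd_acone, ih]
    simp

theorem abd_asd (β : ∀ k, (Fin (k + 1) → P) → P) (k : ℕ) (c : AC R P (k + 1)) :
    abd R P k (asd R β (k + 1) c) = asd R β k (abd R P k c) := by
  induction k with
  | zero =>
    refine aff_ext (f := abd R P 0 ∘ₗ asd R β 1) (g := asd R β 0 ∘ₗ abd R P 0) (fun v => ?_) c
    rw [LinearMap.comp_apply, LinearMap.comp_apply, aff_asd_single, aff_abd_acone_zero]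
    simp [asd, aff_eps_abd]
  | succ k ih =>
    refine aff_ext (f := abd R P (k + 1) ∘ₗ asd R β (k + 2)) (g := asd R β (k + 1) ∘ₗ abd R P (k + 1))
      (fun v => ?_) c
    rw [LinearMap.comp_apply, LinearMap.comp_apply, aff_asd_single, abd_acone, ih, abd_abd]
    simp

theorem abd_aht (β : ∀ k, (Fin (k + 1) → P) → P) (k : ℕ) (c : AC R P (k + 1)) :
    abd R P (k + 1) (aht R β (k + 1) c) + aht R β k (abd R P k c) = c - asd R β (k + 1) c := by
  induction k with
  | zero =>
    refine aff_ext (f := abd R P 1 ∘ₗ aht R β 1 + aht R β 0 ∘ₗ abd R P 0) (g := LinearMap.id - asd R β 1)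
      (fun v => ?_) c
    simp only [LinearMap.comp_apply, LinearMap.add_apply, LinearMap.sub_apply, LinearMap.id_apply]
    rw [aff_aht_single, abd_acone, aff_asd_single]
    simp [aht, asd]
  | succ k ih =>
    refine aff_ext (f := abd R P (k + 2) ∘ₗ aht R β (k + 2) + aht R β (k + 1) ∘ₗ abd R P (k + 1))
      (g := LinearMap.id - asd R β (k + 2)) (fun v => ?_) c
    simp only [LinearMap.comp_apply, LinearMap.add_apply, LinearMap.sub_apply, LinearMap.id_apply]
    have h := ih (abd R P (k + 1) (Finsupp.single v 1))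
    rw [abd_abd, map_zero, add_zero] at h
    rw [aff_aht_single, abd_acone, aff_asd_single, map_sub (abd R P (k + 1)), h]
    simp only [sub_sub_cancel]
    abel

theorem amap_abd (φ : P → P') (k : ℕ) (c : AC R P (k + 1)) :
    amap R k φ (abd R P k c) = abd R P' k (amap R (k + 1) φ c) := by
  refine aff_ext (f := amap R k φ ∘ₗ abd R P k) (g := abd R P' k ∘ₗ amap R (k + 1) φ) (fun v => ?_) c
  rw [LinearMap.comp_apply, LinearMap.comp_apply, aff_amap_single, aff_abd_single, aff_abd_single,
    map_sum]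
  refine Finset.sum_congr rfl fun i _ => ?_
  rw [map_smul, aff_amap_single]
  rfl

theorem aff_amap_acone (φ : P → P') (k : ℕ) (p : P) (c : AC R P k) :
    amap R (k + 1) φ (acone R k p c) = acone R k (φ p) (amap R k φ c) := by
  refine aff_ext (f := amap R (k + 1) φ ∘ₗ acone R k p) (g := acone R k (φ p) ∘ₗ amap R k φ)
    (fun v => ?_) c
  rw [LinearMap.comp_apply, LinearMap.comp_apply, aff_acone_single, aff_amap_single,
    aff_amap_single, aff_acone_single, Fin.comp_cons]

theorem amap_asd {β : ∀ k, (Fin (k + 1) → P) → P} {β' : ∀ k, (Fin (k + 1) → P') → P'} {φ : P → P'}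
    (hφ : ∀ k v, φ (β k v) = β' k (φ ∘ v)) (k : ℕ) (c : AC R P k) :
    amap R k φ (asd R β k c) = asd R β' k (amap R k φ c) := by
  induction k with
  | zero => rfl
  | succ k ih =>
    refine aff_ext (f := amap R (k + 1) φ ∘ₗ asd R β (k + 1)) (g := asd R β' (k + 1) ∘ₗ amap R (k + 1) φ)
      (fun v => ?_) c
    rw [LinearMap.comp_apply, LinearMap.comp_apply, aff_asd_single, aff_amap_acone, ih, amap_abd,
      aff_amap_single, aff_asd_single, hφ]

theorem amap_aht {β : ∀ k, (Fin (k + 1) → P) → P} {β' : ∀ k, (Fin (k + 1) → P') → P'} {φ : P → P'}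
    (hφ : ∀ k v, φ (β k v) = β' k (φ ∘ v)) (k : ℕ) (c : AC R P k) :
    amap R (k + 1) φ (aht R β k c) = aht R β' k (amap R k φ c) := by
  induction k with
  | zero => simp [aht]
  | succ k ih =>
    refine aff_ext (f := amap R (k + 2) φ ∘ₗ aht R β (k + 1)) (g := aht R β' (k + 1) ∘ₗ amap R (k + 1) φ)
      (fun v => ?_) c
    rw [LinearMap.comp_apply, LinearMap.comp_apply, aff_aht_single, aff_amap_acone, map_sub, ih,
      amap_abd, aff_amap_single, aff_aht_single, hφ]

theorem diam_asd (n : ℕ) : ∀ (k : ℕ) (v : Fin (k + 1) → Dl n) (r : ℝ),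
    (∀ i j, dist (v i) (v j) ≤ r) →
    ∀ w ∈ (asd R (bary n) k (Finsupp.single v 1)).support,
      (∀ (p : Dl n) (s : ℝ), (∀ j, dist (v j) p ≤ s) → ∀ i, dist (w i) p ≤ s) ∧
        ∀ i j, dist (w i) (w j) ≤ (k : ℝ) / (k + 1) * r := by
  classical
  intro k
  induction k with
  | zero =>
    intro v r _ w hw
    have hw' : w ∈ (Finsupp.single v (1 : R)).support := hw
    have e : w = v := Finset.mem_singleton.1 (Finsupp.support_single_subset hw')
    subst e
    refine ⟨fun p s h i => h i, fun i j => ?_⟩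
    have : i = j := Subsingleton.elim (α := Fin 1) i j
    subst this
    simp
  | succ k ih =>
    intro v r hv w hw
    have hr : 0 ≤ r := le_trans dist_nonneg (hv 0 0)
    rw [asd, Finsupp.linearCombination_single, one_smul, acone, Finsupp.lmapDomain_apply] at hw
    obtain ⟨w', hw', rfl⟩ := Finset.mem_image.1 (Finsupp.mapDomain_support hw)
    rw [abd, Finsupp.linearCombination_single, one_smul, map_sum] at hw'
    obtain ⟨a, _, ha⟩ := Finset.mem_biUnion.1 (Finsupp.support_finsetSum hw')
    rw [map_smul] at ha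
    obtain ⟨h1, h2⟩ := ih (v ∘ a.succAbove) r (fun i j => hv _ _) w' (Finsupp.support_smul ha)
    have hb : ∀ i, dist (w' i) (bary n (k + 1) v) ≤ ((k + 1 : ℕ) : ℝ) / ((k + 1 : ℕ) + 1) * r :=
      h1 _ _ fun j => diam_bary v hv _
    have hmono : (k : ℝ) / (k + 1) * r ≤ ((k + 1 : ℕ) : ℝ) / ((k + 1 : ℕ) + 1) * r := by
      refine mul_le_mul_of_nonneg_right ?_ hr
      rw [div_le_div_iff₀ (by positivity) (by positivity)]
      push_cast
      nlinarith
    refine ⟨fun p s h i => ?_, fun i j => ?_⟩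
    · refine Fin.cases ?_ (fun i => ?_) i
      · rw [Fin.cons_zero]
        exact dist_aff_le v h _
      · rw [Fin.cons_succ]
        exact h1 p s (fun j => h _) i
    · refine Fin.cases ?_ (fun i => ?_) i <;> refine Fin.cases ?_ (fun j => ?_) j
      · rw [dist_self]
        positivity
      · rw [Fin.cons_zero, Fin.cons_succ, dist_comm]
        exact hb j
      · rw [Fin.cons_zero, Fin.cons_succ]
        exact hb i
      · rw [Fin.cons_succ, Fin.cons_succ]
        exact (h2 i j).trans hmono

theorem diam_asd_chain (n k : ℕ) (r : ℝ) (c : AC R (Dl n) k)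
    (hc : ∀ v ∈ c.support, ∀ i j, dist (v i) (v j) ≤ r) :
    ∀ w ∈ (asd R (bary n) k c).support, ∀ i j, dist (w i) (w j) ≤ (k : ℝ) / (k + 1) * r := by
  classical
  intro w hw
  have e : c = ∑ v ∈ c.support, c v • Finsupp.single v (1 : R) := by
    conv_lhs => rw [← Finsupp.sum_single c]
    refine Finset.sum_congr rfl fun v _ => ?_
    rw [Finsupp.smul_single, smul_eq_mul, mul_one]
  rw [e, map_sum] at hw
  obtain ⟨v, hv, hw'⟩ := Finset.mem_biUnion.1 (Finsupp.support_finsetSum hw)
  rw [map_smul] at hw'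
  exact (diam_asd n k v r (hc v hv) w (Finsupp.support_smul hw')).2

theorem diam_asd_pow (R : Type) [CommRing R] (n m : ℕ) :
    ∀ w ∈ ((asd R (bary n) n ^ m) (Finsupp.single
      (fun i : Fin (n + 1) => (stdSimplex.vertex i : Dl n)) 1)).support,
      ∀ i j, dist (w i) (w j) ≤ ((n : ℝ) / (n + 1)) ^ m := by
  induction m with
  | zero =>
    intro w _ i j
    rw [pow_zero, Subtype.dist_eq]
    exact (Metric.dist_le_diam_of_mem (bounded_stdSimplex _) (w i).2 (w j).2).trans
      diam_stdSimplex_le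
  | succ m ih =>
    rw [pow_succ', Module.End.mul_apply, pow_succ']
    exact diam_asd_chain n n _ _ ih

/-- Iterated barycentric subdivision produces small simplices. -/
theorem exists_small (R : Type) [CommRing R] (n : ℕ) {ε : ℝ} (hε : 0 < ε) : ∃ m : ℕ,
    ∀ w ∈ ((asd R (bary n) n ^ m) (Finsupp.single
      (fun i : Fin (n + 1) => (stdSimplex.vertex i : Dl n)) 1)).support,
      ∀ i j, dist (w i) (w j) ≤ ε := by
  have h : (n : ℝ) / (n + 1) < 1 := by
    rw [div_lt_one (by positivity)]
    linarith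
  obtain ⟨m, hm⟩ := exists_pow_lt_of_lt_one hε h
  exact ⟨m, fun w hw i j => (diam_asd_pow R n m w hw i j).trans hm.le⟩

end SdAux

end RC.Ho
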