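import Pool.Agent.P.MP_6472e5_gt.Defs

/-! Singular chains: auxiliary definitions, local homology. -/

set_option autoImplicit false
set_option linter.unusedSectionVars false

noncomputable section

namespace RC.Ho

open Set Filter Topology

/-- The standard simplex. -/
abbrev Dl (n : ℕ) : Type := stdSimplex ℝ (Fin (n + 1))

/-- Singular chains. -/
abbrev Chn (R : Type) [CommRing R] (X : Type) [TopologicalSpace X] (n : ℕ) : Type :=
  Simp X n →₀ R

/-- The affine map with prescribed images of the vertices. -/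
def aff {k n : ℕ} (v : Fin (k + 1) → Dl n) : C(Dl k, Dl n) where
  toFun t := ⟨∑ i, t i • (v i).1,
    (convex_stdSimplex ℝ (Fin (n + 1))).sum_mem (fun i _ => t.2.1 i) t.2.2 fun i _ => (v i).2⟩
  continuous_toFun := by
    refine Continuous.subtype_mk (continuous_finsetSum _ fun i _ => ?_) _
    exact ((continuous_apply i).comp continuous_subtype_val).smul continuous_const

/-- The barycentre of an ordered simplex. -/
def bary (n k : ℕ) (v : Fin (k + 1) → Dl n) : Dl n := aff v stdSimplex.barycenter

section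

variable (R : Type) [CommRing R] {X Y : Type} [TopologicalSpace X] [TopologicalSpace Y]

/-- Chains of simplices with the property `P`. -/
def sml (P : ∀ n, Simp X n → Prop) (n : ℕ) : Submodule R (Chn R X n) :=
  Finsupp.supported R R {σ | P n σ}

/-- Cycles in the subset `S`. -/
def cyc (S : Set X) : ∀ n, Submodule R (Chn R X n)
  | 0 => chn R S 0
  | n + 1 => chn R S (n + 1) ⊓ LinearMap.ker (bd R X n)

/-- Evaluation of a cochain on chains. -/
def ev {M : Type} [AddCommGroup M] [Module R M] {n : ℕ} (a : Simp X n → M) : Chn R X n →ₗ[R] M :=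
  Finsupp.linearCombination R a

/-- The augmentation. -/
def aug : Chn R X 0 →ₗ[R] R := ev R fun _ => 1

/-- Reduced cycles in the subset `S`. -/
def rcy (S : Set X) : ∀ n, Submodule R (Chn R X n)
  | 0 => chn R S 0 ⊓ LinearMap.ker (aug R)
  | n + 1 => chn R S (n + 1) ⊓ LinearMap.ker (bd R X n)

open Classical in
/-- Image of a simplex (a constant simplex if the composite is not continuous). -/
def smap {n : ℕ} (f : X → Y) (σ : Simp X n) : Simp Y n :=
  if h : Continuous (f ∘ σ) then ⟨f ∘ σ, h⟩
  else ContinuousMap.const _ (f (σ (stdSimplex.vertex 0)))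

/-- Image of chains. -/
def cmap (f : X → Y) (n : ℕ) : Chn R X n →ₗ[R] Chn R Y n := Finsupp.lmapDomain R R (smap f)

/-- Relative cycles of the pair `(X, X \ K)` in degree `k + 1`. -/
def Zl (K : Set X) (k : ℕ) : Submodule R (Chn R X (k + 1)) := (chn R Kᶜ k).comap (bd R X k)

/-- Relative boundaries of the pair `(X, X \ K)`. -/
def Bl (K : Set X) (n : ℕ) : Submodule R (Chn R X n) := bdy R univ n ⊔ chn R Kᶜ n

variable {R}

/-- The class of `g` generates the local homology at `x` in degree `k + 1`. -/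
def Gen (x : X) (k : ℕ) (g : Chn R X (k + 1)) : Prop :=
  g ∈ Zl R {x} k ∧ ∀ c ∈ Zl R {x} k, ∃ j : R, c - j • g ∈ Bl R {x} (k + 1)

/-- No nonzero multiple of the class of `g` at `x` vanishes. -/
def Fre (x : X) (n : ℕ) (g : Chn R X n) : Prop := ∀ j : R, j • g ∈ Bl R {x} n → j = 0

/-- A locally consistent family of generators of the local homology at the points `π a`,
`a ∈ B`. -/
structure Fam (k : ℕ) (B : Set Y) (π : Y → X) (p : Y → Chn R X (k + 1)) : Prop where
  gen : ∀ a ∈ B, Gen (π a) k (p a)
  loc : ∀ a ∈ B, ∃ ζ : Chn R X (k + 1), ∀ᶠ b in 𝓝 a, b ∈ B ∧ ζ - p b ∈ Bl R {π b} (k + 1)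

/-- The standard generator of the local homology of Euclidean space. -/
structure Std (k : ℕ) (g : Chn R (Euc (k + 1)) (k + 1)) : Prop where
  mem : g ∈ chn R (Metric.closedBall 0 5) (k + 1)
  bdm : bd R _ k g ∈ chn R (Metric.ball 0 4)ᶜ k
  gen : Gen 0 k g
  fre : Fre 0 (k + 1) g

end

variable {X Y : Type} [TopologicalSpace X] [TopologicalSpace Y]

/-- A notion of small simplices on `S`. -/
structure Small (P : ∀ n, Simp X n → Prop) (S : Set X) : Prop where
  comp : ∀ n k (σ : Simp X n) (v : C(Dl k, Dl n)), P n σ → P k (σ.comp v)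
  loc : ∀ x ∈ S, ∃ U ∈ 𝓝[S] x, ∀ n (σ : Simp X n), range σ ⊆ U → P n σ

/-- `f` embeds `S`. -/
def Emb (f : X → Y) (S : Set X) : Prop :=
  ContinuousOn f S ∧ ∃ g : Y → X, ContinuousOn g (f '' S) ∧ LeftInvOn g f S

end RC.Ho
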