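import Pool.Agent.P.MP_6472e5_gt.HoS
import Pool.Agent.P.MP_6472e5_gt.HoH

/-! Local homology: relative cycles and boundaries, generators, transfer along charts. -/

set_option autoImplicit false
set_option linter.unusedSectionVars false

noncomputable section

namespace RC.Ho

open Set Filter Topology

variable {R : Type} [CommRing R] {X Y Z : Type} [TopologicalSpace X] [TopologicalSpace Y]
  [TopologicalSpace Z]

theorem mem_univ_chn {n : ℕ} (c : Chn R X n) : c ∈ chn R univ n := by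
  rw [chn_univ]
  exact Submodule.mem_top

theorem mem_inter_chn {S T : Set X} {n : ℕ} {c : Chn R X n} (h : c ∈ chn R S n)
    (h' : c ∈ chn R T n) : c ∈ chn R (S ∩ T) n := by
  rw [chn_inter]
  exact ⟨h, h'⟩

theorem mem_Zl {K : Set X} {k : ℕ} {c : Chn R X (k + 1)} :
    c ∈ Zl R K k ↔ bd R X k c ∈ chn R Kᶜ k := Iff.rfl

theorem Zl_mono {K K' : Set X} (h : K' ⊆ K) (k : ℕ) : Zl R K k ≤ Zl R K' k :=
  fun _ hc => chn_mono (compl_subset_compl.2 h) k hc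

theorem Bl_mono {K K' : Set X} (h : K' ⊆ K) (n : ℕ) : Bl R K n ≤ Bl R K' n :=
  sup_le_sup_left (chn_mono (compl_subset_compl.2 h) n) _

theorem Zl_pt {K : Set X} {x : X} (h : x ∈ K) {k : ℕ} {c : Chn R X (k + 1)} (hc : c ∈ Zl R K k) :
    c ∈ Zl R {x} k := Zl_mono (singleton_subset_iff.2 h) k hc

theorem Bl_pt {K : Set X} {x : X} (h : x ∈ K) {n : ℕ} {c : Chn R X n} (hc : c ∈ Bl R K n) :
    c ∈ Bl R {x} n := Bl_mono (singleton_subset_iff.2 h) n hc

theorem chn_le_Bl (K : Set X) (n : ℕ) : chn R Kᶜ n ≤ Bl R K n := le_sup_right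

theorem bd_mem_Bl (K : Set X) {n : ℕ} (c : Chn R X (n + 1)) : bd R X n c ∈ Bl R K n :=
  Submodule.mem_sup_left ⟨c, mem_univ_chn c, rfl⟩

theorem bdy_le_Bl (S K : Set X) (n : ℕ) : bdy R S n ≤ Bl R K n :=
  (bdy_mono (subset_univ S) n).trans le_sup_left

theorem Bl_le_Zl (K : Set X) (k : ℕ) : Bl R K (k + 1) ≤ Zl R K k := by
  intro c hc
  obtain ⟨_, ⟨a, -, rfl⟩, b, hb, rfl⟩ := Submodule.mem_sup.1 hc
  rw [mem_Zl, map_add, bd_bd, zero_add]
  exact bd_mem hb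

theorem Zl_congr {K : Set X} {k : ℕ} {c c' : Chn R X (k + 1)} (hc : c ∈ Zl R K k)
    (h : c - c' ∈ Bl R K (k + 1)) : c' ∈ Zl R K k := by
  have := Submodule.sub_mem _ hc (Bl_le_Zl K k h)
  rwa [sub_sub_cancel] at this

theorem Bl_symm {K : Set X} {n : ℕ} {c c' : Chn R X n} (h : c - c' ∈ Bl R K n) :
    c' - c ∈ Bl R K n := by
  have := Submodule.neg_mem _ h
  rwa [neg_sub] at this

theorem Bl_trans {K : Set X} {n : ℕ} {c c' c'' : Chn R X n} (h : c - c' ∈ Bl R K n)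
    (h' : c' - c'' ∈ Bl R K n) : c - c'' ∈ Bl R K n := by
  have := Submodule.add_mem _ h h'
  rwa [sub_add_sub_cancel] at this

theorem Bl_congr {K : Set X} {n : ℕ} {c c' : Chn R X n} (hc : c ∈ Bl R K n)
    (h : c - c' ∈ Bl R K n) : c' ∈ Bl R K n := by
  have := Submodule.sub_mem _ hc h
  rwa [sub_sub_cancel] at this

/-- A chain that avoids `K` avoids an open neighbourhood of `K`. -/
theorem chn_nhds [T2Space X] {K : Set X} {n : ℕ} {c : Chn R X n} (h : c ∈ chn R Kᶜ n) :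
    ∃ U, IsOpen U ∧ K ⊆ U ∧ c ∈ chn R Uᶜ n := by
  obtain ⟨C, hC, hs, hc⟩ := exists_compact h
  exact ⟨Cᶜ, hC.isClosed.isOpen_compl, subset_compl_comm.1 hs, by rwa [compl_compl]⟩

theorem Zl_nhds [T2Space X] {K : Set X} {k : ℕ} {c : Chn R X (k + 1)} (h : c ∈ Zl R K k) :
    ∃ U, IsOpen U ∧ K ⊆ U ∧ c ∈ Zl R U k := chn_nhds h

theorem Bl_nhds [T2Space X] {K : Set X} {n : ℕ} {c : Chn R X n} (h : c ∈ Bl R K n) :
    ∃ U, IsOpen U ∧ K ⊆ U ∧ c ∈ Bl R U n := by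
  obtain ⟨a, ha, b, hb, rfl⟩ := Submodule.mem_sup.1 h
  obtain ⟨U, hU, hK, hb'⟩ := chn_nhds hb
  exact ⟨U, hU, hK, Submodule.add_mem_sup ha hb'⟩

theorem Zl_ev [T2Space X] {x : X} {k : ℕ} {c : Chn R X (k + 1)} (h : c ∈ Zl R {x} k) :
    ∀ᶠ y in 𝓝 x, c ∈ Zl R {y} k := by
  obtain ⟨U, hU, hx, hc⟩ := Zl_nhds h
  filter_upwards [hU.mem_nhds (hx rfl)] with y hy using Zl_pt hy hc

theorem Bl_ev [T2Space X] {x : X} {n : ℕ} {c : Chn R X n} (h : c ∈ Bl R {x} n) :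
    ∀ᶠ y in 𝓝 x, c ∈ Bl R {y} n := by
  obtain ⟨U, hU, hx, hc⟩ := Bl_nhds h
  filter_upwards [hU.mem_nhds (hx rfl)] with y hy using Bl_pt hy hc

/-- Excision. -/
theorem exc {K V : Set X} (hK : IsClosed K) (hV : IsOpen V) (h : K ⊆ V) {k : ℕ}
    {c : Chn R X (k + 1)} (hc : c ∈ Zl R K k) :
    ∃ ξ ∈ chn R V (k + 1), ξ ∈ Zl R K k ∧ c - ξ ∈ Bl R K (k + 1) := exc_surj hK hV h hc

theorem cmap_Zl {f : X → Y} {V K : Set X} {K' : Set Y} (hf : ContinuousOn f V)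
    (hK : ∀ y ∈ V, f y ∈ K' → y ∈ K) {k : ℕ} {ξ : Chn R X (k + 1)} (hξ : ξ ∈ chn R V (k + 1))
    (h : ξ ∈ Zl R K k) : cmap R f (k + 1) ξ ∈ Zl R K' k := by
  rw [mem_Zl, cmap_bd hf hξ]
  exact cmap_mem (S := V ∩ Kᶜ) (T := K'ᶜ) (hf.mono inter_subset_left)
    (fun y hy h' => hy.2 (hK y hy.1 h')) (mem_inter_chn (bd_mem hξ) h)

theorem cmap_Bl {f : X → Y} {V K : Set X} {K' : Set Y} (hf : ContinuousOn f V) (hV : IsOpen V)
    (hc : IsClosed K) (hs : K ⊆ V) (hK : ∀ y ∈ V, f y ∈ K' → y ∈ K) {n : ℕ} {ξ : Chn R X n}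
    (hξ : ξ ∈ chn R V n) (h : ξ ∈ Bl R K n) : cmap R f n ξ ∈ Bl R K' n := by
  obtain ⟨a, ha, b, hb, rfl⟩ := Submodule.mem_sup.1 (exc_inj hc hV hs hξ h)
  rw [map_add]
  exact Submodule.add_mem_sup (cmap_bdy hf (mapsTo_univ _ _) ha)
    (cmap_mem (S := V ∩ Kᶜ) (T := K'ᶜ) (hf.mono inter_subset_left)
      (fun y hy h' => hy.2 (hK y hy.1 h')) hb)

theorem cmap_Bl' {f : X → Y} {K : Set X} {K' : Set Y} (hf : Continuous f)
    (hK : ∀ y, f y ∈ K' → y ∈ K) {n : ℕ} {ξ : Chn R X n} (h : ξ ∈ Bl R K n) :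
    cmap R f n ξ ∈ Bl R K' n := by
  obtain ⟨a, ha, b, hb, rfl⟩ := Submodule.mem_sup.1 h
  rw [map_add]
  exact Submodule.add_mem_sup (cmap_bdy hf.continuousOn (mapsTo_univ _ _) ha)
    (cmap_mem (S := Kᶜ) (T := K'ᶜ) hf.continuousOn (fun y hy h' => hy (hK y h')) hb)

theorem htpy_Bl (H : ℝ → X → Y) {S T : Set X} {K' : Set Y}
    (hH : ContinuousOn (fun p : ℝ × X => H p.1 p.2) (Icc 0 1 ×ˢ S))
    (hT : ∀ s ∈ Icc (0 : ℝ) 1, ∀ x ∈ S ∩ T, H s x ∉ K') {k : ℕ} {c : Chn R X (k + 1)}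
    (hc : c ∈ chn R S (k + 1)) (hb : bd R X k c ∈ chn R T k) :
    cmap R (H 1) (k + 1) c - cmap R (H 0) (k + 1) c ∈ Bl R K' (k + 1) :=
  htpy_rel H (S' := univ) (T' := K'ᶜ) hH (fun _ _ _ _ => mem_univ _) hT hc hb

/-- The straight line homotopy. -/
theorem line_Bl {V : Type} [NormedAddCommGroup V] [NormedSpace ℝ V] {f g : X → V} {S T : Set X}
    {w : V} (hf : ContinuousOn f S) (hg : ContinuousOn g S)
    (h : ∀ x ∈ S ∩ T, dist (f x) (g x) < dist (g x) w) {k : ℕ} {c : Chn R X (k + 1)}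
    (hc : c ∈ chn R S (k + 1)) (hb : bd R X k c ∈ chn R T k) :
    cmap R f (k + 1) c - cmap R g (k + 1) c ∈ Bl R {w} (k + 1) := by
  have h1 := htpy_Bl (R := R) (fun (s : ℝ) (x : X) => g x + s • (f x - g x)) (S := S) (T := T)
    (K' := {w}) ?_ ?_ hc hb
  · have e1 : (fun x => g x + (1 : ℝ) • (f x - g x)) = f := by
      funext x
      simp
    have e0 : (fun x => g x + (0 : ℝ) • (f x - g x)) = g := by
      funext x
      simp
    rwa [e1, e0] at h1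
  · have hf' : ContinuousOn (fun p : ℝ × X => f p.2) (Icc 0 1 ×ˢ S) :=
      hf.comp continuousOn_snd fun p hp => hp.2
    have hg' : ContinuousOn (fun p : ℝ × X => g p.2) (Icc 0 1 ×ˢ S) :=
      hg.comp continuousOn_snd fun p hp => hp.2
    exact hg'.add (continuousOn_fst.smul (hf'.sub hg'))
  · intro s hs x hx e
    have e' : g x + s • (f x - g x) = w := e
    have h2 := h x hx
    rw [← e', dist_self_add_right, norm_smul, Real.norm_of_nonneg hs.1, dist_eq_norm] at h2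
    nlinarith [hs.2, norm_nonneg (f x - g x)]

/-- The class at the two end points of a segment that the boundary avoids. -/
theorem seg_Bl {V : Type} [NormedAddCommGroup V] [NormedSpace ℝ V] {w : V} {k : ℕ}
    {c : Chn R V (k + 1)} (hc : c ∈ Zl R (segment ℝ 0 w) k) (h : c ∈ Bl R {w} (k + 1)) :
    c ∈ Bl R {0} (k + 1) := by
  have h1 := htpy_Bl (R := R) (fun (s : ℝ) (v : V) => v - s • w) (S := univ)
    (T := (segment ℝ 0 w)ᶜ) (K' := {0}) (Continuous.continuousOn (by fun_prop)) ?_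
    (mem_univ_chn c) hc
  · have e0 : (fun v : V => v - (0 : ℝ) • w) = id := by
      funext v
      simp
    rw [e0, cmap_id] at h1
    refine Bl_congr (cmap_Bl' (K := {w}) (by fun_prop) (fun y hy => ?_) h) h1
    have : y - (1 : ℝ) • w = 0 := hy
    rw [one_smul, sub_eq_zero] at this
    exact this
  · intro s hs v hv e
    have e' : v - s • w = 0 := e
    refine hv.2 ⟨1 - s, s, sub_nonneg.2 hs.2, hs.1, by ring, ?_⟩
    rw [smul_zero, zero_add, sub_eq_zero.1 e']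

section gen

variable {x : X} {k : ℕ} {g g' c : Chn R X (k + 1)}

theorem Gen.congr (h : Gen x k g) (h' : g - g' ∈ Bl R {x} (k + 1)) : Gen x k g' := by
  refine ⟨Zl_congr h.1 h', fun c hc => ?_⟩
  obtain ⟨j, hj⟩ := h.2 c hc
  refine ⟨j, Bl_trans hj ?_⟩
  rw [← smul_sub]
  exact Submodule.smul_mem _ j h'

theorem Gen.neg (h : Gen x k g) : Gen x k (-g) := by
  refine ⟨Submodule.neg_mem _ h.1, fun c hc => ?_⟩
  obtain ⟨j, hj⟩ := h.2 c hc
  exact ⟨-j, by rwa [neg_smul_neg]⟩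

/-- A relative cycle of which a generator is a multiple is a generator. -/
theorem Gen.of_mul (h : Gen x k g) (hc : g' ∈ Zl R {x} k) {j : R}
    (h' : g - j • g' ∈ Bl R {x} (k + 1)) : Gen x k g' := by
  refine ⟨hc, fun c hc => ?_⟩
  obtain ⟨i, hi⟩ := h.2 c hc
  refine ⟨i * j, Bl_trans hi ?_⟩
  rw [mul_smul, ← smul_sub]
  exact Submodule.smul_mem _ i h'

theorem Fre.congr {n : ℕ} {g g' : Chn R X n} (h : Fre x n g) (h' : g - g' ∈ Bl R {x} n) :
    Fre x n g' := by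
  intro j hj
  refine h j (Bl_congr hj ?_)
  rw [← smul_sub]
  exact Submodule.smul_mem _ j (Bl_symm h')

theorem Fre.neg {n : ℕ} {g : Chn R X n} (h : Fre x n g) : Fre x n (-g) := by
  intro j hj
  refine h j ?_
  have := Submodule.neg_mem _ hj
  rwa [smul_neg, neg_neg] at this

theorem Gen.fre (h : Gen x k g) (h' : Gen x k g') (hf : Fre x (k + 1) g) : Fre x (k + 1) g' := by
  obtain ⟨i, hi⟩ := h.2 g' h'.1
  obtain ⟨j, hj⟩ := h'.2 g h.1
  have e : j * i = 1 := by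
    have h1 : g - (j * i) • g ∈ Bl R {x} (k + 1) := by
      refine Bl_trans hj ?_
      rw [mul_smul, ← smul_sub]
      exact Submodule.smul_mem _ j hi
    have h2 := hf (1 - j * i) (by rwa [sub_smul, one_smul])
    exact (sub_eq_zero.1 h2).symm
  intro l hl
  have h1 : (l * i) • g ∈ Bl R {x} (k + 1) := by
    refine Bl_congr hl ?_
    rw [mul_smul, ← smul_sub]
    exact Submodule.smul_mem _ l hi
  have h2 := hf _ h1
  calc l = l * i * j := by rw [mul_assoc, mul_comm i, e, mul_one]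
    _ = 0 := by rw [h2, zero_mul]

end gen

section int

variable {x : X} {k : ℕ} {g g' c : Chn ℤ X (k + 1)}

theorem Gen.pm (h : Gen x k g) (h' : Gen x k g') (hf : Fre x (k + 1) g) :
    g' - g ∈ Bl ℤ {x} (k + 1) ∨ g' + g ∈ Bl ℤ {x} (k + 1) := by
  obtain ⟨i, hi⟩ := h.2 g' h'.1
  obtain ⟨j, hj⟩ := h'.2 g h.1
  have e : j * i = 1 := by
    have h1 : g - (j * i) • g ∈ Bl ℤ {x} (k + 1) := by
      refine Bl_trans hj ?_
      rw [mul_smul, ← smul_sub]
      exact Submodule.smul_mem _ j hi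
    have h2 := hf (1 - j * i) (by rwa [sub_smul, one_smul])
    exact (sub_eq_zero.1 h2).symm
  rcases Int.eq_one_or_neg_one_of_mul_eq_one' e with ⟨-, rfl⟩ | ⟨-, rfl⟩
  · exact Or.inl (by rwa [one_smul] at hi)
  · exact Or.inr (by rwa [neg_smul, one_smul, sub_neg_eq_add] at hi)

theorem Fre.not_both {n : ℕ} {g c : Chn ℤ X n} (hf : Fre x n g) (h : c - g ∈ Bl ℤ {x} n)
    (h' : c + g ∈ Bl ℤ {x} n) : False := by
  have h1 := Submodule.sub_mem _ h' h
  have e : c + g - (c - g) = (2 : ℤ) • g := by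
    rw [two_smul]
    abel
  rw [e] at h1
  exact absurd (hf 2 h1) (by norm_num)

end int

theorem Gen.eq_two {x : X} {k : ℕ} {g g' : Chn (ZMod 2) X (k + 1)} (h : Gen x k g)
    (h' : Gen x k g') : g - g' ∈ Bl (ZMod 2) {x} (k + 1) := by
  obtain ⟨i, hi⟩ := h.2 g' h'.1
  obtain ⟨j, hj⟩ := h'.2 g h.1
  have hj' : ∀ l : ZMod 2, l = 0 ∨ l = 1 := by decide
  rcases hj' j with rfl | rfl
  · rw [zero_smul, sub_zero] at hj
    refine Submodule.sub_mem _ hj (Bl_congr (Submodule.smul_mem _ i hj) (Bl_symm hi))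
  · rwa [one_smul] at hj

section chart

variable [T2Space X] [T2Space Y] (e : OpenPartialHomeomorph X Y)

theorem chart_mem {n : ℕ} {ξ : Chn R X n} (hξ : ξ ∈ chn R e.source n) :
    cmap R e n ξ ∈ chn R e.target n := cmap_mem e.continuousOn e.mapsTo hξ

theorem chart_inv {n : ℕ} {ξ : Chn R X n} (hξ : ξ ∈ chn R e.source n) :
    cmap R e.symm n (cmap R e n ξ) = ξ := by
  rw [cmap_comp e.continuousOn hξ,
    cmap_congr (f := e.symm ∘ e) (g := id) (fun x hx => e.left_inv hx) hξ, cmap_id]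

theorem chart_Zl {K : Set X} (hs : K ⊆ e.source) {k : ℕ} {ξ : Chn R X (k + 1)}
    (hξ : ξ ∈ chn R e.source (k + 1)) (h : ξ ∈ Zl R K k) :
    cmap R e (k + 1) ξ ∈ Zl R (e '' K) k := by
  refine cmap_Zl e.continuousOn (fun y hy h' => ?_) hξ h
  obtain ⟨y', hy', e'⟩ := h'
  rwa [← e.injOn (hs hy') hy e']

theorem chart_Bl {K : Set X} (hK : IsCompact K) (hs : K ⊆ e.source) {n : ℕ} {ξ : Chn R X n}
    (hξ : ξ ∈ chn R e.source n) : cmap R e n ξ ∈ Bl R (e '' K) n ↔ ξ ∈ Bl R K n := by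
  constructor
  · intro h
    have := cmap_Bl (K' := K) e.continuousOn_symm e.open_target
      (hK.image_of_continuousOn (e.continuousOn.mono hs)).isClosed
      (image_subset_iff.2 fun x hx => e.map_source (hs hx))
      (fun y hy h' => ⟨_, h', e.right_inv hy⟩) (chart_mem e hξ) h
    rwa [chart_inv e hξ] at this
  · refine cmap_Bl e.continuousOn e.open_source hK.isClosed hs (fun y hy h' => ?_) hξ
    obtain ⟨y', hy', e'⟩ := h'
    rwa [← e.injOn (hs hy') hy e']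

theorem chart_Bl_pt {a : X} (ha : a ∈ e.source) {n : ℕ} {ξ : Chn R X n}
    (hξ : ξ ∈ chn R e.source n) : cmap R e n ξ ∈ Bl R {e a} n ↔ ξ ∈ Bl R {a} n := by
  rw [← image_singleton]
  exact chart_Bl e isCompact_singleton (singleton_subset_iff.2 ha) hξ

theorem chart_gen {a : X} (ha : a ∈ e.source) {k : ℕ} {ξ : Chn R X (k + 1)}
    (hξ : ξ ∈ chn R e.source (k + 1)) (h : Gen a k ξ) : Gen (e a) k (cmap R e (k + 1) ξ) := by
  refine ⟨?_, fun c hc => ?_⟩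
  · rw [← image_singleton]
    exact chart_Zl e (singleton_subset_iff.2 ha) hξ h.1
  · obtain ⟨η, hη, hz, hb⟩ := exc isClosed_singleton e.open_target
      (singleton_subset_iff.2 (e.map_source ha)) hc
    have h1 := chart_Zl e.symm (K := {e a}) (singleton_subset_iff.2 (e.map_source ha)) hη hz
    rw [image_singleton, e.left_inv ha] at h1
    obtain ⟨j, hj⟩ := h.2 _ h1
    refine ⟨j, Bl_trans hb ?_⟩
    have h2 := (chart_Bl_pt e ha
      (Submodule.sub_mem _ (chart_mem e.symm hη) (Submodule.smul_mem _ j hξ))).2 hj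
    have h3 : cmap R e (k + 1) (cmap R e.symm (k + 1) η) = η := chart_inv e.symm hη
    rwa [map_sub, map_smul, h3] at h2

theorem chart_fre {a : X} (ha : a ∈ e.source) {n : ℕ} {ξ : Chn R X n}
    (hξ : ξ ∈ chn R e.source n) (h : Fre a n ξ) : Fre (e a) n (cmap R e n ξ) := by
  intro j hj
  rw [← map_smul] at hj
  exact h j ((chart_Bl_pt e ha (Submodule.smul_mem _ j hξ)).1 hj)

end chart

theorem relCyc_iff {A K : Set X} {k : ℕ} {c : Chn ℤ X (k + 1)} :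
    RelCyc A K k c ↔ c ∈ chn ℤ A (k + 1) ∧ c ∈ Zl ℤ K k :=
  ⟨fun h => ⟨h.1, chn_mono (fun _ hx => hx.2) k h.2⟩,
    fun h => ⟨h.1, mem_inter_chn (bd_mem h.1) h.2⟩⟩

theorem relEq_iff [T1Space X] {A : Set X} (hA : IsOpen A) {x : X} (hx : x ∈ A) {n : ℕ}
    {c c' : Chn ℤ X n} (hc : c ∈ chn ℤ A n) (hc' : c' ∈ chn ℤ A n) :
    RelEq A {x} n c c' ↔ c - c' ∈ Bl ℤ {x} n :=
  ⟨fun h => (sup_le_sup (bdy_mono (subset_univ A) n) (chn_mono (fun _ hy => hy.2) n) :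
      bdy ℤ A n ⊔ chn ℤ (A \ {x}) n ≤ bdy ℤ univ n ⊔ chn ℤ {x}ᶜ n) h,
    fun h => exc_inj isClosed_singleton hA (singleton_subset_iff.2 hx)
      (Submodule.sub_mem _ hc hc') h⟩

theorem Fam.ev [T2Space X] {k : ℕ} {B : Set Y} {π : Y → X} {p : Y → Chn R X (k + 1)}
    (h : Fam k B π p) (hπ : Continuous π) {a : Y} (ha : a ∈ B) {c : Chn R X (k + 1)} {j : R}
    (hc : c - j • p a ∈ Bl R {π a} (k + 1)) :
    ∀ᶠ b in 𝓝 a, b ∈ B ∧ c - j • p b ∈ Bl R {π b} (k + 1) := by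
  obtain ⟨ζ, hζ⟩ := h.loc a ha
  have h1 : c - j • ζ ∈ Bl R {π a} (k + 1) := by
    refine Bl_trans hc ?_
    rw [← smul_sub]
    exact Submodule.smul_mem _ j (Bl_symm hζ.self_of_nhds.2)
  filter_upwards [hζ, hπ.continuousAt.eventually (Bl_ev h1)] with b hb hb'
  refine ⟨hb.1, Bl_trans hb' ?_⟩
  rw [← smul_sub]
  exact Submodule.smul_mem _ j hb.2

end RC.Ho
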