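import Pool.Agent.P.MP_6472e5_gt.HoA
import Pool.Agent.P.MP_6472e5_gt.HoB

/-! Barycentric subdivision, small chains, excision, Mayer-Vietoris. -/

set_option autoImplicit false
set_option linter.unusedSectionVars false

noncomputable section

namespace RC.Ho

open Set Filter Topology

variable {R : Type} [CommRing R] {X Y Z : Type} [TopologicalSpace X] [TopologicalSpace Y]
  [TopologicalSpace Z]

section

open SdAux

/-- Realisation of formal chains in the standard simplex as singular chains along `σ`. -/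
def sdReal (R : Type) [CommRing R] {n : ℕ} (σ : Simp X n) (k : ℕ) : AC R (Dl n) k →ₗ[R] Chn R X k :=
  Finsupp.lmapDomain R R fun v : Fin (k + 1) → Dl n => σ.comp (aff v)

/-- The ordered family of vertices of the standard simplex. -/
def sdVert (n : ℕ) : Fin (n + 1) → Dl n := fun i => stdSimplex.vertex i

theorem sd_real_single {n : ℕ} (σ : Simp X n) (k : ℕ) (v : Fin (k + 1) → Dl n) :
    sdReal R σ k (Finsupp.single v 1) = Finsupp.single (σ.comp (aff v)) 1 := by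
  simp [sdReal]

theorem sd_bd_single (n : ℕ) (σ : Simp X (n + 1)) :
    bd R X n (Finsupp.single σ 1) =
      ∑ i : Fin (n + 2), (-1 : R) ^ (i : ℕ) • Finsupp.single (sub σ i.succAbove) (1 : R) := by
  simp [bd]

/-- Linear maps on singular chains agree once they agree on simplices. -/
theorem sd_ext {k : ℕ} {W : Type} [AddCommGroup W] [Module R W] {f g : Chn R X k →ₗ[R] W}
    (h : ∀ σ, f (Finsupp.single σ 1) = g (Finsupp.single σ 1)) (c : Chn R X k) : f c = g c := by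
  have : f = g := Finsupp.lhom_ext' fun v => LinearMap.ext_ring (h v)
  rw [this]

theorem sd_bd_real {n : ℕ} (σ : Simp X n) (k : ℕ) (c : AC R (Dl n) (k + 1)) :
    bd R X k (sdReal R σ (k + 1) c) = sdReal R σ k (abd R (Dl n) k c) := by
  refine aff_ext (f := bd R X k ∘ₗ sdReal R σ (k + 1)) (g := sdReal R σ k ∘ₗ abd R (Dl n) k)
    (fun v => ?_) c
  rw [LinearMap.comp_apply, LinearMap.comp_apply, sd_real_single, sd_bd_single,
    aff_abd_single, map_sum]
  refine Finset.sum_congr rfl fun i _ => ?_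
  rw [map_smul, sd_real_single, ← aff_face]
  rfl

theorem sd_real_vert {n : ℕ} (σ : Simp X n) :
    sdReal R σ n (Finsupp.single (sdVert n) 1) = Finsupp.single σ 1 := by
  rw [sd_real_single]
  have : aff (sdVert n) = ContinuousMap.id _ := aff_id n
  rw [this, ContinuousMap.comp_id]

theorem sd_real_comp {n k : ℕ} (σ : Simp X n) (w : Fin (k + 1) → Dl n) (j : ℕ)
    (c : AC R (Dl k) j) :
    sdReal R (σ.comp (aff w)) j c = sdReal R σ j (amap R j (aff w) c) := by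
  refine aff_ext (f := sdReal R (σ.comp (aff w)) j) (g := sdReal R σ j ∘ₗ amap R j (aff w))
    (fun v => ?_) c
  rw [LinearMap.comp_apply, sd_real_single, aff_amap_single, sd_real_single,
    ContinuousMap.comp_assoc, aff_comp]

theorem sd_aff_bary {n k : ℕ} (w : Fin (k + 1) → Dl n) (j : ℕ) (v : Fin (j + 1) → Dl k) :
    aff w (bary k j v) = bary n j (aff w ∘ v) := by
  rw [bary, bary, ← aff_comp]
  rfl

theorem sd_aff_vert {n k : ℕ} (w : Fin (k + 1) → Dl n) : aff w ∘ sdVert k = w := by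
  funext i
  exact aff_vertex w i

variable (R X)

/-- Barycentric subdivision of singular chains. -/
def sdSd (n : ℕ) : Chn R X n →ₗ[R] Chn R X n :=
  Finsupp.linearCombination R fun σ : Simp X n =>
    sdReal R σ n (asd R (bary n) n (Finsupp.single (sdVert n) 1))

/-- The homotopy between the identity and the subdivision. -/
def sdT (n : ℕ) : Chn R X n →ₗ[R] Chn R X (n + 1) :=
  Finsupp.linearCombination R fun σ : Simp X n =>
    sdReal R σ (n + 1) (aht R (bary n) n (Finsupp.single (sdVert n) 1))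

variable {R X}

theorem sd_Sd_single {n : ℕ} (σ : Simp X n) :
    sdSd R X n (Finsupp.single σ 1) =
      sdReal R σ n (asd R (bary n) n (Finsupp.single (sdVert n) 1)) := by
  simp [sdSd]

theorem sd_T_single {n : ℕ} (σ : Simp X n) :
    sdT R X n (Finsupp.single σ 1) =
      sdReal R σ (n + 1) (aht R (bary n) n (Finsupp.single (sdVert n) 1)) := by
  simp [sdT]

theorem sd_Sd_real {n : ℕ} (σ : Simp X n) (k : ℕ) (c : AC R (Dl n) k) :
    sdSd R X k (sdReal R σ k c) = sdReal R σ k (asd R (bary n) k c) := by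
  refine aff_ext (f := sdSd R X k ∘ₗ sdReal R σ k) (g := sdReal R σ k ∘ₗ asd R (bary n) k)
    (fun v => ?_) c
  rw [LinearMap.comp_apply, LinearMap.comp_apply, sd_real_single, sd_Sd_single,
    sd_real_comp, amap_asd (sd_aff_bary v), aff_amap_single, sd_aff_vert]

theorem sd_T_real {n : ℕ} (σ : Simp X n) (k : ℕ) (c : AC R (Dl n) k) :
    sdT R X k (sdReal R σ k c) = sdReal R σ (k + 1) (aht R (bary n) k c) := by
  refine aff_ext (f := sdT R X k ∘ₗ sdReal R σ k) (g := sdReal R σ (k + 1) ∘ₗ aht R (bary n) k)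
    (fun v => ?_) c
  rw [LinearMap.comp_apply, LinearMap.comp_apply, sd_real_single, sd_T_single,
    sd_real_comp, amap_aht (sd_aff_bary v), aff_amap_single, sd_aff_vert]

theorem sd_Sd_pow_real {n : ℕ} (σ : Simp X n) (k m : ℕ) (c : AC R (Dl n) k) :
    (sdSd R X k ^ m) (sdReal R σ k c) = sdReal R σ k ((asd R (bary n) k ^ m) c) := by
  induction m with
  | zero => simp
  | succ m ih =>
    rw [pow_succ', pow_succ', Module.End.mul_apply, Module.End.mul_apply, ih, sd_Sd_real]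

theorem sd_map_mem {W : Type} [AddCommGroup W] [Module R W] {ι : Type} (f : (ι →₀ R) →ₗ[R] W)
    (K : Submodule R W) (c : ι →₀ R) (h : ∀ v ∈ c.support, f (Finsupp.single v 1) ∈ K) :
    f c ∈ K := by
  rw [← Finsupp.sum_single c, Finsupp.sum, map_sum]
  refine K.sum_mem fun v hv => ?_
  rw [← mul_one (c v), ← smul_eq_mul, ← Finsupp.smul_single, map_smul]
  exact K.smul_mem _ (h v hv)

theorem sd_real_sml {P : ∀ n, Simp X n → Prop}
    (hP : ∀ n k (σ : Simp X n) (v : C(Dl k, Dl n)), P n σ → P k (σ.comp v)) {n : ℕ}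
    {σ : Simp X n} (h : P n σ) (k : ℕ) (c : AC R (Dl n) k) : sdReal R σ k c ∈ sml R P k := by
  refine sd_map_mem _ _ c fun v _ => ?_
  rw [sd_real_single]
  exact Finsupp.single_mem_supported R 1 (hP n k σ _ h)

/-- Subdivision and its homotopy respect every class of simplices that is closed under
reparametrisation, and iterated subdivision makes a simplex small. -/
theorem exists_sd (R : Type) [CommRing R] (X : Type) [TopologicalSpace X] :
    ∃ (Sd : ∀ n, Chn R X n →ₗ[R] Chn R X n) (T : ∀ n, Chn R X n →ₗ[R] Chn R X (n + 1)),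
    (∀ n c, bd R X n (Sd (n + 1) c) = Sd n (bd R X n c)) ∧
    (∀ c, bd R X 0 (T 0 c) = c - Sd 0 c) ∧
    (∀ n c, bd R X (n + 1) (T (n + 1) c) + T n (bd R X n c) = c - Sd (n + 1) c) ∧
    (∀ P : ∀ n, Simp X n → Prop,
      (∀ n k (σ : Simp X n) (v : C(Dl k, Dl n)), P n σ → P k (σ.comp v)) →
      ∀ n, ∀ c ∈ sml R P n, Sd n c ∈ sml R P n ∧ T n c ∈ sml R P (n + 1)) ∧
    ∀ (P : ∀ n, Simp X n → Prop) (S : Set X), Small P S → ∀ n (σ : Simp X n), range σ ⊆ S →
      ∃ m : ℕ, (Sd n ^ m) (Finsupp.single σ 1) ∈ sml R P n := by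
  refine ⟨sdSd R X, sdT R X, fun n c => ?_, fun c => ?_, fun n c => ?_, fun P hP n c hc => ?_,
    fun P S hS n σ hσ => ?_⟩
  · refine sd_ext (f := bd R X n ∘ₗ sdSd R X (n + 1)) (g := sdSd R X n ∘ₗ bd R X n)
      (fun σ => ?_) c
    rw [LinearMap.comp_apply, LinearMap.comp_apply, ← sd_real_vert, sd_Sd_real,
      sd_bd_real, sd_bd_real, sd_Sd_real, abd_asd]
  · refine sd_ext (f := bd R X 0 ∘ₗ sdT R X 0) (g := LinearMap.id - sdSd R X 0)
      (fun σ => ?_) c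
    rw [LinearMap.comp_apply, LinearMap.sub_apply, LinearMap.id_apply, ← sd_real_vert,
      sd_T_real, sd_Sd_real]
    simp [aht, asd]
  · refine sd_ext (f := bd R X (n + 1) ∘ₗ sdT R X (n + 1) + sdT R X n ∘ₗ bd R X n)
      (g := LinearMap.id - sdSd R X (n + 1)) (fun σ => ?_) c
    rw [LinearMap.add_apply, LinearMap.comp_apply, LinearMap.comp_apply, LinearMap.sub_apply,
      LinearMap.id_apply, ← sd_real_vert, sd_T_real, sd_Sd_real, sd_bd_real,
      sd_bd_real, sd_T_real, ← map_add, abd_aht, map_sub]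
  · constructor
    · refine sd_map_mem _ _ c fun σ hσ => ?_
      rw [sd_Sd_single]
      exact sd_real_sml hP (hc hσ) _ _
    · refine sd_map_mem _ _ c fun σ hσ => ?_
      rw [sd_T_single]
      exact sd_real_sml hP (hc hσ) _ _
  · choose U hU hUP using fun t : Dl n => hS.loc (σ t) (hσ ⟨t, rfl⟩)
    obtain ⟨δ, hδ, hL⟩ := lebesgue_number_lemma_of_metric (s := (univ : Set (Dl n)))
      (c := fun t : Dl n => interior (σ ⁻¹' U t)) isCompact_univ (fun _ => isOpen_interior)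
      (fun t _ => mem_iUnion.2 ⟨t, mem_interior_iff_mem_nhds.2
        (tendsto_nhdsWithin_iff.2 ⟨σ.continuous.tendsto t,
          Eventually.of_forall fun s => hσ ⟨s, rfl⟩⟩ (hU t))⟩)
    obtain ⟨m, hm⟩ := exists_small R n (half_pos hδ)
    refine ⟨m, ?_⟩
    rw [← sd_real_vert, sd_Sd_pow_real]
    refine sd_map_mem _ _ _ fun w hw => ?_
    rw [sd_real_single]
    obtain ⟨b, hb⟩ := hL (w 0) (mem_univ _)
    refine Finsupp.single_mem_supported R 1 (hUP b n _ ?_)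
    rintro _ ⟨t, rfl⟩
    exact interior_subset (s := σ ⁻¹' U b) (hb (Metric.mem_ball.2 (lt_of_le_of_lt
      (dist_aff_le w (fun i => hm w hw i 0) t) (half_lt_self hδ))))

end

theorem Sm_map_mem {M : Type} [AddCommGroup M] [Module R M] {n : ℕ} {Q : Set (Simp X n)}
    (L : Chn R X n →ₗ[R] M) (N : Submodule R M)
    (h : ∀ σ ∈ Q, L (Finsupp.single σ 1) ∈ N) {c : Chn R X n}
    (hc : c ∈ Finsupp.supported R R Q) : L c ∈ N := by
  rw [Finsupp.supported_eq_span_single] at hc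
  have : Submodule.span R ((fun i => Finsupp.single i (1 : R)) '' Q) ≤ N.comap L := by
    rw [Submodule.span_le]
    rintro _ ⟨σ, hσ, rfl⟩
    exact h σ hσ
  exact this hc

theorem Sm_single {P : ∀ n, Simp X n → Prop} {n : ℕ} {σ : Simp X n} (h : P n σ) (r : R) :
    Finsupp.single σ r ∈ sml R P n := Finsupp.single_mem_supported R r h

theorem Sm_bd {P : ∀ n, Simp X n → Prop}
    (hP : ∀ n k (σ : Simp X n) (v : C(Dl k, Dl n)), P n σ → P k (σ.comp v)) {n : ℕ}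
    {c : Chn R X (n + 1)} (hc : c ∈ sml R P (n + 1)) : bd R X n c ∈ sml R P n := by
  refine Sm_map_mem (bd R X n) _ (fun σ hσ => ?_) hc
  rw [bd_single]
  exact Submodule.sum_mem _ fun i _ => Submodule.smul_mem _ _ (Sm_single (hP _ _ σ _ hσ) 1)

theorem Sm_pow {M : Type} [AddCommGroup M] [Module R M] {L : M →ₗ[R] M} {N : Submodule R M}
    (h : ∀ c ∈ N, L c ∈ N) (i : ℕ) {c : M} (hc : c ∈ N) : (L ^ i) c ∈ N := by
  induction i with
  | zero => exact hc
  | succ i ih =>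
    rw [pow_succ', Module.End.mul_apply]
    exact h _ ih

theorem Sm_pow_le {M : Type} [AddCommGroup M] [Module R M] {L : M →ₗ[R] M} {N : Submodule R M}
    (h : ∀ c ∈ N, L c ∈ N) {i j : ℕ} (hij : i ≤ j) {c : M} (hc : (L ^ i) c ∈ N) :
    (L ^ j) c ∈ N := by
  obtain ⟨k, rfl⟩ := Nat.exists_eq_add_of_le' hij
  rw [pow_add, Module.End.mul_apply]
  exact Sm_pow h k hc

/-- Number of subdivisions, monotone with respect to faces. -/
def SmNum (m0 : ∀ n, Simp X n → ℕ) : ∀ n, Simp X n → ℕ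
  | 0, σ => m0 0 σ
  | n + 1, σ => max (m0 (n + 1) σ)
      (Finset.univ.sup fun i : Fin (n + 2) => SmNum m0 n (sub σ i.succAbove))

theorem SmNum_ge (m0 : ∀ n, Simp X n → ℕ) : ∀ n (σ : Simp X n), m0 n σ ≤ SmNum m0 n σ
  | 0, _ => le_rfl
  | _ + 1, _ => le_max_left _ _

theorem SmNum_face (m0 : ∀ n, Simp X n → ℕ) (n : ℕ) (σ : Simp X (n + 1)) (i : Fin (n + 2)) :
    SmNum m0 n (sub σ i.succAbove) ≤ SmNum m0 (n + 1) σ :=
  (Finset.le_sup (f := fun i : Fin (n + 2) => SmNum m0 n (sub σ i.succAbove))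
    (Finset.mem_univ i)).trans (le_max_right _ _)

theorem SmNum_zero {m0 : ∀ n, Simp X n → ℕ} {P : ∀ n, Simp X n → Prop}
    (hP : ∀ n k (σ : Simp X n) (v : C(Dl k, Dl n)), P n σ → P k (σ.comp v))
    (h0 : ∀ n σ, P n σ → m0 n σ = 0) : ∀ n (σ : Simp X n), P n σ → SmNum m0 n σ = 0
  | 0, σ, h => h0 0 σ h
  | n + 1, σ, h => by
    refine Nat.max_eq_zero_iff.2 ⟨h0 _ σ h, Nat.le_zero.1 (Finset.sup_le fun i _ => ?_)⟩
    exact (SmNum_zero hP h0 n _ (hP _ _ σ _ h)).le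

/-- The retraction defined by a homotopy. -/
def SmRho (D : ∀ n, Chn R X n →ₗ[R] Chn R X (n + 1)) : ∀ n, Chn R X n →ₗ[R] Chn R X n
  | 0 => LinearMap.id - bd R X 0 ∘ₗ D 0
  | n + 1 => LinearMap.id - bd R X (n + 1) ∘ₗ D (n + 1) - D n ∘ₗ bd R X n

theorem SmRho_zero (D : ∀ n, Chn R X n →ₗ[R] Chn R X (n + 1)) (c : Chn R X 0) :
    SmRho D 0 c = c - bd R X 0 (D 0 c) := rfl

theorem SmRho_succ (D : ∀ n, Chn R X n →ₗ[R] Chn R X (n + 1)) (n : ℕ) (c : Chn R X (n + 1)) :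
    SmRho D (n + 1) c = c - bd R X (n + 1) (D (n + 1) c) - D n (bd R X n c) := rfl

theorem Sm_comp_range (T : Set X) (n k : ℕ) (σ : Simp X n) (v : C(Dl k, Dl n))
    (h : range σ ⊆ T) : range (σ.comp v) ⊆ T := by
  rintro _ ⟨t, rfl⟩
  exact h ⟨v t, rfl⟩

theorem Small.exists_retr {P : ∀ n, Simp X n → Prop} {S : Set X} (h : Small P S) :
    ∃ (ρ : ∀ n, Chn R X n →ₗ[R] Chn R X n) (D : ∀ n, Chn R X n →ₗ[R] Chn R X (n + 1)),
    (∀ n c, bd R X n (ρ (n + 1) c) = ρ n (bd R X n c)) ∧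
    (∀ c, bd R X 0 (D 0 c) = c - ρ 0 c) ∧
    (∀ n c, bd R X (n + 1) (D (n + 1) c) + D n (bd R X n c) = c - ρ (n + 1) c) ∧
    (∀ n, ∀ c ∈ chn R S n, ρ n c ∈ sml R P n) ∧
    (∀ n, ∀ c ∈ sml R P n, D n c = 0 ∧ ρ n c = c) ∧
    ∀ (T : Set X) n, ∀ c ∈ chn R T n, ρ n c ∈ chn R T n ∧ D n c ∈ chn R T (n + 1) := by
  classical
  obtain ⟨Sd, T, h1, h2, h3, h4, h5⟩ := exists_sd R X
  have p1 : ∀ n i c, bd R X n ((Sd (n + 1) ^ i) c) = (Sd n ^ i) (bd R X n c) := by
    intro n i c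
    induction i with
    | zero => rfl
    | succ i ih => rw [pow_succ', pow_succ', Module.End.mul_apply, Module.End.mul_apply, h1, ih]
  let Dm : ∀ n, ℕ → Chn R X n →ₗ[R] Chn R X (n + 1) := fun n m =>
    ∑ i ∈ Finset.range m, T n ∘ₗ (Sd n ^ i)
  have q0 : ∀ n m c, Dm n m c = ∑ i ∈ Finset.range m, T n ((Sd n ^ i) c) := fun n m c => by
    simp only [Dm, LinearMap.sum_apply, LinearMap.comp_apply]
  have q1 : ∀ m c, bd R X 0 (Dm 0 m c) = c - (Sd 0 ^ m) c := by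
    intro m c
    rw [q0]
    induction m with
    | zero => simp
    | succ m ih =>
      rw [Finset.sum_range_succ, map_add, ih, h2, pow_succ', Module.End.mul_apply]
      abel
  have q2 : ∀ n m c, bd R X (n + 1) (Dm (n + 1) m c) + Dm n m (bd R X n c) =
      c - (Sd (n + 1) ^ m) c := by
    intro n m c
    rw [q0, q0]
    induction m with
    | zero => simp
    | succ m ih =>
      have := h3 n ((Sd (n + 1) ^ m) c)
      rw [Finset.sum_range_succ, Finset.sum_range_succ, map_add, add_add_add_comm, ih, ← p1, this,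
        pow_succ', Module.End.mul_apply]
      abel
  let m0 : ∀ n, Simp X n → ℕ := fun n σ =>
    if h : ∃ m : ℕ, (Sd n ^ m) (Finsupp.single σ 1) ∈ sml R P n then Nat.find h else 0
  have r1 : ∀ n (σ : Simp X n), range σ ⊆ S → ∀ j, SmNum m0 n σ ≤ j →
      (Sd n ^ j) (Finsupp.single σ 1) ∈ sml R P n := by
    intro n σ hσ j hj
    have hex := h5 P S h n σ hσ
    refine Sm_pow_le (fun c hc => (h4 P h.comp n c hc).1) ((SmNum_ge m0 n σ).trans hj) ?_
    simp only [m0, dif_pos hex]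
    exact Nat.find_spec hex
  have r2 : ∀ n σ, P n σ → m0 n σ = 0 := by
    intro n σ hσ
    have hex : ∃ m : ℕ, (Sd n ^ m) (Finsupp.single σ 1) ∈ sml R P n := ⟨0, Sm_single hσ 1⟩
    simp only [m0, dif_pos hex]
    exact (Nat.find_eq_zero hex).2 (Sm_single hσ 1)
  let D : ∀ n, Chn R X n →ₗ[R] Chn R X (n + 1) := fun n =>
    Finsupp.linearCombination R fun σ => Dm n (SmNum m0 n σ) (Finsupp.single σ 1)
  have d0 : ∀ n σ, D n (Finsupp.single σ 1) = Dm n (SmNum m0 n σ) (Finsupp.single σ 1) := by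
    intro n σ
    simp only [D, Finsupp.linearCombination_single, one_smul]
  have d1 : ∀ n, ∀ c ∈ sml R P n, D n c = 0 := by
    intro n c hc
    refine (Submodule.mem_bot R).1 (Sm_map_mem (D n) ⊥ (fun σ hσ => ?_) hc)
    rw [d0, SmNum_zero h.comp r2 n σ hσ, q0, Finset.sum_range_zero]
    exact Submodule.zero_mem _
  have d2 : ∀ (U : Set X) n, ∀ c ∈ chn R U n, D n c ∈ chn R U (n + 1) := by
    intro U n c hc
    refine Sm_map_mem (D n) _ (fun σ hσ => ?_) hc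
    rw [d0, q0]
    have hU := h4 (fun _ σ => range σ ⊆ U) (Sm_comp_range U) n
    exact Submodule.sum_mem _ fun i _ =>
      (hU _ (Sm_pow (fun c hc => (hU c hc).1) i (single_mem hσ 1))).2
  refine ⟨SmRho D, D, fun n c => ?_, fun c => ?_, fun n c => ?_, fun n c hc => ?_,
    fun n c hc => ⟨d1 n c hc, ?_⟩, fun U n c hc => ⟨?_, d2 U n c hc⟩⟩
  · cases n with
    | zero => rw [SmRho_succ, SmRho_zero, map_sub, map_sub, bd_bd, sub_zero]
    | succ n =>
      rw [SmRho_succ, SmRho_succ, map_sub, map_sub, bd_bd, bd_bd, map_zero, sub_zero, sub_zero]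
  · rw [SmRho_zero, sub_sub_cancel]
  · rw [SmRho_succ]
    abel
  · refine Sm_map_mem (SmRho D n) _ (fun σ hσ => ?_) hc
    cases n with
    | zero =>
      rw [SmRho_zero, d0, q1, sub_sub_cancel]
      exact r1 0 σ hσ _ le_rfl
    | succ n =>
      have e : SmRho D (n + 1) (Finsupp.single σ 1) =
          (Sd (n + 1) ^ SmNum m0 (n + 1) σ) (Finsupp.single σ 1) +
          (Dm n (SmNum m0 (n + 1) σ) (bd R X n (Finsupp.single σ 1)) -
            D n (bd R X n (Finsupp.single σ 1))) := by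
        rw [SmRho_succ, d0, eq_sub_of_add_eq (q2 n _ _)]
        abel
      rw [e, bd_single, map_sum, map_sum, ← Finset.sum_sub_distrib]
      refine Submodule.add_mem _ (r1 _ σ hσ _ le_rfl) (Submodule.sum_mem _ fun i _ => ?_)
      rw [map_smul, map_smul, ← smul_sub, d0, q0, q0,
        ← Finset.sum_Ico_eq_sub _ (SmNum_face m0 n σ i)]
      refine Submodule.smul_mem _ _ (Submodule.sum_mem _ fun j hj => ?_)
      exact (h4 P h.comp n _ (r1 n _ ((range_sub σ _).trans hσ) j (Finset.mem_Ico.1 hj).1)).2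
  · cases n with
    | zero => rw [SmRho_zero, d1 0 c hc, map_zero, sub_zero]
    | succ n =>
      rw [SmRho_succ, d1 _ c hc, d1 n _ (Sm_bd h.comp hc), map_zero, sub_zero, sub_zero]
  · cases n with
    | zero => exact Submodule.sub_mem _ hc (bd_mem (d2 U 0 c hc))
    | succ n =>
      exact Submodule.sub_mem _ (Submodule.sub_mem _ hc (bd_mem (d2 U _ c hc)))
        (d2 U n _ (bd_mem hc))

/-- Two open sets. -/
theorem small_two {O U V : Set X} (hU : IsOpen U) (hV : IsOpen V) (h : O ⊆ U ∪ V) :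
    Small (fun _ σ => range σ ⊆ U ∨ range σ ⊆ V) O := by
  refine ⟨fun n k σ v hσ => hσ.imp (Sm_comp_range U n k σ v) (Sm_comp_range V n k σ v),
    fun x hx => ?_⟩
  rcases h hx with hx' | hx'
  · exact ⟨U, mem_nhdsWithin_of_mem_nhds (hU.mem_nhds hx'), fun n σ hσ => Or.inl hσ⟩
  · exact ⟨V, mem_nhdsWithin_of_mem_nhds (hV.mem_nhds hx'), fun n σ hσ => Or.inr hσ⟩

theorem sml_two (U V : Set X) (n : ℕ) :
    sml R (fun _ σ => range σ ⊆ U ∨ range σ ⊆ V) n = chn R U n ⊔ chn R V n := by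
  unfold sml chn
  rw [← Finsupp.supported_union]
  rfl

/-- Excision: a chain with boundary away from the closed set `K` can be pushed into any open
neighbourhood of `K`. -/
theorem exc_surj {K V : Set X} (hK : IsClosed K) (hV : IsOpen V) (h : K ⊆ V) {n : ℕ}
    {ζ : Chn R X (n + 1)} (hζ : bd R X n ζ ∈ chn R Kᶜ n) :
    ∃ ξ ∈ chn R V (n + 1), bd R X n ξ ∈ chn R Kᶜ n ∧
      ζ - ξ ∈ bdy R univ (n + 1) ⊔ chn R Kᶜ (n + 1) := by
  have hs : Small (fun _ σ => range σ ⊆ V ∨ range σ ⊆ Kᶜ) (univ : Set X) :=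
    small_two hV hK.isOpen_compl fun x _ => (em (x ∈ K)).imp (fun hx => h hx) id
  obtain ⟨ρ, D, h1, -, h3, h4, h5, -⟩ := hs.exists_retr (R := R)
  have u : ∀ {k : ℕ} (c : Chn R X k), c ∈ chn R univ k := fun c => by
    rw [chn_univ]
    exact Submodule.mem_top
  have m1 := h4 _ ζ (u ζ)
  rw [sml_two] at m1
  obtain ⟨ξ, hξ, η, hη, e⟩ := Submodule.mem_sup.1 m1
  have m2 := h5 n (bd R X n ζ) (by
    rw [sml_two]
    exact Submodule.mem_sup_right hζ)
  refine ⟨ξ, hξ, ?_, ?_⟩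
  · have : bd R X n ξ = bd R X n ζ - bd R X n η := by
      rw [← m2.2, ← h1, ← e, map_add, add_sub_cancel_right]
    rw [this]
    exact Submodule.sub_mem _ hζ (bd_mem hη)
  · have e2 := h3 n ζ
    rw [m2.1, add_zero, ← e] at e2
    have : ζ - ξ = bd R X (n + 1) (D (n + 1) ζ) + η := by
      rw [e2]
      abel
    rw [this]
    exact Submodule.add_mem_sup ⟨_, u _, rfl⟩ hη

theorem exc_inj {K V : Set X} (hK : IsClosed K) (hV : IsOpen V) (h : K ⊆ V) {n : ℕ}
    {ξ : Chn R X n} (hξ : ξ ∈ chn R V n) (h0 : ξ ∈ bdy R univ n ⊔ chn R Kᶜ n) :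
    ξ ∈ bdy R V n ⊔ chn R (V ∩ Kᶜ) n := by
  have hs : Small (fun _ σ => range σ ⊆ V ∨ range σ ⊆ Kᶜ) (univ : Set X) :=
    small_two hV hK.isOpen_compl fun x _ => (em (x ∈ K)).imp (fun hx => h hx) id
  obtain ⟨ρ, D, h1, -, -, h4, h5, -⟩ := hs.exists_retr (R := R)
  obtain ⟨_, ⟨ζ, hζ, rfl⟩, η, hη, e⟩ := Submodule.mem_sup.1 h0
  have m1 := h4 _ ζ hζ
  rw [sml_two] at m1
  obtain ⟨a, ha, b, hb, e1⟩ := Submodule.mem_sup.1 m1
  have m2 := h5 n (bd R X n ζ) (by
    rw [sml_two, eq_sub_of_add_eq e]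
    exact Submodule.sub_mem _ (Submodule.mem_sup_left hξ) (Submodule.mem_sup_right hη))
  have e2 : ξ - bd R X n a = bd R X n b + η := by
    rw [← e, ← m2.2, ← h1, ← e1, map_add]
    abel
  have m3 : ξ - bd R X n a ∈ chn R (V ∩ Kᶜ) n := by
    rw [chn_inter]
    refine ⟨Submodule.sub_mem _ hξ (bd_mem ha), ?_⟩
    rw [e2]
    exact Submodule.add_mem _ (bd_mem hb) hη
  rw [← add_sub_cancel (bd R X n a) ξ]
  exact Submodule.add_mem_sup ⟨a, ha, rfl⟩ m3

theorem MvA_core {O U V : Set X} (hU : IsOpen U) (hV : IsOpen V) (h : O ⊆ U ∪ V) :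
    (∀ c ∈ chn R O 0, ∃ a ∈ chn R (O ∩ U) 0, ∃ b ∈ chn R (O ∩ V) 0, c - a - b ∈ bdy R O 0) ∧
    ∀ n, ∀ c ∈ chn R O (n + 1), bd R X n c ∈ chn R U n ⊔ chn R V n →
      ∃ a ∈ chn R (O ∩ U) (n + 1), ∃ b ∈ chn R (O ∩ V) (n + 1),
        c - a - b ∈ bdy R O (n + 1) := by
  obtain ⟨ρ, D, -, h2, h3, h4, h5, h6⟩ := (small_two hU hV h).exists_retr (R := R)
  have key : ∀ n, ∀ c ∈ chn R O n, bd R X n (D n c) = c - ρ n c →
      ∃ a ∈ chn R (O ∩ U) n, ∃ b ∈ chn R (O ∩ V) n, c - a - b ∈ bdy R O n := by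
    intro n c hc e
    have h7 := h4 n c hc
    rw [sml_two] at h7
    obtain ⟨a, ha, b, hb, hab⟩ := Submodule.mem_sup.1 (mem_sup_inter h7 (h6 O n c hc).1)
    refine ⟨a, ha, b, hb, D n c, (h6 O n c hc).2, ?_⟩
    rw [e, ← hab]
    abel
  refine ⟨fun c hc => key 0 c hc (h2 c), fun n c hc hb => key _ c hc ?_⟩
  rw [← sml_two] at hb
  rw [← h3, (h5 n _ hb).1, add_zero]

theorem MvA_conn {ι : Type} {O U : ι → Set X} (hU : ∀ i, IsOpen (U i)) (h : ∀ i, O i ⊆ U i)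
    (hd : ∀ i j, i ≠ j → Disjoint (O i) (U j)) {n : ℕ} {σ : Simp X n}
    (hσ : range σ ⊆ ⋃ i, O i) : ∃ i, range σ ⊆ O i := by
  have : PreconnectedSpace (Dl n) :=
    isPreconnected_iff_preconnectedSpace.1 (convex_stdSimplex ℝ _).isPreconnected
  obtain ⟨i, hi⟩ := mem_iUnion.1 (hσ ⟨stdSimplex.vertex 0, rfl⟩)
  refine ⟨i, fun y hy => ?_⟩
  by_contra hy'
  have hB : ∀ x ∈ range σ, x ∉ O i → x ∈ ⋃ j ∈ {j | j ≠ i}, U j := by
    intro x hx hx'
    obtain ⟨k, hk⟩ := mem_iUnion.1 (hσ hx)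
    exact mem_biUnion (x := k) (fun e => hx' (e ▸ hk)) (h k hk)
  obtain ⟨z, hz, hz1, hz2⟩ := isPreconnected_range σ.continuous (U i) _ (hU i)
    (isOpen_biUnion fun j _ => hU j)
    (fun x hx => (em (x ∈ O i)).imp (fun e => h i e) (hB x hx))
    ⟨_, ⟨_, rfl⟩, h i hi⟩ ⟨y, hy, hB y hy hy'⟩
  obtain ⟨k, hk⟩ := mem_iUnion.1 (hσ hz)
  obtain ⟨j, hj, hj'⟩ := mem_iUnion₂.1 hz2
  by_cases e : k = i
  · exact disjoint_left.1 (hd k j fun e' => hj (e'.symm.trans e)) hk hj'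
  · exact disjoint_left.1 (hd k i e) hk hz1

theorem mv_split {O U V : Set X} (hU : IsOpen U) (hV : IsOpen V) (h : O ⊆ U ∪ V) {n : ℕ}
    {c : Chn R X n} (hc : c ∈ cyc R O n) :
    ∃ a ∈ chn R (O ∩ U) n, ∃ b ∈ chn R (O ∩ V) n, c - a - b ∈ bdy R O n := by
  cases n with
  | zero => exact (MvA_core hU hV h).1 c hc
  | succ n =>
    refine (MvA_core hU hV h).2 n c hc.1 ?_
    rw [LinearMap.mem_ker.1 hc.2]
    exact zero_mem _

theorem mv_rel {O U V : Set X} (hU : IsOpen U) (hV : IsOpen V) (h : O ⊆ U ∪ V) {n : ℕ}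
    {c : Chn R X (n + 1)} (hc : c ∈ chn R O (n + 1))
    (hb : bd R X n c ∈ chn R U n ⊔ chn R V n) :
    ∃ a ∈ chn R (O ∩ U) (n + 1), ∃ b ∈ chn R (O ∩ V) (n + 1),
      c - a - b ∈ bdy R O (n + 1) :=
  (MvA_core hU hV h).2 n c hc hb

theorem mv_bdy {O U V : Set X} (hU : IsOpen U) (hV : IsOpen V) (h : O ⊆ U ∪ V) {n : ℕ}
    {c : Chn R X n} (hc : c ∈ chn R U n ⊔ chn R V n) (hb : c ∈ bdy R O n) :
    c ∈ bdy R (O ∩ U) n ⊔ bdy R (O ∩ V) n := by
  obtain ⟨e, he, rfl⟩ := hb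
  obtain ⟨a, ha, b, hb, f, -, hf⟩ := mv_rel hU hV h he hc
  have h1 := bd_bd n f
  rw [hf, map_sub, map_sub, _root_.sub_sub, sub_eq_zero] at h1
  rw [h1]
  exact Submodule.add_mem_sup ⟨a, ha, rfl⟩ ⟨b, hb, rfl⟩

/-- If the intersection is acyclic in degree `n`, cycles of degree `n + 1` come from the pieces. -/
theorem mv_cyc {O U V : Set X} (hU : IsOpen U) (hV : IsOpen V) (h : O ⊆ U ∪ V) {n : ℕ}
    (h0 : cyc R (O ∩ U ∩ V) n ⊓ bdy R (O ∩ U) n ⊓ bdy R (O ∩ V) n ≤ bdy R (O ∩ U ∩ V) n) :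
    cyc R O (n + 1) ≤ cyc R (O ∩ U) (n + 1) ⊔ cyc R (O ∩ V) (n + 1) ⊔ bdy R O (n + 1) := by
  intro c hc
  obtain ⟨a, ha, b, hb, hf⟩ := mv_split hU hV h hc
  have h1 : bd R X n a = -bd R X n b := by
    have h2 := LinearMap.mem_ker.1 (bdy_le O _ hf).2
    rw [map_sub, map_sub, LinearMap.mem_ker.1 hc.2, zero_sub, sub_eq_zero] at h2
    rw [← h2, neg_neg]
  have h2 : bd R X n a ∈ bdy R (O ∩ U) n := ⟨a, ha, rfl⟩
  have h3 : bd R X n a ∈ bdy R (O ∩ V) n := h1 ▸ neg_mem ⟨b, hb, rfl⟩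
  have h4 : bd R X n a ∈ cyc R (O ∩ U ∩ V) n := by
    refine mem_cyc (bdy_le _ _ h2) ?_
    rw [chn_inter]
    exact ⟨bd_mem ha, chn_mono inter_subset_right _ (cyc_le _ _ (bdy_le _ _ h3))⟩
  obtain ⟨e, he, he'⟩ := h0 ⟨⟨h4, h2⟩, h3⟩
  have e1 : c = (a - e) + (b + e) + (c - a - b) := by abel
  rw [e1]
  refine Submodule.add_mem_sup (Submodule.add_mem_sup ⟨?_, ?_⟩ ⟨?_, ?_⟩) hf
  · exact sub_mem ha (chn_mono inter_subset_left _ he)
  · exact LinearMap.mem_ker.2 (by rw [map_sub, he', sub_self])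
  · exact add_mem hb (chn_mono (T := O ∩ V) (fun x hx => ⟨hx.1.1, hx.2⟩) _ he)
  · exact LinearMap.mem_ker.2 (by rw [map_add, he', h1, add_neg_cancel])

/-- If the intersection is acyclic in degree `n`, the first piece injects in degree `n`. -/
theorem mv_inj {O U V : Set X} (hU : IsOpen U) (hV : IsOpen V) (h : O ⊆ U ∪ V) {n : ℕ}
    (h0 : cyc R (O ∩ U ∩ V) (n + 1) ≤ bdy R (O ∩ U ∩ V) (n + 1)) :
    chn R (O ∩ U) (n + 1) ⊓ bdy R O (n + 1) ≤ bdy R (O ∩ U) (n + 1) := by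
  rintro c ⟨hc, hb⟩
  obtain ⟨x, hx, y, hy, rfl⟩ := Submodule.mem_sup.1 (mv_bdy hU hV h
    (Submodule.mem_sup_left (chn_mono inter_subset_right _ hc)) hb)
  refine add_mem hx (bdy_mono inter_subset_left _ (h0 (mem_cyc (bdy_le _ _ hy) ?_)))
  rw [chn_inter]
  refine ⟨?_, chn_mono inter_subset_right _ (cyc_le _ _ (bdy_le _ _ hy))⟩
  simpa using sub_mem hc (cyc_le _ _ (bdy_le _ _ hx))

theorem chn_disj {ι : Type} {O U : ι → Set X} (hU : ∀ i, IsOpen (U i)) (h : ∀ i, O i ⊆ U i)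
    (hd : ∀ i j, i ≠ j → Disjoint (O i) (U j)) (n : ℕ) :
    chn R (⋃ i, O i) n = ⨆ i, chn R (O i) n := by
  refine le_antisymm (fun c hc => ?_) (iSup_le fun i => chn_mono (subset_iUnion O i) n)
  rw [← Finsupp.sum_single c]
  refine sum_mem fun σ hσ => ?_
  obtain ⟨i, hi⟩ := MvA_conn hU h hd (mem_chn_iff.1 hc σ hσ)
  exact Submodule.mem_iSup_of_mem i (single_mem hi _)

theorem cyc_disj {ι : Type} {O U : ι → Set X} (hU : ∀ i, IsOpen (U i)) (h : ∀ i, O i ⊆ U i)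
    (hd : ∀ i j, i ≠ j → Disjoint (O i) (U j)) (n : ℕ) :
    cyc R (⋃ i, O i) n = ⨆ i, cyc R (O i) n := by
  cases n with
  | zero => exact chn_disj hU h hd 0
  | succ n =>
    refine le_antisymm (fun c hc => ?_) (iSup_le fun i => cyc_mono (subset_iUnion O i) _)
    have h1 := hc.1
    rw [chn_disj hU h hd] at h1
    obtain ⟨f, hf, rfl⟩ := (Submodule.mem_iSup_iff_exists_finsupp _ _).1 h1
    have h2 := LinearMap.mem_ker.1 hc.2
    rw [Finsupp.sum, map_sum] at h2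
    refine sum_mem fun i hi => Submodule.mem_iSup_of_mem i ⟨hf i, LinearMap.mem_ker.2 ?_⟩
    ext σ
    by_contra h3
    have h4 := mem_chn_iff.1 (bd_mem (hf i)) σ (Finsupp.mem_support_iff.2 h3)
    have h5 := DFunLike.congr_fun h2 σ
    rw [Finsupp.finsetSum_apply, Finset.sum_eq_single_of_mem i hi] at h5
    · exact h3 h5
    · intro j _ hj
      by_contra h6
      have h7 := mem_chn_iff.1 (bd_mem (hf j)) σ (Finsupp.mem_support_iff.2 h6)
      exact disjoint_left.1 (hd j i hj) (h7 ⟨stdSimplex.vertex 0, rfl⟩) (h i (h4 ⟨_, rfl⟩))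

end RC.Ho
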