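import Pool.Agent.P.MP_6472e5_gt.Defs

/-! Coarse orientation of a set that looks like a line at a fixed scale. -/

set_option autoImplicit false
set_option linter.unusedSectionVars false

noncomputable section

namespace RC

open Set Metric

variable {S : Type} [PseudoMetricSpace S] {s : ℝ} {η : S → S → ℤˣ} {t : S → S → ℝ}

/-- Neighbouring oriented charts. -/
def LiAdj (s : ℝ) (η : S → S → ℤˣ) (u v : S × ℤˣ) : Prop :=
  dist u.1 v.1 ≤ s / 4 ∧ v.2 = η u.1 v.1 * u.2

theorem li_seq {A : Type} {R : A → A → Prop} {u v : A} (h : Relation.ReflTransGen R u v) :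
    ∃ (k : ℕ) (p : ℕ → A), p 0 = u ∧ p k = v ∧ ∀ i < k, R (p i) (p (i + 1)) := by
  induction h with
  | refl => exact ⟨0, fun _ => u, rfl, rfl, fun i hi => absurd hi (Nat.not_lt_zero i)⟩
  | @tail b c _ hbc ih =>
    obtain ⟨k, p, h0, hk, hp⟩ := ih
    refine ⟨k + 1, fun i => if i ≤ k then p i else c, by simp [h0], by simp, fun i hi => ?_⟩
    rcases (Nat.lt_succ_iff.1 hi).eq_or_lt with rfl | h
    · simpa [hk] using hbc
    · simpa [h.le, Nat.succ_le_of_lt h] using hp i h

theorem li_step {p0 p1 p2 p3 d : ℝ} (h01 : |p0 - p1| ≤ 26 / 100) (h23 : |p2 - p3| ≤ 26 / 100)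
    (h02 : 24 / 100 ≤ |p0 - p2|) (h13 : 24 / 100 ≤ |p1 - p3|) (h03 : 24 / 100 ≤ |p0 - p3|)
    (hd : |d - (p3 - p1)| ≤ 1 / 100) : (0 < p2 - p0 → 0 < d) ∧ (p2 - p0 < 0 → d < 0) := by
  rw [abs_le] at h01 h23 hd
  rcases le_abs.1 h02 with a | a <;> rcases le_abs.1 h13 with b | b <;>
    rcases le_abs.1 h03 with c | c <;> constructor <;> intro <;> linarith

theorem li_cycle (hs : 0 < s)
    (h1 : ∀ u v w, dist u v ≤ s → dist v w ≤ s → dist u w ≤ s → η u w = η u v * η v w)
    (h2 : ∀ w w' u u', dist w w' ≤ s → dist w u ≤ s → dist w u' ≤ s →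
      |t w' u - t w' u' - (η w w' : ℤ) * (t w u - t w u')| ≤ 1 / 100)
    (h3 : ∀ w u u', dist w u ≤ s → dist w u' ≤ s → |(|t w u - t w u'|) - dist u u' / s| ≤ 1 / 100)
    (k : ℕ) (p : ℕ → S × ℤˣ) (hp : ∀ i < k, LiAdj s η (p i) (p (i + 1)))
    (hk : p k = ((p 0).1, -(p 0).2)) : False := by
  induction k using Nat.strong_induction_on generalizing p with
  | _ k ih =>
  have hne : ∀ e : ℤˣ, e ≠ -e := by decide
  have hww : ∀ w, η w w = 1 := fun w => by
    have := h1 w w w (by simp [hs.le]) (by simp [hs.le]) (by simp [hs.le])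
    exact left_eq_mul.1 this
  rcases Nat.lt_or_ge k 2 with hk2 | hk2
  · interval_cases k
    · exact hne _ (congrArg Prod.snd hk)
    · have := (hp 0 one_pos).2
      rw [zero_add, hk, hww, one_mul] at this
      exact hne _ this.symm
  set P : ℕ → S × ℤˣ := fun i => if i ≤ k then p i else ((p (i - k)).1, -(p (i - k)).2) with hP
  have hPk : ∀ i ≤ k, P (i + k) = ((P i).1, -(P i).2) := fun i hi => by
    rcases Nat.eq_zero_or_pos i with rfl | h0
    · simp [hP, hk]
    · simp [hP, hi, show ¬i + k ≤ k by omega]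
  have hA : ∀ i < 2 * k, LiAdj s η (P i) (P (i + 1)) := fun i hi => by
    rcases Nat.lt_or_ge i k with h | h
    · simpa [hP, h.le, Nat.succ_le_of_lt h] using hp i h
    · obtain ⟨j, rfl⟩ := Nat.exists_eq_add_of_le' h
      have hj : j < k := by omega
      have := hp j hj
      rw [hPk j hj.le, add_right_comm, hPk (j + 1) hj]
      simp only [hP, if_pos hj.le, if_pos (Nat.succ_le_of_lt hj)]
      exact ⟨this.1, by simp only [this.2, mul_neg]⟩
  have hch : ∀ i ≤ k, ∀ g, 2 ≤ g → g ≤ k → ¬LiAdj s η (P i) (P (i + g)) := fun i hi g g2 gk h =>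
    ih (k - g + 1) (by omega) (fun j => if j = 0 then P i else P (i + g - 1 + j))
      (fun j hj => by
        rcases Nat.eq_zero_or_pos j with rfl | h0
        · simpa [show i + g - 1 + 1 = i + g by omega] using h
        · simpa [h0.ne', add_assoc] using hA (i + g - 1 + j) (by omega))
      (by simp [show i + g - 1 + (k - g + 1) = i + k by omega, hPk i hi])
  have d1 : ∀ i < 2 * k, dist (P i).1 (P (i + 1)).1 ≤ s / 4 := fun i hi => (hA i hi).1
  have d2 : ∀ i, i + 1 < 2 * k → dist (P i).1 (P (i + 2)).1 ≤ s / 2 := fun i hi => by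
    linarith [dist_triangle (P i).1 (P (i + 1)).1 (P (i + 2)).1, d1 i (by omega), d1 (i + 1) hi]
  have e2 : ∀ i, i + 1 < 2 * k → (P (i + 2)).2 = η (P i).1 (P (i + 2)).1 * (P i).2 := fun i hi => by
    rw [(hA (i + 1) hi).2, (hA i (by omega)).2, h1 (P i).1 (P (i + 1)).1 (P (i + 2)).1
      (by linarith [d1 i (by omega)]) (by linarith [d1 (i + 1) hi]) (by linarith [d2 i hi]),
      ← mul_assoc, mul_comm (η (P i).1 _)]
  have c2 : ∀ i ≤ k, s / 4 < dist (P i).1 (P (i + 2)).1 := fun i hi =>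
    not_le.1 fun h => hch i hi 2 le_rfl hk2 ⟨h, e2 i (by omega)⟩
  have hk3 : 3 ≤ k := by
    by_contra h
    obtain rfl : k = 2 := by omega
    have := c2 0 (by omega)
    rw [hPk 0 (by omega), dist_self] at this
    linarith
  have d3 : ∀ i ≤ k, dist (P i).1 (P (i + 3)).1 ≤ s := fun i hi => by
    linarith [dist_triangle (P i).1 (P (i + 2)).1 (P (i + 3)).1, d2 i (by omega),
      d1 (i + 2) (by omega)]
  have c3 : ∀ i ≤ k, s / 4 < dist (P i).1 (P (i + 3)).1 := fun i hi =>
    not_le.1 fun h => hch i hi 3 (by omega) hk3 ⟨h, by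
      rw [(hA (i + 2) (by omega)).2, e2 i (by omega), h1 (P i).1 (P (i + 2)).1 (P (i + 3)).1
        (by linarith [d2 i (by omega)]) (by linarith [d1 (i + 2) (by omega)]) (d3 i hi),
        ← mul_assoc, mul_comm (η (P i).1 _)]⟩
  set T : ℕ → ℕ → ℝ := fun i j => ((P i).2 : ℤ) * t (P i).1 (P j).1 with hT
  have hab : ∀ i j l, |T i j - T i l| = |t (P i).1 (P j).1 - t (P i).1 (P l).1| := fun i j l => by
    rw [hT, ← mul_sub, abs_mul]
    rcases Int.units_eq_one_or (P i).2 with h | h <;> simp [h]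
  have lo : ∀ i j l, dist (P i).1 (P j).1 ≤ s → dist (P i).1 (P l).1 ≤ s →
      s / 4 < dist (P j).1 (P l).1 → 24 / 100 ≤ |T i j - T i l| := fun i j l a b c => by
    have h4 : 1 / 4 < dist (P j).1 (P l).1 / s := by
      rw [lt_div_iff₀ hs]
      linarith
    rw [hab]
    linarith [(abs_le.1 (h3 _ _ _ a b)).1]
  have hi : ∀ i j l, dist (P i).1 (P j).1 ≤ s → dist (P i).1 (P l).1 ≤ s →
      dist (P j).1 (P l).1 ≤ s / 4 → |T i j - T i l| ≤ 26 / 100 := fun i j l a b c => by
    have h4 : dist (P j).1 (P l).1 / s ≤ 1 / 4 := by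
      rw [div_le_iff₀ hs]
      linarith
    rw [hab]
    linarith [(abs_le.1 (h3 _ _ _ a b)).2]
  have hst : ∀ i < k, (0 < T i (i + 2) - T i i → 0 < T (i + 1) (i + 3) - T (i + 1) (i + 1)) ∧
      (T i (i + 2) - T i i < 0 → T (i + 1) (i + 3) - T (i + 1) (i + 1) < 0) := fun i h => by
    have a0 : dist (P i).1 (P i).1 ≤ s := by simp [hs.le]
    have a1 : dist (P i).1 (P (i + 1)).1 ≤ s := by linarith [d1 i (by omega)]
    have a2 : dist (P i).1 (P (i + 2)).1 ≤ s := by linarith [d2 i (by omega)]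
    have a3 := d3 i h.le
    refine li_step (p1 := T i (i + 1)) (p3 := T i (i + 3)) (hi _ _ _ a0 a1 (d1 i (by omega)))
      (hi _ _ _ a2 a3 (d1 (i + 2) (by omega))) (lo _ _ _ a0 a2 (c2 i h.le))
      (lo _ _ _ a1 a3 (c2 (i + 1) h)) (lo _ _ _ a0 a3 (c3 i h.le)) ?_
    have h5 := h2 _ _ _ _ a1 a3 a1
    simp only [hT, (hA i (by omega)).2]
    rcases Int.units_eq_one_or (P i).2 with a | a <;>
      rcases Int.units_eq_one_or (η (P i).1 (P (i + 1)).1) with b | b <;>
      simp only [a, b, Units.val_one, Units.val_neg, mul_one, mul_neg, neg_neg, Int.cast_one,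
        Int.cast_neg, abs_le] at h5 ⊢ <;> constructor <;> linarith [h5.1, h5.2]
  have hall : ∀ i ≤ k, (0 < T 0 2 - T 0 0 → 0 < T i (i + 2) - T i i) ∧
      (T 0 2 - T 0 0 < 0 → T i (i + 2) - T i i < 0) := fun i hi => by
    induction i with
    | zero => exact ⟨id, id⟩
    | succ i ih' =>
      exact ⟨fun h => (hst i hi).1 ((ih' (by omega)).1 h), fun h => (hst i hi).2 ((ih' (by omega)).2 h)⟩
  have hfin : T k (k + 2) - T k k = -(T 0 2 - T 0 0) := by
    have b0 := hPk 0 (by omega)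
    have b2 := hPk 2 hk2
    rw [zero_add] at b0
    rw [add_comm] at b2
    simp only [hT, b0, b2, Units.val_neg, Int.cast_neg]
    ring
  have h0 := lo 0 0 2 (by simp [hs.le]) (by linarith [d2 0 (by omega)]) (c2 0 (by omega))
  obtain ⟨b1, b2⟩ := hall k le_rfl
  rcases le_abs.1 h0 with a | a
  · linarith [b2 (by linarith)]
  · linarith [b1 (by linarith)]

theorem li_orient (hs : 0 < s)
    (h1 : ∀ u v w, dist u v ≤ s → dist v w ≤ s → dist u w ≤ s → η u w = η u v * η v w)
    (h2 : ∀ w w' u u', dist w w' ≤ s → dist w u ≤ s → dist w u' ≤ s →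
      |t w' u - t w' u' - (η w w' : ℤ) * (t w u - t w u')| ≤ 1 / 100)
    (h3 : ∀ w u u', dist w u ≤ s → dist w u' ≤ s →
      |(|t w u - t w u'|) - dist u u' / s| ≤ 1 / 100) :
    ∃ e : S → ℤˣ, ∀ w w', dist w w' ≤ s / 4 → e w' = η w w' * e w := by
  classical
  have hww : ∀ w, η w w = 1 := fun w => by
    have := h1 w w w (by simp [hs.le]) (by simp [hs.le]) (by simp [hs.le])
    exact left_eq_mul.1 this
  have hsy : ∀ u v, LiAdj s η u v → LiAdj s η v u := fun u v h => by
    have h4 := h.1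
    refine ⟨by rwa [dist_comm], ?_⟩
    rw [h.2, ← mul_assoc, ← h1 v.1 u.1 v.1 (by rw [dist_comm]; linarith) (by linarith)
      (by simp [hs.le]), hww, one_mul]
  set C : S × ℤˣ → Set (S × ℤˣ) := fun u => {v | Relation.ReflTransGen (LiAdj s η) u v} with hC
  have hCe : ∀ u v, LiAdj s η u v → C u = C v := fun u v h =>
    Subset.antisymm (fun _ h' => Relation.ReflTransGen.head (hsy _ _ h) h')
      fun _ h' => Relation.ReflTransGen.head h h'
  have hCn : ∀ w, C (w, 1) ≠ C (w, -1) := fun w h => by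
    have h4 : (w, -1) ∈ C (w, 1) := h ▸ Relation.ReflTransGen.refl
    obtain ⟨k, p, p0, pk, hp⟩ := li_seq h4
    exact li_cycle hs h1 h2 h3 k p hp (by rw [pk, p0])
  have hwo : IsStrictTotalOrder (Set (S × ℤˣ)) WellOrderingRel := inferInstance
  refine ⟨fun w => if WellOrderingRel (C (w, 1)) (C (w, -1)) then 1 else -1, fun w w' h => ?_⟩
  have a1 := hCe (w, 1) (w', η w w' * 1) ⟨h, rfl⟩
  have a2 := hCe (w, -1) (w', η w w' * -1) ⟨h, rfl⟩
  rcases Int.units_eq_one_or (η w w') with b | b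
  · simp only [b, one_mul] at a1 a2 ⊢
    rw [a1, a2]
  · simp only [b, mul_one, neg_mul, one_mul, neg_neg] at a1 a2 ⊢
    rw [← a1, ← a2]
    rcases trichotomous_of WellOrderingRel (C (w, 1)) (C (w, -1)) with c | c | c
    · rw [if_pos c, if_neg (asymm c)]
    · exact absurd c (hCn w)
    · rw [if_pos c, if_neg (asymm c), neg_neg]

end RC
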