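import Pool.Agent.P.MP_6472e5_gt.GH
import Pool.Agent.P.MP_6472e5_gt.LiA

/-! Coherent charts along a set on which all coordinates but the first are prescribed. -/

set_option autoImplicit false
set_option linter.unusedSectionVars false

noncomputable section

namespace RC

open Set Metric

variable {k : ℕ}

theorem li_norm_sq (v : Euc (k + 1)) : ‖v‖ ^ 2 = v 0 ^ 2 + ∑ j : Fin k, v j.succ ^ 2 := by
  rw [EuclideanSpace.real_norm_sq_eq, Fin.sum_univ_succ]

theorem li_coord (v : Euc (k + 1)) (j : Fin (k + 1)) : |v j| ≤ ‖v‖ := by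
  simpa using PiLp.norm_apply_le v j

theorem li_norm_le (v : Euc (k + 1)) {β : ℝ} (h0 : 0 ≤ β) (h : ∀ j : Fin k, |v j.succ| ≤ β) :
    ‖v‖ ≤ |v 0| + k * β := by
  have h1 : ∑ j : Fin k, v j.succ ^ 2 ≤ ∑ _j : Fin k, β ^ 2 :=
    Finset.sum_le_sum fun j _ => by rw [← sq_abs]; exact pow_le_pow_left₀ (abs_nonneg _) (h j) 2
  rw [Finset.sum_const, Finset.card_univ, Fintype.card_fin, nsmul_eq_mul] at h1
  have h2 : (k : ℝ) ≤ k ^ 2 := by exact_mod_cast Nat.le_self_pow two_ne_zero k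
  have h3 : (0 : ℝ) ≤ k := Nat.cast_nonneg k
  refine abs_le_of_sq_le_sq' ?_ (by positivity) |>.2
  rw [li_norm_sq, add_sq, sq_abs, mul_pow]
  have := mul_le_mul_of_nonneg_right h2 (sq_nonneg β)
  have : 0 ≤ 2 * |v 0| * (k * β) := by positivity
  linarith

theorem li_sq_sub {a b M β : ℝ} (ha : |a| ≤ M) (hb : |b| ≤ M) (h : |a - b| ≤ β) :
    |a ^ 2 - b ^ 2| ≤ 2 * M * β := by
  rw [sq_sub_sq, abs_mul]
  exact mul_le_mul ((abs_add_le a b).trans (by linarith)) h (abs_nonneg _)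
    (by linarith [abs_nonneg a])

theorem li_first (v v' : Euc (k + 1)) {β : ℝ} (hβ : (k + 1) * β ≤ 4 / 10 ^ 9) (hv : ‖v‖ ≤ 100)
    (hv' : ‖v'‖ ≤ 100) (h0 : |‖v‖ - ‖v'‖| ≤ β) (h : ∀ j : Fin k, |v j.succ - v' j.succ| ≤ β) :
    |(|v 0|) - (|v' 0|)| ≤ 1 / 1000 := by
  have h1 := li_sq_sub ((abs_norm v).trans_le hv) ((abs_norm v').trans_le hv') h0
  have h2 : |∑ j : Fin k, (v j.succ ^ 2 - v' j.succ ^ 2)| ≤ ∑ _j : Fin k, 2 * 100 * β :=
    (Finset.abs_sum_le_sum_abs _ _).trans (Finset.sum_le_sum fun j _ =>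
      li_sq_sub ((li_coord _ _).trans hv) ((li_coord _ _).trans hv') (h j))
  rw [Finset.sum_const, Finset.card_univ, Fintype.card_fin, nsmul_eq_mul,
    Finset.sum_sub_distrib] at h2
  rw [li_norm_sq, li_norm_sq] at h1
  rw [abs_le] at h1 h2
  refine abs_le_of_sq_le_sq ?_ (by norm_num)
  have a1 := abs_nonneg (v 0)
  have a2 := abs_nonneg (v' 0)
  rw [← sq_abs (v 0), ← sq_abs (v' 0)] at h1
  rcases le_total |v 0| |v' 0| with c | c <;> nlinarith

theorem li_flip (k : ℕ) (e : ℤˣ) : ∃ g : Euc (k + 1) ≃ᵢ Euc (k + 1), g 0 = 0 ∧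
    ∀ v, g v 0 = (e : ℤ) * v 0 ∧ ∀ j : Fin k, g v j.succ = v j.succ := by
  rcases Int.units_eq_one_or e with rfl | rfl
  · exact ⟨IsometryEquiv.refl _, rfl, fun v => ⟨by simp; rfl, fun _ => rfl⟩⟩
  · let g : Euc (k + 1) ≃ₗᵢ[ℝ] Euc (k + 1) := LinearIsometryEquiv.piLpCongrRight 2
      (Fin.cases (motive := fun _ => ℝ ≃ₗᵢ[ℝ] ℝ) (LinearIsometryEquiv.neg ℝ)
        fun _ => LinearIsometryEquiv.refl ℝ ℝ)
    exact ⟨g.toIsometryEquiv, map_zero g, fun v => ⟨by simp [g], fun _ => by simp [g]⟩⟩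

variable {Z : Type} [MetricSpace Z] {s β : ℝ}

theorem li_ref {w : Z} {φ : Z → Euc (k + 1)} (hs : 0 < s) (hβ : β ≤ 1 / 10)
    (h : GHApprox w s 0 101 β φ) {c : ℝ} (h0 : 0 ≤ c) (h1 : c ≤ 50) :
    ∃ p, dist p w ≤ (c + 1) * s ∧ c - 1 ≤ φ p 0 := by
  have hn : dist (EuclideanSpace.single (0 : Fin (k + 1)) c) 0 = c := by
    simp [abs_of_nonneg h0]
  obtain ⟨p, -, h2, h3⟩ := h.exists_near hs (w := EuclideanSpace.single 0 c)
    (by rw [mem_ball, hn]; linarith)
  refine ⟨p, h3.trans (by rw [hn]; gcongr; linarith), ?_⟩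
  have := li_coord (φ p - EuclideanSpace.single 0 c) 0
  rw [← dist_eq_norm] at this
  simp only [PiLp.sub_apply, PiLp.single_eq_same] at this
  linarith [(abs_le.1 this).1]

theorem li_app {w : Z} {φ : Z → Euc (k + 1)} (hs : 0 < s) (h : GHApprox w s 0 101 β φ) {a b : Z}
    (ha : dist a w ≤ 100 * s) (hb : dist b w ≤ 100 * s) :
    |‖φ a - φ b‖ - dist a b / s| ≤ β := by
  rw [← dist_eq_norm]
  exact h.2.1 a (mem_ball.2 (by linarith)) b (mem_ball.2 (by linarith))

theorem li_app_le {w : Z} {φ : Z → Euc (k + 1)} (hs : 0 < s) (h : GHApprox w s 0 101 β φ)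
    {a b : Z} (ha : dist a w ≤ 100 * s) (hb : dist b w ≤ 100 * s) {c : ℝ}
    (hc : dist a b ≤ c * s) : ‖φ a - φ b‖ ≤ c + β := by
  have := (abs_le.1 (li_app hs h ha hb)).2
  have : dist a b / s ≤ c := by rwa [div_le_iff₀ hs]
  linarith

theorem li_dich {w w' : Z} {φ φ' : Z → Euc (k + 1)} {f : Z → Fin k → ℝ} (hs : 0 < s) (h0 : 0 ≤ β)
    (hβ : (k + 1) * β ≤ 1 / 10 ^ 9) (h : GHApprox w s 0 101 β φ) (h' : GHApprox w' s 0 101 β φ')
    (hf : ∀ z ∈ ball w (101 * s), ∀ j, |φ z j.succ - f z j| ≤ β)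
    (hf' : ∀ z ∈ ball w' (101 * s), ∀ j, |φ' z j.succ - f z j| ≤ β) (hd : dist w w' ≤ s) :
    ∃ (η : ℤˣ) (c : ℝ), ∀ z, dist z w ≤ 20 * s → |φ' z 0 - (η : ℤ) * φ z 0 - c| ≤ 1 / 1000 := by
  have hb : β ≤ 1 / 10 ^ 9 := by nlinarith [Nat.cast_nonneg (α := ℝ) k]
  obtain ⟨p, p1, p2⟩ := li_ref hs (by linarith) h (c := 40) (by norm_num) (by norm_num)
  have hw : ∀ z, dist z w' ≤ dist z w + s := fun z => by linarith [dist_triangle z w w']
  have key : ∀ z, dist z w ≤ 20 * s → 18 ≤ φ p 0 - φ z 0 ∧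
      |(φ p 0 - φ z 0) - (|φ' p 0 - φ' z 0|)| ≤ 1 / 1000 ∧ |φ' z 0 - φ' w 0| ≤ 21 := fun z hz => by
    have hpz : dist p z ≤ 61 * s := by linarith [dist_triangle_right p z w]
    have a1 := li_app_le hs h (a := z) (b := w) (by linarith) (by simp; linarith) hz
    have a2 := li_app_le hs h' (a := z) (b := w) (by linarith [hw z]) (by linarith) hz
    have a3 := li_coord (φ z - φ w) 0
    have a4 := li_coord (φ' z - φ' w) 0
    rw [h.1] at a1 a3
    simp only [PiLp.sub_apply, sub_zero] at a1 a3 a4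
    have a5 : 18 ≤ φ p 0 - φ z 0 := by linarith [(abs_le.1 a3).2]
    refine ⟨a5, ?_, by linarith⟩
    have b1 := abs_le.1 (li_app hs h (a := p) (b := z) (by linarith) (by linarith))
    have b2 := abs_le.1 (li_app hs h' (a := p) (b := z) (by linarith [hw p]) (by linarith [hw z]))
    have b3 := li_first (φ p - φ z) (φ' p - φ' z) (β := 4 * β) (by linarith)
      ((li_app_le hs h (by linarith) (by linarith) hpz).trans (by linarith))
      ((li_app_le hs h' (by linarith [hw p]) (by linarith [hw z]) hpz).trans (by linarith))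
      (abs_le.2 ⟨by linarith, by linarith⟩) fun j => by
        have c1 := abs_le.1 (hf p (mem_ball.2 (by linarith)) j)
        have c2 := abs_le.1 (hf z (mem_ball.2 (by linarith)) j)
        have c3 := abs_le.1 (hf' p (mem_ball.2 (by linarith [hw p])) j)
        have c4 := abs_le.1 (hf' z (mem_ball.2 (by linarith [hw z])) j)
        simp only [PiLp.sub_apply]
        exact abs_le.2 ⟨by linarith, by linarith⟩
    simp only [PiLp.sub_apply] at b3
    rwa [abs_of_nonneg (by linarith : 0 ≤ φ p 0 - φ z 0)] at b3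
  obtain ⟨w1, w2, -⟩ := key w (by simp; linarith)
  rcases le_total 0 (φ' p 0 - φ' w 0) with c | c
  · refine ⟨1, φ' p 0 - φ p 0, fun z hz => ?_⟩
    obtain ⟨z1, z2, z3⟩ := key z hz
    rw [abs_of_nonneg c] at w2
    rw [abs_le] at w2 z2 z3 ⊢
    simp only [Units.val_one, Int.cast_one, one_mul]
    rcases abs_cases (φ' p 0 - φ' z 0) with d | d <;> constructor <;> linarith
  · refine ⟨-1, φ' p 0 + φ p 0, fun z hz => ?_⟩
    obtain ⟨z1, z2, z3⟩ := key z hz
    rw [abs_of_nonpos c] at w2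
    rw [abs_le] at w2 z2 z3 ⊢
    simp only [Units.val_neg, Units.val_one, Int.cast_neg, Int.cast_one]
    rcases abs_cases (φ' p 0 - φ' z 0) with d | d <;> constructor <;> linarith

theorem li_charts {S : Set Z} {f : Z → Fin k → ℝ} {φ : S → Z → Euc (k + 1)} (hs : 0 < s)
    (h0 : 0 ≤ β) (hβ : (k + 1) * β ≤ 1 / 10 ^ 9) (hS : ∀ u ∈ S, ∀ j, f u j = 0)
    (h : ∀ w : S, GHApprox (w : Z) s 0 101 β (φ w))
    (hf : ∀ w : S, ∀ z ∈ ball (w : Z) (101 * s), ∀ j, |φ w z j.succ - f z j| ≤ β) :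
    ∃ ψ : S → Z → Euc (k + 1), (∀ w : S, GHApprox (w : Z) s 0 101 β (ψ w)) ∧
      ∀ w w' : S, dist w w' ≤ s / 4 → ∃ c, ∀ z : Z, dist z w ≤ 20 * s →
        dist (ψ w' z) (ψ w z + c) ≤ 1 / 200 := by
  have hk := Nat.cast_nonneg (α := ℝ) k
  have hb : β ≤ 1 / 10 ^ 9 := by nlinarith
  have hb' : k * β ≤ 1 / 10 ^ 9 := by nlinarith
  have h1 : ∀ w w' : S, ∃ (η : ℤˣ) (c : ℝ), dist w w' ≤ s → ∀ z : Z, dist z w ≤ 20 * s →
      |φ w' z 0 - (η : ℤ) * φ w z 0 - c| ≤ 1 / 1000 := fun w w' => by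
    by_cases hd : dist w w' ≤ s
    · obtain ⟨η, c, h2⟩ := li_dich hs h0 hβ (h w) (h w') (hf w) (hf w') hd
      exact ⟨η, c, fun _ => h2⟩
    · exact ⟨1, 0, fun h2 => absurd h2 hd⟩
  choose η c hη using h1
  obtain ⟨e, he⟩ := li_orient (η := η) (t := fun w u : S => φ w u 0) hs (fun u v w a1 a2 a3 => by
    obtain ⟨p, p1, p2⟩ := li_ref hs (by linarith) (h u) (c := 10) (by norm_num) (by norm_num)
    have hu : dist (u : Z) u ≤ 20 * s := by simp; linarith
    have hpv : dist p v ≤ 20 * s := by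
      have : dist (u : Z) v ≤ s := a1
      linarith [dist_triangle p u v]
    have huv : dist (u : Z) v ≤ 20 * s := by
      have : dist (u : Z) v ≤ s := a1
      linarith
    have b1 := abs_le.1 (hη u v a1 p (by linarith))
    have b2 := abs_le.1 (hη u v a1 u hu)
    have b3 := abs_le.1 (hη v w a2 p hpv)
    have b4 := abs_le.1 (hη v w a2 u huv)
    have b5 := abs_le.1 (hη u w a3 p (by linarith))
    have b6 := abs_le.1 (hη u w a3 u hu)
    have b7 : φ u u 0 = 0 := by rw [(h u).1]; rfl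
    rcases Int.units_eq_one_or (η u v) with d1 | d1 <;>
      rcases Int.units_eq_one_or (η v w) with d2 | d2 <;>
      rcases Int.units_eq_one_or (η u w) with d3 | d3 <;>
      simp only [d1, d2, d3, Units.val_neg, Units.val_one, Int.cast_neg, Int.cast_one, mul_one,
        mul_neg, neg_neg] at * <;> exfalso <;> linarith)
    (fun w w' u u' a1 a2 a3 => by
      have b1 := abs_le.1 (hη w w' a1 u (by rw [dist_comm]; exact a2.trans (by linarith)))
      have b2 := abs_le.1 (hη w w' a1 u' (by rw [dist_comm]; exact a3.trans (by linarith)))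
      exact abs_le.2 ⟨by linarith, by linarith⟩)
    (fun w u u' a1 a2 => by
      have a3 : dist (u : Z) w ≤ s := by rw [dist_comm]; exact a1
      have a4 : dist (u' : Z) w ≤ s := by rw [dist_comm]; exact a2
      have b1 := abs_le.1 (li_app hs (h w) (a := u) (b := u') (by linarith) (by linarith))
      have b2 := li_coord (φ w u - φ w u') 0
      have b3 := li_norm_le (φ w u - φ w u') (β := 2 * β) (by linarith) fun j => by
        have c1 := abs_le.1 (hf w u (mem_ball.2 (by linarith)) j)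
        have c2 := abs_le.1 (hf w u' (mem_ball.2 (by linarith)) j)
        rw [hS _ u.2] at c1
        rw [hS _ u'.2] at c2
        simp only [PiLp.sub_apply]
        exact abs_le.2 ⟨by linarith, by linarith⟩
      simp only [PiLp.sub_apply] at b2 b3
      rw [Subtype.dist_eq]
      exact abs_le.2 ⟨by linarith, by linarith⟩)
  choose g g0 hg using li_flip k
  refine ⟨fun w => g (e w) ∘ φ w, fun w => by simpa only [g0] using (h w).isometry (g (e w)),
    fun w w' hd => ⟨EuclideanSpace.single 0 ((e w' : ℤ) * c w w'), fun z hz => ?_⟩⟩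
  have hd' : dist (w : Z) w' ≤ s / 4 := hd
  have b1 := hη w w' (by linarith) z hz
  rw [dist_eq_norm]
  refine (li_norm_le _ (β := 2 * β) (by linarith) fun j => ?_).trans ?_
  · have c1 := abs_le.1 (hf w z (mem_ball.2 (by linarith)) j)
    have c2 := abs_le.1 (hf w' z (mem_ball.2 (by linarith [dist_triangle z w w'])) j)
    simp only [PiLp.sub_apply, PiLp.add_apply, Function.comp, (hg _ _).2,
      PiLp.single_eq_of_ne _ (Fin.succ_ne_zero j), add_zero]
    exact abs_le.2 ⟨by linarith, by linarith⟩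
  · simp only [PiLp.sub_apply, PiLp.add_apply, Function.comp, (hg _ _).1, PiLp.single_eq_same,
      he w w' hd]
    rw [abs_le] at b1
    have : |((η w w' * e w : ℤˣ) : ℤ) * φ w' z 0 - (((e w : ℤˣ) : ℤ) * φ w z 0 +
        ((η w w' * e w : ℤˣ) : ℤ) * c w w')| ≤ 1 / 1000 := by
      rcases Int.units_eq_one_or (η w w') with d1 | d1 <;>
        rcases Int.units_eq_one_or (e w) with d2 | d2 <;>
        simp only [d1, d2, Units.val_neg, Units.val_one, Int.cast_neg, Int.cast_one, mul_one,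
          mul_neg, neg_neg] at b1 ⊢ <;> exact abs_le.2 ⟨by linarith, by linarith⟩
    linarith

end RC
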