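import Pool.Agent.P.MP_6472e5_gt.HpB
import Pool.Agent.P.MP_6472e5_gt.Ca5

/-! Small tools for the local analysis. -/

set_option autoImplicit false
set_option linter.unusedSectionVars false

noncomputable section

namespace RC

open MeasureTheory Set Filter Topology Metric

variable {X : Type} [MetricSpace X] [ProperSpace X] [MeasurableSpace X] [BorelSpace X]
  {μ : Measure X} {D : DS μ} {κ : ℝ} {n : ℕ}

theorem loa_lim {ι : Type} {l : Filter ι} {F : ι → X → ℝ} {g ψ : X → ℝ}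
    (hF : ∀ᶠ i in l, Integrable (F i) μ) (hg : Integrable g μ) (hm : AEStronglyMeasurable ψ μ)
    (hψ : Bdd μ ψ) (h : Tendsto (fun i => ∫ x, |F i x - g x| ∂μ) l (𝓝 0)) :
    Tendsto (fun i => ∫ x, ψ x * F i x ∂μ) l (𝓝 (∫ x, ψ x * g x ∂μ)) := by
  obtain ⟨C, -, hC⟩ := hψ.nonneg
  rw [tendsto_iff_norm_sub_tendsto_zero]
  refine squeeze_zero' (Eventually.of_forall fun _ => norm_nonneg _) (hF.mono fun i hi => ?_)
    (by simpa using h.const_mul C)
  rw [← integral_sub (hψ.mul_integrable hm hi) (hψ.mul_integrable hm hg), ← integral_const_mul]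
  refine norm_integral_le_of_norm_le ((hi.sub hg).abs.const_mul C) (hC.mono fun x hx => ?_)
  rw [← mul_sub, Real.norm_eq_abs, abs_mul]
  exact mul_le_mul_of_nonneg_right hx (abs_nonneg _)

theorem lo_exp (k : ℕ) {u : ℝ} (hu : 0 < u) : Real.exp (-u) ≤ k.factorial / u ^ k := by
  have := Real.pow_div_factorial_le_exp u hu.le k
  rw [Real.exp_neg, inv_eq_one_div, div_le_div_iff₀ (Real.exp_pos u) (by positivity)]
  rw [div_le_iff₀ (by positivity)] at this
  linarith

theorem lo_bd {g w : X → ℝ} {S : Set X} {Q : ℝ} (hS : MeasurableSet S) (hw : IntegrableOn w S μ)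
    (h : ∀ᵐ y ∂μ, |g y| ≤ Q ∧ (y ∉ S → g y = 0)) (h0 : ∀ᵐ y ∂μ, y ∈ S → 0 ≤ w y) :
    |∫ y, g y * w y ∂μ| ≤ Q * ∫ y in S, w y ∂μ := by
  rw [← integral_indicator hS, ← integral_const_mul, ← Real.norm_eq_abs]
  refine norm_integral_le_of_norm_le (((integrable_indicator_iff hS).2 hw).const_mul Q) ?_
  filter_upwards [h, h0] with y h1 h2
  by_cases hy : y ∈ S
  · rw [indicator_of_mem hy, Real.norm_eq_abs, abs_mul, abs_of_nonneg (h2 hy)]
    exact mul_le_mul_of_nonneg_right h1.1 (h2 hy)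
  · simp [h1.2 hy, hy]

end RC
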