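import Pool.Agent.P.MP_6472e5_gt.Lo0
import Pool.Agent.P.MP_6472e5_gt.TbA

/-! Local forms of the Bochner and Kato inequalities. -/

set_option autoImplicit false
set_option linter.unusedSectionVars false

noncomputable section

namespace RC

open MeasureTheory Set Filter Topology Metric

variable {X : Type} [MetricSpace X] [ProperSpace X] [MeasurableSpace X] [BorelSpace X]
  {μ : Measure X} {D : DS μ} {κ : ℝ} {n : ℕ}

theorem loa_exp {g Lg v φ : X → ℝ} (hg : g ∈ D.V) (hl : D.Lap g Lg) (h2 : MemLp Lg 2 μ)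
    (hv : v ∈ D.V) (hφ : LipB φ) (he : ∀ᵐ x ∂μ, φ x ≠ 0 → Lg x = v x) :
    ∫ x, φ x * (v x ^ 2 / n + D.G g v x - κ * D.G g g x) ∂μ =
      (1 / n - 1) * ∫ x, φ x * (Lg x * Lg x) ∂μ - ∫ x, 1 * (Lg x * D.G g φ x) ∂μ -
        κ * ∫ x, φ x * D.G g g x ∂μ := by
  have wg := D.W_of_mem hg
  have wφ := D.W_of_mem (D.lip φ hφ)
  have m := D.mul_mem_lipB hφ hv
  have i1 : Integrable (fun x => φ x * (Lg x * Lg x)) μ :=
    hφ.bdd.mul_integrable hφ.continuous.aestronglyMeasurable (integrable_mul_of_memLp h2 h2)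
  have i2 : Integrable (fun x => 1 * (Lg x * D.G g φ x)) μ :=
    (integrable_mul_of_memLp h2 (DS.G_memLp hg wφ hφ.bddG)).const_mul 1
  have i3 := DS.G_mul_int wg wg hφ
  have e1 : ∫ x, Lg x * (φ * v) x ∂μ = ∫ x, φ x * (Lg x * Lg x) ∂μ :=
    integral_congr_ae (he.mono fun x hx => by
      by_cases h : φ x = 0
      · simp [h]
      · simp only [Pi.mul_apply, hx h]
        ring)
  have e2 := hl.test hg h2 m
  rw [e1] at e2
  have e3 : ∫ x, φ x * (v x ^ 2 / n + D.G g v x - κ * D.G g g x) ∂μ =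
      ∫ x, 1 / n * (φ x * (Lg x * Lg x)) + D.G g (φ * v) x - 1 * (Lg x * D.G g φ x) -
        κ * (φ x * D.G g g x) ∂μ := by
    refine integral_congr_ae ?_
    filter_upwards [he, DS.G_mul_right wφ (D.W_of_mem hv) (D.W_of_mem m) wg,
      DS.G_level wφ wg 0, DS.G_symm wφ wg] with x h1 h2 h3 h4
    rw [h2]
    by_cases h : φ x = 0
    · simp [h, ← h4, h3 h]
    · rw [h1 h]
      ring
  have i4 := (i1.const_mul (1 / n)).fun_add (DS.G_int hg m)
  rw [e3, integral_sub (i4.sub' i2) (i3.const_mul κ), integral_sub i4 i2,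
    integral_add (i1.const_mul _) (DS.G_int hg m), integral_const_mul, integral_const_mul κ, e2]
  ring

theorem RS.locbe (h : RS D κ n) {f w Lf φ Lφ : X → ℝ} {U : Set X} (hf : f ∈ D.V) (hw : w ∈ D.V)
    (hl : D.Lap f Lf) (h2 : MemLp Lf 2 μ) (he : ∀ᵐ x ∂μ, x ∈ U → Lf x = w x)
    (hφ : D.TF U φ Lφ) :
    ∫ x, φ x * (w x ^ 2 / n + D.G f w x - κ * D.G f f x) ∂μ ≤
      1 / 2 * ∫ x, Lφ x * D.G f f x ∂μ := by
  have F := h.flow
  have f2 := D.memLp f hf
  have wφ := D.W_of_mem hφ.mem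
  have mφ := hφ.lip.continuous.aestronglyMeasurable (μ := μ)
  have ev : ∀ᶠ t in 𝓝[>] (0 : ℝ), 0 < t := self_mem_nhdsWithin
  have hP := ev.mono fun t ht => ((F.heat f f2).1 t ht).1
  have hL := ev.mono fun t ht => D.memLp _ (F.L_mem f t f2 ht)
  have t1 : Tendsto (fun t => n2 μ (D.L t f - Lf)) (𝓝[>] 0) (𝓝 0) :=
    (F.heat Lf h2).2.congr' (ev.mono fun t ht =>
      n2_congr ((F.comm f hf Lf t hl h2 ht).symm.sub EventuallyEq.rfl))
  have t2 := DS.G_tendsto hP hP hf hf (F.E_zero f hf) (F.E_zero f hf)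
  have t3 : Tendsto (fun t => n2 μ (D.G (D.P t f) φ - D.G f φ)) (𝓝[>] 0) (𝓝 0) := by
    obtain ⟨C, -, hC⟩ := (hφ.lip.bddG (D := D)).nonneg
    refine squeeze_zero' (Eventually.of_forall fun _ => n2_nonneg _) (hP.mono fun t ht => ?_)
      (by simpa using (F.E_zero f hf).const_mul C)
    have m := D.sub_mem ht hf
    rw [DS.E, ← integral_const_mul]
    refine integral_mono_of_nonneg (Eventually.of_forall fun _ => sq_nonneg _)
      ((DS.G_int m m).const_mul C) ?_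
    filter_upwards [hC, DS.G_sub (D.W_of_mem ht) (D.W_of_mem hf) wφ, DS.G_cs (D.W_of_mem m) wφ,
      DS.G_nonneg (D.W_of_mem m)] with x h1 h2 h3 h4
    rw [Pi.sub_apply, ← h2, mul_comm]
    exact h3.trans (mul_le_mul_of_nonneg_left (le_of_abs_le h1) h4)
  have hG := hP.mono fun t ht => DS.G_memLp ht wφ hφ.lip.bddG
  have g2 := DS.G_memLp hf wφ hφ.lip.bddG
  have hI := hP.mono fun t ht => DS.G_int ht ht
  rw [loa_exp hf hl h2 hw hφ.lip (he.mono fun x hx h0 => hx (hφ.supp (subset_tsupport _ h0)))]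
  refine le_of_tendsto_of_tendsto (((loa_lim (hL.mono fun t ht => integrable_mul_of_memLp ht ht)
    (integrable_mul_of_memLp h2 h2) mφ hφ.lip.bdd (tendsto_integral_mul hL hL h2 h2 t1 t1)).const_mul
    _).sub (loa_lim ((hL.and hG).mono fun t ht => integrable_mul_of_memLp ht.1 ht.2)
    (integrable_mul_of_memLp h2 g2) aestronglyMeasurable_const (Bdd.const 1)
    (tendsto_integral_mul hL hG h2 g2 t1 t3)) |>.sub
    ((loa_lim hI (DS.G_int hf hf) mφ hφ.lip.bdd t2).const_mul κ))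
    ((loa_lim hI (DS.G_int hf hf) hφ.lap.aesm hφ.bddL t2).const_mul _) (ev.mono fun t ht => ?_)
  obtain ⟨a1, a2, -⟩ := (F.heat f f2).1 t ht
  have a3 := F.L_mem f t f2 ht
  have := h.be _ a1 _ a3 φ hφ.mem Lφ a2 hφ.lap hφ.L_memLp.1 (Eventually.of_forall hφ.nonneg)
    hφ.lip.bdd hφ.bddL
  rwa [loa_exp a1 a2 (D.memLp _ a3) a3 hφ.lip (Eventually.of_forall fun _ _ => rfl)] at this

/-- Off-diagonal decay of the localised energy. -/
theorem HP.loa_off (h : HP D κ n) {z φ : X → ℝ} {U : Set X} (hz : MemLp z 2 μ) (hU : IsOpen U)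
    (h0 : ∀ᵐ x ∂μ, x ∈ U → z x = 0) (hφ : LipB φ) (hs : tsupport φ ⊆ U) (hn : ∀ x, 0 ≤ φ x) :
    Tendsto (fun t => ∫ x, φ x * D.G (D.P t z) (D.P t z) x ∂μ) (𝓝[>] 0) (𝓝 0) := by
  have hK : IsCompact (tsupport φ) :=
    isCompact_of_isClosed_isBounded (isClosed_tsupport φ) hφ.2.closure
  obtain ⟨δ, hδ, hδU⟩ := hK.exists_thickening_subset_open hU hs
  obtain ⟨C, hC, hoff⟩ := h.pk_off
  obtain ⟨M, hM⟩ := hφ.bound
  have hκ := h.κ_nonneg
  have mφ := hφ.continuous.aestronglyMeasurable (μ := μ)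
  have φ2 := D.lipB_memLp hφ
  have e1 : ∀ᶠ t in 𝓝[>] (0 : ℝ), κ * t ≤ 1 := mem_nhdsWithin_of_mem_nhds
    ((Continuous.tendsto' (f := fun t : ℝ => κ * t) (by fun_prop) 0 0 (by simp)).eventually
      (ge_mem_nhds one_pos))
  have hl : Tendsto (fun t : ℝ => Real.exp 2 * (C * M * (C ^ 2 / δ ^ 4) * n2 μ z) * t) (𝓝[>] 0)
      (𝓝 0) := tendsto_nhdsWithin_of_tendsto_nhds (Continuous.tendsto' (by fun_prop) _ _ (by simp))
  have ev : ∀ᶠ t in 𝓝[>] (0 : ℝ), 0 < t := self_mem_nhdsWithin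
  have hI : ∀ t, 0 < t → 0 ≤ ∫ x, φ x * D.G (D.P t z) (D.P t z) x ∂μ := fun t ht =>
    integral_nonneg_of_ae ((DS.G_nonneg (D.W_of_mem ((h.flow.heat z hz).1 t ht).1)).mono
      fun x hx => mul_nonneg (hn x) hx)
  refine squeeze_zero' (ev.mono hI) ((ev.and e1).mono fun t ⟨ht, ht1⟩ => ?_) hl
  have a1 := h.rp z φ t hz φ2 hφ.bdd (Eventually.of_forall hn) ht
  have a2 : 0 ≤ ∫ x, φ x * D.P t z x ^ 2 ∂μ :=
    integral_nonneg fun x => mul_nonneg (hn x) (sq_nonneg _)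
  have a3 : ∫ x, D.P t φ x * z x ^ 2 ∂μ ≤ C * M * (2 * (C ^ 2 / δ ^ 4) * t ^ 2) * n2 μ z := by
    rw [n2, ← integral_const_mul]
    refine integral_mono_of_nonneg ?_ (hz.integrable_sq.const_mul _) ?_
    · filter_upwards [h.flow.pos φ t φ2 (Eventually.of_forall hn)] with x hx
      exact mul_nonneg hx (sq_nonneg _)
    filter_upwards [h0, h.P_rep φ2 ht] with x h1 h2
    by_cases hx : x ∈ U
    · simp [h1 hx]
    refine mul_le_mul_of_nonneg_right ?_ (sq_nonneg _)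
    have b1 := hoff φ M √t δ x mφ (Eventually.of_forall hM) hδ.le
      (Eventually.of_forall fun y hy => by_contra fun hy' => hx (hδU
        (mem_thickening_iff.2 ⟨y, subset_tsupport _ hy', mem_ball'.1 hy⟩))) (by positivity)
      (by rwa [Real.sq_sqrt ht.le])
    rw [Real.sq_sqrt ht.le] at b1
    refine (h2 ▸ le_of_abs_le b1).trans (mul_le_mul_of_nonneg_left
      ((lo_exp 2 (by positivity)).trans_eq ?_) (mul_nonneg hC.le ((abs_nonneg _).trans (hM x))))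
    simp only [Nat.factorial]
    push_cast
    field_simp
  have a4 : 1 ≤ Real.exp 2 * Real.exp (-(2 * κ * t)) := by
    rw [← Real.exp_add]
    exact Real.one_le_exp (by linarith)
  have a6 := hI t ht
  set I := ∫ x, φ x * D.G (D.P t z) (D.P t z) x ∂μ
  have a5 : Real.exp (-(2 * κ * t)) * I ≤ C * M * (C ^ 2 / δ ^ 4) * n2 μ z * t :=
    le_of_mul_le_mul_left (by linarith) (show 0 < 2 * t by positivity)
  nlinarith [mul_le_mul_of_nonneg_left a5 (Real.exp_pos 2).le]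

theorem loa_sq {a b ε : ℝ} (ha : 0 ≤ a) (hb : 0 ≤ b) (hε : 0 < ε) :
    |√(a + ε ^ 2) - √(b + ε ^ 2)| ≤ |√a - √b| ∧ |√(a + ε ^ 2) - √(b + ε ^ 2)| ≤ ε⁻¹ * |a - b| := by
  have h1 : ε ≤ √(a + ε ^ 2) := Real.le_sqrt_of_sq_le (by linarith)
  have h2 : ε ≤ √(b + ε ^ 2) := Real.le_sqrt_of_sq_le (by linarith)
  have h3 : √a ≤ √(a + ε ^ 2) := Real.sqrt_le_sqrt (by nlinarith)
  have h4 : √b ≤ √(b + ε ^ 2) := Real.sqrt_le_sqrt (by nlinarith)
  have e1 : |√(a + ε ^ 2) - √(b + ε ^ 2)| * (√(a + ε ^ 2) + √(b + ε ^ 2)) = |a - b| := by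
    rw [← abs_of_nonneg (show 0 ≤ √(a + ε ^ 2) + √(b + ε ^ 2) by positivity), ← abs_mul]
    congr 1
    nlinarith [Real.sq_sqrt (show 0 ≤ a + ε ^ 2 by positivity),
      Real.sq_sqrt (show 0 ≤ b + ε ^ 2 by positivity)]
  have e2 : |√a - √b| * (√a + √b) = |a - b| := by
    rw [← abs_of_nonneg (show 0 ≤ √a + √b by positivity), ← abs_mul]
    congr 1
    nlinarith [Real.sq_sqrt ha, Real.sq_sqrt hb]
  constructor
  · refine le_of_mul_le_mul_right ?_ (show 0 < √(a + ε ^ 2) + √(b + ε ^ 2) by linarith)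
    rw [e1, ← e2]
    gcongr
  · rw [← e1, le_inv_mul_iff₀ hε, mul_comm]
    gcongr
    linarith

theorem loa_S {f : X → ℝ} (hf : f ∈ D.V) {ε : ℝ} (hε : 0 < ε) :
    Integrable (fun x => √(D.G f f x + ε ^ 2) - ε) μ ∧ ∀ g, Integrable g μ →
      Integrable (fun x => g x / √(D.G f f x + ε ^ 2)) μ := by
  have w := D.W_of_mem hf
  have m := (DS.G_aesm w w).aemeasurable
  refine ⟨((DS.G_int hf hf).const_mul ε⁻¹).mono' (by fun_prop) ((DS.G_nonneg w).mono fun x hx => ?_),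
    fun g hg => (hg.norm.const_mul ε⁻¹).mono' ((hg.1.aemeasurable.div (by fun_prop)).aestronglyMeasurable)
      ((DS.G_nonneg w).mono fun x hx => ?_)⟩
  · simpa [Real.sqrt_sq hε.le, abs_of_nonneg hx] using (loa_sq hx le_rfl hε).2
  · rw [norm_div, inv_mul_eq_div, Real.norm_of_nonneg (Real.sqrt_nonneg _)]
    exact div_le_div_of_nonneg_left (norm_nonneg _) hε (Real.le_sqrt_of_sq_le (by linarith))

theorem loa_quot {u v f g : X → ℝ} (hu : u ∈ D.V) (hv : v ∈ D.V) (hf : f ∈ D.V) (hg : g ∈ D.V)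
    {ε : ℝ} (hε : 0 < ε) :
    ∫ x, |D.G u v x / √(D.G u u x + ε ^ 2) - D.G f g x / √(D.G f f x + ε ^ 2)| ∂μ ≤
      ε⁻¹ * (∫ x, |D.G u v x - D.G f g x| ∂μ + √(D.E (u - f)) * √(D.E g)) := by
  have m := D.sub_mem hu hf
  have wu := D.W_of_mem hu
  have wf := D.W_of_mem hf
  have wg := D.W_of_mem hg
  have e : ∀ k ∈ D.V, n2 μ (fun x => √(D.G k k x)) = D.E k := fun k hk =>
    integral_congr_ae ((DS.G_nonneg (D.W_of_mem hk)).mono fun x hx => Real.sq_sqrt hx)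
  have a1 := integral_abs_mul_le (DS.sqrt_G_memLp m) (DS.sqrt_G_memLp hg)
  rw [e _ m, e _ hg] at a1
  have i1 := ((DS.G_int hu hv).sub' (DS.G_int hf hg)).abs
  have i2 := (integrable_mul_of_memLp (DS.sqrt_G_memLp m) (DS.sqrt_G_memLp hg)).abs
  refine le_trans ?_ (mul_le_mul_of_nonneg_left (add_le_add_right a1 _) (by positivity))
  rw [← integral_add i1 i2, ← integral_const_mul]
  refine integral_mono_of_nonneg (Eventually.of_forall fun _ => abs_nonneg _)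
    ((i1.fun_add i2).const_mul _) ?_
  filter_upwards [DS.G_nonneg wu, DS.G_nonneg wf, DS.G_sub_sub wu wf, DS.G_abs_le wu wf,
    DS.G_abs_le wf wg] with x h1 h2 h3 h4 h5
  have b1 : |√(D.G u u x) - √(D.G f f x)| ≤ √(D.G (u - f) (u - f) x) :=
    Real.abs_le_sqrt (by nlinarith [Real.sq_sqrt h1, Real.sq_sqrt h2, le_of_abs_le h4])
  have b2 := (loa_sq h1 h2 hε).1.trans b1
  have b3 : ε ≤ √(D.G u u x + ε ^ 2) := Real.le_sqrt_of_sq_le (by linarith)
  have b4 : √(D.G f f x) ≤ √(D.G f f x + ε ^ 2) := Real.sqrt_le_sqrt (by nlinarith)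
  have b5 : 0 < √(D.G f f x + ε ^ 2) := by positivity
  generalize √(D.G u u x + ε ^ 2) = A at *
  generalize √(D.G f f x + ε ^ 2) = B at *
  have b6 : 0 < A := by linarith
  have b7 : D.G u v x / A - D.G f g x / B =
      A⁻¹ * (D.G u v x - D.G f g x - (A - B) * (D.G f g x / B)) := by
    field_simp
    ring
  rw [b7, abs_mul, abs_of_pos (inv_pos.2 b6), abs_mul (√_), abs_of_nonneg (Real.sqrt_nonneg _),
    abs_of_nonneg (Real.sqrt_nonneg _)]
  refine mul_le_mul (inv_anti₀ hε b3) ((abs_sub _ _).trans (add_le_add_right ?_ _)) (abs_nonneg _)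
    (by positivity)
  rw [abs_mul, abs_div, abs_of_pos b5]
  refine mul_le_mul b2 ((div_le_iff₀ b5).2 (h5.trans ?_)) (by positivity) (by positivity)
  rw [mul_comm]
  gcongr

theorem HP.lockato (h : HP D κ n) {f w Lf φ Lφ : X → ℝ} {U : Set X} {ε : ℝ} (hf : f ∈ D.V)
    (hw : w ∈ D.V) (bf : Bdd μ f) (hl : D.Lap f Lf) (h2 : MemLp Lf 2 μ) (hU : IsOpen U)
    (he : ∀ᵐ x ∂μ, x ∈ U → Lf x = w x) (hφ : D.TF U φ Lφ) (hε : 0 < ε) :
    ∫ x, φ x * ((D.G f w x - κ * D.G f f x) / √(D.G f f x + ε ^ 2)) ∂μ ≤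
      ∫ x, Lφ x * (√(D.G f f x + ε ^ 2) - ε) ∂μ := by
  have F := h.flow
  have f2 := D.memLp f hf
  have mφ := hφ.lip.continuous.aestronglyMeasurable (μ := μ)
  have hg := D.add w hw _ (D.smul (-κ) f hf)
  set g := w + (-κ) • f with hgd
  have g2 := D.memLp g hg
  have z2 := h2.sub (D.memLp w hw)
  have ev : ∀ᶠ t in 𝓝[>] (0 : ℝ), 0 < t := self_mem_nhdsWithin
  have hP := ev.mono fun t ht => ((F.heat f f2).1 t ht).1
  have hQ := ev.mono fun t ht => ((F.heat g g2).1 t ht).1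
  have t1 := DS.G_tendsto hP hP hf hf (F.E_zero f hf) (F.E_zero f hf)
  have t2 := DS.G_tendsto hP hQ hf hg (F.E_zero f hf) (F.E_zero g hg)
  have t3 := h.loa_off z2 hU (he.mono fun x hx hx' => sub_eq_zero.2 (hx hx')) hφ.lip hφ.supp
    hφ.nonneg
  have t4 := loa_lim ((hP.and hQ).mono fun t ht => (loa_S ht.1 hε).2 _ (DS.G_int ht.1 ht.2))
    ((loa_S hf hε).2 _ (DS.G_int hf hg)) mφ hφ.lip.bdd
    (squeeze_zero' (Eventually.of_forall fun _ => integral_nonneg fun _ => abs_nonneg _)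
      ((hP.and hQ).mono fun t ht => loa_quot ht.1 ht.2 hf hg hε) (by
        simpa using (t2.add ((F.E_zero f hf).sqrt.mul_const √(D.E g))).const_mul ε⁻¹))
  have t5 := loa_lim (hP.mono fun t ht => (loa_S ht hε).1) (loa_S hf hε).1 hφ.lap.aesm hφ.bddL
    (squeeze_zero' (g := fun t => ε⁻¹ * ∫ x, |D.G (D.P t f) (D.P t f) x - D.G f f x| ∂μ)
      (Eventually.of_forall fun _ => integral_nonneg fun _ => abs_nonneg _)
      (hP.mono fun t ht => by
        rw [← integral_const_mul]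
        refine integral_mono_of_nonneg (Eventually.of_forall fun _ => abs_nonneg _)
          (((DS.G_int ht ht).sub' (DS.G_int hf hf)).abs.const_mul _) ?_
        filter_upwards [DS.G_nonneg (D.W_of_mem ht), DS.G_nonneg (D.W_of_mem hf)] with x h1 h2
        rw [sub_sub_sub_cancel_right]
        exact (loa_sq h1 h2 hε).2) (by simpa using t1.const_mul ε⁻¹))
  have e0 : ∫ x, φ x * ((D.G f w x - κ * D.G f f x) / √(D.G f f x + ε ^ 2)) ∂μ =
      ∫ x, φ x * (D.G f g x / √(D.G f f x + ε ^ 2)) ∂μ := by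
    refine integral_congr_ae ?_
    filter_upwards [DS.G_add_right (D.W_of_mem hf) (D.W_of_mem hw) ((D.W_of_mem hf).smul (-κ)),
      DS.G_smul_right (-κ) (D.W_of_mem hf) (D.W_of_mem hf)] with x h1 h2
    rw [h1, h2, neg_mul, sub_eq_add_neg]
  have iφ := D.lipB_int hφ.lip
  have φ0 : 0 ≤ ∫ x, φ x ∂μ := integral_nonneg hφ.nonneg
  rw [e0]
  refine le_of_forall_pos_le_add fun δ hδ => ?_
  set η := δ / (∫ x, φ x ∂μ + 1)
  have hη : 0 < η := by positivity
  have hη' : η * ∫ x, φ x ∂μ ≤ δ := by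
    rw [div_mul_eq_mul_div, div_le_iff₀ (by positivity)]
    nlinarith
  refine le_trans (le_of_tendsto_of_tendsto t4 ((t5.add_const (η * ∫ x, φ x ∂μ)).add
    (t3.const_mul η⁻¹)) (ev.mono fun t ht => ?_)) (by simpa using hη')
  have tb := h.tb f t f2 bf ht
  have mz := ((F.heat _ z2).1 t ht).1
  have mg := ((F.heat g g2).1 t ht).1
  have wz := D.W_of_mem mz
  have k := h.toR1.kato hφ.mem hφ.lip.bdd (Eventually.of_forall hφ.nonneg) tb hε
  have mS : (fun y => √(D.G (D.P t f) (D.P t f) y + ε ^ 2) - ε) ∈ D.V := by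
    refine D.congr _ (D.comp_mem (h.sav _ _ tb) (Φ := fun s => √(max s 0 + ε ^ 2) - ε)
      (L := ⟨ε⁻¹, by positivity⟩) (LipschitzWith.of_dist_le_mul fun a b => ?_)
      (by simp [Real.sqrt_sq hε.le])).1 _
      ((DS.G_nonneg tb.W).mono fun x hx => by simp only [max_eq_left hx])
    rw [Real.dist_eq, sub_sub_sub_cancel_right]
    exact (loa_sq (le_max_right _ _) (le_max_right _ _) hε).2.trans
      (mul_le_mul_of_nonneg_left (abs_max_sub_max_le_abs _ _ _) (by positivity))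
  rw [hφ.lap.test hφ.mem hφ.L_memLp.1 mS, neg_neg] at k
  have e1 : D.L t f + (-κ) • D.P t f =ᵐ[μ] D.P t g + D.P t (Lf - w) := by
    have := F.add g _ t g2 z2
    rw [show g + (Lf - w) = Lf + (-κ) • f by rw [hgd]; abel] at this
    filter_upwards [this, F.add Lf _ t h2 (f2.const_smul (-κ)), F.smul (-κ) f t f2,
      F.comm f hf Lf t hl h2 ht] with x h1 h2 h3 h4
    rw [← h1, h2, Pi.add_apply, Pi.add_apply, h3, h4]
  have i1 := hφ.lip.bdd.mul_integrable mφ ((loa_S tb.mem hε).2 _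
    ((DS.G_int tb.mem tb.memL).sub' ((DS.G_int tb.mem tb.mem).const_mul κ)))
  have i2 := (DS.G_mul_int wz wz hφ.lip).const_mul η⁻¹
  refine le_trans ?_ (add_le_add_left (add_le_add_left k _) _)
  rw [← integral_const_mul, ← integral_const_mul, ← integral_add i1 (iφ.const_mul _),
    ← integral_add (i1.fun_add (iφ.const_mul _)) i2]
  refine integral_mono_ae (hφ.lip.bdd.mul_integrable mφ ((loa_S tb.mem hε).2 _
    (DS.G_int tb.mem mg))) ((i1.fun_add (iφ.const_mul _)).fun_add i2) ?_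
  filter_upwards [DS.G_congr tb.W (tb.WL.add (tb.W.smul (-κ))) EventuallyEq.rfl e1,
    DS.G_add_right tb.W tb.WL (tb.W.smul (-κ)), DS.G_smul_right (-κ) tb.W tb.W,
    DS.G_add_right tb.W (D.W_of_mem mg) wz, DS.G_abs_le tb.W wz, DS.G_nonneg wz,
    DS.G_nonneg tb.W] with x h1 h2 h3 h4 h5 h6 h7
  have b1 : D.G (D.P t f) (D.L t f) x - κ * D.G (D.P t f) (D.P t f) x =
      D.G (D.P t f) (D.P t g) x + D.G (D.P t f) (D.P t (Lf - w)) x := by linarith
  have b4 : √(D.G (D.P t f) (D.P t f) x) ≤ √(D.G (D.P t f) (D.P t f) x + ε ^ 2) :=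
    Real.sqrt_le_sqrt (by nlinarith)
  have b5 : 0 < √(D.G (D.P t f) (D.P t f) x + ε ^ 2) := by positivity
  set c := D.G (D.P t (Lf - w)) (D.P t (Lf - w)) x
  have b2 : √c ≤ η + η⁻¹ * c := by
    have : c = √c ^ 2 := (Real.sq_sqrt h6).symm
    rw [← mul_le_mul_iff_right₀ hη, mul_add, mul_inv_cancel_left₀ hη.ne']
    nlinarith [sq_nonneg (η - √c), mul_pos hη hη]
  have b3 : -(D.G (D.P t f) (D.P t (Lf - w)) x / √(D.G (D.P t f) (D.P t f) x + ε ^ 2)) ≤ √c := by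
    rw [← neg_div, div_le_iff₀ b5, mul_comm]
    exact (neg_le_abs _).trans (h5.trans (by gcongr))
  rw [b1, add_div]
  nlinarith [mul_le_mul_of_nonneg_left (b3.trans b2) (hφ.nonneg x)]

end RC
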