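import Pool.Agent.P.MP_6472e5_gt.Lo0

/-! Test functions built from the backward heat flow. -/

set_option autoImplicit false
set_option linter.unusedSectionVars false

noncomputable section

namespace RC

open MeasureTheory Set Filter Topology Metric

variable {X : Type} [MetricSpace X] [ProperSpace X] [MeasurableSpace X] [BorelSpace X]
  {μ : Measure X} {D : DS μ} {κ : ℝ} {n : ℕ}

namespace HP

variable (h : HP D κ n)
include h

theorem lob_der {ψ : X → ℝ} (hm : AEStronglyMeasurable ψ μ) (hψ : Bdd μ ψ) {v : ℝ → X → ℝ}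
    {z : X → ℝ} {s t : ℝ} (hs : s < t) (hv : DerL1 μ v z s) :
    HasDerivAt (fun s => ∫ y, D.Pk (t - s) ψ y * v s y ∂μ)
      (∫ y, D.Pk (t - s) ψ y * z y ∂μ - ∫ y, D.Lk (t - s) ψ y * v s y ∂μ) s := by
  have := (h.pk_derW hm hψ (sub_pos.2 hs)).rev.hasDerivAt_mul hv
  simp only [Pi.neg_apply, neg_mul, integral_neg] at this
  rwa [neg_add_eq_sub] at this

theorem lob_lim {ψ : X → ℝ} (hm : AEStronglyMeasurable ψ μ) (hψ : Bdd μ ψ) {v : ℝ → X → ℝ}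
    {z : X → ℝ} {t : ℝ} (hv : DerL1 μ v z t) :
    Tendsto (fun s => ∫ y, D.Pk (t - s) ψ y * v s y ∂μ) (𝓝[<] t) (𝓝 (∫ y, ψ y * v t y ∂μ)) := by
  have t1 : Tendsto (fun τ : ℝ => t - τ) (𝓝[>] 0) (𝓝 t) :=
    tendsto_nhdsWithin_of_tendsto_nhds (Continuous.tendsto' (by fun_prop) _ _ (by simp))
  have t2 : Tendsto (fun s : ℝ => t - s) (𝓝[<] t) (𝓝[>] 0) :=
    tendsto_nhdsWithin_iff.2 ⟨tendsto_nhdsWithin_of_tendsto_nhds
      (Continuous.tendsto' (by fun_prop) _ _ (by simp)),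
      eventually_mem_nhdsWithin.mono fun s hs => mem_Ioi.2 (sub_pos.2 hs)⟩
  simpa [Function.comp_def] using (h.pk_zero_weak hm hψ (w := fun τ => v (t - τ))
    (t1.eventually hv.1) hv.1.self_of_nhds (hv.cont.comp t1)).comp t2

theorem lob_mass {ψ ζ : X → ℝ} (hψ : Integrable ψ μ) (h0 : ∀ y, 0 ≤ ψ y) (hζ : LipB ζ)
    (h1 : ∀ y, |ζ y| ≤ 1) {τ : ℝ} (hτ : 0 < τ) : ∫ y, ζ y * D.Pk τ ψ y ∂μ ≤ ∫ y, ψ y ∂μ := by
  have m := hζ.continuous.aestronglyMeasurable (μ := μ)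
  have b := (h.pk_bdd ζ τ 1 m (Eventually.of_forall h1) hτ).1
  rw [← h.pk_symm m hζ.bdd hψ hτ]
  exact integral_mono (Bdd.mul_integrable ⟨1, Eventually.of_forall b⟩
    (h.pk_cont m hζ.bdd hτ).aestronglyMeasurable hψ) hψ fun y =>
      mul_le_of_le_one_left (h0 y) (le_of_abs_le (b y))

theorem lob_err (h0 : N0 D n) (x₀ : X) (R : ℝ) : ∃ C r₀, 0 < C ∧ 0 < r₀ ∧ ∀ x ∈ ball x₀ R,
    ∀ ρ σ : ℝ, ρ ≤ 1 → 0 < σ → σ ≤ r₀ → ∃ ζ Lζ, D.TF (ball x (ρ + 2 * σ)) ζ Lζ ∧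
      (∀ y, ζ y ≤ 1) ∧ (∀ y ∈ ball x ρ, ζ y = 1) ∧ ∀ ψ : X → ℝ, LipB ψ → (∀ y, 0 ≤ ψ y) →
      (∀ y, y ∉ ball x ρ → ψ y = 0) → ∀ τ, 0 < τ → τ ≤ (8 * σ) ^ 2 → ∃ e : X → ℝ,
        D.TF (ball x (ρ + 2 * σ)) (ζ * D.Pk τ ψ) (fun y => ζ y * D.Lk τ ψ y + e y) ∧
        AEStronglyMeasurable e μ ∧ ∀ᵐ y ∂μ, |e y| ≤ C * (∫ y, ψ y ∂μ) / σ ^ (n + 2) ∧
          (y ∉ ball x (ρ + 2 * σ) → e y = 0) := by
  obtain ⟨C, r₁, hC, hr₁, hoff⟩ := h.pk_off' h0 x₀ (R + 1)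
  obtain ⟨C', hC', hcut⟩ := h.cut
  obtain ⟨r₂, hr₂, -, hκ⟩ := h.exists_scale
  set B : ℝ := (n + 1).factorial * (4 * C) ^ (n + 1) * 8 ^ (n + 1)
  refine ⟨10 * C * C' * B, min (r₁ / 8) r₂, by positivity, by positivity,
    fun x hx ρ σ hρ hσ hσ₀ => ?_⟩
  obtain ⟨ζ, Lζ, -, tf, z1, z2, z3, z4⟩ := hcut (ball x ρ) σ isBounded_ball hσ
    (hκ σ hσ.le (hσ₀.trans (min_le_right _ _)))
  have tf' : D.TF (ball x (ρ + 2 * σ)) ζ Lζ := tf.mono fun y hy => by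
    obtain ⟨z, hz, hd⟩ := mem_thickening_iff.1 hy
    rw [mem_ball] at hz ⊢
    linarith [dist_triangle y z x]
  refine ⟨ζ, Lζ, tf', z1, fun y hy => z2 y (self_subset_thickening hσ _ hy),
    fun ψ hψ ψ0 ψ1 τ hτ hτ' => ?_⟩
  obtain ⟨M, hM⟩ := hψ.bound
  have mψ := hψ.continuous.aestronglyMeasurable (μ := μ)
  obtain ⟨-, p2, p3, p4, p5⟩ := h.pk_bdd ψ τ M mψ (Eventually.of_forall hM) hτ
  have wζ := tf.lap.1
  refine ⟨fun y => D.Pk τ ψ y * Lζ y + 2 * D.G ζ (D.Pk τ ψ) y, ?_,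
    ((h.pk_cont mψ hψ.bdd hτ).aestronglyMeasurable.mul tf.lap.aesm).add
      ((DS.G_aesm wζ p3.1).const_mul 2), ?_⟩
  · simp only [← add_assoc]
    refine (tf'.mul p3 (fun y r => ⟨(Real.exp (κ * τ) * M / √(2 * τ)).toNNReal,
      (LipschitzWith.of_dist_le' p2).lipschitzOnWith⟩)
      (h.pk_nonneg (Eventually.of_forall ψ0) hτ)
      (Bdd.locBdd ⟨_, Eventually.of_forall p5⟩)).mono inter_subset_left
  obtain ⟨q, hq, rfl⟩ : ∃ q, 0 < q ∧ τ = q ^ 2 := ⟨√τ, by positivity, (Real.sq_sqrt hτ.le).symm⟩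
  have hq8 : q ≤ 8 * σ := by nlinarith
  have ho := hoff ψ (ball x ρ) q (σ / 2) (D.lipB_int hψ)
    (ball_subset_ball' (by linarith [mem_ball.1 hx])) (Eventually.of_forall ψ1) hq
    (by linarith [hσ₀.trans (min_le_left _ _)]) (by positivity)
  simp only [fun y => abs_of_nonneg (ψ0 y)] at ho
  have hm : 0 ≤ ∫ y, ψ y ∂μ := integral_nonneg ψ0
  set m := ∫ y, ψ y ∂μ
  set E := Real.exp (-((σ / 2) ^ 2 / (C * q ^ 2))) / q ^ (n + 1) with hE
  have E0 : 0 < E := by positivity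
  have E1 : E ≤ B / σ ^ (n + 1) := by
    refine (div_le_div_of_nonneg_right (lo_exp (n + 1) (by positivity)) (by positivity)).trans ?_
    have : (q / σ) ^ (n + 1) ≤ 8 ^ (n + 1) := by
      gcongr
      rwa [div_le_iff₀ hσ]
    calc _ = (n + 1).factorial * (4 * C) ^ (n + 1) * (q / σ) ^ (n + 1) / σ ^ (n + 1) := by
          rw [show (σ / 2) ^ 2 / (C * q ^ 2) = σ * σ / (4 * C * (q * q)) by field_simp; norm_num]
          simp only [div_pow, mul_pow]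
          field_simp
      _ ≤ _ := by
          simp only [B]
          gcongr
  have hO : ∀ y ∈ (cthickening (σ / 2) (ball x ρ))ᶜ, ∀ z ∈ ball x ρ, σ / 2 ≤ dist y z :=
    fun y hy z hz => by_contra fun hd => hy (mem_cthickening_of_dist_le y z _ _ hz (by linarith))
  filter_upwards [DS.G_le_lip p3.1 isClosed_cthickening.isOpen_compl (L := C * m * E)
      (fun y hy y' hy' => le_of_mul_le_mul_left (((ho y (hO y hy)).2 y' (hO y' hy')).trans_eq
        (by rw [hE]; field_simp; ring)) (pow_pos hq n)) (by positivity)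
      (Eventually.of_forall fun _ _ => rfl),
    DS.G_le_lip wζ isOpen_univ (fun y _ y' _ => z3 y y') (by positivity)
      (Eventually.of_forall fun _ _ => rfl), DS.G_abs_le wζ p3.1, DS.G_level wζ p3.1 1,
    DS.G_level wζ p3.1 0, tf.lap.zero_on isOpen_thickening 1 (Eventually.of_forall z2),
    tf'.L_zero] with y a1 a2 a3 a4 a5 a6 a7
  refine ⟨?_, fun hy => ?_⟩
  · by_cases hy : y ∈ cthickening (σ / 2) (ball x ρ)
    · have := cthickening_subset_thickening' hσ (by linarith) _ hy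
      rw [a6 this, a4 (z2 y this)]
      simp only [mul_zero, add_zero, abs_zero]
      positivity
    have b1 : |D.Pk (q ^ 2) ψ y| ≤ C * m * E * (8 * σ) :=
      (le_of_mul_le_mul_left ((ho y (hO y hy)).1.trans_eq (by rw [hE]; field_simp; ring))
        (pow_pos hq n) : _ ≤ C * m * E * q).trans (by gcongr)
    have b2 : |D.G ζ (D.Pk (q ^ 2) ψ) y| ≤ C' / σ * (C * m * E) :=
      a3.trans (mul_le_mul (Real.sqrt_le_iff.2 ⟨by positivity, a2 trivial⟩)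
        (Real.sqrt_le_iff.2 ⟨by positivity, a1 hy⟩) (by positivity) (by positivity))
    calc _ ≤ C * m * E * (8 * σ) * (C' / σ ^ 2) + 2 * (C' / σ * (C * m * E)) := by
          refine (abs_add_le _ _).trans ?_
          rw [abs_mul, abs_mul, abs_two]
          gcongr
          exact z4 y
      _ = 10 * C * C' * m / σ * E := by field_simp; ring
      _ ≤ 10 * C * C' * m / σ * (B / σ ^ (n + 1)) := by gcongr
      _ = _ := by field_simp; ring
  · have : y ∉ tsupport ζ := fun k => hy (tf'.supp k)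
    rw [a7 this, a5 (image_eq_zero_of_notMem_tsupport this)]
    simp

end HP

end RC
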