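import Pool.Agent.P.MP_6472e5_gt.LoB

/-! The parabolic mean value inequality. -/

set_option autoImplicit false
set_option linter.unusedSectionVars false

noncomputable section

namespace RC

open MeasureTheory Set Filter Topology Metric

variable {X : Type} [MetricSpace X] [ProperSpace X] [MeasurableSpace X] [BorelSpace X]
  {μ : Measure X} {D : DS μ} {κ : ℝ} {n : ℕ}

theorem loc_prim {W : ℝ → ℝ} {a b : ℝ} (hab : a ≤ b) (hW : ContinuousOn W (Icc a b))
    (h0 : ∀ s ∈ Icc a b, 0 ≤ W s) : ∃ F : ℝ → ℝ, Continuous F ∧ F a = 0 ∧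
      F b = ∫ s in a..b, W s ∧ Monotone F ∧ ∀ s ∈ Icc a b, HasDerivAt F (W s) s := by
  have hc : Continuous (IccExtend hab ((Icc a b).domRestrict W)) :=
    (continuousOn_iff_continuous_domRestrict.1 hW).Icc_extend'
  have hd := fun s => (hc.integral_hasStrictDerivAt a s).hasDerivAt
  refine ⟨_, continuous_iff_continuousAt.2 fun s => (hd s).continuousAt, by simp,
    intervalIntegral.integral_congr fun s hs => IccExtend_of_mem _ _ (uIcc_of_le hab ▸ hs),
    monotone_of_deriv_nonneg (fun s => (hd s).differentiableAt) fun s => ?_,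
    fun s hs => (hd s).congr_deriv (IccExtend_of_mem _ _ hs)⟩
  rw [(hd s).deriv]
  exact h0 _ (projIcc a b hab s).2

theorem HP.int (h : HP D κ n) (h0 : N0 D n) (x₀ : X) (R : ℝ) : ∃ C r₀, 0 < C ∧ 0 < r₀ ∧
    ∀ x ∈ ball x₀ R, ∀ r, 0 < r → r ≤ r₀ →
    ∀ (a b M t : ℝ) (w w' : ℝ → X → ℝ), 0 ≤ a → a * r ^ 2 ≤ 1 → 0 ≤ b →
    (∀ s ∈ Icc (t - r ^ 2) t, (∀ᵐ y ∂μ, 0 ≤ w s y) ∧ DerL1 μ w (w' s) s ∧
      ∀ φ Lφ, D.TF (ball x r) φ Lφ → ∫ y, φ y * w' s y ∂μ ≤
        ∫ y, Lφ y * w s y ∂μ + a * ∫ y, φ y * w s y ∂μ + b * ∫ y, φ y ∂μ) →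
    ∫ s in (t - r ^ 2)..t, ∫ y in ball x r, w s y ∂μ ≤ M * r ^ (n + 2) →
    ∀ᵐ y ∂μ, y ∈ ball x (r / 2) → w t y ≤ C * (M + b * r ^ 2) := by
  obtain ⟨C, r₁, hC, hr₁, herr⟩ := h.lob_err h0 x₀ R
  obtain ⟨C', r₂, hC', hr₂, hoff⟩ := h.pk_off' h0 x₀ (R + 1)
  refine ⟨Real.exp 1 * (2 * C' * 2 ^ n + C * 4 ^ (n + 2) + 1), min (min r₁ r₂) 1, by positivity,
    by positivity, fun x hx r hr hr₀ a b M t w w' ha har hb hw hM => ?_⟩
  simp only [le_min_iff] at hr₀
  obtain ⟨ζ, Lζ, tf, z1, z2, hz⟩ := herr x hx (r / 2) (r / 4) (by linarith) (by positivity)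
    (by linarith)
  rw [show r / 2 + 2 * (r / 4) = r by ring] at tf hz
  have r2 : 0 < r ^ 2 := by positivity
  have iw := fun s hs => (hw s hs).2.1.1.self_of_nhds
  obtain ⟨F, Fc, Fa, Fb, Fm, Fd⟩ := loc_prim (W := fun s => ∫ y in ball x r, w s y ∂μ)
    (a := t - r ^ 2) (b := t) (by linarith) (fun s hs => by
      have := ((hw s hs).2.1.bdd_mul (ζ := (ball x r).indicator 1)
        (aestronglyMeasurable_const.indicator measurableSet_ball)
        ⟨1, Eventually.of_forall fun y => by by_cases k : y ∈ ball x r <;> simp [k]⟩).hasDerivAt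
      simp only [← indicator_mul_left, Pi.one_apply, one_mul,
        integral_indicator measurableSet_ball] at this
      exact this.continuousAt.continuousWithinAt)
    fun s hs => integral_nonneg_of_ae (ae_restrict_of_ae (hw s hs).1)
  rw [← Fb] at hM
  obtain ⟨s₀, hs₀, e₀⟩ := exists_hasDerivAt_eq_slope F _ (show t - r ^ 2 < t - r ^ 2 / 2 by linarith)
    Fc.continuousOn fun s hs => Fd s ⟨hs.1.le, by linarith [hs.2]⟩
  have hs₁ : s₀ ∈ Icc (t - r ^ 2) t := ⟨hs₀.1.le, by linarith [hs₀.2]⟩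
  have F0 : 0 ≤ F s₀ := Fa ▸ Fm hs₁.1
  have M0 : 0 ≤ M := nonneg_of_mul_nonneg_left ((F0.trans (Fm hs₁.2)).trans hM) (by positivity)
  have W0 : ∫ y in ball x r, w s₀ y ∂μ ≤ 2 * M * r ^ n := by
    rw [e₀, Fa, div_le_iff₀ (by linarith)]
    have := (Fm (show t - r ^ 2 / 2 ≤ t by linarith)).trans hM
    rw [pow_add] at this
    linarith
  have ht : t ∈ Icc (t - r ^ 2) t := ⟨by linarith, le_rfl⟩
  refine D.ae_le_of_test (locInt_of_int (iw t ht)) (D.locInt_of_locBdd aestronglyMeasurable_const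
    (Bdd.const _).locBdd) isOpen_ball fun ψ hψ ψ1 ψ0 => ?_
  have ψ2 : ∀ y, y ∉ ball x (r / 2) → ψ y = 0 := fun y hy =>
    image_eq_zero_of_notMem_tsupport fun k => hy (ψ1 k)
  have mψ := hψ.continuous.aestronglyMeasurable (μ := μ)
  have mζ := tf.lip.continuous.aestronglyMeasurable (μ := μ)
  have iψ := D.lipB_int hψ
  have z3 : ∀ y, |ζ y| ≤ 1 := fun y => abs_le.2 ⟨by linarith [tf.nonneg y], z1 y⟩
  have m0 : 0 ≤ ∫ y, ψ y ∂μ := integral_nonneg ψ0
  have dv := fun s hs => (hw s hs).2.1.bdd_mul mζ tf.lip.bdd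
  have dB := fun s (hs : s ∈ Icc (t - r ^ 2) t) (hs' : s < t) =>
    (((hasDerivAt_id' s).const_sub t).const_mul a).exp.mul (h.lob_der mψ hψ.bdd hs' (dv s hs))
  have hst : s₀ < t := by linarith [hs₀.2]
  set m := ∫ y, ψ y ∂μ
  set K := C * m / (r / 4) ^ (n + 2) with hK
  have Hc : Continuous fun s => Real.exp 1 * (K * F s + b * m * s) := by fun_prop
  have key := sub_ge_of_deriv' (A' := fun s => Real.exp 1 * (K * (∫ y in ball x r, w s y ∂μ) + b * m))
    hst (Hc.continuousAt.tendsto.mono_left nhdsWithin_le_nhds)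
    (Hc.continuousAt.tendsto.mono_left nhdsWithin_le_nhds)
    ((dB s₀ hs₁ hst).continuousAt.tendsto.mono_left nhdsWithin_le_nhds)
    (((show Continuous fun s => Real.exp (a * (t - s)) by fun_prop).continuousAt.tendsto.mono_left
      nhdsWithin_le_nhds).mul (h.lob_lim mψ hψ.bdd (dv t ht)))
    (fun s hs => by
      simpa using (((Fd s ⟨by linarith [hs.1, hs₁.1], hs.2.le⟩).const_mul K).add
        ((hasDerivAt_id' s).const_mul (b * m))).const_mul (Real.exp 1))
    (fun s hs => dB s ⟨by linarith [hs.1, hs₁.1], hs.2.le⟩ hs.2) fun s hs => by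
      have hs' : s ∈ Icc (t - r ^ 2) t := ⟨by linarith [hs.1, hs₁.1], hs.2.le⟩
      have hτ := sub_pos.2 hs.2
      obtain ⟨e, tφ, me, he⟩ := hz ψ hψ ψ0 ψ2 (t - s) hτ (by linarith [hs'.1])
      have a1 := (hw s hs').2.2 _ _ tφ
      have a2 := le_of_abs_le (lo_bd measurableSet_ball (iw s hs').integrableOn he
        ((hw s hs').1.mono fun y hy _ => hy))
      have a3 := h.lob_mass iψ ψ0 tf.lip z3 hτ
      obtain ⟨Q, hQ⟩ := hψ.bound
      obtain ⟨-, -, -, p4, p5⟩ := h.pk_bdd ψ _ Q mψ (Eventually.of_forall hQ) hτ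
      simp only [Pi.mul_apply, add_mul, mul_left_comm (ζ _), mul_assoc] at a1
      rw [integral_add (Bdd.mul_integrable ⟨_, Eventually.of_forall p5⟩ p4.aestronglyMeasurable
        (dv s hs').1.self_of_nhds) (Bdd.mul_integrable ⟨_, he.mono fun y hy => hy.1⟩ me
        (iw s hs'))] at a1
      have a4 : Real.exp (a * (t - s)) ≤ Real.exp 1 :=
        Real.exp_le_exp.2 ((mul_le_mul_of_nonneg_left (by linarith [hs'.1]) ha).trans har)
      have a5 : 0 ≤ ∫ y in ball x r, w s y ∂μ :=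
        integral_nonneg_of_ae (ae_restrict_of_ae (hw s hs').1)
      refine le_trans ?_ (mul_le_mul_of_nonneg_right a4 (by positivity))
      rw [mul_assoc, ← mul_add]
      refine mul_le_mul_of_nonneg_left ?_ (Real.exp_pos _).le
      linarith [mul_le_mul_of_nonneg_left a3 hb]
  have b1 : ∫ y, D.Pk (t - s₀) ψ y * (ζ y * w s₀ y) ∂μ ≤ 2 * C' * 2 ^ n * M * m := by
    obtain ⟨q, hq, e⟩ : ∃ q, 0 < q ∧ t - s₀ = q ^ 2 :=
      ⟨√(t - s₀), Real.sqrt_pos.2 (by linarith), (Real.sq_sqrt (by linarith)).symm⟩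
    have q1 : r / 2 ≤ q := pow_le_pow_iff_left₀ (by positivity) hq.le two_ne_zero |>.1
      (by linarith [hs₀.2])
    have q2 : q ≤ r := (pow_le_pow_iff_left₀ hq.le hr.le two_ne_zero).1
      (by linarith [hs₀.1])
    simp only [← mul_assoc, e]
    refine (le_of_abs_le (lo_bd (Q := C' * m / (r / 2) ^ n) measurableSet_ball
      (iw s₀ hs₁).integrableOn (Eventually.of_forall fun y => ⟨?_, fun hy => ?_⟩)
      ((hw s₀ hs₁).1.mono fun y hy _ => hy))).trans
      ((mul_le_mul_of_nonneg_left W0 (by positivity)).trans_eq (by rw [div_pow]; field_simp))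
    · have := (hoff ψ (ball x (r / 2)) q 0 iψ (ball_subset_ball' (by linarith [mem_ball.1 hx]))
        (Eventually.of_forall ψ2) hq (by linarith) le_rfl y fun _ _ => dist_nonneg).1
      simp only [fun y => abs_of_nonneg (ψ0 y)] at this
      rw [abs_mul, le_div_iff₀ (by positivity)]
      calc _ ≤ |D.Pk (q ^ 2) ψ y| * 1 * q ^ n := by
            gcongr
            exact z3 y
        _ ≤ _ := by simpa [mul_comm] using this
    · rw [image_eq_zero_of_notMem_tsupport fun k => hy (tf.supp k), mul_zero]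
  have b2 : ∫ y, ψ y * (ζ y * w t y) ∂μ = ∫ y, ψ y * w t y ∂μ :=
    integral_congr_ae (Eventually.of_forall fun y => by
      by_cases hy : y ∈ ball x (r / 2)
      · simp [z2 y hy]
      · simp [ψ2 y hy])
  have b3 : Real.exp (a * (t - s₀)) ≤ Real.exp 1 :=
    Real.exp_le_exp.2 ((mul_le_mul_of_nonneg_left (by linarith [hs₁.1]) ha).trans har)
  have b4 : K * (F t - F s₀) ≤ C * 4 ^ (n + 2) * M * m :=
    (mul_le_mul_of_nonneg_left (show F t - F s₀ ≤ M * r ^ (n + 2) by linarith)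
      (by positivity)).trans_eq (by rw [hK, div_pow]; field_simp)
  have b5 := (mul_le_mul_of_nonneg_left b1 (Real.exp_pos (a * (t - s₀))).le).trans
    (mul_le_mul_of_nonneg_right b3 (by positivity))
  have b6 : b * m * (t - s₀) ≤ b * m * r ^ 2 := by
    gcongr
    linarith [hs₁.1]
  simp only [Pi.mul_apply, sub_self, mul_zero, Real.exp_zero, one_mul, b2] at key
  rw [integral_mul_const]
  have b7 : K * F t + b * m * t - (K * F s₀ + b * m * s₀) + 2 * C' * 2 ^ n * M * m ≤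
      m * ((2 * C' * 2 ^ n + C * 4 ^ (n + 2) + 1) * (M + b * r ^ 2)) := by
    have : 0 ≤ m * M := by positivity
    have : 0 ≤ (2 * C' * 2 ^ n + C * 4 ^ (n + 2)) * (b * m * r ^ 2) := by positivity
    linarith
  linarith [mul_le_mul_of_nonneg_left b7 (Real.exp_pos 1).le]

end RC
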