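import Pool.Agent.P.MP_6472e5_gt.LoB

/-! The alternative for bounded subsolutions. -/

set_option autoImplicit false
set_option linter.unusedSectionVars false

noncomputable section

namespace RC

open MeasureTheory Set Filter Topology Metric

variable {X : Type} [MetricSpace X] [ProperSpace X] [MeasurableSpace X] [BorelSpace X]
  {μ : Measure X} {D : DS μ} {κ : ℝ} {n : ℕ}

theorem lod_bd {F g : X → ℝ} {S : Set X} {Q : ℝ} (hS : MeasurableSet S) (hF : Integrable F μ)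
    (hg : IntegrableOn g S μ) (h : ∀ᵐ y ∂μ, 0 ≤ F y ∧ (y ∈ S → Q * g y ≤ F y)) :
    Q * ∫ y in S, g y ∂μ ≤ ∫ y, F y ∂μ := by
  rw [← integral_const_mul]
  exact (integral_mono_ae (hg.const_mul Q) hF.integrableOn
    ((ae_restrict_iff' hS).2 (h.mono fun y hy => hy.2))).trans
    (setIntegral_le_integral hF (h.mono fun y hy => hy.1))

theorem HP.lod_low (h : HP D κ n) (h0 : N0 D n) : ∃ c, 0 < c ∧ ∀ (x : X) (r τ : ℝ) (ψ : X → ℝ),
    0 < r → r ^ 2 ≤ τ → τ ≤ 2 * r ^ 2 → κ * τ ≤ 1 → Integrable ψ μ → (∀ y, 0 ≤ ψ y) →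
    (∀ y, y ∉ ball x r → ψ y = 0) → ∀ y ∈ ball x r, c * (∫ y, ψ y ∂μ) / r ^ n ≤ D.Pk τ ψ y := by
  obtain ⟨c, hc, h0⟩ := h0
  refine ⟨c * Real.exp (-(n + 2)) / 2 ^ n, by positivity,
    fun x r τ ψ hr h1 h2 h3 iψ ψ0 ψ1 y hy => ?_⟩
  have hτ : 0 < τ := by nlinarith
  rw [mul_div_right_comm, ← integral_const_mul]
  refine integral_mono (iψ.const_mul _) (h.pk_int' iψ hτ y).1 fun z => ?_
  by_cases hz : z ∈ ball x r
  swap
  · simp [ψ1 z hz]
  refine mul_le_mul_of_nonneg_right ?_ (ψ0 z)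
  obtain ⟨q, hq, rfl⟩ : ∃ q, 0 < q ∧ τ = q ^ 2 := ⟨√τ, by positivity, (Real.sq_sqrt hτ.le).symm⟩
  have d : dist y z ^ 2 ≤ (2 * r) ^ 2 := pow_le_pow_left₀ dist_nonneg
    (by linarith [dist_triangle_right y z x, mem_ball.1 hy, mem_ball.1 hz]) 2
  have hκ := h.κ_nonneg
  have a1 : n * κ * q ^ 2 + (1 + κ * q ^ 2) * dist y z ^ 2 / (4 * q ^ 2) ≤ n + 2 := by
    refine add_le_add ?_ ((div_le_iff₀ (by positivity)).2 ?_)
    · rw [mul_assoc]
      exact mul_le_of_le_one_right (by positivity) h3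
    · nlinarith [sq_nonneg (dist y z)]
  rw [div_div, ← mul_pow, div_le_iff₀ (by positivity), mul_comm (D.p _ _ _)]
  refine (mul_le_mul (h0 y) (Real.exp_le_exp.2 (neg_le_neg a1)) (by positivity)
    (hc.le.trans (h0 y))).trans ((h.lower q y z hq).trans ?_)
  have := (h.p_pos _ y z hτ).le
  gcongr
  nlinarith

theorem HP.sup (h : HP D κ n) (h0 : N0 D n) (x₀ : X) (R ε : ℝ) (hε : 0 < ε) :
    ∃ K c r₀, 1 ≤ K ∧ 0 < c ∧ c < 1 ∧ 0 < r₀ ∧
    ∀ x ∈ ball x₀ R, ∀ r, 0 < r → r ≤ r₀ → ∀ (t : ℝ) (w w' γ : ℝ → X → ℝ),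
    (∀ s ∈ Icc (t - 2 * r ^ 2) t, DerL1 μ w (w' s) s ∧ Integrable (γ s) μ ∧
      (∀ᵐ y ∂μ, 0 ≤ γ s y) ∧ (∀ᵐ y ∂μ, y ∈ ball x (K * r) → 0 ≤ w s y ∧ w s y ≤ 1) ∧
      ∀ φ Lφ, D.TF (ball x (K * r)) φ Lφ →
        ∫ y, φ y * w' s y ∂μ + ∫ y, φ y * γ s y ∂μ ≤ ∫ y, Lφ y * w s y ∂μ) →
    (∀ᵐ y ∂μ, y ∈ ball x r → w t y ≤ 1 - c) ∨ ∃ s ∈ Icc (t - 2 * r ^ 2) (t - r ^ 2),
      ∫ y in ball x r, (1 - w s y) ∂μ ≤ ε * r ^ n ∧
        ∫ y in ball x r, γ s y ∂μ ≤ ε * r ^ n / r ^ 2 := by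
  obtain ⟨C, r₁, hC, hr₁, herr⟩ := h.lob_err h0 x₀ R
  obtain ⟨c, hc, hlow⟩ := h.lod_low h0
  obtain ⟨c', C', r₂, -, hC', hr₂, hvol⟩ := h.vol_bds h0 x₀ R
  obtain ⟨r₃, hr₃, hr₃', hκ⟩ := h.exists_scale
  set k := 1 + 4 * (C * C' * 3 ^ n) / (c * ε) with hk
  have k1 : 1 ≤ k := le_add_of_nonneg_right (by positivity)
  refine ⟨1 + 2 * k, min (c * ε / 4) (1 / 2), min (min r₁ r₂ / (3 * k)) (r₃ / 2), by linarith,
    by positivity, (min_le_right _ _).trans_lt (by norm_num), by positivity,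
    fun x hx r hr hr₀ t w w' γ hw => or_iff_not_imp_right.2 fun hn => ?_⟩
  rw [le_min_iff, le_div_iff₀ (by positivity), le_min_iff] at hr₀
  have kr : r ≤ k * r := le_mul_of_one_le_left hr.le k1
  obtain ⟨ζ, Lζ, tf, z1, z2, hz⟩ := herr x hx r (k * r) (by linarith) (by positivity)
    (by linarith)
  rw [show r + 2 * (k * r) = (1 + 2 * k) * r by ring] at tf hz
  have r2 : 0 < r ^ 2 := by positivity
  have iw := fun s hs => (hw s hs).1.1.self_of_nhds
  have ht : t ∈ Icc (t - 2 * r ^ 2) t := ⟨by linarith, le_rfl⟩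
  refine D.ae_le_of_test (locInt_of_int (iw t ht)) (D.locInt_of_locBdd aestronglyMeasurable_const
    (Bdd.const _).locBdd) isOpen_ball fun ψ hψ ψ1 ψ0 => ?_
  have ψ2 : ∀ y, y ∉ ball x r → ψ y = 0 := fun y hy =>
    image_eq_zero_of_notMem_tsupport fun k => hy (ψ1 k)
  have mψ := hψ.continuous.aestronglyMeasurable (μ := μ)
  have mζ := tf.lip.continuous.aestronglyMeasurable (μ := μ)
  have iψ := D.lipB_int hψ
  have iζ := D.lipB_int tf.lip
  have m0 : 0 ≤ ∫ y, ψ y ∂μ := integral_nonneg ψ0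
  have dv := fun s hs => (hw s hs).1.bdd_mul mζ tf.lip.bdd
  have dA := fun s (hs : s ∈ Icc (t - 2 * r ^ 2) t) (hs' : s < t) =>
    (h.lob_der mψ hψ.bdd hs' (derL1_const iζ s)).fun_sub (h.lob_der mψ hψ.bdd hs' (dv s hs))
  have lim := (h.lob_lim mψ hψ.bdd (derL1_const iζ t)).sub (h.lob_lim mψ hψ.bdd (dv t ht))
  have i1 : ∀ s ∈ Icc (t - 2 * r ^ 2) t, ∀ ρ, IntegrableOn (fun y => 1 - w s y) (ball x ρ) μ :=
    fun s hs ρ => (integrableOn_const (D.fin x ρ).ne).sub (iw s hs).integrableOn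
  obtain ⟨Q, hQ⟩ := hψ.bound
  have pb := fun τ hτ => h.pk_bdd ψ τ Q mψ (Eventually.of_forall hQ) hτ
  have ip := fun τ hτ g => Bdd.mul_integrable (μ := μ) (g := g) ⟨_, Eventually.of_forall (pb τ hτ).1⟩
    (h.pk_cont mψ hψ.bdd hτ).aestronglyMeasurable
  have lw : ∀ s ∈ Icc (t - 2 * r ^ 2) (t - r ^ 2), ∀ y ∈ ball x r,
      c * (∫ y, ψ y ∂μ) / r ^ n ≤ D.Pk (t - s) ψ y := fun s hs =>
    hlow x r _ ψ hr (by linarith [hs.2]) (by linarith [hs.1]) ((mul_le_mul_of_nonneg_left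
      (by linarith [hs.1]) h.κ_nonneg).trans (hκ (2 * r) (by positivity) (by linarith))) iψ ψ0 ψ2
  have p0 := fun s (hs : s < t) => h.pk_nonneg (Eventually.of_forall ψ0) (sub_pos.2 hs)
  set m := ∫ y, ψ y ∂μ
  set A := fun s => ∫ y, D.Pk (t - s) ψ y * ζ y ∂μ - ∫ y, D.Pk (t - s) ψ y * (ζ y * w s y) ∂μ
  have hA : ∀ s ∈ Icc (t - 2 * r ^ 2) t, s < t → ∀ q, (∀ y ∈ ball x r, q ≤ D.Pk (t - s) ψ y) →
      q * ∫ y in ball x r, (1 - w s y) ∂μ ≤ A s := fun s hs hs' q hq => by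
    have j1 := ip _ (sub_pos.2 hs') _ iζ
    have j2 := ip _ (sub_pos.2 hs') _ (dv s hs).1.self_of_nhds
    refine (lod_bd measurableSet_ball (j1.sub' j2) (i1 s hs r) ?_).trans_eq (integral_sub j1 j2)
    filter_upwards [(hw s hs).2.2.2.1] with y hy
    refine ⟨?_, fun hy' => ?_⟩
    · by_cases k : y ∈ ball x ((1 + 2 * k) * r)
      · linarith [mul_nonneg (mul_nonneg (p0 s hs' y) (tf.nonneg y)) (sub_nonneg.2 (hy k).2)]
      · simp [image_eq_zero_of_notMem_tsupport fun j => k (tf.supp j)]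
    · rw [z2 y hy']
      linarith [mul_le_mul_of_nonneg_right (hq y hy')
        (sub_nonneg.2 (hy (ball_subset_ball (by linarith) hy')).2)]
  have hD : ∀ s ∈ Icc (t - 2 * r ^ 2) t, s < t → ∀ q, (∀ y ∈ ball x r, q ≤ D.Pk (t - s) ψ y) →
      q * ∫ y in ball x r, γ s y ∂μ - c * ε / 4 * m / r ^ 2 ≤ deriv A s := fun s hs hs' q hq => by
    have hτ := sub_pos.2 hs'
    obtain ⟨e, tφ, me, he⟩ := hz ψ hψ ψ0 ψ2 (t - s) hτ
      (by linarith [hs.1, pow_le_pow_left₀ hr.le kr 2])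
    obtain ⟨-, g1, g2, g3, a1⟩ := hw s hs
    replace a1 := a1 _ _ tφ
    have a2 := neg_le_of_abs_le (lo_bd measurableSet_ball (i1 s hs _) he
      (g3.mono fun y hy k => sub_nonneg.2 (hy k).2))
    have a3 := tφ.L_integral
    obtain ⟨-, -, -, p4, p5⟩ := pb _ hτ
    have il := fun g => Bdd.mul_integrable (μ := μ) (g := g) ⟨_, Eventually.of_forall p5⟩
      p4.aestronglyMeasurable
    have be : Bdd μ e := ⟨_, he.mono fun y hy => hy.1⟩
    have ie := (D.memLp_of_bdd me be (he.mono fun y hy => hy.2)).2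
    have ie' := be.mul_integrable me (iw s hs)
    simp only [Pi.mul_apply, add_mul, mul_left_comm (ζ _), mul_assoc] at a1
    simp only [mul_comm (ζ _)] at a3
    simp only [mul_sub, mul_one] at a2
    rw [integral_add (il _ (dv s hs).1.self_of_nhds) ie'] at a1
    rw [integral_add (il _ iζ) ie] at a3
    rw [integral_sub ie ie'] at a2
    have a4 : q * ∫ y in ball x r, γ s y ∂μ ≤ ∫ y, D.Pk (t - s) ψ y * (ζ y * γ s y) ∂μ := by
      refine lod_bd measurableSet_ball (ip _ hτ _ (tf.lip.bdd.mul_integrable mζ g1))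
        g1.integrableOn (g2.mono fun y hy => ⟨mul_nonneg (p0 s hs' y) (mul_nonneg (tf.nonneg y) hy),
          fun k => ?_⟩)
      rw [z2 y k, one_mul]
      exact mul_le_mul_of_nonneg_right (hq y k) hy
    have a5 : ∫ y in ball x ((1 + 2 * k) * r), (1 - w s y) ∂μ ≤ C' * (3 * (k * r)) ^ n := by
      refine le_trans ?_ ((hvol x hx ((1 + 2 * k) * r) (by positivity) (by linarith)).2.trans
        (mul_le_mul_of_nonneg_left (pow_le_pow_left₀ (by positivity) (by linarith) n) hC'.le))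
      rw [← setIntegral_one_eq_measureReal]
      exact integral_mono_ae (i1 s hs _) (integrableOn_const (D.fin x _).ne)
        ((ae_restrict_iff' measurableSet_ball).2 (g3.mono fun y hy k => by linarith [(hy k).1]))
    have a6 : C * m / (k * r) ^ (n + 2) * (C' * (3 * (k * r)) ^ n) ≤ c * ε / 4 * m / r ^ 2 := by
      have : C * C' * 3 ^ n / k ^ 2 ≤ c * ε / 4 := by
        have : k * (c * ε) = c * ε + 4 * (C * C' * 3 ^ n) := by
          rw [hk]
          field_simp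
        rw [div_le_iff₀ (by positivity)]
        nlinarith [mul_pos hc hε, mul_le_mul_of_nonneg_right (le_self_pow₀ k1 two_ne_zero)
          (mul_pos hc hε).le]
      calc _ = C * C' * 3 ^ n / k ^ 2 * m / r ^ 2 := by
            simp only [mul_pow]
            field_simp
            ring
        _ ≤ _ := by gcongr
    have a7 := (mul_le_mul_of_nonneg_left a5 (by positivity)).trans a6
    rw [(dA s hs hs').deriv]
    simp only [Pi.zero_apply, mul_zero, integral_zero]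
    linarith
  have dA' := fun s hs hs' => (dA s hs hs').differentiableAt.hasDerivAt
  have lin := fun (l s : ℝ) => (hasDerivAt_id' s).const_mul l
  obtain ⟨s₁, hs₁, b1⟩ : ∃ s₁ ∈ Icc (t - 2 * r ^ 2) (t - r ^ 2), 3 / 4 * (c * ε * m) ≤ A s₁ := by
    by_cases hc : ∃ s ∈ Icc (t - 2 * r ^ 2) (t - r ^ 2),
        ε * r ^ n < ∫ y in ball x r, (1 - w s y) ∂μ
    · obtain ⟨s, hs, k⟩ := hc
      refine ⟨s, hs, le_trans ?_ ((mul_le_mul_of_nonneg_left k.le (by positivity)).trans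
        (hA s ⟨hs.1, by linarith [hs.2]⟩ (by linarith [hs.2]) _ (lw s hs)))⟩
      rw [show c * m / r ^ n * (ε * r ^ n) = c * ε * m by field_simp]
      linarith [mul_nonneg (mul_pos ‹0 < c› hε).le m0]
    push Not at hc hn
    refine ⟨t - r ^ 2, ⟨by linarith, le_rfl⟩, ?_⟩
    have k1 := sub_ge_of_deriv (show t - 2 * r ^ 2 ≤ t - r ^ 2 by linarith)
      (fun s hs => (dA s ⟨hs.1, by linarith [hs.2]⟩
        (by linarith [hs.2])).continuousAt.continuousWithinAt)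
      (fun s _ => (lin (3 / 4 * (c * ε * m) / r ^ 2) s).continuousAt.continuousWithinAt)
      (fun s hs => dA' s ⟨hs.1.le, by linarith [hs.2]⟩ (by linarith [hs.2])) (fun s _ => lin _ s)
      fun s hs => by
        have hs' := Ioo_subset_Icc_self hs
        refine le_trans (le_of_eq ?_) ((sub_le_sub_right (mul_le_mul_of_nonneg_left
          (hn s hs' (hc s hs')).le (by positivity)) _).trans
          (hD s ⟨hs.1.le, by linarith [hs.2]⟩ (by linarith [hs.2]) _ (lw s hs')))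
        field_simp
        ring
    have k2 := hA _ ⟨le_rfl, by linarith⟩ (by linarith) 0 fun y _ => p0 _ (by linarith) y
    rw [← mul_sub, show t - r ^ 2 - (t - 2 * r ^ 2) = r ^ 2 by ring,
      div_mul_cancel₀ _ r2.ne'] at k1
    linarith
  have hst : s₁ < t := by linarith [hs₁.2]
  have k1 := sub_ge_of_deriv' hst
    ((dA s₁ ⟨hs₁.1, hst.le⟩ hst).continuousAt.tendsto.mono_left nhdsWithin_le_nhds) lim
    ((lin (-(c * ε / 4 * m / r ^ 2)) s₁).continuousAt.tendsto.mono_left nhdsWithin_le_nhds)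
    ((lin _ t).continuousAt.tendsto.mono_left nhdsWithin_le_nhds)
    (fun s hs => dA' s ⟨by linarith [hs.1, hs₁.1], hs.2.le⟩ hs.2) (fun s _ => lin _ s)
    fun s hs => by
      simpa using hD s ⟨by linarith [hs.1, hs₁.1], hs.2.le⟩ hs.2 0 fun y _ => p0 s hs.2 y
  have e : ∀ g : X → ℝ, ∫ y, ψ y * (ζ y * g y) ∂μ = ∫ y, ψ y * g y ∂μ := fun g =>
    integral_congr_ae (Eventually.of_forall fun y => by
      by_cases hy : y ∈ ball x r
      · simp [z2 y hy]
      · simp [ψ2 y hy])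
  have e1 := e 1
  simp only [Pi.one_apply, mul_one] at e1
  rw [e, e1, ← mul_sub] at k1
  have k2 : c * ε / 4 * m / r ^ 2 * (t - s₁) ≤ c * ε / 4 * m / r ^ 2 * (2 * r ^ 2) := by
    gcongr
    linarith [hs₁.1]
  rw [show c * ε / 4 * m / r ^ 2 * (2 * r ^ 2) = c * ε * m / 2 by field_simp; ring] at k2
  rw [integral_mul_const]
  linarith [mul_le_mul_of_nonneg_left (min_le_left (c * ε / 4) (1 / 2)) m0]

end RC
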