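import Pool.Agent.P.MP_6472e5_gt.Lo0
import Pool.Agent.P.MP_6472e5_gt.GH

/-! The majority lemma. -/

set_option autoImplicit false
set_option linter.unusedSectionVars false

noncomputable section

namespace RC

open MeasureTheory Set Filter Topology Metric

variable {X : Type} [MetricSpace X] [ProperSpace X] [MeasurableSpace X] [BorelSpace X]
  {μ : Measure X} {D : DS μ} {κ : ℝ} {n : ℕ}

theorem loe_time (F : D.Flow) {φ g : X → ℝ} (hφ : MemLp φ 2 μ) (hg : g ∈ D.V) {τ Q : ℝ}
    (hτ : 0 < τ) (h : ∀ s ∈ Ioo 0 τ, -∫ y, D.G (D.P s φ) g y ∂μ ≤ Q / √s) :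
    ∫ y, D.P τ g y * φ y ∂μ - ∫ y, g y * φ y ∂μ ≤ 2 * Q * √τ := by
  have g2 := D.memLp g hg
  have dA := fun s hs => (((F.heat φ hφ).1 s hs).2.2.mul_memLp g2).hasDerivAt
  have dB := fun s (hs : 0 < s) => (Real.hasDerivAt_sqrt hs.ne').const_mul (2 * Q)
  have l0 := loa_lim (Eventually.of_forall fun s => integrable_mul_of_memLp g2 (F.memLp φ s hφ))
    (integrable_mul_of_memLp g2 hφ) aestronglyMeasurable_const (Bdd.const 1)
    (tendsto_integral_mul (Eventually.of_forall fun _ => g2)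
      (Eventually.of_forall fun s => F.memLp φ s hφ) g2 hφ (by simp [n2]) (F.heat φ hφ).2)
  simp only [one_mul] at l0
  have cB : Continuous fun s : ℝ => 2 * Q * √s := by fun_prop
  have := sub_ge_of_deriv' hτ (cB.continuousAt.tendsto.mono_left nhdsWithin_le_nhds)
    (cB.continuousAt.tendsto.mono_left nhdsWithin_le_nhds) l0
    ((dA τ hτ).continuousAt.tendsto.mono_left nhdsWithin_le_nhds) (fun s hs => dB s hs.1)
    (fun s hs => dA s hs.1) fun s hs => by
      obtain ⟨a1, a2, a3⟩ := (F.heat φ hφ).1 s hs.1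
      have := h s hs
      rw [a2.test a1 a3.2.1 hg, neg_neg] at this
      simp only [mul_comm (g _)]
      exact this.trans_eq (by field_simp)
  rw [F.symm g φ τ g2 hφ]
  simpa using this

theorem HP.loe_est (h : HP D κ n) : ∃ C, 1 ≤ C ∧ ∀ (x : X) (r K : ℝ), 0 < r → κ * r ^ 2 ≤ 1 →
    1 ≤ K → ∀ f ∈ D.V, (∀ᵐ y ∂μ, |f y| ≤ 1) → ∃ u : X → ℝ, Continuous u ∧
      (∀ y y', |u y - u y'| ≤ C * K / r * dist y y') ∧
      ∫ y in ball x (5 * r / 4), |u y - f y| ∂μ ≤ C * r / K *
        (∫ y in ball x (2 * r), √(D.G f f y) ∂μ + μ.real (ball x (2 * r)) / (r * K ^ n)) := by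
  obtain ⟨C, hC, hoff⟩ := h.pk_off
  set A := √(C * (n.factorial * (4 * C) ^ n)) with hA
  have A0 : 0 ≤ A := Real.sqrt_nonneg _
  have e1 := Real.add_one_le_exp 1
  refine ⟨2 * Real.exp 1 * (1 + 4 * A), by nlinarith, fun x r K hr hκ hK f hf bf => ?_⟩
  obtain ⟨χ, hχ, c1, c2, c3, c4⟩ := exists_cutoff_ball x (show 7 * r / 4 < 2 * r by linarith)
  have hg := D.mul_mem_lipB hχ hf
  have bg : ∀ᵐ y ∂μ, |(χ * f) y| ≤ 1 := bf.mono fun y hy => by
    rw [Pi.mul_apply, abs_mul, abs_of_nonneg (c1 y).1]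
    exact mul_le_one₀ (c1 y).2 (abs_nonneg _) hy
  have hτ : 0 < (r / K) ^ 2 := by positivity
  have κ0 := h.κ_nonneg
  have hκ' : ∀ s, s ≤ (r / K) ^ 2 → κ * s ≤ 1 := fun s hs =>
    (mul_le_mul_of_nonneg_left (hs.trans (pow_le_pow_left₀ (by positivity)
      (div_le_self hr.le hK) 2)) κ0).trans hκ
  have uc := h.pk_cont (D.aesm hg) ⟨1, bg⟩ hτ
  refine ⟨_, uc, fun y y' => ((h.pk_bdd _ _ 1 (D.aesm hg) bg hτ).2.1 y y').trans
    (mul_le_mul_of_nonneg_right ?_ dist_nonneg), ?_⟩
  · rw [mul_div_assoc _ K, ← inv_div r K, ← div_eq_mul_inv]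
    refine div_le_div₀ (by positivity) ?_ (by positivity) (Real.le_sqrt_of_sq_le (by linarith))
    nlinarith [Real.exp_le_exp.2 (hκ' _ le_rfl)]
  have rep := h.P_rep (D.memLp _ hg) hτ
  set u := D.Pk ((r / K) ^ 2) (χ * f)
  have mu := uc.aemeasurable.sub (D.aesm hf).aemeasurable
  set φ := (ball x (5 * r / 4)).indicator fun y => (u y - f y) / |u y - f y| with hφ
  have mφ : AEStronglyMeasurable φ μ :=
    (mu.div mu.abs).aestronglyMeasurable.indicator measurableSet_ball
  have bφ : ∀ y, |φ y| ≤ 1 := fun y => by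
    by_cases hy : y ∈ ball x (5 * r / 4)
    · rw [hφ, indicator_of_mem hy, abs_div, abs_abs]
      exact div_self_le_one _
    · simp [hφ, hy]
  have φ2 := (D.memLp_of_bdd mφ ⟨1, Eventually.of_forall bφ⟩
    (Eventually.of_forall fun y hy => indicator_of_notMem hy _)).1
  have iG : IntegrableOn (fun y => √(D.G f f y)) (ball x (2 * r)) μ :=
    D.locInt_of_memLp (DS.sqrt_G_memLp hf) _ _
  have key := loe_time h.flow φ2 hg hτ (Q := Real.exp 1 * (∫ y in ball x (2 * r), √(D.G f f y) ∂μ +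
      4 * A / (r * K ^ n) * μ.real (ball x (2 * r)))) fun s hs => by
    have s0 := hs.1
    have wP := D.W_of_mem ((h.flow.heat φ φ2).1 s s0).1
    have wχ := D.W_of_mem (D.lip χ hχ)
    have ic : IntegrableOn (fun _ => 4 * A / (r * K ^ n)) (ball x (2 * r)) μ :=
      integrableOn_const (D.fin _ _).ne
    rw [mul_comm _ (μ.real _), ← smul_eq_mul (μ.real _), ← setIntegral_const, ← integral_add iG ic,
      mul_div_right_comm, ← integral_const_mul, ← integral_indicator measurableSet_ball]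
    refine (neg_le_abs _).trans ?_
    rw [← Real.norm_eq_abs]
    refine norm_integral_le_of_norm_le ((integrable_indicator_iff measurableSet_ball).2
      ((iG.fun_add ic).const_mul _)) ?_
    filter_upwards [bf, DS.G_mul_right wχ (D.W_of_mem hf) (D.W_of_mem hg) wP,
      DS.G_abs_le wP (D.W_of_mem hf), DS.G_abs_le wP wχ, DS.G_symm wP wχ, DS.G_level wχ wP 1,
      DS.G_level wχ wP 0, h.G_le φ s 1 φ2 (Eventually.of_forall bφ) s0, h.rp_pt φ s φ2 s0,
      DS.G_le_lip wχ isOpen_univ (L := 4 / r) (fun y _ y' _ => (c4 y y').trans_eq (by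
        field_simp; ring)) (by positivity) (Eventually.of_forall fun _ _ => rfl),
      DS.G_nonneg wP] with y a0 a1 a2 a3 a4 a5 a6 a7 a8 a9 a10
    rw [a1, Real.norm_eq_abs]
    by_cases hy : y ∈ ball x (2 * r)
    swap
    · simp [c3 y hy, a4, a6 (c3 y hy), hy]
    have ee : Real.exp (2 * κ * s) ≤ Real.exp 1 ^ 2 := by
      rw [← Real.exp_nat_mul]
      exact Real.exp_le_exp.2 (by push_cast; linarith [hκ' s hs.2.le])
    have b1 : √(D.G (D.P s φ) (D.P s φ) y) ≤ Real.exp 1 / √s :=
      Real.sqrt_le_iff.2 ⟨by positivity, a7.trans (by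
        rw [div_pow, Real.sq_sqrt s0.le]
        exact div_le_div₀ (by positivity) (by linarith) s0 (by linarith))⟩
    have b2 : |D.G (D.P s φ) χ y| ≤ Real.exp 1 / √s * (4 * A / (r * K ^ n)) := by
      by_cases hy' : y ∈ closedBall x (7 * r / 4)
      · rw [a4, a5 (c2 y hy'), abs_zero]
        positivity
      have d1 := hoff (fun y => φ y ^ 2) 1 √s (r / 2) y (mφ.pow 2)
        (Eventually.of_forall fun z => by rw [abs_pow]; exact pow_le_one₀ (abs_nonneg _) (bφ z))
        (by positivity) (Eventually.of_forall fun z hz => by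
          rw [hφ, indicator_of_notMem, zero_pow two_ne_zero]
          rw [mem_closedBall] at hy'
          rw [mem_ball] at hz ⊢
          linarith [dist_triangle_left y x z]) (by positivity)
        (by rw [Real.sq_sqrt s0.le]; exact hκ' s hs.2.le)
      rw [Real.sq_sqrt s0.le, mul_one] at d1
      have d2 : Real.exp (-((r / 2) ^ 2 / (C * s))) ≤ n.factorial * (4 * C) ^ n / (K ^ n) ^ 2 := by
        refine (Real.exp_le_exp.2 (neg_le_neg (show K * K / (4 * C) ≤ _ from ?_))).trans
          ((lo_exp n (by positivity)).trans_eq (by rw [div_pow, mul_pow K]; field_simp))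
        have := hs.2.le
        rw [div_pow, le_div_iff₀ (by positivity)] at this
        rw [div_le_div_iff₀ (by positivity) (by positivity)]
        nlinarith
      have d3 : D.G (D.P s φ) (D.P s φ) y ≤ (Real.exp 1 / √s * (A / K ^ n)) ^ 2 := by
        rw [mul_pow, div_pow, div_pow, Real.sq_sqrt s0.le, hA, Real.sq_sqrt (by positivity),
          mul_div_assoc C, div_mul_eq_mul_div, le_div_iff₀ s0]
        have d4 := mul_le_mul ee ((a8.trans (sub_le_self _ (sq_nonneg _))).trans
          ((le_of_abs_le d1).trans (mul_le_mul_of_nonneg_left d2 hC.le))) (by positivity)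
          (by positivity)
        rw [Real.exp_neg] at d4
        refine le_trans ?_ d4
        field_simp
        nlinarith
      refine a3.trans ((mul_le_mul (Real.sqrt_le_iff.2 ⟨by positivity, d3⟩)
        (Real.sqrt_le_iff.2 ⟨by positivity, a9 trivial⟩) (by positivity)
        (by positivity)).trans_eq (by field_simp))
    rw [indicator_of_mem hy, mul_add]
    refine (abs_add_le _ _).trans (add_le_add ?_ ?_)
    · rw [abs_mul, abs_of_nonneg (c1 y).1]
      exact (mul_le_of_le_one_left (abs_nonneg _) (c1 y).2).trans (a2.trans (by gcongr))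
    · rw [abs_mul]
      exact (mul_le_of_le_one_left (abs_nonneg _) a0).trans b2
  rw [← integral_sub (integrable_mul_of_memLp (h.flow.memLp _ _ (D.memLp _ hg)) φ2)
    (integrable_mul_of_memLp (D.memLp _ hg) φ2), Real.sqrt_sq (by positivity)] at key
  refine le_trans (le_of_eq ?_) (key.trans ?_)
  · rw [← integral_indicator measurableSet_ball]
    refine integral_congr_ae (rep.mono fun y hy => ?_)
    by_cases hy' : y ∈ ball x (5 * r / 4)
    · simp only [hy, hφ, indicator_of_mem hy', Pi.mul_apply,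
        c2 y (closedBall_subset_closedBall (by linarith) (ball_subset_closedBall hy')), one_mul]
      rw [← sub_mul, ← mul_div_assoc, ← abs_mul_abs_self, mul_self_div_self]
    · simp [hφ, hy']
  · have i0 : 0 ≤ ∫ y in ball x (2 * r), √(D.G f f y) ∂μ := integral_nonneg fun _ => by positivity
    have v0 : 0 ≤ μ.real (ball x (2 * r)) / (r * K ^ n) := by positivity
    rw [div_mul_eq_mul_div, mul_div_assoc (4 * A), mul_div_assoc _ r]
    have k := (mul_pos (Real.exp_pos 1) (div_pos hr (by linarith : 0 < K))).le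
    linarith [mul_nonneg k (mul_nonneg A0 i0), mul_nonneg k v0]

theorem loe_mk {S T B : Set X} {g : X → ℝ} {a : ℝ} (hB : MeasurableSet B) (hT : μ T ≠ ⊤)
    (hg : IntegrableOn g B μ) (g0 : ∀ y, 0 ≤ g y) (ha : 0 < a)
    (h : ∀ y ∈ S, y ∈ B ∧ (y ∈ T ∨ a ≤ g y)) :
    μ.real S ≤ μ.real T + a⁻¹ * ∫ y in B, g y ∂μ := by
  have k := mul_meas_ge_le_integral_of_nonneg (Eventually.of_forall g0) hg a
  have f : μ.restrict B {y | a ≤ g y} ≠ ⊤ := (hg.measure_ge_lt_top ha).ne
  rw [measureReal_restrict_apply' hB, ← le_inv_mul_iff₀ ha] at k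
  rw [Measure.restrict_apply' hB] at f
  refine (measureReal_mono (fun y hy => ?_) (measure_union_ne_top hT f)).trans
    ((measureReal_union_le _ _).trans (add_le_add_right k _))
  exact (h y hy).2.imp id fun j => ⟨j, (h y hy).1⟩

theorem HP.majx (h : HP D κ n) (h0 : N0 D n) (x₀ : X) (R : ℝ) : ∃ r₀, 0 < r₀ ∧ ∀ ε, 0 < ε →
    ∃ β, 0 < β ∧ ∀ x ∈ ball x₀ R, ∀ r, 0 < r → r ≤ r₀ → ∀ f ∈ D.V, (∀ᵐ y ∂μ, |f y| ≤ 1) →
    μ.real {y | y ∈ ball x (2 * r) ∧ |f y| ≠ 1} ≤ β * r ^ n →
    ∫ y in ball x (2 * r), √(D.G f f y) ∂μ ≤ β * r ^ n / r →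
    ∃ s : ℝ, (s = 1 ∨ s = -1) ∧ μ.real {y | y ∈ ball x r ∧ f y ≠ s} ≤ ε * r ^ n := by
  obtain ⟨C, hC, hest⟩ := h.loe_est
  obtain ⟨c, C', r₁, hc, hC', hr₁, hvol⟩ := h.vol_bds h0 x₀ (R + 1)
  obtain ⟨r₂, hr₂, hr₂', hκ⟩ := h.exists_scale
  refine ⟨min (r₁ / 2) r₂, by positivity, fun ε hε => ?_⟩
  set l := min (c / (4 * C) ^ n) ε with hl
  have l0 : 0 < l := by positivity
  set K := 1 + 8 * (C * C' * 2 ^ n) / l with hK
  have K1 : 1 ≤ K := le_add_of_nonneg_right (by positivity)
  have Kn : 1 ≤ K ^ n := one_le_pow₀ K1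
  refine ⟨l / (8 * C * K ^ n), by positivity, fun x hx r hr hr₀ f hf bf h1 h2 => ?_⟩
  rw [le_min_iff] at hr₀
  obtain ⟨u, uc, ul, ue⟩ := hest x r K hr (hκ r hr.le hr₀.2) K1 f hf bf
  have hx' : ∀ y ∈ ball x r, y ∈ ball x₀ (R + 1) := fun y hy => by
    rw [mem_ball] at *
    linarith [dist_triangle y x x₀]
  set q := l / K ^ n * r ^ n with hq
  have q0 : 0 < q := by positivity
  have a1 : μ.real {y | y ∈ ball x (2 * r) ∧ |f y| ≠ 1} ≤ q / 8 := h1.trans (by
    rw [show l / (8 * C * K ^ n) * r ^ n = q / 8 / C by rw [hq]; field_simp]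
    exact div_le_self (by positivity) hC)
  have a2 : ∫ y in ball x (5 * r / 4), |u y - f y| ∂μ ≤ q / 4 := by
    refine ue.trans ((mul_le_mul_of_nonneg_left (add_le_add h2 (div_le_div_of_nonneg_right
      (hvol x (hx' x (mem_ball_self hr)) (2 * r) (by positivity) (by linarith)).2
      (by positivity))) (by positivity)).trans ?_)
    have : K * l = l + 8 * (C * C' * 2 ^ n) := by
      rw [hK]
      field_simp
    calc _ = q / 8 / K + q / 8 * (8 * (C * C' * 2 ^ n) / (K * l)) := by
          rw [hq, mul_pow]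
          field_simp
      _ ≤ q / 8 + q / 8 * 1 := add_le_add (div_le_self (by positivity) K1)
          (mul_le_mul_of_nonneg_left (div_le_one_of_le₀ (by linarith) (by positivity))
            (by positivity))
      _ = _ := by ring
  have ig : IntegrableOn (fun y => |u y - f y|) (ball x (5 * r / 4)) μ :=
    ((D.locInt_of_locBdd uc.aestronglyMeasurable (locBdd_of_continuous uc) _ _).sub'
      (D.locInt_of_memLp (D.memLp f hf) _ _)).abs
  have hT : μ {y | y ∈ ball x (2 * r) ∧ |f y| ≠ 1} ≠ ⊤ :=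
    measure_ne_top_of_subset (fun y hy => hy.1) (D.fin x _).ne
  have hb : ball x (5 * r / 4) ⊆ ball x (2 * r) := ball_subset_ball (by linarith)
  have a3 : ∀ y ∈ ball x r, u y ≠ 0 := fun y hy h0 => by
    have ρ1 : r / (4 * C * K) ≤ r / 4 :=
      div_le_div_of_nonneg_left hr.le four_pos (by nlinarith)
    have b1 := (hvol y (hx' y hy) (r / (4 * C * K)) (by positivity) (by linarith)).1
    have b2 := loe_mk (S := ball y (r / (4 * C * K))) (a := 1 / 2) measurableSet_ball hT ig
      (fun _ => abs_nonneg _) (by norm_num) fun z hz => by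
        have k : z ∈ ball x (5 * r / 4) := by
          rw [mem_ball] at *
          linarith [dist_triangle z y x]
        refine ⟨k, or_iff_not_imp_left.2 fun j => ?_⟩
        have j1 : |f z| = 1 := by_contra fun i => j ⟨hb k, i⟩
        have j2 := (ul z y).trans (mul_le_mul_of_nonneg_left (mem_ball.1 hz).le (by positivity))
        rw [h0, sub_zero, show C * K / r * (r / (4 * C * K)) = 1 / 4 by field_simp] at j2
        linarith [abs_sub_abs_le_abs_sub (f z) (u z), abs_sub_comm (f z) (u z)]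
    have b3 : q ≤ c * (r / (4 * C * K)) ^ n := by
      rw [show c * (r / (4 * C * K)) ^ n = c / (4 * C) ^ n / K ^ n * r ^ n by
        rw [div_pow, mul_pow _ K]; field_simp, hq]
      gcongr
      exact min_le_left _ _
    rw [one_div, inv_inv] at b2
    linarith
  obtain ⟨s, hs, hsu⟩ : ∃ s : ℝ, (s = 1 ∨ s = -1) ∧ ∀ y ∈ ball x r, 0 < s * u y := by
    rcases (h.geo.preconnected_ball x r).mapsTo_Ioi_or_Iio uc.continuousOn a3 with k | k
    · exact ⟨1, Or.inl rfl, fun y hy => by simpa using k hy⟩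
    · exact ⟨-1, Or.inr rfl, fun y hy => by simpa using k hy⟩
  refine ⟨s, hs, (loe_mk (a := 1) measurableSet_ball hT ig (fun _ => abs_nonneg _) one_pos
    fun z hz => ?_).trans ?_⟩
  · have k : z ∈ ball x (5 * r / 4) := ball_subset_ball (by linarith) hz.1
    refine ⟨k, or_iff_not_imp_left.2 fun j => ?_⟩
    have j1 : |f z| = 1 := by_contra fun i => j ⟨hb k, i⟩
    have j2 := hsu z hz.1
    have j3 := hz.2
    rcases hs with rfl | rfl <;> rcases eq_or_eq_neg_of_abs_eq j1 with i | i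
    · exact absurd i j3
    · exact le_abs.2 (Or.inl (by linarith))
    · exact le_abs.2 (Or.inr (by linarith))
    · exact absurd i j3
  · have : q ≤ ε * r ^ n := mul_le_mul_of_nonneg_right
      ((div_le_self l0.le Kn).trans (min_le_right _ _)) (by positivity)
    rw [inv_one, one_mul]
    linarith

end RC
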