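import Pool.Agent.P.MP_6472e5_gt.LoE

/-! Closed sets of codimension more than one do not disconnect. -/

set_option autoImplicit false
set_option linter.unusedSectionVars false

noncomputable section

namespace RC

open MeasureTheory Set Filter Topology Metric

variable {X : Type} [MetricSpace X] [ProperSpace X] [MeasurableSpace X] [BorelSpace X]
  {μ : Measure X} {D : DS μ} {κ : ℝ} {n : ℕ}

theorem lof_cover {m : ℕ} {N : Set X} (hN : IsCompact N) (h0 : μH[(m : ℝ) + 1] N = 0) {η δ : ℝ}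
    (hη : 0 < η) (hδ : 0 < δ) : ∃ (T : Finset ℕ) (c : ℕ → X → X) (ρ : ℕ → ℝ),
      (∀ i, 0 < ρ i ∧ ρ i ≤ δ) ∧ ∀ x, (∀ i ∈ T, c i x ∈ N) ∧ N ⊆ ⋃ i ∈ T, ball (c i x) (ρ i) ∧
        ∑ i ∈ T, ρ i ^ (m + 1) ≤ η := by
  rcases N.eq_empty_or_nonempty with rfl | ⟨x₀, hx₀⟩
  · exact ⟨∅, fun _ x => x, fun _ => δ, fun _ => ⟨hδ, le_rfl⟩, fun x => by simp [hη.le]⟩
  rw [Measure.hausdorffMeasure_apply] at h0
  simp only [ENNReal.iSup_eq_zero] at h0
  have h1 := (h0 (ENNReal.ofReal (δ / 2)) (by simpa using hδ)).trans_lt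
    (ENNReal.ofReal_pos.2 (show 0 < η / 2 / 2 ^ (m + 1) by positivity))
  simp only [iInf_lt_iff] at h1
  obtain ⟨t, t1, t2, t3⟩ := h1
  obtain ⟨e, e0, s, e1, e2⟩ := posSumOfEncodable (show 0 < min (η / 2) (min δ 1) by positivity) ℕ
  have e3 := fun i => (le_hasSum e1 i fun j _ => (e0 j).le).trans e2
  simp only [le_min_iff] at e2 e3
  have : ∀ i, ∃ c ∈ N, (t i ∩ N).Nonempty → c ∈ t i := fun i => by
    by_cases k : (t i ∩ N).Nonempty
    · obtain ⟨c, h1, h2⟩ := k
      exact ⟨c, h2, fun _ => h1⟩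
    · exact ⟨x₀, hx₀, fun j => absurd j k⟩
  choose c c1 c2 using this
  have f := fun i => ne_top_of_le_ne_top ENNReal.ofReal_ne_top (t2 i)
  obtain ⟨T, hT⟩ := hN.elim_finite_subcover (fun i => ball (c i) (max (2 * diam (t i)) (e i)))
    (fun _ => isOpen_ball) fun y hy => by
      obtain ⟨i, hi⟩ := mem_iUnion.1 (t1 hy)
      have := dist_le_diam_of_mem' (f i) hi (c2 i ⟨y, hi, hy⟩)
      refine mem_iUnion.2 ⟨i, mem_ball.2 ?_⟩
      rcases (dist_nonneg (x := y) (y := c i)).eq_or_lt with k | k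
      · exact lt_max_of_lt_right (k ▸ e0 i)
      · exact lt_max_of_lt_left (by linarith)
  refine ⟨T, fun i _ => c i, _, fun i => ⟨lt_max_of_lt_right (e0 i), max_le ?_ (e3 i).2.1⟩,
    fun _ => ⟨fun i _ => c1 i, hT, ?_⟩⟩
  · linarith [show diam (t i) ≤ δ / 2 from ENNReal.toReal_le_of_le_ofReal (by positivity) (t2 i)]
  have a1 : ∑ i ∈ T, diam (t i) ^ (m + 1) ≤ η / 2 / 2 ^ (m + 1) := by
    rw [← ENNReal.ofReal_le_ofReal_iff (by positivity),
      ENNReal.ofReal_sum_of_nonneg fun _ _ => by positivity]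
    refine ((Finset.sum_le_sum fun i _ => ?_).trans (ENNReal.sum_le_tsum T)).trans t3.le
    rcases (t i).eq_empty_or_nonempty with k | k
    · simp [k]
    · rw [iSup_pos k, ENNReal.ofReal_pow diam_nonneg, diam, ENNReal.ofReal_toReal (f i),
        ← ENNReal.rpow_natCast, Nat.cast_succ]
  have a2 := sum_le_hasSum T (fun i _ => (e0 i).le) e1
  rw [le_div_iff₀ (by positivity), Finset.sum_mul] at a1
  refine (Finset.sum_le_sum (g := fun i => diam (t i) ^ (m + 1) * 2 ^ (m + 1) + e i)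
    fun i _ => ?_).trans (by rw [Finset.sum_add_distrib]; linarith)
  rcases le_total (2 * diam (t i)) (e i) with k | k
  · rw [max_eq_right k]
    exact (pow_le_of_le_one (e0 i).le (e3 i).2.2 m.succ_ne_zero).trans
      (le_add_of_nonneg_left (by positivity))
  · rw [max_eq_left k, mul_pow, mul_comm]
    exact le_add_of_nonneg_right (e0 i).le

theorem lof_sum (T : Finset ℕ) {χ : ℕ → X → ℝ} (h : ∀ i, LipB (χ i)) : LipB (∑ i ∈ T, χ i) ∧
    ∀ᵐ y ∂μ, √(D.G (∑ i ∈ T, χ i) (∑ i ∈ T, χ i) y) ≤ ∑ i ∈ T, √(D.G (χ i) (χ i) y) := by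
  induction T using Finset.induction_on with
  | empty => exact ⟨LipB.zero, (DS.G_const 0 (D.W_const 0)).mono fun y hy =>
      (Real.sqrt_eq_zero'.2 hy.le).le⟩
  | insert i T hi ih =>
    simp only [Finset.sum_insert hi]
    refine ⟨(h i).add ih.1, ?_⟩
    filter_upwards [ih.2, DS.G_tri (D.W_of_mem (D.lip _ (h i))) (D.W_of_mem (D.lip _ ih.1))]
      with y h1 h2
    linarith

theorem HP.lof_fun {m : ℕ} (h : HP D κ (m + 2)) (h0 : N0 D (m + 2)) {A U₁ U₂ : Set X}
    (hA : IsOpen A) (hN : μH[(m : ℝ) + 1] Aᶜ = 0) (o1 : IsOpen U₁) (o2 : IsOpen U₂)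
    (hd : Disjoint U₁ U₂) {x : X} {r β : ℝ} (hr : 0 < r) (hβ : 0 < β)
    (hs : closedBall x (3 * r) ∩ A ⊆ U₁ ∪ U₂) : ∃ f ∈ D.V, (∀ y, |f y| ≤ 1) ∧
      μ.real {y | y ∈ ball x (2 * r) ∧ |f y| ≠ 1} ≤ β * r ^ (m + 2) ∧
      ∫ y in ball x (2 * r), √(D.G f f y) ∂μ ≤ β * r ^ (m + 2) / r ∧
      ∀ y, (y ∉ U₁ → f y ≤ 0) ∧ (y ∉ U₂ → 0 ≤ f y) := by
  obtain ⟨c', C, r₁, -, hC, hr₁, hvol⟩ := h.vol_bds h0 x (4 * r)
  obtain ⟨T, c, ρ, hρ, hc⟩ := lof_cover ((isCompact_closedBall x (3 * r)).diff hA)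
    (measure_mono_null (fun y hy => hy.2) hN) (η := β * r ^ (m + 2) / r / (C * 2 ^ (m + 2)))
    (δ := min (r₁ / 2) r) (by positivity) (by positivity)
  obtain ⟨c1, c2, c3⟩ := hc x
  simp only [le_min_iff] at hρ
  choose χ χ0 χ1 χ2 χ3 χ4 using fun i =>
    exists_cutoff_ball (c i x) (show ρ i < 2 * ρ i by linarith [(hρ i).1])
  obtain ⟨ζ, ζ0, ζ1, ζ2, ζ3, -⟩ := exists_cutoff_ball x (show 2 * r < 3 * r by linarith)
  obtain ⟨S0, S1⟩ := lof_sum (D := D) T χ0
  have S2 : ∀ y, 0 ≤ (∑ i ∈ T, χ i) y := fun y => by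
    rw [Finset.sum_apply]
    exact Finset.sum_nonneg fun i _ => (χ1 i y).1
  have hΦ : LipschitzWith 1 fun t : ℝ => max t 0 := LipschitzWith.id.max_const 0
  have g0 := (ζ0.sub S0).comp hΦ (by simp)
  have wS := D.W_of_mem (D.lip _ S0)
  have wζ := D.W_of_mem (D.lip _ ζ0)
  have g1 := ((wζ.sub wS).comp_lip hΦ).2
  set g := fun y => max ((ζ - ∑ i ∈ T, χ i) y) 0 with hg
  set K := closedBall x (3 * r) \ ⋃ i ∈ T, ball (c i x) (ρ i)
  have hK : IsCompact K :=
    (isCompact_closedBall x _).diff (isOpen_biUnion fun _ _ => isOpen_ball)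
  have K1 : K ⊆ U₁ ∪ U₂ := fun y hy => hs ⟨hy.1, by_contra fun k => hy.2 (c2 ⟨hy.1, k⟩)⟩
  have g2 : ∀ y, y ∉ K → g y = 0 := fun y hy => max_eq_right (by
    rw [Pi.sub_apply]
    by_cases k : y ∈ closedBall x (3 * r)
    · obtain ⟨i, hi, j⟩ := mem_iUnion₂.1 (not_not.1 fun j => hy ⟨k, j⟩)
      have := Finset.single_le_sum (f := fun i => χ i y) (fun i _ => (χ1 i y).1) hi
      rw [Finset.sum_apply]
      linarith [χ2 i y (ball_subset_closedBall j), (ζ1 y).2]
    · linarith [ζ3 y fun j => k (ball_subset_closedBall j), S2 y])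
  have g3 : ∀ y, 0 ≤ g y ∧ g y ≤ 1 := fun y =>
    ⟨le_max_right _ _, max_le (by linarith [S2 y, (ζ1 y).2, Pi.sub_apply ζ (∑ i ∈ T, χ i) y])
      zero_le_one⟩
  obtain ⟨δ, hδ, hdj⟩ := Disjoint.exists_thickenings (s := K \ U₂) (t := K \ U₁)
    (disjoint_left.2 fun y h1 h2 => (K1 h1.1).elim h2.2 h1.2) (hK.diff o2) (hK.diff o1).isClosed
  obtain ⟨σ, σ0, -, σ1, σ2, -⟩ := exists_cutoff (hK.diff o2).isBounded le_rfl hδ
  have f0 := ((g0.mul σ0).smul 2).sub g0
  set f := (2 : ℝ) • (g * σ) - g with hf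
  have f1 : ∀ y, (f y = g y ∧ (y ∉ U₁ → g y = 0)) ∨ (f y = (-g) y ∧ (y ∉ U₂ → g y = 0)) :=
    fun y => by
      simp only [hf, Pi.sub_apply, Pi.smul_apply, Pi.mul_apply, smul_eq_mul, Pi.neg_apply]
      by_cases k : y ∈ K
      · rcases K1 k with j | j
        · rw [σ1 y (self_subset_cthickening _ ⟨k, disjoint_left.1 hd j⟩)]
          exact Or.inl ⟨by ring, fun i => absurd j i⟩
        · rw [σ2 y (disjoint_right.1 hdj
            (self_subset_thickening hδ _ ⟨k, disjoint_right.1 hd j⟩))]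
          exact Or.inr ⟨by ring, fun i => absurd j i⟩
      · simp [g2 y k]
  have f2 : ∀ y, |f y| = g y := fun y => by
    rcases f1 y with k | k <;> simp [k.1, abs_of_nonneg (g3 y).1]
  have v : ∑ i ∈ T, (ρ i)⁻¹ * μ.real (ball (c i x) (2 * ρ i)) ≤ β * r ^ (m + 2) / r := by
    rw [le_div_iff₀ (by positivity), Finset.sum_mul] at c3
    refine (Finset.sum_le_sum fun i hi => ?_).trans c3
    have := (hρ i).1
    refine (mul_le_mul_of_nonneg_left (hvol _ (closedBall_subset_ball (by linarith) (c1 i hi).1)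
      _ (by positivity) (by linarith [(hρ i).2.1])).2 (by positivity)).trans_eq ?_
    rw [mul_pow]
    field_simp
    ring
  refine ⟨f, D.lip f f0, fun y => f2 y ▸ (g3 y).2, ?_, le_trans ?_ v, fun y => ?_⟩
  · refine (measureReal_mono (s₂ := ⋃ i ∈ T, ball (c i x) (2 * ρ i)) (fun y hy => ?_)
      (measure_biUnion_ne_top T.finite_toSet fun i _ => (D.fin _ _).ne)).trans
      ((measureReal_biUnion_finset_le _ _).trans ?_)
    · refine by_contra fun k => hy.2 ?_
      simp only [mem_iUnion, not_exists] at k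
      simp only [f2, hg, Pi.sub_apply, Finset.sum_apply, ζ2 y (ball_subset_closedBall hy.1)]
      rw [Finset.sum_eq_zero fun i hi => χ3 i y (k i hi)]
      simp
    · rw [le_div_iff₀ hr, Finset.sum_mul] at v
      refine (Finset.sum_le_sum fun i _ => ?_).trans v
      rw [mul_right_comm, ← div_eq_inv_mul]
      exact le_mul_of_one_le_left measureReal_nonneg ((one_le_div (hρ i).1).2 (hρ i).2.2)
  · have ii : ∀ i, Integrable ((ball (c i x) (2 * ρ i)).indicator fun _ => (ρ i)⁻¹) μ := fun i =>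
      (integrableOn_const (D.fin _ _).ne).integrable_indicator measurableSet_ball
    have e : ∀ i ∈ T, (ρ i)⁻¹ * μ.real (ball (c i x) (2 * ρ i)) =
        ∫ y, (ball (c i x) (2 * ρ i)).indicator (fun _ => (ρ i)⁻¹) y ∂μ := fun i _ => by
      rw [integral_indicator_const _ measurableSet_ball, smul_eq_mul, mul_comm]
    have wf := D.W_of_mem (D.lip _ f0)
    have wg := D.W_of_mem (D.lip _ g0)
    rw [Finset.sum_congr rfl e, ← integral_finsetSum _ fun i _ => ii i,
      ← integral_indicator measurableSet_ball]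
    refine integral_mono_of_nonneg (Eventually.of_forall fun y =>
      indicator_nonneg (fun _ _ => Real.sqrt_nonneg _) y) (integrable_finsetSum _ fun i _ => ii i) ?_
    have w := fun i => D.W_of_mem (D.lip _ (χ0 i))
    filter_upwards [S1, g1, DS.G_loc wf wg wf wg, DS.G_loc wf wg.neg wf wg.neg, DS.G_neg_neg wg wg,
      DS.G_sub_sub wζ wS, DS.G_level wζ wζ 1, DS.G_level wζ wS 1,
      ae_all_iff.2 fun i => DS.G_level (w i) (w i) 0,
      ae_all_iff.2 fun i => DS.G_le_lip (w i) isOpen_univ (L := (ρ i)⁻¹)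
        (fun y _ z _ => (χ4 i y z).trans_eq (by rw [div_eq_inv_mul]; ring_nf)) (inv_pos.2 (hρ i).1).le
        (Eventually.of_forall fun _ _ => rfl)] with y a1 a2 a3 a4 a5 a6 a7 a8 a9 a10
    have b1 : ∑ i ∈ T, √(D.G (χ i) (χ i) y) ≤
        ∑ i ∈ T, (ball (c i x) (2 * ρ i)).indicator (fun _ => (ρ i)⁻¹) y :=
      Finset.sum_le_sum fun i _ => by
        by_cases k : y ∈ ball (c i x) (2 * ρ i)
        · rw [indicator_of_mem k]
          exact Real.sqrt_le_iff.2 ⟨(inv_pos.2 (hρ i).1).le, a10 i trivial⟩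
        · simp [indicator_of_notMem k, a9 i (χ3 i y k)]
    refine le_trans ?_ (a1.trans b1)
    by_cases k : y ∈ ball x (2 * r)
    · have := ζ2 y (ball_subset_closedBall k)
      rw [indicator_of_mem k]
      refine Real.sqrt_le_sqrt ?_
      rw [a6, a7 this, a8 this] at a2
      rcases f1 y with j | j
      · simpa [a3 j.1 j.1] using a2
      · simpa [a4 j.1 j.1, a5] using a2
    · simp [indicator_of_notMem k]
  · have := (g3 y).1
    rcases f1 y with k | k <;> rw [k.1]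
    · exact ⟨fun j => (k.2 j).le, fun _ => this⟩
    · exact ⟨fun _ => neg_nonpos.2 this, fun j => neg_nonneg.2 (k.2 j).le⟩

theorem HP.cn {m : ℕ} (h : HP D κ (m + 2)) (h0 : N0 D (m + 2)) {A : Set X}
    (hA : IsOpen A) (hN : μH[(m : ℝ) + 1] Aᶜ = 0) {V : Set X} (hV : IsOpen V)
    (hc : IsPreconnected V) : IsPreconnected (V ∩ A) := by
  intro u v hu hv hs ⟨a, ha⟩ ⟨b, hb⟩
  by_contra hn
  have o1 := (hV.inter hA).inter hu
  have o2 := (hV.inter hA).inter hv
  have hd : Disjoint (V ∩ A ∩ u) (V ∩ A ∩ v) :=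
    disjoint_left.2 fun y h1 h2 => hn ⟨y, h1.1, h1.2, h2.2⟩
  have key : ∀ (x : X) (r : ℝ) (U : Set X), 0 < r → μ.real (ball x r \ U) ≤ 0 →
      x ∈ interior (closure U) := fun x r U hr k => by
    refine mem_interior.2 ⟨_, fun y hy => by_contra fun j => ?_, isOpen_ball, mem_ball_self hr⟩
    obtain ⟨s, s0, hs⟩ := Metric.isOpen_iff.1 (isOpen_ball.sdiff isClosed_closure) y ⟨hy, j⟩
    exact (h.real_pos y s0).not_ge ((measureReal_mono
      (hs.trans (sdiff_subset_sdiff_right subset_closure))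
      (measure_ne_top_of_subset sdiff_subset (D.fin x r).ne)).trans k)
  obtain ⟨y, -, h1, h2⟩ := hc (interior (closure (V ∩ A ∩ u))) (interior (closure (V ∩ A ∩ v)))
    isOpen_interior isOpen_interior (fun x hx => by
      obtain ⟨r₀, hr₀, hm⟩ := h.majx h0 x 1
      obtain ⟨s, s0, hs'⟩ := Metric.isOpen_iff.1 hV x hx
      have hr : 0 < min r₀ (s / 4) := by positivity
      set r := min r₀ (s / 4)
      by_contra k
      rw [mem_union, not_or] at k
      have p1 := not_le.1 fun j => k.1 (key x r _ hr j)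
      have p2 := not_le.1 fun j => k.2 (key x r _ hr j)
      have p3 := lt_min p1 p2
      obtain ⟨β, hβ, hm⟩ := hm (min _ _ / 2 / r ^ (m + 2)) (div_pos (half_pos p3) (by positivity))
      obtain ⟨f, hf, f1, f2, f3, f4⟩ := h.lof_fun h0 hA hN o1 o2 hd hr hβ (x := x) fun y hy => by
        have : y ∈ V ∩ A := ⟨hs' (closedBall_subset_ball
          (by linarith [min_le_right r₀ (s / 4)]) hy.1), hy.2⟩
        exact (hs this).imp (fun j => ⟨this, j⟩) fun j => ⟨this, j⟩
      obtain ⟨σ, hσ, hm⟩ := hm x (mem_ball_self one_pos) r hr (min_le_left _ _) f hf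
        (Eventually.of_forall f1) f2 f3
      rw [div_mul_cancel₀ _ (by positivity)] at hm
      have fi : μ {y | y ∈ ball x r ∧ f y ≠ σ} ≠ ⊤ :=
        measure_ne_top_of_subset (fun y hy => hy.1) (D.fin x _).ne
      refine ((half_lt_self p3).trans_le ?_).not_ge hm
      rcases hσ with rfl | rfl
      · exact (min_le_left _ _).trans (measureReal_mono
          (fun y hy => ⟨hy.1, by linarith [(f4 y).1 hy.2]⟩) fi)
      · exact (min_le_right _ _).trans (measureReal_mono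
          (fun y hy => ⟨hy.1, by linarith [(f4 y).2 hy.2]⟩) fi))
    ⟨a, ha.1.1, interior_maximal subset_closure o1 ha⟩
    ⟨b, hb.1.1, interior_maximal subset_closure o2 hb⟩
  exact disjoint_left.1 (((hd.closure_right o1).mono_right interior_subset).closure_left
    isOpen_interior) (interior_subset h1) h2

end RC
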