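import Pool.Agent.P.MP_6472e5_gt.LyD

/-! The interpolation used for the Li-Yau inequality: derivative and end points. -/

set_option autoImplicit false
set_option linter.unusedSectionVars false

noncomputable section

namespace RC

open MeasureTheory Set Filter Topology Metric

variable {X : Type} [MetricSpace X] [SecondCountableTopology X] [MeasurableSpace X] [BorelSpace X]
  {μ : Measure X} {D : DS μ} {κ : ℝ} {n : ℕ}

/-- The interpolating quantity. -/
def lyF (D : DS μ) (φ f : X → ℝ) (t δ s : ℝ) : ℝ :=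
  ∫ x, D.P s φ x * (D.G (D.P (t - s) f) (D.P (t - s) f) x / (D.P (t - s) f x + δ)) ∂μ

theorem lya2_psi {δ : ℝ} (hδ : 0 < δ) : ∃ (Φ Φ' : ℝ → ℝ) (L : NNReal), LipschitzWith L Φ ∧
    Φ 0 = 0 ∧ (∀ a, HasDerivAt Φ (Φ' a) a) ∧ Continuous Φ' ∧
    ∀ a, 0 ≤ a → Φ a = 1 / (a + δ) - 1 / δ ∧ Φ' a = -(1 / (a + δ) ^ 2) := by
  have hpos : ∀ a : ℝ, δ ≤ max a 0 + δ := fun a => le_add_of_nonneg_left (le_max_right a 0)
  have hc : Continuous fun a : ℝ => -(1 / (max a 0 + δ) ^ 2) := by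
    refine (continuous_const.div (by fun_prop) fun a => ?_).neg
    have := hδ.trans_le (hpos a)
    positivity
  have hd : ∀ a, HasDerivAt (fun b => ∫ x in (0 : ℝ)..b, -(1 / (max x 0 + δ) ^ 2))
      (-(1 / (max a 0 + δ) ^ 2)) a := fun a => (hc.integral_hasStrictDerivAt 0 a).hasDerivAt
  refine ⟨_, _, NNReal.mk (1 / δ ^ 2) (by positivity), ?_, ?_, hd, hc, fun a ha => ⟨?_, ?_⟩⟩
  · refine lipschitzWith_of_nnnorm_deriv_le (fun a => (hd a).differentiableAt) fun a => ?_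
    rw [(hd a).deriv, ← NNReal.coe_le_coe, coe_nnnorm, NNReal.coe_mk, Real.norm_eq_abs, abs_neg,
      abs_of_nonneg (by positivity)]
    exact one_div_le_one_div_of_le (by positivity) (pow_le_pow_left₀ hδ.le (hpos a) 2)
  · exact intervalIntegral.integral_same
  · have h1 : ∀ x ∈ uIcc (0 : ℝ) a, HasDerivAt (fun b => (b + δ)⁻¹)
        (-(1 / (max x 0 + δ) ^ 2)) x := by
      intro x hx
      rw [uIcc_of_le ha] at hx
      rw [max_eq_left hx.1]
      have h2 : x + δ ≠ 0 := by have := hx.1; positivity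
      have := ((hasDerivAt_id x).add_const δ).inv h2
      simp only [id] at this
      rw [← neg_div]
      exact this
    rw [intervalIntegral.integral_eq_sub_of_hasDerivAt h1 (hc.intervalIntegrable 0 a), zero_add,
      one_div, one_div]
  · rw [max_eq_left ha]

theorem lya2_bd (h : R1 D κ n) {φ : X → ℝ} (hφ : MemLp φ 2 μ) (bφ : Bdd μ φ) :
    ∃ M, 0 < M ∧ ∀ s, ∀ᵐ x ∂μ, |D.P s φ x| ≤ M := by
  obtain ⟨M, h0, hM⟩ := bφ.nonneg
  exact ⟨M, h0, fun s => (h.flow.markov φ s (-M) M hφ (by linarith) h0.le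
    (hM.mono fun x hx => abs_le.1 hx)).mono fun x hx => abs_le.2 hx⟩

theorem lya2_H (h : R1 D κ n) {f : X → ℝ} (hf : MemLp f 2 μ) (bf : Bdd μ f)
    (f0 : ∀ᵐ x ∂μ, 0 ≤ f x) {t δ : ℝ} (hδ : 0 < δ) {s : ℝ} (hs : s < t) :
    DerL1 μ (fun s x => D.G (D.P (t - s) f) (D.P (t - s) f) x / (D.P (t - s) f x + δ))
      (fun x => D.G (D.P (t - s) f) (D.P (t - s) f) x * D.L (t - s) f x /
        (D.P (t - s) f x + δ) ^ 2 -
        2 * D.G (D.P (t - s) f) (D.L (t - s) f) x / (D.P (t - s) f x + δ)) s := by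
  have := D.sfin
  have hp : 0 < t - s := sub_pos.2 hs
  obtain ⟨Φ, Φ', L, hL, h0, hd, hc, hΦ⟩ := lya2_psi hδ
  have hT := h.tb f _ hf bf hp
  have hV := (h.flow.derV f _ hf hp).rev
  have hG := hV.G_self
  have h2 := hV.derL2.chain hL h0 hd hc
  have hW := (h.derW f _ hf bf hp).rev
  have hb : Bdd μ fun x => Φ (D.P (t - s) f x) := by
    obtain ⟨C, hC⟩ := hT.bdd
    exact ⟨L * C, hC.mono fun x hx =>
      (ca2_abs hL h0 _).trans (mul_le_mul_of_nonneg_left hx L.2)⟩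
  have hW2 := h2.derW hb (by
    obtain ⟨C, hC⟩ := hW.2.2.2.2.1
    refine ⟨L * C, hC.mono fun k hk => hk.mono fun x hx => ?_⟩
    simp only [DQ, abs_div] at hx ⊢
    have := hL.dist_le_mul (D.P (t - (s + k)) f x) (D.P (t - s) f x)
    rw [Real.dist_eq, Real.dist_eq] at this
    refine (div_le_div_of_nonneg_right this (abs_nonneg k)).trans ?_
    rw [mul_div_assoc]
    exact mul_le_mul_of_nonneg_left hx L.2)
  refine ((hW2.mul_L1 h2 hG).add (hG.smul (hasDerivAt_const s (1 / δ)))).congr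
    (.of_forall fun r => ?_) ?_
  · filter_upwards [h.flow.pos f (t - r) hf f0] with x hx
    simp only [Pi.add_apply, Pi.smul_apply, smul_eq_mul, (hΦ _ hx).1]
    ring
  · have hw := D.W_of_mem hT.mem
    have hl := D.W_of_mem hT.memL
    filter_upwards [h.flow.pos f (t - s) hf f0, DS.G_symm hw hl.neg, DS.G_neg hl hw,
      DS.G_symm hl hw] with x hx e1 e2 e3
    simp only [Pi.add_apply, Pi.smul_apply, Pi.neg_apply, smul_eq_mul, (hΦ _ hx).1, (hΦ _ hx).2,
      e1, e2, e3]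
    ring

namespace R1

variable (h : R1 D κ n) {φ f : X → ℝ} (hφ : MemLp φ 2 μ) (bφ : Bdd μ φ) (hf : MemLp f 2 μ)
  (bf : Bdd μ f) (f0 : ∀ᵐ x ∂μ, 0 ≤ f x) {t δ : ℝ} (ht : 0 < t) (hδ : 0 < δ)
include h hφ bφ hf bf f0 ht hδ

theorem ly_der {s : ℝ} (hs : s ∈ Ioo 0 t) : HasDerivAt (lyF D φ f t δ)
    (∫ x, D.L s φ x * (D.G (D.P (t - s) f) (D.P (t - s) f) x / (D.P (t - s) f x + δ)) ∂μ +
      ∫ x, D.P s φ x * (D.G (D.P (t - s) f) (D.P (t - s) f) x * D.L (t - s) f x /
        (D.P (t - s) f x + δ) ^ 2 -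
        2 * D.G (D.P (t - s) f) (D.L (t - s) f) x / (D.P (t - s) f x + δ)) ∂μ) s :=
  (h.derW φ s hφ bφ hs.1).hasDerivAt_mul (lya2_H h hf bf f0 hδ hs.2)

theorem ly_zero : Tendsto (lyF D φ f t δ) (𝓝[>] 0)
    (𝓝 (∫ x, φ x * (D.G (D.P t f) (D.P t f) x / (D.P t f x + δ)) ∂μ)) := by
  obtain ⟨M, h0, hM⟩ := lya2_bd h hφ bφ
  have hH := lya2_H h hf bf f0 hδ ht
  have hT := h.tb f t hf bf ht
  have hi := hH.1.self_of_nhds
  have hc := hH.cont
  simp only [sub_zero] at hi hc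
  have hb : Bdd μ fun x => D.G (D.P t f) (D.P t f) x / (D.P t f x + δ) := by
    obtain ⟨C, hC⟩ := hT.bddG
    refine ⟨C / δ, ?_⟩
    filter_upwards [hC, h.flow.pos f t hf f0] with x h1 h2
    rw [abs_div, abs_of_pos (by positivity : 0 < D.P t f x + δ)]
    exact div_le_div₀ ((abs_nonneg _).trans h1) h1 hδ (by linarith)
  have hm := memLp_of_int_bdd hi hb
  have h1 := tendsto_integral_mul (l := 𝓝[>] (0 : ℝ)) (u := fun s => D.P s φ)
    (.of_forall fun s => h.flow.memLp φ s hφ) (.of_forall fun _ => hm) hφ hm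
    (h.flow.heat φ hφ).2 (by simp [n2])
  have h2 := ((hc.mono_left nhdsWithin_le_nhds).const_mul M).add h1
  rw [mul_zero, add_zero] at h2
  rw [tendsto_iff_norm_sub_tendsto_zero]
  refine squeeze_zero' (.of_forall fun _ => norm_nonneg _) ?_ h2
  filter_upwards [nhdsWithin_le_nhds hH.1] with s hs
  have hP := h.flow.memLp φ s hφ
  have i1 := Bdd.mul_integrable ⟨M, hM s⟩ hP.1 hs
  have i2 := integrable_mul_of_memLp hφ hm
  have i3 := integrable_mul_of_memLp hP hm
  rw [lyF, ← integral_sub i1 i2, ← integral_const_mul]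
  refine le_trans ?_ (integral_add ((hs.sub hi).abs.const_mul M) (i3.sub i2).abs).le
  refine norm_integral_le_of_norm_le (((hs.sub hi).abs.const_mul M).add (i3.sub i2).abs) ?_
  filter_upwards [hM s] with x hx
  have key : ∀ p q a b : ℝ, |p| ≤ M → |p * a - q * b| ≤ M * |a - b| + |p * b - q * b| := by
    intro p q a b hp
    rw [show p * a - q * b = p * (a - b) + (p * b - q * b) by ring]
    refine (abs_add_le _ _).trans (add_le_add_left ?_ _)
    rw [abs_mul]
    exact mul_le_mul_of_nonneg_right hp (abs_nonneg _)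
  exact key _ _ _ _ hx

theorem ly_end : Tendsto (fun s => (t - s) ^ 2 * lyF D φ f t δ s) (𝓝[<] t) (𝓝 0) := by
  obtain ⟨M, h0, hM⟩ := lya2_bd h hφ bφ
  have h1 : Tendsto (fun s => (t - s) * (M / δ * n2 μ f)) (𝓝[<] t) (𝓝 0) := by
    have : Continuous fun s => (t - s) * (M / δ * n2 μ f) := by fun_prop
    simpa using (this.tendsto t).mono_left nhdsWithin_le_nhds
  refine squeeze_zero_norm' ?_ h1
  filter_upwards [self_mem_nhdsWithin] with s hs
  have hp : 0 < t - s := sub_pos.2 hs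
  have hT := h.tb f _ hf bf hp
  have h2 : ‖lyF D φ f t δ s‖ ≤ M / δ * D.E (D.P (t - s) f) := by
    rw [lyF, DS.E, ← integral_const_mul]
    refine norm_integral_le_of_norm_le ((DS.G_int hT.mem hT.mem).const_mul _) ?_
    filter_upwards [hM s, h.flow.pos f (t - s) hf f0, DS.G_nonneg (D.W_of_mem hT.mem)]
      with x e1 e2 e3
    rw [Real.norm_eq_abs, abs_mul, abs_of_nonneg (div_nonneg e3 (by positivity))]
    calc _ ≤ M * (D.G (D.P (t - s) f) (D.P (t - s) f) x / δ) :=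
          mul_le_mul e1 (div_le_div_of_nonneg_left e3 hδ (by linarith))
            (div_nonneg e3 (by positivity)) h0.le
      _ = _ := by ring
  have h3 := h2.trans (mul_le_mul_of_nonneg_left (h.flow.E_le f _ hf hp) (by positivity))
  rw [norm_mul, Real.norm_of_nonneg (sq_nonneg _)]
  refine (mul_le_mul_of_nonneg_left h3 (sq_nonneg _)).trans_eq ?_
  field_simp

end R1

end RC
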