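import Pool.Agent.P.MP_6472e5_gt.LyA1
import Pool.Agent.P.MP_6472e5_gt.LyA2

/-! The Li-Yau inequality. -/

set_option autoImplicit false
set_option linter.unusedSectionVars false

noncomputable section

namespace RC

open MeasureTheory Set Filter Topology Metric

variable {X : Type} [MetricSpace X] [SecondCountableTopology X] [MeasurableSpace X] [BorelSpace X]
  {μ : Measure X} {D : DS μ} {κ : ℝ} {n : ℕ}

theorem R1.lya_test (h : R1 D κ n) {φ f : X → ℝ} (hφ : LipB φ) (φ0 : ∀ x, 0 ≤ φ x)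
    (hf : MemLp f 2 μ) (bf : Bdd μ f) (f0 : ∀ᵐ x ∂μ, 0 ≤ f x) {t δ : ℝ} (ht : 0 < t)
    (hδ : 0 < δ) :
    ∫ x, φ x * (D.G (D.P t f) (D.P t f) x / (D.P t f x + δ)) ∂μ ≤
      (1 + 2 * κ * t / 3) * ∫ x, φ x * D.L t f x ∂μ +
        n / 2 * (1 / t + κ + κ ^ 2 * t / 3) * ∫ x, φ x * (D.P t f x + δ) ∂μ := by
  have F := h.flow
  have mφ := D.lipB_memLp hφ
  have iφ := D.lipB_int hφ
  have bφ : Bdd μ φ := hφ.bdd
  obtain ⟨A, hA⟩ : ∃ A, A = ∫ x, φ x * D.L t f x ∂μ := ⟨_, rfl⟩
  obtain ⟨B, hB⟩ : ∃ B, B = ∫ x, φ x * (D.P t f x + δ) ∂μ := ⟨_, rfl⟩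
  have hn : (0 : ℝ) < n := Nat.cast_pos.2 h.n_pos
  let b : ℝ → ℝ := fun s => ((t - s) ^ 2 + 2 * κ * (t - s) ^ 3 / 3) * A +
    n / 2 * ((t - s) + κ * (t - s) ^ 2 + κ ^ 2 * (t - s) ^ 3 / 3) * B
  have cb : Continuous b := by fun_prop
  have dt : ∀ s, HasDerivAt (fun s => t - s) (-1) s := fun s => (hasDerivAt_id s).const_sub t
  have db : ∀ s, HasDerivAt b
      (-(2 * (t - s) + 2 * κ * (t - s) ^ 2) * A - n / 2 * (1 + κ * (t - s)) ^ 2 * B) s := by
    intro s
    refine (((((dt s).pow 2).add ((((dt s).pow 3).const_mul (2 * κ)).div_const 3)).mul_const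
      A).add (((((dt s).add (((dt s).pow 2).const_mul κ)).add
        ((((dt s).pow 3).const_mul (κ ^ 2)).div_const 3)).const_mul (n / 2 : ℝ)).mul_const
          B)).congr_deriv ?_
    simp only [Nat.cast_ofNat, Nat.add_one_sub_one, pow_one]
    ring
  have z1 : Tendsto (fun s : ℝ => (t - s) ^ 2) (𝓝[>] 0) (𝓝 ((t - 0) ^ 2)) :=
    (Continuous.tendsto (by fun_prop) 0).mono_left nhdsWithin_le_nhds
  have key := sub_ge_of_deriv' ht (z1.mul (h.ly_zero mφ bφ hf bf f0 ht hδ))
    (h.ly_end mφ bφ hf bf f0 ht hδ) ((cb.tendsto 0).mono_left nhdsWithin_le_nhds)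
    ((cb.tendsto t).mono_left nhdsWithin_le_nhds)
    (fun s hs => ((dt s).pow 2).mul (h.ly_der mφ bφ hf bf f0 ht hδ hs)) (fun s _ => db s)
    (fun s hs => by
      have hτ : 0 < t - s := sub_pos.2 hs.2
      have hh := (F.heat φ mφ).1 s hs.1
      have mL := D.memLp _ (F.L_mem f (t - s) hf hτ)
      have mP := F.memLp f (t - s) hf
      have h1 := h.ly_static hh.1 (h.tb φ s mφ bφ hs.1).bdd (F.l1 φ s mφ iφ).1
        (F.pos φ s mφ (ae_of_all _ φ0)) hh.2.1 (D.memLp _ (F.L_mem φ s mφ hs.1))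
        (h.tb f (t - s) hf bf hτ) (F.pos f (t - s) hf f0) hδ (-(n / 2) * (1 / (t - s) + κ))
      have h2 : ∫ x, D.P s φ x * D.L (t - s) f x ∂μ = A := by
        rw [F.symm φ _ s mφ mL, hA]
        refine integral_congr_ae ?_
        have := F.L_semi f s (t - s) hf hs.1.le hτ
        rw [add_sub_cancel] at this
        filter_upwards [this] with x hx
        rw [hx]
      have h3 : ∫ x, D.P s φ x * (D.P (t - s) f x + δ) ∂μ = B := by
        simp only [hB, mul_add]
        rw [integral_add (integrable_mul_of_memLp (F.memLp φ s mφ) mP)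
          ((F.l1 φ s mφ iφ).1.mul_const δ), integral_add
          (integrable_mul_of_memLp mφ (F.memLp f t hf)) (iφ.mul_const δ), integral_mul_const,
          integral_mul_const, h.cons φ s mφ iφ, F.symm φ _ s mφ mP]
        congr 1
        refine integral_congr_ae ?_
        have := F.semi f s (t - s) hf hs.1.le hτ.le
        rw [add_sub_cancel] at this
        filter_upwards [this] with x hx
        rw [hx]
      rw [h2, h3] at h1
      have h4 := mul_le_mul_of_nonneg_left h1 (sq_nonneg (t - s))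
      simp only [Pi.pow_apply, Nat.cast_ofNat, Nat.add_one_sub_one, pow_one, lyF]
      refine le_trans (le_of_eq ?_) (add_le_add le_rfl h4)
      field_simp
      ring)
  simp only [b, sub_self, sub_zero] at key
  rw [← hA, ← hB]
  refine le_of_mul_le_mul_left ?_ (pow_pos ht 2)
  have e : t ^ 2 * ((1 + 2 * κ * t / 3) * A + n / 2 * (1 / t + κ + κ ^ 2 * t / 3) * B) =
      (t ^ 2 + 2 * κ * t ^ 3 / 3) * A + n / 2 * (t + κ * t ^ 2 + κ ^ 2 * t ^ 3 / 3) * B := by
    field_simp
  rw [e]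
  linarith only [key]

theorem R1.ly_main (h : R1 D κ n) : LyY D κ n := by
  intro f t δ hf bf f0 ht hδ
  have F := h.flow
  have hw := h.tb f t hf bf ht
  have w0 := F.pos f t hf f0
  have mL := D.memLp _ hw.memL
  have mP := D.memLp _ hw.mem
  have br : Bdd μ fun x => (D.P t f x + δ)⁻¹ := ⟨δ⁻¹, w0.mono fun x hx => by
    have : 0 < D.P t f x + δ := by linarith
    rw [abs_of_pos (inv_pos.2 this)]
    exact inv_anti₀ hδ (by linarith)⟩
  have mr : AEStronglyMeasurable (fun x => (D.P t f x + δ)⁻¹) μ :=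
    (mP.1.aemeasurable.add_const δ).inv.aestronglyMeasurable
  have i1 : Integrable (fun x => D.G (D.P t f) (D.P t f) x / (D.P t f x + δ)) μ :=
    (br.mul_integrable mr (DS.G_int hw.mem hw.mem)).congr (ae_of_all _ fun x => by ring)
  have l1 : LocInt μ fun x => D.P t f x + δ :=
    (D.locInt_of_memLp mP).add (D.locInt_of_locBdd aestronglyMeasurable_const (Bdd.const δ).locBdd)
  have l2 : LocInt μ fun x => (1 + 2 * κ * t / 3) * D.L t f x +
      n / 2 * (1 / t + κ + κ ^ 2 * t / 3) * (D.P t f x + δ) :=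
    ((D.locInt_of_memLp mL).smul _).add (l1.smul _)
  have key := D.ae_le_of_test (locInt_of_int i1) l2 isOpen_univ fun φ hφ _ φ0 => by
    refine (h.lya_test hφ φ0 hf bf f0 ht hδ).trans_eq ?_
    have j1 := integrable_mul_of_memLp (D.lipB_memLp hφ) mL
    have j2 : Integrable (fun x => φ x * (D.P t f x + δ)) μ :=
      (l1.mul_lipB hφ).congr (ae_of_all _ fun x => mul_comm _ _)
    rw [← integral_const_mul, ← integral_const_mul, ← integral_add (j1.const_mul _) (j2.const_mul _)]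
    exact integral_congr_ae (ae_of_all _ fun x => by ring)
  filter_upwards [key, w0] with x h1 h2
  have h3 := h1 (mem_univ x)
  rwa [div_le_iff₀' (by linarith)] at h3

end RC
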