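import Pool.Agent.P.MP_6472e5_gt.LyD

/-! The Bochner inequality for the logarithm of a positive function. -/

set_option autoImplicit false
set_option linter.unusedSectionVars false

noncomputable section

namespace RC

open MeasureTheory Set Filter Topology Metric

variable {X : Type} [MetricSpace X] [SecondCountableTopology X] [MeasurableSpace X] [BorelSpace X]
  {μ : Measure X} {D : DS μ} {κ : ℝ} {n : ℕ}

theorem lya1_d1 {δ t : ℝ} (ht : t ∈ Ioi (-δ)) :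
    HasDerivAt (fun a => Real.log (a + δ) - Real.log δ) (t + δ)⁻¹ t := by
  have h0 : t + δ ≠ 0 := by have := mem_Ioi.1 ht; linarith
  simpa using (((hasDerivAt_id t).add_const δ).log h0).sub_const (Real.log δ)

theorem lya1_d2 {δ t : ℝ} (ht : t ∈ Ioi (-δ)) :
    HasDerivAt (fun a => (a + δ)⁻¹) (-(t + δ)⁻¹ ^ 2) t := by
  have h0 : t + δ ≠ 0 := by have := mem_Ioi.1 ht; linarith
  refine (((hasDerivAt_id t).add_const δ).inv h0).congr_deriv ?_
  simp only [id]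
  field_simp

theorem lya1_d3 {δ t : ℝ} (ht : t ∈ Ioi (-δ)) :
    HasDerivAt (fun a => -(a + δ)⁻¹ ^ 2) (2 * (t + δ)⁻¹ ^ 3) t := by
  refine ((lya1_d2 ht).pow 2).neg.congr_deriv ?_
  simp only [Nat.cast_ofNat, Nat.add_one_sub_one, pow_one]
  ring

theorem lya1_c {δ : ℝ} : ContinuousOn (fun a : ℝ => (a + δ)⁻¹) (Ioi (-δ)) :=
  fun _ ht => (lya1_d2 ht).continuousAt.continuousWithinAt

theorem lya1_alg {N κ γ Q u r Lw W A B a b c d e f g : ℝ} (hN : 0 < N) (hQ : 0 ≤ Q) (hu : 0 < u)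
    (hr : r = u⁻¹) (hg : g = r * (r * W)) (ha : a = u * A + g * B) (hb : b = Q * c + g * B)
    (hd : d = Q * c + u * A) (he : e = r * (r * f + Lw * (-r ^ 2 * W) - c)) :
    4 * γ / N * (Q * Lw) - 2 * γ ^ 2 / N * (Q * u) - (4 * γ / N + 2 * κ) * (Q * (W / u)) ≤
      -a + Q * (W * Lw / u ^ 2 - 2 * f / u) + (b + Lw * (Q * g)) +
        (2 * (Q * u * ((r * Lw + -r ^ 2 * W) ^ 2 / N + e - κ * g)) + d) := by
  subst ha hb hd he hg hr
  have h1 : 0 ≤ 2 * Q * u * (u⁻¹ * Lw + -u⁻¹ ^ 2 * W - γ) ^ 2 / N := by positivity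
  refine sub_nonneg.1 (h1.trans_eq ?_)
  field_simp
  ring

theorem R1.ly_static (h : R1 D κ n) {Q LQ w Lw : X → ℝ} (hQ : Q ∈ D.V) (bQ : Bdd μ Q)
    (iQ : Integrable Q μ) (Q0 : ∀ᵐ x ∂μ, 0 ≤ Q x) (lQ : D.Lap Q LQ) (mL : MemLp LQ 2 μ)
    (hw : D.Tb w Lw) (w0 : ∀ᵐ x ∂μ, 0 ≤ w x) {δ : ℝ} (hδ : 0 < δ) (γ : ℝ) :
    4 * γ / n * ∫ x, Q x * Lw x ∂μ - 2 * γ ^ 2 / n * ∫ x, Q x * (w x + δ) ∂μ -
        (4 * γ / n + 2 * κ) * ∫ x, Q x * (D.G w w x / (w x + δ)) ∂μ ≤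
      ∫ x, LQ x * (D.G w w x / (w x + δ)) ∂μ +
        ∫ x, Q x * (D.G w w x * Lw x / (w x + δ) ^ 2 - 2 * D.G w Lw x / (w x + δ)) ∂μ := by
  obtain ⟨M, hM0, hM⟩ := hw.bdd.nonneg
  have hin : ∀ᵐ x ∂μ, w x ∈ Icc 0 M := by
    filter_upwards [w0, hM] with x h1 h2 using ⟨h1, (abs_le.1 h2).2⟩
  have hKO : Icc 0 M ⊆ Ioi (-δ) := fun a ha => lt_of_lt_of_le (neg_neg_of_pos hδ) ha.1
  have hloc : LocIn μ w (Ioi (-δ)) := fun _ _ =>
    ⟨_, isCompact_Icc, hKO, hin.mono fun _ hx _ => hx⟩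
  have hv := h.tb_comp hw isCompact_Icc isOpen_Ioi hKO ⟨le_rfl, hM0.le⟩ hin
    (Φ := fun a => Real.log (a + δ) - Real.log δ) (by simp) (fun _ => lya1_d1) (fun _ => lya1_d2)
    (fun _ => lya1_d3) (continuousOn_const.mul (lya1_c.pow 3))
  have Ww := hw.W
  have WL := hw.WL
  have WQ := D.W_of_mem hQ
  have cv := fun k (hk : D.W k) =>
    Ww.chain hk isOpen_Ioi hloc (fun _ => lya1_d1) lya1_c
  have Wr := Ww.comp isOpen_Ioi hloc (fun _ => lya1_d2) (lya1_c.pow 2).neg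
  have cr := Ww.chain Ww isOpen_Ioi hloc (fun _ => lya1_d2) (lya1_c.pow 2).neg
  obtain ⟨v, hvd⟩ : ∃ v : X → ℝ, v = fun x => Real.log (w x + δ) - Real.log δ := ⟨_, rfl⟩
  obtain ⟨r, hrd⟩ : ∃ r : X → ℝ, r = fun x => (w x + δ)⁻¹ := ⟨_, rfl⟩
  obtain ⟨Lv, hLv⟩ : ∃ Lv : X → ℝ, Lv = fun x => r x * Lw x + -r x ^ 2 * D.G w w x := ⟨_, rfl⟩
  replace hv : D.Tb v Lv := by rw [hLv, hvd, hrd]; exact hv
  replace cv : ∀ k, D.W k → ∀ᵐ x ∂μ, D.G v k x = r x * D.G w k x := by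
    rw [hvd, hrd]; exact cv
  replace Wr : D.W r := by rw [hrd]; exact Wr
  replace cr : ∀ᵐ x ∂μ, D.G r w x = -r x ^ 2 * D.G w w x := by rw [hrd]; exact cr
  have br : Bdd μ r := ⟨δ⁻¹, w0.mono fun x hx => by
    have : 0 < w x + δ := by linarith
    rw [hrd, abs_of_pos (inv_pos.2 this)]
    exact inv_anti₀ hδ (by linarith)⟩
  obtain ⟨g, hgd⟩ : ∃ g, g = D.G v v := ⟨_, rfl⟩
  have hg : g ∈ D.V := hgd ▸ h.sav v Lv hv
  have bg : Bdd μ g := hgd ▸ hv.bddG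
  have Wg := D.W_of_mem hg
  have eg : ∀ᵐ x ∂μ, g x = r x * (r x * D.G w w x) := by
    filter_upwards [cv v hv.W, cv w Ww, DS.G_symm Ww hv.W] with x h1 h2 h3
    rw [hgd, h1, h3, h2]
  have WrL : D.W (r * Lw) := Wr.mul WL br.locBdd hw.bddL.locBdd
  have eL : Lv =ᵐ[μ] r * Lw - g := by
    filter_upwards [eg] with x h1
    simp only [hLv, Pi.sub_apply, Pi.mul_apply, h1]
    ring
  have e5 : ∀ᵐ x ∂μ, D.G v Lv x =
      r x * (r x * D.G w Lw x + Lw x * (-r x ^ 2 * D.G w w x) - D.G w g x) := by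
    filter_upwards [cv Lv hv.WL, DS.G_congr Ww hv.WL (EventuallyEq.refl _ _) eL,
      DS.G_sub_right Ww WrL Wg, DS.G_mul_right Wr WL WrL Ww, DS.G_symm Ww Wr, cr]
      with x h1 h2 h3 h4 h5 h6
    rw [h1, h2, h3, h4, h5, h6]
  have hwg := D.mul_mem hw.mem hg hw.bdd bg
  have hH : w * g + δ • g ∈ D.V := D.add _ hwg _ (D.smul δ _ hg)
  have hQw := D.mul_mem hQ hw.mem bQ hw.bdd
  have hψ : Q * w + δ • Q ∈ D.V := D.add _ hQw _ (D.smul δ _ hQ)
  have bψ : Bdd μ (Q * w + δ • Q) := (bQ.mul hw.bdd).add (bQ.smul δ)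
  have hQg := D.mul_mem hQ hg bQ bg
  have e1 : ∀ᵐ x ∂μ, D.G Q (w * g + δ • g) x = (w x + δ) * D.G Q g x + g x * D.G Q w x := by
    filter_upwards [DS.G_add_right WQ (D.W_of_mem hwg) (Wg.smul δ),
      DS.G_mul_right Ww Wg (D.W_of_mem hwg) WQ, DS.G_smul_right δ WQ Wg] with x h1 h2 h3
    rw [h1, h2, h3]; ring
  have e2 : ∀ᵐ x ∂μ, D.G w (Q * g) x = Q x * D.G w g x + g x * D.G Q w x := by
    filter_upwards [DS.G_mul_right WQ Wg (D.W_of_mem hQg) Ww, DS.G_symm Ww WQ] with x h1 h2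
    rw [h1, h2]
  have e3 : ∀ᵐ x ∂μ, D.G (Q * w + δ • Q) g x = Q x * D.G w g x + (w x + δ) * D.G Q g x := by
    filter_upwards [DS.G_add (D.W_of_mem hQw) (WQ.smul δ) Wg,
      DS.G_mul WQ Ww (D.W_of_mem hQw) Wg, DS.G_smul δ WQ Wg] with x h1 h2 h3
    rw [h1, h2, h3]; ring
  have t1 : ∫ x, LQ x * (D.G w w x / (w x + δ)) ∂μ = -∫ x, D.G Q (w * g + δ • g) x ∂μ := by
    rw [lQ.test hQ mL hH, neg_neg]
    refine integral_congr_ae ?_
    filter_upwards [eg, w0] with x h1 h2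
    have : w x + δ ≠ 0 := by linarith
    simp only [Pi.add_apply, Pi.mul_apply, Pi.smul_apply, smul_eq_mul, h1, hrd]
    field_simp
  have t2 := hw.lap.test hw.mem (D.memLp _ hw.memL) hQg
  have t3 := h.be1 v Lv hv _ hψ bψ (by
    filter_upwards [Q0, w0] with x h1 h2
    simp only [Pi.add_apply, Pi.mul_apply, Pi.smul_apply, smul_eq_mul]
    positivity)
  rw [← hgd] at t3
  have mQ := D.aesm hQ
  have mr := Wr.aesm
  have i1 : Integrable (fun x => Q x * Lw x) μ :=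
    integrable_mul_of_memLp (D.memLp _ hQ) (D.memLp _ hw.memL)
  have i2 : Integrable (fun x => Q x * (w x + δ)) μ :=
    ((integrable_mul_of_memLp (D.memLp _ hQ) (D.memLp _ hw.mem)).add (iQ.mul_const δ)).congr
      (ae_of_all _ fun x => by simp only [Pi.add_apply]; ring)
  have j1 := br.mul_integrable mr (DS.G_int hw.mem hw.mem)
  have i3 : Integrable (fun x => Q x * (D.G w w x / (w x + δ))) μ :=
    (bQ.mul_integrable mQ j1).congr (ae_of_all _ fun x => by simp only [hrd]; ring)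
  have i4 := DS.G_int hQ hH
  have i5 : Integrable
      (fun x => Q x * (D.G w w x * Lw x / (w x + δ) ^ 2 - 2 * D.G w Lw x / (w x + δ))) μ :=
    (bQ.mul_integrable mQ ((hw.bddL.mul_integrable WL.aesm (br.mul_integrable mr j1)).sub
      ((br.mul_integrable mr (DS.G_int hw.mem hw.memL)).const_mul 2))).congr
      (ae_of_all _ fun x => by
        simp only [hrd, Pi.sub_apply, div_eq_mul_inv, ← inv_pow]; ring)
  have i6 := DS.G_int hw.mem hQg
  have i7 : Integrable (fun x => Lw x * (Q * g) x) μ :=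
    integrable_mul_of_memLp (D.memLp _ hw.memL) (D.memLp _ hQg)
  have i8 : Integrable (fun x => (Q * w + δ • Q) x *
      (Lv x ^ 2 / n + D.G v Lv x - κ * g x)) μ :=
    bψ.mul_integrable (D.aesm hψ) ((((D.memLp _ hv.memL).integrable_sq.div_const _).add
      (DS.G_int hv.mem hv.memL)).sub ((hgd ▸ DS.G_int hv.mem hv.mem :
        Integrable g μ).const_mul κ))
  have i9 := DS.G_int hψ hg
  have hn : (0 : ℝ) < n := Nat.cast_pos.2 h.n_pos
  have key := integral_mono_ae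
    (((i1.const_mul (4 * γ / n)).sub (i2.const_mul (2 * γ ^ 2 / n))).sub
      (i3.const_mul (4 * γ / n + 2 * κ)))
    (((i4.neg.add i5).add (i6.add i7)).add ((i8.const_mul 2).add i9)) (by
      filter_upwards [Q0, w0, eg, e1, e2, e3, e5] with x h1 h2 h3 h4 h5 h6 h7
      have := lya1_alg (κ := κ) (γ := γ) hn h1 (show 0 < w x + δ by linarith)
        (congrFun hrd x) h3 h4 h5 h6 h7
      simp only [Pi.add_apply, Pi.sub_apply, Pi.neg_apply, Pi.mul_apply, Pi.smul_apply,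
        smul_eq_mul]
      refine this.trans_eq ?_
      simp only [hLv]
      ring)
  rw [integral_sub' ((i1.const_mul _).sub (i2.const_mul _)) (i3.const_mul _),
    integral_sub' (i1.const_mul _) (i2.const_mul _),
    integral_add' ((i4.neg.add i5).add (i6.add i7)) ((i8.const_mul 2).add i9),
    integral_add' (i4.neg.add i5) (i6.add i7), integral_add' i4.neg i5, integral_add' i6 i7,
    integral_add' (i8.const_mul 2) i9, integral_neg'] at key
  simp only [integral_const_mul] at key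
  rw [t1]
  linarith only [key, t2, t3]

end RC
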