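import Pool.Agent.P.MP_6472e5_gt.LyG

/-! Pointwise regularity of the flow of bounded data. -/

set_option autoImplicit false
set_option linter.unusedSectionVars false

noncomputable section

namespace RC

open MeasureTheory Set Filter Topology Metric

variable {X : Type} [MetricSpace X] [SecondCountableTopology X] [MeasurableSpace X] [BorelSpace X]
  {μ : Measure X} {D : DS μ} {κ : ℝ} {n : ℕ}

theorem lyb_Lbd (h : R1 D κ n) {g : X → ℝ} (hg : MemLp g 2 μ) (bg : Bdd μ g) {a : ℝ} (ha : 0 < a)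
    (b : ℝ) : ∃ K, 0 ≤ K ∧ ∀ s ∈ Icc a b, ∀ᵐ x ∂μ, |D.L s g x| ≤ K := by
  obtain ⟨M, hM⟩ := bg
  refine ⟨√(n * Real.exp (2 * κ * b) * M ^ 2 / a ^ 2), Real.sqrt_nonneg _, fun s hs => ?_⟩
  have hs0 : 0 < s := ha.trans_le hs.1
  filter_upwards [h.L_le g s M hg hM hs0] with x hx
  refine Real.abs_le_sqrt (hx.trans ?_)
  have hκ := h.κ_nonneg
  have h1 := hs.1
  have h2 := hs.2
  gcongr

theorem lyb_der (h : R1 D κ n) {g : X → ℝ} (hg : MemLp g 2 μ) {s : ℝ} (hs : 0 < s) :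
    DerL2 μ (fun s => D.P s g) (D.L s g) s := ((h.flow.heat g hg).1 s hs).2.2

theorem lyb_P (h : R1 D κ n) {g : X → ℝ} (hg : MemLp g 2 μ) (bg : Bdd μ g) {a : ℝ} (ha : 0 < a)
    (b : ℝ) : ∃ K, 0 ≤ K ∧ ∀ s ∈ Icc a b, ∀ t ∈ Icc a b, ∀ᵐ x ∂μ,
      |D.P t g x - D.P s g x| ≤ K * |t - s| := by
  obtain ⟨K, hK, hb⟩ := lyb_Lbd h hg bg ha b
  have key : ∀ s ∈ Icc a b, ∀ t ∈ Icc a b, s ≤ t → ∀ᵐ x ∂μ,
      |D.P t g x - D.P s g x| ≤ K * |t - s| := by
    intro s hs t ht hst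
    have := D.ly_mv (u := fun s => D.P s g) (w := fun s => D.L s g) (z := 0) (K := K) hst
      (fun r hr => lyb_der h hg (ha.trans_le (hs.1.trans hr.1))) MemLp.zero
      (fun r hr => (hb r ⟨hs.1.trans hr.1, hr.2.trans ht.2⟩).mono fun x hx => by simpa using hx)
    filter_upwards [this] with x hx
    rw [abs_of_nonneg (sub_nonneg.2 hst)]
    simpa using hx
  refine ⟨K, hK, fun s hs t ht => ?_⟩
  rcases le_total s t with hst | hst
  · exact key s hs t ht hst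
  · filter_upwards [key t ht s hs hst] with x hx
    rwa [abs_sub_comm, abs_sub_comm t]

theorem lyb_memL (h : R1 D κ n) {f : X → ℝ} (hf : MemLp f 2 μ) {c : ℝ} (hc : 0 < c) :
    MemLp (D.L c f) 2 μ := D.memLp _ (h.flow.L_mem f c hf hc)

theorem lyb_L (h : R1 D κ n) {f : X → ℝ} (hf : MemLp f 2 μ) (bf : Bdd μ f) {a : ℝ} (ha : 0 < a)
    (b : ℝ) : ∃ K, 0 ≤ K ∧ ∀ s ∈ Icc a b, ∀ t ∈ Icc a b, ∀ᵐ x ∂μ,
      |D.L t f x - D.L s f x| ≤ K * |t - s| := by
  have hc : 0 < a / 2 := half_pos ha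
  obtain ⟨K, hK, hb⟩ := lyb_P h (lyb_memL h hf hc) (h.tb f (a / 2) hf bf hc).bddL hc (b - a / 2)
  refine ⟨K, hK, fun s hs t ht => ?_⟩
  have e : ∀ r ∈ Icc a b, D.L r f =ᵐ[μ] D.P (r - a / 2) (D.L (a / 2) f) := fun r hr => by
    have := h.flow.L_semi f (r - a / 2) (a / 2) hf (by linarith [hr.1]) hc
    rwa [sub_add_cancel] at this
  filter_upwards [e s hs, e t ht, hb (s - a / 2) ⟨by linarith [hs.1], by linarith [hs.2]⟩
    (t - a / 2) ⟨by linarith [ht.1], by linarith [ht.2]⟩] with x h1 h2 h3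
  rw [h1, h2]
  rwa [sub_sub_sub_cancel_right] at h3

theorem lyb_joint (hp : ∀ x r, 0 < r → 0 < μ (ball x r)) {w u : ℝ → X → ℝ}
    (hc : ∀ t, 0 < t → Continuous (u t)) (he : ∀ t, 0 < t → w t =ᵐ[μ] u t)
    (hb : ∀ a, 0 < a → ∀ b, ∃ K, 0 ≤ K ∧ ∀ s ∈ Icc a b, ∀ t ∈ Icc a b, ∀ᵐ x ∂μ,
      |w t x - w s x| ≤ K * |t - s|) :
    ContinuousOn (fun a : ℝ × X => u a.1 a.2) (Ioi 0 ×ˢ univ) := by
  rintro ⟨t₀, x₀⟩ ⟨ht₀, -⟩
  have ht : 0 < t₀ := ht₀
  refine ContinuousAt.continuousWithinAt ?_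
  obtain ⟨K, -, hK⟩ := hb (t₀ / 2) (half_pos ht) (t₀ + 1)
  have m₀ : t₀ ∈ Icc (t₀ / 2) (t₀ + 1) := ⟨by linarith, by linarith⟩
  have key : ∀ t ∈ Icc (t₀ / 2) (t₀ + 1), ∀ x, |u t x - u t₀ x| ≤ K * |t - t₀| := by
    intro t hm x
    have h0 : 0 < t := (half_pos ht).trans_le hm.1
    refine le_of_ae_le hp isOpen_univ (f := fun x => |u t x - u t₀ x|) (g := fun _ => K * |t - t₀|)
      ((hc t h0).sub (hc t₀ ht)).abs.continuousOn continuousOn_const ?_ x trivial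
    filter_upwards [hK t₀ m₀ t hm, he t h0, he t₀ ht] with y h1 h2 h3 _
    rwa [h2, h3] at h1
  have l1 : Tendsto (fun a : ℝ × X => u a.1 a.2 - u t₀ a.2) (𝓝 (t₀, x₀)) (𝓝 0) := by
    have ev : ∀ᶠ a : ℝ × X in 𝓝 (t₀, x₀), a.1 ∈ Icc (t₀ / 2) (t₀ + 1) :=
      continuous_fst.continuousAt.eventually (Icc_mem_nhds (by linarith) (by linarith))
    refine squeeze_zero_norm' (a := fun a : ℝ × X => K * |a.1 - t₀|)
      (ev.mono fun a ha => key a.1 ha a.2) ?_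
    have : Continuous fun a : ℝ × X => K * |a.1 - t₀| := by fun_prop
    simpa using this.tendsto (t₀, x₀)
  have l2 : Tendsto (fun a : ℝ × X => u t₀ a.2) (𝓝 (t₀, x₀)) (𝓝 (u t₀ x₀)) :=
    ((hc t₀ ht).comp continuous_snd).tendsto (t₀, x₀)
  have := l1.add l2
  simpa [ContinuousAt] using this

theorem lyb_taylor (h : R1 D κ n) {f : X → ℝ} (hf : MemLp f 2 μ) (bf : Bdd μ f) {a : ℝ}
    (ha : 0 < a) (b : ℝ) : ∃ K, ∀ s ∈ Icc a b, ∀ t ∈ Icc a b, ∀ᵐ x ∂μ,
      |D.P s f x - D.P t f x - (s - t) * D.L t f x| ≤ K * (s - t) ^ 2 := by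
  obtain ⟨K, hK, hb⟩ := lyb_L h hf bf ha b
  refine ⟨K, fun s hs t ht => ?_⟩
  have hz := lyb_memL h hf (ha.trans_le ht.1)
  rcases le_total t s with hst | hst
  · have := D.ly_mv (u := fun s => D.P s f) (w := fun s => D.L s f) (z := D.L t f)
      (K := K * (s - t)) hst
      (fun r hr => lyb_der h hf (ha.trans_le (ht.1.trans hr.1))) hz
      (fun r hr => (hb t ht r ⟨ht.1.trans hr.1, hr.2.trans hs.2⟩).mono fun x hx => hx.trans (by
        rw [abs_of_nonneg (sub_nonneg.2 hr.1)]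
        exact mul_le_mul_of_nonneg_left (by linarith [hr.2]) hK))
    filter_upwards [this] with x hx
    exact hx.trans (le_of_eq (by ring))
  · have := D.ly_mv (u := fun s => D.P s f) (w := fun s => D.L s f) (z := D.L t f)
      (K := K * (t - s)) hst
      (fun r hr => lyb_der h hf (ha.trans_le (hs.1.trans hr.1))) hz
      (fun r hr => (hb t ht r ⟨hs.1.trans hr.1, hr.2.trans ht.2⟩).mono fun x hx => hx.trans (by
        rw [abs_of_nonpos (sub_nonpos.2 hr.2)]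
        exact mul_le_mul_of_nonneg_left (by linarith [hr.1]) hK))
    filter_upwards [this] with x hx
    have e : D.P s f x - D.P t f x - (s - t) * D.L t f x =
        -(D.P t f x - D.P s f x - (t - s) * D.L t f x) := by ring
    rw [e, abs_neg]
    exact hx.trans (le_of_eq (by ring))

theorem R1.ly_rep (h : R1 D κ n) {f : X → ℝ} (hf : MemLp f 2 μ) (bf : Bdd μ f) :
    ∃ u du : ℝ → X → ℝ, (∀ t, 0 < t → D.P t f =ᵐ[μ] u t ∧ D.L t f =ᵐ[μ] du t) ∧
      ContinuousOn (fun a : ℝ × X => u a.1 a.2) (Ioi 0 ×ˢ univ) ∧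
      ContinuousOn (fun a : ℝ × X => du a.1 a.2) (Ioi 0 ×ˢ univ) ∧
      ∀ t x, 0 < t → HasDerivAt (fun s => u s x) (du t x) t := by
  have rP : ∀ g, MemLp g 2 μ → Bdd μ g → ∀ t, 0 < t → ∃ v, Continuous v ∧ D.P t g =ᵐ[μ] v := by
    intro g hg bg t ht
    obtain ⟨v, L, hv, e⟩ := h.exists_lip (h.tb g t hg bg ht)
    exact ⟨v, hv.continuous, e⟩
  have r1 : ∀ t : ℝ, ∃ v, 0 < t → Continuous v ∧ D.P t f =ᵐ[μ] v := fun t => by
    by_cases ht : 0 < t
    · obtain ⟨v, hv⟩ := rP f hf bf t ht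
      exact ⟨v, fun _ => hv⟩
    · exact ⟨0, fun h => absurd h ht⟩
  have r2 : ∀ t : ℝ, ∃ v, 0 < t → Continuous v ∧ D.L t f =ᵐ[μ] v := fun t => by
    by_cases ht : 0 < t
    · have hc := half_pos ht
      obtain ⟨v, hv, e⟩ := rP _ (lyb_memL h hf hc) (h.tb f (t / 2) hf bf hc).bddL (t / 2) hc
      have := h.flow.L_semi f (t / 2) (t / 2) hf hc.le hc
      rw [add_halves] at this
      exact ⟨v, fun _ => ⟨hv, this.trans e⟩⟩
    · exact ⟨0, fun h => absurd h ht⟩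
  choose u hu using r1
  choose du hdu using r2
  refine ⟨u, du, fun t ht => ⟨(hu t ht).2, (hdu t ht).2⟩,
    lyb_joint h.pos (w := fun t => D.P t f) (fun t ht => (hu t ht).1) (fun t ht => (hu t ht).2)
      fun a ha b => lyb_P h hf bf ha b,
    lyb_joint h.pos (w := fun t => D.L t f) (fun t ht => (hdu t ht).1) (fun t ht => (hdu t ht).2)
      fun a ha b => lyb_L h hf bf ha b, fun t x ht => ?_⟩
  obtain ⟨K, hK⟩ := lyb_taylor h hf bf (half_pos ht) (t + 1)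
  have m₀ : t ∈ Icc (t / 2) (t + 1) := ⟨by linarith, by linarith⟩
  have key : ∀ s ∈ Icc (t / 2) (t + 1), |u s x - u t x - (s - t) * du t x| ≤ K * (s - t) ^ 2 := by
    intro s hm
    have h0 : 0 < s := (half_pos ht).trans_le hm.1
    have c1 := (hu s h0).1
    have c2 := (hu t ht).1
    have c3 := (hdu t ht).1
    refine le_of_ae_le h.pos isOpen_univ (f := fun x => |u s x - u t x - (s - t) * du t x|)
      (g := fun _ => K * (s - t) ^ 2) (Continuous.continuousOn (by fun_prop)) continuousOn_const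
      ?_ x trivial
    filter_upwards [hK s hm t m₀, (hu s h0).2, (hu t ht).2, (hdu t ht).2] with y h1 h2 h3 h4 _
    rwa [h2, h3, h4] at h1
  rw [hasDerivAt_iff_isLittleO_nhds_zero]
  have ev : ∀ᶠ k : ℝ in 𝓝 0, t + k ∈ Icc (t / 2) (t + 1) := by
    have : Tendsto (fun k : ℝ => t + k) (𝓝 0) (𝓝 t) := by
      simpa using (tendsto_const_nhds (x := t)).add (tendsto_id (x := 𝓝 (0 : ℝ)))
    exact this.eventually (Icc_mem_nhds (by linarith) (by linarith))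
  have big : (fun k : ℝ => u (t + k) x - u t x - k • du t x) =O[𝓝 0] fun k : ℝ => k ^ 2 := by
    refine Asymptotics.IsBigO.of_bound K (ev.mono fun k hk => ?_)
    have := key (t + k) hk
    rw [add_sub_cancel_left] at this
    rw [Real.norm_eq_abs, Real.norm_eq_abs, abs_of_nonneg (sq_nonneg k), smul_eq_mul]
    exact this
  exact big.trans_isLittleO (Asymptotics.isLittleO_pow_id one_lt_two)

end RC
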