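import Pool.Agent.P.MP_6472e5_gt.LyH
import Pool.Agent.P.MP_6472e5_gt.LyB

/-! The Harnack inequality for the flow of bounded data. -/

set_option autoImplicit false
set_option linter.unusedSectionVars false

noncomputable section

namespace RC

open MeasureTheory Set Filter Topology Metric

variable {X : Type} [MetricSpace X] [SecondCountableTopology X] [MeasurableSpace X] [BorelSpace X]
  {μ : Measure X} {D : DS μ} {κ : ℝ} {n : ℕ}

theorem R1.ly_hu (h : R1 D κ n) (hly : LyY D κ n) : LyHa D κ n := by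
  intro f s t u₀ v₀ hf bf f0 hs hst cu cv e1 e2 x y
  have ht : 0 < t := hs.trans hst
  obtain ⟨u, du, hr, c1, c2, hd⟩ := h.ly_rep hf bf
  obtain ⟨M, hM0, hM⟩ := bf.nonneg
  have cs : ∀ τ, 0 < τ → Continuous (u τ) := fun τ hτ =>
    c1.comp_continuous (f := fun z : X => (τ, z)) (by fun_prop) fun _ => ⟨hτ, trivial⟩
  have hm : ∀ τ, 0 < τ → ∀ᵐ z ∂μ, 0 ≤ u τ z ∧ u τ z ≤ M := fun τ hτ => by
    filter_upwards [h.flow.markov f τ 0 M hf le_rfl hM0.le (by
      filter_upwards [f0, hM] with z a b using ⟨a, (le_abs_self _).trans b⟩), (hr τ hτ).1]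
      with z a b using b ▸ a
  have u0 : ∀ τ, 0 < τ → ∀ z, 0 ≤ u τ z := fun τ hτ z =>
    le_of_ae_le h.pos isOpen_univ continuousOn_const (cs τ hτ).continuousOn
      ((hm τ hτ).mono fun _ a _ => a.1) z trivial
  have hP : ∀ τ, 0 < τ → D.W (D.P τ f) := fun τ hτ =>
    D.W_of_mem ((h.flow.heat f hf).1 τ hτ).1
  have hW : ∀ τ, 0 < τ → D.W (u τ) := fun τ hτ => (hP τ hτ).congr (hr τ hτ).1
  have a1 : u₀ x = u s x := eq_of_ae_eq h.pos isOpen_univ cu.continuousOn (cs s hs).continuousOn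
    ((e1.symm.trans (hr s hs).1).mono fun _ a _ => a) x trivial
  have a2 : v₀ y = u t y := eq_of_ae_eq h.pos isOpen_univ cv.continuousOn (cs t ht).continuousOn
    ((e2.symm.trans (hr t ht).1).mono fun _ a _ => a) y trivial
  have key : ∀ δ, 0 < δ → u s x + δ ≤ (u t y + δ) * √((t / s) ^ n) *
      Real.exp (n * κ * t + (1 + κ * t) * dist x y ^ 2 / (4 * (t - s))) := by
    intro δ hδ
    have p : ∀ τ, 0 < τ → ∀ z, 0 < u τ z + δ := fun τ hτ z => by linarith [u0 τ hτ z]
    have d1 : ∀ a ∈ Ioi (-δ), HasDerivAt (fun a => Real.log (a + δ)) (a + δ)⁻¹ a := fun a ha => by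
      have a3 : 0 < a + δ := by linarith [mem_Ioi.1 ha]
      simpa using ((hasDerivAt_id a).add_const δ).log a3.ne'
    have d2 : ContinuousOn (fun a => (a + δ)⁻¹) (Ioi (-δ)) :=
      ContinuousOn.inv₀ (by fun_prop) fun a ha => ne_of_gt (by linarith [mem_Ioi.1 ha])
    have li : ∀ τ, 0 < τ → LocIn μ (u τ) (Ioi (-δ)) := fun τ hτ z r =>
      ⟨Icc 0 M, isCompact_Icc, fun a ha => lt_of_lt_of_le (neg_lt_zero.2 hδ) ha.1,
        (hm τ hτ).mono fun _ a _ => a⟩
    have wv : ∀ τ, 0 < τ → D.W fun z => Real.log (u τ z + δ) := fun τ hτ =>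
      (hW τ hτ).comp isOpen_Ioi (li τ hτ) d1 d2
    have H := h.toRS.ly_harnack (v := fun τ z => Real.log (u τ z + δ))
      (dv := fun τ z => du τ z / (u τ z + δ))
      ((c1.add continuousOn_const).log fun a ha => (p _ ha.1 _).ne')
      (c2.div (c1.add continuousOn_const) fun a ha => (p _ ha.1 _).ne')
      (fun τ z hτ => ((hd τ z hτ).add_const δ).log (p τ hτ z).ne') wv (fun τ hτ => by
        filter_upwards [(hW τ hτ).chain (wv τ hτ) isOpen_Ioi (li τ hτ) d1 d2,
          (hW τ hτ).chain (hW τ hτ) isOpen_Ioi (li τ hτ) d1 d2, DS.G_symm (hW τ hτ) (wv τ hτ),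
          hly f τ δ hf bf f0 hτ hδ, (hr τ hτ).1, (hr τ hτ).2,
          DS.G_congr (hP τ hτ) (hP τ hτ) (hr τ hτ).1 (hr τ hτ).1] with z b1 b2 b3 b4 b5 b6 b7
        have b8 := p τ hτ z
        rw [b1, b3, b2, ← b7]
        rw [b5, b6] at b4
        refine (mul_le_mul_of_nonneg_left (mul_le_mul_of_nonneg_left b4 (inv_pos.2 b8).le)
          (inv_pos.2 b8).le).trans (le_of_eq ?_)
        field_simp) hs hst x y
    have H2 := Real.exp_le_exp.2 H
    rw [Real.exp_add, Real.exp_add, Real.exp_log (p s hs x), Real.exp_log (p t ht y)] at H2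
    have e : Real.exp (n / 2 * Real.log (t / s)) = √((t / s) ^ n) := by
      rw [Real.sqrt_eq_rpow, ← Real.rpow_natCast, ← Real.rpow_mul (div_pos ht hs).le,
        Real.rpow_def_of_pos (div_pos ht hs)]
      congr 1
      ring
    rwa [e] at H2
  rw [a1, a2]
  have l1 : Tendsto (fun δ : ℝ => u s x + δ) (𝓝[>] 0) (𝓝 (u s x + 0)) :=
    tendsto_nhdsWithin_of_tendsto_nhds (tendsto_id.const_add _)
  have l2 : Tendsto (fun δ : ℝ => u t y + δ) (𝓝[>] 0) (𝓝 (u t y + 0)) :=
    tendsto_nhdsWithin_of_tendsto_nhds (tendsto_id.const_add _)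
  rw [add_zero] at l1 l2
  exact le_of_tendsto_of_tendsto l1 ((l2.mul_const _).mul_const _)
    (eventually_nhdsWithin_of_forall key)

end RC
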