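import Pool.Agent.P.MP_6472e5_gt.Kern
import Pool.Agent.P.MP_6472e5_gt.TbA
import Pool.Agent.P.MP_6472e5_gt.DeV
import Pool.Agent.P.MP_6472e5_gt.Ls

/-! Intermediate statements of block B2. -/

set_option autoImplicit false
set_option linter.unusedSectionVars false

noncomputable section

namespace RC

open MeasureTheory Set Filter Topology Metric

variable {X : Type} [MetricSpace X] [SecondCountableTopology X] [MeasurableSpace X] [BorelSpace X]
  {μ : Measure X} {D : DS μ} {κ : ℝ} {n : ℕ}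

/-- The Li-Yau inequality for the flow of bounded nonnegative data, with a positive shift. -/
def LyY (D : DS μ) (κ : ℝ) (n : ℕ) : Prop :=
  ∀ f t δ, MemLp f 2 μ → Bdd μ f → (∀ᵐ x ∂μ, 0 ≤ f x) → 0 < t → 0 < δ → ∀ᵐ x ∂μ,
    D.G (D.P t f) (D.P t f) x ≤ (D.P t f x + δ) * ((1 + 2 * κ * t / 3) * D.L t f x +
      n / 2 * (1 / t + κ + κ ^ 2 * t / 3) * (D.P t f x + δ))

/-- The Harnack inequality for continuous representatives of the flow. -/
def LyHa (D : DS μ) (κ : ℝ) (n : ℕ) : Prop :=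
  ∀ f s t (u v : X → ℝ), MemLp f 2 μ → Bdd μ f → (∀ᵐ x ∂μ, 0 ≤ f x) → 0 < s → s < t →
    Continuous u → Continuous v → D.P s f =ᵐ[μ] u → D.P t f =ᵐ[μ] v → ∀ x y,
    u x ≤ v y * √((t / s) ^ n) *
      Real.exp (n * κ * t + (1 + κ * t) * dist x y ^ 2 / (4 * (t - s)))

/-- The flow maps integrable functions to locally bounded functions. -/
def LyUC (D : DS μ) : Prop :=
  ∀ (x₀ : X) (R a b : ℝ), 0 < a → ∃ C, 0 ≤ C ∧ ∀ t ∈ Icc a b, ∀ g, MemLp g 2 μ → Integrable g μ →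
    Bdd μ g → (∀ᵐ x ∂μ, 0 ≤ g x) → ∀ᵐ x ∂μ, x ∈ ball x₀ R → D.P t g x ≤ C * ∫ y, g y ∂μ

/-- A kernel with values in `L²` that depends continuously on the first point. -/
structure LyKr (D : DS μ) (k : ℝ → X → X → ℝ) : Prop where
  mem : ∀ t x, 0 < t → MemLp (k t x) 2 μ
  cont : ∀ f t, MemLp f 2 μ → 0 < t → Continuous fun x => ∫ y, k t x y * f y ∂μ
  rep : ∀ f t, MemLp f 2 μ → 0 < t → D.P t f =ᵐ[μ] fun x => ∫ y, k t x y * f y ∂μ
  lip : ∀ x₀ a b, 0 < a → ∃ C r, 0 < r ∧ ∀ t ∈ Icc a b, ∀ x ∈ ball x₀ r,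
    n2 μ (k t x - k t x₀) ≤ C * dist x x₀ ^ 2

/-- The basic properties of the heat kernel. -/
structure LyKq (D : DS μ) : Prop extends LyKr D D.p where
  ker : D.IsKer D.p
  symm : ∀ t x y, 0 < t → D.p t x y = D.p t y x
  P_p : ∀ s t x, 0 ≤ s → 0 < t → D.P s (D.p t x) =ᵐ[μ] D.p (s + t) x
  ck : ∀ s t x y, 0 < s → 0 < t → D.p (s + t) x y = ∫ z, D.p s x z * D.p t z y ∂μ

end RC
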