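import Pool.Agent.P.MP_6472e5_gt.LyD

/-! General lemmas for block B2. -/

set_option autoImplicit false
set_option linter.unusedSectionVars false

noncomputable section

namespace RC

open MeasureTheory Set Filter Topology Metric

variable {X : Type} [MetricSpace X] [SecondCountableTopology X] [MeasurableSpace X] [BorelSpace X]
  {μ : Measure X} {D : DS μ} {κ : ℝ} {n : ℕ}

/-- Local continuous representatives can be glued. -/
theorem ly_cont_rep (hp : ∀ x r, 0 < r → 0 < μ (ball x r)) {f : X → ℝ}
    (h : ∀ x r, ∃ g, ContinuousOn g (ball x r) ∧ ∀ᵐ y ∂μ, y ∈ ball x r → f y = g y) :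
    ∃ g, Continuous g ∧ f =ᵐ[μ] g := by
  choose G hc hG using fun x => h x 1
  have e : ∀ x, ∀ y ∈ ball x 1, G y y = G x y := fun x y hy =>
    eq_of_ae_eq hp (isOpen_ball.inter isOpen_ball) ((hc y).mono inter_subset_left)
      ((hc x).mono inter_subset_right) (by
        filter_upwards [hG x, hG y] with z h1 h2 hz
        rw [← h1 hz.2, h2 hz.1]) y ⟨mem_ball_self one_pos, hy⟩
  refine ⟨fun y => G y y, continuous_iff_continuousAt.2 fun x => ?_, ?_⟩
  · exact ((hc x).congr (e x)).continuousAt (ball_mem_nhds x one_pos)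
  · obtain ⟨t, htc, hcov⟩ := TopologicalSpace.countable_cover_nhds
      (f := fun x : X => ball x 1) fun x => ball_mem_nhds x one_pos
    filter_upwards [(ae_ball_iff htc).2 fun x (_ : x ∈ t) => hG x] with y hy
    obtain ⟨x, hx, hyx⟩ := mem_iUnion₂.1 (hcov.ge (mem_univ y))
    rw [hy x hx hyx, e x y hyx]

/-- Mean value inequality for curves in `L²`. -/
theorem DS.ly_mv (D : DS μ) {u w : ℝ → X → ℝ} {z : X → ℝ} {a b K : ℝ} (hab : a ≤ b)
    (hd : ∀ s ∈ Icc a b, DerL2 μ u (w s) s) (hz : MemLp z 2 μ)
    (hK : ∀ s ∈ Icc a b, ∀ᵐ x ∂μ, |w s x - z x| ≤ K) :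
    ∀ᵐ x ∂μ, |u b x - u a x - (b - a) * z x| ≤ K * (b - a) := by
  have ha : MemLp (u a) 2 μ := (hd a (left_mem_Icc.2 hab)).1.self_of_nhds
  have hb : MemLp (u b) 2 μ := (hd b (right_mem_Icc.2 hab)).1.self_of_nhds
  have hF : LocInt μ fun x => u b x - u a x - (b - a) * z x :=
    D.locInt_of_memLp ((hb.sub ha).sub (hz.const_mul (b - a)))
  have hc : ∀ c : ℝ, LocInt μ fun _ => c := fun c =>
    D.locInt_of_locBdd aestronglyMeasurable_const (Bdd.const c).locBdd
  have key : ∀ φ, LipB φ → (∀ x, 0 ≤ φ x) →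
      |∫ x, φ x * (u b x - u a x - (b - a) * z x) ∂μ| ≤ (∫ x, φ x ∂μ) * (K * (b - a)) := by
    intro φ hφ h0
    have m := D.lipB_memLp hφ
    have iz := integrable_mul_of_memLp m hz
    have a1 := norm_image_sub_le_of_norm_deriv_le_segment'
      (f := fun s => ∫ x, φ x * u s x ∂μ - s * ∫ x, φ x * z x ∂μ)
      (f' := fun s => ∫ x, φ x * w s x ∂μ - ∫ x, φ x * z x ∂μ) (C := (∫ x, φ x ∂μ) * K)
      (fun s hs => (((hd s hs).mul_memLp m).hasDerivAt.sub
        (hasDerivAt_mul_const _)).hasDerivWithinAt)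
      (fun s hs => by
        rw [← integral_sub (integrable_mul_of_memLp m (hd s (Ico_subset_Icc_self hs)).2.1) iz,
          ← integral_mul_const]
        refine norm_integral_le_of_norm_le ((D.lipB_int hφ).mul_const K) ?_
        filter_upwards [hK s (Ico_subset_Icc_self hs)] with x hx
        rw [← mul_sub, Real.norm_eq_abs, abs_mul, abs_of_nonneg (h0 x)]
        exact mul_le_mul_of_nonneg_left hx (h0 x)) b (right_mem_Icc.2 hab)
    have i1 : Integrable (fun x => φ x * u b x - φ x * u a x) μ :=
      (integrable_mul_of_memLp m hb).sub (integrable_mul_of_memLp m ha)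
    have e : ∫ x, φ x * (u b x - u a x - (b - a) * z x) ∂μ =
        ∫ x, φ x * u b x ∂μ - b * ∫ x, φ x * z x ∂μ -
          (∫ x, φ x * u a x ∂μ - a * ∫ x, φ x * z x ∂μ) := by
      have e1 : ∀ x, φ x * (u b x - u a x - (b - a) * z x) =
          φ x * u b x - φ x * u a x - (b - a) * (φ x * z x) := fun x => by ring
      simp_rw [e1]
      rw [integral_sub i1 (iz.const_mul _), integral_const_mul,
        integral_sub (integrable_mul_of_memLp m hb) (integrable_mul_of_memLp m ha)]
      ring
    rw [e, ← mul_assoc]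
    exact a1
  have h1 := D.ae_le_of_test hF (hc (K * (b - a))) isOpen_univ fun φ hφ _ h0 => by
    rw [integral_mul_const]
    exact (abs_le.1 (key φ hφ h0)).2
  have h2 := D.ae_le_of_test (hc (-(K * (b - a)))) hF isOpen_univ fun φ hφ _ h0 => by
    rw [integral_mul_const, mul_neg]
    exact (abs_le.1 (key φ hφ h0)).1
  filter_upwards [h1, h2] with x a1 a2
  exact abs_le.2 ⟨a2 trivial, a1 trivial⟩

/-- Integrability by duality. -/
theorem DS.ly_dual (D : DS μ) {F : X → ℝ} {C : ℝ} (hF : LocInt μ F)
    (h : ∀ g, LipB g → (∀ x, |g x| ≤ 1) → ∫ x, F x * g x ∂μ ≤ C) :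
    Integrable F μ ∧ ∫ x, |F x| ∂μ ≤ C := by
  rcases isEmpty_or_nonempty X with hX | ⟨⟨x⟩⟩
  · have h0 := h 0 LipB.zero fun x => by simp
    rw [Measure.eq_zero_of_isEmpty μ] at h0 ⊢
    exact ⟨integrable_zero_measure, by simpa using h0⟩
  have hm := hF.aesm
  have key : ∀ r : ℝ, ∫ y in ball x r, ‖F y‖ ∂μ ≤ C := by
    intro r
    have b1 : ∀ y, |F y / abs (F y)| ≤ 1 := fun y => by
      rw [abs_div, abs_abs]
      exact div_self_le_one _
    obtain ⟨v, hv, hl⟩ := D.exists_lipB_ae (ψ := (ball x r).indicator fun y => F y / |F y|)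
      ((hm.aemeasurable.div hm.aemeasurable.abs).aestronglyMeasurable.indicator measurableSet_ball)
      (a := -1) (b := 1) (by norm_num) zero_le_one (ae_of_all _ fun y => by
        by_cases hy : y ∈ ball x r
        · rw [indicator_of_mem hy]
          exact abs_le.1 (b1 y)
        · rw [indicator_of_notMem hy]
          norm_num) isOpen_ball (ae_of_all _ fun y hy => indicator_of_notMem hy _)
    have l := tendsto_integral_of_dominated_convergence (μ := μ) (F := fun k y => F y * v k y)
      (f := (ball x r).indicator fun y => ‖F y‖) ((ball x r).indicator fun y => ‖F y‖)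
      (fun k => (hF.mul_lipB (hv k).1).aestronglyMeasurable)
      ((integrable_indicator_iff measurableSet_ball).2 (hF x r).norm)
      (fun k => ae_of_all _ fun y => by
        by_cases hy : y ∈ ball x r
        · rw [indicator_of_mem hy, norm_mul]
          exact mul_le_of_le_one_right (norm_nonneg _) (abs_le.2 ((hv k).2.2 y))
        · rw [indicator_of_notMem hy, image_eq_zero_of_notMem_tsupport fun a => hy ((hv k).2.1 a),
            mul_zero, norm_zero])
      (by
        filter_upwards [hl] with y hy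
        have e : (ball x r).indicator (fun y => ‖F y‖) y =
            F y * (ball x r).indicator (fun y => F y / |F y|) y := by
          by_cases hy : y ∈ ball x r
          · rw [indicator_of_mem hy, indicator_of_mem hy, ← mul_div_assoc, ← abs_mul_abs_self,
              mul_self_div_self, Real.norm_eq_abs]
          · rw [indicator_of_notMem hy, indicator_of_notMem hy, mul_zero]
        rw [e]
        exact hy.const_mul _)
    rw [integral_indicator measurableSet_ball] at l
    exact le_of_tendsto' l fun k => h _ (hv k).1 fun y => abs_le.2 ((hv k).2.2 y)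
  have cov : AECover μ atTop fun r : ℝ => ball x r := aecover_ball tendsto_id
  have hi := cov.integrable_of_integral_norm_bounded C (hF x) (Eventually.of_forall key)
  exact ⟨hi, le_of_tendsto' (cov.integral_tendsto_of_countably_generated hi.norm) key⟩

/-- Two continuous kernels agree. -/
theorem DS.ly_ker_ext (D : DS μ) (hp : ∀ x r, 0 < r → 0 < μ (ball x r)) {p q : ℝ → X → X → ℝ}
    (h1 : D.IsKer p) (h2 : D.IsKer q) {t : ℝ} (ht : 0 < t) (x y : X) : p t x y = q t x y := by
  have := D.sfin
  have : Fact ((2 : ENNReal) ≠ ⊤) := ⟨ENNReal.ofNat_ne_top⟩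
  have c1 : Continuous fun a : X × X => p t a.1 a.2 :=
    h1.1.comp_continuous (f := fun a : X × X => (t, a)) (by fun_prop) fun _ => ⟨ht, trivial⟩
  have c2 : Continuous fun a : X × X => q t a.1 a.2 :=
    h2.1.comp_continuous (f := fun a : X × X => (t, a)) (by fun_prop) fun _ => ⟨ht, trivial⟩
  obtain ⟨f, hf⟩ := TopologicalSpace.exists_dense_seq (Lp ℝ 2 μ)
  have a : ∀ᵐ z ∂μ, ∀ j, ∫ w, p t z w * f j w ∂μ = ∫ w, q t z w * f j w ∂μ :=
    ae_all_iff.2 fun j => (h1.2.2 _ t (Lp.memLp (f j)) ht).symm.trans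
      (h2.2.2 _ t (Lp.memLp (f j)) ht)
  refine eq_of_ae_eq hp isOpen_univ (f := fun z => p t z y) (g := fun z => q t z y)
    (c1.comp (by fun_prop : Continuous fun z : X => (z, y))).continuousOn
    (c2.comp (by fun_prop : Continuous fun z : X => (z, y))).continuousOn ?_ x trivial
  filter_upwards [a] with z hz _
  have e : (h1.2.1 t z ht).toLp _ = (h2.2.1 t z ht).toLp _ := by
    refine hf.eq_of_inner_left ℝ fun j => ?_
    rw [← Lp.toLp_coeFn (f j) (Lp.memLp (f j)), ca0n_inner, ca0n_inner, hz j]
  refine eq_of_ae_eq hp isOpen_univ (f := p t z) (g := q t z)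
    (c1.comp (by fun_prop : Continuous fun w : X => (z, w))).continuousOn
    (c2.comp (by fun_prop : Continuous fun w : X => (z, w))).continuousOn ?_ y trivial
  filter_upwards [(MemLp.toLp_eq_toLp_iff _ _).1 e] with w hw _
  exact hw

end RC
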