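import Pool.Agent.P.MP_6472e5_gt.LyD

/-! From the differential inequality to the Harnack inequality. -/

set_option autoImplicit false
set_option linter.unusedSectionVars false

noncomputable section

namespace RC

open MeasureTheory Set Filter Topology Metric

variable {X : Type} [MetricSpace X] [SecondCountableTopology X] [MeasurableSpace X] [BorelSpace X]
  {μ : Measure X} {D : DS μ} {κ : ℝ} {n : ℕ}

theorem RS.lyh_loc (h : RS D κ n) {f R : X → ℝ} (hW : D.W f) (cf : Continuous f)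
    (cR : Continuous R) (hle : ∀ᵐ x ∂μ, D.G f f x ≤ R x) (z₀ : X) {ε : ℝ} (hε : 0 < ε) :
    ∃ L ρ, 0 ≤ L ∧ 0 < ρ ∧ L ^ 2 = R z₀ + ε ∧
      ∀ z ∈ ball z₀ ρ, |f z - f z₀| ≤ L * dist z z₀ := by
  have h0 : 0 ≤ R z₀ := le_of_ae_le (f := fun _ => 0) h.pos isOpen_univ continuousOn_const
    cR.continuousOn (by
      filter_upwards [hle, DS.G_nonneg hW] with x h1 h2 _ using h2.trans h1) z₀ (mem_univ _)
  obtain ⟨ρ, hρ, h1⟩ := Metric.continuous_iff.1 cR z₀ ε hε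
  have h2 : √(R z₀ + ε) ^ 2 = R z₀ + ε := Real.sq_sqrt (by linarith)
  refine ⟨√(R z₀ + ε), ρ / 2, Real.sqrt_nonneg _, half_pos hρ, h2, fun z hz =>
    DS.lip_of_G_le h.pos h.geo h.s2l hW cf z₀ ρ (Real.sqrt_nonneg _) ?_ z hz z₀
      (mem_ball_self (half_pos hρ))⟩
  filter_upwards [hle] with x a1 a2
  have a3 := abs_lt.1 (h1 x a2)
  linarith [a3.2]

theorem lyh_alg {κ N τ t e d L ε : ℝ} (hκ : 0 ≤ κ) (hN : 0 ≤ N) (hτ : 0 < τ) (ht : τ ≤ t)
    (hε : 0 ≤ ε) (hL : L ^ 2 = (1 + 2 * κ * τ / 3) * d + N / 2 * (1 / τ + κ + κ ^ 2 * τ / 3) + ε) :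
    L * e ≤ d + (N / 2 * τ⁻¹ + (N * κ + (1 + κ * t) * e ^ 2 / 4)) + ε := by
  have h0 : 0 ≤ κ * τ := by positivity
  have h1 : κ * τ ≤ κ * t := by gcongr
  have hα : 0 < 1 + 2 * κ * τ / 3 := by positivity
  refine le_of_mul_le_mul_left ?_ hα
  have h2 : (1 + 2 * κ * τ / 3) * (N / 2 * τ⁻¹ + N * κ) =
      N / 2 * (1 / τ + κ + κ ^ 2 * τ / 3) + (5 / 6 * (N * κ) + N * κ ^ 2 * τ / 2) := by
    field_simp
    ring
  have h3 : 0 ≤ 5 / 6 * (N * κ) + N * κ ^ 2 * τ / 2 := by positivity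
  have h4 : (1 + 2 * κ * τ / 3) * ((1 + 2 * κ * τ / 3) * e ^ 2) ≤
      (1 + 2 * κ * τ / 3) * ((1 + κ * t) * e ^ 2) :=
    mul_le_mul_of_nonneg_left (mul_le_mul_of_nonneg_right (by linarith) (sq_nonneg e)) hα.le
  have h5 : 0 ≤ κ * τ * ε := by positivity
  nlinarith [sq_nonneg (L - (1 + 2 * κ * τ / 3) * e / 2)]

theorem RS.ly_harnack (h : RS D κ n) {v dv : ℝ → X → ℝ}
    (cv : ContinuousOn (fun a : ℝ × X => v a.1 a.2) (Ioi 0 ×ˢ univ))
    (cd : ContinuousOn (fun a : ℝ × X => dv a.1 a.2) (Ioi 0 ×ˢ univ))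
    (hd : ∀ t x, 0 < t → HasDerivAt (fun s => v s x) (dv t x) t) (hW : ∀ t, 0 < t → D.W (v t))
    (hly : ∀ t, 0 < t → ∀ᵐ x ∂μ, D.G (v t) (v t) x ≤
      (1 + 2 * κ * t / 3) * dv t x + n / 2 * (1 / t + κ + κ ^ 2 * t / 3))
    {s t : ℝ} (hs : 0 < s) (hst : s < t) (x y : X) :
    v s x ≤ v t y + n / 2 * Real.log (t / s) +
      (n * κ * t + (1 + κ * t) * dist x y ^ 2 / (4 * (t - s))) := by
  obtain ⟨γ, g0, g1, hγ⟩ := h.geo x y
  have hκ := h.κ_nonneg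
  have hts : 0 < t - s := sub_pos.2 hst
  set e := dist x y / (t - s) with he
  have he0 : 0 ≤ e := by positivity
  let c : ℝ → X := fun τ => γ ((τ - s) / (t - s))
  have hI : ∀ τ ∈ Icc s t, (τ - s) / (t - s) ∈ Icc (0 : ℝ) 1 := fun τ hτ =>
    ⟨div_nonneg (sub_nonneg.2 hτ.1) hts.le, (div_le_one hts).2 (by linarith [hτ.2])⟩
  have hc : ∀ σ ∈ Icc s t, ∀ τ ∈ Icc s t, dist (c σ) (c τ) = e * dist σ τ := by
    intro σ hσ τ hτ
    rw [hγ _ (hI σ hσ) _ (hI τ hτ), ← sub_div, abs_div, abs_of_pos hts, sub_sub_sub_cancel_right,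
      Real.dist_eq, he]
    ring
  have cc : ContinuousOn c (Icc s t) := (LipschitzOnWith.of_dist_le_mul (K := ⟨e, he0⟩)
    fun σ hσ τ hτ => (hc σ hσ τ hτ).le).continuousOn
  have hsl : ∀ {w : ℝ → X → ℝ}, ContinuousOn (fun a : ℝ × X => w a.1 a.2) (Ioi 0 ×ˢ univ) →
      ∀ τ, 0 < τ → Continuous (w τ) := fun hw τ hτ =>
    hw.comp_continuous (Continuous.prodMk_right τ) fun z => ⟨hτ, mem_univ _⟩
  have key := image_le_of_liminf_slope_right_le_deriv_boundary (f := fun τ => -v τ (c τ))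
    (a := s) (b := t) (B := fun τ => -v s x + n / 2 * (Real.log τ - Real.log s) +
      (n * κ + (1 + κ * t) * e ^ 2 / 4) * (τ - s))
    (B' := fun τ => n / 2 * τ⁻¹ + (n * κ + (1 + κ * t) * e ^ 2 / 4))
    (cv.comp (continuousOn_id.prodMk cc) fun τ hτ => ⟨hs.trans_le hτ.1, mem_univ _⟩).neg
    (by simp [c, g0]) (fun τ hτ => ?_) (fun τ hτ => ?_) (fun τ hτ r hr => ?_)
    (right_mem_Icc.2 hst.le)
  · simp only [c, div_self hts.ne', g1] at key
    have a1 : (1 + κ * t) * e ^ 2 / 4 * (t - s) = (1 + κ * t) * dist x y ^ 2 / (4 * (t - s)) := by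
      rw [he]
      field_simp
    have a2 : 0 ≤ n * κ * s := by positivity
    rw [Real.log_div (hs.trans hst).ne' hs.ne']
    linarith
  · have := Real.continuousAt_log (hs.trans_le hτ.1).ne'
    exact ContinuousAt.continuousWithinAt (by fun_prop)
  · have a1 := ((((Real.hasDerivAt_log (hs.trans_le hτ.1).ne').sub_const (Real.log s)).const_mul
      ((n : ℝ) / 2)).const_add (-v s x)).add (((hasDerivAt_id τ).sub_const s).const_mul
      (n * κ + (1 + κ * t) * e ^ 2 / 4))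
    rw [mul_one] at a1
    exact a1.hasDerivWithinAt
  · have h0 : 0 < τ := hs.trans_le hτ.1
    obtain ⟨ε, hε, hr'⟩ : ∃ ε, 0 < ε ∧
        n / 2 * τ⁻¹ + (n * κ + (1 + κ * t) * e ^ 2 / 4) + 2 * ε < r :=
      ⟨(r - (n / 2 * τ⁻¹ + (n * κ + (1 + κ * t) * e ^ 2 / 4))) / 3, by linarith, by linarith⟩
    have c1 := hsl cd τ h0
    obtain ⟨L, ρ, hL, hρ, e1, e2⟩ := h.lyh_loc (hW τ h0) (hsl cv τ h0) (by fun_prop) (hly τ h0)
      (c τ) hε
    have a1 := lyh_alg (e := e) hκ (Nat.cast_nonneg n) h0 hτ.2.le hε.le e1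
    obtain ⟨δ, hδ, a2⟩ := Metric.continuousAt_iff.1 (cd.continuousAt
      (prod_mem_nhds (Ioi_mem_nhds h0) univ_mem : _ ∈ 𝓝 (τ, c τ))) ε hε
    have a3 : ∀ᶠ σ in 𝓝[>] τ, c σ ∈ ball (c τ) (min ρ δ) :=
      ((cc τ (Ico_subset_Icc_self hτ)).mono_left (nhdsWithin_le_of_mem
        (mem_of_superset (Ioo_mem_nhdsGT hτ.2) fun σ hσ => ⟨hτ.1.trans hσ.1.le, hσ.2.le⟩)))
        (ball_mem_nhds _ (lt_min hρ hδ))
    refine Eventually.frequently ?_
    filter_upwards [a3, Ioo_mem_nhdsGT hτ.2, Ioo_mem_nhdsGT (show τ < τ + δ by linarith)]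
      with σ b1 b2 b3
    have b4 : 0 < σ - τ := sub_pos.2 b2.1
    obtain ⟨θ, hθ, b5⟩ := exists_hasDerivAt_eq_slope (fun a => v a (c σ)) (fun a => dv a (c σ))
      b2.1 (fun a ha => (hd a _ (h0.trans_le ha.1)).continuousAt.continuousWithinAt)
      fun a ha => hd a _ (h0.trans ha.1)
    have b6 := a2 (x := (θ, c σ)) (by
      rw [Prod.dist_eq, max_lt_iff, Real.dist_eq, abs_of_pos (sub_pos.2 hθ.1)]
      exact ⟨by linarith [hθ.2, b3.2], b1.trans_le (min_le_right _ _)⟩)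
    have b7 := e2 _ (ball_subset_ball (min_le_left _ _) b1)
    rw [hc σ ⟨hτ.1.trans b2.1.le, b2.2.le⟩ τ (Ico_subset_Icc_self hτ), Real.dist_eq,
      abs_of_pos b4] at b7
    rw [eq_div_iff b4.ne'] at b5
    rw [slope_def_field, div_lt_iff₀ b4]
    have b8 := (abs_lt.1 b6).1
    have b9 := (abs_le.1 b7).1
    simp only at b8
    nlinarith

end RC
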