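import Pool.Agent.P.MP_6472e5_gt.LyG

/-! Existence of a kernel with values in the space of square integrable functions. -/

set_option autoImplicit false
set_option linter.unusedSectionVars false

noncomputable section

namespace RC

open MeasureTheory Set Filter Topology Metric

variable {X : Type} [MetricSpace X] [SecondCountableTopology X] [MeasurableSpace X] [BorelSpace X]
  {μ : Measure X} {D : DS μ} {κ : ℝ} {n : ℕ}

theorem lyk1_const (D : DS μ) (c : ℝ) : LocInt μ (fun _ => c) :=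
  D.locInt_of_locBdd aestronglyMeasurable_const (Bdd.const c).locBdd

theorem lyk1_a (h : R1 D κ n) (hu : LyUC D) (x₀ : X) (R a b : ℝ) (ha : 0 < a) :
    ∃ C, 0 ≤ C ∧ ∀ t ∈ Icc a b, ∀ φ, LipB φ → tsupport φ ⊆ ball x₀ R → (∀ x, 0 ≤ φ x) →
      ∀ f, MemLp f 2 μ → ∫ x, D.P t φ x * f x ^ 2 ∂μ ≤ (∫ x, φ x ∂μ) * (C * n2 μ f) := by
  obtain ⟨C, hC, hU⟩ := hu x₀ R a b ha
  refine ⟨C, hC, fun t ht φ hφ hs h0 f hf => ?_⟩
  have mφ := D.lipB_memLp hφ
  have h1 := D.ae_le_of_test (D.locInt_of_memLp (h.flow.memLp φ t mφ))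
    (lyk1_const D (C * ∫ x, φ x ∂μ)) isOpen_univ fun g hg _ g0 => by
      have mg := D.lipB_memLp hg
      have e : ∫ x, g x * D.P t φ x ∂μ = ∫ x, φ x * D.P t g x ∂μ := by
        rw [← h.flow.symm φ g t mφ mg]
        simp only [mul_comm]
      have h2 : ∫ x, φ x * D.P t g x ∂μ ≤ ∫ x, φ x * (C * ∫ y, g y ∂μ) ∂μ := by
        refine integral_mono_ae (integrable_mul_of_memLp mφ (h.flow.memLp g t mg))
          ((D.lipB_int hφ).mul_const _) ?_
        filter_upwards [hU t ht g mg (D.lipB_int hg) hg.bdd (ae_of_all _ g0)] with x hx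
        by_cases hb : x ∈ ball x₀ R
        · exact mul_le_mul_of_nonneg_left (hx hb) (h0 x)
        · simp [image_eq_zero_of_notMem_tsupport fun h' => hb (hs h')]
      rw [e]
      refine h2.trans (le_of_eq ?_)
      rw [integral_mul_const, integral_mul_const]
      ring
  have h3 : ∫ x, D.P t φ x * f x ^ 2 ∂μ ≤ ∫ x, (C * ∫ y, φ y ∂μ) * f x ^ 2 ∂μ := by
    refine integral_mono_of_nonneg ?_ (hf.integrable_sq.const_mul _) ?_
    · filter_upwards [h.flow.pos φ t mφ (ae_of_all _ h0)] with x hx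
      exact mul_nonneg hx (sq_nonneg _)
    · filter_upwards [h1] with x hx
      exact mul_le_mul_of_nonneg_right (hx (mem_univ x)) (sq_nonneg _)
  refine h3.trans (le_of_eq ?_)
  rw [integral_const_mul, n2]
  ring

theorem lyk1_b (h : R1 D κ n) (hu : LyUC D) (x₀ : X) (R a b : ℝ) (ha : 0 < a) :
    ∃ C, 0 ≤ C ∧ ∀ t ∈ Icc a b, ∀ f, MemLp f 2 μ →
      (∀ᵐ x ∂μ, x ∈ ball x₀ R → D.P t f x ^ 2 ≤ C * n2 μ f) ∧
      ∀ᵐ x ∂μ, x ∈ ball x₀ R → D.G (D.P t f) (D.P t f) x ≤ C * n2 μ f := by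
  obtain ⟨C, hC, hA⟩ := lyk1_a h hu x₀ R a b ha
  set K := Real.exp (2 * κ * b) / (2 * a) with hK
  have hK0 : 0 ≤ K := by positivity
  refine ⟨(1 + K) * C, by positivity, fun t ht f hf => ?_⟩
  have ht0 : 0 < t := ha.trans_le ht.1
  have hV : D.P t f ∈ D.V := ((h.flow.heat f hf).1 t ht0).1
  have key : ∀ φ, LipB φ → tsupport φ ⊆ ball x₀ R → (∀ x, 0 ≤ φ x) →
      ∫ x, φ x * D.P t f x ^ 2 ∂μ ≤ ∫ x, φ x * ((1 + K) * C * n2 μ f) ∂μ ∧
      ∫ x, φ x * D.G (D.P t f) (D.P t f) x ∂μ ≤ ∫ x, φ x * ((1 + K) * C * n2 μ f) ∂μ := by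
    intro φ hφ hs h0
    have h1 := hA t ht φ hφ hs h0 f hf
    have h2 := h.rp f φ t hf (D.lipB_memLp hφ) hφ.bdd (ae_of_all _ h0) ht0
    have p1 : 0 ≤ ∫ x, φ x * D.P t f x ^ 2 ∂μ :=
      integral_nonneg fun x => mul_nonneg (h0 x) (sq_nonneg _)
    have p2 : 0 ≤ ∫ x, φ x * D.G (D.P t f) (D.P t f) x ∂μ :=
      integral_nonneg_of_ae ((DS.G_nonneg (D.W_of_mem hV)).mono fun x hx => mul_nonneg (h0 x) hx)
    have p3 : 0 ≤ (∫ x, φ x ∂μ) * (C * n2 μ f) :=
      mul_nonneg (integral_nonneg h0) (mul_nonneg hC (n2_nonneg f))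
    have p4 : 1 ≤ K * (2 * t * Real.exp (-(2 * κ * t))) := by
      have e1 : 1 ≤ Real.exp (2 * κ * b) * Real.exp (-(2 * κ * t)) := by
        rw [← Real.exp_add]
        exact Real.one_le_exp (by nlinarith [h.κ_nonneg, ht.2])
      have e2 : 1 ≤ t / a := (one_le_div ha).2 ht.1
      have e3 : K * (2 * t * Real.exp (-(2 * κ * t))) =
          Real.exp (2 * κ * b) * Real.exp (-(2 * κ * t)) * (t / a) := by
        rw [hK]; field_simp
      rw [e3]
      exact one_le_mul_of_one_le_of_one_le e1 e2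
    have p5 : 0 ≤ 2 * t * Real.exp (-(2 * κ * t)) * ∫ x, φ x * D.G (D.P t f) (D.P t f) x ∂μ := by
      positivity
    have p6 := mul_le_mul_of_nonneg_right p4 p2
    have p7 := mul_le_mul_of_nonneg_left (h2.trans ((sub_le_self _ p1).trans h1)) hK0
    have p8 := mul_nonneg hK0 p3
    rw [integral_mul_const]
    constructor <;> nlinarith
  exact ⟨D.ae_le_of_test (locInt_of_int (h.flow.memLp f t hf).integrable_sq) (lyk1_const D _)
      isOpen_ball fun φ a b c => (key φ a b c).1,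
    D.ae_le_of_test (locInt_of_int (D.G_int hV hV)) (lyk1_const D _) isOpen_ball
      fun φ a b c => (key φ a b c).2⟩

theorem lyk1_c (h : R1 D κ n) (hu : LyUC D) {t : ℝ} (ht : 0 < t) {f : X → ℝ} (hf : MemLp f 2 μ) :
    ∃ g, Continuous g ∧ D.P t f =ᵐ[μ] g := by
  refine ly_cont_rep h.pos fun x r => ?_
  obtain ⟨C, hC, hB⟩ := lyk1_b h hu x (2 * r) t t ht
  have hV : D.P t f ∈ D.V := ((h.flow.heat f hf).1 t ht).1
  obtain ⟨g, hg, he⟩ := DS.ls2l h.pos h.geo h.s2l (D.W_of_mem hV) x (2 * r)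
    (NNReal.mk (√(C * n2 μ f)) (Real.sqrt_nonneg _)) (by
      filter_upwards [(hB t ⟨le_rfl, le_rfl⟩ f hf).2] with y hy hb
      rw [NNReal.coe_mk, Real.sq_sqrt (mul_nonneg hC (n2_nonneg f))]
      exact hy hb)
  rw [show 2 * r / 2 = r by ring] at hg he
  exact ⟨g, hg.continuousOn, he⟩

theorem lyk1_d (h : R1 D κ n) (hu : LyUC D) (t : ℝ) : ∃ K : X → X → ℝ, 0 < t →
    (∀ x, MemLp (K x) 2 μ) ∧ ∀ f, MemLp f 2 μ → (Continuous fun x => ∫ y, K x y * f y ∂μ) ∧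
      D.P t f =ᵐ[μ] fun x => ∫ y, K x y * f y ∂μ := by
  by_cases ht : 0 < t
  swap
  · exact ⟨0, fun h => absurd h ht⟩
  choose U hU1 hU2 using fun F : Lp ℝ 2 μ => lyk1_c h hu ht (Lp.memLp F)
  have hadd : ∀ F G x, U (F + G) x = U F x + U G x := fun F G x => by
    refine eq_of_ae_eq h.pos isOpen_univ (hU1 _).continuousOn
      ((hU1 F).add (hU1 G)).continuousOn ?_ x (mem_univ x)
    filter_upwards [hU2 (F + G), hU2 F, hU2 G, h.flow.congr _ _ t (Lp.memLp _) (Lp.coeFn_add F G),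
      h.flow.add F G t (Lp.memLp _) (Lp.memLp _)] with y a b c d e _
    rw [← a, d, e, Pi.add_apply, b, c]
    rfl
  have hsm : ∀ (c : ℝ) F x, U (c • F) x = c * U F x := fun c F x => by
    refine eq_of_ae_eq h.pos isOpen_univ (hU1 _).continuousOn
      (continuous_const.mul (hU1 F)).continuousOn ?_ x (mem_univ x)
    filter_upwards [hU2 (c • F), hU2 F, h.flow.congr _ _ t (Lp.memLp _) (Lp.coeFn_smul c F),
      h.flow.smul c F t (Lp.memLp _)] with y a b d e _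
    rw [← a, d, e, Pi.smul_apply, b, smul_eq_mul]
    rfl
  have hK : ∀ x, ∃ k : Lp ℝ 2 μ, ∀ F, inner ℝ k F = U F x := by
    intro x
    obtain ⟨C, hC, hB⟩ := lyk1_b h hu x 1 t t ht
    have hb : ∀ F, ‖U F x‖ ≤ √C * ‖F‖ := fun F => by
      have h1 := le_of_ae_le h.pos isOpen_ball ((hU1 F).pow 2).continuousOn
        (continuousOn_const (c := C * n2 μ F)) (by
          filter_upwards [(hB t ⟨le_rfl, le_rfl⟩ F (Lp.memLp F)).1, hU2 F] with y a b c
          rw [Pi.pow_apply, ← b]; exact a c) x (mem_ball_self one_pos)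
      rw [n2_eq_norm (Lp.memLp F), Lp.toLp_coeFn, Pi.pow_apply] at h1
      refine abs_le_of_sq_le_sq' ?_ (by positivity) |> abs_le.2
      rwa [mul_pow, Real.sq_sqrt hC]
    let ℓ : Lp ℝ 2 μ →ₗ[ℝ] ℝ := ⟨⟨fun F => U F x, fun F G => hadd F G x⟩, fun c F => hsm c F x⟩
    exact ⟨(InnerProductSpace.toDual ℝ _).symm (ℓ.mkContinuous _ hb), fun F =>
      InnerProductSpace.toDual_symm_apply⟩
  choose k hk using hK
  refine ⟨fun x => k x, fun _ => ⟨fun x => Lp.memLp _, fun f hf => ?_⟩⟩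
  have e : (fun x => ∫ y, k x y * f y ∂μ) = U (hf.toLp f) := by
    funext x
    rw [← hk, ← ca0n_inner (Lp.memLp (k x)) hf, Lp.toLp_coeFn]
  rw [e]
  exact ⟨hU1 _, (h.flow.congr _ _ t hf hf.coeFn_toLp.symm).trans (hU2 _)⟩

theorem R1.ly_kr (h : R1 D κ n) (hu : LyUC D) : ∃ k, LyKr D k := by
  choose k hk using lyk1_d h hu
  refine ⟨k, fun t x ht => (hk t ht).1 x, fun f t hf ht => ((hk t ht).2 f hf).1,
    fun f t hf ht => ((hk t ht).2 f hf).2, fun x₀ a b ha => ?_⟩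
  obtain ⟨C, hC, hB⟩ := lyk1_b h hu x₀ 2 a b ha
  refine ⟨C, 1, one_pos, fun t ht x hx => ?_⟩
  have ht0 : 0 < t := ha.trans_le ht.1
  obtain ⟨hm, hr⟩ := hk t ht0
  have hf := (hm x).sub (hm x₀)
  set f := k t x - k t x₀ with hfd
  obtain ⟨hc, he⟩ := hr f hf
  have hW := D.W_of_mem ((h.flow.heat f hf).1 t ht0).1
  have hN := n2_nonneg (μ := μ) f
  have h1 := DS.lip_of_G_le h.pos h.geo h.s2l (hW.congr he) hc x₀ 2
    (Real.sqrt_nonneg (C * n2 μ f)) (by
      filter_upwards [(hB t ht f hf).2, DS.G_congr hW hW he he] with y a b c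
      rw [← b, Real.sq_sqrt (mul_nonneg hC hN)]
      exact a c) x (by simpa using hx) x₀ (by simp)
  have e : ∫ y, k t x y * f y ∂μ - ∫ y, k t x₀ y * f y ∂μ = n2 μ f := by
    rw [← integral_sub (integrable_mul_of_memLp (hm x) hf) (integrable_mul_of_memLp (hm x₀) hf)]
    refine integral_congr_ae (ae_of_all _ fun y => ?_)
    simp only [hfd, Pi.sub_apply]
    ring
  rw [e, abs_of_nonneg hN] at h1
  have h2 := pow_le_pow_left₀ hN h1 2
  rw [mul_pow, Real.sq_sqrt (mul_nonneg hC hN)] at h2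
  rcases hN.eq_or_lt with h0 | h0
  · rw [← h0]; positivity
  · exact le_of_mul_le_mul_left (by nlinarith) h0

end RC
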