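import Pool.Agent.P.MP_6472e5_gt.LyG

/-! The continuous symmetric kernel. -/

set_option autoImplicit false
set_option linter.unusedSectionVars false

noncomputable section

namespace RC

open MeasureTheory Set Filter Topology Metric

variable {X : Type} [MetricSpace X] [SecondCountableTopology X] [MeasurableSpace X] [BorelSpace X]
  {μ : Measure X} {D : DS μ} {κ : ℝ} {n : ℕ}

theorem RS.lyk2_semi (h : RS D κ n) {k : ℝ → X → X → ℝ} (hk : LyKr D k) {s c : ℝ} (hs : 0 ≤ s)
    (hc : 0 < c) (x : X) : D.P s (k c x) =ᵐ[μ] k (c + s) x := by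
  have hcs : 0 < c + s := by linarith
  have m1 := h.flow.memLp _ s (hk.mem c x hc)
  have m2 := hk.mem (c + s) x hcs
  have key : ∀ f, MemLp f 2 μ →
      ∫ y, D.P s (k c x) y * f y ∂μ = ∫ y, k (c + s) x y * f y ∂μ := by
    intro f hf
    have m := h.flow.memLp f s hf
    rw [h.flow.symm _ f s (hk.mem c x hc) hf]
    refine eq_of_ae_eq h.pos isOpen_univ (hk.cont _ c m hc).continuousOn
      (hk.cont f _ hf hcs).continuousOn ?_ x trivial
    filter_upwards [hk.rep _ c m hc, hk.rep f _ hf hcs, h.flow.semi f c s hf hc.le hs]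
      with z h1 h2 h3 _
    rw [← h1, ← h2, h3]
  have m := m1.sub m2
  have z : n2 μ (D.P s (k c x) - k (c + s) x) = 0 := by
    have a := key _ m
    rw [← sub_eq_zero, ← integral_sub (integrable_mul_of_memLp m1 m)
      (integrable_mul_of_memLp m2 m)] at a
    rw [← a]
    exact integral_congr_ae (ae_of_all _ fun y => by
      simp only [Pi.sub_apply]
      ring)
  filter_upwards [n2_eq_zero m z] with y hy
  exact sub_eq_zero.1 hy

theorem RS.lyk2_cont (h : RS D κ n) {k : ℝ → X → X → ℝ} (hk : LyKr D k) {t : ℝ} (ht : 0 < t)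
    (x : X) : Tendsto (fun a : ℝ × X => n2 μ (k a.1 a.2 - k t x)) (𝓝 (t, x)) (𝓝 0) := by
  have h2 := half_pos ht
  obtain ⟨C, r, hr, hC⟩ := hk.lip x (t / 2) (t + 1) h2
  have l1 := ((h.flow.heat _ (hk.mem _ x h2)).1 _ h2).2.2.cont
  have l2 : Tendsto (fun a : ℝ × X => a.1 - t / 2) (𝓝 (t, x)) (𝓝 (t / 2)) :=
    Continuous.tendsto' (by fun_prop) _ _ (sub_half t)
  have l3 : Tendsto (fun a : ℝ × X => C * dist a.2 x ^ 2) (𝓝 (t, x)) (𝓝 0) :=
    Continuous.tendsto' (by fun_prop) _ _ (by simp)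
  have l4 := (l3.const_mul 2).add ((l1.comp l2).const_mul 2)
  rw [mul_zero, add_zero] at l4
  refine squeeze_zero' (Eventually.of_forall fun _ => n2_nonneg _) ?_ l4
  filter_upwards [prod_mem_nhds (Icc_mem_nhds (half_lt_self ht) (lt_add_one t))
    (ball_mem_nhds x hr)] with a ha
  have a0 : 0 < a.1 := h2.trans_le ha.1.1
  have b := n2_add_le ((hk.mem _ a.2 a0).sub (hk.mem _ x a0)) ((hk.mem _ x a0).sub (hk.mem t x ht))
  rw [sub_add_sub_cancel] at b
  have e1 := h.lyk2_semi hk (sub_nonneg.2 ha.1.1) h2 x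
  have e2 := h.lyk2_semi hk h2.le h2 x
  rw [add_sub_cancel] at e1
  rw [add_halves] at e2
  rw [← n2_congr (e1.sub e2)] at b
  exact b.trans (add_le_add (mul_le_mul_of_nonneg_left (hC _ ha.1 _ ha.2) zero_le_two) le_rfl)

/-- The symmetric kernel. -/
def lyk2_p (μ : Measure X) (k : ℝ → X → X → ℝ) (t : ℝ) (x y : X) : ℝ :=
  ∫ z, k (t / 2) y z * k (t / 2) x z ∂μ

theorem RS.lyk2_ae (h : RS D κ n) {k : ℝ → X → X → ℝ} (hk : LyKr D k) {t : ℝ} (ht : 0 < t)
    (x : X) : lyk2_p μ k t x =ᵐ[μ] k t x := by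
  have h2 := half_pos ht
  have e := h.lyk2_semi hk h2.le h2 x
  rw [add_halves] at e
  exact (hk.rep _ _ (hk.mem _ x h2) h2).symm.trans e

theorem RS.lyk2_ker (h : RS D κ n) {k : ℝ → X → X → ℝ} (hk : LyKr D k) :
    D.IsKer (lyk2_p μ k) := by
  refine ⟨fun a ha => ContinuousAt.continuousWithinAt ?_,
    fun t x ht => (hk.mem t x ht).ae_eq (h.lyk2_ae hk ht x).symm, fun f t hf ht => ?_⟩
  · have h2 : 0 < a.1 / 2 := half_pos ha.1
    have ev : ∀ᶠ b : ℝ × X × X in 𝓝 a, 0 < b.1 / 2 :=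
      (Continuous.tendsto (f := fun b : ℝ × X × X => b.1 / 2) (by fun_prop) a).eventually
        (lt_mem_nhds h2)
    have l1 : Tendsto (fun b : ℝ × X × X => (b.1 / 2, b.2.2)) (𝓝 a) (𝓝 (a.1 / 2, a.2.2)) :=
      Continuous.tendsto' (by fun_prop) _ _ rfl
    have l2 : Tendsto (fun b : ℝ × X × X => (b.1 / 2, b.2.1)) (𝓝 a) (𝓝 (a.1 / 2, a.2.1)) :=
      Continuous.tendsto' (by fun_prop) _ _ rfl
    have l3 := (h.lyk2_cont hk h2 a.2.2).comp l1
    have l4 := (h.lyk2_cont hk h2 a.2.1).comp l2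
    simp only [Function.comp_def] at l3 l4
    have l := tendsto_integral_mul (u := fun b : ℝ × X × X => k (b.1 / 2) b.2.2)
      (v := fun b : ℝ × X × X => k (b.1 / 2) b.2.1) (ev.mono fun b hb => hk.mem _ _ hb)
      (ev.mono fun b hb => hk.mem _ _ hb) (hk.mem _ a.2.2 h2) (hk.mem _ a.2.1 h2)
      l3 l4
    refine tendsto_iff_norm_sub_tendsto_zero.2
      (squeeze_zero' (Eventually.of_forall fun _ => norm_nonneg _) (ev.mono fun b hb => ?_) l)
    unfold lyk2_p
    rw [← integral_sub (integrable_mul_of_memLp (hk.mem _ _ hb) (hk.mem _ _ hb))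
      (integrable_mul_of_memLp (hk.mem _ _ h2) (hk.mem _ _ h2))]
    exact norm_integral_le_integral_norm _
  · refine (hk.rep f t hf ht).trans (ae_of_all _ fun x => integral_congr_ae ?_)
    filter_upwards [h.lyk2_ae hk ht x] with y hy
    rw [hy]

theorem RS.ly_kq (h : RS D κ n) {k : ℝ → X → X → ℝ} (hk : LyKr D k) : LyKq D := by
  have hK : D.IsKer D.p := Classical.epsilon_spec ⟨_, h.lyk2_ker hk⟩
  have e : ∀ t, 0 < t → ∀ x y, D.p t x y = lyk2_p μ k t x y := fun t ht x y =>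
    D.ly_ker_ext h.pos hK (h.lyk2_ker hk) ht x y
  have ae : ∀ t, 0 < t → ∀ x, D.p t x =ᵐ[μ] k t x := fun t ht x => by
    rw [funext (e t ht x)]
    exact h.lyk2_ae hk ht x
  have cont : ∀ f t, MemLp f 2 μ → 0 < t → Continuous fun x => ∫ y, D.p t x y * f y ∂μ := by
    intro f t hf ht
    refine (hk.cont f t hf ht).congr fun x => integral_congr_ae ?_
    filter_upwards [ae t ht x] with y hy
    rw [hy]
  have symm : ∀ t x y, 0 < t → D.p t x y = D.p t y x := fun t x y ht => by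
    rw [e t ht, e t ht]
    exact integral_congr_ae (ae_of_all _ fun z => mul_comm _ _)
  have Pp : ∀ s t x, 0 ≤ s → 0 < t → D.P s (D.p t x) =ᵐ[μ] D.p (s + t) x := fun s t x hs ht => by
    refine (h.flow.congr _ _ s (hK.2.1 t x ht) (ae t ht x)).trans
      ((h.lyk2_semi hk hs ht x).trans ?_)
    rw [add_comm]
    exact (ae _ (by linarith) x).symm
  refine ⟨⟨hK.2.1, cont, hK.2.2, fun x₀ a b ha => ?_⟩, hK, symm, Pp, fun s t x y hs ht => ?_⟩
  · obtain ⟨C, r, hr, hC⟩ := hk.lip x₀ a b ha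
    refine ⟨C, r, hr, fun t ht x hx => ?_⟩
    rw [n2_congr ((ae t (ha.trans_le ht.1) x).sub (ae t (ha.trans_le ht.1) x₀))]
    exact hC t ht x hx
  · have c1 : Continuous (D.p (t + s) x) :=
      hK.1.comp_continuous (f := fun y : X => (t + s, x, y)) (by fun_prop)
        fun _ => ⟨add_pos ht hs, trivial⟩
    have a := eq_of_ae_eq h.pos isOpen_univ c1.continuousOn
      (cont _ t (hK.2.1 s x hs) ht).continuousOn (by
        filter_upwards [Pp t s x ht.le hs, hK.2.2 _ t (hK.2.1 s x hs) ht] with z h1 h2 _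
        rw [← h1, h2]) y trivial
    rw [add_comm, a]
    exact integral_congr_ae (ae_of_all _ fun z => by
      simp only
      rw [mul_comm, symm t y z ht])

end RC
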