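import Pool.Agent.P.MP_6472e5_gt.LyG

/-! Sign, mass and bounds of the kernel. -/

set_option autoImplicit false
set_option linter.unusedSectionVars false

noncomputable section

namespace RC

open MeasureTheory Set Filter Topology Metric

variable {X : Type} [MetricSpace X] [SecondCountableTopology X] [MeasurableSpace X] [BorelSpace X]
  {μ : Measure X} {D : DS μ} {κ : ℝ} {n : ℕ}

namespace LyKq

variable (q : LyKq D) (h : R1 D κ n)
include q h

theorem lyk3_cont {t : ℝ} (ht : 0 < t) : Continuous fun a : X × X => D.p t a.1 a.2 :=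
  q.ker.1.comp_continuous (f := fun a : X × X => (t, a)) (by fun_prop) fun _ => ⟨ht, mem_univ _⟩

theorem lyk3_cont' {t : ℝ} (ht : 0 < t) (x : X) : Continuous (D.p t x) :=
  (q.lyk3_cont h ht).comp (f := fun y => (x, y)) (by fun_prop)

/-- Bounds that hold almost everywhere in a ball hold at the centre. -/
theorem lyk3_le {f : X → ℝ} (hf : MemLp f 2 μ) {t : ℝ} (ht : 0 < t) (x : X) {C : ℝ}
    (hC : ∀ᵐ z ∂μ, z ∈ ball x 1 → D.P t f z ≤ C) : ∫ y, D.p t x y * f y ∂μ ≤ C := by
  refine le_of_ae_le h.pos isOpen_ball (q.cont f t hf ht).continuousOn continuousOn_const ?_ x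
    (mem_ball_self one_pos)
  filter_upwards [hC, q.rep f t hf ht] with z a1 a2 a3
  rw [← a2]
  exact a1 a3

theorem lyk3_ge {f : X → ℝ} (hf : MemLp f 2 μ) {t : ℝ} (ht : 0 < t) (x : X)
    (hC : ∀ᵐ z ∂μ, 0 ≤ D.P t f z) : 0 ≤ ∫ y, D.p t x y * f y ∂μ := by
  refine le_of_ae_le h.pos isOpen_univ continuousOn_const (q.cont f t hf ht).continuousOn ?_ x
    (mem_univ _)
  filter_upwards [hC, q.rep f t hf ht] with z a1 a2 _
  rw [← a2]
  exact a1

theorem p_nonneg {t : ℝ} (ht : 0 < t) (x y : X) : 0 ≤ D.p t x y := by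
  refine le_of_ae_le h.pos isOpen_univ continuousOn_const (q.lyk3_cont' h ht x).continuousOn
    (D.ae_le_of_test (f := fun _ => 0) (locInt_of_int (integrable_zero _ _ _))
      (D.locInt_of_memLp (q.mem t x ht)) isOpen_univ fun φ hφ _ h0 => ?_) y (mem_univ _)
  have hm := D.lipB_memLp hφ
  simpa only [mul_zero, integral_zero, mul_comm] using
    q.lyk3_ge h hm ht x (h.flow.pos φ t hm (ae_of_all _ h0))

theorem p_int {t : ℝ} (ht : 0 < t) (x : X) : Integrable (D.p t x) μ := by
  refine (D.ly_dual (C := 1) (D.locInt_of_memLp (q.mem t x ht)) fun g hg h1 => ?_).1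
  have hm := D.lipB_memLp hg
  exact q.lyk3_le h hm ht x ((h.flow.markov g t (-1) 1 hm (by norm_num) zero_le_one
    (ae_of_all _ fun z => abs_le.1 (h1 z))).mono fun z hz _ => hz.2)

theorem p_one {t : ℝ} (ht : 0 < t) (x : X) : ∫ y, D.p t x y ∂μ = 1 := by
  choose χ c1 c2 c3 _ _ using fun k : ℕ => exists_cutoff_ball x (lt_add_one (k : ℝ))
  have hm : ∀ k, MemLp (χ k) 2 μ := fun k => D.lipB_memLp (c1 k)
  have hb : ∀ k y, |χ k y| ≤ 1 := fun k y => abs_le.2 ⟨by linarith [(c2 k y).1], (c2 k y).2⟩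
  have h1 : ∀ F : X → ℝ, Integrable F μ →
      Tendsto (fun k => ∫ y, F y * χ k y ∂μ) atTop (𝓝 (∫ y, F y ∂μ)) := fun F hF => by
    refine tendsto_integral_of_dominated_convergence (fun y => ‖F y‖)
      (fun k => hF.1.mul (hm k).1) hF.norm (fun k => ae_of_all _ fun y => ?_)
      (ae_of_all _ fun y => tendsto_const_nhds.congr' ?_)
    · rw [norm_mul]
      exact mul_le_of_le_one_right (norm_nonneg _) (hb k y)
    · filter_upwards [eventually_ge_atTop ⌈dist y x⌉₊] with k hk
      rw [c3 k y (Nat.ceil_le.1 hk), mul_one]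
  set L : NNReal := NNReal.mk √(Real.exp (2 * κ * t) * 1 ^ 2 / (2 * t)) (Real.sqrt_nonneg _) with hL
  have h2 : ∀ k, LipschitzWith L fun z => ∫ y, D.p t z y * χ k y ∂μ := fun k => by
    obtain ⟨g, g1, g2⟩ := DS.gs2l h.pos h.geo h.s2l
      (D.W_of_mem ((h.flow.heat _ (hm k)).1 t ht).1) L
      ((h.G_le (χ k) t 1 (hm k) (ae_of_all _ (hb k)) ht).mono fun y hy => by
        rwa [hL, NNReal.coe_mk, Real.sq_sqrt (by positivity)])
    have e : (fun z => ∫ y, D.p t z y * χ k y ∂μ) = g := funext fun z =>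
      eq_of_ae_eq h.pos isOpen_univ (q.cont _ t (hm k) ht).continuousOn g1.continuous.continuousOn
        (((q.rep _ t (hm k) ht).symm.trans g2).mono fun _ hy _ => hy) z (mem_univ _)
    rwa [e]
  have h3 : LipschitzWith L fun z => ∫ y, D.p t z y ∂μ :=
    LipschitzWith.of_dist_le_mul fun z z' =>
      le_of_tendsto' ((h1 _ (q.p_int h ht z)).dist (h1 _ (q.p_int h ht z')))
        fun k => (h2 k).dist_le_mul z z'
  have h4 : ∀ g : X → ℝ, (∃ K, LipschitzWith K g) → LocInt μ g := fun g ⟨K, hg⟩ =>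
    D.locInt_of_locBdd hg.continuous.aestronglyMeasurable
      (locBdd_of_lip fun _ _ => ⟨K, hg.lipschitzOnWith⟩)
  refine eq_of_ae_eq h.pos isOpen_univ h3.continuous.continuousOn continuousOn_const
    (D.ae_eq_of_test (g := fun _ => 1) (h4 _ ⟨L, h3⟩) (h4 _ ⟨0, LipschitzWith.const 1⟩) isOpen_univ
      fun φ hφ _ => ?_) x (mem_univ _)
  have m1 := D.lipB_memLp hφ
  have m2 := D.lipB_int hφ
  have h5 := h1 _ (h.flow.l1 φ t m1 m2).1
  rw [h.cons φ t m1 m2] at h5
  simp only [mul_one]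
  refine tendsto_nhds_unique ?_ h5
  have h6 : ∀ k, ∫ y, D.P t φ y * χ k y ∂μ = ∫ z, φ z * ∫ y, D.p t z y * χ k y ∂μ ∂μ := fun k => by
    rw [h.flow.symm φ (χ k) t m1 (hm k)]
    exact integral_congr_ae ((q.rep _ t (hm k) ht).mono fun z hz => by simp only [hz])
  simp only [h6]
  refine tendsto_integral_of_dominated_convergence (fun z => ‖φ z‖)
    (fun k => m2.1.mul (h2 k).continuous.aestronglyMeasurable) m2.norm (fun k => ?_)
    (ae_of_all _ fun z => (h1 _ (q.p_int h ht z)).const_mul _)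
  filter_upwards [q.rep _ t (hm k) ht, h.flow.markov (χ k) t (-1) 1 (hm k) (by norm_num) zero_le_one
    (ae_of_all _ fun z => abs_le.1 (hb k z))] with z a1 a2
  rw [norm_mul, ← a1]
  exact mul_le_of_le_one_right (norm_nonneg _) (abs_le.2 a2)

theorem p_bdd (hu : LyUC D) {t : ℝ} (ht : 0 < t) (x : X) : ∃ C, ∀ y, D.p t x y ≤ C := by
  obtain ⟨C, -, hC⟩ := hu x 1 t t ht
  refine ⟨C, fun y => le_of_ae_le h.pos isOpen_univ (q.lyk3_cont' h ht x).continuousOn
    continuousOn_const (D.ae_le_of_test (g := fun _ => C) (D.locInt_of_memLp (q.mem t x ht))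
      (D.locInt_of_locBdd aestronglyMeasurable_const (Bdd.const C).locBdd) isOpen_univ
      fun φ hφ _ h0 => ?_) y (mem_univ _)⟩
  have hm := D.lipB_memLp hφ
  have h1 := q.lyk3_le h hm ht x
    (hC t ⟨le_rfl, le_rfl⟩ φ hm (D.lipB_int hφ) hφ.bdd (ae_of_all _ h0))
  rw [integral_mul_const]
  simpa only [mul_comm] using h1

theorem P_l1 {φ g : X → ℝ} {t : ℝ} (hφ : MemLp φ 2 μ) (bφ : Bdd μ φ) (hg : Integrable g μ)
    (ht : 0 < t) : ∫ x, D.P t φ x * g x ∂μ = ∫ x, φ x * D.Pk t g x ∂μ := by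
  have := D.sfin
  obtain ⟨M, hM⟩ := bφ
  have hk := (q.lyk3_cont h ht).aestronglyMeasurable (μ := μ.prod μ)
  have hF : AEStronglyMeasurable (fun a : X × X => D.p t a.1 a.2 * φ a.2 * g a.1) (μ.prod μ) :=
    (hk.mul hφ.1.comp_snd).mul hg.1.comp_fst
  have h1 : ∀ x, Integrable (fun y => D.p t x y * φ y) μ := fun x => by
    simpa only [mul_comm] using Bdd.mul_integrable ⟨M, hM⟩ hφ.1 (q.p_int h ht x)
  have h2 : Integrable (fun a : X × X => D.p t a.1 a.2 * φ a.2 * g a.1) (μ.prod μ) := by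
    refine (integrable_prod_iff hF).2 ⟨ae_of_all _ fun x => (h1 x).mul_const (g x), ?_⟩
    refine (hg.norm.const_mul M).mono' hF.norm.integral_prod_right' (ae_of_all _ fun x => ?_)
    rw [Real.norm_of_nonneg (integral_nonneg fun _ => norm_nonneg _)]
    calc _ ≤ ∫ y, D.p t x y * (M * ‖g x‖) ∂μ := by
          refine integral_mono_ae ((h1 x).mul_const (g x)).norm ((q.p_int h ht x).mul_const _)
            (hM.mono fun y hy => ?_)
          simp only [norm_mul, Real.norm_of_nonneg (q.p_nonneg h ht x y), mul_assoc]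
          exact mul_le_mul_of_nonneg_left (mul_le_mul_of_nonneg_right hy (norm_nonneg _))
            (q.p_nonneg h ht x y)
      _ = _ := by rw [integral_mul_const, q.p_one h ht, one_mul]
  calc _ = ∫ x, ∫ y, D.p t x y * φ y * g x ∂μ ∂μ :=
        integral_congr_ae ((q.rep φ t hφ ht).mono fun x hx => by
          simp only [hx, integral_mul_const])
    _ = ∫ y, ∫ x, D.p t x y * φ y * g x ∂μ ∂μ := integral_integral_swap h2
    _ = _ := by
      refine integral_congr_ae (ae_of_all _ fun y => ?_)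
      simp only [DS.Pk, ← integral_const_mul]
      refine integral_congr_ae (ae_of_all _ fun x => ?_)
      simp only [q.symm t x y ht]
      ring

end LyKq

end RC
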