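import Pool.Agent.P.MP_6472e5_gt.LyG

/-! The time derivative of the kernel. -/

set_option autoImplicit false
set_option linter.unusedSectionVars false

noncomputable section

namespace RC

open MeasureTheory Set Filter Topology Metric

variable {X : Type} [MetricSpace X] [SecondCountableTopology X] [MeasurableSpace X] [BorelSpace X]
  {μ : Measure X} {D : DS μ} {κ : ℝ} {n : ℕ}

theorem lyk4_L_memLp (hF : D.Flow) {f : X → ℝ} {t : ℝ} (hf : MemLp f 2 μ) (ht : 0 < t) :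
    MemLp (D.L t f) 2 μ := D.memLp _ (hF.L_mem f t hf ht)

theorem lyk4_L_sub (hF : D.Flow) {f g : X → ℝ} {t : ℝ} (hf : MemLp f 2 μ) (hg : MemLp g 2 μ)
    (ht : 0 < t) : D.L t f - D.L t g =ᵐ[μ] D.L t (f - g) := by
  have h1 := hF.L_add (f - g) g t (hf.sub hg) hg ht
  rw [sub_add_cancel] at h1
  filter_upwards [h1] with x hx
  simp only [Pi.add_apply, Pi.sub_apply] at hx ⊢
  linarith

theorem lyk4_lip {k : ℝ → X → X → ℝ} (q : LyKr D k) {c : ℝ} (hc : 0 < c) (x₀ : X) :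
    Tendsto (fun x => n2 μ (k c x - k c x₀)) (𝓝 x₀) (𝓝 0) := by
  obtain ⟨C, r, hr, hC⟩ := q.lip x₀ c c hc
  have h1 : Tendsto (fun x => C * dist x x₀ ^ 2) (𝓝 x₀) (𝓝 (C * dist x₀ x₀ ^ 2)) :=
    (by fun_prop : Continuous fun x => C * dist x x₀ ^ 2).tendsto x₀
  rw [dist_self, zero_pow two_ne_zero, mul_zero] at h1
  refine squeeze_zero' (Eventually.of_forall fun x => n2_nonneg _) ?_ h1
  filter_upwards [ball_mem_nhds x₀ hr] with x hx
  exact hC c ⟨le_rfl, le_rfl⟩ x hx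

namespace LyKq

variable (q : LyKq D) (h : R1 D κ n)
include q h

theorem lyk4_der {a b c : ℝ} (ha : 0 < a) (hb : 0 < b) (hc : 0 < c) (x y : X) :
    HasDerivAt (fun s => D.p s x y) (∫ z, D.p b y z * D.L a (D.p c x) z ∂μ) (a + b + c) := by
  have hm := q.mem c x hc
  have h1 : DerL2 μ (fun s => D.P s (D.p c x)) (D.L a (D.p c x)) (1 * (a + b + c) + -(b + c)) := by
    have e : 1 * (a + b + c) + -(b + c) = a := by ring
    rw [e]
    exact ((h.flow.heat _ hm).1 a ha).2.2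
  have h2 := ((DerL2.affine one_ne_zero h1).mul_memLp (q.mem b y hb)).hasDerivAt
  simp only [one_smul] at h2
  refine h2.congr_of_eventuallyEq ?_
  have h3 : b + c < a + b + c := by linarith
  filter_upwards [lt_mem_nhds h3] with s hs
  have e : s = (s - b) + b := by ring
  have h4 := q.ck (s - b) b x y (by linarith) hb
  rw [← e] at h4
  rw [h4]
  have h5 := q.P_p (1 * s + -(b + c)) c x (by linarith) hc
  have e2 : 1 * s + -(b + c) + c = s - b := by ring
  rw [e2] at h5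
  refine integral_congr_ae ?_
  filter_upwards [h5] with z hz
  rw [hz, q.symm b z y hb, mul_comm]

theorem lyk4_dp {a b c : ℝ} (ha : 0 < a) (hb : 0 < b) (hc : 0 < c) (x y : X) :
    D.dp (a + b + c) x y = ∫ z, D.p b y z * D.L a (D.p c x) z ∂μ :=
  (q.lyk4_der h ha hb hc x y).deriv

theorem der {t : ℝ} (ht : 0 < t) (x y : X) :
    HasDerivAt (fun s => D.p s x y) (D.dp t x y) t := by
  have h3 : 0 < t / 3 := by linarith
  have h1 := q.lyk4_der h h3 h3 h3 x y
  have e : t / 3 + t / 3 + t / 3 = t := by ring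
  rw [e] at h1
  exact h1.differentiableAt.hasDerivAt

theorem dp_cont :
    ContinuousOn (fun a : ℝ × X × X => D.dp a.1 a.2.1 a.2.2) (Ioi 0 ×ˢ univ) := by
  rintro ⟨t, x, y⟩ ⟨ht, -⟩
  have ht0 : 0 < t := ht
  refine ContinuousAt.continuousWithinAt ?_
  obtain ⟨c, hc⟩ : ∃ c, c = t / 4 := ⟨_, rfl⟩
  have hc0 : 0 < c := by linarith
  have ha0 : 0 < t - 2 * c := by linarith
  have t1 : Tendsto (fun a : ℝ × X × X => a.1 - 2 * c) (𝓝 (t, x, y)) (𝓝 (t - 2 * c)) :=
    (by fun_prop : Continuous fun a : ℝ × X × X => a.1 - 2 * c).tendsto (t, x, y)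
  have t2 : Tendsto (fun a : ℝ × X × X => a.2.1) (𝓝 (t, x, y)) (𝓝 x) :=
    (by fun_prop : Continuous fun a : ℝ × X × X => a.2.1).tendsto (t, x, y)
  have t3 : Tendsto (fun a : ℝ × X × X => a.2.2) (𝓝 (t, x, y)) (𝓝 y) :=
    (by fun_prop : Continuous fun a : ℝ × X × X => a.2.2).tendsto (t, x, y)
  have ev : ∀ᶠ a : ℝ × X × X in 𝓝 (t, x, y), c < a.1 - 2 * c :=
    t1.eventually (lt_mem_nhds (by linarith))
  have s1 := (lyk4_lip q.toLyKr hc0 y).comp t3
  have s2 := (lyk4_lip q.toLyKr hc0 x).comp t2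
  have s3 := (h.flow.L_derV _ _ (q.mem c x hc0) ha0).derL2.cont.comp t1
  have s4 : Tendsto (fun a : ℝ × X × X =>
      n2 μ (D.L (a.1 - 2 * c) (D.p c a.2.1) - D.L (t - 2 * c) (D.p c x))) (𝓝 (t, x, y)) (𝓝 0) := by
    have s5 := ((s2.div_const (c ^ 2)).const_mul 2).add (s3.const_mul 2)
    simp only [zero_div, mul_zero, add_zero] at s5
    refine squeeze_zero' (Eventually.of_forall fun a => n2_nonneg _) ?_ s5
    filter_upwards [ev] with a ha
    have ha' : 0 < a.1 - 2 * c := hc0.trans ha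
    have m1 := lyk4_L_memLp h.flow (q.mem c a.2.1 hc0) ha'
    have m2 := lyk4_L_memLp h.flow (q.mem c x hc0) ha'
    have m3 := lyk4_L_memLp h.flow (q.mem c x hc0) ha0
    have i1 := n2_add_le (m1.sub m2) (m2.sub m3)
    rw [sub_add_sub_cancel] at i1
    have i2 := n2_congr (lyk4_L_sub h.flow (q.mem c a.2.1 hc0) (q.mem c x hc0) ha')
    have i3 := h.flow.L_le _ _ ((q.mem c a.2.1 hc0).sub (q.mem c x hc0)) ha'
    have i4 : n2 μ (D.p c a.2.1 - D.p c x) / (a.1 - 2 * c) ^ 2 ≤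
        n2 μ (D.p c a.2.1 - D.p c x) / c ^ 2 :=
      div_le_div_of_nonneg_left (n2_nonneg _) (pow_pos hc0 2) (pow_le_pow_left₀ hc0.le ha.le 2)
    simp only [Function.comp]
    linarith
  have s6 := tendsto_integral_mul (μ := μ) (l := 𝓝 (t, x, y))
    (u := fun a : ℝ × X × X => D.p c a.2.2)
    (v := fun a : ℝ × X × X => D.L (a.1 - 2 * c) (D.p c a.2.1))
    (Eventually.of_forall fun a => q.mem c a.2.2 hc0)
    (ev.mono fun a ha => lyk4_L_memLp h.flow (q.mem c a.2.1 hc0) (hc0.trans ha))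
    (q.mem c y hc0) (lyk4_L_memLp h.flow (q.mem c x hc0) ha0) s1 s4
  have key : ∀ s x y, 0 < s - 2 * c →
      D.dp s x y = ∫ z, D.p c y z * D.L (s - 2 * c) (D.p c x) z ∂μ := by
    intro s x y hs
    have h1 := q.lyk4_dp h hs hc0 hc0 x y
    have e : s - 2 * c + c + c = s := by ring
    rwa [e] at h1
  rw [ContinuousAt, tendsto_iff_norm_sub_tendsto_zero]
  refine squeeze_zero' (Eventually.of_forall fun a => norm_nonneg _) ?_ s6
  filter_upwards [ev] with a ha
  have ha' : 0 < a.1 - 2 * c := hc0.trans ha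
  rw [key _ _ _ ha', key t x y ha0, ← integral_sub
    (integrable_mul_of_memLp (q.mem c a.2.2 hc0) (lyk4_L_memLp h.flow (q.mem c a.2.1 hc0) ha'))
    (integrable_mul_of_memLp (q.mem c y hc0) (lyk4_L_memLp h.flow (q.mem c x hc0) ha0))]
  exact norm_integral_le_integral_norm _

theorem dp_symm {t : ℝ} (ht : 0 < t) (x y : X) : D.dp t x y = D.dp t y x := by
  refine Filter.EventuallyEq.deriv_eq ?_
  filter_upwards [lt_mem_nhds ht] with s hs
  exact q.symm s x y hs

theorem L_p {s t : ℝ} (hs : 0 < s) (ht : 0 < t) (x : X) :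
    D.L s (D.p t x) =ᵐ[μ] D.dp (s + t) x := by
  have h2 : 0 < s / 2 := by linarith
  have h1 := h.flow.L_semi _ (s / 2) (s / 2) (q.mem t x ht) h2.le h2
  rw [add_halves] at h1
  have h3 := q.rep _ (s / 2) (lyk4_L_memLp h.flow (q.mem t x ht) h2) h2
  filter_upwards [h1, h3] with y e1 e3
  have h4 := q.lyk4_dp h h2 h2 ht x y
  rw [add_halves] at h4
  rw [e1, e3, h4]

theorem dck {s t : ℝ} (hs : 0 < s) (ht : 0 < t) (x y : X) :
    D.dp (s + t) x y = ∫ z, D.dp s x z * D.p t z y ∂μ := by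
  have h2 : 0 < s / 2 := by linarith
  have h4 := q.lyk4_dp h h2 ht h2 x y
  have e : s / 2 + t + s / 2 = s + t := by ring
  rw [e] at h4
  rw [h4]
  have h5 := q.L_p h h2 h2 x
  rw [add_halves] at h5
  refine integral_congr_ae ?_
  filter_upwards [h5] with z hz
  rw [hz, q.symm t z y ht, mul_comm]

theorem lyk4_Lk {f : X → ℝ} {t : ℝ} (hf : MemLp f 2 μ) (ht : 0 < t) (x : X) :
    D.Lk t f x = ∫ y, D.p (t / 2) x y * D.L (t / 2) f y ∂μ := by
  have h2 : 0 < t / 2 := by linarith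
  have h5 := q.L_p h h2 h2 x
  rw [add_halves] at h5
  rw [← h.flow.L_symm _ f (t / 2) (q.mem _ x h2) hf h2]
  refine integral_congr_ae ?_
  filter_upwards [h5] with z hz
  rw [hz]

theorem L_rep {f : X → ℝ} {t : ℝ} (hf : MemLp f 2 μ) (ht : 0 < t) :
    D.L t f =ᵐ[μ] D.Lk t f := by
  have h2 : 0 < t / 2 := by linarith
  have h1 := h.flow.L_semi _ (t / 2) (t / 2) hf h2.le h2
  rw [add_halves] at h1
  have h3 := q.rep _ (t / 2) (lyk4_L_memLp h.flow hf h2) h2
  filter_upwards [h1, h3] with y e1 e3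
  rw [e1, e3, q.lyk4_Lk h hf ht]

theorem dp_int {t : ℝ} (ht : 0 < t) (x : X) : Integrable (D.dp t x) μ := by
  have h2 : 0 < t / 2 := by linarith
  have h5 := q.L_p h h2 h2 x
  rw [add_halves] at h5
  have hm : MemLp (D.dp t x) 2 μ := (lyk4_L_memLp h.flow (q.mem _ x h2) h2).ae_eq h5
  refine (D.ly_dual (C := √(n * Real.exp (2 * κ * t) * 1 ^ 2 / t ^ 2)) (D.locInt_of_memLp hm)
    fun g hg hb => ?_).1
  have mg := D.lipB_memLp hg
  have c1 : Continuous (D.Lk t g) := by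
    have c2 := q.cont _ (t / 2) (lyk4_L_memLp h.flow mg h2) h2
    exact c2.congr fun y => (q.lyk4_Lk h mg ht y).symm
  refine le_of_ae_le h.pos isOpen_univ c1.continuousOn continuousOn_const ?_ x (mem_univ x)
  filter_upwards [h.L_le g t 1 mg (Eventually.of_forall hb) ht, q.L_rep h mg ht] with y e1 e2 _
  rw [← e2]
  exact Real.le_sqrt_of_sq_le e1

end LyKq

end RC
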