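import Pool.Agent.P.MP_6472e5_gt.LyK3
import Pool.Agent.P.MP_6472e5_gt.LyK4

/-! The Li-Yau and Harnack inequalities for the kernel. -/

set_option autoImplicit false
set_option linter.unusedSectionVars false

noncomputable section

namespace RC

open MeasureTheory Set Filter Topology Metric

variable {X : Type} [MetricSpace X] [SecondCountableTopology X] [MeasurableSpace X] [BorelSpace X]
  {μ : Measure X} {D : DS μ} {κ : ℝ} {n : ℕ}

namespace LyKq

variable (q : LyKq D) (h : R1 D κ n) (hu : LyUC D)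
include q h hu

theorem lyk5_bdd {t : ℝ} (ht : 0 < t) (x : X) : Bdd μ (D.p t x) := by
  obtain ⟨C, hC⟩ := q.p_bdd h hu ht x
  exact ⟨C, Eventually.of_forall fun y => by
    rw [abs_of_nonneg (q.p_nonneg h ht x y)]
    exact hC y⟩

theorem lyk5_cont {t : ℝ} (ht : 0 < t) (x : X) : Continuous (D.p t x) :=
  q.ker.1.comp_continuous (f := fun y : X => (t, x, y)) (by fun_prop) fun _ => ⟨ht, trivial⟩

theorem lyk5_P {e t : ℝ} (he : 0 < e) (ht : e < t) (x : X) :
    D.P (t - e) (D.p e x) =ᵐ[μ] D.p t x := by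
  simpa using q.P_p (t - e) e x (sub_pos.2 ht).le he

theorem lyk5_L {e t : ℝ} (he : 0 < e) (ht : e < t) (x : X) :
    D.L (t - e) (D.p e x) =ᵐ[μ] D.dp t x := by
  simpa using q.L_p h (sub_pos.2 ht) he x

theorem p_tb {t : ℝ} (ht : 0 < t) (x : X) : D.Tb (D.p t x) (D.dp t x) :=
  (h.tb _ (t - t / 2) (q.mem _ x (half_pos ht)) (q.lyk5_bdd h hu (half_pos ht) x)
    (sub_pos.2 (half_lt_self ht))).congr (q.lyk5_P h hu (half_pos ht) (half_lt_self ht) x)
    (q.lyk5_L h hu (half_pos ht) (half_lt_self ht) x)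

omit q h hu in
theorem lyk5_seq {t : ℝ} (ht : 0 < t) : ∃ e : ℕ → ℝ, (∀ k, 0 < e k ∧ e k < t) ∧
    Tendsto e atTop (𝓝 0) := by
  obtain ⟨e, -, h1, h2⟩ := exists_seq_strictAnti_tendsto' ht
  exact ⟨e, h1, h2⟩

theorem ly (hly : LyY D κ n) {t : ℝ} (ht : 0 < t) (x : X) :
    ∀ᵐ y ∂μ, D.G (D.p t x) (D.p t x) y ≤ D.p t x y *
      ((1 + 2 * κ * t / 3) * D.dp t x y + n / 2 * (1 / t + κ + κ ^ 2 * t / 3) * D.p t x y) := by
  obtain ⟨e, h1, h2⟩ := lyk5_seq ht
  have hW := D.W_of_mem (q.p_tb h hu ht x).mem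
  have h3 : ∀ k, ∀ᵐ y ∂μ, D.G (D.p t x) (D.p t x) y ≤ (D.p t x y + e k) *
      ((1 + 2 * κ * (t - e k) / 3) * D.dp t x y +
        n / 2 * (1 / (t - e k) + κ + κ ^ 2 * (t - e k) / 3) * (D.p t x y + e k)) := fun k => by
    have a := q.lyk5_P h hu (h1 k).1 (h1 k).2 x
    filter_upwards [hly _ (t - e k) (e k) (q.mem _ x (h1 k).1) (q.lyk5_bdd h hu (h1 k).1 x)
      (Eventually.of_forall (q.p_nonneg h (h1 k).1 x)) (sub_pos.2 (h1 k).2) (h1 k).1, a,
      q.lyk5_L h hu (h1 k).1 (h1 k).2 x, DS.G_congr hW hW a.symm a.symm] with y a1 a2 a3 a4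
    rwa [a2, a3, ← a4] at a1
  filter_upwards [ae_all_iff.2 h3] with y hy
  have h4 : ContinuousAt (fun e : ℝ => (D.p t x y + e) *
      ((1 + 2 * κ * (t - e) / 3) * D.dp t x y +
        n / 2 * (1 / (t - e) + κ + κ ^ 2 * (t - e) / 3) * (D.p t x y + e))) 0 := by
    have : t - 0 ≠ 0 := by simpa using ht.ne'
    fun_prop (disch := assumption)
  simpa using ge_of_tendsto' (h4.tendsto.comp h2) hy

theorem harn (hh : LyHa D κ n) {s t : ℝ} (hs : 0 < s) (hst : s < t) (z x y : X) :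
    D.p s z x ≤ D.p t z y * √((t / s) ^ n) *
      Real.exp (n * κ * t + (1 + κ * t) * dist x y ^ 2 / (4 * (t - s))) := by
  obtain ⟨e, h1, h2⟩ := lyk5_seq hs
  have h3 : ∀ k, D.p s z x ≤ D.p t z y * √(((t - e k) / (s - e k)) ^ n) *
      Real.exp (n * κ * (t - e k) + (1 + κ * (t - e k)) * dist x y ^ 2 / (4 * (t - s))) :=
    fun k => by
      have a := hh _ (s - e k) (t - e k) _ _ (q.mem _ z (h1 k).1) (q.lyk5_bdd h hu (h1 k).1 z)
        (Eventually.of_forall (q.p_nonneg h (h1 k).1 z)) (sub_pos.2 (h1 k).2) (by linarith)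
        (q.lyk5_cont h hu hs z) (q.lyk5_cont h hu (hs.trans hst) z)
        (q.lyk5_P h hu (h1 k).1 (h1 k).2 z) (q.lyk5_P h hu (h1 k).1 ((h1 k).2.trans hst) z) x y
      rwa [sub_sub_sub_cancel_right] at a
  have h4 : ContinuousAt (fun e : ℝ => D.p t z y * √(((t - e) / (s - e)) ^ n) *
      Real.exp (n * κ * (t - e) + (1 + κ * (t - e)) * dist x y ^ 2 / (4 * (t - s)))) 0 := by
    have : s - 0 ≠ 0 := by simpa using hs.ne'
    fun_prop (disch := assumption)
  simpa using ge_of_tendsto' (h4.tendsto.comp h2) h3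

theorem p_pos (hh : LyHa D κ n) {t : ℝ} (ht : 0 < t) (x y : X) : 0 < D.p t x y := by
  refine (q.p_nonneg h ht x y).lt_of_ne fun h0 => ?_
  have h1 : ∀ z, D.p (t / 2) x z = 0 := fun z => by
    have a := q.harn h hu hh (half_pos ht) (half_lt_self ht) x z y
    rw [← h0, zero_mul, zero_mul] at a
    exact le_antisymm a (q.p_nonneg h (half_pos ht) x z)
  have h2 := q.p_one h (half_pos ht) x
  simp [h1] at h2

end LyKq

end RC
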