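import Pool.Agent.P.MP_6472e5_gt.LyD

/-! Local boundedness of the flow of integrable data. -/

set_option autoImplicit false
set_option linter.unusedSectionVars false

noncomputable section

namespace RC

open MeasureTheory Set Filter Topology Metric

variable {X : Type} [MetricSpace X] [SecondCountableTopology X] [MeasurableSpace X] [BorelSpace X]
  {μ : Measure X} {D : DS μ} {κ : ℝ} {n : ℕ}

theorem R1.ly_uc (h : R1 D κ n) (hu : LyHa D κ n) : LyUC D := by
  intro x₀ R a b ha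
  obtain ⟨K, hK⟩ : ∃ K : ℝ, K = √((2 : ℝ) ^ n) *
      Real.exp (n * κ * (2 * b) + (1 + κ * (2 * b)) * (R + 1) ^ 2 / (4 * a)) := ⟨_, rfl⟩
  have hK0 : 0 ≤ K := by
    rw [hK]
    positivity
  have hm : 0 < μ.real (ball x₀ 1) :=
    ENNReal.toReal_pos (h.pos x₀ 1 one_pos).ne' (D.fin x₀ 1).ne
  refine ⟨K / μ.real (ball x₀ 1), div_nonneg hK0 hm.le, fun t ht g hg hi hb h0 => ?_⟩
  have ht0 : 0 < t := ha.trans_le ht.1
  have hκ := h.κ_nonneg
  obtain ⟨u, _, hul, eu⟩ := h.exists_lip (h.tb g t hg hb ht0)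
  obtain ⟨v, _, hvl, ev⟩ := h.exists_lip (h.tb g (2 * t) hg hb (by linarith))
  obtain ⟨iv, lv⟩ := h.flow.l1 g (2 * t) hg hi
  have iv' : Integrable (fun y => |v y|) μ := (iv.congr ev).abs
  have lv' : ∫ y, |v y| ∂μ ≤ ∫ y, g y ∂μ := by
    have e1 : ∫ y, |v y| ∂μ = ∫ y, |D.P (2 * t) g y| ∂μ :=
      integral_congr_ae (ev.mono fun y hy => by simp only [hy])
    have e2 : ∫ y, |g y| ∂μ = ∫ y, g y ∂μ :=
      integral_congr_ae (h0.mono fun y hy => abs_of_nonneg hy)
    rw [e1, ← e2]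
    exact lv
  filter_upwards [eu] with x hx hxR
  have key : ∀ y ∈ ball x₀ 1, u x ≤ K * |v y| := by
    intro y hy
    have a1 := hu g t (2 * t) u v hg hb h0 ht0 (by linarith) hul.continuous hvl.continuous eu ev x y
    have e1 : 2 * t / t = 2 := by field_simp
    have e2 : 2 * t - t = t := by ring
    rw [e1, e2, mul_assoc] at a1
    have hd : dist x y ≤ R + 1 := by
      have := dist_triangle_right x y x₀
      linarith [mem_ball.1 hxR, mem_ball.1 hy]
    have hd2 : dist x y ^ 2 ≤ (R + 1) ^ 2 := pow_le_pow_left₀ dist_nonneg hd 2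
    have a2 : κ * (2 * t) ≤ κ * (2 * b) := mul_le_mul_of_nonneg_left (by linarith [ht.2]) hκ
    have a3 : 0 ≤ κ * (2 * t) := by positivity
    have a4 : (1 + κ * (2 * t)) * dist x y ^ 2 / (4 * t) ≤
        (1 + κ * (2 * b)) * (R + 1) ^ 2 / (4 * a) :=
      div_le_div₀ (mul_nonneg (by linarith) (sq_nonneg _))
        (mul_le_mul (by linarith) hd2 (sq_nonneg _) (by linarith)) (by positivity)
        (by linarith [ht.1])
    have a5 : (n : ℝ) * κ * (2 * t) ≤ n * κ * (2 * b) := by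
      rw [mul_assoc, mul_assoc]
      exact mul_le_mul_of_nonneg_left a2 n.cast_nonneg
    have a6 : √((2 : ℝ) ^ n) * Real.exp (n * κ * (2 * t) +
        (1 + κ * (2 * t)) * dist x y ^ 2 / (4 * t)) ≤ K := by
      rw [hK]
      exact mul_le_mul_of_nonneg_left (Real.exp_le_exp.2 (add_le_add a5 a4)) (Real.sqrt_nonneg _)
    refine a1.trans ?_
    rw [mul_comm K]
    exact mul_le_mul (le_abs_self _) a6 (by positivity) (abs_nonneg _)
  have a7 : ∫ _ in ball x₀ 1, u x ∂μ ≤ ∫ y in ball x₀ 1, K * |v y| ∂μ :=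
    setIntegral_mono_on (integrableOn_const (D.fin x₀ 1).ne) (iv'.const_mul K).integrableOn
      measurableSet_ball key
  have a8 : ∫ y in ball x₀ 1, K * |v y| ∂μ ≤ ∫ y, K * |v y| ∂μ :=
    setIntegral_le_integral (iv'.const_mul K) (ae_of_all _ fun y => by positivity)
  rw [setIntegral_const, smul_eq_mul] at a7
  rw [integral_const_mul (μ := μ)] at a8
  rw [hx, div_mul_eq_mul_div, le_div_iff₀ hm, mul_comm]
  exact a7.trans (a8.trans (mul_le_mul_of_nonneg_left lv' hK0))

end RC
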