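import Pool.Agent.P.MP_6472e5_gt.UlD
import Pool.Agent.P.MP_6472e5_gt.GH
import Pool.Agent.P.MP_6472e5_gt.XQ

/-! Existence of metric blow-ups. -/

set_option autoImplicit false
set_option linter.unusedSectionVars false

noncomputable section

namespace RC

open MeasureTheory Set Filter Topology Metric

variable {X : Type} [MetricSpace X] [ProperSpace X] [MeasurableSpace X] [BorelSpace X]

theorem mb_meas {ι Z : Type} [MeasurableSpace Z] (e : Z) {A : ι → Set X}
    (hA : ∀ l, MeasurableSet (A l)) (c : ι → Z) (s : Finset ι) :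
    ∃ φ : X → Z, Measurable φ ∧ ∀ b, (∃ l ∈ s, b ∈ A l) → ∃ l, b ∈ A l ∧ φ b = c l := by
  classical
  induction s using Finset.induction_on with
  | empty => exact ⟨fun _ => e, measurable_const, by simp⟩
  | insert l s _ ih =>
    obtain ⟨φ, h1, h2⟩ := ih
    refine ⟨fun b => if b ∈ A l then c l else φ b, Measurable.ite (hA l) measurable_const h1,
      fun b hb => ?_⟩
    by_cases h : b ∈ A l
    · exact ⟨l, h, if_pos h⟩
    · obtain ⟨k, hk, hb⟩ := hb
      rcases Finset.mem_insert.1 hk with rfl | hk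
      · exact absurd hb h
      · obtain ⟨j, h3, h4⟩ := h2 b ⟨k, hk, hb⟩
        exact ⟨j, h3, (if_neg h).trans h4⟩

theorem mb_net {U : Ultrafilter ℕ} {y : ℕ → X} {r : ℕ → ℝ} (hr : ∀ i, 0 < r i) {R ε : ℝ}
    (hε : 0 < ε) {m : ℕ} (ht : ∀ᶠ i in (U : Filter ℕ), ∃ T : Finset X,
      T.card ≤ m ∧ ball (y i) (R * r i) ⊆ ⋃ t ∈ T, ball t (ε * r i)) :
    ∃ t : Fin m → XqS U y r, ∀ᶠ i in (U : Filter ℕ), ∀ b ∈ ball (y i) (R * r i),
      ∃ l, dist b ((t l).1 i) < ε * r i := by
  classical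
  have h1 : ∀ᶠ i in (U : Filter ℕ), ∃ f : Fin m → X, (∀ l, f l ∈ ball (y i) ((|R| + ε) * r i)) ∧
      ∀ b ∈ ball (y i) (R * r i), ∃ l, dist b (f l) < ε * r i := by
    filter_upwards [ht] with i ⟨T, h1, h2⟩
    obtain ⟨g⟩ : Nonempty (T ↪ Fin m) := Function.Embedding.nonempty_of_card_le (by simpa using h1)
    obtain ⟨f, hf⟩ : ∃ f : Fin m → X, ∀ t : T, f (g t) = t :=
      ⟨Function.extend g Subtype.val fun _ => y i, fun t => g.injective.extend_apply _ _ t⟩
    refine ⟨fun l => if f l ∈ ball (y i) ((|R| + ε) * r i) then f l else y i, fun l => ?_,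
      fun b hb => ?_⟩
    · beta_reduce
      split_ifs with h
      · exact h
      · exact mem_ball_self (mul_pos (by positivity) (hr i))
    · obtain ⟨t, h3, h4⟩ := mem_iUnion₂.1 (h2 hb)
      refine ⟨g ⟨t, h3⟩, ?_⟩
      have h5 : t ∈ ball (y i) ((|R| + ε) * r i) := by
        have := mul_le_mul_of_nonneg_right (le_abs_self R) (hr i).le
        rw [mem_ball] at hb h4 ⊢
        linarith [dist_triangle_left t (y i) b]
      simp only [hf, if_pos h5]
      exact h4
  obtain ⟨f, hf⟩ := h1.choice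
  exact ⟨fun l => ⟨fun i => f i l, |R| + ε, hf.mono fun i hi => hi.1 l⟩, hf.mono fun i hi => hi.2⟩

theorem mb_diag {W : Type} [MetricSpace W] [MeasurableSpace W] {l : Filter ℕ} (hl : l ≤ atTop)
    {y : ℕ → X} {r : ℕ → ℝ} (hr : ∀ i, 0 < r i) {w : W}
    (h : ∀ R ε, 0 < R → 0 < ε → ∀ᶠ i in l, ∃ φ, Measurable φ ∧ GHApprox (y i) (r i) w R ε φ) :
    ∃ φ : ℕ → X → W, (∀ i, Measurable (φ i)) ∧
      ∀ R ε, 0 < R → 0 < ε → ∀ᶠ i in l, GHApprox (y i) (r i) w R ε (φ i) := by
  classical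
  let P : ℕ → ℕ → Prop := fun i N => ∃ φ, Measurable φ ∧
    GHApprox (y i) (r i) w (N + 1) (1 / (N + 1)) φ
  refine ⟨fun i => if h : P i (Nat.findGreatest (P i) i) then h.choose else fun _ => w,
    fun i => ?_, fun R ε hR hε => ?_⟩
  · by_cases h3 : P i (Nat.findGreatest (P i) i)
    · simp only [dif_pos h3]
      exact h3.choose_spec.1
    · simp only [dif_neg h3]
      exact measurable_const
  filter_upwards [h ((⌈R + 2 / ε⌉₊ : ℕ) + 1) (1 / ((⌈R + 2 / ε⌉₊ : ℕ) + 1)) (by positivity)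
    (by positivity), hl (eventually_ge_atTop ⌈R + 2 / ε⌉₊)] with i h1 h2
  have h3 : P i (Nat.findGreatest (P i) i) := Nat.findGreatest_spec h2 h1
  rw [dif_pos h3]
  exact gh_mono_nat (hr i) hR hε (Nat.le_findGreatest h2 h1) h3.choose_spec.2

theorem exists_mb {U : Ultrafilter ℕ} {y : ℕ → X} {r : ℕ → ℝ} (hs : Seq U y r)
    (ht : ∀ R ε : ℝ, 0 < ε → ∃ m : ℕ, ∀ᶠ i in (U : Filter ℕ), ∃ T : Finset X,
      T.card ≤ m ∧ ball (y i) (R * r i) ⊆ ⋃ t ∈ T, ball t (ε * r i)) :
    ∃ (Z : Type) (_ : MetricSpace Z) (_ : ProperSpace Z) (_ : MeasurableSpace Z)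
      (_ : BorelSpace Z), Nonempty (MB U y r Z) := by
  classical
  have hr := hs.pos
  obtain ⟨T, _, m₀, hm, hd₀⟩ := xq_lim U y hr
  obtain ⟨Z, _, _, M, hM, hd⟩ : ∃ (Z : Type) (_ : MetricSpace Z) (_ : CompleteSpace Z)
      (M : XqS U y r → Z), DenseRange M ∧
      ∀ a b, Tendsto (fun i => dist (a.1 i) (b.1 i) / r i) U (𝓝 (dist (M a) (M b))) :=
    ⟨UniformSpace.Completion T, inferInstance, inferInstance, (↑) ∘ m₀,
      UniformSpace.Completion.denseRange_coe.comp hm.denseRange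
        (UniformSpace.Completion.continuous_coe T),
      fun a b => by simpa only [Function.comp_apply, UniformSpace.Completion.dist_eq] using hd₀ a b⟩
  let w' : XqS U y r := ⟨y, 1, Eventually.of_forall fun i => mem_ball_self (by simpa using hr i)⟩
  have net : ∀ R δ : ℝ, 0 < δ → ∃ (m : ℕ) (t : Fin m → XqS U y r),
      (∀ᶠ i in (U : Filter ℕ), ∀ b ∈ ball (y i) (R * r i), ∃ l, dist b ((t l).1 i) < δ * r i) ∧
      ∀ w ∈ ball (M w') (R - δ), ∃ l, dist w (M (t l)) < 2 * δ := fun R δ hδ => by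
    obtain ⟨m, h1⟩ := ht R δ hδ
    obtain ⟨t, h2⟩ := mb_net hr hδ h1
    refine ⟨m, t, h2, fun w hw => ?_⟩
    obtain ⟨a, ha⟩ := hM.exists_dist_lt w hδ
    have h3 : dist (M a) (M w') < R := by
      linarith [dist_triangle_left (M a) (M w') w, mem_ball.1 hw]
    obtain ⟨l, hl⟩ := Ultrafilter.eventually_exists_iff.1
      ((h2.and ((hd a w').eventually (Iio_mem_nhds h3))).mono fun i hi =>
        hi.1 (a.1 i) ((div_lt_iff₀ (hr i)).1 hi.2))
    have h4 := le_of_tendsto (hd a (t l)) (hl.mono fun i hi => ((div_lt_iff₀ (hr i)).2 hi).le)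
    exact ⟨l, by linarith [dist_triangle w (M a) (M (t l))]⟩
  have : ProperSpace Z := ⟨fun x s => by
    refine TotallyBounded.isCompact_of_isClosed (Metric.totallyBounded_iff.2 fun ε hε => ?_)
      isClosed_closedBall
    obtain ⟨m, t, -, h⟩ := net (dist x (M w') + s + 1 + ε / 2) (ε / 2) (half_pos hε)
    refine ⟨range fun l => M (t l), finite_range _, fun w hw => ?_⟩
    obtain ⟨l, hl⟩ := h w (by
      rw [mem_ball]
      linarith [dist_triangle w x (M w'), mem_closedBall.1 hw])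
    exact mem_iUnion₂.2 ⟨_, ⟨l, rfl⟩, by rwa [mul_div_cancel₀ _ two_ne_zero] at hl⟩⟩
  borelize Z
  obtain ⟨q, h1, h2⟩ := mb_diag (X := X) (w := M w') (y := y) (ultra_le_atTop hr hs.lim) hr
    fun R ε hR hε => by
      obtain ⟨δ, rfl⟩ : ∃ δ, ε = 4 * δ := ⟨ε / 4, by ring⟩
      have hδ : 0 < δ := by linarith
      obtain ⟨m, t, h3, h4⟩ := net R δ hδ
      let F : Option (Fin m) → XqS U y r := fun o => o.elim w' t
      have h5 : ∀ᶠ i in (U : Filter ℕ), ∀ o o',
          |dist ((F o).1 i) ((F o').1 i) / r i - dist (M (F o)) (M (F o'))| < δ :=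
        eventually_all.2 fun o => eventually_all.2 fun o' =>
          (hd (F o) (F o')).eventually (ball_mem_nhds _ hδ)
      filter_upwards [h3, h5] with i h3 h5
      have hi := hr i
      let A : Option (Fin m) → Set X := fun o =>
        o.elim {y i} fun l => ball ((t l).1 i) (δ * r i) \ {y i}
      obtain ⟨φ, k1, k2⟩ := mb_meas (M w') (A := A) (fun o => by
        cases o
        · exact measurableSet_singleton _
        · exact measurableSet_ball.diff (measurableSet_singleton _)) (fun o => M (F o)) Finset.univ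
      have k3 : ∀ b ∈ ball (y i) (R * r i), ∃ o, dist b ((F o).1 i) / r i < δ ∧ φ b = M (F o) := by
        intro b hb
        obtain ⟨o, k4, k5⟩ := k2 b (by
          by_cases e : b = y i
          · exact ⟨none, Finset.mem_univ _, e⟩
          · obtain ⟨l, hl⟩ := h3 b hb
            exact ⟨some l, Finset.mem_univ _, hl, e⟩)
        refine ⟨o, (div_lt_iff₀ hi).2 ?_, k5⟩
        cases o
        · rw [show b = y i from k4]
          exact (dist_self _).trans_lt (mul_pos hδ hi)
        · exact k4.1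
      refine ⟨φ, k1, ?_, fun a ha b hb => ?_, fun w hw => ?_⟩
      · obtain ⟨o, k4, k5⟩ := k2 (y i) ⟨none, Finset.mem_univ _, rfl⟩
        cases o
        · exact k5
        · exact absurd rfl k4.2
      · obtain ⟨o, k4, k5⟩ := k3 a ha
        obtain ⟨o', k6, k7⟩ := k3 b hb
        have k8 := abs_lt.1 (h5 o o')
        have k9 := div_le_div_of_nonneg_right
          (dist_dist_dist_le a b ((F o).1 i) ((F o').1 i)) hi.le
        rw [Real.dist_eq, add_div, ← abs_of_pos hi, ← abs_div, sub_div, abs_of_pos hi] at k9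
        have k10 := abs_le.1 k9
        rw [k5, k7]
        exact abs_le.2 ⟨by linarith [k10.2], by linarith [k10.1]⟩
      · rw [mem_ball] at hw
        obtain ⟨l, hl⟩ := h4 w (by rw [mem_ball]; linarith)
        have k4 : (t l).1 i ∈ ball (y i) (R * r i) := by
          have k5 : dist ((t l).1 i) (y i) / r i - dist (M (t l)) (M w') < δ :=
            (abs_lt.1 (h5 (some l) none)).2
          rw [mem_ball, ← div_lt_iff₀ hi]
          linarith [dist_triangle_left (M (t l)) (M w') w]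
        obtain ⟨o, k5, k6⟩ := k3 _ k4
        have k7 : -δ < dist ((t l).1 i) ((F o).1 i) / r i - dist (M (t l)) (M (F o)) :=
          (abs_lt.1 (h5 (some l) o)).1
        refine ⟨_, k4, ?_⟩
        rw [k6]
        linarith [dist_triangle_left (M (F o)) w (M (t l)), dist_comm w (M (t l))]
  exact ⟨Z, inferInstance, inferInstance, inferInstance, inferInstance, ⟨⟨M w', q, hs, h1, h2⟩⟩⟩

end RC
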