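import Pool.Agent.P.MP_6472e5_gt.GH

/-! Hausdorff measure on the cover, a measurable section. -/

set_option autoImplicit false
set_option linter.unusedSectionVars false

noncomputable section

namespace RC

open MeasureTheory Set Filter Topology Metric

variable {X Y : Type} [MetricSpace X] [MeasurableSpace X] [BorelSpace X] [MetricSpace Y]
  [MeasurableSpace Y] [BorelSpace Y] {Γ : Y → Y} {π : Y → X}

theorem ms_null_iff (k : ℕ) (N : Set X) : (μHE[k] : Measure X) N = 0 ↔ μH[k] N = 0 := by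
  rw [Measure.euclideanHausdorffMeasure_def, Measure.smul_apply, smul_eq_zero,
    or_iff_right (Measure.addHaarScalarFactor_volume_hausdorffMeasure_ne_zero k)]

theorem ms_two (h : IsQuot Γ π) (T : Set X) : ∃ u : Bool → Set Y,
    (∀ b, ediam (u b) ≤ 2 * ediam T) ∧ π ⁻¹' T ⊆ ⋃ b, u b := by
  rcases (π ⁻¹' T).eq_empty_or_nonempty with h0 | ⟨a, ha⟩
  · exact ⟨fun _ => ∅, fun _ => by simp, by simp [h0]⟩
  refine ⟨fun b => closedEBall (cond b a (Γ a)) (ediam T), fun _ => ediam_closedEBall_le,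
    fun c hc => ?_⟩
  have h1 : edist (π c) (π a) ≤ ediam T := edist_le_ediam_of_mem hc ha
  rw [edist_dist, h.dist_eq] at h1
  rcases min_choice (dist c a) (dist c (Γ a)) with h2 | h2 <;> rw [h2, ← edist_dist] at h1
  · exact mem_iUnion.2 ⟨true, h1⟩
  · exact mem_iUnion.2 ⟨false, h1⟩

theorem ms_image (n : ℕ) {A : Set Y} (hA : ∀ b ∈ A, ∀ c ∈ A, dist (π b) (π c) = dist b c) :
    (μHE[n] : Measure X) (π '' A) = (μHE[n] : Measure Y) A := by
  have h1 : Isometry fun a : A => π a := Isometry.of_dist_eq fun b c => hA b b.2 c c.2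
  have h2 := h1.euclideanHausdorffMeasure_image (d := n) univ
  have h3 := (isometry_subtype_coe (s := A)).euclideanHausdorffMeasure_image (d := n) univ
  rw [image_univ, ← image_eq_range] at h2
  rw [image_univ, Subtype.range_coe] at h3
  rw [h2, h3]

theorem ms_ball (h : IsQuot Γ π) (n : ℕ) {a : Y} {r : ℝ} (hr : 4 * r ≤ dist a (Γ a)) {T : Set X}
    (hT : T ⊆ ball (π a) r) :
    (μHE[n] : Measure Y) (π ⁻¹' T ∩ ball a r) = (μHE[n] : Measure X) T := by
  rw [← ms_image n fun b hb c hc => h.dist_loc hr hb.2 hc.2, image_preimage_inter, h.image_ball,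
    inter_eq_left.2 hT]

theorem IsQuot.null_preimage (h : IsQuot Γ π) {d : ℝ} (hd : 0 ≤ d) {N : Set X}
    (hN : μH[d] N = 0) : μH[d] (π ⁻¹' N) = 0 := by
  rcases hd.eq_or_lt with rfl | hd
  · rcases N.eq_empty_or_nonempty with rfl | hne
    · simp
    · have := Measure.one_le_hausdorffMeasure_zero_of_nonempty hne
      simp [hN] at this
  have h1 : ∀ k : ℕ, ∃ t : ℕ → Set X, N ⊆ ⋃ n, t n ∧ (∀ n, ediam (t n) ≤ (k : ENNReal)⁻¹) ∧
      ∑' n, ediam (t n) ^ d ≤ (k : ENNReal)⁻¹ := by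
    intro k
    have hk : (0 : ENNReal) < (k : ENNReal)⁻¹ := ENNReal.inv_pos.2 (ENNReal.natCast_ne_top k)
    rw [Measure.hausdorffMeasure_apply] at hN
    simp only [ENNReal.iSup_eq_zero] at hN
    have h2 := (hN _ hk).trans_lt hk
    simp only [iInf_lt_iff] at h2
    obtain ⟨t, h3, h4, h5⟩ := h2
    refine ⟨t, h3, h4, le_trans (ENNReal.tsum_le_tsum fun n => ?_) h5.le⟩
    rcases (t n).eq_empty_or_nonempty with h6 | h6
    · simp [h6, hd]
    · exact le_iSup (fun _ : (t n).Nonempty => ediam (t n) ^ d) h6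
  choose t h2 h3 h4 using h1
  choose u h5 h6 using ms_two h
  have h7 : ∀ c : ENNReal, c ≠ ⊤ → Tendsto (fun k : ℕ => c * (k : ENNReal)⁻¹) atTop (𝓝 0) :=
    fun c hc => by
      simpa using ENNReal.Tendsto.const_mul ENNReal.tendsto_inv_nat_nhds_zero (Or.inr hc)
  have h8 := Measure.hausdorffMeasure_le_liminf_tsum d (π ⁻¹' N) _ (h7 2 (by simp))
    (fun k (p : Bool × ℕ) => u (t k p.2) p.1)
    (.of_forall fun k p => (h5 _ _).trans (by gcongr; exact h3 k _))
    (.of_forall fun k a ha => by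
      obtain ⟨n, hn⟩ := mem_iUnion.1 (h2 k ha)
      obtain ⟨b, hb⟩ := mem_iUnion.1 (h6 (t k n) hn)
      exact mem_iUnion.2 ⟨(b, n), hb⟩)
  refine nonpos_iff_eq_zero.1 (h8.trans ?_)
  rw [← (h7 (2 * 2 ^ d) (ENNReal.mul_ne_top (by simp)
    (ENNReal.rpow_ne_top_of_nonneg hd.le (by simp)))).liminf_eq]
  refine liminf_le_liminf (.of_forall fun k => ?_)
  have h9 : ∀ b, ∑' n, ediam (u (t k n) b) ^ d ≤ 2 ^ d * (k : ENNReal)⁻¹ := fun b =>
    calc ∑' n, ediam (u (t k n) b) ^ d ≤ ∑' n, 2 ^ d * ediam (t k n) ^ d :=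
          ENNReal.tsum_le_tsum fun n => by
            rw [← ENNReal.mul_rpow_of_nonneg _ _ hd.le]
            exact ENNReal.rpow_le_rpow (h5 _ _) hd.le
      _ ≤ _ := by
          rw [ENNReal.tsum_mul_left]
          gcongr
          exact h4 k
  rw [ENNReal.tsum_prod', tsum_bool, mul_assoc, two_mul]
  exact add_le_add (h9 _) (h9 _)

theorem IsQuot.measurePreserving (h : IsQuot Γ π) (n : ℕ) :
    MeasurePreserving Γ (μHE[n] : Measure Y) μHE[n] :=
  IsometryEquiv.measurePreserving_euclideanHausdorffMeasure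
    (⟨⟨Γ, Γ, h.invol, h.invol⟩, h.iso⟩ : Y ≃ᵢ Y) n

theorem IsQuot.map_haus [SecondCountableTopology Y] (h : IsQuot Γ π) (n : ℕ)
    (h0 : (μHE[n] : Measure Y) {a | Γ a = a} = 0) :
    (μHE[n] : Measure Y).map π = (2 : ENNReal) • (μHE[n] : Measure X) := by
  have hm := h.cont.measurable
  obtain ⟨t, h1, h2, h3⟩ := TopologicalSpace.countable_cover_nhdsWithin
    (f := fun a => ball a (dist a (Γ a) / 4)) (s := {a | Γ a ≠ a}) fun a ha =>
      mem_nhdsWithin_of_mem_nhds (ball_mem_nhds a (div_pos (dist_pos.2 (Ne.symm ha)) four_pos))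
  have h4 : π '' {a | Γ a = a} ∪ ⋃ a ∈ t, ball (π a) (dist a (Γ a) / 4) = univ := by
    refine eq_univ_of_forall fun x => ?_
    obtain ⟨b, rfl⟩ := h.surj x
    by_cases hb : Γ b = b
    · exact Or.inl ⟨b, hb, rfl⟩
    · obtain ⟨a, ha, hab⟩ := mem_iUnion₂.1 (h3 hb)
      exact Or.inr (mem_iUnion₂.2 ⟨a, ha, (h.dist_le _ _).trans_lt hab⟩)
  rw [← Measure.restrict_univ (μ := Measure.map π _), ← Measure.restrict_univ (μ := _ • _), ← h4,
    Measure.restrict_union_congr, Measure.restrict_biUnion_congr h2]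
  refine ⟨?_, fun a ha => ?_⟩
  · have h5 : π ⁻¹' (π '' {a | Γ a = a}) ⊆ {a | Γ a = a} := by
      rintro b ⟨a, ha, hab⟩
      rcases (h.eq_iff b a).1 hab.symm with rfl | rfl
      · exact ha
      · exact congrArg Γ ha
    rw [Measure.restrict_eq_zero.2, Measure.restrict_eq_zero.2]
    · rw [Measure.smul_apply, ms_image n (A := {a | Γ a = a}) fun b _ c hc => h.dist_fix hc b, h0,
        smul_zero]
    · rw [Measure.map_apply hm h.isClosed_image_fix.measurableSet]
      exact measure_mono_null h5 h0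
  · ext S hS
    have h5 : 4 * (dist a (Γ a) / 4) ≤ dist a (Γ a) := by linarith
    have h6 := ms_ball h n h5 (inter_subset_right (s := S))
    have h7 := ms_ball h n (a := Γ a) (r := dist a (Γ a) / 4) (T := S ∩ ball (π a) _)
      (by rwa [h.invol, dist_comm (Γ a)]) (by rw [h.π_Γ]; exact inter_subset_right)
    have h8 : Disjoint (ball a (dist a (Γ a) / 4)) (ball (Γ a) (dist a (Γ a) / 4)) :=
      ball_disjoint_ball (by linarith [dist_nonneg (x := a) (y := Γ a)])
    rw [Measure.restrict_apply hS, Measure.restrict_apply hS,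
      Measure.map_apply hm (hS.inter measurableSet_ball), Measure.smul_apply, smul_eq_mul, two_mul,
      ← inter_eq_left.2 ((preimage_mono inter_subset_right).trans (h.preimage_ball a _).subset),
      inter_union_distrib_left, measure_union (h8.mono inter_subset_right inter_subset_right)
        ((hm (hS.inter measurableSet_ball)).inter measurableSet_ball), h6, h7]

theorem IsQuot.exists_sec [ProperSpace X] [ProperSpace Y] (h : IsQuot Γ π) :
    ∃ s : X → Y, Measurable s ∧ ∀ x, π (s x) = x := by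
  obtain ⟨e, he⟩ := exists_measurableEmbedding_real Y
  have hD : MeasurableSet {a | e a ≤ e (Γ a)} :=
    measurableSet_le he.measurable (he.measurable.comp h.iso.continuous.measurable)
  have h1 : InjOn π {a | e a ≤ e (Γ a)} := by
    intro a ha b hb hab
    rcases (h.eq_iff a b).1 hab with rfl | rfl
    · rfl
    · refine he.injective (le_antisymm ?_ hb)
      simpa only [mem_ofPred_eq, h.invol] using ha
  have h2 : ∀ x, ∃ a ∈ {a | e a ≤ e (Γ a)}, π a = x := by
    intro x
    obtain ⟨a, rfl⟩ := h.surj x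
    rcases le_total (e a) (e (Γ a)) with h3 | h3
    · exact ⟨a, h3, rfl⟩
    · exact ⟨Γ a, by simpa only [mem_ofPred_eq, h.invol] using h3, h.π_Γ a⟩
  choose s h3 h4 using h2
  refine ⟨s, fun T hT => ?_, h4⟩
  have h5 : s ⁻¹' T = π '' (T ∩ {a | e a ≤ e (Γ a)}) := by
    ext x
    refine ⟨fun hx => ⟨s x, ⟨hx, h3 x⟩, h4 x⟩, ?_⟩
    rintro ⟨a, ha, rfl⟩
    rw [mem_preimage, h1 (h3 _) ha.2 (h4 _)]
    exact ha.1
  rw [h5]
  exact (hT.inter hD).image_of_continuousOn_injOn h.cont.continuousOn (h1.mono inter_subset_right)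

theorem haus_null_succ {k : ℕ} {N : Set X} (hN : μH[(k : ℝ) + 1] N = 0) :
    (μHE[k + 2] : Measure X) N = 0 := by
  rw [ms_null_iff]
  refine nonpos_iff_eq_zero.1 ((Measure.hausdorffMeasure_mono ?_ N).trans hN.le)
  push_cast
  linarith

theorem haus_null_iff (k : ℕ) (N : Set X) : (μHE[k] : Measure X) N = 0 ↔ μH[k] N = 0 :=
  ms_null_iff k N

end RC
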