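import Pool.Agent.P.MP_6472e5_gt.CovD
import Pool.Agent.P.MP_6472e5_gt.Ls
import Pool.Agent.P.MP_6472e5_gt.GH

/-! The Sobolev-to-Lipschitz property on the cover. -/

set_option autoImplicit false
set_option linter.unusedSectionVars false

noncomputable section

namespace RC

open MeasureTheory Set Filter Topology Metric

variable {X Y : Type} [MetricSpace X] [ProperSpace X] [MeasurableSpace X] [BorelSpace X]
  [MetricSpace Y] [ProperSpace Y] [MeasurableSpace Y] [BorelSpace Y] {μ : Measure X}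
  {μ' : Measure Y} {D : DS μ} {D' : DS μ'} {Γ : Y → Y} {π : Y → X} {κ : ℝ} {n m : ℕ}

theorem PreCov.s2l_pre (c : PreCov D D' Γ π) (x : X) (r : ℝ) :
    μ' (π ⁻¹' ball x r) = 2 * μ (ball x r) := by
  rw [← Measure.map_apply c.quot.cont.measurable measurableSet_ball, c.map, Measure.smul_apply,
    smul_eq_mul]

theorem PreCov.s2l_up (c : PreCov D D' Γ π) {P : X → Prop} (h : ∀ᵐ x ∂μ, P x) :
    ∀ᵐ y ∂μ', P (π y) :=
  ae_of_ae_map c.quot.cont.measurable.aemeasurable (c.map ▸ Measure.ae_smul_measure h _)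

theorem PreCov.s2l_down (c : PreCov D D' Γ π) {P : X → Prop} (hP : MeasurableSet {x | P x})
    (h : ∀ᵐ y ∂μ', P (π y)) : ∀ᵐ x ∂μ, P x := by
  rwa [← ae_map_iff c.quot.cont.measurable.aemeasurable hP, c.map,
    Measure.ae_ennreal_smul_measure_iff two_ne_zero] at h

theorem PreCov.s2l_loc (c : PreCov D D' Γ π) (h : RS D κ n) {f : Y → ℝ} (hf : f ∈ D'.V)
    (hG : ∀ᵐ x ∂μ', D'.G f f x ≤ 1) {a : Y} (ha : Γ a ≠ a) :
    ∃ r, 0 < r ∧ ∃ g, LipschitzWith 1 g ∧ ∀ᵐ y ∂μ', y ∈ ball a r → f y = g y := by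
  obtain ⟨r, hr, hd⟩ : ∃ r, 0 < r ∧ dist a (Γ a) = 4 * r :=
    ⟨dist a (Γ a) / 4, div_pos (dist_pos.2 ha.symm) four_pos, by ring⟩
  obtain ⟨χ, hχ, -, h1, h2, -⟩ := exists_cutoff_ball a (show r < 2 * r by linarith)
  have m1 := D'.mul_mem_lipB hχ hf
  have m2 := D'.add _ m1 _ (c.refl _ m1).1
  obtain ⟨g, hg, e⟩ := c.desc _ m2 (.of_forall fun y => by
    simp only [Function.comp_apply, Pi.add_apply, c.quot.invol, add_comm])
  have e1 : ∀ᵐ y ∂μ', y ∈ ball a r → g (π y) = f y := e.mono fun y hy hb => by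
    have h3 : Γ y ∉ ball a (2 * r) := by
      rw [mem_ball, c.quot.dist_Γ, not_lt]
      linarith [dist_triangle_left a (Γ a) y, mem_ball.1 hb]
    simpa [h1 y (ball_subset_closedBall hb), h2 _ h3] using hy.symm
  obtain ⟨l1, l2⟩ := c.lift g hg
  have wg := D.W_of_mem hg
  have am := (DS.G_aesm wg wg).aemeasurable
  have e2 : ∀ᵐ y ∂μ', y ∈ ball a r → am.mk _ (π y) ≤ 1 := by
    filter_upwards [e1, l2, hG, c.s2l_up am.ae_eq_mk, DS.G_loc (D'.W_of_mem l1) (D'.W_of_mem hf)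
      (D'.W_of_mem l1) (D'.W_of_mem hf)] with y a1 a2 a3 a4 a5 hy
    rw [← a4, ← Function.comp_apply (f := D.G g g), ← a2, a5 (a1 hy) (a1 hy)]
    exact a3
  have e3 : ∀ᵐ x ∂μ, x ∈ ball (π a) r → am.mk _ x ≤ 1 := by
    refine c.s2l_down (measurableSet_ball.imp
      (measurableSet_le am.measurable_mk measurable_const)) ?_
    filter_upwards [e2, c.inv.quasiMeasurePreserving.ae e2] with y a1 a2 hy
    rcases (c.quot.preimage_ball a r).le hy with hb | hb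
    · exact a1 hb
    · rw [c.quot.π_Γ] at a2
      refine a2 ?_
      rwa [mem_ball, c.quot.dist_Γ]
  obtain ⟨S, hS, hS'⟩ := DS.ls_core h.s2l wg (π a) r zero_le_one (by
    filter_upwards [e3, am.ae_eq_mk] with x a1 a2 hx
    rw [a2, one_pow]
    exact a1 hx)
  have hb : ball a (r / 2) ⊆ ball a r := ball_subset_ball (half_le_self hr.le)
  have h3 : LipschitzOnWith 1 f ({y | π y ∈ S ∧ (y ∈ ball a r → g (π y) = f y)} ∩
      ball a (r / 2)) := LipschitzOnWith.of_dist_le_mul fun y hy z hz => by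
    rw [← hy.1.2 (hb hy.2), ← hz.1.2 (hb hz.2), Real.dist_eq]
    exact (hS' _ hy.1.1 _ hz.1.1 ((c.quot.dist_le _ _).trans_lt hy.2)
      ((c.quot.dist_le _ _).trans_lt hz.2)).trans
      (mul_le_mul_of_nonneg_left (c.quot.dist_le _ _) zero_le_one)
  obtain ⟨u, hu, hu'⟩ := h3.extend_real
  refine ⟨r / 2, half_pos hr, u, hu, ?_⟩
  filter_upwards [c.s2l_up hS, e1] with y a1 a2 hy
  exact hu' ⟨⟨a1, a2⟩, hy⟩

theorem PreCov.pos (c : PreCov D D' Γ π) (hp : ∀ x r, 0 < r → 0 < μ (ball x r)) (y : Y) {r : ℝ}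
    (hr : 0 < r) : 0 < μ' (ball y r) := by
  refine pos_iff_ne_zero.2 fun h => ?_
  have h1 : μ' (ball (Γ y) r) = 0 := by
    rw [← c.inv.measure_preimage measurableSet_ball.nullMeasurableSet, c.quot.iso.preimage_ball, h]
  have h2 := c.s2l_pre (π y) r
  rw [c.quot.preimage_ball, measure_union_null h h1] at h2
  exact mul_ne_zero two_ne_zero (hp _ r hr).ne' h2.symm

theorem PreCov.growth (c : PreCov D D' Γ π)
    (hg : ∀ x, ∃ a b : ℝ, ∀ r, μ (ball x r) ≤ ENNReal.ofReal (a * Real.exp (b * r ^ 2))) (y : Y) :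
    ∃ a b : ℝ, ∀ r, μ' (ball y r) ≤ ENNReal.ofReal (a * Real.exp (b * r ^ 2)) := by
  obtain ⟨a, b, h⟩ := hg (π y)
  refine ⟨2 * a, b, fun r => ?_⟩
  rw [mul_assoc, ENNReal.ofReal_mul zero_le_two, ENNReal.ofReal_ofNat]
  refine le_trans (measure_mono ?_) ((c.s2l_pre (π y) r).trans_le (mul_le_mul_right (h r) _))
  rw [c.quot.preimage_ball]
  exact subset_union_left

theorem PreCov.s2l (c : PreCov D D' Γ π) (h : RS D κ n) {A : Set X} (t : Top m Γ π A)
    (h0 : μ Aᶜ = 0) {f : Y → ℝ} (hf : f ∈ D'.V) (hG : ∀ᵐ x ∂μ', D'.G f f x ≤ 1) :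
    ∃ g, LipschitzWith 1 g ∧ f =ᵐ[μ'] g := by
  have hl : ∀ a ∈ π ⁻¹' A, ∃ r, 0 < r ∧ ball a r ⊆ π ⁻¹' A ∧ ∃ g, LipschitzWith 1 g ∧
      ∀ᵐ y ∂μ', y ∈ ball a r → f y = g y := fun a ha => by
    obtain ⟨r, hr, g, hg, e⟩ := c.s2l_loc h hf hG (t.free a ha)
    obtain ⟨r', hr', hb⟩ := Metric.isOpen_iff.1 t.mfd'.1 a ha
    exact ⟨min r r', lt_min hr hr', (ball_subset_ball (min_le_right _ _)).trans hb, g, hg,
      e.mono fun y hy hy' => hy (ball_subset_ball (min_le_left _ _) hy')⟩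
  choose! r hr hb g hg e using hl
  have h1 : ∀ a ∈ π ⁻¹' A, ∀ b ∈ ball a (r a), g b b = g a b := fun a ha b hb' => by
    have hb'' := hb a ha hb'
    refine eq_of_ae_eq (fun x r hr => c.pos h.pos x hr) (isOpen_ball.inter isOpen_ball)
      (hg b hb'').continuous.continuousOn (hg a ha).continuous.continuousOn ?_ b
      ⟨hb', mem_ball_self (hr b hb'')⟩
    filter_upwards [e a ha, e b hb''] with y a1 a2 hy
    rw [← a1 hy.1, ← a2 hy.2]
  have h2 := t.len.lip (f := fun b => g b b) zero_le_one fun a ha => ⟨r a, hr a ha,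
    fun b hb c hc => by
      rw [h1 a ha b hb, h1 a ha c hc]
      exact (hg a ha).dist_le_mul b c⟩
  obtain ⟨u, hu, hu'⟩ := (LipschitzOnWith.of_dist_le_mul (K := 1) (f := fun b => g b b)
    fun a ha b hb => h2 a ha b hb).extend_real
  refine ⟨u, hu, ?_⟩
  filter_upwards [c.s2l_up (P := fun x => x ∈ A) h0, D'.ae_of_local (P := fun y => f y = g y y)
    (U := π ⁻¹' A) fun a ha => ⟨r a, hr a ha, (e a ha).mono fun y hy hy' => by
      rw [hy hy', h1 a ha y hy']⟩] with y a1 a2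
  exact (a2 a1).trans (hu' a1)

theorem Top.path {A : Set X} (t : Top m Γ π A) {y : Y} (hy : Γ y = y) {ρ : ℝ} (hρ : 0 < ρ) :
    ∃ a, JoinedIn (ball y ρ ∩ {b | Γ b ≠ b}) a (Γ a) := by
  obtain ⟨a, ha, hd⟩ := t.dense.exists_dist_lt y (show 0 < ρ / 4 by positivity)
  have h1 : dist y (Γ a) = dist y a := by rw [← t.quot.dist_Γ, hy]
  refine ⟨a, (t.len.joinedIn ha (show π (Γ a) ∈ A by rwa [t.quot.π_Γ]) (r := ρ / 2)
    (by linarith [dist_triangle_left a (Γ a) y])).mono fun b hb => ⟨?_, t.free b hb.1⟩⟩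
  rw [mem_ball]
  linarith [dist_triangle b a y, mem_ball.1 hb.2, dist_comm a y]

theorem IsRamCover.top (h : IsRamCover m Γ π) :
    ∃ A, Top m Γ π A ∧ RegularSet X (m + 2) ⊆ A := by
  obtain ⟨B, A, ⟨a1, a2, a3, a4⟩, ⟨b1, b2, b3, rfl⟩, -, -, h1⟩ := h.mfd
  refine ⟨A, ⟨h.quot, a1, a2, a3, a4, b1, b2, fun a ha e => ?_⟩, b3⟩
  have h2 : π ⁻¹' {π a} = {a} := by
    ext b
    rw [mem_preimage, mem_singleton_iff, h.quot.eq_iff, e, or_self, mem_singleton_iff]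
  have h3 := h1 _ ha
  rw [h2, encard_singleton] at h3
  exact absurd h3 (by decide)

theorem dense_of_null (hp : ∀ x r, 0 < r → 0 < μ (ball x r)) {A : Set X} (h0 : μ Aᶜ = 0) :
    Dense A :=
  Metric.dense_iff.2 fun x r hr => by
    by_contra h
    exact (hp x r hr).ne' (measure_mono_null (fun y hy hA => h ⟨y, hy, hA⟩) h0)

end RC
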