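import Pool.Agent.P.MP_6472e5_gt.Ca5
import Pool.Agent.P.MP_6472e5_gt.DeV
import Pool.Agent.P.MP_6472e5_gt.Ls
import Pool.Agent.P.MP_6472e5_gt.BeE
import Pool.Agent.P.MP_6472e5_gt.BeI

/-! Export of block B1. -/

set_option autoImplicit false
set_option linter.unusedSectionVars false

noncomputable section

namespace RC

open MeasureTheory Set Filter Topology Metric

variable {X : Type} [MetricSpace X] [SecondCountableTopology X] [MeasurableSpace X] [BorelSpace X]
  {μ : Measure X}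

theorem RS.r1 {D : DS μ} {κ : ℝ} {n : ℕ} (h : RS D κ n) : R1 D κ n where
  toRS := h
  ge _ hf _ _ m b h0 ht := h.be_ge hf m b h0 ht
  rp _ _ _ hf m b h0 ht := h.be_rp hf m b h0 ht
  lp _ hf _ _ m b h0 ht := h.be_lp hf m b h0 ht
  cons _ t m i := h.be_cons m i t
  tb _ _ m b ht := h.be_tb m b ht
  G_le _ _ _ m b ht := h.be_G_le m b ht
  L_le _ _ _ m b ht := h.be_L_le m b ht
  G_le' _ hf _ _ b ht := h.be_G_le' hf b ht
  derW _ _ m b ht := h.be_derW m b ht
  sav _ _ hf := h.be_sav hf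
  be1 _ _ hf _ m b h0 := h.be_be1 hf m b h0
  imp _ _ hf _ m b h0 _ hε := h.be_imp hf m b h0 hε

end RC
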