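import Pool.Agent.P.MP_6472e5_gt.LyA
import Pool.Agent.P.MP_6472e5_gt.LyC
import Pool.Agent.P.MP_6472e5_gt.LyU
import Pool.Agent.P.MP_6472e5_gt.LyK1
import Pool.Agent.P.MP_6472e5_gt.LyK2
import Pool.Agent.P.MP_6472e5_gt.LyK5

/-! Export of block B2. -/

set_option autoImplicit false
set_option linter.unusedSectionVars false

noncomputable section

namespace RC

open MeasureTheory Set Filter Topology Metric

variable {X : Type} [MetricSpace X] [SecondCountableTopology X] [MeasurableSpace X] [BorelSpace X]
  {μ : Measure X}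

theorem R1.r2 {D : DS μ} {κ : ℝ} {n : ℕ} (h : R1 D κ n) : R2 D κ n := by
  have hly := h.ly_main
  have hh := h.ly_hu hly
  have hu := h.ly_uc hh
  obtain ⟨k, hk⟩ := h.ly_kr hu
  have q := h.toRS.ly_kq hk
  exact { h with
    ker := q.ker
    p_pos := fun t x y ht => q.p_pos h hu hh ht x y
    p_symm := q.symm
    p_int := fun t x ht => q.p_int h ht x
    p_one := fun t x ht => q.p_one h ht x
    p_bdd := fun t x ht => q.p_bdd h hu ht x
    ck := q.ck
    der := fun t x y ht => q.der h ht x y
    dp_cont := q.dp_cont h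
    dp_symm := fun t x y ht => q.dp_symm h ht x y
    dp_int := fun t x ht => q.dp_int h ht x
    dck := fun s t x y hs ht => q.dck h hs ht x y
    p_tb := fun t x ht => q.p_tb h hu ht x
    P_p := q.P_p
    L_p := fun s t x hs ht => q.L_p h hs ht x
    L_rep := fun f t hf ht => q.L_rep h hf ht
    P_l1 := fun φ g t hφ bφ hg ht => q.P_l1 h hφ bφ hg ht
    ly := fun t x ht => q.ly h hu hly ht x
    harn := fun s t z x y hs hst => q.harn h hu hh hs hst z x y
    ls2l := fun f hf x R L hG => DS.ls2l h.pos h.geo h.s2l hf x R L hG }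

end RC
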