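import Pool.Agent.P.MP_6472e5_gt.Kern
import Pool.Agent.P.MP_6472e5_gt.TbA
import Pool.Agent.P.MP_6472e5_gt.DeV
import Pool.Agent.P.MP_6472e5_gt.Ls
import Pool.Agent.P.MP_6472e5_gt.GaC
import Pool.Agent.P.MP_6472e5_gt.GaP
import Pool.Agent.P.MP_6472e5_gt.GaT
import Pool.Agent.P.MP_6472e5_gt.GaZ

/-! Export of block B3. -/

set_option autoImplicit false
set_option linter.unusedSectionVars false

noncomputable section

namespace RC

open MeasureTheory Set Filter Topology Metric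

variable {X : Type} [MetricSpace X] [SecondCountableTopology X] [MeasurableSpace X] [BorelSpace X]
  {μ : Measure X}

theorem R2.hp {D : DS μ} {κ : ℝ} {n : ℕ} (h : R2 D κ n) : HP D κ n where
  toR2 := h
  vol := h.ga_vol
  dbl := h.ga_dbl
  gauss := h.ga_gauss
  conc := h.ga_conc
  plip := h.ga_plip
  dp_le := h.ga_dp_le
  pk_bdd := h.ga_pk_bdd
  pk_lip := h.ga_pk_lip
  ge_pt := h.ga_ge_pt
  rp_pt := h.ga_rp_pt
  pk_l1 _ _ hg ht := h.ga_pk_l1 hg ht
  pk_l1_zero := h.ga_l1_zero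
  cut := h.ga_cut
  Θ_mono := h.ga_Θ_mono
  Θ_lim := h.ga_Θ_lim
  Θ0_le := h.ga_Θ0_le
  Θ0_usc := h.ga_Θ0_usc
  lower := h.ga_lower

theorem HP.proper [CompleteSpace X] {D : DS μ} {κ : ℝ} {n : ℕ} (h : HP D κ n) : ProperSpace X :=
  h.vol.elim fun _ hC => h.toR2.ga_proper hC.1 fun x r hr hκ => (hC.2 x r hr hκ).1

end RC
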