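import Pool.Agent.P.MP_6472e5_gt.CovD
import Pool.Agent.P.MP_6472e5_gt.Ca5
import Pool.Agent.P.MP_6472e5_gt.GH
import Pool.Agent.P.MP_6472e5_gt.ChC

/-! Export of block C: the Cheeger energy. -/

set_option autoImplicit false
set_option linter.unusedSectionVars false

noncomputable section

namespace RC

open MeasureTheory Set Filter Topology Metric

variable {X : Type} [MetricSpace X] [SecondCountableTopology X] [MeasurableSpace X] [BorelSpace X]
  {μ : Measure X}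

variable {Y : Type} [MetricSpace Y] [SecondCountableTopology Y] [MeasurableSpace Y] [BorelSpace Y]
  {μ' : Measure Y}

/-- The Cheeger energy of an infinitesimally Hilbertian space. -/
theorem exists_ds (hfin : ∀ x r, μ (ball x r) < ⊤)
    (hp : ∀ f g, W12 μ f → W12 μ g →
      ∫ x, grad μ (f + g) x ^ 2 ∂μ + ∫ x, grad μ (f - g) x ^ 2 ∂μ =
        2 * ∫ x, grad μ f x ^ 2 ∂μ + 2 * ∫ x, grad μ g x ^ 2 ∂μ) : ∃ D : DS μ, IsCh D :=
  ⟨_, (DS.triv hfin).isCh hp⟩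

theorem IsCh.rs {D : DS μ} (hD : IsCh D) (hF : D.Flow) {κ : ℝ} {n : ℕ} (hκ : 0 ≤ κ) (hn : 0 < n)
    (hg : IsGeodesic X) (h : IsRCD (-κ) n μ) : RS D κ n := by
  refine ⟨hκ, hn, h.support, hg, hF, fun f hf h1 => h.sobLip f ((hD.mem f).1 hf) ?_,
    fun f hf Lf hL φ hφ Lφ h1 h2 h3 h4 h5 h6 => ?_⟩
  · filter_upwards [hD.grad f hf, h1] with x h1 h2
    exact (pow_le_one_iff_of_nonneg h1.1 two_ne_zero).1 (h1.2.trans_le h2)
  · have k : ∀ {f g}, f ∈ D.V → MemLp g 2 μ → D.Lap f g → IsLap μ f g := fun hf hg h =>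
      ⟨(hD.mem _).1 hf, hg, fun φ hφ => (integral_congr_ae (hD.ip _ hf φ ((hD.mem φ).2 hφ))).trans
        (h.test hf hg ((hD.mem φ).2 hφ))⟩
    refine le_trans (le_of_eq (integral_congr_ae ?_)) ((h.bochner f Lf φ Lφ
      (k hf (D.memLp _ hL) h1) ((hD.mem _).1 hL) (k hφ h3 h2) h4 ((bdd_iff_memLp (D.aesm hφ)).1 h5)
      ((bdd_iff_memLp h3.1).1 h6)).trans_eq (congrArg _ (integral_congr_ae ?_)))
    · filter_upwards [hD.grad f hf, hD.ip f hf Lf hL] with x h1 h2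
      rw [h1.2, h2]
      ring
    · filter_upwards [hD.grad f hf] with x h1
      rw [h1.2]

theorem IsCh.isRCD {D : DS μ} (hD : IsCh D) {κ : ℝ} {n : ℕ} (h : RS D κ n)
    (hg : ∀ x, ∃ a b : ℝ, ∀ r, μ (ball x r) ≤ ENNReal.ofReal (a * Real.exp (b * r ^ 2))) :
    IsRCD (-κ) n μ := by
  refine ⟨h.pos, hg, fun f g hf hg => D.par_of_pt hf hg (hD.par_pt hf hg),
    fun f hf h1 => h.s2l f ((hD.mem f).2 hf) ?_, fun f Lf φ Lφ h1 h2 h3 h4 h5 h6 => ?_⟩
  · filter_upwards [hD.grad f ((hD.mem f).2 hf), h1] with x h1 h2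
    exact h1.2.symm.trans_le (pow_le_one₀ h1.1 h2)
  · have k : ∀ {f g}, IsLap μ f g → D.Lap f g := fun h =>
      DS.lap_of_test ((hD.mem _).2 h.1) h.2.1 fun φ hφ =>
        (integral_congr_ae (hD.ip _ ((hD.mem _).2 h.1) φ hφ)).symm.trans
          (h.2.2 φ ((hD.mem φ).1 hφ))
    have hf := (hD.mem f).2 h1.1
    have hL := (hD.mem Lf).2 h2
    refine le_trans (le_of_eq (integral_congr_ae ?_)) ((h.be f hf Lf hL φ ((hD.mem φ).2 h3.1) Lφ
      (k h1) (k h3) h3.2.1 h4 ((bdd_iff_memLp h5.1).2 h5)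
      ((bdd_iff_memLp h6.1).2 h6)).trans_eq (congrArg _ (integral_congr_ae ?_)))
    · filter_upwards [hD.grad f hf, hD.ip f hf Lf hL] with x h1 h2
      rw [h1.2, h2]
      ring
    · filter_upwards [hD.grad f hf] with x h1
      rw [h1.2]

/-- The Cheeger energy of the cover. -/
theorem IsCh.cover {D : DS μ} (hD : IsCh D) {Γ : Y → Y} {π : Y → X} (hq : IsQuot Γ π)
    (hm : μ'.map π = (2 : ENNReal) • μ) (hi : MeasurePreserving Γ μ' μ')
    (h0 : μ' {a | Γ a = a} = 0) : ∃ D' : DS μ', IsCh D' ∧ PreCov D D' Γ π := by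
  have hm' : MeasurePreserving π μ' ((2 : ENNReal) • μ) := ⟨hq.cont.measurable, hm⟩
  have hi' : MeasurePreserving Γ μ' ((1 : ENNReal) • μ') := by rwa [one_smul]
  have E : DS μ' := DS.triv fun a r => by
    refine (measure_mono (s := ball a r) (t := π ⁻¹' ball (π a) r)
      fun b hb => (hq.dist_le b a).trans_lt hb).trans_lt ?_
    rw [hm'.measure_preimage measurableSet_ball.nullMeasurableSet]
    exact ENNReal.mul_lt_top ENNReal.ofNat_lt_top (D.fin _ _)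
  have hp := ch_par hq D E hm' hi' hD h0
  have hE := E.isCh hp
  refine ⟨_, hE, hq, hm, hi, h0, fun f hf => ?_, fun h hh => ?_, fun h hh hs => ?_⟩
  · obtain ⟨k1, k2⟩ := ch_lift hq D E hm' hi' ((hD.mem f).1 hf)
    refine ⟨k1, ?_⟩
    filter_upwards [k2, hE.grad _ k1, ch_ae hm' (hD.grad f hf)] with a h1 h2 h3
    rw [← h2.2, h1]
    exact h3.2
  · obtain ⟨k1, k2⟩ := ch_refl hq E hi' hh
    refine ⟨k1, ?_⟩
    filter_upwards [k2, hE.grad _ k1, ch_ae hi' (hE.grad h hh)] with a h1 h2 h3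
    rw [← h2.2, h1]
    exact h3.2
  · obtain ⟨f, k1, k2⟩ := ch_desc hq D E hm' hi' hh hs
    exact ⟨f, (hD.mem f).2 k1, k2⟩

end RC
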