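import Pool.Agent.P.MP_6472e5_gt.CovD
import Pool.Agent.P.MP_6472e5_gt.HpB
import Pool.Agent.P.MP_6472e5_gt.TbA
import Pool.Agent.P.MP_6472e5_gt.DeV
import Pool.Agent.P.MP_6472e5_gt.Ls
import Pool.Agent.P.MP_6472e5_gt.GH
import Pool.Agent.P.MP_6472e5_gt.LoA
import Pool.Agent.P.MP_6472e5_gt.LoC
import Pool.Agent.P.MP_6472e5_gt.LoD
import Pool.Agent.P.MP_6472e5_gt.LoF

/-! Export of block F: local analysis. -/

set_option autoImplicit false
set_option linter.unusedSectionVars false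

noncomputable section

namespace RC

open MeasureTheory Set Filter Topology Metric

variable {X : Type} [MetricSpace X] [ProperSpace X] [MeasurableSpace X] [BorelSpace X]
  {μ : Measure X} {D : DS μ} {κ : ℝ} {n : ℕ}

theorem HP.ft (h : HP D κ n) (h0 : N0 D n) : FT D κ n where
  locbe := fun _ hf _ hw _ _ _ _ hl h2 _ he hφ => h.toRS.locbe hf hw hl h2 he hφ
  lockato := fun _ hf _ hw _ _ _ _ _ bf hl h2 hU he hφ hε =>
    h.lockato hf hw bf hl h2 hU he hφ hε
  int := h.int h0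
  sup := h.sup h0
  majx := fun x₀ R ε hε => by
    obtain ⟨r₀, hr, k⟩ := h.majx h0 x₀ R
    obtain ⟨β, hβ, k⟩ := k ε hε
    exact ⟨β, r₀, hβ, hr, k⟩

/-- Closed sets of codimension more than one do not disconnect. -/
theorem FT.cn {m : ℕ} (f : FT D κ (m + 2)) (h : HP D κ (m + 2)) (h0 : N0 D (m + 2)) {A : Set X}
    (hA : IsOpen A) (hN : μH[(m : ℝ) + 1] Aᶜ = 0) {V : Set X} (hV : IsOpen V)
    (hc : IsPreconnected V) : IsPreconnected (V ∩ A) := h.cn h0 hA hN hV hc

end RC
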