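import Pool.Agent.P.MP_6472e5_gt.Sc
import Pool.Agent.P.MP_6472e5_gt.TbA
import Pool.Agent.P.MP_6472e5_gt.DeV
import Pool.Agent.P.MP_6472e5_gt.GH
import Pool.Agent.P.MP_6472e5_gt.CoD
import Pool.Agent.P.MP_6472e5_gt.CoH
import Pool.Agent.P.MP_6472e5_gt.CoI2
import Pool.Agent.P.MP_6472e5_gt.CoK
import Pool.Agent.P.MP_6472e5_gt.CoL1
import Pool.Agent.P.MP_6472e5_gt.CoL2
import Pool.Agent.P.MP_6472e5_gt.CoM

/-! Export of block K: cones. -/

set_option autoImplicit false
set_option linter.unusedSectionVars false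

noncomputable section

namespace RC

open MeasureTheory Set Filter Topology Metric

variable {X : Type} [MetricSpace X] [ProperSpace X] [MeasurableSpace X] [BorelSpace X]
  {μ : Measure X} {D : DS μ} {κ : ℝ} {n : ℕ}

theorem Co.cone0 (h : PreModel D n) : Co.Cone0 D n := by
  have key : ∀ e, D.Ctr n e → Co.Gau D n e ∧ Co.Ray D n e := fun e he =>
    ⟨(Co.pot2 h he).1, Co.ray h (Co.pot2 h he).2 (Co.pot2 h he).1 (Co.idI h (Co.pot2 h he).2)⟩
  exact ⟨fun e he => (key e he).1, fun e he => (Co.hom_all h (key e he).2 (key e he).1).1,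
    fun e he => (Co.hom_all h (key e he).2 (key e he).1).2.1,
    fun e he => (Co.hom_all h (key e he).2 (key e he).1).2.2⟩

theorem hasCone (n : ℕ) : HasCone n := by
  refine ⟨fun D h => ?_⟩
  have c := Co.cone0 h
  refine ⟨c.gauss, fun e he y r hr => Co.top h he y hr, fun e he l y hl => (c.law e he).spec hl y,
    fun e he l y w hl h1 h2 => (c.law e he).uniq hl ⟨h1, h2⟩,
    fun e he l y y' hl => (c.law e he).hdist hl y y',
    fun e he l l' y hl hl' => (c.law e he).hom_hom hl hl' y, Co.law_cont c.law, c.hom_map, c.hom_Θ,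
    fun e he => ?_, fun e k A ha => Co.euc h c A ha⟩
  obtain ⟨k, hk, ι, a, b, h1, h2, h3, h4, h5⟩ := Co.exists_axis (C := {e | D.Ctr n e}) c.law
    (fun _ h1 _ h2 _ hl => c.ctr_hom h1 h2 hl) he (Co.dim_le h)
  exact ⟨k, hk, Co.exists_ax c h1 h2 h3 h4 h5⟩

end RC
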