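import Pool.Agent.P.MP_6472e5_gt.CovD
import Pool.Agent.P.MP_6472e5_gt.BlA
import Pool.Agent.P.MP_6472e5_gt.LiB

/-! Export of block L. -/

set_option autoImplicit false
set_option linter.unusedSectionVars false

noncomputable section

namespace RC

open MeasureTheory Set Filter Topology Metric

variable {X : Type} [MetricSpace X] [ProperSpace X] [MeasurableSpace X] [BorelSpace X]
  {μ : Measure X} {D : DS μ} {κ : ℝ} {n : ℕ}

theorem li_sec {Y Z T ι : Type} [MetricSpace Y] [MetricSpace Z] [MetricSpace T] {Γ : Y → Y}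
    {π : Y → X} (hq : IsQuot Γ π) {Γ' : T → T} {π' : T → Z} (hq' : IsQuot Γ' π') {ε : ℝ}
    {σ : (X → Euc n) → X → ℝ → Y → ℝ} (hσ : Sgn n Γ π ε σ) {w : Y} {o : T} {r s R : ℝ}
    (hr : 0 < r) (hs : 0 < s) (hs1 : s ≤ 1 / 10) (hw : Γ w = w) {q : Y → T} {Q : X → Z}
    (H1 : GHApprox w r o (R + 1) (s / 100) q)
    (H2 : ∀ a ∈ ball w ((R + 1) * r), dist (π' (q a)) (Q (π a)) ≤ s / 100 ∧
      dist (Γ' (q a)) (q (Γ a)) ≤ s / 100)
    (H3 : ∀ a ∈ ball (π w) ((R + 1) * r), ∀ b ∈ ball (π w) ((R + 1) * r),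
      |dist (Q a) (Q b) - dist a b / r| ≤ s / 100)
    {S : Set Z} (hS : ∀ t, π' t ∈ S → dist t o < R) {p : ι → Z} {N : Set ι}
    (hN : ∀ z ∈ S, ∃ v ∈ N, dist z (p v) < s / 20) {a : ι → X} {φ : ι → X → Euc n}
    (ha : ∀ v ∈ N, a v ∈ ball (π w) ((R + 1) * r) ∧ dist (Q (a v)) (p v) ≤ s / 100 ∧
      Reif n (a v) (10 * (s * r)) ε ∧ GHApprox (a v) (s * r) 0 100 ε (φ v))
    (hc : ∀ v ∈ N, ∀ v' ∈ N, dist (p v) (p v') ≤ s / 4 → ∃ c, ∀ z ∈ ball (a v) (10 * (s * r)),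
      dist (φ v' z) (φ v z + c) ≤ 1 / 100) : Sec Γ' π' S := by
  have hsr := mul_pos hs hr
  have e1 : ∀ t : π' ⁻¹' S, ∃ v ∈ N, dist (π' t) (p v) < s / 20 := fun t => hN _ t.2
  have e2 : ∀ t : π' ⁻¹' S, ∃ b ∈ ball w ((R + 1) * r), dist (q b) t ≤ s / 100 := fun t =>
    H1.2.2 t (mem_ball.2 (by linarith [hS t t.2]))
  choose u uN ud using e1
  choose b bm bd using e2
  have hm : ∀ t, ∀ v ∈ N, dist (π' t) (p v) ≤ s / 10 → ∀ c ∈ ball w ((R + 1) * r),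
      dist (q c) t ≤ s / 50 → π c ∈ ball (a v) (s * r) := fun t v hv h1 c h2 h3 => by
    have a1 := (abs_le.1 (H3 (π c) (mem_ball.2 ((hq.dist_le _ _).trans_lt h2)) _ (ha v hv).1)).1
    have a2 := dist_triangle4 (Q (π c)) (π' (q c)) (π' t) (p v)
    have a3 := dist_triangle_right (Q (π c)) (Q (a v)) (p v)
    have a4 := hq'.dist_le (q c) t
    have a5 := (H2 c h2).1
    rw [dist_comm] at a5
    rw [mem_ball, ← div_lt_iff₀ hr]
    linarith [(ha v hv).2.1]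
  have key : ∀ t : π' ⁻¹' S, ∀ v ∈ N, dist (π' t) (p v) ≤ s / 10 → ∀ c ∈ ball w ((R + 1) * r),
      dist (q c) t ≤ s / 50 →
      σ (φ v) (a v) (s * r) c = σ (φ (u t)) (a (u t)) (s * r) (b t) := fun t v hv h1 c h2 h3 => by
    obtain ⟨v1, v2, v3, v4⟩ := ha v hv
    obtain ⟨u1, u2, u3, u4⟩ := ha _ (uN t)
    have a1 := hm t v hv h1 (b t) (bm t) (by linarith [bd t])
    have a2 : dist (p v) (p (u t)) ≤ s / 4 := by
      linarith [dist_triangle_left (p v) (p (u t)) (π' t), ud t]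
    obtain ⟨c', hc'⟩ := hc v hv _ (uN t) a2
    rw [hσ.loc _ _ _ hsr v3 v4 c (b t) (hm t v hv h1 c h2 h3) a1 ?_]
    · refine hσ.cmp _ _ _ _ _ c' hsr v3 u3 v4 u4 ?_ hc' _ a1
        (hm t _ (uN t) (by linarith [ud t]) _ (bm t) (by linarith [bd t]))
      have a3 := (abs_le.1 (H3 _ v1 _ u1)).1
      have a4 := dist_triangle4 (Q (a v)) (p v) (p (u t)) (Q (a (u t)))
      rw [dist_comm (p (u t))] at a4
      rw [← div_le_iff₀ hr]
      linarith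
    · have a3 := (abs_le.1 (H1.2.1 c h2 _ (bm t))).1
      have a4 := dist_triangle_right (q c) (q (b t)) t
      rw [mul_div_right_comm, ← div_le_iff₀ hr]
      linarith [bd t]
  classical
  refine ⟨fun t => if h : π' t ∈ S then σ (φ (u ⟨t, h⟩)) (a (u ⟨t, h⟩)) (s * r) (b ⟨t, h⟩) else 0,
    Metric.continuousOn_iff.2 fun t ht δ hδ => ⟨s / 100, by linarith, fun t' ht' hd => ?_⟩,
    fun t ht => ?_⟩
  · have a1 := ud ⟨t, ht⟩
    have a2 := bd ⟨t, ht⟩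
    rw [dif_pos (show π' t' ∈ S from ht'), dif_pos (show π' t ∈ S from ht),
      ← key ⟨t', ht'⟩ _ (uN ⟨t, ht⟩) ?_ _ (bm ⟨t, ht⟩) ?_, dist_self]
    · exact hδ
    · linarith [dist_triangle (π' t') (π' t) (p (u ⟨t, ht⟩)), hq'.dist_le t' t]
    · linarith [dist_triangle_right (q (b ⟨t, ht⟩)) t' t, dist_comm t t',
        dist_triangle (q (b ⟨t, ht⟩)) t t']
  · have ht' : π' (Γ' t) ∈ S := by rwa [hq'.π_Γ]
    have a1 := ud ⟨t, ht⟩
    have a2 := bd ⟨t, ht⟩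
    obtain ⟨-, -, u3, u4⟩ := ha _ (uN ⟨t, ht⟩)
    have a3 := hσ.val _ _ _ hsr u3 u4 _
      (hm t _ (uN ⟨t, ht⟩) (by linarith) _ (bm ⟨t, ht⟩) (by linarith))
    simp only [dif_pos ht, dif_pos ht']
    refine ⟨a3.1, ?_⟩
    rw [← a3.2, key ⟨Γ' t, ht'⟩ _ (uN ⟨t, ht⟩) ?_ _ ?_ ?_]
    · simp only [hq'.π_Γ]
      linarith
    · rw [mem_ball, hq.dist_Γ, hw]
      exact bm _
    · have a4 := (H2 _ (bm ⟨t, ht⟩)).2
      have a5 := dist_triangle_left (q (Γ (b ⟨t, ht⟩))) (Γ' t) (Γ' (q (b ⟨t, ht⟩)))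
      rw [hq'.iso.dist_eq] at a5
      simp only at a2 ⊢
      linarith

variable {U : Ultrafilter ℕ} {y : ℕ → X} {r : ℕ → ℝ}

theorem li_lim {Y ι : Type} [MetricSpace Y] {Γ : Y → Y} {π : Y → X} (hq : IsQuot Γ π) {ε : ℝ}
    {σ : (X → Euc n) → X → ℝ → Y → ℝ} (hσ : Sgn n Γ π ε σ) {B : Blow D n U y r} {w : ℕ → Y}
    (Q : QBlow B Γ π w) {s R : ℝ} (hs : 0 < s) (hs1 : s ≤ 1 / 10) (hR : 0 < R) {S : Set B.Z}
    (hS : S ⊆ ball B.e R) {p : ι → B.Z} {N : Set ι} (hf : N.Finite) (hp : ∀ v ∈ N, p v ∈ S)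
    (hN : ∀ z ∈ S, ∃ v ∈ N, dist z (p v) < s / 20) {a : ι → ℕ → X} (ha : ∀ v, B.Lf (a v) (p v))
    (h : ∀ᶠ i in (U : Filter ℕ), ∃ φ : ι → X → Euc n,
      (∀ v ∈ N, Reif n (a v i) (10 * (s * r i)) ε ∧ GHApprox (a v i) (s * r i) 0 100 ε (φ v)) ∧
      ∀ v ∈ N, ∀ v' ∈ N, dist (p v) (p v') ≤ s / 4 → ∃ c, ∀ z ∈ ball (a v i) (10 * (s * r i)),
        dist (φ v' z) (φ v z + c) ≤ 1 / 100) : Sec Q.Γ' Q.π' S := by
  have hη : 0 < s / 100 := by linarith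
  have h1 : ∀ᶠ i in (U : Filter ℕ), ∀ v ∈ N, a v i ∈ ball (y i) ((R + 1) * r i) ∧
      dist (B.q i (a v i)) (p v) < s / 100 := (eventually_all_finite hf).2 fun v hv =>
    ((ha v).mem (ball_subset_ball (by linarith) (hS (hp v hv)))).and
      (Metric.tendsto_nhds.1 (ha v).2 _ hη)
  obtain ⟨i, ⟨φ, a1, a2⟩, a3, a4, a5, a6⟩ := (h.and (h1.and ((Q.app (R + 1) _ (by linarith) hη).and
    ((Q.comm (R + 1) _ hη).and (B.bla_app (R + 1) hη))))).exists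
  rw [← Q.w_base i] at a3 a6
  refine li_sec hq Q.quot hσ (B.seq.pos i) hs hs1 (Q.w_fix i) a4 a5 a6 (fun t ht => ?_) hN
    (fun v hv => ⟨(a3 v hv).1, (a3 v hv).2.le, a1 v hv⟩) a2
  rw [← Q.quot.dist_fix Q.fix, Q.base]
  exact hS ht

theorem li_reif (h : HP D κ n) (B : Blow D n U y r) {x₀ : X} (hy : ∀ i, y i ∈ ball x₀ 1)
    {δ ε : ℝ} (hδ : 0 < δ) (he : ∀ x ∈ ball x₀ 2, ∀ r, 0 < r → r ≤ δ ^ 2 →
      D.Θ n x (r / δ) ≤ (1 + δ) * θ n → ∃ φ, GHApprox x r (0 : Euc n) 100 ε φ)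
    {a : ℕ → X} {z : B.Z} (ha : B.Lf a z) {ρ s : ℝ} (hs : 0 < s) (h1 : 10 * s ≤ ρ * δ)
    (h2 : 20 * s ≤ ρ) (h3 : ∀ z' ∈ ball z ρ, B.E.Θ n z' ρ < (1 + δ) * θ n) :
    ∀ᶠ i in (U : Filter ℕ), Reif n (a i) (10 * (s * r i)) ε := by
  obtain ⟨R, hR⟩ := ha.1
  have h4 := B.bla_unif (p := fun i b => b ∈ ball (a i) (10 * (s * r i)) → ∀ s', 0 < s' →
    s' ≤ 10 * (s * r i) → ∃ φ, GHApprox b s' (0 : Euc n) 100 ε φ) (fun b v hb => ?_) (R + 10 * s)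
  · filter_upwards [h4, hR] with i a1 a2 b hb
    refine a1 b (mem_ball.2 ?_) hb
    linarith [dist_triangle b (a i) (y i), mem_ball.1 hb, mem_ball.1 a2]
  rcases lt_or_ge (dist v z) ρ with c | c
  · obtain ⟨R', hR'⟩ := hb.1
    have a1 : Tendsto (fun i => Real.exp (n * κ * (ρ * r i) ^ 2) * D.Θ n (b i) (ρ * r i)) U
        (𝓝 (Real.exp (n * κ * (ρ * 0) ^ 2) * B.E.Θ n v ρ)) :=
      (((B.seq.lim.const_mul ρ).pow 2).const_mul _).rexp.mul (B.bla_Θ hb (by linarith))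
    have a2 : Tendsto (fun i => R' * r i) U (𝓝 0) := by simpa using B.seq.lim.const_mul R'
    have a3 : Tendsto (fun i => ρ * r i) U (𝓝 0) := by simpa using B.seq.lim.const_mul ρ
    filter_upwards [a1.eventually (Iio_mem_nhds (show _ < (1 + δ) * θ n by simpa using h3 v c)),
      a2.eventually (Iic_mem_nhds one_pos), a3.eventually (Iic_mem_nhds hδ), hR']
      with i b1 b2 b3 b4 _ s' c1 c2
    have c3 : s' / δ ≤ ρ * r i := by
      rw [div_le_iff₀ hδ]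
      nlinarith [B.seq.pos i]
    refine he _ (mem_ball.2 ?_) s' c1
      (((div_le_iff₀ hδ).1 (c3.trans b3)).trans_eq (sq δ).symm)
      ((h.Θ_mono _ _ _ (div_pos c1 hδ) c3).trans b1.le)
    have b5 : R' * r i ≤ 1 := b2
    linarith [dist_triangle (b i) (y i) x₀, mem_ball.1 b4, mem_ball.1 (hy i)]
  · filter_upwards [(hb.dist ha).eventually (Ioi_mem_nhds (show 10 * s < dist v z by linarith))]
      with i b1 b2
    have b3 := (lt_div_iff₀ (B.seq.pos i)).1 b1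
    linarith [mem_ball.1 b2]

theorem li_chart (B : Blow D n U y r) {a : ℕ → X} {z : B.Z} (ha : B.Lf a z) {s β ε : ℝ}
    {ψ : B.Z → Euc n} (hs : 0 < s) (h0 : 0 < β) (h1 : 6 * β ≤ ε) (h2 : ε ≤ 1 / 10 ^ 9)
    (hψ : GHApprox z s 0 101 β ψ) : ∀ᶠ i in (U : Filter ℕ), ∃ φ,
      GHApprox (a i) (s * r i) (0 : Euc n) 100 ε φ ∧ ∀ b, dist (φ b) (ψ (B.q i b)) ≤ 1 / 1000 := by
  filter_upwards [B.chart ha hs h0.le hψ h0, Metric.tendsto_nhds.1 ha.2 (s / 10 ^ 4) (by positivity)]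
    with i ⟨φ, a1, a2⟩ a3
  refine ⟨φ, a1.mono (mul_pos hs (B.seq.pos i)) (by linarith) (by linarith) (by linarith),
    fun b => ?_⟩
  rcases eq_or_ne b (a i) with rfl | c
  · have a4 := (abs_le.1 (hψ.dist_base (a := B.q i (a i)) (mem_ball.2 (by linarith)))).2
    have a5 : dist (B.q i (a i)) z / s ≤ 1 / 10 ^ 4 := by
      rw [div_le_iff₀ hs]
      linarith
    rw [a1.1, dist_comm]
    linarith
  · rw [a2 b c, dist_self]
    norm_num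

theorem lim_of_sgn {m : ℕ} [HasStr m] (h : HP D κ (m + 2)) (h2 : N2 D m) {Y : Type}
    [MetricSpace Y] {Γ : Y → Y} {π : Y → X} (hq : IsQuot Γ π) {ε : ℝ} (h0 : 0 < ε)
    (h1 : ε ≤ 1 / 10 ^ 9) {σ : (X → Euc (m + 2)) → X → ℝ → Y → ℝ} (hσ : Sgn (m + 2) Γ π ε σ) :
    Lim D m Γ π := by
  intro x₀
  obtain ⟨δ, hδ, he⟩ := HasStr.er D κ h h2.toN1 x₀ 2 100 ε h0
  refine ⟨δ, hδ, fun U y r B w Q hy => ⟨fun t ht hf => ?_, fun A => ?_⟩⟩
  · obtain ⟨ρ, hρ, h3⟩ := B.model.toHP.Θ_near _ ht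
    obtain ⟨a, ha⟩ := B.exists_lf (Q.π' t)
    obtain ⟨s, hs, s1, s2, s3⟩ : ∃ s, 0 < s ∧ s ≤ 1 / 10 ∧ s ≤ ρ * δ / 10 ∧ s ≤ ρ / 20 :=
      ⟨min (1 / 10) (min (ρ * δ / 10) (ρ / 20)), by positivity, min_le_left _ _,
        (min_le_right _ _).trans (min_le_left _ _), (min_le_right _ _).trans (min_le_right _ _)⟩
    obtain ⟨τ, -, h4⟩ := li_lim hq hσ Q hs s1 (R := dist (Q.π' t) B.e + 1) (by positivity)
      (S := {Q.π' t}) (by simp) (p := fun _ : Unit => Q.π' t) (N := univ) (toFinite _)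
      (fun _ _ => rfl) (fun z hz => ⟨(), trivial, by rw [hz, dist_self]; linarith⟩)
      (a := fun _ => a) (fun _ => ha) (by
        filter_upwards [li_reif h B hy hδ he ha hs (by linarith) (by linarith)
          fun z hz => h3 z hz ρ hρ le_rfl] with i hi
        have hp := mul_pos hs (B.seq.pos i)
        obtain ⟨φ, hφ⟩ := hi _ (mem_ball_self (by linarith)) _ hp (by linarith)
        exact ⟨fun _ => φ, fun _ _ => ⟨hi, hφ⟩, fun _ _ _ _ _ => ⟨0, fun _ _ => by simp⟩⟩)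
    obtain ⟨h5, h6⟩ := h4 t rfl
    rw [hf] at h6
    rcases h5 with h5 | h5 <;> linarith
  set S := {z | A.a z = 0 ∧ A.b z = 1 / 4} with hS
  have hn := B.n2 h h2
  have S1 : S ⊆ ball B.e 1 := fun z hz => by
    have := A.dist_sq z 0
    rw [A.zero, hz.1, hz.2, dist_self] at this
    exact mem_ball.2 (by nlinarith [dist_nonneg (x := z) (y := B.e)])
  have S2 : IsCompact S := (isCompact_closedBall B.e 1).of_isClosed_subset
    ((isClosed_eq A.lip_a.continuous continuous_const).inter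
      (isClosed_eq A.lip_b.continuous continuous_const)) (S1.trans ball_subset_closedBall)
  obtain ⟨ρ, hρ, h3⟩ : ∃ ρ, 0 < ρ ∧ ∀ z ∈ S, ∀ z' ∈ ball z ρ, ∀ r, 0 < r → r ≤ ρ →
      B.E.Θ (m + 2) z' r < (1 + δ) * θ (m + 2) := by
    refine S2.induction_on (p := fun K => ∃ ρ, 0 < ρ ∧ ∀ z ∈ K, ∀ z' ∈ ball z ρ, ∀ r, 0 < r →
      r ≤ ρ → B.E.Θ (m + 2) z' r < (1 + δ) * θ (m + 2)) ⟨1, one_pos, fun _ h => h.elim⟩
      (fun _ _ c ⟨ρ, a1, a2⟩ => ⟨ρ, a1, fun z hz => a2 z (c hz)⟩)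
      (fun _ _ ⟨ρ, a1, a2⟩ ⟨ρ', a3, a4⟩ => ⟨min ρ ρ', lt_min a1 a3, fun z hz z' hz' r c1 c2 =>
        hz.elim (fun c => a2 z c z' (ball_subset_ball (min_le_left _ _) hz') r c1
          (c2.trans (min_le_left _ _))) fun c => a4 z c z'
          (ball_subset_ball (min_le_right _ _) hz') r c1 (c2.trans (min_le_right _ _))⟩)
      fun z hz => ?_
    obtain ⟨ρ, a1, a2⟩ := B.model.toHP.Θ_near z (c := (1 + δ) * θ (m + 2)) (by
      rw [HasStr.reg B.E B.model hn B.e A z (by rw [hz.2]; norm_num)]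
      nlinarith [θ_pos (m + 2)])
    refine ⟨ball z (ρ / 2), mem_nhdsWithin_of_mem_nhds (ball_mem_nhds _ (half_pos a1)), ρ / 2,
      half_pos a1, fun v hv z' hz' r c1 c2 => a2 z' (mem_ball.2 ?_) r c1 (by linarith)⟩
    linarith [dist_triangle z' v z, mem_ball.1 hv, mem_ball.1 hz']
  obtain ⟨β, hβ, b1, b2⟩ : ∃ β : ℝ, 0 < β ∧ 6 * β ≤ ε ∧ ((m + 1 : ℕ) + 1) * β ≤ 1 / 10 ^ 9 := by
    have : (0 : ℝ) < (m + 1 : ℕ) + 1 := by positivity
    refine ⟨min (ε / 6) (1 / 10 ^ 9 / ((m + 1 : ℕ) + 1)), by positivity,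
      by linarith [min_le_left (ε / 6) (1 / 10 ^ 9 / ((m + 1 : ℕ) + 1))], ?_⟩
    rw [← le_div_iff₀' this]
    exact min_le_right _ _
  obtain ⟨s₀, hs₀, h4⟩ := HasStr.chart B.E B.model hn B.e A (β / 6) (by linarith)
  obtain ⟨s, hs, s1, s2, s3, s4⟩ :
      ∃ s, 0 < s ∧ s ≤ 1 / 10 ∧ s ≤ ρ * δ / 10 ∧ s ≤ ρ / 20 ∧ s ≤ s₀ / 2 :=
    ⟨min (min (1 / 10) (ρ * δ / 10)) (min (ρ / 20) (s₀ / 2)), by positivity,
      (min_le_left _ _).trans (min_le_left _ _), (min_le_left _ _).trans (min_le_right _ _),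
      (min_le_right _ _).trans (min_le_left _ _), (min_le_right _ _).trans (min_le_right _ _)⟩
  let f : B.Z → Fin (m + 1) → ℝ := fun z => Fin.cons ((A.b z - 1 / 4) / s) fun j => A.a z j / s
  have h5 : ∀ v : S, ∃ φ : B.Z → Euc (m + 1 + 1), GHApprox (v : B.Z) s 0 101 β φ ∧
      ∀ z ∈ ball (v : B.Z) (101 * s), ∀ j, |φ z j.succ - f z j| ≤ β := fun v => by
    obtain ⟨φ, a1, a2⟩ := h4 v v.2.1 v.2.2 (2 * s) (by linarith) (by linarith)
    have a3 := a1.recentre (x' := (v : B.Z)) (s := 1 / 2) (R' := 101) (by linarith) (by norm_num)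
      (by linarith) (by rw [dist_self, zero_div]; linarith) (by norm_num)
    rw [show 1 / 2 * (2 * s) = s by ring, show 3 * (β / 6) / (1 / 2) = β by ring, a1.1] at a3
    refine ⟨_, a3, fun z hz j => ?_⟩
    obtain ⟨a4, a5⟩ := a2 z (ball_subset_ball (by linarith) hz)
    have a6 : ∀ u c : ℝ, |u - c / (2 * s)| ≤ β / 6 → |(1 / 2)⁻¹ * u - c / s| ≤ β := fun u c hc => by
      rw [show c / s = 2 * (c / (2 * s)) by field_simp]
      rw [abs_le] at hc ⊢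
      constructor <;> norm_num <;> linarith [hc.1, hc.2]
    simp only [sub_zero, PiLp.smul_apply, smul_eq_mul]
    refine Fin.cases ?_ (fun j => ?_) j
    · exact a6 _ _ a4
    · exact a6 _ _ (a5 j)
  choose φ p1 p2 using h5
  obtain ⟨ψ, q1, q2⟩ := li_charts hs hβ.le b2 (fun u hu j => by
    refine Fin.cases ?_ (fun j => ?_) j <;> simp [f, hu.1, hu.2]) p1 p2
  have := isCompact_iff_compactSpace.1 S2
  obtain ⟨N, -, hf, hN⟩ := (isCompact_univ (X := S)).finite_cover_balls (e := s / 20) (by linarith)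
  choose a ha using fun v : S => B.exists_lf v
  refine li_lim hq hσ Q hs s1 one_pos S1 (p := Subtype.val) hf (fun v _ => v.2) (fun z hz => ?_)
    ha ?_
  · obtain ⟨v, a1, a2⟩ := mem_iUnion₂.1 (hN (mem_univ ⟨z, hz⟩))
    exact ⟨v, a1, a2⟩
  have h6 : ∀ᶠ i in (U : Filter ℕ), ∀ v ∈ N, ∃ φ, Reif (m + 2) (a v i) (10 * (s * r i)) ε ∧
      a v i ∈ ball (y i) (1 * r i) ∧ dist (B.q i (a v i)) v < s ∧
      GHApprox (a v i) (s * r i) (0 : Euc (m + 2)) 100 ε φ ∧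
      ∀ b, dist (φ b) (ψ v (B.q i b)) ≤ 1 / 1000 := (eventually_all_finite hf).2 fun v _ => by
    filter_upwards [li_reif h B hy hδ he (ha v) hs (by linarith) (by linarith)
      fun z hz => h3 v v.2 z hz ρ hρ le_rfl, (ha v).mem (S1 v.2),
      Metric.tendsto_nhds.1 (ha v).2 s hs, li_chart B (ha v) hs hβ b1 h1 (q1 v)]
      with i a1 a2 a3 ⟨φ, a4⟩
    exact ⟨φ, a1, a2, a3, a4⟩
  filter_upwards [h6, B.bla_app 2 hs] with i a1 a2
  choose! χ c1 c2 c3 c4 c5 using a1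
  refine ⟨χ, fun v hv => ⟨c1 v hv, c4 v hv⟩, fun v hv v' hv' hd => ?_⟩
  obtain ⟨c, hc⟩ := q2 v v' hd
  refine ⟨c, fun z hz => ?_⟩
  have hr := B.seq.pos i
  have d1 := mem_ball.1 hz
  have d2 := mem_ball.1 (c2 v hv)
  have d3 := (abs_le.1 (a2 z (mem_ball.2 (by nlinarith [dist_triangle z (a v i) (y i)])) (a v i)
    (mem_ball.2 (by linarith)))).2
  have d4 : dist z (a v i) / r i ≤ 10 * s := by
    rw [div_le_iff₀ hr]
    linarith
  have d5 := hc (B.q i z) (by linarith [dist_triangle (B.q i z) (B.q i (a v i)) v, c3 v hv])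
  have d6 := dist_triangle4 (χ v' z) (ψ v' (B.q i z)) (ψ v (B.q i z) + c) (χ v z + c)
  rw [dist_add_right, dist_comm (ψ v _)] at d6
  linarith [c5 v hv z, c5 v' hv' z]

end RC
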