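import Pool.Agent.P.MP_6472e5_gt.ToC

/-! The fundamental class modulo two of a compact subset of a manifold. -/

set_option autoImplicit false
set_option linter.unusedSectionVars false

noncomputable section

namespace RC.Ho

open Set Filter Topology Metric

variable {R : Type} [CommRing R] {X Y : Type} [TopologicalSpace X] [TopologicalSpace Y]

theorem mv_glue {K K' : Set X} (hK : IsClosed K) (hK' : IsClosed K') {k : ℕ}
    {a a' : Chn R X (k + 1)} (ha : a ∈ Zl R K k) (ha' : a' ∈ Zl R K' k)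
    (h : a - a' ∈ Bl R (K ∩ K') (k + 1)) :
    ∃ c ∈ Zl R (K ∪ K') k, c - a ∈ Bl R K (k + 1) ∧ c - a' ∈ Bl R K' (k + 1) := by
  obtain ⟨s, hs, t, ht, e⟩ := Submodule.mem_sup.1 h
  have hb : bd R X k t ∈ chn R Kᶜ k ⊔ chn R K'ᶜ k := by
    obtain ⟨u, -, rfl⟩ := hs
    have e1 := congrArg (bd R X k) e
    rw [map_add, bd_bd, zero_add, map_sub] at e1
    rw [e1]
    exact Submodule.sub_mem _ (Submodule.mem_sup_left ha) (Submodule.mem_sup_right ha')
  obtain ⟨α, hα, β, hβ, hab⟩ := mv_rel hK.isOpen_compl hK'.isOpen_compl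
    (O := (K ∩ K')ᶜ) (by rw [compl_inter]) ht hb
  have h1 : a - α - a ∈ Bl R K (k + 1) := by
    rw [sub_sub_cancel_left]
    exact Submodule.neg_mem _ (chn_le_Bl K _ (chn_mono inter_subset_right _ hα))
  have h2 : a - α - a' ∈ Bl R K' (k + 1) := by
    have e4 : a - α - a' = s + (t - α - β) + β := by
      rw [sub_right_comm, ← e]
      abel
    rw [e4]
    exact Submodule.add_mem _ (Submodule.add_mem _ (bdy_le_Bl _ _ _ hs) (bdy_le_Bl _ _ _ hab))
      (chn_le_Bl K' _ (chn_mono inter_subset_right _ hβ))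
  refine ⟨a - α, ?_, h1, h2⟩
  rw [mem_Zl, compl_union]
  exact mem_inter_chn (Zl_congr ha (Bl_symm h1)) (Zl_congr ha' (Bl_symm h2))

theorem chart_inj [T2Space X] {k : ℕ} (e : OpenPartialHomeomorph X (Euc (k + 1))) {K : Set X}
    (hK : IsCompact K) (hs : K ⊆ e.source) {c : Chn R X (k + 1)} (hc : c ∈ Zl R K k)
    (h : ∀ y ∈ K, c ∈ Bl R {y} (k + 1)) : c ∈ Bl R K (k + 1) := by
  obtain ⟨ξ, hξ, hz, hb⟩ := exc hK.isClosed e.open_source hs hc
  refine Bl_congr ((chart_Bl e hK hs hξ).1 (euc_inj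
    (hK.image_of_continuousOn (e.continuousOn.mono hs)) (chart_Zl e hs hξ hz) ?_)) (Bl_symm hb)
  rintro _ ⟨y, hy, rfl⟩
  exact (chart_Bl_pt e (hs hy) hξ).2 (Bl_congr (h y hy) (Bl_pt hy hb))

theorem toD_step [T2Space X] {k : ℕ} (e : OpenPartialHomeomorph X (Euc (k + 1))) {K K' : Set X}
    (hK : IsCompact K) (hK' : IsCompact K') (hs : K ⊆ e.source)
    (h : ∃ ζ ∈ Zl (ZMod 2) K k, ∀ y ∈ K, Gen y k ζ)
    (h' : ∃ ζ ∈ Zl (ZMod 2) K' k, ∀ y ∈ K', Gen y k ζ) :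
    ∃ ζ ∈ Zl (ZMod 2) (K ∪ K') k, ∀ y ∈ K ∪ K', Gen y k ζ := by
  obtain ⟨a, ha, ga⟩ := h
  obtain ⟨a', ha', ga'⟩ := h'
  obtain ⟨c, hc, h1, h2⟩ := mv_glue hK.isClosed hK'.isClosed ha ha'
    (chart_inj e (hK.inter hK') (inter_subset_left.trans hs)
      (Submodule.sub_mem _ (Zl_mono inter_subset_left k ha) (Zl_mono inter_subset_right k ha'))
      fun y hy => (ga y hy.1).eq_two (ga' y hy.2))
  refine ⟨c, hc, fun y hy => ?_⟩
  rcases hy with hy | hy
  · exact (ga y hy).congr (Bl_pt hy (Bl_symm h1))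
  · exact (ga' y hy).congr (Bl_pt hy (Bl_symm h2))

theorem toD_loc [T2Space X] {k : ℕ} {A : Set X} (hA : IsTopMfd (k + 1) A) {x : X} (hx : x ∈ A) :
    ∃ N ∈ 𝓝 x, IsCompact N ∧ (∃ e : OpenPartialHomeomorph X (Euc (k + 1)), N ⊆ e.source) ∧
      ∃ ζ ∈ Zl (ZMod 2) N k, ∀ y ∈ N, Gen y k ζ := by
  obtain ⟨U, hU, hxU, -, -, ξ, -, hz, hg⟩ := exists_gen (ZMod 2) hA hx
  obtain ⟨e, hxe, -⟩ := hA.2 x hx
  obtain ⟨C, hC, hi, hs⟩ := exists_compact_subset (e.isOpen_inter_preimage_symm hU)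
    (x := e x) ⟨e.map_source hxe, by rwa [mem_preimage, e.left_inv hxe]⟩
  have h1 : e.symm '' C ⊆ U := image_subset_iff.2 fun v hv => (hs hv).2
  refine ⟨e.symm '' C, ?_, hC.image_of_continuousOn
    (e.continuousOn_symm.mono fun v hv => (hs hv).1), ⟨e, image_subset_iff.2 fun v hv =>
      e.map_target (hs hv).1⟩, ξ, Zl_mono h1 k hz, fun y hy => (hg y (h1 hy)).1⟩
  have h2 := e.symm.image_mem_nhds (e.map_source hxe) (mem_interior_iff_mem_nhds.1 hi)
  rwa [e.left_inv hxe] at h2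

theorem exists_fund [T2Space X] {k : ℕ} {A K : Set X} (hA : IsTopMfd (k + 1) A) (hK : IsCompact K)
    (hs : K ⊆ A) : ∃ ζ ∈ Zl (ZMod 2) K k, ∀ y ∈ K, Gen y k ζ := by
  classical
  choose! N hN hc he hz using fun x (hx : x ∈ K) => toD_loc hA (hs hx)
  obtain ⟨t, ht, hcov⟩ := hK.elim_nhds_subcover N hN
  have key : ∀ t : Finset X, (∀ x ∈ t, x ∈ K) →
      ∃ ζ ∈ Zl (ZMod 2) (⋃ x ∈ t, N x) k, ∀ y ∈ ⋃ x ∈ t, N x, Gen y k ζ := by
    intro t
    induction t using Finset.induction_on with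
    | empty => exact fun _ => ⟨0, Submodule.zero_mem _, by simp⟩
    | insert x t _ ih =>
      intro h
      have hx := h x (Finset.mem_insert_self x t)
      have ht : ∀ y ∈ t, y ∈ K := fun y hy => h y (Finset.mem_insert_of_mem hy)
      obtain ⟨e, hse⟩ := he x hx
      rw [Finset.set_biUnion_insert]
      exact toD_step e (hc x hx) (t.isCompact_biUnion fun y hy => hc y (ht y hy)) hse
        (hz x hx) (ih ht)
  obtain ⟨ζ, h1, h2⟩ := key t ht
  exact ⟨ζ, Zl_mono hcov k h1, fun y hy => h2 y (hcov hy)⟩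

end RC.Ho
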