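import Pool.Agent.P.MP_6472e5_gt.ToL
import Pool.Agent.P.MP_6472e5_gt.GH

/-! A continuous map that follows almost Euclidean charts at all scales around a point. -/

set_option autoImplicit false
set_option linter.unusedSectionVars false

noncomputable section

namespace RC.Ho

open Set Filter Topology Metric

variable {X Y : Type} [MetricSpace X] [MetricSpace Y]

/-- Charts at the scales `s / 2 ^ j`, each close to the double of the previous one. -/
theorem exists_align (n : ℕ) : ∃ ε : ℝ, 0 < ε ∧ ε ≤ 1 / 10 ^ 4 ∧ n * ε ≤ 1 / 100 ∧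
    ∀ (X : Type) [MetricSpace X] (z : X) (s : ℝ) (ψ : X → Euc n), 0 < s →
    (∀ t, 0 < t → t ≤ s → ∃ χ, GHApprox z t (0 : Euc n) 40 ε χ) →
    GHApprox z s (0 : Euc n) 40 ε ψ → ∃ χ : ℕ → X → Euc n, χ 0 = ψ ∧
      (∀ j, GHApprox z (s / 2 ^ j) (0 : Euc n) 40 ε (χ j)) ∧
      ∀ j, ∀ y ∈ ball z (s / 2 ^ j), dist (χ (j + 1) y) ((2 : ℝ) • χ j y) ≤ 1 / 100 := by
  obtain ⟨δ, hδ, hrel⟩ := exists_rel n 40 (1 / 100) (by norm_num) (by norm_num)
  refine ⟨min (δ / 6) (min (1 / 10 ^ 4) (1 / (100 * (n + 1)))), by positivity,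
    (min_le_right _ _).trans (min_le_left _ _), ?_⟩
  generalize hε : min (δ / 6) (min (1 / 10 ^ 4) (1 / (100 * ((n : ℝ) + 1)))) = ε
  have e0 : 0 < ε := by rw [← hε]; positivity
  have e1 : ε ≤ δ / 6 := by rw [← hε]; exact min_le_left _ _
  have e2 : ε ≤ 1 / 10 ^ 4 := by rw [← hε]; exact (min_le_right _ _).trans (min_le_left _ _)
  have e3 : (n : ℝ) * ε ≤ 1 / 100 := by
    have : ε ≤ 1 / (100 * ((n : ℝ) + 1)) := by
      rw [← hε]; exact (min_le_right _ _).trans (min_le_right _ _)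
    rw [le_div_iff₀ (by positivity)] at this
    linarith
  refine ⟨e3, ?_⟩
  intro X _ z s ψ hs hc hψ
  have step : ∀ (j : ℕ) (χ : X → Euc n), ∃ χ' : X → Euc n,
      GHApprox z (s / 2 ^ j) (0 : Euc n) 40 ε χ →
      GHApprox z (s / 2 ^ (j + 1)) (0 : Euc n) 40 ε χ' ∧
        ∀ y ∈ ball z (s / 2 ^ j), dist (χ' y) ((2 : ℝ) • χ y) ≤ 1 / 100 := by
    intro j χ
    by_cases h : GHApprox z (s / 2 ^ j) (0 : Euc n) 40 ε χ
    swap
    · exact ⟨χ, fun h' => absurd h' h⟩
    have t0 : 0 < s / 2 ^ j := by positivity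
    have t1 : 0 < s / 2 ^ (j + 1) := by positivity
    have et : 1 / 2 * (s / 2 ^ j) = s / 2 ^ (j + 1) := by rw [pow_succ]; ring
    have h1 := h.recentre (x' := z) (s := 1 / 2) (R' := 40) t0 (by norm_num) e0.le
      (by rw [dist_self, zero_div]; linarith) (by norm_num)
    rw [et] at h1
    obtain ⟨χ', h2⟩ := hc (s / 2 ^ (j + 1)) t1
      (div_le_self hs.le (one_le_pow₀ (by norm_num)))
    obtain ⟨g, hg⟩ := hrel X z _ χ' _ t1 (h2.mono_eps (by linarith))
      (h1.mono_eps (by linarith))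
    refine ⟨g.toIsometryEquiv ∘ χ', fun _ => ⟨?_, fun y hy => ?_⟩⟩
    · have := h2.isometry g.toIsometryEquiv
      rwa [show g.toIsometryEquiv 0 = 0 from g.map_zero] at this
    · have := hg y (ball_subset_ball (by linarith) hy)
      rw [h.1, sub_zero, dist_comm] at this
      norm_num at this ⊢
      exact this
  choose nx hnx using step
  let χ : ℕ → X → Euc n := fun j => Nat.rec ψ nx j
  have hχ : ∀ j, GHApprox z (s / 2 ^ j) (0 : Euc n) 40 ε (χ j) := by
    intro j
    induction j with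
    | zero =>
      rw [pow_zero, div_one]
      exact hψ
    | succ j ih => exact (hnx j _ ih).1
  exact ⟨χ, rfl, hχ, fun j => (hnx j _ (hχ j)).2⟩

/-- The cutoff function. -/
def toFθ (t : ℝ) : ℝ := max 0 (min 1 (2 - 2 * t))

theorem toF_lip : LocallyLipschitz toFθ :=
  (LocallyLipschitz.const 0).max ((LocallyLipschitz.const 1).min
    (ContDiff.locallyLipschitz (𝕂 := ℝ) (by fun_prop)))

theorem toF_zero {t : ℝ} (h : 1 ≤ t) : toFθ t = 0 :=
  max_eq_left ((min_le_right _ _).trans (by linarith))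

theorem toF_one {t : ℝ} (h : t ≤ 1 / 2) : toFθ t = 1 := by
  rw [toFθ, min_eq_left (by linarith), max_eq_right zero_le_one]

theorem toF_abs (t : ℝ) : |toFθ t| ≤ 1 :=
  abs_le.2 ⟨neg_one_lt_zero.le.trans (le_max_left _ _), max_le zero_le_one (min_le_left _ _)⟩

/-- The correction at the scale `s / 2 ^ j`. -/
def toFterm {n : ℕ} (z : X) (s : ℝ) (f : ℕ → X → Euc n) (j : ℕ) (y : X) : Euc n :=
  toFθ (dist y z / (s / 2 ^ j)) •
    ((1 / 2 ^ (j + 1) : ℝ) • f (j + 1) y - (1 / 2 ^ j : ℝ) • f j y)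

/-- The sum of the first `N` corrections. -/
def toFsum {n : ℕ} (z : X) (s : ℝ) (f : ℕ → X → Euc n) (N : ℕ) (y : X) : Euc n :=
  f 0 y + ∑ j ∈ Finset.range N, toFterm z s f j y

section

variable {n : ℕ} {z : X} {s : ℝ} {f : ℕ → X → Euc n}

theorem toF_succ (N : ℕ) (y : X) :
    toFsum z s f (N + 1) y = toFsum z s f N y + toFterm z s f N y := by
  rw [toFsum, Finset.sum_range_succ, ← add_assoc, toFsum]

theorem toF_smul {a : X → ℝ} {b : X → Euc n} (ha : LocallyLipschitz a) (hb : LocallyLipschitz b) :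
    LocallyLipschitz fun y => a y • b y := by
  have h : LocallyLipschitz fun p : ℝ × Euc n => p.1 • p.2 :=
    ContDiff.locallyLipschitz (𝕂 := ℝ) (contDiff_fst.smul contDiff_snd)
  exact h.comp (g := fun y => (a y, b y)) (ha.prodMk hb)

theorem toF_sum_lip (hf : ∀ j, LocallyLipschitz (f j)) (N : ℕ) :
    LocallyLipschitz (toFsum z s f N) := by
  induction N with
  | zero =>
    have : toFsum z s f 0 = f 0 := funext fun y => by simp [toFsum]
    rw [this]
    exact hf 0
  | succ N ih =>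
    rw [funext (toF_succ N)]
    refine ih.add (toF_smul (toF_lip.comp ?_) ?_)
    · exact (ContDiff.locallyLipschitz (𝕂 := ℝ) (f := fun t : ℝ => t / (s / 2 ^ N))
        (by fun_prop)).comp (LipschitzWith.dist_left z).locallyLipschitz
    · simp only [sub_eq_add_neg]
      exact (toF_smul (LocallyLipschitz.const _) (hf _)).add
        (toF_smul (LocallyLipschitz.const _) (hf _)).neg

theorem toF_stab (hs : 0 < s) {N M : ℕ} (h : N ≤ M) {y : X} (hy : s / 2 ^ N ≤ dist y z) :
    toFsum z s f M y = toFsum z s f N y := by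
  induction M, h using Nat.le_induction with
  | base => rfl
  | succ M h ih =>
    have h1 : s / 2 ^ M ≤ s / 2 ^ N :=
      div_le_div_of_nonneg_left hs.le (by positivity) (pow_le_pow_right₀ (by norm_num) h)
    rw [toF_succ, ih, toFterm, toF_zero ((one_le_div (by positivity)).2 (h1.trans hy)), zero_smul,
      add_zero]

theorem toF_tel (hs : 0 < s) (N : ℕ) {y : X} (hy : dist y z ≤ s / 2 ^ N) :
    toFsum z s f N y = (1 / 2 ^ N : ℝ) • f N y := by
  induction N with
  | zero => simp [toFsum]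
  | succ N ih =>
    have h0 : 0 < s / 2 ^ N := by positivity
    have h1 : s / 2 ^ (N + 1) = 1 / 2 * (s / 2 ^ N) := by rw [pow_succ]; ring
    rw [toF_succ, ih (by linarith), toFterm, toF_one ((div_le_iff₀ h0).2 (by linarith)), one_smul,
      add_sub_cancel]

end

theorem exists_F (n : ℕ) : ∃ ε, 0 < ε ∧ ∀ (X : Type) [MetricSpace X] (z : X) (s : ℝ)
    (ψ f : X → Euc n), 0 < s → (∀ t, 0 < t → t ≤ s → ∃ χ, GHApprox z t (0 : Euc n) 40 ε χ) →
    GHApprox z s (0 : Euc n) 40 ε ψ → (∃ L, LipschitzWith L f) →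
    (∀ y ∈ ball z (20 * s), dist (f y) (ψ y) ≤ 1 / 100) →
    ∃ F : X → Euc n, Continuous F ∧ (∀ y, y ∉ ball z s → F y = f y) ∧
      (∀ y ∈ ball z (10 * s), F y = 0 ↔ y = z) ∧ (∀ y ∈ ball z s, ‖F y‖ ≤ 2) ∧
      ∀ y, y ≠ z → ∃ L, ∃ U ∈ 𝓝 y, LipschitzOnWith L F U := by
  classical
  obtain ⟨ε, e0, e1, e2, hal⟩ := exists_align n
  refine ⟨ε, e0, fun X _ z s ψ f hs hc hψ hf hfψ => ?_⟩
  obtain ⟨χ, h0, hχ, hd⟩ := hal X z s ψ hs hc hψ
  have pos : ∀ j : ℕ, 0 < s / 2 ^ j := fun j => by positivity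
  have hg : ∀ j : ℕ, ∃ g : X → Euc n, (∃ L, LipschitzWith L g) ∧ (j = 0 → g = f) ∧
      ∀ y ∈ ball z (20 * (s / 2 ^ j)), dist (g y) (χ j y) ≤ 1 / 100 := by
    intro j
    rcases j.eq_zero_or_pos with rfl | hj
    · exact ⟨f, hf, fun _ => rfl, by simpa [h0] using hfψ⟩
    · have sub : ball z (20 * (s / 2 ^ j)) ⊆ ball z (40 * (s / 2 ^ j)) :=
        ball_subset_ball (by linarith [pos j])
      obtain ⟨g, h1, h2⟩ := exists_lip (B := ball z (20 * (s / 2 ^ j))) (Φ := χ j) (pos j) e0.le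
        (fun a ha b hb => by linarith [(abs_le.1 ((hχ j).2.1 a (sub ha) b (sub hb))).2])
      exact ⟨g, h1, fun h => absurd h hj.ne', fun y hy => (h2 y hy).trans e2⟩
  choose g hL hg0 hg using hg
  have hN : ∀ y, ∃ N : ℕ, y ≠ z → s / 2 ^ N < dist y z := by
    intro y
    by_cases h : y = z
    · exact ⟨0, fun h' => absurd h h'⟩
    · obtain ⟨N, hN⟩ := pow_unbounded_of_one_lt (s / dist y z) (one_lt_two (α := ℝ))
      refine ⟨N, fun _ => ?_⟩
      rw [div_lt_iff₀ (dist_pos.2 h)] at hN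
      rw [div_lt_iff₀ (by positivity)]
      linarith
  choose N hN using hN
  set F : X → Euc n := fun y => if y = z then 0 else toFsum z s g (N y) y with hF
  have Fz : F z = 0 := if_pos rfl
  have Feq : ∀ y M, s / 2 ^ M ≤ dist y z → F y = toFsum z s g M y := by
    intro y M h
    have hy : y ≠ z := dist_pos.1 ((pos M).trans_le h)
    rw [show F y = toFsum z s g (N y) y from if_neg hy,
      ← toF_stab hs (le_max_left (N y) M) (hN y hy).le, toF_stab hs (le_max_right (N y) M) h]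
  have Fout : ∀ y, y ∉ ball z s → F y = f y := by
    intro y hy
    rw [Feq y 0 (by simpa using hy), ← hg0 0 rfl]
    simp [toFsum]
  have nrm : ∀ j, ∀ y ∈ ball z (20 * (s / 2 ^ j)),
      |‖g j y‖ - dist y z / (s / 2 ^ j)| ≤ 1 / 50 := by
    intro j y hy
    have h1 := (hχ j).dist_base (a := y) (ball_subset_ball (by linarith [pos j]) hy)
    have h2 := abs_norm_sub_norm_le (g j y) (χ j y)
    rw [← dist_eq_norm] at h2
    replace h2 := h2.trans (hg j y hy)
    rw [dist_zero_right] at h1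
    rw [abs_le] at h1 h2 ⊢
    constructor <;> linarith [h1.1, h1.2, h2.1, h2.2]
  have Fin : ∀ y ∈ ball z s, y ≠ z → F y ≠ 0 ∧ ‖F y‖ ≤ 2 ∧ ‖F y‖ ≤ 4 / s * dist y z := by
    intro y hy hz
    have hex : ∃ J : ℕ, s / 2 ^ (J + 1) ≤ dist y z := ⟨N y, by
      refine le_trans ?_ (hN y hz).le
      exact div_le_div_of_nonneg_left hs.le (by positivity)
        (pow_le_pow_right₀ (by norm_num) (Nat.le_succ _))⟩
    obtain ⟨J, h1, h2⟩ : ∃ J : ℕ, s / 2 ^ (J + 1) ≤ dist y z ∧ dist y z < s / 2 ^ J := by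
      refine ⟨Nat.find hex, Nat.find_spec hex, ?_⟩
      rcases h : Nat.find hex with _ | J
      · simpa using hy
      · exact not_le.1 (Nat.find_min hex (by omega))
    have et : s / 2 ^ (J + 1) = 1 / 2 * (s / 2 ^ J) := by rw [pow_succ]; ring
    have p := pos J
    have q : (0 : ℝ) < 1 / 2 ^ J := by positivity
    have q1 : (1 / 2 ^ J : ℝ) ≤ 1 := div_le_self zero_le_one (one_le_pow₀ (by norm_num))
    have a1 := abs_le.1 (nrm J y (by rw [mem_ball]; linarith))
    have a2 : 1 / 2 ≤ dist y z / (s / 2 ^ J) := (le_div_iff₀ p).2 (by linarith)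
    have a3 : dist y z / (s / 2 ^ J) ≤ 1 := (div_le_one p).2 h2.le
    have b1 := hg J y (by rw [mem_ball]; linarith)
    have b2 := hg (J + 1) y (by rw [mem_ball]; linarith)
    have b3 := hd J y h2
    have c1 : ‖g (J + 1) y - (2 : ℝ) • g J y‖ ≤ 1 / 25 := by
      have t := dist_triangle4 (g (J + 1) y) (χ (J + 1) y) ((2 : ℝ) • χ J y) ((2 : ℝ) • g J y)
      rw [dist_smul₀, dist_comm (χ J y), Real.norm_of_nonneg zero_le_two] at t
      rw [← dist_eq_norm]
      linarith
    have c2 : ‖toFterm z s g J y‖ ≤ 1 / 2 ^ J * (1 / 50) := by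
      have e : (1 / 2 ^ (J + 1) : ℝ) • g (J + 1) y - (1 / 2 ^ J : ℝ) • g J y =
          (1 / 2 ^ J * (1 / 2) : ℝ) • (g (J + 1) y - (2 : ℝ) • g J y) := by
        rw [smul_sub, smul_smul]
        congr 2 <;> ring
      rw [toFterm, e, norm_smul, norm_smul, Real.norm_eq_abs, Real.norm_of_nonneg (by positivity)]
      calc _ ≤ (1 : ℝ) * (1 / 2 ^ J * (1 / 2) * (1 / 25)) := by
            gcongr
            exact toF_abs _
        _ = _ := by ring
    have c3 : F y = (1 / 2 ^ J : ℝ) • g J y + toFterm z s g J y := by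
      rw [Feq y (J + 1) h1, toF_succ, toF_tel hs J h2.le]
    have c4 : ‖(1 / 2 ^ J : ℝ) • g J y‖ = 1 / 2 ^ J * ‖g J y‖ := by
      rw [norm_smul, Real.norm_of_nonneg q.le]
    have c5 : ‖F y‖ ≤ 1 / 2 ^ J * 2 := by
      have := norm_add_le ((1 / 2 ^ J : ℝ) • g J y) (toFterm z s g J y)
      rw [← c3, c4] at this
      nlinarith [mul_le_mul_of_nonneg_left (show ‖g J y‖ ≤ 3 / 2 by linarith [a1.2]) q.le]
    refine ⟨fun h => ?_, by linarith, c5.trans ?_⟩
    · rw [h, eq_comm, add_eq_zero_iff_eq_neg] at c3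
      rw [c3, norm_neg] at c4
      nlinarith [mul_le_mul_of_nonneg_left (show 1 / 4 ≤ ‖g J y‖ by linarith [a1.1]) q.le]
    · calc (1 / 2 ^ J * 2 : ℝ) = 4 / s * (s / 2 ^ (J + 1)) := by
            rw [pow_succ]
            field_simp
            norm_num
        _ ≤ _ := by gcongr
  have Fl : ∀ y, y ≠ z → ∃ L, ∃ U ∈ 𝓝 y, LipschitzOnWith L F U := by
    intro y hy
    obtain ⟨L, U, hU, h⟩ := toF_sum_lip (z := z) (s := s) (f := g)
      (fun j => (hL j).choose_spec.locallyLipschitz) (N y) y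
    refine ⟨L, U ∩ {a | s / 2 ^ N y < dist a z}, inter_mem hU
      ((isOpen_lt continuous_const (by fun_prop)).mem_nhds (hN y hy)), fun a ha b hb => ?_⟩
    rw [Feq a (N y) ha.2.le, Feq b (N y) hb.2.le]
    exact h ha.1 hb.1
  refine ⟨F, continuous_iff_continuousAt.2 fun y => ?_, Fout, fun y hy => ⟨fun h => ?_, ?_⟩,
    fun y hy => ?_, Fl⟩
  · by_cases hy : y = z
    · subst hy
      rw [ContinuousAt, Fz]
      refine squeeze_zero_norm' (a := fun a => 4 / s * dist a y) ?_ ?_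
      · filter_upwards [ball_mem_nhds y hs] with a ha
        by_cases h : a = y
        · rw [h, Fz]
          simp
        · exact (Fin a ha h).2.2
      · have : Continuous fun a => 4 / s * dist a y := by fun_prop
        simpa using this.tendsto y
    · obtain ⟨L, U, hU, h⟩ := Fl y hy
      exact h.continuousOn.continuousAt hU
  · by_contra hz
    by_cases h' : y ∈ ball z s
    · exact (Fin y h' hz).1 h
    · have a1 := abs_le.1 (nrm 0 y (by
        rw [mem_ball] at hy ⊢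
        simp only [pow_zero, div_one]
        linarith))
      have a2 : 1 ≤ dist y z / s := (one_le_div hs).2 (not_lt.1 h')
      rw [Fout y h', ← hg0 0 rfl] at h
      rw [h, norm_zero, pow_zero, div_one] at a1
      linarith [a1.1]
  · rintro rfl
    exact Fz
  · by_cases h : y = z
    · rw [h, Fz]
      simp
    · exact (Fin y hy h).2.1

end RC.Ho
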