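import Pool.Agent.P.MP_6472e5_gt.GH
import Pool.Agent.P.MP_6472e5_gt.Kern

/-! The half-space inside Euclidean space. -/

set_option autoImplicit false
set_option linter.unusedSectionVars false

noncomputable section

namespace RC.Ho

open Set Filter Topology Metric

variable {X Y : Type} [MetricSpace X] [MetricSpace Y]

/-- The inclusion of the half-space. -/
def hi (k : ℕ) (p : Half k) : Euc (k + 1) := WithLp.toLp 2 (Fin.cons (p.snd : ℝ) p.fst)

theorem hi_dist (k : ℕ) (p q : Half k) : dist (hi k p) (hi k q) = dist p q := by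
  have h : dist p q = √(dist p.fst q.fst ^ 2 + dist p.snd q.snd ^ 2) := by
    rw [WithLp.prod_dist_eq_add (by norm_num), Real.sqrt_eq_rpow]
    simp
  rw [h, EuclideanSpace.dist_eq, Fin.sum_univ_succ, EuclideanSpace.dist_eq,
    Real.sq_sqrt (Finset.sum_nonneg fun i _ => sq_nonneg _), add_comm]
  rfl

theorem hi_zero (k : ℕ) (p : Half k) : hi k p 0 = (p.snd : ℝ) := rfl

theorem hi_surj (k : ℕ) (w : Euc (k + 1)) (h : 0 ≤ w 0) : ∃ p, hi k p = w := by
  refine ⟨WithLp.toLp 2 (WithLp.toLp 2 (Fin.tail w.ofLp), ⟨w 0, h⟩), ?_⟩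
  exact congrArg (WithLp.toLp 2) (Fin.cons_self_tail w.ofLp)

/-- Near a point at height one a half-space chart is a Euclidean chart. -/
theorem half_chart {k : ℕ} {x z z' : X} {r ε : ℝ} {φ : X → Half k} (hr : 0 < r) (h0 : 0 < ε)
    (hε : ε ≤ 1 / 10 ^ 9) (hφ : GHApprox x r (hz k) 100 ε φ) (hz' : z ∈ ball x (2 * r))
    (h1 : dist (φ z) (WithLp.toLp 2 (0, 1)) ≤ ε) (h2 : z' ∈ ball z (r / 20000)) :
    GHApprox z' (r / 20000) (0 : Euc (k + 1)) 50 (60000 * ε)
      (fun y => (20000 : ℝ) • (hi k (φ y) - hi k (φ z'))) ∧ hi k (φ z') 0 ≤ 3 / 2 := by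
  have hsub : ∀ a, dist a z' < 50 * (r / 20000) → a ∈ ball x (100 * r) := fun a ha => by
    have := dist_triangle4 a z' z x
    rw [mem_ball] at hz' h2 ⊢
    linarith
  have hz1 : z' ∈ ball x (100 * r) := hsub z' (by rw [dist_self]; positivity)
  have hz0 : z ∈ ball x (100 * r) := ball_subset_ball (by linarith) hz'
  have a1 : dist z' z / r ≤ 1 / 20000 := by
    rw [div_le_iff₀ hr]
    linarith [mem_ball.1 h2]
  have a2 : dist z' x / r ≤ 3 := by
    rw [div_le_iff₀ hr]
    linarith [mem_ball.1 h2, mem_ball.1 hz', dist_triangle z' z x]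
  have a3 : |hi k (φ z') 0 - 1| ≤ 1 / 20000 + 2 * ε := by
    have b1 := (abs_le.1 (hφ.2.1 z' hz1 z hz0)).2
    have b2 := dist_triangle (φ z') (φ z) (WithLp.toLp 2 (0, 1))
    have b3 := PiLp.dist_apply_le (hi k (φ z')) (hi k (WithLp.toLp 2 (0, 1))) 0
    rw [hi_dist, Real.dist_eq] at b3
    have b4 : hi k (WithLp.toLp 2 (0, 1)) 0 = 1 := rfl
    rw [b4] at b3
    linarith
  obtain ⟨a4, a5⟩ := abs_le.1 a3
  have hd : ∀ u v c : Euc (k + 1),
      dist ((20000 : ℝ) • (u - c)) ((20000 : ℝ) • (v - c)) = 20000 * dist u v := fun u v c => by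
    rw [dist_smul₀, dist_sub_right, Real.norm_of_nonneg (by norm_num)]
  refine ⟨⟨by simp, fun a ha b hb => ?_, fun w hw => ?_⟩, by linarith⟩
  · have b1 := hφ.2.1 a (hsub a ha) b (hsub b hb)
    have b2 : dist a b / (r / 20000) = 20000 * (dist a b / r) := by field_simp
    rw [hd, hi_dist, b2, ← mul_sub, abs_mul, abs_of_pos (by norm_num : (0 : ℝ) < 20000)]
    linarith
  · rw [mem_ball_zero_iff] at hw
    have b1 : |w 0| ≤ ‖w‖ := PiLp.norm_apply_le w 0
    obtain ⟨q, hq⟩ := hi_surj k (hi k (φ z') + (20000 : ℝ)⁻¹ • w) (by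
      rw [PiLp.add_apply, PiLp.smul_apply, smul_eq_mul]
      linarith [(abs_le.1 b1).1])
    have b2 : dist q (φ z') = ‖w‖ / 20000 := by
      rw [← hi_dist, hq, dist_eq_norm, add_sub_cancel_left, norm_smul,
        Real.norm_of_nonneg (by norm_num), inv_mul_eq_div]
    have b3 := (abs_le.1 (hφ.dist_base hz1)).2
    obtain ⟨a, ha, b4⟩ := hφ.2.2 q (by
      rw [mem_ball]
      linarith [dist_triangle q (φ z') (hz k)])
    have b5 := (abs_le.1 (hφ.2.1 a ha z' hz1)).1
    have b6 : dist a z' / r < 50 / 20000 := by linarith [dist_triangle (φ a) q (φ z')]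
    rw [div_lt_iff₀ hr] at b6
    refine ⟨a, by rw [mem_ball]; linarith, ?_⟩
    have b7 : w = (20000 : ℝ) • (hi k q - hi k (φ z')) := by
      rw [hq, add_sub_cancel_left, smul_inv_smul₀ (by norm_num)]
    rw [b7, hd, hi_dist]
    linarith

end RC.Ho
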