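import Pool.Agent.P.MP_6472e5_gt.ToO
import Pool.Agent.P.MP_6472e5_gt.ToF
import Pool.Agent.P.MP_6472e5_gt.ToD
import Pool.Agent.P.MP_6472e5_gt.ToM

/-! No almost Euclidean point in an almost half-space. -/

set_option autoImplicit false
set_option linter.unusedSectionVars false

noncomputable section

namespace RC.Ho

open MeasureTheory Set Filter Topology Metric

/-- The degree modulo two is constant along a segment whose preimage lies in the manifold. -/
theorem toN_deg {X : Type} [MetricSpace X] {k : ℕ} {g : Chn (ZMod 2) (Euc (k + 1)) (k + 1)}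
    (hg : Std k g) {A V K : Set X} (hA : IsTopMfd (k + 1) A) (hV : IsOpen V) (hK : IsCompact K)
    (hKA : K ⊆ A) (hKV : K ⊆ V) {F : X → Euc (k + 1)} (hF : Continuous F) {w : Euc (k + 1)}
    (h1 : ∀ y ∈ V, F y ∈ segment ℝ 0 w → y ∈ K) (h2 : ∀ y ∈ V, F y ≠ w) {z : X} (hz : z ∈ K)
    (h0 : ∀ y ∈ V, F y = 0 → y = z) {ω : Chn (ZMod 2) X (k + 1)} (hω : ω ∈ chn (ZMod 2) V (k + 1))
    (z1 : ω ∈ Zl (ZMod 2) {z} k)
    (d1 : cmap (ZMod 2) F (k + 1) ω - g ∈ Bl (ZMod 2) {0} (k + 1)) : False := by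
  obtain ⟨ζ, hζ, hgen⟩ := exists_fund hA hK hKA
  obtain ⟨ξ, hξ, hz1, hb⟩ := exc hK.isClosed hV hKV hζ
  obtain ⟨j, hj⟩ := ((hgen z hz).congr (Bl_pt hz hb)).2 ω z1
  have a1 := cmap_Bl (K' := {0}) hF.continuousOn hV isClosed_singleton
    (singleton_subset_iff.2 (hKV hz)) h0
    (Submodule.sub_mem _ hω (Submodule.smul_mem _ j hξ)) hj
  have a2 : cmap (ZMod 2) F (k + 1) ξ ∈ Bl (ZMod 2) {0} (k + 1) :=
    seg_Bl (cmap_Zl hF.continuousOn h1 hξ hz1)
      (chn_le_Bl _ _ (cmap_mem (T := {w}ᶜ) hF.continuousOn h2 hξ))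
  rw [map_sub, map_smul] at a1
  have a3 : g ∈ Bl (ZMod 2) {0} (k + 1) :=
    Bl_congr (Bl_congr (Submodule.smul_mem _ j a2) (Bl_symm a1)) d1
  exact absurd (hg.fre 1 (by rwa [one_smul])) (by decide)

theorem no_half' (m : ℕ) : ∃ ε, 0 < ε ∧ ∀ {X : Type} [MetricSpace X] [ProperSpace X]
    [MeasurableSpace X] [BorelSpace X] {A : Set X}, IsTopMfd (m + 2) A → Dense A →
    μH[(m : ℝ) + 1] Aᶜ = 0 → ∀ (x z : X) (r : ℝ) (φ : X → Half (m + 1)), 0 < r →
    GHApprox x r (hz (m + 1)) 100 ε φ → z ∈ ball x (2 * r) →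
    dist (φ z) (WithLp.toLp 2 (0, 1)) ≤ ε → ¬Reif (m + 2) z (r / 1000) ε := by
  obtain ⟨g, hg⟩ := exists_std (ZMod 2) (m + 1)
  obtain ⟨ε₁, h1, hF⟩ := exists_F (m + 2)
  have hk : (0 : ℝ) < (m + 2 : ℕ) := by positivity
  refine ⟨min (ε₁ / 120000) (min (1 / 10 ^ 9) (1 / (2000000 * (m + 2 : ℕ)))), by positivity, ?_⟩
  generalize hε : min (ε₁ / 120000) (min (1 / 10 ^ 9) (1 / (2000000 * ((m + 2 : ℕ) : ℝ)))) = ε
  have e0 : 0 < ε := by rw [← hε]; positivity
  have e1 : ε ≤ ε₁ / 120000 := by rw [← hε]; exact min_le_left _ _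
  have e2 : ε ≤ 1 / 10 ^ 9 := by rw [← hε]; exact (min_le_right _ _).trans (min_le_left _ _)
  have e3 : ((m + 2 : ℕ) : ℝ) * ε ≤ 1 / 2000000 := by
    have : ε ≤ 1 / (2000000 * ((m + 2 : ℕ) : ℝ)) := by
      rw [← hε]; exact (min_le_right _ _).trans (min_le_right _ _)
    rw [le_div_iff₀ (by positivity)] at this
    linarith
  intro X _ _ _ _ A hA hd hn x z r φ hr hφ hz hφz hR
  obtain ⟨z', hz'A, hz'⟩ := hd.exists_dist_lt z (ε := r / 20000) (by positivity)
  rw [dist_comm] at hz'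
  obtain ⟨hψ, hht⟩ := half_chart hr e0 e2 hφ hz hφz (z' := z') hz'
  have hzx : dist z x < 2 * r := hz
  have hz'x : dist z' x < 3 * r := by linarith [dist_triangle z' z x]
  set s := r / 20000 with hs
  have s0 : 0 < s := by positivity
  have hrs : r = 20000 * s := by rw [hs]; ring
  set Φ : X → Euc (m + 2) := fun y => hi (m + 1) (φ y) with hΦ
  have dΦ : ∀ a ∈ ball x (100 * r), ∀ b ∈ ball x (100 * r),
      |dist (Φ a) (Φ b) - dist a b / r| ≤ ε := fun a ha b hb => by
    simp only [hΦ, hi_dist]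
    exact hφ.2.1 a ha b hb
  obtain ⟨f, ⟨L, hL⟩, hf⟩ := exists_lip (B := ball x (100 * r)) (Φ := Φ) hr e0.le
    (fun a ha b hb => by linarith [(abs_le.1 (dΦ a ha b hb)).2])
  have hR' : Reif (m + 2) z' (10 * s) (60000 * ε) := by
    intro y hy t ht hts
    obtain ⟨χ, hχ⟩ := hR y (by
      have := dist_triangle y z' z
      rw [mem_ball] at hy ⊢
      linarith) t ht (by linarith)
    exact ⟨χ, hχ.mono_eps (by linarith)⟩
  obtain ⟨ω, hω⟩ := exists_om hg s0 (by positivity) (by linarith) hR' hψ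
  have df : ∀ y ∈ ball x (100 * r),
      dist ((20000 : ℝ) • (f y - Φ z')) ((20000 : ℝ) • (Φ y - Φ z')) ≤ 1 / 100 := by
    intro y hy
    rw [dist_smul₀, dist_sub_right, Real.norm_of_nonneg (by norm_num)]
    linarith [hf y hy]
  have sub : ∀ {t : ℝ}, t ≤ 20 * s → ball z' t ⊆ ball x (20 * r) := by
    intro t ht y hy
    have := dist_triangle y z' x
    rw [mem_ball] at hy ⊢
    linarith
  have sub' : ball x (20 * r) ⊆ ball x (100 * r) := ball_subset_ball (by linarith)
  obtain ⟨F, Fc, Fe, F0, F2, Fl⟩ := hF X z' s (fun y => (20000 : ℝ) • (Φ y - Φ z'))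
    (fun y => (20000 : ℝ) • (f y - Φ z')) s0 (fun t ht hts => by
      obtain ⟨χ, hχ⟩ := hR' z' (mem_ball_self (by linarith)) t ht (by linarith)
      exact ⟨χ, hχ.mono ht (by norm_num) (by linarith) (by positivity)⟩)
    (hψ.mono s0 (by norm_num) (by linarith) (by positivity))
    ⟨20000 * L, LipschitzWith.of_dist_le_mul fun a b => by
      rw [dist_smul₀, dist_sub_right, Real.norm_of_nonneg (by norm_num)]
      push_cast
      linarith [hL.dist_le_mul a b]⟩
    (fun y hy => df y (sub' (sub le_rfl hy)))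
  have low : ∀ y ∈ ball x (100 * r), y ∉ ball z' s → dist y z' / s - 1 ≤ ‖F y‖ := by
    intro y hy hy'
    have a1 := df y hy
    have a2 := (abs_le.1 (dΦ y hy z' (by rw [mem_ball]; linarith))).1
    have a3 : ‖(20000 : ℝ) • (Φ y - Φ z')‖ = 20000 * dist (Φ y) (Φ z') := by
      rw [norm_smul, Real.norm_of_nonneg (by norm_num), dist_eq_norm]
    have a4 : dist y z' / s = 20000 * (dist y z' / r) := by
      rw [hs]
      field_simp
    have a5 := norm_le_norm_add_norm_sub' ((20000 : ℝ) • (Φ y - Φ z')) ((20000 : ℝ) • (f y - Φ z'))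
    rw [← dist_eq_norm, dist_comm] at a5
    rw [Fe y hy']
    linarith
  have zer : ∀ y ∈ ball x (100 * r), F y = 0 → y = z' := by
    intro y hy h0
    by_cases h : y ∈ ball z' (10 * s)
    · exact (F0 y h).1 h0
    · have h' : 10 * s ≤ dist y z' := not_lt.1 h
      have a1 := low y hy (by rw [mem_ball]; linarith)
      have a2 : 10 ≤ dist y z' / s := (le_div_iff₀ s0).2 h'
      rw [h0, norm_zero] at a1
      linarith
  have cb : closedBall x (20 * r) ⊆ ball x (100 * r) := closedBall_subset_ball (by linarith)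
  obtain ⟨w, w0, w1, hw⟩ := exists_seg (m := m) (S := Aᶜ ∩ closedBall x (20 * r)) (F := F)
    (fun y hy => Fl y fun e => hy.1 (e ▸ hz'A)) (measure_mono_null inter_subset_left hn)
    (fun y hy e => hy.1 (zer y (cb hy.2) e ▸ hz'A)) (T := 60000) (by norm_num)
  have hseg : IsClosed (segment ℝ (0 : Euc (m + 2)) w) := by
    rw [segment_eq_image']
    exact (isCompact_Icc.image (by fun_prop)).isClosed
  refine toN_deg hg (V := ball x (20 * r)) (K := closedBall x (20 * r) ∩ F ⁻¹' segment ℝ 0 w) hA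
    isOpen_ball ((isCompact_closedBall _ _).inter_right (hseg.preimage Fc))
    (fun y hy => by_contra fun h => hw y ⟨h, hy.1⟩ hy.2) (fun y hy => ?_) Fc
    (fun y hy h => ⟨ball_subset_closedBall hy, h⟩) (fun y hy e => ?_) (z := z')
    ⟨by rw [mem_closedBall]; linarith, ?_⟩ (fun y hy => zer y (sub' hy))
    (chn_mono (sub (by linarith)) _ hω.mem) (Zl_pt (mem_ball_self (by linarith)) hω.zl)
    (hω.deg F Fc fun y hy hy' => ?_)
  · by_cases h : y ∈ ball z' s
    · exact sub (by linarith) h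
    · have a1 := low y (cb hy.1) h
      have a2 : ‖F y‖ ≤ ‖w‖ := by
        have := (convex_closedBall (0 : Euc (m + 2)) ‖w‖).segment_subset
          (mem_closedBall_self (norm_nonneg w)) (mem_closedBall_zero_iff.2 le_rfl) hy.2
        exact mem_closedBall_zero_iff.1 this
      have a3 : dist y z' ≤ 60002 * s := (div_le_iff₀ s0).1 (by linarith)
      have := dist_triangle y z' x
      rw [mem_ball]
      linarith
  · by_cases h : y ∈ ball z' s
    · have a1 := (PiLp.norm_apply_le (F y) 0).trans (F2 y h)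
      rw [e, w0] at a1
      norm_num at a1
    · have a1 := (PiLp.dist_apply_le (f y) (Φ y) 0).trans (hf y (sub' hy))
      have a2 : 0 ≤ Φ y 0 := by
        simp only [hΦ, hi_zero]
        exact NNReal.coe_nonneg _
      have a3 : F y 0 = 20000 * (f y 0 - Φ z' 0) := by
        rw [Fe y h]
        rfl
      rw [Real.dist_eq] at a1
      rw [e, w0] at a3
      have a4 : Φ z' 0 ≤ 3 / 2 := hht
      linarith [(abs_le.1 a1).1]
  · rw [mem_preimage, (F0 z' (mem_ball_self (by linarith))).2 rfl]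
    exact left_mem_segment _ _ _
  · rw [Fe y fun h => hy' (ball_subset_ball (by linarith) h)]
    linarith [df y (sub' (sub (by linarith) hy))]

end RC.Ho
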