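import Pool.Agent.P.MP_6472e5_gt.ToS
import Pool.Agent.P.MP_6472e5_gt.ToN

/-! Export of block T: topology. -/

set_option autoImplicit false
set_option linter.unusedSectionVars false

noncomputable section

namespace RC

open MeasureTheory Set Filter Topology Metric

theorem exists_sgn (m : ℕ) : ∃ ε, 0 < ε ∧ ε ≤ 1 / 10 ^ 9 ∧ ∀ {X Y : Type} [MetricSpace X]
    [ProperSpace X] [MetricSpace Y] [ProperSpace Y] {Γ : Y → Y} {π : Y → X} {A A' : Set X},
    Top m Γ π A → Dense A → (∀ V, IsOpen V → IsPreconnected V → IsPreconnected (V ∩ A)) →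
    IsTopMfd (m + 2) A' → ¬Orientable (m + 1) A' → ∃ σ, Sgn (m + 2) Γ π ε σ := Ho.exists_sgn' m

theorem no_half (m : ℕ) : ∃ ε, 0 < ε ∧ ∀ {X : Type} [MetricSpace X] [ProperSpace X]
    [MeasurableSpace X] [BorelSpace X] {A : Set X}, IsTopMfd (m + 2) A → Dense A →
    μH[(m : ℝ) + 1] Aᶜ = 0 → ∀ (x z : X) (r : ℝ) (φ : X → Half (m + 1)), 0 < r →
    GHApprox x r (hz (m + 1)) 100 ε φ → z ∈ ball x (2 * r) →
    dist (φ z) (WithLp.toLp 2 (0, 1)) ≤ ε → ¬Reif (m + 2) z (r / 1000) ε := Ho.no_half' m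

end RC
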