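import Pool.Agent.P.MP_6472e5_gt.XV2
import Pool.Agent.P.MP_6472e5_gt.XT

/-! No half-spaces. -/

set_option autoImplicit false
set_option linter.unusedSectionVars false

noncomputable section

namespace RC

open MeasureTheory Set Filter Topology Metric

variable {X : Type} [MetricSpace X] [ProperSpace X] [MeasurableSpace X] [BorelSpace X]
  {μ : Measure X} {D : DS μ} {κ : ℝ} {n : ℕ}

/-- The half-space inside Euclidean space. -/
def xnJ {k : ℕ} (p : Half k) : Euc (k + 1) := WithLp.toLp 2 (Fin.cons (p.snd : ℝ) p.fst)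

theorem xn_dist {k : ℕ} (p q : Half k) : dist (xnJ p) (xnJ q) = dist p q := by
  rw [WithLp.prod_dist_eq_add (by norm_num), EuclideanSpace.dist_eq, Fin.sum_univ_succ,
    ENNReal.toReal_ofNat, Real.rpow_two, Real.rpow_two, EuclideanSpace.dist_sq_eq,
    Real.sqrt_eq_rpow, add_comm]
  rfl

theorem xn_half {k : ℕ} (p : Half k) {s R : ℝ} (hs : 0 < s) (h : R * s ≤ p.snd) :
    GHApprox p s (0 : Euc (k + 1)) R 0 fun q => s⁻¹ • (xnJ q - xnJ p) := by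
  refine ⟨by simp, fun a _ b _ => ?_, fun w hw => ?_⟩
  · rw [dist_smul₀, dist_sub_right, xn_dist, Real.norm_of_nonneg (by positivity), inv_mul_eq_div,
      sub_self, abs_zero]
  · rw [sub_zero, mem_ball_zero_iff] at hw
    have h0 := abs_le.1 ((PiLp.norm_apply_le w 0).trans hw.le)
    have h1 : 0 ≤ (p.snd : ℝ) + s * w 0 := by nlinarith [h0.1]
    obtain ⟨a, e⟩ : ∃ a, xnJ a = xnJ p + s • w :=
      ⟨WithLp.toLp 2 (WithLp.toLp 2 fun i => p.fst i + s * w i.succ, NNReal.mk _ h1),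
        PiLp.ext fun i => Fin.cases rfl (fun _ => rfl) i⟩
    refine ⟨a, ?_, by simp only [e, add_sub_cancel_left, inv_smul_smul₀ hs.ne', dist_self, le_refl]⟩
    rw [mem_ball, ← xn_dist, e, dist_self_add_left, norm_smul, Real.norm_of_nonneg hs.le, mul_comm]
    exact mul_lt_mul_of_pos_right hw hs

theorem xn_chart {k : ℕ} {x z z' : X} {r δ s R η : ℝ} {φ : X → Half k} (hr : 0 < r) (h0 : 0 < δ)
    (h1 : δ ≤ 1 / 200) (h : GHApprox x r (hz k) δ⁻¹ δ φ) (hz : z ∈ ball x (2 * r))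
    (hφ : dist (φ z) (WithLp.toLp 2 (0, 1)) ≤ δ) (hz' : z' ∈ ball z (r / 1000)) (hs : 0 < s)
    (hR : (R + η) * s ≤ 1 / 2) (hη : 3 * δ ≤ η * s) :
    ∃ ψ, GHApprox z' (s * r) (0 : Euc (k + 1)) R η ψ := by
  have hδ : 200 ≤ δ⁻¹ := by rwa [le_inv_comm₀ (by norm_num) h0, inv_eq_one_div]
  rw [mem_ball] at hz hz'
  have a1 : dist z' x ≤ 3 * r := by linarith [dist_triangle z' z x]
  have m1 : z' ∈ ball x (δ⁻¹ * r) := mem_ball.2 (by nlinarith)
  have m2 : z ∈ ball x (δ⁻¹ * r) := mem_ball.2 (by nlinarith)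
  have a2 := (abs_le.1 (h.2.1 z' m1 z m2)).2
  have a3 := (abs_le.1 (h.dist_base m1)).2
  have a4 : dist z' z / r ≤ 1 / 1000 := by rw [div_le_iff₀ hr]; linarith
  have a5 : dist z' x / r ≤ 3 := by rwa [div_le_iff₀ hr]
  have a6 := (WithLp.dist_snd_le _ _).trans (dist_triangle (φ z') (φ z) (WithLp.toLp 2 (0, 1)))
  have a7 : 1 - ((φ z').snd : ℝ) ≤ dist (φ z').snd 1 := by
    rw [dist_comm]
    exact le_abs_self _
  have := h.comp hr hs h0.le le_rfl (xn_half (φ z') hs (R := R + η) (by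
    change dist (φ z').snd 1 ≤ _ at a6
    linarith)) m1 (by rw [dist_self]; exact h0.le) hη (by linarith)
  rw [add_sub_cancel_right, mul_zero, zero_add] at this
  exact ⟨_, this⟩

theorem nh_of_mfd {m : ℕ} [HasBlow (m + 2)] (h : HP D κ (m + 2)) (h1 : N1 D (m + 2)) {A : Set X}
    (hA : IsTopMfd (m + 2) A) (hd : Dense A) (h0 : μH[(m : ℝ) + 1] Aᶜ = 0) : NH X (m + 1) := by
  intro x₀ R
  obtain ⟨ε, hε, hn⟩ := no_half m
  obtain ⟨δ₁, p1, h₁⟩ := (hasStr m).er D κ h h1 x₀ (R + 1) 100 ε hε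
  obtain ⟨δ₂, p2, h₂⟩ := vcm h h1 x₀ (R + 1) (half_pos p1)
  obtain ⟨s₀, p0, h₀⟩ : ∃ s₀, 0 < s₀ ∧ ∀ s : ℝ, |s| < s₀ →
      Real.exp ((m + 2 : ℕ) * κ * s ^ 2) * (1 + δ₁ / 2) < 1 + δ₁ := by
    have hc : Continuous fun s : ℝ => Real.exp ((m + 2 : ℕ) * κ * s ^ 2) * (1 + δ₁ / 2) := by
      fun_prop
    obtain ⟨s₀, p0, h₀⟩ := Metric.eventually_nhds_iff.1
      ((hc.tendsto 0).eventually_lt_const (u := 1 + δ₁) (by simpa using p1))
    exact ⟨s₀, p0, fun s hs => h₀ (by simpa using hs)⟩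
  obtain ⟨σ, pσ, hσ⟩ : ∃ σ, 0 < σ ∧ (δ₂⁻¹ + δ₂) * σ ≤ 1 / 2 :=
    ⟨1 / 2 / (δ₂⁻¹ + δ₂), by positivity, (mul_div_cancel₀ _ (by positivity)).le⟩
  have pe : 0 < min ε 1 := lt_min hε one_pos
  have ev : ∀ a : ℝ, 0 < a → ∀ᶠ δ in 𝓝[>] (0 : ℝ), δ < a := fun a ha =>
    nhdsWithin_le_nhds (gt_mem_nhds ha)
  obtain ⟨δ, q0, q1, q2, q3, q4, q5, q6, q7⟩ := ((eventually_mem_nhdsWithin (s := Ioi 0)).and
    ((ev (1 / 200) (by norm_num)).and ((ev _ (half_pos hε)).and ((ev _ (pow_pos p1 2)).and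
    ((ev _ (div_pos p2 pσ)).and ((ev _ (div_pos p0 pσ)).and ((ev (δ₂ * σ / 3) (by positivity)).and
    (ev (min ε 1 * (δ₁ * σ) / 3) (by positivity))))))))).exists
  have q0 : 0 < δ := q0
  refine ⟨δ, q0, fun x hx r hr hrδ ⟨φ, hφ⟩ => ?_⟩
  have hδ : 200 ≤ δ⁻¹ := by
    rw [le_inv_comm₀ (by norm_num) q0, inv_eq_one_div]
    exact q1.le
  have d1 : dist (WithLp.toLp 2 (0, 1) : Half (m + 1)) (hz (m + 1)) = 1 := by
    rw [← xn_dist, EuclideanSpace.dist_eq, Fin.sum_univ_succ]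
    simp [xnJ, hz]
  obtain ⟨z, -, hz1, hz2⟩ := hφ.exists_near hr (w := WithLp.toLp 2 (0, 1))
    (mem_ball.2 (by rw [d1]; linarith))
  have hz : z ∈ ball x (2 * r) := mem_ball.2 (by rw [d1] at hz2; nlinarith)
  refine hn hA hd h0 x z r φ hr (hφ.mono hr (by linarith) (by linarith) q0.le) hz (by linarith)
    fun z' hz' s hs hsr => ?_
  have m1 : z' ∈ ball x₀ (R + 1) := by
    rw [mem_ball] at hx hz hz' ⊢
    linarith [dist_triangle4 z' z x x₀]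
  rcases le_total s (δ₁ * σ * r) with c | c
  · refine h₁ z' m1 s hs (by linarith) ?_
    have k1 := mul_le_mul_of_nonneg_left hrδ pσ.le
    rw [lt_div_iff₀' pσ] at q4 q5
    have k2 := h₂ z' m1 (σ * r) (mul_pos pσ hr) (by linarith)
      (xn_chart hr q0 q1.le hφ hz hz1 hz' pσ hσ (by linarith))
    have k3 := h₀ (σ * r) (by rw [abs_of_pos (mul_pos pσ hr)]; linarith)
    refine (h.Θ_mono z' _ (σ * r) (div_pos hs p1) (by rw [div_le_iff₀ p1]; linarith)).trans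
      ((mul_le_mul_of_nonneg_left k2 (Real.exp_pos _).le).trans ?_)
    rw [← mul_assoc]
    exact mul_le_mul_of_nonneg_right k3.le (θ_pos _).le
  · have k1 : s / r ≤ 1 / 1000 := by rw [div_le_iff₀ hr]; linarith
    have k2 := mul_le_mul_of_nonneg_left ((le_div_iff₀ hr).2 c) pe.le
    obtain ⟨ψ, hψ⟩ := xn_chart hr q0 q1.le hφ hz hz1 hz' (div_pos hs hr) (R := 100) (η := min ε 1)
      (by nlinarith [min_le_right ε 1]) (by linarith)
    rw [div_mul_cancel₀ _ hr.ne'] at hψ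
    exact ⟨ψ, hψ.mono_eps (min_le_left _ _)⟩

end RC
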