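import Pool.Agent.P.MP_6472e5_gt.UlD
import Pool.Agent.P.MP_6472e5_gt.HpB
import Pool.Agent.P.MP_6472e5_gt.Ca5
import Pool.Agent.P.MP_6472e5_gt.Ls

/-! Pointwise inequalities that pass to the limit. -/

set_option autoImplicit false
set_option linter.unusedSectionVars false

noncomputable section

namespace RC

open MeasureTheory Set Filter Topology Metric

variable {X : Type} [MetricSpace X] [ProperSpace X] [MeasurableSpace X] [BorelSpace X]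
  {μ : Measure X} {D : DS μ} {κ : ℝ} {n : ℕ}

theorem ulx_kG (D : DS μ) (t : ℝ) (f : X → ℝ) (x : X) :
    kG μ D.p t f f x = (2 * t)⁻¹ * (D.Pk t (fun y => f y ^ 2) x - D.Pk t f x ^ 2) := by
  simp only [kG, kT, DS.Pk, sq]

theorem ulx_ps (D : DS μ) {r t : ℝ} (hr : 0 < r) (ht : 0 < t) (f : X → ℝ) (x : X) :
    kG μ (D.ps r) t f f x = r ^ 2 * kG μ D.p (r ^ 2 * t) f f x := by
  have e : (2 * t)⁻¹ = r ^ 2 * (2 * (r ^ 2 * t))⁻¹ := by field_simp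
  rw [kG, kG, e, mul_assoc]
  rfl

theorem ulx_cmul (D : DS μ) (c t : ℝ) (f : X → ℝ) (x : X) :
    D.Pk t (fun y => c * f y) x = c * D.Pk t f x := by
  simp only [DS.Pk, ← integral_const_mul, mul_left_comm]

theorem ulx_add (D : DS μ) {t : ℝ} {f g : X → ℝ} {x : X}
    (hf : Integrable (fun y => D.p t x y * f y) μ) (hg : Integrable (fun y => D.p t x y * g y) μ) :
    D.Pk t (fun y => f y + g y) x = D.Pk t f x + D.Pk t g x := by
  simp only [DS.Pk, mul_add]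
  exact integral_add hf hg

theorem ulx_sq {f : X → ℝ} (bf : Bdd μ f) : Bdd μ fun y => f y ^ 2 :=
  (bf.mul bf).congr (ae_of_all _ fun y => (sq (f y)).symm)

namespace HP

variable (h : HP D κ n)
include h

theorem ulx_bdd {f : X → ℝ} (hm : AEStronglyMeasurable f μ) (bf : Bdd μ f) {t : ℝ} (ht : 0 < t) :
    Bdd μ (D.Pk t f) ∧ Bdd μ (D.Lk t f) ∧ Continuous (D.Lk t f) := by
  obtain ⟨M, hM⟩ := bf
  obtain ⟨a1, -, -, a2, a3⟩ := h.pk_bdd f t M hm hM ht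
  exact ⟨⟨_, ae_of_all _ a1⟩, ⟨_, ae_of_all _ a3⟩, a2⟩

theorem ulx_K {f : X → ℝ} (hm : AEStronglyMeasurable f μ) (bf : Bdd μ f) {t : ℝ} (ht : 0 < t) :
    Continuous (kG μ D.p t f f) ∧ Bdd μ (kG μ D.p t f f) := by
  rw [funext (ulx_kG D t f)]
  exact ⟨continuous_const.mul ((h.pk_cont (hm.pow 2) (ulx_sq bf) ht).sub
    ((h.pk_cont hm bf ht).pow 2)), Bdd.smul (2 * t)⁻¹
    ((h.ulx_bdd (hm.pow 2) (ulx_sq bf) ht).1.sub (ulx_sq (h.ulx_bdd hm bf ht).1))⟩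

theorem ulx_rp {f : X → ℝ} (hf : MemLp f 2 μ) {t : ℝ} (ht : 0 < t) : ∀ᵐ x ∂μ,
    D.G (D.P t f) (D.P t f) x ≤ Real.exp (2 * κ * t) * kG μ D.p t f f x := by
  filter_upwards [h.rp_pt f t hf ht] with x hx
  rw [ulx_kG]
  refine le_trans (le_of_eq ?_) (mul_le_mul_of_nonneg_left
    (mul_le_mul_of_nonneg_left hx (by positivity)) (Real.exp_pos _).le)
  rw [Real.exp_neg]
  field_simp

/-- The local Poincare inequality at a point. -/
theorem lp_pt {u : X → ℝ} (hu : u ∈ D.V) (bu : Bdd μ u) {t : ℝ} (ht : 0 < t) (x : X) :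
    kG μ D.p t u u x ≤ Real.exp (2 * κ * t) * D.Pk t (D.G u u) x := by
  have m := D.memLp u hu
  have W := D.W_of_mem hu
  have iG := D.G_int hu hu
  have i2 : Integrable (fun y => u y ^ 2) μ := m.integrable_sq
  have i3 : Integrable (fun y => D.Pk t u y ^ 2) μ :=
    ((h.flow.memLp u t m).ae_eq (h.P_rep m ht)).integrable_sq
  have iA := (h.pk_l1 _ t i2 ht).2
  have iB := (h.pk_l1 _ t iG ht).2
  have k1 : ∀ᵐ y ∂μ, y ∈ univ → D.Pk t (fun y => u y ^ 2) y - D.Pk t u y ^ 2 ≤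
      2 * t * Real.exp (2 * κ * t) * D.Pk t (D.G u u) y := by
    refine D.ae_le_of_test (locInt_of_int (iA.sub i3)) (locInt_of_int (iB.const_mul _))
      isOpen_univ fun φ hφ _ h0 => ?_
    have mφ := D.lipB_memLp hφ
    have a1 := h.lp u hu φ t mφ hφ.bdd (ae_of_all _ h0) ht
    rw [h.P_l1 φ _ t mφ hφ.bdd i2 ht, h.P_l1 φ _ t mφ hφ.bdd iG ht, ← integral_const_mul] at a1
    have a2 : ∫ y, φ y * D.P t u y ^ 2 ∂μ = ∫ y, φ y * D.Pk t u y ^ 2 ∂μ := by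
      refine integral_congr_ae ?_
      filter_upwards [h.P_rep m ht] with y hy
      rw [hy]
    rw [a2, ← integral_sub (hφ.bdd.mul_integrable mφ.1 iA) (hφ.bdd.mul_integrable mφ.1 i3)] at a1
    simpa only [Pi.sub_apply, mul_sub, mul_left_comm] using a1
  have k2 : D.Pk t (fun y => u y ^ 2) x - D.Pk t u x ^ 2 ≤
      2 * t * Real.exp (2 * κ * t) * D.Pk t (D.G u u) x := le_of_ae_le h.pos isOpen_univ
    ((h.pk_l1 _ t i2 ht).1.sub ((h.pk_cont m.1 bu ht).pow 2)).continuousOn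
    (continuous_const.mul (h.pk_l1 _ t iG ht).1).continuousOn k1 x (mem_univ x)
  rw [ulx_kG]
  refine (mul_le_mul_of_nonneg_left k2 (by positivity)).trans (le_of_eq ?_)
  field_simp

theorem ul_var {f : X → ℝ} (hf : LipB f) {L r t : ℝ} (hL : 0 ≤ L) (hr : 0 < r)
    (hl : ∀ a b, |f a - f b| ≤ L / r * dist a b) (ht : 0 < t) (x : X) :
    kG μ (D.ps r) t f f x ≤ Real.exp (2 * κ * (r ^ 2 * t)) * L ^ 2 := by
  have hu := D.lip f hf
  have hτ : 0 < r ^ 2 * t := by positivity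
  have a1 := DS.G_le_lip (D.W_of_mem hu) isOpen_univ (g := f) (L := L / r)
    (fun a _ b _ => hl a b) (by positivity) (ae_of_all _ fun _ _ => rfl)
  have a2 := h.pk_mono hτ (x := x) (g := fun _ => (L / r) ^ 2) (h.pk_int' (D.G_int hu hu) hτ x).1
    (h.pk_int aestronglyMeasurable_const (Bdd.const _) hτ x).1 (a1.mono fun y hy => hy trivial)
  rw [(h.pk_const _ hτ x).1] at a2
  rw [ulx_ps D hr ht]
  refine (mul_le_mul_of_nonneg_left ((h.lp_pt hu hf.bdd hτ x).trans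
    (mul_le_mul_of_nonneg_left a2 (Real.exp_pos _).le)) (sq_nonneg r)).trans (le_of_eq ?_)
  field_simp

theorem ul_lip {f : X → ℝ} (hf : MemLp f 2 μ) (bf : Bdd μ f) {L r t R : ℝ} (hL : 0 ≤ L)
    (hr : 0 < r) (ht : 0 < t) {x : X} (hle : ∀ z ∈ ball x R, kG μ (D.ps r) t f f z ≤ L ^ 2) :
    ∀ a ∈ ball x (R / 2), ∀ b ∈ ball x (R / 2), |kT μ (D.ps r) t f a - kT μ (D.ps r) t f b| ≤
      Real.exp (κ * (r ^ 2 * t)) * L * (dist a b / r) := by
  have hτ : 0 < r ^ 2 * t := by positivity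
  have W := D.W_of_mem ((h.flow.heat f hf).1 _ hτ).1
  have e := h.P_rep hf hτ
  have a1 : ∀ᵐ y ∂μ, y ∈ ball x R → D.G (D.Pk (r ^ 2 * t) f) (D.Pk (r ^ 2 * t) f) y ≤
      (Real.exp (κ * (r ^ 2 * t)) * L / r) ^ 2 := by
    filter_upwards [h.ulx_rp hf hτ, DS.G_congr W W e e] with y h1 h2 hy
    have h3 := hle y hy
    rw [ulx_ps D hr ht, ← le_div_iff₀' (pow_pos hr 2)] at h3
    rw [← h2]
    refine h1.trans ((mul_le_mul_of_nonneg_left h3 (Real.exp_pos _).le).trans (le_of_eq ?_))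
    rw [div_pow, mul_pow, ← Real.exp_nat_mul, mul_div_assoc]
    simp only [Nat.cast_ofNat, mul_assoc]
  intro a ha b hb
  have a2 := DS.lip_of_G_le h.pos h.geo h.s2l (W.congr e) (h.pk_cont hf.1 bf hτ) x R
    (by positivity) a1 a ha b hb
  exact a2.trans (le_of_eq (by ring))

theorem be_pt {f : X → ℝ} (hf : MemLp f 2 μ) (bf : Bdd μ f) {s t : ℝ} (hs : 0 ≤ s) (ht : 0 < t)
    (x : X) : kG μ D.p t (D.Pk (s + t) f) (D.Pk (s + t) f) x +
      2 * s / n * D.Lk (s + 2 * t) f x ^ 2 ≤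
      Real.exp (2 * κ * (s + 2 * t)) * D.Pk (s + t) (kG μ D.p t f f) x := by
  have hst : 0 < s + t := by linarith
  have tg := h.tb f t hf bf ht
  have tu := h.tb f (s + t) hf bf hst
  have eu := h.P_rep hf hst
  have hu : D.Pk (s + t) f ∈ D.V := D.congr _ tu.mem _ eu
  obtain ⟨bu, bL, cL⟩ := h.ulx_bdd hf.1 bf hst
  obtain ⟨cK, bK⟩ := h.ulx_K hf.1 bf ht
  have mK := cK.aestronglyMeasurable (μ := μ)
  have r1 := h.ulx_rp hf ht
  have Wg := D.W_of_mem tg.mem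
  obtain ⟨K, mK', bK', eK, hle⟩ : ∃ K : X → ℝ, AEStronglyMeasurable K μ ∧ Bdd μ K ∧
      D.Pk t K x = D.Pk (s + t) (kG μ D.p t f f) x ∧ ∀ᵐ y ∂μ,
      D.G (D.Pk (s + t) f) (D.Pk (s + t) f) y + 2 * s / n * D.Lk (s + t) f y ^ 2 ≤
        Real.exp (2 * κ * (s + t)) * K y := by
    rcases hs.eq_or_lt with rfl | hs0
    · refine ⟨_, mK, bK, by rw [zero_add], ?_⟩
      rw [zero_add] at eu ⊢
      filter_upwards [r1, DS.G_congr Wg Wg eu eu] with y h1 h2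
      rw [← h2]
      simpa using h1
    · refine ⟨D.Pk s (kG μ D.p t f f), (h.pk_cont mK bK hs0).aestronglyMeasurable,
        (h.ulx_bdd mK bK hs0).1, by rw [add_comm s t, (h.pk_semi mK bK ht hs0 x).1], ?_⟩
      have e1 : D.P s (D.P t f) =ᵐ[μ] D.Pk (s + t) f :=
        (h.flow.semi f s t hf hs ht.le).symm.trans eu
      have W1 := D.W_of_mem ((h.flow.heat _ (h.flow.memLp f t hf)).1 s hs0).1
      filter_upwards [h.ge_pt _ tg.mem s hs0, DS.G_congr W1 W1 e1 e1,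
        h.flow.L_semi' f s t hf hs0 ht.le, h.L_rep f (s + t) hf hst] with y h1 h2 h3 h4
      rw [← h2, ← h4, h3]
      refine h1.trans ?_
      have h5 := h.pk_mono hs0 (x := y) (h.pk_int' (D.G_int tg.mem tg.mem) hs0 y).1
        (h.pk_int (mK.const_mul _) (Bdd.smul (Real.exp (2 * κ * t)) bK) hs0 y).1 r1
      rw [ulx_cmul] at h5
      refine (mul_le_mul_of_nonneg_left h5 (Real.exp_pos _).le).trans (le_of_eq ?_)
      rw [← mul_assoc, ← Real.exp_add, mul_add]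
  have mL := cL.aestronglyMeasurable (μ := μ)
  have i1 := (h.pk_int' (D.G_int hu hu) ht x).1
  have i2 := (h.pk_int (mL.pow 2) (ulx_sq bL) ht x).1
  have i3 : Integrable (fun y => D.p t x y * (2 * s / n * D.Lk (s + t) f y ^ 2)) μ :=
    (h.pk_int ((mL.pow 2).const_mul (2 * s / n)) (Bdd.smul _ (ulx_sq bL)) ht x).1
  have a1 := h.pk_mono ht (x := x) ((i1.add i3).congr (ae_of_all _ fun y => (mul_add _ _ _).symm))
    (h.pk_int (mK'.const_mul _) (Bdd.smul (Real.exp (2 * κ * (s + t))) bK') ht x).1 hle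
  rw [ulx_add D i1 i3, ulx_cmul, ulx_cmul, eK] at a1
  have a2 := h.pk_sq mL ht i2
  rw [← (h.pk_semi hf.1 bf ht hst x).2.1, show t + (s + t) = s + 2 * t by ring] at a2
  have a3 := h.lp_pt hu bu ht x
  have a4 : 1 ≤ Real.exp (2 * κ * t) := Real.one_le_exp (by have := h.κ_nonneg; positivity)
  have a5 : 0 ≤ 2 * s / n := by positivity
  have a6 := mul_le_mul_of_nonneg_left a2 a5
  have a7 := mul_le_mul_of_nonneg_left a1 (Real.exp_pos (2 * κ * t)).le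
  rw [← mul_assoc, ← Real.exp_add, show 2 * κ * t + 2 * κ * (s + t) = 2 * κ * (s + 2 * t) by ring,
    mul_add] at a7
  have a8 := le_mul_of_one_le_left ((mul_nonneg a5 (sq_nonneg _)).trans a6) a4
  linarith

theorem dq_sq {f : X → ℝ} (hm : AEStronglyMeasurable f μ) {M : ℝ} (hM : ∀ a, |f a| ≤ M)
    {τ δ : ℝ} (hτ : 0 < τ) (hδ : 0 < δ) (hκ : κ * (τ + δ) ≤ 1) (x : X) :
    ((D.Pk (τ + δ) f x - D.Pk τ f x) / δ) ^ 2 ≤
      D.Lk τ f x ^ 2 + 100 * (n : ℝ) ^ 2 * M ^ 2 * δ / τ ^ 3 := by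
  have hM0 : 0 ≤ M := (abs_nonneg _).trans (hM x)
  have hk := h.κ_nonneg
  have bf : Bdd μ f := ⟨M, ae_of_all _ hM⟩
  obtain ⟨ξ, ⟨x1, x2⟩, hξ⟩ := exists_hasDerivAt_eq_slope (fun s => D.Pk s f x)
    (fun s => D.Lk s f x) (show τ < τ + δ by linarith)
    (fun s hs => (h.pk_hasDerivAt hm bf (hτ.trans_le hs.1) x).continuousAt.continuousWithinAt)
    fun s hs => h.pk_hasDerivAt hm bf (hτ.trans hs.1) x
  rw [add_sub_cancel_left] at hξ
  rw [← hξ]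
  have e3 : ∀ a, a ≤ τ + δ → Real.exp (κ * a) ≤ 3 := fun a ha =>
    (Real.exp_le_exp.2 ((mul_le_mul_of_nonneg_left ha hk).trans hκ)).trans
      (Real.exp_one_lt_d9.le.trans (by norm_num))
  have b1 : ∀ a, τ ≤ a → a ≤ τ + δ → |D.Lk a f x| ≤ n * 3 * M / τ := by
    intro a h1 h2
    refine ((h.pk_bdd f a M hm (ae_of_all _ hM) (hτ.trans_le h1)).2.2.2.2 x).trans ?_
    have h3 : √(n : ℝ) ≤ n := Real.sqrt_le_iff.2 ⟨Nat.cast_nonneg n, by
      exact_mod_cast Nat.le_self_pow two_ne_zero n⟩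
    have h4 := e3 a h2
    gcongr
  have h2 : 0 < τ / 2 := by linarith
  obtain ⟨-, -, -, cL, bL⟩ := h.pk_bdd f (τ / 2) M hm (ae_of_all _ hM) h2
  have b2 := h.hpb_lip cL.aestronglyMeasurable (ae_of_all _ bL) x (c := τ / 2) (d := τ / 2 + δ)
    (a := τ / 2) (b := ξ - τ / 2) h2 ⟨le_rfl, by linarith⟩ ⟨by linarith, by linarith⟩
  rw [← (h.pk_semi hm bf h2 h2 x).2.1, ← (h.pk_semi hm bf (by linarith) h2 x).2.1, add_halves,
    sub_add_cancel] at b2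
  have b3 : |D.Lk ξ f x - D.Lk τ f x| ≤ 12 * n * M * δ / τ ^ 2 := by
    refine b2.trans ?_
    have h5 : |ξ - τ / 2 - τ / 2| ≤ δ := abs_le.2 ⟨by linarith, by linarith⟩
    have h6 := e3 (τ + δ) le_rfl
    have h7 : √(n : ℝ) * Real.exp (κ * (τ / 2 + δ)) / (τ / 2) *
        (√n * Real.exp (κ * (τ / 2)) * M / (τ / 2)) =
        4 * (√n * √n) * (Real.exp (κ * (τ / 2 + δ)) * Real.exp (κ * (τ / 2))) * M / τ ^ 2 := by
      field_simp
      ring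
    rw [h7, Real.mul_self_sqrt (Nat.cast_nonneg n), ← Real.exp_add,
      show κ * (τ / 2 + δ) + κ * (τ / 2) = κ * (τ + δ) by ring,
      show 12 * n * M * δ / τ ^ 2 = 4 * n * 3 * M / τ ^ 2 * δ by ring]
    gcongr
  have b4 : |D.Lk ξ f x + D.Lk τ f x| ≤ 6 * n * M / τ := by
    refine (abs_add_le _ _).trans ((add_le_add (b1 ξ x1.le x2.le)
      (b1 τ le_rfl (by linarith))).trans (le_of_eq (by ring)))
  have b5 := mul_le_mul b3 b4 (abs_nonneg _) (by positivity)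
  rw [← abs_mul] at b5
  have b6 : 12 * n * M * δ / τ ^ 2 * (6 * n * M / τ) = 72 * ((n : ℝ) ^ 2 * M ^ 2 * δ / τ ^ 3) := by
    field_simp
    ring
  have b7 : 0 ≤ (n : ℝ) ^ 2 * M ^ 2 * δ / τ ^ 3 := by positivity
  have b8 : 100 * (n : ℝ) ^ 2 * M ^ 2 * δ / τ ^ 3 = 100 * ((n : ℝ) ^ 2 * M ^ 2 * δ / τ ^ 3) := by
    ring
  rw [b6] at b5
  rw [b8]
  nlinarith [le_abs_self ((D.Lk ξ f x - D.Lk τ f x) * (D.Lk ξ f x + D.Lk τ f x))]

theorem ul_be : ∃ C : ℝ, ∀ (f : X → ℝ) (M r s t δ : ℝ) (x : X), MemLp f 2 μ → (∀ a, |f a| ≤ M) →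
    0 < r → 0 ≤ s → 0 < t → 0 < δ → κ * (r ^ 2 * (s + 2 * t + δ)) ≤ 1 →
    kG μ (D.ps r) t (kT μ (D.ps r) (s + t) f) (kT μ (D.ps r) (s + t) f) x +
      2 * s / n * ((kT μ (D.ps r) (s + 2 * t + δ) f x - kT μ (D.ps r) (s + 2 * t) f x) / δ) ^ 2 ≤
      Real.exp (2 * κ * (r ^ 2 * (s + 2 * t))) * kT μ (D.ps r) (s + t) (kG μ (D.ps r) t f f) x +
        C * M ^ 2 * δ / (s + 2 * t) ^ 2 := by
  refine ⟨200 * n, fun f M r s t δ x hf hM hr hs ht hδ hκ => ?_⟩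
  have hn : (0 : ℝ) < n := by exact_mod_cast h.n_pos
  have hr2 : 0 < r ^ 2 := pow_pos hr 2
  have a1 := h.be_pt hf ⟨M, ae_of_all _ hM⟩ (mul_nonneg hr2.le hs) (mul_pos hr2 ht) x
  have a2 := h.dq_sq hf.1 hM (τ := r ^ 2 * (s + 2 * t)) (δ := r ^ 2 * δ) (by positivity)
    (by positivity) (by rwa [← mul_add]) x
  rw [← mul_add, show r ^ 2 * s + 2 * (r ^ 2 * t) = r ^ 2 * (s + 2 * t) by ring] at a1
  rw [← mul_add] at a2
  rw [ulx_ps D hr ht, funext (ulx_ps D hr ht f)]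
  change r ^ 2 * kG μ D.p (r ^ 2 * t) (D.Pk (r ^ 2 * (s + t)) f) (D.Pk (r ^ 2 * (s + t)) f) x +
    2 * s / n * ((D.Pk (r ^ 2 * (s + 2 * t + δ)) f x - D.Pk (r ^ 2 * (s + 2 * t)) f x) / δ) ^ 2 ≤
    _ * D.Pk (r ^ 2 * (s + t)) _ x + _
  rw [ulx_cmul]
  have a3 := mul_le_mul_of_nonneg_left a1 hr2.le
  have a4 := mul_le_mul_of_nonneg_left a2
    (show 0 ≤ r ^ 2 * (2 * (r ^ 2 * s) / n) by positivity)
  have e1 : r ^ 2 * (2 * (r ^ 2 * s) / n) * ((D.Pk (r ^ 2 * (s + 2 * t + δ)) f x -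
      D.Pk (r ^ 2 * (s + 2 * t)) f x) / (r ^ 2 * δ)) ^ 2 = 2 * s / n *
      ((D.Pk (r ^ 2 * (s + 2 * t + δ)) f x - D.Pk (r ^ 2 * (s + 2 * t)) f x) / δ) ^ 2 := by
    field_simp
  have e2 : r ^ 2 * (2 * (r ^ 2 * s) / n) *
      (100 * (n : ℝ) ^ 2 * M ^ 2 * (r ^ 2 * δ) / (r ^ 2 * (s + 2 * t)) ^ 3) =
      200 * n * M ^ 2 * δ / (s + 2 * t) ^ 2 * (s / (s + 2 * t)) := by
    field_simp
    ring
  have a5 : 200 * n * M ^ 2 * δ / (s + 2 * t) ^ 2 * (s / (s + 2 * t)) ≤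
      200 * n * M ^ 2 * δ / (s + 2 * t) ^ 2 :=
    mul_le_of_le_one_right (by positivity) ((div_le_one (by positivity)).2 (by linarith))
  rw [e1, mul_add (r ^ 2 * (2 * (r ^ 2 * s) / n)), e2] at a4
  linarith

end HP

end RC
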