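import Pool.Agent.P.MP_6472e5_gt.UlP
import Pool.Agent.P.MP_6472e5_gt.UlX

/-! The inequalities in the limit. -/

set_option autoImplicit false
set_option linter.unusedSectionVars false

noncomputable section

namespace RC

open MeasureTheory Set Filter Topology Metric

variable {X : Type} [MetricSpace X] [ProperSpace X] [MeasurableSpace X] [BorelSpace X]
  {μ : Measure X} {D : DS μ} {κ : ℝ} {n : ℕ}
  {Z : Type} [MetricSpace Z] [ProperSpace Z] [MeasurableSpace Z] [BorelSpace Z]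
  {ν : Measure Z} {k : ℝ → Z → Z → ℝ} {U : Ultrafilter ℕ} {y : ℕ → X} {r : ℕ → ℝ}

theorem ula_lim {F : ℝ → ℝ} (hF : Continuous F) {a : ℝ} (h : ∀ η, 0 < η → a ≤ F η) : a ≤ F 0 :=
  ge_of_tendsto ((hF.tendsto 0).mono_left (nhdsWithin_le_nhds (s := Ioi 0)))
    (eventually_nhdsWithin_of_forall h)

theorem ula_zero (B : MB U y r Z) (c t : ℝ) :
    Tendsto (fun i => c * (r i ^ 2 * t)) U (𝓝 0) := by
  simpa using ((B.seq.lim.pow 2).mul_const t).const_mul c

theorem ula_exp (B : MB U y r Z) (c t : ℝ) :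
    Tendsto (fun i => Real.exp (c * (r i ^ 2 * t))) U (𝓝 1) := by
  simpa using (ula_zero B c t).rexp

theorem MB.Ker.hk {B : MB U y r Z} (h : HP D κ n) (hν : B.Conv μ n ν) (hk : B.Ker D n k) :
    HK ν n k := by
  refine ⟨MB.Ker.hk0 h hν hk, hν.pos, B.geodesic h.geo, h.n_pos, hk.unif, ?_, ?_, ?_⟩
  · intro f L M t x hf hM ht
    have key : ∀ η : ℝ, 0 < η → kG ν k t f f x ≤ ((L : ℝ) + η) ^ 2 := by
      intro η hη
      obtain ⟨g, hg, hl⟩ := B.exists_lip_lift (μ := μ) (L := L + ⟨η, hη.le⟩)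
        (add_pos_of_nonneg_of_pos bot_le hη) (hf.weaken le_self_add) hM
      obtain ⟨a, ha⟩ := B.exists_lf x
      have h1 := (ula_exp B (2 * κ) t).mul_const (((L : ℝ) + η) ^ 2)
      rw [one_mul] at h1
      exact le_of_tendsto_of_tendsto' ((MB.Cb.kG h hν hk hg ht).lf ha) h1 fun i =>
        h.ul_var (hl i).1 (by positivity) (B.seq.pos i) (hl i).2 ht (a i)
    simpa using ula_lim (F := fun η => ((L : ℝ) + η) ^ 2) (by fun_prop) key
  · intro f M L t hf hM hL ht hle x w
    obtain ⟨g, hg, hl⟩ := B.exists_lift D hf hM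
    obtain ⟨a, ha⟩ := B.exists_lf x
    obtain ⟨b, hb⟩ := B.exists_lf w
    have hx : x ∈ ball B.e (dist x B.e + dist w B.e + 1) :=
      mem_ball.2 (by linarith [dist_nonneg (x := w) (y := B.e)])
    have hw : w ∈ ball B.e (dist x B.e + dist w B.e + 1) :=
      mem_ball.2 (by linarith [dist_nonneg (x := x) (y := B.e)])
    generalize dist x B.e + dist w B.e + 1 = R at hx hw
    have key : ∀ η : ℝ, 0 < η → |kT ν k t f x - kT ν k t f w| ≤ (L + η) * dist x w := by
      intro η hη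
      have h1 := ((ula_exp B κ t).mul_const (L + η)).mul (ha.dist hb)
      rw [one_mul] at h1
      refine le_of_tendsto_of_tendsto
        ((MB.Cb.kT_lf h hν hk hg ht ha).sub (MB.Cb.kT_lf h hν hk hg ht hb)).abs h1 ?_
      filter_upwards [(MB.Cb.kG h hν hk hg ht).cv (2 * R) (η ^ 2) (by positivity), ha.mem hx,
        hb.mem hw] with i h2 h3 h4
      have e : 2 * R * r i / 2 = R * r i := by ring
      refine h.ul_lip (hl i).1 ⟨M, ae_of_all _ (hl i).2⟩ (by positivity) (B.seq.pos i) ht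
        (x := y i) (R := 2 * R * r i) (fun z hz => ?_) _ (by rwa [e]) _ (by rwa [e])
      have h5 := (abs_le.1 (h2 z hz)).2
      have h6 := hle (B.q i z)
      nlinarith [mul_nonneg hL hη.le]
    simpa using ula_lim (F := fun η => (L + η) * dist x w) (by fun_prop) key
  · obtain ⟨C, hC⟩ := h.ul_be
    refine ⟨C, fun f M s t δ x hf hM hs ht hδ => ?_⟩
    obtain ⟨g, hg, hl⟩ := B.exists_lift D hf hM
    obtain ⟨a, ha⟩ := B.exists_lf x
    have hst : 0 < s + t := by positivity
    have h1 := (MB.Cb.kG h hν hk (MB.Cb.kT h hν hk hg hst) ht).lf ha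
    have h2 := MB.Cb.kT_lf h hν hk hg (show 0 < s + 2 * t + δ by positivity) ha
    have h3 := MB.Cb.kT_lf h hν hk hg (show 0 < s + 2 * t by positivity) ha
    have h4 := ((ula_exp B (2 * κ) (s + 2 * t)).mul
      (MB.Cb.kT_lf h hν hk (MB.Cb.kG h hν hk hg ht) hst ha)).add_const
      (C * M ^ 2 * δ / (s + 2 * t) ^ 2)
    rw [one_mul] at h4
    refine le_of_tendsto_of_tendsto
      (h1.add ((((h2.sub h3).div_const δ).pow 2).const_mul (2 * s / n))) h4 ?_
    filter_upwards [(ula_zero B κ (s + 2 * t + δ)).eventually (ge_mem_nhds one_pos)] with i hi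
    exact hC (g i) M (r i) s t δ (a i) (hl i).1 (hl i).2 (B.seq.pos i) hs ht hδ hi

end RC
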