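import Pool.Agent.P.MP_6472e5_gt.UlL
import Pool.Agent.P.MP_6472e5_gt.HpA

/-! The limit kernel. -/

set_option autoImplicit false
set_option linter.unusedSectionVars false

noncomputable section

namespace RC

open MeasureTheory Set Filter Topology Metric

variable {X : Type} [MetricSpace X] [ProperSpace X] [MeasurableSpace X] [BorelSpace X]
  {μ : Measure X} {D : DS μ} {κ : ℝ} {n : ℕ}
  {Z : Type} [MetricSpace Z] [ProperSpace Z] [MeasurableSpace Z] [BorelSpace Z]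
  {ν : Measure Z} {k : ℝ → Z → Z → ℝ} {U : Ultrafilter ℕ} {y : ℕ → X} {r : ℕ → ℝ}

theorem ulk_pt (h : HP D κ n) (h0 : N0 D n) (x : X) (S : ℝ) : ∃ C r₀ : ℝ, 0 < C ∧ 0 < r₀ ∧
    ∀ ρ s, 0 < ρ → 0 < s → ρ * s ≤ r₀ → ∀ a ∈ ball x S,
      C⁻¹ ≤ s ^ n * (ρ ^ n * D.p (ρ ^ 2 * s ^ 2) a a) ∧
      ∀ b, s ^ n * (ρ ^ n * D.p (ρ ^ 2 * s ^ 2) a b) ≤ C ∧
        |ρ ^ n * (D.dp (ρ ^ 2 * s ^ 2) a b * ρ ^ 2)| ≤ C / s ^ (n + 2) ∧
        ∀ b', |ρ ^ n * D.p (ρ ^ 2 * s ^ 2) a b - ρ ^ n * D.p (ρ ^ 2 * s ^ 2) a b'| ≤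
          C / s ^ (n + 1) * (dist b b' / ρ) := by
  obtain ⟨C, r₀, hC, hr₀, hk⟩ := h.ker_bds h0 x S
  refine ⟨C, r₀, hC, hr₀, fun ρ s hρ hs hle a ha => ?_⟩
  have hk' := hk a ha (ρ * s) (mul_pos hρ hs) hle
  simp only [mul_pow] at hk'
  have hexp : ∀ u : ℝ, 0 ≤ u → Real.exp (-u) ≤ 1 := fun u hu =>
    Real.exp_le_one_iff.mpr (neg_nonpos.mpr hu)
  refine ⟨?_, fun b => ⟨?_, ?_, fun b' => ?_⟩⟩
  · have h1 := (hk' a).1
    simp only [dist_self, ne_eq, OfNat.ofNat_ne_zero, not_false_eq_true, zero_pow, mul_zero,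
      zero_div, neg_zero, Real.exp_zero, mul_one] at h1
    linarith
  · have h1 := (hk' b).2.1.trans (mul_le_of_le_one_right hC.le (hexp _ (by positivity)))
    linarith
  · have h1 := (hk' b).2.2.1.trans
      (mul_le_of_le_one_right (by positivity) (hexp _ (by positivity)))
    rw [le_div_iff₀ (by positivity)] at h1 ⊢
    rw [abs_mul, abs_mul, abs_of_pos (pow_pos hρ n), abs_of_pos (pow_pos hρ 2), pow_add]
    linarith
  · have h1 := ((hk' b).2.2.2 b').trans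
      (mul_le_of_le_one_right (by positivity) (hexp _ (by positivity)))
    rw [← mul_sub, abs_mul, abs_of_pos (pow_pos hρ n)]
    have h2 : C / s ^ (n + 1) * (dist b b' / ρ) = C * (dist b b' / (ρ * s)) / s ^ n := by
      field_simp
      ring
    rw [h2, le_div_iff₀ (by positivity)]
    linarith

theorem ulk_est (h : HP D κ n) (h0 : N0 D n) (x : X) (S : ℝ) : ∃ C r₀ : ℝ, 0 < C ∧ 0 < r₀ ∧
    (∀ ρ s, 0 < ρ → 0 < s → ρ * s ≤ r₀ → ∀ a ∈ ball x S,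
      C⁻¹ ≤ s ^ n * (ρ ^ n * D.p (ρ ^ 2 * s ^ 2) a a) ∧
      ∀ b, s ^ n * (ρ ^ n * D.p (ρ ^ 2 * s ^ 2) a b) ≤ C) ∧
    ∀ T, 0 < T → ∃ K, 0 < K ∧ ∀ ρ, 0 < ρ → ρ * √(2 * T) ≤ r₀ →
      ∀ s ∈ Icc (T / 2) (2 * T), ∀ t ∈ Icc (T / 2) (2 * T), ∀ a ∈ ball x S, ∀ b,
      ∀ a', ∀ b' ∈ ball x S, |ρ ^ n * D.p (ρ ^ 2 * s) a b - ρ ^ n * D.p (ρ ^ 2 * t) a' b'| ≤
        K * (|s - t| + dist a a' / ρ + dist b b' / ρ) := by
  obtain ⟨C, r₀, hC, hr₀, hk⟩ := ulk_pt h h0 x S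
  refine ⟨C, r₀, hC, hr₀, fun ρ s hρ hs hle a ha => ⟨(hk ρ s hρ hs hle a ha).1,
    fun b => ((hk ρ s hρ hs hle a ha).2 b).1⟩, fun T hT => ?_⟩
  have hq : 0 < √(T / 2) := Real.sqrt_pos.mpr (by positivity)
  have hK1 : 0 < C / √(T / 2) ^ (n + 2) := by positivity
  have hK2 : 0 < C / √(T / 2) ^ (n + 1) := by positivity
  refine ⟨C / √(T / 2) ^ (n + 2) + C / √(T / 2) ^ (n + 1), by positivity,
    fun ρ hρ hle s hs t ht a ha b a' b' hb' => ?_⟩
  have key : ∀ u ∈ Icc (T / 2) (2 * T), ∀ a ∈ ball x S, ∀ b,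
      |ρ ^ n * (D.dp (ρ ^ 2 * u) a b * ρ ^ 2)| ≤ C / √(T / 2) ^ (n + 2) ∧
      ∀ b', |ρ ^ n * D.p (ρ ^ 2 * u) a b - ρ ^ n * D.p (ρ ^ 2 * u) a b'| ≤
        C / √(T / 2) ^ (n + 1) * (dist b b' / ρ) := by
    intro u hu a ha b
    have hu0 : 0 < u := lt_of_lt_of_le (by positivity) hu.1
    have h1 := (hk ρ √u hρ (Real.sqrt_pos.mpr hu0)
      ((mul_le_mul_of_nonneg_left (Real.sqrt_le_sqrt hu.2) hρ.le).trans hle) a ha).2 b
    rw [Real.sq_sqrt hu0.le] at h1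
    have h2 : ∀ j : ℕ, C / √u ^ j ≤ C / √(T / 2) ^ j := fun j =>
      div_le_div_of_nonneg_left hC.le (by positivity)
        (pow_le_pow_left₀ hq.le (Real.sqrt_le_sqrt hu.1) j)
    exact ⟨h1.2.1.trans (h2 _), fun b' => (h1.2.2 b').trans
      (mul_le_mul_of_nonneg_right (h2 _) (by positivity))⟩
  have hpos : ∀ u ∈ Icc (T / 2) (2 * T), 0 < ρ ^ 2 * u := fun u hu =>
    mul_pos (pow_pos hρ 2) (lt_of_lt_of_le (by positivity) hu.1)
  have e1 := Convex.norm_image_sub_le_of_norm_hasDerivWithin_le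
    (f := fun u => ρ ^ n * D.p (ρ ^ 2 * u) a b)
    (f' := fun u => ρ ^ n * (D.dp (ρ ^ 2 * u) a b * ρ ^ 2)) (C := C / √(T / 2) ^ (n + 2))
    (fun u hu => by
      have d1 : HasDerivAt (fun u : ℝ => ρ ^ 2 * u) (ρ ^ 2) u := by
        simpa using (hasDerivAt_id u).const_mul (ρ ^ 2)
      exact (((h.der _ a b (hpos u hu)).comp u d1).const_mul (ρ ^ n)).hasDerivWithinAt)
    (fun u hu => (key u hu a ha b).1) (convex_Icc _ _) ht hs
  rw [Real.norm_eq_abs, Real.norm_eq_abs] at e1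
  have e2 := (key t ht a ha b).2 b'
  have e3 := (key t ht b' hb' a).2 a'
  rw [h.p_symm _ b' a (hpos t ht), h.p_symm _ b' a' (hpos t ht)] at e3
  have n1 := abs_nonneg (s - t)
  have n2 : 0 ≤ dist a a' / ρ := by positivity
  have n3 : 0 ≤ dist b b' / ρ := by positivity
  have e4 := abs_sub_le (ρ ^ n * D.p (ρ ^ 2 * s) a b) (ρ ^ n * D.p (ρ ^ 2 * t) a b)
    (ρ ^ n * D.p (ρ ^ 2 * t) a' b')
  have e5 := abs_sub_le (ρ ^ n * D.p (ρ ^ 2 * t) a b) (ρ ^ n * D.p (ρ ^ 2 * t) a b')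
    (ρ ^ n * D.p (ρ ^ 2 * t) a' b')
  nlinarith [mul_nonneg hK1.le n2, mul_nonneg hK1.le n3, mul_nonneg hK2.le n1]

theorem MB.exists_ker (B : MB U y r Z) (h : HP D κ n) (h0 : N0 D n) : ∃ k, B.Ker D n k := by
  obtain ⟨x, S, hloc⟩ := B.loc
  obtain ⟨C, r₀, hC, hr₀, hb, hl⟩ := ulk_est h h0 x S
  have hr := B.seq.pos
  have hin : ∀ {a z}, B.Lf a z → ∀ᶠ i in (U : Filter ℕ), a i ∈ ball x S := fun ha => by
    obtain ⟨R, hR⟩ := ha.1
    filter_upwards [hR, hloc R] with i h1 h2 using h2 h1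
  have hsm : ∀ c : ℝ, 0 < c → ∀ᶠ i in (U : Filter ℕ), r i * c ≤ r₀ := fun c hc => by
    filter_upwards [B.small (div_pos hr₀ hc)] with i hi using (le_div_iff₀ hc).mp hi
  have hmid : ∀ T : ℝ, 0 < T → T ∈ Icc (T / 2) (2 * T) := fun T hT => ⟨by linarith, by linarith⟩
  have hup : ∀ t : ℝ, 0 < t → ∀ᶠ i in (U : Filter ℕ), ∀ a ∈ ball x S, ∀ b,
      r i ^ n * D.p (r i ^ 2 * t) a b ≤ C / √t ^ n := fun t ht => by
    have hq : 0 < √t := Real.sqrt_pos.mpr ht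
    filter_upwards [hsm _ hq] with i hi a ha b
    have h1 := (hb (r i) √t (hr i) hq hi a ha).2 b
    rw [Real.sq_sqrt ht.le] at h1
    rw [le_div_iff₀ (by positivity)]
    linarith
  have hnn : ∀ t : ℝ, 0 < t → ∀ i a b, 0 ≤ r i ^ n * D.p (r i ^ 2 * t) a b := fun t ht i a b =>
    mul_nonneg (pow_pos (hr i) n).le (h.p_pos _ a b (mul_pos (pow_pos (hr i) 2) ht)).le
  choose α hα using B.exists_lf
  have hex : ∀ (t : ℝ) (z w : Z), ∃ l, 0 < t →
      Tendsto (fun i => r i ^ n * D.p (r i ^ 2 * t) (α z i) (α w i)) U (𝓝 l) := fun t z w => by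
    by_cases ht : 0 < t
    · obtain ⟨l, -, hl⟩ := (isCompact_Icc (a := (0 : ℝ)) (b := C / √t ^ n)).ultrafilter_le_nhds
        (U.map fun i => r i ^ n * D.p (r i ^ 2 * t) (α z i) (α w i)) (by
          refine le_principal_iff.mpr (mem_map.mpr ?_)
          filter_upwards [hup t ht, hin (hα z)] with i h1 h2 using ⟨hnn t ht i _ _, h1 _ h2 _⟩)
      exact ⟨l, fun _ => hl⟩
    · exact ⟨0, fun h1 => absurd h1 ht⟩
  choose k hk using hex
  have hlim : ∀ t a b z w, 0 < t → B.Lf a z → B.Lf b w →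
      Tendsto (fun i => r i ^ n * D.p (r i ^ 2 * t) (a i) (b i)) U (𝓝 (k t z w)) := by
    intro t a b z w ht ha hb'
    obtain ⟨K, -, hK⟩ := hl t ht
    refine (hk t z w ht).congr_dist ?_
    have h1 := ((((hα z).dist ha).const_add |t - t|).add ((hα w).dist hb')).const_mul K
    simp only [dist_self, sub_self, abs_zero, add_zero, mul_zero] at h1
    refine squeeze_zero' (Eventually.of_forall fun i => dist_nonneg) ?_ h1
    filter_upwards [hsm _ (Real.sqrt_pos.mpr (mul_pos two_pos ht)), hin (hα z), hin hb']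
      with i h2 h3 h4
    have h5 := hK (r i) (hr i) h2 t (hmid t ht) t (hmid t ht) _ h3 (α w i) (a i) _ h4
    rwa [sub_self, abs_zero] at h5
  have hlip : ∀ T, 0 < T → ∃ K, 0 < K ∧ ∀ s ∈ Icc (T / 2) (2 * T), ∀ t ∈ Icc (T / 2) (2 * T),
      ∀ z w z' w', |k s z w - k t z' w'| ≤ K * (|s - t| + dist z z' + dist w w') := by
    intro T hT
    obtain ⟨K, hK0, hK⟩ := hl T hT
    refine ⟨K, hK0, fun s hs t ht z w z' w' => ?_⟩
    have hs0 : 0 < s := lt_of_lt_of_le (by positivity) hs.1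
    have ht0 : 0 < t := lt_of_lt_of_le (by positivity) ht.1
    refine le_of_tendsto_of_tendsto ((hk s z w hs0).sub (hk t z' w' ht0)).abs
      (((((hα z).dist (hα z')).const_add |s - t|).add ((hα w).dist (hα w'))).const_mul K) ?_
    filter_upwards [hsm _ (Real.sqrt_pos.mpr (mul_pos two_pos hT)), hin (hα z), hin (hα w')]
      with i h2 h3 h4
    exact hK (r i) (hr i) h2 s hs t ht _ h3 _ _ _ h4
  have hnb : ∀ T : ℝ, 0 < T → Icc (T / 2) (2 * T) ∈ 𝓝 T := fun T hT =>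
    Icc_mem_nhds (by linarith) (by linarith)
  have hcont : ∀ p : ℝ × Z × Z, 0 < p.1 →
      ContinuousAt (fun a : ℝ × Z × Z => k a.1 a.2.1 a.2.2) p := fun p hp => by
    obtain ⟨K, -, hK⟩ := hlip p.1 hp
    refine tendsto_iff_dist_tendsto_zero.mpr ?_
    have hc : Continuous fun a : ℝ × Z × Z =>
        K * (|a.1 - p.1| + dist a.2.1 p.2.1 + dist a.2.2 p.2.2) := by fun_prop
    have h1 := hc.tendsto p
    simp only [dist_self, sub_self, abs_zero, add_zero, mul_zero] at h1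
    refine squeeze_zero' (Eventually.of_forall fun i => dist_nonneg) ?_ h1
    filter_upwards [continuous_fst.continuousAt.preimage_mem_nhds (hnb p.1 hp)] with a ha
    exact hK _ ha _ (hmid _ hp) _ _ _ _
  refine ⟨k, hlim, fun t R ε ht hε => ?_, fun t R ht => ⟨C / √t ^ n, ?_⟩,
    fun p hp => (hcont p hp.1).continuousWithinAt,
    fun t z w ht => ge_of_tendsto' (hk t z w ht) fun i => hnn t ht i _ _, fun t z w ht => ?_,
    fun t ht => ⟨C / √t ^ n, fun z w => ?_⟩, fun t ε ht hε => ?_, C⁻¹, C, inv_pos.mpr hC,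
    fun z s hs => ?_⟩
  · refine B.unif₂ (p := fun i a b =>
      |r i ^ n * D.p (r i ^ 2 * t) a b - k t (B.q i a) (B.q i b)| ≤ ε) (fun a b z w ha hb' => ?_) R
    have h1 := (hcont (t, z, w) ht).tendsto.comp
      (tendsto_const_nhds.prodMk_nhds (ha.2.prodMk_nhds hb'.2))
    have h2 := ((hlim t a b z w ht ha hb').sub h1).abs
    rw [sub_self, abs_zero] at h2
    exact h2.eventually (ge_mem_nhds hε)
  · filter_upwards [hup t ht, hloc R] with i h1 h2 a ha b using h1 a (h2 ha) b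
  · refine tendsto_nhds_unique (hk t z w ht) ((hk t w z ht).congr fun i => ?_)
    rw [h.p_symm _ _ _ (mul_pos (pow_pos (hr i) 2) ht)]
  · refine le_of_tendsto (hk t z w ht) ?_
    filter_upwards [hup t ht, hin (hα z)] with i h1 h2 using h1 _ h2 _
  · obtain ⟨K, hK0, hK⟩ := hlip t ht
    filter_upwards [hnb t ht, ball_mem_nhds t (div_pos hε hK0)] with s h1 h2 z w
    have h3 := hK s h1 t (hmid t ht) z w z w
    rw [dist_self, dist_self, add_zero, add_zero] at h3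
    rw [mem_ball, Real.dist_eq, lt_div_iff₀ hK0] at h2
    linarith
  · have h1 := (hk (s ^ 2) z z (pow_pos hs 2)).const_mul (s ^ n)
    have h2 : ∀ᶠ i in (U : Filter ℕ),
        C⁻¹ ≤ s ^ n * (r i ^ n * D.p (r i ^ 2 * s ^ 2) (α z i) (α z i)) ∧
        s ^ n * (r i ^ n * D.p (r i ^ 2 * s ^ 2) (α z i) (α z i)) ≤ C := by
      filter_upwards [hsm s hs, hin (hα z)] with i h3 h4
      exact ⟨(hb (r i) s (hr i) hs h3 _ h4).1, (hb (r i) s (hr i) hs h3 _ h4).2 _⟩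
    exact ⟨ge_of_tendsto h1 (h2.mono fun i hi => hi.1), le_of_tendsto h1 (h2.mono fun i hi => hi.2)⟩

end RC
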