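import Pool.Agent.P.MP_6472e5_gt.UlL
import Pool.Agent.P.MP_6472e5_gt.HpA

/-! The limit measure. -/

set_option autoImplicit false
set_option linter.unusedSectionVars false

noncomputable section

namespace RC

open MeasureTheory Set Filter Topology Metric

variable {X : Type} [MetricSpace X] [ProperSpace X] [MeasurableSpace X] [BorelSpace X]
  {μ : Measure X} {D : DS μ} {κ : ℝ} {n : ℕ}
  {Z : Type} [MetricSpace Z] [ProperSpace Z] [MeasurableSpace Z] [BorelSpace Z]
  {ν : Measure Z} {k : ℝ → Z → Z → ℝ} {U : Ultrafilter ℕ} {y : ℕ → X} {r : ℕ → ℝ}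

theorem MB.ulm_vol (B : MB U y r Z) (h : HP D κ n) (h0 : N0 D n) : ∃ c C, 0 < c ∧ 0 < C ∧
    ∀ R s, 0 < s → ∀ᶠ i in (U : Filter ℕ), ∀ a ∈ ball (y i) (R * r i),
      c * (s * r i) ^ n ≤ μ.real (ball a (s * r i)) ∧
        μ.real (ball a (s * r i)) ≤ C * (s * r i) ^ n := by
  obtain ⟨x, S, hS⟩ := B.loc
  obtain ⟨c, C, r₀, hc, hC, hr, hv⟩ := h.vol_bds h0 x S
  refine ⟨c, C, hc, hC, fun R s hs => ?_⟩
  filter_upwards [hS R, B.small (div_pos hr hs)] with i h1 h2 a ha
  exact hv a (h1 ha) _ (mul_pos hs (B.seq.pos i)) ((le_div_iff₀' hs).1 h2)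

theorem ulm_est (D : DS μ) {x : X} {ρ R C ε : ℝ} (hρ : 0 < ρ) (hε : 0 ≤ ε)
    (hv : μ.real (ball x (R * ρ)) ≤ C * (R * ρ) ^ n) {G : X → ℝ} (h1 : ∀ a, |G a| ≤ ε)
    (h2 : ∀ a, a ∉ ball x (R * ρ) → G a = 0) : |(ρ ^ n)⁻¹ * ∫ a, G a ∂μ| ≤ ε * (C * R ^ n) := by
  have h3 := norm_setIntegral_le_of_norm_le_const (f := G) (D.fin x (R * ρ)) fun a _ => h1 a
  rw [setIntegral_eq_integral_of_forall_compl_eq_zero h2] at h3
  rw [abs_mul, abs_of_pos (by positivity), inv_mul_le_iff₀ (by positivity)]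
  refine (h3.trans (mul_le_mul_of_nonneg_left hv hε)).trans_eq ?_
  ring

theorem MB.ulm_out (B : MB U y r Z) {N : ℕ → ℝ} (h1 : Tendsto N U atTop)
    (h2 : ∀ᶠ i in (U : Filter ℕ), GHApprox (y i) (r i) B.e (N i) (N i)⁻¹ (B.q i)) {R R' : ℝ}
    (hR : R' < R) : ∀ᶠ i in (U : Filter ℕ), ∀ a ∈ ball (y i) (N i * r i),
      a ∉ ball (y i) (R * r i) → B.q i a ∉ ball B.e R' := by
  filter_upwards [h2, (tendsto_inv_atTop_zero.comp h1).eventually (ge_mem_nhds (sub_pos.2 hR))]
    with i a1 a2 a ha hb hc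
  have a3 := (le_div_iff₀ (B.seq.pos i)).2 (not_lt.1 hb)
  have a4 : (N i)⁻¹ ≤ R - R' := a2
  linarith [(abs_le.1 (a1.dist_base ha)).1, mem_ball.1 hc]

theorem ulm_bound {f : Z → ℝ} (hf : Continuous f) {e : Z} {R : ℝ}
    (h0 : ∀ z, z ∉ ball e R → f z = 0) : HasCompactSupport f ∧ ∃ M, 0 ≤ M ∧ ∀ z, |f z| ≤ M := by
  have h1 : HasCompactSupport f := HasCompactSupport.intro (isCompact_closedBall e R)
    fun z hz => h0 z fun h => hz (ball_subset_closedBall h)
  obtain ⟨M, hM⟩ := hf.bounded_above_of_compact_support h1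
  exact ⟨h1, M, (norm_nonneg _).trans (hM e), hM⟩

theorem MB.ulm_int (B : MB U y r Z) (D : DS μ) {f : Z → ℝ} (hf : Continuous f) {M : ℝ}
    (hM : ∀ z, |f z| ≤ M) (i : ℕ) (ρ : ℝ) :
    Integrable ((ball (y i) ρ).indicator fun a => f (B.q i a)) μ :=
  (integrable_indicator_iff measurableSet_ball).2 (Measure.integrableOn_of_bounded (D.fin _ _).ne
    (hf.measurable.comp (B.meas i)).aestronglyMeasurable (Eventually.of_forall fun _ => hM _))

open CompactlySupported in
theorem MB.ulm_riesz (B : MB U y r Z) (h : HP D κ n) (h0 : N0 D n) {N : ℕ → ℝ}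
    (h1 : Tendsto N U atTop)
    (h2 : ∀ᶠ i in (U : Filter ℕ), GHApprox (y i) (r i) B.e (N i) (N i)⁻¹ (B.q i)) :
    ∃ ν : Measure Z, IsFiniteMeasureOnCompacts ν ∧ ∀ (f : Z → ℝ) R, Continuous f →
      (∀ z, z ∉ ball B.e R → f z = 0) → Tendsto (fun i => (r i ^ n)⁻¹ *
        ∫ a, (ball (y i) (N i * r i)).indicator (fun a => f (B.q i a)) a ∂μ) U
        (𝓝 (∫ z, f z ∂ν)) := by
  obtain ⟨c, C, -, -, hv⟩ := B.ulm_vol h h0
  have hb : ∀ f : C_c(Z, ℝ), ∃ M, 0 ≤ M ∧ ∀ z, |f z| ≤ M := fun f => by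
    obtain ⟨M, hM⟩ := f.continuous.bounded_above_of_compact_support f.hasCompactSupport
    exact ⟨M, (norm_nonneg _).trans (hM B.e), hM⟩
  have hi : ∀ (f : C_c(Z, ℝ)) i, Integrable
      ((ball (y i) (N i * r i)).indicator fun a => f (B.q i a)) μ := fun f i =>
    B.ulm_int D (map_continuous f) (hb f).choose_spec.2 i _
  have hl : ∀ f : C_c(Z, ℝ), ∃ l, Tendsto (fun i => (r i ^ n)⁻¹ *
      ∫ a, (ball (y i) (N i * r i)).indicator (fun a => f (B.q i a)) a ∂μ) U (𝓝 l) := by
    intro f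
    obtain ⟨M, hM0, hM⟩ := hb f
    obtain ⟨R, hR, hs⟩ := f.hasCompactSupport.isBounded.subset_ball_lt 0 B.e
    obtain ⟨l, -, hl⟩ := (isCompact_Icc (a := -(M * (C * (R + 1) ^ n)))
      (b := M * (C * (R + 1) ^ n))).ultrafilter_le_nhds (U.map fun i => (r i ^ n)⁻¹ *
      ∫ a, (ball (y i) (N i * r i)).indicator (fun a => f (B.q i a)) a ∂μ) (by
        rw [le_principal_iff, Ultrafilter.coe_map, mem_map]
        filter_upwards [hv 1 (R + 1) (by linarith), B.ulm_out h1 h2 (lt_add_one R)] with i a1 a2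
        have hr := B.seq.pos i
        refine abs_le.1 (ulm_est D hr hM0 (a1 _ (mem_ball_self (by linarith))).2
          (fun a => ?_) fun a ha => ?_)
        · by_cases hc : a ∈ ball (y i) (N i * r i)
          · rw [indicator_of_mem hc]
            exact hM _
          · rwa [indicator_of_notMem hc, abs_zero]
        · exact indicator_apply_eq_zero.2 fun hc =>
            image_eq_zero_of_notMem_tsupport fun h3 => a2 a hc ha (hs h3))
    exact ⟨l, hl⟩
  choose Λ hΛ using hl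
  let L : C_c(Z, ℝ) →ₗ[ℝ] ℝ :=
    { toFun := Λ
      map_add' := fun f g => tendsto_nhds_unique (hΛ _) (((hΛ f).add (hΛ g)).congr fun i => by
        rw [← mul_add, ← integral_add (hi f i) (hi g i)]
        congr 2
        exact (indicator_add _ _ _).symm)
      map_smul' := fun c f => tendsto_nhds_unique (hΛ _) (((hΛ f).const_mul c).congr fun i => by
        rw [mul_left_comm, ← integral_const_mul]
        simp only [← indicator_const_mul]
        rfl) }
  have hp : ∀ f, 0 ≤ f → 0 ≤ L f := fun f hf => ge_of_tendsto' (hΛ f) fun i =>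
    mul_nonneg (inv_nonneg.2 (pow_pos (B.seq.pos i) n).le)
      (integral_nonneg (indicator_nonneg fun a _ => hf _))
  refine ⟨RealRMK.rieszMeasure (PositiveLinearMap.mk₀ L hp), inferInstance, fun f R hf hR => ?_⟩
  have := RealRMK.integral_rieszMeasure (PositiveLinearMap.mk₀ L hp)
    ⟨⟨f, hf⟩, (ulm_bound hf hR).1⟩
  exact this ▸ hΛ ⟨⟨f, hf⟩, (ulm_bound hf hR).1⟩

theorem MB.exists_conv (B : MB U y r Z) (h : HP D κ n) (h0 : N0 D n) : ∃ ν, B.Conv μ n ν := by
  obtain ⟨N, h1, h2⟩ := B.exists_N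
  obtain ⟨ν, hν, H⟩ := B.ulm_riesz h h0 h1 h2
  obtain ⟨c, C, hc, hC, hv⟩ := B.ulm_vol h h0
  have hN : ∀ R, ∀ᶠ i in (U : Filter ℕ), ball (y i) (R * r i) ⊆ ball (y i) (N i * r i) :=
    fun R => (h1.eventually_ge_atTop R).mono fun i hi =>
      ball_subset_ball (mul_le_mul_of_nonneg_right hi (B.seq.pos i).le)
  refine ⟨ν, fun z s => measure_ball_lt_top, fun z s hs => pos_iff_ne_zero.2 fun hz => ?_,
    fun f g R hf hR hm g0 g1 => ?_⟩
  · obtain ⟨χ, c1, c2, c3, c4, -⟩ := exists_cutoff_ball z (half_lt_self hs)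
    obtain ⟨R, -, hR⟩ := c1.exists_ball B.e
    obtain ⟨M, hM⟩ := c1.bound
    obtain ⟨a, ha⟩ := B.exists_lf z
    obtain ⟨R', hR'⟩ := ha.ball_subset (s / 4)
    have a1 := H χ R c1.continuous hR
    rw [integral_eq_zero_of_ae ((measure_eq_zero_iff_ae_notMem.1 hz).mono c4)] at a1
    refine absurd (ge_of_tendsto a1 (b := c * (s / 4) ^ n) ?_) (not_le.2 (by positivity))
    filter_upwards [hR', hN R', hv R' (s / 4) (by positivity), B.app' R' (show 0 < s / 8 by
      positivity), ha.2.eventually (closedBall_mem_nhds z (show 0 < s / 8 by positivity))]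
      with i b1 b2 b3 b4 b5
    have hr := B.seq.pos i
    have b6 := b1 (mem_ball_self (by positivity))
    have b7 : μ.real (ball (a i) (s / 4 * r i)) = ∫ b in ball (a i) (s / 4 * r i),
        (ball (y i) (N i * r i)).indicator (fun a => χ (B.q i a)) b ∂μ := by
      rw [setIntegral_congr_fun (g := fun _ => 1) measurableSet_ball fun b hb => ?_]
      · simp
      · have b8 := (div_lt_iff₀ hr).2 (mem_ball.1 hb)
        rw [indicator_of_mem (b2 (b1 hb))]
        refine c3 _ ((dist_triangle _ (B.q i (a i)) _).trans ?_)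
        linarith [(abs_le.1 (b4 b (b1 hb) _ b6)).2, mem_closedBall.1 b5]
    rw [le_inv_mul_iff₀ (by positivity)]
    refine le_of_eq_of_le (by ring) ((b3 _ b6).1.trans (b7.trans_le (setIntegral_le_integral
      (B.ulm_int D c1.continuous hM i _) (Eventually.of_forall ?_))))
    exact indicator_nonneg fun b _ => (c2 _).1
  · obtain ⟨-, M, -, hM⟩ := ulm_bound hf hR
    have hR1 : R < |R| + 1 := (le_abs_self R).trans_lt (lt_add_one _)
    have hR0 : 0 < |R| + 1 := by positivity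
    refine (H f R hf hR).congr_dist (Metric.tendsto_nhds.2 fun ε hε => ?_)
    have hδ : 0 < ε / (2 * (C * (|R| + 1) ^ n)) := by positivity
    obtain ⟨R', k1, k2⟩ := exists_lt_subset_ball
      (isClosed_le (continuous_const (y := ε / (2 * (C * (|R| + 1) ^ n)))) hf.abs)
      (x := B.e) (r := R) fun z hz => by_contra fun h3 => by
        rw [mem_ofPred_eq, hR z h3, abs_zero] at hz
        exact hz.not_gt hδ
    filter_upwards [g0, g1 _ hδ, hN R, hv 1 _ hR0, B.ulm_out h1 h2 k1, B.ulm_out h1 h2 hR1]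
      with i b1 b2 b3 b4 b5 b6
    have hr := B.seq.pos i
    have i1 := B.ulm_int D hf hM i (N i * r i)
    have b7 : ∀ a, |(ball (y i) (N i * r i)).indicator (fun a => f (B.q i a)) a - g i a| ≤
        ε / (2 * (C * (|R| + 1) ^ n)) := by
      intro a
      by_cases ha : a ∈ ball (y i) (R * r i)
      · rw [indicator_of_mem (b3 ha), abs_sub_comm]
        exact b2 a ha
      · rw [b1 a ha, sub_zero]
        by_cases hb : a ∈ ball (y i) (N i * r i)
        · rw [indicator_of_mem hb]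
          exact (not_le.1 fun h3 => b5 a hb ha (k2 h3)).le
        · rw [indicator_of_notMem hb, abs_zero]
          exact hδ.le
    have b8 : ∀ a, a ∉ ball (y i) ((|R| + 1) * r i) →
        (ball (y i) (N i * r i)).indicator (fun a => f (B.q i a)) a - g i a = 0 := by
      intro a ha
      rw [b1 a fun h3 => ha (ball_subset_ball (by gcongr) h3), sub_zero]
      exact indicator_apply_eq_zero.2 fun hb => hR _ (b6 a hb ha)
    have i2 := (D.memLp_of_bdd (i1.1.sub (hm i)) ⟨_, Eventually.of_forall b7⟩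
      (Eventually.of_forall b8)).2
    have i3 : Integrable (g i) μ := by simpa using i1.sub i2
    have b9 := ulm_est D hr hδ.le (b4 _ (mem_ball_self (by linarith))).2 b7 b8
    rw [integral_sub i1 i3, mul_sub] at b9
    rw [Real.dist_eq, sub_zero, abs_of_nonneg dist_nonneg, Real.dist_eq]
    refine b9.trans_lt (lt_of_eq_of_lt ?_ (half_lt_self hε))
    field_simp

end RC
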