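import Pool.Agent.P.MP_6472e5_gt.HpA

/-! Uniform total boundedness of small balls. -/

set_option autoImplicit false
set_option linter.unusedSectionVars false

noncomputable section

namespace RC

open MeasureTheory Set Filter Topology Metric

variable {X : Type} [MetricSpace X] [ProperSpace X] [MeasurableSpace X] [BorelSpace X]
  {μ : Measure X} {D : DS μ} {κ : ℝ} {n : ℕ}

theorem ult_net {A : Set X} {ρ M : ℝ} (hρ : 0 < ρ)
    (hM : ∀ T : Finset X, (∀ t ∈ T, t ∈ A) → (∀ t ∈ T, ∀ t' ∈ T, t ≠ t' → ρ ≤ dist t t') →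
      (T.card : ℝ) ≤ M) : ∃ T : Finset X, (T.card : ℝ) ≤ M ∧ A ⊆ ⋃ t ∈ T, ball t ρ := by
  classical
  by_contra hc
  have key : ∀ m : ℕ, ∃ T : Finset X, T.card = m ∧ (∀ t ∈ T, t ∈ A) ∧
      ∀ t ∈ T, ∀ t' ∈ T, t ≠ t' → ρ ≤ dist t t' := by
    intro m
    induction m with
    | zero => exact ⟨∅, rfl, by simp, by simp⟩
    | succ m ih =>
      obtain ⟨T, h1, h2, h3⟩ := ih
      obtain ⟨a, ha, haT⟩ := not_subset.1 fun hs => hc ⟨T, hM T h2 h3, hs⟩
      have h4 : ∀ t ∈ T, ρ ≤ dist a t := fun t ht =>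
        not_lt.1 fun hlt => haT (mem_iUnion₂.2 ⟨t, ht, hlt⟩)
      have h5 : a ∉ T := fun ht => by simpa [hρ.not_ge] using h4 a ht
      refine ⟨insert a T, by rw [Finset.card_insert_of_notMem h5, h1], fun t ht => ?_,
        fun t ht t' ht' hne => ?_⟩
      · rcases Finset.mem_insert.1 ht with rfl | ht
        exacts [ha, h2 t ht]
      · rcases Finset.mem_insert.1 ht with rfl | hs <;>
          rcases Finset.mem_insert.1 ht' with rfl | hs'
        · exact (hne rfl).elim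
        · exact h4 _ hs'
        · rw [dist_comm]
          exact h4 _ hs
        · exact h3 _ hs _ hs' hne
  obtain ⟨m, hm⟩ := exists_nat_gt M
  obtain ⟨T, h1, h2, h3⟩ := key m
  have := hM T h2 h3
  rw [h1] at this
  linarith

theorem HP.tot (h : HP D κ n) (h0 : N0 D n) {U : Ultrafilter ℕ} {y : ℕ → X} {r : ℕ → ℝ}
    (hs : Seq U y r) (R ε : ℝ) (hε : 0 < ε) : ∃ m : ℕ, ∀ᶠ i in (U : Filter ℕ), ∃ T : Finset X,
      T.card ≤ m ∧ ball (y i) (R * r i) ⊆ ⋃ t ∈ T, ball t (ε * r i) := by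
  rcases le_or_gt R 0 with hR | hR
  · refine ⟨0, Eventually.of_forall fun i => ⟨∅, le_rfl, ?_⟩⟩
    rw [ball_eq_empty.2 (mul_nonpos_of_nonpos_of_nonneg hR (hs.pos i).le)]
    exact empty_subset _
  obtain ⟨x, S, hS⟩ := hs.bdd
  obtain ⟨c, C, r₀, hc, hC, hr₀, hv⟩ := h.vol_bds h0 x (S + 1)
  refine ⟨⌈C * (R + ε) ^ n / (c * (ε / 2) ^ n)⌉₊, ?_⟩
  have hev : ∀ᶠ i in (U : Filter ℕ), r i < min r₀ 1 / (R + ε) :=
    hs.lim.eventually (gt_mem_nhds (by positivity))
  filter_upwards [hev] with i hi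
  have hr := hs.pos i
  rw [lt_div_iff₀' (by positivity), lt_min_iff] at hi
  have h1 := hi.1.le
  have h1' := hi.2.le
  have hRr : 0 < R * r i := mul_pos hR hr
  have hεr : 0 < ε * r i := mul_pos hε hr
  obtain ⟨T, hT, hsub⟩ := ult_net (A := ball (y i) (R * r i))
    (M := C * (R + ε) ^ n / (c * (ε / 2) ^ n)) hεr fun T hT hsep => by
    have hd : Set.Pairwise (T : Set X) (Function.onFun Disjoint fun v => ball v (ε / 2 * r i)) :=
      fun v hv v' hv' hne => ball_disjoint_ball (by linarith [hsep v hv v' hv' hne])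
    have hsub : (⋃ v ∈ T, ball v (ε / 2 * r i)) ⊆ ball (y i) ((R + ε) * r i) :=
      iUnion₂_subset fun v hv => ball_subset_ball' (by linarith [mem_ball.1 (hT v hv)])
    have h2 := measureReal_mono (μ := μ) hsub (D.fin _ _).ne
    rw [measureReal_biUnion_finset hd (fun _ _ => measurableSet_ball)
      fun _ _ => (D.fin _ _).ne] at h2
    have h3 := (hv (y i) (ball_subset_ball (by linarith) (hS i)) _ (by positivity) h1).2
    have h4 : ∀ v ∈ T, c * (ε / 2 * r i) ^ n ≤ μ.real (ball v (ε / 2 * r i)) := fun v hv' =>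
      (hv v (by
        rw [mem_ball]
        linarith [dist_triangle v (y i) x, mem_ball.1 (hT v hv'), mem_ball.1 (hS i)])
        _ (by positivity) (by linarith)).1
    have h5 := ((Finset.card_nsmul_le_sum T _ _ h4).trans h2).trans h3
    rw [nsmul_eq_mul, mul_pow, mul_pow, ← mul_assoc c, ← mul_assoc, ← mul_assoc C] at h5
    rw [le_div_iff₀ (by positivity)]
    exact le_of_mul_le_mul_right h5 (by positivity)
  exact ⟨T, by exact_mod_cast hT.trans (Nat.le_ceil _), hsub⟩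

end RC
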