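import Pool.Agent.P.MP_6472e5_gt.XS
import Pool.Agent.P.MP_6472e5_gt.MB
import Pool.Agent.P.MP_6472e5_gt.UlT
import Pool.Agent.P.MP_6472e5_gt.UlM
import Pool.Agent.P.MP_6472e5_gt.UlK
import Pool.Agent.P.MP_6472e5_gt.UlA
import Pool.Agent.P.MP_6472e5_gt.HkE
import Pool.Agent.P.MP_6472e5_gt.HkQ
import Pool.Agent.P.MP_6472e5_gt.HkS
import Pool.Agent.P.MP_6472e5_gt.HkB
import Pool.Agent.P.MP_6472e5_gt.HkF

/-! Export of block U: blow-ups. -/

set_option autoImplicit false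
set_option linter.unusedSectionVars false

noncomputable section

namespace RC

open MeasureTheory Set Filter Topology Metric

variable {X : Type} [MetricSpace X] [ProperSpace X] [MeasurableSpace X] [BorelSpace X]
  {μ : Measure X} {D : DS μ} {κ : ℝ} {n : ℕ}

theorem hasBlow (n : ℕ) [HasHP n] [HasCone n] : HasBlow n := by
  refine ⟨fun {X} _ _ _ _ {μ} D κ h h0 U y r hs => ?_⟩
  obtain ⟨Z, _, _, _, _, ⟨B⟩⟩ := exists_mb hs (h.tot h0 hs)
  obtain ⟨ν, hν⟩ := B.exists_conv h h0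
  obtain ⟨k, hk⟩ := B.exists_ker h h0
  have hK := hk.hk h hν
  obtain ⟨E, hE⟩ := hK.exists_ds
  have hF := E.flow
  have hrs : RS E 0 n := ⟨le_rfl, hK.n_pos, hK.pos, hK.geo, hF, fun f hf hG => hK.s2l hE hf hG,
    hF.be_of_ge fun f hf φ t h2 bφ h1 ht =>
      hK.ge hE hF (fun f t hf ht => hK.P_eq hE hF hf ht) hf h2 bφ h1 ht⟩
  have hp : HP E 0 n := HasHP.hp E 0 hrs
  have he : ∀ t, 0 < t → ∀ z w, k t z w = E.p t z w := fun t ht z w =>
    hp.ker_unique (hK.isKer hE hF) ht z w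
  have hm : PreModel E n := by
    obtain ⟨c, C, hc, hb⟩ := hk.bds
    refine ⟨hp, c, C, hc, fun x s hs => ?_⟩
    rw [DS.Θ, ← he _ (pow_pos hs 2)]
    exact hb x s hs
  refine ⟨⟨Z, ν, E, B.e, B.q, hs, ⟨hm, HasCone.cone E hm⟩, B.app, hν.conv, fun t R ε ht hε => ?_⟩⟩
  simpa only [he t ht] using hk.uni t R ε ht hε

end RC
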