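import Pool.Agent.P.MP_6472e5_gt.VcN

/-! Volume convergence in pinching form. -/

set_option autoImplicit false
set_option linter.unusedSectionVars false

noncomputable section

namespace RC

open MeasureTheory Set Filter Topology Metric

variable {X : Type} [MetricSpace X] [ProperSpace X] [MeasurableSpace X] [BorelSpace X]
  {κ : ℝ} {n : ℕ}

theorem vcp_pinch {μ : Measure X} {D : DS μ} (h : HP D κ n) {b : X} {r δ s s' C : ℝ} (hr : 0 < r)
    (hδ : 0 < δ) (hδ1 : δ ≤ 1) (hrδ : r ≤ δ ^ 2) (h1 : δ * r ≤ s') (h2 : s ≤ r / δ) (hs : 0 < s)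
    (h3 : s' ≤ r / δ) (hC : ∀ t, 0 < t → t ≤ 1 → D.Θ n b t ≤ C)
    (hp : D.Θ n b (r / δ) - D.Θ n b (δ * r) ≤ δ) :
    D.Θ n b s - D.Θ n b s' ≤ δ + 2 * C * (Real.exp (n * κ * δ ^ 2) - 1) := by
  have hκ := h.κ_nonneg
  have hq : r / δ ≤ δ := by rw [div_le_iff₀ hδ]; nlinarith
  have hq0 : 0 < r / δ := by positivity
  have hs' : 0 < s' := lt_of_lt_of_le (by positivity) h1
  have e1 : ∀ t, 0 < t → t ≤ δ → Real.exp (n * κ * t ^ 2) ≤ Real.exp (n * κ * δ ^ 2) :=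
    fun t ht htδ => by gcongr
  have a1 := h.Θ_mono b s (r / δ) hs h2
  have a2 := h.Θ_mono b (δ * r) s' (by positivity) h1
  have p1 := (h.Θ_pos b hq0).le
  have p2 := (h.Θ_pos b hs').le
  have c1 := hC _ hq0 (hq.trans hδ1)
  have c2 := hC _ hs' ((h3.trans hq).trans hδ1)
  have b1 := mul_le_mul_of_nonneg_right (e1 _ hq0 hq) p1
  have b2 := mul_le_mul_of_nonneg_right (e1 _ hs' (h3.trans hq)) p2
  have e0 : 1 ≤ Real.exp (n * κ * δ ^ 2) := Real.one_le_exp (by positivity)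
  nlinarith [mul_le_mul_of_nonneg_left c1 (sub_nonneg.2 e0),
    mul_le_mul_of_nonneg_left c2 (sub_nonneg.2 e0)]

theorem vc_haus [HasBlow n] {D : DS (μHE[n] : Measure X)} (h : HP D κ n) (h0 : N0 D n) (x₀ : X)
    (R ε : ℝ) (hε : 0 < ε) : ∃ δ, 0 < δ ∧ ∀ x ∈ ball x₀ R, ∀ r, 0 < r → r ≤ δ ^ 2 →
      (∀ b ∈ ball x (r / δ), D.Θ n b (r / δ) - D.Θ n b (δ * r) ≤ δ) →
      D.Θ n x r ≤ (1 + ε) * θ n := by
  by_contra hn
  push Not at hn
  choose y hy r hr hrδ hp hb using fun i : ℕ => hn (1 / ((i : ℝ) + 1)) (by positivity)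
  set δ : ℕ → ℝ := fun i => 1 / ((i : ℝ) + 1) with hδ
  have hδ0 : ∀ i, 0 < δ i := fun i => by positivity
  have hδ1 : ∀ i, δ i ≤ 1 := fun i => by
    rw [hδ, div_le_one (by positivity)]; linarith [Nat.cast_nonneg (α := ℝ) i]
  have hle : ∀ i, r i ≤ δ i := fun i => (hrδ i).trans (by nlinarith [hδ0 i, hδ1 i])
  obtain ⟨B⟩ := HasBlow.blow D κ h h0 _ y r (seq_of_small hy hr hle)
  obtain ⟨C, hC⟩ := h.Θ_bdd x₀ (R + 1)
  have hlim : Tendsto (fun i => δ i + 2 * C * (Real.exp (n * κ * δ i ^ 2) - 1))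
      (hyperfilter ℕ : Filter ℕ) (𝓝 0) := by
    have h1 : Tendsto δ (hyperfilter ℕ : Filter ℕ) (𝓝 0) :=
      tendsto_one_div_add_atTop_nhds_zero_nat.mono_left Nat.hyperfilter_le_atTop
    have h2 : Continuous fun d : ℝ => d + 2 * C * (Real.exp (n * κ * d ^ 2) - 1) := by fun_prop
    simpa [Function.comp_def] using (h2.tendsto 0).comp h1
  have hc : ∀ z, B.E.Ctr n z := by
    intro z
    obtain ⟨a, ha⟩ := B.exists_lf z
    refine B.ctr_of_pinch ha fun η hη => ?_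
    obtain ⟨S, hS⟩ := ha.1
    have hm : 0 < min η (min η⁻¹ (|S| + 1)⁻¹) := by positivity
    filter_upwards [hS, hyper_small hm, hlim (Iio_mem_nhds hη)] with i hi h1 h2
    have h1' : δ i ≤ min η (min η⁻¹ (|S| + 1)⁻¹) := h1
    simp only [le_min_iff] at h1'
    obtain ⟨k1, k2, k3⟩ := h1'
    have hri := hr i
    have hd := hδ0 i
    have hq : r i / δ i ≤ δ i := by rw [div_le_iff₀ hd]; nlinarith [hrδ i]
    have m1 : ∀ t : ℝ, 0 < t → δ i ≤ t⁻¹ → t * r i ≤ r i / δ i := fun t ht hh => by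
      rw [le_div_iff₀ hd]
      have : δ i * t ≤ 1 := by rwa [← le_div_iff₀ ht, one_div]
      nlinarith
    have hmem : a i ∈ ball (y i) (r i / δ i) :=
      ball_subset_ball (((mul_le_mul_of_nonneg_right
        ((le_abs_self S).trans (by linarith : |S| ≤ |S| + 1)) hri.le)).trans
        (m1 _ (by positivity) k3)) hi
    have hx : a i ∈ ball x₀ (R + 1) := by
      have := dist_triangle (a i) (y i) x₀
      have := mem_ball.1 hmem
      have := mem_ball.1 (hy i)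
      have := hδ1 i
      rw [mem_ball]; linarith
    refine (vcp_pinch h hri hd (hδ1 i) (hrδ i) (by gcongr) (m1 _ (by positivity) (by simpa))
      (by positivity) (m1 _ hη k2) (hC _ hx) (hp i _ hmem)).trans (le_of_lt h2)
  have h1 := blow_le h h0 B hc
  have h2 : Tendsto (fun i => D.Θ n (y i) (1 * r i)) (hyperfilter ℕ : Filter ℕ)
      (𝓝 (B.E.Θ n B.e 1)) := by
    refine (B.cv_Θ one_pos).lf ?_ B.lf_base
    exact continuousOn_univ.1 (B.model.toHP.Θ_cont.comp (f := fun z : B.Z => (z, (1 : ℝ)))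
      (by fun_prop) fun z _ => ⟨trivial, mem_Ioi.2 one_pos⟩)
  have h3 : (1 + ε) * θ n ≤ B.E.Θ n B.e 1 :=
    ge_of_tendsto h2 (Eventually.of_forall fun i => by rw [one_mul]; exact (hb i).le)
  nlinarith [θ_pos n]

end RC
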