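import Pool.Agent.P.MP_6472e5_gt.VcL
import Pool.Agent.P.MP_6472e5_gt.VcP

/-! Export of block V1: volume convergence. -/

set_option autoImplicit false
set_option linter.unusedSectionVars false

noncomputable section

namespace RC

open MeasureTheory Set Filter Topology Metric

variable {X : Type} [MetricSpace X] [ProperSpace X] [MeasurableSpace X] [BorelSpace X]
  {μ : Measure X} {D : DS μ} {κ : ℝ} {n : ℕ}

theorem n1_haus {m : ℕ} [HasBlow (m + 2)] {D : DS (μHE[m + 2] : Measure X)}
    (h : HP D κ (m + 2)) : N1 D (m + 2) :=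
  ⟨low_haus (n := m + 1) h, vc_haus h (n0_haus h)⟩

end RC
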