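import Pool.Agent.P.MP_6472e5_gt.XS
import Pool.Agent.P.MP_6472e5_gt.XB1
import Pool.Agent.P.MP_6472e5_gt.XB2
import Pool.Agent.P.MP_6472e5_gt.XB3
import Pool.Agent.P.MP_6472e5_gt.XC
import Pool.Agent.P.MP_6472e5_gt.Ms
import Pool.Agent.P.MP_6472e5_gt.S2l
import Pool.Agent.P.MP_6472e5_gt.XU
import Pool.Agent.P.MP_6472e5_gt.XK
import Pool.Agent.P.MP_6472e5_gt.XN
import Pool.Agent.P.MP_6472e5_gt.XV1
import Pool.Agent.P.MP_6472e5_gt.XL
import Pool.Agent.P.MP_6472e5_gt.XF
import Pool.Agent.P.MP_6472e5_gt.XE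

/-! Assembly. -/

set_option autoImplicit false

noncomputable section

namespace RC

open MeasureTheory Set Filter Topology Metric

theorem hasHP (n : ℕ) : HasHP n := ⟨fun _ _ h => h.r1.r2.hp⟩

theorem main (m : ℕ) (X Y : Type) [MetricSpace X] [CompleteSpace X] [SecondCountableTopology X]
    [MeasurableSpace X] [BorelSpace X] [MetricSpace Y] [CompleteSpace Y]
    [SecondCountableTopology Y] [MeasurableSpace Y] [BorelSpace Y] (Γ : Y → Y) (π : Y → X)
    (hX : IsRCD (-((m : ℝ) + 1)) ((m : ℝ) + 2) (Measure.euclideanHausdorffMeasure (m + 2) : Measure X))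
    (hb : bdry X m = ∅) (hn : NonOrientable X m) (hc : IsRamCover m Γ π) :
    IsRCD (-((m : ℝ) + 1)) ((m : ℝ) + 2) (Measure.euclideanHausdorffMeasure (m + 2) : Measure Y) := by
  have := hasHP (m + 2)
  have := hasCone (m + 2)
  have := hasBlow (m + 2)
  have := hasStr m
  have hq := hc.quot
  have hcast : ((m + 2 : ℕ) : ℝ) = (m : ℝ) + 2 := by push_cast; ring
  have hfin : ∀ (x : X) r, (μHE[m + 2] : Measure X) (ball x r) < ⊤ := fun x r => by
    obtain ⟨a, b, h⟩ := hX.growth x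
    exact (h r).trans_lt ENNReal.ofReal_lt_top
  obtain ⟨D, hD⟩ := exists_ds hfin hX.hilbert
  have hrs : RS D ((m : ℝ) + 1) (m + 2) :=
    hD.rs D.flow (by positivity) (by omega) (hq.geodesic hc.geodesic) (by rw [hcast]; exact hX)
  have hp : HP D ((m : ℝ) + 1) (m + 2) := hrs.r1.r2.hp
  have : ProperSpace X := hp.proper
  have : ProperSpace Y := hq.proper
  have h1 := n1_haus hp
  have hnull := null_singular hp h1 hb
  obtain ⟨A, ht, hRA⟩ := hc.top
  have hA1 : μH[(m : ℝ) + 1] Aᶜ = 0 := measure_mono_null (compl_subset_compl.2 hRA) hnull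
  have hA0 : (μHE[m + 2] : Measure X) Aᶜ = 0 := haus_null_succ hA1
  have hdA : Dense A := dense_of_null hrs.pos hA0
  have h2 : N2 D m := ⟨h1, nh_of_mfd hp h1 ht.mfd hdA hA1⟩
  have hft := hp.ft h1.n0
  obtain ⟨A', hA', -, -, hno⟩ := hn
  obtain ⟨ε, hε0, hε1, hs⟩ := exists_sgn m
  obtain ⟨σ, hσ⟩ := hs ht hdA (fun V hV hc => hft.cn hp h1.n0 ht.mfd.1 hA1 hV hc) hA' hno
  have hl := lim_of_sgn hp h2 hq hε0 hε1 hσ
  have hF : (μHE[m + 2] : Measure Y) {a | Γ a = a} = 0 := by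
    refine measure_mono_null (t := π ⁻¹' Aᶜ) (fun a ha h => ht.free a h ha) ?_
    exact haus_null_succ (hq.null_preimage (by positivity) hA1)
  obtain ⟨D', hD', hpc⟩ := hD.cover hq (hq.map_haus _ hF) (hq.measurePreserving _) hF
  have hs2 := fun f hf hG => hpc.s2l hrs ht hA0 (f := f) hf hG
  have hpos := fun y r hr => hpc.pos hrs.pos y (r := r) hr
  have hcov : Cov D D' Γ π :=
    { hpc with
      geo := hc.geodesic
      flow := D'.flow
      s2l := hs2
      ls2l := fun f hf => DS.ls2l hpos hc.geodesic hs2 hf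
      sec := hq.exists_sec
      path := fun y hy ρ hρ => ht.path hy hρ }
  have := hD'.isRCD (hcov.rs hp h2 hft hl) (hpc.growth hX.growth)
  rwa [hcast] at this

end RC
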