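import Pool.Agent.P.MP_6472e5_gt.HpB
import Pool.Agent.P.MP_6472e5_gt.Ca5
import Pool.Agent.P.MP_6472e5_gt.Ls

/-! The heat kernel is determined by the distance and the measure. -/

set_option autoImplicit false
set_option linter.unusedSectionVars false

noncomputable section

namespace RC

open MeasureTheory Set Filter Topology Metric

variable {X X' : Type} [MetricSpace X] [ProperSpace X] [MeasurableSpace X] [BorelSpace X]
  [MetricSpace X'] [ProperSpace X'] [MeasurableSpace X'] [BorelSpace X']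
  {μ : Measure X} {μ' : Measure X'} {D : DS μ} {D' : DS μ'} {κ κ' : ℝ} {n n' : ℕ}

/-- A map that scales the distance by `l` and the measure by `c`. -/
structure ScSim (μ : Measure X) (μ' : Measure X') (T : X → X') (l c : ℝ) : Prop where
  hl : 0 < l
  hc : 0 < c
  hd : ∀ x y, dist (T x) (T y) = l * dist x y
  hm : μ.map T = ENNReal.ofReal c • μ'

namespace ScSim

variable {T : X → X'} {l c : ℝ} (s : ScSim μ μ' T l c)
include s

theorem lip : LipschitzWith l.toNNReal T :=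
  LipschitzWith.of_dist_le' fun x y => (s.hd x y).le

theorem emb : MeasurableEmbedding T := by
  have h : AntilipschitzWith l⁻¹.toNNReal T := AntilipschitzWith.of_le_mul_dist fun x y => by
    rw [s.hd, Real.coe_toNNReal _ (inv_nonneg.2 s.hl.le), inv_mul_cancel_left₀ s.hl.ne']
  exact (h.isClosedEmbedding s.lip.uniformContinuous).measurableEmbedding

theorem int (g : X' → ℝ) : ∫ x, g (T x) ∂μ = c * ∫ y, g y ∂μ' := by
  rw [← s.emb.integral_map, s.hm, integral_smul_measure, ENNReal.toReal_ofReal s.hc.le,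
    smul_eq_mul]

theorem n2 (g : X' → ℝ) : n2 μ (g ∘ T) = c * n2 μ' g := s.int fun y => g y ^ 2

theorem memLp {g : X' → ℝ} {p : ENNReal} (hg : MemLp g p μ') : MemLp (g ∘ T) p μ :=
  s.emb.memLp_map_measure_iff.1 (s.hm ▸ hg.smul_measure ENNReal.ofReal_ne_top)

theorem ae {P : X' → Prop} (h : ∀ᵐ y ∂μ', P y) : ∀ᵐ x ∂μ, P (T x) :=
  s.emb.ae_map_iff.1 (s.hm ▸ Measure.ae_smul_measure h _)

theorem n2_lim {ι : Type} {F : Filter ι} {u : ι → X' → ℝ}
    (h : Tendsto (fun i => RC.n2 μ' (u i)) F (𝓝 0)) :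
    Tendsto (fun i => RC.n2 μ (u i ∘ T)) F (𝓝 0) := by
  simpa only [s.n2, mul_zero] using h.const_mul c

theorem der {u : ℝ → X' → ℝ} {w : X' → ℝ} {t : ℝ} (h : DerL2 μ' u w t) :
    DerL2 μ (fun r => u r ∘ T) (w ∘ T) t :=
  ⟨h.1.mono fun _ hr => s.memLp hr, s.memLp h.2.1, s.n2_lim h.2.2⟩

theorem inv (hs : Function.Surjective T) : ∃ S : X' → X, (∀ x, S (T x) = x) ∧ (∀ y, T (S y) = y) ∧
    ScSim μ' μ S l⁻¹ c⁻¹ := by
  choose S hS using hs
  have h1 : ∀ x, S (T x) = x := fun x => s.emb.injective (hS _)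
  have h2 : ∀ x y, dist (S x) (S y) = l⁻¹ * dist x y := fun x y => by
    rw [← inv_mul_cancel_left₀ s.hl.ne' (dist (S x) (S y)), ← s.hd, hS, hS]
  have h3 : Measurable S :=
    (LipschitzWith.of_dist_le' fun x y => (h2 x y).le).continuous.measurable
  refine ⟨S, h1, hS, inv_pos.2 s.hl, inv_pos.2 s.hc, h2, ?_⟩
  have h4 := congrArg (Measure.map S) s.hm
  rw [Measure.map_map h3 s.emb.measurable, show S ∘ T = id from funext h1, Measure.map_id,
    Measure.map_smul] at h4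
  rw [h4, smul_smul, ← ENNReal.ofReal_mul (inv_nonneg.2 s.hc.le), inv_mul_cancel₀ s.hc.ne',
    ENNReal.ofReal_one, one_smul]

end ScSim

theorem sc_lim {ι : Type} {F : Filter ι} [F.NeBot] [F.IsCountablyGenerated] {u : ι → X → ℝ}
    {f : X → ℝ} {b : ι → ℝ} {a : ℝ} (hu : ∀ᶠ i in F, u i ∈ D.V ∧ D.E (u i) ≤ b i)
    (hb : Tendsto b F (𝓝 a)) (hf : MemLp f 2 μ)
    (h : Tendsto (fun i => n2 μ (u i - f)) F (𝓝 0)) : f ∈ D.V ∧ D.E f ≤ a := by
  have key : ∀ ε, 0 < ε → f ∈ D.V ∧ D.E f ≤ a + ε := fun ε hε => DS.mem_of_bdd (by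
    filter_upwards [hu, hb.eventually (ge_mem_nhds (lt_add_of_pos_right a hε))] with i h1 h2
    exact ⟨h1.1, h1.2.trans h2⟩) hf h
  exact ⟨(key 1 one_pos).1, le_of_forall_pos_le_add fun ε hε => (key ε hε).2⟩

theorem sc_pk (h' : HP D' κ' n') {T : X → X'} {l c : ℝ} (s : ScSim μ μ' T l c) {g : X' → ℝ}
    (hg : LipB g) {t : ℝ} (ht : 0 < t) : D'.Pk t g ∘ T ∈ D.V ∧
      D.E (D'.Pk t g ∘ T) ≤ l ^ 2 * c * (Real.exp (2 * κ' * t) * D'.E g) := by
  have gV := D'.lip g hg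
  have g2 := D'.memLp g gV
  have hP := h'.P_rep g2 ht
  have PV := ((h'.flow.heat g g2).1 t ht).1
  have uV := D'.congr _ PV _ hP
  have gi := DS.G_int gV gV
  obtain ⟨M, hM⟩ := hg.bdd (μ := μ')
  have ul : LipschitzWith (Real.exp (κ' * t) * M / √(2 * t)).toNNReal (D'.Pk t g) :=
    LipschitzWith.of_dist_le' (h'.pk_bdd g t M g2.1 hM ht).2.1
  set γ : X' → ℝ := fun y => Real.exp (2 * κ' * t) * D'.Pk t (D'.G g g) y with hγ
  have γc : Continuous γ := continuous_const.mul (h'.pk_l1 _ t gi ht).1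
  have γi : Integrable γ μ' := (h'.pk_l1 _ t gi ht).2.const_mul _
  have γ0 : ∀ y, 0 ≤ γ y := fun y =>
    mul_nonneg (Real.exp_pos _).le (h'.pk_nonneg (DS.G_nonneg (D'.W_of_mem gV)) ht y)
  have γE : ∫ y, γ y ∂μ' = Real.exp (2 * κ' * t) * D'.E g := by
    have e := h'.pk_symm (φ := fun _ => 1) aestronglyMeasurable_const
      ⟨1, ae_of_all _ fun _ => by simp⟩ gi ht
    simp only [(h'.pk_const 1 ht _).1, one_mul] at e
    rw [hγ, integral_const_mul, ← e, DS.E]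
  have hG : ∀ᵐ y ∂μ', D'.G (D'.Pk t g) (D'.Pk t g) y ≤ γ y := by
    filter_upwards [h'.ge_pt g gV t ht,
      DS.G_congr (D'.W_of_mem PV) (D'.W_of_mem PV) hP hP] with y h1 h2
    have : 0 ≤ 2 * t / n' * D'.L t g y ^ 2 := by positivity
    rw [← h2]
    exact le_trans (le_add_of_nonneg_right this) h1
  have vW : D.W (D'.Pk t g ∘ T) := D.W_of_lipschitz (ul.comp s.lip)
  have hl := s.hl
  have hv : ∀ᵐ x ∂μ, D.G (D'.Pk t g ∘ T) (D'.Pk t g ∘ T) x ≤ l ^ 2 * γ (T x) := by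
    refine DS.G_le_of_locLip vW (continuous_const.mul (γc.comp s.lip.continuous))
      (fun x ε hε => ?_) fun x => mul_nonneg (sq_nonneg l) (γ0 _)
    have hε' : 0 < ε / l ^ 2 := by positivity
    obtain ⟨R, hR, hb⟩ := Metric.eventually_nhds_iff_ball.1
      (γc.continuousAt.eventually (ge_mem_nhds (lt_add_of_pos_right (γ (T x)) hε')))
    have h0 : 0 ≤ γ (T x) + ε / l ^ 2 := add_nonneg (γ0 _) hε'.le
    have hL := DS.lip_of_G_le h'.pos h'.geo h'.s2l (D'.W_of_mem uV) ul.continuous (T x) R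
      (Real.sqrt_nonneg (γ (T x) + ε / l ^ 2))
      (hG.mono fun y h1 h2 => by rw [Real.sq_sqrt h0]; exact h1.trans (hb y h2))
    have hT : ∀ y ∈ ball x (R / 2 / l), T y ∈ ball (T x) (R / 2) := fun y hy => by
      rw [mem_ball, s.hd]
      exact (lt_div_iff₀' hl).1 hy
    refine ⟨R / 2 / l, by positivity, fun y hy z hz => ?_⟩
    have h1 := pow_le_pow_left₀ (abs_nonneg _) (hL _ (hT y hy) _ (hT z hz)) 2
    rw [sq_abs, mul_pow, Real.sq_sqrt h0, s.hd] at h1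
    refine h1.trans_eq ?_
    field_simp
  have γT : Integrable (fun x => l ^ 2 * γ (T x)) μ :=
    (memLp_one_iff_integrable.1 (s.memLp (memLp_one_iff_integrable.2 γi))).const_mul _
  have vi : Integrable (D.G (D'.Pk t g ∘ T) (D'.Pk t g ∘ T)) μ :=
    γT.mono' (DS.G_aesm vW vW) (by
      filter_upwards [hv, DS.G_nonneg vW] with x h1 h2
      rwa [Real.norm_of_nonneg h2])
  refine ⟨vW.mem (s.memLp (D'.memLp _ uV)) vi, (integral_mono_ae vi γT hv).trans_eq ?_⟩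
  rw [integral_const_mul, s.int, γE, ← mul_assoc]

theorem sc_lipB (h' : HP D' κ' n') {T : X → X'} {l c : ℝ} (s : ScSim μ μ' T l c) {g : X' → ℝ}
    (hg : LipB g) : g ∘ T ∈ D.V ∧ D.E (g ∘ T) ≤ l ^ 2 * c * D'.E g := by
  have g2 := D'.memLp g (D'.lip g hg)
  have hb : Tendsto (fun t => l ^ 2 * c * (Real.exp (2 * κ' * t) * D'.E g)) (𝓝[>] 0)
      (𝓝 (l ^ 2 * c * D'.E g)) :=
    ((by fun_prop : Continuous fun t => l ^ 2 * c * (Real.exp (2 * κ' * t) * D'.E g)).tendsto' 0 _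
      (by simp)).mono_left nhdsWithin_le_nhds
  refine sc_lim (F := 𝓝[>] (0 : ℝ)) (eventually_mem_nhdsWithin.mono fun t ht => sc_pk h' s hg ht)
    hb (s.memLp g2)
    (s.n2_lim (u := fun t => D'.Pk t g - g) ((h'.flow.heat g g2).2.congr' ?_))
  filter_upwards [eventually_mem_nhdsWithin] with t ht
  exact n2_congr ((h'.P_rep g2 ht).sub EventuallyEq.rfl)

theorem sc_mem (h' : HP D' κ' n') {T : X → X'} {l c : ℝ} (s : ScSim μ μ' T l c) {f : X' → ℝ}
    (hf : f ∈ D'.V) : f ∘ T ∈ D.V ∧ D.E (f ∘ T) ≤ l ^ 2 * c * D'.E f := by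
  obtain ⟨u, hu, h1, h2⟩ := D'.dense f hf
  have uV : ∀ k, u k - f ∈ D'.V := fun k => D'.sub_mem (D'.lip _ (hu k)) hf
  have hb := (((h2.congr fun k => (DS.E_eq (uV k)).symm).sqrt.add_const √(D'.E f)).pow 2).const_mul
    (l ^ 2 * c)
  rw [Real.sqrt_zero, zero_add, Real.sq_sqrt (DS.E_nonneg (D'.W_of_mem hf))] at hb
  refine sc_lim (Eventually.of_forall fun k => ?_) hb (s.memLp (D'.memLp f hf))
    (s.n2_lim (u := fun k => u k - f) h1)
  refine (sc_lipB h' s (hu k)).imp_right fun h => h.trans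
    (mul_le_mul_of_nonneg_left ?_ (mul_nonneg (sq_nonneg l) s.hc.le))
  have h3 := DS.sqrt_E_add_le (uV k) hf
  rw [sub_add_cancel] at h3
  exact (Real.sqrt_le_iff.1 h3).2

theorem scale_mem (h' : HP D' κ' n') {T : X → X'} {l c : ℝ} (hl : 0 < l) (hc : 0 < c)
    (hd : ∀ x y, dist (T x) (T y) = l * dist x y) (hm : μ.map T = ENNReal.ofReal c • μ')
    {f : X' → ℝ} (hf : f ∈ D'.V) :
    f ∘ T ∈ D.V ∧ D.E (f ∘ T) ≤ l ^ 2 * c * D'.E f := sc_mem h' ⟨hl, hc, hd, hm⟩ hf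

theorem sc_polar {f g : X → ℝ} (hf : f ∈ D.V) (hg : g ∈ D.V) :
    2 * ∫ x, D.G f g x ∂μ = D.E (f + g) - D.E f - D.E g := by
  have i1 := DS.G_int hf hf
  have i2 := (DS.G_int hf hg).const_mul 2
  have i3 : Integrable (fun x => D.G f f x + 2 * D.G f g x) μ := i1.add i2
  rw [DS.E, integral_congr_ae (DS.G_add_add (D.W_of_mem hf) (D.W_of_mem hg)),
    integral_add i3 (DS.G_int hg hg), integral_add i1 i2, integral_const_mul, DS.E, DS.E]
  ring

section

variable (h : HP D κ n) (h' : HP D' κ' n') {T : X → X'} {S : X' → X} {l c : ℝ}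
  (s : ScSim μ μ' T l c) (s' : ScSim μ' μ S l⁻¹ c⁻¹) (hS : ∀ x, S (T x) = x) (hT : ∀ y, T (S y) = y)
include h h' s s' hS hT

theorem sc_E {f : X' → ℝ} (hf : f ∈ D'.V) : D.E (f ∘ T) = l ^ 2 * c * D'.E f := by
  obtain ⟨h1, h2⟩ := sc_mem (D := D) h' s hf
  have h3 := (sc_mem (D := D') h s' h1).2
  rw [show (f ∘ T) ∘ S = f from funext fun y => congrArg f (hT y)] at h3
  have hl := s.hl
  have hc := s.hc
  refine h2.antisymm ((mul_le_mul_of_nonneg_left h3 (by positivity)).trans_eq ?_)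
  field_simp

theorem sc_G {f g : X' → ℝ} (hf : f ∈ D'.V) (hg : g ∈ D'.V) :
    ∫ x, D.G (f ∘ T) (g ∘ T) x ∂μ = l ^ 2 * c * ∫ y, D'.G f g y ∂μ' := by
  have h1 := sc_polar (sc_mem (D := D) h' s hf).1 (sc_mem (D := D) h' s hg).1
  have h2 := sc_polar hf hg
  have h3 : D.E (f ∘ T + g ∘ T) = _ := sc_E h h' s s' hS hT (D'.add f hf g hg)
  rw [h3, sc_E h h' s s' hS hT hf, sc_E h h' s s' hS hT hg] at h1
  linear_combination h1 / 2 - l ^ 2 * c / 2 * h2

theorem sc_lap {f g : X' → ℝ} (hf : f ∈ D'.V) (hg : MemLp g 2 μ') (hL : D'.Lap f g) :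
    D.Lap (f ∘ T) ((l ^ 2 • g) ∘ T) := by
  refine DS.lap_of_test (sc_mem h' s hf).1 (s.memLp (hg.const_smul _)) fun φ hφ => ?_
  have h1 := (sc_mem (D := D') h s' hφ).1
  have h2 := sc_G h h' s s' hS hT hf h1
  have h3 := s.int fun y => l ^ 2 * (g y * φ (S y))
  rw [show (φ ∘ S) ∘ T = φ from funext fun x => congrArg φ (hS x), hL.test hf hg h1] at h2
  simp only [hS, integral_const_mul] at h3
  simp only [h2, Function.comp_apply, Pi.smul_apply, smul_eq_mul, mul_assoc, integral_const_mul, h3]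
  ring

theorem sc_heat {f : X → ℝ} (hf : MemLp f 2 μ) {t : ℝ} (ht : 0 < t) :
    D'.P (l ^ 2 * t) (f ∘ S) ∘ T =ᵐ[μ] D.P t f := by
  have hl := s.hl
  obtain ⟨h1, h2⟩ := h'.flow.heat _ (s'.memLp hf)
  refine (h.flow.uniq f (fun r => D'.P (l ^ 2 * r) (f ∘ S) ∘ T)
    (fun r => (l ^ 2 • D'.L (l ^ 2 * r) (f ∘ S)) ∘ T) hf ⟨fun r hr => ?_, ?_⟩ t ht).1
  · obtain ⟨a1, a2, a3⟩ := h1 (l ^ 2 * r) (by positivity)
    refine ⟨(sc_mem h' s a1).1, sc_lap h h' s s' hS hT a1 a3.2.1 a2, ?_⟩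
    have a4 := DerL2.affine (b := 0) (by positivity : l ^ 2 ≠ 0) (by rwa [add_zero] : DerL2 μ'
      (fun t => D'.P t (f ∘ S)) (D'.L (l ^ 2 * r) (f ∘ S)) (l ^ 2 * r + 0))
    simpa only [add_zero] using s.der a4
  · have a1 : Tendsto (fun r : ℝ => l ^ 2 * r) (𝓝[>] 0) (𝓝[>] 0) :=
      tendsto_nhdsWithin_iff.2 ⟨((continuous_const_mul _).tendsto' 0 0 (mul_zero _)).mono_left
        nhdsWithin_le_nhds, eventually_mem_nhdsWithin.mono fun r hr => mul_pos (pow_pos hl 2) hr⟩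
    refine (s.n2_lim (u := fun r => D'.P (l ^ 2 * r) (f ∘ S) - f ∘ S) (h2.comp a1)).congr
      fun r => congrArg (n2 μ) (funext fun x => ?_)
    simp only [Function.comp_apply, Pi.sub_apply, hS]

end

theorem scale_ker (h : HP D κ n) (h' : HP D' κ' n') {T : X → X'} {l c : ℝ} (hl : 0 < l)
    (hc : 0 < c) (hs : Function.Surjective T) (hd : ∀ x y, dist (T x) (T y) = l * dist x y)
    (hm : μ.map T = ENNReal.ofReal c • μ') {t : ℝ} (ht : 0 < t) (x y : X) :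
    D'.p (l ^ 2 * t) (T x) (T y) = c * D.p t x y := by
  have s : ScSim μ μ' T l c := ⟨hl, hc, hd, hm⟩
  obtain ⟨S, hS, hT, s'⟩ := s.inv hs
  obtain ⟨k1, k2, k3⟩ := h'.ker
  have tc := s.lip.continuous
  have hk : D.IsKer fun t x y => c⁻¹ * D'.p (l ^ 2 * t) (T x) (T y) := by
    refine ⟨continuousOn_const.mul (k1.comp (f := fun a : ℝ × X × X =>
      (l ^ 2 * a.1, T a.2.1, T a.2.2)) (by fun_prop) fun a ha => ⟨mul_pos (pow_pos hl 2) ha.1,
        mem_univ _⟩), fun r z hr => (s.memLp (k2 _ (T z) (by positivity))).const_mul _,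
      fun f r hf hr => ?_⟩
    filter_upwards [sc_heat h h' s s' hS hT hf hr,
      s.ae (k3 _ (l ^ 2 * r) (s'.memLp hf) (by positivity))] with z h1 h2
    have h3 := s.int fun w => D'.p (l ^ 2 * r) (T z) w * f (S w)
    simp only [hS] at h3
    simp only [← h1, Function.comp_apply, h2, mul_assoc, integral_const_mul, h3]
    rw [inv_mul_cancel_left₀ hc.ne']
  rw [← h.ker_unique hk ht x y, mul_inv_cancel_left₀ hc.ne']

end RC
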