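import Mathlib

/-! Functional calculus of a positive contraction of a real Hilbert space. -/

set_option autoImplicit false
set_option linter.unusedSectionVars false

noncomputable section

namespace RC.Sg

open Set Filter Topology Polynomial
open scoped InnerProductSpace

variable {H : Type*} [NormedAddCommGroup H] [InnerProductSpace ℝ H] [CompleteSpace H]

/-- Continuous functions on the unit interval. -/
abbrev CI : Type := C(Icc (0 : ℝ) 1, ℝ)

/-- A positive contraction. -/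
structure Ctr (J : H →L[ℝ] H) : Prop where
  symm : ∀ x y, ⟪J x, y⟫_ℝ = ⟪x, J y⟫_ℝ
  nonneg : ∀ x, 0 ≤ ⟪J x, x⟫_ℝ
  le : ∀ x, ⟪J x, x⟫_ℝ ≤ ‖x‖ ^ 2

theorem unit_of_le {T : H →L[ℝ] H} {c : ℝ} (hc : 0 < c) (h : ∀ x, ‖x‖ ^ 2 * c ≤ |⟪T x, x⟫_ℝ|) :
    IsUnit T :=
  ContinuousLinearMap.isUnit_of_forall_le_norm_inner_map T (c := ⟨c, hc.le⟩) hc h

variable {J : H →L[ℝ] H}

theorem Ctr.unit (hJ : Ctr J) (p : ℝ[X]) (hp : ∀ s ∈ Icc (0 : ℝ) 1, p.eval s ≠ 0) :
    IsUnit (aeval J p) := by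
  induction p using WfDvdMonoid.induction_on_irreducible with
  | zero => exact absurd eval_zero (hp 0 ⟨le_rfl, zero_le_one⟩)
  | unit u hu => exact hu.map _
  | mul a i _ hi ih =>
    rw [map_mul]
    refine IsUnit.mul ?_ (ih fun s hs h => hp s hs (by rw [eval_mul, h, mul_zero]))
    have key : ∀ d : ℝ[X], d ∣ i → 0 < d.natDegree → IsUnit (aeval J d) → IsUnit (aeval J i) := by
      rintro d ⟨q, rfl⟩ h1 h2
      rw [map_mul]
      exact h2.mul (((hi.isUnit_or_isUnit rfl).resolve_left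
        (not_isUnit_of_natDegree_pos d h1)).map _)
    obtain ⟨z, hz⟩ := IsAlgClosed.exists_aeval_eq_zero ℂ i (degree_pos_of_irreducible hi).ne'
    by_cases h0 : z.im = 0
    · obtain ⟨r, rfl⟩ : ∃ r : ℝ, z = r := ⟨z.re, Complex.ext rfl h0⟩
      have hr : i.eval r = 0 := by
        rw [← Complex.coe_algebraMap, aeval_algebraMap_apply_eq_algebraMap_eval] at hz
        simpa using hz
      refine key (X - C r) (dvd_iff_isRoot.2 hr) (by simp) ?_
      have e : ∀ x, ⟪aeval J (X - C r) x, x⟫_ℝ = ⟪J x, x⟫_ℝ - r * ‖x‖ ^ 2 := fun x => by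
        simp [inner_sub_left, inner_smul_left]
      have hn : r ∉ Icc (0 : ℝ) 1 := fun h => hp r h (by rw [eval_mul, hr, zero_mul])
      rcases lt_or_ge r 0 with h | h
      · refine unit_of_le (neg_pos.2 h) fun x => ?_
        rw [e]
        linarith only [le_abs_self (⟪J x, x⟫_ℝ - r * ‖x‖ ^ 2), hJ.nonneg x]
      · refine unit_of_le (sub_pos.2 (not_le.1 fun h' => hn ⟨h, h'⟩)) fun x => ?_
        rw [e]
        linarith only [neg_le_abs (⟪J x, x⟫_ℝ - r * ‖x‖ ^ 2), hJ.le x]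
    · refine key _ (i.quadratic_dvd_of_aeval_eq_zero_im_ne_zero hz h0) ?_
        (unit_of_le (c := z.im ^ 2) (by positivity) fun x => le_trans ?_ (le_abs_self _))
      · have : (X ^ 2 - C (2 * z.re) * X + C (‖z‖ ^ 2) : ℝ[X]).natDegree = 2 := by compute_degree!
        omega
      · have h1 := norm_sub_sq_real (J x) (z.re • x)
        have h2 : ⟪J (J x), x⟫_ℝ = ‖J x‖ ^ 2 := by rw [hJ.symm, real_inner_self_eq_norm_sq]
        have h3 : ‖z‖ ^ 2 = z.re ^ 2 + z.im ^ 2 := by
          rw [Complex.sq_norm, Complex.normSq_apply]; ring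
        have e : aeval J (X ^ 2 - C (2 * z.re) * X + C (‖z‖ ^ 2) : ℝ[X]) x =
            J (J x) - (2 * z.re) • J x + (‖z‖ ^ 2) • x := by
          simp only [map_add, map_sub, map_mul, aeval_X, aeval_C, pow_two X]
          simp [Algebra.algebraMap_eq_smul_one, mul_smul, pow_two, smul_comm z.re]
        rw [e, inner_add_left, inner_sub_left, real_inner_smul_left, real_inner_smul_left, h2,
          real_inner_self_eq_norm_sq, h3]
        rw [real_inner_smul_right, norm_smul, mul_pow, Real.norm_eq_abs, sq_abs] at h1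
        nlinarith only [h1, sq_nonneg ‖J x - z.re • x‖]

theorem Ctr.symm_aeval (hJ : Ctr J) (p : ℝ[X]) (x y : H) :
    ⟪aeval J p x, y⟫_ℝ = ⟪x, aeval J p y⟫_ℝ := by
  induction p using Polynomial.induction_on generalizing x y with
  | C a => simp [Algebra.algebraMap_eq_smul_one, inner_smul_left, inner_smul_right]
  | add p q hp hq => simp [inner_add_left, inner_add_right, hp, hq]
  | monomial n a h =>
    have e : C a * X ^ (n + 1) = C a * X ^ n * X := by ring
    have e' : C a * X ^ (n + 1) = X * (C a * X ^ n) := by ring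
    generalize C a * X ^ n = q at *
    calc _ = ⟪aeval J q (J x), y⟫_ℝ := by rw [e, map_mul, aeval_X]; rfl
      _ = ⟪x, J (aeval J q y)⟫_ℝ := by rw [h, hJ.symm]
      _ = _ := by rw [e', map_mul, aeval_X]; rfl

/-- Polynomial functions. -/
def pl : ℝ[X] →ₗ[ℝ] CI := (toContinuousMapOnAlgHom (Icc (0 : ℝ) 1)).toLinearMap

theorem pl_apply (p : ℝ[X]) (s : Icc (0 : ℝ) 1) : pl p s = p.eval (s : ℝ) := rfl

theorem Ctr.norm_aeval (hJ : Ctr J) (p : ℝ[X]) : ‖aeval J p‖ ≤ 1 * ‖pl p‖ := by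
  have h1 := ContinuousLinearMap.spectralRadius_eq_nnnorm (aeval J p)
    (ContinuousLinearMap.isSelfAdjoint_iff_isSymmetric.2 (hJ.symm_aeval p))
  rw [one_mul, ← coe_nnnorm, ← coe_nnnorm, NNReal.coe_le_coe, ← ENNReal.coe_le_coe, ← h1]
  refine iSup₂_le fun k hk => ?_
  rw [ENNReal.coe_le_coe, ← NNReal.coe_le_coe, coe_nnnorm, coe_nnnorm]
  by_contra h
  refine hk ?_
  have := hJ.unit (C k - p) fun s hs e => h (by
    rw [eval_sub, eval_C, sub_eq_zero] at e
    rw [e]
    exact (pl p).norm_coe_le_norm ⟨s, hs⟩)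
  rwa [map_sub, aeval_C] at this

theorem dense_poly : DenseRange pl := fun f => by
  have h := continuousMap_mem_polynomialFunctions_closure 0 1 f
  rwa [← SetLike.mem_coe, Subalgebra.topologicalClosure_coe, polynomialFunctions_coe] at h

/-- The functional calculus. -/
def fc (J : H →L[ℝ] H) : CI →L[ℝ] H →L[ℝ] H :=
  (aeval J).toLinearMap.extendOfNorm pl

/-- The coordinate function. -/
def jj : CI := pl X

namespace Ctr

variable (hJ : Ctr J)
include hJ

theorem fc_poly (p : ℝ[X]) : fc J (pl p) = aeval J p := by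
  rw [fc, LinearMap.extendOfNorm_eq dense_poly ⟨1, fun q => by simpa using hJ.norm_aeval q⟩,
    AlgHom.toLinearMap_apply]

theorem norm_fc (f : CI) : ‖fc J f‖ ≤ ‖f‖ := by
  rw [fc, ← one_mul ‖f‖]
  exact LinearMap.norm_extendOfNorm_apply_le dense_poly 1
    (fun q => by simpa using hJ.norm_aeval q) f

theorem fc_one : fc J 1 = 1 := by
  rw [← map_one (aeval J : ℝ[X] →ₐ[ℝ] _), ← hJ.fc_poly]
  congr 1
  ext s
  simp [pl_apply]

theorem fc_jj : fc J jj = J := (hJ.fc_poly X).trans (aeval_X J)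

theorem fc_mul (f g : CI) : fc J (f * g) = fc J f * fc J g := by
  refine dense_poly.induction_on₂ (p := fun f g => fc J (f * g) = fc J f * fc J g)
    (isClosed_eq (by fun_prop) (by fun_prop)) (fun p q => ?_) f g
  rw [hJ.fc_poly, hJ.fc_poly, ← map_mul (aeval J), ← hJ.fc_poly]
  congr 1
  ext s
  simp [pl_apply]

theorem fc_fc (f g : CI) (x : H) : fc J f (fc J g x) = fc J (f * g) x := by
  rw [hJ.fc_mul]; rfl

theorem fc_symm (f : CI) (x y : H) : ⟪fc J f x, y⟫_ℝ = ⟪x, fc J f y⟫_ℝ := by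
  refine dense_poly.induction_on (p := fun f => ⟪fc J f x, y⟫_ℝ = ⟪x, fc J f y⟫_ℝ) f
    (isClosed_eq (by fun_prop) (by fun_prop)) fun p => ?_
  rw [hJ.fc_poly, hJ.symm_aeval]

theorem norm_sq (f : CI) (x : H) : ‖fc J f x‖ ^ 2 = ⟪fc J (f * f) x, x⟫_ℝ := by
  rw [← hJ.fc_fc, hJ.fc_symm, real_inner_self_eq_norm_sq]

theorem fc_mono {f g : CI} (h : ∀ s, f s ≤ g s) (x : H) : ⟪fc J f x, x⟫_ℝ ≤ ⟪fc J g x, x⟫_ℝ := by
  let r : CI := ⟨fun s => √(g s - f s), by fun_prop⟩
  have e : g = f + r * r := by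
    ext s
    simp [r, Real.mul_self_sqrt (sub_nonneg.2 (h s))]
  rw [e, map_add, add_apply, inner_add_left, ← hJ.norm_sq]
  exact le_add_of_nonneg_right (sq_nonneg _)

theorem fc_pow (f : CI) (n : ℕ) : fc J (f ^ n) = fc J f ^ n := by
  induction n with
  | zero => simp [hJ.fc_one]
  | succ n ih => rw [pow_succ, hJ.fc_mul, ih, pow_succ]

/-- Strong convergence. -/
theorem strong (hd : DenseRange J) {ι : Type*} {l : Filter ι} {f : ι → CI} {C : ℝ}
    (hC : ∀ᶠ i in l, ‖f i‖ ≤ C) (h : Tendsto (fun i => ‖f i * (jj * jj)‖) l (𝓝 0)) (x : H) :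
    Tendsto (fun i => fc J (f i) x) l (𝓝 0) := by
  refine Metric.tendsto_nhds.2 fun ε hε => ?_
  have hc : 0 < |C| + 1 := by positivity
  obtain ⟨y, hy⟩ := (hd.comp hd J.continuous).exists_dist_lt x (ε := ε / 2 / (|C| + 1))
    (by positivity)
  have h1 := h.mul_const ‖y‖
  rw [zero_mul] at h1
  filter_upwards [hC, h1.eventually_lt_const (half_pos hε)] with i a b
  have e : fc J (f i) x = fc J (f i) (x - J (J y)) + fc J (f i * (jj * jj)) y := by
    rw [← hJ.fc_fc, ← hJ.fc_fc, hJ.fc_jj, ← map_add, sub_add_cancel]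
  rw [dist_zero_right, e]
  rw [dist_eq_norm, lt_div_iff₀ hc, Function.comp_apply] at hy
  have h2 : ‖fc J (f i) (x - J (J y))‖ ≤ (|C| + 1) * ‖x - J (J y)‖ :=
    (fc J (f i)).le_of_opNorm_le ((hJ.norm_fc _).trans (by linarith only [a, le_abs_self C])) _
  have h3 := (fc J (f i * (jj * jj))).le_of_opNorm_le (hJ.norm_fc _) y
  linarith only [norm_add_le (fc J (f i) (x - J (J y))) (fc J (f i * (jj * jj)) y), h2, h3, hy, b]

theorem inter {K : Type*} [NormedAddCommGroup K] [InnerProductSpace ℝ K] [CompleteSpace K]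
    {J' : K →L[ℝ] K} (hJ' : Ctr J') {T : H →L[ℝ] K} (h : ∀ x, T (J x) = J' (T x)) (f : CI) (x : H) :
    T (fc J f x) = fc J' f (T x) := by
  refine dense_poly.induction_on (p := fun f => T (fc J f x) = fc J' f (T x)) f
    (isClosed_eq (by fun_prop) (by fun_prop)) fun p => ?_
  rw [hJ.fc_poly, hJ'.fc_poly]
  induction p using Polynomial.induction_on with
  | C a => simp [Algebra.algebraMap_eq_smul_one]
  | add p q hp hq => simp [hp, hq]
  | monomial n a ih =>
    have e' : C a * X ^ (n + 1) = X * (C a * X ^ n) := by ring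
    generalize C a * X ^ n = q at *
    rw [e', map_mul, map_mul, aeval_X, aeval_X, mul_apply_eq_comp, mul_apply_eq_comp, h, ih]

end Ctr

end RC.Sg
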