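import Pool.Agent.P.MP_6472e5_gt.SgA

/-! The scalar functions behind the heat flow, in the variable `(1 + a)⁻¹`. -/

set_option autoImplicit false
set_option linter.unusedSectionVars false

noncomputable section

namespace RC.Sg

open Set Filter Topology Polynomial Real

/-- The point `(1 + a)⁻¹`. -/
def pt (a : ℝ) : Icc (0 : ℝ) 1 := projIcc 0 1 zero_le_one (1 + a)⁻¹

theorem pt_coe {a : ℝ} (ha : 0 ≤ a) : (pt a : ℝ) = (1 + a)⁻¹ := by
  rw [pt, projIcc_of_mem _ ⟨by positivity, inv_le_one_of_one_le₀ (by linarith only [ha])⟩]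

theorem le_of_pt {f g : CI} (h : ∀ a, 0 ≤ a → f (pt a) ≤ g (pt a)) (s : Icc (0 : ℝ) 1) :
    f s ≤ g s := by
  rcases s.2.1.eq_or_lt with h0 | h0
  · have t : Tendsto pt atTop (𝓝 s) := by
      have h1 : Tendsto (fun a : ℝ => (1 + a)⁻¹) atTop (𝓝 0) :=
        (tendsto_atTop_add_const_left _ 1 tendsto_id).inv_tendsto_atTop
      have h2 := (continuous_projIcc (h := (zero_le_one : (0 : ℝ) ≤ 1))).continuousAt.tendsto.comp h1
      rwa [show projIcc (0 : ℝ) 1 zero_le_one 0 = s from Subtype.ext (by simp [← h0])] at h2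
    exact le_of_tendsto_of_tendsto (f.continuous.continuousAt.tendsto.comp t)
      (g.continuous.continuousAt.tendsto.comp t) ((eventually_ge_atTop 0).mono h)
  · have h1 : 0 ≤ (s : ℝ)⁻¹ - 1 := sub_nonneg.2 ((one_le_inv₀ h0).2 s.2.2)
    have e : pt ((s : ℝ)⁻¹ - 1) = s := Subtype.ext (by rw [pt_coe h1]; simp)
    exact e ▸ h _ h1

theorem eq_of_pt {f g : CI} (h : ∀ a, 0 ≤ a → f (pt a) = g (pt a)) : f = g :=
  ContinuousMap.ext fun s =>
    le_antisymm (le_of_pt (fun a ha => (h a ha).le) s) (le_of_pt (fun a ha => (h a ha).ge) s)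

theorem norm_le_of_pt {f : CI} {c : ℝ} (h : ∀ a, 0 ≤ a → |f (pt a)| ≤ c) : ‖f‖ ≤ c :=
  (ContinuousMap.norm_le _ ((abs_nonneg _).trans (h 0 le_rfl))).2 fun s =>
    le_of_pt (f := |f|) (g := ContinuousMap.const _ c) h s

theorem jj_pt {a : ℝ} (ha : 0 ≤ a) : jj (pt a) = (1 + a)⁻¹ := by
  rw [jj, pl_apply, eval_X, pt_coe ha]

/-- The function `p a * exp (-t a)`. -/
def Ef (p : ℝ[X]) (t : ℝ) : CI :=
  ⟨fun s => exp t * ((p.comp (C t⁻¹ * X - 1)).eval ((s : ℝ) / t)⁻¹ * expNegInvGlue (s / t)),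
    continuous_const.mul ((expNegInvGlue.continuous_polynomial_eval_inv_mul _).comp
      (continuous_subtype_val.div_const t))⟩

theorem Ef_pt (p : ℝ[X]) {t a : ℝ} (ht : 0 < t) (ha : 0 ≤ a) :
    Ef p t (pt a) = p.eval a * exp (-(t * a)) := by
  have h1 : 0 < (1 + a)⁻¹ / t := by positivity
  have h2 : ((1 + a)⁻¹ / t)⁻¹ = t * (1 + a) := by field_simp
  change exp t * (_ * expNegInvGlue _) = _
  rw [pt_coe ha, expNegInvGlue, if_neg (not_le.2 h1), h2, eval_comp, mul_left_comm, ← exp_add]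
  congr 2
  · simp [ht.ne']
  · ring

/-- The function `exp (-t a)`. -/
def pf (t : ℝ) : CI := if 0 < t then Ef 1 t else 1

theorem pf_pos {t : ℝ} (ht : 0 < t) : pf t = Ef 1 t := if_pos ht

theorem pf_neg {t : ℝ} (ht : t ≤ 0) : pf t = 1 := if_neg (not_lt.2 ht)

theorem pf_pt {t a : ℝ} (ht : 0 ≤ t) (ha : 0 ≤ a) : pf t (pt a) = exp (-(t * a)) := by
  rcases ht.eq_or_lt with rfl | h
  · simp [pf]
  · rw [pf_pos h, Ef_pt _ h ha, eval_one, one_mul]

/-- The function `(1 + a) / (1 + ε a)`. -/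
def hf (ε : ℝ) : CI :=
  if h : 0 < ε then ⟨fun s => ((s : ℝ) + ε * (1 - s))⁻¹, Continuous.inv₀ (by fun_prop) fun s => by
    rcases s.2.1.eq_or_lt with h0 | h0
    · simp [← h0, h.ne']
    · exact (add_pos_of_pos_of_nonneg h0 (mul_nonneg h.le (sub_nonneg.2 s.2.2))).ne'⟩ else 0

theorem hf_pt {ε a : ℝ} (hε : 0 < ε) (ha : 0 ≤ a) : hf ε (pt a) = (1 + a) / (1 + ε * a) := by
  rw [hf, dif_pos hε]
  change ((pt a : ℝ) + ε * (1 - pt a))⁻¹ = _
  rw [pt_coe ha, ← inv_div]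
  congr 1
  field_simp
  ring

theorem rf_pt {ε a : ℝ} (hε : 0 < ε) (ha : 0 ≤ a) : (jj * hf ε) (pt a) = (1 + ε * a)⁻¹ := by
  rw [ContinuousMap.mul_apply, jj_pt ha, hf_pt hε ha]
  field_simp

theorem abs_exp_rem (y : ℝ) : |exp y - 1 - y| ≤ y ^ 2 * exp |y| := by
  have h := Complex.norm_exp_sub_sum_le_norm_mul_exp y 2
  have e : Complex.exp y - ∑ m ∈ Finset.range 2, (y : ℂ) ^ m / m.factorial =
      ((exp y - 1 - y : ℝ) : ℂ) := by simp [Finset.sum_range_succ, sub_sub]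
  rwa [e, Complex.norm_real, Complex.norm_real, norm_eq_abs, norm_eq_abs, sq_abs] at h

theorem Ef_deriv (p : ℝ[X]) {t : ℝ} (ht : 0 < t) : HasDerivAt (Ef p) (Ef (-X * p) t) t := by
  rw [hasDerivAt_iff_isLittleO_nhds_zero]
  refine Asymptotics.IsBigO.trans_isLittleO (g := fun h : ℝ => h ^ 2) ?_
    (Asymptotics.isLittleO_pow_id one_lt_two)
  refine Asymptotics.IsBigO.of_bound ‖Ef (X ^ 2 * p) (t / 2)‖ ?_
  filter_upwards [Metric.ball_mem_nhds (0 : ℝ) (half_pos ht)] with h hh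
  rw [mem_ball_zero_iff, norm_eq_abs] at hh
  refine norm_le_of_pt fun a ha => ?_
  have h1 := (Ef (X ^ 2 * p) (t / 2)).norm_coe_le_norm (pt a)
  have h2 := abs_exp_rem (-(h * a))
  have h3 : exp (-(t * a)) * exp |-(h * a)| ≤ exp (-(t / 2 * a)) := by
    rw [← exp_add, abs_neg, abs_mul, abs_of_nonneg ha]
    exact exp_le_exp.2 (by nlinarith only [hh, ha])
  rw [Ef_pt _ (half_pos ht) ha, norm_eq_abs, abs_mul, abs_of_pos (exp_pos _), eval_mul, abs_mul,
    eval_pow, eval_X, abs_of_nonneg (sq_nonneg a)] at h1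
  have e : (Ef p (t + h) - Ef p t - h • Ef (-X * p) t) (pt a) =
      p.eval a * exp (-(t * a)) * (exp (-(h * a)) - 1 - -(h * a)) := by
    simp only [ContinuousMap.sub_apply, ContinuousMap.smul_apply, smul_eq_mul, Ef_pt _ ht ha,
      Ef_pt _ (show 0 < t + h by linarith only [ht, (abs_lt.1 hh).1]) ha, eval_mul, eval_neg,
      eval_X, add_mul t, neg_add, exp_add]
    ring
  rw [e, abs_mul, abs_mul, abs_of_pos (exp_pos _), norm_eq_abs, abs_of_nonneg (sq_nonneg h)]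
  calc _ ≤ |p.eval a| * exp (-(t * a)) * ((-(h * a)) ^ 2 * exp |-(h * a)|) := by gcongr
    _ = h ^ 2 * (a ^ 2 * |p.eval a| * (exp (-(t * a)) * exp |-(h * a)|)) := by ring
    _ ≤ h ^ 2 * ‖Ef (X ^ 2 * p) (t / 2)‖ :=
      mul_le_mul_of_nonneg_left (le_trans (by gcongr) h1) (sq_nonneg h)
    _ = _ := mul_comm _ _

theorem jj_Ef (q : ℝ[X]) {t : ℝ} (ht : 0 < t) : jj * Ef ((1 + X) * q) t = Ef q t :=
  eq_of_pt fun a ha => by
    simp only [ContinuousMap.mul_apply, jj_pt ha, Ef_pt _ ht ha, eval_mul, eval_add, eval_one,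
      eval_X]
    field_simp

theorem Ef_sub (q : ℝ[X]) {t : ℝ} (ht : 0 < t) : Ef q t - Ef ((1 + X) * q) t = Ef (-X * q) t :=
  eq_of_pt fun a ha => by
    simp only [ContinuousMap.sub_apply, Ef_pt _ ht ha, eval_mul, eval_add, eval_one, eval_X,
      eval_neg]
    ring

theorem pf_add {s t : ℝ} (hs : 0 ≤ s) (ht : 0 ≤ t) : pf s * pf t = pf (s + t) :=
  eq_of_pt fun a ha => by
    rw [ContinuousMap.mul_apply, pf_pt hs ha, pf_pt ht ha, pf_pt (add_nonneg hs ht) ha, ← exp_add]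
    ring_nf

theorem pf_Ef (q : ℝ[X]) {s t : ℝ} (hs : 0 ≤ s) (ht : 0 < t) : pf s * Ef q t = Ef q (s + t) :=
  eq_of_pt fun a ha => by
    rw [ContinuousMap.mul_apply, pf_pt hs ha, Ef_pt _ ht ha,
      Ef_pt _ (add_pos_of_nonneg_of_pos hs ht) ha, mul_left_comm, ← exp_add]
    ring_nf

theorem Ef_half {t : ℝ} (ht : 0 < t) :
    Ef (-X * 1) (t / 2) * Ef (-X * 1) (t / 2) = Ef (-X * (-X * 1)) t :=
  eq_of_pt fun a ha => by
    simp only [ContinuousMap.mul_apply, Ef_pt _ (half_pos ht) ha, Ef_pt _ ht ha, eval_mul, eval_neg,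
      eval_X, eval_one]
    rw [mul_mul_mul_comm, ← exp_add]
    ring_nf

theorem Ef_comm {t : ℝ} (ht : 0 < t) : Ef (-X * 1) t * jj = pf t * (jj - 1) :=
  eq_of_pt fun a ha => by
    simp only [ContinuousMap.mul_apply, ContinuousMap.sub_apply, ContinuousMap.one_apply,
      Ef_pt _ ht ha, pf_pt ht.le ha, jj_pt ha, eval_mul, eval_neg, eval_X, eval_one]
    field_simp
    ring

theorem hf_lap {ε : ℝ} (hε : 0 < ε) : jj * hf ε - hf ε = ε⁻¹ • (jj * hf ε - 1) :=
  eq_of_pt fun a ha => by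
    simp only [ContinuousMap.sub_apply, ContinuousMap.smul_apply, ContinuousMap.one_apply,
      rf_pt hε ha, hf_pt hε ha, smul_eq_mul]
    field_simp
    ring

theorem hf_inv {ε : ℝ} (hε : 0 < ε) : jj * hf ε * (jj - ε • (jj - 1)) = jj :=
  eq_of_pt fun a ha => by
    rw [ContinuousMap.mul_apply, rf_pt hε ha]
    simp only [ContinuousMap.sub_apply, ContinuousMap.smul_apply, ContinuousMap.one_apply,
      jj_pt ha, smul_eq_mul]
    field_simp
    ring

theorem mul_exp_le (x : ℝ) : x * exp (-x) ≤ 1 - exp (-x) := by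
  have h := mul_le_mul_of_nonneg_right (add_one_le_exp x) (exp_pos (-x)).le
  rw [← exp_add, add_neg_cancel, exp_zero] at h
  linarith only [h]

theorem exp_le {x : ℝ} (hx : 0 ≤ x) : exp (-x) ≤ 1 := exp_le_one_iff.2 (neg_nonpos.2 hx)

theorem pf_mem (t : ℝ) {a : ℝ} (ha : 0 ≤ a) : 0 ≤ pf t (pt a) ∧ pf t (pt a) ≤ 1 := by
  rcases le_total t 0 with h | h
  · simp [pf_neg h]
  · rw [pf_pt h ha]
    exact ⟨(exp_pos _).le, exp_le (mul_nonneg h ha)⟩

theorem norm_pf (t : ℝ) : ‖pf t‖ ≤ 1 :=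
  norm_le_of_pt fun _ ha => abs_le.2 ⟨by linarith only [(pf_mem t ha).1], (pf_mem t ha).2⟩

theorem norm_lf {t : ℝ} (ht : 0 < t) : ‖Ef (-X * 1) t‖ ≤ t⁻¹ :=
  norm_le_of_pt fun a ha => by
    simp only [Ef_pt _ ht ha, eval_neg, eval_X, mul_one, neg_mul, abs_neg]
    rw [abs_of_nonneg (by positivity), ← one_div, le_div_iff₀ ht]
    linarith only [mul_exp_le (t * a), exp_pos (-(t * a))]

theorem norm_rf {ε : ℝ} (hε : 0 < ε) : ‖jj * hf ε‖ ≤ 1 :=
  norm_le_of_pt fun a ha => by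
    rw [rf_pt hε ha, abs_of_nonneg (by positivity)]
    exact inv_le_one_of_one_le₀ (le_add_of_nonneg_right (by positivity))

theorem en_pt {t a : ℝ} (ht : 0 < t) (ha : 0 ≤ a) :
    ((jj - jj * jj) * (Ef ((1 + X) * 1) t * Ef ((1 + X) * 1) t)) (pt a) =
      a * exp (-(2 * t * a)) := by
  simp only [ContinuousMap.mul_apply, ContinuousMap.sub_apply, jj_pt ha, Ef_pt _ ht ha, eval_mul,
    eval_add, eval_one, eval_X]
  rw [show -(2 * t * a) = -(t * a) + -(t * a) by ring, exp_add]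
  field_simp
  ring

theorem en_le {t : ℝ} (ht : 0 < t) (s : Icc (0 : ℝ) 1) :
    ((jj - jj * jj) * (Ef ((1 + X) * 1) t * Ef ((1 + X) * 1) t)) s ≤ (t⁻¹ • (1 : CI)) s := by
  refine le_of_pt (fun a ha => ?_) s
  rw [en_pt ht ha, ContinuousMap.smul_apply, ContinuousMap.one_apply, smul_eq_mul, inv_mul_eq_div,
    le_div_iff₀ ht]
  nlinarith only [mul_exp_le (2 * t * a), exp_pos (-(2 * t * a)),
    mul_nonneg (mul_nonneg ht.le ha) (exp_pos (-(2 * t * a))).le]

theorem en_le' {t : ℝ} (ht : 0 < t) (s : Icc (0 : ℝ) 1) :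
    ((jj - jj * jj) * (Ef ((1 + X) * 1) (t / 2) * Ef ((1 + X) * 1) (t / 2))) s ≤
      (t⁻¹ • (1 - pf t)) s := by
  refine le_of_pt (fun a ha => ?_) s
  rw [en_pt (half_pos ht) ha, ContinuousMap.smul_apply, ContinuousMap.sub_apply,
    ContinuousMap.one_apply, smul_eq_mul, inv_mul_eq_div, le_div_iff₀ ht, pf_pt ht.le ha,
    show 2 * (t / 2) * a = t * a by ring]
  linarith only [mul_exp_le (t * a)]

theorem en_mono (t : ℝ) (s : Icc (0 : ℝ) 1) : ((1 - jj) * (pf t * pf t)) s ≤ (1 - jj) s := by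
  refine le_of_pt (fun a ha => ?_) s
  simp only [ContinuousMap.mul_apply, ContinuousMap.sub_apply, ContinuousMap.one_apply, jj_pt ha]
  exact mul_le_of_le_one_right (sub_nonneg.2 (inv_le_one_of_one_le₀ (by linarith only [ha])))
    (mul_le_one₀ (pf_mem t ha).2 (pf_mem t ha).1 (pf_mem t ha).2)

theorem lf_le {t : ℝ} (ht : 0 < t) (s : Icc (0 : ℝ) 1) :
    (jj * (Ef (-X * 1) t * Ef (-X * 1) t)) s ≤ (t⁻¹ • (1 - jj)) s := by
  refine le_of_pt (fun a ha => ?_) s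
  simp only [ContinuousMap.mul_apply, ContinuousMap.sub_apply, ContinuousMap.one_apply, jj_pt ha,
    ContinuousMap.smul_apply, smul_eq_mul, Ef_pt _ ht ha, eval_mul, eval_neg, eval_X, eval_one]
  have h1 : t * a * exp (-(t * a)) * exp (-(t * a)) ≤ 1 :=
    mul_le_one₀ (by linarith only [mul_exp_le (t * a), exp_pos (-(t * a))]) (exp_pos _).le
      (exp_le (by positivity))
  calc _ = t⁻¹ * (a * (1 + a)⁻¹) * (t * a * exp (-(t * a)) * exp (-(t * a))) := by field_simp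
    _ ≤ t⁻¹ * (a * (1 + a)⁻¹) := mul_le_of_le_one_right (by positivity) h1
    _ = _ := by field_simp; ring

/-- A bound by `c * a ^ 2` or `c * a` survives multiplication by the square of the variable. -/
theorem norm_jj_le {f : CI} {c : ℝ} (h : ∀ a, 0 ≤ a → |f (pt a)| ≤ c * (1 + a) ^ 2) :
    ‖f * (jj * jj)‖ ≤ c :=
  norm_le_of_pt fun a ha => by
    simp only [ContinuousMap.mul_apply, jj_pt ha]
    rw [abs_mul, abs_of_nonneg (by positivity : 0 ≤ (1 + a)⁻¹ * (1 + a)⁻¹), ← mul_inv,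
      ← div_eq_mul_inv, div_le_iff₀ (by positivity), ← sq]
    exact h a ha

theorem exp_rem {x : ℝ} (hx : 0 ≤ x) :
    0 ≤ exp (-x) - 1 + x ∧ exp (-x) - 1 + x ≤ x ∧ exp (-x) - 1 + x ≤ x ^ 2 := by
  refine ⟨by linarith only [add_one_le_exp (-x)], by linarith only [exp_le hx], ?_⟩
  nlinarith only [mul_exp_le x, add_one_le_exp (-x), hx]

theorem pf_sub {t : ℝ} (ht : 0 < t) : ‖pf t - 1‖ ≤ 1 ∧ ‖(pf t - 1) * (jj * jj)‖ ≤ t := by
  refine ⟨norm_le_of_pt fun a ha => ?_, norm_jj_le fun a ha => ?_⟩ <;>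
    rw [ContinuousMap.sub_apply, ContinuousMap.one_apply, abs_sub_comm,
      abs_of_nonneg (sub_nonneg.2 (pf_mem t ha).2)]
  · linarith only [(pf_mem t ha).1]
  · rw [pf_pt ht.le ha]
    nlinarith only [(exp_rem (mul_nonneg ht.le ha)).1, mul_nonneg ht.le ha, ht,
      mul_nonneg ht.le (sq_nonneg a)]

/-- The error in the difference quotient at time zero. -/
def gf (t : ℝ) : CI := t⁻¹ • ((pf t - 1) * jj) - (jj - 1)

theorem gf_le {t : ℝ} (ht : 0 < t) : ‖gf t‖ ≤ 1 ∧ ‖gf t * (jj * jj)‖ ≤ t := by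
  have e : ∀ a, 0 ≤ a → |gf t (pt a)| = (exp (-(t * a)) - 1 + t * a) / (t * (1 + a)) :=
    fun a ha => by
      rw [← abs_of_nonneg (div_nonneg (exp_rem (mul_nonneg ht.le ha)).1
        (by positivity : 0 ≤ t * (1 + a)))]
      congr 1
      simp only [gf, ContinuousMap.mul_apply, ContinuousMap.sub_apply, ContinuousMap.one_apply,
        jj_pt ha, ContinuousMap.smul_apply, smul_eq_mul, pf_pt ht.le ha]
      field_simp
      ring
  refine ⟨norm_le_of_pt fun a ha => ?_, norm_jj_le fun a ha => ?_⟩ <;>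
    rw [e a ha, div_le_iff₀ (by positivity)]
  · linarith only [(exp_rem (mul_nonneg ht.le ha)).2.1, ht]
  · refine (exp_rem (mul_nonneg ht.le ha)).2.2.trans ?_
    rw [mul_pow, show t * (1 + a) ^ 2 * (t * (1 + a)) = t ^ 2 * ((1 + a) ^ 2 * (1 + a)) by ring]
    gcongr
    nlinarith only [ha, sq_nonneg a, mul_nonneg ha (sq_nonneg a)]

theorem rf_sub {ε : ℝ} (hε : 0 < ε) :
    ‖jj * hf ε - 1‖ ≤ 1 ∧ ‖(jj * hf ε - 1) * (jj * jj)‖ ≤ ε := by
  have e : ∀ a, 0 ≤ a → |(jj * hf ε - 1) (pt a)| = ε * a / (1 + ε * a) := fun a ha => by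
    rw [← abs_of_nonneg (by positivity : 0 ≤ ε * a / (1 + ε * a)), ← abs_neg,
      ContinuousMap.sub_apply, rf_pt hε ha, ContinuousMap.one_apply]
    congr 1
    field_simp
    ring
  refine ⟨norm_le_of_pt fun a ha => ?_, norm_jj_le fun a ha => ?_⟩ <;> rw [e a ha]
  · exact div_le_one_of_le₀ (by linarith only []) (by positivity)
  · refine (div_le_self (by positivity) (le_add_of_nonneg_right (by positivity))).trans ?_
    gcongr
    nlinarith only [ha, sq_nonneg a]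

theorem rf_pow {t : ℝ} (ht : 0 < t) {n : ℕ} (hn : 0 < n) :
    ‖(jj * hf (t / n)) ^ n - pf t‖ ≤ 2 ∧
      ‖((jj * hf (t / n)) ^ n - pf t) * (jj * jj)‖ ≤ t ^ 2 / n := by
  have hε : 0 < t / n := by positivity
  refine ⟨(norm_sub_le _ _).trans ?_, norm_jj_le fun a ha => ?_⟩
  · linarith only [norm_pf t, (norm_pow_le' (jj * hf (t / n)) hn).trans
      (pow_le_one₀ (norm_nonneg _) (norm_rf hε))]
  · have hy : 0 ≤ t / n * a := by positivity
    have e : exp (-(t * a)) = exp (-(t / n * a)) ^ n := by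
      rw [← exp_nat_mul]
      congr 1
      field_simp
    rw [ContinuousMap.sub_apply, ContinuousMap.pow_apply, rf_pt hε ha, pf_pt ht.le ha, e]
    generalize hy' : t / n * a = y at hy
    have h1 : (1 + y)⁻¹ ≤ 1 := inv_le_one_of_one_le₀ (by linarith only [hy])
    have h2 : exp (-y) ≤ (1 + y)⁻¹ := by
      rw [exp_neg]
      exact inv_anti₀ (by positivity) (by linarith only [add_one_le_exp y])
    have h3 : (1 + y)⁻¹ - exp (-y) ≤ y ^ 2 := by
      have : (1 + y)⁻¹ ≤ 1 - y + y ^ 2 := by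
        rw [inv_le_iff_one_le_mul₀ (by positivity)]
        nlinarith only [pow_nonneg hy 3]
      linarith only [this, add_one_le_exp (-y)]
    refine (abs_pow_sub_pow_le _ _ n).trans ?_
    rw [abs_of_nonneg (sub_nonneg.2 h2), abs_of_pos (exp_pos _),
      abs_of_nonneg (by positivity : 0 ≤ (1 + y)⁻¹), max_eq_left h2]
    calc _ ≤ y ^ 2 * n * 1 := by
          gcongr
          exact pow_le_one₀ (by positivity) h1
      _ = t ^ 2 / n * a ^ 2 := by rw [← hy']; field_simp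
      _ ≤ _ := by gcongr; linarith only []

end RC.Sg
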