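import Pool.Agent.P.MP_6472e5_gt.SgB

/-! The semigroup of a densely embedded Hilbert space. -/

set_option autoImplicit false
set_option linter.unusedSectionVars false

noncomputable section

namespace RC.Sg

open Set Filter Topology Polynomial ContinuousLinearMap
open scoped InnerProductSpace

variable {H : Type*} [NormedAddCommGroup H] [InnerProductSpace ℝ H] [CompleteSpace H]
  {V : Type*} [NormedAddCommGroup V] [InnerProductSpace ℝ V] [CompleteSpace V]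

namespace Ctr

variable {J : H →L[ℝ] H} (hJ : Ctr J) (hd : DenseRange J)
include hJ

omit hJ in
theorem fc_deriv (q : ℝ[X]) {t : ℝ} (ht : 0 < t) (x : H) :
    HasDerivAt (fun s => fc J (Ef q s) x) (fc J (Ef (-X * q) t) x) t :=
  (((ContinuousLinearMap.apply ℝ H x).comp (fc J)).hasFDerivAt.comp_hasDerivAt t (Ef_deriv q ht) :)

theorem norm_le {f : CI} {c : ℝ} (h : ‖f‖ ≤ c) (x : H) : ‖fc J f x‖ ≤ c * ‖x‖ :=
  (fc J f).le_of_opNorm_le ((hJ.norm_fc f).trans h) x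

include hd

theorem strong' {ι : Type*} {l : Filter ι} {f : ι → CI} {g : CI} {C : ℝ} {e : ι → ℝ}
    (he : Tendsto e l (𝓝 0)) (h : ∀ᶠ i in l, ‖f i - g‖ ≤ C ∧ ‖(f i - g) * (jj * jj)‖ ≤ e i)
    (x : H) : Tendsto (fun i => fc J (f i) x) l (𝓝 (fc J g x)) := by
  have h1 := hJ.strong hd (h.mono fun _ h => h.1) (squeeze_zero' (Eventually.of_forall fun _ =>
    norm_nonneg _) (h.mono fun _ h => h.2) he) x
  simp only [map_sub, sub_apply] at h1
  exact tendsto_sub_nhds_zero_iff.1 h1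

theorem P_zero (x : H) : Tendsto (fun t => fc J (pf t) x) (𝓝[>] 0) (𝓝 x) := by
  have h := hJ.strong' hd (l := 𝓝[>] (0 : ℝ)) (tendsto_id.mono_left nhdsWithin_le_nhds)
    (eventually_mem_nhdsWithin.mono fun t (ht : 0 < t) => pf_sub ht) x
  rwa [hJ.fc_one] at h

theorem gf_zero (x : H) : Tendsto (fun t => fc J (gf t) x) (𝓝[>] 0) (𝓝 0) := by
  have h := hJ.strong' hd (l := 𝓝[>] (0 : ℝ)) (f := gf) (g := 0) (C := 1)
    (tendsto_id.mono_left nhdsWithin_le_nhds)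
    (eventually_mem_nhdsWithin.mono fun t (ht : 0 < t) => by simpa using gf_le ht) x
  rwa [map_zero] at h

theorem res_lim {ε : ℕ → ℝ} (h0 : ∀ k, 0 < ε k) (hε : Tendsto ε atTop (𝓝 0)) (x : H) :
    Tendsto (fun k => fc J (jj * hf (ε k)) x) atTop (𝓝 x) := by
  simpa [hJ.fc_one] using hJ.strong' hd hε (Eventually.of_forall fun k => rf_sub (h0 k)) x

theorem maps_pf {K : Set H} (hK : IsClosed K) (h : ∀ ε, 0 < ε → MapsTo (fc J (jj * hf ε)) K K)
    (t : ℝ) : MapsTo (fc J (pf t)) K K := fun x hx => by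
  rcases le_or_gt t 0 with ht | ht
  · rwa [pf_neg ht, hJ.fc_one]
  refine hK.mem_of_tendsto (hJ.strong' hd (tendsto_const_div_atTop_nhds_zero_nat (t ^ 2))
    ((eventually_gt_atTop 0).mono fun n hn => rf_pow ht hn) x)
    ((eventually_gt_atTop 0).mono fun n hn => ?_)
  rw [hJ.fc_pow, FunLike.coe_pow_eq_iterate]
  exact (h _ (by positivity)).iterate n hx

end Ctr

/-- A dense embedding of norm at most one. -/
structure Pair (ι : V →L[ℝ] H) : Prop where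
  le : ∀ v, ‖ι v‖ ≤ ‖v‖
  inj : Function.Injective ι
  dense : DenseRange ι

/-- The resolvent on the large space. -/
def Jh (ι : V →L[ℝ] H) : H →L[ℝ] H := ι ∘L adjoint ι

/-- The resolvent on the small space. -/
def Jv (ι : V →L[ℝ] H) : V →L[ℝ] V := adjoint ι ∘L ι

/-- The energy. -/
def en (ι : V →L[ℝ] H) (v w : V) : ℝ := ⟪v, w⟫_ℝ - ⟪ι v, ι w⟫_ℝ

/-- The lift of the flow to the small space. -/
def lift (ι : V →L[ℝ] H) (q : ℝ[X]) (t : ℝ) (x : H) : V :=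
  adjoint ι (fc (Jh ι) (Ef ((1 + X) * q) t) x)

/-- The symbol of the generator along the flow. -/
abbrev lf (t : ℝ) : CI := Ef (-X * 1) t

variable {ι : V →L[ℝ] H}

theorem en_self (v : V) : en ι v v = ‖v‖ ^ 2 - ‖ι v‖ ^ 2 := by
  rw [en, real_inner_self_eq_norm_sq, real_inner_self_eq_norm_sq]

theorem en_le_sq (v : V) : en ι v v ≤ ‖v‖ ^ 2 := by
  rw [en_self]
  exact sub_le_self _ (sq_nonneg _)

theorem en_sub (u v w : V) : en ι (u - v) w = en ι u w - en ι v w := by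
  rw [en, map_sub, inner_sub_left, inner_sub_left, sub_sub_sub_comm, en, en]

theorem en_adj (y : H) (w : V) : en ι (adjoint ι y) w = -⟪Jh ι y - y, ι w⟫_ℝ := by
  rw [en, adjoint_inner_left, inner_sub_left, neg_sub]
  rfl

theorem eq_adj {v : V} {g : H} (h : ∀ w, en ι v w = -⟪g, ι w⟫_ℝ) : v = adjoint ι (ι v - g) :=
  ext_inner_right ℝ fun w => by
    rw [adjoint_inner_left, inner_sub_left, sub_eq_add_neg, ← h, en, add_sub_cancel]

theorem lift_deriv (q : ℝ[X]) {t : ℝ} (ht : 0 < t) (x : H) :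
    HasDerivAt (fun s => lift ι q s x) (lift ι (-X * q) t x) t := by
  have h := (adjoint ι).hasFDerivAt.comp_hasDerivAt t (Ctr.fc_deriv (J := Jh ι) ((1 + X) * q) ht x)
  rwa [mul_left_comm] at h

namespace Pair

variable (h : Pair ι)
include h

theorem en_nonneg (v : V) : 0 ≤ en ι v v := by
  rw [en_self]
  exact sub_nonneg.2 (pow_le_pow_left₀ (norm_nonneg _) (h.le v) 2)

theorem ctrH : Ctr (Jh ι) := by
  have e : ∀ x y, ⟪Jh ι x, y⟫_ℝ = ⟪adjoint ι x, adjoint ι y⟫_ℝ := fun x y => by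
    rw [adjoint_inner_right]; rfl
  refine ⟨fun x y => by rw [e, ← real_inner_comm, ← e, real_inner_comm], fun x => ?_, fun x => ?_⟩ <;>
    rw [e, real_inner_self_eq_norm_sq]
  · exact sq_nonneg _
  · refine pow_le_pow_left₀ (norm_nonneg _) (((adjoint ι).le_of_opNorm_le (c := 1) ?_ x).trans_eq
      (one_mul _)) 2
    rw [LinearIsometryEquiv.norm_map]
    exact ι.opNorm_le_bound zero_le_one fun v => by simpa using h.le v

theorem ctrV : Ctr (Jv ι) := by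
  have e : ∀ x y, ⟪Jv ι x, y⟫_ℝ = ⟪ι x, ι y⟫_ℝ := fun x y => adjoint_inner_left ι y (ι x)
  refine ⟨fun x y => by rw [e, ← real_inner_comm, ← e, real_inner_comm], fun x => ?_, fun x => ?_⟩ <;>
    rw [e, real_inner_self_eq_norm_sq]
  · exact sq_nonneg _
  · exact pow_le_pow_left₀ (norm_nonneg _) (h.le x) 2

theorem dense_adj : DenseRange (adjoint ι) := by
  have : (adjoint ι).range.topologicalClosure = ⊤ := by
    rw [Submodule.topologicalClosure_eq_top_iff, Submodule.eq_bot_iff]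
    intro v hv
    refine h.inj ?_
    rw [map_zero, ← inner_self_eq_zero (𝕜 := ℝ), ← adjoint_inner_left]
    exact hv _ ⟨_, rfl⟩
  exact Submodule.dense_iff_topologicalClosure_eq_top.2 this

theorem denseH : DenseRange (Jh ι) := h.dense.comp h.dense_adj ι.continuous

theorem denseV : DenseRange (Jv ι) := h.dense_adj.comp h.dense (adjoint ι).continuous

theorem inter (f : CI) (v : V) : ι (fc (Jv ι) f v) = fc (Jh ι) f (ι v) :=
  h.ctrV.inter h.ctrH (fun _ => rfl) f v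

theorem emb_adj (f : CI) (x : H) : ι (adjoint ι (fc (Jh ι) f x)) = fc (Jh ι) (jj * f) x := by
  rw [← h.ctrH.fc_fc, h.ctrH.fc_jj]; rfl

theorem emb_lift (q : ℝ[X]) {t : ℝ} (ht : 0 < t) (x : H) :
    ι (lift ι q t x) = fc (Jh ι) (Ef q t) x := by
  rw [lift, h.emb_adj, jj_Ef q ht]

theorem lap_adj (f : CI) (x : H) (w : V) :
    en ι (adjoint ι (fc (Jh ι) f x)) w = -⟪fc (Jh ι) (jj * f - f) x, ι w⟫_ℝ := by
  rw [en_adj, map_sub, sub_apply, ← h.emb_adj]; rfl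

theorem lap_lift (q : ℝ[X]) {t : ℝ} (ht : 0 < t) (x : H) (w : V) :
    en ι (lift ι q t x) w = -⟪fc (Jh ι) (Ef (-X * q) t) x, ι w⟫_ℝ := by
  rw [lift, h.lap_adj, jj_Ef q ht, Ef_sub q ht]

theorem en_lift (t : ℝ) (x : H) : en ι (lift ι 1 t x) (lift ι 1 t x) =
    ⟪fc (Jh ι) ((jj - jj * jj) * (Ef ((1 + X) * 1) t * Ef ((1 + X) * 1) t)) x, x⟫_ℝ := by
  rw [lift, h.lap_adj, h.emb_adj, ← h.ctrH.fc_symm, h.ctrH.fc_fc, ← inner_neg_left, ← neg_apply,
    ← map_neg]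
  congr 3
  ring

theorem inner_fc (f : CI) (v w : V) :
    ⟪fc (Jh ι) f (ι v), ι w⟫_ℝ = ⟪fc (Jv ι) (jj * f) v, w⟫_ℝ := by
  rw [← h.ctrV.fc_fc, h.ctrV.fc_jj, ← h.inter, ← adjoint_inner_left]; rfl

theorem en_eq (v w : V) : en ι v w = ⟪fc (Jv ι) (1 - jj) v, w⟫_ℝ := by
  rw [map_sub, h.ctrV.fc_one, h.ctrV.fc_jj, sub_apply, inner_sub_left, en, ← adjoint_inner_left]
  rfl

theorem E_le {t : ℝ} (ht : 0 < t) (x : H) : en ι (lift ι 1 t x) (lift ι 1 t x) ≤ ‖x‖ ^ 2 / t := by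
  rw [h.en_lift]
  refine (h.ctrH.fc_mono (en_le ht) x).trans_eq ?_
  simp [h.ctrH.fc_one, inner_smul_left, inv_mul_eq_div]

theorem E_le' {t : ℝ} (ht : 0 < t) (x : H) : en ι (lift ι 1 (t / 2) x) (lift ι 1 (t / 2) x) ≤
    t⁻¹ * ⟪x - fc (Jh ι) (pf t) x, x⟫_ℝ := by
  rw [h.en_lift]
  refine (h.ctrH.fc_mono (en_le' ht) x).trans_eq ?_
  simp [h.ctrH.fc_one, inner_smul_left]

theorem E_mono (t : ℝ) (v : V) : en ι (fc (Jv ι) (pf t) v) (fc (Jv ι) (pf t) v) ≤ en ι v v := by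
  rw [h.en_eq, h.en_eq, ← h.ctrV.fc_symm, h.ctrV.fc_fc, h.ctrV.fc_fc, mul_comm (pf t), mul_assoc]
  exact h.ctrV.fc_mono (en_mono t) v

theorem L_le' {t : ℝ} (ht : 0 < t) (v : V) :
    ‖fc (Jh ι) (Ef (-X * 1) t) (ι v)‖ ^ 2 ≤ en ι v v / t := by
  rw [h.ctrH.norm_sq, h.inner_fc, h.en_eq]
  refine (h.ctrV.fc_mono (lf_le ht) v).trans_eq ?_
  rw [map_smul, smul_apply, real_inner_smul_left, inv_mul_eq_div]

theorem comm {t : ℝ} (ht : 0 < t) {v : V} {g : H} (e : ∀ w, en ι v w = -⟪g, ι w⟫_ℝ) :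
    fc (Jh ι) (Ef (-X * 1) t) (ι v) = fc (Jh ι) (pf t) g ∧
      t⁻¹ • (fc (Jh ι) (pf t) (ι v) - ι v) - g = fc (Jh ι) (gf t) (ι v - g) := by
  have e1 : ι v = fc (Jh ι) jj (ι v - g) := by
    rw [h.ctrH.fc_jj]
    exact congrArg ι (eq_adj e)
  generalize hy : ι v - g = y at e1
  have e2 : g = fc (Jh ι) (jj - 1) y := by
    rw [map_sub, sub_apply, h.ctrH.fc_one, ← e1, ← hy]
    simp
  rw [e1, e2, h.ctrH.fc_fc, h.ctrH.fc_fc, h.ctrH.fc_fc, Ef_comm ht]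
  simp [gf, sub_mul]

theorem form (v w : V) : Tendsto (fun t => t⁻¹ * ⟪ι v - fc (Jh ι) (pf t) (ι v), ι w⟫_ℝ) (𝓝[>] 0)
    (𝓝 (en ι v w)) ∧
    Tendsto (fun t => ‖fc (Jh ι) (pf t) (ι v) - ι v‖ ^ 2 / t) (𝓝[>] 0) (𝓝 0) := by
  have e : ∀ t w, t⁻¹ * ⟪ι v - fc (Jh ι) (pf t) (ι v), ι w⟫_ℝ =
      ⟪fc (Jv ι) (1 - jj) v - fc (Jv ι) (gf t) v, w⟫_ℝ := fun t w => by
    have h1 := h.inner_fc (1 - pf t) v w
    rw [map_sub, h.ctrH.fc_one, sub_apply, one_apply_eq_self] at h1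
    rw [h1, ← real_inner_smul_left, ← smul_apply, ← map_smul, ← sub_apply, ← map_sub]
    congr 3
    simp only [gf, sub_mul, smul_sub, mul_comm jj]
    abel
  have h1 := (h.ctrV.gf_zero h.denseV v).const_sub (fc (Jv ι) (1 - jj) v)
  refine ⟨?_, ?_⟩
  · simpa only [e, h.en_eq, sub_zero] using h1.inner (𝕜 := ℝ) (tendsto_const_nhds (x := w))
  · have h2 := h1.inner (𝕜 := ℝ) ((h.ctrV.P_zero h.denseV v).const_sub v)
    rw [sub_self, inner_zero_right] at h2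
    refine h2.congr fun t => ?_
    rw [← e, map_sub, h.inter, real_inner_self_eq_norm_sq, norm_sub_rev, inv_mul_eq_div]

theorem lap_res {ε : ℝ} (hε : 0 < ε) (x : H) (w : V) : en ι (adjoint ι (fc (Jh ι) (hf ε) x)) w =
    -⟪ε⁻¹ • (fc (Jh ι) (jj * hf ε) x - x), ι w⟫_ℝ := by
  rw [h.lap_adj, hf_lap hε]
  simp [h.ctrH.fc_one]

theorem res_uniq {ε : ℝ} (hε : 0 < ε) {x : H} {v : V}
    (e : ∀ w, en ι v w = -⟪ε⁻¹ • (ι v - x), ι w⟫_ℝ) : ι v = fc (Jh ι) (jj * hf ε) x := by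
  have e1 : ι v = fc (Jh ι) jj (ι v - ε⁻¹ • (ι v - x)) := by
    rw [h.ctrH.fc_jj]
    exact congrArg ι (eq_adj e)
  generalize hy : ι v - ε⁻¹ • (ι v - x) = y at e1
  have e2 : x = fc (Jh ι) (jj - ε • (jj - 1)) y := by
    rw [map_sub, map_smul, map_sub, h.ctrH.fc_one, sub_apply, smul_apply, sub_apply, ← e1, ← hy]
    simp [smul_smul, hε.ne']
  rw [e1, e2, h.ctrH.fc_fc, hf_inv hε]

theorem res_min {ε : ℝ} (hε : 0 < ε) {x : H} {v w : V}
    (e : ∀ w, en ι v w = -⟪ε⁻¹ • (ι v - x), ι w⟫_ℝ) (h1 : ‖ι w - x‖ ≤ ‖ι v - x‖)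
    (h2 : en ι w w ≤ en ι v v) : ι w = ι v := by
  obtain ⟨φ, rfl⟩ : ∃ φ, w = v + φ := ⟨w - v, by simp⟩
  have a1 : en ι (v + φ) (v + φ) = en ι v v + 2 * en ι v φ + en ι φ φ := by
    simp only [en, map_add, real_inner_add_add_self]
    ring
  have a2 := norm_add_sq_real (ι v - x) (ι φ)
  have a3 : ε * en ι v φ = -⟪ι v - x, ι φ⟫_ℝ := by
    rw [e, real_inner_smul_left]
    field_simp
  rw [map_add, add_sub_right_comm] at h1
  have a4 := pow_le_pow_left₀ (norm_nonneg _) h1 2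
  have a5 : ‖ι φ‖ ^ 2 ≤ 0 := by
    have a6 : ε * (2 * en ι v φ + en ι φ φ) ≤ 0 :=
      mul_nonpos_of_nonneg_of_nonpos hε.le (by linarith only [a1, h2])
    have a7 := mul_nonneg hε.le (h.en_nonneg φ)
    rw [mul_add, mul_left_comm, a3] at a6
    linarith only [a2, a4, a6, a7]
  rw [map_add, norm_eq_zero.1 (pow_eq_zero_iff two_ne_zero |>.1 (a5.antisymm (sq_nonneg _))),
    add_zero]

theorem heat_uniq {y : ℝ → V} {z : ℝ → H} {x : H}
    (hd : ∀ t, 0 < t → HasDerivAt (fun s => ι (y s)) (z t) t)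
    (e : ∀ t, 0 < t → ∀ w, en ι (y t) w = -⟪z t, ι w⟫_ℝ)
    (h0 : Tendsto (fun t => ι (y t)) (𝓝[>] 0) (𝓝 x)) {t : ℝ} (ht : 0 < t) :
    ι (y t) = fc (Jh ι) (pf t) x ∧ z t = fc (Jh ι) (Ef (-X * 1) t) x := by
  have d : ∀ t, 0 < t → HasDerivAt (fun s => ‖ι (y s) - fc (Jh ι) (Ef 1 s) x‖ ^ 2)
      (-(2 * en ι (y t - lift ι 1 t x) (y t - lift ι 1 t x))) t := fun t ht => by
    refine ((hd t ht).fun_sub (Ctr.fc_deriv (J := Jh ι) 1 ht x)).norm_sq.congr_deriv ?_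
    rw [en_sub, e t ht, h.lap_lift 1 ht, map_sub, h.emb_lift 1 ht, neg_sub_neg, ← inner_sub_left,
      ← mul_neg, ← inner_neg_left, neg_sub, real_inner_comm]
  have a : AntitoneOn (fun s => ‖ι (y s) - fc (Jh ι) (Ef 1 s) x‖ ^ 2) (Ioi 0) :=
    antitoneOn_of_hasDerivWithinAt_nonpos (convex_Ioi 0)
      (fun s hs => (d s hs).continuousAt.continuousWithinAt)
      (fun s hs => (d s (interior_subset hs)).hasDerivWithinAt)
      fun s _ => neg_nonpos.2 (mul_nonneg zero_le_two (h.en_nonneg _))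
  have l := (h0.sub (h.ctrH.P_zero h.denseH x)).norm.pow 2
  rw [sub_self, norm_zero, zero_pow two_ne_zero] at l
  have u : ι (y t) = fc (Jh ι) (Ef 1 t) x := by
    refine sub_eq_zero.1 (norm_eq_zero.1 (pow_eq_zero_iff two_ne_zero |>.1
      (le_antisymm (ge_of_tendsto l ?_) (sq_nonneg _))))
    filter_upwards [Ioo_mem_nhdsGT ht] with s hs
    rw [pf_pos hs.1]
    exact a hs.1 ht hs.2.le
  refine ⟨by rw [pf_pos ht, u], h.dense.eq_of_inner_left ℝ fun w => neg_injective ?_⟩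
  rw [← e t ht, ← h.lap_lift 1 ht, h.inj (u.trans (h.emb_lift 1 ht x).symm)]

end Pair

end RC.Sg
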