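import Pool.Agent.P.MP_6472e5_gt.SgC
import Pool.Agent.P.MP_6472e5_gt.Ca3

/-! The domain of the form as a Hilbert space. -/

set_option autoImplicit false
set_option linter.unusedSectionVars false

noncomputable section

namespace RC.Sg

open MeasureTheory Set Filter Topology
open scoped InnerProductSpace

variable {X : Type} [MetricSpace X] [SecondCountableTopology X] [MeasurableSpace X] [BorelSpace X]
  {μ : Measure X}

theorem n2_eq {f : X → ℝ} {y : Lp ℝ 2 μ} (h : f =ᵐ[μ] y) : n2 μ f = ‖y‖ ^ 2 := by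
  rw [n2_congr h, n2_eq_norm (Lp.memLp y), Lp.toLp_coeFn]

theorem sub_ae {f g : X → ℝ} {y z : Lp ℝ 2 μ} (hf : f =ᵐ[μ] y) (hg : g =ᵐ[μ] z) :
    f - g =ᵐ[μ] ⇑(y - z) := (hf.sub hg).trans (Lp.coeFn_sub y z).symm

theorem add_ae {f g : X → ℝ} {y z : Lp ℝ 2 μ} (hf : f =ᵐ[μ] y) (hg : g =ᵐ[μ] z) :
    f + g =ᵐ[μ] ⇑(y + z) := (hf.add hg).trans (Lp.coeFn_add y z).symm

theorem smul_ae (c : ℝ) {f : X → ℝ} {y : Lp ℝ 2 μ} (hf : f =ᵐ[μ] y) :
    c • f =ᵐ[μ] ⇑(c • y) := (hf.const_smul c).trans (Lp.coeFn_smul c y).symm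

theorem int_eq {f g : X → ℝ} {y z : Lp ℝ 2 μ} (hf : f =ᵐ[μ] y) (hg : g =ᵐ[μ] z) :
    ∫ x, f x * g x ∂μ = ⟪y, z⟫_ℝ := by
  rw [L2.inner_def]
  refine integral_congr_ae ?_
  filter_upwards [hf, hg] with x h1 h2
  simp [h1, h2, mul_comm]

theorem exists_Lp {f : X → ℝ} (hf : MemLp f 2 μ) : ∃ y : Lp ℝ 2 μ, f =ᵐ[μ] y :=
  ⟨hf.toLp f, hf.coeFn_toLp.symm⟩

theorem memLp_of {f : X → ℝ} {y : Lp ℝ 2 μ} (h : f =ᵐ[μ] y) : MemLp f 2 μ :=
  (Lp.memLp y).ae_eq h.symm

theorem n2_tendsto {ι : Type*} {l : Filter ι} {u : ι → X → ℝ} {f : X → ℝ} {y : ι → Lp ℝ 2 μ}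
    {z : Lp ℝ 2 μ} (hu : ∀ᶠ i in l, u i =ᵐ[μ] y i) (hf : f =ᵐ[μ] z) :
    Tendsto (fun i => n2 μ (u i - f)) l (𝓝 0) ↔ Tendsto y l (𝓝 z) := by
  rw [tendsto_congr' (hu.mono fun i h => n2_eq (sub_ae h hf)),
    tendsto_iff_norm_sub_tendsto_zero (f := y)]
  refine ⟨fun h => ?_, fun h => by simpa only [zero_pow two_ne_zero] using h.pow 2⟩
  simpa only [Real.sqrt_sq (norm_nonneg _), Real.sqrt_zero] using h.sqrt

/-- A Hilbert space that represents the domain of the form. -/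
structure Model (D : DS μ) {V : Type} [NormedAddCommGroup V] [InnerProductSpace ℝ V]
    [CompleteSpace V] (ι : V →L[ℝ] Lp ℝ 2 μ) : Prop extends Pair ι where
  mem : ∀ v, ⇑(ι v) ∈ D.V
  surj : ∀ f ∈ D.V, ∃ v, f =ᵐ[μ] ι v
  int : ∀ v w, ∫ x, D.Γ (ι v) (ι w) x ∂μ = en ι v w

variable (D : DS μ)

/-- The domain as a subspace of `L²`. -/
def VS : Submodule ℝ (Lp ℝ 2 μ) where
  carrier := {x | ⇑x ∈ D.V}
  add_mem' hx hy := D.congr _ (D.add _ hx _ hy) _ (Lp.coeFn_add _ _).symm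
  zero_mem' := D.congr _ D.zero_mem _ (Lp.coeFn_zero _ _ _).symm
  smul_mem' c _ hx := D.congr _ (D.smul c _ hx) _ (Lp.coeFn_smul _ _).symm

/-- The domain without its topology. -/
def VH : Type := VS D

instance : AddCommGroup (VH D) := inferInstanceAs (AddCommGroup (VS D))

instance : Module ℝ (VH D) := inferInstanceAs (Module ℝ (VS D))

/-- The inclusion of the domain. -/
def emb : VH D →ₗ[ℝ] Lp ℝ 2 μ := (VS D).subtype

variable {D}

theorem emb_mem (v : VH D) : ⇑(emb D v) ∈ D.V := v.2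

/-- The form. -/
def bil (v w : VH D) : ℝ := ∫ x, D.Γ (emb D v) (emb D w) x ∂μ

theorem bil_nonneg (v : VH D) : 0 ≤ bil v v := integral_nonneg_of_ae (D.Γ_nonneg _ (emb_mem v))

theorem bil_sub (v w : VH D) :
    ∫ x, D.Γ (⇑(emb D v) - ⇑(emb D w)) (⇑(emb D v) - ⇑(emb D w)) x ∂μ =
    bil (v - w) (v - w) := by
  have h := D.sub_mem (emb_mem v) (emb_mem w)
  have e : ⇑(emb D v) - ⇑(emb D w) =ᵐ[μ] emb D (v - w) := by
    rw [map_sub]
    exact (Lp.coeFn_sub _ _).symm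
  exact integral_congr_ae (D.Γ_congr₂ h h e e)

variable (D)

/-- The inner product of the domain. -/
@[instance_reducible]
def core : InnerProductSpace.Core ℝ (VH D) where
  inner v w := ⟪emb D v, emb D w⟫_ℝ + bil v w
  conj_inner_symm v w := by
    rw [conj_trivial, real_inner_comm, bil,
      integral_congr_ae (D.Γ_symm _ (emb_mem w) _ (emb_mem v)), bil]
  re_inner_nonneg v := add_nonneg real_inner_self_nonneg (bil_nonneg v)
  add_left u v w := by
    have e : bil (u + v) w = bil u w + bil v w := by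
      rw [bil, bil, bil, ← integral_add (D.Γ_int _ (emb_mem u) _ (emb_mem w))
        (D.Γ_int _ (emb_mem v) _ (emb_mem w))]
      refine integral_congr_ae ((D.Γ_congr _ (emb_mem _) _ (emb_mem w) _ ?_).trans
        (D.Γ_add _ (emb_mem u) _ (emb_mem v) _ (emb_mem w)))
      rw [map_add]
      exact Lp.coeFn_add _ _
    rw [e, map_add, inner_add_left, add_add_add_comm]
  smul_left v w c := by
    have e : bil (c • v) w = c * bil v w := by
      rw [bil, bil, ← integral_const_mul]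
      refine integral_congr_ae ((D.Γ_congr _ (emb_mem _) _ (emb_mem w) _ ?_).trans
        (D.Γ_smul c _ (emb_mem v) _ (emb_mem w)))
      rw [map_smul]
      exact Lp.coeFn_smul _ _
    rw [e, map_smul, real_inner_smul_left, conj_trivial, mul_add]
  definite v h := Subtype.ext (inner_self_eq_zero.1
    ((add_eq_zero_iff_of_nonneg real_inner_self_nonneg (bil_nonneg v)).1 h).1)

instance : NormedAddCommGroup (VH D) := (core D).toNormedAddCommGroup

instance : InnerProductSpace ℝ (VH D) := InnerProductSpace.ofCore (core D).toCore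

variable {D}

theorem inner_VH (v w : VH D) : ⟪v, w⟫_ℝ = ⟪emb D v, emb D w⟫_ℝ + bil v w := rfl

theorem norm_VH (v : VH D) : ‖v‖ ^ 2 = ‖emb D v‖ ^ 2 + bil v v := by
  rw [← real_inner_self_eq_norm_sq, inner_VH, real_inner_self_eq_norm_sq]

theorem emb_le (v : VH D) : ‖emb D v‖ ≤ 1 * ‖v‖ := by
  rw [one_mul]
  refine le_of_sq_le_sq ?_ (norm_nonneg _)
  rw [norm_VH]
  exact le_add_of_nonneg_right (bil_nonneg v)

instance : CompleteSpace (VH D) := by
  refine Metric.complete_of_cauchySeq_tendsto fun u hu => ?_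
  obtain ⟨y, hy⟩ := cauchySeq_tendsto_of_complete
    (((emb D).mkContinuous 1 emb_le).uniformContinuous.comp_cauchySeq hu)
  have h1 := (n2_tendsto (u := fun k => ⇑(emb D (u k)))
    (Eventually.of_forall fun _ => EventuallyEq.rfl) EventuallyEq.rfl).2 hy
  obtain ⟨h2, h3⟩ := D.closed _ _ (fun k => emb_mem (u k)) (Lp.memLp y) h1 (by
    refine squeeze_zero (fun p => ?_) (fun p => ?_)
      (by simpa using (cauchySeq_iff_tendsto_dist_atTop_0.1 hu).pow 2) <;> rw [bil_sub]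
    · exact bil_nonneg _
    · rw [dist_eq_norm, norm_VH]
      exact le_add_of_nonneg_left (sq_nonneg _))
  refine ⟨⟨y, h2⟩, tendsto_iff_norm_sub_tendsto_zero.2 ?_⟩
  have h4 := (h1.add h3).sqrt
  rw [add_zero, Real.sqrt_zero] at h4
  refine h4.congr fun k => ?_
  rw [n2_eq (Lp.coeFn_sub _ _).symm, Real.sqrt_eq_iff_eq_sq (add_nonneg (sq_nonneg _)
    (integral_nonneg_of_ae (D.Γ_nonneg _ (D.sub_mem (emb_mem _) h2)))) (norm_nonneg _), norm_VH,
    map_sub, ← bil_sub]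
  rfl

theorem model (D : DS μ) : Model D ((emb D).mkContinuous 1 emb_le) where
  le v := (emb_le v).trans_eq (one_mul _)
  inj := Subtype.val_injective
  dense y := by
    obtain ⟨u, hu, h⟩ := D.exists_lipB_n2 (Lp.memLp y)
    have e := fun k => (D.lipB_memLp (hu k)).coeFn_toLp.symm
    exact mem_closure_of_tendsto ((n2_tendsto (Eventually.of_forall e) EventuallyEq.rfl).1 h)
      (Eventually.of_forall fun k => ⟨⟨_, D.congr _ (D.lip _ (hu k)) _ (e k)⟩, rfl⟩)
  mem := emb_mem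
  surj f hf := ⟨⟨_, D.congr _ hf _ (D.memLp f hf).coeFn_toLp.symm⟩, (D.memLp f hf).coeFn_toLp.symm⟩
  int v w := by
    rw [en, inner_VH]
    exact (add_sub_cancel_left _ _).symm

end RC.Sg
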