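import Pool.Agent.P.MP_6472e5_gt.SgD
import Pool.Agent.P.MP_6472e5_gt.Ca5

/-! The heat flow is given by the functional calculus. -/

set_option autoImplicit false
set_option linter.unusedSectionVars false

noncomputable section

namespace RC.Sg

open MeasureTheory Set Filter Topology ContinuousLinearMap
open scoped InnerProductSpace

variable {X : Type} [MetricSpace X] [SecondCountableTopology X] [MeasurableSpace X] [BorelSpace X]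
  {μ : Measure X}

theorem DQ_ae {u : ℝ → X → ℝ} {y : ℝ → Lp ℝ 2 μ} {t : ℝ} (hu : ∀ᶠ s in 𝓝 t, u s =ᵐ[μ] y s) :
    ∀ᶠ h in 𝓝[≠] (0 : ℝ), DQ u t h =ᵐ[μ] ⇑(h⁻¹ • (y (t + h) - y t)) := by
  have h1 : Tendsto (fun h => t + h) (𝓝[≠] 0) (𝓝 t) :=
    ((continuous_const_add t).tendsto' 0 t (add_zero t)).mono_left nhdsWithin_le_nhds
  refine (h1.eventually hu).mono fun h hh => EventuallyEq.trans (Eventually.of_forall fun a => ?_)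
    (smul_ae h⁻¹ (sub_ae hh hu.self_of_nhds))
  simp [DQ, div_eq_inv_mul]

theorem derL2_iff {u : ℝ → X → ℝ} {w : X → ℝ} {y : ℝ → Lp ℝ 2 μ} {z : Lp ℝ 2 μ} {t : ℝ}
    (hu : ∀ᶠ s in 𝓝 t, u s =ᵐ[μ] y s) (hw : w =ᵐ[μ] z) : DerL2 μ u w t ↔ HasDerivAt y z t := by
  rw [hasDerivAt_iff_tendsto_slope_zero, ← n2_tendsto (DQ_ae hu) hw]
  exact ⟨fun h => h.2.2, fun h => ⟨hu.mono fun _ => memLp_of, memLp_of hw, h⟩⟩

theorem isClosed_fix {T : ℝ → ℝ} (hT : LipschitzWith 1 T) (h0 : T 0 = 0) :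
    IsClosed {x : Lp ℝ 2 μ | hT.compLp h0 x = x} :=
  isClosed_eq (hT.continuous_compLp h0) continuous_id

theorem fix_iff {T : ℝ → ℝ} (hT : LipschitzWith 1 T) (h0 : T 0 = 0) {f : X → ℝ} {x : Lp ℝ 2 μ}
    (hf : f =ᵐ[μ] x) : hT.compLp h0 x = x ↔ ∀ᵐ a ∂μ, T (f a) = f a := by
  rw [Lp.ext_iff]
  refine ⟨fun h => ?_, fun h => ?_⟩ <;>
    filter_upwards [h, hf, hT.coeFn_compLp h0 x] with a h1 h2 h3
  · rw [h2]
    exact h3.symm.trans h1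
  · rw [h3, Function.comp_apply, ← h2, h1]

namespace Model

variable {D : DS μ} {V : Type} [NormedAddCommGroup V] [InnerProductSpace ℝ V] [CompleteSpace V]
  {ι : V →L[ℝ] Lp ℝ 2 μ} (M : Model D ι)
include M

theorem memV {f : X → ℝ} {v : V} (h : f =ᵐ[μ] ι v) : f ∈ D.V := D.congr _ (M.mem v) _ h.symm

theorem G_eq {f g : X → ℝ} {v w : V} (hf : f =ᵐ[μ] ι v) (hg : g =ᵐ[μ] ι w) :
    ∫ a, D.G f g a ∂μ = en ι v w :=
  (integral_congr_ae ((DS.G_eq (M.memV hf) (M.memV hg)).trans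
    (D.Γ_congr₂ (M.memV hf) (M.memV hg) hf hg))).trans (M.int v w)

theorem E_eq {f : X → ℝ} {v : V} (hf : f =ᵐ[μ] ι v) : D.E f = en ι v v := M.G_eq hf hf

theorem lap_iff {f g : X → ℝ} {v : V} {y : Lp ℝ 2 μ} (hf : f =ᵐ[μ] ι v) (hg : g =ᵐ[μ] y) :
    D.Lap f g ↔ ∀ w, en ι v w = -⟪y, ι w⟫_ℝ := by
  refine ⟨fun h w => ?_, fun h => DS.lap_of_test (M.memV hf) (memLp_of hg) fun φ hφ => ?_⟩
  · rw [← M.G_eq hf EventuallyEq.rfl, h.test (M.memV hf) (memLp_of hg) (M.mem w),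
      int_eq hg EventuallyEq.rfl]
  · obtain ⟨w, hw⟩ := M.surj φ hφ
    rw [M.G_eq hf hw, int_eq hg hw, h]

theorem E_tendsto {κ : Type*} {l : Filter κ} {u : κ → X → ℝ} {f : X → ℝ} {v : κ → V} {z : V}
    (hu : ∀ᶠ i in l, u i =ᵐ[μ] ι (v i)) (hf : f =ᵐ[μ] ι z) (h : Tendsto v l (𝓝 z)) :
    Tendsto (fun i => D.E (u i - f)) l (𝓝 0) := by
  have e : ∀ᶠ i in l, D.E (u i - f) = en ι (v i - z) (v i - z) := hu.mono fun i hi =>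
    M.E_eq (by rw [map_sub]; exact sub_ae hi hf)
  refine (tendsto_congr' e).2 (squeeze_zero (fun _ => M.en_nonneg _) (fun _ => en_le_sq _) ?_)
  simpa only [zero_pow two_ne_zero] using (tendsto_iff_norm_sub_tendsto_zero.1 h).pow 2

theorem derV_of {u : ℝ → X → ℝ} {w : X → ℝ} {v : ℝ → V} {z : V} {t : ℝ}
    (hu : ∀ᶠ s in 𝓝 t, u s =ᵐ[μ] ι (v s)) (hw : w =ᵐ[μ] ι z) (h : HasDerivAt v z t) :
    D.DerV u w t :=
  ⟨hu.mono fun _ => M.memV, M.memV hw,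
    ((derL2_iff hu hw).2 (ι.hasFDerivAt.comp_hasDerivAt t h)).2.2,
    M.E_tendsto ((DQ_ae hu).mono fun _ h => by rwa [map_smul, map_sub]) hw
      (hasDerivAt_iff_tendsto_slope_zero.1 h)⟩

theorem pf_lift {t : ℝ} (ht : 0 < t) (x : Lp ℝ 2 μ) : fc (Jh ι) (pf t) x = ι (lift ι 1 t x) := by
  rw [M.emb_lift 1 ht, pf_pos ht]

theorem isHeat {f : X → ℝ} {x : Lp ℝ 2 μ} (hf : f =ᵐ[μ] x) {u w : ℝ → X → ℝ}
    (hu : ∀ t, 0 < t → u t =ᵐ[μ] fc (Jh ι) (pf t) x)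
    (hw : ∀ t, 0 < t → w t =ᵐ[μ] fc (Jh ι) (lf t) x) : D.IsHeat f u w := by
  refine ⟨fun t ht => ?_, (n2_tendsto (eventually_mem_nhdsWithin.mono hu) hf).2
    (M.ctrH.P_zero M.denseH x)⟩
  have e := hu t ht
  rw [M.pf_lift ht] at e
  refine ⟨M.memV e, (M.lap_iff e (hw t ht)).2 (M.lap_lift 1 ht x), (derL2_iff
    ((lt_mem_nhds ht).mono fun s hs => ?_) (hw t ht)).2 (Ctr.fc_deriv 1 ht x)⟩
  rw [← pf_pos hs]
  exact hu s hs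

theorem uniq {f : X → ℝ} {x : Lp ℝ 2 μ} (hf : f =ᵐ[μ] x) {u w : ℝ → X → ℝ} (h : D.IsHeat f u w)
    {t : ℝ} (ht : 0 < t) : u t =ᵐ[μ] fc (Jh ι) (pf t) x ∧ w t =ᵐ[μ] fc (Jh ι) (lf t) x := by
  choose! v hv using fun t (ht : 0 < t) => M.surj _ (h.1 t ht).1
  choose! z hz using fun t (ht : 0 < t) => exists_Lp (h.1 t ht).2.2.2.1
  obtain ⟨h1, h2⟩ := M.heat_uniq
    (fun t ht => (derL2_iff ((lt_mem_nhds ht).mono hv) (hz t ht)).1 (h.1 t ht).2.2)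
    (fun t ht => (M.lap_iff (hv t ht) (hz t ht)).1 (h.1 t ht).2.1)
    ((n2_tendsto (eventually_mem_nhdsWithin.mono hv) hf).1 h.2) ht
  rw [← h1, ← h2]
  exact ⟨hv t ht, hz t ht⟩

theorem heat_spec {f : X → ℝ} {x : Lp ℝ 2 μ} (hf : f =ᵐ[μ] x) :
    D.IsHeat f (D.heat f).1 (D.heat f).2 :=
  Classical.epsilon_spec (p := fun uw : (ℝ → X → ℝ) × (ℝ → X → ℝ) => D.IsHeat f uw.1 uw.2)
    ⟨(_, _), M.isHeat hf (fun _ _ => EventuallyEq.rfl) fun _ _ => EventuallyEq.rfl⟩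

theorem P_eq {f : X → ℝ} {x : Lp ℝ 2 μ} (hf : f =ᵐ[μ] x) (t : ℝ) :
    D.P t f =ᵐ[μ] fc (Jh ι) (pf t) x := by
  unfold DS.P
  split_ifs with ht
  · exact (M.uniq hf (M.heat_spec hf) ht).1
  · rwa [pf_neg (not_lt.1 ht), M.ctrH.fc_one]

theorem L_eq {f : X → ℝ} {x : Lp ℝ 2 μ} (hf : f =ᵐ[μ] x) {t : ℝ} (ht : 0 < t) :
    D.L t f =ᵐ[μ] fc (Jh ι) (lf t) x := (M.uniq hf (M.heat_spec hf) ht).2

theorem P_lift {f : X → ℝ} {x : Lp ℝ 2 μ} (hf : f =ᵐ[μ] x) {t : ℝ} (ht : 0 < t) :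
    D.P t f =ᵐ[μ] ι (lift ι 1 t x) := M.pf_lift ht x ▸ M.P_eq hf t

theorem L_lift {f : X → ℝ} {x : Lp ℝ 2 μ} (hf : f =ᵐ[μ] x) {t : ℝ} (ht : 0 < t) :
    D.L t f =ᵐ[μ] ι (lift ι (-Polynomial.X * 1) t x) := (M.emb_lift _ ht x).symm ▸ M.L_eq hf ht

theorem LL_lift {f : X → ℝ} {x : Lp ℝ 2 μ} (hf : f =ᵐ[μ] x) {t : ℝ} (ht : 0 < t) :
    D.L (t / 2) (D.L (t / 2) f) =ᵐ[μ] fc (Jh ι) (Ef (-Polynomial.X * (-Polynomial.X * 1)) t) x := by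
  rw [← Ef_half ht, ← M.ctrH.fc_fc]
  exact M.L_eq (M.L_eq hf (half_pos ht)) (half_pos ht)

theorem P_V {f : X → ℝ} {v : V} (hf : f =ᵐ[μ] ι v) (t : ℝ) :
    D.P t f =ᵐ[μ] ι (fc (Jv ι) (pf t) v) := (M.inter _ v).symm ▸ M.P_eq hf t

theorem res_fix {T : ℝ → ℝ} (hT : LipschitzWith 1 T) (h0 : T 0 = 0) (ε : ℝ) (hε : 0 < ε) :
    MapsTo (fc (Jh ι) (jj * hf ε)) {x | hT.compLp h0 x = x} {x | hT.compLp h0 x = x} := by
  intro x hx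
  have e := M.lap_res hε x
  rw [mem_ofPred_eq, ← M.emb_adj] at *
  generalize adjoint ι (fc (Jh ι) (hf ε) x) = v at *
  obtain ⟨h1, h2⟩ := D.comp_mem (M.mem v) hT h0
  obtain ⟨w, hw⟩ := M.surj _ h1
  have e2 : hT.compLp h0 (ι v) = ι w := Lp.ext ((hT.coeFn_compLp h0 _).trans hw)
  rw [e2]
  refine M.res_min hε e ?_ ?_
  · rw [← e2]
    nth_rw 1 [← hx]
    simpa using hT.norm_compLp_sub_le h0 (ι v) x
  · rw [← M.int, ← M.int, ← integral_congr_ae (D.Γ_congr₂ h1 h1 hw hw)]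
    exact integral_mono_ae (D.Γ_int _ h1 _ h1) (D.Γ_int _ (M.mem v) _ (M.mem v))
      (h2.mono fun a h => by simpa using h)

theorem P_fix {T : ℝ → ℝ} (hT : LipschitzWith 1 T) (h0 : T 0 = 0) {f : X → ℝ} (hf : MemLp f 2 μ)
    (h : ∀ᵐ a ∂μ, T (f a) = f a) (t : ℝ) : ∀ᵐ a ∂μ, T (D.P t f a) = D.P t f a := by
  obtain ⟨x, hx⟩ := exists_Lp hf
  exact (fix_iff hT h0 (M.P_eq hx t)).1 (M.ctrH.maps_pf M.denseH (isClosed_fix hT h0)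
    (M.res_fix hT h0) t ((fix_iff hT h0 hx).2 h))

end Model

end RC.Sg
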