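import Pool.Agent.P.MP_6472e5_gt.SgE

/-! The Markov property of the heat flow and its consequences. -/

set_option autoImplicit false
set_option linter.unusedSectionVars false

noncomputable section

namespace RC.Sg

open MeasureTheory Set Filter Topology ContinuousLinearMap
open scoped InnerProductSpace

variable {X : Type} [MetricSpace X] [SecondCountableTopology X] [MeasurableSpace X] [BorelSpace X]
  {μ : Measure X}

theorem lip_clamp (a b : ℝ) : LipschitzWith 1 fun s : ℝ => max a (min b s) :=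
  (LipschitzWith.id.const_min b).const_max a

theorem clamp_iff {a b s : ℝ} (hab : a ≤ b) : max a (min b s) = s ↔ a ≤ s ∧ s ≤ b :=
  ⟨fun h => ⟨(le_max_left _ _).trans_eq h, h.symm.trans_le (max_le hab (min_le_left _ _))⟩,
    fun h => by rw [min_eq_right h.2, max_eq_right h.1]⟩

theorem clamp_zero {a b : ℝ} (ha : a ≤ 0) (hb : 0 ≤ b) : max a (min b 0) = 0 :=
  (clamp_iff (ha.trans hb)).2 ⟨ha, hb⟩

theorem clamp_nonneg {k : ℝ} (hk : 0 ≤ k) (s : ℝ) : 0 ≤ s * max (-1) (min 1 (k * s)) := by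
  rcases le_total 0 s with h | h
  · exact mul_nonneg h (le_max_of_le_right (le_min zero_le_one (mul_nonneg hk h)))
  · exact mul_nonneg_of_nonpos_of_nonpos h (max_le (by norm_num)
      (min_le_of_right_le (mul_nonpos_of_nonneg_of_nonpos hk h)))

theorem clamp_tendsto (s : ℝ) :
    Tendsto (fun k : ℕ => s * max (-1) (min 1 (k * s))) atTop (𝓝 ‖s‖) := by
  rw [Real.norm_eq_abs]
  rcases lt_trichotomy s 0 with h | rfl | h
  · refine tendsto_const_nhds.congr' ?_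
    filter_upwards [(tendsto_natCast_atTop_atTop.atTop_mul_const_of_neg h).eventually_le_atBot
      (-1)] with k hk
    rw [min_eq_right (hk.trans (by norm_num)), max_eq_left hk, abs_of_neg h, mul_neg_one]
  · simp
  · refine tendsto_const_nhds.congr' ?_
    filter_upwards [(tendsto_natCast_atTop_atTop.atTop_mul_const h).eventually_ge_atTop 1] with k hk
    rw [min_eq_left hk, max_eq_right (by norm_num), abs_of_pos h, mul_one]

theorem fatou {u : ℕ → X → ℝ} {g : X → ℝ} {C : ℝ} (hu : ∀ k, Integrable (u k) μ)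
    (hC : ∀ k, ∫ a, ‖u k a‖ ∂μ ≤ C) (hl : ∀ᵐ a ∂μ, Tendsto (u · a) atTop (𝓝 (g a))) :
    Integrable g μ ∧ ∫ a, ‖g a‖ ∂μ ≤ C := by
  have h := Lp.eLpNorm_le_of_ae_tendsto (p := 1) (C := ENNReal.ofReal C)
    (Eventually.of_forall fun k => ?_) (fun k => (hu k).1) hl
  · have hi : Integrable g μ := memLp_one_iff_integrable.1 ⟨aestronglyMeasurable_of_tendsto_ae
      atTop (fun k => (hu k).1) hl, h.trans_lt ENNReal.ofReal_lt_top⟩
    rw [eLpNorm_one_eq_lintegral_enorm, ← ofReal_integral_norm_eq_lintegral_enorm hi] at h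
    exact ⟨hi, (ENNReal.ofReal_le_ofReal_iff
      ((integral_nonneg fun _ => norm_nonneg _).trans (hC 0))).1 h⟩
  · rw [eLpNorm_one_eq_lintegral_enorm, ← ofReal_integral_norm_eq_lintegral_enorm (hu k)]
    exact ENNReal.ofReal_le_ofReal (hC k)

theorem wt_tendsto {ψ f : X → ℝ} {u : ℕ → X → ℝ} (hm : AEStronglyMeasurable ψ μ) (hψ : Bdd μ ψ)
    (hu : ∀ k, MemLp (u k) 2 μ) (hf : MemLp f 2 μ)
    (h : Tendsto (fun k => n2 μ (u k - f)) atTop (𝓝 0)) :
    Tendsto (fun k => ∫ a, ψ a * u k a ^ 2 ∂μ) atTop (𝓝 (∫ a, ψ a * f a ^ 2 ∂μ)) := by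
  obtain ⟨C, hC⟩ := id hψ
  have h1 := (tendsto_integral_mul (.of_forall hu) (.of_forall hu) hf hf h h).const_mul C
  rw [mul_zero] at h1
  refine tendsto_iff_norm_sub_tendsto_zero.2
    (squeeze_zero (fun _ => norm_nonneg _) (fun k => ?_) h1)
  rw [← integral_sub (hψ.mul_integrable hm (hu k).integrable_sq)
    (hψ.mul_integrable hm hf.integrable_sq), ← integral_const_mul]
  refine norm_integral_le_of_norm_le (((integrable_mul_of_memLp (hu k) (hu k)).sub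
    (integrable_mul_of_memLp hf hf)).abs.const_mul C) (hC.mono fun a ha => ?_)
  rw [← mul_sub, norm_mul, sq, sq]
  exact mul_le_mul_of_nonneg_right ha (abs_nonneg _)

namespace Model

variable {D : DS μ} {V : Type} [NormedAddCommGroup V] [InnerProductSpace ℝ V] [CompleteSpace V]
  {ι : V →L[ℝ] Lp ℝ 2 μ} (M : Model D ι)
include M

theorem markov {f : X → ℝ} (hf : MemLp f 2 μ) {a b : ℝ} (ha : a ≤ 0) (hb : 0 ≤ b)
    (h : ∀ᵐ x ∂μ, a ≤ f x ∧ f x ≤ b) (t : ℝ) : ∀ᵐ x ∂μ, a ≤ D.P t f x ∧ D.P t f x ≤ b :=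
  (M.P_fix (lip_clamp a b) (clamp_zero ha hb) hf (h.mono fun _ => (clamp_iff (ha.trans hb)).2)
    t).mono fun _ => (clamp_iff (ha.trans hb)).1

theorem pos {f : X → ℝ} (hf : MemLp f 2 μ) (h : ∀ᵐ x ∂μ, 0 ≤ f x) (t : ℝ) :
    ∀ᵐ x ∂μ, 0 ≤ D.P t f x :=
  (M.P_fix (LipschitzWith.id.const_max 0) (max_self 0) hf (h.mono fun _ => max_eq_right) t).mono
    fun _ => max_eq_right_iff.1

theorem P_le {f : X → ℝ} (hf : MemLp f 2 μ) {b : ℝ} (hb : 0 ≤ b) (h : ∀ᵐ x ∂μ, f x ≤ b) (t : ℝ) :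
    ∀ᵐ x ∂μ, D.P t f x ≤ b :=
  (M.P_fix (LipschitzWith.id.const_min b) (min_eq_right hb) hf (h.mono fun _ => min_eq_right)
    t).mono fun _ => min_eq_right_iff.1

theorem P_memLp {f : X → ℝ} (hf : MemLp f 2 μ) (t : ℝ) : MemLp (D.P t f) 2 μ :=
  memLp_of (M.P_eq (exists_Lp hf).choose_spec t)

theorem symm {f g : X → ℝ} (hf : MemLp f 2 μ) (hg : MemLp g 2 μ) (t : ℝ) :
    ∫ x, D.P t f x * g x ∂μ = ∫ x, f x * D.P t g x ∂μ := by
  obtain ⟨x, hx⟩ := exists_Lp hf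
  obtain ⟨y, hy⟩ := exists_Lp hg
  rw [int_eq (M.P_eq hx t) hy, int_eq hx (M.P_eq hy t), M.ctrH.fc_symm]

theorem l1 {f : X → ℝ} (hf : MemLp f 2 μ) (h1 : Integrable f μ) (t : ℝ) :
    Integrable (D.P t f) μ ∧ ∫ x, |D.P t f x| ∂μ ≤ ∫ x, |f x| ∂μ := by
  have hg := M.P_memLp hf t
  have m : ∀ k : ℕ, MemLp (fun a => max (-1) (min 1 (k * D.P t f a))) 2 μ := fun k =>
    (lip_clamp (-1) 1).comp_memLp (clamp_zero (by norm_num) zero_le_one) (hg.const_mul k)
  have h2 := fatou (C := ∫ x, |f x| ∂μ) (fun k => integrable_mul_of_memLp hg (m k))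
    (fun k => ?_) (.of_forall fun a => clamp_tendsto (D.P t f a))
  · exact ⟨(integrable_norm_iff hg.1).1 h2.1, by simpa only [Real.norm_eq_abs, abs_abs] using h2.2⟩
  simp only [Real.norm_of_nonneg (clamp_nonneg k.cast_nonneg _)]
  rw [M.symm hf (m k)]
  refine integral_mono_ae (integrable_mul_of_memLp hf (M.P_memLp (m k) t)) h1.abs ?_
  filter_upwards [M.markov (m k) (a := -1) (b := 1) (by norm_num) zero_le_one (.of_forall fun a =>
    ⟨le_max_left _ _, max_le (by norm_num) (min_le_left _ _)⟩) t] with a h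
  refine (le_abs_self _).trans ?_
  rw [abs_mul]
  exact mul_le_of_le_one_right (abs_nonneg _) (abs_le.2 h)

theorem sq_le {f : X → ℝ} (hf : MemLp f 2 μ) (h2 : MemLp (fun a => f a ^ 2) 2 μ) (t : ℝ) :
    ∀ᵐ a ∂μ, D.P t f a ^ 2 ≤ D.P t (fun a => f a ^ 2) a := by
  obtain ⟨x, hx⟩ := exists_Lp hf
  obtain ⟨y, hy⟩ := exists_Lp h2
  have h : ∀ᵐ a ∂μ, ∀ c : ℚ, 2 * c * D.P t f a - D.P t (fun a => f a ^ 2) a ≤ c ^ 2 :=
    ae_all_iff.2 fun c => by
      have e := sub_ae (smul_ae (2 * c : ℝ) hx) hy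
      have e2 := M.P_eq e t
      rw [map_sub, map_smul] at e2
      filter_upwards [M.P_le (memLp_of e) (sq_nonneg (c : ℝ)) (.of_forall fun a => by
        simp only [Pi.sub_apply, Pi.smul_apply, smul_eq_mul]
        linarith only [sq_nonneg (f a - c)]) t,
        e2.trans (sub_ae (smul_ae (2 * c : ℝ) (M.P_eq hx t)) (M.P_eq hy t)).symm] with a h1 h2
      exact h2.symm.trans_le h1
  filter_upwards [h] with a h
  have := Rat.denseRange_cast.induction_on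
    (p := fun c : ℝ => 2 * c * D.P t f a - D.P t (fun a => f a ^ 2) a ≤ c ^ 2) (D.P t f a)
    (isClosed_le (by fun_prop) (by fun_prop)) h
  linarith only [this]

theorem jensen {f φ : X → ℝ} (hf : MemLp f 2 μ) (hφ : MemLp φ 2 μ) (bφ : Bdd μ φ)
    (h0 : ∀ᵐ x ∂μ, 0 ≤ φ x) (t : ℝ) :
    ∫ x, φ x * D.P t f x ^ 2 ∂μ ≤ ∫ x, D.P t φ x * f x ^ 2 ∂μ := by
  obtain ⟨u, hu, h⟩ := D.exists_lipB_n2 hf
  have m := fun k => D.lipB_memLp (hu k)
  have bP : Bdd μ (D.P t φ) := by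
    obtain ⟨C, hC, h⟩ := bφ.nonneg
    exact ⟨C, (M.markov hφ (neg_nonpos.2 hC.le) hC.le (h.mono fun _ => abs_le.1) t).mono
      fun _ => abs_le.2⟩
  refine le_of_tendsto_of_tendsto' (wt_tendsto hφ.1 bφ (fun k => M.P_memLp (m k) t)
    (M.P_memLp hf t) ?_) (wt_tendsto (M.P_memLp hφ t).1 bP m hf h) fun k => ?_
  · choose y hy using fun k => exists_Lp (m k)
    obtain ⟨x, hx⟩ := exists_Lp hf
    exact (n2_tendsto (.of_forall fun k => M.P_eq (hy k) t) (M.P_eq hx t)).2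
      (((fc (Jh ι) (pf t)).continuous.tendsto x).comp ((n2_tendsto (.of_forall hy) hx).1 h))
  · have m2 : MemLp (fun a => u k a ^ 2) 2 μ := by
      simp only [sq]
      exact D.lipB_memLp ((hu k).mul (hu k))
    rw [M.symm hφ m2]
    refine integral_mono_ae (bφ.mul_integrable hφ.1 (M.P_memLp (m k) t).integrable_sq)
      (integrable_mul_of_memLp hφ (M.P_memLp m2 t)) ?_
    filter_upwards [h0, M.sq_le (m k) m2 t] with a h1 h2 using mul_le_mul_of_nonneg_left h2 h1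

theorem dom {f : X → ℝ} {C : ℝ} (hf : MemLp f 2 μ)
    (h : ∃ᶠ t in 𝓝[>] (0 : ℝ), t⁻¹ * ∫ x, (f x - D.P t f x) * f x ∂μ ≤ C) :
    f ∈ D.V ∧ D.E f ≤ C := by
  obtain ⟨x, hx⟩ := exists_Lp hf
  have := frequently_iff_neBot.1 h
  have h2 : Tendsto (fun t : ℝ => t / 2) (𝓝[>] 0) (𝓝[>] 0) :=
    tendsto_nhdsWithin_iff.2 ⟨((continuous_id.div_const 2).tendsto' 0 0
      (zero_div 2)).mono_left nhdsWithin_le_nhds,
      eventually_mem_nhdsWithin.mono fun t (ht : 0 < t) => half_pos ht⟩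
  refine DS.mem_of_bdd (l := 𝓝[>] (0 : ℝ) ⊓ 𝓟 {t | t⁻¹ * ∫ x, (f x - D.P t f x) * f x ∂μ ≤ C})
    (u := fun t => D.P (t / 2) f) (eventually_inf_principal.2 (eventually_mem_nhdsWithin.mono
      fun t (ht : 0 < t) hC => ⟨M.memV (M.P_lift hx (half_pos ht)), ?_⟩)) hf
    ((n2_tendsto (.of_forall fun t => M.P_eq hx _) hx).2
      (((M.ctrH.P_zero M.denseH x).comp h2).mono_left inf_le_left))
  rw [M.E_eq (M.P_lift hx (half_pos ht))]
  refine (M.E_le' ht x).trans (le_of_eq_of_le ?_ hC)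
  rw [← int_eq (sub_ae hx (M.P_eq hx t)) hx]
  rfl

end Model

end RC.Sg
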