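import Pool.Agent.P.MP_6472e5_gt.St1
import Pool.Agent.P.MP_6472e5_gt.BlA

/-! Stratification. -/

set_option autoImplicit false
set_option linter.unusedSectionVars false

noncomputable section

namespace RC

open MeasureTheory Set Filter Topology Metric

variable {X : Type} [MetricSpace X] [ProperSpace X] [MeasurableSpace X] [BorelSpace X]
  {μ : Measure X} {D : DS μ} {κ : ℝ} {n : ℕ}

/-- An orthonormal frame in Euclidean space has at most as many members as the dimension. -/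
theorem st_frame_euc {ι : Type} [Fintype ι] {j : ℕ} (o : Euc j) (c : ι → Euc j)
    (h1 : ∀ l, dist (c l) o = 1) (h2 : ∀ l l', l ≠ l' → dist (c l) (c l') = √2) :
    Fintype.card ι ≤ j := by
  have h3 : Orthonormal ℝ fun l => c l - o := by
    refine ⟨fun l => by rw [← dist_eq_norm, h1], fun l l' hl => ?_⟩
    have e := norm_sub_sq_real (c l - o) (c l' - o)
    rw [sub_sub_sub_cancel_right, ← dist_eq_norm, ← dist_eq_norm, ← dist_eq_norm, h1, h1,
      h2 l l' hl, Real.sq_sqrt (by norm_num)] at e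
    show inner ℝ (c l - o) (c l' - o) = 0
    linarith
  simpa using h3.linearIndependent.fintype_card_le_finrank

theorem st_frame {e : X} {j : ℕ} (A : Ax D n e j) {ι : Type} [Fintype ι] {o : X} {c : ι → X}
    (ho : D.Ctr n o) (hc : ∀ l, D.Ctr n (c l)) (h1 : ∀ l, dist (c l) o = 1)
    (h2 : ∀ l l', l ≠ l' → dist (c l) (c l') = √2) : Fintype.card ι ≤ j := by
  obtain ⟨o', rfl⟩ := (A.ctr o).1 ho
  choose c' hc' using fun l => (A.ctr (c l)).1 (hc l)
  refine st_frame_euc o' c' (fun l => ?_) fun l l' hl => ?_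
  · rw [← A.iso.dist_eq, hc', h1]
  · rw [← A.iso.dist_eq, hc', hc', h2 l l' hl]

theorem st_single {j : ℕ} {l l' : Fin j} (h : l ≠ l') :
    dist (EuclideanSpace.single l (1 : ℝ) : Euc j) (EuclideanSpace.single l' 1) = √2 := by
  have ho := EuclideanSpace.orthonormal_single (𝕜 := ℝ) (ι := Fin j)
  have e := norm_sub_sq_real (EuclideanSpace.single l (1 : ℝ) : Euc j)
    (EuclideanSpace.single l' 1)
  rw [ho.1 l, ho.1 l', ho.2 h, ← dist_eq_norm] at e
  rw [← Real.sqrt_sq (dist_nonneg (x := (EuclideanSpace.single l (1 : ℝ) : Euc j))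
    (y := EuclideanSpace.single l' 1)), e]
  norm_num

theorem st_single_zero {j : ℕ} (l : Fin j) :
    dist (EuclideanSpace.single l (1 : ℝ) : Euc j) 0 = 1 := by
  simp

/-- An axis contains an orthonormal frame. -/
theorem st_exists_frame {e : X} {j : ℕ} (A : Ax D n e j) {k : ℕ} (hk : k ≤ j) :
    ∃ c : Fin k → X, (∀ l, D.Ctr n (c l)) ∧ (∀ l, dist (c l) e = 1) ∧
      ∀ l l', l ≠ l' → dist (c l) (c l') = √2 := by
  refine ⟨fun l => A.ι (EuclideanSpace.single (Fin.castLE hk l) 1),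
    fun l => (A.ctr _).2 ⟨_, rfl⟩, fun l => ?_, fun l l' hl => ?_⟩
  · have e1 := A.iso.dist_eq (EuclideanSpace.single (Fin.castLE hk l) 1) 0
    rwa [A.zero, st_single_zero] at e1
  · rw [A.iso.dist_eq]
    exact st_single fun h => hl (Fin.castLE_injective hk h)

theorem st_ax_le {e e' : X} {j k : ℕ} (A : Ax D n e j) (A' : Ax D n e' k) : j ≤ k := by
  obtain ⟨c, h0, h1, h2⟩ := st_exists_frame A le_rfl
  simpa using st_frame A' A.ctr_e h0 h1 h2

/-- The monotone envelope of the almost monotone quantity. -/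
def stF (D : DS μ) (n : ℕ) (x : X) (s : ℝ) : ℝ := sSup (D.Θ n x '' Ioc 0 s)

theorem stF_bdd (h : HP D κ n) (x : X) (s : ℝ) : BddAbove (D.Θ n x '' Ioc 0 s) :=
  ⟨_, forall_mem_image.2 fun _ hρ => h.Θ_mono x _ s hρ.1 hρ.2⟩

theorem le_stF (h : HP D κ n) (x : X) {s : ℝ} (hs : 0 < s) : D.Θ n x s ≤ stF D n x s :=
  le_csSup (stF_bdd h x s) ⟨s, ⟨hs, le_rfl⟩, rfl⟩

theorem stF_le_of {x : X} {s C : ℝ} (hs : 0 < s) (hC : ∀ ρ ∈ Ioc 0 s, D.Θ n x ρ ≤ C) :
    stF D n x s ≤ C :=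
  csSup_le ⟨_, s, ⟨hs, le_rfl⟩, rfl⟩ (forall_mem_image.2 fun ρ hρ => hC ρ hρ)

theorem stF_le (h : HP D κ n) (x : X) {s : ℝ} (hs : 0 < s) :
    stF D n x s ≤ Real.exp (n * κ * s ^ 2) * D.Θ n x s :=
  stF_le_of hs fun ρ hρ => h.Θ_mono x ρ s hρ.1 hρ.2

theorem stF_mono (h : HP D κ n) (x : X) {s t : ℝ} (hs : 0 < s) (hst : s ≤ t) :
    stF D n x s ≤ stF D n x t :=
  csSup_le_csSup (stF_bdd h x t) ⟨_, s, ⟨hs, le_rfl⟩, rfl⟩
    (image_mono (Ioc_subset_Ioc_right hst))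

/-- Small drop of the envelope between the scales `η * r` and `r / η`. -/
def stP (D : DS μ) (n : ℕ) (η r : ℝ) (x : X) : Prop :=
  stF D n x (η⁻¹ * r) - stF D n x (η * r) ≤ η

section

variable {U : Ultrafilter ℕ} {y : ℕ → X} {r : ℕ → ℝ} {B : Blow D n U y r}

theorem st_Θ_lim {a : ℕ → X} {z : B.Z} (ha : B.Lf a z) {s : ℝ} (hs : 0 < s) :
    Tendsto (fun i => D.Θ n (a i) (s * r i)) U (𝓝 (B.E.Θ n z s)) := by
  refine (B.cv_Θ hs).lf ?_ ha
  exact B.model.toHP.Θ_cont.comp_continuous (continuous_id.prodMk continuous_const)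
    fun _ => ⟨mem_univ _, hs⟩

theorem st_exp_lim (B : Blow D n U y r) (κ s : ℝ) :
    Tendsto (fun i => Real.exp (n * κ * (s * r i) ^ 2)) U (𝓝 1) := by
  have h1 : Continuous fun t : ℝ => Real.exp (n * κ * (s * t) ^ 2) := by fun_prop
  have h2 := (h1.tendsto 0).comp B.seq.lim
  simp only [mul_zero, ne_eq, OfNat.ofNat_ne_zero, not_false_eq_true, zero_pow,
    Real.exp_zero] at h2
  exact h2

/-- Limits of points with vanishing drop are centres. -/
theorem st_ctr (h : HP D κ n) {a : ℕ → X} {z : B.Z} (ha : B.Lf a z) {η : ℕ → ℝ}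
    (h0 : ∀ i, 0 < η i) (hη : Tendsto η U (𝓝 0))
    (hp : ∀ᶠ i in (U : Filter ℕ), stP D n (η i) (r i) (a i)) : B.E.Ctr n z := by
  refine B.ctr_of_pinch ha fun ε hε => ?_
  have h1 := (((st_exp_lim B κ ε).sub_const 1).mul (st_Θ_lim ha hε)).add hη
  rw [sub_self, zero_mul, add_zero] at h1
  filter_upwards [hp, h1.eventually (gt_mem_nhds hε), hη.eventually (gt_mem_nhds hε)]
    with i e1 e2 e3
  have hr := B.seq.pos i
  have k1 : ε⁻¹ * r i ≤ (η i)⁻¹ * r i :=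
    mul_le_mul_of_nonneg_right (inv_anti₀ (h0 i) e3.le) hr.le
  have k2 : η i * r i ≤ ε * r i := mul_le_mul_of_nonneg_right e3.le hr.le
  have k3 := (le_stF h (a i) (by positivity)).trans (stF_mono h (a i) (by positivity) k1)
  have k4 := (stF_mono h (a i) (mul_pos (h0 i) hr) k2).trans (stF_le h (a i) (by positivity))
  unfold stP at e1
  linarith

/-- Points that converge to a centre have a small drop. -/
theorem st_pinch (h : HP D κ n) {a : ℕ → X} {z : B.Z} (ha : B.Lf a z) (hz : B.E.Ctr n z) {η : ℝ}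
    (hη : 0 < η) : ∀ᶠ i in (U : Filter ℕ), stP D n η (r i) (a i) := by
  have h1 := ((st_exp_lim B κ η⁻¹).mul (st_Θ_lim ha (inv_pos.2 hη))).sub (st_Θ_lim ha hη)
  rw [one_mul, hz _ _ (inv_pos.2 hη) hη, sub_self] at h1
  filter_upwards [h1.eventually (gt_mem_nhds hη)] with i e1
  have hr := B.seq.pos i
  have k1 := stF_le h (a i) (mul_pos (inv_pos.2 hη) hr)
  have k2 := le_stF h (a i) (mul_pos hη hr)
  unfold stP
  linarith

theorem st_lim_of_dist (B : Blow D n U y r) {a : ℕ → X} {c : ℝ}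
    (h : Tendsto (fun i => dist (a i) (y i) / r i) U (𝓝 c)) :
    ∃ z, B.Lf a z ∧ dist z B.e = c := by
  have h1 : ∀ᶠ i in (U : Filter ℕ), a i ∈ ball (y i) ((c + 1) * r i) := by
    filter_upwards [h.eventually (gt_mem_nhds (lt_add_one c))] with i hi
    rwa [div_lt_iff₀ (B.seq.pos i)] at hi
  obtain ⟨z, -, hz⟩ := B.exists_lim h1
  exact ⟨z, hz, tendsto_nhds_unique (hz.dist B.lf_base) h⟩

end

theorem st_hyper {η : ℕ → ℝ} (h0 : ∀ i, 0 < η i) (h1 : ∀ i : ℕ, η i ≤ 1 / ((i : ℝ) + 1)) :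
    Tendsto η (hyperfilter ℕ : Filter ℕ) (𝓝 0) := by
  refine tendsto_order.2 ⟨fun a ha => Eventually.of_forall fun i => ha.trans (h0 i),
    fun a ha => ?_⟩
  filter_upwards [hyper_small (half_pos ha)] with i hi
  linarith [h1 i]

/-- A set whose separated subsets have bounded size has a net of bounded size. -/
theorem st_net {A : Set X} {ρ M : ℝ} (hρ : 0 < ρ)
    (hM : ∀ T : Finset X, (∀ t ∈ T, t ∈ A) → (∀ t ∈ T, ∀ t' ∈ T, t ≠ t' → ρ ≤ dist t t') →
      (T.card : ℝ) ≤ M) : ∃ T : Finset X, (T.card : ℝ) ≤ M ∧ A ⊆ ⋃ t ∈ T, ball t ρ := by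
  classical
  by_contra hc
  have key : ∀ m : ℕ, ∃ T : Finset X, T.card = m ∧ (∀ t ∈ T, t ∈ A) ∧
      ∀ t ∈ T, ∀ t' ∈ T, t ≠ t' → ρ ≤ dist t t' := by
    intro m
    induction m with
    | zero => exact ⟨∅, rfl, by simp, by simp⟩
    | succ m ih =>
      obtain ⟨T, h1, h2, h3⟩ := ih
      obtain ⟨a, ha, haT⟩ := not_subset.1 fun hs => hc ⟨T, hM T h2 h3, hs⟩
      have h4 : ∀ t ∈ T, ρ ≤ dist a t := fun t ht =>
        not_lt.1 fun hlt => haT (mem_iUnion₂.2 ⟨t, ht, hlt⟩)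
      have h5 : a ∉ T := fun ht => by simpa [hρ.not_ge] using h4 a ht
      refine ⟨insert a T, by rw [Finset.card_insert_of_notMem h5, h1], fun t ht => ?_,
        fun t ht t' ht' hne => ?_⟩
      · rcases Finset.mem_insert.1 ht with rfl | ht
        exacts [ha, h2 t ht]
      · rcases Finset.mem_insert.1 ht with rfl | hs <;>
          rcases Finset.mem_insert.1 ht' with rfl | hs'
        · exact (hne rfl).elim
        · exact h4 _ hs'
        · rw [dist_comm]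
          exact h4 _ hs
        · exact h3 _ hs _ hs' hne
  obtain ⟨m, hm⟩ := exists_nat_gt M
  obtain ⟨T, h1, h2, h3⟩ := key m
  have := hM T h2 h3
  rw [h1] at this
  linarith

/-- The crude covering given by the volume bounds. -/
theorem st_crude (h : HP D κ n) (h0 : N0 D n) (x₀ : X) (R : ℝ) {δ : ℝ} (hδ : 0 < δ)
    (hδ1 : δ < 1) : ∃ r₁ M : ℝ, 0 < r₁ ∧ 1 ≤ M ∧ ∀ x ∈ ball x₀ R, ∀ s, 0 < s → s ≤ r₁ →
      ∃ T : Finset X, (T.card : ℝ) ≤ M ∧ ball x₀ R ∩ ball x s ⊆ ⋃ t ∈ T, ball t (δ * s / 2) := by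
  obtain ⟨c, C, r₀, hc, hC, hr₀, hv⟩ := h.vol_bds h0 x₀ R
  refine ⟨r₀ / 2, max 1 (C * 2 ^ n / (c * (δ / 4) ^ n)), half_pos hr₀, le_max_left _ _,
    fun x hx s hs hs1 => st_net (by positivity) fun T h1 h2 => le_max_of_le_right ?_⟩
  have hρ : 0 < δ / 4 * s := by positivity
  have hρs : δ / 4 * s ≤ s := by nlinarith
  have e1 : μ.real (⋃ t ∈ T, ball t (δ / 4 * s)) = ∑ t ∈ T, μ.real (ball t (δ / 4 * s)) := by
    refine measureReal_biUnion_finset (fun t ht t' ht' hne => ball_disjoint_ball ?_)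
      (fun t _ => measurableSet_ball) fun t _ => (D.fin _ _).ne
    linarith [h2 t ht t' ht' hne]
  have e2 : μ.real (⋃ t ∈ T, ball t (δ / 4 * s)) ≤ μ.real (ball x (2 * s)) := by
    refine measureReal_mono (iUnion₂_subset fun t ht => ball_subset_ball' ?_) (D.fin _ _).ne
    linarith [mem_ball.1 (h1 t ht).2]
  have e3 : (T.card : ℝ) * (c * (δ / 4 * s) ^ n) ≤ ∑ t ∈ T, μ.real (ball t (δ / 4 * s)) := by
    rw [← nsmul_eq_mul]
    exact Finset.card_nsmul_le_sum _ _ _ fun t ht => (hv t (h1 t ht).1 _ hρ (by linarith)).1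
  have e4 := (hv x hx (2 * s) (by positivity) (by linarith)).2
  have e5 : (T.card : ℝ) * (c * (δ / 4) ^ n) * s ^ n ≤ C * 2 ^ n * s ^ n := by
    rw [mul_pow] at e3 e4
    linarith
  rw [le_div_iff₀ (by positivity)]
  exact le_of_mul_le_mul_right e5 (pow_pos hs n)

/-- The covering at good scales. -/
theorem st_good [HasBlow n] (h : HP D κ n) (h0 : N0 D n) {k : ℕ} {S : Set X} {x₀ : X} {R : ℝ}
    (hS : S ⊆ ball x₀ R)
    (hk : ∀ (U : Ultrafilter ℕ) (y : ℕ → X) (r : ℕ → ℝ) (B : Blow D n U y r) (j : ℕ)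
      (_ : Ax B.E n B.e j), (∀ i, y i ∈ S) → j ≤ k) {δ : ℝ} (hδ : 0 < δ) (hδ1 : δ < 1)
    {r₁ : ℝ} (hr₁ : 0 < r₁) : ∃ η, 0 < η ∧ η ≤ r₁ ∧ η ≤ 1 ∧ ∀ j : ℕ, ∀ x ∈ S,
      stP D n η (δ ^ j * η) x → ∃ T : Finset X, (T.card : ℝ) ≤ (60 / δ) ^ k ∧
        {y | y ∈ S ∧ stP D n η (δ ^ j * η) y} ∩ ball x (δ ^ j * η) ⊆
          ⋃ t ∈ T, ball t (δ ^ (j + 1) * η / 2) := by
  by_contra hc
  set η : ℕ → ℝ := fun i => min r₁ (1 / ((i : ℝ) + 1)) with hη
  have hη0 : ∀ i, 0 < η i := fun i => lt_min hr₁ (by positivity)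
  have hη1 : ∀ i : ℕ, η i ≤ 1 / ((i : ℝ) + 1) := fun i => min_le_right _ _
  have hη2 : ∀ i, η i ≤ 1 := fun i => (hη1 i).trans
    ((div_le_one (by positivity)).2 (le_add_of_nonneg_left (Nat.cast_nonneg i)))
  have h1 : ∀ i, ∃ j : ℕ, ∃ x ∈ S, stP D n (η i) (δ ^ j * η i) x ∧ ¬∃ T : Finset X,
      (T.card : ℝ) ≤ (60 / δ) ^ k ∧ {y | y ∈ S ∧ stP D n (η i) (δ ^ j * η i) y} ∩
        ball x (δ ^ j * η i) ⊆ ⋃ t ∈ T, ball t (δ ^ (j + 1) * η i / 2) := by
    intro i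
    by_contra h2
    refine hc ⟨η i, hη0 i, min_le_left _ _, hη2 i, fun j x hx hp => ?_⟩
    by_contra h3
    exact h2 ⟨j, x, hx, hp, h3⟩
  choose j y hy hp hT using h1
  have hseq : Seq (hyperfilter ℕ) y fun i => δ ^ j i * η i :=
    seq_of_small (fun i => hS (hy i)) (fun i => mul_pos (pow_pos hδ _) (hη0 i)) fun i =>
      (mul_le_of_le_one_left (hη0 i).le (pow_le_one₀ hδ.le hδ1.le)).trans (hη1 i)
  obtain ⟨B⟩ := HasBlow.blow D κ h h0 _ _ _ hseq
  have hlim := st_hyper hη0 hη1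
  have he : B.E.Ctr n B.e := st_ctr h B.lf_base hη0 hlim (Eventually.of_forall hp)
  obtain ⟨k', -, ⟨A⟩⟩ := B.model.cone.ax _ he
  have hk' := hk _ _ _ B k' A hy
  obtain ⟨i, T, t1, -, t2⟩ := (B.pack A
    (S := fun i => {y | y ∈ S ∧ stP D n (η i) (δ ^ j i * η i) y})
    (fun a z ha hm => st_ctr h ha hη0 hlim (hm.mono fun i hi => hi.2)) (half_pos hδ)
    (by linarith)).exists
  refine hT i ⟨T, t1.trans ?_, ?_⟩
  · rw [show 30 / (δ / 2) = 60 / δ by field_simp; norm_num]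
    exact pow_le_pow_right₀ ((one_le_div hδ).2 (by linarith)) hk'
  · rw [show δ ^ (j i + 1) * η i / 2 = δ / 2 * (δ ^ j i * η i) by ring]
    exact t2

/-- Approximate frames of points with small drop. -/
def stS (D : DS μ) (n k : ℕ) (η : ℝ) (x : X) : Prop :=
  ∃ r, 0 < r ∧ r ≤ η ∧ ∃ c : Fin (k + 1) → X, (∀ l, stP D n η r (c l)) ∧
    (∀ l, |dist (c l) x / r - 1| ≤ η) ∧ ∀ l l', l ≠ l' → |dist (c l) (c l') / r - √2| ≤ η

theorem st_tendsto {l : Filter ℕ} {u η : ℕ → ℝ} {c : ℝ} (hη : Tendsto η l (𝓝 0))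
    (h : ∀ i, |u i - c| ≤ η i) : Tendsto u l (𝓝 c) :=
  tendsto_iff_dist_tendsto_zero.2 (squeeze_zero (fun _ => dist_nonneg) h hη)

theorem st_abs {l : Filter ℕ} {u : ℕ → ℝ} {c η : ℝ} (h : Tendsto u l (𝓝 c)) (hη : 0 < η) :
    ∀ᶠ i in l, |u i - c| ≤ η :=
  (Metric.tendsto_nhds.1 h η hη).mono fun _ hi => hi.le

theorem st_ax_of_not (h : HP D κ n) {k : ℕ} {η : ℝ} (hη : 0 < η) {U : Ultrafilter ℕ}
    {y : ℕ → X} {r : ℕ → ℝ} (B : Blow D n U y r) {j : ℕ} (A : Ax B.E n B.e j)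
    (hy : ∀ i, ¬stS D n k η (y i)) : j ≤ k := by
  by_contra hj
  obtain ⟨c, c0, c1, c2⟩ := st_exists_frame A (Nat.succ_le_of_lt (not_le.1 hj))
  choose a ha using fun l => B.exists_lf (c l)
  have e0 := eventually_all.2 fun l => st_pinch h (ha l) (c0 l) hη
  have e1 := eventually_all.2 fun l => st_abs ((ha l).dist B.lf_base) hη
  have e2 := eventually_all.2 fun l => eventually_all.2 fun l' => st_abs ((ha l).dist (ha l')) hη
  obtain ⟨i, ⟨i0, i1⟩, i2, i3⟩ := ((e0.and e1).and (e2.and (B.small hη))).exists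
  refine hy i ⟨r i, B.seq.pos i, i3, fun l => a l i, i0, fun l => ?_, fun l l' hl => ?_⟩
  · rw [← c1 l]
    exact i1 l
  · rw [← c2 l l' hl]
    exact i2 l l'

/-- Every blow-up at `x` has an axis of dimension at most `k`. -/
def NoAx (D : DS μ) (n k : ℕ) (x : X) : Prop :=
  ∀ (U : Ultrafilter ℕ) (r : ℕ → ℝ) (B : Blow D n U (fun _ => x) r) (j : ℕ)
    (_ : Ax B.E n B.e j), j ≤ k

theorem st_not_of_noAx [HasBlow n] (h : HP D κ n) (h0 : N0 D n) {k : ℕ} {x : X}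
    (hx : NoAx D n k x) : ∃ i : ℕ, ¬stS D n k (1 / ((i : ℝ) + 1)) x := by
  by_contra hc
  simp only [not_exists, not_not] at hc
  choose r hr0 hr1 c c0 c1 c2 using hc
  have hη0 : ∀ i : ℕ, 0 < 1 / ((i : ℝ) + 1) := fun i => by positivity
  have hlim := st_hyper hη0 fun i => le_rfl
  obtain ⟨B⟩ := HasBlow.blow D κ h h0 _ _ _
    (seq_of_small (y := fun _ => x) (fun _ => mem_ball_self one_pos) hr0 hr1)
  have he := (B.ctr_const h fun _ => rfl).1
  obtain ⟨j, -, ⟨A⟩⟩ := B.model.cone.ax _ he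
  choose z hz hz1 using fun l => st_lim_of_dist B (st_tendsto hlim fun i => c1 i l)
  have h1 := st_frame A he
    (fun l => st_ctr h (hz l) hη0 hlim (Eventually.of_forall fun i => c0 i l)) hz1
    fun l l' hl => tendsto_nhds_unique ((hz l).dist (hz l'))
      (st_tendsto hlim fun i => c2 i l l' hl)
  have h2 := hx _ _ B j A
  rw [Fintype.card_fin] at h1
  omega

/-- Minkowski estimate for sets whose pinched blow-ups have small axes. -/
theorem cover_of_ax [HasBlow n] (h : HP D κ n) (h0 : N0 D n) {k : ℕ} {S : Set X} {x₀ : X} {R : ℝ}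
    (hS : S ⊆ ball x₀ R)
    (hk : ∀ (U : Ultrafilter ℕ) (y : ℕ → X) (r : ℕ → ℝ) (B : Blow D n U y r) (j : ℕ)
      (_ : Ax B.E n B.e j), (∀ i, y i ∈ S) → j ≤ k) {δ : ℝ} (hδ : 0 < δ) (hδ1 : δ < 1) :
    ∃ (r₀ C : ℝ) (N : ℕ), 0 < r₀ ∧ 0 ≤ C ∧ ∀ J : ℕ, ∃ T : Finset X,
      (T.card : ℝ) ≤ C * ((J : ℝ) + 1) ^ N * ((60 / δ) ^ k) ^ J ∧
      S ⊆ ⋃ t ∈ T, ball t (δ ^ J * r₀) := by
  classical
  obtain ⟨r₁, M', hr₁, hM', hcr⟩ := st_crude h h0 x₀ R hδ hδ1
  obtain ⟨η, hη, hηr, hη1, hgood⟩ := st_good h h0 hS hk hδ hδ1 hr₁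
  obtain ⟨C, hC⟩ := h.Θ_bdd x₀ R
  obtain ⟨N, hN⟩ := card_drops (C := C) hδ hδ1 hη hη1 hη
  have hM : 1 ≤ (60 / δ) ^ k := one_le_pow₀ ((one_le_div hδ).2 (by linarith))
  have hbad : ∀ x ∈ S, ∀ J : Finset ℕ, (∀ j ∈ J, ¬stP D n η (δ ^ j * η) x) → J.card ≤ N := by
    intro x hx J hJ
    refine hN (stF D n x) (fun s hs t _ hst => stF_mono h x hs.1 hst) (fun s hs => ?_) J
      fun j hj => not_le.1 (hJ j hj)
    rw [inv_mul_cancel₀ hη.ne'] at hs
    exact ⟨(h.Θ_pos x hs.1).le.trans (le_stF h x hs.1),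
      stF_le_of hs.1 fun ρ hρ => hC x (hS hx) ρ hρ.1 (hρ.2.trans hs.2)⟩
  have hb : ∀ j : ℕ, ∀ x ∈ S, ∃ T : Finset X, (T.card : ℝ) ≤ M' ∧
      S ∩ ball x (δ ^ j * η) ⊆ ⋃ t ∈ T, ball t (δ ^ (j + 1) * η / 2) := by
    intro j x hx
    obtain ⟨T, t1, t2⟩ := hcr x (hS hx) (δ ^ j * η) (by positivity)
      ((mul_le_of_le_one_left hη.le (pow_le_one₀ hδ.le hδ1.le)).trans hηr)
    refine ⟨T, t1, ?_⟩
    rw [show δ ^ (j + 1) * η / 2 = δ * (δ ^ j * η) / 2 by ring]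
    exact (inter_subset_inter_left _ hS).trans t2
  obtain ⟨F, -, hF, hcov⟩ := finite_cover_balls_of_compact (isCompact_closedBall x₀ R)
    (half_pos hη)
  refine ⟨η, hF.toFinset.card * M' ^ N, N, hη, by positivity, fun J => ?_⟩
  choose T t1 t2 using fun x : X => cover_scales (good := fun x j => stP D n η (δ ^ j * η) x)
    hδ hδ1.le hη hM hM' hbad hgood hb (x₀ := x) J
  refine ⟨hF.toFinset.biUnion T, ?_, fun x hx => ?_⟩
  · calc ((hF.toFinset.biUnion T).card : ℝ) ≤ ∑ x ∈ hF.toFinset, ((T x).card : ℝ) := by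
          exact_mod_cast Finset.card_biUnion_le
      _ ≤ hF.toFinset.card • (((J : ℝ) + 1) ^ N * M' ^ N * ((60 / δ) ^ k) ^ J) :=
          Finset.sum_le_card_nsmul _ _ _ fun x _ => t1 x
      _ = _ := by rw [nsmul_eq_mul]; ring
  · obtain ⟨w, hw, hxw⟩ := mem_iUnion₂.1 (hcov (ball_subset_closedBall (hS hx)))
    obtain ⟨t, ht, hxt⟩ := mem_iUnion₂.1 (t2 w ⟨hx, hxw⟩)
    exact mem_iUnion₂.2 ⟨t, Finset.mem_biUnion.2 ⟨w, hF.mem_toFinset.2 hw, ht⟩, hxt⟩

theorem strat [HasBlow n] (h : HP D κ n) (h0 : N0 D n) (k : ℕ) :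
    μH[(k : ℝ) + 1] {x | NoAx D n k x} = 0 := by
  rcases isEmpty_or_nonempty X with hX | ⟨⟨x₀⟩⟩
  · rw [Subsingleton.elim {x | NoAx D n k x} ∅, measure_empty]
  have h60 : (1 : ℝ) ≤ 60 ^ k := one_le_pow₀ (by norm_num)
  have hδ : (0 : ℝ) < 1 / (2 * 60 ^ k) := by positivity
  have hδ1 : (1 : ℝ) / (2 * 60 ^ k) < 1 := (div_lt_one (by positivity)).2 (by linarith)
  have key : ∀ i R : ℕ,
      μH[(k : ℝ) + 1] ({x | ¬stS D n k (1 / ((i : ℝ) + 1)) x} ∩ ball x₀ R) = 0 := by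
    intro i R
    obtain ⟨r₀, C, N, hr₀, -, hc⟩ := cover_of_ax h h0 (k := k)
      (S := {x | ¬stS D n k (1 / ((i : ℝ) + 1)) x} ∩ ball x₀ R) inter_subset_right
      (fun U y r B j A hy => st_ax_of_not h (η := 1 / ((i : ℝ) + 1)) (by positivity) B A
        fun m => (hy m).1) hδ hδ1
    refine haus_null_of_cover hδ hδ1 hr₀ (by positivity) ?_ (by positivity) hc
    rw [show (k : ℝ) + 1 = ((k + 1 : ℕ) : ℝ) by push_cast; rfl, Real.rpow_natCast, pow_succ,
      ← mul_assoc, ← mul_pow, div_mul_cancel₀ _ hδ.ne', mul_one_div,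
      div_lt_one (by positivity)]
    linarith
  refine measure_mono_null (fun x hx => ?_)
    (measure_iUnion_null fun i => measure_iUnion_null fun R => key i R)
  obtain ⟨i, hi⟩ := st_not_of_noAx h h0 hx
  obtain ⟨R, hR⟩ := exists_nat_gt (dist x x₀)
  exact mem_iUnion₂.2 ⟨i, R, hi, hR⟩

/-- Blow-ups at points off the axis have a larger axis. -/
theorem off_axis (h : Model D n) {e : X} {k : ℕ} (A : Ax D n e k) {x : X} (hx : 0 < A.b x)
    {U : Ultrafilter ℕ} {r : ℕ → ℝ} (B : Blow D n U (fun _ => x) r) {j : ℕ}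
    (A' : Ax B.E n B.e j) : k + 1 ≤ j := by
  obtain ⟨s, s0, -, s1, s2⟩ := A.sheet x hx
  have hr := B.seq.pos
  have hb : ∀ i (t : ℝ), 0 ≤ t → 0 < A.b x + r i * t := fun i t ht =>
    add_pos_of_pos_of_nonneg hx (mul_nonneg (hr i).le ht)
  have hd : ∀ i (v v' : Euc k) (t t' : ℝ), 0 ≤ t → 0 ≤ t' →
      dist (s (A.a x + r i • v) (A.b x + r i * t)) (s (A.a x + r i • v') (A.b x + r i * t')) /
        r i = √(dist v v' ^ 2 + (t - t') ^ 2) := by
    intro i v v' t t' ht ht'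
    have e := s1 (A.a x + r i • v) _ (A.a x + r i • v') _ (hb i t ht) (hb i t' ht')
    rw [dist_add_left, dist_smul₀, Real.norm_eq_abs, abs_of_pos (hr i)] at e
    rw [eq_comm, Real.sqrt_eq_iff_eq_sq (by positivity) (div_nonneg dist_nonneg (hr i).le),
      div_pow, e, eq_div_iff (pow_pos (hr i) 2).ne']
    ring
  have hlim : ∀ (v : Euc k) (t : ℝ), 0 ≤ t →
      ∃ z, B.Lf (fun i => s (A.a x + r i • v) (A.b x + r i * t)) z ∧
        dist z B.e = √(dist v 0 ^ 2 + (t - 0) ^ 2) ∧ B.E.Ctr n z := by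
    intro v t ht
    obtain ⟨z, z1, z2⟩ := st_lim_of_dist B
      (a := fun i => s (A.a x + r i • v) (A.b x + r i * t))
      (c := √(dist v 0 ^ 2 + (t - 0) ^ 2)) (tendsto_const_nhds.congr fun i => by
        rw [← hd i v 0 t 0 ht le_rfl, smul_zero, add_zero, mul_zero, add_zero, s0])
    refine ⟨z, z1, z2, B.ctr_of_pinch z1 fun ε hε => ?_⟩
    have h1 : ∀ ρ : ℝ, 0 < ρ → Tendsto (fun i =>
        D.Θ n (s (A.a x + r i • v) (A.b x + r i * t)) (ρ * r i)) U (𝓝 (D.Θ0 n x)) := by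
      intro ρ hρ
      have h2 : Tendsto (fun i => ρ * r i * (A.b x / (A.b x + r i * t))) U (𝓝[>] 0) := by
        refine tendsto_nhdsWithin_iff.2 ⟨?_, Eventually.of_forall fun i =>
          mul_pos (mul_pos hρ (hr i)) (div_pos hx (hb i t ht))⟩
        have h3 := (B.seq.lim.const_mul ρ).mul ((tendsto_const_nhds (x := A.b x)).div
          ((B.seq.lim.mul_const t).const_add (A.b x)) (by simpa using hx.ne'))
        simpa using h3
      refine ((h.Θ_lim x).comp h2).congr fun i => ?_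
      exact (s2 _ _ _ (hb i t ht) (mul_pos hρ (hr i))).symm
    have h4 := (h1 _ (inv_pos.2 hε)).sub (h1 _ hε)
    rw [sub_self] at h4
    exact (h4.eventually (gt_mem_nhds hε)).mono fun i hi => hi.le
  let v : Option (Fin k) → Euc k := fun l => l.elim 0 fun m => EuclideanSpace.single m 1
  let t : Option (Fin k) → ℝ := fun l => l.elim 1 fun _ => 0
  have ht : ∀ l, 0 ≤ t l := by rintro (_ | m) <;> simp [t]
  choose z z1 z2 z3 using fun l => hlim (v l) (t l) (ht l)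
  have h5 := st_frame A' A'.ctr_e z3 (fun l => ?_) fun l l' hl => ?_
  · simpa using h5
  · rw [z2]
    rcases l with _ | m <;> simp [v, t]
  · rw [tendsto_nhds_unique ((z1 l).dist (z1 l'))
      (tendsto_const_nhds.congr fun i => (hd i _ _ _ _ (ht l) (ht l')).symm)]
    rcases l with _ | m <;> rcases l' with _ | m'
    · exact (hl rfl).elim
    · simp [v, t, one_add_one_eq_two]
    · simp [v, t, one_add_one_eq_two]
    · have hm : m ≠ m' := fun e => hl (by rw [e])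
      simp [v, t, st_single hm]

/-- An axis of full dimension exhausts the space. -/
theorem ax_full [HasBlow n] (h : Model D n) {e : X} (A : Ax D n e n) (z : X) :
    D.Ctr n z := by
  rcases (A.b_nonneg z).eq_or_lt with hz | hz
  · exact (A.ctr z).2 ⟨_, A.b_eq_zero hz.symm⟩
  obtain ⟨B⟩ := HasBlow.blow D 0 h.toHP h.n0 _ _ _
    (seq_of_small (y := fun _ => z) (r := fun i => 1 / ((i : ℝ) + 1))
      (fun _ => mem_ball_self one_pos) (fun i => by positivity) fun _ => le_rfl)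
  obtain ⟨j, hj, ⟨A'⟩⟩ := B.model.cone.ax _ (B.ctr_const h.toHP fun _ => rfl).1
  have := off_axis h A hz B A'
  omega

/-- A point outside the top stratum has a Euclidean blow-up. -/
theorem exists_euc [HasBlow (n + 1)] (h : HP D κ (n + 1)) {x : X} (hx : ¬NoAx D (n + 1) n x) :
    ∃ (U : Ultrafilter ℕ) (r : ℕ → ℝ) (B : Blow D (n + 1) U (fun _ => x) r)
      (A : Ax B.E (n + 1) B.e (n + 1)), (∀ z, B.E.Ctr (n + 1) z) ∧
      B.ν.map A.a = ENNReal.ofReal (θ (n + 1) / D.Θ0 (n + 1) x) • volume := by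
  simp only [NoAx, not_forall, not_le] at hx
  obtain ⟨U, r, B, j, A, hj⟩ := hx
  obtain ⟨k, hk, ⟨A'⟩⟩ := B.model.cone.ax _ A.ctr_e
  obtain rfl : j = n + 1 := le_antisymm ((st_ax_le A A').trans hk) hj
  have h1 := ax_full B.model A
  refine ⟨U, r, B, A, h1, ?_⟩
  rw [← (B.ctr_const h fun _ => rfl).2]
  exact (B.model.cone.euc _ _ A h1).2

end RC
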