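import Pool.Agent.P.MP_6472e5_gt.HoL

/-! The reduced homology of a punctured Euclidean space. -/

set_option autoImplicit false
set_option linter.unusedSectionVars false

noncomputable section

namespace RC.Ho

open Set Filter Topology Metric

variable {R : Type} [CommRing R] {X Y : Type} [TopologicalSpace X] [TopologicalSpace Y]

/-- The reduced homology of `V \ 0` is that of a `k`-sphere. -/
structure Pun (R : Type) [CommRing R] (V : Type) [TopologicalSpace V] [Zero V] (k : ℕ) : Prop where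
  ex : ∃ γ ∈ rcy R ({0}ᶜ : Set V) k,
    (∀ c ∈ rcy R ({0}ᶜ : Set V) k, ∃ j : R, c - j • γ ∈ bdy R ({0}ᶜ : Set V) k) ∧
      ∀ j : R, j • γ ∈ bdy R ({0}ᶜ : Set V) k → j = 0
  high : ∀ j, k < j → rcy R ({0}ᶜ : Set V) j ≤ bdy R ({0}ᶜ : Set V) j

theorem rcy_le (S : Set X) (n : ℕ) : rcy R S n ≤ chn R S n := by
  cases n <;> exact inf_le_left

theorem bd_mem_rcy {S : Set X} {n : ℕ} {c : Chn R X (n + 1)} (h : bd R X n c ∈ chn R S n) :
    bd R X n c ∈ rcy R S n := by
  cases n with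
  | zero => exact ⟨h, aug_bd c⟩
  | succ n => exact ⟨h, bd_bd n c⟩

theorem cmap_rcy {f : X → Y} {S : Set X} {T : Set Y} (hf : ContinuousOn f S) (hT : MapsTo f S T)
    {n : ℕ} {c : Chn R X n} (h : c ∈ rcy R S n) : cmap R f n c ∈ rcy R T n := by
  cases n with
  | zero => exact ⟨cmap_mem hf hT h.1, (aug_cmap f c).trans h.2⟩
  | succ n => exact cmap_cyc (n := n + 1) hf hT h

theorem rcy_le_of_star {V : Type} [NormedAddCommGroup V] [NormedSpace ℝ V] {S : Set V} {x : V}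
    (h : StarConvex ℝ x S) (n : ℕ) : rcy R S n ≤ bdy R S n := by
  cases n with
  | zero =>
    rcases S.eq_empty_or_nonempty with rfl | hne
    · refine (rcy_le _ _).trans ?_
      rw [chn_empty]
      exact bot_le
    · exact fun c hc => mem_bdy_zero (h.isPathConnected (h.mem hne)) hc.1 hc.2
  | succ n => exact cyc_le_of_star h n

theorem toA_cyc (S : Set X) (n : ℕ) : rcy R S n ≤ cyc R S n := by
  cases n with
  | zero => exact inf_le_left
  | succ n => exact le_rfl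

/-- A cycle of the union of two open sets is a difference of chains with the same boundary. -/
theorem toA_split {U V : Set X} (hU : IsOpen U) (hV : IsOpen V) {n : ℕ} {c : Chn R X (n + 1)}
    (hc : c ∈ rcy R (U ∪ V) (n + 1)) : ∃ a ∈ chn R U (n + 1), ∃ b ∈ chn R V (n + 1),
      c - (a - b) ∈ bdy R (U ∪ V) (n + 1) ∧ bd R X n a = bd R X n b ∧
        bd R X n a ∈ rcy R (U ∩ V) n := by
  obtain ⟨a, ha, b, hb, h⟩ := mv_split hU hV (subset_refl _) (n := n + 1) hc
  have ha' := chn_mono inter_subset_right _ ha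
  have hb' := Submodule.neg_mem _ (chn_mono inter_subset_right _ hb)
  have h0 : bd R X n (c - a - b) = 0 := (bdy_le _ _ h).2
  have h1 : bd R X n c = 0 := hc.2
  have e : bd R X n a = bd R X n (-b) := by
    rw [map_sub, map_sub, h1, zero_sub, sub_eq_zero] at h0
    rw [map_neg, ← h0, neg_neg]
  refine ⟨a, ha', -b, hb', by rwa [sub_neg_eq_add, ← _root_.sub_sub], e,
    bd_mem_rcy (mem_inter_chn (bd_mem ha') (e ▸ bd_mem hb'))⟩

/-- A difference of chains whose common boundary bounds in the intersection. -/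
theorem toA_glue {U V : Set X} {n : ℕ} (sU : rcy R U (n + 1) ≤ bdy R U (n + 1))
    (sV : rcy R V (n + 1) ≤ bdy R V (n + 1)) {a b : Chn R X (n + 1)} (ha : a ∈ chn R U (n + 1))
    (hb : b ∈ chn R V (n + 1)) (e : bd R X n a = bd R X n b)
    (h : bd R X n a ∈ bdy R (U ∩ V) n) : a - b ∈ bdy R (U ∪ V) (n + 1) := by
  obtain ⟨d, hd, e'⟩ := h
  have h1 : a - d ∈ bdy R U (n + 1) :=
    sU ⟨Submodule.sub_mem _ ha (chn_mono inter_subset_left _ hd), by
      rw [SetLike.mem_coe, LinearMap.mem_ker, map_sub, e', sub_self]⟩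
  have h2 : b - d ∈ bdy R V (n + 1) :=
    sV ⟨Submodule.sub_mem _ hb (chn_mono inter_subset_right _ hd), by
      rw [SetLike.mem_coe, LinearMap.mem_ker, map_sub, e', e, sub_self]⟩
  have := Submodule.sub_mem _ (bdy_mono subset_union_left _ h1) (bdy_mono subset_union_right _ h2)
  rwa [sub_sub_sub_cancel_right] at this

theorem toA_high {U V : Set X} (hU : IsOpen U) (hV : IsOpen V) {n : ℕ}
    (sU : rcy R U (n + 1) ≤ bdy R U (n + 1)) (sV : rcy R V (n + 1) ≤ bdy R V (n + 1))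
    (h : rcy R (U ∩ V) n ≤ bdy R (U ∩ V) n) :
    rcy R (U ∪ V) (n + 1) ≤ bdy R (U ∪ V) (n + 1) := by
  intro c hc
  obtain ⟨a, ha, b, hb, h1, h2, h3⟩ := toA_split hU hV hc
  have := Submodule.add_mem _ h1 (toA_glue sU sV ha hb h2 (h h3))
  rwa [sub_add_cancel] at this

/-- A difference of chains that bounds in the union. -/
theorem toA_free {U V : Set X} (hU : IsOpen U) (hV : IsOpen V) {n : ℕ} {a b : Chn R X n}
    (ha : a ∈ chn R U n) (hb : b ∈ chn R V n) (h : a - b ∈ bdy R (U ∪ V) n) :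
    ∃ u : Chn R X (n + 1), a - bd R X n u ∈ chn R (U ∩ V) n := by
  obtain ⟨_, ⟨u, hu, rfl⟩, _, ⟨v, hv, rfl⟩, e⟩ := Submodule.mem_sup.1 (mv_bdy hU hV (subset_refl _)
    (Submodule.sub_mem _ (Submodule.mem_sup_left ha) (Submodule.mem_sup_right hb)) h)
  refine ⟨u, mem_inter_chn (Submodule.sub_mem _ ha (chn_mono inter_subset_right _ (bd_mem hu))) ?_⟩
  have : a - bd R X n u = b + bd R X n v := by
    rw [sub_eq_iff_eq_add, add_assoc, add_comm (bd R X n v), e, add_sub_cancel]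
  rw [this]
  exact Submodule.add_mem _ hb (chn_mono inter_subset_right _ (bd_mem hv))

theorem toA_aug (σ : Simp X 0) (r : R) : aug R (Finsupp.single σ r) = r := by
  unfold aug
  rw [ev_single, smul_eq_mul, mul_one]

theorem pun_real : Pun R ℝ 0 := by
  have e : ({0}ᶜ : Set ℝ) = Ioi 0 ∪ Iio 0 := by
    ext x
    simp only [mem_compl_iff, mem_singleton_iff, mem_union, mem_Ioi, mem_Iio]
    exact ⟨fun h => (lt_or_gt_of_ne h).symm, fun h => h.elim ne_of_gt ne_of_lt⟩
  have e' : (Ioi 0 ∩ Iio 0 : Set ℝ) = ∅ := by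
    ext x
    simp only [mem_inter_iff, mem_Ioi, mem_Iio, mem_empty_iff_false, iff_false, not_and, not_lt]
    exact le_of_lt
  have sU : ∀ n, rcy R (Ioi (0 : ℝ)) n ≤ bdy R (Ioi 0) n :=
    rcy_le_of_star ((convex_Ioi (0 : ℝ)).starConvex (mem_Ioi.2 one_pos))
  have sV : ∀ n, rcy R (Iio (0 : ℝ)) n ≤ bdy R (Iio 0) n :=
    rcy_le_of_star ((convex_Iio (0 : ℝ)).starConvex (mem_Iio.2 neg_one_lt_zero))
  have m1 : Finsupp.single (ContinuousMap.const _ (1 : ℝ) : Simp ℝ 0) (1 : R) ∈ chn R (Ioi 0) 0 :=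
    single_mem (by
      rintro _ ⟨t, rfl⟩
      exact mem_Ioi.2 one_pos) 1
  have m2 : Finsupp.single (ContinuousMap.const _ (-1 : ℝ) : Simp ℝ 0) (1 : R) ∈ chn R (Iio 0) 0 :=
    single_mem (by
      rintro _ ⟨t, rfl⟩
      exact mem_Iio.2 neg_one_lt_zero) 1
  rw [show Pun R ℝ 0 ↔ _ from ⟨fun h => And.intro h.1 h.2, fun h => ⟨h.1, h.2⟩⟩, e]
  refine ⟨⟨_ - _, ⟨Submodule.sub_mem _ (chn_mono subset_union_left _ m1)
    (chn_mono subset_union_right _ m2), ?_⟩, fun c hc => ?_, fun j hj => ?_⟩, fun j hj => ?_⟩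
  · rw [SetLike.mem_coe, LinearMap.mem_ker, map_sub, toA_aug, toA_aug, sub_self]
  · obtain ⟨a, ha, b, hb, h⟩ := mv_split isOpen_Ioi isOpen_Iio (subset_refl _) (n := 0) hc.1
    have h0 : aug R c = 0 := hc.2
    have h1 : aug R (c - a - b) = 0 := by
      obtain ⟨d, -, hd⟩ := h
      rw [← hd, aug_bd]
    rw [map_sub, map_sub, h0, zero_sub, sub_eq_zero] at h1
    have a1 := sU 0 (⟨Submodule.sub_mem _ (chn_mono inter_subset_right _ ha)
      (Submodule.smul_mem _ (aug R a) m1), by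
        rw [SetLike.mem_coe, LinearMap.mem_ker, map_sub, map_smul, toA_aug, smul_eq_mul, mul_one,
          sub_self]⟩ : _ ∈ rcy R (Ioi (0 : ℝ)) 0)
    have a2 := sV 0 (⟨Submodule.add_mem _ (chn_mono inter_subset_right _ hb)
      (Submodule.smul_mem _ (aug R a) m2), by
        rw [SetLike.mem_coe, LinearMap.mem_ker, map_add, map_smul, toA_aug, smul_eq_mul, mul_one,
          ← h1, neg_add_cancel]⟩ : _ ∈ rcy R (Iio (0 : ℝ)) 0)
    refine ⟨aug R a, ?_⟩
    have := Submodule.add_mem _ (Submodule.add_mem _ h (bdy_mono subset_union_left _ a1))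
      (bdy_mono subset_union_right _ a2)
    refine (congrArg (· ∈ _) ?_).mp this
    rw [smul_sub]
    abel
  · rw [smul_sub] at hj
    obtain ⟨u, hu⟩ := toA_free isOpen_Ioi isOpen_Iio (Submodule.smul_mem _ j m1)
      (Submodule.smul_mem _ j m2) hj
    rw [e', chn_empty, Submodule.mem_bot] at hu
    have := congrArg (aug R) hu
    rwa [map_sub, aug_bd, map_smul, toA_aug, sub_zero, map_zero, smul_eq_mul, mul_one] at this
  · obtain ⟨j, rfl⟩ := Nat.exists_eq_succ_of_ne_zero hj.ne'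
    refine toA_high isOpen_Ioi isOpen_Iio (sU _) (sV _) ((rcy_le _ _).trans ?_)
    rw [e', chn_empty]
    exact bot_le

theorem toA_star {V : Type} [NormedAddCommGroup V] [NormedSpace ℝ V] {s : ℝ} (hs : s * s = 1) :
    IsOpen {p : ℝ × V | ¬(p.2 = 0 ∧ 0 ≤ s * p.1)} ∧
      StarConvex ℝ ((-s, 0) : ℝ × V) {p : ℝ × V | ¬(p.2 = 0 ∧ 0 ≤ s * p.1)} := by
  constructor
  · exact ((isClosed_eq continuous_snd continuous_const).inter
      (isClosed_le continuous_const (continuous_const.mul continuous_fst))).isOpen_compl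
  · rintro p hp a b ha hb hab ⟨h1, h2⟩
    simp only [Prod.snd_add, Prod.smul_snd, smul_zero, zero_add, smul_eq_zero, Prod.fst_add,
      Prod.smul_fst, smul_eq_mul] at h1 h2
    have h3 : s * (a * -s + b * p.1) = -a + b * (s * p.1) := by linear_combination (-a) * hs
    rw [h3] at h2
    rcases hb.eq_or_lt with rfl | hb'
    · linarith
    · refine hp ⟨h1.resolve_left hb'.ne', ?_⟩
      by_contra h4
      nlinarith [mul_pos hb' (neg_pos.2 (not_le.1 h4))]

theorem Pun.succ {V : Type} [NormedAddCommGroup V] [NormedSpace ℝ V] {k : ℕ} (h : Pun R V k) :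
    Pun R (ℝ × V) (k + 1) := by
  obtain ⟨oU, sU⟩ := toA_star (V := V) (s := 1) (by norm_num)
  obtain ⟨oW, sW⟩ := toA_star (V := V) (s := -1) (by norm_num)
  set U := {p : ℝ × V | ¬(p.2 = 0 ∧ 0 ≤ 1 * p.1)} with hU
  set W := {p : ℝ × V | ¬(p.2 = 0 ∧ 0 ≤ -1 * p.1)} with hW
  have e : ({0}ᶜ : Set (ℝ × V)) = U ∪ W := by
    ext p
    simp only [hU, hW, mem_compl_iff, mem_singleton_iff, mem_union, mem_ofPred_eq, Prod.ext_iff,
      Prod.fst_zero, Prod.snd_zero, ← not_and_or]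
    exact not_congr ⟨fun h => ⟨⟨h.2, by simp [h.1]⟩, h.2, by simp [h.1]⟩,
      fun h => ⟨by linarith [h.1.2, h.2.2], h.1.1⟩⟩
  have e' : ∀ p, p ∈ U ∩ W ↔ p.2 ≠ 0 := by
    intro p
    simp only [hU, hW, mem_inter_iff, mem_ofPred_eq]
    refine ⟨fun h h0 => ?_, fun h => ⟨fun h' => h h'.1, fun h' => h h'.1⟩⟩
    rcases le_total 0 p.1 with h1 | h1
    · exact h.1 ⟨h0, by linarith⟩
    · exact h.2 ⟨h0, by linarith⟩
  have ci : ContinuousOn (fun v : V => ((0 : ℝ), v)) {0}ᶜ := Continuous.continuousOn (by fun_prop)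
  have mi : MapsTo (fun v : V => ((0 : ℝ), v)) {0}ᶜ (U ∩ W) := fun v hv => (e' _).2 hv
  have ms : MapsTo (Prod.snd : ℝ × V → V) (U ∩ W) {0}ᶜ := fun p hp => (e' _).1 hp
  have ret : ∀ {n : ℕ} {c : Chn R (ℝ × V) n}, c ∈ rcy R (U ∩ W) n →
      c - cmap R (fun v : V => ((0 : ℝ), v)) n (cmap R Prod.snd n c) ∈ bdy R (U ∩ W) n := by
    intro n c hc
    have h1 := htpy_cyc (R := R) (fun (s : ℝ) (p : ℝ × V) => (s * p.1, p.2)) (S := U ∩ W)
      (S' := U ∩ W) (Continuous.continuousOn (by fun_prop))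
      (fun s _ p hp => (e' _).2 ((e' p).1 hp)) (toA_cyc _ _ hc)
    have e1 : (fun p : ℝ × V => ((1 : ℝ) * p.1, p.2)) = id := by
      funext p
      simp
    have e0 : (fun p : ℝ × V => ((0 : ℝ) * p.1, p.2)) = (fun v : V => ((0 : ℝ), v)) ∘ Prod.snd := by
      funext p
      simp
    rwa [e1, e0, cmap_id, ← cmap_comp continuousOn_snd (rcy_le _ _ hc)] at h1
  obtain ⟨γ, hγ, hgen, hfree⟩ := h.ex
  have hι := cmap_rcy ci mi hγ
  obtain ⟨a, ha, ea⟩ := rcy_le_of_star (R := R) sU k (cmap_rcy ci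
    (mi.mono_right inter_subset_left) hγ)
  obtain ⟨b, hb, eb⟩ := rcy_le_of_star (R := R) sW k (cmap_rcy ci
    (mi.mono_right inter_subset_right) hγ)
  rw [show Pun R (ℝ × V) (k + 1) ↔ _ from ⟨fun h => And.intro h.1 h.2, fun h => ⟨h.1, h.2⟩⟩, e]
  refine ⟨⟨a - b, ⟨Submodule.sub_mem _ (chn_mono subset_union_left _ ha)
    (chn_mono subset_union_right _ hb), ?_⟩, fun c hc => ?_, fun j hj => ?_⟩, fun j hj => ?_⟩
  · rw [SetLike.mem_coe, LinearMap.mem_ker, map_sub, ea, eb, sub_self]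
  · obtain ⟨a', ha', b', hb', h1, h2, h3⟩ := toA_split oU oW hc
    obtain ⟨j, hj⟩ := hgen _ (cmap_rcy continuousOn_snd ms h3)
    have h4 := Submodule.add_mem _ (ret h3) (cmap_bdy ci mi hj)
    rw [map_sub, map_smul, sub_add_sub_cancel, ← ea, ← map_smul, ← map_sub] at h4
    have h5 := toA_glue (rcy_le_of_star sU _) (rcy_le_of_star sW _)
      (Submodule.sub_mem _ ha' (Submodule.smul_mem _ j ha))
      (Submodule.sub_mem _ hb' (Submodule.smul_mem _ j hb))
      (by rw [map_sub, map_sub, map_smul, map_smul, h2, ea, eb]) h4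
    refine ⟨j, (congrArg (· ∈ _) ?_).mp (Submodule.add_mem _ h1 h5)⟩
    rw [smul_sub]
    abel
  · rw [smul_sub] at hj
    obtain ⟨u, hu⟩ := toA_free oU oW (Submodule.smul_mem _ j ha) (Submodule.smul_mem _ j hb) hj
    have h1 := cmap_bdy continuousOn_snd ms (⟨_, hu, rfl⟩ : _ ∈ bdy R (U ∩ W) k)
    rw [map_sub, bd_bd, sub_zero, map_smul, ea, map_smul, cmap_comp ci (rcy_le _ _ hγ)] at h1
    exact hfree j (by rwa [show Prod.snd ∘ (fun v : V => ((0 : ℝ), v)) = id from rfl,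
      cmap_id] at h1)
  · obtain ⟨j, rfl⟩ := Nat.exists_eq_succ_of_ne_zero (Nat.ne_zero_of_lt hj)
    refine toA_high oU oW (rcy_le_of_star sU _) (rcy_le_of_star sW _) fun c hc => ?_
    have := Submodule.add_mem _ (ret hc) (cmap_bdy ci mi
      (h.high j (by omega) (cmap_rcy continuousOn_snd ms hc)))
    rwa [sub_add_cancel] at this

theorem Pun.homeo [Zero X] [Zero Y] (e : X ≃ₜ Y) (h0 : e 0 = 0) {k : ℕ} (h : Pun R X k) :
    Pun R Y k := by
  have m1 : MapsTo e {0}ᶜ {0}ᶜ := fun x hx h' => hx (e.injective (h'.trans h0.symm))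
  have m2 : MapsTo e.symm {0}ᶜ {0}ᶜ := fun y hy h' => hy (by
    rw [mem_singleton_iff, ← h0, ← (mem_singleton_iff.1 h'), e.apply_symm_apply])
  have c1 : ContinuousOn e {0}ᶜ := e.continuous.continuousOn
  have c2 : ContinuousOn e.symm {0}ᶜ := e.symm.continuous.continuousOn
  have i1 : ∀ {n : ℕ} (c : Chn R Y n), cmap R e n (cmap R e.symm n c) = c := fun c => by
    rw [cmap_comp e.symm.continuous.continuousOn (mem_univ_chn c), e.self_comp_symm, cmap_id]
  have i2 : ∀ {n : ℕ} (c : Chn R X n), cmap R e.symm n (cmap R e n c) = c := fun c => by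
    rw [cmap_comp e.continuous.continuousOn (mem_univ_chn c), e.symm_comp_self, cmap_id]
  obtain ⟨γ, hγ, hgen, hfree⟩ := h.ex
  refine ⟨⟨_, cmap_rcy c1 m1 hγ, fun c hc => ?_, fun j hj => ?_⟩, fun j hj c hc => ?_⟩
  · obtain ⟨j, hj⟩ := hgen _ (cmap_rcy c2 m2 hc)
    have := cmap_bdy c1 m1 hj
    rw [map_sub, map_smul, i1] at this
    exact ⟨j, this⟩
  · have := cmap_bdy c2 m2 hj
    rw [map_smul, i2] at this
    exact hfree j this
  · have := cmap_bdy c1 m1 (h.high j hj (cmap_rcy c2 m2 hc))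
    rwa [i1] at this

theorem pun_euc (k : ℕ) : Pun R (Euc (k + 1)) k := by
  induction k with
  | zero =>
    let e : ℝ ≃L[ℝ] Euc 1 := ContinuousLinearEquiv.ofFinrankEq (by simp)
    exact pun_real.homeo e.toHomeomorph e.map_zero
  | succ k ih =>
    let e : (ℝ × Euc (k + 1)) ≃L[ℝ] Euc (k + 1 + 1) :=
      ContinuousLinearEquiv.ofFinrankEq (by simp [add_comm])
    exact ih.succ.homeo e.toHomeomorph e.map_zero

end RC.Ho
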