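import Pool.Agent.P.MP_6472e5_gt.ToA

/-! Local homology of Euclidean space and of manifolds. -/

set_option autoImplicit false
set_option linter.unusedSectionVars false

noncomputable section

namespace RC.Ho

open Set Filter Topology Metric

variable {R : Type} [CommRing R] {X Y : Type} [TopologicalSpace X] [TopologicalSpace Y]

theorem toB_rcy_cyc (S : Set X) (n : ℕ) : rcy R S n ≤ cyc R S n := by
  cases n
  exacts [inf_le_left, le_rfl]

theorem toB_fill {V : Type} [NormedAddCommGroup V] [NormedSpace ℝ V] {K : Set V} {j : ℕ}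
    {c : Chn R V (j + 1)} (h : bd R V j c ∈ bdy R Kᶜ j) : c ∈ Bl R K (j + 1) := by
  obtain ⟨e, he, hb⟩ := h
  have h1 : c - e ∈ cyc R (univ : Set V) (j + 1) :=
    ⟨mem_univ_chn _, by
      change bd R V j (c - e) = 0
      rw [map_sub, hb, sub_self]⟩
  have h2 := cyc_le_of_star (starConvex_univ (0 : V)) j h1
  have h3 := Submodule.add_mem_sup h2 he
  rwa [sub_add_cancel] at h3

theorem toB_bd {K : Set X} {j : ℕ} {c : Chn R X (j + 1)} (h : c ∈ Bl R K (j + 1)) :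
    bd R X j c ∈ bdy R Kᶜ j := by
  obtain ⟨a, ⟨u, -, rfl⟩, e, he, rfl⟩ := Submodule.mem_sup.mp h
  exact ⟨e, he, by rw [map_add, bd_bd, zero_add]⟩

theorem exists_std (R : Type) [CommRing R] (k : ℕ) :
    ∃ g : Chn R (Euc (k + 1)) (k + 1), Std k g := by
  obtain ⟨γ, hγ, hgen, hfre⟩ := (pun_euc (R := R) k).ex
  let H : ℝ → Euc (k + 1) → Euc (k + 1) := fun s v => (1 - s + s * (5 / ‖v‖)) • v
  have hH : ContinuousOn (fun p : ℝ × Euc (k + 1) => H p.1 p.2) (Icc 0 1 ×ˢ {0}ᶜ) := by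
    have h1 : ContinuousOn (fun p : ℝ × Euc (k + 1) => 5 / ‖p.2‖) (Icc 0 1 ×ˢ {0}ᶜ) :=
      continuousOn_const.div continuous_snd.norm.continuousOn
        fun p hp => norm_ne_zero_iff.mpr hp.2
    exact ((continuousOn_const.sub continuousOn_fst).add (continuousOn_fst.mul h1)).smul
      continuousOn_snd
  have hS : ∀ s ∈ Icc (0 : ℝ) 1, ∀ v ∈ ({0}ᶜ : Set (Euc (k + 1))),
      H s v ∈ ({0}ᶜ : Set (Euc (k + 1))) := by
    intro s hs v hv
    have h1 : 0 < ‖v‖ := norm_pos_iff.mpr hv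
    have h2 : 0 < 1 - s + s * (5 / ‖v‖) := by
      rcases hs.1.eq_or_lt with h | h
      · rw [← h]
        simp
      · have h3 : 0 < s * (5 / ‖v‖) := by positivity
        linarith [hs.2]
    exact smul_ne_zero h2.ne' hv
  have h0 : H 0 = id := funext fun v => by simp [H]
  have hd := htpy_cyc H hH hS (toB_rcy_cyc _ _ hγ)
  rw [h0, cmap_id] at hd
  have hc1 : ContinuousOn (H 1) {0}ᶜ :=
    hH.comp (f := fun v => ((1 : ℝ), v)) (by fun_prop) fun v hv => ⟨⟨zero_le_one, le_rfl⟩, hv⟩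
  have hn : ∀ v ∈ ({0}ᶜ : Set (Euc (k + 1))), ‖H 1 v‖ = 5 := fun v hv => by
    have h1 : 0 < ‖v‖ := norm_pos_iff.mpr hv
    simp only [H, sub_self, zero_add, one_mul, norm_smul, Real.norm_eq_abs]
    rw [abs_of_pos (by positivity)]
    field_simp
  have hm : cmap R (H 1) k γ ∈ rcy R (closedBall (0 : Euc (k + 1)) 5) k :=
    cmap_rcy hc1 (fun v hv => mem_closedBall_zero_iff.mpr (hn v hv).le) hγ
  obtain ⟨g, hg, hb⟩ := rcy_le_of_star
    ((convex_closedBall (0 : Euc (k + 1)) 5).starConvex (mem_closedBall_self (by norm_num))) k hm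
  refine ⟨g, hg, ?_, ⟨?_, fun c hc => ?_⟩, fun j hj => hfre j ?_⟩
  · rw [hb]
    refine cmap_mem hc1 (fun v hv => ?_) (rcy_le _ _ hγ)
    intro hv'
    have h1 := mem_ball_zero_iff.mp hv'
    rw [hn v hv] at h1
    norm_num at h1
  · rw [mem_Zl, hb]
    exact cmap_mem hc1 (hS 1 ⟨zero_le_one, le_rfl⟩) (rcy_le _ _ hγ)
  · obtain ⟨j, hj⟩ := hgen _ (bd_mem_rcy (mem_Zl.mp hc))
    refine ⟨j, toB_fill ?_⟩
    have h1 := Submodule.sub_mem _ hj (Submodule.smul_mem _ j hd)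
    rw [map_sub, map_smul, hb]
    rwa [smul_sub, sub_sub_sub_cancel_right] at h1
  · have h1 := toB_bd hj
    rw [map_smul, hb] at h1
    have h2 := Submodule.sub_mem _ h1 (Submodule.smul_mem _ j hd)
    rwa [smul_sub, sub_sub_cancel] at h2

theorem euc_high {k j : ℕ} (h : k < j) (v : Euc (k + 1)) : Zl R {v} j ≤ Bl R {v} (j + 1) := by
  intro c hc
  have f1 : Continuous fun w : Euc (k + 1) => w - v := by fun_prop
  have f2 : Continuous fun w : Euc (k + 1) => w + v := by fun_prop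
  have h1 : cmap R (fun w : Euc (k + 1) => w - v) (j + 1) c ∈ Zl R {0} j :=
    cmap_Zl f1.continuousOn (fun y _ hy => sub_eq_zero.mp hy) (mem_univ_chn c) hc
  have h2 := toB_fill ((pun_euc (R := R) k).high j h (bd_mem_rcy (mem_Zl.mp h1)))
  have h3 := cmap_Bl' (K' := {v}) f2 (fun y hy => add_eq_right.mp hy) h2
  rw [cmap_comp f1.continuousOn (mem_univ_chn c)] at h3
  have h4 : ((fun w : Euc (k + 1) => w + v) ∘ fun w => w - v) = id := funext fun w => by simp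
  rwa [h4, cmap_id] at h3

theorem toB_homeo [T2Space X] [T2Space Y] (e : X ≃ₜ Y) {a : X} {k : ℕ} {ξ : Chn R X (k + 1)}
    (h : Gen a k ξ) (h' : Fre a (k + 1) ξ) :
    Gen (e a) k (cmap R e (k + 1) ξ) ∧ Fre (e a) (k + 1) (cmap R e (k + 1) ξ) :=
  ⟨chart_gen e.toOpenPartialHomeomorph (mem_univ a) (mem_univ_chn ξ) h,
    chart_fre e.toOpenPartialHomeomorph (mem_univ a) (mem_univ_chn ξ) h'⟩

theorem Std.ball {k : ℕ} {g : Chn R (Euc (k + 1)) (k + 1)} (h : Std k g) (c : Euc (k + 1)) {ρ : ℝ}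
    (hρ : 0 < ρ) : ∃ ξ ∈ chn R (closedBall c (5 * ρ)) (k + 1), ξ ∈ Zl R (ball c (4 * ρ)) k ∧
      ∀ y ∈ ball c (4 * ρ), Gen y k ξ ∧ Fre y (k + 1) ξ := by
  have hT : ∀ y : Euc (k + 1), Continuous fun w : Euc (k + 1) => y + ρ • w := fun y => by fun_prop
  have hd : ∀ y w : Euc (k + 1), dist (y + ρ • w) y = ρ * ‖w‖ := fun y w => by
    rw [dist_eq_norm, add_sub_cancel_left, norm_smul, Real.norm_eq_abs, abs_of_pos hρ]
  refine ⟨cmap R (fun w => c + ρ • w) (k + 1) g, ?_, ?_, fun y hy => ?_⟩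
  · refine cmap_mem (hT c).continuousOn (fun w hw => ?_) h.mem
    have h1 := mem_closedBall_zero_iff.mp hw
    rw [mem_closedBall, hd]
    nlinarith
  · refine cmap_Zl (K := Metric.ball 0 4) (hT c).continuousOn (fun w _ hw => ?_) (mem_univ_chn g)
      (mem_Zl.mpr h.bdm)
    rw [mem_ball, hd] at hw
    rw [mem_ball_zero_iff]
    nlinarith
  · have h1 := toB_homeo ((Homeomorph.smulOfNeZero ρ hρ.ne').trans (Homeomorph.addLeft y))
      h.gen h.fre
    have h2 : ((Homeomorph.smulOfNeZero ρ hρ.ne').trans (Homeomorph.addLeft y)) 0 = y := by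
      change y + ρ • (0 : Euc (k + 1)) = y
      simp
    rw [h2] at h1
    have h3 := line_Bl (w := y) (hT c).continuousOn (hT y).continuousOn (fun w hw => by
      have h4 : 4 ≤ ‖w‖ := not_lt.mp fun h5 => hw.2 (mem_ball_zero_iff.mpr h5)
      have h6 := mem_ball'.mp hy
      rw [hd, dist_add_right]
      nlinarith) (mem_univ_chn g) h.bdm
    exact ⟨h1.1.congr (Bl_symm h3), h1.2.congr (Bl_symm h3)⟩

theorem exists_gen (R : Type) [CommRing R] [T2Space X] {k : ℕ} {A : Set X}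
    (hA : IsTopMfd (k + 1) A) {x : X} (hx : x ∈ A) :
    ∃ U, IsOpen U ∧ x ∈ U ∧ U ⊆ A ∧ IsPreconnected U ∧ ∃ ξ ∈ chn R A (k + 1), ξ ∈ Zl R U k ∧
      ∀ y ∈ U, Gen y k ξ ∧ Fre y (k + 1) ξ := by
  obtain ⟨e, hxe, heA⟩ := hA.2 x hx
  obtain ⟨ε, hε, hb⟩ := Metric.isOpen_iff.mp e.open_target _ (e.map_source hxe)
  obtain ⟨g, hg⟩ := exists_std R k
  obtain ⟨ξ, h1, h2, h3⟩ := hg.ball (e x) (show 0 < ε / 6 by positivity)
  have hs : Metric.ball (e x) (4 * (ε / 6)) ⊆ e.symm.source :=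
    (ball_subset_ball (by linarith)).trans hb
  have hξ : ξ ∈ chn R e.symm.source (k + 1) :=
    chn_mono ((closedBall_subset_ball (by linarith)).trans hb) _ h1
  refine ⟨e.symm '' Metric.ball (e x) (4 * (ε / 6)),
    e.symm.isOpen_image_of_subset_source isOpen_ball hs,
    ⟨e x, mem_ball_self (by positivity), e.left_inv hxe⟩, ?_,
    (convex_ball _ _).isPreconnected.image _ (e.symm.continuousOn.mono hs),
    cmap R e.symm (k + 1) ξ, chn_mono heA _ (chart_mem e.symm hξ), chart_Zl e.symm hs hξ h2, ?_⟩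
  · rintro _ ⟨w, hw, rfl⟩
    exact heA (e.map_target (hs hw))
  · rintro _ ⟨w, hw, rfl⟩
    exact ⟨chart_gen e.symm (hs hw) hξ (h3 w hw).1, chart_fre e.symm (hs hw) hξ (h3 w hw).2⟩

theorem Gen.fre_mfd [T2Space X] {k : ℕ} {A : Set X} (hA : IsTopMfd (k + 1) A) {x : X} (hx : x ∈ A)
    {g : Chn R X (k + 1)} (h : Gen x k g) : Fre x (k + 1) g := by
  obtain ⟨U, -, hxU, -, -, ξ, -, -, h3⟩ := exists_gen R hA hx
  exact (h3 x hxU).1.fre h (h3 x hxU).2

end RC.Ho
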