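import Pool.Agent.P.MP_6472e5_gt.ToB

/-! A top degree class on a compact subset of Euclidean space is determined pointwise. -/

set_option autoImplicit false
set_option linter.unusedSectionVars false

noncomputable section

namespace RC.Ho

open Set Filter Topology Metric

variable {R : Type} [CommRing R] {X Y : Type} [TopologicalSpace X] [TopologicalSpace Y]

theorem toC_bd_bdy {S : Set X} {n : ℕ} {c : Chn R X (n + 1)} (h : c ∈ bdy R S (n + 1)) :
    bd R X n c = 0 := by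
  obtain ⟨s, -, rfl⟩ := h
  exact bd_bd n s

theorem conv_Bl {V : Type} [NormedAddCommGroup V] [NormedSpace ℝ V] {C : Set V} (hC : IsCompact C)
    (hc : Convex ℝ C) {v : V} (hv : v ∈ C) {j : ℕ} {c : Chn R V (j + 1)} (h : c ∈ Zl R C j)
    (h' : c ∈ Bl R {v} (j + 1)) : c ∈ Bl R C (j + 1) := by
  obtain ⟨s, hs, b, hb, rfl⟩ := Submodule.mem_sup.1 h'
  obtain ⟨D, hD, hDv, hbD⟩ := exists_compact hb
  rw [mem_Zl, map_add, toC_bd_bdy hs, zero_add] at h
  obtain ⟨δ, hδ, hδD⟩ := Metric.isOpen_iff.1 hD.isClosed.isOpen_compl v fun h => hDv h rfl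
  obtain ⟨M, hM0, hM⟩ := hC.isBounded.subset_ball_lt 0 v
  have hl : 0 < M / δ := div_pos hM0 hδ
  have h1 := htpy_Bl (fun (t : ℝ) (y : V) => v + (1 + t * (M / δ)) • (y - v)) (S := D) (T := Cᶜ)
    (K' := C) (by fun_prop) (fun t ht y hy hy' => hy.2 (by
      have h0 : 1 ≤ 1 + t * (M / δ) := le_add_of_nonneg_right (mul_nonneg ht.1 hl.le)
      have h2 := hc.add_smul_sub_mem hv hy' (t := (1 + t * (M / δ))⁻¹)
        ⟨by positivity, inv_le_one_of_one_le₀ h0⟩
      rwa [add_sub_cancel_left, smul_smul, inv_mul_cancel₀ (by positivity), one_smul,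
        add_sub_cancel] at h2)) hbD h
  have h2 : cmap R (fun y : V => v + (1 + 1 * (M / δ)) • (y - v)) (j + 1) b ∈
      chn R Cᶜ (j + 1) := by
    refine cmap_mem (by fun_prop) (fun y hy hy' => ?_) hbD
    have h3 : δ ≤ ‖y - v‖ := not_lt.1 fun h4 => hδD (mem_ball_iff_norm.2 h4) hy
    have h4 := mem_ball_iff_norm.1 (hM hy')
    rw [add_sub_cancel_left, norm_smul, Real.norm_eq_abs, abs_of_pos (by positivity)] at h4
    have h5 := mul_le_mul_of_nonneg_left h3 hl.le
    rw [div_mul_cancel₀ _ hδ.ne'] at h5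
    linarith [norm_nonneg (y - v)]
  have h3 : (fun y : V => v + (1 + 0 * (M / δ)) • (y - v)) = id := by
    funext y
    simp
  rw [h3, cmap_id] at h1
  exact Submodule.add_mem _ (bdy_le_Bl _ _ _ hs) (Bl_congr (chn_le_Bl _ _ h2) h1)

theorem mv_Bl {K K' : Set X} (hK : IsClosed K) (hK' : IsClosed K') {n : ℕ}
    (hi : Zl R (K ∩ K') n ≤ Bl R (K ∩ K') (n + 1)) {c : Chn R X n} (h : c ∈ Bl R K n)
    (h' : c ∈ Bl R K' n) : c ∈ Bl R (K ∪ K') n := by
  obtain ⟨_, ⟨u, -, rfl⟩, v, hv, e⟩ := Submodule.mem_sup.1 h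
  obtain ⟨_, ⟨u', -, rfl⟩, v', hv', e'⟩ := Submodule.mem_sup.1 h'
  have e1 : bd R X n (u - u') = v' - v := by
    rw [map_sub, sub_eq_sub_iff_add_eq_add, e, add_comm, e']
  have m1 : v' - v ∈ chn R Kᶜ n ⊔ chn R K'ᶜ n :=
    Submodule.sub_mem _ (Submodule.mem_sup_right hv') (Submodule.mem_sup_left hv)
  have m2 : u - u' ∈ Zl R (K ∩ K') n := by
    rw [mem_Zl, e1]
    exact Submodule.sub_mem _ (chn_mono (compl_subset_compl.2 inter_subset_right) n hv')
      (chn_mono (compl_subset_compl.2 inter_subset_left) n hv)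
  obtain ⟨s, hs, t, ht, e2⟩ := Submodule.mem_sup.1 (hi m2)
  have e3 : bd R X n t = v' - v := by
    rw [← e1, ← e2, map_add, toC_bd_bdy hs, zero_add]
  obtain ⟨a, ha, b, hb, hab⟩ := mv_rel hK.isOpen_compl hK'.isOpen_compl
    (O := (K ∩ K')ᶜ) (by rw [compl_inter]) ht (e3 ▸ m1)
  have e4 := toC_bd_bdy hab
  rw [map_sub, map_sub, e3] at e4
  have e5 : v + bd R X n a = v' - bd R X n b := by
    rw [← sub_eq_zero, ← neg_eq_zero, ← e4]
    abel
  have m3 : v + bd R X n a ∈ chn R (K ∪ K')ᶜ n := by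
    rw [compl_union]
    exact mem_inter_chn (Submodule.add_mem _ hv (bd_mem (chn_mono inter_subset_right _ ha)))
      (e5 ▸ Submodule.sub_mem _ hv' (bd_mem (chn_mono inter_subset_right _ hb)))
  have e6 : c = bd R X n (u - a) + (v + bd R X n a) := by
    rw [← e, map_sub]
    abel
  rw [e6]
  exact Submodule.add_mem _ (bd_mem_Bl _ _) (chn_le_Bl _ _ m3)

theorem toC_empty {n : ℕ} (c : Chn R X n) : c ∈ Bl R (∅ : Set X) n :=
  chn_le_Bl _ _ (by rw [compl_empty]; exact mem_univ_chn c)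

theorem toC_high {k : ℕ} {ι : Type} (s : Finset ι) : ∀ f : ι → Set (Euc (k + 1)),
    (∀ i, IsCompact (f i) ∧ Convex ℝ (f i)) → ∀ j, k < j →
      Zl R (⋃ i ∈ s, f i) j ≤ Bl R (⋃ i ∈ s, f i) (j + 1) := by
  classical
  induction s using Finset.induction_on with
  | empty => exact fun f _ j _ c _ => by simpa using toC_empty c
  | insert a s _ ih =>
    intro f hf j hj c hc
    rw [Finset.set_biUnion_insert] at hc ⊢
    have h1 := Zl_mono subset_union_left j hc
    refine mv_Bl (hf a).1.isClosed (s.isCompact_biUnion fun i _ => (hf i).1).isClosed ?_ ?_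
      (ih f hf j hj (Zl_mono subset_union_right j hc))
    · rw [inter_iUnion₂]
      exact ih _ (fun i => ⟨(hf a).1.inter (hf i).1, (hf a).2.inter (hf i).2⟩) _ (by omega)
    · rcases (f a).eq_empty_or_nonempty with h0 | ⟨v, hv⟩
      · rw [h0]
        exact toC_empty c
      · exact conv_Bl (hf a).1 (hf a).2 hv h1 (euc_high hj v (Zl_pt hv h1))

theorem toC_glue {k : ℕ} {ι : Type} (s : Finset ι) {f : ι → Set (Euc (k + 1))}
    (hf : ∀ i, IsCompact (f i) ∧ Convex ℝ (f i)) {c : Chn R (Euc (k + 1)) (k + 1)}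
    (h : ∀ i ∈ s, c ∈ Bl R (f i) (k + 1)) : c ∈ Bl R (⋃ i ∈ s, f i) (k + 1) := by
  classical
  induction s using Finset.induction_on with
  | empty => simpa using toC_empty c
  | insert a s _ ih =>
    rw [Finset.set_biUnion_insert]
    refine mv_Bl (hf a).1.isClosed (s.isCompact_biUnion fun i _ => (hf i).1).isClosed ?_
      (h a (Finset.mem_insert_self a s)) (ih fun i hi => h i (Finset.mem_insert_of_mem hi))
    rw [inter_iUnion₂]
    exact toC_high s _ (fun i => ⟨(hf a).1.inter (hf i).1, (hf a).2.inter (hf i).2⟩) _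
      (Nat.lt_succ_self k)

theorem euc_inj {k : ℕ} {C : Set (Euc (k + 1))} (hC : IsCompact C)
    {c : Chn R (Euc (k + 1)) (k + 1)} (hc : c ∈ Zl R C k) (h : ∀ v ∈ C, c ∈ Bl R {v} (k + 1)) :
    c ∈ Bl R C (k + 1) := by
  have h1 : ∀ v ∈ C, ∃ r, 0 < r ∧ c ∈ Bl R (closedBall v r) (k + 1) := by
    intro v hv
    obtain ⟨U, hU, hvU, hcU⟩ := Bl_nhds (h v hv)
    obtain ⟨r, hr, hrU⟩ := Metric.nhds_basis_closedBall.mem_iff.1 (hU.mem_nhds (hvU rfl))
    exact ⟨r, hr, Bl_mono hrU _ hcU⟩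
  choose! r hr hcr using h1
  obtain ⟨t, ht, hcov⟩ := hC.elim_nhds_subcover (fun v => closedBall v (r v))
    fun v hv => closedBall_mem_nhds v (hr v hv)
  exact Bl_mono hcov _ (toC_glue t (fun v => ⟨isCompact_closedBall _ _, convex_closedBall _ _⟩)
    fun v hv => hcr v (ht v hv))

end RC.Ho
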