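import Pool.Agent.P.MP_6472e5_gt.Kern

/-! One step of the smoothing of maps into an almost Euclidean space. -/

set_option autoImplicit false
set_option linter.unusedSectionVars false

noncomputable section

namespace RC.Ho

open Set Filter Topology Metric

variable {X Y : Type} [MetricSpace X] [MetricSpace Y]

theorem ToH_id {V : Type} [NormedAddCommGroup V] [InnerProductSpace ℝ V] {ι : Type} (T : Finset ι)
    (w : ι → ℝ) (h1 : ∑ t ∈ T, w t = 1) (v : ι → V) (u : V) :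
    ∑ t ∈ T, w t * dist u (v t) ^ 2 =
      dist u (∑ t ∈ T, w t • v t) ^ 2 + ∑ t ∈ T, w t * dist (∑ t ∈ T, w t • v t) (v t) ^ 2 := by
  set m := ∑ t ∈ T, w t • v t with hm
  have h2 : ∀ t, w t * dist u (v t) ^ 2 = w t * dist u m ^ 2 +
      2 * inner ℝ (u - m) (w t • (m - v t)) + w t * dist m (v t) ^ 2 := fun t => by
    rw [dist_eq_norm, dist_eq_norm, dist_eq_norm, show u - v t = (u - m) + (m - v t) by abel,
      norm_add_sq_real, real_inner_smul_right]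
    ring
  have h3 : ∑ t ∈ T, w t • (m - v t) = 0 := by
    simp only [smul_sub, Finset.sum_sub_distrib]
    rw [← Finset.sum_smul, h1, one_smul, ← hm, sub_self]
  simp only [h2, Finset.sum_add_distrib]
  rw [← Finset.sum_mul, h1, one_mul, ← Finset.mul_sum, ← inner_sum, h3, inner_zero_right]
  ring

theorem ToH_sq {n : ℕ} {p a b : X} {ρ ε : ℝ} {ψ : X → Euc n}
    (hρ : 0 < ρ) (h0 : 0 < ε) (hε : ε ≤ 1 / 10 ^ 4) (hψ : GHApprox p ρ (0 : Euc n) 100 ε ψ)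
    (ha : dist a p ≤ 3 * ρ) (hb : dist b p ≤ ρ) :
    |dist (ψ a) (ψ b) ^ 2 - (dist a b / ρ) ^ 2| ≤ 9 * ε := by
  have h1 := hψ.2.1 a (mem_ball.2 (by linarith)) b (mem_ball.2 (by linarith))
  have h2 : dist a b / ρ ≤ 4 := by
    rw [div_le_iff₀ hρ]
    linarith [dist_triangle_right a b p]
  have h3 : 0 ≤ dist a b / ρ := by positivity
  have h4 : 0 ≤ dist (ψ a) (ψ b) := dist_nonneg
  obtain ⟨h5, h6⟩ := abs_le.1 h1
  rw [abs_le]
  constructor <;> nlinarith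

theorem ToH_norm {n : ℕ} {p a : X} {ρ ε : ℝ} {ψ : X → Euc n}
    (hρ : 0 < ρ) (hψ : GHApprox p ρ (0 : Euc n) 100 ε ψ) (ha : dist a p ≤ ρ) :
    ‖ψ a‖ ≤ 1 + ε := by
  have h1 := hψ.2.1 a (mem_ball.2 (by linarith)) p (mem_ball_self (by linarith))
  rw [hψ.1, dist_zero_right] at h1
  have h2 : dist a p / ρ ≤ 1 := (div_le_one hρ).2 ha
  linarith [(abs_le.1 h1).2]

theorem ToH_sum_le {ι : Type} (T : Finset ι) (w : ι → ℝ) (hw : ∀ t ∈ T, 0 ≤ w t)
    (h1 : ∑ t ∈ T, w t = 1) (f g : ι → ℝ) (c : ℝ) (h : ∀ t ∈ T, 0 < w t → f t ≤ g t + c) :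
    ∑ t ∈ T, w t * f t ≤ ∑ t ∈ T, w t * g t + c := by
  have h2 : ∑ t ∈ T, w t * g t + c = ∑ t ∈ T, w t * (g t + c) := by
    simp only [mul_add, Finset.sum_add_distrib]
    rw [← Finset.sum_mul, h1, one_mul]
  rw [h2]
  refine Finset.sum_le_sum fun t ht => ?_
  rcases (hw t ht).eq_or_lt with e | e
  · rw [← e, zero_mul, zero_mul]
  · exact mul_le_mul_of_nonneg_left (h t ht e) e.le

/-- Approximate barycentres are close to the barycentre in a chart. -/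
theorem bary_near {n : ℕ} {ι : Type} (T : Finset ι) {p y : X} {ρ ε : ℝ} {ψ : X → Euc n}
    (hρ : 0 < ρ) (h0 : 0 < ε) (hε : ε ≤ 1 / 10 ^ 4) (hψ : GHApprox p ρ (0 : Euc n) 100 ε ψ)
    (q : ι → X) (w : ι → ℝ) (hw : ∀ t ∈ T, 0 ≤ w t) (h1 : ∑ t ∈ T, w t = 1)
    (hq : ∀ t ∈ T, 0 < w t → dist (q t) p ≤ ρ) (hy : dist y p ≤ 3 * ρ)
    (hm : ∀ y', ∑ t ∈ T, w t * dist y (q t) ^ 2 ≤ ∑ t ∈ T, w t * dist y' (q t) ^ 2 + ε * ρ ^ 2) :
    dist (ψ y) (∑ t ∈ T, w t • ψ (q t)) ≤ 1 / 10 := by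
  set m := ∑ t ∈ T, w t • ψ (q t) with hmd
  have m1 : ‖m‖ ≤ 1 + ε := by
    have h2 := ToH_sum_le T w hw h1 (fun t => ‖ψ (q t)‖) (fun _ => 0) (1 + ε) fun t ht e => by
      rw [zero_add]
      exact ToH_norm hρ hψ (hq t ht e)
    simp only [mul_zero, Finset.sum_const_zero, zero_add] at h2
    refine le_trans (norm_sum_le _ _) (le_trans (le_of_eq ?_) h2)
    exact Finset.sum_congr rfl fun t ht => by rw [norm_smul, Real.norm_of_nonneg (hw t ht)]
  obtain ⟨y', y1, y2⟩ := hψ.2.2 m (mem_ball_zero_iff.2 (by linarith))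
  have y3 : dist y' p ≤ 3 * ρ := by
    have h2 := hψ.2.1 y' y1 p (mem_ball_self (by linarith))
    rw [hψ.1, dist_zero_right] at h2
    have h3 : ‖ψ y'‖ ≤ dist (ψ y') m + ‖m‖ := by
      simpa only [dist_zero_right] using dist_triangle (ψ y') m 0
    have h4 : dist y' p / ρ ≤ 3 := by linarith [(abs_le.1 h2).1]
    rwa [div_le_iff₀ hρ] at h4
  have a1 := ToH_sum_le T w hw h1 (fun t => dist (ψ y) (ψ (q t)) ^ 2)
    (fun t => (dist y (q t) / ρ) ^ 2) (9 * ε) fun t ht e => by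
      linarith [(abs_le.1 (ToH_sq hρ h0 hε hψ hy (hq t ht e))).2]
  have a2 := ToH_sum_le T w hw h1 (fun t => (dist y' (q t) / ρ) ^ 2)
    (fun t => dist (ψ y') (ψ (q t)) ^ 2) (9 * ε) fun t ht e => by
      linarith [(abs_le.1 (ToH_sq hρ h0 hε hψ y3 (hq t ht e))).1]
  have a3 : ∑ t ∈ T, w t * (dist y (q t) / ρ) ^ 2 ≤
      ∑ t ∈ T, w t * (dist y' (q t) / ρ) ^ 2 + ε := by
    have h2 : ∀ x : X, ∑ t ∈ T, w t * (dist x (q t) / ρ) ^ 2 =
        (∑ t ∈ T, w t * dist x (q t) ^ 2) / ρ ^ 2 := fun x => by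
      rw [Finset.sum_div]
      exact Finset.sum_congr rfl fun t _ => by rw [div_pow, mul_div_assoc]
    have h3 : 0 < ρ ^ 2 := by positivity
    rw [h2, h2, div_add' _ _ _ h3.ne']
    exact div_le_div_of_nonneg_right (hm y') h3.le
  have b1 := ToH_id T w h1 (fun t => ψ (q t)) (ψ y)
  have b2 := ToH_id T w h1 (fun t => ψ (q t)) (ψ y')
  rw [← hmd] at b1 b2
  have c1 : dist (ψ y') m ^ 2 ≤ ε ^ 2 := pow_le_pow_left₀ dist_nonneg y2 2
  have c2 : dist (ψ y) m ^ 2 ≤ (1 / 10) ^ 2 := by nlinarith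
  exact (abs_le_of_sq_le_sq' c2 (by norm_num)).2

theorem ToH_near {ι : Type} (T : Finset ι) {p y : X} {ρ ε : ℝ}
    (hρ : 0 < ρ) (hε : ε ≤ 1 / 10 ^ 4)
    (q : ι → X) (w : ι → ℝ) (hw : ∀ t ∈ T, 0 ≤ w t) (h1 : ∑ t ∈ T, w t = 1)
    (hq : ∀ t ∈ T, 0 < w t → dist (q t) p ≤ ρ)
    (hm : ∀ y', ∑ t ∈ T, w t * dist y (q t) ^ 2 ≤ ∑ t ∈ T, w t * dist y' (q t) ^ 2 + ε * ρ ^ 2) :
    dist y p ≤ 3 * ρ := by
  by_contra hn
  rw [not_le] at hn
  have a1 := ToH_sum_le T w hw h1 (fun t => dist p (q t) ^ 2) (fun _ => 0) (ρ ^ 2) fun t ht e => by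
    rw [zero_add, dist_comm]
    exact pow_le_pow_left₀ dist_nonneg (hq t ht e) 2
  have a2 := ToH_sum_le T w hw h1 (fun _ => 0) (fun t => dist y (q t) ^ 2) (-(2 * ρ) ^ 2)
    fun t ht e => by
      have h2 : 2 * ρ ≤ dist y (q t) := by linarith [dist_triangle y (q t) p, hq t ht e]
      have h3 := pow_le_pow_left₀ (by linarith) h2 2
      linarith
  simp only [mul_zero, Finset.sum_const_zero, zero_add] at a1 a2
  have a3 := hm p
  have h3 : 0 < ρ ^ 2 := by positivity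
  nlinarith

theorem ToH_min (f : X → ℝ) (x : X) (hf : ∀ y, 0 ≤ f y) {c : ℝ} (hc : 0 < c) :
    ∃ y, ∀ y', f y ≤ f y' + c := by
  haveI : Nonempty X := ⟨x⟩
  obtain ⟨y, hy⟩ := exists_lt_of_ciInf_lt (f := f) (lt_add_of_pos_right _ hc)
  refine ⟨y, fun y' => ?_⟩
  have h1 : ⨅ z, f z ≤ f y' := ciInf_le ⟨0, by rintro _ ⟨z, rfl⟩; exact hf z⟩ y'
  linarith

theorem ToH_pou {E : Type} [MetricSpace E] {K : Set E} (hK : IsCompact K) {δ : ℝ} (hδ : 0 < δ) :
    ∃ (T : Finset E) (l : E → E → ℝ) (δ' : ℝ), 0 < δ' ∧ (∀ t ∈ T, t ∈ K) ∧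
      (∀ v ∈ K, ∀ t, 0 ≤ l v t) ∧ (∀ v ∈ K, ∑ t ∈ T, l v t = 1) ∧
      (∀ v ∈ K, ∀ t, 0 < l v t → dist t v ≤ δ / 2) ∧
      ∀ v ∈ K, ∀ w ∈ K, dist v w ≤ δ' → ∑ t ∈ T, |l v t - l w t| ≤ 1 / 10 := by
  obtain ⟨T0, t1, t2, t3⟩ := finite_cover_balls_of_compact hK (show 0 < δ / 4 by linarith)
  set T := t2.toFinset with hT
  set a : E → E → ℝ := fun v t => max 0 (δ / 2 - dist t v) with ha
  have a0 : ∀ v t, 0 ≤ a v t := fun v t => le_max_left _ _
  have hS : ∀ v ∈ K, δ / 4 ≤ ∑ t ∈ T, a v t := fun v hv => by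
    obtain ⟨t, ht, hv'⟩ := mem_iUnion₂.1 (t3 hv)
    have h1 := Finset.single_le_sum (f := a v) (s := T) (fun t _ => a0 v t) (t2.mem_toFinset.2 ht)
    have h2 : δ / 2 - dist t v ≤ a v t := le_max_right _ _
    have h3 := mem_ball'.1 hv'
    linarith
  have hL : ∀ v w t, |a v t - a w t| ≤ dist v w := fun v w t => by
    have h1 := abs_max_sub_max_le_abs (δ / 2 - dist t v) (δ / 2 - dist t w) 0
    have h2 := abs_dist_sub_le w v t
    simp only [ha]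
    rw [max_comm 0, max_comm 0]
    refine h1.trans ?_
    rw [dist_comm t v, dist_comm t w, dist_comm v w,
      show δ / 2 - dist v t - (δ / 2 - dist w t) = dist w t - dist v t by ring]
    exact h2
  have hN : (0 : ℝ) ≤ T.card := by positivity
  refine ⟨T, fun v t => a v t / ∑ t ∈ T, a v t, δ / (80 * (T.card + 1)), by positivity,
    fun t ht => t1 (t2.mem_toFinset.1 ht), fun v hv t => div_nonneg (a0 v t) (by linarith [hS v hv]),
    fun v hv => ?_, fun v hv t h => ?_, fun v hv w hw h => ?_⟩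
  · rw [← Finset.sum_div, div_self (by linarith [hS v hv])]
  · have h1 : 0 < a v t := (div_pos_iff_of_pos_right (by linarith [hS v hv])).1 h
    rcases lt_max_iff.1 h1 with e | e
    · exact absurd e (lt_irrefl _)
    · linarith
  · have s1 := hS v hv
    have s2 := hS w hw
    have s3 : ∑ t ∈ T, |a v t - a w t| ≤ T.card * dist v w := by
      have := Finset.sum_le_card_nsmul T _ _ fun t _ => hL v w t
      rwa [nsmul_eq_mul] at this
    have s4 : |∑ t ∈ T, a w t - ∑ t ∈ T, a v t| ≤ T.card * dist v w := by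
      rw [abs_sub_comm, ← Finset.sum_sub_distrib]
      exact (Finset.abs_sum_le_sum_abs _ _).trans s3
    have s5 : T.card * dist v w ≤ δ / 80 := by
      rw [le_div_iff₀ (by positivity)] at h
      nlinarith [dist_nonneg (x := v) (y := w)]
    show ∑ t ∈ T, |a v t / ∑ t ∈ T, a v t - a w t / ∑ t ∈ T, a w t| ≤ 1 / 10
    generalize hA : ∑ t ∈ T, a v t = A at *
    generalize hB : ∑ t ∈ T, a w t = B at *
    have A0 : 0 < A := by linarith
    have B0 : 0 < B := by linarith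
    have s6 : ∀ t ∈ T, |a v t / A - a w t / B| ≤ |a v t - a w t| / A + a w t * (|B - A| / (A * B)) :=
      fun t _ => by
        have e : a v t / A - a w t / B = (a v t - a w t) / A + a w t * ((B - A) / (A * B)) := by
          field_simp
          ring
        rw [e]
        refine (abs_add_le _ _).trans (le_of_eq ?_)
        rw [abs_div, abs_mul, abs_div, abs_of_pos A0, abs_of_nonneg (a0 w t),
          abs_of_pos (mul_pos A0 B0)]
    refine (Finset.sum_le_sum s6).trans ?_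
    rw [Finset.sum_add_distrib, ← Finset.sum_div, ← Finset.sum_mul, hB,
      show B * (|B - A| / (A * B)) = |B - A| / A by field_simp, ← add_div, div_le_iff₀ A0]
    linarith

theorem smooth_step {n : ℕ} {E : Type} [MetricSpace E] {K : Set E} (hK : IsCompact K) {u : E → X}
    {δ ρ ε : ℝ} (hδ : 0 < δ) (hρ : 0 < ρ) (h0 : 0 < ε) (hε : ε ≤ 1 / 10 ^ 4)
    (hu : ∀ v ∈ K, ∀ w ∈ K, dist v w ≤ δ → dist (u v) (u w) ≤ ρ)
    (hc : ∀ v ∈ K, ∃ ψ, GHApprox (u v) ρ (0 : Euc n) 100 ε ψ) :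
    ∃ (u' : E → X) (δ' : ℝ), 0 < δ' ∧ (∀ v ∈ K, dist (u' v) (u v) ≤ 3 * ρ) ∧
      ∀ v ∈ K, ∀ w ∈ K, dist v w ≤ δ' → dist (u' v) (u' w) ≤ ρ / 2 := by
  obtain ⟨T, l, δ', d0, tK, l0, l1, l2, l3⟩ := ToH_pou hK hδ
  have H : ∀ v : E, ∃ y : X, v ∈ K → ∀ y', ∑ t ∈ T, l v t * dist y (u t) ^ 2 ≤
      ∑ t ∈ T, l v t * dist y' (u t) ^ 2 + ε * ρ ^ 2 := fun v => by
    by_cases hv : v ∈ K
    · obtain ⟨y, hy⟩ := ToH_min (fun y => ∑ t ∈ T, l v t * dist y (u t) ^ 2) (u v)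
        (fun y => Finset.sum_nonneg fun t _ => mul_nonneg (l0 v hv t) (sq_nonneg _))
        (show 0 < ε * ρ ^ 2 by positivity)
      exact ⟨y, fun _ => hy⟩
    · exact ⟨u v, fun h => absurd h hv⟩
  choose u' H using H
  have q1 : ∀ v ∈ K, ∀ w ∈ K, dist v w ≤ δ / 2 → ∀ t ∈ T, 0 < l w t → dist (u t) (u v) ≤ ρ :=
    fun v hv w hw h t ht e => hu t (tK t ht) v hv (by
      linarith [dist_triangle_right t v w, l2 w hw t e])
  have q2 : ∀ v ∈ K, ∀ w ∈ K, dist v w ≤ δ / 2 → dist (u' w) (u v) ≤ 3 * ρ :=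
    fun v hv w hw h => ToH_near T hρ hε u (l w) (fun t _ => l0 w hw t) (l1 w hw) (q1 v hv w hw h)
      (H w hw)
  have hs : ∀ v : E, dist v v ≤ δ / 2 := fun v => by rw [dist_self]; linarith
  refine ⟨u', min δ' (δ / 2), lt_min d0 (by linarith), fun v hv => q2 v hv v hv (hs v),
    fun v hv w hw h => ?_⟩
  obtain ⟨h1, h2⟩ := le_min_iff.1 h
  obtain ⟨ψ, hψ⟩ := hc v hv
  have b1 := bary_near T hρ h0 hε hψ u (l v) (fun t _ => l0 v hv t) (l1 v hv)
    (q1 v hv v hv (hs v)) (q2 v hv v hv (hs v)) (H v hv)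
  have b2 := bary_near T hρ h0 hε hψ u (l w) (fun t _ => l0 w hw t) (l1 w hw)
    (q1 v hv w hw h2) (q2 v hv w hw h2) (H w hw)
  have b3 : dist (∑ t ∈ T, l v t • ψ (u t)) (∑ t ∈ T, l w t • ψ (u t)) ≤ 1 / 5 := by
    rw [dist_eq_norm, ← Finset.sum_sub_distrib]
    refine (norm_sum_le _ _).trans ?_
    have h3 : ∀ t ∈ T, ‖l v t • ψ (u t) - l w t • ψ (u t)‖ ≤ |l v t - l w t| * 2 := fun t ht => by
      rw [← sub_smul, norm_smul, Real.norm_eq_abs]
      rcases (l0 v hv t).eq_or_lt with e | e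
      · rcases (l0 w hw t).eq_or_lt with e' | e'
        · rw [← e, ← e', sub_self, abs_zero, zero_mul, zero_mul]
        · exact mul_le_mul_of_nonneg_left
            (by linarith [ToH_norm hρ hψ (q1 v hv w hw h2 t ht e')]) (abs_nonneg _)
      · exact mul_le_mul_of_nonneg_left
          (by linarith [ToH_norm hρ hψ (q1 v hv v hv (hs v) t ht e)]) (abs_nonneg _)
    refine (Finset.sum_le_sum h3).trans ?_
    rw [← Finset.sum_mul]
    linarith [l3 v hv w hw h1]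
  have b4 := hψ.2.1 (u' v) (mem_ball.2 (by linarith [q2 v hv v hv (hs v)])) (u' w)
    (mem_ball.2 (by linarith [q2 v hv w hw h2]))
  have b5 := dist_triangle4_right (ψ (u' v)) (ψ (u' w)) (∑ t ∈ T, l v t • ψ (u t))
    (∑ t ∈ T, l w t • ψ (u t))
  have b6 : dist (u' v) (u' w) / ρ ≤ 1 / 2 := by linarith [(abs_le.1 b4).1]
  rw [div_le_iff₀ hρ] at b6
  linarith

end RC.Ho
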