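import Pool.Agent.P.MP_6472e5_gt.ToH
import Pool.Agent.P.MP_6472e5_gt.GH

/-! Continuous approximate inverses of almost Euclidean charts. -/

set_option autoImplicit false
set_option linter.unusedSectionVars false

noncomputable section

namespace RC.Ho

open Set Filter Topology Metric

variable {X Y : Type} [MetricSpace X] [MetricSpace Y]

theorem smooth [CompleteSpace X] {n : ℕ} {E : Type} [MetricSpace E] {K : Set E} (hK : IsCompact K)
    {u : E → X} {δ ρ ε : ℝ} (hδ : 0 < δ) (hρ : 0 < ρ) (h0 : 0 < ε) (hε : ε ≤ 1 / 10 ^ 4)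
    (hu : ∀ v ∈ K, ∀ w ∈ K, dist v w ≤ δ → dist (u v) (u w) ≤ ρ)
    (hc : ∀ v ∈ K, ∀ y, dist y (u v) ≤ 6 * ρ → ∀ t, 0 < t → t ≤ ρ →
      ∃ ψ, GHApprox y t (0 : Euc n) 100 ε ψ) :
    ∃ h : E → X, ContinuousOn h K ∧ ∀ v ∈ K, dist (h v) (u v) ≤ 6 * ρ := by
  let P : ℕ → (E → X) × ℝ → Prop := fun j q => 0 < q.2 ∧
    (∀ v ∈ K, dist (q.1 v) (u v) ≤ 6 * ρ - 6 * (ρ / 2 ^ j)) ∧
    ∀ v ∈ K, ∀ w ∈ K, dist v w ≤ q.2 → dist (q.1 v) (q.1 w) ≤ ρ / 2 ^ j
  have hpos : ∀ j : ℕ, 0 < ρ / 2 ^ j := fun j => by positivity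
  have hsucc : ∀ j : ℕ, ρ / 2 ^ (j + 1) = ρ / 2 ^ j / 2 := fun j => by rw [pow_succ, div_div]
  have step : ∀ j q, P j q → ∃ q', P (j + 1) q' ∧
      ∀ v ∈ K, dist (q'.1 v) (q.1 v) ≤ 3 * (ρ / 2 ^ j) := by
    rintro j ⟨a, d⟩ ⟨h1, h2, h3⟩
    obtain ⟨a', d', k1, k2, k3⟩ := smooth_step (n := n) hK h1 (hpos j) h0 hε h3 fun v hv =>
      hc v hv _ (by linarith [h2 v hv, hpos j]) _ (hpos j)
        (div_le_self hρ.le (one_le_pow₀ one_le_two))
    refine ⟨(a', d'), ⟨k1, fun v hv => ?_, fun v hv w hw h => ?_⟩, k2⟩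
    · rw [hsucc]
      linarith [dist_triangle (a' v) (a v) (u v), k2 v hv, h2 v hv]
    · rw [hsucc]
      exact k3 v hv w hw h
  choose! nx hn1 hn2 using step
  let s : ℕ → (E → X) × ℝ := fun j => Nat.rec (u, δ) nx j
  have hs : ∀ j, P j (s j) := fun j => by
    induction j with
    | zero => exact ⟨hδ, fun v _ => by simp [s], fun v hv w hw h => by simpa [s] using hu v hv w hw h⟩
    | succ j ih => exact hn1 j _ ih
  have hd : ∀ v ∈ K, ∀ j, dist ((s j).1 v) ((s (j + 1)).1 v) ≤ 6 * ρ / 2 / 2 ^ j :=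
    fun v hv j => by
    rw [dist_comm]
    refine (hn2 j _ (hs j) v hv).trans_eq ?_
    ring
  have hl : ∀ v, ∃ a, v ∈ K → Tendsto (fun j => (s j).1 v) atTop (𝓝 a) := fun v => by
    by_cases hv : v ∈ K
    · obtain ⟨a, ha⟩ := cauchySeq_tendsto_of_complete (cauchySeq_of_le_geometric_two (hd v hv))
      exact ⟨a, fun _ => ha⟩
    · exact ⟨u v, fun h => absurd h hv⟩
  choose g hl using hl
  have he : ∀ v ∈ K, ∀ j, dist ((s j).1 v) (g v) ≤ 6 * ρ / 2 ^ j :=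
    fun v hv j => dist_le_of_le_geometric_two_of_tendsto (hd v hv) (hl v hv) j
  refine ⟨g, ?_, fun v hv => ?_⟩
  · rw [Metric.continuousOn_iff]
    intro v hv η hη
    obtain ⟨j, hj⟩ : ∃ j : ℕ, 13 * (ρ / 2 ^ j) < η := by
      obtain ⟨j, hj⟩ := exists_pow_lt_of_lt_one (show 0 < η / (13 * ρ) by positivity)
        (show (1 / 2 : ℝ) < 1 by norm_num)
      refine ⟨j, ?_⟩
      rw [lt_div_iff₀ (by positivity), one_div, inv_pow] at hj
      calc 13 * (ρ / 2 ^ j) = (2 ^ j)⁻¹ * (13 * ρ) := by ring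
        _ < η := hj
    refine ⟨(s j).2, (hs j).1, fun w hw h => ?_⟩
    have h1 := (hs j).2.2 w hw v hv h.le
    have h2 := he v hv j
    have h3 := he w hw j
    rw [mul_div_assoc] at h2 h3
    rw [dist_comm] at h3
    linarith [dist_triangle4 (g w) ((s j).1 w) ((s j).1 v) (g v)]
  · have h1 := he v hv 0
    rw [dist_comm] at h1
    simpa [s] using h1

theorem exists_inv [CompleteSpace X] {n : ℕ} {x : X} {s ε : ℝ} {φ : X → Euc n} (hs : 0 < s)
    (h0 : 0 < ε) (hε : ε ≤ 1 / 10 ^ 4) (hr : Reif n x (10 * s) ε)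
    (hφ : GHApprox x s (0 : Euc n) 50 ε φ) :
    ∃ h : Euc n → X, ContinuousOn h (closedBall 0 5) ∧
      ∀ v ∈ closedBall (0 : Euc n) 5, h v ∈ ball x (6 * s) ∧ dist (φ (h v)) v ≤ 1 / 100 := by
  have hex : ∀ v ∈ closedBall (0 : Euc n) 5, ∃ a, a ∈ ball x (50 * s) ∧ dist (φ a) v ≤ ε ∧
      dist a x ≤ (5 + 2 * ε) * s := fun v hv => by
    obtain ⟨a, h1, h2, h3⟩ := hφ.exists_near hs (w := v)
      (closedBall_subset_ball (by linarith) hv)
    exact ⟨a, h1, h2, h3.trans (by gcongr; exact hv)⟩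
  have : Nonempty X := ⟨x⟩
  choose! u h1 h2 h3 using hex
  have hes : ε * s ≤ s / 10 ^ 4 := by nlinarith
  have hes0 : 0 < ε * s := mul_pos h0 hs
  obtain ⟨h, hc, hh⟩ := smooth (n := n) (isCompact_closedBall (0 : Euc n) 5) (u := u) (δ := ε)
    (ρ := 4 * (ε * s)) h0 (by positivity) h0 hε (fun v hv w hw hvw => by
      have e1 := (abs_le.1 (hφ.2.1 _ (h1 v hv) _ (h1 w hw))).1
      have e2 := dist_triangle4 (φ (u v)) v w (φ (u w))
      have e3 := h2 w hw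
      rw [dist_comm] at e3
      have e4 : dist (u v) (u w) / s ≤ 4 * ε := by linarith [h2 v hv]
      rw [div_le_iff₀ hs] at e4
      linarith) fun v hv y hy t ht ht' => by
      refine hr y ?_ t ht (by linarith)
      rw [mem_ball]
      linarith [dist_triangle y (u v) x, h3 v hv]
  refine ⟨h, hc, fun v hv => ?_⟩
  have e0 : dist (h v) x < 6 * s := by linarith [dist_triangle (h v) (u v) x, h3 v hv, hh v hv]
  refine ⟨e0, ?_⟩
  have e1 := (abs_le.1 (hφ.2.1 (h v) (mem_ball.2 (by linarith)) _ (h1 v hv))).2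
  have e2 : dist (h v) (u v) / s ≤ 24 * ε := by
    rw [div_le_iff₀ hs]
    linarith [hh v hv]
  linarith [dist_triangle (φ (h v)) (φ (u v)) v, h2 v hv]

end RC.Ho
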