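import Pool.Agent.P.MP_6472e5_gt.Defs

/-! Lipschitz approximation, null images, generic segments. -/

set_option autoImplicit false
set_option linter.unusedSectionVars false

noncomputable section

namespace RC.Ho

open MeasureTheory Set Filter Topology Metric

variable {X Y : Type} [MetricSpace X] [MetricSpace Y]

theorem toL_real {B : Set X} {φ : X → ℝ} {K : NNReal} {ε : ℝ}
    (h : ∀ a ∈ B, ∀ b ∈ B, φ a ≤ φ b + K * dist a b + ε) (h0 : 0 ≤ ε) :
    ∃ g : X → ℝ, LipschitzWith K g ∧ ∀ a ∈ B, dist (g a) (φ a) ≤ ε := by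
  rcases eq_empty_or_nonempty B with rfl | ⟨z, hz⟩
  · exact ⟨fun _ => 0, (LipschitzWith.const _).weaken zero_le, fun a ha => ha.elim⟩
  have : Nonempty B := ⟨⟨z, hz⟩⟩
  have hb : ∀ y : X, BddBelow (range fun x : B => φ x + K * dist y x) := fun y => by
    refine ⟨φ z - K * dist y z - ε, ?_⟩
    rintro w ⟨t, rfl⟩
    have h1 := h z hz t t.2
    have h2 := mul_le_mul_of_nonneg_left (dist_triangle_left z t y) K.2
    rw [mul_add] at h2
    change _ ≤ φ t + K * dist y t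
    change (K : ℝ) * _ ≤ K * _ + K * _ at h2
    linarith
  refine ⟨fun y => ⨅ x : B, (φ x + K * dist y x), LipschitzWith.of_le_add_mul K fun x y => ?_,
    fun a ha => ?_⟩
  · rw [← sub_le_iff_le_add]
    refine le_ciInf fun t => ?_
    have h1 := ciInf_le (hb x) t
    have h2 := mul_le_mul_of_nonneg_left (dist_triangle x y t) K.2
    rw [mul_add] at h2
    change (K : ℝ) * _ ≤ K * _ + K * _ at h2
    linarith
  · have h1 := ciInf_le (hb a) ⟨a, ha⟩
    have h2 : φ a - ε ≤ ⨅ x : B, (φ x + K * dist a x) :=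
      le_ciInf fun t => by linarith [h a ha t t.2]
    simp only [dist_self, mul_zero, add_zero] at h1
    rw [Real.dist_eq, abs_le]
    constructor <;> linarith

theorem exists_lip {n : ℕ} {B : Set X} {Φ : X → Euc n} {r ε : ℝ} (hr : 0 < r) (h0 : 0 ≤ ε)
    (h : ∀ a ∈ B, ∀ b ∈ B, dist (Φ a) (Φ b) ≤ dist a b / r + ε) :
    ∃ f : X → Euc n, (∃ L, LipschitzWith L f) ∧ ∀ a ∈ B, dist (f a) (Φ a) ≤ n * ε := by
  have h1 : ∀ i, ∃ g : X → ℝ, LipschitzWith ⟨r⁻¹, by positivity⟩ g ∧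
      ∀ a ∈ B, dist (g a) (Φ a i) ≤ ε := fun i => toL_real (fun a ha b hb => by
    have h2 := (PiLp.dist_apply_le (Φ a) (Φ b) i).trans (h a ha b hb)
    have h3 := le_abs_self (Φ a i - Φ b i)
    rw [Real.dist_eq, div_eq_inv_mul] at h2
    change _ ≤ _ + r⁻¹ * _ + ε
    linarith) h0
  choose g hg using h1
  refine ⟨fun y => WithLp.toLp 2 fun i => g i y, ⟨_, (PiLp.lipschitzWith_toLp 2 _).comp
    (g := fun y i => g i y) (Kg := ⟨r⁻¹, by positivity⟩)
    (LipschitzWith.of_dist_le_mul fun x y => (dist_pi_le_iff (by positivity)).2 fun i =>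
      (hg i).1.dist_le_mul x y)⟩, fun a ha => ?_⟩
  rw [EuclideanSpace.dist_eq]
  refine Real.sqrt_le_iff.2 ⟨by positivity, (Finset.sum_le_sum fun i _ =>
    pow_le_pow_left₀ dist_nonneg ((hg i).2 a ha) 2).trans ?_⟩
  rw [Finset.sum_const, Finset.card_univ, Fintype.card_fin, nsmul_eq_mul, mul_pow]
  refine mul_le_mul_of_nonneg_right ?_ (sq_nonneg ε)
  exact_mod_cast Nat.le_self_pow two_ne_zero n

theorem null_image [SecondCountableTopology X] [MeasurableSpace X] [BorelSpace X]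
    [MeasurableSpace Y] [BorelSpace Y] {d : ℝ} (hd : 0 ≤ d) {S : Set X} {f : X → Y}
    (hf : ∀ y ∈ S, ∃ L, ∃ U ∈ 𝓝 y, LipschitzOnWith L f U) (h : μH[d] S = 0) :
    μH[d] (f '' S) = 0 := by
  choose! L U hU hL using hf
  obtain ⟨t, hts, htc, ht⟩ := TopologicalSpace.countable_cover_nhdsWithin (f := U) (s := S)
    fun y hy => mem_nhdsWithin_of_mem_nhds (hU y hy)
  have h1 : f '' S ⊆ ⋃ y ∈ t, f '' (S ∩ U y) := by
    rintro _ ⟨x, hx, rfl⟩
    obtain ⟨y, hy, hxy⟩ := mem_iUnion₂.1 (ht hx)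
    exact mem_iUnion₂.2 ⟨y, hy, x, ⟨hx, hxy⟩, rfl⟩
  refine measure_mono_null h1 ((measure_biUnion_null_iff htc).2 fun y hy => ?_)
  have h2 := ((hL y (hts hy)).mono (inter_subset_right (s := S))).hausdorffMeasure_image_le hd
  rw [measure_mono_null inter_subset_left h, mul_zero] at h2
  exact nonpos_iff_eq_zero.1 h2

theorem exists_seg [SecondCountableTopology X] [MeasurableSpace X] [BorelSpace X] {m : ℕ}
    {S : Set X} {F : X → Euc (m + 2)} (hf : ∀ y ∈ S, ∃ L, ∃ U ∈ 𝓝 y, LipschitzOnWith L F U)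
    (h : μH[(m : ℝ) + 1] S = 0) (h0 : ∀ y ∈ S, F y ≠ 0) {T : ℝ} (hT : 0 < T) :
    ∃ w : Euc (m + 2), w 0 = -T ∧ ‖w‖ ≤ T + 1 ∧ ∀ y ∈ S, F y ∉ segment ℝ 0 w := by
  let P : Euc (m + 2) → Euc (m + 1) := fun v => WithLp.toLp 2 fun i => -T / v 0 * v i.succ
  have h1 : μH[(m : ℝ) + 1] ((P ∘ F) '' (S ∩ {y | F y 0 ≠ 0})) = 0 := by
    refine null_image (by positivity) (fun y hy => ?_) (measure_mono_null inter_subset_left h)
    obtain ⟨L, U, hU, hL⟩ := hf y hy.1
    have h2 : ContDiffAt ℝ 1 P (F y) := contDiffAt_euclidean.2 fun i => by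
      change ContDiffAt ℝ 1 (fun v : Euc (m + 2) => -T / v 0 * v i.succ) (F y)
      have h3 : ∀ j, ContDiffAt ℝ 1 (fun v : Euc (m + 2) => v j) (F y) := fun j =>
        contDiffAt_piLp_apply 2
      have h4 : F y 0 ≠ 0 := hy.2
      exact (contDiffAt_const.div (h3 0) h4).mul (h3 _)
    obtain ⟨K, W, hW, hK⟩ := h2.exists_lipschitzOnWith
    exact ⟨_, U ∩ F ⁻¹' W, inter_mem hU ((hL.continuousOn.continuousAt hU).preimage_mem_nhds hW),
      hK.comp (hL.mono inter_subset_left) fun x hx => hx.2⟩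
  have h2 : 0 < μH[(m : ℝ) + 1] (ball (0 : Euc (m + 1)) 1) := by
    have h3 := measure_ball_pos (μH[Module.finrank ℝ (Euc (m + 1))]) (0 : Euc (m + 1)) one_pos
    rwa [finrank_euclideanSpace_fin, Nat.cast_succ] at h3
  obtain ⟨u, hu, hu'⟩ : ∃ u ∈ ball (0 : Euc (m + 1)) 1, u ∉ (P ∘ F) '' (S ∩ {y | F y 0 ≠ 0}) :=
    not_subset.1 fun h3 => h2.ne' (measure_mono_null h3 h1)
  refine ⟨WithLp.toLp 2 (Fin.cons (-T) fun i => u i), rfl, ?_, ?_⟩
  · have h3 : ‖u‖ ^ 2 ≤ 1 := pow_le_one₀ (norm_nonneg _) (mem_ball_zero_iff.1 hu).le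
    rw [EuclideanSpace.real_norm_sq_eq] at h3
    rw [← sq_le_sq₀ (norm_nonneg _) (by positivity), EuclideanSpace.real_norm_sq_eq,
      Fin.sum_univ_succ]
    simp only [Fin.cons_zero, Fin.cons_succ]
    nlinarith
  · rintro y hy ⟨a, b, -, -, -, e⟩
    rw [smul_zero, zero_add] at e
    have hb : b ≠ 0 := fun hb => h0 y hy (by rw [← e, hb, zero_smul])
    have e0 : F y 0 = b * -T := by rw [← e]; rfl
    refine hu' ⟨y, ⟨hy, ?_⟩, ?_⟩
    · change F y 0 ≠ 0
      rw [e0]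
      exact mul_ne_zero hb (neg_ne_zero.2 hT.ne')
    · ext i
      have ei : F y i.succ = b * u i := by rw [← e]; rfl
      change -T / F y 0 * F y i.succ = u i
      rw [e0, ei]
      field_simp

end RC.Ho
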