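import Pool.Agent.P.MP_6472e5_gt.HoL
import Pool.Agent.P.MP_6472e5_gt.ToI

/-! The class carried by an almost Euclidean chart. -/

set_option autoImplicit false
set_option linter.unusedSectionVars false

noncomputable section

namespace RC.Ho

open Set Filter Topology Metric

variable {R : Type} [CommRing R] {X Y : Type} [MetricSpace X] [MetricSpace Y]

/-- `ω` is a class of degree one for the chart `φ`. -/
structure Om {k : ℕ} (g : Chn R (Euc (k + 1)) (k + 1)) (φ : X → Euc (k + 1)) (x : X) (s : ℝ)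
    (ω : Chn R X (k + 1)) : Prop where
  mem : ω ∈ chn R (ball x (6 * s)) (k + 1)
  zl : ω ∈ Zl R (ball x (3 * s)) k
  deg : ∀ F : X → Euc (k + 1), Continuous F →
    (∀ y ∈ ball x (6 * s), y ∉ ball x (3 * s) → dist (F y) (φ y) ≤ 3) →
    cmap R F (k + 1) ω - g ∈ Bl R {0} (k + 1)

theorem exists_om [CompleteSpace X] {k : ℕ} {g : Chn R (Euc (k + 1)) (k + 1)} (hg : Std k g)
    {x : X} {s ε : ℝ} {φ : X → Euc (k + 1)} (hs : 0 < s) (h0 : 0 < ε) (hε : ε ≤ 1 / 10 ^ 4)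
    (hr : Reif (k + 1) x (10 * s) ε) (hφ : GHApprox x s (0 : Euc (k + 1)) 50 ε φ) :
    ∃ ω, Om g φ x s ω := by
  obtain ⟨h, hc, hh⟩ := exists_inv hs h0 hε hr hφ
  have key : ∀ v ∈ closedBall (0 : Euc (k + 1)) 5, h v ∈ ball x (3 * s) →
      v ∈ ball (0 : Euc (k + 1)) 4 := fun v hv h3 => by
    have h1 := (abs_le.1 (hφ.dist_base (ball_subset_ball (by linarith) h3))).2
    have h2 : dist (h v) x / s < 3 := (div_lt_iff₀ hs).2 (mem_ball.1 h3)
    have h4 := dist_triangle_left v 0 (φ (h v))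
    have h5 := (hh v hv).2
    rw [mem_ball]
    norm_num at hε
    linarith
  refine ⟨cmap R h (k + 1) g, cmap_mem hc (fun v hv => (hh v hv).1) hg.mem,
    cmap_Zl hc key hg.mem hg.bdm, fun F hF hd => ?_⟩
  have h1 := line_Bl (R := R) (f := F ∘ h) (g := id) (S := closedBall (0 : Euc (k + 1)) 5)
    (T := (ball (0 : Euc (k + 1)) 4)ᶜ) (w := 0) (hF.comp_continuousOn hc) continuousOn_id
    (fun v hv => ?_) hg.mem hg.bdm
  · rwa [cmap_id, ← cmap_comp hc hg.mem] at h1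
  · have h2 := hd (h v) (hh v hv.1).1 fun h3 => hv.2 (key v hv.1 h3)
    have h3 := (hh v hv.1).2
    have h4 := dist_triangle (F (h v)) (φ (h v)) v
    have h5 : 4 ≤ dist v 0 := not_lt.1 hv.2
    simp only [Function.comp_apply, id]
    linarith

/-- Two classes of degree one for the same map agree with the same generator. -/
theorem deg_pm {k : ℕ} {g : Chn ℤ (Euc (k + 1)) (k + 1)} (hg : Std k g) {V : Set X} (hV : IsOpen V)
    {z : X} (hz : z ∈ V) {F : X → Euc (k + 1)} (hF : Continuous F) (h0 : ∀ y ∈ V, F y = 0 ↔ y = z)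
    {p ω ω' : Chn ℤ X (k + 1)} (hp : Gen z k p) (hω : ω ∈ chn ℤ V (k + 1))
    (hω' : ω' ∈ chn ℤ V (k + 1)) (z1 : ω ∈ Zl ℤ {z} k) (z2 : ω' ∈ Zl ℤ {z} k)
    (d1 : cmap ℤ F (k + 1) ω - g ∈ Bl ℤ {0} (k + 1))
    (d2 : cmap ℤ F (k + 1) ω' - g ∈ Bl ℤ {0} (k + 1)) :
    (ω - p ∈ Bl ℤ {z} (k + 1) ∧ ω' - p ∈ Bl ℤ {z} (k + 1)) ∨
      (ω + p ∈ Bl ℤ {z} (k + 1) ∧ ω' + p ∈ Bl ℤ {z} (k + 1)) := by
  obtain ⟨ξ, hξ, hz1, hb⟩ := exc isClosed_singleton hV (singleton_subset_iff.2 hz) hp.1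
  have hK : ∀ y ∈ V, F y ∈ ({0} : Set (Euc (k + 1))) → y ∈ ({z} : Set X) :=
    fun y hy h => (h0 y hy).1 h
  obtain ⟨d, hd⟩ := hg.gen.2 _ (cmap_Zl hF.continuousOn hK hξ hz1)
  have key : ∀ c : Chn ℤ X (k + 1), c ∈ chn ℤ V (k + 1) → c ∈ Zl ℤ {z} k →
      cmap ℤ F (k + 1) c - g ∈ Bl ℤ {0} (k + 1) →
      ∃ j : ℤ, j * d = 1 ∧ c - j • p ∈ Bl ℤ {z} (k + 1) := fun c hc hz2 hd2 => by
    obtain ⟨j, hj⟩ := (hp.congr hb).2 c hz2
    have h1 := cmap_Bl hF.continuousOn hV isClosed_singleton (singleton_subset_iff.2 hz) hK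
      (Submodule.sub_mem _ hc (Submodule.smul_mem _ j hξ)) hj
    rw [map_sub, map_smul] at h1
    have h2 : g - (j * d) • g ∈ Bl ℤ {0} (k + 1) := by
      refine Bl_trans (Bl_trans (Bl_symm hd2) h1) ?_
      rw [mul_smul, ← smul_sub]
      exact Submodule.smul_mem _ j hd
    have h3 := hg.fre (1 - j * d) (by rwa [sub_smul, one_smul])
    refine ⟨j, by linarith, Bl_trans hj ?_⟩
    rw [← smul_sub]
    exact Submodule.smul_mem _ j (Bl_symm hb)
  obtain ⟨j, e1, b1⟩ := key ω hω z1 d1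
  obtain ⟨j', e2, b2⟩ := key ω' hω' z2 d2
  rcases Int.eq_one_or_neg_one_of_mul_eq_one' e1 with ⟨rfl, rfl⟩ | ⟨rfl, rfl⟩
  · obtain rfl : j' = 1 := by linarith
    rw [one_smul] at b1 b2
    exact Or.inl ⟨b1, b2⟩
  · obtain rfl : j' = -1 := by linarith
    rw [neg_smul, one_smul, sub_neg_eq_add] at b1 b2
    exact Or.inr ⟨b1, b2⟩

end RC.Ho
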