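import Pool.Agent.P.MP_6472e5_gt.HoL
import Pool.Agent.P.MP_6472e5_gt.CovD
import Pool.Agent.P.MP_6472e5_gt.GH

/-! The orientation of the cover as a family of local generators on the base. -/

set_option autoImplicit false
set_option linter.unusedSectionVars false

noncomputable section

namespace RC.Ho

open Set Filter Topology Metric

variable {X Y : Type} [MetricSpace X] [MetricSpace Y]

theorem toP_inj {Γ : Y → Y} {π : Y → X} (h : IsQuot Γ π) (a : Y) :
    InjOn π (ball a (dist a (Γ a) / 4)) := fun b hb c hc e => by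
  have := h.dist_loc (r := dist a (Γ a) / 4) (by linarith) hb hc
  rw [e, dist_self] at this
  exact dist_eq_zero.1 this.symm

theorem toP_chart {Γ : Y → Y} {π : Y → X} (h : IsQuot Γ π) (a : Y) :
    ∃ e : OpenPartialHomeomorph Y X, ⇑e = π ∧ e.source = ball a (dist a (Γ a) / 4) := by
  have : Nonempty Y := ⟨a⟩
  exact ⟨OpenPartialHomeomorph.ofContinuousOpen ((toP_inj h a).toPartialEquiv π _)
    h.cont.continuousOn h.isOpenMap isOpen_ball, rfl, rfl⟩

theorem toP_gen {k : ℕ} {B : Set Y} (hB : IsOpen B) {o : Y → Chn ℤ Y (k + 1)}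
    (ho : IsOrient k B o) {a : Y} (ha : a ∈ B) : Gen a k (o a) := by
  have h1 := relCyc_iff.1 (ho.cyc a ha)
  refine ⟨h1.2, fun c hc => ?_⟩
  obtain ⟨ξ, hξ, hz, hb⟩ := exc isClosed_singleton hB (singleton_subset_iff.2 ha) hc
  obtain ⟨j, hj⟩ := ho.gen a ha ξ (relCyc_iff.2 ⟨hξ, hz⟩)
  exact ⟨j, Bl_trans hb ((relEq_iff hB ha hξ (Submodule.smul_mem _ j h1.1)).1 hj)⟩

theorem exists_fam {m : ℕ} {Γ : Y → Y} {π : Y → X} {A : Set X} (h : Top m Γ π A) :
    ∃ p : Y → Chn ℤ X (m + 2), Fam (m + 1) (π ⁻¹' A) π p := by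
  obtain ⟨o, ho⟩ := h.ori
  have hB := h.mfd'.1
  have hr : ∀ a ∈ π ⁻¹' A, 0 < dist a (Γ a) / 4 := fun a ha => by
    have := dist_pos.2 (h.free a ha).symm
    linarith
  have hξ : ∀ a : Y, ∃ ξ : Chn ℤ Y (m + 1 + 1), a ∈ π ⁻¹' A →
      ξ ∈ chn ℤ (ball a (dist a (Γ a) / 4)) (m + 1 + 1) ∧ o a - ξ ∈ Bl ℤ {a} (m + 1 + 1) :=
    fun a => by
    by_cases ha : a ∈ π ⁻¹' A
    · obtain ⟨ξ, h1, -, h2⟩ := exc isClosed_singleton isOpen_ball
        (singleton_subset_iff.2 (mem_ball_self (hr a ha))) (toP_gen hB ho ha).1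
      exact ⟨ξ, fun _ => ⟨h1, h2⟩⟩
    · exact ⟨0, fun h' => absurd h' ha⟩
  choose ξ hξ using hξ
  refine ⟨fun a => cmap ℤ π (m + 1 + 1) (ξ a), fun a ha => ?_, fun a ha => ?_⟩
  · obtain ⟨e, he, hs⟩ := toP_chart h.quot a
    have := chart_gen e (a := a) (hs ▸ mem_ball_self (hr a ha)) (hs ▸ (hξ a ha).1)
      ((toP_gen hB ho ha).congr (hξ a ha).2)
    rwa [he] at this
  · obtain ⟨U, hU, hUB, c, hc, hco⟩ := ho.loc a ha
    obtain ⟨ρ, hρ, hρU⟩ :=
      nhds_basis_closedBall.mem_iff.1 (inter_mem hU (ball_mem_nhds a (hr a ha)))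
    have hc' := relCyc_iff.1 hc
    obtain ⟨η, h1, -, h2⟩ := exc isClosed_closedBall isOpen_ball (hρU.trans inter_subset_right)
      (Zl_mono (hρU.trans inter_subset_left) _ hc'.2)
    refine ⟨cmap ℤ π (m + 1 + 1) η, ?_⟩
    filter_upwards [closedBall_mem_nhds a hρ] with b hb
    have hbU := (hρU hb).1
    have hbB := hUB hbU
    refine ⟨hbB, ?_⟩
    rw [← map_sub]
    refine cmap_Bl (V := ball a (dist a (Γ a) / 4) ∪ ball b (dist b (Γ b) / 4)) (K := {b})
      h.quot.cont.continuousOn (isOpen_ball.union isOpen_ball) isClosed_singleton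
      (singleton_subset_iff.2 (Or.inl (hρU hb).2)) ?_
      (Submodule.sub_mem _ (chn_mono subset_union_left _ h1)
        (chn_mono subset_union_right _ (hξ b hbB).1)) ?_
    · rintro y (hy | hy) e
      · exact toP_inj h.quot a hy (hρU hb).2 e
      · exact toP_inj h.quot b hy (mem_ball_self (hr b hbB)) e
    · exact Bl_trans (Bl_trans (Bl_symm (Bl_pt hb h2))
        ((relEq_iff hB hbB hc'.1 (relCyc_iff.1 (ho.cyc b hbB)).1).1 (hco b hbU))) (hξ b hbB).2

end RC.Ho
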