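import Pool.Agent.P.MP_6472e5_gt.ToB
import Pool.Agent.P.MP_6472e5_gt.CovD
import Pool.Agent.P.MP_6472e5_gt.GH

/-! The involution reverses the orientation. -/

set_option autoImplicit false
set_option linter.unusedSectionVars false

noncomputable section

namespace RC.Ho

open Set Filter Topology Metric

variable {X Y : Type} [MetricSpace X] [MetricSpace Y]

theorem toQ_neg {M : Type} [AddCommGroup M] (a b : M) : a - (-1 : ℤ) • b = a + b := by
  rw [neg_smul, one_smul, sub_neg_eq_add]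

theorem toQ_loc {k : ℕ} {A A' : Set X} {q : X → Chn ℤ X (k + 1)} (hq : Fam k A id q)
    (hA : IsTopMfd (k + 1) A) (hc : ∀ V, IsOpen V → IsPreconnected V → IsPreconnected (V ∩ A))
    (hA' : IsTopMfd (k + 1) A') {x : X} (hx : x ∈ A') :
    ∃ U, IsOpen U ∧ x ∈ U ∧ U ⊆ A' ∧ ∃ ξ ∈ chn ℤ A' (k + 1), ξ ∈ Zl ℤ U k ∧
      (∀ y ∈ U, Gen y k ξ) ∧ ∀ y ∈ U ∩ A, ξ - q y ∈ Bl ℤ {y} (k + 1) := by
  obtain ⟨U, h1, h2, h3, h4, ξ, h5, h6, h7⟩ := exists_gen ℤ hA' hx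
  have op : ∀ j : ℤ, IsOpen {y | y ∈ A ∧ ξ - j • q y ∈ Bl ℤ {y} (k + 1)} := fun j =>
    isOpen_iff_mem_nhds.2 fun y hy => hq.ev continuous_id hy.1 hy.2
  have fr : ∀ y ∈ A, Fre y (k + 1) (q y) := fun y hy => (hq.gen y hy).fre_mfd hA hy
  refine ⟨U, h1, h2, h3, ?_⟩
  rcases (hc U h1 h4).subset_or_subset (op 1) (op (-1))
    (disjoint_left.2 fun y a b => (fr y a.1).not_both (one_smul ℤ (q y) ▸ a.2)
      (toQ_neg ξ (q y) ▸ b.2))
    (fun y hy => ((hq.gen y hy.2).pm (h7 y hy.1).1 (fr y hy.2)).imp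
      (fun a => ⟨hy.2, by rwa [one_smul]⟩) fun a => ⟨hy.2, by rwa [toQ_neg]⟩) with a | a
  · exact ⟨ξ, h5, h6, fun y hy => (h7 y hy).1, fun y hy => one_smul ℤ (q y) ▸ (a hy).2⟩
  · refine ⟨-ξ, Submodule.neg_mem _ h5, Submodule.neg_mem _ h6, fun y hy => (h7 y hy).1.neg,
      fun y hy => ?_⟩
    rw [← neg_add', ← toQ_neg]
    exact Submodule.neg_mem _ (a hy).2

theorem orientable_of_fam {k : ℕ} {A A' : Set X} {q : X → Chn ℤ X (k + 1)} (hq : Fam k A id q)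
    (hA : IsTopMfd (k + 1) A) (hd : Dense A)
    (hc : ∀ V, IsOpen V → IsPreconnected V → IsPreconnected (V ∩ A)) (hA' : IsTopMfd (k + 1) A') :
    Orientable k A' := by
  choose! U hU hxU hUA o ho hZ hg hq' using fun x (hx : x ∈ A') => toQ_loc hq hA hc hA' hx
  refine ⟨o, fun x hx => relCyc_iff.2 ⟨ho x hx, (hg x hx x (hxU x hx)).1⟩, fun x hx c hc => ?_,
    fun x hx => ⟨U x, (hU x hx).mem_nhds (hxU x hx), hUA x hx, o x,
      relCyc_iff.2 ⟨ho x hx, hZ x hx⟩, fun y hy => ?_⟩⟩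
  · obtain ⟨h1, h2⟩ := relCyc_iff.1 hc
    obtain ⟨j, hj⟩ := (hg x hx x (hxU x hx)).2 c h2
    exact ⟨j, (relEq_iff hA'.1 hx h1 (Submodule.smul_mem _ j (ho x hx))).2 hj⟩
  · have hy' := hUA x hx hy
    have gy := hg y hy' y (hxU y hy')
    refine (relEq_iff hA'.1 hy' (ho x hx) (ho y hy')).2
      ((gy.pm (hg x hx y hy) (gy.fre_mfd hA' hy')).resolve_right fun h => ?_)
    obtain ⟨z, hz, h1, h2, h3⟩ := ((mem_closure_iff_frequently.1 (hd y)).and_eventually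
      ((Bl_ev h).and (Eventually.and ((hU x hx).mem_nhds hy)
        ((hU y hy').mem_nhds (hxU y hy'))))).exists
    exact ((hg y hy' z h3).fre_mfd hA' (hUA y hy' h3)).not_both
      (Bl_trans (hq' x hx z ⟨h2, hz⟩) (Bl_symm (hq' y hy' z ⟨h3, hz⟩))) h1

theorem Fam.rev {m : ℕ} {Γ : Y → Y} {π : Y → X} {A A' : Set X} {p : Y → Chn ℤ X (m + 2)}
    (hp : Fam (m + 1) (π ⁻¹' A) π p) (h : Top m Γ π A) (hd : Dense A)
    (hc : ∀ V, IsOpen V → IsPreconnected V → IsPreconnected (V ∩ A)) (hA' : IsTopMfd (m + 2) A')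
    (hn : ¬Orientable (m + 1) A') {a : Y} (ha : π a ∈ A) :
    p (Γ a) + p a ∈ Bl ℤ {π a} (m + 2) := by
  have hQ := h.quot
  have op : ∀ j : ℤ, IsOpen {b | π b ∈ A ∧ p (Γ b) - j • p b ∈ Bl ℤ {π b} (m + 2)} := fun j =>
    isOpen_iff_mem_nhds.2 fun b hb => by
      obtain ⟨ζ, hζ⟩ := hp.loc (Γ b) (by rw [mem_preimage, hQ.π_Γ]; exact hb.1)
      have e := hQ.iso.continuous.continuousAt.eventually hζ
      simp only [hQ.π_Γ] at e
      filter_upwards [e, hp.ev hQ.cont hb.1 (Bl_trans e.self_of_nhds.2 hb.2)] with c h1 h2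
      exact ⟨h2.1, Bl_trans (Bl_symm h1.2) h2.2⟩
  have inv : ∀ j : ℤ, j * j = 1 → ∀ b c, π b = π c → p (Γ b) - j • p b ∈ Bl ℤ {π b} (m + 2) →
      p (Γ c) - j • p c ∈ Bl ℤ {π c} (m + 2) := by
    intro j hj b c e hb
    rcases (hQ.eq_iff b c).1 e with rfl | rfl
    · exact hb
    · have := Bl_symm (K := {π c}) (c := j • p c) (c' := p (Γ c)) (by
        rw [hQ.invol, hQ.π_Γ] at hb
        have h2 := Submodule.smul_mem _ j hb
        rwa [smul_sub, smul_smul, hj, one_smul] at h2)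
      exact this
  have fr : ∀ b, π b ∈ A → Fre (π b) (m + 2) (p b) := fun b hb =>
    (hp.gen b hb).fre_mfd h.mfd hb
  rcases h.conn.isPreconnected.subset_or_subset (hQ.isOpenMap _ (op 1)) (hQ.isOpenMap _ (op (-1)))
    (disjoint_left.2 (by
      rintro _ ⟨b, hb, rfl⟩ ⟨c, hc', e⟩
      exact (fr b hb.1).not_both (one_smul ℤ (p b) ▸ hb.2)
        (toQ_neg (p (Γ b)) (p b) ▸ inv (-1) (by norm_num) c b e hc'.2)))
    (fun x hx => by
      obtain ⟨b, rfl⟩ := hQ.surj x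
      have g := hp.gen (Γ b) (by rw [mem_preimage, hQ.π_Γ]; exact hx)
      rw [hQ.π_Γ] at g
      exact ((hp.gen b hx).pm g (fr b hx)).imp (fun a => ⟨b, ⟨hx, by rwa [one_smul]⟩, rfl⟩)
        fun a => ⟨b, ⟨hx, by rwa [toQ_neg]⟩, rfl⟩) with hP | hN
  · choose s hs using hQ.surj
    refine absurd (orientable_of_fam (A := A) (q := fun x => p (s x)) ⟨fun x hx => ?_,
      fun x hx => ?_⟩ h.mfd hd hc hA') hn
    · have g := hp.gen (s x) (by rw [mem_preimage, hs]; exact hx)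
      rwa [hs] at g
    · obtain ⟨ζ, hζ⟩ := hp.loc (s x) (by rw [mem_preimage, hs]; exact hx)
      have e := hQ.isOpenMap.image_mem_nhds hζ
      rw [hs] at e
      refine ⟨ζ, mem_of_superset e ?_⟩
      rintro _ ⟨b, hb, rfl⟩
      refine ⟨hb.1, ?_⟩
      show ζ - p (s (π b)) ∈ Bl ℤ {π b} (m + 2)
      rcases (hQ.eq_iff _ _).1 (hs (π b)) with e | e
      · rw [e]
        exact hb.2
      · obtain ⟨c, hc', e'⟩ := hP hb.1
        have := inv 1 (one_mul 1) c b e' hc'.2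
        rw [one_smul] at this
        rw [e]
        exact Bl_trans hb.2 (Bl_symm this)
  · obtain ⟨c, hc', e⟩ := hN ha
    exact toQ_neg (p (Γ a)) (p a) ▸ inv (-1) (by norm_num) c a e hc'.2

end RC.Ho
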