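import Pool.Agent.P.MP_6472e5_gt.ToO
import Pool.Agent.P.MP_6472e5_gt.ToF

/-! The class of a chart compared with a local generator. -/

set_option autoImplicit false
set_option linter.unusedSectionVars false

noncomputable section

namespace RC.Ho

open Set Filter Topology Metric

theorem toR_norm {X : Type} [MetricSpace X] {n : ℕ} {x z : X} {s ε : ℝ} {φ : X → Euc n}
    (hs : 0 < s) (hφ : GHApprox x s (0 : Euc n) 100 ε φ) (hz : z ∈ ball x (2 * s)) :
    ‖φ z‖ ≤ 2 + ε := by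
  have h1 := hφ.dist_base (a := z) (ball_subset_ball (by linarith) hz)
  have h2 : dist z x / s ≤ 2 := (div_le_iff₀ hs).2 (le_of_lt hz)
  rw [dist_zero_right] at h1
  linarith [(abs_le.1 h1).2]

theorem exists_cmp (k : ℕ) {g : Chn ℤ (Euc (k + 1)) (k + 1)} (hg : Std k g) :
    ∃ ε, 0 < ε ∧ ε ≤ 1 / 10 ^ 9 ∧ ∀ (X : Type) [MetricSpace X] (φ φ' : X → Euc (k + 1)) (x x' z : X)
      (s : ℝ) (c : Euc (k + 1)) (p ω ω' : Chn ℤ X (k + 1)), 0 < s → Reif (k + 1) x (10 * s) ε →
      GHApprox x s (0 : Euc (k + 1)) 100 ε φ → GHApprox x' s (0 : Euc (k + 1)) 100 ε φ' →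
      dist x x' ≤ s → (∀ y ∈ ball x (10 * s), dist (φ' y) (φ y + c) ≤ 1 / 100) →
      z ∈ ball x (2 * s) → z ∈ ball x' (2 * s) → Gen z k p → Om g φ x s ω → Om g φ' x' s ω' →
      (ω - p ∈ Bl ℤ {z} (k + 1) ∧ ω' - p ∈ Bl ℤ {z} (k + 1)) ∨
        (ω + p ∈ Bl ℤ {z} (k + 1) ∧ ω' + p ∈ Bl ℤ {z} (k + 1)) := by
  obtain ⟨ε₁, h1, hF⟩ := exists_F (k + 1)
  have hk : (0 : ℝ) < (k + 1 : ℕ) := by positivity
  refine ⟨min (ε₁ / 3) (min (1 / 10 ^ 9) (1 / (100 * (k + 1 : ℕ)))), by positivity,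
    (min_le_right _ _).trans (min_le_left _ _), ?_⟩
  generalize hε : min (ε₁ / 3) (min (1 / 10 ^ 9) (1 / (100 * ((k + 1 : ℕ) : ℝ)))) = ε
  have e0 : 0 < ε := by rw [← hε]; positivity
  have e1 : ε ≤ ε₁ / 3 := by rw [← hε]; exact min_le_left _ _
  have e2 : ε ≤ 1 / 10 ^ 9 := by rw [← hε]; exact (min_le_right _ _).trans (min_le_left _ _)
  have e3 : ((k + 1 : ℕ) : ℝ) * ε ≤ 1 / 100 := by
    have : ε ≤ 1 / (100 * ((k + 1 : ℕ) : ℝ)) := by
      rw [← hε]; exact (min_le_right _ _).trans (min_le_right _ _)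
    rw [le_div_iff₀ (by positivity)] at this
    linarith
  intro X _ φ φ' x x' z s c p ω ω' hs hr hφ hφ' hxx hc hz hz' hp ho ho'
  have hzx : dist z x < 2 * s := hz
  have hzx' : dist z x' < 2 * s := hz'
  have h2 : dist z x / s ≤ 2 := (div_le_iff₀ hs).2 hzx.le
  have hψ := hφ.recentre (x' := z) (s := 1) (R' := 40) hs one_pos e0.le (by linarith) (by norm_num)
  simp only [one_mul, div_one, inv_one, one_smul] at hψ
  obtain ⟨f, hf, hfφ⟩ := exists_lip (B := ball z (20 * s)) (Φ := fun a => φ a - φ z) hs e0.le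
    (fun a ha b hb => by
      have ha' : a ∈ ball x (100 * s) := by
        have := dist_triangle a z x
        rw [mem_ball] at ha ⊢
        linarith
      have hb' : b ∈ ball x (100 * s) := by
        have := dist_triangle b z x
        rw [mem_ball] at hb ⊢
        linarith
      rw [dist_sub_right]
      linarith [(abs_le.1 (hφ.2.1 a ha' b hb')).2])
  obtain ⟨F, Fc, Fe, F0, -, -⟩ := hF X z s (fun a => φ a - φ z) f hs (fun t ht hts => by
      obtain ⟨χ, hχ⟩ := hr z (by rw [mem_ball]; linarith) t ht (by linarith)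
      exact ⟨χ, hχ.mono ht (by norm_num) (by linarith) e0.le⟩)
    (hψ.mono_eps (by linarith)) hf (fun y hy => (hfφ y hy).trans e3)
  have key : ∀ y w, dist z w < 2 * s → y ∈ ball w (6 * s) → y ∉ ball w (3 * s) →
      dist (F y) (φ y - φ z) ≤ 1 / 100 := by
    intro y w hw hy hy'
    rw [mem_ball] at hy hy'
    have t1 := dist_triangle y z w
    have t2 := dist_triangle_right y z w
    rw [Fe y (by rw [mem_ball]; linarith)]
    exact (hfφ y (by rw [mem_ball]; linarith)).trans e3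
  have sub : ∀ w, dist z w < 2 * s → ball w (6 * s) ⊆ ball z (10 * s) := by
    intro w hw y hy
    have t2 := dist_triangle_right y z w
    rw [mem_ball] at hy ⊢
    linarith
  refine deg_pm hg isOpen_ball (mem_ball_self (by linarith)) Fc F0 hp
    (chn_mono (sub x hzx) _ ho.mem) (chn_mono (sub x' hzx') _ ho'.mem)
    (Zl_pt (by rw [mem_ball]; linarith) ho.zl) (Zl_pt (by rw [mem_ball]; linarith) ho'.zl)
    (ho.deg F Fc fun y hy hy' => ?_) (ho'.deg F Fc fun y hy hy' => ?_)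
  · have t := dist_triangle (F y) (φ y - φ z) (φ y)
    have t' : dist (φ y - φ z) (φ y) = ‖φ z‖ := by
      rw [dist_eq_norm, sub_sub_cancel_left, norm_neg]
    linarith [key y x hzx hy hy', toR_norm hs hφ hz]
  · have t := dist_triangle4 (F y) (φ y - φ z) (φ y + c) (φ' y)
    have t' : dist (φ y - φ z) (φ y + c) = ‖φ z + c‖ := by
      rw [dist_eq_norm, ← norm_neg]
      congr 1
      abel
    have hy10 : y ∈ ball x (10 * s) := by
      have t2 := dist_triangle_right y x x'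
      rw [mem_ball] at hy ⊢
      linarith
    have c1 := hc y hy10
    have c2 := hc z (by rw [mem_ball]; linarith)
    have c3 : ‖φ z + c‖ ≤ ‖φ' z‖ + dist (φ' z) (φ z + c) := by
      rw [dist_comm, dist_eq_norm]
      exact norm_le_norm_add_norm_sub' _ _
    rw [dist_comm] at c1
    linarith [key y x' hzx' hy hy', toR_norm hs hφ' hz']

end RC.Ho
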