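import Pool.Agent.P.MP_6472e5_gt.ToR
import Pool.Agent.P.MP_6472e5_gt.ToP
import Pool.Agent.P.MP_6472e5_gt.ToQ

/-! The orientation sign of a chart. -/

set_option autoImplicit false
set_option linter.unusedSectionVars false

noncomputable section

namespace RC.Ho

open Set Filter Topology Metric

/-- The comparison of a class with the family of generators is constant along short paths. -/
theorem toS_const {X Y : Type} [MetricSpace X] [MetricSpace Y] {m : ℕ} {Γ : Y → Y} {π : Y → X}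
    {A : Set X} {p : Y → Chn ℤ X (m + 2)} (hp : Fam (m + 1) (π ⁻¹' A) π p) (h : Top m Γ π A)
    {ω : Chn ℤ X (m + 2)} {b b' : Y} {ρ : ℝ} (hb : π b ∈ A) (hb' : π b' ∈ A) (hd : dist b b' < ρ)
    (hω : ∀ c ∈ ball b ρ, π c ∈ A →
      ω - p c ∈ Bl ℤ {π c} (m + 2) ∨ ω + p c ∈ Bl ℤ {π c} (m + 2)) :
    ω - p b ∈ Bl ℤ {π b} (m + 2) ↔ ω - p b' ∈ Bl ℤ {π b'} (m + 2) := by
  have op : ∀ j : ℤ, IsOpen {c | c ∈ π ⁻¹' A ∧ ω - j • p c ∈ Bl ℤ {π c} (m + 2)} := fun j =>
    isOpen_iff_mem_nhds.2 fun c hc => hp.ev h.quot.cont hc.1 hc.2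
  have fr : ∀ c, π c ∈ A → Fre (π c) (m + 2) (p c) := fun c hc =>
    (hp.gen c hc).fre_mfd h.mfd hc
  obtain ⟨γ, hγ⟩ := h.len.joinedIn hb hb' hd
  have hc := (isConnected_range γ.continuous).isPreconnected.subset_or_subset (op 1) (op (-1))
    (disjoint_left.2 fun c h1 h2 => (fr c h1.1).not_both (c := ω) (by simpa using h1.2)
      (by simpa using h2.2)) (by
      rintro _ ⟨t, rfl⟩
      rcases hω _ (hγ t).2 (hγ t).1 with h1 | h1
      · exact Or.inl ⟨(hγ t).1, by simpa using h1⟩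
      · exact Or.inr ⟨(hγ t).1, by simpa using h1⟩)
  rcases hc with hc | hc
  · exact iff_of_true (by simpa using (hc γ.source_mem_range).2)
      (by simpa using (hc γ.target_mem_range).2)
  · exact iff_of_false
      (fun h1 => (fr b hb).not_both h1 (by simpa using (hc γ.source_mem_range).2))
      (fun h1 => (fr b' hb').not_both h1 (by simpa using (hc γ.target_mem_range).2))

theorem exists_sgn' (m : ℕ) : ∃ ε, 0 < ε ∧ ε ≤ 1 / 10 ^ 9 ∧ ∀ {X Y : Type} [MetricSpace X]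
    [ProperSpace X] [MetricSpace Y] [ProperSpace Y] {Γ : Y → Y} {π : Y → X} {A A' : Set X},
    Top m Γ π A → Dense A → (∀ V, IsOpen V → IsPreconnected V → IsPreconnected (V ∩ A)) →
    IsTopMfd (m + 2) A' → ¬Orientable (m + 1) A' → ∃ σ, Sgn (m + 2) Γ π ε σ := by
  classical
  obtain ⟨g, hg⟩ := exists_std ℤ (m + 1)
  obtain ⟨ε, e0, e1, hcmp⟩ := exists_cmp (m + 1) hg
  refine ⟨ε, e0, e1, ?_⟩
  intro X Y _ _ _ _ Γ π A A' h hd hc hA' hn
  obtain ⟨p, hp⟩ := exists_fam h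
  have hω : ∀ (φ : X → Euc (m + 2)) (x : X) (s : ℝ), ∃ ω : Chn ℤ X (m + 2), 0 < s →
      Reif (m + 2) x (10 * s) ε → GHApprox x s (0 : Euc (m + 2)) 100 ε φ → Om g φ x s ω := by
    intro φ x s
    by_cases H : 0 < s ∧ Reif (m + 2) x (10 * s) ε ∧ GHApprox x s (0 : Euc (m + 2)) 100 ε φ
    · obtain ⟨ω, hω⟩ := exists_om (ε := 2 * ε) hg H.1 (by linarith) (by linarith)
        (fun z hz t ht hts => (H.2.1 z hz t ht hts).imp fun ψ hψ => hψ.mono_eps (by linarith))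
        (H.2.2.mono H.1 (by norm_num) le_rfl e0.le)
      exact ⟨ω, fun _ _ _ => hω⟩
    · exact ⟨0, fun h1 h2 h3 => absurd ⟨h1, h2, h3⟩ H⟩
  choose ω hω using hω
  have hβ : ∀ (a : Y) (s : ℝ), ∃ b, 0 < s → π b ∈ A ∧ dist b a < s / 100 := by
    intro a s
    by_cases hs : 0 < s
    · obtain ⟨b, hb, hb'⟩ := h.dense.exists_dist_lt a (ε := s / 100) (by positivity)
      exact ⟨b, fun _ => ⟨hb, by rwa [dist_comm]⟩⟩
    · exact ⟨a, fun h' => absurd h' hs⟩
  choose β hβ using hβ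
  have near : ∀ {a b : Y} {x : X} {s t u : ℝ}, π a ∈ ball x t → dist b a < u → t + u ≤ 2 * s →
      π b ∈ ball x (2 * s) := by
    intro a b x s t u ha hb htu
    have t1 := dist_triangle (π b) (π a) x
    have t2 := h.quot.dist_le b a
    rw [mem_ball] at ha ⊢
    linarith
  have pm : ∀ φ x s, 0 < s → Reif (m + 2) x (10 * s) ε → GHApprox x s (0 : Euc (m + 2)) 100 ε φ →
      ∀ c, π c ∈ ball x (2 * s) → π c ∈ A →
      ω φ x s - p c ∈ Bl ℤ {π c} (m + 2) ∨ ω φ x s + p c ∈ Bl ℤ {π c} (m + 2) := by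
    intro φ x s hs hr hφ c h1 h2
    exact (hcmp X φ φ x x (π c) s 0 (p c) _ _ hs hr hφ hφ (by rw [dist_self]; exact hs.le)
      (fun y _ => by rw [add_zero, dist_self]; norm_num) h1 h1 (hp.gen c h2) (hω φ x s hs hr hφ)
      (hω φ x s hs hr hφ)).imp And.left And.left
  have cst : ∀ φ x s, 0 < s → Reif (m + 2) x (10 * s) ε → GHApprox x s (0 : Euc (m + 2)) 100 ε φ →
      ∀ a b b', π a ∈ ball x s → dist b a < s / 100 → dist b b' < s / 4 → π b ∈ A → π b' ∈ A →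
      (ω φ x s - p b ∈ Bl ℤ {π b} (m + 2) ↔ ω φ x s - p b' ∈ Bl ℤ {π b'} (m + 2)) := by
    intro φ x s hs hr hφ a b b' ha hb hbb h1 h2
    refine toS_const hp h h1 h2 hbb fun c hc' h3 => pm φ x s hs hr hφ c ?_ h3
    have t := dist_triangle c b a
    rw [mem_ball] at hc'
    exact near (u := s / 2) ha (by linarith) (by linarith)
  refine ⟨fun φ x s a => if ω φ x s - p (β a s) ∈ Bl ℤ {π (β a s)} (m + 2) then 1 else -1,
    fun φ x s hs hr hφ a ha => ⟨?_, ?_⟩, fun φ x s hs hr hφ a a' ha ha' hd' => ?_,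
    fun φ φ' x x' s c hs hr hr' hφ hφ' hxx hcc a ha ha' => ?_⟩
  · split_ifs
    · exact Or.inl rfl
    · exact Or.inr rfl
  · obtain ⟨b1, b2⟩ := hβ a s hs
    obtain ⟨c1, c2⟩ := hβ (Γ a) s hs
    have e := h.quot.π_Γ (β a s)
    have d1 : dist (Γ (β a s)) (Γ a) < s / 100 := by rwa [h.quot.iso.dist_eq]
    have i1 := cst φ x s hs hr hφ (Γ a) (β (Γ a) s) (Γ (β a s)) (by rwa [h.quot.π_Γ]) c2
      (by linarith [dist_triangle_right (β (Γ a) s) (Γ (β a s)) (Γ a)]) c1 (by rwa [e])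
    rw [e] at i1
    have rv := hp.rev h hd hc hA' hn b1
    have fr : Fre (π (β a s)) (m + 2) (p (β a s)) := (hp.gen _ b1).fre_mfd h.mfd b1
    have i2 : ω φ x s - p (Γ (β a s)) ∈ Bl ℤ {π (β a s)} (m + 2) ↔
        ¬ω φ x s - p (β a s) ∈ Bl ℤ {π (β a s)} (m + 2) := by
      constructor
      · intro h1 h2
        refine fr.not_both h2 ?_
        have := Submodule.add_mem _ h1 rv
        rwa [← add_assoc, sub_add_cancel] at this
      · intro h1
        have h2 := (pm φ x s hs hr hφ _ (near ha b2 (by linarith)) b1).resolve_left h1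
        have := Submodule.sub_mem _ h2 rv
        rwa [add_sub_add_right_eq_sub] at this
    by_cases h1 : ω φ x s - p (β a s) ∈ Bl ℤ {π (β a s)} (m + 2)
    · rw [if_pos h1, if_neg fun h2 => i2.1 (i1.1 h2) h1]
    · rw [if_neg h1, if_pos (i1.2 (i2.2 h1)), neg_neg]
  · obtain ⟨b1, b2⟩ := hβ a s hs
    obtain ⟨c1, c2⟩ := hβ a' s hs
    have t := dist_triangle4 (β a s) a a' (β a' s)
    rw [dist_comm a'] at t
    exact if_congr (cst φ x s hs hr hφ a _ _ ha b2 (by linarith) b1 c1) rfl rfl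
  · obtain ⟨b1, b2⟩ := hβ a s hs
    have fr : Fre (π (β a s)) (m + 2) (p (β a s)) := (hp.gen _ b1).fre_mfd h.mfd b1
    refine if_congr ?_ rfl rfl
    rcases hcmp X φ φ' x x' (π (β a s)) s c (p (β a s)) _ _ hs hr hφ hφ' hxx hcc
      (near ha b2 (by linarith)) (near ha' b2 (by linarith)) (hp.gen _ b1) (hω φ x s hs hr hφ)
      (hω φ' x' s hs hr' hφ') with h1 | h1
    · exact iff_of_true h1.1 h1.2
    · exact iff_of_false (fun h2 => fr.not_both h2 h1.1) fun h2 => fr.not_both h2 h1.2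

end RC.Ho
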