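import Pool.Agent.P.MP_6472e5_gt.Kern
import Pool.Agent.P.MP_6472e5_gt.HkD

/-! Metric blow-ups with limit measure and limit kernel: definitions. -/

set_option autoImplicit false
set_option linter.unusedSectionVars false

noncomputable section

namespace RC

open MeasureTheory Set Filter Topology Metric

variable {X : Type} [MetricSpace X] [MeasurableSpace X] {μ : Measure X}

/-- The heat kernel with rescaled time. -/
def DS.ps (D : DS μ) (r t : ℝ) : X → X → ℝ := D.p (r ^ 2 * t)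

/-- A metric blow-up. -/
structure MB (U : Ultrafilter ℕ) (y : ℕ → X) (r : ℕ → ℝ) (Z : Type) [MetricSpace Z]
    [MeasurableSpace Z] where
  e : Z
  q : ℕ → X → Z
  seq : Seq U y r
  meas : ∀ i, Measurable (q i)
  app : ∀ R ε, 0 < R → 0 < ε → ∀ᶠ i in (U : Filter ℕ), GHApprox (y i) (r i) e R ε (q i)

namespace MB

variable {Z : Type} [MetricSpace Z] [MeasurableSpace Z] {U : Ultrafilter ℕ} {y : ℕ → X}
  {r : ℕ → ℝ} (B : MB U y r Z)

/-- The points `a i` converge to `z`. -/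
def Lf (a : ℕ → X) (z : Z) : Prop :=
  (∃ R, ∀ᶠ i in (U : Filter ℕ), a i ∈ ball (y i) (R * r i)) ∧
    Tendsto (fun i => B.q i (a i)) U (𝓝 z)

/-- The functions `g i` converge locally uniformly to `f`. -/
def Cv (g : ℕ → X → ℝ) (f : Z → ℝ) : Prop :=
  ∀ R ε, 0 < ε → ∀ᶠ i in (U : Filter ℕ), ∀ a ∈ ball (y i) (R * r i), |g i a - f (B.q i a)| ≤ ε

/-- Bounded convergence of measurable functions to a continuous function. -/
structure Cb (μ : Measure X) (g : ℕ → X → ℝ) (f : Z → ℝ) : Prop where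
  cv : B.Cv g f
  cont : Continuous f
  meas : ∀ i, AEStronglyMeasurable (g i) μ
  bdd : ∃ M, ∀ᶠ i in (U : Filter ℕ), ∀ a, |g i a| ≤ M

/-- `ν` is the limit of the rescaled measures. -/
structure Conv (μ : Measure X) (n : ℕ) (ν : Measure Z) : Prop where
  fin : ∀ z s, ν (ball z s) < ⊤
  pos : ∀ z s, 0 < s → 0 < ν (ball z s)
  conv : ∀ (f : Z → ℝ) (g : ℕ → X → ℝ) (R : ℝ), Continuous f → (∀ z, z ∉ ball B.e R → f z = 0) →
    (∀ i, AEStronglyMeasurable (g i) μ) →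
    (∀ᶠ i in (U : Filter ℕ), ∀ a, a ∉ ball (y i) (R * r i) → g i a = 0) →
    (∀ ε, 0 < ε → ∀ᶠ i in (U : Filter ℕ), ∀ a ∈ ball (y i) (R * r i), |g i a - f (B.q i a)| ≤ ε) →
    Tendsto (fun i => (r i ^ n)⁻¹ * ∫ a, g i a ∂μ) U (𝓝 (∫ z, f z ∂ν))

/-- `k` is the limit of the rescaled heat kernels. -/
structure Ker (D : DS μ) (n : ℕ) (k : ℝ → Z → Z → ℝ) : Prop where
  lim : ∀ t a b z w, 0 < t → B.Lf a z → B.Lf b w →
    Tendsto (fun i => r i ^ n * D.p (r i ^ 2 * t) (a i) (b i)) U (𝓝 (k t z w))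
  uni : ∀ t R ε, 0 < t → 0 < ε → ∀ᶠ i in (U : Filter ℕ), ∀ a ∈ ball (y i) (R * r i),
    ∀ b ∈ ball (y i) (R * r i), |r i ^ n * D.p (r i ^ 2 * t) a b - k t (B.q i a) (B.q i b)| ≤ ε
  up : ∀ t R, 0 < t → ∃ C, ∀ᶠ i in (U : Filter ℕ), ∀ a ∈ ball (y i) (R * r i), ∀ b,
    r i ^ n * D.p (r i ^ 2 * t) a b ≤ C
  cont : ContinuousOn (fun a : ℝ × Z × Z => k a.1 a.2.1 a.2.2) (Ioi 0 ×ˢ univ)
  nonneg : ∀ t z w, 0 < t → 0 ≤ k t z w
  symm : ∀ t z w, 0 < t → k t z w = k t w z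
  bdd : ∀ t, 0 < t → ∃ C, ∀ z w, k t z w ≤ C
  unif : ∀ t ε : ℝ, 0 < t → 0 < ε → ∀ᶠ s in 𝓝 t, ∀ z w, |k s z w - k t z w| ≤ ε
  bds : ∃ c C, 0 < c ∧ ∀ z s, 0 < s → c ≤ s ^ n * k (s ^ 2) z z ∧ s ^ n * k (s ^ 2) z z ≤ C

end MB

end RC
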