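import Pool.Agent.P.MP_6472e5_gt.UlD
import Pool.Agent.P.MP_6472e5_gt.GH
import Pool.Agent.P.MP_6472e5_gt.Ca0m

/-! Metric blow-ups: limits of points and of functions. -/

set_option autoImplicit false
set_option linter.unusedSectionVars false

noncomputable section

namespace RC

open MeasureTheory Set Filter Topology Metric

variable {X : Type} [MetricSpace X] [ProperSpace X] [MeasurableSpace X] [BorelSpace X]
  {μ : Measure X} {D : DS μ} {κ : ℝ} {n : ℕ}
  {Z : Type} [MetricSpace Z] [ProperSpace Z] [MeasurableSpace Z] [BorelSpace Z]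
  {ν : Measure Z} {k : ℝ → Z → Z → ℝ} {U : Ultrafilter ℕ} {y : ℕ → X} {r : ℕ → ℝ}

/-- Almost Lipschitz functions on a ball are close to Lipschitz functions. -/
theorem ull_ext (x : X) (ρ : ℝ) {K M : ℝ} (hK : 0 < K) (φ : X → ℝ) (hM : ∀ a, |φ a| ≤ M) :
    ∃ g, LipB g ∧ (∀ a b, |g a - g b| ≤ K * dist a b) ∧ (∀ a, |g a| ≤ M) ∧
      ∀ η, (∀ a ∈ ball x ρ, ∀ b ∈ ball x ρ, |φ a - φ b| ≤ K * dist a b + η) →
        ∀ a ∈ ball x ρ, |g a - φ a| ≤ η := by
  have h0 : 0 ≤ M := (abs_nonneg _).trans (hM x)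
  lift K to NNReal using hK.le
  rcases le_or_gt ρ 0 with hρ | hρ
  · exact ⟨0, LipB.zero, fun a b => by simpa using by positivity, fun a => by simpa using h0,
      fun η _ a ha => absurd (pos_of_mem_ball ha) hρ.not_gt⟩
  have : Nonempty (ball x ρ) := ⟨⟨x, mem_ball_self hρ⟩⟩
  let u : X → ℝ := fun a => ⨅ b : ball x ρ, (φ b + K * dist a b)
  have hb : ∀ (a : X) (b : ball x ρ), -M ≤ φ b + K * dist a b := fun a b =>
    le_add_of_le_of_nonneg (abs_le.1 (hM b)).1 (by positivity)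
  have h1 : ∀ (a : X) (b : ball x ρ), u a ≤ φ b + K * dist a b := fun a b =>
    ciInf_le ⟨-M, forall_mem_range.2 (hb a)⟩ b
  have h2 : ∀ a c, u a - K * dist a c ≤ u c := fun a c => le_ciInf fun b => by
    have h3 := mul_le_mul_of_nonneg_left (dist_triangle a c b) hK.le
    linarith [h1 a b]
  have h3 : LipschitzWith K u := LipschitzWith.of_dist_le_mul fun a c => by
    have h4 := h2 c a
    rw [dist_comm] at h4
    exact abs_le.2 ⟨by linarith, by linarith [h2 a c]⟩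
  obtain ⟨v, v1, v2, v3, -⟩ := exists_lipB_eqOn (L := K) (x := x) hK hρ h3.lipschitzOnWith
  have hΦ : LipschitzWith 1 fun s : ℝ => max (min s M) (-M) :=
    (LipschitzWith.id.min_const M).max_const _
  refine ⟨fun a => max (min (v a) M) (-M), v1.comp hΦ (by simp [h0]), fun a b => ?_,
    fun a => abs_le.2 ⟨le_max_right _ _, max_le (min_le_right _ _) (by linarith)⟩,
    fun η hη a ha => ?_⟩
  · simpa [Real.dist_eq] using (hΦ.comp v2).dist_le_mul a b
  have h4 : u a ≤ φ a := by simpa using h1 a ⟨a, ha⟩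
  have h5 : φ a - η ≤ u a := le_ciInf fun b => by linarith [(abs_le.1 (hη a ha b b.2)).2]
  have h6 : -M ≤ u a := le_ciInf (hb a)
  have h7 : 0 ≤ η := by simpa using hη a ha a ha
  simp only [v3 ha]
  rw [min_eq_left (h4.trans (abs_le.1 (hM a)).2), max_eq_left h6]
  exact abs_le.2 ⟨by linarith, by linarith⟩

namespace MB

variable (B : MB U y r Z)

include B in
theorem small {δ : ℝ} (hδ : 0 < δ) : ∀ᶠ i in (U : Filter ℕ), r i ≤ δ :=
  B.seq.lim.eventually (Iic_mem_nhds hδ)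

theorem app' (R : ℝ) {ε : ℝ} (hε : 0 < ε) : ∀ᶠ i in (U : Filter ℕ),
    ∀ a ∈ ball (y i) (R * r i), ∀ b ∈ ball (y i) (R * r i),
      |dist (B.q i a) (B.q i b) - dist a b / r i| ≤ ε := by
  filter_upwards [B.app (|R| + 1) ε (by positivity) hε] with i h a ha b hb
  have hs : ball (y i) (R * r i) ⊆ ball (y i) ((|R| + 1) * r i) :=
    ball_subset_ball (mul_le_mul_of_nonneg_right (by linarith [le_abs_self R]) (B.seq.pos i).le)
  exact h.2.1 a (hs ha) b (hs hb)

theorem lf_base : B.Lf y B.e :=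
  ⟨⟨1, Eventually.of_forall fun i => mem_ball_self (by simpa using B.seq.pos i)⟩,
    tendsto_const_nhds.congr' ((B.app 1 1 one_pos one_pos).mono fun _ h => h.1.symm)⟩

theorem exists_lf (z : Z) : ∃ a, B.Lf a z := by
  have hR : 0 < dist z B.e + 2 := by positivity
  have h1 : ∀ i, ∃ a ∈ ball (y i) ((dist z B.e + 2) * r i), dist z (B.q i a) <
      infDist z (B.q i '' ball (y i) ((dist z B.e + 2) * r i)) + r i := fun i => by
    obtain ⟨_, ⟨a, ha, rfl⟩, h⟩ := (infDist_lt_iff (x := z) (Set.Nonempty.image (B.q i)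
      ⟨y i, mem_ball_self (mul_pos hR (B.seq.pos i))⟩)).1 (lt_add_of_pos_right _ (B.seq.pos i))
    exact ⟨a, ha, h⟩
  choose a h1 h2 using h1
  refine ⟨a, ⟨_, Eventually.of_forall h1⟩, Metric.tendsto_nhds.2 fun ε hε => ?_⟩
  have h3 : 0 < min (ε / 2) 1 := lt_min (half_pos hε) one_pos
  filter_upwards [B.app _ _ hR h3, B.small (half_pos hε)] with i h4 h5
  obtain ⟨b, hb, h6⟩ := h4.2.2 z (by
    rw [mem_ball]
    linarith [min_le_right (ε / 2) 1])
  have h7 := infDist_le_dist_of_mem (x := z) (mem_image_of_mem (B.q i) hb)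
  rw [dist_comm] at h6 ⊢
  linarith [h2 i, min_le_left (ε / 2) 1]

theorem exists_lim {a : ℕ → X} {R : ℝ}
    (h : ∀ᶠ i in (U : Filter ℕ), a i ∈ ball (y i) (R * r i)) :
    ∃ z ∈ closedBall B.e R, B.Lf a z := by
  have h1 : ∀ ε, 0 < ε → ∀ᶠ i in (U : Filter ℕ), dist (B.q i (a i)) B.e ≤ R + ε := fun ε hε => by
    filter_upwards [h, B.app' R hε, B.app 1 1 one_pos one_pos] with i h1 h2 h3
    have h4 := h2 _ h1 _ (mem_ball_self (pos_of_mem_ball h1))
    have h5 := (div_lt_iff₀ (B.seq.pos i)).2 (mem_ball.1 h1)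
    rw [h3.1] at h4
    linarith [(abs_le.1 h4).2]
  obtain ⟨z, -, hz⟩ := (isCompact_closedBall B.e (R + 1)).ultrafilter_le_nhds
    (U.map fun i => B.q i (a i)) (le_principal_iff.2 (h1 1 one_pos))
  have hz' : Tendsto (fun i => B.q i (a i)) U (𝓝 z) := hz
  exact ⟨z, le_of_forall_pos_le_add fun ε hε =>
    le_of_tendsto (hz'.dist tendsto_const_nhds) (h1 ε hε), ⟨R, h⟩, hz'⟩

/-- A property that holds along all convergent sequences holds uniformly on balls. -/
theorem unif {p : ℕ → X → Prop} (h : ∀ a z, B.Lf a z → ∀ᶠ i in (U : Filter ℕ), p i (a i))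
    (R : ℝ) : ∀ᶠ i in (U : Filter ℕ), ∀ a ∈ ball (y i) (R * r i), p i a := by
  by_contra hn
  have h1 : ∀ᶠ i in (U : Filter ℕ), ∃ a, a ∈ ball (y i) (R * r i) ∧ ¬p i a :=
    (Ultrafilter.eventually_not.2 hn).mono fun i hi => by simpa only [not_forall, exists_prop]
      using hi
  obtain ⟨a, ha⟩ := h1.choice
  obtain ⟨z, -, hz⟩ := B.exists_lim (ha.mono fun _ hi => hi.1)
  obtain ⟨i, h2, h3⟩ := (ha.and (h a z hz)).exists
  exact h2.2 h3

theorem unif₂ {p : ℕ → X → X → Prop}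
    (h : ∀ a b z w, B.Lf a z → B.Lf b w → ∀ᶠ i in (U : Filter ℕ), p i (a i) (b i)) (R : ℝ) :
    ∀ᶠ i in (U : Filter ℕ), ∀ a ∈ ball (y i) (R * r i), ∀ b ∈ ball (y i) (R * r i), p i a b :=
  B.unif (p := fun i a => ∀ b ∈ ball (y i) (R * r i), p i a b)
    (fun a z ha => B.unif (p := fun i b => p i (a i) b) (fun b w hb => h a b z w ha hb) R) R

include B in
theorem loc : ∃ x S, ∀ R, ∀ᶠ i in (U : Filter ℕ), ball (y i) (R * r i) ⊆ ball x S := by
  obtain ⟨x, S, h⟩ := B.seq.bdd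
  refine ⟨x, S + 1, fun R => ?_⟩
  have h1 : Tendsto (fun i => R * r i) U (𝓝 0) := by simpa using B.seq.lim.const_mul R
  filter_upwards [h1.eventually (Iic_mem_nhds one_pos)] with i h3 a h2
  have h4 := dist_triangle a (y i) x
  rw [mem_ball] at h2 ⊢
  linarith [mem_ball.1 (h i)]

theorem exists_N : ∃ N : ℕ → ℝ, Tendsto N U atTop ∧
    ∀ᶠ i in (U : Filter ℕ), GHApprox (y i) (r i) B.e (N i) (N i)⁻¹ (B.q i) := by
  classical
  let P : ℕ → ℕ → Prop := fun i N =>
    GHApprox (y i) (r i) B.e ((N : ℝ) + 1) ((N : ℝ) + 1)⁻¹ (B.q i)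
  have h : ∀ m : ℕ, ∀ᶠ i in (U : Filter ℕ), m ≤ i ∧ P i m := fun m =>
    Eventually.and (ultra_le_atTop B.seq.pos B.seq.lim (eventually_ge_atTop m))
      (B.app _ _ (by positivity) (by positivity))
  refine ⟨fun i => (Nat.findGreatest (P i) i : ℝ) + 1,
    tendsto_atTop_add_const_right _ _ (tendsto_natCast_atTop_atTop.comp
      (tendsto_atTop.2 fun m => (h m).mono fun i hi => Nat.le_findGreatest hi.1 hi.2)),
    (h 0).mono fun i hi => Nat.findGreatest_spec (P := P i) hi.1 hi.2⟩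

variable {B}

theorem Lf.dist {a b : ℕ → X} {z w : Z} (ha : B.Lf a z) (hb : B.Lf b w) :
    Tendsto (fun i => dist (a i) (b i) / r i) U (𝓝 (dist z w)) := by
  obtain ⟨⟨R, hR⟩, h1⟩ := ha
  obtain ⟨⟨S, hS⟩, h2⟩ := hb
  have h3 : Tendsto (fun i => Dist.dist (B.q i (a i)) (B.q i (b i)) - Dist.dist (a i) (b i) / r i)
      U (𝓝 0) := by
    refine Metric.tendsto_nhds.2 fun ε hε => ?_
    filter_upwards [hR, hS, B.app' (max R S) (half_pos hε)] with i h3 h4 h5
    have h6 := h5 _ (ball_subset_ball (mul_le_mul_of_nonneg_right (le_max_left R S)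
      (B.seq.pos i).le) h3) _ (ball_subset_ball (mul_le_mul_of_nonneg_right (le_max_right R S)
      (B.seq.pos i).le) h4)
    rw [Real.dist_eq, sub_zero]
    linarith
  simpa using (h1.dist h2).sub h3

theorem Lf.mem {a : ℕ → X} {z : Z} (ha : B.Lf a z) {R : ℝ} (h : z ∈ ball B.e R) :
    ∀ᶠ i in (U : Filter ℕ), a i ∈ ball (y i) (R * r i) :=
  ((ha.dist B.lf_base).eventually (Iio_mem_nhds (mem_ball.1 h))).mono fun i hi =>
    (div_lt_iff₀ (B.seq.pos i)).1 hi

theorem Lf.ball_subset {a : ℕ → X} {z : Z} (ha : B.Lf a z) (s : ℝ) :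
    ∃ R, ∀ᶠ i in (U : Filter ℕ), ball (a i) (s * r i) ⊆ ball (y i) (R * r i) := by
  obtain ⟨⟨R, hR⟩, -⟩ := ha
  refine ⟨s + R, hR.mono fun i hi b hb => ?_⟩
  have h := dist_triangle b (a i) (y i)
  rw [mem_ball] at hi hb ⊢
  linarith

theorem Cv.lf {g : ℕ → X → ℝ} {f : Z → ℝ} (h : B.Cv g f) (hf : Continuous f) {a : ℕ → X}
    {z : Z} (ha : B.Lf a z) : Tendsto (fun i => g i (a i)) U (𝓝 (f z)) := by
  obtain ⟨⟨R, hR⟩, h1⟩ := ha
  have h2 : Tendsto (fun i => g i (a i) - f (B.q i (a i))) U (𝓝 0) := by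
    refine Metric.tendsto_nhds.2 fun ε hε => ?_
    filter_upwards [hR, h R _ (half_pos hε)] with i h3 h4
    rw [Real.dist_eq, sub_zero]
    linarith [h4 _ h3]
  simpa using h2.add ((hf.tendsto z).comp h1)

theorem cv_of_lf {g : ℕ → X → ℝ} {f : Z → ℝ} (hf : Continuous f)
    (h : ∀ a z, B.Lf a z → Tendsto (fun i => g i (a i)) U (𝓝 (f z))) : B.Cv g f := by
  intro R ε hε
  refine B.unif (p := fun i a => |g i a - f (B.q i a)| ≤ ε) (fun a z ha => ?_) R
  have h1 := ((h a z ha).sub ((hf.tendsto z).comp ha.2)).abs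
  rw [sub_self, abs_zero] at h1
  exact h1.eventually (Iic_mem_nhds hε)

theorem Cb.lf {g : ℕ → X → ℝ} {f : Z → ℝ} (h : B.Cb μ g f) {a : ℕ → X} {z : Z} (ha : B.Lf a z) :
    Tendsto (fun i => g i (a i)) U (𝓝 (f z)) := h.cv.lf h.cont ha

theorem Cb.bound {g : ℕ → X → ℝ} {f : Z → ℝ} (h : B.Cb μ g f) {M : ℝ}
    (hM : ∀ᶠ i in (U : Filter ℕ), ∀ a, |g i a| ≤ M) (z : Z) : |f z| ≤ M := by
  obtain ⟨a, ha⟩ := B.exists_lf z
  exact le_of_tendsto (h.lf ha).abs (hM.mono fun i hi => hi _)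

theorem cb_const (c : ℝ) : B.Cb μ (fun _ _ => c) fun _ => c :=
  ⟨cv_of_lf continuous_const fun _ _ _ => tendsto_const_nhds, continuous_const,
    fun _ => aestronglyMeasurable_const, |c|, Eventually.of_forall fun _ _ => le_rfl⟩

theorem Cb.mul {g g' : ℕ → X → ℝ} {f f' : Z → ℝ} (h : B.Cb μ g f) (h' : B.Cb μ g' f') :
    B.Cb μ (fun i a => g i a * g' i a) fun z => f z * f' z := by
  obtain ⟨M, hM⟩ := h.bdd
  obtain ⟨M', hM'⟩ := h'.bdd
  refine ⟨cv_of_lf (h.cont.mul h'.cont) fun a z ha => (h.lf ha).mul (h'.lf ha),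
    h.cont.mul h'.cont, fun i => (h.meas i).mul (h'.meas i), M * M', ?_⟩
  filter_upwards [hM, hM'] with i h1 h2 a
  rw [abs_mul]
  exact mul_le_mul (h1 a) (h2 a) (abs_nonneg _) ((abs_nonneg _).trans (h1 a))

theorem Cb.sub {g g' : ℕ → X → ℝ} {f f' : Z → ℝ} (h : B.Cb μ g f) (h' : B.Cb μ g' f') :
    B.Cb μ (fun i a => g i a - g' i a) fun z => f z - f' z := by
  obtain ⟨M, hM⟩ := h.bdd
  obtain ⟨M', hM'⟩ := h'.bdd
  refine ⟨cv_of_lf (h.cont.sub h'.cont) fun a z ha => (h.lf ha).sub (h'.lf ha),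
    h.cont.sub h'.cont, fun i => (h.meas i).sub (h'.meas i), M + M', ?_⟩
  filter_upwards [hM, hM'] with i h1 h2 a
  exact (abs_sub _ _).trans (add_le_add (h1 a) (h2 a))

/-- Bounded continuous functions of the rescaled distance to a convergent sequence. -/
theorem Lf.cb {a : ℕ → X} {z : Z} (ha : B.Lf a z) {Φ : ℝ → ℝ} (hΦ : Continuous Φ) {M : ℝ}
    (hM : ∀ s, |Φ s| ≤ M) :
    B.Cb μ (fun i b => Φ (Dist.dist b (a i) / r i)) fun w => Φ (Dist.dist w z) := by
  have h1 : Continuous fun w => Φ (Dist.dist w z) := hΦ.comp (continuous_id.dist continuous_const)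
  exact ⟨cv_of_lf h1 fun b w hb => (hΦ.tendsto _).comp (hb.dist ha), h1,
    fun i => (hΦ.comp ((continuous_id.dist continuous_const).div_const _)).aestronglyMeasurable,
    M, Eventually.of_forall fun _ _ => hM _⟩

variable (B)

include B in
theorem geodesic (hX : IsGeodesic X) : IsGeodesic Z := by
  classical
  intro z w
  obtain ⟨a, ha⟩ := B.exists_lf z
  obtain ⟨b, hb⟩ := B.exists_lf w
  choose γ h0 h1 hγ using fun i => hX (a i) (b i)
  have hd := ha.dist hb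
  obtain ⟨R, hR⟩ := ha.ball_subset (dist z w + 1)
  have hl : ∀ s ∈ Icc (0 : ℝ) 1, ∃ v, B.Lf (fun i => γ i s) v := fun s hs => by
    refine (B.exists_lim (R := R) ?_).imp fun v hv => hv.2
    filter_upwards [hR, hd.eventually (Iio_mem_nhds (lt_add_one _))] with i h2 h3
    refine h2 (mem_ball.2 ?_)
    have h4 := hγ i s hs 0 ⟨le_rfl, zero_le_one⟩
    rw [h0, sub_zero, abs_of_nonneg hs.1] at h4
    have h5 := (div_lt_iff₀ (B.seq.pos i)).1 h3
    have h6 := mul_le_of_le_one_left (dist_nonneg (x := a i) (y := b i)) hs.2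
    linarith
  have : Nonempty Z := ⟨z⟩
  choose! Γ hΓ using hl
  have he : ∀ {c : ℕ → X} {u v : Z}, B.Lf c u → B.Lf c v → u = v := fun hu hv =>
    tendsto_nhds_unique hu.2 hv.2
  refine ⟨Γ, he (hΓ 0 ⟨le_rfl, zero_le_one⟩) (by simpa only [h0] using ha),
    he (hΓ 1 ⟨zero_le_one, le_rfl⟩) (by simpa only [h1] using hb), fun s hs t ht => ?_⟩
  refine tendsto_nhds_unique ((hΓ s hs).dist (hΓ t ht)) ((hd.const_mul _).congr fun i => ?_)
  rw [hγ i s hs t ht, mul_div_assoc]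

/-- Square integrable lifts of bounded continuous functions. -/
theorem exists_lift (D : DS μ) {f : Z → ℝ} (hf : Continuous f) {M : ℝ} (hM : ∀ z, |f z| ≤ M) :
    ∃ g, B.Cb μ g f ∧ ∀ i, MemLp (g i) 2 μ ∧ ∀ a, |g i a| ≤ M := by
  have h0 : 0 ≤ M := (abs_nonneg _).trans (hM B.e)
  have hm : ∀ i, AEStronglyMeasurable ((ball (y i) 1).indicator fun a => f (B.q i a)) μ :=
    fun i => ((hf.measurable.comp (B.meas i)).indicator measurableSet_ball).aestronglyMeasurable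
  have hb : ∀ i a, |(ball (y i) 1).indicator (fun a => f (B.q i a)) a| ≤ M := fun i a => by
    by_cases h : a ∈ ball (y i) 1
    · rw [indicator_of_mem h]
      exact hM _
    · rw [indicator_of_notMem h, abs_zero]
      exact h0
  refine ⟨fun i => (ball (y i) 1).indicator fun a => f (B.q i a),
    ⟨fun R ε hε => ?_, hf, hm, M, Eventually.of_forall hb⟩, fun i => ⟨(D.memLp_of_bdd (hm i)
      ⟨M, ae_of_all _ (hb i)⟩ (ae_of_all _ fun a ha => indicator_of_notMem ha _)).1, hb i⟩⟩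
  have h1 : Tendsto (fun i => R * r i) U (𝓝 0) := by simpa using B.seq.lim.const_mul R
  filter_upwards [h1.eventually (Iic_mem_nhds one_pos)] with i h3 a h2
  rw [indicator_of_mem (ball_subset_ball h3 h2), sub_self, abs_zero]
  exact hε.le

/-- Lipschitz lifts of bounded Lipschitz functions. -/
theorem exists_lip_lift {f : Z → ℝ} {L : NNReal} (hL : 0 < L) (hf : LipschitzWith L f) {M : ℝ}
    (hM : ∀ z, |f z| ≤ M) : ∃ g, B.Cb μ g f ∧
      ∀ i, LipB (g i) ∧ ∀ a b, |g i a - g i b| ≤ L / r i * dist a b := by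
  obtain ⟨N, hN, hA⟩ := B.exists_N
  have hL' : (0 : ℝ) < L := hL
  choose g hg using fun i => ull_ext (y i) (N i * r i) (div_pos hL' (B.seq.pos i))
    (fun a => f (B.q i a)) fun a => hM _
  refine ⟨g, ⟨fun R ε hε => ?_, hf.continuous, fun i => (hg i).1.continuous.aestronglyMeasurable,
    M, Eventually.of_forall fun i => (hg i).2.2.1⟩, fun i => ⟨(hg i).1, (hg i).2.1⟩⟩
  have h1 : Tendsto (fun i => L * (N i)⁻¹) U (𝓝 0) := by
    simpa using hN.inv_tendsto_atTop.const_mul (L : ℝ)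
  filter_upwards [hA, hN.eventually_ge_atTop R, h1.eventually (Iic_mem_nhds hε)] with i h2 h3 h4
    a ha
  refine ((hg i).2.2.2 _ (fun b hb c hc => ?_) a
    (ball_subset_ball (mul_le_mul_of_nonneg_right h3 (B.seq.pos i).le) ha)).trans h4
  have h5 := (abs_le.1 (h2.2.1 b hb c hc)).2
  have h6 := hf.dist_le_mul (B.q i b) (B.q i c)
  have h7 := mul_le_mul_of_nonneg_left h5 hL'.le
  rw [Real.dist_eq] at h6
  rw [div_mul_eq_mul_div, mul_div_assoc]
  linarith

end MB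

end RC
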