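import Pool.Agent.P.MP_6472e5_gt.UlL
import Pool.Agent.P.MP_6472e5_gt.HpB

/-! The limit kernel is a Markov semigroup. -/

set_option autoImplicit false
set_option linter.unusedSectionVars false

noncomputable section

namespace RC

open MeasureTheory Set Filter Topology Metric

variable {X : Type} [MetricSpace X] [ProperSpace X] [MeasurableSpace X] [BorelSpace X]
  {μ : Measure X} {D : DS μ} {κ : ℝ} {n : ℕ}
  {Z : Type} [MetricSpace Z] [ProperSpace Z] [MeasurableSpace Z] [BorelSpace Z]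
  {ν : Measure Z} {k : ℝ → Z → Z → ℝ} {U : Ultrafilter ℕ} {y : ℕ → X} {r : ℕ → ℝ}

/-- A cutoff function on the line. -/
def ulp_Φ (ρ s : ℝ) : ℝ := max 0 (min 1 (ρ + 1 - s))

theorem ulp_Φ_cont (ρ : ℝ) : Continuous (ulp_Φ ρ) := by
  unfold ulp_Φ
  fun_prop

theorem ulp_Φ_nonneg (ρ s : ℝ) : 0 ≤ ulp_Φ ρ s := le_max_left _ _

theorem ulp_Φ_le (ρ s : ℝ) : ulp_Φ ρ s ≤ 1 := max_le zero_le_one (min_le_left _ _)

theorem ulp_Φ_abs (ρ s : ℝ) : |ulp_Φ ρ s| ≤ 1 :=
  (abs_of_nonneg (ulp_Φ_nonneg ρ s)).trans_le (ulp_Φ_le ρ s)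

theorem ulp_Φ_abs' (ρ s : ℝ) : |1 - ulp_Φ ρ s| ≤ 1 :=
  abs_le.2 ⟨by linarith [ulp_Φ_le ρ s], by linarith [ulp_Φ_nonneg ρ s]⟩

theorem ulp_Φ_one {ρ s : ℝ} (h : s ≤ ρ) : ulp_Φ ρ s = 1 := by
  unfold ulp_Φ
  rw [min_eq_left (by linarith), max_eq_right zero_le_one]

theorem ulp_Φ_zero {ρ s : ℝ} (h : ρ + 1 ≤ s) : ulp_Φ ρ s = 0 :=
  max_eq_left (min_le_of_right_le (by linarith))

theorem ulp_exp {C c ε : ℝ} (hC : 0 < C) (hc : 0 < c) (hε : 0 < ε) :
    ∀ᶠ t in 𝓝[>] (0 : ℝ), C * Real.exp (-(c / (C * t))) ≤ ε * t := by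
  have h0 : 0 < ε * c ^ 2 / (2 * C ^ 3) := by positivity
  filter_upwards [Ioo_mem_nhdsGT h0] with t ht
  have ht0 : 0 < t := ht.1
  have hx : 0 < c / (C * t) := by positivity
  have h1 := Real.quadratic_le_exp_of_nonneg hx.le
  have h2 : (c / (C * t)) ^ 2 / 2 ≤ Real.exp (c / (C * t)) := by linarith
  have h3 : t * (2 * C ^ 3) < ε * c ^ 2 := (lt_div_iff₀ (by positivity)).1 ht.2
  rw [Real.exp_neg, ← div_eq_mul_inv, div_le_iff₀ (Real.exp_pos _)]
  refine le_trans ?_ (mul_le_mul_of_nonneg_left h2 (by positivity))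
  have e : ε * t * ((c / (C * t)) ^ 2 / 2) = ε * c ^ 2 / (2 * C ^ 2 * t) := by
    field_simp
  rw [e, le_div_iff₀ (by positivity)]
  nlinarith

theorem ulp_meas (h : HP D κ n) {g : X → ℝ} (hg : AEStronglyMeasurable g μ) {t : ℝ}
    (ht : 0 < t) : AEStronglyMeasurable (D.Pk t g) μ := by
  have := D.sfin
  have e : D.Pk t g = fun x => ∫ b, D.p t x b * hg.mk g b ∂μ := by
    funext x
    refine integral_congr_ae ?_
    filter_upwards [hg.ae_eq_mk] with b hb
    rw [hb]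
  rw [e]
  exact (StronglyMeasurable.integral_prod_right (f := fun x b => D.p t x b * hg.mk g b)
    ((h.p_cont ht).stronglyMeasurable.mul
      (hg.stronglyMeasurable_mk.comp_measurable measurable_snd))).aestronglyMeasurable

namespace MB

variable {B : MB U y r Z} (h : HP D κ n) (hν : B.Conv μ n ν) (hk : B.Ker D n k)

theorem ulp_pos (B : MB U y r Z) {t : ℝ} (ht : 0 < t) (i : ℕ) : 0 < r i ^ 2 * t :=
  mul_pos (pow_pos (B.seq.pos i) 2) ht

include h in
theorem ulp_off (B : MB U y r Z) : ∃ C, 0 < C ∧ ∀ t, 0 < t → ∀ᶠ i in (U : Filter ℕ),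
    ∀ (g : X → ℝ) (M ρ : ℝ) (x : X), AEStronglyMeasurable g μ → (∀ b, |g b| ≤ M) → 0 ≤ ρ →
      (∀ b, dist b x / r i < ρ → g b = 0) →
      |D.Pk (r i ^ 2 * t) g x| ≤ C * M * Real.exp (-(ρ ^ 2 / (C * t))) := by
  obtain ⟨C, hC, H⟩ := h.pk_off
  obtain ⟨r₀, h0, -, hs⟩ := h.exists_scale
  refine ⟨C, hC, fun t ht => ?_⟩
  have hq : 0 < √t := Real.sqrt_pos.2 ht
  filter_upwards [B.small (div_pos h0 hq)] with i hi g M ρ x hg hM hρ hz
  have hr := B.seq.pos i
  have e : (r i * √t) ^ 2 = r i ^ 2 * t := by rw [mul_pow, Real.sq_sqrt ht.le]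
  have := H g M (r i * √t) (ρ * r i) x hg (ae_of_all _ hM) (mul_nonneg hρ hr.le)
    (ae_of_all _ fun b hb => hz b ((div_lt_iff₀ hr).2 hb)) (mul_pos hr hq)
    (hs _ (mul_pos hr hq).le ((le_div_iff₀ hq).1 hi))
  rw [e] at this
  have e2 : (ρ * r i) ^ 2 / (C * (r i ^ 2 * t)) = ρ ^ 2 / (C * t) := by
    field_simp
  rwa [e2] at this

include hν in
theorem ulp_int {F : Z → ℝ} (hF : Continuous F) {C s : ℝ} (hC : ∀ w, |F w| ≤ C) {z : Z}
    (h0 : ∀ w, w ∉ ball z s → F w = 0) : Integrable F ν :=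
  (Measure.integrableOn_of_bounded (M := C) (hν.fin z s).ne hF.aestronglyMeasurable
    (ae_of_all _ hC)).integrable_of_forall_notMem_eq_zero h0

include h hk in
theorem ulp_ker {t : ℝ} (ht : 0 < t) {a : ℕ → X} {z : Z} (ha : B.Lf a z) :
    B.Cb μ (fun i b => r i ^ n * D.p (r i ^ 2 * t) (a i) b) (k t z) := by
  have hc := hpb_ker_cont' hk.cont ht z
  refine ⟨cv_of_lf hc fun b w hb => hk.lim t a b z w ht ha hb, hc, fun i =>
    (continuous_const.mul (hpb_ker_cont' h.ker.1 (B.ulp_pos ht i) (a i))).aestronglyMeasurable,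
    ?_⟩
  obtain ⟨R, hR⟩ := ha.1
  obtain ⟨C, hC⟩ := hk.up t R ht
  refine ⟨C, ?_⟩
  filter_upwards [hR, hC] with i h1 h2 b
  rw [abs_of_nonneg (mul_nonneg (pow_pos (B.seq.pos i) n).le
    (h.p_pos _ _ _ (B.ulp_pos ht i)).le)]
  exact h2 _ h1 b

include h hν hk

theorem ulp_cut {g : ℕ → X → ℝ} {f : Z → ℝ} (hg : B.Cb μ g f) {t : ℝ} (ht : 0 < t) {a : ℕ → X}
    {z : Z} (ha : B.Lf a z) (ρ : ℝ) :
    Tendsto (fun i => D.Pk (r i ^ 2 * t) (fun b => g i b * ulp_Φ ρ (dist b (a i) / r i)) (a i)) U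
      (𝓝 (∫ w, k t z w * (f w * ulp_Φ ρ (dist w z)) ∂ν)) := by
  have G := (ulp_ker h hk ht ha).mul (hg.mul (ha.cb (ulp_Φ_cont ρ) (ulp_Φ_abs ρ)))
  obtain ⟨R, hR⟩ := ha.ball_subset (ρ + 1)
  have := hν.conv _ _ (max R (dist z B.e + (ρ + 1))) G.cont (fun w hw => ?_) G.meas ?_
    fun ε hε => G.cv _ ε hε
  · refine this.congr fun i => ?_
    have hr := pow_pos (B.seq.pos i) n
    simp only [mul_assoc]
    rw [integral_const_mul, inv_mul_cancel_left₀ hr.ne']
    rfl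
  · have h1 : dist z B.e + (ρ + 1) ≤ dist w B.e :=
      (le_max_right _ _).trans (not_lt.1 hw)
    have h2 := dist_triangle w z B.e
    rw [ulp_Φ_zero (by linarith), mul_zero, mul_zero]
  · filter_upwards [hR] with i hi b hb
    have hr := B.seq.pos i
    have h1 : b ∉ ball (a i) ((ρ + 1) * r i) := fun hb' =>
      hb (ball_subset_ball (mul_le_mul_of_nonneg_right (le_max_left _ _) hr.le) (hi hb'))
    rw [ulp_Φ_zero ((le_div_iff₀ hr).2 (not_lt.1 h1)), mul_zero, mul_zero]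

theorem Ker.int {t : ℝ} (ht : 0 < t) (z : Z) : Integrable (k t z) ν := by
  obtain ⟨a, ha⟩ := B.exists_lf z
  obtain ⟨C, hC⟩ := hk.bdd t ht
  have hc := hpb_ker_cont' hk.cont ht z
  have h0 := fun w => hk.nonneg t z w ht
  have hC' : ∀ w, |k t z w| ≤ C := fun w => (abs_of_nonneg (h0 w)).trans_le (hC z w)
  refine (aecover_ball (μ := ν) (x := z) (l := atTop)
    (tendsto_natCast_atTop_atTop (R := ℝ))).integrable_of_integral_bounded_of_nonneg_ae 1
    (fun m => Measure.integrableOn_of_bounded (M := C) (hν.fin z m).ne hc.aestronglyMeasurable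
      (ae_of_all _ hC')) (ae_of_all _ h0) (Eventually.of_forall fun m => ?_)
  have hI : Integrable (fun w => k t z w * (1 * ulp_Φ m (dist w z))) ν := by
    refine ulp_int hν (C := C) (z := z) (s := m + 1)
      (hc.mul (continuous_const.mul ((ulp_Φ_cont m).comp (by fun_prop)))) (fun w => ?_)
      fun w hw => by rw [ulp_Φ_zero (not_lt.1 hw), mul_zero, mul_zero]
    rw [abs_mul, one_mul]
    exact (mul_le_of_le_one_right (abs_nonneg _) (ulp_Φ_abs _ _)).trans (hC' w)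
  have h1 : ∫ w, k t z w * (1 * ulp_Φ m (dist w z)) ∂ν ≤ 1 := by
    refine le_of_tendsto' (ulp_cut h hν hk (cb_const 1) ht ha m) fun i => ?_
    refine (le_abs_self _).trans ((h.pk_bdd _ _ 1 ?_ (ae_of_all _ fun b => ?_)
      (B.ulp_pos ht i)).1 _)
    · exact (continuous_const.mul ((ulp_Φ_cont m).comp (by fun_prop))).aestronglyMeasurable
    · rw [one_mul]
      exact ulp_Φ_abs _ _
  refine le_trans ?_ h1
  refine le_trans (le_of_eq ?_) (setIntegral_le_integral (s := ball z m) hI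
    (ae_of_all _ fun w => mul_nonneg (h0 w) (mul_nonneg zero_le_one (ulp_Φ_nonneg _ _))))
  refine setIntegral_congr_fun measurableSet_ball fun w hw => ?_
  show k t z w = k t z w * (1 * ulp_Φ m (dist w z))
  rw [ulp_Φ_one (le_of_lt hw), mul_one, mul_one]

theorem Cb.kT_lf {g : ℕ → X → ℝ} {f : Z → ℝ} (hg : B.Cb μ g f) {t : ℝ} (ht : 0 < t) {a : ℕ → X}
    {z : Z} (ha : B.Lf a z) :
    Tendsto (fun i => kT μ (D.ps (r i)) t (g i) (a i)) U (𝓝 (kT ν k t f z)) := by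
  obtain ⟨M, hM⟩ := hg.bdd
  obtain ⟨C, hC, H⟩ := ulp_off h B
  have hf := hg.bound hM
  have hc := hpb_ker_cont' hk.cont ht z
  have hI := Ker.int h hν hk ht z
  have l1 : Tendsto (fun m : ℕ => ∫ w, k t z w * (f w * ulp_Φ m (dist w z)) ∂ν) atTop
      (𝓝 (kT ν k t f z)) := by
    refine tendsto_integral_of_dominated_convergence (fun w => ‖k t z w‖ * M) (fun m =>
      (hc.mul (hg.cont.mul ((ulp_Φ_cont m).comp (by fun_prop)))).aestronglyMeasurable)
      (hI.norm.mul_const M) (fun m => ae_of_all _ fun w => ?_) (ae_of_all _ fun w => ?_)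
    · rw [norm_mul]
      refine mul_le_mul_of_nonneg_left ?_ (norm_nonneg _)
      rw [Real.norm_eq_abs, abs_mul]
      exact (mul_le_of_le_one_right (abs_nonneg _) (ulp_Φ_abs _ _)).trans (hf w)
    · refine tendsto_const_nhds.congr' ?_
      filter_upwards [(tendsto_natCast_atTop_atTop (R := ℝ)).eventually_ge_atTop (dist w z)]
        with m hm
      rw [ulp_Φ_one hm, mul_one]
  have l2 : Tendsto (fun m : ℕ => C * M * Real.exp (-((m : ℝ) ^ 2 / (C * t)))) atTop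
      (𝓝 (C * M * 0)) :=
    (Real.tendsto_exp_atBot.comp (tendsto_neg_atTop_atBot.comp
      (((tendsto_pow_atTop two_ne_zero).comp tendsto_natCast_atTop_atTop).atTop_div_const
        (mul_pos hC ht)))).const_mul _
  rw [mul_zero] at l2
  refine Metric.tendsto_nhds.2 fun ε hε => ?_
  have h3 : 0 < ε / 3 := by positivity
  obtain ⟨m, m1, m2⟩ := ((Metric.tendsto_nhds.1 l1 _ h3).and (l2.eventually_lt_const h3)).exists
  filter_upwards [Metric.tendsto_nhds.1 (ulp_cut h hν hk hg ht ha m) _ h3, H t ht, hM]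
    with i h1 h2 h4
  have hp := B.ulp_pos ht i
  have hΦ : Continuous fun b => ulp_Φ m (dist b (a i) / r i) :=
    (ulp_Φ_cont m).comp (by fun_prop)
  have a1 := (hg.meas i).mul hΦ.aestronglyMeasurable
  have a2 := (hg.meas i).mul ((continuous_const (y := (1 : ℝ))).sub hΦ).aestronglyMeasurable
  have b1 : ∀ b, |g i b * ulp_Φ m (dist b (a i) / r i)| ≤ M := fun b => by
    rw [abs_mul]
    exact (mul_le_of_le_one_right (abs_nonneg _) (ulp_Φ_abs _ _)).trans (h4 b)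
  have b2 : ∀ b, |g i b * (1 - ulp_Φ m (dist b (a i) / r i))| ≤ M := fun b => by
    rw [abs_mul]
    exact (mul_le_of_le_one_right (abs_nonneg _) (ulp_Φ_abs' _ _)).trans (h4 b)
  have h5 := h2 (fun b => g i b * (1 - ulp_Φ m (dist b (a i) / r i))) M m (a i) a2 b2
    (Nat.cast_nonneg m) fun b hb => by rw [ulp_Φ_one hb.le, sub_self, mul_zero]
  have e : kT μ (D.ps (r i)) t (g i) (a i) =
      D.Pk (r i ^ 2 * t) (fun b => g i b * ulp_Φ m (dist b (a i) / r i)) (a i) +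
      D.Pk (r i ^ 2 * t) (fun b => g i b * (1 - ulp_Φ m (dist b (a i) / r i))) (a i) := by
    refine Eq.trans ?_ (integral_add (h.hpb_int a1 ⟨M, ae_of_all _ b1⟩ hp (a i))
      (h.hpb_int a2 ⟨M, ae_of_all _ b2⟩ hp (a i)))
    refine integral_congr_ae (ae_of_all _ fun b => ?_)
    simp only [DS.ps]
    ring
  rw [e]
  rw [Real.dist_eq] at h1 m1 ⊢
  rw [abs_lt] at h1 m1 ⊢
  rw [abs_le] at h5
  constructor <;> linarith [h1.1, h1.2, m1.1, m1.2, h5.1, h5.2]

theorem Cb.kT {g : ℕ → X → ℝ} {f : Z → ℝ} (hg : B.Cb μ g f) {t : ℝ} (ht : 0 < t) :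
    B.Cb μ (fun i => kT μ (D.ps (r i)) t (g i)) (kT ν k t f) := by
  obtain ⟨M, hM⟩ := hg.bdd
  have hc : Continuous (RC.kT ν k t f) := by
    refine (LipschitzWith.of_dist_le' (K := Real.exp (κ * (0 ^ 2 * t)) * M / √(2 * t))
      fun z w => ?_).continuous
    obtain ⟨a, ha⟩ := B.exists_lf z
    obtain ⟨b, hb⟩ := B.exists_lf w
    have l1 : Tendsto (fun i => Real.exp (κ * (r i ^ 2 * t)) * M / √(2 * t) *
        (dist (a i) (b i) / r i)) U (𝓝 (Real.exp (κ * (0 ^ 2 * t)) * M / √(2 * t) * dist z w)) :=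
      ((((Real.continuous_exp.tendsto _).comp
        (((B.seq.lim.pow 2).mul_const t).const_mul κ)).mul_const M).div_const _).mul (ha.dist hb)
    refine le_of_tendsto_of_tendsto
      ((hg.kT_lf h hν hk ht ha).dist (hg.kT_lf h hν hk ht hb)) l1 ?_
    filter_upwards [hM] with i hi
    have hr := B.seq.pos i
    have := (h.pk_bdd (g i) _ M (hg.meas i) (ae_of_all _ hi) (B.ulp_pos ht i)).2.1 (a i) (b i)
    have e : √(2 * (r i ^ 2 * t)) = √(2 * t) * r i := by
      rw [show 2 * (r i ^ 2 * t) = 2 * t * r i ^ 2 by ring, Real.sqrt_mul' _ (sq_nonneg _),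
        Real.sqrt_sq hr.le]
    rw [e] at this
    refine le_trans (le_of_eq (Real.dist_eq _ _)) (this.trans_eq ?_)
    rw [div_mul_div_comm, div_mul_eq_mul_div]
  refine ⟨cv_of_lf hc fun a z ha => hg.kT_lf h hν hk ht ha, hc,
    fun i => ulp_meas h (hg.meas i) (B.ulp_pos ht i), M, ?_⟩
  filter_upwards [hM] with i hi
  exact (h.pk_bdd (g i) _ M (hg.meas i) (ae_of_all _ hi) (B.ulp_pos ht i)).1

theorem Cb.kG {g : ℕ → X → ℝ} {f : Z → ℝ} (hg : B.Cb μ g f) {t : ℝ} (ht : 0 < t) :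
    B.Cb μ (fun i => kG μ (D.ps (r i)) t (g i) (g i)) (kG ν k t f f) :=
  (cb_const (2 * t)⁻¹).mul (((hg.mul hg).kT h hν hk ht).sub
    ((hg.kT h hν hk ht).mul (hg.kT h hν hk ht)))

theorem Ker.hk0 : HK0 ν k := by
  refine ⟨hν.fin, hk.cont, hk.nonneg, hk.symm, fun t x ht => Ker.int h hν hk ht x,
    fun t x ht => ?_, hk.bdd, fun s t x w hs ht => ?_, fun ρ ε hρ hε => ?_⟩
  · obtain ⟨a, ha⟩ := B.exists_lf x
    have h1 := (cb_const (μ := μ) 1).kT_lf h hν hk ht ha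
    have h2 := tendsto_nhds_unique h1
      (tendsto_const_nhds.congr fun i => (h.hpb_const 1 (B.ulp_pos ht i) (a i)).symm)
    simpa only [kT, mul_one] using h2
  · obtain ⟨a, ha⟩ := B.exists_lf x
    obtain ⟨b, hb⟩ := B.exists_lf w
    have h1 := (ulp_ker h hk ht hb).kT_lf h hν hk hs ha
    have h2 := tendsto_nhds_unique (hk.lim _ a b x w (add_pos hs ht) ha hb) (h1.congr fun i => ?_)
    · rw [h2]
      exact integral_congr_ae (ae_of_all _ fun u => congrArg (k s x u * ·) (hk.symm t w u ht))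
    · rw [mul_add, h.ck _ _ _ _ (B.ulp_pos hs i) (B.ulp_pos ht i), ← integral_const_mul]
      refine integral_congr_ae (ae_of_all _ fun c => ?_)
      simp only [DS.ps]
      rw [h.p_symm _ (b i) c (B.ulp_pos ht i)]
      ring
  · obtain ⟨C, hC, H⟩ := ulp_off h B
    filter_upwards [ulp_exp hC (pow_pos (half_pos hρ) 2) hε, self_mem_nhdsWithin] with t h1 ht x
    replace ht : 0 < t := ht
    obtain ⟨a, ha⟩ := B.exists_lf x
    have hΨ : Continuous fun s : ℝ => 1 - ulp_Φ 1 (2 * s / ρ) :=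
      continuous_const.sub ((ulp_Φ_cont 1).comp (by fun_prop))
    have G := ha.cb (μ := μ) hΨ (M := 1) fun s => ulp_Φ_abs' _ _
    have hI := Ker.int h hν hk ht x
    have h0 := fun w => hk.nonneg t x w ht
    have h2 : kT ν k t (fun w => 1 - ulp_Φ 1 (2 * dist w x / ρ)) x ≤
        C * 1 * Real.exp (-((ρ / 2) ^ 2 / (C * t))) := by
      refine le_of_tendsto (G.kT_lf h hν hk ht ha) ?_
      filter_upwards [H t ht] with i hi
      refine (le_abs_self _).trans (hi _ 1 _ (a i) (G.meas i) (fun b => ulp_Φ_abs' _ _)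
        (half_pos hρ).le fun b hb => ?_)
      rw [ulp_Φ_one ((div_le_iff₀ hρ).2 (by linarith)), sub_self]
    rw [mul_one] at h2
    refine le_trans ?_ (h2.trans h1)
    refine le_trans (le_of_eq ?_) (setIntegral_le_integral (s := (ball x ρ)ᶜ)
      (hI.mul_bdd (c := 1) G.cont.aestronglyMeasurable (ae_of_all _ fun w => ulp_Φ_abs' _ _))
      (ae_of_all _ fun w => mul_nonneg (h0 w) (sub_nonneg.2 (ulp_Φ_le _ _))))
    refine setIntegral_congr_fun measurableSet_ball.compl fun w hw => ?_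
    have h3 : ρ ≤ dist w x := not_lt.1 hw
    show k t x w = k t x w * (1 - ulp_Φ 1 (2 * dist w x / ρ))
    rw [ulp_Φ_zero ((le_div_iff₀ hρ).2 (by linarith)), sub_zero, mul_one]

end MB

end RC
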