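import Pool.Agent.P.MP_6472e5_gt.VcD
import Pool.Agent.P.MP_6472e5_gt.HpB
import Pool.Agent.P.MP_6472e5_gt.Ca3

/-! Gradient bounds for heat flows of Lipschitz functions. -/

set_option autoImplicit false
set_option linter.unusedSectionVars false

noncomputable section

namespace RC

open MeasureTheory Set Filter Topology Metric

variable {X : Type} [MetricSpace X] [ProperSpace X] [MeasurableSpace X] [BorelSpace X]
  {μ : Measure X} {D : DS μ} {κ : ℝ} {n : ℕ}

theorem vcf_sum {ι : Type} (s : Finset ι) {g : ι → X → ℝ} (hg : ∀ j, LipB (g j)) (u : ι → ℝ) :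
    LipB (fun z => ∑ j ∈ s, u j * g j z) := by
  classical
  induction s using Finset.induction_on with
  | empty => exact (LipB.zero : LipB (0 : X → ℝ))
  | insert a s ha ih =>
    have h := (LipB.smul (u a) (hg a)).add ih
    convert h using 1
    ext z
    simp [Finset.sum_insert ha]

theorem vcf_alg (u : Euc n) (c : Fin n → Fin n → ℝ) {η : ℝ}
    (hc : ∀ j k, |c j k - (if j = k then 2 else 0)| ≤ η) :
    ∑ j, ∑ k, u j * u k * c j k ≤ (2 + n * η) * ‖u‖ ^ 2 := by
  have h1 : ∀ j k, u j * u k * c j k ≤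
      (if j = k then 2 * u j ^ 2 else 0) + η / 2 * u j ^ 2 + η / 2 * u k ^ 2 := by
    intro j k
    have h := hc j k
    have hη : 0 ≤ η := (abs_nonneg _).trans h
    have h2 : u j * u k * (c j k - (if j = k then 2 else 0)) ≤ η / 2 * u j ^ 2 + η / 2 * u k ^ 2 := by
      refine (le_abs_self _).trans ?_
      rw [abs_mul, abs_mul]
      have h3 : |u j| * |u k| ≤ (u j ^ 2 + u k ^ 2) / 2 := by
        nlinarith [sq_nonneg (|u j| - |u k|), sq_abs (u j), sq_abs (u k)]
      calc |u j| * |u k| * |c j k - (if j = k then 2 else 0)|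
          ≤ (u j ^ 2 + u k ^ 2) / 2 * η := mul_le_mul h3 h (abs_nonneg _) (by positivity)
        _ = _ := by ring
    by_cases hjk : j = k
    · subst hjk
      simp only [if_true] at h2 ⊢
      nlinarith
    · simp only [hjk, if_false] at h2 ⊢
      nlinarith
  refine (Finset.sum_le_sum fun j _ => Finset.sum_le_sum fun k _ => h1 j k).trans (le_of_eq ?_)
  rw [EuclideanSpace.real_norm_sq_eq]
  simp only [Finset.sum_add_distrib, Finset.sum_ite_eq, Finset.mem_univ, if_true,
    Finset.sum_const, Finset.card_univ, Fintype.card_fin, nsmul_eq_mul, ← Finset.mul_sum]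
  ring

/-- Upper bound for the Gram matrix from the covariance. -/
theorem vc_lip (h : HP D κ n) {g : Fin n → X → ℝ} (hg : ∀ j, LipB (g j)) {t η : ℝ} (ht : 0 < t)
    {S : Set X} (hS : ∀ a ∈ S, ∀ j k, |D.Pk t (fun z => g j z * g k z) a -
      D.Pk t (g j) a * D.Pk t (g k) a - (if j = k then 2 else 0)| ≤ η) (u : Euc n) :
    ∀ᵐ a ∂μ, a ∈ S →
      t * D.G (lc u fun a => WithLp.toLp 2 fun j => D.Pk t (g j) a)
        (lc u fun a => WithLp.toLp 2 fun j => D.Pk t (g j) a) a ≤
      Real.exp (2 * κ * t) * (1 + n * η) * ‖u‖ ^ 2 := by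
  have hf := vcf_sum Finset.univ hg (fun j => u j)
  set f : X → ℝ := fun z => ∑ j, u j * g j z with hfd
  have h2 : MemLp f 2 μ := D.lipB_memLp hf
  have hi : ∀ j a, Integrable (fun y => D.p t a y * g j y) μ := fun j a =>
    h.pk_int' (D.lipB_int (hg j)) ht a |>.1
  have hi2 : ∀ j k a, Integrable (fun y => D.p t a y * (g j y * g k y)) μ := fun j k a =>
    h.pk_int' (D.lipB_int ((hg j).mul (hg k))) ht a |>.1
  have e1 : D.Pk t f = lc u fun a => WithLp.toLp 2 fun j => D.Pk t (g j) a := by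
    ext a
    simp only [DS.Pk, lc, hfd, Finset.mul_sum]
    rw [integral_finsetSum _ fun j _ => by
      simpa only [mul_left_comm] using (hi j a).const_mul (u j)]
    refine Finset.sum_congr rfl fun j _ => ?_
    rw [← integral_const_mul]
    simp only [mul_left_comm]
  have e2 : ∀ a, D.Pk t (fun y => f y ^ 2) a =
      ∑ j, ∑ k, u j * u k * D.Pk t (fun z => g j z * g k z) a := by
    intro a
    have e : ∀ y, D.p t a y * f y ^ 2 =
        ∑ j, ∑ k, u j * u k * (D.p t a y * (g j y * g k y)) := by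
      intro y
      simp only [hfd]
      rw [sq, Finset.sum_mul_sum]
      simp only [Finset.mul_sum]
      exact Finset.sum_congr rfl fun j _ => Finset.sum_congr rfl fun k _ => by ring
    simp only [DS.Pk, e]
    rw [integral_finsetSum _ fun j _ =>
      integrable_finsetSum _ fun k _ => (hi2 j k a).const_mul _]
    refine Finset.sum_congr rfl fun j _ => ?_
    rw [integral_finsetSum _ fun k _ => (hi2 j k a).const_mul _]
    exact Finset.sum_congr rfl fun k _ => integral_const_mul _ _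
  have hW : D.W (D.P t f) := D.W_of_mem ((h.flow.heat f h2).1 t ht).1
  filter_upwards [h.rp_pt f t h2 ht, DS.G_congr hW hW (h.P_rep h2 ht) (h.P_rep h2 ht)]
    with a ha hG haS
  rw [hG, e2, e1] at ha
  set γ := D.G (lc u fun a => WithLp.toLp 2 fun j => D.Pk t (g j) a)
    (lc u fun a => WithLp.toLp 2 fun j => D.Pk t (g j) a) a
  have h3 := vcf_alg u _ (hS a haS)
  have e3 : ∑ j, ∑ k, u j * u k * (D.Pk t (fun z => g j z * g k z) a -
      D.Pk t (g j) a * D.Pk t (g k) a) =
      ∑ j, ∑ k, u j * u k * D.Pk t (fun z => g j z * g k z) a -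
        (lc u fun a => WithLp.toLp 2 fun j => D.Pk t (g j) a) a ^ 2 := by
    simp only [lc, sq, Finset.sum_mul_sum, ← Finset.sum_sub_distrib]
    exact Finset.sum_congr rfl fun j _ => Finset.sum_congr rfl fun k _ => by ring
  have hη : 0 ≤ η := (abs_nonneg _).trans (hS a haS ⟨0, h.n_pos⟩ ⟨0, h.n_pos⟩)
  have h4 : 2 * t * Real.exp (-(2 * κ * t)) * γ ≤ 2 * ((1 + n * η) * ‖u‖ ^ 2) := by
    have : 0 ≤ n * η * ‖u‖ ^ 2 := by positivity
    rw [e3] at h3
    nlinarith
  have he := Real.exp_pos (2 * κ * t)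
  have h5 : t * γ = Real.exp (2 * κ * t) * (t * Real.exp (-(2 * κ * t)) * γ) := by
    rw [Real.exp_neg]
    field_simp
  rw [h5, mul_assoc (Real.exp _)]
  exact mul_le_mul_of_nonneg_left (by linarith) he.le

/-- Lower bound in the mean from the variance. -/
theorem vc_low (h : HP D κ n) (h0 : N0 D n) : ∃ C, 0 < C ∧ ∀ (x : X) (r η : ℝ) (f : X → ℝ),
    0 < r → κ * r ^ 2 ≤ 1 → 0 ≤ η → f ∈ D.V → Bdd μ f →
    (∀ᵐ a ∂μ, r ^ 2 * D.G f f a ≤ 1 + η) →
    (∀ a ∈ ball x r, 2 - η ≤ D.Pk (r ^ 2) (fun z => f z ^ 2) a - D.Pk (r ^ 2) f a ^ 2) →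
    ∫ a in ball x (10 * r), (1 - r ^ 2 * D.G f f a) ∂μ ≤ C * (η + κ * r ^ 2) * r ^ n := by
  obtain ⟨c, hc, h0⟩ := h0
  set c' := c * Real.exp (-(n + 61)) with hc'
  have hc'0 : 0 < c' := by positivity
  refine ⟨2 / c', by positivity, fun x r η f hr hκ hη hf _ hG hvar => ?_⟩
  have hκ0 := h.κ_nonneg
  have ht : 0 < r ^ 2 := by positivity
  set φ : X → ℝ := (ball x r).indicator fun _ => 1 with hφ
  have hφm : AEStronglyMeasurable φ μ := aestronglyMeasurable_const.indicator measurableSet_ball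
  have hφ1 : ∀ y, 0 ≤ φ y ∧ φ y ≤ 1 := fun y => by
    by_cases hy : y ∈ ball x r <;> simp [hφ, hy]
  have hφb : Bdd μ φ := ⟨1, ae_of_all _ fun y => abs_le.2 ⟨by linarith [(hφ1 y).1], (hφ1 y).2⟩⟩
  obtain ⟨hφ2, hφi⟩ := D.memLp_of_bdd hφm hφb (x := x) (R := r)
    (ae_of_all _ fun y hy => by simp [hφ, hy])
  set m := μ.real (ball x r) with hm
  have hm0 : 0 < m := h.real_pos x hr
  have hφI : ∫ y, φ y ∂μ = m := by
    rw [hφ, integral_indicator measurableSet_ball]
    simp [hm]
  have f2 := D.memLp f hf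
  have hW := D.W_of_mem hf
  have hGi : Integrable (D.G f f) μ := DS.G_int hf hf
  have hP1 := h.flow.markov φ (r ^ 2) 0 1 hφ2 le_rfl zero_le_one (ae_of_all _ hφ1)
  have hPb : Bdd μ (D.P (r ^ 2) φ) :=
    ⟨1, hP1.mono fun y hy => abs_le.2 ⟨by linarith [hy.1], hy.2⟩⟩
  have hPi := (h.flow.l1 φ (r ^ 2) hφ2 hφi).1
  have hPG := hPb.mul_integrable hPi.aestronglyMeasurable hGi
  have hsq : Integrable (fun y => f y ^ 2) μ := f2.integrable_sq
  have hlp := h.lp f hf φ (r ^ 2) hφ2 hφb (ae_of_all _ fun y => (hφ1 y).1) ht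
  rw [h.P_l1 φ _ _ hφ2 hφb hsq ht] at hlp
  have hA : Integrable (fun y => φ y * D.Pk (r ^ 2) (fun y => f y ^ 2) y) μ :=
    hφb.mul_integrable hφm (h.pk_l1 _ _ hsq ht).2
  have hB : Integrable (fun y => φ y * D.P (r ^ 2) f y ^ 2) μ :=
    hφb.mul_integrable hφm (h.flow.memLp f _ f2).integrable_sq
  have h1 : (2 - η) * m ≤ ∫ y, φ y * D.Pk (r ^ 2) (fun y => f y ^ 2) y ∂μ -
      ∫ y, φ y * D.P (r ^ 2) f y ^ 2 ∂μ := by
    rw [← integral_sub hA hB, ← hφI, ← integral_const_mul]
    refine integral_mono_ae (hφi.const_mul _) (hA.sub hB) ?_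
    filter_upwards [h.P_rep f2 ht] with y hy
    by_cases hb : y ∈ ball x r
    · simpa [hφ, hb, hy] using hvar y hb
    · simp [hφ, hb]
  set J := ∫ y, D.P (r ^ 2) φ y * D.G f f y ∂μ with hJ
  have h2 : (1 - 2 * (κ * r ^ 2) - η / 2) * m ≤ r ^ 2 * J := by
    have he := Real.exp_pos (2 * κ * r ^ 2)
    have h3 : Real.exp (-(2 * κ * r ^ 2)) * ((1 - η / 2) * m) ≤ r ^ 2 * J := by
      rw [Real.exp_neg, inv_mul_le_iff₀ he]
      linarith
    refine le_trans ?_ h3
    rw [← mul_assoc (Real.exp _)]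
    refine mul_le_mul_of_nonneg_right ?_ hm0.le
    have ha : 0 ≤ κ * r ^ 2 := by positivity
    have h4 := Real.add_one_le_exp (-(2 * κ * r ^ 2))
    have h5 : Real.exp (-(2 * κ * r ^ 2)) ≤ 1 := Real.exp_le_one_iff.2 (by linarith)
    nlinarith
  have hH : Integrable (fun y => D.P (r ^ 2) φ y * (1 + η - r ^ 2 * D.G f f y)) μ := by
    refine ((hPi.const_mul (1 + η)).sub (hPG.const_mul (r ^ 2))).congr (ae_of_all _ fun y => ?_)
    simp only [Pi.sub_apply]
    ring
  have h6 : ∫ y, D.P (r ^ 2) φ y * (1 + η - r ^ 2 * D.G f f y) ∂μ = (1 + η) * m - r ^ 2 * J := by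
    rw [← hφI, ← h.cons φ (r ^ 2) hφ2 hφi, hJ, ← integral_const_mul, ← integral_const_mul,
      ← integral_sub (hPi.const_mul _) (hPG.const_mul _)]
    exact integral_congr_ae (ae_of_all _ fun y => by ring)
  have hrn : 0 < r ^ n := by positivity
  have h7 : ∀ a ∈ ball x (10 * r), c' / r ^ n * m ≤ D.Pk (r ^ 2) φ a := by
    intro a ha
    rw [← hφI, ← integral_const_mul]
    refine integral_mono (hφi.const_mul _) (h.pk_int' hφi ht a).1 fun y => ?_
    by_cases hb : y ∈ ball x r
    · simp only [hφ, hb, indicator_of_mem, mul_one]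
      rw [div_le_iff₀' hrn]
      refine le_trans ?_ (h.lower r a y hr)
      have hd : dist a y ≤ 11 * r := by
        have := dist_triangle_right a y x
        rw [mem_ball] at ha hb
        linarith
      have hd2 : dist a y ^ 2 ≤ 121 * r ^ 2 := by nlinarith [dist_nonneg (x := a) (y := y)]
      refine mul_le_mul (h0 a) (Real.exp_le_exp.2 (neg_le_neg ?_)) (Real.exp_pos _).le
        (hc.le.trans (h0 a))
      have h8 : (1 + κ * r ^ 2) * dist a y ^ 2 / (4 * r ^ 2) ≤ 61 := by
        rw [div_le_iff₀ (by positivity)]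
        have : (1 + κ * r ^ 2) * dist a y ^ 2 ≤ 2 * (121 * r ^ 2) :=
          mul_le_mul (by linarith) hd2 (by positivity) (by norm_num)
        linarith
      have h9 : n * κ * r ^ 2 ≤ n := by
        rw [mul_assoc]
        exact mul_le_of_le_one_right (by positivity) hκ
      linarith
    · simp [hφ, hb]
  have hfin := D.fin x (10 * r)
  have hI : IntegrableOn (fun a => 1 - r ^ 2 * D.G f f a) (ball x (10 * r)) μ :=
    (integrableOn_const hfin.ne).sub (hGi.const_mul _).integrableOn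
  have hK : 0 < c' / r ^ n * m := by positivity
  have h10 : c' / r ^ n * m * ∫ a in ball x (10 * r), (1 - r ^ 2 * D.G f f a) ∂μ ≤
      (1 + η) * m - r ^ 2 * J := by
    rw [← h6, ← integral_const_mul, ← integral_indicator measurableSet_ball]
    refine integral_mono_ae ((integrable_indicator_iff measurableSet_ball).2 (hI.const_mul _))
      hH ?_
    filter_upwards [h.P_rep hφ2 ht, hG, hP1] with a ha hGa hPa
    by_cases hb : a ∈ ball x (10 * r)
    · simp only [hb, indicator_of_mem]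
      calc c' / r ^ n * m * (1 - r ^ 2 * D.G f f a)
          ≤ c' / r ^ n * m * (1 + η - r ^ 2 * D.G f f a) :=
            mul_le_mul_of_nonneg_left (by linarith) hK.le
        _ ≤ _ := mul_le_mul_of_nonneg_right (ha ▸ h7 a hb) (by linarith)
    · simp only [hb, not_false_eq_true, indicator_of_notMem]
      exact mul_nonneg hPa.1 (by linarith)
  have h11 : (1 + η) * m - r ^ 2 * J ≤ c' / r ^ n * m * (2 / c' * (η + κ * r ^ 2) * r ^ n) := by
    have e : c' / r ^ n * m * (2 / c' * (η + κ * r ^ 2) * r ^ n) = 2 * (η + κ * r ^ 2) * m := by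
      field_simp
    rw [e]
    nlinarith [mul_nonneg hη hm0.le]
  exact le_of_mul_le_mul_left (h10.trans h11) hK

end RC
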