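import Pool.Agent.P.MP_6472e5_gt.VcE
import Pool.Agent.P.MP_6472e5_gt.Ca0

/-! Truncated coordinates. -/

set_option autoImplicit false
set_option linter.unusedSectionVars false

noncomputable section

namespace RC

open MeasureTheory Set Filter Topology Metric

variable {n : ℕ}

theorem vcq_int : Integrable fun w : Euc n => Real.exp (-(‖w‖ ^ 2 / 16)) * (1 + ‖w‖ ^ 2) := by
  have h := (QE_integrable (n := n) (h := fun w => 1 + 4 * ‖w‖ ^ 2) (C := 4)
    (Continuous.aestronglyMeasurable (by fun_prop)) (fun w => by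
      rw [abs_of_nonneg (by positivity)]
      linarith) 0).comp_smul (R := (1 / 2 : ℝ)) (by norm_num)
  refine h.congr (Eventually.of_forall fun w => ?_)
  simp only [sub_zero, norm_smul, Real.norm_eq_abs]
  rw [abs_of_pos (by norm_num)]
  congr 2 <;> ring

theorem vcq_abs_int {f g : Euc n → ℝ} (hg : Integrable g) (h : ∀ᵐ w, ‖f w‖ ≤ g w) :
    |∫ w, f w| ≤ ∫ w, g w := by
  rw [← Real.norm_eq_abs]
  exact norm_integral_le_of_norm_le hg h

/-- Dominated convergence, uniformly on balls. -/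
theorem QE_unif {h : ℕ → Euc n → ℝ} {h' : Euc n → ℝ} (hm : ∀ k, AEStronglyMeasurable (h k) volume)
    {C : ℝ} (hC : ∀ k w, |h k w| ≤ C * (1 + ‖w‖ ^ 2))
    (hl : ∀ w, Tendsto (fun k => h k w) atTop (𝓝 (h' w))) (R : ℝ) {ε : ℝ} (hε : 0 < ε) :
    ∀ᶠ k in atTop, ∀ v ∈ ball (0 : Euc n) R, |QE n (h k) v - QE n h' v| ≤ ε := by
  have hm' : AEStronglyMeasurable h' volume :=
    aestronglyMeasurable_of_tendsto_ae atTop hm (Eventually.of_forall hl)
  have hC' : ∀ w, |h' w| ≤ C * (1 + ‖w‖ ^ 2) := fun w => le_of_tendsto' (hl w).abs fun k => hC k w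
  have h1 : ∀ k, AEStronglyMeasurable
      (fun w : Euc n => Real.exp (-(‖w‖ ^ 2 / 16)) * |h k w - h' w|) volume := fun k =>
    (Continuous.aestronglyMeasurable (by fun_prop)).mul ((hm k).sub hm').norm
  have h2 : ∀ k, ∀ᵐ w : Euc n, ‖Real.exp (-(‖w‖ ^ 2 / 16)) * |h k w - h' w|‖ ≤
      2 * C * (Real.exp (-(‖w‖ ^ 2 / 16)) * (1 + ‖w‖ ^ 2)) := fun k =>
    Eventually.of_forall fun w => by
      rw [Real.norm_of_nonneg (by positivity), mul_left_comm]
      refine mul_le_mul_of_nonneg_left ((abs_sub _ _).trans ?_) (Real.exp_pos _).le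
      linarith [hC k w, hC' w]
  have h3 := tendsto_integral_of_dominated_convergence (f := fun _ => 0) _ h1
    (vcq_int.const_mul (2 * C)) h2 (Eventually.of_forall fun w => by
      simpa using ((hl w).sub_const (h' w)).abs.const_mul (Real.exp (-(‖w‖ ^ 2 / 16))))
  have h4 := h3.const_mul (θ n * Real.exp (R ^ 2 / 4))
  simp only [integral_zero, mul_zero] at h4
  filter_upwards [h4.eventually (Iic_mem_nhds hε)] with k hk v hv
  refine le_trans ?_ hk
  rw [QE, QE, ← mul_sub, ← integral_sub (QE_integrable (hm k) (hC k) v) (QE_integrable hm' hC' v),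
    abs_mul, abs_of_pos (θ_pos n), mul_assoc, ← integral_const_mul]
  refine mul_le_mul_of_nonneg_left (vcq_abs_int
    (((vcq_int.const_mul (2 * C)).mono' (h1 k) (h2 k)).const_mul _)
    (Eventually.of_forall fun w => ?_)) (θ_pos n).le
  rw [← mul_sub, norm_mul, Real.norm_of_nonneg (Real.exp_pos _).le, ← mul_assoc, ← Real.exp_add]
  refine mul_le_mul_of_nonneg_right (Real.exp_le_exp.2 ?_) (abs_nonneg _)
  have a1 : ‖w‖ ≤ ‖w - v‖ + ‖v‖ := norm_le_norm_sub_add w v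
  have a2 : ‖v‖ < R := mem_ball_zero_iff.1 hv
  have a3 : ‖w‖ ^ 2 ≤ (‖w - v‖ + ‖v‖) ^ 2 := pow_le_pow_left₀ (norm_nonneg _) a1 2
  have a4 : ‖v‖ ^ 2 ≤ R ^ 2 := pow_le_pow_left₀ (norm_nonneg _) a2.le 2
  nlinarith [sq_nonneg (‖w - v‖ - ‖v‖), sq_nonneg ‖w‖]

theorem vcq_le (w : Euc n) : ‖w‖ ≤ 1 + ‖w‖ ^ 2 := by nlinarith [sq_nonneg (‖w‖ - 1)]

theorem vcq_shift (h : Euc n → ℝ) (v : Euc n) : QE n h v = QE n (fun w => h (w + v)) 0 := by
  rw [QE, QE, ← integral_add_right_eq_self _ v]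
  simp only [add_sub_cancel_right, sub_zero]

theorem vcq_abs {τ : Euc n → ℝ} (h : LipschitzWith 1 τ) (w v : Euc n) : |τ w - τ v| ≤ ‖w - v‖ := by
  simpa [dist_eq_norm] using h.dist_le_mul w v

theorem vcq_grow {τ : Euc n → ℝ} (h : LipschitzWith 1 τ) (v w : Euc n) :
    |τ (w + v)| ≤ (|τ v| + 1) * (1 + ‖w‖ ^ 2) := by
  have h1 := vcq_abs h (w + v) v
  rw [add_sub_cancel_right] at h1
  have h2 := abs_sub_abs_le_abs_sub (τ (w + v)) (τ v)
  nlinarith [vcq_le w, mul_nonneg (abs_nonneg (τ v)) (sq_nonneg ‖w‖)]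

theorem vcq_lip {τ : Euc n → ℝ} (h : LipschitzWith 1 τ) : LipschitzWith 1 (QE n τ) := by
  refine LipschitzWith.of_dist_le_mul fun v v' => ?_
  have h1 : ∀ v, Integrable fun w : Euc n => Real.exp (-(‖w - 0‖ ^ 2 / 4)) * τ (w + v) := fun v =>
    QE_integrable (h.continuous.comp (by fun_prop)).aestronglyMeasurable (vcq_grow h v) 0
  have h2 := QE_integrable (n := n) (h := fun _ => 1) (C := 1) aestronglyMeasurable_const
    (fun w => by simp) 0
  have h3 := QE_one (0 : Euc n)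
  rw [vcq_shift τ v, vcq_shift τ v', Real.dist_eq, QE, QE, ← mul_sub, ← integral_sub (h1 v) (h1 v'),
    abs_mul, abs_of_pos (θ_pos n), NNReal.coe_one, ← h3, QE, mul_assoc, ← integral_mul_const]
  refine mul_le_mul_of_nonneg_left (vcq_abs_int (h2.mul_const _)
    (Eventually.of_forall fun w => ?_)) (θ_pos n).le
  rw [← mul_sub, norm_mul, Real.norm_of_nonneg (Real.exp_pos _).le, mul_one]
  refine mul_le_mul_of_nonneg_left ?_ (Real.exp_pos _).le
  simpa [dist_eq_norm] using vcq_abs h (w + v) (w + v')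

theorem vcq_zero {τ : Euc n → ℝ} (h : ∀ w, |τ w| ≤ ‖w‖) : |QE n τ 0| ≤ QE n (fun w => ‖w‖) 0 := by
  rw [QE, QE, abs_mul, abs_of_pos (θ_pos n)]
  refine mul_le_mul_of_nonneg_left (vcq_abs_int (QE_integrable (C := 1)
    continuous_norm.aestronglyMeasurable (fun w => by simpa using vcq_le w) 0)
    (Eventually.of_forall fun w => ?_)) (θ_pos n).le
  rw [norm_mul, Real.norm_of_nonneg (Real.exp_pos _).le]
  exact mul_le_mul_of_nonneg_left (h w) (Real.exp_pos _).le

theorem vcq_mul {a b u v M ε : ℝ} (hε : ε ≤ 1) (ha : |a - u| ≤ ε) (hb : |b - v| ≤ ε)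
    (hu : |u| ≤ M) (hv : |v| ≤ M) : |a * b - u * v| ≤ ε * (2 * M + 1) := by
  have h0 := (abs_nonneg _).trans ha
  have h1 : |b| ≤ M + 1 := by linarith [abs_sub_abs_le_abs_sub b v]
  calc |a * b - u * v| = |(a - u) * b + u * (b - v)| := by ring_nf
    _ ≤ |a - u| * |b| + |u| * |b - v| := by
      rw [← abs_mul, ← abs_mul]
      exact abs_add_le _ _
    _ ≤ ε * (M + 1) + M * ε := add_le_add (mul_le_mul ha h1 (abs_nonneg _) h0)
      (mul_le_mul hu hb (abs_nonneg _) ((abs_nonneg _).trans hu))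
    _ = ε * (2 * M + 1) := by ring

theorem exists_trunc (R : ℝ) {η : ℝ} (hη : 0 < η) : ∃ τ : Fin n → Euc n → ℝ,
    (∀ j, LipB (τ j) ∧ LipschitzWith 1 (τ j) ∧ Continuous (QE n (τ j))) ∧
    ∀ v ∈ ball (0 : Euc n) R, (∀ j, |QE n (τ j) v - v j| ≤ η) ∧
      (∀ j k, |QE n (fun w => τ j w * τ k w) v - QE n (τ j) v * QE n (τ k) v -
        (if j = k then 2 else 0)| ≤ η) ∧
      ∀ j, 2 - η ≤ QE n (fun w => QE n (τ j) w ^ 2) v - QE n (QE n (τ j)) v ^ 2 := by
  have hc : ∀ (w : Euc n) j, |w j| ≤ ‖w‖ := fun w j => by simpa using PiLp.norm_apply_le w j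
  have h1 : ∀ (k : ℕ) (j : Fin n), ∃ g : Euc n → ℝ, LipB g ∧ LipschitzWith 1 g ∧
      EqOn g (fun w => w j) (ball 0 (k + 1)) := fun k j => by
    obtain ⟨g, a1, a2, a3, -⟩ := exists_lipB_eqOn (f := fun w : Euc n => w j) (L := 1) (x := 0)
      (r := k + 1) one_pos (by positivity) (LipschitzWith.lipschitzOnWith
        (LipschitzWith.of_dist_le_mul fun a b => by simpa using PiLp.dist_apply_le a b j))
    exact ⟨g, a1, a2, a3⟩
  choose τ t1 t2 t3 using h1
  have t4 : ∀ k j w, |τ k j w| ≤ ‖w‖ := fun k j w => by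
    have := vcq_abs (t2 k j) w 0
    rw [t3 k j (mem_ball_self (by positivity))] at this
    simpa using this
  have t5 : ∀ j w, Tendsto (fun k => τ k j w) atTop (𝓝 (w j)) := fun j w =>
    tendsto_const_nhds.congr' (by
      filter_upwards [tendsto_natCast_atTop_atTop.eventually_ge_atTop ‖w‖] with k hk
      exact (t3 k j (mem_ball_zero_iff.2 (by linarith))).symm)
  have m1 : ∀ j k, AEStronglyMeasurable (τ k j) volume := fun j k =>
    (t2 k j).continuous.aestronglyMeasurable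
  have m2 : ∀ j k, AEStronglyMeasurable (QE n (τ k j)) volume := fun j k =>
    (vcq_lip (t2 k j)).continuous.aestronglyMeasurable
  have u1 : ∀ j (R ε : ℝ), 0 < ε → ∀ᶠ k in atTop, ∀ v ∈ ball (0 : Euc n) R,
      |QE n (τ k j) v - v j| ≤ ε := fun j R ε hε => by
    simpa only [QE_coord] using QE_unif (C := 1) (m1 j)
      (fun k w => by linarith [t4 k j w, vcq_le w]) (t5 j) R hε
  have t6 : ∀ j w, Tendsto (fun k => QE n (τ k j) w) atTop (𝓝 (w j)) := fun j w =>
    Metric.tendsto_nhds.2 fun ε hε => (u1 j (‖w‖ + 1) _ (half_pos hε)).mono fun k hk =>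
      (hk w (mem_ball_zero_iff.2 (by linarith))).trans_lt (half_lt_self hε)
  obtain ⟨C, hC, t7⟩ : ∃ C, 0 ≤ C ∧ ∀ k j w, |QE n (τ k j) w| ≤ C + ‖w‖ := by
    refine ⟨|QE n (fun w => ‖w‖) 0|, abs_nonneg _, fun k j w => ?_⟩
    have a1 := vcq_abs (vcq_lip (t2 k j)) w 0
    rw [sub_zero] at a1
    linarith [abs_sub_abs_le_abs_sub (QE n (τ k j) w) (QE n (τ k j) 0), vcq_zero (t4 k j),
      le_abs_self (QE n (fun w => ‖w‖) 0)]
  obtain ⟨ε, hε, e1, e2⟩ : ∃ ε, 0 < ε ∧ ε ≤ 1 ∧ ε * (2 * |R| + 2) ≤ η :=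
    ⟨min 1 (η / (2 * |R| + 2)), by positivity, min_le_left _ _,
      (le_div_iff₀ (by positivity)).1 (min_le_right _ _)⟩
  have u2 : ∀ j j', ∀ᶠ k in atTop, ∀ v ∈ ball (0 : Euc n) R,
      |QE n (fun w => τ k j w * τ k j' w) v - (v j * v j' + if j = j' then 2 else 0)| ≤ ε :=
    fun j j' => by
      simpa only [QE_coord_mul] using QE_unif (C := 1) (h := fun k w => τ k j w * τ k j' w)
        (fun k => (m1 j k).mul (m1 j' k)) (fun k w => by
          have := mul_le_mul (t4 k j w) (t4 k j' w) (abs_nonneg _) (norm_nonneg _)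
          rw [abs_mul]
          linarith) (fun w => (t5 j w).mul (t5 j' w)) R hε
  have u3 : ∀ j, ∀ᶠ k in atTop, ∀ v ∈ ball (0 : Euc n) R, |QE n (QE n (τ k j)) v - v j| ≤ ε :=
    fun j => by
      simpa only [QE_coord] using QE_unif (C := C + 1) (m2 j) (fun k w => by
        nlinarith [t7 k j w, vcq_le w, mul_nonneg hC (sq_nonneg ‖w‖)]) (t6 j) R hε
  have u4 : ∀ j, ∀ᶠ k in atTop, ∀ v ∈ ball (0 : Euc n) R,
      |QE n (fun w => QE n (τ k j) w ^ 2) v - (v j * v j + 2)| ≤ ε := fun j => by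
    simpa only [QE_coord_mul, if_true] using QE_unif (C := 2 * C ^ 2 + 2)
      (h := fun k w => QE n (τ k j) w ^ 2) (h' := fun w => w j * w j) (fun k => (m2 j k).pow 2)
      (fun k w => by
        have := pow_le_pow_left₀ (abs_nonneg _) (t7 k j w) 2
        rw [abs_pow]
        nlinarith [sq_nonneg (C - ‖w‖), mul_nonneg (sq_nonneg C) (sq_nonneg ‖w‖)])
      (fun w => by simpa only [sq] using (t6 j w).mul (t6 j w)) R hε
  obtain ⟨k, a1, a2, a3, a4⟩ := ((eventually_all.2 fun j => u1 j R ε hε).and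
    ((eventually_all.2 fun j => eventually_all.2 (u2 j)).and
      ((eventually_all.2 u3).and (eventually_all.2 u4)))).exists
  refine ⟨τ k, fun j => ⟨t1 k j, t2 k j, (vcq_lip (t2 k j)).continuous⟩, fun v hv => ?_⟩
  have hM : ∀ j, |v j| ≤ |R| := fun j =>
    (hc v j).trans ((mem_ball_zero_iff.1 hv).le.trans (le_abs_self R))
  refine ⟨fun j => (a1 j v hv).trans (by nlinarith [abs_nonneg R]), fun j j' => ?_, fun j => ?_⟩
  · have b1 := abs_le.1 (vcq_mul e1 (a1 j v hv) (a1 j' v hv) (hM j) (hM j'))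
    have b2 := abs_le.1 (a2 j j' v hv)
    exact abs_le.2 ⟨by linarith, by linarith⟩
  · have b1 := abs_le.1 (vcq_mul e1 (a3 j v hv) (a3 j v hv) (hM j) (hM j))
    have b2 := abs_le.1 (a4 j v hv)
    rw [sq (QE n (QE n (τ k j)) v)]
    linarith

end RC
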