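import Pool.Agent.P.MP_6472e5_gt.TbA
import Pool.Agent.P.MP_6472e5_gt.VcF
import Pool.Agent.P.MP_6472e5_gt.VcQ
import Pool.Agent.P.MP_6472e5_gt.BlB

/-! Almost splitting maps near a Euclidean blow-up. -/

set_option autoImplicit false
set_option linter.unusedSectionVars false

noncomputable section

namespace RC

open MeasureTheory Set Filter Topology Metric

variable {X : Type} [MetricSpace X] [ProperSpace X] [MeasurableSpace X] [BorelSpace X]
  {μ : Measure X} {D : DS μ} {κ : ℝ} {n : ℕ}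

/-- The heat flow of a model all of whose points are centres. -/
theorem pk_euc (h : Model D n) {e : X} (A : Ax D n e n) (hc : ∀ z, D.Ctr n z) {f : Euc n → ℝ}
    (hf : Continuous f) (z : X) : D.Pk 1 (fun w => f (A.a w)) z = QE n f (A.a z) := by
  obtain ⟨i1, -, -⟩ := A.isometry_a hc
  have h1 : D.Θ n z 1 = D.Θ n e 1 :=
    le_antisymm (h.cone.top e (hc e) z 1 one_pos) (h.cone.top z (hc z) e 1 one_pos)
  have h2 : 0 < D.Θ n e 1 := h.toHP.Θ_pos e one_pos
  have h3 : ∀ w, D.p 1 z w * f (A.a w) =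
      D.Θ n e 1 * (Real.exp (-(‖A.a w - A.a z‖ ^ 2 / 4)) * f (A.a w)) := fun w => by
    have := h.cone.gauss z (hc z) 1 w one_pos
    simp only [one_pow, one_mul, mul_one] at this
    rw [this, h1, ← i1.dist_eq, dist_comm, dist_eq_norm, mul_assoc]
  have h4 := integral_map (μ := μ) i1.continuous.measurable.aemeasurable
    (f := fun w => Real.exp (-(‖w - A.a z‖ ^ 2 / 4)) * f w)
    (Continuous.aestronglyMeasurable (by fun_prop))
  rw [(h.cone.euc e n A hc).2, integral_smul_measure,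
    ENNReal.toReal_ofReal (div_pos (θ_pos n) h2).le, smul_eq_mul] at h4
  simp only [DS.Pk, h3]
  rw [integral_const_mul, ← h4, QE]
  field_simp

theorem vcb_cont (h : Model D n) {e : X} (A : Ax D n e n) (hc : ∀ z, D.Ctr n z) {f : Euc n → ℝ}
    (hf : Continuous f) {M : ℝ} (hM : ∀ z, |f (A.a z)| ≤ M) :
    Continuous (fun z => QE n f (A.a z)) ∧ ∀ z, |QE n f (A.a z)| ≤ M := by
  have h1 := (hf.comp A.lip_a.continuous).aestronglyMeasurable (μ := μ)
  simp only [← pk_euc h A hc hf]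
  exact ⟨h.toHP.pk_cont h1 ⟨M, Eventually.of_forall hM⟩ one_pos,
    (h.pk_bdd _ 1 M h1 (Eventually.of_forall hM) one_pos).1⟩

theorem vcb_pk (h : HP D κ n) {U : Ultrafilter ℕ} {y : ℕ → X} {r : ℕ → ℝ}
    {B : Blow D n U y r} (A : Ax B.E n B.e n) (hc : ∀ z, B.E.Ctr n z) {g : ℕ → X → ℝ}
    {f : Euc n → ℝ} (hg : B.Cv g fun z => f (A.a z)) (hf : Continuous f)
    (hm : ∀ i, Continuous (g i)) {M : ℝ} (hM : ∀ i a, |g i a| ≤ M) :
    B.Cv (fun i => D.Pk (r i ^ 2) (g i)) fun z => QE n f (A.a z) := by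
  have := hg.pk h (hf.comp A.lip_a.continuous) (fun i => (hm i).aestronglyMeasurable)
    (Eventually.of_forall hM) one_pos
  simp only [mul_one] at this
  simp only [← pk_euc B.model A hc hf]
  exact this

theorem vcb_norm {u v : Euc n} {δ : ℝ} (hδ : 0 ≤ δ) (h : ∀ j, |u j - v j| ≤ δ) :
    |‖u‖ - ‖v‖| ≤ (n + 1) * δ := by
  refine (abs_norm_sub_norm_le u v).trans (le_of_sq_le_sq ?_ (by positivity))
  have h1 : ∑ j, (u - v) j ^ 2 ≤ ∑ _j : Fin n, δ ^ 2 :=
    Finset.sum_le_sum fun j _ => sq_le_sq' (abs_le.1 (h j)).1 (abs_le.1 (h j)).2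
  rw [EuclideanSpace.real_norm_sq_eq, mul_pow]
  rw [Finset.sum_const, Finset.card_univ, Fintype.card_fin, nsmul_eq_mul] at h1
  have h2 : (0 : ℝ) ≤ n := Nat.cast_nonneg n
  exact h1.trans (mul_le_mul_of_nonneg_right (by nlinarith) (sq_nonneg δ))

theorem exists_good (h : HP D κ n) (h0 : N0 D n) {U : Ultrafilter ℕ} {y : ℕ → X} {r : ℕ → ℝ}
    (B : Blow D n U y r) (A : Ax B.E n B.e n) (hc : ∀ z, B.E.Ctr n z) {η : ℝ} (hη : 0 < η) :
    ∀ᶠ i in (U : Filter ℕ), ∃ F LF, Good D n (y i) (r i) η F LF := by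
  obtain ⟨C, hC, hlow⟩ := vc_low h h0
  obtain ⟨i1, -, i3⟩ := A.isometry_a hc
  have hn : (0 : ℝ) ≤ n := Nat.cast_nonneg n
  have hκ := h.κ_nonneg
  obtain ⟨δ, hδ, hδ1, hδ2⟩ : ∃ δ : ℝ, 0 < δ ∧ δ ≤ 1 ∧ (4 * n + 3 + 3 * C) * δ ≤ η :=
    ⟨min 1 (η / (4 * n + 3 + 3 * C)), lt_min one_pos (by positivity), min_le_left _ _,
      (le_div_iff₀' (by positivity)).1 (min_le_right _ _)⟩
  have hnδ : 0 ≤ n * δ := by positivity
  have hCδ : 0 ≤ C * δ := by positivity
  obtain ⟨τ, t1, t2⟩ := exists_trunc (n := n) 12 hδ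
  have tc : ∀ j, Continuous (τ j) := fun j => (t1 j).1.continuous
  have hg : ∀ j, ∃ (g : ℕ → X → ℝ) (M : ℝ), (∀ i, LipB (g i)) ∧
      (∀ i x x', |g i x - g i x'| ≤ (r i)⁻¹ * dist x x') ∧ (∀ i x, |g i x| ≤ M) ∧
      (∀ v, |τ j v| ≤ M) ∧ B.Cv g fun z => τ j (A.a z) := by
    intro j
    obtain ⟨R, -, hR⟩ := (t1 j).1.exists_ball 0
    obtain ⟨M, hM⟩ := (t1 j).1.bound
    have hM0 : 0 ≤ M := (abs_nonneg _).trans (hM 0)
    obtain ⟨g, g1, g2, g3, -, g4⟩ := B.exists_liftB (f := fun z => τ j (A.a z)) (R := R) one_pos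
      (by simpa [Function.comp_def] using (t1 j).2.1.comp A.lip_a)
      (fun z hz => hR _ (by rwa [← i3, mem_ball, i1.dist_eq])) (fun z => abs_le.1 (hM _))
      (neg_nonpos.2 hM0) hM0
    exact ⟨g, M, g1, fun i x x' => (g2 i x x').trans_eq (by simp [div_eq_inv_mul]),
      fun i x => abs_le.2 (g3 i x), hM, g4⟩
  choose g M g1 g2 g3 g4 g5 using hg
  have hr := B.seq.pos
  have hr2 : ∀ i, 0 < r i ^ 2 := fun i => pow_pos (hr i) 2
  have gm : ∀ j i, AEStronglyMeasurable (g j i) μ :=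
    fun j i => (g1 j i).continuous.aestronglyMeasurable
  have pc : ∀ j i, Continuous (D.Pk (r i ^ 2) (g j i)) :=
    fun j i => h.pk_cont (gm j i) (g1 j i).bdd (hr2 i)
  have pb : ∀ j i a, |D.Pk (r i ^ 2) (g j i) a| ≤ M j :=
    fun j i => (h.pk_bdd _ _ _ (gm j i) (Eventually.of_forall (g3 j i)) (hr2 i)).1
  have q1 := fun j => vcb_cont B.model A hc (tc j) fun z => g4 j (A.a z)
  have q2 := fun j => vcb_cont B.model A hc (t1 j).2.2 (q1 j).2
  have c1 := fun j => vcb_pk h A hc (g5 j) (tc j) (fun i => (g1 j i).continuous) (g3 j)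
  have c2 := fun j k => vcb_pk h A hc (f := fun w => τ j w * τ k w)
    ((g5 j).mul (g5 k) ((tc j).comp i1.continuous) ((tc k).comp i1.continuous))
    ((tc j).mul (tc k)) (fun i => (g1 j i).continuous.mul (g1 k i).continuous) (M := M j * M k)
    fun i a => by
      rw [abs_mul]
      exact mul_le_mul (g3 j i a) (g3 k i a) (abs_nonneg _) ((abs_nonneg _).trans (g3 j i a))
  have c3 := fun j k => (c1 j).mul (c1 k) (q1 j).1 (q1 k).1
  have c4 := fun j => (vcb_pk h A hc (c1 j) (t1 j).2.2 (pc j) (pb j)).comp (q2 j).1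
    (continuous_pow 2)
  have c5 := fun j => vcb_pk h A hc (f := fun w => QE n (τ j) w ^ 2)
    ((c1 j).comp (q1 j).1 (continuous_pow 2)) ((t1 j).2.2.pow 2) (fun i => (pc j i).pow 2)
    (M := M j ^ 2) fun i a => by
      rw [abs_pow]
      exact pow_le_pow_left₀ (abs_nonneg _) (pb j i a) 2
  have l1 : Tendsto (fun i => κ * r i ^ 2) U (𝓝 0) := by
    simpa using (B.seq.lim.pow 2).const_mul κ
  have l2 : Tendsto (fun i => Real.exp (2 * κ * r i ^ 2)) U (𝓝 1) := by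
    simpa [mul_assoc] using (l1.const_mul 2).rexp
  filter_upwards [l1.eventually (ge_mem_nhds hδ), l2.eventually (ge_mem_nhds
    (lt_add_of_pos_right 1 hδ)), B.app 10 δ (by norm_num) hδ,
    eventually_all.2 fun j => c1 j 10 δ hδ,
    eventually_all.2 fun j => eventually_all.2 fun k => c2 j k 10 _ (half_pos hδ),
    eventually_all.2 fun j => eventually_all.2 fun k => c3 j k 10 _ (half_pos hδ),
    eventually_all.2 fun j => c4 j 10 _ (half_pos hδ),
    eventually_all.2 fun j => c5 j 10 _ (half_pos hδ)] with i e1 e2 e3 e4 e5 e6 e7 e8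
  have hri := hr i
  have f1 : ∀ a ∈ ball (y i) (10 * r i), |‖A.a (B.q i a)‖ - dist a (y i) / r i| ≤ δ := by
    intro a ha
    rw [← dist_zero_right, ← i3, i1.dist_eq]
    exact e3.dist_base ha
  have f2 : ∀ a ∈ ball (y i) (10 * r i), A.a (B.q i a) ∈ ball (0 : Euc n) 12 := by
    intro a ha
    have := (div_lt_iff₀ hri).2 (mem_ball.1 ha)
    rw [mem_ball_zero_iff]
    linarith [(abs_le.1 (f1 a ha)).2]
  have m2 := fun j => D.lipB_memLp (g1 j i)
  have tb := fun j => h.tb _ _ (m2 j) (g1 j i).bdd (hr2 i)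
  have rp := fun j => h.P_rep (m2 j) (hr2 i)
  have rl := fun j => h.L_rep _ _ (m2 j) (hr2 i)
  have gl : ∀ j, ∀ᵐ a ∂μ, r i ^ 2 * D.G (D.Pk (r i ^ 2) (g j i)) (D.Pk (r i ^ 2) (g j i)) a +
      2 / n * (r i ^ 2 * D.Lk (r i ^ 2) (g j i) a) ^ 2 ≤ 1 + δ := by
    intro j
    have a1 := DS.G_le_lip (D.W_of_mem (D.lip _ (g1 j i))) isOpen_univ
      (fun x _ x' _ => g2 j i x x') (by positivity) (Eventually.of_forall fun _ _ => rfl)
    filter_upwards [h.G_le' _ (D.lip _ (g1 j i)) _ _ (a1.mono fun x hx => hx (mem_univ x)) (hr2 i),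
      DS.G_congr (tb j).W (tb j).W (rp j) (rp j), rl j] with a b1 b2 b3
    have b4 := mul_le_mul_of_nonneg_left b1 (hr2 i).le
    have b5 : r i ^ 2 * (Real.exp (2 * κ * r i ^ 2) * (r i)⁻¹ ^ 2) =
        Real.exp (2 * κ * r i ^ 2) := by field_simp
    rw [b2, b3, b5] at b4
    refine le_trans (le_of_eq ?_) (b4.trans e2)
    ring
  refine ⟨fun a => WithLp.toLp 2 fun j => D.Pk (r i ^ 2) (g j i) a,
    fun a => WithLp.toLp 2 fun j => D.Lk (r i ^ 2) (g j i) a,
    (PiLp.continuous_toLp 2 _).comp (continuous_pi fun j => pc j i),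
    fun j => (tb j).congr (rp j) (rl j), fun a ha => ?_,
    fun j => (gl j).mono fun a ha => ha.trans (by linarith), fun u => ?_, fun j => ?_⟩
  · have a1 := vcb_norm (u := WithLp.toLp 2 fun j => D.Pk (r i ^ 2) (g j i) a)
      (v := A.a (B.q i a)) (δ := δ + δ) (by positivity) fun j =>
        (abs_sub_le _ _ _).trans (add_le_add (e4 j a ha) ((t2 _ (f2 a ha)).1 j))
    linarith [abs_sub_le ‖(WithLp.toLp 2 fun j => D.Pk (r i ^ 2) (g j i) a : Euc n)‖
      ‖A.a (B.q i a)‖ (dist a (y i) / r i), f1 a ha]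
  · refine (vc_lip h (fun j => g1 j i) (η := 2 * δ) (hr2 i) (S := ball (y i) (10 * r i))
      (fun a ha j k => ?_) u).mono fun a ha h1 => (ha h1).trans
      (mul_le_mul_of_nonneg_right ?_ (sq_nonneg _))
    · have a1 := abs_le.1 (e5 j k a ha)
      have a2 := abs_le.1 (e6 j k a ha)
      have a3 := abs_le.1 ((t2 _ (f2 a ha)).2.1 j k)
      rw [abs_le]
      constructor <;> linarith [a1.1, a1.2, a2.1, a2.2, a3.1, a3.2]
    · refine (mul_le_mul_of_nonneg_right e2 (by positivity)).trans ?_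
      nlinarith [mul_le_mul_of_nonneg_left hδ1 hnδ]
  · have a0 := (tb j).congr (rp j) (rl j)
    refine (hlow (y i) (r i) (2 * δ) _ hri (e1.trans hδ1) (by positivity) a0.mem a0.bdd
      ((gl j).mono fun a ha => ?_) fun a ha => ?_).trans
      (mul_le_mul_of_nonneg_right ?_ (by positivity))
    · have : 0 ≤ 2 / n * (r i ^ 2 * D.Lk (r i ^ 2) (g j i) a) ^ 2 := by positivity
      linarith
    · have ha' : a ∈ ball (y i) (10 * r i) := ball_subset_ball (by linarith) ha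
      linarith [(abs_le.1 (e7 j a ha')).2, (abs_le.1 (e8 j a ha')).1, (t2 _ (f2 a ha')).2.2 j]
    · linarith [mul_le_mul_of_nonneg_left e1 hC.le]

end RC
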