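import Pool.Agent.P.MP_6472e5_gt.VcH

/-! The content of almost Euclidean balls. -/

set_option autoImplicit false
set_option linter.unusedSectionVars false

noncomputable section

namespace RC

open MeasureTheory Set Filter Topology Metric

/-- A finite cover of a neighbourhood of the unit ball that almost realises its measure. -/
theorem exists_cover_ball {n : ℕ} (hn : 0 < n) {ε : ℝ} (hε : 0 < ε) :
    ∃ (k : ℕ) (t : Fin k → Set (Euc n)) (d : Fin k → ℝ) (ρ : ℝ), 0 < ρ ∧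
      closedBall (0 : Euc n) (1 + ρ) ⊆ ⋃ j, t j ∧ (∀ j, 0 ≤ d j ∧ d j ≤ 5) ∧
      (∀ j, ∀ a ∈ t j, ∀ b ∈ t j, dist a b ≤ d j) ∧ ∑ j, cH n * d j ^ n ≤ ωE n + ε := by
  have hc : cH n ≠ 0 := Measure.addHaarScalarFactor_volume_hausdorffMeasure_ne_zero n
  have hc' : (0 : ℝ) < cH n := NNReal.coe_pos.2 (pos_iff_ne_zero.2 hc)
  have hω := ωE_pos n
  obtain ⟨ρ, h1, hρ⟩ : ∃ ρ : ℝ, (1 + ρ) ^ n * ωE n < ωE n + ε / 2 ∧ 0 < ρ := by
    have h : Continuous fun ρ : ℝ => (1 + ρ) ^ n * ωE n := by fun_prop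
    have h' := (h.tendsto 0).eventually_lt_const (u := ωE n + ε / 2) (by simp [hε])
    exact ((h'.filter_mono nhdsWithin_le_nhds).and (self_mem_nhdsWithin (s := Ioi 0))).exists
  have hK := isCompact_closedBall (0 : Euc n) (1 + ρ)
  have h2 : (μH[n] : Measure (Euc n)) (closedBall 0 (1 + ρ)) <
      ENNReal.ofReal ((ωE n + ε / 2) / cH n) := by
    have e : (volume : Measure (Euc n)) (closedBall 0 (1 + ρ)) =
        (cH n : ENNReal) * (μH[n] : Measure (Euc n)) (closedBall 0 (1 + ρ)) :=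
      congrArg (fun m : Measure (Euc n) => m (closedBall 0 (1 + ρ)))
        (Measure.isAddLeftInvariant_eq_smul (volume : Measure (Euc n)) μH[n])
    rw [ENNReal.ofReal_div_of_pos hc', ENNReal.ofReal_coe_nnreal,
      ENNReal.lt_div_iff_mul_lt (Or.inl (ENNReal.coe_ne_zero.2 hc)) (Or.inl ENNReal.coe_ne_top),
      mul_comm, ← e, ← ofReal_measureReal hK.measure_lt_top.ne,
      (vol_ball_euc n 0 (by linarith)).1]
    exact (ENNReal.ofReal_lt_ofReal_iff (by linarith)).2 h1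
  rw [Measure.hausdorffMeasure_apply] at h2
  have h3 := (le_iSup₂_of_le (1 : ENNReal) one_pos le_rfl).trans_lt h2
  simp only [iInf_lt_iff] at h3
  obtain ⟨t, hcov, hd, hs⟩ := h3
  have hfin : ∀ k, ediam (t k) ≠ ⊤ := fun k => ne_top_of_le_ne_top ENNReal.one_ne_top (hd k)
  have hD : ∀ k, diam (t k) ≤ 1 := fun k => ENNReal.toReal_le_of_le_ofReal zero_le_one (by
    rw [ENNReal.ofReal_one]; exact hd k)
  have h4 : ∀ k, ENNReal.ofReal (diam (t k) ^ n) ≤
      ⨆ _ : (t k).Nonempty, ediam (t k) ^ (n : ℝ) := by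
    intro k
    rcases (t k).eq_empty_or_nonempty with h | h
    · rw [h, diam_empty, zero_pow hn.ne', ENNReal.ofReal_zero]
      exact zero_le
    · rw [iSup_pos h, ENNReal.rpow_natCast, ENNReal.ofReal_pow diam_nonneg, diam,
        ENNReal.ofReal_toReal (hfin k)]
  obtain ⟨δ, hδ, c, hδc, hcε⟩ := posSumOfEncodable (half_pos hε) ℕ
  have h5 : ∀ k, ∃ η : ℝ, (cH n * (diam (t k) + 2 * η) ^ n < cH n * diam (t k) ^ n + δ k ∧ η < 1) ∧
      0 < η := by
    intro k
    have h : Continuous fun η : ℝ => (cH n : ℝ) * (diam (t k) + 2 * η) ^ n := by fun_prop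
    have h' := (h.tendsto 0).eventually_lt_const (u := cH n * diam (t k) ^ n + δ k)
      (by simp [hδ k])
    exact (((h'.and (eventually_lt_nhds one_pos)).filter_mono nhdsWithin_le_nhds).and
      (self_mem_nhdsWithin (s := Ioi 0))).exists
  choose η h6 h7 using h5
  obtain ⟨s, hs'⟩ := hK.elim_finite_subcover (fun k => thickening (η k) (t k))
    (fun _ => isOpen_thickening)
    (hcov.trans (iUnion_mono fun k => self_subset_thickening (h7 k) _))
  refine ⟨s.card, fun j => thickening (η (s.equivFin.symm j)) (t (s.equivFin.symm j)),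
    fun j => diam (t (s.equivFin.symm j)) + 2 * η (s.equivFin.symm j), ρ, hρ, ?_, fun j => ?_,
    fun j a ha b hb => ?_, ?_⟩
  · intro a ha
    obtain ⟨k, hk, ha'⟩ := mem_iUnion₂.1 (hs' ha)
    refine mem_iUnion.2 ⟨s.equivFin ⟨k, hk⟩, ?_⟩
    rw [Equiv.symm_apply_apply]
    exact ha'
  · have q1 := hD (s.equivFin.symm j)
    have q2 := (h6 (s.equivFin.symm j)).2
    have q3 := h7 (s.equivFin.symm j)
    have q4 := diam_nonneg (s := t (s.equivFin.symm j))
    constructor <;> linarith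
  · exact (dist_le_diam_of_mem (isBounded_iff_ediam_ne_top.2 (hfin _)).thickening ha hb).trans
      (diam_thickening_le _ (h7 _).le)
  · rw [s.equivFin.symm.sum_comp fun k : s => (cH n : ℝ) * (diam (t k) + 2 * η k) ^ n,
      s.sum_coe_sort fun k => (cH n : ℝ) * (diam (t k) + 2 * η k) ^ n]
    have q1 : ∑ k ∈ s, diam (t k) ^ n ≤ (ωE n + ε / 2) / cH n := by
      rw [← ENNReal.ofReal_le_ofReal_iff (by positivity),
        ENNReal.ofReal_sum_of_nonneg fun k _ => pow_nonneg diam_nonneg n]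
      exact ((Finset.sum_le_sum fun k _ => h4 k).trans (ENNReal.sum_le_tsum s)).trans hs.le
    have q2 := sum_le_hasSum s (fun k _ => (hδ k).le) hδc
    have q3 := Finset.sum_le_sum fun k (_ : k ∈ s) => (h6 k).1.le
    rw [Finset.sum_add_distrib] at q3
    rw [le_div_iff₀' hc', Finset.mul_sum] at q1
    linarith

theorem VcC_diam {X : Type} [MetricSpace X] {n : ℕ} {δ s : ℝ} {S : Set X} (hs : 0 ≤ s)
    (hδ : s ≤ δ) (h : ∀ a ∈ S, ∀ b ∈ S, dist a b ≤ s) :
    Hc X n δ S ≤ ENNReal.ofReal (cH n * s ^ n) := by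
  have h1 : ediam S ≤ ENNReal.ofReal s := ediam_le_of_forall_dist_le h
  have h2 := OuterMeasure.mkMetric'.pre_le (m := fun s : Set X => ediam s ^ (n : ℝ))
    (h1.trans (ENNReal.ofReal_le_ofReal hδ))
  rw [ENNReal.ofReal_mul (cH n).coe_nonneg, ENNReal.ofReal_coe_nnreal, ENNReal.ofReal_pow hs]
  refine mul_le_mul_right (h2.trans ?_) _
  rw [ENNReal.rpow_natCast]
  exact pow_le_pow_left' h1 n

theorem Hc_chart {n : ℕ} (hn : 0 < n) {ε : ℝ} (hε : 0 < ε) : ∃ η, 0 < η ∧
    ∀ (X : Type) [MetricSpace X] (x : X) (r : ℝ) (φ : X → Euc n), 0 < r →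
      GHApprox x r (0 : Euc n) 2 η φ →
      Hc X n (10 * r) (closedBall x r) ≤ ENNReal.ofReal ((ωE n + ε) * r ^ n) := by
  obtain ⟨k, t, d, ρ, hρ, hcov, hd, ht, hs⟩ := exists_cover_ball hn (half_pos hε)
  obtain ⟨η, ⟨h1, h2, h3⟩, h4⟩ : ∃ η : ℝ,
      (∑ j, cH n * (d j + η) ^ n < ωE n + ε ∧ η < ρ ∧ η < 1) ∧ 0 < η := by
    have h : Continuous fun η : ℝ => ∑ j, (cH n : ℝ) * (d j + η) ^ n := by fun_prop
    have h' := (h.tendsto 0).eventually_lt_const (u := ωE n + ε) (by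
      simp only [add_zero]
      linarith)
    exact (((h'.and ((eventually_lt_nhds hρ).and (eventually_lt_nhds one_pos))).filter_mono
      nhdsWithin_le_nhds).and (self_mem_nhdsWithin (s := Ioi 0))).exists
  refine ⟨η, h4, fun X _ x r φ hr h => ?_⟩
  have hb : closedBall x r ⊆ ball x (2 * r) := closedBall_subset_ball (by linarith)
  have h5 : closedBall x r ⊆ ⋃ j, {a ∈ closedBall x r | φ a ∈ t j} := by
    intro a ha
    have q1 := (abs_le.1 (h.dist_base (hb ha))).2
    have q2 : dist a x / r ≤ 1 := (div_le_one hr).2 ha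
    obtain ⟨j, hj⟩ := mem_iUnion.1 (hcov (mem_closedBall.2 (by linarith : dist (φ a) 0 ≤ 1 + ρ)))
    exact mem_iUnion.2 ⟨j, ha, hj⟩
  have h6 : ∀ j, Hc X n (10 * r) {a ∈ closedBall x r | φ a ∈ t j} ≤
      ENNReal.ofReal (cH n * ((d j + η) * r) ^ n) := by
    intro j
    have q0 := hd j
    refine VcC_diam (mul_nonneg (by linarith) hr.le)
      (mul_le_mul_of_nonneg_right (by linarith) hr.le) fun a ha b hb' => ?_
    have q1 := (abs_le.1 (h.2.1 a (hb ha.1) b (hb hb'.1))).1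
    have q2 := ht j _ ha.2 _ hb'.2
    rw [← div_le_iff₀ hr]
    linarith
  refine (measure_mono h5).trans ((measure_iUnion_fintype_le _ _).trans
    ((Finset.sum_le_sum fun j _ => h6 j).trans ?_))
  rw [← ENNReal.ofReal_sum_of_nonneg fun j _ => mul_nonneg (cH n).coe_nonneg
    (pow_nonneg (mul_nonneg (by linarith [(hd j).1]) hr.le) n)]
  refine ENNReal.ofReal_le_ofReal ?_
  simp only [mul_pow, ← mul_assoc]
  rw [← Finset.sum_mul]
  exact mul_le_mul_of_nonneg_right h1.le (pow_nonneg hr.le n)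

end RC
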