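import Pool.Agent.P.MP_6472e5_gt.Kern

/-! Definitions for volume convergence. -/

set_option autoImplicit false
set_option linter.unusedSectionVars false

noncomputable section

namespace RC

open MeasureTheory Set Filter Topology Metric

/-- The normalising constant of the Hausdorff measure. -/
def cH (n : ℕ) : NNReal :=
  Measure.addHaarScalarFactor (volume : Measure (Euc n)) μH[n]

/-- The Hausdorff content at scale `δ`. -/
def Hc (X : Type) [MetricSpace X] (n : ℕ) (δ : ℝ) : OuterMeasure X :=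
  (cH n : ENNReal) • OuterMeasure.mkMetric'.pre (fun s => ediam s ^ (n : ℝ)) (ENNReal.ofReal δ)

/-- The volume of the Euclidean unit ball. -/
def ωE (n : ℕ) : ℝ := (volume : Measure (Euc n)).real (ball 0 1)

/-- The Euclidean heat flow at time one. -/
def QE (n : ℕ) (h : Euc n → ℝ) (v : Euc n) : ℝ :=
  θ n * ∫ w : Euc n, Real.exp (-(‖w - v‖ ^ 2 / 4)) * h w

/-- The linear combination of the components of `F` with coefficients `u`. -/
def lc {X : Type} {n : ℕ} (u : Euc n) (F : X → Euc n) : X → ℝ := fun a => ∑ b, u b * F a b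

variable {X : Type} [MetricSpace X] [MeasurableSpace X] {μ : Measure X}

/-- Sequences of bounded functions that converge to a constant in mean, with small gradient, on
the balls of radius `5 * r i`. -/
structure Tame (D : DS μ) (n : ℕ) (l : Filter ℕ) (y : ℕ → X) (r : ℕ → ℝ) (f : ℕ → X → ℝ)
    (c : ℝ) : Prop where
  mem : ∀ᶠ i in l, D.W (f i) ∧ LocBdd μ (f i)
  bdd : ∃ C : ℝ, ∀ᶠ i in l, ∀ᵐ a ∂μ, a ∈ ball (y i) (5 * r i) → |f i a| ≤ C
  lim : Tendsto (fun i => (r i ^ n)⁻¹ * ∫ a in ball (y i) (5 * r i), |f i a - c| ∂μ) l (𝓝 0)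
  grad : Tendsto (fun i => (r i ^ n)⁻¹ *
    ∫ a in ball (y i) (5 * r i), r i * √(D.G (f i) (f i) a) ∂μ) l (𝓝 0)

/-- Scales and volumes along a sequence of balls. -/
structure VSeq (μ : Measure X) (n : ℕ) (l : Filter ℕ) (y : ℕ → X) (r : ℕ → ℝ) : Prop where
  pos : ∀ i, 0 < r i
  lim : Tendsto r l (𝓝 0)
  up : ∃ C : ℝ, ∀ᶠ i in l, μ.real (ball (y i) (10 * r i)) ≤ C * r i ^ n
  low : ∃ c : ℝ, 0 < c ∧ ∀ᶠ i in l, c * r i ^ n ≤ μ.real (ball (y i) (r i / 2))

/-- Almost splitting maps. -/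
structure Good (D : DS μ) (n : ℕ) (x : X) (r η : ℝ) (F LF : X → Euc n) : Prop where
  cont : Continuous F
  tb : ∀ b, D.Tb (fun a => F a b) (fun a => LF a b)
  app : ∀ a ∈ ball x (10 * r), |‖F a‖ - dist a x / r| ≤ η
  glob : ∀ b, ∀ᵐ a ∂μ,
    r ^ 2 * D.G (fun a => F a b) (fun a => F a b) a + 2 / n * (r ^ 2 * LF a b) ^ 2 ≤ 1 + η
  lip : ∀ u : Euc n, ∀ᵐ a ∂μ, a ∈ ball x (10 * r) →
    r ^ 2 * D.G (lc u F) (lc u F) a ≤ (1 + η) * ‖u‖ ^ 2
  low : ∀ b, ∫ a in ball x (10 * r), (1 - r ^ 2 * D.G (fun a => F a b) (fun a => F a b) a) ∂μ ≤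
    η * r ^ n

end RC
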