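import Pool.Agent.P.MP_6472e5_gt.VcD
import Pool.Agent.P.MP_6472e5_gt.HpA

/-! Gaussian moments. -/

set_option autoImplicit false
set_option linter.unusedSectionVars false

noncomputable section

namespace RC

open MeasureTheory Set Filter Topology Metric

variable {n : ℕ}

theorem vce_one (a : ℝ) (g : ℝ → ℝ) :
    (2 * √Real.pi)⁻¹ * ∫ x, Real.exp (-((x - a) ^ 2 / 4)) * g x =
      ∫ x, g x ∂(ProbabilityTheory.gaussianReal a 2) := by
  rw [ProbabilityTheory.integral_gaussianReal_eq_integral_smul two_ne_zero, ← integral_const_mul]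
  refine integral_congr_ae (ae_of_all _ fun x => ?_)
  have e : √(2 * Real.pi * ((2 : NNReal) : ℝ)) = 2 * √Real.pi := by
    rw [show 2 * Real.pi * ((2 : NNReal) : ℝ) = 2 ^ 2 * Real.pi by push_cast; ring,
      Real.sqrt_mul (by positivity), Real.sqrt_sq zero_le_two]
  have e2 : -(x - a) ^ 2 / (2 * ((2 : NNReal) : ℝ)) = -((x - a) ^ 2 / 4) := by
    push_cast
    ring
  simp only [ProbabilityTheory.gaussianPDFReal, smul_eq_mul, e, e2]
  ring

theorem vce_prod (g : Fin n → ℝ → ℝ) (v : Euc n) :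
    QE n (fun w => ∏ i, g i (w i)) v = ∏ i, ∫ x, g i x ∂(ProbabilityTheory.gaussianReal (v i) 2) := by
  unfold QE θ
  rw [← (PiLp.volume_preserving_toLp (Fin n)).integral_comp
    (MeasurableEquiv.toLp 2 _).measurableEmbedding]
  have e : ∀ w : Fin n → ℝ, Real.exp (-(‖WithLp.toLp 2 w - v‖ ^ 2 / 4)) * ∏ i, g i (w i) =
      ∏ i, (Real.exp (-((w i - v i) ^ 2 / 4)) * g i (w i)) := fun w => by
    rw [Finset.prod_mul_distrib, ← Real.exp_sum, EuclideanSpace.real_norm_sq_eq, Finset.sum_div,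
      ← Finset.sum_neg_distrib]
    rfl
  simp only [e]
  rw [integral_fintype_prod_volume_eq_prod fun i x => Real.exp (-((x - v i) ^ 2 / 4)) * g i x]
  simp only [← vce_one]
  rw [Finset.prod_mul_distrib, Finset.prod_const, Finset.card_univ, Fintype.card_fin, inv_pow]

theorem vce_sq (a : ℝ) : ∫ x, x * x ∂(ProbabilityTheory.gaussianReal a 2) = a * a + 2 := by
  have h := ProbabilityTheory.variance_eq_sub
    (ProbabilityTheory.memLp_id_gaussianReal' (μ := a) (v := 2) 2 (by simp))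
  rw [ProbabilityTheory.variance_id_gaussianReal] at h
  simp only [Pi.pow_apply, id, ProbabilityTheory.integral_id_gaussianReal, sq, Pi.mul_apply] at h
  push_cast at h
  linarith

theorem QE_integrable {h : Euc n → ℝ} (hm : AEStronglyMeasurable h volume) {C : ℝ}
    (hC : ∀ w, |h w| ≤ C * (1 + ‖w‖ ^ 2)) (v : Euc n) :
    Integrable (fun w : Euc n => Real.exp (-(‖w - v‖ ^ 2 / 4)) * h w) := by
  have h0 : Integrable fun w : Euc n => Real.exp (-(‖w‖ ^ 2 / (4 * √2 ^ 2))) := by
    refine Integrable.of_integral_ne_zero ?_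
    rw [integral_gauss n (by positivity)]
    have := θ_pos n
    positivity
  have hC0 : 0 ≤ C := by
    have := (abs_nonneg _).trans (hC 0)
    simpa using this
  refine ((h0.comp_sub_right v).const_mul (C * (17 + 2 * ‖v‖ ^ 2))).mono'
    ((by fun_prop : Continuous fun w : Euc n =>
      Real.exp (-(‖w - v‖ ^ 2 / 4))).aestronglyMeasurable.mul hm) (ae_of_all _ fun w => ?_)
  have a1 : ‖w‖ ≤ ‖w - v‖ + ‖v‖ := by simpa using norm_add_le (w - v) v
  have a2 : ‖w‖ ^ 2 ≤ 2 * ‖w - v‖ ^ 2 + 2 * ‖v‖ ^ 2 := by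
    have := pow_le_pow_left₀ (norm_nonneg _) a1 2
    nlinarith [sq_nonneg (‖w - v‖ - ‖v‖)]
  rw [Real.sq_sqrt zero_le_two, Real.norm_eq_abs, abs_mul, abs_of_pos (Real.exp_pos _)]
  have a0 : 0 ≤ ‖w - v‖ ^ 2 := sq_nonneg _
  generalize ‖w - v‖ ^ 2 = x at a2 a0 ⊢
  have e : Real.exp (-(x / (4 * 2))) = Real.exp (-(x / 4)) * Real.exp (x / 8) := by
    rw [← Real.exp_add]
    congr 1
    ring
  have a3 := Real.add_one_le_exp (x / 8)
  have a4 : 1 + ‖w‖ ^ 2 ≤ (17 + 2 * ‖v‖ ^ 2) * Real.exp (x / 8) := by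
    have b0 := sq_nonneg ‖v‖
    have b1 : (17 + 2 * ‖v‖ ^ 2) * (x / 8 + 1) ≤ (17 + 2 * ‖v‖ ^ 2) * Real.exp (x / 8) :=
      mul_le_mul_of_nonneg_left a3 (by positivity)
    nlinarith [mul_nonneg b0 a0]
  calc Real.exp (-(x / 4)) * |h w|
      ≤ Real.exp (-(x / 4)) * (C * ((17 + 2 * ‖v‖ ^ 2) * Real.exp (x / 8))) :=
        mul_le_mul_of_nonneg_left ((hC w).trans (mul_le_mul_of_nonneg_left a4 hC0))
          (Real.exp_pos _).le
    _ = _ := by
        rw [e]
        ring

theorem QE_one (v : Euc n) : QE n (fun _ => 1) v = 1 := by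
  simpa using vce_prod (fun _ _ => 1) v

theorem QE_coord (j : Fin n) (v : Euc n) : QE n (fun w => w j) v = v j := by
  have h := vce_prod (fun i x => if i = j then x else 1) v
  rw [Finset.prod_eq_single j (fun i _ hi => by simp [hi]) (by simp)] at h
  simpa using h

theorem QE_coord_mul (j k : Fin n) (v : Euc n) :
    QE n (fun w => w j * w k) v = v j * v k + if j = k then 2 else 0 := by
  have h := vce_prod (fun i x => (if i = j then x else 1) * if i = k then x else 1) v
  simp only [Finset.prod_mul_distrib, Finset.prod_ite_eq', Finset.mem_univ, if_true] at h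
  rw [h]
  by_cases e : j = k
  · subst e
    rw [Finset.prod_eq_single j (fun i _ hi => by simp [hi]) (by simp)]
    simpa using vce_sq (v j)
  · rw [Finset.prod_eq_mul j k e (fun i _ hi => by simp [hi.1, hi.2]) (by simp) (by simp)]
    simp [e, Ne.symm e]

end RC
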