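import Pool.Agent.P.MP_6472e5_gt.VcT
import Pool.Agent.P.MP_6472e5_gt.TbA

/-! The carre du champ of almost splitting maps is tame. -/

set_option autoImplicit false
set_option linter.unusedSectionVars false

noncomputable section

namespace RC

open MeasureTheory Set Filter Topology Metric

variable {X : Type} [MetricSpace X] [ProperSpace X] [MeasurableSpace X] [BorelSpace X]
  {μ : Measure X} {D : DS μ} {κ : ℝ} {n : ℕ}

variable {l : Filter ℕ} {y : ℕ → X} {r : ℕ → ℝ}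

theorem vcg_le {u v : X → ℝ} {S : Set X} (hS : MeasurableSet S) (hu : Integrable u μ)
    (hv : IntegrableOn v S μ) (h1 : ∀ᵐ a ∂μ, a ∈ S → u a ≤ v a)
    (h0 : ∀ᵐ a ∂μ, a ∉ S → u a ≤ 0) : ∫ a, u a ∂μ ≤ ∫ a in S, v a ∂μ := by
  rw [← integral_indicator hS]
  refine integral_mono_ae hu (hv.integrable_indicator hS) ?_
  filter_upwards [h1, h0] with a h1 h0
  by_cases ha : a ∈ S
  · simpa [ha] using h1 ha
  · simpa [ha] using h0 ha

theorem vcg_const (D : DS μ) (x : X) (s c : ℝ) : IntegrableOn (fun _ => c) (ball x s) μ :=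
  integrableOn_const (D.fin x s).ne

theorem vcg_B2 (h : R1 D κ n) {U : Set X} {ζ Lζ f Lf : X → ℝ} (tf : D.TF U ζ Lζ)
    (hf : D.Tb f Lf) : D.B2 ζ f Lf f Lf = 1 / 2 * ∫ a, Lζ a * D.G f f a ∂μ +
      ∫ a, ζ a * Lf a ^ 2 ∂μ + ∫ a, Lf a * D.G f ζ a ∂μ := by
  have e1 := tf.lap.test tf.mem tf.L_memLp.1 (h.sav f Lf hf)
  have hm := D.mul_mem_lipB tf.lip hf.memL
  have e2 := hf.lap.test hf.mem (D.memLp _ hf.memL) hm
  have e3 := DS.G_mul_right (D.W_of_mem tf.mem) hf.WL (D.W_of_mem hm) hf.W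
  have i1 := DS.G_mul_int hf.W hf.WL tf.lip
  have i2 : Integrable (fun a => Lf a * D.G f ζ a) μ :=
    hf.bddL.mul_integrable hf.lap.aesm (DS.G_int hf.mem tf.mem)
  rw [integral_congr_ae e3, integral_add i1 i2] at e2
  have e4 : ∫ a, ζ a * (D.G f Lf a + D.G f Lf a) ∂μ = 2 * ∫ a, ζ a * D.G f Lf a ∂μ := by
    rw [← integral_const_mul]; congr 1; ext a; ring
  have e5 : ∫ a, Lf a * (ζ * Lf) a ∂μ = ∫ a, ζ a * Lf a ^ 2 ∂μ := by
    congr 1; ext a; simp only [Pi.mul_apply]; ring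
  rw [DS.B2, e1, e4]
  linarith

/-- The Bochner estimate on one ball. -/
theorem vc_hess (h : HP D κ n) : ∃ C, 0 < C ∧ ∀ (x : X) (r M k : ℝ) (f Lf : X → ℝ), 0 < r →
    κ * (5 * r) ^ 2 ≤ 1 → D.Tb f Lf → 0 ≤ M →
    (∀ᵐ a ∂μ, a ∈ ball x (10 * r) → r ^ 2 * D.G f f a ≤ M) →
    ∫ a in ball x (5 * r), r ^ 6 * D.G (D.G f f) (D.G f f) a ∂μ ≤
      C * M * (∫ a in ball x (10 * r), |r ^ 2 * D.G f f a - k| ∂μ +
        ∫ a in ball x (10 * r), (r ^ 2 * Lf a) ^ 2 ∂μ +
        √M * ∫ a in ball x (10 * r), |r ^ 2 * Lf a| ∂μ +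
        κ * r ^ 2 * M * μ.real (ball x (10 * r))) := by
  obtain ⟨C, hC, hcut⟩ := h.cut
  refine ⟨4 * (C + 1), by positivity, fun x r M k f Lf hr hκ hf hM hb => ?_⟩
  obtain ⟨ζ, Lζ, -, tf, le1, one, lip, bL⟩ :=
    hcut {x} (5 * r) Bornology.isBounded_singleton (by positivity) hκ
  rw [thickening_singleton] at tf one
  rw [show 2 * (5 * r) = 10 * r by ring] at tf
  have hκ0 := h.κ_nonneg
  have gV := h.sav f Lf hf
  have ζ0 : ∀ a, a ∉ ball x (10 * r) → ζ a = 0 := fun a ha =>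
    image_eq_zero_of_notMem_tsupport fun hh => ha (tf.supp hh)
  have ζW := D.W_of_mem tf.mem
  have g0 := DS.G_nonneg hf.W
  have gi := DS.G_int hf.mem hf.mem
  have GG := h.toR1.GG_le tf.mem tf.lip.bdd (ae_of_all _ tf.nonneg) hf (M := M / r ^ 2) (by
    filter_upwards [hb] with a ha hne
    rw [le_div_iff₀ (by positivity), mul_comm]
    exact ha (by by_contra hh; exact hne (ζ0 a hh)))
  rw [vcg_B2 h.toR1 tf hf] at GG
  have mb : MeasurableSet (ball x (10 * r)) := measurableSet_ball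
  have L2 := D.memLp _ hf.memL
  have iL : Integrable (fun a => Lζ a * D.G f f a) μ := tf.bddL.mul_integrable tf.lap.aesm gi
  have j1 : IntegrableOn (fun a => |r ^ 2 * D.G f f a - k|) (ball x (10 * r)) μ :=
    ((gi.const_mul _).integrableOn.sub (vcg_const D x _ k)).abs
  have j2 : IntegrableOn (fun a => (r ^ 2 * Lf a) ^ 2) (ball x (10 * r)) μ :=
    ((L2.const_mul _).integrable_sq).integrableOn
  have j3 : IntegrableOn (fun a => |r ^ 2 * Lf a|) (ball x (10 * r)) μ :=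
    ((hf.lap.2.1 x _).const_mul _).abs
  have t1 : r ^ 4 * ∫ a, Lζ a * D.G f f a ∂μ ≤
      C * ∫ a in ball x (10 * r), |r ^ 2 * D.G f f a - k| ∂μ := by
    have e : r ^ 4 * ∫ a, Lζ a * D.G f f a ∂μ =
        ∫ a, (r ^ 4 * (Lζ a * D.G f f a) - r ^ 2 * k * Lζ a) ∂μ := by
      rw [integral_sub (iL.const_mul _) (tf.L_memLp.2.const_mul _), integral_const_mul,
        integral_const_mul, tf.L_integral]; ring
    rw [e, ← integral_const_mul]
    refine vcg_le mb ((iL.const_mul _).sub (tf.L_memLp.2.const_mul _)) (j1.const_mul _)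
      (ae_of_all _ fun a _ => ?_) ?_
    · have h1 : |r ^ 2 * Lζ a| ≤ C := by
        rw [abs_mul, abs_of_nonneg (sq_nonneg r)]
        refine (mul_le_mul_of_nonneg_left (bL a) (sq_nonneg r)).trans ?_
        rw [show r ^ 2 * (C / (5 * r) ^ 2) = C / 25 by field_simp; ring]; linarith
      calc _ = r ^ 2 * Lζ a * (r ^ 2 * D.G f f a - k) := by ring
        _ ≤ |r ^ 2 * Lζ a| * |r ^ 2 * D.G f f a - k| := by rw [← abs_mul]; exact le_abs_self _
        _ ≤ _ := by gcongr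
    · filter_upwards [tf.L_zero] with a ha hn
      simp [ha fun hh => hn (tf.supp hh)]
  have t2 : r ^ 4 * ∫ a, ζ a * Lf a ^ 2 ∂μ ≤ ∫ a in ball x (10 * r), (r ^ 2 * Lf a) ^ 2 ∂μ := by
    rw [← integral_const_mul]
    refine vcg_le mb ((tf.lip.bdd.mul_integrable tf.lip.continuous.aestronglyMeasurable
      L2.integrable_sq).const_mul _) j2 (ae_of_all _ fun a _ => ?_)
      (ae_of_all _ fun a ha => by simp [ζ0 a ha])
    have := mul_le_mul_of_nonneg_right (le1 a) (sq_nonneg (r ^ 2 * Lf a))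
    nlinarith
  have t3 : r ^ 4 * ∫ a, Lf a * D.G f ζ a ∂μ ≤
      C * (√M * ∫ a in ball x (10 * r), |r ^ 2 * Lf a| ∂μ) := by
    rw [← integral_const_mul, ← integral_const_mul, ← integral_const_mul]
    refine vcg_le mb ((hf.bddL.mul_integrable hf.lap.aesm (DS.G_int hf.mem tf.mem)).const_mul _)
      ((j3.const_mul _).const_mul _) ?_ ?_
    · filter_upwards [hb, DS.G_abs_le hf.W ζW, DS.G_le_lip ζW isOpen_univ
        (fun a _ b _ => lip a b) (by positivity) (ae_of_all _ fun _ _ => rfl)] with a h1 h2 h3 ha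
      have k1 : √(D.G f f a) ≤ √M / r := by
        rw [← Real.sqrt_sq hr.le, ← Real.sqrt_div hM]
        exact Real.sqrt_le_sqrt (by rw [le_div_iff₀ (by positivity), mul_comm]; exact h1 ha)
      have k2 : √(D.G ζ ζ a) ≤ C / (5 * r) := Real.sqrt_le_iff.2 ⟨by positivity, h3 trivial⟩
      have k3 : r ^ 2 * |D.G f ζ a| ≤ C * √M := by
        refine (mul_le_mul_of_nonneg_left (h2.trans (mul_le_mul k1 k2 (Real.sqrt_nonneg _)
          (by positivity))) (sq_nonneg r)).trans ?_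
        rw [show r ^ 2 * (√M / r * (C / (5 * r))) = C * √M / 5 by field_simp]
        have : 0 ≤ C * √M := by positivity
        linarith
      calc _ ≤ |r ^ 2 * Lf a * (r ^ 2 * D.G f ζ a)| := by
            rw [show r ^ 4 * (Lf a * D.G f ζ a) = r ^ 2 * Lf a * (r ^ 2 * D.G f ζ a) by ring]
            exact le_abs_self _
        _ = |r ^ 2 * Lf a| * (r ^ 2 * |D.G f ζ a|) := by
            rw [abs_mul, abs_mul (r ^ 2) (D.G f ζ a), abs_of_nonneg (sq_nonneg r)]
        _ ≤ |r ^ 2 * Lf a| * (C * √M) := by gcongr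
        _ = _ := by ring
    · filter_upwards [DS.G_level ζW hf.W 0, DS.G_symm hf.W ζW] with a h1 h2 ha
      simp [h2, h1 (ζ0 a ha)]
  have t4 : r ^ 4 * ∫ a, ζ a * D.G f f a ∂μ ≤ r ^ 2 * M * μ.real (ball x (10 * r)) := by
    rw [← integral_const_mul, mul_comm (r ^ 2 * M), ← smul_eq_mul, ← setIntegral_const]
    refine vcg_le mb ((DS.G_mul_int hf.W hf.W tf.lip).const_mul _) (vcg_const D x _ _) ?_
      (ae_of_all _ fun a ha => by simp [ζ0 a ha])
    filter_upwards [hb, g0] with a h1 h2 ha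
    have := mul_le_mul (le1 a) (h1 ha) (by positivity) zero_le_one
    nlinarith [mul_le_mul_of_nonneg_left this (sq_nonneg r)]
  have t0 : ∫ a in ball x (5 * r), r ^ 6 * D.G (D.G f f) (D.G f f) a ∂μ ≤
      r ^ 6 * ∫ a, ζ a * D.G (D.G f f) (D.G f f) a ∂μ := by
    have gW := D.W_of_mem gV
    rw [integral_const_mul, ← setIntegral_congr_fun measurableSet_ball
      (f := fun a => ζ a * D.G (D.G f f) (D.G f f) a) (fun a ha => by simp [one a ha])]
    refine mul_le_mul_of_nonneg_left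
      (setIntegral_le_integral (DS.G_mul_int gW gW tf.lip) ?_) (by positivity)
    filter_upwards [DS.G_nonneg gW] with a ha using mul_nonneg (tf.nonneg a) ha
  refine t0.trans ((mul_le_mul_of_nonneg_left GG (by positivity)).trans ?_)
  have n1 : 0 ≤ ∫ a in ball x (10 * r), |r ^ 2 * D.G f f a - k| ∂μ := by positivity
  have n2 : 0 ≤ ∫ a in ball x (10 * r), (r ^ 2 * Lf a) ^ 2 ∂μ := by positivity
  have n3 : 0 ≤ √M * ∫ a in ball x (10 * r), |r ^ 2 * Lf a| ∂μ := by positivity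
  have n4 : 0 ≤ κ * r ^ 2 * M * μ.real (ball x (10 * r)) := by positivity
  have t4' := mul_le_mul_of_nonneg_left t4 hκ0
  rw [show ∀ T : ℝ, r ^ 6 * (4 * (M / r ^ 2) * T) = 4 * M * (r ^ 4 * T) from
    fun T => by field_simp, show ∀ T : ℝ, 4 * (C + 1) * M * T = 4 * M * ((C + 1) * T) from
    fun T => by ring]
  refine mul_le_mul_of_nonneg_left ?_ (by positivity)
  nlinarith [mul_nonneg hC.le n1, mul_nonneg hC.le n2, mul_nonneg hC.le n4]


/-- Smallness in the mean of a function gives smallness of its square root. -/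
theorem vcg_sqrt (D : DS μ) (hs : VSeq μ n l y r) {s : ℝ} (hs10 : s ≤ 10) {u : ℕ → X → ℝ}
    (hu : ∀ᶠ i in l, IntegrableOn (u i) (ball (y i) (s * r i)) μ ∧ ∀ᵐ a ∂μ, 0 ≤ u i a)
    (h : Tendsto (fun i => (r i ^ n)⁻¹ * ∫ a in ball (y i) (s * r i), u i a ∂μ) l (𝓝 0)) :
    Tendsto (fun i => (r i ^ n)⁻¹ * ∫ a in ball (y i) (s * r i), √(u i a) ∂μ) l (𝓝 0) := by
  obtain ⟨C, hC⟩ := hs.up
  refine tendsto_order.2 ⟨fun b hb => Eventually.of_forall fun i => hb.trans_le ?_, fun b hb => ?_⟩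
  · have := hs.pos i; positivity
  set ε := b / (2 * (|C| + 1)) with hε
  have hε0 : 0 < ε := by positivity
  filter_upwards [hC, hu, h (Iio_mem_nhds (show 0 < ε * (b / 2) by positivity))] with i h1 h2 h3
  have hp : 0 < r i ^ n := pow_pos (hs.pos i) n
  have h3' : (r i ^ n)⁻¹ * ∫ a in ball (y i) (s * r i), u i a ∂μ < ε * (b / 2) := h3
  have h4 : ∫ a in ball (y i) (s * r i), √(u i a) ∂μ ≤
      ∫ a in ball (y i) (s * r i), (ε + ε⁻¹ * u i a) ∂μ := by
    refine integral_mono_of_nonneg (ae_of_all _ fun a => Real.sqrt_nonneg _)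
      ((vcg_const D _ _ ε).add (h2.1.const_mul _)) (ae_restrict_of_ae ?_)
    filter_upwards [h2.2] with a ha
    refine Real.sqrt_le_iff.2 ⟨by positivity, ?_⟩
    have : ε * (ε⁻¹ * u i a) = u i a := by field_simp
    nlinarith [sq_nonneg ε, sq_nonneg (ε⁻¹ * u i a)]
  rw [integral_add (vcg_const D _ _ ε) (h2.1.const_mul _), setIntegral_const, integral_const_mul,
    smul_eq_mul] at h4
  have h5 : μ.real (ball (y i) (s * r i)) ≤ (|C| + 1) * r i ^ n := by
    refine (measureReal_mono (ball_subset_ball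
      (mul_le_mul_of_nonneg_right hs10 (hs.pos i).le)) (D.fin _ _).ne).trans (h1.trans ?_)
    gcongr; linarith [le_abs_self C]
  calc _ ≤ (r i ^ n)⁻¹ * ((|C| + 1) * r i ^ n * ε +
        ε⁻¹ * ∫ a in ball (y i) (s * r i), u i a ∂μ) := by
        gcongr; exact h4.trans (by gcongr)
    _ = b / 2 + ε⁻¹ * ((r i ^ n)⁻¹ * ∫ a in ball (y i) (s * r i), u i a ∂μ) := by
        rw [hε]; field_simp
    _ < b / 2 + ε⁻¹ * (ε * (b / 2)) := by gcongr
    _ = b := by field_simp; ring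

theorem vcg_abs (D : DS μ) (hs : VSeq μ n l y r) {s : ℝ} (hs10 : s ≤ 10) {u : ℕ → X → ℝ}
    (hu : ∀ᶠ i in l, MemLp (u i) 2 μ)
    (h : Tendsto (fun i => (r i ^ n)⁻¹ * ∫ a in ball (y i) (s * r i), u i a ^ 2 ∂μ) l (𝓝 0)) :
    Tendsto (fun i => (r i ^ n)⁻¹ * ∫ a in ball (y i) (s * r i), |u i a| ∂μ) l (𝓝 0) := by
  simpa only [Real.sqrt_sq_eq_abs] using vcg_sqrt D hs hs10 (u := fun i a => u i a ^ 2)
    (hu.mono fun i hi => ⟨hi.integrable_sq.integrableOn, ae_of_all _ fun a => sq_nonneg _⟩) h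

theorem tame_G (h : HP D κ n) (hs : VSeq μ n l y r) {f Lf : ℕ → X → ℝ} {M k : ℝ} (hM : 0 ≤ M)
    (hf : ∀ᶠ i in l, D.Tb (f i) (Lf i) ∧
      ∀ᵐ a ∂μ, a ∈ ball (y i) (10 * r i) → r i ^ 2 * D.G (f i) (f i) a ≤ M)
    (h1 : Tendsto (fun i => (r i ^ n)⁻¹ *
      ∫ a in ball (y i) (10 * r i), |r i ^ 2 * D.G (f i) (f i) a - k| ∂μ) l (𝓝 0))
    (h2 : Tendsto (fun i => (r i ^ n)⁻¹ *
      ∫ a in ball (y i) (10 * r i), (r i ^ 2 * Lf i a) ^ 2 ∂μ) l (𝓝 0)) :
    Tame D n l y r (fun i a => r i ^ 2 * D.G (f i) (f i) a) k := by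
  obtain ⟨C, hC, hH⟩ := vc_hess h
  obtain ⟨C', hC'⟩ := hs.up
  have hκ0 := h.κ_nonneg
  have gW : ∀ᶠ i in l, D.W (D.G (f i) (f i)) :=
    hf.mono fun i hi => D.W_of_mem (h.sav _ _ hi.1)
  have h3 := vcg_abs D hs le_rfl (u := fun i a => r i ^ 2 * Lf i a)
    (hf.mono fun i hi => (D.memLp _ hi.1.memL).const_mul _) h2
  have hr2 : Tendsto (fun i => κ * r i ^ 2) l (𝓝 0) := by
    simpa using (hs.lim.pow 2).const_mul κ
  have h4 : Tendsto (fun i => (r i ^ n)⁻¹ * ∫ a in ball (y i) (5 * r i),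
      r i ^ 6 * D.G (D.G (f i) (f i)) (D.G (f i) (f i)) a ∂μ) l (𝓝 0) := by
    have hl := (((h1.add h2).add (h3.const_mul √M)).add (hr2.mul_const (M * C'))).const_mul (C * M)
    simp only [add_zero, mul_zero, zero_mul] at hl
    refine squeeze_zero' ?_ ?_ hl
    · filter_upwards [gW] with i hi
      have := hs.pos i
      refine mul_nonneg (by positivity) (integral_nonneg_of_ae (ae_restrict_of_ae ?_))
      filter_upwards [DS.G_nonneg hi] with a ha using by positivity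
    · filter_upwards [hf, hC', hr2 (Iio_mem_nhds (show (0 : ℝ) < 1 / 25 by norm_num))]
        with i hi hv hk
      have hp := hs.pos i
      have hk' : κ * r i ^ 2 < 1 / 25 := hk
      have hpn : 0 < r i ^ n := pow_pos hp n
      refine (mul_le_mul_of_nonneg_left (hH (y i) (r i) M k _ _ hp (by nlinarith) hi.1 hM hi.2)
        (by positivity)).trans ?_
      have : (r i ^ n)⁻¹ * μ.real (ball (y i) (10 * r i)) ≤ C' := by
        rw [inv_mul_le_iff₀ hpn]; linarith
      have := mul_le_mul_of_nonneg_left this (show 0 ≤ C * M * (κ * r i ^ 2 * M) by positivity)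
      nlinarith
  refine ⟨?_, ⟨M, ?_⟩, ?_, ?_⟩
  · filter_upwards [hf, gW] with i hi hw
    exact ⟨hw.smul (r i ^ 2), (hi.1.bddG.smul (r i ^ 2)).locBdd⟩
  · filter_upwards [hf] with i hi
    filter_upwards [hi.2, DS.G_nonneg hi.1.W] with a h1 h2 ha
    rw [abs_of_nonneg (by positivity)]
    exact h1 (ball_subset_ball (by linarith [hs.pos i]) ha)
  · refine squeeze_zero' (Eventually.of_forall fun i => ?_) ?_ h1
    · have := hs.pos i; positivity
    · filter_upwards [hf] with i hi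
      have := hs.pos i
      refine mul_le_mul_of_nonneg_left (setIntegral_mono_set
        (((DS.G_int hi.1.mem hi.1.mem).const_mul _).integrableOn.sub (vcg_const D _ _ k)).abs
        (ae_of_all _ fun a => abs_nonneg _) (ball_subset_ball (by linarith)).eventuallyLE)
        (by positivity)
  · refine (vcg_sqrt D hs (by norm_num) ?_ h4).congr' ?_
    · filter_upwards [gW] with i hi
      refine ⟨(DS.G_locInt hi hi _ _).const_mul _, ?_⟩
      have := hs.pos i
      filter_upwards [DS.G_nonneg hi] with a ha using by positivity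
    · filter_upwards [gW] with i hi
      congr 1
      refine integral_congr_ae (ae_restrict_of_ae ?_)
      filter_upwards [DS.G_smul_smul (r i ^ 2) hi] with a ha
      have hp := hs.pos i
      have e : (fun a => r i ^ 2 * D.G (f i) (f i) a) = r i ^ 2 • D.G (f i) (f i) := rfl
      rw [e, ha, show r i ^ 6 = r i ^ 2 * (r i ^ 2) ^ 2 by ring, mul_assoc,
        Real.sqrt_mul (sq_nonneg _), Real.sqrt_sq hp.le]


end RC
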