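import Pool.Agent.P.MP_6472e5_gt.VcD
import Pool.Agent.P.MP_6472e5_gt.GH

/-! Hausdorff content, Vitali covering, area inequality. -/

set_option autoImplicit false
set_option linter.unusedSectionVars false

noncomputable section

namespace RC

open MeasureTheory Set Filter Topology Metric

variable {X : Type} [MetricSpace X] [ProperSpace X] [MeasurableSpace X] [BorelSpace X] {n : ℕ}

theorem vch_eq (S : Set X) : (μHE[n] : Measure X) S =
    cH n * OuterMeasure.mkMetric' (fun s : Set X => ediam s ^ (n : ℝ)) S := by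
  have e : (μH[n] : Measure X) S = OuterMeasure.mkMetric' (fun s : Set X => ediam s ^ (n : ℝ)) S :=
    (congrFun (OuterMeasure.coe_mkMetric (X := X) fun r => r ^ (n : ℝ)) S).symm
  rw [← e]
  rfl

theorem vch_eq' (S : Set X) : (μHE[n] : Measure X) S = cH n * (μH[n] : Measure X) S := rfl

theorem vch_Hc (δ : ℝ) (S : Set X) : Hc X n δ S =
    cH n * OuterMeasure.mkMetric'.pre (fun s : Set X => ediam s ^ (n : ℝ)) (ENNReal.ofReal δ) S :=
  rfl

theorem ωE_pos (n : ℕ) : 0 < ωE n :=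
  ENNReal.toReal_pos (measure_ball_pos _ _ one_pos).ne' measure_ball_lt_top.ne

theorem vol_ball_euc (n : ℕ) (v : Euc n) {s : ℝ} (hs : 0 ≤ s) :
    (volume : Measure (Euc n)).real (closedBall v s) = s ^ n * ωE n ∧
      (0 < s → (volume : Measure (Euc n)).real (ball v s) = s ^ n * ωE n) := by
  constructor
  · rw [Measure.addHaar_real_closedBall _ _ hs, finrank_euclideanSpace_fin]
    rfl
  · intro h
    rw [measureReal_def, Measure.addHaar_ball_of_pos _ _ h, finrank_euclideanSpace_fin,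
      ENNReal.toReal_mul, ENNReal.toReal_ofReal (pow_nonneg hs n)]
    rfl

theorem Hc_le {δ : ℝ} (hδ : 0 < δ) (S : Set X) : Hc X n δ S ≤ (μHE[n] : Measure X) S := by
  rw [vch_eq, vch_Hc]
  refine mul_le_mul_right ?_ _
  exact le_iSup₂ (f := fun r (_ : r > 0) =>
    OuterMeasure.mkMetric'.pre (fun s : Set X => ediam s ^ (n : ℝ)) r) (ENNReal.ofReal δ)
    (ENNReal.ofReal_pos.2 hδ) S

theorem le_of_Hc {S : Set X} {M : ENNReal} (h : ∀ δ, 0 < δ → Hc X n δ S ≤ M) :
    (μHE[n] : Measure X) S ≤ M := by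
  rw [vch_eq, OuterMeasure.mkMetric'.eq_iSup_nat, OuterMeasure.iSup_apply, ENNReal.mul_iSup]
  refine iSup_le fun k => le_trans ?_ (h (1 / (k + 1)) Nat.one_div_pos_of_nat)
  rw [vch_Hc]
  refine mul_le_mul_right (OuterMeasure.mkMetric'.mono_pre _ ?_ S) _
  rw [one_div, ENNReal.ofReal_inv_of_pos (Nat.cast_add_one_pos k)]
  refine ENNReal.inv_le_inv.2 ?_
  rw [← ENNReal.ofReal_natCast]
  exact ENNReal.ofReal_le_ofReal (by linarith)

theorem Hc_anti {δ δ' : ℝ} (h : δ ≤ δ') (S : Set X) : Hc X n δ' S ≤ Hc X n δ S := by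
  rw [vch_Hc, vch_Hc]
  exact mul_le_mul_right (OuterMeasure.mkMetric'.mono_pre _ (ENNReal.ofReal_le_ofReal h) S) _

theorem Hc_diam {δ s : ℝ} {S : Set X} (hs : 0 ≤ s) (hδ : s ≤ δ)
    (h : ∀ a ∈ S, ∀ b ∈ S, dist a b ≤ s) : Hc X n δ S ≤ ENNReal.ofReal (cH n * s ^ n) := by
  have h1 : ediam S ≤ ENNReal.ofReal s := ediam_le_of_forall_dist_le h
  rw [vch_Hc, ENNReal.ofReal_mul (NNReal.coe_nonneg _), ENNReal.ofReal_coe_nnreal]
  refine mul_le_mul_right ((OuterMeasure.mkMetric'.pre_le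
    (h1.trans (ENNReal.ofReal_le_ofReal hδ))).trans ?_) _
  rw [ENNReal.rpow_natCast, ENNReal.ofReal_pow hs]
  exact pow_le_pow_left' h1 n

/-- The area inequality. -/
theorem area_le {F : X → Euc n} {S : Set X} {L : ℝ} (hL : 0 ≤ L)
    (h : ∀ a ∈ S, ∀ b ∈ S, dist (F a) (F b) ≤ L * dist a b) :
    (volume : Measure (Euc n)) (F '' S) ≤ ENNReal.ofReal (L ^ n) * (μHE[n] : Measure X) S := by
  have h1 : LipschitzOnWith L.toNNReal F S := LipschitzOnWith.of_dist_le_mul fun a ha b hb => by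
    rw [Real.coe_toNNReal _ hL]
    exact h a ha b hb
  have h2 := h1.hausdorffMeasure_image_le (d := n) (Nat.cast_nonneg n)
  rw [← EuclideanSpace.euclideanHausdorffMeasure_eq_volume, vch_eq', vch_eq', mul_left_comm]
  refine mul_le_mul_right ?_ _
  rw [ENNReal.rpow_natCast] at h2
  rw [ENNReal.ofReal_pow hL]
  exact h2

/-- Comparison of the measure of small balls with their content. -/
theorem vitali_le {U : Set X} (hU : IsOpen U) (h0 : (μHE[n] : Measure X) U ≠ 0)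
    (hfin : ∀ (x : X) r, (μHE[n] : Measure X) (ball x r) < ⊤) (hb : Bornology.IsBounded U)
    {C r₀ : ℝ} (hr : 0 < r₀) (hd : ∀ (x : X) r, 0 < r → r ≤ r₀ →
      (μHE[n] : Measure X).real (ball x (2 * r)) ≤ C * (μHE[n] : Measure X).real (ball x r))
    {a b : ℝ} (hb0 : 0 ≤ b)
    (h : ∀ᵐ x ∂(μHE[n] : Measure X), x ∈ U → ∃ᶠ r in 𝓝[>] (0 : ℝ),
      a * r ^ n ≤ (μHE[n] : Measure X).real (ball x r) ∧
        Hc X n (10 * r) (closedBall x r) ≤ ENNReal.ofReal (b * r ^ n)) : a ≤ b := by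
  refine le_of_not_gt fun hab => ?_
  have ha : 0 < a := hb0.trans_lt hab
  have key := @le_of_Hc X _ _ _ _ n
  have kle := @Hc_le X _ _ _ _ n
  generalize (μHE[n] : Measure X) = μ at *
  have lf : IsLocallyFiniteMeasure μ := ⟨fun x => ⟨ball x 1, ball_mem_nhds x one_pos, hfin x 1⟩⟩
  have hU' : μ U ≠ ⊤ := hb.measure_lt_top.ne
  have hd' : ∀ (x : X) r, 0 < r → r ≤ r₀ → μ.real (ball x (2 * r)) ≤ max C 0 * μ.real (ball x r) :=
    fun x r h1 h2 => (hd x r h1 h2).trans
      (mul_le_mul_of_nonneg_right (le_max_left _ _) measureReal_nonneg)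
  have main : μ U ≤ ENNReal.ofReal (b / a) * μ U := by
    refine key fun δ hδ => ?_
    refine Exists.elim (Vitali.exists_disjoint_covering_ae μ
      {x | x ∈ U ∧ ∃ᶠ r in 𝓝[>] (0 : ℝ), a * r ^ n ≤ μ.real (ball x r) ∧
        Hc X n (10 * r) (closedBall x r) ≤ ENNReal.ofReal (b * r ^ n)}
      {p : X × ℝ | 0 < p.2 ∧ 10 * p.2 ≤ δ ∧ 2 * p.2 ≤ r₀ ∧ closedBall p.1 p.2 ⊆ U ∧
        a * p.2 ^ n ≤ μ.real (ball p.1 p.2) ∧
        Hc X n (10 * p.2) (closedBall p.1 p.2) ≤ ENNReal.ofReal (b * p.2 ^ n)}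
      (max C 0 * max C 0).toNNReal (fun p => p.2) (fun p => p.1) (fun p => closedBall p.1 p.2)
      (fun p _ => subset_rfl) ?_ ?_ (fun p _ => isClosed_closedBall) ?_) ?_
    rotate_right
    · rintro u ⟨hut, huc, hud, hu0⟩
      have c1 : U ⊆ ({x | ¬ (x ∈ U → ∃ᶠ r in 𝓝[>] (0 : ℝ), a * r ^ n ≤ μ.real (ball x r) ∧
          Hc X n (10 * r) (closedBall x r) ≤ ENNReal.ofReal (b * r ^ n))} ∪
          ({x | x ∈ U ∧ ∃ᶠ r in 𝓝[>] (0 : ℝ), a * r ^ n ≤ μ.real (ball x r) ∧
          Hc X n (10 * r) (closedBall x r) ≤ ENNReal.ofReal (b * r ^ n)} \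
          ⋃ p ∈ u, closedBall p.1 p.2)) ∪ ⋃ p ∈ u, closedBall p.1 p.2 := by
        intro x hx
        by_cases h1 : x ∈ ⋃ p ∈ u, closedBall p.1 p.2
        · exact Or.inr h1
        · refine Or.inl ?_
          by_cases h2 : ∃ᶠ r in 𝓝[>] (0 : ℝ), a * r ^ n ≤ μ.real (ball x r) ∧
            Hc X n (10 * r) (closedBall x r) ≤ ENNReal.ofReal (b * r ^ n)
          · exact Or.inr ⟨⟨hx, h2⟩, h1⟩
          · exact Or.inl fun h3 => h2 (h3 hx)
      refine (measure_mono c1).trans ((measure_union_le _ _).trans ?_)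
      rw [le_antisymm ((kle hδ _).trans (measure_union_null (ae_iff.1 h) hu0).le) zero_le,
        zero_add]
      refine (measure_biUnion_le _ huc _).trans ?_
      have c2 : μ (⋃ p ∈ u, closedBall p.1 p.2) ≤ μ U :=
        measure_mono (iUnion₂_subset fun p hp => (hut hp).2.2.2.1)
      refine le_trans ?_ (mul_le_mul_right c2 _)
      rw [measure_biUnion huc hud fun p _ => measurableSet_closedBall, ← ENNReal.tsum_mul_left]
      refine ENNReal.tsum_le_tsum fun p => ?_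
      obtain ⟨p1, p2, -, -, p5, p6⟩ := hut p.2
      refine (Hc_anti p2 _).trans (p6.trans ?_)
      refine le_trans ?_ (mul_le_mul_right (measure_mono ball_subset_closedBall) _)
      rw [← ofReal_measureReal (hfin _ _).ne, ← ENNReal.ofReal_mul (div_nonneg hb0 ha.le)]
      refine ENNReal.ofReal_le_ofReal ?_
      refine le_trans (le_of_eq ?_) (mul_le_mul_of_nonneg_left p5 (div_nonneg hb0 ha.le))
      field_simp
    · rintro ⟨x, r⟩ ⟨p1, -, p3, -⟩
      simp only at p1 p3 ⊢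
      have c1 : μ (closedBall x (3 * r)) ≤ μ (ball x (2 * (2 * r))) :=
        measure_mono (closedBall_subset_ball (by linarith))
      refine c1.trans (le_trans ?_ (mul_le_mul_right (measure_mono ball_subset_closedBall) _))
      rw [← ofReal_measureReal (hfin x (2 * (2 * r))).ne, ← ofReal_measureReal (hfin x r).ne]
      change _ ≤ ENNReal.ofReal _ * _
      rw [← ENNReal.ofReal_mul (mul_self_nonneg _), mul_assoc]
      refine ENNReal.ofReal_le_ofReal ((hd' x _ (by linarith) p3).trans ?_)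
      exact mul_le_mul_of_nonneg_left (hd' x r p1 (by linarith)) (le_max_right _ _)
    · rintro ⟨x, r⟩ ⟨p1, -⟩
      exact ⟨x, interior_mono ball_subset_closedBall
        (by rw [isOpen_ball.interior_eq]; exact mem_ball_self p1)⟩
    · rintro x ⟨hx, hfr⟩ ε hε
      obtain ⟨ρ, hρ, hρU⟩ := Metric.isOpen_iff.1 hU x hx
      have e1 : ∀ c : ℝ, 0 < c → ∀ᶠ r in 𝓝[>] (0 : ℝ), r < c := fun c hc =>
        (gt_mem_nhds hc : ∀ᶠ r in 𝓝 (0 : ℝ), r < c).filter_mono nhdsWithin_le_nhds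
      obtain ⟨r, q0, q1, q2, q3, q4, q5⟩ := (hfr.and_eventually ((e1 ε hε).and ((e1 ρ hρ).and
        ((e1 (δ / 10) (by linarith)).and ((e1 (r₀ / 2) (by linarith)).and
          self_mem_nhdsWithin))))).exists
      exact ⟨(x, r), ⟨q5, by simp only; linarith, by simp only; linarith,
        (closedBall_subset_ball q2).trans hρU, q0.1, q0.2⟩, q1.le, rfl⟩
  have h1 : ENNReal.ofReal (b / a) < 1 := ENNReal.ofReal_lt_one.2 ((div_lt_one ha).2 hab)
  have h2 := ENNReal.mul_lt_mul_left h0 hU' h1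
  rw [one_mul] at h2
  exact absurd main (not_le.2 h2)

end RC
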