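import Pool.Agent.P.MP_6472e5_gt.VcG

/-! Almost splitting maps give tame Gram matrices. -/

set_option autoImplicit false
set_option linter.unusedSectionVars false

noncomputable section

namespace RC

open MeasureTheory Set Filter Topology Metric

variable {X : Type} [MetricSpace X] [ProperSpace X] [MeasurableSpace X] [BorelSpace X]
  {μ : Measure X} {D : DS μ} {κ : ℝ} {n : ℕ}

variable {l : Filter ℕ} {y : ℕ → X} {r : ℕ → ℝ}

theorem vcj_lc (F : X → Euc n) (b c : Fin n) (s : ℝ) :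
    lc (EuclideanSpace.single b 1 + EuclideanSpace.single c s) F =
      (fun a => F a b) + s • fun a => F a c := by
  funext a
  simp [lc, add_mul, Finset.sum_add_distrib]

theorem vcj_norm {b c : Fin n} (h : b ≠ c) (s : ℝ) :
    ‖(EuclideanSpace.single b 1 + EuclideanSpace.single c s : Euc n)‖ ^ 2 = 1 + s ^ 2 := by
  rw [norm_add_sq_real]
  simp [EuclideanSpace.inner_single_left, h]

theorem vcj_eta {x : X} {r η : ℝ} (hr : 0 < r) {F LF : X → Euc n} (h : Good D n x r η F LF) :
    0 ≤ η := (abs_nonneg _).trans (h.app x (mem_ball_self (by positivity)))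

theorem vcj_int {x : X} {r η : ℝ} {F LF : X → Euc n} (h : Good D n x r η F LF) (b : Fin n)
    (k s : ℝ) : IntegrableOn
      (fun a => k - r ^ 2 * D.G (fun a => F a b) (fun a => F a b) a) (ball x s) μ :=
  (vcg_const D _ _ k).sub ((DS.G_int (h.tb b).mem (h.tb b).mem).const_mul _).integrableOn

theorem vcj_le {x : X} {r η : ℝ} {F LF : X → Euc n} (h : Good D n x r η F LF) (b : Fin n) :
    ∀ᵐ a ∂μ, r ^ 2 * D.G (fun a => F a b) (fun a => F a b) a ≤ 1 + η := by
  filter_upwards [h.glob b] with a ha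
  have : 0 ≤ 2 / (n : ℝ) * (r ^ 2 * LF a b) ^ 2 := by positivity
  linarith

theorem vcj_H (hs : VSeq μ n l y r) {η : ℕ → ℝ} (hη : Tendsto η l (𝓝 0))
    {F LF : ℕ → X → Euc n} (hF : ∀ᶠ i in l, Good D n (y i) (r i) (η i) (F i) (LF i)) (b : Fin n) :
    Tendsto (fun i => (r i ^ n)⁻¹ * ∫ a in ball (y i) (10 * r i),
      (1 + 2 * η i - r i ^ 2 * D.G (fun a => F i a b) (fun a => F i a b) a) ∂μ) l (𝓝 0) := by
  obtain ⟨C, hC⟩ := hs.up
  have hl := hη.mul_const (1 + 2 * C)
  rw [zero_mul] at hl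
  refine squeeze_zero' ?_ ?_ hl
  · filter_upwards [hF] with i hi
    have := hs.pos i
    refine mul_nonneg (by positivity) (integral_nonneg_of_ae (ae_restrict_of_ae ?_))
    filter_upwards [vcj_le hi b] with a ha
    have := vcj_eta (hs.pos i) hi
    simp only [Pi.zero_apply]
    linarith
  · filter_upwards [hF, hC] with i hi hv
    have hp : 0 < r i ^ n := pow_pos (hs.pos i) n
    have e : ∫ a in ball (y i) (10 * r i),
        (1 + 2 * η i - r i ^ 2 * D.G (fun a => F i a b) (fun a => F i a b) a) ∂μ =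
        ∫ a in ball (y i) (10 * r i),
          (1 - r i ^ 2 * D.G (fun a => F i a b) (fun a => F i a b) a) ∂μ +
          μ.real (ball (y i) (10 * r i)) * (2 * η i) := by
      rw [← smul_eq_mul (μ.real _), ← setIntegral_const,
        ← integral_add (vcj_int hi b 1 _) (vcg_const D _ _ _)]
      congr 1
      ext a
      ring
    rw [e, inv_mul_le_iff₀ hp]
    have h1 := mul_le_mul_of_nonneg_right hv (vcj_eta (hs.pos i) hi)
    linarith [hi.low b]

theorem good_lap (h : HP D κ n) (hs : VSeq μ n l y r) {η : ℕ → ℝ} (hη : Tendsto η l (𝓝 0))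
    {F LF : ℕ → X → Euc n} (hF : ∀ᶠ i in l, Good D n (y i) (r i) (η i) (F i) (LF i)) (b : Fin n) :
    Tendsto (fun i => (r i ^ n)⁻¹ *
      ∫ a in ball (y i) (10 * r i), (r i ^ 2 * LF i a b) ^ 2 ∂μ) l (𝓝 0) ∧
    Tendsto (fun i => (r i ^ n)⁻¹ *
      ∫ a in ball (y i) (10 * r i), |r i ^ 2 * LF i a b| ∂μ) l (𝓝 0) := by
  have hk := fun i => inv_nonneg.2 (pow_pos (hs.pos i) n).le
  have h1 : Tendsto (fun i => (r i ^ n)⁻¹ *
      ∫ a in ball (y i) (10 * r i), (r i ^ 2 * LF i a b) ^ 2 ∂μ) l (𝓝 0) := by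
    refine vct_sq hk (n / 2) 0 ?_ (vcj_H hs hη hF b) (vcj_H hs hη hF b)
    filter_upwards [hF] with i hi
    refine ⟨vcj_int hi b _ _, vcj_int hi b _ _, ae_restrict_of_ae ?_⟩
    filter_upwards [hi.glob b] with a ha
    refine ⟨sq_nonneg _, ?_⟩
    have hn : (0 : ℝ) < n := by exact_mod_cast h.n_pos
    have h0 := vcj_eta (hs.pos i) hi
    have e : (r i ^ 2 * LF i a b) ^ 2 = n / 2 * (2 / n * (r i ^ 2 * LF i a b) ^ 2) := by
      field_simp
    rw [e, zero_mul, add_zero]
    exact mul_le_mul_of_nonneg_left (by linarith) (by positivity)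
  exact ⟨h1, vcg_abs D hs le_rfl (u := fun i a => r i ^ 2 * LF i a b)
    (hF.mono fun i hi => (D.memLp _ (hi.tb b).memL).const_mul _) h1⟩

theorem good_tame (h : HP D κ n) (hs : VSeq μ n l y r) {η : ℕ → ℝ} (hη : Tendsto η l (𝓝 0))
    {F LF : ℕ → X → Euc n} (hF : ∀ᶠ i in l, Good D n (y i) (r i) (η i) (F i) (LF i))
    (b c : Fin n) : Tame D n l y r
      (fun i a => r i ^ 2 * D.G (fun a => F i a b) (fun a => F i a c) a)
      (if b = c then 1 else 0) := by
  have hk := fun i => inv_nonneg.2 (pow_pos (hs.pos i) n).le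
  have hη1 : ∀ᶠ i in l, η i < 1 := hη (Iio_mem_nhds one_pos)
  have diag : ∀ b : Fin n, Tame D n l y r
      (fun i a => r i ^ 2 * D.G (fun a => F i a b) (fun a => F i a b) a) 1 := by
    intro b
    refine tame_G h hs (f := fun i a => F i a b) (Lf := fun i a => LF i a b) (M := 2)
      (by norm_num) ?_ ?_ (good_lap h hs hη hF b).1
    · filter_upwards [hF, hη1] with i hi h1
      exact ⟨hi.tb b, (vcj_le hi b).mono fun a ha _ => by linarith⟩
    · refine vct_sq hk 1 0 ?_ (vcj_H hs hη hF b) (vcj_H hs hη hF b)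
      filter_upwards [hF] with i hi
      refine ⟨vcj_int hi b _ _, vcj_int hi b _ _, ae_restrict_of_ae ?_⟩
      filter_upwards [vcj_le hi b] with a ha
      have h0 := vcj_eta (hs.pos i) hi
      exact ⟨abs_nonneg _, abs_le.2 ⟨by linarith, by linarith⟩⟩
  by_cases hbc : b = c
  · subst hbc
    rw [if_pos rfl]
    exact diag b
  rw [if_neg hbc]
  have hlip : ∀ᶠ i in l, ∀ s : ℝ, s ^ 2 = 1 → ∀ᵐ a ∂μ, a ∈ ball (y i) (10 * r i) →
      r i ^ 2 * D.G (fun a => F i a b) (fun a => F i a b) a +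
        2 * (s * (r i ^ 2 * D.G (fun a => F i a b) (fun a => F i a c) a)) +
        r i ^ 2 * D.G (fun a => F i a c) (fun a => F i a c) a ≤ (1 + η i) * 2 := by
    filter_upwards [hF] with i hi s hs1
    have h1 := hi.lip (EuclideanSpace.single b 1 + EuclideanSpace.single c s)
    rw [vcj_lc, vcj_norm hbc, hs1] at h1
    filter_upwards [h1, DS.G_add_add (hi.tb b).W ((hi.tb c).W.smul s),
      DS.G_smul_right s (hi.tb b).W (hi.tb c).W, DS.G_smul_smul s (hi.tb c).W] with a e1 e2 e3 e4 ha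
    have e5 := e1 ha
    rw [e2, e3, e4, hs1] at e5
    linarith
  have hsum : Tame D n l y r (fun i a => r i ^ 2 *
      D.G ((fun a => F i a b) + fun a => F i a c) ((fun a => F i a b) + fun a => F i a c) a) 2 := by
    refine tame_G h hs (f := fun i => (fun a => F i a b) + fun a => F i a c)
      (Lf := fun i => (fun a => LF i a b) + fun a => LF i a c) (M := 4) (by norm_num) ?_ ?_ ?_
    · filter_upwards [hF, hη1, hlip] with i hi h1 h2
      refine ⟨(hi.tb b).add (hi.tb c), ?_⟩
      filter_upwards [h2 1 (by norm_num), DS.G_add_add (hi.tb b).W (hi.tb c).W] with a e1 e2 ha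
      rw [e2]
      linarith [e1 ha]
    · refine vct_sq hk 2 2 ?_ (vcj_H hs hη hF b) (vcj_H hs hη hF c)
      filter_upwards [hF, hlip] with i hi h2
      refine ⟨vcj_int hi b _ _, vcj_int hi c _ _, (ae_restrict_iff' measurableSet_ball).2 ?_⟩
      filter_upwards [h2 1 (by norm_num), h2 (-1) (by norm_num), vcj_le hi b, vcj_le hi c,
        DS.G_add_add (hi.tb b).W (hi.tb c).W] with a e1 e2 e3 e4 e5 ha
      have h0 := vcj_eta (hs.pos i) hi
      rw [e5]
      exact ⟨abs_nonneg _, abs_le.2 ⟨by linarith [e2 ha], by linarith [e1 ha]⟩⟩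
    · refine vct_sq hk 2 2 ?_ (good_lap h hs hη hF b).1 (good_lap h hs hη hF c).1
      filter_upwards [hF] with i hi
      refine ⟨((D.memLp _ (hi.tb b).memL).const_mul _).integrable_sq.integrableOn,
        ((D.memLp _ (hi.tb c).memL).const_mul _).integrable_sq.integrableOn,
        ae_of_all _ fun a => ⟨sq_nonneg _, ?_⟩⟩
      simp only [Pi.add_apply]
      nlinarith [sq_nonneg (r i ^ 2 * LF i a b - r i ^ 2 * LF i a c)]
  have hall := ((tame_const (1 / 2)).mul hs hsum).add hs
    ((tame_const (-1 / 2)).mul hs ((diag b).add hs (diag c)))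
  rw [show (1 / 2 * 2 + -1 / 2 * (1 + 1) : ℝ) = 0 by norm_num] at hall
  refine hall.congr ?_
  filter_upwards [hF] with i hi
  filter_upwards [DS.G_add_add (hi.tb b).W (hi.tb c).W] with a ha
  simp only [Pi.add_apply, Pi.mul_apply, ha]
  ring

end RC
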