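import Pool.Agent.P.MP_6472e5_gt.VcC
import Pool.Agent.P.MP_6472e5_gt.St
import Pool.Agent.P.MP_6472e5_gt.BlB

/-! Lower bounds for the monotone quantity. -/

set_option autoImplicit false
set_option linter.unusedSectionVars false

noncomputable section

namespace RC

open MeasureTheory Set Filter Topology Metric

variable {X : Type} [MetricSpace X] [ProperSpace X] [MeasurableSpace X] [BorelSpace X]
  {κ : ℝ} {n : ℕ}

theorem vcl_core {D : DS (μHE[n] : Measure X)} (h : HP D κ n) {x : X} {c a b : ℝ}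
    (hx : D.Θ0 n x < c) (hb : 0 ≤ b)
    (H : ∀ᵐ z ∂(μHE[n] : Measure X), D.Θ0 n z < c → ∃ᶠ r in 𝓝[>] (0 : ℝ),
      a * r ^ n ≤ (μHE[n] : Measure X).real (ball z r) ∧
        Hc X n (10 * r) (closedBall z r) ≤ ENNReal.ofReal (b * r ^ n)) : a ≤ b := by
  obtain ⟨r₀, h0, -, h1⟩ := h.exists_scale
  obtain ⟨C, -, hC⟩ := h.dbl
  have hU : IsOpen (D.Θ0 n ⁻¹' Iio c ∩ ball x 1) :=
    (h.Θ0_usc.isOpen_preimage c).inter isOpen_ball
  obtain ⟨ρ, hρ, h2⟩ := Metric.isOpen_iff.1 hU x ⟨hx, mem_ball_self one_pos⟩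
  exact vitali_le hU ((h.pos x ρ hρ).trans_le (measure_mono h2)).ne' D.fin
    (isBounded_ball.subset inter_subset_right) h0
    (fun z r hr hr' => hC z r hr (h1 r hr.le hr')) hb (H.mono fun z hz hzU => hz hzU.1)

theorem n0_haus {D : DS (μHE[n] : Measure X)} (h : HP D κ n) : N0 D n := by
  obtain ⟨r₀, h0, -, h1⟩ := h.exists_scale
  obtain ⟨C, hC0, hC⟩ := h.vol
  have hb : 0 ≤ (cH n : ℝ) * 2 ^ n := by positivity
  refine ⟨(C * (cH n * 2 ^ n + 1))⁻¹, by positivity, fun x => le_of_not_gt fun hx => ?_⟩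
  have key := vcl_core (a := cH n * 2 ^ n + 1) h hx hb (Eventually.of_forall fun z hz => ?_)
  · linarith
  refine Eventually.frequently ?_
  filter_upwards [(h.Θ_lim z).eventually (gt_mem_nhds hz), Ioc_mem_nhdsGT h0] with r a1 a2
  have hr := a2.1
  constructor
  · have a3 := mul_le_mul_of_nonneg_left (hC z r hr (h1 r hr.le a2.2)).1 (pow_pos hr n).le
    rw [← mul_assoc] at a3
    have a4 := a3.trans (mul_le_mul_of_nonneg_right a1.le measureReal_nonneg)
    rw [le_inv_mul_iff₀ (by positivity)] at a4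
    refine le_of_eq_of_le ?_ a4
    field_simp
  · rw [mul_assoc, ← mul_pow]
    refine Hc_diam (by positivity) (by linarith) fun a ha b hb => ?_
    linarith [dist_triangle_right a b z, mem_closedBall.1 ha, mem_closedBall.1 hb]

theorem low_haus [HasBlow (n + 1)] {D : DS (μHE[n + 1] : Measure X)} (h : HP D κ (n + 1))
    (x : X) : θ (n + 1) ≤ D.Θ0 (n + 1) x := by
  have h0 := n0_haus h
  refine le_of_not_gt fun hx => ?_
  obtain ⟨c, hc1, hc2⟩ := exists_between hx
  obtain ⟨c₀, hc₀, hc3⟩ := id h0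
  have hc : 0 < c := hc₀.trans_le ((hc3 x).trans hc1.le)
  have hω := ωE_pos (n + 1)
  have hθ := θ_pos (n + 1)
  have h1 : 1 < θ (n + 1) / c := (one_lt_div hc).2 hc2
  have hε : 0 < (θ (n + 1) / c - 1) * ωE (n + 1) / 4 := by
    have := sub_pos.2 h1
    positivity
  obtain ⟨η, hη, hch⟩ := Hc_chart n.succ_pos hε
  have h2 : (μHE[n + 1] : Measure X) {z | NoAx D (n + 1) n z} = 0 := by
    have := strat h h0 n
    generalize {z | NoAx D (n + 1) n z} = S at this ⊢
    rw [← Nat.cast_succ] at this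
    rw [Measure.euclideanHausdorffMeasure_def, Measure.smul_apply, this, smul_zero]
  have key := vcl_core (a := θ (n + 1) / c * ωE (n + 1) - (θ (n + 1) / c - 1) * ωE (n + 1) / 4)
    h hc1 (add_pos hω hε).le ?_
  · linarith
  filter_upwards [measure_eq_zero_iff_ae_notMem.1 h2] with z hz hzc
  obtain ⟨U, r, B, A, hA, hν⟩ := exists_euc h hz
  obtain ⟨i1, i2, i3⟩ := A.isometry_a hA
  have hz0 : 0 < D.Θ0 (n + 1) z := hc₀.trans_le (hc3 z)
  have a1 : B.ν.real (ball B.e 1) = θ (n + 1) / D.Θ0 (n + 1) z * ωE (n + 1) := by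
    rw [← i1.preimage_ball, i3, ← map_measureReal_apply i1.continuous.measurable
      measurableSet_ball, hν, measureReal_ennreal_smul_apply,
      ENNReal.toReal_ofReal (by positivity), ωE]
  have a2 : θ (n + 1) / c * ωE (n + 1) ≤ B.ν.real (ball B.e 1) := by
    rw [a1]
    gcongr
  have a3 : 0 < min (η / 2) 1 := lt_min (half_pos hη) one_pos
  refine (tendsto_nhdsWithin_iff.2 ⟨B.seq.lim, Eventually.of_forall B.seq.pos⟩).frequently
    (Eventually.frequently ?_)
  filter_upwards [B.ball_ge B.lf_base 1 hε,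
    B.chart B.lf_base one_pos le_rfl (ghApprox_euc i1 i2 B.e one_pos 3 le_rfl) a3] with i b1 b2
  obtain ⟨φ, b2, -⟩ := b2
  have hr := B.seq.pos i
  rw [one_mul] at b1 b2
  refine ⟨le_trans (by gcongr) b1, hch X z (r i) φ hr (b2.mono hr ?_ ?_ (by linarith))⟩
  · linarith [min_le_right (η / 2) 1]
  · linarith [min_le_left (η / 2) 1]

end RC
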