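import Pool.Agent.P.MP_6472e5_gt.Ca5

/-! The cofactor identity. -/

set_option autoImplicit false
set_option linter.unusedSectionVars false

noncomputable section

namespace RC

open MeasureTheory Set Filter Topology Metric

variable {X : Type} [MetricSpace X] [ProperSpace X] [MeasurableSpace X] [BorelSpace X]
  {μ : Measure X} {D : DS μ} {κ : ℝ} {n : ℕ}

theorem vcs_key {x : X} {ρ : ℝ} (hρ : 0 < ρ) {f Lf q : X → ℝ} (hf : D.Lap f Lf) (hq : D.W q)
    (bq : LocBdd μ q) (h0 : ∀ y ∈ ball x (2 * ρ), y ∉ ball x ρ → q y = 0) :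
    ∫ y in ball x ρ, D.G f q y ∂μ = -∫ y in ball x ρ, Lf y * q y ∂μ := by
  obtain ⟨χ, hχ, h01, h1, h2, -⟩ := exists_cutoff_ball x (show ρ < 2 * ρ by linarith)
  have hφ : D.W (χ * q) := D.W_of_mem (hq χ hχ)
  have hz : ∀ y, y ∉ ball x ρ → (χ * q) y = 0 := fun y hy => by
    by_cases h : y ∈ ball x (2 * ρ)
    · rw [Pi.mul_apply, h0 y h hy, mul_zero]
    · rw [Pi.mul_apply, h2 y h, zero_mul]
  have he : ∀ y ∈ ball x ρ, (χ * q) y = q y := fun y hy => by
    rw [Pi.mul_apply, h1 y (ball_subset_closedBall hy), one_mul]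
  have bφ : Bdd μ (χ * q) := by
    obtain ⟨C, hC⟩ := bq x ρ
    refine ⟨max C 0, hC.mono fun y hy => ?_⟩
    by_cases h : y ∈ ball x ρ
    · rw [he y h]
      exact le_max_of_le_left (hy h)
    · rw [hz y h, abs_zero]
      exact le_max_right _ _
  have k := (hf.test_bdd hφ bφ (ae_of_all _ hz)).2
  rw [← integral_indicator measurableSet_ball, ← integral_indicator measurableSet_ball]
  have e1 : (ball x ρ).indicator (fun y => D.G f q y) =ᵐ[μ] D.G f (χ * q) := by
    filter_upwards [DS.G_loc hf.1 hf.1 hφ hq, DS.G_symm hf.1 hφ, DS.G_level hφ hf.1 0]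
      with y a1 a2 a3
    by_cases h : y ∈ ball x ρ
    · rw [indicator_of_mem h, a1 rfl (he y h)]
    · rw [indicator_of_notMem h, a2, a3 (hz y h)]
  have e2 : (ball x ρ).indicator (fun y => Lf y * q y) = fun y => Lf y * (χ * q) y := by
    funext y
    by_cases h : y ∈ ball x ρ
    · rw [indicator_of_mem h, he y h]
    · rw [indicator_of_notMem h, hz y h, mul_zero]
  rw [integral_congr_ae e1, e2, k]

/-- The variation of the push-forward of the weighted measure. -/
theorem vc_var {x : X} {ρ : ℝ} (hρ : 0 < ρ) {F LF : X → Euc n}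
    (hF : ∀ b, D.Lap (fun y => F y b) (fun y => LF y b)) {c : Fin n → X → ℝ} {w : X → ℝ}
    {j : Fin n} (hc : ∀ b, D.W (c b) ∧ LocBdd μ (c b))
    (hw : ∀ k, ∀ᵐ y ∂μ, ∑ b, c b y * D.G (fun y => F y b) (fun y => F y k) y =
      if k = j then w y else 0)
    {ψ : Euc n → ℝ} (hψ : ContDiff ℝ 1 ψ) {L : NNReal} (hL : LipschitzWith L ψ)
    (h1 : ∀ v, |ψ v| ≤ 1)
    (h0 : ∀ y ∈ ball x (2 * ρ), y ∉ ball x ρ → ψ (F y) = 0 ∧ fderiv ℝ ψ (F y) = 0) :
    |∫ y in ball x ρ, fderiv ℝ ψ (F y) (EuclideanSpace.single j 1) * w y ∂μ| ≤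
      ∑ b, ∫ y in ball x ρ, (|c b y * LF y b| + |D.G (c b) (fun y => F y b) y|) ∂μ := by
  obtain ⟨hP, hch⟩ := DS.W.chain_vec (fun b => (hF b).1) hψ hL
  have bP : Bdd μ (fun y => ψ (F y)) := ⟨1, ae_of_all _ fun y => h1 _⟩
  have hq : ∀ b, D.W ((fun y => ψ (F y)) * c b) := fun b =>
    hP.mul (hc b).1 bP.locBdd (hc b).2
  have key := fun b => vcs_key hρ (hF b) (hq b) (bP.locBdd.mul (hc b).2)
    (fun y hy hy' => by rw [Pi.mul_apply, (h0 y hy hy').1, zero_mul])
  have i1 := fun b => DS.G_locInt (hF b).1 (hq b) x ρ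
  have i0 := fun b => DS.G_locInt (hc b).1 (hF b).1 x ρ
  have i2 := fun b => bP.locBdd.mul_locInt hP.aesm (DS.G_locInt (hc b).1 (hF b).1) x ρ
  have i3 := fun b => (hc b).2.mul_locInt (hc b).1.aesm (hF b).2.1 x ρ
  have e : ∀ᵐ y ∂μ, fderiv ℝ ψ (F y) (EuclideanSpace.single j 1) * w y =
      ∑ b, (D.G (fun y => F y b) ((fun y => ψ (F y)) * c b) y -
        ψ (F y) * D.G (c b) (fun y => F y b) y) := by
    filter_upwards [ae_all_iff.2 hw,
      ae_all_iff.2 fun b => DS.G_mul_right hP (hc b).1 (hq b) (hF b).1,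
      ae_all_iff.2 fun b => DS.G_symm (hF b).1 (hc b).1,
      ae_all_iff.2 fun b => DS.G_symm (hF b).1 hP,
      ae_all_iff.2 fun b => hch _ (hF b).1,
      ae_all_iff.2 fun b => ae_all_iff.2 fun k => DS.G_symm (hF k).1 (hF b).1]
      with y a1 a2 a3 a4 a5 a6
    have : ∀ b, D.G (fun y => F y b) ((fun y => ψ (F y)) * c b) y -
        ψ (F y) * D.G (c b) (fun y => F y b) y =
        ∑ k, fderiv ℝ ψ (F y) (EuclideanSpace.single k 1) *
          (c b y * D.G (fun y => F y b) (fun y => F y k) y) := fun b => by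
      rw [a2 b, a3 b, a4 b, a5 b, add_sub_cancel_left, Finset.mul_sum]
      refine Finset.sum_congr rfl fun k _ => ?_
      rw [a6 b k]
      ring
    simp only [this]
    rw [Finset.sum_comm]
    simp only [← Finset.mul_sum, a1, mul_ite, mul_zero, Finset.sum_ite_eq', Finset.mem_univ,
      if_true]
  rw [integral_congr_ae (ae_restrict_of_ae e),
    integral_finsetSum _ fun b _ => (i1 b).sub' (i2 b)]
  refine (Finset.abs_sum_le_sum_abs _ _).trans (Finset.sum_le_sum fun b _ => ?_)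
  rw [integral_sub (i1 b) (i2 b), key b, integral_add (i3 b).abs (i0 b).abs]
  refine (abs_sub _ _).trans (add_le_add ?_ ?_)
  · rw [abs_neg]
    refine abs_integral_le_integral_abs.trans (integral_mono_of_nonneg
      (ae_of_all _ fun y => abs_nonneg _) (i3 b).abs (ae_of_all _ fun y => ?_))
    have : LF y b * ((fun y => ψ (F y)) * c b) y = ψ (F y) * (c b y * LF y b) := by
      simp only [Pi.mul_apply]
      ring
    simp only [this]
    rw [abs_mul]
    exact mul_le_of_le_one_left (abs_nonneg _) (h1 _)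
  · refine abs_integral_le_integral_abs.trans (integral_mono_of_nonneg
      (ae_of_all _ fun y => abs_nonneg _) (i0 b).abs (ae_of_all _ fun y => ?_))
    simp only [abs_mul]
    exact mul_le_of_le_one_left (abs_nonneg _) (h1 _)

end RC
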