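import Pool.Agent.P.MP_6472e5_gt.VcH

/-! From small variation to almost surjectivity. -/

set_option autoImplicit false
set_option linter.unusedSectionVars false

noncomputable section

namespace RC

open MeasureTheory Set Filter Topology Metric

variable {X : Type} [MeasurableSpace X] {μ : Measure X} {n : ℕ}

theorem vcu_sum (T : Euc n →L[ℝ] ℝ) (v : Euc n) :
    T v = ∑ j, v j * T (EuclideanSpace.single j 1) := by
  have e : v = ∑ j, v j • (EuclideanSpace.single j 1 : Euc n) := by
    simpa using ((EuclideanSpace.basisFun (Fin n) ℝ).sum_repr v).symm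
  conv_lhs => rw [e]
  simp only [map_sum, map_smul, smul_eq_mul]

theorem vcu_int {F : X → Euc n} (hF : Measurable F) {w : X → ℝ} (hw : Integrable w μ)
    {ψ : Euc n → ℝ} {L : NNReal} (hψ : ContDiff ℝ 1 ψ) (hL : LipschitzWith L ψ) (u v : Euc n) :
    Integrable (fun y => fderiv ℝ ψ (F y + u) v * w y) μ := by
  refine hw.bdd_mul (c := L * ‖v‖) ?_ (ae_of_all _ fun y => ?_)
  · have c1 : Continuous fun z : Euc n => fderiv ℝ ψ (z + u) v :=
      ((hψ.continuous_fderiv one_ne_zero).comp (continuous_id.add continuous_const)).clm_apply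
        continuous_const
    exact (c1.measurable.comp hF).aestronglyMeasurable
  · exact (ContinuousLinearMap.le_opNorm _ _).trans
      (mul_le_mul_of_nonneg_right (norm_fderiv_le_of_lipschitz ℝ hL) (norm_nonneg _))

/-- Translates. -/
theorem vc_shift {F : X → Euc n} (hF : Measurable F) {w : X → ℝ} (hw : Integrable w μ) {η : ℝ}
    (hv : ∀ (ψ : Euc n → ℝ) (L : NNReal), ContDiff ℝ 1 ψ → LipschitzWith L ψ → (∀ v, |ψ v| ≤ 1) →
      (∀ v, 3 ≤ ‖v‖ → ψ v = 0) →
      ∀ j, |∫ y, fderiv ℝ ψ (F y) (EuclideanSpace.single j 1) * w y ∂μ| ≤ η)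
    {ψ : Euc n → ℝ} {L : NNReal} (hψ : ContDiff ℝ 1 ψ) (hL : LipschitzWith L ψ)
    (h1 : ∀ v, |ψ v| ≤ 1) (h0 : ∀ v, 1 ≤ ‖v‖ → ψ v = 0) {v : Euc n} (hv2 : ‖v‖ ≤ 2) :
    ∫ y, ψ (F y + v) * w y ∂μ ≤ ∫ y, ψ (F y) * w y ∂μ + 2 * n * η := by
  have hc := hψ.continuous
  have hd : ∀ s : ℝ, HasDerivAt (fun s : ℝ => ∫ y, ψ (F y + s • v) * w y ∂μ)
      (∫ y, fderiv ℝ ψ (F y + s • v) v * w y ∂μ) s := by
    intro s
    have hm : ∀ s : ℝ, AEStronglyMeasurable (fun y => ψ (F y + s • v)) μ := fun s =>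
      ((hc.comp (continuous_id.add continuous_const)).measurable.comp hF).aestronglyMeasurable
    refine (hasDerivAt_integral_of_dominated_loc_of_deriv_le (μ := μ) (s := univ) (x₀ := s)
      (F := fun s y => ψ (F y + s • v) * w y)
      (F' := fun s y => fderiv ℝ ψ (F y + s • v) v * w y) (bound := fun y => L * ‖v‖ * ‖w y‖)
      univ_mem (Eventually.of_forall fun s => (hm s).mul hw.1)
      (hw.bdd_mul (hm s) (ae_of_all _ fun y => h1 _)) (vcu_int hF hw hψ hL _ _).1
      (ae_of_all _ fun y s _ => ?_) (hw.norm.const_mul _) (ae_of_all _ fun y s _ => ?_)).2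
    · rw [norm_mul]
      refine mul_le_mul_of_nonneg_right ?_ (norm_nonneg _)
      exact (ContinuousLinearMap.le_opNorm _ _).trans
        (mul_le_mul_of_nonneg_right (norm_fderiv_le_of_lipschitz ℝ hL) (norm_nonneg _))
    · have a1 : HasDerivAt (fun s : ℝ => F y + s • v) v s := by
        simpa using ((hasDerivAt_id s).smul_const v).const_add (F y)
      exact ((hψ.differentiable one_ne_zero _).hasFDerivAt.comp_hasDerivAt s a1).mul_const (w y)
  have hb : ∀ s ∈ Ico (0 : ℝ) 1, ‖∫ y, fderiv ℝ ψ (F y + s • v) v * w y ∂μ‖ ≤ 2 * n * η := by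
    intro s hs
    have a1 : ∀ j, |∫ y, fderiv ℝ ψ (F y + s • v) (EuclideanSpace.single j 1) * w y ∂μ| ≤ η := by
      intro j
      have a2 := hv (fun u => ψ (u + s • v)) L (hψ.comp (contDiff_id.add contDiff_const))
        (LipschitzWith.of_dist_le_mul fun a b => by simpa using hL.dist_le_mul (a + s • v) (b + s • v))
        (fun u => h1 _) (fun u hu => h0 _ ?_) j
      · simpa only [fderiv_comp_add_right] using a2
      · have a3 : ‖s • v‖ ≤ 2 := by
          rw [norm_smul, Real.norm_eq_abs, abs_of_nonneg hs.1]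
          nlinarith [hs.1, hs.2, norm_nonneg v]
        have a4 := norm_sub_le (u + s • v) (s • v)
        rw [add_sub_cancel_right] at a4
        linarith
    have a5 : ∫ y, fderiv ℝ ψ (F y + s • v) v * w y ∂μ =
        ∑ j, v j * ∫ y, fderiv ℝ ψ (F y + s • v) (EuclideanSpace.single j 1) * w y ∂μ := by
      simp only [← integral_const_mul]
      rw [← integral_finsetSum _ fun j _ => (vcu_int hF hw hψ hL _ _).const_mul _]
      refine integral_congr_ae (ae_of_all _ fun y => ?_)
      simp only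
      rw [vcu_sum _ v, Finset.sum_mul]
      exact Finset.sum_congr rfl fun j _ => mul_assoc _ _ _
    rw [a5, Real.norm_eq_abs]
    refine (Finset.abs_sum_le_sum_abs _ _).trans ?_
    refine (Finset.sum_le_sum (g := fun _ => 2 * η) fun j _ => ?_).trans (le_of_eq ?_)
    · rw [abs_mul]
      have a6 : |v j| ≤ 2 := (PiLp.norm_apply_le v j).trans hv2
      exact mul_le_mul a6 (a1 j) (abs_nonneg _) zero_le_two
    · simp only [Finset.sum_const, Finset.card_univ, Fintype.card_fin, nsmul_eq_mul]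
      ring
  have h2 := norm_image_sub_le_of_norm_deriv_le_segment_01'
    (fun s _ => (hd s).hasDerivWithinAt) hb
  simp only [one_smul, zero_smul, add_zero, Real.norm_eq_abs] at h2
  linarith [(abs_le.1 h2).2]

theorem vcu_one [IsFiniteMeasure μ] {F : X → Euc n} (hF : Measurable F) {w : X → ℝ}
    (hw : Integrable w μ) {B : ℝ} {ψ : Euc n → ℝ} (hc : Continuous ψ)
    (h1 : ∀ v, 0 ≤ ψ v ∧ ψ v ≤ 1) (h0 : ∀ v, 1 ≤ ‖v‖ → ψ v = 0)
    (hB : ∀ v : Euc n, ‖v‖ ≤ 2 → ∫ y, ψ (F y + v) * w y ∂μ ≤ B) :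
    (∫ v, ψ v) * (μ.real {y | ‖F y‖ < 1} - ∫ y, |w y - 1| ∂μ) ≤ B * (2 ^ n * ωE n) := by
  have hcs : HasCompactSupport ψ := HasCompactSupport.intro (isCompact_closedBall 0 1)
    fun v hv => h0 v (by simpa using le_of_lt (by simpa using hv))
  have hi : Integrable ψ := hc.integrable_of_hasCompactSupport hcs
  have fin : IsFiniteMeasure ((volume : Measure (Euc n)).restrict (ball 0 2)) :=
    ⟨by simpa using measure_ball_lt_top⟩
  have i1 : Integrable (Function.uncurry fun (v : Euc n) (y : X) => ψ (F y + v) * w y)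
      (((volume : Measure (Euc n)).restrict (ball 0 2)).prod μ) := by
    refine (hw.comp_snd _).bdd_mul (c := 1) ?_ (ae_of_all _ fun a => ?_)
    · exact (hc.measurable.comp ((hF.comp measurable_snd).add measurable_fst)).aestronglyMeasurable
    · rw [Real.norm_eq_abs, abs_of_nonneg (h1 _).1]
      exact (h1 _).2
  have e1 := integral_integral_swap i1
  have b1 : ∫ v in ball (0 : Euc n) 2, ∫ y, ψ (F y + v) * w y ∂μ ≤ B * (2 ^ n * ωE n) := by
    have b2 := setIntegral_mono_on (μ := (volume : Measure (Euc n))) (s := ball (0 : Euc n) 2)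
      (f := fun v => ∫ y, ψ (F y + v) * w y ∂μ) (g := fun _ => B) i1.integral_prod_left
      (integrable_const B) measurableSet_ball fun v hv => hB v (le_of_lt (by simpa using hv))
    rw [setIntegral_const, (vol_ball_euc n 0 zero_le_two).2 two_pos, smul_eq_mul, mul_comm] at b2
    exact b2
  rw [e1] at b1
  refine le_trans ?_ b1
  have hS : MeasurableSet {y | ‖F y‖ < 1} := measurableSet_lt hF.norm measurable_const
  have i2 : Integrable (fun y => |w y - 1|) μ := (hw.sub (integrable_const 1)).abs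
  have i3 : Integrable ({y | ‖F y‖ < 1}.indicator fun _ => (1 : ℝ)) μ :=
    (integrable_const 1).indicator hS
  have e2 : ∫ y, {y | ‖F y‖ < 1}.indicator (fun _ => (1 : ℝ)) y ∂μ = μ.real {y | ‖F y‖ < 1} :=
    integral_indicator_one hS
  rw [← e2, ← integral_sub i3 i2, ← integral_const_mul]
  refine integral_mono ((i3.sub i2).const_mul _) i1.integral_prod_right fun y => ?_
  simp only [integral_mul_const]
  have t0 : ∫ v, ψ (F y + v) = ∫ v, ψ v := integral_add_left_eq_self ψ (F y)
  have t1 : 0 ≤ ∫ v in ball (0 : Euc n) 2, ψ (F y + v) := integral_nonneg fun v => (h1 _).1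
  have t2 : ∫ v in ball (0 : Euc n) 2, ψ (F y + v) ≤ ∫ v, ψ v := by
    rw [← t0]
    exact setIntegral_le_integral (hi.comp_add_left (F y)) (ae_of_all _ fun v => (h1 _).1)
  by_cases hy : y ∈ {y | ‖F y‖ < 1}
  · have t3 : ∫ v in ball (0 : Euc n) 2, ψ (F y + v) = ∫ v, ψ v := by
      rw [← t0]
      refine setIntegral_eq_integral_of_forall_compl_eq_zero fun v hv => h0 _ ?_
      have t4 : 2 ≤ ‖v‖ := by simpa using hv
      have t5 : ‖F y‖ < 1 := hy
      have t6 := norm_sub_le (F y + v) (F y)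
      rw [add_sub_cancel_left] at t6
      linarith
    rw [t3, indicator_of_mem hy]
    refine mul_le_mul_of_nonneg_left ?_ (t1.trans t2)
    linarith [neg_abs_le (w y - 1)]
  · rw [indicator_of_notMem hy]
    have t7 := neg_abs_le (w y - 1)
    have t8 := abs_nonneg (w y - 1)
    nlinarith

/-- An open set that is missed by `F` is small. -/
theorem vc_surj [IsFiniteMeasure μ] {F : X → Euc n} (hF : Measurable F) {w : X → ℝ}
    (hw : Integrable w μ) {η : ℝ}
    (hv : ∀ (ψ : Euc n → ℝ) (L : NNReal), ContDiff ℝ 1 ψ → LipschitzWith L ψ → (∀ v, |ψ v| ≤ 1) →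
      (∀ v, 3 ≤ ‖v‖ → ψ v = 0) →
      ∀ j, |∫ y, fderiv ℝ ψ (F y) (EuclideanSpace.single j 1) * w y ∂μ| ≤ η)
    {O : Set (Euc n)} (hO : IsOpen O) (hO1 : O ⊆ ball 0 1) (hm : ∀ᵐ y ∂μ, F y ∉ O) :
    (volume : Measure (Euc n)).real O * (μ.real {y | ‖F y‖ < 1} - ∫ y, |w y - 1| ∂μ) ≤
      2 * n * η * (2 ^ n * ωE n) := by
  obtain ⟨ψ, hs, hψ, hr⟩ := hO.exists_contDiff_support_eq (n := 1)
  have hp : ∀ v, 0 ≤ ψ v := fun v => (hr ⟨v, rfl⟩).1
  have hz : ∀ v, v ∉ O → ψ v = 0 := fun v hv => by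
    by_contra h
    exact hv (hs ▸ h)
  have b1 : ∀ (k : ℕ) v, 0 ≤ 1 - Real.exp (-(k * ψ v)) ∧ 1 - Real.exp (-(k * ψ v)) ≤ 1 := by
    intro k v
    have := Real.exp_le_one_iff.2 (neg_nonpos.2 (mul_nonneg (Nat.cast_nonneg k) (hp v)))
    constructor <;> linarith [Real.exp_pos (-(k * ψ v))]
  have b0 : ∀ (k : ℕ) v, v ∉ O → 1 - Real.exp (-(k * ψ v)) = 0 := fun k v hv => by
    simp [hz v hv]
  have b2 : ∀ (k : ℕ) (v : Euc n), 1 ≤ ‖v‖ → 1 - Real.exp (-(k * ψ v)) = 0 := fun k v hv =>
    b0 k v fun h => absurd (by simpa using hO1 h) (not_lt.2 hv)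
  have cd : ∀ k : ℕ, ContDiff ℝ 1 fun v => 1 - Real.exp (-(k * ψ v)) := fun k =>
    contDiff_const.sub (contDiff_const.mul hψ).neg.exp
  have lim : Tendsto (fun k : ℕ => ∫ v, (1 - Real.exp (-(k * ψ v)))) atTop
      (𝓝 (∫ v, O.indicator (fun _ => (1 : ℝ)) v)) := by
    refine tendsto_integral_of_dominated_convergence
      ((ball (0 : Euc n) 1).indicator fun _ => (1 : ℝ))
      (fun k => (cd k).continuous.aestronglyMeasurable)
      ((integrable_indicator_iff measurableSet_ball).2
        (integrableOn_const measure_ball_lt_top.ne)) (fun k => ae_of_all _ fun v => ?_)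
      (ae_of_all _ fun v => ?_)
    · by_cases hv : v ∈ ball (0 : Euc n) 1
      · rw [indicator_of_mem hv, Real.norm_eq_abs, abs_of_nonneg (b1 k v).1]
        exact (b1 k v).2
      · rw [indicator_of_notMem hv, b2 k v (by simpa using hv), norm_zero]
    · by_cases hv : v ∈ O
      · have p1 : 0 < ψ v := lt_of_le_of_ne (hp v) (Ne.symm (by rwa [← hs] at hv))
        have p2 := Real.tendsto_exp_neg_atTop_nhds_zero.comp
          (tendsto_natCast_atTop_atTop.atTop_mul_const p1)
        simpa [indicator_of_mem hv] using p2.const_sub 1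
      · rw [indicator_of_notMem hv]
        exact tendsto_const_nhds.congr fun k => (b0 k v hv).symm
  have e1 : ∫ v, O.indicator (fun _ => (1 : ℝ)) v = (volume : Measure (Euc n)).real O :=
    integral_indicator_one hO.measurableSet
  rw [e1] at lim
  refine le_of_tendsto' (lim.mul_const _) fun k => ?_
  refine vcu_one hF hw (cd k).continuous (b1 k) (b2 k) fun v hv2 => ?_
  have hcs : HasCompactSupport fun v => 1 - Real.exp (-(k * ψ v)) :=
    HasCompactSupport.intro (isCompact_closedBall 0 1)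
      fun v hv => b2 k v (by simpa using le_of_lt (by simpa using hv))
  obtain ⟨L, hL⟩ := (cd k).lipschitzWith_of_hasCompactSupport hcs one_ne_zero
  have s1 := vc_shift hF hw hv (cd k) hL
    (fun v => by rw [abs_of_nonneg (b1 k v).1]; exact (b1 k v).2) (b2 k) hv2
  have s2 : ∫ y, (1 - Real.exp (-(k * ψ (F y)))) * w y ∂μ = 0 := by
    refine integral_eq_zero_of_ae ?_
    filter_upwards [hm] with y hy
    simp [hz _ hy]
  rw [s2, zero_add] at s1
  exact s1

end RC
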