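import Pool.Agent.P.MP_6472e5_gt.VcJ
import Pool.Agent.P.MP_6472e5_gt.VcS
import Pool.Agent.P.MP_6472e5_gt.VcU
import Pool.Agent.P.MP_6472e5_gt.VcH
import Pool.Agent.P.MP_6472e5_gt.Ls

/-! Almost splitting maps bound the volume from below. -/

set_option autoImplicit false
set_option linter.unusedSectionVars false

noncomputable section

namespace RC

open MeasureTheory Set Filter Topology Metric

variable {X : Type} [MetricSpace X] [ProperSpace X] [MeasurableSpace X] [BorelSpace X]
  {κ : ℝ} {n : ℕ} {l : Filter ℕ} {y : ℕ → X} {r : ℕ → ℝ}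

theorem vcm_one {μ : Measure X} {D : DS μ} {x : X} {r η : ℝ} (hr : 0 < r) (hη : η ≤ 1 / 4)
    {F LF : X → Euc n} (hF : Good D n x r η F LF) {c : Fin n → Fin n → X → ℝ} {w : X → ℝ}
    (hc : ∀ j b, D.W (c j b) ∧ LocBdd μ (c j b)) (hw : LocInt μ w)
    (hid : ∀ a j k, ∑ b, c j b a * (r ^ 2 * D.G (fun a => F a b) (fun a => F a k) a) =
      if k = j then w a else 0) :
    (volume : Measure (Euc n)).real (ball 0 1 \ F '' closedBall x (5 * r)) *
      (μ.real (ball x (r / 2)) - ∫ a in ball x (5 * r), |w a - 1| ∂μ) ≤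
      2 * n * (∑ j, ∑ b, ∫ a in ball x (5 * r), (|(r ^ 2 • c j b) a * LF a b| +
        |D.G (r ^ 2 • c j b) (fun a => F a b) a|) ∂μ) * (2 ^ n * ωE n) := by
  have : IsFiniteMeasure (μ.restrict (ball x (5 * r))) :=
    isFiniteMeasure_restrict.2 (D.fin _ _).ne
  have hO : IsOpen (ball (0 : Euc n) 1 \ F '' closedBall x (5 * r)) :=
    isOpen_ball.sdiff ((isCompact_closedBall _ _).image hF.cont).isClosed
  refine le_trans ?_ (vc_surj (μ := μ.restrict (ball x (5 * r))) hF.cont.measurable (hw x _)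
    (fun ψ L hψ hL h1 h0 j => ?_) hO sdiff_subset ?_)
  · refine mul_le_mul_of_nonneg_left (sub_le_sub_right ?_ _) measureReal_nonneg
    rw [measureReal_restrict_apply' measurableSet_ball]
    refine measureReal_mono (fun a ha => ⟨?_, ball_subset_ball (by linarith) ha⟩)
      (measure_ne_top_of_subset inter_subset_right (D.fin _ _).ne)
    have h1 := (abs_le.1 (hF.app a (ball_subset_ball (by linarith) ha))).2
    have h2 : dist a x / r < 1 / 2 := by rw [div_lt_iff₀ hr]; linarith [mem_ball.1 ha]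
    show ‖F a‖ < 1
    linarith
  · have hs := Finset.single_le_sum (f := fun j => ∑ b, ∫ a in ball x (5 * r),
        (|(r ^ 2 • c j b) a * LF a b| + |D.G (r ^ 2 • c j b) (fun a => F a b) a|) ∂μ)
        (s := Finset.univ) (fun j _ => Finset.sum_nonneg fun b _ =>
          integral_nonneg fun a => add_nonneg (abs_nonneg _) (abs_nonneg _)) (Finset.mem_univ j)
    refine le_trans ?_ hs
    refine vc_var (x := x) (ρ := 5 * r) (F := F) (LF := LF) (w := w) (j := j) (by positivity)
      (fun b => (hF.tb b).lap) (c := fun b => r ^ 2 • c j b)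
      (fun b => ⟨(hc j b).1.smul _, (Bdd.const (r ^ 2)).locBdd.mul (hc j b).2⟩)
      (fun k => ae_of_all _ fun a => ?_) hψ hL h1 fun a ha hn => ?_
    · rw [← hid a j k]
      exact Finset.sum_congr rfl fun b _ => by simp only [Pi.smul_apply, smul_eq_mul]; ring
    · have h1 := (abs_le.1 (hF.app a (ball_subset_ball (by linarith) ha))).1
      have h2 : 5 ≤ dist a x / r := by
        rw [le_div_iff₀ hr]; exact not_lt.1 hn
      have h3 : 3 < ‖F a‖ := by linarith
      refine ⟨h0 _ h3.le, ?_⟩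
      have : ψ =ᶠ[𝓝 (F a)] fun _ => 0 := by
        filter_upwards [(isOpen_lt continuous_const continuous_norm).mem_nhds h3] with v hv
        exact h0 v (le_of_lt hv)
      rw [this.fderiv_eq]; simp
  · filter_upwards [ae_restrict_mem measurableSet_ball] with a ha hh
    exact hh.2 ⟨a, ball_subset_closedBall ha, rfl⟩

theorem vcm_term {μ : Measure X} {D : DS μ} (h : HP D κ n) (hs : VSeq μ n l y r) {η : ℕ → ℝ}
    (hη : Tendsto η l (𝓝 0)) {F LF : ℕ → X → Euc n}
    (hF : ∀ᶠ i in l, Good D n (y i) (r i) (η i) (F i) (LF i)) {c : ℕ → X → ℝ} {e : ℝ}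
    (hc : Tame D n l y r c e) (b : Fin n) :
    Tendsto (fun i => (r i ^ n)⁻¹ * ∫ a in ball (y i) (5 * r i), (|(r i ^ 2 • c i) a * LF i a b| +
      |D.G (r i ^ 2 • c i) (fun a => F i a b) a|) ∂μ) l (𝓝 0) := by
  obtain ⟨C, hC⟩ := hc.bdd
  have hl := ((good_lap h hs hη hF b).2.const_mul |C|).add (hc.grad.const_mul 2)
  simp only [mul_zero, add_zero] at hl
  refine squeeze_zero' (Eventually.of_forall fun i => by have := hs.pos i; positivity) ?_ hl
  filter_upwards [hF, hC, hc.mem, hη (Iio_mem_nhds one_pos)] with i hi h1 h2 h3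
  have hp := hs.pos i
  have h3' : η i < 1 := h3
  have j1 : ∀ s, IntegrableOn (fun a => |r i ^ 2 * LF i a b|) (ball (y i) s) μ := fun s =>
    (((hi.tb b).lap.2.1 _ _).const_mul _).abs
  have j2 : IntegrableOn (fun a => r i * √(D.G (c i) (c i) a)) (ball (y i) (5 * r i)) μ := by
    refine Integrable.const_mul (((vcg_const D _ _ 1).add (DS.G_locInt h2.1 h2.1 _ _)).mono'
      (Real.continuous_sqrt.comp_aestronglyMeasurable (DS.G_aesm h2.1 h2.1)).restrict
      (ae_restrict_of_ae ?_)) _
    filter_upwards [DS.G_nonneg h2.1] with a ha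
    rw [Real.norm_of_nonneg (Real.sqrt_nonneg _)]
    exact Real.sqrt_le_iff.2 ⟨by simp only [Pi.add_apply]; positivity,
      by simp only [Pi.add_apply]; nlinarith⟩
  have k1 : ∫ a in ball (y i) (5 * r i), (|(r i ^ 2 • c i) a * LF i a b| +
      |D.G (r i ^ 2 • c i) (fun a => F i a b) a|) ∂μ ≤ ∫ a in ball (y i) (5 * r i),
      (|C| * |r i ^ 2 * LF i a b| + 2 * (r i * √(D.G (c i) (c i) a))) ∂μ := by
    refine integral_mono_of_nonneg (ae_of_all _ fun a => by positivity)
      (((j1 _).const_mul _).add (j2.const_mul _)) ?_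
    filter_upwards [ae_restrict_mem measurableSet_ball, ae_restrict_of_ae h1,
      ae_restrict_of_ae (hi.glob b), ae_restrict_of_ae (DS.G_smul (r i ^ 2) h2.1 (hi.tb b).W),
      ae_restrict_of_ae (DS.G_abs_le h2.1 (hi.tb b).W)] with a ha m1 m2 m3 m4
    refine add_le_add ?_ ?_
    · rw [show (r i ^ 2 • c i) a * LF i a b = c i a * (r i ^ 2 * LF i a b) by
        simp only [Pi.smul_apply, smul_eq_mul]; ring, abs_mul]
      exact mul_le_mul_of_nonneg_right ((m1 ha).trans (le_abs_self C)) (abs_nonneg _)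
    · have m5 : √(D.G (fun a => F i a b) (fun a => F i a b) a) ≤ 2 / r i := by
        refine Real.sqrt_le_iff.2 ⟨by positivity, ?_⟩
        rw [div_pow, le_div_iff₀ (by positivity)]
        have : 0 ≤ 2 / (n : ℝ) * (r i ^ 2 * LF i a b) ^ 2 := by positivity
        linarith
      rw [m3, abs_mul, abs_of_nonneg (sq_nonneg (r i))]
      refine (mul_le_mul_of_nonneg_left (m4.trans (mul_le_mul_of_nonneg_left m5
        (Real.sqrt_nonneg _))) (sq_nonneg _)).trans (le_of_eq ?_)
      field_simp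
  rw [integral_add ((j1 _).const_mul _) (j2.const_mul _), integral_const_mul,
    integral_const_mul] at k1
  have k2 : ∫ a in ball (y i) (5 * r i), |r i ^ 2 * LF i a b| ∂μ ≤
      ∫ a in ball (y i) (10 * r i), |r i ^ 2 * LF i a b| ∂μ :=
    setIntegral_mono_set (j1 _) (ae_of_all _ fun a => abs_nonneg _)
      (ball_subset_ball (by linarith)).eventuallyLE
  have k3 := k1.trans (add_le_add (mul_le_mul_of_nonneg_left k2 (abs_nonneg C)) le_rfl)
  refine (mul_le_mul_of_nonneg_left k3 (by positivity)).trans (le_of_eq (by ring))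

theorem good_surj {μ : Measure X} {D : DS μ} (h : HP D κ n) (hs : VSeq μ n l y r) {η : ℕ → ℝ}
    (hη : Tendsto η l (𝓝 0)) {F LF : ℕ → X → Euc n}
    (hF : ∀ᶠ i in l, Good D n (y i) (r i) (η i) (F i) (LF i)) :
    Tendsto (fun i => (volume : Measure (Euc n)).real
      (ball 0 1 \ F i '' closedBall (y i) (5 * r i))) l (𝓝 0) := by
  obtain ⟨c, w, hc, hw, hid⟩ := tame_adj hs (good_tame h hs hη hF)
  choose e he using hc
  obtain ⟨c₀, hc₀, hlow⟩ := hs.low
  have h1 := tendsto_finset_sum Finset.univ fun j _ => tendsto_finset_sum Finset.univ fun b _ =>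
    vcm_term h hs hη hF (he j b) b
  have h2 := h1.const_mul (2 / c₀ * (2 * n * (2 ^ n * ωE n)))
  simp only [Finset.sum_const_zero, mul_zero] at h2
  refine squeeze_zero' (Eventually.of_forall fun i => measureReal_nonneg) ?_ h2
  filter_upwards [hF, hlow, hw.mem, hw.lim (Iio_mem_nhds (half_pos hc₀)),
    hη (Iio_mem_nhds (show (0 : ℝ) < 1 / 4 by norm_num)),
    eventually_all.2 fun j => eventually_all.2 fun b => (he j b).mem] with i hi k1 k2 k3 k4 k5
  have hp : 0 < r i ^ n := pow_pos (hs.pos i) n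
  have k6 := vcm_one (hs.pos i) (le_of_lt k4) hi (c := fun j b => c j b i) k5 k2.1.locInt (hid i)
  have k3' : (r i ^ n)⁻¹ * ∫ a in ball (y i) (5 * r i), |w i a - 1| ∂μ < c₀ / 2 := k3
  rw [inv_mul_lt_iff₀ hp] at k3'
  have k7 := (mul_le_mul_of_nonneg_left (show c₀ / 2 * r i ^ n ≤ _ by linarith)
    measureReal_nonneg).trans k6
  simp only [← Finset.mul_sum]
  rw [← le_div_iff₀ (by positivity)] at k7
  refine k7.trans (le_of_eq ?_)
  field_simp


theorem vcm_lip {μ : Measure X} {D : DS μ} (h : HP D κ n) {x : X} {r η : ℝ} (hr : 0 < r)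
    (hη : 0 ≤ η) {F LF : X → Euc n} (hF : Good D n x r η F LF) :
    ∀ a ∈ ball x (5 * r), ∀ b ∈ ball x (5 * r),
      dist (F a) (F b) ≤ (1 + η) / r * dist a b := by
  intro a ha b hb
  set u := F a - F b with hu
  have hW : D.W (lc u F) := by
    have := DS.W.sum (D := D) Finset.univ (f := fun b => u b • fun a => F a b)
      fun b _ => (hF.tb b).W.smul _
    refine this.congr (ae_of_all _ fun a => ?_)
    simp [lc]
  have hc : Continuous (lc u F) := by
    have := hF.cont
    unfold lc; fun_prop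
  have := DS.lip_of_G_le h.pos h.geo h.s2l hW hc x (10 * r) (L := (1 + η) / r * ‖u‖)
    (by positivity) (by
      filter_upwards [hF.lip u] with z hz hm
      rw [mul_pow, div_pow, div_mul_eq_mul_div, le_div_iff₀ (by positivity), mul_comm]
      refine (hz hm).trans (mul_le_mul_of_nonneg_right (by nlinarith) (sq_nonneg _)))
    a (by rwa [show 10 * r / 2 = 5 * r by ring]) b (by rwa [show 10 * r / 2 = 5 * r by ring])
  have e : lc u F a - lc u F b = ‖u‖ ^ 2 := by
    rw [EuclideanSpace.real_norm_sq_eq, lc, lc, ← Finset.sum_sub_distrib]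
    exact Finset.sum_congr rfl fun j _ => by simp only [hu, PiLp.sub_apply]; ring
  rw [e, abs_of_nonneg (sq_nonneg _)] at this
  rw [dist_eq_norm, ← hu]
  rcases (norm_nonneg u).eq_or_lt with h0 | h0
  · rw [← h0]; positivity
  · exact le_of_mul_le_mul_right (by nlinarith) h0

theorem good_vol {D : DS (μHE[n] : Measure X)} (h : HP D κ n)
    (hs : VSeq (μHE[n] : Measure X) n l y r) {η : ℕ → ℝ} (hη : Tendsto η l (𝓝 0))
    {F LF : ℕ → X → Euc n} (hF : ∀ᶠ i in l, Good D n (y i) (r i) (η i) (F i) (LF i))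
    {ε : ℝ} (hε : 0 < ε) : ∀ᶠ i in l,
      (ωE n - ε) * r i ^ n ≤ (μHE[n] : Measure X).real (ball (y i) ((1 + ε) * r i)) := by
  have hω := ωE_pos n
  have h1 : Tendsto (fun i => (ωE n - (volume : Measure (Euc n)).real
      (ball 0 1 \ F i '' closedBall (y i) (5 * r i))) / (1 + η i) ^ n) l (𝓝 (ωE n)) := by
    simpa [Pi.div_def] using (tendsto_const_nhds.sub (good_surj h hs hη hF)).div
      ((hη.const_add 1).pow n) (by simp)
  filter_upwards [hF, h1 (Ioi_mem_nhds (show ωE n - ε < ωE n by linarith)),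
    hη (Iio_mem_nhds (lt_min hε one_pos))] with i hi k1 k2
  have hp := hs.pos i
  have k2' : η i < min ε 1 := k2
  have h0 : 0 ≤ η i := (abs_nonneg _).trans (hi.app (y i) (mem_ball_self (by positivity)))
  have k3 : ball (y i) ((1 + η i) * r i) ⊆ ball (y i) (5 * r i) :=
    ball_subset_ball (by nlinarith [min_le_right ε 1])
  have k4 := area_le (F := F i) (S := ball (y i) ((1 + η i) * r i)) (L := (1 + η i) / r i)
    (by positivity) fun a ha b hb => vcm_lip h hp h0 hi a (k3 ha) b (k3 hb)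
  have fin := (D.fin (y i) ((1 + η i) * r i)).ne
  have k5 := ENNReal.toReal_mono (ENNReal.mul_ne_top ENNReal.ofReal_ne_top fin) k4
  rw [ENNReal.toReal_mul, ENNReal.toReal_ofReal (by positivity)] at k5
  have k6 : ωE n ≤ (volume : Measure (Euc n)).real (ball 0 1 \ F i '' closedBall (y i) (5 * r i)) +
      (volume : Measure (Euc n)).real (F i '' ball (y i) ((1 + η i) * r i)) := by
    refine (measureReal_mono (fun v hv => ?_) (measure_union_ne_top
      (measure_ne_top_of_subset sdiff_subset measure_ball_lt_top.ne)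
      (k4.trans_lt (ENNReal.mul_lt_top ENNReal.ofReal_lt_top fin.lt_top)).ne)).trans
      (measureReal_union_le _ _)
    by_cases hh : v ∈ F i '' closedBall (y i) (5 * r i)
    · obtain ⟨a, ha, rfl⟩ := hh
      refine Or.inr ⟨a, ?_, rfl⟩
      have m1 := (abs_le.1 (hi.app a (closedBall_subset_ball (by linarith) ha))).1
      have m2 : ‖F i a‖ < 1 := mem_ball_zero_iff.1 hv
      rw [mem_ball, ← div_lt_iff₀ hp]; linarith
    · exact Or.inl ⟨hv, hh⟩
  have k7 : (μHE[n] : Measure X).real (ball (y i) ((1 + η i) * r i)) ≤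
      (μHE[n] : Measure X).real (ball (y i) ((1 + ε) * r i)) :=
    measureReal_mono (ball_subset_ball (by nlinarith [min_le_left ε 1])) (D.fin _ _).ne
  refine le_trans ?_ k7
  have k1' : ωE n - ε < _ := k1
  rw [lt_div_iff₀ (by positivity)] at k1'
  rw [div_pow, div_mul_eq_mul_div, le_div_iff₀ (by positivity)] at k5
  refine le_of_mul_le_mul_left (le_trans ?_ k5) (show 0 < (1 + η i) ^ n by positivity)
  rw [← mul_assoc, mul_comm _ (ωE n - ε)]
  exact mul_le_mul_of_nonneg_right (by rw [← Measure.real]; linarith) (by positivity)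


end RC
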