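import Pool.Agent.P.MP_6472e5_gt.VcM
import Pool.Agent.P.MP_6472e5_gt.VcB

/-! Euclidean blow-ups have density at least one. -/

set_option autoImplicit false
set_option linter.unusedSectionVars false

noncomputable section

namespace RC

open MeasureTheory Set Filter Topology Metric

/-- Diagonal choice of the error. -/
theorem vcn_diag {l : Filter ℕ} (hl : l ≤ atTop) {P : ℕ → ℝ → Prop}
    (h : ∀ η, 0 < η → ∀ᶠ i in l, P i η) :
    ∃ η : ℕ → ℝ, Tendsto η l (𝓝 0) ∧ ∀ᶠ i in l, P i (η i) := by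
  classical
  set k : ℕ → ℕ := fun i => Nat.findGreatest (fun k => P i (1 / ((k : ℝ) + 1))) i with hk
  have h1 : ∀ K : ℕ, ∀ᶠ i in l, K ≤ k i ∧ P i (1 / ((k i : ℝ) + 1)) := by
    intro K
    filter_upwards [h (1 / ((K : ℝ) + 1)) (by positivity), hl (eventually_ge_atTop K)] with i hi hK
    exact ⟨Nat.le_findGreatest hK hi,
      Nat.findGreatest_spec (P := fun k => P i (1 / ((k : ℝ) + 1))) hK hi⟩
  refine ⟨fun i => 1 / ((k i : ℝ) + 1), ?_, (h1 0).mono fun i hi => hi.2⟩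
  have : Tendsto k l atTop := tendsto_atTop.2 fun K => (h1 K).mono fun i hi => hi.1
  exact tendsto_one_div_add_atTop_nhds_zero_nat.comp this

variable {X : Type} [MetricSpace X] [ProperSpace X] [MeasurableSpace X] [BorelSpace X]
  {κ : ℝ} {n : ℕ}

theorem vcn_vseq {μ : Measure X} {D : DS μ} (h : HP D κ n) (h0 : N0 D n) {U : Ultrafilter ℕ}
    {y : ℕ → X} {r : ℕ → ℝ} (hs : Seq U y r) : VSeq μ n U y r := by
  obtain ⟨x, R, hx⟩ := hs.bdd
  obtain ⟨c, C, r₀, hc, hC, hr, hb⟩ := h.vol_bds h0 x R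
  have hsm : ∀ᶠ i in (U : Filter ℕ), r i < r₀ / 10 := hs.lim (Iio_mem_nhds (by positivity))
  refine ⟨hs.pos, hs.lim, ⟨C * 10 ^ n, ?_⟩, ⟨c * (1 / 2) ^ n, by positivity, ?_⟩⟩
  · filter_upwards [hsm] with i hi
    have := (hb (y i) (hx i) (10 * r i) (by have := hs.pos i; positivity) (by linarith)).2
    rw [mul_pow] at this; linarith
  · filter_upwards [hsm] with i hi
    have hp := hs.pos i
    have := (hb (y i) (hx i) (r i / 2) (by positivity) (by linarith)).1
    rw [show r i / 2 = 1 / 2 * r i by ring, mul_pow] at this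
    rw [show r i / 2 = 1 / 2 * r i by ring]; linarith

theorem vcn_ball {μ : Measure X} {D : DS μ} (h : Model D n) {e : X} (A : Ax D n e n)
    (hc : ∀ z, D.Ctr n z) {s : ℝ} (hs : 0 ≤ s) :
    μ.real (closedBall e s) = θ n / D.Θ n e 1 * (s ^ n * ωE n) := by
  obtain ⟨hi, -, h0⟩ := A.isometry_a hc
  have hm := (h.cone.euc e n A hc).2
  have : closedBall e s = A.a ⁻¹' closedBall 0 s := by
    ext z; simp only [mem_preimage, mem_closedBall]; rw [← h0, hi.dist_eq]
  rw [this, Measure.real, ← Measure.map_apply hi.continuous.measurable measurableSet_closedBall,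
    hm, Measure.smul_apply, smul_eq_mul, ENNReal.toReal_mul, ENNReal.toReal_ofReal
      (div_nonneg (θ_pos n).le (h.toHP.Θ_pos e one_pos).le), ← (vol_ball_euc n 0 hs).1]
  rfl

theorem blow_le {D : DS (μHE[n] : Measure X)} (h : HP D κ n) (h0 : N0 D n) {U : Ultrafilter ℕ}
    {y : ℕ → X} {r : ℕ → ℝ} (B : Blow D n U y r) (hc : ∀ z, B.E.Ctr n z) :
    B.E.Θ n B.e 1 ≤ θ n := by
  obtain ⟨k, -, ⟨A⟩⟩ := B.model.cone.ax B.e (hc _)
  obtain rfl : k = n := (B.model.cone.euc B.e k A hc).1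
  obtain ⟨η, hη, hG⟩ := vcn_diag (ultra_le_atTop B.seq.pos B.seq.lim)
    (P := fun i η => ∃ F LF, Good D k (y i) (r i) η F LF) fun η hη => exists_good h h0 B A hc hη
  have hG' : ∀ i, ∃ F LF : X → Euc k, (∃ F LF, Good D k (y i) (r i) (η i) F LF) →
      Good D k (y i) (r i) (η i) F LF := by
    intro i
    by_cases hh : ∃ F LF, Good D k (y i) (r i) (η i) F LF
    · obtain ⟨F, LF, hF⟩ := hh
      exact ⟨F, LF, fun _ => hF⟩
    · exact ⟨0, 0, fun h => absurd h hh⟩
  choose F LF hF using hG'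
  have hg : ∀ᶠ i in (U : Filter ℕ), Good D k (y i) (r i) (η i) (F i) (LF i) :=
    hG.mono fun i hi => hF i hi
  have hΘ := B.model.toHP.Θ_pos B.e one_pos
  set c := θ k / B.E.Θ k B.e 1 with hcdef
  have key : ∀ ε : ℝ, 0 < ε → ωE k - ε ≤ c * ((1 + ε) ^ k * ωE k) + ε := by
    intro ε hε
    obtain ⟨i, h1, h2⟩ := ((good_vol h (vcn_vseq h h0 B.seq) hη hg hε).and
      (B.ball_le B.lf_base (1 + ε) hε)).exists
    rw [vcn_ball B.model A hc (by positivity)] at h2
    have hp : 0 < r i ^ k := pow_pos (B.seq.pos i) k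
    exact le_of_mul_le_mul_right (h1.trans h2) hp
  have h1 : ωE k - 0 ≤ c * ((1 + 0) ^ k * ωE k) + 0 := by
    refine le_of_tendsto_of_tendsto (b := 𝓝[>] (0 : ℝ)) (f := fun ε => ωE k - ε)
      (g := fun ε => c * ((1 + ε) ^ k * ωE k) + ε) ?_ ?_ ?_
    · exact tendsto_nhdsWithin_of_tendsto_nhds (Continuous.tendsto (by fun_prop) 0)
    · exact tendsto_nhdsWithin_of_tendsto_nhds (Continuous.tendsto (by fun_prop) 0)
    · filter_upwards [self_mem_nhdsWithin] with ε hε using key ε hε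
  have hω := ωE_pos k
  simp only [sub_zero, add_zero, one_pow, one_mul] at h1
  have h2 : 1 ≤ c := le_of_mul_le_mul_right (by linarith) hω
  rwa [hcdef, one_le_div hΘ] at h2

end RC
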