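import Pool.Agent.P.MP_6472e5_gt.VcD
import Pool.Agent.P.MP_6472e5_gt.Ca4

/-! The ring of tame sequences. -/

set_option autoImplicit false
set_option linter.unusedSectionVars false

noncomputable section

namespace RC

open MeasureTheory Set Filter Topology Metric

variable {X : Type} [MetricSpace X] [ProperSpace X] [MeasurableSpace X] [BorelSpace X]
  {μ : Measure X} {D : DS μ} {κ : ℝ} {n : ℕ}

variable {l : Filter ℕ} {y : ℕ → X} {r : ℕ → ℝ}

theorem vct_sq {F u v : ℕ → X → ℝ} {S : ℕ → Set X} {k : ℕ → ℝ} (hk : ∀ i, 0 ≤ k i) (A B : ℝ)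
    (h : ∀ᶠ i in l, IntegrableOn (u i) (S i) μ ∧ IntegrableOn (v i) (S i) μ ∧
      ∀ᵐ a ∂μ.restrict (S i), 0 ≤ F i a ∧ F i a ≤ A * u i a + B * v i a)
    (hu : Tendsto (fun i => k i * ∫ a in S i, u i a ∂μ) l (𝓝 0))
    (hv : Tendsto (fun i => k i * ∫ a in S i, v i a ∂μ) l (𝓝 0)) :
    Tendsto (fun i => k i * ∫ a in S i, F i a ∂μ) l (𝓝 0) := by
  have h1 := (hu.const_mul A).add (hv.const_mul B)
  rw [mul_zero, mul_zero, add_zero] at h1
  refine squeeze_zero' (h.mono fun i hi => mul_nonneg (hk i)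
    (integral_nonneg_of_ae (hi.2.2.mono fun a ha => ha.1))) (h.mono fun i hi => ?_) h1
  have h2 := integral_mono_of_nonneg (hi.2.2.mono fun a ha => ha.1)
    ((hi.1.const_mul A).add (hi.2.1.const_mul B)) (hi.2.2.mono fun a ha => ha.2)
  have h3 := integral_add (hi.1.const_mul A) (hi.2.1.const_mul B)
  simp only [integral_const_mul] at h3
  calc k i * ∫ a in S i, F i a ∂μ ≤ k i * (A * ∫ a in S i, u i a ∂μ + B * ∫ a in S i, v i a ∂μ) :=
        mul_le_mul_of_nonneg_left (h2.trans_eq h3) (hk i)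
    _ = _ := by ring

theorem vct_i1 {f : X → ℝ} (hf : D.W f) (c : ℝ) (x : X) (R : ℝ) :
    IntegrableOn (fun a => |f a - c|) (ball x R) μ :=
  ((hf.locInt x R).sub (integrableOn_const (D.fin x R).ne)).abs

theorem vct_i2 {f : X → ℝ} (hf : D.W f) (c : ℝ) (x : X) (R : ℝ) :
    IntegrableOn (fun a => c * √(D.G f f a)) (ball x R) μ := by
  refine Integrable.const_mul (Integrable.mono'
    ((integrableOn_const (C := (1 : ℝ)) (D.fin x R).ne).add (DS.G_locInt hf hf x R))
    (Real.continuous_sqrt.comp_aestronglyMeasurable (DS.G_aesm hf hf).restrict) ?_) c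
  filter_upwards [ae_restrict_of_ae (DS.G_nonneg hf)] with a ha
  rw [Real.norm_eq_abs, abs_of_nonneg (Real.sqrt_nonneg _), Pi.add_apply]
  nlinarith [Real.sq_sqrt ha, sq_nonneg (√(D.G f f a) - 1)]

theorem Tame.congr {f g : ℕ → X → ℝ} {c : ℝ} (hf : Tame D n l y r f c)
    (h : ∀ᶠ i in l, f i =ᵐ[μ] g i) : Tame D n l y r g c := by
  obtain ⟨C, hC⟩ := hf.bdd
  refine ⟨?_, ⟨C, ?_⟩, hf.lim.congr' ?_, hf.grad.congr' ?_⟩
  · filter_upwards [hf.mem, h] with i h1 h2 using ⟨h1.1.congr h2, h1.2.congr h2⟩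
  · filter_upwards [hC, h] with i h1 h2
    filter_upwards [h1, h2] with a e1 e2 using e2 ▸ e1
  · filter_upwards [h] with i h2
    congr 1
    exact integral_congr_ae (ae_restrict_of_ae (h2.mono fun a e => by simp only [e]))
  · filter_upwards [hf.mem, h] with i h1 h2
    congr 1
    exact integral_congr_ae (ae_restrict_of_ae
      ((DS.G_congr h1.1 h1.1 h2 h2).mono fun a e => by simp only [e]))

theorem tame_const (c : ℝ) : Tame D n l y r (fun _ _ => c) c := by
  refine ⟨.of_forall fun i => ⟨D.W_const c, (Bdd.const c).locBdd⟩,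
    ⟨|c|, .of_forall fun i => ae_of_all _ fun _ _ => le_rfl⟩, by simpa using tendsto_const_nhds,
    tendsto_const_nhds.congr fun i => ?_⟩
  rw [integral_congr_ae (g := fun _ => 0) (ae_restrict_of_ae
    ((DS.G_const c (D.W_const c)).mono fun a e => by simp only [e, Real.sqrt_zero, mul_zero])),
    integral_zero, mul_zero]

theorem Tame.add (hs : VSeq μ n l y r) {f g : ℕ → X → ℝ} {c d : ℝ} (hf : Tame D n l y r f c)
    (hg : Tame D n l y r g d) : Tame D n l y r (f + g) (c + d) := by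
  obtain ⟨C, hC⟩ := hf.bdd
  obtain ⟨C', hC'⟩ := hg.bdd
  have hk := fun i => inv_nonneg.2 (pow_pos (hs.pos i) n).le
  refine ⟨?_, ⟨C + C', ?_⟩, vct_sq hk 1 1 ?_ hf.lim hg.lim, vct_sq hk 1 1 ?_ hf.grad hg.grad⟩
  · filter_upwards [hf.mem, hg.mem] with i h1 h2 using ⟨h1.1.add h2.1, h1.2.add h2.2⟩
  · filter_upwards [hC, hC'] with i h1 h2
    filter_upwards [h1, h2] with a e1 e2 ha
    exact (abs_add_le _ _).trans (add_le_add (e1 ha) (e2 ha))
  · filter_upwards [hf.mem, hg.mem] with i h1 h2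
    refine ⟨vct_i1 h1.1 _ _ _, vct_i1 h2.1 _ _ _, ae_of_all _ fun a => ⟨abs_nonneg _, ?_⟩⟩
    rw [one_mul, one_mul, Pi.add_apply, Pi.add_apply, add_sub_add_comm]
    exact abs_add_le _ _
  · filter_upwards [hf.mem, hg.mem] with i h1 h2
    refine ⟨vct_i2 h1.1 _ _ _, vct_i2 h2.1 _ _ _, ?_⟩
    filter_upwards [ae_restrict_of_ae (DS.G_tri h1.1 h2.1)] with a e
    refine ⟨mul_nonneg (hs.pos i).le (Real.sqrt_nonneg _), ?_⟩
    rw [one_mul, one_mul, ← mul_add]
    exact mul_le_mul_of_nonneg_left e (hs.pos i).le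

theorem Tame.mul (hs : VSeq μ n l y r) {f g : ℕ → X → ℝ} {c d : ℝ} (hf : Tame D n l y r f c)
    (hg : Tame D n l y r g d) : Tame D n l y r (f * g) (c * d) := by
  obtain ⟨C, hC⟩ := hf.bdd
  obtain ⟨C', hC'⟩ := hg.bdd
  have hk := fun i => inv_nonneg.2 (pow_pos (hs.pos i) n).le
  refine ⟨?_, ⟨C * C', ?_⟩, vct_sq hk |d| C ?_ hf.lim hg.lim, vct_sq hk C' C ?_ hf.grad hg.grad⟩
  · filter_upwards [hf.mem, hg.mem] with i h1 h2 using ⟨h1.1.mul h2.1 h1.2 h2.2, h1.2.mul h2.2⟩
  · filter_upwards [hC, hC'] with i h1 h2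
    filter_upwards [h1, h2] with a e1 e2 ha
    rw [Pi.mul_apply, Pi.mul_apply, abs_mul]
    exact mul_le_mul (e1 ha) (e2 ha) (abs_nonneg _) ((abs_nonneg _).trans (e1 ha))
  · filter_upwards [hf.mem, hg.mem, hC] with i h1 h2 h3
    refine ⟨vct_i1 h1.1 _ _ _, vct_i1 h2.1 _ _ _, ?_⟩
    filter_upwards [(ae_restrict_iff' measurableSet_ball).2 h3] with a e
    refine ⟨abs_nonneg _, ?_⟩
    have : (f * g) i a - c * d = d * (f i a - c) + f i a * (g i a - d) := by
      simp only [Pi.mul_apply]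
      ring
    rw [this]
    refine (abs_add_le _ _).trans ?_
    rw [abs_mul, abs_mul]
    gcongr
  · filter_upwards [hf.mem, hg.mem, hC, hC'] with i h1 h2 h3 h4
    refine ⟨vct_i2 h1.1 _ _ _, vct_i2 h2.1 _ _ _, ?_⟩
    filter_upwards [(ae_restrict_iff' measurableSet_ball).2 h3,
      (ae_restrict_iff' measurableSet_ball).2 h4,
      ae_restrict_of_ae (DS.G_mul_le h1.1 h2.1 (h1.1.mul h2.1 h1.2 h2.2))] with a e1 e2 e
    refine ⟨mul_nonneg (hs.pos i).le (Real.sqrt_nonneg _), ?_⟩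
    have k1 := mul_le_mul_of_nonneg_right e1 (Real.sqrt_nonneg (D.G (g i) (g i) a))
    have k2 := mul_le_mul_of_nonneg_right e2 (Real.sqrt_nonneg (D.G (f i) (f i) a))
    calc r i * √(D.G ((f * g) i) ((f * g) i) a)
        ≤ r i * (C * √(D.G (g i) (g i) a) + C' * √(D.G (f i) (f i) a)) :=
          mul_le_mul_of_nonneg_left (e.trans (add_le_add k1 k2)) (hs.pos i).le
      _ = _ := by ring

/-- Cofactors and determinant. -/
theorem tame_adj (hs : VSeq μ n l y r) {g : Fin n → Fin n → ℕ → X → ℝ}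
    (hg : ∀ a b, Tame D n l y r (g a b) (if a = b then 1 else 0)) :
    ∃ (c : Fin n → Fin n → ℕ → X → ℝ) (w : ℕ → X → ℝ), (∀ j b, ∃ e, Tame D n l y r (c j b) e) ∧
      Tame D n l y r w 1 ∧
      ∀ i a j k, ∑ b, c j b i a * g b k i a = if k = j then w i a else 0 := by
  let T : Subring ((ℕ → X → ℝ) × ℝ) :=
    { carrier := {p | Tame D n l y r p.1 p.2}
      mul_mem' := fun ha hb => ha.mul hs hb
      one_mem' := tame_const 1
      add_mem' := fun ha hb => ha.add hs hb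
      zero_mem' := tame_const 0
      neg_mem' := fun {p} hp => by
        have := (tame_const (D := D) (-1)).mul hs hp
        rw [neg_one_mul] at this
        exact this.congr (.of_forall fun i => ae_of_all _ fun a => by simp) }
  let M : Matrix (Fin n) (Fin n) T := .of fun a b => ⟨(g a b, if a = b then 1 else 0), hg a b⟩
  refine ⟨fun j b => (M.adjugate j b).1.1, M.det.1.1, fun j b => ⟨_, (M.adjugate j b).2⟩, ?_,
    fun i a j k => ?_⟩
  · have h1 : Tame D n l y r M.det.1.1 M.det.1.2 := M.det.2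
    have h2 := ((RingHom.snd (ℕ → X → ℝ) ℝ).comp T.subtype).map_det M
    have h3 : ((RingHom.snd (ℕ → X → ℝ) ℝ).comp T.subtype).mapMatrix M = 1 := by
      ext a b
      rw [Matrix.one_apply]
      rfl
    rw [h3, Matrix.det_one] at h2
    exact (show M.det.1.2 = 1 from h2) ▸ h1
  · let φ : T →+* ℝ := (Pi.evalRingHom (fun _ : X => ℝ) a).comp
      ((Pi.evalRingHom (fun _ : ℕ => X → ℝ) i).comp ((RingHom.fst (ℕ → X → ℝ) ℝ).comp T.subtype))
    have h1 := congrArg φ (congrFun (congrFun M.adjugate_mul j) k)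
    rw [Matrix.mul_apply, map_sum, Matrix.smul_apply, Matrix.one_apply, smul_eq_mul, map_mul] at h1
    simp only [map_mul] at h1
    refine Eq.trans h1 ?_
    by_cases h : j = k
    · rw [if_pos h, if_pos h.symm, map_one, mul_one]
      rfl
    · rw [if_neg h, if_neg (Ne.symm h), map_zero, mul_zero]

end RC
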