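import Pool.Agent.P.MP_6472e5_gt.E11
import Pool.Agent.P.MP_6472e5_gt.E12

/-! Export of block E: the Bochner inequality on the cover. -/

set_option autoImplicit false
set_option linter.unusedSectionVars false

noncomputable section

namespace RC

open MeasureTheory Set Filter Topology Metric

variable {X : Type} [MetricSpace X] [ProperSpace X] [MeasurableSpace X] [BorelSpace X]
  {μ : Measure X} {D : DS μ} {κ : ℝ} {n : ℕ}

theorem Cov.rs {m : ℕ} [HasBlow (m + 2)] [HasStr m] {Y : Type} [MetricSpace Y] [ProperSpace Y]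
    [MeasurableSpace Y] [BorelSpace Y] {μ' : Measure Y} {D' : DS μ'} {Γ : Y → Y} {π : Y → X}
    (c : Cov D D' Γ π) (h : HP D κ (m + 2)) (h2 : N2 D m) (f : FT D κ (m + 2))
    (l : Lim D m Γ π) : RS D' κ (m + 2) := by
  have e : Env D D' Γ π κ m := ⟨c, h, h2, f, l⟩
  have h1 : e.P1 univ := e.p1_Gd.mono fun x _ => e.all_good x
  exact ⟨h.κ_nonneg, by omega, fun y r hr => e.pos' y hr, c.geo, c.flow, c.s2l,
    fun f hf Lf hL φ hφ Lφ l1 l2 h2 h0 b1 b2 => e.be h1 hf hL hφ l1 l2 h2 h0 b1 b2⟩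

end RC
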