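import Pool.Agent.P.MP_6472e5_gt.Ca5
import Pool.Agent.P.MP_6472e5_gt.DeV
import Pool.Agent.P.MP_6472e5_gt.SgF

/-! Export of block S: the heat flow. -/

set_option autoImplicit false
set_option linter.unusedSectionVars false

noncomputable section

namespace RC

open MeasureTheory Set Filter Topology Metric

variable {X : Type} [MetricSpace X] [SecondCountableTopology X] [MeasurableSpace X] [BorelSpace X]
  {μ : Measure X}

open ContinuousLinearMap in
theorem Sg.Model.flow {D : DS μ} {V : Type} [NormedAddCommGroup V] [InnerProductSpace ℝ V]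
    [CompleteSpace V] {ι : V →L[ℝ] Lp ℝ 2 μ} (M : Sg.Model D ι) : D.Flow where
  heat f hf := by
    obtain ⟨x, hx⟩ := exists_Lp hf
    exact M.isHeat hx (fun t _ => M.P_eq hx t) fun t ht => M.L_eq hx ht
  uniq f u w hf h t ht := by
    obtain ⟨x, hx⟩ := exists_Lp hf
    exact (M.uniq hx h ht).imp (·.trans (M.P_eq hx t).symm) (·.trans (M.L_eq hx ht).symm)
  memLp f t hf := M.P_memLp hf t
  L_mem f t hf ht := M.memV (M.L_lift (exists_Lp hf).choose_spec ht)
  congr f g t hf h := by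
    obtain ⟨x, hx⟩ := exists_Lp hf
    exact (M.P_eq hx t).trans (M.P_eq (h.symm.trans hx) t).symm
  L_congr f g t hf h ht := by
    obtain ⟨x, hx⟩ := exists_Lp hf
    exact (M.L_eq hx ht).trans (M.L_eq (h.symm.trans hx) ht).symm
  add f g t hf hg := by
    obtain ⟨x, hx⟩ := exists_Lp hf
    obtain ⟨y, hy⟩ := exists_Lp hg
    have e := M.P_eq (add_ae hx hy) t
    rw [map_add] at e
    exact e.trans (add_ae (M.P_eq hx t) (M.P_eq hy t)).symm
  L_add f g t hf hg ht := by
    obtain ⟨x, hx⟩ := exists_Lp hf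
    obtain ⟨y, hy⟩ := exists_Lp hg
    have e := M.L_eq (add_ae hx hy) ht
    rw [map_add] at e
    exact e.trans (add_ae (M.L_eq hx ht) (M.L_eq hy ht)).symm
  smul c f t hf := by
    obtain ⟨x, hx⟩ := exists_Lp hf
    have e := M.P_eq (smul_ae c hx) t
    rw [map_smul] at e
    exact e.trans (smul_ae c (M.P_eq hx t)).symm
  L_smul c f t hf ht := by
    obtain ⟨x, hx⟩ := exists_Lp hf
    have e := M.L_eq (smul_ae c hx) ht
    rw [map_smul] at e
    exact e.trans (smul_ae c (M.L_eq hx ht)).symm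
  semi f s t hf hs ht := by
    obtain ⟨x, hx⟩ := exists_Lp hf
    have e := M.P_eq (M.P_eq hx t) s
    rw [M.ctrH.fc_fc, pf_add hs ht] at e
    exact (M.P_eq hx _).trans e.symm
  L_semi f s t hf hs ht := by
    obtain ⟨x, hx⟩ := exists_Lp hf
    have e := M.P_eq (M.L_eq hx ht) s
    rw [M.ctrH.fc_fc, pf_Ef _ hs ht] at e
    exact (M.L_eq hx (add_pos_of_nonneg_of_pos hs ht)).trans e.symm
  L_semi' f s t hf hs ht := by
    obtain ⟨x, hx⟩ := exists_Lp hf
    have e := M.L_eq (M.P_eq hx t) hs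
    rw [M.ctrH.fc_fc, mul_comm, pf_Ef _ ht hs, add_comm] at e
    exact (M.L_eq hx (add_pos_of_pos_of_nonneg hs ht)).trans e.symm
  comm f hf Lf t h hL ht := by
    obtain ⟨v, hv⟩ := M.surj f hf
    obtain ⟨y, hy⟩ := exists_Lp hL
    have e := M.P_eq hy t
    rw [← (M.comm ht ((M.lap_iff hv hy).1 h)).1] at e
    exact (M.L_eq hv ht).trans e.symm
  symm f g t hf hg := M.symm hf hg t
  L_symm f g t hf hg ht := by
    obtain ⟨x, hx⟩ := exists_Lp hf
    obtain ⟨y, hy⟩ := exists_Lp hg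
    rw [int_eq (M.L_eq hx ht) hy, int_eq hx (M.L_eq hy ht), M.ctrH.fc_symm]
  n2_le f t hf := by
    obtain ⟨x, hx⟩ := exists_Lp hf
    rw [n2_eq (M.P_eq hx t), n2_eq hx]
    exact pow_le_pow_left₀ (norm_nonneg _) ((M.ctrH.norm_le (norm_pf t) x).trans_eq (one_mul _)) 2
  E_le f t hf ht := by
    obtain ⟨x, hx⟩ := exists_Lp hf
    rw [M.E_eq (M.P_lift hx ht), n2_eq hx]
    exact M.E_le ht x
  E_mono f hf t := by
    obtain ⟨v, hv⟩ := M.surj f hf
    rw [M.E_eq (M.P_V hv t), M.E_eq hv]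
    exact M.E_mono t v
  L_le f t hf ht := by
    obtain ⟨x, hx⟩ := exists_Lp hf
    rw [n2_eq (M.L_eq hx ht), n2_eq hx, ← div_pow, div_eq_inv_mul]
    exact pow_le_pow_left₀ (norm_nonneg _) (M.ctrH.norm_le (norm_lf ht) x) 2
  L_le' f hf t ht := by
    obtain ⟨v, hv⟩ := M.surj f hf
    rw [n2_eq (M.L_eq hv ht), M.E_eq hv]
    exact M.L_le' ht v
  derV f t hf ht := by
    obtain ⟨x, hx⟩ := exists_Lp hf
    exact M.derV_of ((lt_mem_nhds ht).mono fun s hs => M.P_lift hx hs) (M.L_lift hx ht)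
      (lift_deriv 1 ht x)
  L_lap f t hf ht := by
    obtain ⟨x, hx⟩ := exists_Lp hf
    exact (M.lap_iff (M.L_lift hx ht) (M.LL_lift hx ht)).2 (M.lap_lift _ ht x)
  L_derV f t hf ht := by
    obtain ⟨x, hx⟩ := exists_Lp hf
    exact M.derV_of ((lt_mem_nhds ht).mono fun s hs => M.L_lift hx hs)
      ((M.emb_lift _ ht x).symm ▸ M.LL_lift hx ht) (lift_deriv _ ht x)
  E_zero f hf := by
    obtain ⟨v, hv⟩ := M.surj f hf
    exact M.E_tendsto (.of_forall (M.P_V hv)) hv (M.ctrV.P_zero M.denseV v)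
  n2_zero f hf := by
    obtain ⟨v, hv⟩ := M.surj f hf
    exact (M.form v v).2.congr fun t => by rw [n2_eq (sub_ae (M.P_eq hv t) hv)]
  der_zero f hf Lf h hL := by
    obtain ⟨v, hv⟩ := M.surj f hf
    obtain ⟨y, hy⟩ := exists_Lp hL
    refine (n2_tendsto (.of_forall fun t => smul_ae t⁻¹ (sub_ae (M.P_eq hv t) hv)) hy).2
      (tendsto_sub_nhds_zero_iff.1 ((M.ctrH.gf_zero M.denseH (ι v - y)).congr' ?_))
    exact eventually_mem_nhdsWithin.mono fun t ht => (M.comm ht ((M.lap_iff hv hy).1 h)).2.symm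
  form f hf g hg := by
    obtain ⟨v, hv⟩ := M.surj f hf
    obtain ⟨w, hw⟩ := M.surj g hg
    rw [M.G_eq hv hw]
    exact (M.form v w).1.congr fun t => congrArg _ (int_eq (sub_ae hv (M.P_eq hv t)) hw).symm
  dom f C hf h := M.dom hf h
  markov f t a b hf ha hb h := M.markov hf ha hb h t
  pos f t hf h := M.pos hf h t
  l1 f t hf h := M.l1 hf h t
  jensen f φ t hf hφ hb h := M.jensen hf hφ hb h t
  res f ε hf hε := by
    obtain ⟨x, hx⟩ := exists_Lp hf
    have e := M.lap_res hε x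
    rw [← M.emb_adj] at e
    refine ⟨_, M.mem _, (M.lap_iff .rfl (smul_ae _ (sub_ae .rfl hx))).2 e, ?_, fun a b ha hb h => ?_⟩
    · rw [n2_eq .rfl, n2_eq hx, M.emb_adj]
      exact pow_le_pow_left₀ (norm_nonneg _)
        ((M.ctrH.norm_le (norm_rf hε) x).trans_eq (one_mul _)) 2
    · rw [M.emb_adj]
      exact ((fix_iff _ _ .rfl).1 (M.res_fix (lip_clamp a b) (clamp_zero ha hb) ε hε
        ((fix_iff _ _ hx).2 (h.mono fun _ => (clamp_iff (ha.trans hb)).2)))).mono
        fun _ => (clamp_iff (ha.trans hb)).1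
  res_lim f ε g hf h0 hε hg := by
    obtain ⟨x, hx⟩ := exists_Lp hf
    choose v hv using fun k => M.surj _ (hg k).1
    have e := fun k => M.res_uniq (h0 k)
      ((M.lap_iff (hv k) (smul_ae _ (sub_ae (hv k) hx))).1 (hg k).2)
    refine ⟨(n2_tendsto (.of_forall hv) hx).2 ((M.ctrH.res_lim M.denseH h0 hε x).congr
      fun k => (e k).symm), fun hf => ?_⟩
    obtain ⟨w, hw⟩ := M.surj f hf
    obtain rfl : x = ι w := Lp.ext (hx.symm.trans hw)
    exact M.E_tendsto (.of_forall hv) hw ((M.ctrV.res_lim M.denseV h0 hε w).congr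
      fun k => M.inj ((M.inter _ w).trans (e k).symm))

theorem DS.flow (D : DS μ) : D.Flow := (Sg.model D).flow

end RC
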