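import Pool.Agent.P.MP_6472e5_gt.CovD
import Pool.Agent.P.MP_6472e5_gt.ClH

/-! Export of block V2: structure theory. -/

set_option autoImplicit false
set_option linter.unusedSectionVars false

noncomputable section

namespace RC

open MeasureTheory Set Filter Topology Metric

variable {X : Type} [MetricSpace X] [ProperSpace X] [MeasurableSpace X] [BorelSpace X]
  {μ : Measure X} {D : DS μ} {κ : ℝ} {n : ℕ}

theorem hasStr (m : ℕ) [HasBlow (m + 2)] : HasStr m where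
  er _ _ h h1 x₀ R₀ R _ hε := cl_er h h1 x₀ R₀ R hε
  meas _ _ h h2 x₀ R _ _ hε hβ := cl_meas h h2 x₀ R hε hβ
  cls _ h h2 _ _ A hθ := cl_cls h h2 A hθ
  reg _ h h2 _ A _ hy := cl_reg h h2 A hy
  chart _ h h2 _ A _ hε := cl_chart h h2 A hε

/-- Volume convergence in metric form. -/
theorem vcm {m : ℕ} [HasBlow (m + 2)] (h : HP D κ (m + 2)) (h1 : N1 D (m + 2)) (x₀ : X) (R : ℝ)
    {ε : ℝ} (hε : 0 < ε) : ∃ δ, 0 < δ ∧ ∀ x ∈ ball x₀ R, ∀ r, 0 < r → r ≤ δ →
      (∃ φ, GHApprox x r (0 : Euc (m + 2)) δ⁻¹ δ φ) →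
      D.Θ (m + 2) x r ≤ (1 + ε) * θ (m + 2) := by
  by_contra hn
  simp only [not_exists (p := fun δ : ℝ => _), not_and (a := (0 : ℝ) < _), not_forall,
    exists_prop, not_le] at hn
  have hp : ∀ i : ℕ, 0 < 1 / ((i : ℝ) + 1) := fun i => Nat.one_div_pos_of_nat
  choose y hy r hr hle hφ hΘ using fun i : ℕ => hn _ (hp i)
  obtain ⟨B⟩ := HasBlow.blow D κ h h1.n0 _ y r (seq_of_small hy hr hle)
  obtain ⟨τ, hτ, h0⟩ := B.cl_embed (w := (0 : Euc (m + 2))) fun R' ε' hR' hε' => by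
    filter_upwards [hyper_small (inv_pos.2 hR'), hyper_small (half_pos hε')] with i h2 h3
    obtain ⟨φ, h4⟩ := hφ i
    exact ⟨φ, h4.mono (hr i) ((le_inv_comm₀ hR' (hp i)).2 h2) (by linarith) (hp i).le⟩
  have h2 := cl_key_euc B.model.toPreModel (B.n1 h h1) hτ one_pos
  have h3 := ge_of_tendsto' (B.bla_Θ B.lf_base one_pos) fun i =>
    (hΘ i).le.trans_eq (by rw [one_mul])
  rw [h0] at h2
  exact (lt_mul_of_one_lt_left (θ_pos _) (lt_add_of_pos_right _ hε)).not_ge (h3.trans h2)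

theorem null_singular {m : ℕ} [HasBlow (m + 2)] (h : HP D κ (m + 2)) (h1 : N1 D (m + 2))
    (hb : bdry X m = ∅) : μH[(m : ℝ) + 1] (RegularSet X (m + 2))ᶜ = 0 := by
  refine measure_mono_null (fun x hx => ?_) (strat h h1.n0 m)
  intro U r B j A
  refine not_lt.1 fun hj => hx (cl_regular h h1 ?_)
  rcases cl_tri B.model (B.n1 h h1) A hj with h2 | h2
  · exact (B.ctr_const h fun _ => rfl).2.symm.trans_le h2
  have h3 : IsTangent x (hz (m + 1)) :=
    isTangent_of_ultra B.seq.pos B.seq.lim fun R ε _ hε => by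
      obtain ⟨ψ, h3⟩ := h2 1 one_pos (R + ε)
      filter_upwards [B.chart B.lf_base one_pos le_rfl h3 hε] with i ⟨φ, h4, _⟩
      rw [one_mul, add_sub_cancel_right, mul_zero, zero_add] at h4
      exact ⟨φ, h4⟩
  obtain ⟨Z, _, -, z, s, hs, h4, h5⟩ : Splits x (m + 2) := by
    by_contra h4
    have h5 : x ∈ bdry X m :=
      subset_closure ⟨h4, fun h5 => h5 ⟨NNReal, inferInstance, inferInstance, 0, h3⟩⟩
    rwa [hb] at h5
  obtain ⟨B'⟩ := HasBlow.blow D κ h h1.n0 (hyperfilter ℕ) (fun _ => x) s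
    ⟨⟨x, 1, fun _ => mem_ball_self one_pos⟩, hs, h4.mono_left Nat.hyperfilter_le_atTop⟩
  obtain ⟨τ, hτ, h0⟩ := B'.cl_embed fun R ε hR hε =>
    (h5 R ε hR hε).filter_mono Nat.hyperfilter_le_atTop
  have h6 : Isometry fun v : Euc (m + 2) => WithLp.toLp 2 (v, z) :=
    Isometry.of_dist_eq fun v w => by
      rw [← sq_eq_sq₀ dist_nonneg dist_nonneg, cl_prod_dist]
      simp
  have h7 := cl_key_euc B'.model.toPreModel (B'.n1 h h1) (hτ.comp h6) one_pos
  rw [Function.comp_apply, h0] at h7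
  exact (B'.ctr_const h fun _ => rfl).2.symm.trans_le h7

end RC
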